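import Pool.Agent.Lib.MP_a8dae7_an.UN.Defs

/-!
# MP_a8dae7_an, UN: Specs, part B (helper93): sections 2, 4, 5, 1, 6 of /team-store/MP_a8dae7_an_UNIFORM_h93.md

Every `SpecXXX` is a `def : Prop`; the module `XXX.lean` proves `theorem specXXX (...) : SpecXXX`, in its own
namespace `Pool.Agent.Lib.MP_a8dae7_an.UN.XXXM`, from the Specs named in the docstring (as hypotheses).
-/

set_option autoImplicit false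

open MeasureTheory
open scoped ContDiff

namespace Pool.Agent.Lib.MP_a8dae7_an.UN

open Pool.Agent.Lib.MP_a8dae7_an.CV (EE zv ex pq pi2 AA sl bm PosAt PosCurved)

/-- The target of part A (block estimate, section 3). -/
def SpecPP : Prop := ∀ (m : ℕ) (c R A : ℝ) (M : ℕ → ℝ), 1 ≤ A → Cls c R M → ∃ C : ℝ, 0 < C ∧
  ∀ (ch : UChart (m + 1) c R M), Dm ch (1 / (8 * A)) → ∀ (Lt : Lat (m + 2) A) (om : EE (m + 2)) (e : EE (m + 1))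
    (L : EE m →ₗᵢ[ℝ] EE (m + 1)), Slice ch om e L →
  ∀ (lam r th w sg0 phi1 phi2 : ℝ) (E : Set (EE (m + 1))), 1 ≤ lam → 1 ≤ r → r ^ 3 ≤ lam ^ 2 → 0 < th →
    th ^ 2 * r ≤ 1 → 0 < w → w ≤ 1 → 1 ≤ w * lam / r → 0 ≤ phi1 → 0 ≤ phi2 → MeasurableSet E →
    CH ch Lt om e sg0 (10 * th) E lam r w (w * lam / r) phi1 phi2 →
  ∀ (s : Finset (Fin (m + 2) → ℤ)) (a : (Fin (m + 2) → ℤ) → ℂ),
    (∀ j ∈ s, ‖Lt.fr j‖ = lam ∧ ‖Lt.fr j - lam • om‖ ≤ r) →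
    ∫ q in {q : EE (m + 1) | ‖q‖ ≤ 2 * dl (m + 1) R ∧ |inner ℝ e q - sg0| ≤ 10 * th ∧ q ∈ E},
      ‖es Lt s a (ch.X q)‖ ^ 2 ≤
    C * (th * r ^ 2 / (w * lam) + th / w + w + (Real.sqrt w)⁻¹ * (phi1 + phi2 * w)) * ∑ j ∈ s, ‖a j‖ ^ 2

/-! ## Part S: smooth multipliers (landed, not needed any more) -/

/-- **ML** (150). Smooth multipliers cost a constant. `f = ∫ f^(y) e^{i y·x} dy`, `|f^(y)| ≤ C A0 (1+|y|)^{-(N+D+1)}` (Fourier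
inversion for a smooth function supported in `‖x‖ ≤ 2`), then Cauchy-Schwarz with the weight `|f^|`. -/
def SpecML : Prop := ∀ D N : ℕ, D + 1 ≤ N → ∃ C : ℝ, 0 < C ∧ ∀ (f : EE D → ℂ) (A0 : ℝ), 0 ≤ A0 → ContDiff ℝ ∞ f →
  (∀ x, 2 < ‖x‖ → f x = 0) → (∀ j ≤ N + D + 1, ∀ x, ‖iteratedFDeriv ℝ j f x‖ ≤ A0) →
  ∀ (s : Finset (Fin D → ℤ)) (b : (Fin D → ℤ) → ℂ) (x : (Fin D → ℤ) → EE D),
    ‖∑ j ∈ s, b j * f (x j)‖ ^ 2 ≤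
      C * A0 ^ 2 * ∫ y : EE D, ((1 + ‖y‖) ^ N)⁻¹ * ‖∑ j ∈ s, b j * ex y (x j)‖ ^ 2

/-- **FP** (landed by helper70, not needed any more), from CV.SpecNG. -/
def SpecFP : Prop := ∀ (k : ℕ) (c R : ℝ) (M : ℕ → ℝ), Cls c R M → ∀ (N : ℕ) (Ac : ℕ → ℝ), ∃ C : ℝ, 0 < C ∧
  ∀ (ch : UChart k c R M) (eta : EE (k + 1)) (chi : EE k → ℝ) (h : ℝ), 1 ≤ ‖eta‖ → 0 < h → ContDiff ℝ ∞ chi →
  (∀ q, 3 * dl k R < ‖q‖ → chi q = 0) →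
  (∀ j ≤ N, ∀ q, ‖iteratedFDeriv ℝ j chi q‖ ≤ Ac j * Real.sqrt ‖eta‖ ^ j) →
  (∀ q, chi q ≠ 0 → ∃ v : EE k, ‖v‖ ≤ 1 ∧ h * Real.sqrt ‖eta‖ ≤ |inner ℝ eta (fderiv ℝ ch.X q v)|) →
  ‖∫ q, ((chi q : ℝ) : ℂ) * ex eta (ch.X q)‖ ≤ C * h⁻¹ ^ N

/-! ## Part O: almost orthogonality of the cubes without loss (section 2; sub-steps in UN/SpecO.lean, helper99/helper67) -/

/-- `1` on `|s| ≤ 1`, `0` for `|s| ≥ 2` -/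
noncomputable def psi0 (s : ℝ) : ℝ := 1 - Real.smoothTransition (s - 1) - Real.smoothTransition (-s - 1)

/-- supported in `[1/2, 2]`; `psi0(s) + ∑_{i=1}^{I} (phP(s/2^i) + phP(-s/2^i)) = 1` for `|s| ≤ 2^I` -/
noncomputable def phP (s : ℝ) : ℝ := Real.smoothTransition (2 * s - 1) - Real.smoothTransition (s - 1)

/-- the cutoff of the chart: `1` on `‖q‖ ≤ dl`, `0` for `‖q‖ ≥ 3/2 dl` (only used when `0 < R`) -/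
noncomputable def cutq (k : ℕ) {R : ℝ} (hR : 0 < R) : ContDiffBump (0 : EE k) where
  rIn := dl k R
  rOut := 3 / 2 * dl k R
  rIn_pos := by unfold dl; positivity
  rIn_lt_rOut := by have : 0 < dl k R := by unfold dl; positivity
                    linarith

/-- label of the cube of side `l` -/
noncomputable def cbl {D : ℕ} (l : ℝ) (x : EE D) : Fin D → ℤ := fun i => ⌊x i / l⌋

/-- side of the cubes at the angle `th` -/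
noncomputable def sd (k : ℕ) (th : ℝ) : ℝ := (th ^ 2)⁻¹ / (64 * (k + 1))

/-- corner of the big cube of side `lam^(2/3)/(64(k+1))` containing `n` (independent of the angle; `‖n - Nb lam n‖ ≤ lam^(2/3)/64 ≤ lam th/64`) -/
noncomputable def Nb {k : ℕ} (lam : ℝ) (n : EE (k + 1)) : EE (k + 1) :=
  WithLp.toLp 2 fun i => (lam ^ (2 / 3 : ℝ) / (64 * (k + 1))) * (⌊n i / (lam ^ (2 / 3 : ℝ) / (64 * (k + 1)))⌋ : ℝ)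

/-- amplitude of the piece (`sg = ±1`); constant on the big cubes -/
noncomputable def am {k : ℕ} {c R : ℝ} {M : ℕ → ℝ} (ch : UChart k c R M) (f : ℝ → ℝ) (sg lam th : ℝ)
    (n : EE (k + 1)) (q : EE k) : ℝ := f (sg * sn ch (Nb lam n) q / (lam * th))

/-- the frequencies of `s` in the cube with label `lb` -/
noncomputable def bk {D : ℕ} {A : ℝ} (Lt : Lat D A) (l : ℝ) (s : Finset (Fin D → ℤ)) (lb : Fin D → ℤ) :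
    Finset (Fin D → ℤ) := s.filter fun j => cbl l (Lt.fr j) = lb

/-- the block hypothesis: every cube of side `sd k th` containing a frequency of `s` has block norm `≤ BB` -/
def BH {k : ℕ} {c R : ℝ} {M : ℕ → ℝ} (ch : UChart k c R M) {A : ℝ} (Lt : Lat (k + 1) A) (lam th BB : ℝ)
    (s : Finset (Fin (k + 1) → ℤ)) : Prop :=
  ∀ j0 ∈ s, ∀ b : (Fin (k + 1) → ℤ) → ℂ,
    ∫ q in {q : EE k | ‖q‖ ≤ 2 * dl k R ∧ |sn ch (Lt.fr j0) q| ≤ 5 * th * lam},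
      ‖es Lt (bk Lt (sd k th) s (cbl (sd k th) (Lt.fr j0))) b (ch.X q)‖ ^ 2 ≤
    BB * ∑ j ∈ bk Lt (sd k th) s (cbl (sd k th) (Lt.fr j0)), ‖b j‖ ^ 2

/-- **LS** (150). Sums over the lattice: number of frequencies in a ball. -/
def SpecLS : Prop := ∀ (D : ℕ) (A : ℝ), 1 ≤ A → ∃ C : ℝ, 0 < C ∧ (∀ (Lt : Lat D A) (s : Finset (Fin D → ℤ)) (x : EE D)
    (rho : ℝ), 0 ≤ rho → (∀ j ∈ s, ‖Lt.fr j - x‖ ≤ rho) → (s.card : ℝ) ≤ C * (1 + rho) ^ D) ∧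
  (∀ (Lt : Lat D A) (s : Finset (Fin D → ℤ)) (x : EE D)
    (rho : ℝ), 0 ≤ rho → (∀ z ∈ s, ‖Lt.du z - x‖ ≤ rho) → (s.card : ℝ) ≤ C * (1 + rho) ^ D) ∧
  (∀ (Lt : Lat D A) (z : Fin D → ℤ), z ≠ 0 → 6 / A ≤ ‖Lt.du z‖)

/-- **TC** (80). Number of cubes of side `r/(64(k+1))` in a ball. `rep lb` is a point of the cube `lb`. -/
def SpecTC : Prop := ∀ k : ℕ, ∃ C : ℝ, 0 < C ∧
  ∀ (r K : ℝ) (x : EE (k + 1)) (S : Finset (Fin (k + 1) → ℤ)) (rep : (Fin (k + 1) → ℤ) → EE (k + 1)),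
  0 < r → 1 ≤ K → (∀ lb ∈ S, cbl (r / (64 * (k + 1))) (rep lb) = lb ∧ ‖x - rep lb‖ ≤ K * r) →
  (S.card : ℝ) ≤ C * K ^ (k + 1)

/-- **O** (Specs of the sub-steps in UN/SpecO.lean). Almost orthogonality without loss. `f = phP`, or `f = psi0` at `th = lam^(-1/3)`. -/
def SpecO : Prop := ∀ (k : ℕ) (c R A : ℝ) (M : ℕ → ℝ), Cls c R M → 1 ≤ A → ∃ C : ℝ, 0 < C ∧
  ∀ (ch : UChart k c R M) (Lt : Lat (k + 1) A) (lam th sg BB : ℝ) (s : Finset (Fin (k + 1) → ℤ))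
    (a : (Fin (k + 1) → ℤ) → ℂ) (f : ℝ → ℝ), 1 ≤ lam → lam ^ (-(1 / 3 : ℝ)) ≤ th → th ≤ 4 →
  (sg = 1 ∨ sg = -1) → (f = phP ∨ (f = psi0 ∧ th = lam ^ (-(1 / 3 : ℝ)))) → 0 ≤ BB →
  (∀ j ∈ s, ‖Lt.fr j‖ = lam) → BH ch Lt lam th BB s →
  ∫ q in Metric.closedBall (0 : EE k) (dl k R),
      ‖∑ j ∈ s, (am ch f sg lam th (Lt.fr j) q : ℂ) * (a j * ex (Lt.fr j) (ch.X q))‖ ^ 2 ≤
    C * BB * ∑ j ∈ s, ‖a j‖ ^ 2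

/-! ## Part C: counting (section 4) -/

/-- **CX** (200). Convexity of a chart: `phi(s) = ⟨nu - J q, X(q + s(q'-q)) - X q⟩`, `phi' = s ⟨J(q'-q), DX(..)(q'-q)⟩`; `gram` from
`⟨Jv, P DX v⟩ ≥ c|v|²` and `‖DX(q)-DX(q')‖ ≤ 2 R M_2 ≤ c/2`; (5): `⟨J(L(b1-b2)), X1 - X2⟩ ≥ c|b1-b2|²` on a slice. -/
def SpecCX : Prop := ∀ (k : ℕ) (c R : ℝ) (M : ℕ → ℝ), Cls c R M → ∀ (ch : UChart k c R M) (q q' : EE k), ‖q‖ ≤ R →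
  ‖q'‖ ≤ R → ‖fderiv ℝ ch.X q - fderiv ℝ ch.X q'‖ ≤ c / 2 ∧ ‖ch.X q - ch.X q'‖ ≤ M 1 * ‖q - q'‖ ∧
  c / 2 * ‖q' - q‖ ^ 2 ≤ inner ℝ (ch.nu - ch.J q) (ch.X q' - ch.X q) ∧
  inner ℝ (ch.nu - ch.J q) (ch.X q' - ch.X q) ≤ M 1 / 2 * ‖q' - q‖ ^ 2 ∧
  c * ‖q' - q‖ ^ 2 ≤ inner ℝ (ch.J (q' - q)) (ch.X q' - ch.X q) ∧
  (∀ (om : EE (k + 1)) (v : EE k), ‖om‖ = 1 → inner ℝ om (ch.J v) = 0 →
    c ^ 2 / 2 * ‖v‖ ^ 2 ≤ pi2 om (fderiv ℝ ch.X q v) (fderiv ℝ ch.X q' v)) ∧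
  (∀ om : EE (k + 1), ‖om‖ = 1 → inner ℝ om (ch.J (q' - q)) = 0 →
    c ^ 2 * ‖q' - q‖ ^ 2 ≤ pq om (ch.X q' - ch.X q))

/-- **LI** (200), from CX. The length of the set of `y` on a line (Lemma C). `x` arbitrary. -/
def SpecLI : Prop := ∀ (m : ℕ) (c R : ℝ) (M : ℕ → ℝ), Cls c R M → ∃ C : ℝ, 1 ≤ C ∧ ∀ (ch : UChart (m + 1) c R M)
  (om : EE (m + 2)) (e : EE (m + 1)) (L : EE m →ₗᵢ[ℝ] EE (m + 1)), Slice ch om e L →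
  ∀ (v x : EE (m + 2)) (sg th w' bt y1 y2 : ℝ) (q1 q2 : EE (m + 1)), ‖v‖ = 1 → inner ℝ om v = 0 → 0 ≤ th → 0 < bt →
  C * th ≤ bt → 0 < w' → ‖q1‖ ≤ R → ‖q2‖ ≤ R → inner ℝ e q1 = sg → inner ℝ e q2 = sg →
  |inner ℝ (ch.nu - ch.J (sg • e)) om| ≤ 20 * th →
  pq om (x - ch.X q1 + y1 • v) ≤ (3 * w') ^ 2 → pq om (x - ch.X q2 + y2 • v) ≤ (3 * w') ^ 2 →
  (((bt ≤ inner ℝ (ch.nu - ch.J q1) v ∧ bt ≤ inner ℝ (ch.nu - ch.J q2) v) ∨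
    (inner ℝ (ch.nu - ch.J q1) v ≤ -bt ∧ inner ℝ (ch.nu - ch.J q2) v ≤ -bt)) → |y1 - y2| ≤ C * w' / bt) ∧
  ((|inner ℝ (ch.nu - ch.J q1) v| ≤ bt ∧ |inner ℝ (ch.nu - ch.J q2) v| ≤ bt) → |y1 - y2| ≤ C * (bt + w'))

/-- **AV** (200). Averaging over two lattice directions: `S(f) = ∑_{z ∈ Z} ∫_{[0,1]²} f(du z + α v1 + β v2)` (finite range) is invariant
under translations of `f` by `span(v1,v2)`. `Bad`, `Good` measurable sets; if every line `{x + y v}` (`|y| ≤ 1`) meets `Bad` in measure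
`≤ l` and `x ∈ Good` whenever the line meets `Bad`, then `#{z : du z + α v1 + β v2 ∈ Bad for all α,β} ≤ l/2 * #{z : ... ∈ Good for some}`. -/
def SpecAV : Prop := ∀ (D : ℕ) (A : ℝ) (Lt : Lat D A) (z1 z2 : Fin D → ℤ) (v : EE D) (Bad Good : Set (EE D)) (l : ℝ)
  (G : Finset (Fin D → ℤ)), LinearIndependent ℝ ![Lt.du z1, Lt.du z2] → (∃ c1 c2 : ℝ, v = c1 • Lt.du z1 + c2 • Lt.du z2) →
  MeasurableSet Bad → MeasurableSet Good → Bornology.IsBounded Bad → Bornology.IsBounded Good → 0 ≤ l →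
  (∀ x, volume {y : ℝ | y ∈ Set.Icc (-1) 1 ∧ x + y • v ∈ Bad} ≤ ENNReal.ofReal l) →
  (∀ x (y : ℝ), y ∈ Set.Icc (-1 : ℝ) 1 → x + y • v ∈ Bad → x ∈ Good) →
  (∀ z, (∃ al be : ℝ, al ∈ Set.Icc (0 : ℝ) 1 ∧ be ∈ Set.Icc (0 : ℝ) 1 ∧
    Lt.du z + al • Lt.du z1 + be • Lt.du z2 ∈ Good) → z ∈ G) →
  ∀ Z : Finset (Fin D → ℤ), (∀ z ∈ Z, ∀ al be : ℝ, al ∈ Set.Icc (0 : ℝ) 1 → be ∈ Set.Icc (0 : ℝ) 1 →
    Lt.du z + al • Lt.du z1 + be • Lt.du z2 ∈ Bad) → (Z.card : ℝ) ≤ l / 2 * G.card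

/-- **CT** (120), from LS. Trivial counts in a tube. -/
def SpecCT : Prop := ∀ (D : ℕ) (A : ℝ), 1 ≤ A → ∃ C : ℝ, 0 < C ∧ ∀ (Lt : Lat D A) (om : EE D) (t : ℝ)
  (Z : Finset (Fin D → ℤ)), ‖om‖ = 1 → 1 / A ≤ t → (∀ z ∈ Z, |inner ℝ om (Lt.du z)| ≤ t ∧ pq om (Lt.du z) ≤ 5 ^ 2) →
  (Z.card : ℝ) ≤ C * t

/-- **LC** (250), from LI, AV, CT, CX. Lemma C. `Bad` = closed set of `x` (`t/2 ≤ |⟨om,x⟩| ≤ 3t`, some `q'` with `|P(X q - X q' + x)| ≤ 2w'`; use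
`≤ bt` for the small set, so that everything is closed), `Good = {|⟨om,x⟩| ≤ 3t, |Px| ≤ 4}`; note `w' ≥ w^4` since `t ≥ w³T`. -/
def SpecLC : Prop := ∀ (m : ℕ) (c R A : ℝ) (M : ℕ → ℝ), Cls c R M → 1 ≤ A → ∃ C : ℝ, 1 ≤ C ∧
  ∀ (ch : UChart (m + 1) c R M), Dm ch (1 / (8 * A)) → ∀ (Lt : Lat (m + 2) A) (om : EE (m + 2)) (e : EE (m + 1))
    (L : EE m →ₗᵢ[ℝ] EE (m + 1)), Slice ch om e L →
  ∀ (z1 z2 : Fin (m + 2) → ℤ) (v : EE (m + 2)) (lam r w T sg0 th bt : ℝ),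
  LinearIndependent ℝ ![Lt.du z1, Lt.du z2] → (∃ c1 c2 : ℝ, v = c1 • Lt.du z1 + c2 • Lt.du z2) → ‖v‖ = 1 →
  inner ℝ om v = 0 → 1 ≤ lam → 1 ≤ r → 0 < w → w ≤ 1 → T = w * lam / r → 1 ≤ T → 0 < th → 0 < bt → C * th ≤ bt →
  |inner ℝ (ch.nu - ch.J (sg0 • e)) om| ≤ 10 * th →
  |inner ℝ om (Lt.du z1)| ≤ w ^ 3 * T / 8 → |inner ℝ om (Lt.du z2)| ≤ w ^ 3 * T / 8 →
  pq om (Lt.du z1) ≤ (w ^ 4 / 8) ^ 2 → pq om (Lt.du z2) ≤ (w ^ 4 / 8) ^ 2 →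
  CH ch Lt om e sg0 (10 * th) {q | bt ≤ |inner ℝ (ch.nu - ch.J q) v|} lam r w T 0 (C / bt) ∧
  CH ch Lt om e sg0 (10 * th) {q | |inner ℝ (ch.nu - ch.J q) v| < bt} lam r w T (C * bt) C

/-- **DI** (250), from LS. The dichotomy (pigeonhole), `D ≥ 2`. Boxes: length `w^5 T/8` along `om`, transversal diameter `≤ w^5/8`; a box
with `K` points gives `K-1` differences: two independent ones (case 2), or all multiples of a primitive `z0`, so `(K-1)‖..‖ ≤ size of the box`.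
If `T ≤ C w^(-E)` the third case holds for any `z0` with `‖z0‖ = 1`. -/
def SpecDI : Prop := ∀ (D : ℕ) (A : ℝ), 2 ≤ D → 1 ≤ A → ∃ (C : ℝ) (E : ℕ), 0 < C ∧ ∀ (Lt : Lat D A) (om : EE D)
  (T w : ℝ), ‖om‖ = 1 → 0 < w → w ≤ 1 → 1 ≤ T →
  (∀ Z : Finset (Fin D → ℤ), (∀ z ∈ Z, |inner ℝ om (Lt.du z)| ≤ 4 * T / w ∧ pq om (Lt.du z) ≤ 4 ^ 2) →
    (Z.card : ℝ) ≤ w ^ 8 * T) ∨
  (∃ z1 z2 : Fin D → ℤ, LinearIndependent ℝ ![Lt.du z1, Lt.du z2] ∧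
    |inner ℝ om (Lt.du z1)| ≤ w ^ 5 * T / 8 ∧ |inner ℝ om (Lt.du z2)| ≤ w ^ 5 * T / 8 ∧
    pq om (Lt.du z1) ≤ (w ^ 5 / 8) ^ 2 ∧ pq om (Lt.du z2) ≤ (w ^ 5 / 8) ^ 2) ∨
  (∃ z0 : Fin D → ℤ, z0 ≠ 0 ∧ ‖Lt.du z0‖ ≤ C * w⁻¹ ^ E ∧ pq om (Lt.du z0) ≤ (C * w⁻¹ ^ E / T) ^ 2)

/-- **MI** (300), from PP, LC, DI, CT, LS. Block estimate for the minor cubes; the third case is the major one. `w1 = bt = Q^(-2)`,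
`w2 = Q^(-6)`, `th ≤ c4` (then `|J^* om| ≥ 1/2`, slices exist; split the slab `|s_{n0}| ≤ 5 lam th` into the sets `bt ≤ |⟨nu(q),v⟩|`, `< bt`). -/
def SpecMI : Prop := ∀ (m : ℕ) (c R A : ℝ) (M : ℕ → ℝ), Cls c R M → 1 ≤ A → ∃ (C c4 : ℝ) (E : ℕ), 0 < C ∧ 0 < c4 ∧
  ∀ (ch : UChart (m + 1) c R M), Dm ch (1 / (8 * A)) → ∀ (Lt : Lat (m + 2) A) (lam th Q : ℝ) (n0 : EE (m + 2))
    (s : Finset (Fin (m + 2) → ℤ)), 1 ≤ lam → lam ^ (-(1 / 3 : ℝ)) ≤ th → th ≤ c4 → 1 ≤ Q → Q ^ E ≤ th⁻¹ →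
  Q ^ E ≤ th * lam ^ (1 / 3 : ℝ) → ‖n0‖ = lam → (∀ j ∈ s, ‖Lt.fr j‖ = lam ∧ ‖Lt.fr j - n0‖ ≤ (th ^ 2)⁻¹) →
  (∀ a : (Fin (m + 2) → ℤ) → ℂ, ∫ q in {q : EE (m + 1) | ‖q‖ ≤ 2 * dl (m + 1) R ∧ |sn ch n0 q| ≤ 5 * th * lam},
    ‖es Lt s a (ch.X q)‖ ^ 2 ≤ C * Q⁻¹ * ∑ j ∈ s, ‖a j‖ ^ 2) ∨
  (∃ z0 : Fin (m + 2) → ℤ, z0 ≠ 0 ∧ ‖Lt.du z0‖ ≤ C * Q ^ E ∧
    pq (lam⁻¹ • n0) (Lt.du z0) ≤ (C * Q ^ E * (th ^ 2)⁻¹ / lam) ^ 2)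

/-- **B0** (150), from PP, CT, LS. Every block is bounded (`w = 1`, `E = univ`, `phi1 = C`), also for `th ≥ c4` (few points). -/
def SpecB0 : Prop := ∀ (m : ℕ) (c R A : ℝ) (M : ℕ → ℝ), Cls c R M → 1 ≤ A → ∃ C : ℝ, 0 < C ∧
  ∀ (ch : UChart (m + 1) c R M), Dm ch (1 / (8 * A)) → ∀ (Lt : Lat (m + 2) A) (lam th : ℝ) (n0 : EE (m + 2))
    (s : Finset (Fin (m + 2) → ℤ)) (a : (Fin (m + 2) → ℤ) → ℂ), 1 ≤ lam → lam ^ (-(1 / 3 : ℝ)) ≤ th → th ≤ 4 →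
  ‖n0‖ = lam → (∀ j ∈ s, ‖Lt.fr j‖ = lam ∧ ‖Lt.fr j - n0‖ ≤ (th ^ 2)⁻¹) →
  ∫ q in {q : EE (m + 1) | ‖q‖ ≤ 2 * dl (m + 1) R ∧ |sn ch n0 q| ≤ 5 * th * lam},
    ‖es Lt s a (ch.X q)‖ ^ 2 ≤ C * ∑ j ∈ s, ‖a j‖ ^ 2

/-! ## Part F: fold, planes, major cubes (section 5) -/

/-- **PL** (250). Frequencies in one plane `⟨fr j, du z0⟩ = const` are, after projection off `zet = du z0/‖du z0‖`, in an affine
lattice of `ℝ^k` of quality `(k+1) A`. (`⟨j,z0⟩` is constant; drop the coordinate where `|z0_i|` is maximal; `iota` any isometry onto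
`zet^⊥`.) -/
def SpecPL : Prop := ∀ (k : ℕ) (A : ℝ), 1 ≤ k → 1 ≤ A → ∀ (Lt : Lat (k + 1) A) (z0 : Fin (k + 1) → ℤ), z0 ≠ 0 →
  ∀ (iota : EE k →ₗᵢ[ℝ] EE (k + 1)), (∀ x, inner ℝ (Lt.du z0) (iota x) = 0) →
  ∀ (s : Finset (Fin (k + 1) → ℤ)) (p : ℝ), (∀ j ∈ s, inner ℝ (Lt.fr j) (Lt.du z0) = p) →
  ∃ (Lt' : Lat k ((k + 1) * A)) (g : (Fin (k + 1) → ℤ) → (Fin k → ℤ)), Set.InjOn g s ∧
    ∀ j ∈ s, iota (Lt'.fr (g j)) = Lt.fr j - (p / ‖Lt.du z0‖ ^ 2) • Lt.du z0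

/-- **UC** (250). The projected fold is a chart of the class `(c, R/8, 2^j M_j)`. `‖zet‖ = 1`, `e` unit, `J^* zet = |J^* zet| e`, `sg` with
`⟨nu - sg J e, zet⟩ = 0`, `|sg| ≤ R/2`, `iota` isometry onto `zet^⊥`, `l = √(1+sg²)`:
`X~(b) = iota^* X(sg e + l L b)`, `nu~ = iota^*(nu - sg J e)/l`, `J~ = iota^* J L`. -/
def SpecUC : Prop := ∀ (m : ℕ) (c R : ℝ) (M : ℕ → ℝ), Cls c R M → Cls c (R / 8) (fun j => 2 ^ j * M j) ∧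
  ∀ (ch : UChart (m + 1) c R M) (zet : EE (m + 2)) (e : EE (m + 1)) (L : EE m →ₗᵢ[ℝ] EE (m + 1))
    (iota : EE (m + 1) →ₗᵢ[ℝ] EE (m + 2)) (sg : ℝ), Slice ch zet e L → inner ℝ (ch.nu - sg • ch.J e) zet = 0 →
  |sg| ≤ R / 2 → (∀ x, inner ℝ zet (iota x) = 0) →
  ∃ ch' : UChart m c (R / 8) (fun j => 2 ^ j * M j),
    (∀ b, ch'.X b = ContinuousLinearMap.adjoint iota.toContinuousLinearMap
      (ch.X (sl e L sg (Real.sqrt (1 + sg ^ 2) • b)))) ∧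
    iota ch'.nu = (Real.sqrt (1 + sg ^ 2))⁻¹ • (ch.nu - sg • ch.J e) ∧ (∀ b, iota (ch'.J b) = ch.J (L b)) ∧
    ∀ dm : ℝ, Dm ch dm → Dm ch' dm

/-- **FF** (300), from CX, UC. The fold point of `q` (`‖q‖ ≤ 2dl`, `|⟨nu(q),zet⟩| ≤ th`): `e = J^*zet/|J^*zet|`, `⟨nu - sg* Je, zet⟩ = 0`,
`ch'` from UC with `sg*`; `q^ = sg* e + L b^` with `L^*J^*(X q - X q^) = 0` (strongly monotone, so a zero exists near `b1`, `q = sg e + L b1`: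
`|b^ - b1| ≤ C|sg - sg*|`); then `iota^*(X q) = X~(b^/l) + h n~`, `h = ⟨nu(q^), X q - X q^⟩/l ∈ [(c/2)|q-q^|²/l, (M_1/2)|q-q^|²/l]`, `n~ = ch'.nu`. -/
def SpecFF : Prop := ∀ (m : ℕ) (c R : ℝ) (M : ℕ → ℝ), Cls c R M → ∃ C c8 : ℝ, 0 < C ∧ 0 < c8 ∧
  ∀ (ch : UChart (m + 1) c R M) (zet : EE (m + 2)) (iota : EE (m + 1) →ₗᵢ[ℝ] EE (m + 2)) (th : ℝ), ‖zet‖ = 1 →
  (∀ x, inner ℝ zet (iota x) = 0) → 0 < th → th ≤ c8 →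
  (∀ q : EE (m + 1), ‖q‖ ≤ 2 * dl (m + 1) R → th < |inner ℝ (ch.nu - ch.J q) zet|) ∨
  ∃ ch' : UChart m c (R / 8) (fun j => 2 ^ j * M j), (∀ dm : ℝ, Dm ch dm → Dm ch' dm) ∧
    ∀ q : EE (m + 1), ‖q‖ ≤ 2 * dl (m + 1) R → |inner ℝ (ch.nu - ch.J q) zet| ≤ th →
    ∃ (b : EE m) (h : ℝ), ‖b‖ ≤ dl m (R / 8) ∧ 0 ≤ h ∧ h ≤ C * inner ℝ (ch.nu - ch.J q) zet ^ 2 ∧
      inner ℝ (ch.nu - ch.J q) zet ^ 2 ≤ C * h ∧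
      ContinuousLinearMap.adjoint iota.toContinuousLinearMap (ch.X q) = ch'.X b + h • ch'.nu

/-- **FD** (350), from CX, FF. The fold: domination of measures. Two uses of `lintegral_image_eq_lintegral_abs_det_fderiv_mul` (no
measurability of the function needed): for `f q = iota^*(X q)` on each side `± ⟨nu(q),zet⟩ > 0` (injective there by `conv`;
`|det f'| ≥ c'|⟨nu(q),zet⟩|`) and for `g(b,h) = X~ b + h n~` (injective on `‖b‖ ≤ dl, h ≥ 0`: apply `J~^*`; `|det g'| ≤ C`), with the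
function `F(y) H(y)^(-1/2)`, `H(g(b,h)) = h`. -/
def SpecFD : Prop := ∀ (m : ℕ) (c R : ℝ) (M : ℕ → ℝ), Cls c R M → ∃ C c8 : ℝ, 0 < C ∧ 0 < c8 ∧
  ∀ (ch : UChart (m + 1) c R M) (zet : EE (m + 2)) (iota : EE (m + 1) →ₗᵢ[ℝ] EE (m + 2)) (th : ℝ), ‖zet‖ = 1 →
  (∀ x, inner ℝ zet (iota x) = 0) → 0 < th → th ≤ c8 →
  (∀ q : EE (m + 1), ‖q‖ ≤ 2 * dl (m + 1) R → th < |inner ℝ (ch.nu - ch.J q) zet|) ∨
  ∃ ch' : UChart m c (R / 8) (fun j => 2 ^ j * M j), (∀ dm : ℝ, Dm ch dm → Dm ch' dm) ∧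
    ∀ F : EE (m + 1) → ENNReal, Measurable F →
    ∫⁻ q in {q : EE (m + 1) | ‖q‖ ≤ 2 * dl (m + 1) R ∧ |inner ℝ (ch.nu - ch.J q) zet| ≤ th},
      F (ContinuousLinearMap.adjoint iota.toContinuousLinearMap (ch.X q)) ≤
    ENNReal.ofReal C * ∫⁻ h in Set.Ioc (0 : ℝ) (C * th ^ 2), ENNReal.ofReal (Real.sqrt h)⁻¹ *
      ∫⁻ b in Metric.closedBall (0 : EE m) (dl m (R / 8)), F (ch'.X b + h • ch'.nu)

/-- **MB** (250), from FD, PL, `UU m`. Block estimate with a rational direction: all frequencies within `rho` of `± lam zet`; planes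
`⟨fr j, du z0⟩ ∈ 2πℤ + const`, at most `1 + ‖du z0‖ rho²/lam` of them. -/
def SpecMB (m : ℕ) : Prop := ∀ (c R A : ℝ) (M : ℕ → ℝ), Cls c R M → 1 ≤ A → ∃ C c8 : ℝ, 0 < C ∧ 0 < c8 ∧
  ∀ (ch : UChart (m + 1) c R M), Dm ch (1 / (8 * (m + 2).factorial * A)) → ∀ (Lt : Lat (m + 2) A) (z0 : Fin (m + 2) → ℤ)
    (lam rho th sg : ℝ) (s : Finset (Fin (m + 2) → ℤ)) (a : (Fin (m + 2) → ℤ) → ℂ), z0 ≠ 0 → 1 ≤ lam → 0 ≤ rho →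
  0 < th → th ≤ c8 → (sg = 1 ∨ sg = -1) →
  (∀ j ∈ s, ‖Lt.fr j‖ = lam ∧ ‖Lt.fr j - (sg * lam / ‖Lt.du z0‖) • Lt.du z0‖ ≤ rho) →
  ∫ q in {q : EE (m + 1) | ‖q‖ ≤ 2 * dl (m + 1) R ∧
      |inner ℝ (ch.nu - ch.J q) (Lt.du z0)| ≤ th * ‖Lt.du z0‖}, ‖es Lt s a (ch.X q)‖ ^ 2 ≤
    C * th * (1 + ‖Lt.du z0‖ * rho ^ 2 / lam) * ∑ j ∈ s, ‖a j‖ ^ 2

/-! ## Part G: assembly (sections 1 and 6) -/

/-- **MJ** (300), from MI, MB, O (also for one cube: `s` = the frequencies of one cube), LS, TC, B0 (`th` not small). One piece `th` (`sg = ±1`): minor cubes by O with MI, major cubes: at most `C Q^E` of them,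
Cauchy-Schwarz, O for one cube with MB. Result with `Q = min(1/th, th lam^(1/3))^c0`. -/
def SpecMJ (m : ℕ) : Prop := ∀ (c R A : ℝ) (M : ℕ → ℝ), Cls c R M → 1 ≤ A → ∃ C c0 : ℝ, 0 < C ∧ 0 < c0 ∧
  ∀ (ch : UChart (m + 1) c R M), Dm ch (1 / (8 * (m + 2).factorial * A)) → ∀ (Lt : Lat (m + 2) A) (lam th sg : ℝ)
    (s : Finset (Fin (m + 2) → ℤ)) (a : (Fin (m + 2) → ℤ) → ℂ), 1 ≤ lam → lam ^ (-(1 / 3 : ℝ)) ≤ th → th ≤ 4 →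
  (sg = 1 ∨ sg = -1) → (∀ j ∈ s, ‖Lt.fr j‖ = lam) →
  ∫ q in Metric.closedBall (0 : EE (m + 1)) (dl (m + 1) R),
      ‖∑ j ∈ s, (am ch phP sg lam th (Lt.fr j) q : ℂ) * (a j * ex (Lt.fr j) (ch.X q))‖ ^ 2 ≤
    C * (th ^ c0 + (th * lam ^ (1 / 3 : ℝ)) ^ (-c0)) * ∑ j ∈ s, ‖a j‖ ^ 2

/-- **ST** (200), from MJ, O, B0, LS. The induction step: sum over the pieces `th_i = 2^i lam^(-1/3) ≤ 4` (`|s_n(q)| ≤ 2 lam`), `psi0`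
piece by O with B0; `lam ≤ 1` by LS. -/
def SpecST (m : ℕ) : Prop := UU (m + 1)

/-- **U0** (80). Base of the induction: `EE 0` is a point, at most two frequencies. -/
def SpecU0 : Prop := UU 0

/-- **IF** (200). Charts of a positively curved set: from the construction of CV/IF; `R` small, `M_j` by compactness. -/
def SpecIF : Prop := ∀ (k : ℕ) (Sg : Set (EE (k + 1))) (p : EE (k + 1)), p ∈ Sg → PosAt Sg p →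
  ∃ (c R : ℝ) (M : ℕ → ℝ) (ch : UChart k c R M) (rho : ℝ), Cls c R M ∧ Dm ch (1 / (8 * (k + 1).factorial)) ∧ 0 < rho ∧
    ∀ x ∈ Sg, ‖x - p‖ < rho → ∃ q : EE k, ‖q‖ ≤ dl k R ∧ ch.X q = x

/-- **FN** (150), from `UU (m+1)`, IF, CV.SpecHM. The final theorem (`d = m + 2`), integer frequencies. -/
def SpecFN : Prop := ∀ (m : ℕ) (Sg : Set (EE (m + 2))), PosCurved Sg →
  ∃ C : ℝ, 0 < C ∧ ∀ (lam : ℝ) (s : Finset (Fin (m + 2) → ℤ)) (a : (Fin (m + 2) → ℤ) → ℂ), 0 ≤ lam →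
  (∀ n ∈ s, ‖zv n‖ = lam) →
  ∫⁻ x in Sg, ENNReal.ofReal (‖CV.es s a x‖ ^ 2) ∂(Measure.hausdorffMeasure ((m + 1 : ℕ) : ℝ)) ≤
    ENNReal.ofReal (C * ∑ n ∈ s, ‖a n‖ ^ 2)

end Pool.Agent.Lib.MP_a8dae7_an.UN
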