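import Pool.Agent.Lib.MP_a8dae7_an.UN.SpecA
import Pool.Agent.Lib.MP_a8dae7_an.UN.SpecB
import Pool.Agent.Lib.MP_a8dae7_an.CV.MO

/-!
# MP_a8dae7_an, UN: the projected slices are bilipschitz; a Gaussian integral (ASpec.SpecBL)
-/

set_option autoImplicit false

open MeasureTheory
open scoped ContDiff

namespace Pool.Agent.Lib.MP_a8dae7_an.UN.A_BL

open Pool.Agent.Lib.MP_a8dae7_an.CV (EE zv ex pq pi2 AA sl bm)
open Pool.Agent.Lib.MP_a8dae7_an.CV.MOM (pr pr_sub pq_eq norm_pr_le)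

variable {m : ℕ} {c R : ℝ} {M : ℕ → ℝ} {ch : UChart (m + 1) c R M} {om : EE (m + 2)}
  {e : EE (m + 1)} {L : EE m →ₗᵢ[ℝ] EE (m + 1)}

theorem dl_bd (hR : 0 < R) : 0 < dl (m + 1) R ∧ 5 * dl (m + 1) R ≤ R := by
  have h1 : (32 : ℝ) ≤ 32 ^ (m + 1) := by
    rw [pow_succ]
    nlinarith [one_le_pow₀ (a := (32 : ℝ)) (n := m) (by norm_num)]
  unfold dl
  refine ⟨by positivity, ?_⟩
  rw [mul_div_assoc', div_le_iff₀ (by positivity)]
  nlinarith

theorem norm_sl_le (hS : Slice ch om e L) {sg : ℝ} {b : EE m} (hR : 0 < R)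
    (hsg : |sg| ≤ 2 * dl (m + 1) R) (hb : ‖b‖ ≤ 3 * dl (m + 1) R) : ‖sl e L sg b‖ ≤ R := by
  have h1 := dl_bd (m := m) hR
  unfold sl
  calc ‖sg • e + L b‖ ≤ ‖sg • e‖ + ‖L b‖ := norm_add_le _ _
    _ = |sg| + ‖b‖ := by rw [norm_smul, hS.e_one, mul_one, L.norm_map, Real.norm_eq_abs]
    _ ≤ R := by linarith [h1.2]

theorem lower (hCX : SpecCX) (hcls : Cls c R M) (hS : Slice ch om e L) {sg : ℝ}
    {b1 b2 : EE m} (hsg : |sg| ≤ 2 * dl (m + 1) R) (h1 : ‖b1‖ ≤ 3 * dl (m + 1) R)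
    (h2 : ‖b2‖ ≤ 3 * dl (m + 1) R) :
    c ^ 2 * ‖b1 - b2‖ ^ 2 ≤ pq om (ch.X (sl e L sg b1) - ch.X (sl e L sg b2)) := by
  have hR := hcls.R_pos
  have h3 := hCX (m + 1) c R M hcls ch (sl e L sg b2) (sl e L sg b1) (norm_sl_le hS hR hsg h2)
    (norm_sl_le hS hR hsg h1)
  have h4 : sl e L sg b1 - sl e L sg b2 = L (b1 - b2) := by
    unfold sl
    rw [map_sub]
    abel
  have h5 := h3.2.2.2.2.2.2 om hS.om_one (by rw [h4]; exact hS.omL _)
  rwa [h4, L.norm_map] at h5

/-- the Gaussian integral over a ball -/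
theorem gauss (hCX : SpecCX) (hcls : Cls c R M) (hS : Slice ch om e L) {sg : ℝ}
    (hsg : |sg| ≤ 2 * dl (m + 1) R) (v : EE (m + 2)) {al : ℝ} (hal : 0 < al) :
    ∫ b in Metric.closedBall (0 : EE m) (3 * dl (m + 1) R),
      Real.exp (-(al ^ 2 * pq om (v - ch.X (sl e L sg b)))) ≤
      (2 / c * Real.sqrt Real.pi) ^ m * al⁻¹ ^ m := by
  have hc := hcls.c_pos
  have hdl := (dl_bd (m := m) hcls.R_pos).1
  have hXc : Continuous ch.X := ch.smooth.continuous
  have hslc : Continuous (fun b : EE m => sl e L sg b) := by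
    unfold sl
    exact continuous_const.add L.continuous
  have hpc : Continuous (fun b : EE m => pq om (v - ch.X (sl e L sg b))) := by
    have h0 : Continuous (fun b : EE m => v - ch.X (sl e L sg b)) :=
      continuous_const.sub (hXc.comp hslc)
    unfold pq
    exact (h0.norm.pow 2).sub ((continuous_const.inner h0).pow 2)
  obtain ⟨b0, hb0, hmin⟩ := (isCompact_closedBall (0 : EE m) (3 * dl (m + 1) R)).exists_isMinOn
    ⟨0, by simp [hdl.le]⟩ hpc.continuousOn
  have hb0' : ‖b0‖ ≤ 3 * dl (m + 1) R := by simpa using hb0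
  set be : ℝ := (al * c / 2) ^ 2 with hbe
  have hbe0 : 0 < be := by positivity
  have hle : ∀ b ∈ Metric.closedBall (0 : EE m) (3 * dl (m + 1) R),
      Real.exp (-(al ^ 2 * pq om (v - ch.X (sl e L sg b)))) ≤ Real.exp (-be * ‖b - b0‖ ^ 2) := by
    intro b hb
    have hb' : ‖b‖ ≤ 3 * dl (m + 1) R := by simpa using hb
    have h1 : pq om (v - ch.X (sl e L sg b0)) ≤ pq om (v - ch.X (sl e L sg b)) := hmin hb
    rw [pq_eq hS.om_one, pq_eq hS.om_one] at h1
    have h2 : ‖pr om (v - ch.X (sl e L sg b0))‖ ≤ ‖pr om (v - ch.X (sl e L sg b))‖ :=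
      le_of_sq_le_sq h1 (norm_nonneg _)
    have h3 : ‖pr om (ch.X (sl e L sg b) - ch.X (sl e L sg b0))‖ ≤
        2 * ‖pr om (v - ch.X (sl e L sg b))‖ := by
      have e1 : pr om (ch.X (sl e L sg b) - ch.X (sl e L sg b0)) =
          pr om (v - ch.X (sl e L sg b0)) - pr om (v - ch.X (sl e L sg b)) := by
        rw [← pr_sub]
        congr 1
        abel
      rw [e1]
      have := norm_sub_le (pr om (v - ch.X (sl e L sg b0))) (pr om (v - ch.X (sl e L sg b)))
      linarith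
    have h4 := lower hCX hcls hS hsg hb' hb0'
    rw [pq_eq hS.om_one, ← mul_pow] at h4
    have h4' : c * ‖b - b0‖ ≤ ‖pr om (ch.X (sl e L sg b) - ch.X (sl e L sg b0))‖ :=
      le_of_sq_le_sq h4 (norm_nonneg _)
    have h5 : c / 2 * ‖b - b0‖ ≤ ‖pr om (v - ch.X (sl e L sg b))‖ := by
      linarith
    have h7 : (c / 2 * ‖b - b0‖) ^ 2 ≤ ‖pr om (v - ch.X (sl e L sg b))‖ ^ 2 :=
      pow_le_pow_left₀ (by positivity) h5 2
    apply Real.exp_le_exp.2
    rw [pq_eq hS.om_one, neg_mul, neg_le_neg_iff, hbe]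
    calc (al * c / 2) ^ 2 * ‖b - b0‖ ^ 2
        = al ^ 2 * (c / 2 * ‖b - b0‖) ^ 2 := by ring
      _ ≤ al ^ 2 * ‖pr om (v - ch.X (sl e L sg b))‖ ^ 2 := by gcongr
  have hint0 : Integrable (fun b : EE m => Real.exp (-be * ‖b‖ ^ 2)) := by
    have := GaussianFourier.integrable_cexp_neg_mul_sq_norm_add (V := EE m) (b := (be : ℂ))
      (by simpa using hbe0) 0 0
    have h2 := this.norm
    refine h2.congr (Filter.Eventually.of_forall fun b => ?_)
    simp only [Complex.norm_exp]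
    congr 1
    simp only [zero_mul, add_zero]
    norm_cast
  have hint : Integrable (fun b : EE m => Real.exp (-be * ‖b - b0‖ ^ 2)) :=
    hint0.comp_sub_right b0
  calc ∫ b in Metric.closedBall (0 : EE m) (3 * dl (m + 1) R),
      Real.exp (-(al ^ 2 * pq om (v - ch.X (sl e L sg b))))
      ≤ ∫ b in Metric.closedBall (0 : EE m) (3 * dl (m + 1) R), Real.exp (-be * ‖b - b0‖ ^ 2) := by
        refine setIntegral_mono_on ?_ hint.integrableOn measurableSet_closedBall hle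
        exact (Real.continuous_exp.comp (continuous_const.mul hpc).neg).continuousOn.integrableOn_compact
          (isCompact_closedBall _ _)
    _ ≤ ∫ b : EE m, Real.exp (-be * ‖b - b0‖ ^ 2) :=
        setIntegral_le_integral hint (Filter.Eventually.of_forall fun _ => (Real.exp_pos _).le)
    _ = ∫ b : EE m, Real.exp (-be * ‖b‖ ^ 2) :=
        integral_sub_right_eq_self (fun b : EE m => Real.exp (-be * ‖b‖ ^ 2)) b0
    _ = (Real.pi / be) ^ ((m : ℝ) / 2) := by
        rw [GaussianFourier.integral_rexp_neg_mul_sq_norm hbe0, finrank_euclideanSpace_fin]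
    _ = (2 / c * Real.sqrt Real.pi) ^ m * al⁻¹ ^ m := by
        have h1 : Real.pi / be = (2 / c * Real.sqrt Real.pi * al⁻¹) ^ 2 := by
          rw [hbe, mul_pow, mul_pow, Real.sq_sqrt Real.pi_pos.le]
          field_simp
        rw [h1, ← mul_pow, ← Real.rpow_natCast _ 2, ← Real.rpow_mul (by positivity),
          ← Real.rpow_natCast _ m]
        congr 1
        push_cast
        ring

/-- **BL** -/
theorem specBL (hCX : SpecCX) : ASpec.SpecBL := by
  intro m c R M hcls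
  have hc := hcls.c_pos
  refine ⟨max 1 (max ((1 / c) ^ 2) ((2 / c * Real.sqrt Real.pi) ^ m)), le_max_left _ _, ?_⟩
  intro ch om e L hS sg hsg
  refine ⟨fun b1 b2 h1 h2 => ?_, fun v al hal => ?_⟩
  · have h3 := lower hCX hcls hS hsg h1 h2
    have h5 : ‖b1 - b2‖ ^ 2 ≤
        (1 / c) ^ 2 * pq om (ch.X (sl e L sg b1) - ch.X (sl e L sg b2)) := by
      have h6 := mul_le_mul_of_nonneg_left h3 (show (0 : ℝ) ≤ (1 / c) ^ 2 by positivity)
      refine le_trans (le_of_eq ?_) h6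
      field_simp
    refine h5.trans (mul_le_mul_of_nonneg_right ((le_max_left _ _).trans (le_max_right _ _)) ?_)
    rw [pq_eq hS.om_one]
    positivity
  · refine (gauss hCX hcls hS hsg v hal).trans (mul_le_mul_of_nonneg_right
      ((le_max_right _ _).trans (le_max_right _ _)) (by positivity))

end Pool.Agent.Lib.MP_a8dae7_an.UN.A_BL
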