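import Pool.Agent.Lib.MP_a8dae7_an.UN.SpecA
import Pool.Agent.Lib.MP_a8dae7_an.CV.DU

/-!
# MP_a8dae7_an, UN: A_DU, duality for affine lattices (port of CV/DU)
-/

set_option autoImplicit false

open MeasureTheory
open scoped ContDiff ComplexConjugate

namespace Pool.Agent.Lib.MP_a8dae7_an.UN.A_DU

open Pool.Agent.Lib.MP_a8dae7_an.CV (EE zv ex pq pi2 AA sl bm)
open Pool.Agent.Lib.MP_a8dae7_an.CV.DUM (hasSum_double sq_eq ex_sub norm_ex continuous_ex AA_re
  continuous_AA)
open ASpec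

theorem continuous_es {d : ℕ} {A : ℝ} (Lt : Lat d A) (s : Finset (Fin d → ℤ)) (a : (Fin d → ℤ) → ℂ) :
    Continuous (es Lt s a) := by
  unfold es
  exact continuous_finsetSum _ fun n _ => continuous_const.mul (continuous_ex _)

theorem continuous_Kf {k : ℕ} (om : EE (k + 1)) {lam r T : ℝ} (hr : 0 < r) :
    Continuous (Kf om lam r T) := by
  have hA : Continuous fun x : EE (k + 1) => AA lam r (inner ℝ om x) :=
    continuous_AA.comp (by fun_prop)
  have hre : ∀ x : EE (k + 1), 0 < (AA lam r (inner ℝ om x)).re := by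
    intro x
    rw [AA_re]
    positivity
  have hne : ∀ x : EE (k + 1), 4 * AA lam r (inner ℝ om x) ≠ 0 := by
    intro x h0
    have h1 : AA lam r (inner ℝ om x) = 0 := by
      rcases mul_eq_zero.mp h0 with h | h
      · norm_num at h
      · exact h
    have h2 := hre x
    rw [h1] at h2
    simp at h2
  have hpq : Continuous fun x : EE (k + 1) => ((pq om x : ℝ) : ℂ) := by
    unfold pq
    fun_prop
  have hF : Continuous (FF om lam r T) := by
    unfold FF
    refine ((Continuous.neg (by fun_prop)).sub (continuous_const.mul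
      (hA.clog fun x => Or.inl (hre x)))).sub (hpq.div (continuous_const.mul hA) hne)
  unfold Kf
  refine (Continuous.mul continuous_const (Complex.continuous_exp.comp ?_)).mul
    (Complex.continuous_exp.comp hF)
  fun_prop

/-- the identity: the weighted sum of the squares of the coefficients is the sum of the blocks -/
theorem blocks {k : ℕ} (hPS : SpecPS) {A : ℝ} (Lt : Lat (k + 1) A) (X : EE k → EE (k + 1))
    (D : Set (EE k)) (R : ℝ)
    (om : EE (k + 1)) (lam r T : ℝ) (hX : Continuous X) (hD : MeasurableSet D)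
    (hDR : D ⊆ Metric.closedBall 0 R) (hom : ‖om‖ = 1) (hlam : 0 < lam) (hr : 0 < r) (hT : 0 < T)
    (u : EE k → ℂ) (hu : Continuous u) : ∃ S : ℂ,
    HasSum (fun n : Fin (k + 1) → ℤ =>
      ((WW om lam r T (Lt.fr n) * ‖∫ q in D, ex (Lt.fr n) (X q) * conj (u q)‖ ^ 2 : ℝ) : ℂ)) S ∧
    HasSum (fun z : Fin (k + 1) → ℤ =>
      ((|(Lt.B : EE (k + 1) →L[ℝ] EE (k + 1)).det|⁻¹ : ℝ) : ℂ) * (ex Lt.a0 (-(Lt.du z)) *
      ∫ q in D, ∫ q' in D,
      Kf om lam r T (X q - X q' + Lt.du z) * (conj (u q) * u q'))) S := by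
  obtain ⟨hsW, hbd, hpois⟩ := hPS k A Lt om lam r T hom hlam hr hT
  have hfin : volume D < ⊤ :=
    lt_of_le_of_lt (measure_mono hDR) (isCompact_closedBall (0 : EE k) R).measure_lt_top
  obtain ⟨M, hM⟩ := (isCompact_closedBall (0 : EE k) R).exists_bound_of_continuousOn
    (f := u) hu.continuousOn
  obtain ⟨M', hM'⟩ := (isCompact_closedBall (0 : EE k) R).exists_bound_of_continuousOn
    (f := X) hX.continuousOn
  obtain ⟨w, hw, hwb⟩ := hbd (M' + M')
  have huu : ∀ q ∈ D, ∀ q' ∈ D, ‖conj (u q) * u q'‖ ≤ M * M := by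
    intro q hq q' hq'
    rw [norm_mul, RCLike.norm_conj]
    exact mul_le_mul (hM q (hDR hq)) (hM q' (hDR hq')) (norm_nonneg _)
      ((norm_nonneg _).trans (hM q (hDR hq)))
  have hMM : 0 ≤ M * M := mul_self_nonneg M
  have hWpos : ∀ n : Fin (k + 1) → ℤ, 0 ≤ WW om lam r T (Lt.fr n) := fun n => (Real.exp_pos _).le
  obtain ⟨dt, hdt⟩ : ∃ dt : ℂ, dt = ((|(Lt.B : EE (k + 1) →L[ℝ] EE (k + 1)).det|⁻¹ : ℝ) : ℂ) :=
    ⟨_, rfl⟩
  rw [← hdt] at hpois ⊢
  -- first family
  have h1 := hasSum_double D hD hfin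
    (fun (n : Fin (k + 1) → ℤ) q q' =>
      ((WW om lam r T (Lt.fr n) : ℝ) : ℂ) * ex (Lt.fr n) (X q - X q') * (conj (u q) * u q'))
    (fun n => by
      have h2 : Continuous fun p : EE k × EE k => ex (Lt.fr n) (X p.1 - X p.2) :=
        (continuous_ex _).comp (by fun_prop)
      have h3 : Continuous fun p : EE k × EE k => conj (u p.1) * u p.2 := by fun_prop
      exact (continuous_const.mul h2).mul h3)
    (fun n => WW om lam r T (Lt.fr n) * (M * M)) (hsW.mul_right _)
    (fun n q hq q' hq' => by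
      rw [norm_mul, norm_mul, norm_ex, mul_one, Complex.norm_real, Real.norm_of_nonneg (hWpos n)]
      exact mul_le_mul_of_nonneg_left (huu q hq q' hq') (hWpos n))
  -- second family
  have h2 := hasSum_double D hD hfin
    (fun (z : Fin (k + 1) → ℤ) q q' =>
      dt * (ex Lt.a0 (-(Lt.du z)) * Kf om lam r T (X q - X q' + Lt.du z)) * (conj (u q) * u q'))
    (fun z => by
      have h2 : Continuous fun p : EE k × EE k => Kf om lam r T (X p.1 - X p.2 + Lt.du z) :=
        (continuous_Kf om hr).comp (by fun_prop)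
      have h3 : Continuous fun p : EE k × EE k => conj (u p.1) * u p.2 := by fun_prop
      exact (continuous_const.mul (continuous_const.mul h2)).mul h3)
    (fun z => ‖dt‖ * w z * (M * M)) ((hw.mul_left _).mul_right _)
    (fun z q hq q' hq' => by
      have h4 : ‖Kf om lam r T (X q - X q' + Lt.du z)‖ ≤ w z :=
        hwb z _ ((norm_sub_le _ _).trans (add_le_add (hM' q (hDR hq)) (hM' q' (hDR hq'))))
      rw [norm_mul, norm_mul, norm_mul, norm_ex, one_mul]
      exact mul_le_mul (mul_le_mul_of_nonneg_left h4 (norm_nonneg _)) (huu q hq q' hq')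
        (norm_nonneg _) (mul_nonneg (norm_nonneg _) ((norm_nonneg _).trans h4)))
  have h3 : ∀ q q' : EE k,
      ∑' n : Fin (k + 1) → ℤ, ((WW om lam r T (Lt.fr n) : ℝ) : ℂ) * ex (Lt.fr n) (X q - X q') *
        (conj (u q) * u q') =
      ∑' z : Fin (k + 1) → ℤ, dt * (ex Lt.a0 (-(Lt.du z)) * Kf om lam r T (X q - X q' + Lt.du z)) *
        (conj (u q) * u q') := by
    intro q q'
    rw [tsum_mul_right, tsum_mul_right, hpois (X q - X q'), tsum_mul_left]
  simp_rw [h3] at h1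
  refine ⟨∫ q in D, ∫ q' in D, ∑' z : Fin (k + 1) → ℤ,
    dt * (ex Lt.a0 (-(Lt.du z)) * Kf om lam r T (X q - X q' + Lt.du z)) * (conj (u q) * u q'), ?_, ?_⟩
  · convert h1 using 1
    funext n
    rw [Complex.ofReal_mul, sq_eq, ← integral_const_mul]
    refine integral_congr_ae (Filter.Eventually.of_forall fun q => ?_)
    simp only
    rw [← integral_const_mul]
    refine integral_congr_ae (Filter.Eventually.of_forall fun q' => ?_)
    simp only [map_mul, Complex.conj_conj]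
    rw [ex_sub]
    ring
  · convert h2 using 1
    funext z
    rw [← integral_const_mul, ← integral_const_mul]
    refine integral_congr_ae (Filter.Eventually.of_forall fun q => ?_)
    simp only
    rw [← integral_const_mul, ← integral_const_mul]
    refine integral_congr_ae (Filter.Eventually.of_forall fun q' => ?_)
    simp only
    ring

/-- **DU**, the duality step. -/
theorem specDU (hPS : SpecPS) (hLZ : SpecLZ) : SpecDU := by
  intro k A hA
  obtain ⟨C, hC, hLZ⟩ := hLZ k A hA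
  refine ⟨C, hC, ?_⟩
  intro Lt X D R om lam r T c0 B s a hX hD hDR hom hlam hr hT hc0 hB0 hW hblock
  obtain ⟨-, -, -, hdet⟩ := hLZ Lt
  set u : EE k → ℂ := fun q => es Lt s a (X q) with hu
  have huc : Continuous u := (continuous_es Lt s a).comp hX
  obtain ⟨S, hS1, hS2⟩ := blocks hPS Lt X D R om lam r T hX hD hDR hom hlam hr hT u huc
  set I2 : ℝ := ∫ q in D, ‖u q‖ ^ 2 with hI2
  have hI0 : 0 ≤ I2 := integral_nonneg fun q => sq_nonneg _
  set c : (Fin (k + 1) → ℤ) → ℂ := fun n => ∫ q in D, ex (Lt.fr n) (X q) * conj (u q) with hc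
  have hfin : volume D < ⊤ :=
    lt_of_le_of_lt (measure_mono hDR) (isCompact_closedBall (0 : EE k) R).measure_lt_top
  have hWpos : ∀ n : Fin (k + 1) → ℤ, 0 ≤ WW om lam r T (Lt.fr n) := fun n => (Real.exp_pos _).le
  -- the norm of `S`
  have hSn : ‖S‖ ≤ C * (B * I2) := by
    have hcl : Filter.Tendsto (fun Z : Finset (Fin (k + 1) → ℤ) => ‖∑ z ∈ Z,
        ((|(Lt.B : EE (k + 1) →L[ℝ] EE (k + 1)).det|⁻¹ : ℝ) : ℂ) * (ex Lt.a0 (-(Lt.du z)) *
        ∫ q in D, ∫ q' in D, Kf om lam r T (X q - X q' + Lt.du z) * (conj (u q) * u q'))‖)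
        Filter.atTop (nhds ‖S‖) := (continuous_norm.tendsto S).comp hS2
    refine le_of_tendsto hcl (Filter.Eventually.of_forall fun Z => ?_)
    refine (norm_sum_le _ _).trans ?_
    have hterm : ∀ z ∈ Z, ‖((|(Lt.B : EE (k + 1) →L[ℝ] EE (k + 1)).det|⁻¹ : ℝ) : ℂ) *
        (ex Lt.a0 (-(Lt.du z)) *
        ∫ q in D, ∫ q' in D, Kf om lam r T (X q - X q' + Lt.du z) * (conj (u q) * u q'))‖ =
        |(Lt.B : EE (k + 1) →L[ℝ] EE (k + 1)).det|⁻¹ *
        ‖∫ q in D, ∫ q' in D, Kf om lam r T (X q - X q' + Lt.du z) * (conj (u q) * u q')‖ := by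
      intro z _
      rw [norm_mul, norm_mul, norm_ex, one_mul, Complex.norm_real,
        Real.norm_of_nonneg (by positivity)]
    rw [Finset.sum_congr rfl hterm, ← Finset.mul_sum]
    have hb := hblock Z u huc
    exact mul_le_mul hdet hb (Finset.sum_nonneg fun z _ => norm_nonneg _) hC.le
  -- the sum over `s`
  have hS1r : HasSum (fun n : Fin (k + 1) → ℤ => WW om lam r T (Lt.fr n) * ‖c n‖ ^ 2) S.re := by
    have h1 := Complex.hasSum_re hS1
    simpa only [Complex.ofReal_re] using h1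
  have hs1 : ∑ n ∈ s, WW om lam r T (Lt.fr n) * ‖c n‖ ^ 2 ≤ C * (B * I2) :=
    (sum_le_hasSum s (fun n _ => mul_nonneg (hWpos n) (sq_nonneg _)) hS1r).trans
      ((Complex.re_le_norm S).trans hSn)
  have hs2 : ∑ n ∈ s, ‖c n‖ ^ 2 ≤ c0⁻¹ * (C * (B * I2)) := by
    have h1 : c0 * ∑ n ∈ s, ‖c n‖ ^ 2 ≤ ∑ n ∈ s, WW om lam r T (Lt.fr n) * ‖c n‖ ^ 2 := by
      rw [Finset.mul_sum]
      exact Finset.sum_le_sum fun n hn => mul_le_mul_of_nonneg_right (hW n hn) (sq_nonneg _)
    have h2 := h1.trans hs1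
    rw [inv_mul_eq_div, le_div_iff₀ hc0]
    linarith
  -- `I2 = ∑ a_n c_n`
  have hint : ∀ n : Fin (k + 1) → ℤ, IntegrableOn (fun q => ex (Lt.fr n) (X q) * conj (u q)) D := by
    intro n
    have h1 : Continuous fun q => ex (Lt.fr n) (X q) * conj (u q) :=
      ((continuous_ex _).comp hX).mul (by fun_prop)
    exact (h1.continuousOn.integrableOn_compact (isCompact_closedBall (0 : EE k) R)).mono_set hDR
  have hI : (I2 : ℂ) = ∑ n ∈ s, a n * c n := by
    have h1 : ∀ n ∈ s, a n * c n = ∫ q in D, a n * (ex (Lt.fr n) (X q) * conj (u q)) := fun n _ =>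
      (integral_const_mul _ _).symm
    rw [Finset.sum_congr rfl h1, ← integral_finsetSum s fun n _ => (hint n).const_mul (a n), hI2,
      ← integral_complex_ofReal]
    refine integral_congr_ae (Filter.Eventually.of_forall fun q => ?_)
    simp only
    rw [← Complex.normSq_eq_norm_sq, ← Complex.mul_conj]
    have h2 : u q = ∑ n ∈ s, a n * ex (Lt.fr n) (X q) := rfl
    nth_rewrite 1 [h2]
    rw [Finset.sum_mul]
    exact Finset.sum_congr rfl fun n _ => by ring
  -- Cauchy-Schwarz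
  have hI' : I2 ≤ ∑ n ∈ s, ‖a n‖ * ‖c n‖ := by
    have h1 : I2 = ‖(I2 : ℂ)‖ := by rw [Complex.norm_real, Real.norm_of_nonneg hI0]
    rw [h1, hI]
    refine (norm_sum_le _ _).trans (le_of_eq ?_)
    exact Finset.sum_congr rfl fun n _ => norm_mul _ _
  have hcs : I2 ^ 2 ≤ (∑ n ∈ s, ‖a n‖ ^ 2) * ∑ n ∈ s, ‖c n‖ ^ 2 :=
    (pow_le_pow_left₀ hI0 hI' 2).trans (Finset.sum_mul_sq_le_sq_mul_sq s _ _)
  have ha0 : 0 ≤ ∑ n ∈ s, ‖a n‖ ^ 2 := Finset.sum_nonneg fun n _ => sq_nonneg _
  have hfinal : I2 ^ 2 ≤ (C * c0⁻¹ * B * ∑ n ∈ s, ‖a n‖ ^ 2) * I2 := by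
    refine hcs.trans ((mul_le_mul_of_nonneg_left hs2 ha0).trans (le_of_eq ?_))
    ring
  rcases hI0.eq_or_lt with h0 | h0
  · rw [← h0]
    positivity
  · rw [sq] at hfinal
    exact le_of_mul_le_mul_right hfinal h0

end Pool.Agent.Lib.MP_a8dae7_an.UN.A_DU
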