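import Pool.Agent.Lib.MP_a8dae7_an.UN.DefsZ

/-!
# MP_a8dae7_an, UN: Specs of part A (block estimate, section 3 of /team-store/MP_a8dae7_an_UNIFORM_h93.md)

The target is `SpecPP` of UN/SpecB.lean. Every `SpecXX` is a `def : Prop`; the module `UN/A_XX.lean` proves
`theorem specXX (...) : ASpec.SpecXX` in its own namespace `Pool.Agent.Lib.MP_a8dae7_an.UN.A_XX`, from the Specs named in
the docstring (as hypotheses).  The part about large `|t_z|` (cells) is UN/SpecZ.lean (helper37); its result is `SpecSUM` below.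
Models: the modules of CV/ with the same name (there `T = lam/r`, the lattice is `2πℤ^d`).
-/

set_option autoImplicit false

open MeasureTheory
open scoped ContDiff

namespace Pool.Agent.Lib.MP_a8dae7_an.UN.ASpec

open Pool.Agent.Lib.MP_a8dae7_an.CV (EE zv ex pq pi2 AA sl bm)

/-- one kernel, from functions on `F'` to functions on `F`, bounded by `B` -/
def OBS (m : ℕ) (F F' : Set (EE m)) (K : EE m → EE m → ℂ) (B : ℝ) : Prop :=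
  ∀ f g : EE m → ℂ, Measurable f → Measurable g → (∃ Q : ℝ, ∀ b, ‖f b‖ ≤ Q) → (∃ Q : ℝ, ∀ b, ‖g b‖ ≤ Q) →
    (∀ b, b ∉ F → f b = 0) → (∀ b, b ∉ F' → g b = 0) →
    ‖∫ b, ∫ b', K b b' * (f b * g b')‖ ≤
      B * (Real.sqrt (∫ b, ‖f b‖ ^ 2) * Real.sqrt (∫ b, ‖g b‖ ^ 2))

/-! ## Fourier transform, Poisson, duality, lattices -/

/-- **FT** (200). The Fourier transform of the majorant (CV/FT with `T` for `lam/r`). -/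
def SpecFT : Prop := ∀ (k : ℕ) (om : EE (k + 1)) (lam r T : ℝ), ‖om‖ = 1 → 0 < lam → 0 < r → 0 < T →
  Integrable (WW om lam r T) ∧
    ∀ x : EE (k + 1), ∫ xi, ((WW om lam r T xi : ℝ) : ℂ) * ex xi x = Kf om lam r T x

/-- **KN** (80). The norm of the kernel (CV/KN). -/
def SpecKN : Prop := ∀ k : ℕ, ∃ C : ℝ, 0 < C ∧ ∀ (om : EE (k + 1)) (lam r T : ℝ) (x : EE (k + 1)),
  ‖om‖ = 1 → 0 < lam → 0 < r → 0 < T →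
    ‖Kf om lam r T x‖ ≤ C / T * r ^ k * Real.exp (-MM om lam r T x) ∧
    (inner ℝ om x ≠ 0 → ‖Kf om lam r T x‖ ≤
      C / T * (lam / |inner ℝ om x|) ^ ((k : ℝ) / 2) * Real.exp (-MM om lam r T x))

/-- **LZ** (250). The dual lattice: no short vectors, and Gaussian sums over layers. (`‖B^T v‖ ≤ A‖v‖`, so `‖du z‖ ≥ 2π‖z‖/A`; at most
`C(D,A)` points in a unit ball, by `du z - du z' = du (z - z')`; cut the layer into unit cubes in an orthonormal basis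
containing `om`.) Last item: the determinant (image of the unit ball under `B.symm`). -/
def SpecLZ : Prop := ∀ (k : ℕ) (A : ℝ), 1 ≤ A → ∃ C : ℝ, 0 < C ∧ ∀ (Lt : Lat (k + 1) A),
  (∀ z : Fin (k + 1) → ℤ, z ≠ 0 → 6 / A ≤ ‖Lt.du z‖) ∧
  (∀ (om : EE (k + 1)) (Z : Finset (Fin (k + 1) → ℤ)) (t0 ell al : ℝ) (y0 : EE (k + 1)), ‖om‖ = 1 → 0 ≤ ell →
    0 < al → (∀ z ∈ Z, |inner ℝ om (Lt.du z) - t0| ≤ ell) →
    ∑ z ∈ Z, Real.exp (-(al ^ 2 * pq om (Lt.du z - y0))) ≤ C * (1 + ell) * (1 + al⁻¹) ^ k) ∧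
  (Lt.B : EE (k + 1) →L[ℝ] EE (k + 1)).det ≠ 0 ∧ |(Lt.B : EE (k + 1) →L[ℝ] EE (k + 1)).det|⁻¹ ≤ C

/-- **PS** (250), from FT, KN. Poisson summation for the affine lattice (CV/PS, CV/POI, CV/PSA): with `xi = B s + a0`,
`∑_j F(B j + a0) = |det B|⁻¹ ∑_z ∫ F(xi) e^{2πi z·B⁻¹(xi - a0)}`, `2πi z·B⁻¹ xi = i⟨xi, du z⟩`. -/
def SpecPS : Prop := ∀ (k : ℕ) (A : ℝ) (Lt : Lat (k + 1) A) (om : EE (k + 1)) (lam r T : ℝ), ‖om‖ = 1 →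
  0 < lam → 0 < r → 0 < T →
  Summable (fun j : Fin (k + 1) → ℤ => WW om lam r T (Lt.fr j)) ∧
  (∀ Q : ℝ, ∃ u : (Fin (k + 1) → ℤ) → ℝ, Summable u ∧ ∀ (z : Fin (k + 1) → ℤ) (x : EE (k + 1)), ‖x‖ ≤ Q →
    ‖Kf om lam r T (x + Lt.du z)‖ ≤ u z) ∧
  ∀ x : EE (k + 1), ∑' j : Fin (k + 1) → ℤ, ((WW om lam r T (Lt.fr j) : ℝ) : ℂ) * ex (Lt.fr j) x =
    ((|(Lt.B : EE (k + 1) →L[ℝ] EE (k + 1)).det|⁻¹ : ℝ) : ℂ) *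
      ∑' z : Fin (k + 1) → ℤ, ex Lt.a0 (-(Lt.du z)) * Kf om lam r T (x + Lt.du z)

/-- **DU** (200), from PS, LZ. Duality (CV/DU), now with ONE bound for all finite sums over `z`. -/
def SpecDU : Prop := ∀ (k : ℕ) (A : ℝ), 1 ≤ A → ∃ C : ℝ, 0 < C ∧ ∀ (Lt : Lat (k + 1) A) (X : EE k → EE (k + 1))
  (D : Set (EE k)) (R0 : ℝ) (om : EE (k + 1)) (lam r T c0 B : ℝ) (s : Finset (Fin (k + 1) → ℤ))
  (a : (Fin (k + 1) → ℤ) → ℂ),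
  Continuous X → MeasurableSet D → D ⊆ Metric.closedBall 0 R0 → ‖om‖ = 1 → 0 < lam → 0 < r → 0 < T → 0 < c0 →
  0 ≤ B → (∀ j ∈ s, c0 ≤ WW om lam r T (Lt.fr j)) →
  (∀ (Z : Finset (Fin (k + 1) → ℤ)) (f : EE k → ℂ), Continuous f →
    ∑ z ∈ Z, ‖∫ q in D, ∫ q' in D, Kf om lam r T (X q - X q' + Lt.du z) *
      ((starRingEnd ℂ) (f q) * f q')‖ ≤ B * ∫ q in D, ‖f q‖ ^ 2) →
  ∫ q in D, ‖es Lt s a (X q)‖ ^ 2 ≤ C * c0⁻¹ * B * ∑ j ∈ s, ‖a j‖ ^ 2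

/-- **WL** (40), from CV/WL. The majorant on the sphere (`T ≤ lam/r`). -/
def SpecWL : Prop := ∀ (d : ℕ) (xi om : EE d) (lam r T : ℝ), 1 ≤ lam → 1 ≤ r → r ^ 3 ≤ lam ^ 2 → 0 ≤ T →
  T * r ≤ lam → ‖om‖ = 1 → ‖xi‖ = lam → ‖xi - lam • om‖ ≤ r → Real.exp (-2) ≤ WW om lam r T xi

/-! ## Operators -/

/-- **SPL** (80), from CV/SPL. Slices for ANY isometry `L` onto `e^⊥` (`L = L0 ∘ U`, `U` orthogonal). -/
def SpecSPL : Prop := ∀ (m : ℕ) (e : EE (m + 1)) (L : EE m →ₗᵢ[ℝ] EE (m + 1)), ‖e‖ = 1 →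
  (∀ b, inner ℝ e (L b) = 0) →
    (∀ q : EE (m + 1), ∃ b, q = (inner ℝ e q : ℝ) • e + L b) ∧
    MeasurableEmbedding (fun p : ℝ × EE m => p.1 • e + L p.2) ∧
    MeasurePreserving (fun p : ℝ × EE m => p.1 • e + L p.2) (volume.prod volume) volume

/-- **SL** (200), from SPL. Integration over slices (CV/SL) for a family and a set `E`; `f` is cut off to
`D = {‖q‖ ≤ R, |⟨e,q⟩ - sg0| ≤ tau, q ∈ E}`, whose slice over `sg` is contained in `fib m R e L E sg`. -/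
def SpecSL : Prop := ∀ (m : ℕ) (e : EE (m + 1)) (L : EE m →ₗᵢ[ℝ] EE (m + 1)) (ι : Type) (Z : Finset ι)
  (K : ι → EE (m + 1) → EE (m + 1) → ℂ) (R tau sg0 B : ℝ) (E : Set (EE (m + 1))), ‖e‖ = 1 →
  (∀ b, inner ℝ e (L b) = 0) →
  (∀ z ∈ Z, Continuous (fun p : EE (m + 1) × EE (m + 1) => K z p.1 p.2)) → MeasurableSet E → 0 ≤ R → 0 ≤ tau →
  0 ≤ B →
  (∀ sg sg' : ℝ, |sg - sg0| ≤ tau → |sg' - sg0| ≤ tau → |sg| ≤ R → |sg'| ≤ R →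
    OBF m (fib m R e L E sg) (fib m R e L E sg') Z (fun z b b' => K z (sl e L sg b) (sl e L sg' b')) B) →
  ∀ f : EE (m + 1) → ℂ, Continuous f →
    ∑ z ∈ Z, ‖∫ q in {q | ‖q‖ ≤ R ∧ |inner ℝ e q - sg0| ≤ tau ∧ q ∈ E},
      ∫ q' in {q | ‖q‖ ≤ R ∧ |inner ℝ e q - sg0| ≤ tau ∧ q ∈ E},
      K z q q' * ((starRingEnd ℂ) (f q) * f q')‖ ≤
    2 * tau * B * ∫ q in {q | ‖q‖ ≤ R ∧ |inner ℝ e q - sg0| ≤ tau ∧ q ∈ E}, ‖f q‖ ^ 2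

/-- **SC** (120). Schur test for a family (CV/SC): `|∬ K f g| ≤ ½ ∬ |K| (|f|²θ + |g|²/θ)`. -/
def SpecSC : Prop := ∀ (m : ℕ) (R B : ℝ) (ι : Type) (Z : Finset ι) (K : ι → EE m → EE m → ℂ),
  (∀ z ∈ Z, Continuous (fun p : EE m × EE m => K z p.1 p.2)) → 0 ≤ B →
  (∀ b, ‖b‖ ≤ R → ∑ z ∈ Z, ∫ b' in Metric.closedBall (0 : EE m) R, ‖K z b b'‖ ≤ B) →
  (∀ b', ‖b'‖ ≤ R → ∑ z ∈ Z, ∫ b in Metric.closedBall (0 : EE m) R, ‖K z b b'‖ ≤ B) →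
  OBF m (Metric.closedBall 0 R) (Metric.closedBall 0 R) Z K B

/-! ## The small translates -/

/-- **BL** (120), from SpecB.SpecCX. `b ↦ P X(sl sg b)` is bilipschitz on `‖b‖ ≤ 3dl`, and the Gaussian integral (CV/BL). -/
def SpecBL : Prop := ∀ (m : ℕ) (c R : ℝ) (M : ℕ → ℝ), Cls c R M → ∃ C : ℝ, 1 ≤ C ∧
  ∀ (ch : UChart (m + 1) c R M) (om : EE (m + 2)) (e : EE (m + 1)) (L : EE m →ₗᵢ[ℝ] EE (m + 1)),
  Slice ch om e L → ∀ sg : ℝ, |sg| ≤ 2 * dl (m + 1) R →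
  (∀ b1 b2 : EE m, ‖b1‖ ≤ 3 * dl (m + 1) R → ‖b2‖ ≤ 3 * dl (m + 1) R →
    ‖b1 - b2‖ ^ 2 ≤ C * pq om (ch.X (sl e L sg b1) - ch.X (sl e L sg b2))) ∧
  ∀ (v : EE (m + 2)) (al : ℝ), 0 < al →
    ∫ b in Metric.closedBall (0 : EE m) (3 * dl (m + 1) R),
      Real.exp (-(al ^ 2 * pq om (v - ch.X (sl e L sg b)))) ≤ C * al⁻¹ ^ m

/-- **Z0** (180), from KN, SC, BL, SpecB.SpecCX. The term `z = 0` (CV/Z0): `|t| ≤ C(th + |y|)`, `th r²/lam ≤ 1`, so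
`MM ≥ c min(|y|² r², lam²/r²)`, and `lam²/r² ≥ r`. -/
def SpecZ0 : Prop := ∀ (m : ℕ) (c R : ℝ) (M : ℕ → ℝ), Cls c R M → ∃ C : ℝ, 0 < C ∧
  ∀ (ch : UChart (m + 1) c R M) (om : EE (m + 2)) (e : EE (m + 1)) (L : EE m →ₗᵢ[ℝ] EE (m + 1)),
  Slice ch om e L → ∀ lam r T th sg sg' : ℝ, 1 ≤ lam → 1 ≤ r → r ^ 3 ≤ lam ^ 2 → 0 < T → 0 < th →
  th ^ 2 * r ≤ 1 → |sg| ≤ 2 * dl (m + 1) R → |sg'| ≤ 2 * dl (m + 1) R → |sg - sg'| ≤ 20 * th →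
  OBS m (Metric.closedBall 0 (2 * dl (m + 1) R)) (Metric.closedBall 0 (2 * dl (m + 1) R))
    (ks ch om lam r T e L 0 sg sg') (C * (r / T))

/-- **ZA** (150), from KN, SC, LZ. `z ≠ 0`, `|t_z| < 1/A`: `|Pz| ≥ 5/A`, so `|y| ≥ c|Pz|`, `|t| ≤ 9/8`, `MM ≥ c |y|² r` (as
`lam²/r² ≥ r`), `‖Kf‖ ≤ C/T r^k e^{-c r |Pz|²} ≤ (C/T) e^{-c' |Pz|²}`; sum by LZ. -/
def SpecZA : Prop := ∀ (m : ℕ) (c R A : ℝ) (M : ℕ → ℝ), 1 ≤ A → Cls c R M → ∃ C : ℝ, 0 < C ∧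
  ∀ (ch : UChart (m + 1) c R M), Dm ch (1 / (8 * A)) → ∀ (Lt : Lat (m + 2) A) (om : EE (m + 2)) (e : EE (m + 1))
    (L : EE m →ₗᵢ[ℝ] EE (m + 1)), Slice ch om e L →
  ∀ (lam r T sg sg' : ℝ) (Z : Finset (Fin (m + 2) → ℤ)), 1 ≤ lam → 1 ≤ r → r ^ 3 ≤ lam ^ 2 → 0 < T →
  |sg| ≤ 2 * dl (m + 1) R → |sg'| ≤ 2 * dl (m + 1) R →
  (∀ z ∈ Z, z ≠ 0 ∧ |inner ℝ om (Lt.du z)| < 1 / A) →
  OBF m (Metric.closedBall 0 (2 * dl (m + 1) R)) (Metric.closedBall 0 (2 * dl (m + 1) R)) Z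
    (fun z => ks ch om lam r T e L (Lt.du z) sg sg') (C * (r / T))

/-- **Z1** (200), from KN, SC, BL, LZ. `1/A ≤ |t_z| ≤ 2 lam/r²`: `|t| ≤ (9/8)|t_z|`, `MM ≥ |y|² r²/11`; row sums by BL (half of the
exponent) and LZ (the other half, `|y| ≥ |Pz| - 1/8`, layer of thickness `2 lam/r²`). -/
def SpecZ1 : Prop := ∀ (m : ℕ) (c R A : ℝ) (M : ℕ → ℝ), 1 ≤ A → Cls c R M → ∃ C : ℝ, 0 < C ∧
  ∀ (ch : UChart (m + 1) c R M), Dm ch (1 / (8 * A)) → ∀ (Lt : Lat (m + 2) A) (om : EE (m + 2)) (e : EE (m + 1))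
    (L : EE m →ₗᵢ[ℝ] EE (m + 1)), Slice ch om e L →
  ∀ (lam r T sg sg' : ℝ) (Z : Finset (Fin (m + 2) → ℤ)), 1 ≤ lam → 1 ≤ r → r ^ 3 ≤ lam ^ 2 → 0 < T →
  |sg| ≤ 2 * dl (m + 1) R → |sg'| ≤ 2 * dl (m + 1) R →
  (∀ z ∈ Z, 1 / A ≤ |inner ℝ om (Lt.du z)| ∧ |inner ℝ om (Lt.du z)| * r ^ 2 ≤ 2 * lam) →
  OBF m (Metric.closedBall 0 (2 * dl (m + 1) R)) (Metric.closedBall 0 (2 * dl (m + 1) R)) Z
    (fun z => ks ch om lam r T e L (Lt.du z) sg sg') (C * (r / T) * (1 + lam / r ^ 2))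

/-- **SUM**: the large translates `|t_z| ≥ max(1/A, 2 lam/r²)`; this is the result of UN/SpecZ.lean. -/
def SpecSUM : Prop := ∀ (m : ℕ) (c R A : ℝ) (M : ℕ → ℝ), 1 ≤ A → Cls c R M → ∃ C : ℝ, 0 < C ∧
  ∀ (ch : UChart (m + 1) c R M), Dm ch (1 / (8 * A)) → ∀ (Lt : Lat (m + 2) A) (om : EE (m + 2)) (e : EE (m + 1))
    (L : EE m →ₗᵢ[ℝ] EE (m + 1)), Slice ch om e L →
  ∀ (lam r w sg0 tau phi1 phi2 sg sg' : ℝ) (E : Set (EE (m + 1))), 1 ≤ lam → 1 ≤ r → r ^ 3 ≤ lam ^ 2 →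
    0 < w → w ≤ 1 → 1 ≤ w * lam / r → 0 ≤ phi1 → 0 ≤ phi2 → MeasurableSet E →
    CH ch Lt om e sg0 tau E lam r w (w * lam / r) phi1 phi2 →
    |sg - sg0| ≤ tau → |sg' - sg0| ≤ tau → |sg| ≤ 2 * dl (m + 1) R → |sg'| ≤ 2 * dl (m + 1) R →
  ∀ Z : Finset (Fin (m + 2) → ℤ),
    (∀ z ∈ Z, 1 / A ≤ |inner ℝ om (Lt.du z)| ∧ 2 * lam ≤ |inner ℝ om (Lt.du z)| * r ^ 2) →
  OBF m (fib m (2 * dl (m + 1) R) e L E sg) (fib m (2 * dl (m + 1) R) e L E sg') Z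
    (fun z => ks ch om lam r (w * lam / r) e L (Lt.du z) sg sg')
    (C * Real.sqrt r * (w + (Real.sqrt w)⁻¹ * (phi1 + phi2 * w)))

/-! **PP** (250), from SPL, DU, WL, SL, Z0, ZA, Z1, SUM: `theorem specPP (...) : UN.SpecPP`.  `T = w lam/r`, `tau = 10 th`,
`D = {‖q‖ ≤ 2dl, |⟨e,q⟩ - sg0| ≤ 10 th, q ∈ E}`; every finite `Z` is the disjoint union of `{0}`, ZA, Z1, SUM (`OBF` is
additive in `Z` and monotone in `F`, `F'`); total `20 th (C r/T (3 + lam/r²) + C √r (w + ..))`, `r/T = r²/(w lam)`, `th √r ≤ 1`. -/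

end Pool.Agent.Lib.MP_a8dae7_an.UN.ASpec
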