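import Pool.Agent.Lib.MP_a8dae7_an.CV.KN
import Pool.Agent.Lib.MP_a8dae7_an.UN.SpecA

/-!
# MP_a8dae7_an, UN: the norm of the kernel (SpecKN)
-/

set_option autoImplicit false

namespace Pool.Agent.Lib.MP_a8dae7_an.UN.A_KN

open Pool.Agent.Lib.MP_a8dae7_an.CV (EE zv ex pq pi2 AA sl bm)
open Pool.Agent.Lib.MP_a8dae7_an.CV.KNM (le_norm_one le_norm_two re_inv)
open Pool.Agent.Lib.MP_a8dae7_an.UN

/-- the real part of the logarithm of the kernel -/
theorem re_FF {k : ℕ} (om : EE (k + 1)) (lam r T : ℝ) (x : EE (k + 1)) (hl : 0 < lam) (hr : 0 < r) :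
    (FF om lam r T x).re =
      -MM om lam r T x - (k : ℝ) / 2 * Real.log ‖AA lam r (inner ℝ om x)‖ := by
  have h1 : ((k : ℂ) / 2 * Complex.log (AA lam r (inner ℝ om x))).re =
      (k : ℝ) / 2 * Real.log ‖AA lam r (inner ℝ om x)‖ := by
    have e : ((k : ℂ) / 2) = (((k : ℝ) / 2 : ℝ) : ℂ) := by push_cast; ring
    rw [e, Complex.re_ofReal_mul, Complex.log_re]
  have h2 : (((pq om x : ℝ) : ℂ) / (4 * AA lam r (inner ℝ om x))).re =
      pq om x * (r ^ 2 / (4 + (inner ℝ om x * r ^ 2 / lam) ^ 2)) := by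
    rw [div_eq_mul_inv, Complex.re_ofReal_mul, re_inv lam r _ hl hr]
  unfold FF MM
  rw [Complex.sub_re, Complex.sub_re, h1, h2, Complex.neg_re, Complex.ofReal_re]
  ring

/-- the norm of the kernel -/
theorem norm_Kf {k : ℕ} (om : EE (k + 1)) (lam r T : ℝ) (x : EE (k + 1)) (hl : 0 < lam) (hr : 0 < r)
    (hT : 0 < T) :
    ‖Kf om lam r T x‖ = Real.sqrt Real.pi * Real.pi ^ ((k : ℝ) / 2) * (1 / T) *
      (‖AA lam r (inner ℝ om x)‖⁻¹ ^ ((k : ℝ) / 2)) * Real.exp (-MM om lam r T x) := by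
  have hA : 0 < ‖AA lam r (inner ℝ om x)‖ :=
    lt_of_lt_of_le (by positivity) (le_norm_one lam r (inner ℝ om x))
  have hp : (0:ℝ) ≤ Real.sqrt Real.pi / T * Real.pi ^ ((k : ℝ) / 2) := by
    have := Real.pi_pos
    positivity
  have h1 : ‖Complex.exp (Complex.I * ((lam * inner ℝ om x : ℝ) : ℂ))‖ = 1 := by
    rw [mul_comm, Complex.norm_exp_ofReal_mul_I]
  have h2 : ‖Complex.exp (FF om lam r T x)‖ =
      ‖AA lam r (inner ℝ om x)‖⁻¹ ^ ((k : ℝ) / 2) * Real.exp (-MM om lam r T x) := by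
    rw [Complex.norm_exp, re_FF om lam r T x hl hr, Real.rpow_def_of_pos (inv_pos.mpr hA),
      ← Real.exp_add, Real.log_inv]
    congr 1
    ring
  unfold Kf
  rw [norm_mul, norm_mul, h1, h2, Complex.norm_real, Real.norm_eq_abs, abs_of_nonneg hp]
  ring

/-- **KN** -/
theorem specKN : ASpec.SpecKN := by
  intro k
  have hpi := Real.pi_pos
  refine ⟨Real.sqrt Real.pi * Real.pi ^ ((k : ℝ) / 2) * 2 ^ ((k : ℝ) / 2), by positivity, ?_⟩
  intro om lam r T x _ hl hr hT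
  have hk : (0:ℝ) ≤ (k : ℝ) / 2 := by positivity
  have hA : 0 < ‖AA lam r (inner ℝ om x)‖ :=
    lt_of_lt_of_le (by positivity) (le_norm_one lam r (inner ℝ om x))
  have htwo : (1:ℝ) ≤ 2 ^ ((k : ℝ) / 2) := Real.one_le_rpow (by norm_num) hk
  rw [norm_Kf om lam r T x hl hr hT]
  refine ⟨?_, ?_⟩
  · have h1 : ‖AA lam r (inner ℝ om x)‖⁻¹ ^ ((k : ℝ) / 2) ≤ r ^ k := by
      have h2 : ‖AA lam r (inner ℝ om x)‖⁻¹ ≤ r ^ 2 := by
        have h3 := inv_anti₀ (by positivity) (le_norm_one lam r (inner ℝ om x))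
        simpa using h3
      calc ‖AA lam r (inner ℝ om x)‖⁻¹ ^ ((k : ℝ) / 2) ≤ (r ^ 2) ^ ((k : ℝ) / 2) :=
            Real.rpow_le_rpow (inv_nonneg.mpr hA.le) h2 hk
        _ = r ^ k := by
            rw [← Real.rpow_natCast r 2, ← Real.rpow_mul hr.le, ← Real.rpow_natCast r k]
            congr 1
            push_cast
            ring
    have h4 : ‖AA lam r (inner ℝ om x)‖⁻¹ ^ ((k : ℝ) / 2) ≤ 2 ^ ((k : ℝ) / 2) * r ^ k := by
      have : (0:ℝ) ≤ r ^ k := by positivity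
      nlinarith
    calc Real.sqrt Real.pi * Real.pi ^ ((k : ℝ) / 2) * (1 / T) *
          ‖AA lam r (inner ℝ om x)‖⁻¹ ^ ((k : ℝ) / 2) * Real.exp (-MM om lam r T x)
        ≤ Real.sqrt Real.pi * Real.pi ^ ((k : ℝ) / 2) * (1 / T) *
          (2 ^ ((k : ℝ) / 2) * r ^ k) * Real.exp (-MM om lam r T x) := by gcongr
      _ = _ := by ring
  · intro ht
    have hta : 0 < |inner ℝ om x| := abs_pos.mpr ht
    have h1 : ‖AA lam r (inner ℝ om x)‖⁻¹ ^ ((k : ℝ) / 2) ≤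
        2 ^ ((k : ℝ) / 2) * (lam / |inner ℝ om x|) ^ ((k : ℝ) / 2) := by
      have h2 : ‖AA lam r (inner ℝ om x)‖⁻¹ ≤ 2 * (lam / |inner ℝ om x|) := by
        have h3 := inv_anti₀ (by positivity) (le_norm_two lam r (inner ℝ om x) hl)
        rw [inv_div] at h3
        calc ‖AA lam r (inner ℝ om x)‖⁻¹ ≤ 2 * lam / |inner ℝ om x| := h3
          _ = 2 * (lam / |inner ℝ om x|) := by ring
      calc ‖AA lam r (inner ℝ om x)‖⁻¹ ^ ((k : ℝ) / 2)
          ≤ (2 * (lam / |inner ℝ om x|)) ^ ((k : ℝ) / 2) :=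
            Real.rpow_le_rpow (inv_nonneg.mpr hA.le) h2 hk
        _ = _ := Real.mul_rpow (by norm_num) (by positivity)
    calc Real.sqrt Real.pi * Real.pi ^ ((k : ℝ) / 2) * (1 / T) *
          ‖AA lam r (inner ℝ om x)‖⁻¹ ^ ((k : ℝ) / 2) * Real.exp (-MM om lam r T x)
        ≤ Real.sqrt Real.pi * Real.pi ^ ((k : ℝ) / 2) * (1 / T) *
          (2 ^ ((k : ℝ) / 2) * (lam / |inner ℝ om x|) ^ ((k : ℝ) / 2)) *
            Real.exp (-MM om lam r T x) := by gcongr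
      _ = _ := by ring

end Pool.Agent.Lib.MP_a8dae7_an.UN.A_KN
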