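import Pool.Agent.Lib.MP_a8dae7_an.UN.SpecA
import Pool.Agent.Lib.MP_a8dae7_an.UN.SpecB

/-!
# MP_a8dae7_an, UN, module A_PP: the block estimate from the modules of part A
-/

set_option autoImplicit false

open MeasureTheory
open scoped ContDiff

namespace Pool.Agent.Lib.MP_a8dae7_an.UN.A_PP

open Pool.Agent.Lib.MP_a8dae7_an.CV (EE zv ex pq pi2 AA sl bm)
open Pool.Agent.Lib.MP_a8dae7_an.UN.ASpec

theorem du_zero {D : ℕ} {A : ℝ} (Lt : Lat D A) : Lt.du 0 = 0 := by
  have h : (zv (0 : Fin D → ℤ) : EE D) = 0 := by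
    ext i; simp [zv]
  unfold Lat.du
  rw [h]; simp

theorem AA_re {lam r t : ℝ} (hr : 0 < r) : 0 < (AA lam r t).re := by
  have h : (AA lam r t).re = 1 / r ^ 2 := by
    unfold AA
    rw [Complex.add_re, Complex.ofReal_re, Complex.mul_re, Complex.ofReal_im, Complex.I_re]
    ring
  rw [h]
  positivity

theorem continuous_AA (lam r : ℝ) : Continuous fun t : ℝ => AA lam r t := by
  unfold AA
  fun_prop

theorem continuous_Kf {k : ℕ} (om : EE (k + 1)) {lam r T : ℝ} (hr : 0 < r) :
    Continuous (Kf om lam r T) := by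
  have hpos : ∀ x : EE (k + 1), 0 < (AA lam r (inner ℝ om x)).re := fun x => AA_re hr
  have hne : ∀ x : EE (k + 1), AA lam r (inner ℝ om x) ≠ 0 := fun x h => by
    have := hpos x
    rw [h] at this
    simp at this
  have h1 : Continuous fun x : EE (k + 1) => (inner ℝ om x : ℝ) := by fun_prop
  have h2 : Continuous fun x : EE (k + 1) => AA lam r (inner ℝ om x) := (continuous_AA lam r).comp h1
  have h3 : Continuous fun x : EE (k + 1) => Complex.log (AA lam r (inner ℝ om x)) :=
    h2.clog fun x => Or.inl (hpos x)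
  have h4 : Continuous fun x : EE (k + 1) => (pq om x : ℝ) := by
    unfold pq
    fun_prop
  have h5 : Continuous (FF om lam r T) := by
    unfold FF
    refine ((Continuous.neg ?_).sub (continuous_const.mul h3)).sub ?_
    · exact Complex.continuous_ofReal.comp ((h1.pow 2).div_const _)
    · exact (Complex.continuous_ofReal.comp h4).div (continuous_const.mul h2) fun x => by
        have := hne x
        simp [this]
  unfold Kf
  refine (continuous_const.mul ?_).mul (Complex.continuous_exp.comp h5)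
  exact Complex.continuous_exp.comp (continuous_const.mul (Complex.continuous_ofReal.comp (continuous_const.mul h1)))

theorem OBF_mono {m : ℕ} {F F' G G' : Set (EE m)} {ι : Type} {Z : Finset ι} {K : ι → EE m → EE m → ℂ} {B B' : ℝ}
    (h : OBF m G G' Z K B) (hF : F ⊆ G) (hF' : F' ⊆ G') (hB : B ≤ B') : OBF m F F' Z K B' := by
  intro f g hf hg hbf hbg hf0 hg0
  refine (h f g hf hg hbf hbg (fun b hb => hf0 b fun h => hb (hF h)) (fun b hb => hg0 b fun h => hb (hF' h))).trans ?_
  exact mul_le_mul_of_nonneg_right hB (by positivity)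

open Classical in
theorem OBF_split {m : ℕ} {F F' : Set (EE m)} {ι : Type} {Z : Finset ι} {K : ι → EE m → EE m → ℂ} {B B' : ℝ}
    (p : ι → Prop) (h : OBF m F F' (Z.filter p) K B) (h' : OBF m F F' (Z.filter fun z => ¬ p z) K B') :
    OBF m F F' Z K (B + B') := by
  intro f g hf hg hbf hbg hf0 hg0
  rw [← Finset.sum_filter_add_sum_filter_not Z p, add_mul]
  exact add_le_add (h f g hf hg hbf hbg hf0 hg0) (h' f g hf hg hbf hbg hf0 hg0)

theorem OBF_zero {m : ℕ} {F F' : Set (EE m)} {D : ℕ} {Z : Finset (Fin D → ℤ)}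
    {K : (Fin D → ℤ) → EE m → EE m → ℂ} {B : ℝ} (hZ : ∀ z ∈ Z, z = 0) (h : OBS m F F' (K 0) B) :
    OBF m F F' Z K B := by
  intro f g hf hg hbf hbg hf0 hg0
  have h1 := h f g hf hg hbf hbg hf0 hg0
  have hsub : Z ⊆ {0} := fun z hz => by simpa using hZ z hz
  refine (Finset.sum_le_sum_of_subset_of_nonneg hsub fun _ _ _ => norm_nonneg _).trans ?_
  simpa using h1

theorem specPP (hSPL : ASpec.SpecSPL) (hDU : ASpec.SpecDU) (hWL : ASpec.SpecWL) (hSL : ASpec.SpecSL)
    (hZ0 : ASpec.SpecZ0) (hZA : ASpec.SpecZA) (hZ1 : ASpec.SpecZ1) (hSUM : ASpec.SpecSUM) : UN.SpecPP := by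
  classical
  intro m c R A M hA hc
  obtain ⟨Cd, hCd, hdu⟩ := hDU (m + 1) A hA
  obtain ⟨C0, hC0, hz0⟩ := hZ0 m c R M hc
  obtain ⟨CA, hCA, hza⟩ := hZA m c R A M hA hc
  obtain ⟨C1, hC1, hz1⟩ := hZ1 m c R A M hA hc
  obtain ⟨CS, hCS, hsum⟩ := hSUM m c R A M hA hc
  refine ⟨Cd * (Real.exp (-2))⁻¹ * (20 * (C0 + CA + C1 + CS)), by positivity, ?_⟩
  intro ch hDm Lt om e L hS lam r th w sg0 phi1 phi2 E hlam hr hr3 hth hthr hw hw1 hT1 hphi1 hphi2 hE hCH s a hs
  have hlam0 : 0 < lam := by linarith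
  have hr0 : 0 < r := by linarith
  set T : ℝ := w * lam / r with hTdef
  have hT0 : 0 < T := by positivity
  have hdl : 0 < dl (m + 1) R := by
    have := hc.R_pos
    unfold dl
    positivity
  set S : ℝ := w + (Real.sqrt w)⁻¹ * (phi1 + phi2 * w) with hSdef
  have hS0 : 0 ≤ S := by positivity
  set Bt : ℝ := C0 * (r / T) + (CA * (r / T) + (C1 * (r / T) * (1 + lam / r ^ 2) + CS * Real.sqrt r * S)) with hBt
  have hBt0 : 0 ≤ Bt := by positivity
  set D : Set (EE (m + 1)) := {q | ‖q‖ ≤ 2 * dl (m + 1) R ∧ |inner ℝ e q - sg0| ≤ 10 * th ∧ q ∈ E} with hD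
  have hDmeas : MeasurableSet D := by
    have h1 : MeasurableSet {q : EE (m + 1) | ‖q‖ ≤ 2 * dl (m + 1) R} :=
      measurableSet_le measurable_norm measurable_const
    have h2 : MeasurableSet {q : EE (m + 1) | |inner ℝ e q - sg0| ≤ 10 * th} := by
      refine (isClosed_le ?_ continuous_const).measurableSet
      fun_prop
    exact h1.inter (h2.inter hE)
  have hDsub : D ⊆ Metric.closedBall 0 (2 * dl (m + 1) R) := fun q hq => by
    simpa using hq.1
  obtain ⟨-, hemb, hpres⟩ := hSPL m e L hS.e_one hS.eL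
  -- the bound for all finite sums
  have hmain : ∀ (Z : Finset (Fin (m + 1 + 1) → ℤ)) (f : EE (m + 1) → ℂ), Continuous f →
      ∑ z ∈ Z, ‖∫ q in D, ∫ q' in D, Kf om lam r T (ch.X q - ch.X q' + Lt.du z) *
        ((starRingEnd ℂ) (f q) * f q')‖ ≤ (2 * (10 * th) * Bt) * ∫ q in D, ‖f q‖ ^ 2 := by
    intro Z f hf
    refine hSL m e L (Fin (m + 2) → ℤ) Z (fun z q q' => Kf om lam r T (ch.X q - ch.X q' + Lt.du z))
      (2 * dl (m + 1) R) (10 * th) sg0 Bt E hS.e_one hS.eL ?_ hE (by positivity) (by positivity) hBt0 ?_ f hf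
    · intro z _
      have hX := ch.smooth.continuous
      exact (continuous_Kf om hr0).comp
        (((hX.comp continuous_fst).sub (hX.comp continuous_snd)).add continuous_const)
    · intro sg sg' hsg hsg' hsgR hsgR'
      have hsub : ∀ u : ℝ, fib m (2 * dl (m + 1) R) e L E u ⊆ Metric.closedBall (0 : EE m) (2 * dl (m + 1) R) :=
        fun u b hb => by simpa using hb.1
      have hd : |sg - sg'| ≤ 20 * th := by
        have : sg - sg' = (sg - sg0) - (sg' - sg0) := by ring
        rw [this]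
        refine (abs_sub _ _).trans ?_
        linarith
      change OBF m (fib m (2 * dl (m + 1) R) e L E sg) (fib m (2 * dl (m + 1) R) e L E sg') Z
        (fun z => ks ch om lam r T e L (Lt.du z) sg sg') Bt
      refine OBF_split (fun z => z = 0) ?_ (OBF_split (fun z => |inner ℝ om (Lt.du z)| < 1 / A) ?_
        (OBF_split (fun z => |inner ℝ om (Lt.du z)| * r ^ 2 ≤ 2 * lam) ?_ ?_))
      · refine OBF_zero (fun z hz => by simp only [Finset.mem_filter] at hz; exact hz.2) ?_
        have h := hz0 ch om e L hS lam r T th sg sg' hlam hr hr3 hT0 hth hthr hsgR hsgR' hd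
        intro f g hf hg hbf hbg hf0 hg0
        simp only [du_zero]
        exact h f g hf hg hbf hbg (fun b hb => hf0 b fun h => hb (hsub _ h)) (fun b hb => hg0 b fun h => hb (hsub _ h))
      · refine OBF_mono (hza ch hDm Lt om e L hS lam r T sg sg' _ hlam hr hr3 hT0 hsgR hsgR' ?_)
          (hsub _) (hsub _) le_rfl
        intro z hz
        simp only [Finset.mem_filter] at hz
        exact ⟨hz.1.2, hz.2⟩
      · refine OBF_mono (hz1 ch hDm Lt om e L hS lam r T sg sg' _ hlam hr hr3 hT0 hsgR hsgR' ?_)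
          (hsub _) (hsub _) le_rfl
        intro z hz
        simp only [Finset.mem_filter] at hz
        exact ⟨not_lt.mp hz.1.2, hz.2⟩
      · refine hsum ch hDm Lt om e L hS lam r w sg0 (10 * th) phi1 phi2 sg sg' E hlam hr hr3 hw hw1 hT1 hphi1 hphi2
          hE hCH hsg hsg' hsgR hsgR' _ ?_
        intro z hz
        simp only [Finset.mem_filter] at hz
        exact ⟨not_lt.mp hz.1.2, (not_le.mp hz.2).le⟩
  have hWW : ∀ j ∈ s, Real.exp (-2) ≤ WW om lam r T (Lt.fr j) := by
    intro j hj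
    refine hWL (m + 2) (Lt.fr j) om lam r T hlam hr hr3 hT0.le ?_ hS.om_one (hs j hj).1 (hs j hj).2
    have : T * r = w * lam := by
      rw [hTdef]; field_simp
    rw [this]
    nlinarith
  have h := hdu Lt ch.X D (2 * dl (m + 1) R) om lam r T (Real.exp (-2)) (2 * (10 * th) * Bt) s a
    ch.smooth.continuous hDmeas hDsub hS.om_one hlam0 hr0 hT0 (Real.exp_pos _) (by positivity) hWW hmain
  refine h.trans ?_
  have hsum0 : 0 ≤ ∑ j ∈ s, ‖a j‖ ^ 2 := Finset.sum_nonneg fun _ _ => by positivity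
  refine mul_le_mul_of_nonneg_right ?_ hsum0
  have hrT : r / T = r ^ 2 / (w * lam) := by
    rw [hTdef]; field_simp
  have e1 : th * (r / T) = th * r ^ 2 / (w * lam) := by rw [hrT]; ring
  have e2 : th * (r / T) * (lam / r ^ 2) = th / w := by
    rw [hrT]; field_simp
  have e3 : th * Real.sqrt r ≤ 1 := by
    have : (th * Real.sqrt r) ^ 2 ≤ 1 := by
      rw [mul_pow, Real.sq_sqrt hr0.le]; exact hthr
    exact (abs_le_one_iff_mul_self_le_one.mpr (by nlinarith)) |> fun h => (le_abs_self _).trans h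
  have e4 : th * Bt ≤ (C0 + CA + C1 + CS) * (th * r ^ 2 / (w * lam) + th / w + S) := by
    have e5 : th * Bt = (C0 + CA + C1) * (th * r ^ 2 / (w * lam)) + C1 * (th / w) + CS * (th * Real.sqrt r) * S := by
      rw [hBt, ← e1, ← e2]; ring
    rw [e5]
    have p1 : 0 ≤ th * r ^ 2 / (w * lam) := by positivity
    have p2 : 0 ≤ th / w := by positivity
    have p3 : CS * (th * Real.sqrt r) * S ≤ CS * S := by
      have : CS * (th * Real.sqrt r) * S = CS * S * (th * Real.sqrt r) := by ring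
      rw [this]
      exact mul_le_of_le_one_right (by positivity) e3
    nlinarith [mul_nonneg hC0.le p2, mul_nonneg hCA.le p2, mul_nonneg hCS.le p2, mul_nonneg hCS.le p1,
      mul_nonneg hC0.le hS0, mul_nonneg hCA.le hS0, mul_nonneg hC1.le hS0]
  have e6 : th * r ^ 2 / (w * lam) + th / w + w + (Real.sqrt w)⁻¹ * (phi1 + phi2 * w) =
      th * r ^ 2 / (w * lam) + th / w + S := by rw [hSdef]; ring
  rw [e6]
  have e7 : Cd * (Real.exp (-2))⁻¹ * (2 * (10 * th) * Bt) = Cd * (Real.exp (-2))⁻¹ * 20 * (th * Bt) := by ring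
  rw [e7]
  calc Cd * (Real.exp (-2))⁻¹ * 20 * (th * Bt)
      ≤ Cd * (Real.exp (-2))⁻¹ * 20 * ((C0 + CA + C1 + CS) * (th * r ^ 2 / (w * lam) + th / w + S)) :=
        mul_le_mul_of_nonneg_left e4 (by positivity)
    _ = Cd * (Real.exp (-2))⁻¹ * (20 * (C0 + CA + C1 + CS)) * (th * r ^ 2 / (w * lam) + th / w + S) := by ring

end Pool.Agent.Lib.MP_a8dae7_an.UN.A_PP
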