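import Pool.Agent.Lib.MP_a8dae7_an.UN.SpecA
import Pool.Agent.Lib.MP_a8dae7_an.CV.PS

/-!
# MP_a8dae7_an, UN: Poisson summation of the majorant over an affine lattice (module A_PS)
-/

set_option autoImplicit false

open MeasureTheory
open scoped ContDiff

namespace Pool.Agent.Lib.MP_a8dae7_an.UN.A_PS

open Pool.Agent.Lib.MP_a8dae7_an.CV (EE zv ex pq pi2 AA sl bm)
open Pool.Agent.Lib.MP_a8dae7_an.CV.PSAM (summable_exp pq_nonneg norm_le)
open Pool.Agent.Lib.MP_a8dae7_an.CV.PSM (ex_norm ex_mul ex_cont ek_eq integral_toLp)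
open Pool.Agent.Lib.MP_a8dae7_an.UN.ASpec

/-! ## Decay -/

theorem WW_pos {d : ℕ} (om : EE d) (lam r T : ℝ) (xi : EE d) : 0 < WW om lam r T xi := Real.exp_pos _

theorem WW_cont {d : ℕ} (om : EE d) (lam r T : ℝ) : Continuous (WW om lam r T) := by
  unfold WW pq
  fun_prop

theorem WW_decay {d : ℕ} {om : EE d} {lam r T : ℝ} (h : ‖om‖ = 1) (hl : 0 < lam) (hr : 0 < r)
    (hT : 0 < T) : ∃ c K : ℝ, 0 < c ∧ 0 < K ∧
      ∀ xi : EE d, WW om lam r T xi ≤ K * Real.exp (-(c * ‖xi‖)) := by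
  set a : ℝ := 1 / 2 + 1 / (2 * lam) with ha
  have ha0 : 0 < a := by positivity
  set b : ℝ := 3 / 4 + lam with hb
  set c : ℝ := min (1 / (r ^ 2 * a)) (T ^ 2) with hc
  have hc0 : 0 < c := lt_min (by positivity) (by positivity)
  refine ⟨c, Real.exp (c * b), hc0, Real.exp_pos _, fun xi => ?_⟩
  rw [← Real.exp_add]
  apply Real.exp_le_exp.mpr
  have hp := pq_nonneg h xi
  have hn := norm_le h xi
  set p := pq om xi with hpdef
  set s : ℝ := inner ℝ om xi with hs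
  set q := Real.sqrt p with hq
  have hq2 : q ^ 2 = p := Real.sq_sqrt hp
  set X := s - lam + p / (2 * lam) with hX
  have hsX : |s| ≤ |X| + lam + p / (2 * lam) := by
    have e : s = X + lam - p / (2 * lam) := by rw [hX]; ring
    have h1 : |s| ≤ |X| + |lam| + |p / (2 * lam)| := by
      calc |s| = |X + lam - p / (2 * lam)| := by rw [← e]
        _ ≤ |X + lam| + |p / (2 * lam)| := abs_sub _ _
        _ ≤ |X| + |lam| + |p / (2 * lam)| := by linarith [abs_add_le X lam]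
    rwa [abs_of_pos hl, abs_of_nonneg (by positivity : 0 ≤ p / (2 * lam))] at h1
  have h1 : |X| ≤ X ^ 2 + 1 / 4 := by
    nlinarith [sq_abs X, sq_nonneg (|X| - 1 / 2)]
  have h2 : q ≤ p / 2 + 1 / 2 := by nlinarith [sq_nonneg (q - 1)]
  have h3 : ‖xi‖ ≤ a * p + X ^ 2 + b := by
    have e : a * p = p / 2 + p / (2 * lam) := by rw [ha]; ring
    rw [e, hb]
    linarith
  have h4 : c * (a * p) ≤ p / r ^ 2 := by
    have h5 : c * a ≤ 1 / r ^ 2 := by
      calc c * a ≤ 1 / (r ^ 2 * a) * a := mul_le_mul_of_nonneg_right (min_le_left _ _) ha0.le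
        _ = 1 / r ^ 2 := by field_simp
    calc c * (a * p) = c * a * p := by ring
      _ ≤ 1 / r ^ 2 * p := mul_le_mul_of_nonneg_right h5 hp
      _ = p / r ^ 2 := by ring
  have h5 : c * X ^ 2 ≤ T ^ 2 * X ^ 2 := mul_le_mul_of_nonneg_right (min_le_right _ _) (sq_nonneg _)
  have h6 := mul_le_mul_of_nonneg_left h3 hc0.le
  have h7 : c * (a * p + X ^ 2 + b) = c * (a * p) + c * X ^ 2 + c * b := by ring
  linarith

theorem MM_decay {d : ℕ} {om : EE d} {lam r T : ℝ} (h : ‖om‖ = 1) (hl : 0 < lam) (hr : 0 < r)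
    (hT : 0 < T) : ∃ c K : ℝ, 0 < c ∧ ∀ x : EE d, c * ‖x‖ - K ≤ MM om lam r T x := by
  set κ : ℝ := lam / (4 * T * r ^ 2) with hκ
  have hκ0 : 0 < κ := by positivity
  set c : ℝ := min (1 / (8 * T)) (2 * κ * r) with hc
  have hc0 : 0 < c := lt_min (by positivity) (by positivity)
  refine ⟨c, 4 * κ ^ 2 + 1 / 48, hc0, fun x => ?_⟩
  have hp := pq_nonneg h x
  have hn := norm_le h x
  unfold MM
  set p := pq om x with hpdef
  set t : ℝ := inner ℝ om x with ht
  set q := Real.sqrt p with hq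
  have hq0 : 0 ≤ q := Real.sqrt_nonneg p
  have hq2 : q ^ 2 = p := Real.sq_sqrt hp
  have ht0 := abs_nonneg t
  set D := 4 + (t * r ^ 2 / lam) ^ 2 with hD
  have hD0 : 0 < D := by positivity
  have h1 : 2 * κ * r * q - κ ^ 2 * D ≤ p * r ^ 2 / D := by
    rw [le_div_iff₀ hD0, ← hq2]
    nlinarith [sq_nonneg (q * r - κ * D)]
  have h2 : κ ^ 2 * D = 4 * κ ^ 2 + t ^ 2 / (16 * T ^ 2) := by
    rw [hD, hκ]
    field_simp
    ring
  have h3 : |t| / (8 * T) - 1 / 48 ≤ 3 / 16 * (t ^ 2 / T ^ 2) := by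
    have e : t ^ 2 / T ^ 2 = (|t| / T) ^ 2 := by rw [div_pow, sq_abs]
    have e2 : |t| / (8 * T) = 1 / 8 * (|t| / T) := by field_simp
    rw [e, e2]
    nlinarith [sq_nonneg (|t| / T - 1 / 3)]
  have h4 : t ^ 2 / (4 * T ^ 2) = 3 / 16 * (t ^ 2 / T ^ 2) + t ^ 2 / (16 * T ^ 2) := by
    field_simp
    ring
  have h5 : c * ‖x‖ ≤ 2 * κ * r * q + |t| / (8 * T) := by
    calc c * ‖x‖ ≤ c * (q + |t|) := mul_le_mul_of_nonneg_left hn hc0.le
      _ = c * q + c * |t| := by ring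
      _ ≤ 2 * κ * r * q + 1 / (8 * T) * |t| :=
          add_le_add (mul_le_mul_of_nonneg_right (min_le_right _ _) hq0)
            (mul_le_mul_of_nonneg_right (min_le_left _ _) ht0)
      _ = _ := by ring
  linarith

/-- the shifts of an exponential are locally uniformly summable -/
theorem exp_shift {d : ℕ} {c Q a : ℝ} (hc : 0 < c) (z : Fin d → ℤ) {x y : EE d}
    (hx : ‖x‖ ≤ Q) (hy : a * ‖zv z‖ ≤ ‖y‖) :
    Real.exp (-(c * ‖x + y‖)) ≤ Real.exp (c * Q) * Real.exp (-(c * a * ‖zv z‖)) := by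
  rw [← Real.exp_add]
  apply Real.exp_le_exp.mpr
  have h1 : ‖y‖ ≤ ‖x + y‖ + ‖x‖ := by
    have := norm_sub_le (x + y) x
    rwa [add_sub_cancel_left] at this
  have h3 : c * (a * ‖zv z‖) ≤ c * (‖x + y‖ + Q) := mul_le_mul_of_nonneg_left (by linarith) hc.le
  linarith

/-! ## The lattice -/

section Lattice

variable {D : ℕ} {A : ℝ} (Lt : Lat D A)

theorem B_le (v : EE D) : ‖Lt.B v‖ ≤ (|A| + 1) * ‖v‖ := by
  have h1 := (Lt.B : EE D →L[ℝ] EE D).le_of_opNorm_le Lt.hB v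
  refine h1.trans (mul_le_mul_of_nonneg_right ?_ (norm_nonneg _))
  linarith [le_abs_self A]

theorem Bs_le (v : EE D) : ‖Lt.B.symm v‖ ≤ (|A| + 1) * ‖v‖ := by
  have h1 := (Lt.B.symm : EE D →L[ℝ] EE D).le_of_opNorm_le Lt.hB' v
  refine h1.trans (mul_le_mul_of_nonneg_right ?_ (norm_nonneg _))
  linarith [le_abs_self A]

theorem B_ge (v : EE D) : (|A| + 1)⁻¹ * ‖v‖ ≤ ‖Lt.B v‖ := by
  have h1 := Bs_le Lt (Lt.B v)
  rw [Lt.B.symm_apply_apply] at h1
  have hA : 0 < |A| + 1 := by positivity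
  rw [inv_mul_le_iff₀ hA]
  exact h1

theorem du_ge (z : Fin D → ℤ) : (|A| + 1)⁻¹ * ‖zv z‖ ≤ ‖Lt.du z‖ := by
  have hA : 0 < |A| + 1 := by positivity
  set y := ContinuousLinearMap.adjoint (Lt.B.symm : EE D →L[ℝ] EE D) (zv z) with hy
  have h1 : ‖zv z‖ ^ 2 = inner ℝ y (Lt.B (zv z)) := by
    rw [hy, ContinuousLinearMap.adjoint_inner_left, ← real_inner_self_eq_norm_sq]
    congr 1
    exact (Lt.B.symm_apply_apply (zv z)).symm
  have h2 : ‖zv z‖ ^ 2 ≤ ‖y‖ * ((|A| + 1) * ‖zv z‖) := by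
    rw [h1]
    exact (real_inner_le_norm _ _).trans (mul_le_mul_of_nonneg_left (B_le Lt _) (norm_nonneg _))
  have h3 : ‖zv z‖ ≤ (|A| + 1) * ‖y‖ := by
    rcases eq_or_lt_of_le (norm_nonneg (zv z)) with h0 | h0
    · rw [← h0]
      positivity
    · nlinarith
  have h4 : ‖y‖ ≤ ‖Lt.du z‖ := by
    have h5 : Lt.du z = (2 * Real.pi) • y := rfl
    rw [h5, norm_smul, Real.norm_of_nonneg (by positivity)]
    nlinarith [norm_nonneg y, Real.pi_gt_three]
  rw [inv_mul_le_iff₀ hA]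
  exact h3.trans (mul_le_mul_of_nonneg_left h4 hA.le)

theorem du_neg (z : Fin D → ℤ) : Lt.du (-z) = -Lt.du z := by
  have h2 : (zv (-z) : EE D) = -zv z := by
    ext i
    simp [zv]
  unfold Lat.du
  rw [h2, map_neg, smul_neg]

theorem inner_du (z : Fin D → ℤ) (x : EE D) :
    inner ℝ (Lt.du z) x = 2 * Real.pi * inner ℝ (zv z) (Lt.B.symm x) := by
  unfold Lat.du
  rw [real_inner_smul_left, ContinuousLinearMap.adjoint_inner_left]
  rfl

theorem det_ne : (Lt.B : EE D →L[ℝ] EE D).det ≠ 0 :=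
  (LinearEquiv.isUnit_det' Lt.B.toLinearEquiv).ne_zero

/-- change of variables -/
theorem integral_lat (F : EE D → ℂ) :
    ∫ s, F (Lt.B s + Lt.a0) = ((|(Lt.B : EE D →L[ℝ] EE D).det|⁻¹ : ℝ) : ℂ) * ∫ xi, F xi := by
  have h0 : LinearMap.det (Lt.B.toLinearEquiv : EE D →ₗ[ℝ] EE D) ≠ 0 := det_ne Lt
  have h1 := Measure.map_linearMap_addHaar_eq_smul_addHaar (volume : Measure (EE D)) h0
  have h2 : ∫ s, F (Lt.B s + Lt.a0) =
      ∫ y, F (y + Lt.a0) ∂(Measure.map Lt.B (volume : Measure (EE D))) :=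
    (Lt.B.toHomeomorph.measurableEmbedding.integral_map (fun y => F (y + Lt.a0))).symm
  have h3 : Measure.map Lt.B (volume : Measure (EE D)) =
      ENNReal.ofReal |(LinearMap.det (Lt.B.toLinearEquiv : EE D →ₗ[ℝ] EE D))⁻¹| • volume := h1
  rw [h2, h3, integral_smul_measure, integral_add_right_eq_self,
    ENNReal.toReal_ofReal (abs_nonneg _), abs_inv]
  rw [Complex.real_smul]
  rfl

end Lattice

theorem specPS (hFT : SpecFT) (hKN : SpecKN) : SpecPS := by
  intro k A Lt om lam r T hom hlam hr hT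
  obtain ⟨c, K, hc, hK, hW⟩ := WW_decay (om := om) hom hlam hr hT
  obtain ⟨c', K', hc', hM⟩ := MM_decay (om := om) hom hlam hr hT
  obtain ⟨C, hC, hKf⟩ := hKN k
  obtain ⟨hint, hF⟩ := hFT k om lam r T hom hlam hr hT
  have hA : 0 < |A| + 1 := by positivity
  -- decay of the majorant on the lattice
  have hWloc : ∀ Q : ℝ, ∃ u : (Fin (k + 1) → ℤ) → ℝ, Summable u ∧
      ∀ (z : Fin (k + 1) → ℤ) (x : EE (k + 1)), ‖x‖ ≤ Q → WW om lam r T (x + Lt.B (zv z)) ≤ u z := by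
    intro Q
    refine ⟨fun z => K * (Real.exp (c * Q) * Real.exp (-(c * (|A| + 1)⁻¹ * ‖zv z‖))),
      ((summable_exp (by positivity)).mul_left _).mul_left _, fun z x hx => ?_⟩
    exact (hW _).trans (mul_le_mul_of_nonneg_left (exp_shift hc z hx (B_ge Lt _)) hK.le)
  -- decay of the kernel on the dual lattice
  have hKloc : ∀ Q : ℝ, ∃ u : (Fin (k + 1) → ℤ) → ℝ, Summable u ∧
      ∀ (z : Fin (k + 1) → ℤ) (x : EE (k + 1)), ‖x‖ ≤ Q → ‖Kf om lam r T (x + Lt.du z)‖ ≤ u z := by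
    intro Q
    refine ⟨fun z => C / T * r ^ k * Real.exp K' *
      (Real.exp (c' * Q) * Real.exp (-(c' * (|A| + 1)⁻¹ * ‖zv z‖))),
      ((summable_exp (by positivity)).mul_left _).mul_left _, fun z x hx => ?_⟩
    refine ((hKf om lam r T (x + Lt.du z) hom hlam hr hT).1).trans ?_
    have h1 : Real.exp (-MM om lam r T (x + Lt.du z)) ≤
        Real.exp K' * Real.exp (-(c' * ‖x + Lt.du z‖)) := by
      rw [← Real.exp_add]
      apply Real.exp_le_exp.mpr
      have := hM (x + Lt.du z)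
      linarith
    calc C / T * r ^ k * Real.exp (-MM om lam r T (x + Lt.du z))
        ≤ C / T * r ^ k * (Real.exp K' * Real.exp (-(c' * ‖x + Lt.du z‖))) := by gcongr
      _ ≤ C / T * r ^ k * (Real.exp K' *
          (Real.exp (c' * Q) * Real.exp (-(c' * (|A| + 1)⁻¹ * ‖zv z‖)))) := by
          have := exp_shift hc' z hx (du_ge Lt z)
          gcongr
      _ = _ := by ring
  refine ⟨?_, hKloc, fun x => ?_⟩
  · obtain ⟨u, hu, hu'⟩ := hWloc ‖Lt.a0‖
    refine Summable.of_nonneg_of_le (fun j => (WW_pos om lam r T _).le) (fun j => ?_) hu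
    have h1 : Lt.fr j = Lt.a0 + Lt.B (zv j) := add_comm _ _
    rw [h1]
    exact hu' j _ le_rfl
  let G : EE (k + 1) → ℂ := fun xi => ((WW om lam r T xi : ℝ) : ℂ) * ex xi x
  have hGc : Continuous G := by
    have h1 := WW_cont om lam r T
    have h2 := ex_cont x
    exact (Complex.continuous_ofReal.comp h1).mul h2
  have hGn : ∀ xi, ‖G xi‖ = WW om lam r T xi := by
    intro xi
    show ‖((WW om lam r T xi : ℝ) : ℂ) * ex xi x‖ = _
    rw [norm_mul, ex_norm, mul_one, Complex.norm_real, Real.norm_of_nonneg (WW_pos om lam r T xi).le]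
  have hBc : Continuous fun y : EE (k + 1) => Lt.B y + Lt.a0 := by fun_prop
  let G1 : EE (k + 1) → ℂ := fun y => G (Lt.B y + Lt.a0)
  have hG1c : Continuous G1 := hGc.comp hBc
  have hG1n : ∀ y, ‖G1 y‖ = WW om lam r T (Lt.B y + Lt.a0) := fun y => hGn _
  have hG1i : Integrable G1 := by
    have h1 : ∀ y : EE (k + 1), ‖G1 y‖ ≤
        K * Real.exp (c * ‖Lt.a0‖) * Real.exp (-(c * (|A| + 1)⁻¹ * ‖y‖)) := by
      intro y
      rw [hG1n]
      refine (hW _).trans ?_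
      rw [mul_assoc K]
      refine mul_le_mul_of_nonneg_left ?_ hK.le
      rw [← Real.exp_add]
      apply Real.exp_le_exp.mpr
      have h2 : ‖Lt.B y‖ ≤ ‖Lt.B y + Lt.a0‖ + ‖Lt.a0‖ := by
        have := norm_sub_le (Lt.B y + Lt.a0) Lt.a0
        rwa [add_sub_cancel_right] at this
      have h3 := B_ge Lt y
      have h4 : c * ((|A| + 1)⁻¹ * ‖y‖) ≤ c * (‖Lt.B y + Lt.a0‖ + ‖Lt.a0‖) :=
        mul_le_mul_of_nonneg_left (h3.trans h2) hc.le
      linarith
    have h2 : Integrable G := by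
      refine hint.mono' hGc.aestronglyMeasurable (Filter.Eventually.of_forall fun xi => ?_)
      exact (hGn xi).le
    have h3 : Integrable (fun y : EE (k + 1) => G (y + Lt.a0)) := h2.comp_add_right Lt.a0
    have h0 : LinearMap.det (Lt.B.toLinearEquiv : EE (k + 1) →ₗ[ℝ] EE (k + 1)) ≠ 0 := det_ne Lt
    have h4 : Measure.map Lt.B (volume : Measure (EE (k + 1))) =
        ENNReal.ofReal |(LinearMap.det (Lt.B.toLinearEquiv : EE (k + 1) →ₗ[ℝ] EE (k + 1)))⁻¹| • volume :=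
      Measure.map_linearMap_addHaar_eq_smul_addHaar (volume : Measure (EE (k + 1))) h0
    have h5 : Integrable (fun y : EE (k + 1) => G (y + Lt.a0))
        (Measure.map Lt.B (volume : Measure (EE (k + 1)))) := by
      rw [h4]
      exact h3.smul_measure ENNReal.ofReal_ne_top
    exact (Lt.B.toHomeomorph.measurableEmbedding.integrable_map_iff).1 h5
  let g : (Fin (k + 1) → ℝ) → ℂ := fun s => G1 (WithLp.toLp 2 s)
  have hgc : Continuous g := hG1c.comp (PiLp.continuous_toLp 2 _)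
  have hgi : Integrable g :=
    (EuclideanSpace.volume_preserving_symm_measurableEquiv_toLp (Fin (k + 1))).symm.integrable_comp_emb
      (MeasurableEquiv.toLp 2 (Fin (k + 1) → ℝ)).measurableEmbedding |>.2 hG1i
  set dt : ℂ := ((|(Lt.B : EE (k + 1) →L[ℝ] EE (k + 1)).det|⁻¹ : ℝ) : ℂ) with hdt
  have hcoef : ∀ m : Fin (k + 1) → ℤ, ∫ s, g s * CV.POIM.ek m s =
      dt * (ex Lt.a0 (-(Lt.du (-m))) * Kf om lam r T (x + Lt.du (-m))) := by
    intro m
    have h1 : (fun s : Fin (k + 1) → ℝ => g s * CV.POIM.ek m s) =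
        fun s => (fun y : EE (k + 1) => (fun xi : EE (k + 1) => ex Lt.a0 (-(Lt.du (-m))) *
          (((WW om lam r T xi : ℝ) : ℂ) * ex xi (x + Lt.du (-m)))) (Lt.B y + Lt.a0))
          (WithLp.toLp 2 s) := by
      funext s
      show ((WW om lam r T (Lt.B (WithLp.toLp 2 s) + Lt.a0) : ℝ) : ℂ) *
        ex (Lt.B (WithLp.toLp 2 s) + Lt.a0) x * CV.POIM.ek m s = _
      rw [ek_eq]
      set y : EE (k + 1) := WithLp.toLp 2 s with hy
      have h2 : ex y ((-(2 * Real.pi)) • zv m) =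
          ex Lt.a0 (-(Lt.du (-m))) * ex (Lt.B y + Lt.a0) (Lt.du (-m)) := by
        unfold ex
        rw [← Complex.exp_add]
        congr 1
        rw [← mul_add, ← Complex.ofReal_add]
        congr 2
        rw [inner_neg_right, inner_add_left, real_inner_comm (Lt.du (-m)) (Lt.B y),
          real_inner_comm (Lt.du (-m)) Lt.a0, inner_du, inner_du, Lt.B.symm_apply_apply,
          inner_smul_right]
        have h3 : (zv (-m) : EE (k + 1)) = -zv m := by
          ext i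
          simp [zv]
        rw [h3, inner_neg_left, inner_neg_left, real_inner_comm (zv m) y]
        ring
      rw [h2]
      show _ = ex Lt.a0 (-(Lt.du (-m))) *
          (((WW om lam r T (Lt.B y + Lt.a0) : ℝ) : ℂ) * ex (Lt.B y + Lt.a0) (x + Lt.du (-m)))
      rw [← ex_mul]
      ring
    rw [h1]
    refine (integral_toLp (fun y : EE (k + 1) => (fun xi : EE (k + 1) => ex Lt.a0 (-(Lt.du (-m))) *
          (((WW om lam r T xi : ℝ) : ℂ) * ex xi (x + Lt.du (-m)))) (Lt.B y + Lt.a0))).trans ?_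
    rw [integral_lat Lt (fun xi : EE (k + 1) => ex Lt.a0 (-(Lt.du (-m))) *
          (((WW om lam r T xi : ℝ) : ℂ) * ex xi (x + Lt.du (-m)))), integral_const_mul, hF]
  obtain ⟨u, hu, hu'⟩ := hKloc ‖x‖
  have hsum0 : Summable fun z : Fin (k + 1) → ℤ =>
      dt * (ex Lt.a0 (-(Lt.du z)) * Kf om lam r T (x + Lt.du z)) := by
    refine Summable.mul_left _ (Summable.of_norm_bounded hu fun z => ?_)
    rw [norm_mul, ex_norm, one_mul]
    exact hu' z x le_rfl
  have hsum : Summable fun m : Fin (k + 1) → ℤ => ∫ s, g s * CV.POIM.ek m s := by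
    have h1 : (fun m : Fin (k + 1) → ℤ => ∫ s, g s * CV.POIM.ek m s) =
        (fun z : Fin (k + 1) → ℤ => dt * (ex Lt.a0 (-(Lt.du z)) * Kf om lam r T (x + Lt.du z))) ∘
          (Equiv.neg _) := by
      funext m
      exact hcoef m
    rw [h1]
    exact (Equiv.neg (Fin (k + 1) → ℤ)).summable_iff.2 hsum0
  have hloc : ∀ Q : ℝ, ∃ u : (Fin (k + 1) → ℤ) → ℝ, Summable u ∧ ∀ (z : Fin (k + 1) → ℤ) t, ‖t‖ ≤ Q →
      ‖g (t + CV.POIM.ix z)‖ ≤ u z := by
    intro Q
    obtain ⟨v, hv, hv'⟩ := hWloc ((|A| + 1) * (Real.sqrt (k + 1) * Q) + ‖Lt.a0‖)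
    refine ⟨v, hv, fun z t ht => ?_⟩
    show ‖G1 (WithLp.toLp 2 (t + CV.POIM.ix z))‖ ≤ v z
    rw [hG1n]
    have h0 : Lt.B (WithLp.toLp 2 (t + CV.POIM.ix z)) + Lt.a0 =
        (Lt.B (WithLp.toLp 2 t) + Lt.a0) + Lt.B (zv z) := by
      have h5 : (WithLp.toLp 2 (t + CV.POIM.ix z) : EE (k + 1)) = WithLp.toLp 2 t + zv z := rfl
      rw [h5, map_add]
      abel
    rw [h0]
    refine hv' z _ ?_
    have h1 : ‖(WithLp.toLp 2 t : EE (k + 1))‖ ≤ Real.sqrt (k + 1) * ‖t‖ := by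
      rw [EuclideanSpace.norm_eq, ← Real.sqrt_sq (norm_nonneg t), ← Real.sqrt_mul (by positivity)]
      apply Real.sqrt_le_sqrt
      calc ∑ i, ‖(WithLp.toLp 2 t : EE (k + 1)) i‖ ^ 2 ≤ ∑ _i : Fin (k + 1), ‖t‖ ^ 2 :=
            Finset.sum_le_sum fun i _ => pow_le_pow_left₀ (norm_nonneg _) (norm_le_pi_norm t i) 2
        _ = (k + 1) * ‖t‖ ^ 2 := by simp
    refine (norm_add_le _ _).trans (add_le_add_left ?_ _ |>.trans_eq rfl)
    refine (B_le Lt _).trans (mul_le_mul_of_nonneg_left ?_ hA.le)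
    exact h1.trans (mul_le_mul_of_nonneg_left ht (Real.sqrt_nonneg _))
  have hP := CV.POIM.poisson g hgc hgi hloc hsum 0
  have h1 : CV.POIM.per g 0 =
      ∑' j : Fin (k + 1) → ℤ, ((WW om lam r T (Lt.fr j) : ℝ) : ℂ) * ex (Lt.fr j) x := by
    unfold CV.POIM.per
    refine tsum_congr fun n => ?_
    rw [zero_add]
    rfl
  rw [← h1, ← hP.tsum_eq, ← tsum_mul_left, ← (Equiv.neg (Fin (k + 1) → ℤ)).tsum_eq
    (fun z : Fin (k + 1) → ℤ => dt * (ex Lt.a0 (-(Lt.du z)) * Kf om lam r T (x + Lt.du z)))]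
  refine tsum_congr fun m => ?_
  have h2 : CV.POIM.ek (-m) (0 : Fin (k + 1) → ℝ) = 1 := by
    simp [CV.POIM.ek]
  rw [h2, mul_one, hcoef m]
  rfl

end Pool.Agent.Lib.MP_a8dae7_an.UN.A_PS
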