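import Pool.Agent.Lib.MP_a8dae7_an.UN.SpecA
import Pool.Agent.Lib.MP_a8dae7_an.CV.SC

/-!
# MP_a8dae7_an, UN: SC, the Schur test for a family of kernels
-/

set_option autoImplicit false

open MeasureTheory
open scoped ContDiff

namespace Pool.Agent.Lib.MP_a8dae7_an.UN.A_SC

open Pool.Agent.Lib.MP_a8dae7_an.CV (EE)
open Pool.Agent.Lib.MP_a8dae7_an.CV

/-- **SC** -/
theorem specSC : ASpec.SpecSC := by
  intro m R B ι Z K hK hB h1 h2 f g hf hg ⟨Mf, hMf⟩ ⟨Mg, hMg⟩ hf0 hg0
  have hmD : ∀ b : EE m, b ∈ Metric.closedBall (0 : EE m) R ↔ ‖b‖ ≤ R := fun b => by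
    simp [Metric.mem_closedBall, dist_zero_right]
  have hf0' : ∀ b, R < ‖b‖ → f b = 0 := fun b hb => hf0 b fun h => absurd ((hmD b).1 h) (not_le.2 hb)
  have hg0' : ∀ b, R < ‖b‖ → g b = 0 := fun b hb => hg0 b fun h => absurd ((hmD b).1 h) (not_le.2 hb)
  set μ : Measure (EE m) := volume.restrict (Metric.closedBall (0 : EE m) R) with hμ
  haveI : IsFiniteMeasure μ := SCM.finBall R
  -- a common bound on the ball
  have hMz : ∀ z ∈ Z, ∃ M : ℝ, 0 ≤ M ∧ ∀ b b', ‖b‖ ≤ R → ‖b'‖ ≤ R → ‖K z b b'‖ ≤ M := fun z hz =>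
    SCM.bdd (hK z hz)
  choose! M hM0 hM using hMz
  have hMf0 : 0 ≤ Mf := (norm_nonneg _).trans (hMf 0)
  have hMg0 : 0 ≤ Mg := (norm_nonneg _).trans (hMg 0)
  -- integrability of the products
  set G : ι → EE m × EE m → ℂ := fun z p => K z p.1 p.2 * (f p.1 * g p.2) with hG
  have hGi : ∀ z ∈ Z, Integrable (G z) (μ.prod μ) := by
    intro z hz
    refine Integrable.of_bound ?_ (M z * (Mf * Mg)) ?_
    · exact ((hK z hz).measurable.mul ((hf.comp measurable_fst).mul (hg.comp measurable_snd))).aestronglyMeasurable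
    · filter_upwards [SCM.bddae (hM z hz)] with p hp
      simp only [hG, norm_mul]
      exact mul_le_mul hp (mul_le_mul (hMf _) (hMg _) (norm_nonneg _) hMf0) (by positivity) (hM0 z hz)
  -- the kernel of the absolute values
  set Kt : EE m → EE m → ℂ := fun b b' => ((∑ z ∈ Z, ‖K z b b'‖ : ℝ) : ℂ) with hKt
  have hKtn : ∀ b b', ‖Kt b b'‖ = ∑ z ∈ Z, ‖K z b b'‖ := fun b b' => by
    rw [hKt]
    simp only [Complex.norm_real]
    exact Real.norm_of_nonneg (Finset.sum_nonneg fun z _ => norm_nonneg _)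
  have hKtc : Continuous (fun p : EE m × EE m => Kt p.1 p.2) :=
    Complex.continuous_ofReal.comp (continuous_finset_sum _ fun z hz => (hK z hz).norm)
  have hint1 : ∀ z ∈ Z, ∀ b, Integrable (fun b' => ‖K z b b'‖) μ := fun z hz b =>
    (((hK z hz).comp (continuous_const.prodMk continuous_id)).norm.continuousOn.integrableOn_compact
      (isCompact_closedBall _ _))
  have hint2 : ∀ z ∈ Z, ∀ b', Integrable (fun b => ‖K z b b'‖) μ := fun z hz b' =>
    (((hK z hz).comp (continuous_id.prodMk continuous_const)).norm.continuousOn.integrableOn_compact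
      (isCompact_closedBall _ _))
  have key := SCM.schur μ Kt (B := B) (M := ∑ z ∈ Z, M z) hKtc.aestronglyMeasurable
    (SCM.bddae (m := m) (n := m) (R := R) (R' := R) fun b b' hb hb' => by
      rw [hKtn]
      exact Finset.sum_le_sum fun z hz => hM z hz b b' hb hb') hB
    ((ae_restrict_iff' measurableSet_closedBall).2 (Filter.Eventually.of_forall fun b hb => by
      simp only [hKtn]
      rw [integral_finset_sum _ fun z hz => hint1 z hz b]
      exact h1 b ((hmD b).1 hb)))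
    ((ae_restrict_iff' measurableSet_closedBall).2 (Filter.Eventually.of_forall fun b' hb' => by
      simp only [hKtn]
      rw [integral_finset_sum _ fun z hz => hint2 z hz b']
      exact h2 b' ((hmD b').1 hb')))
    (f := fun b => ((‖f b‖ : ℝ) : ℂ)) (g := fun b => ((‖g b‖ : ℝ) : ℂ))
    (Complex.measurable_ofReal.comp hf.norm) (Complex.measurable_ofReal.comp hg.norm)
    (Mf := Mf) (Mg := Mg) (fun b => by simpa using hMf b) (fun b => by simpa using hMg b)
  simp only [Complex.norm_real, norm_norm] at key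
  -- the left side of `key`
  have hGt : ∀ p : EE m × EE m, Kt p.1 p.2 * (((‖f p.1‖ : ℝ) : ℂ) * ((‖g p.2‖ : ℝ) : ℂ)) =
      ((∑ z ∈ Z, ‖G z p‖ : ℝ) : ℂ) := fun p => by
    simp only [hKt, hG, norm_mul]
    rw [← Finset.sum_mul]
    push_cast
    ring
  have hGti : Integrable (fun p : EE m × EE m => Kt p.1 p.2 * (((‖f p.1‖ : ℝ) : ℂ) * ((‖g p.2‖ : ℝ) : ℂ)))
      (μ.prod μ) := by
    simp only [hGt]
    exact (integrable_finset_sum _ fun z hz => (hGi z hz).norm).ofReal
  have e1 : ∫ a, ∫ b, Kt a b * (((‖f a‖ : ℝ) : ℂ) * ((‖g b‖ : ℝ) : ℂ)) ∂μ ∂μ =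
      ((∑ z ∈ Z, ∫ p, ‖G z p‖ ∂(μ.prod μ) : ℝ) : ℂ) := by
    have := integral_prod _ hGti
    rw [← this]
    simp only [hGt]
    rw [integral_complex_ofReal, integral_finset_sum _ fun z hz => (hGi z hz).norm]
  rw [e1, Complex.norm_real, Real.norm_of_nonneg
    (Finset.sum_nonneg fun z _ => integral_nonneg fun p => norm_nonneg _)] at key
  rw [SCM.sgl hf0', SCM.sgl hg0']
  refine le_trans (Finset.sum_le_sum fun z hz => ?_) key
  rw [SCM.dbl (R := R) _ (by
    rintro b b' (hb | hb)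
    · simp [hf0' b hb]
    · simp [hg0' b' hb])]
  rw [show (∫ b in Metric.closedBall (0 : EE m) R, ∫ b' in Metric.closedBall (0 : EE m) R,
      K z b b' * (f b * g b')) = ∫ p, G z p ∂(μ.prod μ) from (integral_prod _ (hGi z hz)).symm]
  exact norm_integral_le_integral_norm _

end Pool.Agent.Lib.MP_a8dae7_an.UN.A_SC
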