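import Pool.Agent.Lib.MP_a8dae7_an.UN.SpecA
import Pool.Agent.Lib.MP_a8dae7_an.CV.ZS

/-!
# MP_a8dae7_an, UN: integration over slices, for a family of kernels and a set `E` (A_SL)

The port of CV/SL.  `core` is the statement for one kernel: the double integral over `D` in the coordinates `(sg, b)`, with
the integrability which is needed to exchange the sum over `z` and the integrals over `sg`, `sg'`.
-/

set_option autoImplicit false

open MeasureTheory
open scoped ContDiff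

namespace Pool.Agent.Lib.MP_a8dae7_an.UN.A_SL

open Pool.Agent.Lib.MP_a8dae7_an.CV (EE zv ex pq pi2 AA sl bm)
open Pool.Agent.Lib.MP_a8dae7_an.CV.SLM (int_bdd cs_interval)

/-- The sum of the norms of integrals is at most the integral of the sum of the norms. -/
lemma sum_norm_integral_le {α ι : Type*} [MeasurableSpace α] {μ : Measure α} (Z : Finset ι)
    (g : ι → α → ℂ) (G : α → ℝ) (hg : ∀ z ∈ Z, Integrable (g z) μ) (hG : Integrable G μ)
    (h : ∀ x, ∑ z ∈ Z, ‖g z x‖ ≤ G x) : ∑ z ∈ Z, ‖∫ x, g z x ∂μ‖ ≤ ∫ x, G x ∂μ := by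
  calc ∑ z ∈ Z, ‖∫ x, g z x ∂μ‖ ≤ ∑ z ∈ Z, ∫ x, ‖g z x‖ ∂μ :=
        Finset.sum_le_sum fun z _ => norm_integral_le_integral_norm _
    _ = ∫ x, ∑ z ∈ Z, ‖g z x‖ ∂μ := (integral_finsetSum Z fun z hz => (hg z hz).norm).symm
    _ ≤ ∫ x, G x ∂μ :=
        integral_mono (integrable_finsetSum Z fun z hz => (hg z hz).norm) hG h

/-- The coordinates `(sg, b)`. -/
noncomputable def Ph {m : ℕ} (e : EE (m + 1)) (L : EE m →ₗᵢ[ℝ] EE (m + 1)) (p : ℝ × EE m) : EE (m + 1) :=
  p.1 • e + L p.2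

/-- The function `f` cut off to `D`, in coordinates. -/
noncomputable def Fc {m : ℕ} (e : EE (m + 1)) (L : EE m →ₗᵢ[ℝ] EE (m + 1)) (D : Set (EE (m + 1)))
    (f : EE (m + 1) → ℂ) : ℝ × EE m → ℂ := (Ph e L ⁻¹' D).indicator (fun p => f (Ph e L p))

/-- The integrand in coordinates. -/
noncomputable def Hc {m : ℕ} (e : EE (m + 1)) (L : EE m →ₗᵢ[ℝ] EE (m + 1)) (D : Set (EE (m + 1)))
    (f : EE (m + 1) → ℂ) (K : EE (m + 1) → EE (m + 1) → ℂ) (p p' : ℝ × EE m) : ℂ :=
  K (Ph e L p) (Ph e L p') * ((starRingEnd ℂ) (Fc e L D f p) * Fc e L D f p')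

lemma Ph_cont {m : ℕ} (e : EE (m + 1)) (L : EE m →ₗᵢ[ℝ] EE (m + 1)) : Continuous (Ph e L) :=
  (continuous_fst.smul continuous_const).add (L.continuous.comp continuous_snd)

lemma Fc_zero {m : ℕ} (e : EE (m + 1)) (L : EE m →ₗᵢ[ℝ] EE (m + 1)) (D : Set (EE (m + 1)))
    (f : EE (m + 1) → ℂ) (p : ℝ × EE m) (hp : Ph e L p ∉ D) : Fc e L D f p = 0 :=
  Set.indicator_of_notMem hp _

lemma Fc_of {m : ℕ} (e : EE (m + 1)) (L : EE m →ₗᵢ[ℝ] EE (m + 1)) (D : Set (EE (m + 1)))
    (f : EE (m + 1) → ℂ) (p : ℝ × EE m) (hp : Ph e L p ∈ D) : Fc e L D f p = f (Ph e L p) :=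
  Set.indicator_of_mem (s := Ph e L ⁻¹' D) hp _

lemma Fc_meas {m : ℕ} (e : EE (m + 1)) (L : EE m →ₗᵢ[ℝ] EE (m + 1)) (D : Set (EE (m + 1)))
    (f : EE (m + 1) → ℂ) (hf : Continuous f) (hDm : MeasurableSet D) : Measurable (Fc e L D f) :=
  (hf.comp (Ph_cont e L)).measurable.indicator ((Ph_cont e L).measurable hDm)

/-- `f` cut off is bounded. -/
lemma Fc_bdd {m : ℕ} (e : EE (m + 1)) (L : EE m →ₗᵢ[ℝ] EE (m + 1)) (D : Set (EE (m + 1)))
    (f : EE (m + 1) → ℂ) (R : ℝ) (hf : Continuous f)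
    (hPQ : ∀ p : ℝ × EE m, Ph e L p ∈ D → |p.1| ≤ R ∧ ‖p.2‖ ≤ R) :
    ∃ C : ℝ, 0 ≤ C ∧ ∀ p, ‖Fc e L D f p‖ ≤ C := by
  have hQc : IsCompact (Set.Icc (-R) R ×ˢ Metric.closedBall (0 : EE m) R) :=
    isCompact_Icc.prod (isCompact_closedBall _ _)
  obtain ⟨CF, hCF⟩ := hQc.exists_bound_of_continuousOn (f := fun p => f (Ph e L p))
    (hf.comp (Ph_cont e L)).continuousOn
  refine ⟨|CF|, abs_nonneg _, fun p => ?_⟩
  by_cases hp : Ph e L p ∈ D
  · rw [Fc_of e L D f p hp]
    obtain ⟨h1, h2⟩ := hPQ p hp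
    exact (hCF p ⟨abs_le.1 h1, by simpa using h2⟩).trans (le_abs_self _)
  · rw [Fc_zero e L D f p hp, norm_zero]
    exact abs_nonneg _

/-- One kernel: the double integral in coordinates, and integrability. -/
lemma core {m : ℕ} (e : EE (m + 1)) (L : EE m →ₗᵢ[ℝ] EE (m + 1)) (K : EE (m + 1) → EE (m + 1) → ℂ)
    (R : ℝ) (D : Set (EE (m + 1))) (f : EE (m + 1) → ℂ)
    (hemb : MeasurableEmbedding (fun p : ℝ × EE m => p.1 • e + L p.2))
    (hmp : MeasurePreserving (fun p : ℝ × EE m => p.1 • e + L p.2) (volume.prod volume) volume)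
    (hK : Continuous (fun p : EE (m + 1) × EE (m + 1) => K p.1 p.2)) (hDm : MeasurableSet D)
    (hf : Continuous f) (hPQ : ∀ p : ℝ × EE m, Ph e L p ∈ D → |p.1| ≤ R ∧ ‖p.2‖ ≤ R) :
    (∫ q in D, ∫ q' in D, K q q' * ((starRingEnd ℂ) (f q) * f q') =
      ∫ sg, ∫ sg', ∫ b, ∫ b', Hc e L D f K (sg, b) (sg', b')) ∧
    Integrable (fun sg => ∫ sg', ∫ b, ∫ b', Hc e L D f K (sg, b) (sg', b')) ∧
    ∀ sg, Integrable (fun sg' => ∫ b, ∫ b', Hc e L D f K (sg, b) (sg', b')) := by
  have hΦc : Continuous (Ph e L) := Ph_cont e L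
  obtain ⟨CF, hCF0, hFb⟩ := Fc_bdd e L D f R hf hPQ
  have hFm : Measurable (Fc e L D f) := Fc_meas e L D f hf hDm
  have hPm : MeasurableSet (Ph e L ⁻¹' D) := hΦc.measurable hDm
  set Q : Set (ℝ × EE m) := Set.Icc (-R) R ×ˢ Metric.closedBall (0 : EE m) R with hQ
  have hQc : IsCompact Q := isCompact_Icc.prod (isCompact_closedBall _ _)
  have hPQ' : ∀ p, Ph e L p ∈ D → p ∈ Q := by
    intro p hp
    obtain ⟨h1, h2⟩ := hPQ p hp
    exact ⟨abs_le.1 h1, by simpa using h2⟩
  have hKc : Continuous (fun z : (ℝ × EE m) × (ℝ × EE m) => K (Ph e L z.1) (Ph e L z.2)) :=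
    hK.comp ((hΦc.comp continuous_fst).prodMk (hΦc.comp continuous_snd))
  obtain ⟨CK, hCK⟩ := (hQc.prod hQc).exists_bound_of_continuousOn
    (f := fun z : (ℝ × EE m) × (ℝ × EE m) => K (Ph e L z.1) (Ph e L z.2)) hKc.continuousOn
  set H : (ℝ × EE m) → (ℝ × EE m) → ℂ := Hc e L D f K with hH
  have hHd : ∀ p p', H p p' = K (Ph e L p) (Ph e L p') *
      ((starRingEnd ℂ) (Fc e L D f p) * Fc e L D f p') := fun p p' => rfl
  have hHm : Measurable (fun z : (ℝ × EE m) × (ℝ × EE m) => H z.1 z.2) := by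
    refine hKc.measurable.mul (Measurable.mul ?_ (hFm.comp measurable_snd))
    exact Complex.continuous_conj.measurable.comp (hFm.comp measurable_fst)
  have hH0 : ∀ p p', ¬ (p ∈ Q ∧ p' ∈ Q) → H p p' = 0 := by
    intro p p' h
    rw [hHd]
    by_cases hp : Ph e L p ∈ D
    · have hp' : Ph e L p' ∉ D := fun hc => h ⟨hPQ' p hp, hPQ' p' hc⟩
      rw [Fc_zero e L D f p' hp', mul_zero, mul_zero]
    · rw [Fc_zero e L D f p hp, map_zero, zero_mul, mul_zero]
  have hHb : ∀ p p', ‖H p p'‖ ≤ |CK| * (CF * CF) := by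
    intro p p'
    by_cases h : p ∈ Q ∧ p' ∈ Q
    · rw [hHd]
      simp only [norm_mul, RCLike.norm_conj]
      have h1 : ‖K (Ph e L p) (Ph e L p')‖ ≤ |CK| := (hCK (p, p') ⟨h.1, h.2⟩).trans (le_abs_self _)
      gcongr
      · exact hFb p
      · exact hFb p'
    · rw [hH0 p p' h, norm_zero]
      positivity
  have hQfin : (volume.prod volume : Measure (ℝ × EE m)) Q ≠ ⊤ := hQc.measure_lt_top.ne
  -- Step 1
  have step1 : ∫ q in D, ∫ q' in D, K q q' * ((starRingEnd ℂ) (f q) * f q') =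
      ∫ p, ∫ p', H p p' ∂(volume.prod volume) ∂(volume.prod volume) := by
    have inner1 : ∀ q, ∫ q' in D, K q q' * ((starRingEnd ℂ) (f q) * f q') =
        ∫ p', K q (Ph e L p') * ((starRingEnd ℂ) (f q) * Fc e L D f p') ∂(volume.prod volume) := by
      intro q
      rw [← hmp.setIntegral_preimage_emb hemb]
      have e0 : (fun p : ℝ × EE m => p.1 • e + L p.2) = Ph e L := rfl
      rw [e0, ← integral_indicator hPm]
      refine integral_congr_ae (ae_of_all _ fun p' => ?_)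
      by_cases hp' : p' ∈ Ph e L ⁻¹' D
      · simp only [Fc_of e L D f p' hp']
        rw [Set.indicator_of_mem hp']
        rfl
      · simp only [Fc_zero e L D f p' hp', mul_zero]
        exact Set.indicator_of_notMem hp' _
    simp_rw [inner1]
    rw [← hmp.setIntegral_preimage_emb hemb]
    have e0 : (fun p : ℝ × EE m => p.1 • e + L p.2) = Ph e L := rfl
    rw [e0, ← integral_indicator hPm]
    refine integral_congr_ae (ae_of_all _ fun p => ?_)
    by_cases hp : p ∈ Ph e L ⁻¹' D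
    · rw [Set.indicator_of_mem hp]
      simp only [hHd, Fc_of e L D f p hp]
      rfl
    · rw [Set.indicator_of_notMem hp]
      simp only [hHd, Fc_zero e L D f p hp, map_zero, zero_mul, mul_zero, integral_zero]
  -- integrability
  have hHint : Integrable (fun z : (ℝ × EE m) × (ℝ × EE m) => H z.1 z.2)
      ((volume.prod volume).prod (volume.prod volume)) := by
    refine int_bdd (S := Q ×ˢ Q) ?_ hHm.aestronglyMeasurable _ (fun z => hHb z.1 z.2) ?_
    · rw [Measure.prod_prod]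
      exact ENNReal.mul_ne_top hQfin hQfin
    · intro z hz
      exact hH0 _ _ fun h => hz h
  have hHp : ∀ p, Integrable (fun p' => H p p') (volume.prod volume) := by
    intro p
    refine int_bdd (S := Q) hQfin (hHm.comp (measurable_const.prodMk measurable_id)).aestronglyMeasurable
      _ (fun p' => hHb p p') ?_
    intro p' hp'
    exact hH0 _ _ fun h => hp' h.2
  have hball : (volume : Measure (EE m)) (Metric.closedBall (0 : EE m) R) ≠ ⊤ :=
    (isCompact_closedBall _ _).measure_lt_top.ne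
  have hIcc : (volume : Measure ℝ) (Set.Icc (-R) R) ≠ ⊤ := isCompact_Icc.measure_lt_top.ne
  have step2a : ∀ sg, ∫ b, ∫ p', H (sg, b) p' ∂(volume.prod volume) =
      ∫ sg', ∫ b, ∫ b', H (sg, b) (sg', b') := by
    intro sg
    have h3 : ∀ b, ∫ p', H (sg, b) p' ∂(volume.prod volume) =
        ∫ sg', ∫ b', H (sg, b) (sg', b') := fun b => integral_prod _ (hHp (sg, b))
    simp_rw [h3]
    refine integral_integral_swap ?_
    have hm3 : Measurable (fun z : (EE m × ℝ) × EE m => H (sg, z.1.1) (z.1.2, z.2)) := by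
      refine hHm.comp (Measurable.prodMk ?_ ?_)
      · exact measurable_const.prodMk (measurable_fst.comp measurable_fst)
      · exact (measurable_snd.comp measurable_fst).prodMk measurable_snd
    have hi3 : Integrable (fun z : (EE m × ℝ) × EE m => H (sg, z.1.1) (z.1.2, z.2))
        ((volume.prod volume).prod volume) := by
      refine int_bdd (S := (Metric.closedBall (0 : EE m) R ×ˢ Set.Icc (-R) R) ×ˢ
        Metric.closedBall (0 : EE m) R) ?_ hm3.aestronglyMeasurable _ (fun z => hHb _ _) ?_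
      · rw [Measure.prod_prod, Measure.prod_prod]
        exact ENNReal.mul_ne_top (ENNReal.mul_ne_top hball hIcc) hball
      · intro z hz
        refine hH0 _ _ fun h => hz ?_
        exact ⟨⟨h.1.2, h.2.1⟩, h.2.2⟩
    exact hi3.integral_prod_left
  refine ⟨?_, ?_, fun sg => ?_⟩
  · rw [step1, integral_prod _ hHint.integral_prod_left]
    exact integral_congr_ae (ae_of_all _ step2a)
  · refine Integrable.congr (f := fun sg => ∫ b, ∫ p', H (sg, b) p' ∂(volume.prod volume)) ?_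
      (ae_of_all _ step2a)
    exact hHint.integral_prod_left.integral_prod_left
  · have hm4 : Measurable (fun w : ℝ × (EE m × EE m) => H (sg, w.2.1) (w.1, w.2.2)) := by
      refine hHm.comp (Measurable.prodMk ?_ ?_)
      · exact measurable_const.prodMk (measurable_fst.comp measurable_snd)
      · exact measurable_fst.prodMk (measurable_snd.comp measurable_snd)
    have hi4 : Integrable (fun w : ℝ × (EE m × EE m) => H (sg, w.2.1) (w.1, w.2.2))
        (volume.prod (volume.prod volume)) := by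
      refine int_bdd (S := Set.Icc (-R) R ×ˢ (Metric.closedBall (0 : EE m) R ×ˢ
        Metric.closedBall (0 : EE m) R)) ?_ hm4.aestronglyMeasurable _ (fun w => hHb _ _) ?_
      · rw [Measure.prod_prod, Measure.prod_prod]
        exact ENNReal.mul_ne_top hIcc (ENNReal.mul_ne_top hball hball)
      · intro w hw
        refine hH0 _ _ fun h => hw ?_
        exact ⟨h.2.1, ⟨h.1.2, h.2.2⟩⟩
    refine Integrable.congr hi4.integral_prod_left (ae_of_all _ fun sg' => ?_)
    have hi5 : Integrable (fun w : EE m × EE m => H (sg, w.1) (sg', w.2)) (volume.prod volume) := by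
      refine int_bdd (S := Metric.closedBall (0 : EE m) R ×ˢ Metric.closedBall (0 : EE m) R) ?_
        (hHm.comp (Measurable.prodMk (measurable_const.prodMk measurable_fst)
          (measurable_const.prodMk measurable_snd))).aestronglyMeasurable _ (fun w => hHb _ _) ?_
      · rw [Measure.prod_prod]
        exact ENNReal.mul_ne_top hball hball
      · intro w hw
        refine hH0 _ _ fun h => hw ?_
        exact ⟨h.1.2, h.2.2⟩
    exact integral_prod _ hi5

theorem specSL (hSPL : ASpec.SpecSPL) : ASpec.SpecSL := by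
  intro m e L ι Z K R tau sg0 B E he heL hK hE hR htau hB hOB f hf
  obtain ⟨-, hemb, hmp⟩ := hSPL m e L he heL
  set D : Set (EE (m + 1)) := {q | ‖q‖ ≤ R ∧ |inner ℝ e q - sg0| ≤ tau ∧ q ∈ E} with hD
  have hinner : ∀ p : ℝ × EE m, inner ℝ e (Ph e L p) = p.1 := by
    intro p
    simp only [Ph]
    rw [inner_add_right, heL, inner_smul_right, real_inner_self_eq_norm_sq, he]
    ring
  have hnorm : ∀ p : ℝ × EE m, ‖Ph e L p‖ ^ 2 = p.1 ^ 2 + ‖p.2‖ ^ 2 := by
    intro p
    simp only [Ph]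
    rw [norm_add_sq_real, inner_smul_left, heL, norm_smul, he, L.norm_map]
    simp
  have hDm : MeasurableSet D := by
    have h0 : Continuous fun q : EE (m + 1) => |inner ℝ e q - sg0| :=
      ((continuous_const.inner continuous_id).sub continuous_const).abs
    have h1 : IsClosed {q : EE (m + 1) | ‖q‖ ≤ R} := isClosed_le continuous_norm continuous_const
    have h2 : IsClosed {q : EE (m + 1) | |inner ℝ e q - sg0| ≤ tau} :=
      isClosed_le h0 continuous_const
    exact h1.measurableSet.inter (h2.measurableSet.inter hE)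
  have hPmem : ∀ p : ℝ × EE m, Ph e L p ∈ D → |p.1| ≤ R ∧ ‖p.2‖ ≤ R ∧ |p.1 - sg0| ≤ tau := by
    intro p hp
    have hp' : ‖Ph e L p‖ ≤ R ∧ |inner ℝ e (Ph e L p) - sg0| ≤ tau ∧ Ph e L p ∈ E := hp
    have hs : ‖Ph e L p‖ ^ 2 ≤ R ^ 2 := by
      have := norm_nonneg (Ph e L p)
      nlinarith [hp'.1]
    rw [hnorm] at hs
    refine ⟨?_, ?_, ?_⟩
    · refine abs_le_of_sq_le_sq ?_ hR
      nlinarith [sq_nonneg ‖p.2‖]
    · refine (abs_le_of_sq_le_sq' (a := ‖p.2‖) ?_ hR).2
      nlinarith [sq_nonneg p.1]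
    · rw [← hinner p]
      exact hp'.2.1
  have hPQ : ∀ p : ℝ × EE m, Ph e L p ∈ D → |p.1| ≤ R ∧ ‖p.2‖ ≤ R :=
    fun p hp => ⟨(hPmem p hp).1, (hPmem p hp).2.1⟩
  have hPfib : ∀ (sg : ℝ) (b : EE m), Ph e L (sg, b) ∈ D → b ∈ fib m R e L E sg := by
    intro sg b hp
    have hp' : ‖Ph e L (sg, b)‖ ≤ R ∧ |inner ℝ e (Ph e L (sg, b)) - sg0| ≤ tau ∧ Ph e L (sg, b) ∈ E := hp
    exact ⟨(hPmem _ hp).2.1, hp'.1, hp'.2.2⟩
  set F : ℝ × EE m → ℂ := Fc e L D f with hF
  have hFm : Measurable F := Fc_meas e L D f hf hDm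
  have hF0 : ∀ p, Ph e L p ∉ D → F p = 0 := Fc_zero e L D f
  obtain ⟨CF, hCF0, hFb⟩ := Fc_bdd e L D f R hf hPQ
  have hcore := fun z (hz : z ∈ Z) => core e L (K z) R D f hemb hmp (hK z hz) hDm hf hPQ
  set Q : Set (ℝ × EE m) := Set.Icc (-R) R ×ˢ Metric.closedBall (0 : EE m) R with hQ
  have hQc : IsCompact Q := isCompact_Icc.prod (isCompact_closedBall _ _)
  have hPQ' : ∀ p, Ph e L p ∈ D → p ∈ Q := by
    intro p hp
    obtain ⟨h1, h2⟩ := hPQ p hp
    exact ⟨abs_le.1 h1, by simpa using h2⟩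
  have hQfin : (volume.prod volume : Measure (ℝ × EE m)) Q ≠ ⊤ := hQc.measure_lt_top.ne
  have hball : (volume : Measure (EE m)) (Metric.closedBall (0 : EE m) R) ≠ ⊤ :=
    (isCompact_closedBall _ _).measure_lt_top.ne
  have hIcc : (volume : Measure ℝ) (Set.Icc (-R) R) ≠ ⊤ := isCompact_Icc.measure_lt_top.ne
  -- the slices
  set n : ℝ → ℝ := fun sg => Real.sqrt (∫ b, ‖F (sg, b)‖ ^ 2) with hn
  have hn0 : ∀ sg, 0 ≤ n sg := fun sg => Real.sqrt_nonneg _
  have hF2int : Integrable (fun p : ℝ × EE m => ‖F p‖ ^ 2) (volume.prod volume) := by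
    refine int_bdd (S := Q) hQfin (hFm.norm.pow_const 2).aestronglyMeasurable (CF ^ 2) ?_ ?_
    · intro p
      rw [Real.norm_of_nonneg (by positivity)]
      have := hFb p
      gcongr
    · intro p hp
      rw [hF0 p fun hc => hp (hPQ' p hc)]
      simp
  have hnsq : ∀ sg, n sg ^ 2 = ∫ b, ‖F (sg, b)‖ ^ 2 := fun sg =>
    Real.sq_sqrt (integral_nonneg fun b => by positivity)
  have hn2 : Integrable (fun sg => n sg ^ 2) := by
    simp_rw [hnsq]
    exact hF2int.integral_prod_left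
  have hFz : ∀ sg, ¬ (|sg - sg0| ≤ tau ∧ |sg| ≤ R) → ∀ b, F (sg, b) = 0 := by
    intro sg h b
    refine hF0 _ fun hc => h ?_
    obtain ⟨h1, -, h3⟩ := hPmem _ hc
    exact ⟨h3, h1⟩
  have hnz : ∀ sg, ¬ (|sg - sg0| ≤ tau ∧ |sg| ≤ R) → n sg = 0 := by
    intro sg h
    simp only [hn]
    simp_rw [hFz sg h]
    simp
  have hnm : AEStronglyMeasurable n := by
    have h1 : AEStronglyMeasurable (fun sg => ∫ b, ‖F (sg, b)‖ ^ 2) :=
      hF2int.integral_prod_left.aestronglyMeasurable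
    exact Real.continuous_sqrt.comp_aestronglyMeasurable h1
  have hnint : Integrable n := by
    refine int_bdd (S := Set.Icc (-R) R) hIcc hnm
      (Real.sqrt (CF ^ 2 * (volume : Measure (EE m)).real (Metric.closedBall 0 R))) ?_ ?_
    · intro sg
      rw [Real.norm_of_nonneg (hn0 sg)]
      refine Real.sqrt_le_sqrt ?_
      have h1 : ∫ b, ‖F (sg, b)‖ ^ 2 = ∫ b in Metric.closedBall (0 : EE m) R, ‖F (sg, b)‖ ^ 2 := by
        symm
        refine setIntegral_eq_integral_of_forall_compl_eq_zero fun b hb => ?_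
        rw [hF0 (sg, b) fun hc => hb (by simpa using (hPmem _ hc).2.1)]
        simp
      rw [h1]
      have h2 := norm_setIntegral_le_of_norm_le_const (μ := (volume : Measure (EE m)))
        (s := Metric.closedBall (0 : EE m) R) (f := fun b => ‖F (sg, b)‖ ^ 2) (C := CF ^ 2)
        (lt_top_iff_ne_top.2 hball) (fun b _ => by
          rw [Real.norm_of_nonneg (by positivity)]
          have := hFb (sg, b)
          gcongr)
      exact (le_abs_self _).trans h2
    · intro sg hsg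
      refine hnz sg fun hc => hsg (abs_le.1 hc.2)
  have hHd : ∀ z p p', Hc e L D f (K z) p p' =
      K z (Ph e L p) (Ph e L p') * ((starRingEnd ℂ) (F p) * F p') := fun z p p' => rfl
  have hpair : ∀ sg sg', ∑ z ∈ Z, ‖∫ b, ∫ b', Hc e L D f (K z) (sg, b) (sg', b')‖ ≤
      B * (n sg * n sg') := by
    intro sg sg'
    have hz0 : (∀ z b b', Hc e L D f (K z) (sg, b) (sg', b') = 0) →
        ∑ z ∈ Z, ‖∫ b, ∫ b', Hc e L D f (K z) (sg, b) (sg', b')‖ ≤ B * (n sg * n sg') := by
      intro h0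
      simp only [h0, integral_zero, norm_zero, Finset.sum_const_zero]
      exact mul_nonneg hB (mul_nonneg (hn0 _) (hn0 _))
    by_cases h : |sg - sg0| ≤ tau ∧ |sg| ≤ R
    · by_cases h' : |sg' - sg0| ≤ tau ∧ |sg'| ≤ R
      · have := hOB sg sg' h.1 h'.1 h.2 h'.2 (fun b => (starRingEnd ℂ) (F (sg, b)))
          (fun b => F (sg', b))
          (Complex.continuous_conj.measurable.comp (hFm.comp (measurable_const.prodMk measurable_id)))
          (hFm.comp (measurable_const.prodMk measurable_id))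
          ⟨CF, fun b => by rw [RCLike.norm_conj]; exact hFb _⟩ ⟨CF, fun b => hFb _⟩
          (fun b hb => by
            rw [hF0 (sg, b) fun hc => hb (hPfib sg b hc)]
            simp)
          (fun b hb => hF0 (sg', b) fun hc => hb (hPfib sg' b hc))
        simp only [RCLike.norm_conj] at this
        exact this
      · refine hz0 fun z b b' => ?_
        rw [hHd, hFz sg' h' b', mul_zero, mul_zero]
    · refine hz0 fun z b b' => ?_
      rw [hHd, hFz sg h b, map_zero, zero_mul, mul_zero]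
  have h1 : ∀ sg, ∑ z ∈ Z, ‖∫ sg', ∫ b, ∫ b', Hc e L D f (K z) (sg, b) (sg', b')‖ ≤
      B * (n sg * ∫ s, n s) := by
    intro sg
    refine (sum_norm_integral_le Z
      (fun z sg' => ∫ b, ∫ b', Hc e L D f (K z) (sg, b) (sg', b'))
      (fun sg' => B * (n sg * n sg')) (fun z hz => (hcore z hz).2.2 sg)
      ((hnint.const_mul _).const_mul _) (fun sg' => hpair sg sg')).trans (le_of_eq ?_)
    rw [integral_const_mul, integral_const_mul]
  have h2 : ∑ z ∈ Z, ‖∫ sg, ∫ sg', ∫ b, ∫ b', Hc e L D f (K z) (sg, b) (sg', b')‖ ≤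
      B * (∫ s, n s) ^ 2 := by
    refine (sum_norm_integral_le Z
      (fun z sg => ∫ sg', ∫ b, ∫ b', Hc e L D f (K z) (sg, b) (sg', b'))
      (fun sg => B * (n sg * ∫ s, n s)) (fun z hz => (hcore z hz).2.1)
      ((hnint.mul_const _).const_mul _) (fun sg => h1 sg)).trans (le_of_eq ?_)
    rw [integral_const_mul, integral_mul_const]
    ring
  have h3 : (∫ s, n s) ^ 2 ≤ 2 * tau * ∫ s, n s ^ 2 :=
    cs_interval htau hnint hn2 fun s hs => hnz s fun hc => hs hc.1
  have hPm : MeasurableSet (Ph e L ⁻¹' D) := (Ph_cont e L).measurable hDm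
  have h4 : ∫ s, n s ^ 2 = ∫ q in D, ‖f q‖ ^ 2 := by
    simp_rw [hnsq]
    rw [← integral_prod _ hF2int, ← hmp.setIntegral_preimage_emb hemb (fun q => ‖f q‖ ^ 2)]
    have e0 : (fun p : ℝ × EE m => p.1 • e + L p.2) = Ph e L := rfl
    rw [e0, ← integral_indicator hPm]
    refine integral_congr_ae (ae_of_all _ fun p => ?_)
    by_cases hp : p ∈ Ph e L ⁻¹' D
    · change ‖F p‖ ^ 2 = (Ph e L ⁻¹' D).indicator _ p
      rw [Set.indicator_of_mem hp, hF, Fc_of e L D f p hp]
      rfl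
    · change ‖F p‖ ^ 2 = (Ph e L ⁻¹' D).indicator _ p
      rw [Set.indicator_of_notMem hp, hF0 p hp]
      simp
  calc ∑ z ∈ Z, ‖∫ q in D, ∫ q' in D, K z q q' * ((starRingEnd ℂ) (f q) * f q')‖
      = ∑ z ∈ Z, ‖∫ sg, ∫ sg', ∫ b, ∫ b', Hc e L D f (K z) (sg, b) (sg', b')‖ :=
        Finset.sum_congr rfl fun z hz => by rw [(hcore z hz).1]
    _ ≤ B * (∫ s, n s) ^ 2 := h2
    _ ≤ B * (2 * tau * ∫ s, n s ^ 2) := mul_le_mul_of_nonneg_left h3 hB
    _ = 2 * tau * B * ∫ q in D, ‖f q‖ ^ 2 := by rw [h4]; ring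

end Pool.Agent.Lib.MP_a8dae7_an.UN.A_SL
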