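import Pool.Agent.Lib.MP_a8dae7_an.UN.SpecA
import Pool.Agent.Lib.MP_a8dae7_an.CV.SPL

section
/-!
# MP_a8dae7_an, UN: `LZ`, the dual lattice
-/
set_option autoImplicit false

open MeasureTheory
open scoped ContDiff ENNReal

namespace Pool.Agent.Lib.MP_a8dae7_an.UN.A_LZ

open Pool.Agent.Lib.MP_a8dae7_an.CV (EE zv ex pq pi2 AA sl bm)

theorem norm_zv_ge {d : ℕ} {z : Fin d → ℤ} (hz : z ≠ 0) : 1 ≤ ‖(zv z : EE d)‖ := by
  obtain ⟨i, hi⟩ := Function.ne_iff.1 hz
  have h1 : ‖(zv z : EE d) i‖ ≤ ‖(zv z : EE d)‖ := PiLp.norm_apply_le _ _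
  have h2 : (zv z : EE d) i = (z i : ℝ) := rfl
  rw [h2, Real.norm_eq_abs] at h1
  have h3 : (1 : ℝ) ≤ |(z i : ℝ)| := by
    have : 1 ≤ |z i| := Int.one_le_abs hi
    exact_mod_cast this
  linarith

theorem adj_adj {D : ℕ} (B : EE D ≃L[ℝ] EE D) (v : EE D) :
    ContinuousLinearMap.adjoint (B : EE D →L[ℝ] EE D)
      (ContinuousLinearMap.adjoint (B.symm : EE D →L[ℝ] EE D) v) = v := by
  refine ext_inner_right ℝ fun w => ?_
  rw [ContinuousLinearMap.adjoint_inner_left, ContinuousLinearMap.adjoint_inner_left]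
  congr 1
  exact B.symm_apply_apply w

theorem du_ge {D : ℕ} {A : ℝ} (hA : 1 ≤ A) (Lt : Lat D A) {z : Fin D → ℤ} (hz : z ≠ 0) :
    6 / A ≤ ‖Lt.du z‖ := by
  have hA0 : 0 < A := by linarith
  set w := ContinuousLinearMap.adjoint (Lt.B.symm : EE D →L[ℝ] EE D) (zv z) with hw
  have h1 : ‖(zv z : EE D)‖ ≤ A * ‖w‖ := by
    calc ‖(zv z : EE D)‖ = ‖ContinuousLinearMap.adjoint (Lt.B : EE D →L[ℝ] EE D) w‖ := by
          rw [hw, adj_adj]
      _ ≤ ‖ContinuousLinearMap.adjoint (Lt.B : EE D →L[ℝ] EE D)‖ * ‖w‖ :=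
          ContinuousLinearMap.le_opNorm _ _
      _ = ‖(Lt.B : EE D →L[ℝ] EE D)‖ * ‖w‖ := by rw [LinearIsometryEquiv.norm_map]
      _ ≤ A * ‖w‖ := mul_le_mul_of_nonneg_right Lt.hB (norm_nonneg _)
  have h2 : ‖Lt.du z‖ = 2 * Real.pi * ‖w‖ := by
    rw [Lat.du, norm_smul, Real.norm_of_nonneg (by positivity)]
  rw [h2, div_le_iff₀ hA0]
  have h3 := norm_zv_ge hz
  have h4 : 1 ≤ A * ‖w‖ := h3.trans h1
  have h5 : 2 * Real.pi * ‖w‖ * A = 2 * Real.pi * (A * ‖w‖) := by ring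
  rw [h5]
  have := Real.pi_gt_three
  nlinarith

theorem du_sub {D : ℕ} {A : ℝ} (Lt : Lat D A) (z z' : Fin D → ℤ) :
    Lt.du (z - z') = Lt.du z - Lt.du z' := by
  have h : (zv (z - z') : EE D) = zv z - zv z' := by
    ext i
    simp [zv]
  rw [Lat.du, Lat.du, Lat.du, h, map_sub, smul_sub]

theorem pq_eq {d : ℕ} {om : EE d} (h : ‖om‖ = 1) (x : EE d) :
    pq om x = ‖x - (inner ℝ om x : ℝ) • om‖ ^ 2 := by
  rw [@norm_sub_sq_real, norm_smul, h, inner_smul_right, real_inner_comm om x, mul_one, Real.norm_eq_abs,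
    sq_abs, pq]
  ring

theorem pq_nonneg {d : ℕ} {om : EE d} (h : ‖om‖ = 1) (x : EE d) : 0 ≤ pq om x := by
  rw [pq_eq h]; positivity

theorem pq_le {d : ℕ} (om x : EE d) : pq om x ≤ ‖x‖ ^ 2 := by
  unfold pq
  nlinarith [sq_nonneg (inner ℝ om x : ℝ)]

theorem pq_add_le {d : ℕ} {om : EE d} (h : ‖om‖ = 1) (x y : EE d) :
    pq om (x + y) ≤ 2 * pq om x + 2 * pq om y := by
  rw [pq_eq h, pq_eq h, pq_eq h]
  have h1 : x + y - (inner ℝ om (x + y) : ℝ) • om =
      (x - (inner ℝ om x : ℝ) • om) + (y - (inner ℝ om y : ℝ) • om) := by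
    rw [inner_add_right, add_smul]
    abel
  rw [h1]
  have h2 := norm_add_le (x - (inner ℝ om x : ℝ) • om) (y - (inner ℝ om y : ℝ) • om)
  nlinarith [sq_nonneg (‖x - (inner ℝ om x : ℝ) • om‖ - ‖y - (inner ℝ om y : ℝ) • om‖),
    norm_nonneg (x - (inner ℝ om x : ℝ) • om), norm_nonneg (y - (inner ℝ om y : ℝ) • om),
    norm_nonneg ((x - (inner ℝ om x : ℝ) • om) + (y - (inner ℝ om y : ℝ) • om))]

theorem cont_pq {d : ℕ} (om : EE d) : Continuous (pq om) := by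
  unfold pq
  fun_prop

theorem pq_split {k : ℕ} {om : EE (k + 1)} (h : ‖om‖ = 1) (L : EE k →ₗᵢ[ℝ] EE (k + 1))
    (hL : ∀ b, inner ℝ om (L b) = 0) (a : ℝ) (b : EE k) : pq om (a • om + L b) = ‖b‖ ^ 2 := by
  rw [pq_eq h]
  have h1 : (inner ℝ om (a • om + L b) : ℝ) = a := by
    rw [inner_add_right, inner_smul_right, real_inner_self_eq_norm_sq, h, hL]
    ring
  rw [h1, add_sub_cancel_left, L.norm_map]

/-- The Gaussian integral over `EE k`. -/
theorem lint_gauss (k : ℕ) {be : ℝ} (hbe : 0 < be) (b0 : EE k) :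
    ∫⁻ b : EE k, ENNReal.ofReal (Real.exp (-(be * ‖b - b0‖ ^ 2))) =
      ENNReal.ofReal ((Real.pi / be) ^ ((k : ℝ) / 2)) := by
  rw [lintegral_sub_right_eq_self (fun b : EE k => ENNReal.ofReal (Real.exp (-(be * ‖b‖ ^ 2)))) b0]
  have hint0 : Integrable (fun b : EE k => Real.exp (-(be * ‖b‖ ^ 2))) := by
    have := GaussianFourier.integrable_cexp_neg_mul_sq_norm_add (V := EE k) (b := (be : ℂ))
      (by simpa using hbe) 0 0
    have h2 := this.norm
    refine h2.congr (Filter.Eventually.of_forall fun b => ?_)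
    simp only [Complex.norm_exp]
    congr 1
    simp only [zero_mul, add_zero]
    rw [← neg_mul]
    norm_cast
  rw [← ofReal_integral_eq_lintegral_ofReal hint0
    (Filter.Eventually.of_forall fun _ => (Real.exp_pos _).le)]
  congr 1
  have := GaussianFourier.integral_rexp_neg_mul_sq_norm (V := EE k) hbe
  rw [finrank_euclideanSpace_fin] at this
  rw [← this]
  simp only [neg_mul]

/-- The Gaussian integral over a layer. -/
theorem lint_layer (k : ℕ) {om : EE (k + 1)} (hom : ‖om‖ = 1) (t0 : ℝ) {h be : ℝ}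
    (hbe : 0 < be) (y0 : EE (k + 1)) :
    ∫⁻ x in {x : EE (k + 1) | |(inner ℝ om x : ℝ) - t0| ≤ h},
      ENNReal.ofReal (Real.exp (-(be * pq om (x - y0)))) =
    ENNReal.ofReal (2 * h) * ENNReal.ofReal ((Real.pi / be) ^ ((k : ℝ) / 2)) := by
  obtain ⟨L, hL, hsurj, hme, hmp⟩ := CV.specSPL k om hom
  obtain ⟨b0, hb0⟩ := hsurj y0
  rw [← hmp.setLIntegral_comp_preimage_emb hme]
  have hset : (fun p : ℝ × EE k => p.1 • om + L p.2) ⁻¹'
      {x : EE (k + 1) | |(inner ℝ om x : ℝ) - t0| ≤ h} =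
      (Set.Icc (t0 - h) (t0 + h)) ×ˢ (Set.univ : Set (EE k)) := by
    ext p
    have h1 : (inner ℝ om (p.1 • om + L p.2) : ℝ) = p.1 := by
      rw [inner_add_right, inner_smul_right, real_inner_self_eq_norm_sq, hom, hL]
      ring
    simp only [Set.mem_preimage, Set.mem_ofPred_eq, Set.mem_prod, Set.mem_univ, and_true,
      Set.mem_Icc, h1, abs_le]
    constructor
    · rintro ⟨h2, h3⟩; exact ⟨by linarith, by linarith⟩
    · rintro ⟨h2, h3⟩; exact ⟨by linarith, by linarith⟩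
  rw [hset, ← Measure.prod_restrict, Measure.restrict_univ]
  have hpq : ∀ p : ℝ × EE k, pq om (p.1 • om + L p.2 - y0) = ‖p.2 - b0‖ ^ 2 := by
    intro p
    rw [hb0]
    have h1 : p.1 • om + L p.2 - ((inner ℝ om y0 : ℝ) • om + L b0) =
        (p.1 - inner ℝ om y0) • om + L (p.2 - b0) := by
      rw [sub_smul, map_sub]
      abel
    rw [h1, pq_split hom L hL]
  simp only [hpq]
  rw [lintegral_prod _ (by fun_prop)]
  simp only [lint_gauss k hbe b0]
  rw [lintegral_const, Measure.restrict_apply MeasurableSet.univ, Set.univ_inter, Real.volume_Icc,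
    mul_comm]
  congr 2
  ring

/-- The sum over a layer for `al ≤ 1`. -/
theorem sum_le_aux (k : ℕ) (A : ℝ) (hA : 1 ≤ A) (Lt : Lat (k + 1) A) {om : EE (k + 1)}
    (hom : ‖om‖ = 1) (Z : Finset (Fin (k + 1) → ℤ)) (t0 ell al : ℝ) (y0 : EE (k + 1))
    (hell : 0 ≤ ell) (hal : 0 < al) (hal1 : al ≤ 1)
    (hZ : ∀ z ∈ Z, |(inner ℝ om (Lt.du z) : ℝ) - t0| ≤ ell) :
    (∑ z ∈ Z, Real.exp (-(al ^ 2 * pq om (Lt.du z - y0)))) *
      (volume (Metric.ball (0 : EE (k + 1)) (1 / A))).toReal ≤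
      Real.exp 1 * (2 * (ell + 1) * (2 * Real.pi / al ^ 2) ^ ((k : ℝ) / 2)) := by
  have hA0 : 0 < A := by linarith
  have hrho : 0 < 1 / A := by positivity
  have hrho1 : 1 / A ≤ 1 := by
    rw [div_le_iff₀ hA0]; linarith
  have hvol : volume (Metric.ball (0 : EE (k + 1)) (1 / A)) ≠ ⊤ := measure_ball_lt_top.ne
  set G : EE (k + 1) → ℝ≥0∞ := fun x =>
    ENNReal.ofReal (Real.exp (-(al ^ 2 / 2 * pq om (x - y0)))) with hG
  have hdisj : (Z : Set (Fin (k + 1) → ℤ)).PairwiseDisjoint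
      (fun z => Metric.ball (Lt.du z) (1 / A)) := by
    intro z _ z' _ hne
    refine Metric.ball_disjoint_ball ?_
    have h1 := du_ge hA Lt (sub_ne_zero.2 hne)
    rw [du_sub, ← dist_eq_norm] at h1
    refine le_trans ?_ h1
    rw [← add_div]
    exact div_le_div_of_nonneg_right (by norm_num) hA0.le
  have hterm : ∀ z ∈ Z, ENNReal.ofReal (Real.exp (-(al ^ 2 * pq om (Lt.du z - y0)))) *
      volume (Metric.ball (0 : EE (k + 1)) (1 / A)) ≤
      ENNReal.ofReal (Real.exp 1) * ∫⁻ x in Metric.ball (Lt.du z) (1 / A), G x := by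
    intro z _
    rw [← lintegral_const_mul' _ _ ENNReal.ofReal_ne_top]
    have h1 : volume (Metric.ball (0 : EE (k + 1)) (1 / A)) =
        volume (Metric.ball (Lt.du z) (1 / A)) := (Measure.addHaar_ball_center _ _ _).symm
    rw [h1, ← setLIntegral_const]
    refine setLIntegral_mono' measurableSet_ball fun x hx => ?_
    rw [hG, ← ENNReal.ofReal_mul (Real.exp_pos _).le, ← Real.exp_add]
    refine ENNReal.ofReal_le_ofReal (Real.exp_le_exp.2 ?_)
    have h2 : pq om (x - y0) ≤ 2 * pq om (x - Lt.du z) + 2 * pq om (Lt.du z - y0) := by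
      have := pq_add_le hom (x - Lt.du z) (Lt.du z - y0)
      rwa [sub_add_sub_cancel] at this
    have h3 : pq om (x - Lt.du z) ≤ 1 := by
      refine (pq_le _ _).trans ?_
      have h4 : ‖x - Lt.du z‖ ≤ 1 := by
        rw [← dist_eq_norm]
        exact (Metric.mem_ball.1 hx).le.trans hrho1
      nlinarith [norm_nonneg (x - Lt.du z)]
    have h5 : al ^ 2 ≤ 1 := by nlinarith
    have h6 := pq_nonneg hom (x - Lt.du z)
    have h7 : al ^ 2 * pq om (x - Lt.du z) ≤ 1 := by nlinarith [sq_nonneg al]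
    nlinarith [sq_nonneg al, mul_le_mul_of_nonneg_left h2 (sq_nonneg al)]
  have hsum : (∑ z ∈ Z, ENNReal.ofReal (Real.exp (-(al ^ 2 * pq om (Lt.du z - y0))))) *
      volume (Metric.ball (0 : EE (k + 1)) (1 / A)) ≤
      ENNReal.ofReal (Real.exp 1) *
        ∫⁻ x in {x : EE (k + 1) | |(inner ℝ om x : ℝ) - t0| ≤ ell + 1}, G x := by
    rw [Finset.sum_mul]
    refine (Finset.sum_le_sum hterm).trans ?_
    rw [← Finset.mul_sum, ← lintegral_biUnion_finset hdisj (fun z _ => measurableSet_ball)]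
    refine mul_le_mul_right (lintegral_mono_set ?_) _
    intro x hx
    simp only [Set.mem_iUnion] at hx
    obtain ⟨z, hz, hx⟩ := hx
    have h1 := hZ z hz
    have h2 : |(inner ℝ om x : ℝ) - inner ℝ om (Lt.du z)| ≤ 1 := by
      rw [← inner_sub_right]
      refine (abs_real_inner_le_norm _ _).trans ?_
      rw [hom, one_mul, ← dist_eq_norm]
      exact (Metric.mem_ball.1 hx).le.trans hrho1
    have h3 := abs_add_le ((inner ℝ om x : ℝ) - inner ℝ om (Lt.du z))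
      ((inner ℝ om (Lt.du z) : ℝ) - t0)
    rw [sub_add_sub_cancel] at h3
    show |(inner ℝ om x : ℝ) - t0| ≤ ell + 1
    linarith
  rw [hG, lint_layer k hom t0 (by positivity) y0, ← ENNReal.ofReal_mul (by positivity),
    ← ENNReal.ofReal_mul (Real.exp_pos _).le,
    ← ENNReal.ofReal_sum_of_nonneg (fun _ _ => (Real.exp_pos _).le)] at hsum
  have h1 := ENNReal.toReal_mono ENNReal.ofReal_ne_top hsum
  rw [ENNReal.toReal_mul, ENNReal.toReal_ofReal (Finset.sum_nonneg fun _ _ => (Real.exp_pos _).le),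
    ENNReal.toReal_ofReal (by positivity)] at h1
  refine h1.trans (le_of_eq ?_)
  congr 3
  field_simp

theorem sum_le (k : ℕ) (A : ℝ) (hA : 1 ≤ A) : ∃ C : ℝ, 0 < C ∧ ∀ (Lt : Lat (k + 1) A)
    (om : EE (k + 1)) (Z : Finset (Fin (k + 1) → ℤ)) (t0 ell al : ℝ) (y0 : EE (k + 1)), ‖om‖ = 1 →
    0 ≤ ell → 0 < al → (∀ z ∈ Z, |(inner ℝ om (Lt.du z) : ℝ) - t0| ≤ ell) →
    ∑ z ∈ Z, Real.exp (-(al ^ 2 * pq om (Lt.du z - y0))) ≤ C * (1 + ell) * (1 + al⁻¹) ^ k := by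
  have hA0 : 0 < A := by linarith
  set V := (volume (Metric.ball (0 : EE (k + 1)) (1 / A))).toReal with hV
  have hV0 : 0 < V := ENNReal.toReal_pos (Metric.measure_ball_pos volume _ (by positivity)).ne'
    measure_ball_lt_top.ne
  set K : ℝ := Real.exp 1 * 2 * (2 * Real.pi) ^ ((k : ℝ) / 2) / V with hK
  have hK0 : 0 < K := by positivity
  -- the case `al ≤ 1`
  have h1 : ∀ (Lt : Lat (k + 1) A)
      (om : EE (k + 1)) (Z : Finset (Fin (k + 1) → ℤ)) (t0 ell al : ℝ) (y0 : EE (k + 1)), ‖om‖ = 1 →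
      0 ≤ ell → 0 < al → al ≤ 1 → (∀ z ∈ Z, |(inner ℝ om (Lt.du z) : ℝ) - t0| ≤ ell) →
      ∑ z ∈ Z, Real.exp (-(al ^ 2 * pq om (Lt.du z - y0))) ≤ K * (1 + ell) * (al⁻¹) ^ k := by
    intro Lt om Z t0 ell al y0 hom hell hal hal1 hZ
    have h2 := sum_le_aux k A hA Lt hom Z t0 ell al y0 hell hal hal1 hZ
    rw [← le_div_iff₀ hV0] at h2
    refine h2.trans (le_of_eq ?_)
    have h3 : (2 * Real.pi / al ^ 2) ^ ((k : ℝ) / 2) =
        (2 * Real.pi) ^ ((k : ℝ) / 2) * (al⁻¹) ^ k := by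
      rw [div_eq_mul_inv, Real.mul_rpow (by positivity) (by positivity)]
      congr 1
      rw [← inv_pow, ← Real.rpow_natCast _ 2, ← Real.rpow_mul (by positivity),
        ← Real.rpow_natCast _ k]
      congr 1
      push_cast
      ring
    rw [h3, hK]
    ring
  refine ⟨K * 2 ^ k, by positivity, ?_⟩
  intro Lt om Z t0 ell al y0 hom hell hal hZ
  rcases le_total al 1 with h | h
  · refine (h1 Lt om Z t0 ell al y0 hom hell hal h hZ).trans ?_
    have h3 : (al⁻¹) ^ k ≤ 2 ^ k * (1 + al⁻¹) ^ k := by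
      rw [← mul_pow]
      refine pow_le_pow_left₀ (by positivity) ?_ k
      have : 0 < al⁻¹ := by positivity
      linarith
    calc K * (1 + ell) * (al⁻¹) ^ k ≤ K * (1 + ell) * (2 ^ k * (1 + al⁻¹) ^ k) := by gcongr
      _ = K * 2 ^ k * (1 + ell) * (1 + al⁻¹) ^ k := by ring
  · have h2 := h1 Lt om Z t0 ell 1 y0 hom hell one_pos le_rfl hZ
    rw [inv_one, one_pow k, mul_one] at h2
    have h3 : ∑ z ∈ Z, Real.exp (-(al ^ 2 * pq om (Lt.du z - y0))) ≤
        ∑ z ∈ Z, Real.exp (-((1 : ℝ) ^ 2 * pq om (Lt.du z - y0))) := by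
      refine Finset.sum_le_sum fun z _ => Real.exp_le_exp.2 ?_
      have h4 := pq_nonneg hom (Lt.du z - y0)
      have h5 : (1 : ℝ) ^ 2 ≤ al ^ 2 := pow_le_pow_left₀ zero_le_one h 2
      nlinarith
    refine (h3.trans h2).trans ?_
    have h4 : (1 : ℝ) ≤ 2 ^ k * (1 + al⁻¹) ^ k := by
      rw [← mul_pow]
      refine one_le_pow₀ ?_
      have : 0 < al⁻¹ := by positivity
      linarith
    calc K * (1 + ell) = K * (1 + ell) * 1 := by ring
      _ ≤ K * (1 + ell) * (2 ^ k * (1 + al⁻¹) ^ k) := by gcongr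
      _ = K * 2 ^ k * (1 + ell) * (1 + al⁻¹) ^ k := by ring

theorem det_ne {D : ℕ} (B : EE D ≃L[ℝ] EE D) : (B : EE D →L[ℝ] EE D).det ≠ 0 :=
  (LinearEquiv.isUnit_det' B.toLinearEquiv).ne_zero

theorem det_le {D : ℕ} {A : ℝ} (hA : 1 ≤ A) (Lt : Lat D A) :
    |(Lt.B : EE D →L[ℝ] EE D).det|⁻¹ ≤ A ^ D := by
  have hA0 : 0 ≤ A := by linarith
  have h1 := Measure.addHaar_image_continuousLinearMap (μ := (volume : Measure (EE D)))
    (Lt.B.symm : EE D →L[ℝ] EE D) (Metric.closedBall 0 1)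
  have h2 : (Lt.B.symm : EE D →L[ℝ] EE D) '' Metric.closedBall 0 1 ⊆ Metric.closedBall 0 A := by
    rintro _ ⟨x, hx, rfl⟩
    rw [mem_closedBall_zero_iff] at hx ⊢
    refine (ContinuousLinearMap.le_opNorm _ _).trans ?_
    calc ‖(Lt.B.symm : EE D →L[ℝ] EE D)‖ * ‖x‖ ≤ A * 1 :=
          mul_le_mul Lt.hB' hx (norm_nonneg _) hA0
      _ = A := mul_one A
  have h3 := measure_mono (μ := (volume : Measure (EE D))) h2
  rw [h1, Measure.addHaar_closedBall' _ _ hA0, finrank_euclideanSpace_fin] at h3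
  have h4 : volume (Metric.closedBall (0 : EE D) 1) ≠ 0 :=
    (Metric.measure_closedBall_pos volume _ one_pos).ne'
  have h5 : volume (Metric.closedBall (0 : EE D) 1) ≠ ⊤ := measure_closedBall_lt_top.ne
  have h6 := (ENNReal.mul_le_mul_iff_left h4 h5).1 h3
  have h7 := (ENNReal.ofReal_le_ofReal_iff (by positivity)).1 h6
  have h8 : LinearMap.det ((Lt.B.symm : EE D →L[ℝ] EE D) : EE D →ₗ[ℝ] EE D) =
      ((Lt.B : EE D →L[ℝ] EE D).det)⁻¹ := ContinuousLinearEquiv.det_coe_symm Lt.B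
  rw [h8, abs_inv] at h7
  exact h7

/-- **LZ** -/
theorem specLZ : ASpec.SpecLZ := by
  intro k A hA
  obtain ⟨C, hC, h⟩ := sum_le k A hA
  refine ⟨max C (A ^ (k + 1)), lt_max_of_lt_left hC, fun Lt => ⟨fun z hz => du_ge hA Lt hz, ?_,
    det_ne Lt.B, (det_le hA Lt).trans (le_max_right _ _)⟩⟩
  intro om Z t0 ell al y0 hom hell hal hZ
  refine (h Lt om Z t0 ell al y0 hom hell hal hZ).trans ?_
  have : 0 < al⁻¹ := by positivity
  gcongr
  exact le_max_left _ _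

end Pool.Agent.Lib.MP_a8dae7_an.UN.A_LZ
end

section
/-!
# MP_a8dae7_an, UN, module A_SPL: slices for any isometry onto `e^⊥`
-/
set_option autoImplicit false

open MeasureTheory
open scoped ContDiff

namespace Pool.Agent.Lib.MP_a8dae7_an.UN.A_SPL

open Pool.Agent.Lib.MP_a8dae7_an.CV (EE)
open Pool.Agent.Lib.MP_a8dae7_an.CV.SPLM (spe spe_apply spe_mp)

/-- the tail of a vector -/
noncomputable def tl {m : ℕ} (q : EE (m + 1)) : EE m := WithLp.toLp 2 fun i => q i.succ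

theorem norm_sq_split {m : ℕ} (q : EE (m + 1)) : ‖q‖ ^ 2 = q 0 ^ 2 + ‖tl q‖ ^ 2 := by
  rw [EuclideanSpace.norm_sq_eq, EuclideanSpace.norm_sq_eq, Fin.sum_univ_succ]
  simp [tl]

theorem norm_sq_comb {m : ℕ} {e : EE (m + 1)} {L : EE m →ₗᵢ[ℝ] EE (m + 1)} (he : ‖e‖ = 1)
    (heL : ∀ b, inner ℝ e (L b) = 0) (t : ℝ) (b : EE m) : ‖t • e + L b‖ ^ 2 = t ^ 2 + ‖b‖ ^ 2 := by
  rw [← real_inner_self_eq_norm_sq, inner_add_left, inner_add_right, inner_add_right,
    inner_smul_left, inner_smul_right, inner_smul_right, inner_smul_left, real_inner_comm e (L b), heL,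
    real_inner_self_eq_norm_sq, he, real_inner_self_eq_norm_sq, L.norm_map]
  simp only [conj_trivial]
  ring

/-- the isometry `q ↦ q₀ e + L (q₁, …)` -/
noncomputable def Phi {m : ℕ} (e : EE (m + 1)) (L : EE m →ₗᵢ[ℝ] EE (m + 1)) (he : ‖e‖ = 1)
    (heL : ∀ b, inner ℝ e (L b) = 0) : EE (m + 1) →ₗᵢ[ℝ] EE (m + 1) where
  toFun q := q 0 • e + L (tl q)
  map_add' x y := by
    have h1 : tl (x + y) = tl x + tl y := by
      ext i
      simp [tl]
    rw [h1, map_add, PiLp.add_apply, add_smul]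
    abel
  map_smul' c x := by
    have h1 : tl (c • x) = c • tl x := by
      ext i
      simp [tl]
    rw [h1, map_smul, PiLp.smul_apply, smul_eq_mul, mul_smul, smul_add, RingHom.id_apply]
  norm_map' q := by
    show ‖q 0 • e + L (tl q)‖ = ‖q‖
    have h1 : ‖q 0 • e + L (tl q)‖ ^ 2 = ‖q‖ ^ 2 := by
      rw [norm_sq_comb he heL, norm_sq_split]
    exact (sq_eq_sq₀ (norm_nonneg _) (norm_nonneg _)).1 h1

theorem Phi_apply {m : ℕ} (e : EE (m + 1)) (L : EE m →ₗᵢ[ℝ] EE (m + 1)) (he : ‖e‖ = 1)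
    (heL : ∀ b, inner ℝ e (L b) = 0) (q : EE (m + 1)) : Phi e L he heL q = q 0 • e + L (tl q) := rfl

theorem Phi_spe {m : ℕ} (e : EE (m + 1)) (L : EE m →ₗᵢ[ℝ] EE (m + 1)) (he : ‖e‖ = 1)
    (heL : ∀ b, inner ℝ e (L b) = 0) (p : ℝ × EE m) : Phi e L he heL (spe m p) = p.1 • e + L p.2 := by
  rw [spe_apply, Phi_apply]
  congr 1

theorem specSPL : ASpec.SpecSPL := by
  intro m e L he heL
  set P : EE (m + 1) ≃ₗᵢ[ℝ] EE (m + 1) := (Phi e L he heL).toLinearIsometryEquiv rfl with hP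
  have hPa : ∀ q, P q = q 0 • e + L (tl q) := fun q => rfl
  have h1 : (fun p : ℝ × EE m => p.1 • e + L p.2) = fun p => P (spe m p) := by
    funext p
    exact (Phi_spe e L he heL p).symm
  refine ⟨fun q => ⟨tl (P.symm q), ?_⟩, ?_, ?_⟩
  · have h2 : q = (P.symm q) 0 • e + L (tl (P.symm q)) := by
      rw [← hPa, P.apply_symm_apply]
    have h3 : inner ℝ e q = (P.symm q) 0 := by
      conv_lhs => rw [h2]
      rw [inner_add_right, inner_smul_right, real_inner_self_eq_norm_sq, he, heL]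
      ring
    rw [h3]
    exact h2
  · rw [h1]
    exact P.toHomeomorph.measurableEmbedding.comp (spe m).measurableEmbedding
  · rw [h1]
    exact P.measurePreserving.comp (spe_mp m)

end Pool.Agent.Lib.MP_a8dae7_an.UN.A_SPL
end
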