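import Pool.Agent.Lib.MP_a8dae7_an.UN.SpecA
import Pool.Agent.Lib.MP_a8dae7_an.CV.ZS

/-!
# MP_a8dae7_an, UN: A_WL, the majorant is bounded below on the cap of the sphere
-/

set_option autoImplicit false

open MeasureTheory
open scoped ContDiff

namespace Pool.Agent.Lib.MP_a8dae7_an.UN.A_WL

open Pool.Agent.Lib.MP_a8dae7_an.CV (EE zv ex pq pi2 AA sl bm)

/-- **WL** -/
theorem specWL : ASpec.SpecWL := by
  intro d xi om lam r T hlam hr hr3 hT hTr hom hxi hxo
  have hlam0 : 0 < lam := by linarith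
  have hr0 : 0 < r := by linarith
  unfold WW pq
  apply Real.exp_le_exp.mpr
  have hD : ‖xi - lam • om‖ ^ 2 = 2 * lam * (lam - inner ℝ om xi) := by
    rw [@norm_sub_sq_real, hxi, norm_smul, hom, real_inner_comm, real_inner_smul_left, Real.norm_eq_abs,
      abs_of_pos hlam0]
    ring
  have hmain := CV.WLM.real_ineq lam r (inner ℝ om xi) (‖xi - lam • om‖ ^ 2) hlam hr hr3 (by positivity)
    (pow_le_pow_left₀ (norm_nonneg _) hxo 2) hD.symm
  rw [hxi]
  have hTle : T ≤ lam / r := by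
    rw [le_div_iff₀ hr0]
    exact hTr
  have hT2 : T ^ 2 ≤ (lam / r) ^ 2 := pow_le_pow_left₀ hT hTle 2
  have := mul_le_mul_of_nonneg_right hT2
    (sq_nonneg (inner ℝ om xi - lam + (lam ^ 2 - inner ℝ om xi ^ 2) / (2 * lam)))
  linarith

end Pool.Agent.Lib.MP_a8dae7_an.UN.A_WL
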