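import Pool.Agent.Lib.MP_a8dae7_an.UN.SpecA
import Pool.Agent.Lib.MP_a8dae7_an.UN.SpecB
import Pool.Agent.Lib.MP_a8dae7_an.CV.Z0

/-!
# MP_a8dae7_an, UN: the term `z = 0` (module A_Z0)
-/

set_option autoImplicit false

open MeasureTheory
open scoped ContDiff

namespace Pool.Agent.Lib.MP_a8dae7_an.UN.A_Z0

open Pool.Agent.Lib.MP_a8dae7_an.CV (EE zv ex pq pi2 AA sl bm)
open Pool.Agent.Lib.MP_a8dae7_an.CV.Z1M (cont_AA AA_re cont_pq pq_neg norm_sl cont_sl int_le)
open Pool.Agent.Lib.MP_a8dae7_an.CV.Z0M (pq_nonneg pq_le pq_add_le mm_min exp_pow)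
open Pool.Agent.Lib.MP_a8dae7_an.UN.ASpec

theorem cont_Kf {k : ℕ} (om : EE (k + 1)) (lam r T : ℝ) (hr : 0 < r) :
    Continuous (Kf om lam r T) := by
  have hA : ∀ t, AA lam r t ∈ Complex.slitPlane := fun t => by
    left; rw [AA_re]; positivity
  have hA0 : ∀ t, (4 * AA lam r t : ℂ) ≠ 0 := fun t =>
    mul_ne_zero (by norm_num) (Complex.slitPlane_ne_zero (hA t))
  have h1 : Continuous fun x : EE (k + 1) => AA lam r (inner ℝ om x) :=
    (cont_AA lam r).comp (by fun_prop)
  have h2 : Continuous fun x : EE (k + 1) => Complex.log (AA lam r (inner ℝ om x)) :=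
    h1.clog (fun x => hA _)
  have h3 : Continuous fun x : EE (k + 1) => ((pq om x : ℝ) : ℂ) / (4 * AA lam r (inner ℝ om x)) :=
    (Complex.continuous_ofReal.comp (cont_pq om)).div (continuous_const.mul h1) (fun x => hA0 _)
  have h4 : Continuous (FF om lam r T) := by
    unfold FF
    refine Continuous.sub (Continuous.sub ?_ (continuous_const.mul h2)) h3
    fun_prop
  unfold Kf
  refine Continuous.mul (Continuous.mul continuous_const ?_) (Complex.continuous_exp.comp h4)
  fun_prop

theorem cont_ks {m : ℕ} {c R : ℝ} {M : ℕ → ℝ} (ch : UChart (m + 1) c R M) (om : EE (m + 2))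
    (lam r T : ℝ) (hr : 0 < r) (e : EE (m + 1))
    (L : EE m →ₗᵢ[ℝ] EE (m + 1)) (zt : EE (m + 2)) (sg sg' : ℝ) :
    Continuous (fun p : EE m × EE m => ks ch om lam r T e L zt sg sg' p.1 p.2) := by
  unfold ks xd
  refine (cont_Kf om lam r T hr).comp ?_
  have hX := ch.smooth.continuous
  exact ((hX.comp ((cont_sl e L sg).comp continuous_fst)).sub
    (hX.comp ((cont_sl e L sg').comp continuous_snd))).add continuous_const

theorem dl_pos (k : ℕ) {R : ℝ} (hR : 0 < R) : 0 < dl k R := by
  unfold dl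
  positivity

theorem four_dl_le (k : ℕ) {R : ℝ} (hR : 0 < R) : 4 * dl k R ≤ R := by
  unfold dl
  rw [mul_div_assoc', div_le_iff₀ (by positivity)]
  have h1 : (1 : ℝ) ≤ 32 ^ k := one_le_pow₀ (by norm_num)
  nlinarith

theorem specZ0 (hKN : SpecKN) (hSC : SpecSC) (hBL : SpecBL) (hCX : UN.SpecCX) : SpecZ0 := by
  intro m c R M hcls
  obtain ⟨C1, hC1, hK⟩ := hKN (m + 1)
  obtain ⟨C2, hC2, hB⟩ := hBL m c R M hcls
  have hR := hcls.R_pos
  have hdl : 0 < dl (m + 1) R := dl_pos _ hR
  have hdl4 := four_dl_le (m + 1) hR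
  have hC2' : 0 < C2 := lt_of_lt_of_le one_pos hC2
  set D : ℝ := max (M 1) 1 with hDdef
  have hD : 1 ≤ D := le_max_right _ _
  have hD' : 0 < D := lt_of_lt_of_le one_pos hD
  -- constants
  set C3 : ℝ := D ^ 2 * (800 + 3200 * C2 * D ^ 2) with hC3
  have hC3' : 0 < C3 := by positivity
  set C4 : ℝ := 4 + C3 with hC4
  have hC4' : 0 < C4 := by positivity
  set V : ℝ := (volume (Metric.closedBall (0 : EE m) (3 * dl (m + 1) R))).toReal with hV
  have hV0 : 0 ≤ V := ENNReal.toReal_nonneg
  set S : ℝ := Real.sqrt (2 * C4) with hSdef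
  have hS0 : 0 < S := Real.sqrt_pos.mpr (by positivity)
  set C5 : ℝ := C2 * S ^ m + V * ((m.factorial : ℝ) * (2 * C4) ^ m) with hC5
  have hC5' : 0 < C5 := by
    have h2 : 0 ≤ V * ((m.factorial : ℝ) * (2 * C4) ^ m) := by positivity
    have h3 : 0 < C2 * S ^ m := by positivity
    linarith
  refine ⟨C1 * C5, by positivity, ?_⟩
  intro ch om e L hS lam r T th sg sg' hlam hr hrl hT hth hthr hsg hsg' hss
  have hr0 : 0 < r := lt_of_lt_of_le one_pos hr
  have hl0 : 0 < lam := lt_of_lt_of_le one_pos hlam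
  have hcK := cont_ks ch om lam r T hr0 e L 0 sg sg'
  have hlip : ∀ q q' : EE (m + 1), ‖q‖ ≤ R → ‖q'‖ ≤ R → ‖ch.X q - ch.X q'‖ ≤ D * ‖q - q'‖ :=
    fun q q' hq hq' => ((hCX (m + 1) c R M hcls ch q q' hq hq').2.1).trans
      (mul_le_mul_of_nonneg_right (le_max_left _ _) (norm_nonneg _))
  have hal : (r / S) ^ 2 = r ^ 2 / (2 * C4 * 1) := by
    rw [div_pow, Real.sq_sqrt (by positivity), mul_one]
  -- pointwise bound
  have key : ∀ b b' : EE m, ‖b‖ ≤ 2 * dl (m + 1) R → ‖b'‖ ≤ 2 * dl (m + 1) R →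
      ‖ks ch om lam r T e L 0 sg sg' b b'‖ ≤ C1 / T * r ^ (m + 1) *
        (Real.exp (-((r / S) ^ 2 * pq om (xd ch e L 0 sg sg' b b'))) +
          Real.exp (-(r / (2 * C4)))) := by
    intro b b' hb hb'
    have hq : ‖sl e L sg b‖ ≤ R := (norm_sl hS.e_one L sg b).trans (by linarith)
    have hq1 : ‖sl e L sg b'‖ ≤ R := (norm_sl hS.e_one L sg b').trans (by linarith)
    have hq' : ‖sl e L sg' b'‖ ≤ R := (norm_sl hS.e_one L sg' b').trans (by linarith)
    set x := xd ch e L 0 sg sg' b b' with hx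
    have hxX : x = ch.X (sl e L sg b) - ch.X (sl e L sg' b') := by rw [hx, xd, add_zero]
    have h := (hK om lam r T x hS.om_one hl0 hr0 hT).1
    refine h.trans ?_
    refine mul_le_mul_of_nonneg_left ?_ (by positivity)
    have hN0 : 0 ≤ pq om x := pq_nonneg hS.om_one x
    set N := pq om x with hN
    set t := inner ℝ om x with ht
    -- distance in b
    have hw : ‖ch.X (sl e L sg b') - ch.X (sl e L sg' b')‖ ≤ D * (20 * th) := by
      refine (hlip _ _ hq1 hq').trans (mul_le_mul_of_nonneg_left ?_ hD'.le)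
      have : sl e L sg b' - sl e L sg' b' = (sg - sg') • e := by
        unfold CV.sl; rw [sub_smul]; abel
      rw [this, norm_smul, hS.e_one, mul_one, Real.norm_eq_abs]
      exact hss
    have hbb : ‖b - b'‖ ^ 2 ≤ C2 * (2 * N + 2 * (D * (20 * th)) ^ 2) := by
      refine ((hB ch om e L hS sg hsg).1 b b' (by linarith) (by linarith)).trans
        (mul_le_mul_of_nonneg_left ?_ hC2'.le)
      have e1 : ch.X (sl e L sg b) - ch.X (sl e L sg b') =
          x + (-(ch.X (sl e L sg b') - ch.X (sl e L sg' b'))) := by rw [hxX]; abel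
      rw [e1]
      refine (pq_add_le hS.om_one _ _).trans ?_
      have e2 : pq om (-(ch.X (sl e L sg b') - ch.X (sl e L sg' b'))) ≤ (D * (20 * th)) ^ 2 := by
        rw [pq_neg]
        exact (pq_le _ _).trans (pow_le_pow_left₀ (norm_nonneg _) hw 2)
      linarith
    -- size of t
    have htx : t ^ 2 ≤ C3 * (th ^ 2 + N) := by
      have h1 : |t| ≤ ‖x‖ := by
        have := abs_real_inner_le_norm om x
        rwa [hS.om_one, one_mul] at this
      have h2 : ‖x‖ ≤ D * (20 * th + ‖b - b'‖) := by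
        rw [hxX]
        refine (hlip _ _ hq hq').trans (mul_le_mul_of_nonneg_left ?_ hD'.le)
        have : sl e L sg b - sl e L sg' b' = (sg - sg') • e + L (b - b') := by
          unfold CV.sl; rw [sub_smul, map_sub]; abel
        rw [this]
        refine (norm_add_le _ _).trans ?_
        rw [norm_smul, hS.e_one, mul_one, Real.norm_eq_abs, L.norm_map]
        linarith
      have h3 : t ^ 2 ≤ (D * (20 * th + ‖b - b'‖)) ^ 2 := by
        rw [← sq_abs t]
        exact pow_le_pow_left₀ (abs_nonneg _) (h1.trans h2) 2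
      have h4 : (20 * th + ‖b - b'‖) ^ 2 ≤ 2 * (20 * th) ^ 2 + 2 * ‖b - b'‖ ^ 2 := by
        nlinarith [sq_nonneg (20 * th - ‖b - b'‖)]
      have h5 : (20 * th + ‖b - b'‖) ^ 2 ≤ 800 * th ^ 2 + 2 * (C2 * (2 * N + 2 * (D * (20 * th)) ^ 2)) := by
        nlinarith
      have h6 : 800 * th ^ 2 + 2 * (C2 * (2 * N + 2 * (D * (20 * th)) ^ 2)) ≤
          (800 + 3200 * C2 * D ^ 2) * (th ^ 2 + N) := by
        have h7 : 0 ≤ C2 * N := by positivity
        have h8 : C2 * N ≤ C2 * D ^ 2 * N := by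
          have : (1 : ℝ) ≤ D ^ 2 := one_le_pow₀ hD
          have := mul_le_mul_of_nonneg_left this h7
          linarith
        nlinarith [mul_nonneg hC2'.le (sq_nonneg (D * th))]
      calc t ^ 2 ≤ (D * (20 * th + ‖b - b'‖)) ^ 2 := h3
        _ = D ^ 2 * (20 * th + ‖b - b'‖) ^ 2 := by ring
        _ ≤ D ^ 2 * ((800 + 3200 * C2 * D ^ 2) * (th ^ 2 + N)) :=
            mul_le_mul_of_nonneg_left (h5.trans h6) (by positivity)
        _ = C3 * (th ^ 2 + N) := by rw [hC3]; ring
    have ht2 : 4 + (t * r ^ 2 / lam) ^ 2 ≤ C4 * (1 + N * r ^ 4 / lam ^ 2) := by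
      have h1 : (t * r ^ 2 / lam) ^ 2 = t ^ 2 * (r ^ 4 / lam ^ 2) := by
        rw [div_pow, mul_pow]; ring
      have h2 : t ^ 2 * (r ^ 4 / lam ^ 2) ≤ C3 * (th ^ 2 + N) * (r ^ 4 / lam ^ 2) :=
        mul_le_mul_of_nonneg_right htx (by positivity)
      have h3 : th ^ 2 * (r ^ 4 / lam ^ 2) ≤ 1 := by
        have e3 : th ^ 2 * (r ^ 4 / lam ^ 2) = th ^ 2 * r * (r ^ 3 / lam ^ 2) := by ring
        rw [e3]
        have e4 : r ^ 3 / lam ^ 2 ≤ 1 := by rw [div_le_one (by positivity)]; exact hrl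
        have e5 : 0 ≤ th ^ 2 * r := by positivity
        have e6 : 0 ≤ r ^ 3 / lam ^ 2 := by positivity
        nlinarith
      have h4 : 0 ≤ N * r ^ 4 / lam ^ 2 := by positivity
      rw [h1, hC4]
      have h5 : C3 * (th ^ 2 + N) * (r ^ 4 / lam ^ 2) = C3 * (th ^ 2 * (r ^ 4 / lam ^ 2)) +
          C3 * (N * r ^ 4 / lam ^ 2) := by ring
      nlinarith
    have hmm := mm_min hN0 le_rfl hr hlam hrl hC4' (sq_nonneg (t * r ^ 2 / lam)) ht2
    refine le_trans ?_ (le_trans hmm ?_)
    · refine Real.exp_le_exp.mpr (neg_le_neg ?_)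
      unfold MM
      rw [← ht, ← hN]
      have : 0 ≤ t ^ 2 / (4 * T ^ 2) := by positivity
      linarith
    · rw [hal]
  -- the constant
  have hconst : C1 / T * r ^ (m + 1) * (C2 * (r / S)⁻¹ ^ m +
      V * Real.exp (-(r / (2 * C4)))) ≤ C1 * C5 * (r / T) := by
    have e0 : (r / S)⁻¹ ^ m = S ^ m * r⁻¹ ^ m := by
      rw [← mul_pow, inv_div, div_eq_mul_inv]
    have e1 : Real.exp (-(r / (2 * C4))) ≤ (m.factorial : ℝ) * (2 * C4) ^ m * r⁻¹ ^ m :=
      exp_pow hr0 (by positivity)
    have e3 : C2 * (r / S)⁻¹ ^ m + V * Real.exp (-(r / (2 * C4))) ≤ C5 * r⁻¹ ^ m := by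
      have h2 : V * Real.exp (-(r / (2 * C4))) ≤ V * ((m.factorial : ℝ) * (2 * C4) ^ m * r⁻¹ ^ m) :=
        mul_le_mul_of_nonneg_left e1 hV0
      rw [e0, hC5]
      linarith
    calc C1 / T * r ^ (m + 1) * (C2 * (r / S)⁻¹ ^ m + V * Real.exp (-(r / (2 * C4))))
        ≤ C1 / T * r ^ (m + 1) * (C5 * r⁻¹ ^ m) :=
          mul_le_mul_of_nonneg_left e3 (by positivity)
      _ = C1 * C5 * (r / T) := by
          rw [inv_pow, pow_succ r m]
          field_simp
  have hcX := ch.smooth.continuous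
  have hE0 : Continuous fun _ : EE m => Real.exp (-(r / (2 * C4))) := continuous_const
  -- the integral of the majorant over the big ball
  have hint : ∀ h : EE m → ℝ, Continuous h →
      ∫ b in Metric.closedBall (0 : EE m) (3 * dl (m + 1) R), Real.exp (-((r / S) ^ 2 * h b)) ≤
        C2 * (r / S)⁻¹ ^ m →
      ∫ b in Metric.closedBall (0 : EE m) (3 * dl (m + 1) R), C1 / T * r ^ (m + 1) *
        (Real.exp (-((r / S) ^ 2 * h b)) + Real.exp (-(r / (2 * C4)))) ≤
        C1 * C5 * (r / T) := by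
    intro h hh hle
    have hc1 : Continuous fun b => Real.exp (-((r / S) ^ 2 * h b)) :=
      Real.continuous_exp.comp (Continuous.neg (continuous_const.mul hh))
    rw [integral_const_mul, integral_add (hc1.continuousOn.integrableOn_compact (isCompact_closedBall _ _))
      (hE0.continuousOn.integrableOn_compact (isCompact_closedBall _ _)), setIntegral_const, smul_eq_mul]
    refine le_trans (mul_le_mul_of_nonneg_left ?_ (by positivity)) hconst
    exact add_le_add hle (le_of_eq rfl)
  have hfam : OBF m (Metric.closedBall 0 (2 * dl (m + 1) R)) (Metric.closedBall 0 (2 * dl (m + 1) R))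
      ({()} : Finset Unit) (fun _ => ks ch om lam r T e L 0 sg sg') (C1 * C5 * (r / T)) := by
    refine hSC m (2 * dl (m + 1) R) _ _ _ _ (fun _ _ => hcK) (by positivity) ?_ ?_
    · intro b hb
      rw [Finset.sum_singleton]
      have hpc : Continuous fun b' => pq om (xd ch e L 0 sg sg' b b') := by
        refine (cont_pq om).comp ?_
        unfold xd
        exact (continuous_const.sub (hcX.comp (cont_sl e L sg'))).add continuous_const
      have hcpt : Continuous fun b' => C1 / T * r ^ (m + 1) *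
          (Real.exp (-((r / S) ^ 2 * pq om (xd ch e L 0 sg sg' b b'))) +
            Real.exp (-(r / (2 * C4)))) :=
        continuous_const.mul ((Real.continuous_exp.comp (Continuous.neg (continuous_const.mul hpc))).add
          continuous_const)
      refine le_trans (int_le (R' := 3 * dl (m + 1) R) ((hcK.comp (Continuous.prodMk_right b)).norm) hcpt
        (fun b' hb' => key b b' hb hb') (fun b' => by positivity) (by linarith)) (hint _ hpc ?_)
      have h7 := (hB ch om e L hS sg' hsg').2 (ch.X (sl e L sg b)) (r / S) (by positivity)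
      have hx : ∀ b', xd ch e L 0 sg sg' b b' =
          ch.X (sl e L sg b) - ch.X (sl e L sg' b') := fun b' => by unfold xd; rw [add_zero]
      simp only [hx]
      exact h7
    · intro b' hb'
      rw [Finset.sum_singleton]
      have hpc : Continuous fun b => pq om (xd ch e L 0 sg sg' b b') := by
        refine (cont_pq om).comp ?_
        unfold xd
        exact ((hcX.comp (cont_sl e L sg)).sub continuous_const).add continuous_const
      have hcpt : Continuous fun b => C1 / T * r ^ (m + 1) *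
          (Real.exp (-((r / S) ^ 2 * pq om (xd ch e L 0 sg sg' b b'))) +
            Real.exp (-(r / (2 * C4)))) :=
        continuous_const.mul ((Real.continuous_exp.comp (Continuous.neg (continuous_const.mul hpc))).add
          continuous_const)
      refine le_trans (int_le (R' := 3 * dl (m + 1) R) ((hcK.comp (Continuous.prodMk_left b')).norm) hcpt
        (fun b hb => key b b' hb hb') (fun b => by positivity) (by linarith)) (hint _ hpc ?_)
      have h7 := (hB ch om e L hS sg hsg).2 (ch.X (sl e L sg' b')) (r / S) (by positivity)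
      have hx : ∀ b, pq om (xd ch e L 0 sg sg' b b') =
          pq om (ch.X (sl e L sg' b') - ch.X (sl e L sg b)) := fun b => by
        rw [← pq_neg]; unfold xd; congr 1; rw [add_zero]; abel
      simp only [hx]
      exact h7
  intro f g hf hg hfb hgb hfs hgs
  have h8 := hfam f g hf hg hfb hgb hfs hgs
  rw [Finset.sum_singleton] at h8
  exact h8

end Pool.Agent.Lib.MP_a8dae7_an.UN.A_Z0
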