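import Pool.Agent.Lib.MP_a8dae7_an.UN.SpecA
import Pool.Agent.Lib.MP_a8dae7_an.CV.Z1

/-!
# MP_a8dae7_an, UN: the translates with `1/A ≤ |t_z| ≤ 2 lam/r²` (module A_Z1)
-/

set_option autoImplicit false

open MeasureTheory
open scoped ContDiff

namespace Pool.Agent.Lib.MP_a8dae7_an.UN.A_Z1

open Pool.Agent.Lib.MP_a8dae7_an.CV (EE zv ex pq pi2 AA sl bm)
open Pool.Agent.Lib.MP_a8dae7_an.CV.Z1M (cont_AA AA_re cont_pq pq_neg norm_sl cont_sl int_le)
open Pool.Agent.Lib.MP_a8dae7_an.UN.ASpec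

theorem cont_Kf {k : ℕ} (om : EE (k + 1)) (lam r T : ℝ) (hr : 0 < r) :
    Continuous (Kf om lam r T) := by
  have hA : ∀ t, AA lam r t ∈ Complex.slitPlane := fun t => by
    left; rw [AA_re]; positivity
  have hA0 : ∀ t, (4 * AA lam r t : ℂ) ≠ 0 := fun t =>
    mul_ne_zero (by norm_num) (Complex.slitPlane_ne_zero (hA t))
  have h1 : Continuous fun x : EE (k + 1) => AA lam r (inner ℝ om x) :=
    (cont_AA lam r).comp (by fun_prop)
  have h2 : Continuous fun x : EE (k + 1) => Complex.log (AA lam r (inner ℝ om x)) :=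
    h1.clog (fun x => hA _)
  have h3 : Continuous fun x : EE (k + 1) => ((pq om x : ℝ) : ℂ) / (4 * AA lam r (inner ℝ om x)) :=
    (Complex.continuous_ofReal.comp (cont_pq om)).div (continuous_const.mul h1) (fun x => hA0 _)
  have h4 : Continuous (FF om lam r T) := by
    unfold FF
    refine Continuous.sub (Continuous.sub ?_ (continuous_const.mul h2)) h3
    fun_prop
  unfold Kf
  refine Continuous.mul (Continuous.mul continuous_const ?_) (Complex.continuous_exp.comp h4)
  fun_prop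

theorem cont_ks {m : ℕ} {c R : ℝ} {M : ℕ → ℝ} (ch : UChart (m + 1) c R M) (om : EE (m + 2))
    (lam r T : ℝ) (hr : 0 < r) (e : EE (m + 1))
    (L : EE m →ₗᵢ[ℝ] EE (m + 1)) (zt : EE (m + 2)) (sg sg' : ℝ) :
    Continuous (fun p : EE m × EE m => ks ch om lam r T e L zt sg sg' p.1 p.2) := by
  unfold ks xd
  refine (cont_Kf om lam r T hr).comp ?_
  have hX := ch.smooth.continuous
  exact ((hX.comp ((cont_sl e L sg).comp continuous_fst)).sub
    (hX.comp ((cont_sl e L sg').comp continuous_snd))).add continuous_const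

theorem dl_pos (k : ℕ) {R : ℝ} (hR : 0 < R) : 0 < dl k R := by
  unfold dl
  positivity

theorem four_dl_le (k : ℕ) {R : ℝ} (hR : 0 < R) : 4 * dl k R ≤ R := by
  unfold dl
  rw [mul_div_assoc', div_le_iff₀ (by positivity)]
  have h1 : (1 : ℝ) ≤ 32 ^ k := one_le_pow₀ (by norm_num)
  nlinarith

/-- `pq om x` is the square of the norm of a linear map; the quadratic inequality used below. -/
theorem pq_nonneg {d : ℕ} {om : EE d} (hom : ‖om‖ = 1) (x : EE d) : 0 ≤ pq om x := by
  unfold pq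
  have := abs_real_inner_le_norm om x
  rw [hom, one_mul] at this
  nlinarith [sq_abs (inner ℝ om x), abs_nonneg (inner ℝ om x)]

theorem pq_eq {d : ℕ} {om : EE d} (hom : ‖om‖ = 1) (x : EE d) :
    pq om x = ‖x - (inner ℝ om x : ℝ) • om‖ ^ 2 := by
  have h1 : ‖x - (inner ℝ om x : ℝ) • om‖ ^ 2 = ‖x‖ ^ 2 - 2 * inner ℝ x ((inner ℝ om x : ℝ) • om)
      + ‖(inner ℝ om x : ℝ) • om‖ ^ 2 := norm_sub_sq_real _ _
  rw [h1, inner_smul_right, norm_smul, hom, real_inner_comm om x, Real.norm_eq_abs, mul_one,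
    sq_abs]
  unfold pq
  ring

/-- `|P u|² ≤ 2 |P (v + u)|² + 2 |v|²` -/
theorem pq_split {d : ℕ} {om : EE d} (hom : ‖om‖ = 1) (v u : EE d) :
    pq om u ≤ 2 * pq om (v + u) + 2 * ‖v‖ ^ 2 := by
  have h1 : pq om v ≤ ‖v‖ ^ 2 := by
    unfold pq
    nlinarith [sq_nonneg (inner ℝ om v : ℝ)]
  have h2 : pq om u ≤ 2 * pq om (v + u) + 2 * pq om v := by
    rw [pq_eq hom, pq_eq hom, pq_eq hom]
    have e1 : u - (inner ℝ om u : ℝ) • om = (v + u - (inner ℝ om (v + u) : ℝ) • om) -
        (v - (inner ℝ om v : ℝ) • om) := by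
      rw [inner_add_right, add_smul]
      abel
    rw [e1]
    have e2 := norm_sub_le (v + u - (inner ℝ om (v + u) : ℝ) • om) (v - (inner ℝ om v : ℝ) • om)
    have e3 := pow_le_pow_left₀ (norm_nonneg _) e2 2
    nlinarith [sq_nonneg (‖v + u - (inner ℝ om (v + u) : ℝ) • om‖ -
      ‖v - (inner ℝ om v : ℝ) • om‖)]
  linarith

theorem specZ1 (hKN : SpecKN) (hSC : SpecSC) (hBL : SpecBL) (hLZ : SpecLZ) : SpecZ1 := by
  intro m c R A M hA hcls
  obtain ⟨C1, hC1, hK⟩ := hKN (m + 1)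
  obtain ⟨C2, hC2, hB⟩ := hBL m c R M hcls
  obtain ⟨C3, hC3, hL3⟩ := hLZ (m + 1) A hA
  have hR := hcls.R_pos
  have hdl : 0 < dl (m + 1) R := dl_pos _ hR
  have hdl4 := four_dl_le (m + 1) hR
  have hC2' : 0 < C2 := lt_of_lt_of_le one_pos hC2
  have hA0 : 0 < A := lt_of_lt_of_le one_pos hA
  set S22 : ℝ := Real.sqrt 22 with hS22
  set S44 : ℝ := Real.sqrt 44 with hS44
  have h22 : 0 < S22 := Real.sqrt_pos.mpr (by norm_num)
  have h44 : 0 < S44 := Real.sqrt_pos.mpr (by norm_num)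
  refine ⟨4 * C1 * C2 * S22 ^ m * (C3 * (1 + S44) ^ (m + 1)), by positivity, ?_⟩
  intro ch hDm Lt om e L hS lam r T sg sg' Z hlam hr h3 hT hsg hsg' hZ
  have hr0 : 0 < r := lt_of_lt_of_le one_pos hr
  have hl0 : 0 < lam := lt_of_lt_of_le one_pos hlam
  have hal : (r / S22) ^ 2 = r ^ 2 / 22 := by
    rw [div_pow, Real.sq_sqrt (by norm_num)]
  have hal2 : (S44⁻¹) ^ 2 = 1 / 44 := by
    rw [inv_pow, Real.sq_sqrt (by norm_num), one_div]
  -- the sum over the layer
  have hsum : ∑ z ∈ Z, Real.exp (-((S44⁻¹) ^ 2 * pq om (Lt.du z))) ≤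
      2 * (C3 * (1 + S44) ^ (m + 1)) * (1 + lam / r ^ 2) := by
    have h4 := (hL3 Lt).2.1 om Z 0 (2 * lam / r ^ 2) S44⁻¹ 0 hS.om_one (by positivity)
      (by positivity) (fun z hz => by
        rw [sub_zero, le_div_iff₀ (by positivity)]
        exact (hZ z hz).2)
    simp only [sub_zero, inv_inv] at h4
    refine h4.trans ?_
    have h5 : 1 + 2 * lam / r ^ 2 ≤ 2 * (1 + lam / r ^ 2) := by
      have h6 : 2 * lam / r ^ 2 = 2 * (lam / r ^ 2) := by ring
      rw [h6]
      linarith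
    calc C3 * (1 + 2 * lam / r ^ 2) * (1 + S44) ^ (m + 1)
        ≤ C3 * (2 * (1 + lam / r ^ 2)) * (1 + S44) ^ (m + 1) := by gcongr
      _ = _ := by ring
  -- pointwise bound
  have key : ∀ z ∈ Z, ∀ b b' : EE m, ‖b‖ ≤ 2 * dl (m + 1) R → ‖b'‖ ≤ 2 * dl (m + 1) R →
      ‖ks ch om lam r T e L (Lt.du z) sg sg' b b'‖ ≤
        C1 / T * r ^ (m + 1) * (2 * Real.exp (-((S44⁻¹) ^ 2 * pq om (Lt.du z)))) *
        Real.exp (-((r / S22) ^ 2 * pq om (xd ch e L (Lt.du z) sg sg' b b'))) := by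
    intro z hz b b' hb hb'
    obtain ⟨hz1, hz2⟩ := hZ z hz
    have hq : ‖sl e L sg b‖ ≤ R := (norm_sl hS.e_one L sg b).trans (by linarith)
    have hq' : ‖sl e L sg' b'‖ ≤ R := (norm_sl hS.e_one L sg' b').trans (by linarith)
    have hd := hDm _ _ hq hq'
    have h := (hK om lam r T (xd ch e L (Lt.du z) sg sg' b b') hS.om_one hl0 hr0 hT).1
    refine h.trans ?_
    have hpq0 := pq_nonneg hS.om_one (xd ch e L (Lt.du z) sg sg' b b')
    have hsp := pq_split hS.om_one (ch.X (sl e L sg b) - ch.X (sl e L sg' b')) (Lt.du z)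
    have hxd : ch.X (sl e L sg b) - ch.X (sl e L sg' b') + Lt.du z =
        xd ch e L (Lt.du z) sg sg' b b' := rfl
    rw [hxd] at hsp
    set p := pq om (xd ch e L (Lt.du z) sg sg' b b') with hp
    set t := inner ℝ om (xd ch e L (Lt.du z) sg sg' b b') with ht
    set tz := inner ℝ om (Lt.du z) with htz
    have htz0 : 0 < |tz| := lt_of_lt_of_le (by positivity) hz1
    have hdA : 1 / (8 * A) = 1 / A / 8 := by field_simp
    have htt : |t - tz| ≤ |tz| / 8 := by
      have : t - tz = inner ℝ om (ch.X (sl e L sg b) - ch.X (sl e L sg' b')) := by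
        rw [ht, htz, xd, inner_add_right]; ring
      rw [this]
      have h3 := abs_real_inner_le_norm om (ch.X (sl e L sg b) - ch.X (sl e L sg' b'))
      rw [hS.om_one, one_mul] at h3
      refine (h3.trans hd).trans ?_
      rw [hdA]
      linarith
    have ht1 : |t| ≤ 9 / 8 * |tz| := by
      have h3 : |t| ≤ |tz| + |t - tz| := by
        have := abs_add_le tz (t - tz)
        simpa using this
      linarith
    have ht2 : (t * r ^ 2 / lam) ^ 2 ≤ (9 / 4) ^ 2 := by
      rw [← sq_abs]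
      refine pow_le_pow_left₀ (abs_nonneg _) ?_ 2
      rw [abs_div, abs_mul, abs_of_pos hl0, abs_of_pos (by positivity : 0 < r ^ 2), div_le_iff₀ hl0]
      have : |t| * r ^ 2 ≤ 9 / 8 * |tz| * r ^ 2 := mul_le_mul_of_nonneg_right ht1 (by positivity)
      linarith
    -- the exponent
    have hMM : r ^ 2 / 22 * p + (1 / 44 * pq om (Lt.du z) - 1 / 1408) ≤
        MM om lam r T (xd ch e L (Lt.du z) sg sg' b b') := by
      unfold MM
      rw [← ht, ← hp]
      have h4 : r ^ 2 / 11 * p ≤ p * r ^ 2 / (4 + (t * r ^ 2 / lam) ^ 2) := by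
        rw [le_div_iff₀ (by positivity)]
        have h5 : 0 ≤ r ^ 2 * p := by positivity
        nlinarith
      have h6 : 0 ≤ t ^ 2 / (4 * T ^ 2) := by positivity
      have h7 : 1 / 22 * p ≤ r ^ 2 / 22 * p := by
        have : (1 : ℝ) ≤ r ^ 2 := one_le_pow₀ hr
        nlinarith
      have h8 : ‖ch.X (sl e L sg b) - ch.X (sl e L sg' b')‖ ^ 2 ≤ 1 / 64 := by
        have h9 : 1 / (8 * A) ≤ 1 / 8 := by
          apply one_div_le_one_div_of_le (by norm_num)
          linarith
        have h10 := pow_le_pow_left₀ (norm_nonneg _) (hd.trans h9) 2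
        norm_num at h10 ⊢
        exact h10
      have h9 : 1 / 44 * pq om (Lt.du z) ≤ 1 / 22 * p + 1 / 1408 := by linarith
      have h10 : r ^ 2 / 11 * p = r ^ 2 / 22 * p + r ^ 2 / 22 * p := by ring
      linarith
    have hexp : Real.exp (-MM om lam r T (xd ch e L (Lt.du z) sg sg' b b')) ≤
        (2 * Real.exp (-((S44⁻¹) ^ 2 * pq om (Lt.du z)))) * Real.exp (-((r / S22) ^ 2 * p)) := by
      rw [hal, hal2]
      have h5 : Real.exp (1 / 1408) ≤ 2 := by
        have h6 := Real.exp_one_lt_d9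
        have h7 : Real.exp (1 / 1408) ≤ Real.exp (1 / 2) := Real.exp_le_exp.mpr (by norm_num)
        have h8 : Real.exp (1 / 2) ^ 2 ≤ 2 ^ 2 := by
          rw [← Real.exp_nat_mul]
          norm_num
          linarith
        exact h7.trans ((pow_le_pow_iff_left₀ (Real.exp_pos _).le (by norm_num) two_ne_zero).1 h8)
      calc Real.exp (-MM om lam r T (xd ch e L (Lt.du z) sg sg' b b'))
          ≤ Real.exp (1 / 1408 + (-(1 / 44 * pq om (Lt.du z)) + -(r ^ 2 / 22 * p))) :=
            Real.exp_le_exp.mpr (by linarith)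
        _ = Real.exp (1 / 1408) * (Real.exp (-(1 / 44 * pq om (Lt.du z))) *
              Real.exp (-(r ^ 2 / 22 * p))) := by rw [Real.exp_add, Real.exp_add]
        _ ≤ 2 * (Real.exp (-(1 / 44 * pq om (Lt.du z))) * Real.exp (-(r ^ 2 / 22 * p))) := by
            gcongr
        _ = _ := by ring
    calc C1 / T * r ^ (m + 1) * Real.exp (-MM om lam r T (xd ch e L (Lt.du z) sg sg' b b'))
        ≤ C1 / T * r ^ (m + 1) * ((2 * Real.exp (-((S44⁻¹) ^ 2 * pq om (Lt.du z)))) *
          Real.exp (-((r / S22) ^ 2 * p))) := by gcongr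
      _ = _ := by ring
  -- the total
  have htot : ∑ z ∈ Z, C1 / T * r ^ (m + 1) *
      (2 * Real.exp (-((S44⁻¹) ^ 2 * pq om (Lt.du z)))) * (C2 * (r / S22)⁻¹ ^ m) ≤
      4 * C1 * C2 * S22 ^ m * (C3 * (1 + S44) ^ (m + 1)) * (r / T) * (1 + lam / r ^ 2) := by
    have e1 : r ^ (m + 1) * (r / S22)⁻¹ ^ m = r * S22 ^ m := by
      rw [inv_div, div_pow, pow_succ]
      field_simp
    have e2 : ∀ z ∈ Z, C1 / T * r ^ (m + 1) *
        (2 * Real.exp (-((S44⁻¹) ^ 2 * pq om (Lt.du z)))) * (C2 * (r / S22)⁻¹ ^ m) =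
        (2 * C1 * C2 * S22 ^ m * (r / T)) * Real.exp (-((S44⁻¹) ^ 2 * pq om (Lt.du z))) := by
      intro z _
      calc C1 / T * r ^ (m + 1) *
          (2 * Real.exp (-((S44⁻¹) ^ 2 * pq om (Lt.du z)))) * (C2 * (r / S22)⁻¹ ^ m)
          = C1 / T * 2 * C2 * Real.exp (-((S44⁻¹) ^ 2 * pq om (Lt.du z))) *
            (r ^ (m + 1) * (r / S22)⁻¹ ^ m) := by ring
        _ = _ := by rw [e1]; ring
    rw [Finset.sum_congr rfl e2, ← Finset.mul_sum]
    calc (2 * C1 * C2 * S22 ^ m * (r / T)) * ∑ z ∈ Z, Real.exp (-((S44⁻¹) ^ 2 * pq om (Lt.du z)))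
        ≤ (2 * C1 * C2 * S22 ^ m * (r / T)) *
          (2 * (C3 * (1 + S44) ^ (m + 1)) * (1 + lam / r ^ 2)) := by gcongr
      _ = _ := by ring
  have hcX := ch.smooth.continuous
  have hcK : ∀ z, Continuous (fun p : EE m × EE m =>
      ks ch om lam r T e L (Lt.du z) sg sg' p.1 p.2) := fun z =>
    cont_ks ch om lam r T hr0 e L (Lt.du z) sg sg'
  apply hSC m (2 * dl (m + 1) R) _ _ Z _ (fun z _ => hcK z) (by positivity)
  · intro b hb
    refine le_trans (Finset.sum_le_sum fun z hz => ?_) htot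
    have hcpt : Continuous fun b' => C1 / T * r ^ (m + 1) *
        (2 * Real.exp (-((S44⁻¹) ^ 2 * pq om (Lt.du z)))) *
        Real.exp (-((r / S22) ^ 2 * pq om (xd ch e L (Lt.du z) sg sg' b b'))) := by
      refine continuous_const.mul (Real.continuous_exp.comp (Continuous.neg (continuous_const.mul ?_)))
      refine (cont_pq om).comp ?_
      unfold xd
      exact (continuous_const.sub (hcX.comp (cont_sl e L sg'))).add continuous_const
    refine le_trans (int_le (R' := 3 * dl (m + 1) R)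
      (((hcK z).comp (Continuous.prodMk_right b)).norm) hcpt
      (fun b' hb' => key z hz b b' hb hb') (fun b' => by positivity) (by linarith)) ?_
    rw [integral_const_mul]
    refine mul_le_mul_of_nonneg_left ?_ (by positivity)
    have h7 := (hB ch om e L hS sg' hsg').2 (ch.X (sl e L sg b) + Lt.du z) (r / S22) (by positivity)
    have hx : ∀ b', xd ch e L (Lt.du z) sg sg' b b' =
        ch.X (sl e L sg b) + Lt.du z - ch.X (sl e L sg' b') := fun b' => by unfold xd; abel
    simp only [hx]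
    exact h7
  · intro b' hb'
    refine le_trans (Finset.sum_le_sum fun z hz => ?_) htot
    have hcpt : Continuous fun b => C1 / T * r ^ (m + 1) *
        (2 * Real.exp (-((S44⁻¹) ^ 2 * pq om (Lt.du z)))) *
        Real.exp (-((r / S22) ^ 2 * pq om (xd ch e L (Lt.du z) sg sg' b b'))) := by
      refine continuous_const.mul (Real.continuous_exp.comp (Continuous.neg (continuous_const.mul ?_)))
      refine (cont_pq om).comp ?_
      unfold xd
      exact ((hcX.comp (cont_sl e L sg)).sub continuous_const).add continuous_const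
    refine le_trans (int_le (R' := 3 * dl (m + 1) R)
      (((hcK z).comp (Continuous.prodMk_left b')).norm) hcpt
      (fun b hb => key z hz b b' hb hb') (fun b => by positivity) (by linarith)) ?_
    rw [integral_const_mul]
    refine mul_le_mul_of_nonneg_left ?_ (by positivity)
    have h7 := (hB ch om e L hS sg hsg).2 (ch.X (sl e L sg' b') - Lt.du z) (r / S22) (by positivity)
    have hx : ∀ b, pq om (xd ch e L (Lt.du z) sg sg' b b') =
        pq om (ch.X (sl e L sg' b') - Lt.du z - ch.X (sl e L sg b)) := fun b => by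
      rw [← pq_neg]; unfold xd; congr 1; abel
    simp only [hx]
    exact h7

end Pool.Agent.Lib.MP_a8dae7_an.UN.A_Z1
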