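import Pool.Agent.Lib.MP_a8dae7_an.UN.SpecA

/-!
# MP_a8dae7_an, UN: module A_ZA, the translates `z ≠ 0` with `|t_z| < 1/A`
-/

set_option autoImplicit false

open MeasureTheory
open scoped ContDiff

namespace Pool.Agent.Lib.MP_a8dae7_an.UN.A_ZA

open Pool.Agent.Lib.MP_a8dae7_an.CV (EE zv ex pq pi2 AA sl bm)
open Pool.Agent.Lib.MP_a8dae7_an.UN.ASpec

/-! ### Continuity of the kernel -/

theorem cont_AA (lam r : ℝ) : Continuous (AA lam r) := by
  unfold AA
  fun_prop

theorem AA_re (lam r t : ℝ) : (AA lam r t).re = 1 / r ^ 2 := by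
  simp only [AA, Complex.add_re, Complex.ofReal_re, Complex.mul_re, Complex.I_re, Complex.I_im,
    Complex.ofReal_im]
  ring

theorem cont_pq {d : ℕ} (om : EE d) : Continuous (pq om) := by
  unfold pq
  fun_prop

theorem cont_Kf {k : ℕ} (om : EE (k + 1)) (lam r T : ℝ) (hr : 0 < r) : Continuous (Kf om lam r T) := by
  have hA : ∀ t, AA lam r t ∈ Complex.slitPlane := fun t => by
    left; rw [AA_re]; positivity
  have hA0 : ∀ t, (4 * AA lam r t : ℂ) ≠ 0 := fun t =>
    mul_ne_zero (by norm_num) (Complex.slitPlane_ne_zero (hA t))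
  have h1 : Continuous fun x : EE (k + 1) => AA lam r (inner ℝ om x) :=
    (cont_AA lam r).comp (by fun_prop)
  have h2 : Continuous fun x : EE (k + 1) => Complex.log (AA lam r (inner ℝ om x)) :=
    h1.clog (fun x => hA _)
  have h3 : Continuous fun x : EE (k + 1) => ((pq om x : ℝ) : ℂ) / (4 * AA lam r (inner ℝ om x)) :=
    (Complex.continuous_ofReal.comp (cont_pq om)).div (continuous_const.mul h1) (fun x => hA0 _)
  have h4 : Continuous (FF om lam r T) := by
    unfold FF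
    refine Continuous.sub (Continuous.sub ?_ (continuous_const.mul h2)) h3
    fun_prop
  unfold Kf
  refine Continuous.mul (Continuous.mul continuous_const ?_) (Complex.continuous_exp.comp h4)
  fun_prop

theorem norm_sl {m : ℕ} {e : EE (m + 1)} (he : ‖e‖ = 1) (L : EE m →ₗᵢ[ℝ] EE (m + 1)) (sg : ℝ) (b : EE m) :
    ‖sl e L sg b‖ ≤ |sg| + ‖b‖ := by
  unfold sl
  calc ‖sg • e + L b‖ ≤ ‖sg • e‖ + ‖L b‖ := norm_add_le _ _
    _ = |sg| + ‖b‖ := by rw [norm_smul, he, L.norm_map, Real.norm_eq_abs, mul_one]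

theorem cont_sl {m : ℕ} (e : EE (m + 1)) (L : EE m →ₗᵢ[ℝ] EE (m + 1)) (sg : ℝ) : Continuous (sl e L sg) := by
  unfold sl
  exact continuous_const.add L.continuous

theorem cont_ks {m : ℕ} {c R : ℝ} {M : ℕ → ℝ} (ch : UChart (m + 1) c R M) (om : EE (m + 2)) (lam r T : ℝ)
    (hr : 0 < r) (e : EE (m + 1)) (L : EE m →ₗᵢ[ℝ] EE (m + 1)) (zt : EE (m + 2)) (sg sg' : ℝ) :
    Continuous (fun p : EE m × EE m => ks ch om lam r T e L zt sg sg' p.1 p.2) := by
  unfold ks xd
  refine (cont_Kf om lam r T hr).comp ?_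
  have hX := ch.smooth.continuous
  exact ((hX.comp ((cont_sl e L sg).comp continuous_fst)).sub
    (hX.comp ((cont_sl e L sg').comp continuous_snd))).add continuous_const

theorem cont_ksr {m : ℕ} {c R : ℝ} {M : ℕ → ℝ} (ch : UChart (m + 1) c R M) (om : EE (m + 2)) (lam r T : ℝ)
    (hr : 0 < r) (e : EE (m + 1)) (L : EE m →ₗᵢ[ℝ] EE (m + 1)) (zt : EE (m + 2)) (sg sg' : ℝ) (b : EE m) :
    Continuous (fun b' : EE m => ks ch om lam r T e L zt sg sg' b b') := by
  unfold ks xd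
  refine (cont_Kf om lam r T hr).comp ?_
  have hX := ch.smooth.continuous
  exact (continuous_const.sub (hX.comp (cont_sl e L sg'))).add continuous_const

theorem cont_ksl {m : ℕ} {c R : ℝ} {M : ℕ → ℝ} (ch : UChart (m + 1) c R M) (om : EE (m + 2)) (lam r T : ℝ)
    (hr : 0 < r) (e : EE (m + 1)) (L : EE m →ₗᵢ[ℝ] EE (m + 1)) (zt : EE (m + 2)) (sg sg' : ℝ) (b' : EE m) :
    Continuous (fun b : EE m => ks ch om lam r T e L zt sg sg' b b') := by
  unfold ks xd
  refine (cont_Kf om lam r T hr).comp ?_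
  have hX := ch.smooth.continuous
  exact ((hX.comp (cont_sl e L sg)).sub continuous_const).add continuous_const

/-- summation over a family of functions on a ball -/
theorem row {m : ℕ} {ι : Type} (Z : Finset ι) (rho V Q S B : ℝ) (hV : V = (volume (Metric.closedBall (0 : EE m) rho)).toReal)
    (w : ι → ℝ) (hS : ∑ z ∈ Z, w z ≤ S) (hQ : 0 ≤ Q) (hB : V * Q * S ≤ B)
    (g : ι → EE m → ℂ) (hg : ∀ z ∈ Z, Continuous (g z)) (hgb : ∀ z ∈ Z, ∀ b, ‖b‖ ≤ rho → ‖g z b‖ ≤ Q * w z) :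
    ∑ z ∈ Z, ∫ b in Metric.closedBall (0 : EE m) rho, ‖g z b‖ ≤ B := by
  have hfin : volume (Metric.closedBall (0 : EE m) rho) ≠ ⊤ := measure_closedBall_lt_top.ne
  have hV0 : 0 ≤ V := by rw [hV]; exact ENNReal.toReal_nonneg
  calc ∑ z ∈ Z, ∫ b in Metric.closedBall (0 : EE m) rho, ‖g z b‖
      ≤ ∑ z ∈ Z, V * (Q * w z) := by
        refine Finset.sum_le_sum fun z hz => ?_
        have i1 : IntegrableOn (fun b => ‖g z b‖) (Metric.closedBall (0 : EE m) rho) :=
          (hg z hz).norm.continuousOn.integrableOn_compact (isCompact_closedBall _ _)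
        have i2 : IntegrableOn (fun _ : EE m => Q * w z) (Metric.closedBall (0 : EE m) rho) :=
          integrableOn_const hfin
        calc ∫ b in Metric.closedBall (0 : EE m) rho, ‖g z b‖
            ≤ ∫ _ in Metric.closedBall (0 : EE m) rho, Q * w z := by
              refine setIntegral_mono_on i1 i2 measurableSet_closedBall ?_
              intro b hb
              exact hgb z hz b (by simpa using hb)
          _ = V * (Q * w z) := by
              rw [setIntegral_const, smul_eq_mul, hV]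
              rfl
    _ = V * Q * ∑ z ∈ Z, w z := by
        rw [Finset.mul_sum]
        refine Finset.sum_congr rfl fun z _ => ?_
        ring
    _ ≤ V * Q * S := mul_le_mul_of_nonneg_left hS (by positivity)
    _ ≤ B := hB

/-! ### The projection off `om` -/

/-- the projection off `om` -/
noncomputable def Pj {d : ℕ} (om x : EE d) : EE d := x - (inner ℝ om x : ℝ) • om

lemma Pj_add {d : ℕ} (om x y : EE d) : Pj om (x + y) = Pj om x + Pj om y := by
  unfold Pj
  rw [inner_add_right, add_smul]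
  abel

lemma Pj_sq {d : ℕ} {om : EE d} (h : ‖om‖ = 1) (x : EE d) : ‖Pj om x‖ ^ 2 = pq om x := by
  unfold Pj pq
  have e1 : (inner ℝ x om : ℝ) = inner ℝ om x := real_inner_comm _ _
  rw [norm_sub_sq_real, norm_smul, inner_smul_right, h, mul_one, Real.norm_eq_abs, sq_abs, e1]
  ring

lemma Pj_le {d : ℕ} {om : EE d} (h : ‖om‖ = 1) (x : EE d) : ‖Pj om x‖ ≤ ‖x‖ := by
  apply le_of_sq_le_sq _ (norm_nonneg _)
  rw [Pj_sq h]
  unfold pq
  nlinarith [sq_nonneg (inner ℝ om x : ℝ)]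

lemma t_le {d : ℕ} {om : EE d} (h : ‖om‖ = 1) (x : EE d) : |(inner ℝ om x : ℝ)| ≤ ‖x‖ := by
  have := abs_real_inner_le_norm om x
  rwa [h, one_mul] at this

/-- the exponent, for `z ≠ 0` and `|t_z| < 1/A` -/
lemma MM_ge {d : ℕ} {om : EE d} (hom : ‖om‖ = 1) {lam r T A : ℝ} (hA : 1 ≤ A) (hlam : 1 ≤ lam) (hr : 1 ≤ r)
    (hr3 : r ^ 3 ≤ lam ^ 2) {x p : EE d} (hx : ‖x‖ ≤ 1 / (8 * A)) (hp : 6 / A ≤ ‖p‖)
    (ht : |(inner ℝ om p : ℝ)| < 1 / A) :
    3 / 40 * 35 / A ^ 2 * r + 3 / 40 * pq om p ≤ MM om lam r T (x + p) := by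
  have hA0 : 0 < A := by linarith
  have hr0 : 0 < r := by linarith
  have hl0 : 0 < lam := by linarith
  set tz : ℝ := inner ℝ om p with htz
  set t : ℝ := inner ℝ om (x + p) with htt
  set P : ℝ := pq om p with hP
  have hA1 : 1 / A ≤ 1 := (div_le_one hA0).2 hA
  have hPge : 35 / A ^ 2 ≤ P := by
    have h1 : (6 / A) ^ 2 ≤ ‖p‖ ^ 2 := pow_le_pow_left₀ (by positivity) hp 2
    have h2 : tz ^ 2 ≤ (1 / A) ^ 2 := by
      rw [← sq_abs tz]
      exact pow_le_pow_left₀ (abs_nonneg _) ht.le 2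
    have h3 : P = ‖p‖ ^ 2 - tz ^ 2 := rfl
    have h4 : 35 / A ^ 2 = (6 / A) ^ 2 - (1 / A) ^ 2 := by
      field_simp
      norm_num
    rw [h3, h4]
    linarith
  have hPn : 5 / A ≤ ‖Pj om p‖ := by
    apply le_of_sq_le_sq _ (norm_nonneg _)
    rw [Pj_sq hom]
    refine le_trans ?_ hPge
    rw [div_pow]
    apply div_le_div_of_nonneg_right _ (by positivity)
    norm_num
  have hxP : ‖Pj om x‖ ≤ 1 / 40 * ‖Pj om p‖ := by
    have h1 := (Pj_le hom x).trans hx
    have h2 : 1 / (8 * A) = 1 / 40 * (5 / A) := by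
      field_simp
      norm_num
    rw [h2] at h1
    linarith
  have hq : 9 / 10 * P ≤ pq om (x + p) := by
    rw [← Pj_sq hom, hP, ← Pj_sq hom, Pj_add]
    have h1 : 39 / 40 * ‖Pj om p‖ ≤ ‖Pj om x + Pj om p‖ := by
      have := norm_sub_le (Pj om x + Pj om p) (Pj om x)
      rw [add_sub_cancel_left] at this
      linarith
    have h2 := pow_le_pow_left₀ (by positivity) h1 2
    nlinarith [sq_nonneg ‖Pj om p‖]
  have hP0 : 0 ≤ P := le_trans (by positivity) hPge
  have ht1 : |t| ≤ 9 / 8 := by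
    have h1 : t = inner ℝ om x + tz := by rw [htt, inner_add_right]
    have h2 := (t_le hom x).trans hx
    have h3 : 1 / (8 * A) = 1 / 8 * (1 / A) := by field_simp
    rw [h3] at h2
    rw [h1]
    have := abs_add_le (inner ℝ om x : ℝ) tz
    linarith
  have ht2 : (t * r ^ 2 / lam) ^ 2 ≤ 81 / 64 * r := by
    have h1 : t ^ 2 ≤ 81 / 64 := by
      rw [← sq_abs]
      nlinarith [abs_nonneg t]
    have h2 : r ^ 4 / lam ^ 2 ≤ r := by
      rw [div_le_iff₀ (by positivity)]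
      nlinarith [mul_le_mul_of_nonneg_left hr3 hr0.le]
    have h3 : (t * r ^ 2 / lam) ^ 2 = t ^ 2 * (r ^ 4 / lam ^ 2) := by
      field_simp
    rw [h3]
    exact mul_le_mul h1 h2 (by positivity) (by norm_num)
  have hden0 : 0 < 4 + (t * r ^ 2 / lam) ^ 2 := by positivity
  have h5 : 3 / 20 * P * r ≤ pq om (x + p) * r ^ 2 / (4 + (t * r ^ 2 / lam) ^ 2) := by
    rw [le_div_iff₀ hden0]
    have h6 : 4 + (t * r ^ 2 / lam) ^ 2 ≤ 6 * r := by linarith
    have h7 : 3 / 20 * P * r * (4 + (t * r ^ 2 / lam) ^ 2) ≤ 3 / 20 * P * r * (6 * r) :=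
      mul_le_mul_of_nonneg_left h6 (by positivity)
    have h8 : 9 / 10 * P * r ^ 2 ≤ pq om (x + p) * r ^ 2 := mul_le_mul_of_nonneg_right hq (by positivity)
    nlinarith
  have h6 : 0 ≤ t ^ 2 / (4 * T ^ 2) := by positivity
  have h7 : MM om lam r T (x + p) = t ^ 2 / (4 * T ^ 2) + pq om (x + p) * r ^ 2 / (4 + (t * r ^ 2 / lam) ^ 2) := rfl
  have h8 : 3 / 40 * 35 / A ^ 2 * r ≤ 3 / 40 * P * r := by
    have : 3 / 40 * 35 / A ^ 2 = 3 / 40 * (35 / A ^ 2) := by ring
    rw [this]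
    exact mul_le_mul_of_nonneg_right (mul_le_mul_of_nonneg_left hPge (by norm_num)) hr0.le
  have h9 : 3 / 40 * P ≤ 3 / 40 * P * r := by nlinarith
  rw [h7]
  linarith

/-- **ZA** -/
theorem specZA (hKN : SpecKN) (hSC : SpecSC) (hLZ : SpecLZ) : SpecZA := by
  intro m c R A M hA hcls
  obtain ⟨C1, hC1, hK⟩ := hKN (m + 1)
  obtain ⟨C2, hC2, hL⟩ := hLZ (m + 1) A hA
  have hA0 : 0 < A := by linarith
  have hR := hcls.R_pos
  set a : ℝ := 3 / 40 * 35 / A ^ 2 with ha
  have ha0 : 0 < a := by positivity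
  set D : ℝ := (Nat.factorial (m + 1) : ℝ) / a ^ (m + 1) with hD
  have hD0 : 0 < D := by positivity
  set al : ℝ := Real.sqrt (3 / 40) with hal
  have hal0 : 0 < al := Real.sqrt_pos.mpr (by norm_num)
  have hal2 : al ^ 2 = 3 / 40 := Real.sq_sqrt (by norm_num)
  set S : ℝ := C2 * (1 + 1 / A) * (1 + al⁻¹) ^ (m + 1) with hS
  have hS0 : 0 < S := by positivity
  set V : ℝ := (volume (Metric.closedBall (0 : EE m) (2 * dl (m + 1) R))).toReal with hV
  have hV0 : 0 ≤ V := ENNReal.toReal_nonneg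
  have hdl : 0 < dl (m + 1) R := by unfold dl; positivity
  have hdl4 : 4 * dl (m + 1) R ≤ R := by
    unfold dl
    have h1 : (1 : ℝ) ≤ 32 ^ (m + 1) := one_le_pow₀ (by norm_num)
    have h2 : 4 * (R / (4 * 32 ^ (m + 1))) = R / 32 ^ (m + 1) := by field_simp
    rw [h2]
    exact div_le_self hR.le h1
  refine ⟨C1 * D * S * (V + 1), by positivity, ?_⟩
  intro ch hDm Lt om e L hSl lam r T sg sg' Z hlam hr hr3 hT hsg hsg' hZ
  have hr0 : 0 < r := by linarith
  have hl0 : 0 < lam := by linarith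
  have hLt := hL Lt
  -- pointwise bound
  have key : ∀ z ∈ Z, ∀ b b' : EE m, ‖b‖ ≤ 2 * dl (m + 1) R → ‖b'‖ ≤ 2 * dl (m + 1) R →
      ‖ks ch om lam r T e L (Lt.du z) sg sg' b b'‖ ≤
        C1 / T * D * Real.exp (-(al ^ 2 * pq om (Lt.du z - 0))) := by
    intro z hz b b' hb hb'
    obtain ⟨hz0, hz1⟩ := hZ z hz
    have hq : ‖sl e L sg b‖ ≤ R := (norm_sl hSl.e_one L sg b).trans (by linarith)
    have hq' : ‖sl e L sg' b'‖ ≤ R := (norm_sl hSl.e_one L sg' b').trans (by linarith)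
    have hd := hDm _ _ hq hq'
    have h := (hK om lam r T (xd ch e L (Lt.du z) sg sg' b b') hSl.om_one hl0 hr0 hT).1
    have hM := MM_ge hSl.om_one (T := T) hA hlam hr hr3 hd (hLt.1 z hz0) hz1
    have hxd : xd ch e L (Lt.du z) sg sg' b b' =
        (ch.X (sl e L sg b) - ch.X (sl e L sg' b')) + Lt.du z := rfl
    rw [← hxd] at hM
    have h1 : r ^ (m + 1) ≤ D * Real.exp (a * r) := by
      have h2 := Real.pow_div_factorial_le_exp (a * r) (by positivity) (m + 1)
      rw [div_le_iff₀ (by positivity), mul_pow] at h2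
      rw [hD, div_mul_eq_mul_div, le_div_iff₀ (by positivity)]
      calc r ^ (m + 1) * a ^ (m + 1) = a ^ (m + 1) * r ^ (m + 1) := mul_comm _ _
        _ ≤ Real.exp (a * r) * (Nat.factorial (m + 1) : ℝ) := h2
        _ = _ := mul_comm _ _
    rw [sub_zero, hal2]
    calc ‖ks ch om lam r T e L (Lt.du z) sg sg' b b'‖
        ≤ C1 / T * r ^ (m + 1) * Real.exp (-MM om lam r T (xd ch e L (Lt.du z) sg sg' b b')) := h
      _ ≤ C1 / T * (D * Real.exp (a * r)) * Real.exp (-(a * r + 3 / 40 * pq om (Lt.du z))) := by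
          refine mul_le_mul ?_ (Real.exp_le_exp.mpr (neg_le_neg hM)) (Real.exp_pos _).le (by positivity)
          exact mul_le_mul_of_nonneg_left h1 (by positivity)
      _ = C1 / T * D * (Real.exp (a * r) * Real.exp (-(a * r + 3 / 40 * pq om (Lt.du z)))) := by ring
      _ = C1 / T * D * Real.exp (-(3 / 40 * pq om (Lt.du z))) := by
          rw [← Real.exp_add]
          congr 2
          ring
  have hsum : ∑ z ∈ Z, Real.exp (-(al ^ 2 * pq om (Lt.du z - 0))) ≤ S := by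
    refine hLt.2.1 om Z 0 (1 / A) al 0 hSl.om_one (by positivity) hal0 ?_
    intro z hz
    rw [sub_zero]
    exact (hZ z hz).2.le
  have hB : V * (C1 / T * D) * S ≤ C1 * D * S * (V + 1) * (r / T) := by
    calc V * (C1 / T * D) * S = C1 * D * S * V * (1 / T) := by ring
      _ ≤ C1 * D * S * (V + 1) * (r / T) := by
          refine mul_le_mul (mul_le_mul_of_nonneg_left (by linarith) (by positivity)) ?_ (by positivity)
            (by positivity)
          exact div_le_div_of_nonneg_right hr hT.le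
  have hQ : 0 ≤ C1 / T * D := by positivity
  have hr1 : ∀ b : EE m, ‖b‖ ≤ 2 * dl (m + 1) R →
      ∑ z ∈ Z, ∫ b' in Metric.closedBall (0 : EE m) (2 * dl (m + 1) R), ‖ks ch om lam r T e L (Lt.du z) sg sg' b b'‖ ≤
        C1 * D * S * (V + 1) * (r / T) := by
    intro b hb
    exact row Z (2 * dl (m + 1) R) V (C1 / T * D) S _ hV _ hsum hQ hB
      (fun z b' => ks ch om lam r T e L (Lt.du z) sg sg' b b')
      (fun z _ => cont_ksr ch om lam r T hr0 e L (Lt.du z) sg sg' b) (fun z hz b' hb' => key z hz b b' hb hb')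
  have hr2 : ∀ b' : EE m, ‖b'‖ ≤ 2 * dl (m + 1) R →
      ∑ z ∈ Z, ∫ b in Metric.closedBall (0 : EE m) (2 * dl (m + 1) R), ‖ks ch om lam r T e L (Lt.du z) sg sg' b b'‖ ≤
        C1 * D * S * (V + 1) * (r / T) := by
    intro b' hb'
    exact row Z (2 * dl (m + 1) R) V (C1 / T * D) S _ hV _ hsum hQ hB
      (fun z b => ks ch om lam r T e L (Lt.du z) sg sg' b b')
      (fun z _ => cont_ksl ch om lam r T hr0 e L (Lt.du z) sg sg' b') (fun z hz b hb => key z hz b b' hb hb')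
  exact hSC m (2 * dl (m + 1) R) _ _ Z (fun z => ks ch om lam r T e L (Lt.du z) sg sg')
    (fun z _ => cont_ks ch om lam r T hr0 e L (Lt.du z) sg sg') (by positivity) hr1 hr2

end Pool.Agent.Lib.MP_a8dae7_an.UN.A_ZA
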