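import Pool.Agent.Lib.MP_a8dae7_an.UN.SpecB
import Pool.Agent.Lib.MP_a8dae7_an.CV.SPL

/-!
# MP_a8dae7_an, UN: module MI. Block estimate for the minor cubes.
-/

set_option autoImplicit false

open MeasureTheory
open scoped ContDiff

namespace Pool.Agent.Lib.MP_a8dae7_an.UN

open Pool.Agent.Lib.MP_a8dae7_an.CV (EE zv ex pq pi2 AA sl bm PosAt PosCurved)

namespace MIM

variable {k m : ℕ} {c R A : ℝ} {M : ℕ → ℝ}

/-- Coordinates with respect to `J` and `nu`. -/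
theorem exists_coord (ch : UChart k c R M) (x : EE (k + 1)) :
    ∃ (u : EE k) (a : ℝ), x = ch.J u + a • ch.nu := by
  let T : (EE k × ℝ) →ₗ[ℝ] EE (k + 1) :=
    ch.J.toLinearMap.coprod (LinearMap.toSpanSingleton ℝ _ ch.nu)
  have hT : ∀ p, T p = ch.J p.1 + p.2 • ch.nu := fun p => by
    simp [T]
  have hinj : Function.Injective T := by
    rw [injective_iff_map_eq_zero]
    intro p hp
    rw [hT] at hp
    have h1 : inner ℝ ch.nu (ch.J p.1 + p.2 • ch.nu) = 0 := by rw [hp, inner_zero_right]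
    rw [inner_add_right, ch.nu_perp, inner_smul_right, real_inner_self_eq_norm_sq, ch.nu_one] at h1
    have h2 : p.2 = 0 := by linarith
    rw [h2, zero_smul, add_zero] at hp
    have h3 : p.1 = 0 := by
      have := ch.J.norm_map p.1
      rw [hp, norm_zero] at this
      exact norm_eq_zero.1 this.symm
    exact Prod.ext h3 h2
  have hfr : Module.finrank ℝ (EE k × ℝ) = Module.finrank ℝ (EE (k + 1)) := by
    simp [EE]
  have hsur := (LinearMap.injective_iff_surjective_of_finrank_eq_finrank hfr).1 hinj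
  obtain ⟨p, hp⟩ := hsur x
  exact ⟨p.1, p.2, by rw [← hp, hT]⟩

theorem inner_coord (ch : UChart k c R M) (u v : EE k) (a b : ℝ) :
    inner ℝ (ch.J u + a • ch.nu) (ch.J v + b • ch.nu) = inner ℝ u v + a * b := by
  rw [inner_add_left, inner_add_right, inner_add_right, ch.J.inner_map_map, inner_smul_left,
    inner_smul_left, inner_smul_right, inner_smul_right, ch.nu_perp,
    real_inner_comm (ch.nu) (ch.J u), ch.nu_perp, real_inner_self_eq_norm_sq, ch.nu_one]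
  simp

theorem norm_coord (ch : UChart k c R M) (u : EE k) (a : ℝ) :
    ‖ch.J u + a • ch.nu‖ ^ 2 = ‖u‖ ^ 2 + a ^ 2 := by
  rw [← real_inner_self_eq_norm_sq, inner_coord, real_inner_self_eq_norm_sq]
  ring

theorem nu_coord (ch : UChart k c R M) (u q : EE k) (a : ℝ) :
    inner ℝ (ch.nu - ch.J q) (ch.J u + a • ch.nu) = a - inner ℝ u q := by
  have : ch.nu - ch.J q = ch.J (-q) + (1 : ℝ) • ch.nu := by
    rw [map_neg, one_smul]
    abel
  rw [this, inner_coord, inner_neg_left, real_inner_comm]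
  ring

theorem dl_le (k : ℕ) {R : ℝ} (hR : 0 < R) : 2 * dl k R ≤ R / 2 := by
  have h1 : (1 : ℝ) ≤ 32 ^ k := one_le_pow₀ (by norm_num)
  have h2 : dl k R ≤ R / 4 := by
    unfold dl
    apply div_le_div_of_nonneg_left hR.le (by norm_num)
    linarith
  linarith

/-- Slices exist if the slab is not empty. -/
theorem exists_slice (ch : UChart (m + 1) c R M) (hR0 : 0 < R) (hR : R ≤ 1 / 16)
    (om : EE (m + 2)) (hom : ‖om‖ = 1) (th : ℝ) (hth : th ≤ 1 / 20) :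
    (∀ q : EE (m + 1), ‖q‖ ≤ 2 * dl (m + 1) R → 5 * th < |inner ℝ (ch.nu - ch.J q) om|) ∨
    ∃ (e : EE (m + 1)) (L : EE m →ₗᵢ[ℝ] EE (m + 1)) (sg0 : ℝ), Slice ch om e L ∧
      inner ℝ (ch.nu - ch.J (sg0 • e)) om = 0 ∧
      ∀ q, |inner ℝ (ch.nu - ch.J q) om| ≤ 5 * th → |inner ℝ e q - sg0| ≤ 10 * th := by
  obtain ⟨u, a, hx⟩ := exists_coord ch om
  have hn : ‖u‖ ^ 2 + a ^ 2 = 1 := by
    rw [← norm_coord ch, ← hx, hom]
    norm_num
  rcases lt_or_ge ‖u‖ (1 / 2) with h | h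
  · left
    intro q hq
    rw [hx, nu_coord]
    have h1 : 3 / 4 ≤ a ^ 2 := by
      have : ‖u‖ ^ 2 ≤ (1 / 2) ^ 2 := pow_le_pow_left₀ (norm_nonneg _) h.le 2
      linarith
    have h2 : 4 / 5 ≤ |a| := by
      by_contra h3
      push Not at h3
      have : |a| ^ 2 < (4 / 5) ^ 2 := pow_lt_pow_left₀ h3 (abs_nonneg _) (by norm_num)
      rw [sq_abs] at this
      linarith
    have h3 : |inner ℝ u q| ≤ 1 / 2 * (1 / 32) := by
      refine (abs_real_inner_le_norm u q).trans ?_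
      have := dl_le (m + 1) hR0
      exact mul_le_mul h.le (by linarith) (norm_nonneg _) (by norm_num)
    have h4 : |a| ≤ |a - inner ℝ u q| + |inner ℝ u q| := by
      have := abs_add_le (a - inner ℝ u q) (inner ℝ u q)
      simpa using this
    linarith
  · right
    have hu : 0 < ‖u‖ := by linarith
    have he : ‖‖u‖⁻¹ • u‖ = 1 := by
      rw [norm_smul, norm_inv, norm_norm, inv_mul_cancel₀ hu.ne']
    obtain ⟨L, hL, -⟩ := CV.specSPL m (‖u‖⁻¹ • u) he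
    have hL' : ∀ b, inner ℝ u (L b) = 0 := by
      intro b
      have := hL b
      rw [inner_smul_left] at this
      simp only [conj_trivial] at this
      rcases mul_eq_zero.1 this with h1 | h1
      · exact absurd h1 (inv_ne_zero hu.ne')
      · exact h1
    refine ⟨‖u‖⁻¹ • u, L, a / ‖u‖, ⟨hom, he, hL, ?_⟩, ?_, ?_⟩
    · intro b
      have h1 : ch.J (L b) = ch.J (L b) + (0 : ℝ) • ch.nu := by rw [zero_smul, add_zero]
      rw [hx, h1, inner_coord, hL']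
      ring
    · rw [hx, nu_coord, inner_smul_right, inner_smul_right, real_inner_self_eq_norm_sq]
      field_simp
      ring
    · intro q hq
      rw [hx, nu_coord] at hq
      have h1 : inner ℝ (‖u‖⁻¹ • u) q - a / ‖u‖ = -(‖u‖⁻¹ * (a - inner ℝ u q)) := by
        rw [inner_smul_left]
        simp only [conj_trivial]
        field_simp
        ring
      rw [h1, abs_neg, abs_mul, abs_of_pos (inv_pos.2 hu)]
      have h2 : ‖u‖⁻¹ ≤ 2 := by
        rw [inv_le_comm₀ hu (by norm_num)]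
        linarith
      have h3 : 0 ≤ 5 * th := (abs_nonneg _).trans hq
      calc ‖u‖⁻¹ * |a - inner ℝ u q| ≤ 2 * (5 * th) :=
            mul_le_mul h2 hq (abs_nonneg _) (by norm_num)
        _ = 10 * th := by ring

theorem pq_eq {d : ℕ} (om x : EE d) (hom : ‖om‖ = 1) :
    pq om x = ‖x - (inner ℝ om x : ℝ) • om‖ ^ 2 := by
  rw [pq, norm_sub_sq_real, inner_smul_right, norm_smul, hom, real_inner_comm x om, mul_one,
    Real.norm_eq_abs, sq_abs]
  ring

theorem pq_le {d : ℕ} (om x y : EE d) (hom : ‖om‖ = 1) {a b : ℝ} (ha : 0 ≤ a)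
    (h1 : pq om (x + y) ≤ a ^ 2) (h2 : ‖x‖ ≤ b) : pq om y ≤ (a + b) ^ 2 := by
  have hb : 0 ≤ b := (norm_nonneg _).trans h2
  rw [pq_eq _ _ hom] at h1 ⊢
  have h3 : ‖(x + y) - (inner ℝ om (x + y) : ℝ) • om‖ ≤ a :=
    le_of_sq_le_sq h1 ha
  have h4 : ‖x - (inner ℝ om x : ℝ) • om‖ ≤ b := by
    apply le_of_sq_le_sq _ hb
    rw [← pq_eq _ _ hom, pq]
    have : ‖x‖ ^ 2 ≤ b ^ 2 := pow_le_pow_left₀ (norm_nonneg _) h2 2
    nlinarith [sq_nonneg (inner ℝ om x : ℝ)]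
  have h5 : y - (inner ℝ om y : ℝ) • om = ((x + y) - (inner ℝ om (x + y) : ℝ) • om) -
      (x - (inner ℝ om x : ℝ) • om) := by
    rw [inner_add_right, add_smul]
    abel
  apply pow_le_pow_left₀ (norm_nonneg _)
  rw [h5]
  exact (norm_sub_le _ _).trans (add_le_add h3 h4)

/-- a unit vector in the span of two independent vectors, orthogonal to `om` -/
theorem exists_v {d : ℕ} (v1 v2 om : EE d) (h : LinearIndependent ℝ ![v1, v2]) :
    ∃ v : EE d, (∃ c1 c2 : ℝ, v = c1 • v1 + c2 • v2) ∧ ‖v‖ = 1 ∧ inner ℝ om v = 0 := by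
  rw [LinearIndependent.pair_iff] at h
  have key : ∀ s t : ℝ, (s ≠ 0 ∨ t ≠ 0) → inner ℝ om (s • v1 + t • v2) = 0 →
      ∃ v : EE d, (∃ c1 c2 : ℝ, v = c1 • v1 + c2 • v2) ∧ ‖v‖ = 1 ∧ inner ℝ om v = 0 := by
    intro s t hst h0
    have hne : s • v1 + t • v2 ≠ 0 := by
      intro h1
      obtain ⟨h2, h3⟩ := h s t h1
      rcases hst with h4 | h4
      · exact h4 h2
      · exact h4 h3
    have hn : 0 < ‖s • v1 + t • v2‖ := norm_pos_iff.2 hne
    refine ⟨‖s • v1 + t • v2‖⁻¹ • (s • v1 + t • v2), ⟨‖s • v1 + t • v2‖⁻¹ * s,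
      ‖s • v1 + t • v2‖⁻¹ * t, ?_⟩, ?_, ?_⟩
    · rw [smul_add, smul_smul, smul_smul]
    · rw [norm_smul, norm_inv, norm_norm, inv_mul_cancel₀ hn.ne']
    · rw [inner_smul_right, h0, mul_zero]
  by_cases h1 : inner ℝ om v1 = (0 : ℝ)
  · exact key 1 0 (Or.inl one_ne_zero) (by simp [h1])
  · refine key (inner ℝ om v2) (-(inner ℝ om v1)) (Or.inr (neg_ne_zero.2 h1)) ?_
    rw [inner_add_right, inner_smul_right, inner_smul_right]
    ring

theorem es_cont (ch : UChart k c R M) (Lt : Lat (k + 1) A) (s : Finset (Fin (k + 1) → ℤ))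
    (a : (Fin (k + 1) → ℤ) → ℂ) : Continuous fun q => ‖es Lt s a (ch.X q)‖ ^ 2 := by
  have h1 : Continuous ch.X := ch.smooth.continuous
  unfold es ex
  fun_prop

theorem int_on (ch : UChart k c R M) (Lt : Lat (k + 1) A) (s : Finset (Fin (k + 1) → ℤ))
    (a : (Fin (k + 1) → ℤ) → ℂ) (ρ : ℝ) {S : Set (EE k)} (hS : S ⊆ Metric.closedBall 0 ρ) :
    IntegrableOn (fun q => ‖es Lt s a (ch.X q)‖ ^ 2) S :=
  ((es_cont ch Lt s a).continuousOn.integrableOn_compact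
    (isCompact_closedBall (0 : EE k) ρ)).mono_set hS

/-- numerology, `w = u ^ 6` -/
theorem num6 {u th X f : ℝ} (hu : 0 < u) (hu1 : u ≤ 1) (hth : th ≤ u ^ 50) (hX : X ≤ u ^ 50)
    (hf : f ≤ u ^ 4 * A) :
    X / u ^ 6 + th / u ^ 6 + u ^ 6 + (u ^ 3)⁻¹ * f ≤ (3 + A) * u := by
  have h6 : 0 < u ^ 6 := by positivity
  have h3 : 0 < u ^ 3 := by positivity
  have e1 : ∀ Y : ℝ, Y ≤ u ^ 50 → Y / u ^ 6 ≤ u := by
    intro Y hY
    rw [div_le_iff₀ h6]
    refine hY.trans ?_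
    have : u ^ 50 = u * u ^ 6 * u ^ 43 := by ring
    rw [this]
    exact mul_le_of_le_one_right (by positivity) (pow_le_one₀ hu.le hu1)
  have e2 : u ^ 6 ≤ u := by
    have : u ^ 6 = u * u ^ 5 := by ring
    rw [this]
    exact mul_le_of_le_one_right hu.le (pow_le_one₀ hu.le hu1)
  have e3 : (u ^ 3)⁻¹ * f ≤ A * u := by
    rw [inv_mul_le_iff₀ h3]
    calc f ≤ u ^ 4 * A := hf
      _ = u ^ 3 * (A * u) := by ring
  have := e1 X hX
  have := e1 th hth
  linarith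

/-- numerology, `w = u ^ 2` -/
theorem num2 {u th X f : ℝ} (hu : 0 < u) (hu1 : u ≤ 1) (hth : th ≤ u ^ 50) (hX : X ≤ u ^ 50)
    (hf : f ≤ u ^ 2 * A) :
    X / u ^ 2 + th / u ^ 2 + u ^ 2 + u⁻¹ * f ≤ (3 + A) * u := by
  have h6 : 0 < u ^ 2 := by positivity
  have e1 : ∀ Y : ℝ, Y ≤ u ^ 50 → Y / u ^ 2 ≤ u := by
    intro Y hY
    rw [div_le_iff₀ h6]
    refine hY.trans ?_
    have : u ^ 50 = u * u ^ 2 * u ^ 47 := by ring
    rw [this]
    exact mul_le_of_le_one_right (by positivity) (pow_le_one₀ hu.le hu1)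
  have e2 : u ^ 2 ≤ u := by
    have : u ^ 2 = u * u := by ring
    rw [this]
    exact mul_le_of_le_one_right hu.le hu1
  have e3 : u⁻¹ * f ≤ A * u := by
    rw [inv_mul_le_iff₀ hu]
    calc f ≤ u ^ 2 * A := hf
      _ = u * (A * u) := by ring
  have := e1 X hX
  have := e1 th hth
  linarith

end MIM

open MIM in
/-- **MI** -/
theorem specMI (hPP : SpecPP) (hLC : SpecLC) (hDI : SpecDI) : SpecMI := by
  intro m c R A M hc hA
  obtain ⟨C0, hC0, hPP⟩ := hPP m c R A M hA hc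
  obtain ⟨C1, hC1, hLC⟩ := hLC m c R A M hc hA
  obtain ⟨C2, E2, hC2, hDI⟩ := hDI (m + 2) A (by omega) hA
  have hC1' : 0 < C1 := by linarith
  refine ⟨C0 * (6 + 3 * C1) + C2, min (1 / 20) (C1 ^ 2)⁻¹, 6 * E2 + 50, by positivity,
    by positivity, ?_⟩
  intro ch hdm Lt lam th Q n0 s hlam hth1 hth2 hQ hQE hQE' hn0 hs
  have hlam0 : 0 < lam := by linarith
  obtain ⟨C, hC⟩ : ∃ C, C = C0 * (6 + 3 * C1) + C2 := ⟨_, rfl⟩
  rw [← hC]
  have hth0 : 0 < th := lt_of_lt_of_le (Real.rpow_pos_of_pos hlam0 _) hth1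
  have hth20 : th ≤ 1 / 20 := hth2.trans (min_le_left _ _)
  have hthC : th ≤ (C1 ^ 2)⁻¹ := hth2.trans (min_le_right _ _)
  have hQ0 : 0 < Q := by linarith
  -- the parameter `u = 1 / Q`
  obtain ⟨u, hu⟩ : ∃ u, u = Q⁻¹ := ⟨_, rfl⟩
  have hu0 : 0 < u := by rw [hu]; positivity
  have hu1 : u ≤ 1 := by rw [hu]; exact inv_le_one_of_one_le₀ hQ
  have hQu : Q = u⁻¹ := by rw [hu, inv_inv]
  have hthu : th ≤ u ^ 50 := by
    have h1 : Q ^ 50 ≤ th⁻¹ := (pow_le_pow_right₀ hQ (by omega)).trans hQE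
    rw [hu, inv_pow]
    rw [le_inv_comm₀ hth0 (by positivity)]
    exact h1
  obtain ⟨r, hr⟩ : ∃ r, r = (th ^ 2)⁻¹ := ⟨_, rfl⟩
  have hr0 : 0 < r := by rw [hr]; positivity
  have hr1 : 1 ≤ r := by
    rw [hr]
    refine (one_le_inv₀ (by positivity)).2 ?_
    exact pow_le_one₀ hth0.le (by linarith)
  have hrt : th ^ 2 * r = 1 := by rw [hr]; field_simp
  -- `th ^ 3 * lam ≥ Q ^ (3 E)`
  have hl3 : (lam ^ (1 / 3 : ℝ)) ^ 3 = lam := by
    rw [← Real.rpow_natCast, ← Real.rpow_mul hlam0.le]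
    norm_num
  have hp3 : 0 < lam ^ (1 / 3 : ℝ) := Real.rpow_pos_of_pos hlam0 _
  have hp1 : 1 ≤ lam ^ (1 / 3 : ℝ) := Real.one_le_rpow hlam (by norm_num)
  have hQ50 : Q ^ 50 ≤ th * lam ^ (1 / 3 : ℝ) :=
    (pow_le_pow_right₀ hQ (by omega)).trans hQE'
  have h1Q : (1 : ℝ) ≤ Q ^ 50 := one_le_pow₀ hQ
  have hthl : 1 ≤ th * lam ^ (1 / 3 : ℝ) := h1Q.trans hQ50
  have hth3 : Q ^ 50 ≤ th ^ 3 * lam := by
    have h1 : (th * lam ^ (1 / 3 : ℝ)) ^ 3 = th ^ 3 * lam := by rw [mul_pow, hl3]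
    rw [← h1]
    refine hQ50.trans ?_
    exact le_self_pow₀ hthl (by norm_num)
  have hth2l : Q ^ 50 ≤ th ^ 2 * lam := by
    refine hth3.trans ?_
    apply mul_le_mul_of_nonneg_right _ hlam0.le
    calc th ^ 3 = th ^ 2 * th := by ring
      _ ≤ th ^ 2 * 1 := mul_le_mul_of_nonneg_left (by linarith) (by positivity)
      _ = th ^ 2 := by ring
  have hX : th * r ^ 2 / lam ≤ u ^ 50 := by
    have h1 : th * r ^ 2 / lam = (th ^ 3 * lam)⁻¹ := by
      rw [hr]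
      field_simp
    rw [h1, hu, inv_pow]
    exact inv_anti₀ (by positivity) hth3
  have hr3 : r ^ 3 ≤ lam ^ 2 := by
    have h1 : 1 ≤ (th * lam ^ (1 / 3 : ℝ)) ^ 6 := one_le_pow₀ hthl
    have h2 : (th * lam ^ (1 / 3 : ℝ)) ^ 6 = th ^ 6 * lam ^ 2 := by
      rw [mul_pow]
      congr 1
      calc (lam ^ (1 / 3 : ℝ)) ^ 6 = ((lam ^ (1 / 3 : ℝ)) ^ 3) ^ 2 := by ring
        _ = lam ^ 2 := by rw [hl3]
    rw [h2] at h1
    rw [hr, inv_pow, inv_le_iff_one_le_mul₀ (by positivity)]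
    calc (1 : ℝ) ≤ th ^ 6 * lam ^ 2 := h1
      _ = lam ^ 2 * (th ^ 2) ^ 3 := by ring
  have hwT : ∀ j : ℕ, j ≤ 50 → 1 ≤ u ^ j * lam / r := by
    intro j hj
    have h1 : u ^ j * lam / r = (th ^ 2 * lam) / Q ^ j := by
      rw [hr, hu, inv_pow]
      field_simp
    rw [h1, le_div_iff₀ (by positivity), one_mul]
    exact (pow_le_pow_right₀ hQ hj).trans hth2l
  -- the direction
  obtain ⟨om, hom⟩ : ∃ om, om = lam⁻¹ • n0 := ⟨_, rfl⟩
  have hom1 : ‖om‖ = 1 := by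
    rw [hom, norm_smul, norm_inv, Real.norm_of_nonneg hlam0.le, hn0, inv_mul_cancel₀ hlam0.ne']
  have hn0' : lam • om = n0 := by
    rw [hom, smul_smul, mul_inv_cancel₀ hlam0.ne', one_smul]
  have hsn : ∀ q, sn ch n0 q = lam * inner ℝ (ch.nu - ch.J q) om := by
    intro q
    rw [sn, ← hn0', inner_smul_left, real_inner_comm]
    simp
  have hs' : ∀ j ∈ s, ‖Lt.fr j‖ = lam ∧ ‖Lt.fr j - lam • om‖ ≤ r := by
    intro j hj
    rw [hn0', hr]
    exact hs j hj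
  rw [← hom]
  have hreg : ∀ q, |sn ch n0 q| ≤ 5 * th * lam → |inner ℝ (ch.nu - ch.J q) om| ≤ 5 * th := by
    intro q hq
    rw [hsn, abs_mul, abs_of_pos hlam0] at hq
    have : lam * |inner ℝ (ch.nu - ch.J q) om| ≤ lam * (5 * th) := by linarith
    exact le_of_mul_le_mul_left this hlam0
  rcases exists_slice ch hc.R_pos hc.R_le om hom1 th hth20 with hemp | ⟨e, L, sg0, hsl, hsg0, hsl2⟩
  · left
    intro a
    have h1 : {q : EE (m + 1) | ‖q‖ ≤ 2 * dl (m + 1) R ∧ |sn ch n0 q| ≤ 5 * th * lam} = ∅ := by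
      ext q
      simp only [Set.mem_ofPred_eq, Set.mem_empty_iff_false, iff_false, not_and, not_le]
      intro hq
      rw [hsn, abs_mul, abs_of_pos hlam0]
      have := hemp q hq
      nlinarith
    rw [h1, Measure.restrict_empty, integral_zero_measure]
    have : 0 ≤ ∑ j ∈ s, ‖a j‖ ^ 2 := Finset.sum_nonneg fun _ _ => by positivity
    have hCn : 0 ≤ C := by rw [hC]; positivity
    positivity
  -- the block estimate for a set `E`
  have hsub : ∀ E : Set (EE (m + 1)), {q : EE (m + 1) | ‖q‖ ≤ 2 * dl (m + 1) R ∧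
      |inner ℝ e q - sg0| ≤ 10 * th ∧ q ∈ E} ⊆ Metric.closedBall 0 (2 * dl (m + 1) R) := by
    intro E q hq
    rw [mem_closedBall_zero_iff]
    exact hq.1
  have hreg2 : ∀ q, (‖q‖ ≤ 2 * dl (m + 1) R ∧ |sn ch n0 q| ≤ 5 * th * lam) →
      ‖q‖ ≤ 2 * dl (m + 1) R ∧ |inner ℝ e q - sg0| ≤ 10 * th :=
    fun q hq => ⟨hq.1, hsl2 q (hreg q hq.2)⟩
  have hdm' : ∀ q q', ‖q‖ ≤ 2 * dl (m + 1) R → ‖q'‖ ≤ 2 * dl (m + 1) R →
      ‖ch.X q - ch.X q'‖ ≤ 1 / 8 := by
    intro q q' hq hq'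
    have h1 := dl_le (m + 1) hc.R_pos
    have h2 := hc.R_pos
    refine (hdm q q' (by linarith) (by linarith)).trans ?_
    apply div_le_div_of_nonneg_left (by norm_num) (by norm_num)
    linarith
  have hs6 : Real.sqrt (u ^ 6) = u ^ 3 := by
    have : u ^ 6 = (u ^ 3) ^ 2 := by ring
    rw [this, Real.sqrt_sq (by positivity)]
  have hs2 : Real.sqrt (u ^ 2) = u := Real.sqrt_sq hu0.le
  have hu6 : (u ^ 6) ≤ 1 := pow_le_one₀ hu0.le hu1
  have hu2 : (u ^ 2) ≤ 1 := pow_le_one₀ hu0.le hu1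
  obtain ⟨T2, hT2⟩ : ∃ T2, T2 = u ^ 6 * lam / r := ⟨_, rfl⟩
  have hT21 : 1 ≤ T2 := by rw [hT2]; exact hwT 6 (by norm_num)
  have hsplit : ∀ w : ℝ, 0 < w → th * r ^ 2 / (w * lam) = (th * r ^ 2 / lam) / w := by
    intro w hw
    field_simp
  rcases hDI Lt om T2 (u ^ 6) hom1 (by positivity) hu6 hT21 with h1 | ⟨z1, z2, hli, ha1, ha2, hp1', hp2'⟩
    | ⟨z0, hz0, hn, hp⟩
  · -- few lattice points in the tube
    left
    intro a
    have hCH : CH ch Lt om e sg0 (10 * th) Set.univ lam r (u ^ 6) (u ^ 6 * lam / r) ((u ^ 6) ^ 5) 0 := by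
      intro sg sg' q hsg hsg' _ hq hqe t w' ht1 ht2 ht3 hw' hw1 Z hZ
      rw [← hT2] at ht2 ht3
      have ht0 : 0 ≤ t := le_trans (by positivity) ht1
      have hw0 : 0 ≤ w' := le_trans (by positivity) hw'
      have h2 := h1 Z (fun z hz => ?_)
      · calc (Z.card : ℝ) ≤ (u ^ 6) ^ 8 * T2 := h2
          _ = (u ^ 6) ^ 5 * ((u ^ 6) ^ 3 * T2) := by ring
          _ ≤ (u ^ 6) ^ 5 * t := mul_le_mul_of_nonneg_left ht2 (by positivity)
          _ = t * ((u ^ 6) ^ 5 + 0 * w') := by ring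
      · obtain ⟨-, hb, q', -, hq', -, hpq⟩ := hZ z hz
        refine ⟨?_, ?_⟩
        · refine hb.trans ?_
          have : 0 ≤ T2 / u ^ 6 := by positivity
          calc 2 * t ≤ 2 * (T2 / u ^ 6) := by linarith
            _ ≤ 4 * (T2 / u ^ 6) := by linarith
            _ = 4 * T2 / u ^ 6 := by ring
        · refine (pq_le om _ _ hom1 hw0 hpq (hdm' q q' hq hq')).trans ?_
          apply pow_le_pow_left₀ (by positivity)
          linarith
    have h3 := hPP ch hdm Lt om e L hsl lam r th (u ^ 6) sg0 ((u ^ 6) ^ 5) 0 Set.univ hlam hr1 hr3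
      hth0 hrt.le (by positivity) hu6 (hwT 6 (by norm_num)) (by positivity) le_rfl
      MeasurableSet.univ hCH s a hs'
    have h4 : ∫ q in {q : EE (m + 1) | ‖q‖ ≤ 2 * dl (m + 1) R ∧ |sn ch n0 q| ≤ 5 * th * lam},
        ‖es Lt s a (ch.X q)‖ ^ 2 ≤
        ∫ q in {q : EE (m + 1) | ‖q‖ ≤ 2 * dl (m + 1) R ∧ |inner ℝ e q - sg0| ≤ 10 * th ∧
          q ∈ Set.univ}, ‖es Lt s a (ch.X q)‖ ^ 2 := by
      apply setIntegral_mono_set (int_on ch Lt s a _ (hsub Set.univ))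
      · exact Filter.Eventually.of_forall fun q => by positivity
      · apply LE.le.eventuallyLE
        intro q hq
        obtain ⟨h5, h6⟩ := hreg2 q hq
        exact ⟨h5, h6, trivial⟩
    refine h4.trans (h3.trans ?_)
    have hsum : 0 ≤ ∑ j ∈ s, ‖a j‖ ^ 2 := Finset.sum_nonneg fun _ _ => by positivity
    apply mul_le_mul_of_nonneg_right _ hsum
    rw [hsplit _ (by positivity), hs6, ← hu]
    have h5 := num6 (A := 1) (f := (u ^ 6) ^ 5 + 0 * u ^ 6) hu0 hu1 hthu hX (by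
      have : (u ^ 6) ^ 5 + 0 * u ^ 6 = u ^ 4 * u ^ 26 := by ring
      rw [this]
      exact mul_le_mul_of_nonneg_left (pow_le_one₀ hu0.le hu1) (by positivity))
    calc C0 * (th * r ^ 2 / lam / u ^ 6 + th / u ^ 6 + u ^ 6 + (u ^ 3)⁻¹ * ((u ^ 6) ^ 5 + 0 * u ^ 6))
        ≤ C0 * ((3 + 1) * u) := mul_le_mul_of_nonneg_left h5 hC0.le
      _ ≤ C * u := by
        rw [hC, ← mul_assoc]
        apply mul_le_mul_of_nonneg_right _ hu0.le
        nlinarith [mul_pos hC0 hC1']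
  · -- two independent short vectors: Lemma C
    left
    intro a
    obtain ⟨v, hvs, hv1, hv0⟩ := exists_v _ _ om hli
    have hbt : C1 * th ≤ u ^ 2 := by
      -- `C1 ^ 2 * th ^ 2 ≤ th ≤ u ^ 4`
      have h2 : (C1 * th) ^ 2 ≤ (u ^ 2) ^ 2 := by
        have h3 : C1 ^ 2 * th ≤ 1 := by
          have := mul_le_mul_of_nonneg_left hthC (by positivity : (0 : ℝ) ≤ C1 ^ 2)
          rwa [mul_inv_cancel₀ (by positivity)] at this
        calc (C1 * th) ^ 2 = (C1 ^ 2 * th) * th := by ring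
          _ ≤ 1 * th := mul_le_mul_of_nonneg_right h3 hth0.le
          _ = th := one_mul _
          _ ≤ u ^ 50 := hthu
          _ = (u ^ 2) ^ 2 * u ^ 46 := by ring
          _ ≤ (u ^ 2) ^ 2 := mul_le_of_le_one_right (by positivity) (pow_le_one₀ hu0.le hu1)
      exact le_of_sq_le_sq h2 (by positivity)
    have hzero : |inner ℝ (ch.nu - ch.J (sg0 • e)) om| ≤ 10 * th := by
      rw [hsg0, abs_zero]
      positivity
    have hT1 : (1 : ℝ) ≤ u ^ 2 * lam / r := hwT 2 (by norm_num)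
    have hT0 : 0 < lam / r := by positivity
    have hL2 := (hLC ch hdm Lt om e L hsl z1 z2 v lam r (u ^ 6) T2 sg0 th (u ^ 2) hli hvs hv1 hv0
      hlam hr1 (by positivity) hu6 hT2 hT21 hth0 (by positivity) hbt hzero
      (ha1.trans ?_) (ha2.trans ?_) (hp1'.trans ?_) (hp2'.trans ?_)).1
    rotate_left
    · have : (u ^ 6) ^ 5 ≤ (u ^ 6) ^ 3 := pow_le_pow_of_le_one (by positivity) hu6 (by norm_num)
      have := mul_le_mul_of_nonneg_right this (by linarith : (0 : ℝ) ≤ T2)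
      linarith
    · have : (u ^ 6) ^ 5 ≤ (u ^ 6) ^ 3 := pow_le_pow_of_le_one (by positivity) hu6 (by norm_num)
      have := mul_le_mul_of_nonneg_right this (by linarith : (0 : ℝ) ≤ T2)
      linarith
    · apply pow_le_pow_left₀ (by positivity)
      have : (u ^ 6) ^ 5 ≤ (u ^ 6) ^ 4 := pow_le_pow_of_le_one (by positivity) hu6 (by norm_num)
      linarith
    · apply pow_le_pow_left₀ (by positivity)
      have : (u ^ 6) ^ 5 ≤ (u ^ 6) ^ 4 := pow_le_pow_of_le_one (by positivity) hu6 (by norm_num)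
      linarith
    have hTT : (u ^ 6) ^ 5 * T2 / 8 ≤ (u ^ 2) ^ 3 * (u ^ 2 * lam / r) / 8 := by
      rw [hT2]
      have h2 : u ^ 36 ≤ u ^ 8 := pow_le_pow_of_le_one hu0.le hu1 (by norm_num)
      have h3 := mul_le_mul_of_nonneg_right h2 hT0.le
      calc (u ^ 6) ^ 5 * (u ^ 6 * lam / r) / 8 = u ^ 36 * (lam / r) / 8 := by ring
        _ ≤ u ^ 8 * (lam / r) / 8 := by linarith
        _ = (u ^ 2) ^ 3 * (u ^ 2 * lam / r) / 8 := by ring
    have hpp : ((u ^ 6) ^ 5 / 8) ^ 2 ≤ ((u ^ 2) ^ 4 / 8) ^ 2 := by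
      apply pow_le_pow_left₀ (by positivity)
      have h2 : u ^ 30 ≤ u ^ 8 := pow_le_pow_of_le_one hu0.le hu1 (by norm_num)
      calc (u ^ 6) ^ 5 / 8 = u ^ 30 / 8 := by ring
        _ ≤ u ^ 8 / 8 := by linarith
        _ = (u ^ 2) ^ 4 / 8 := by ring
    have hL1 := (hLC ch hdm Lt om e L hsl z1 z2 v lam r (u ^ 2) (u ^ 2 * lam / r) sg0 th (u ^ 2)
      hli hvs hv1 hv0 hlam hr1 (by positivity) hu2 rfl hT1 hth0 (by positivity) hbt hzero
      (ha1.trans hTT) (ha2.trans hTT) (hp1'.trans hpp) (hp2'.trans hpp)).2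
    rw [hT2] at hL2
    have hcont : Continuous fun q : EE (m + 1) => |inner ℝ (ch.nu - ch.J q) v| := by
      have := ch.J.continuous
      fun_prop
    have hm1 : MeasurableSet {q : EE (m + 1) | u ^ 2 ≤ |inner ℝ (ch.nu - ch.J q) v|} :=
      (isClosed_le continuous_const hcont).measurableSet
    have hm2 : MeasurableSet {q : EE (m + 1) | |inner ℝ (ch.nu - ch.J q) v| < u ^ 2} :=
      (isOpen_lt hcont continuous_const).measurableSet
    have h3 := hPP ch hdm Lt om e L hsl lam r th (u ^ 6) sg0 0 (C1 / u ^ 2) _ hlam hr1 hr3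
      hth0 hrt.le (by positivity) hu6 (hwT 6 (by norm_num)) le_rfl (by positivity) hm1 hL2 s a hs'
    have h4 := hPP ch hdm Lt om e L hsl lam r th (u ^ 2) sg0 (C1 * u ^ 2) C1 _ hlam hr1 hr3
      hth0 hrt.le (by positivity) hu2 (hwT 2 (by norm_num)) (by positivity) (by positivity) hm2 hL1
      s a hs'
    -- splitting
    have hmD : MeasurableSet {q : EE (m + 1) | ‖q‖ ≤ 2 * dl (m + 1) R ∧
        |inner ℝ e q - sg0| ≤ 10 * th ∧
        q ∈ {q : EE (m + 1) | |inner ℝ (ch.nu - ch.J q) v| < u ^ 2}} := by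
      have i1 : MeasurableSet {q : EE (m + 1) | ‖q‖ ≤ 2 * dl (m + 1) R} :=
        (isClosed_le continuous_norm continuous_const).measurableSet
      have i2 : MeasurableSet {q : EE (m + 1) | |inner ℝ e q - sg0| ≤ 10 * th} :=
        (isClosed_le (by fun_prop) continuous_const).measurableSet
      exact i1.inter (i2.inter hm2)
    have h5 : ∫ q in {q : EE (m + 1) | ‖q‖ ≤ 2 * dl (m + 1) R ∧ |sn ch n0 q| ≤ 5 * th * lam},
        ‖es Lt s a (ch.X q)‖ ^ 2 ≤
        (∫ q in {q : EE (m + 1) | ‖q‖ ≤ 2 * dl (m + 1) R ∧ |inner ℝ e q - sg0| ≤ 10 * th ∧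
          q ∈ {q : EE (m + 1) | u ^ 2 ≤ |inner ℝ (ch.nu - ch.J q) v|}}, ‖es Lt s a (ch.X q)‖ ^ 2) +
        ∫ q in {q : EE (m + 1) | ‖q‖ ≤ 2 * dl (m + 1) R ∧ |inner ℝ e q - sg0| ≤ 10 * th ∧
          q ∈ {q : EE (m + 1) | |inner ℝ (ch.nu - ch.J q) v| < u ^ 2}},
          ‖es Lt s a (ch.X q)‖ ^ 2 := by
      rw [← setIntegral_union _ hmD (int_on ch Lt s a _ (hsub _)) (int_on ch Lt s a _ (hsub _))]
      · apply setIntegral_mono_set (int_on ch Lt s a _ (Set.union_subset (hsub _) (hsub _)))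
        · exact Filter.Eventually.of_forall fun q => by positivity
        · apply LE.le.eventuallyLE
          intro q hq
          obtain ⟨h5, h6⟩ := hreg2 q hq
          rcases le_or_gt (u ^ 2) |inner ℝ (ch.nu - ch.J q) v| with h7 | h7
          · exact Or.inl ⟨h5, h6, h7⟩
          · exact Or.inr ⟨h5, h6, h7⟩
      · rw [Set.disjoint_left]
        rintro q ⟨-, -, h5⟩ ⟨-, -, h6⟩
        exact absurd (show |inner ℝ (ch.nu - ch.J q) v| < u ^ 2 from h6)
          (not_lt.2 (show u ^ 2 ≤ |inner ℝ (ch.nu - ch.J q) v| from h5))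
    have hsum : 0 ≤ ∑ j ∈ s, ‖a j‖ ^ 2 := Finset.sum_nonneg fun _ _ => by positivity
    refine h5.trans ((add_le_add h3 h4).trans ?_)
    rw [← add_mul]
    apply mul_le_mul_of_nonneg_right _ hsum
    rw [hsplit _ (by positivity), hsplit _ (by positivity), hs6, hs2, ← hu]
    have h6 := num6 (A := C1) (f := 0 + C1 / u ^ 2 * u ^ 6) hu0 hu1 hthu hX (by
      have : 0 + C1 / u ^ 2 * u ^ 6 = u ^ 4 * C1 := by field_simp; ring
      rw [this])
    have h7 := num2 (A := 2 * C1) (f := C1 * u ^ 2 + C1 * u ^ 2) hu0 hu1 hthu hX (by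
      have : C1 * u ^ 2 + C1 * u ^ 2 = u ^ 2 * (2 * C1) := by ring
      rw [this])
    have h8 := mul_le_mul_of_nonneg_left h6 hC0.le
    have h9 := mul_le_mul_of_nonneg_left h7 hC0.le
    refine (add_le_add h8 h9).trans ?_
    have : C0 * ((3 + C1) * u) + C0 * ((3 + 2 * C1) * u) = (C0 * (6 + 3 * C1)) * u := by ring
    rw [this, hC]
    apply mul_le_mul_of_nonneg_right _ hu0.le
    linarith
  · -- major cube
    right
    refine ⟨z0, hz0, hn.trans ?_, hp.trans ?_⟩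
    · rw [hQu]
      have h2 : (u ^ 6)⁻¹ ^ E2 = u⁻¹ ^ (6 * E2) := by
        rw [← inv_pow, ← pow_mul]
      rw [h2, ← hQu]
      have h3 : Q ^ (6 * E2) ≤ Q ^ (6 * E2 + 50) := pow_le_pow_right₀ hQ (by omega)
      have h4 : C2 ≤ C := by
        rw [hC]
        nlinarith [mul_pos hC0 hC1']
      exact mul_le_mul h4 h3 (by positivity) (by linarith)
    · apply pow_le_pow_left₀ (by positivity)
      have h2 : (u ^ 6)⁻¹ ^ E2 = Q ^ (6 * E2) := by
        rw [← inv_pow, ← pow_mul, hQu]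
      have h3 : C2 * (u ^ 6)⁻¹ ^ E2 / T2 = C2 * Q ^ (6 * E2 + 6) * (th ^ 2)⁻¹ / lam := by
        rw [h2, hT2, hr, hu, inv_pow, pow_add]
        field_simp
      rw [h3]
      have h4 : Q ^ (6 * E2 + 6) ≤ Q ^ (6 * E2 + 50) := pow_le_pow_right₀ hQ (by omega)
      have h5 : C2 ≤ C := by
        rw [hC]
        nlinarith [mul_pos hC0 hC1']
      have h6 : C2 * Q ^ (6 * E2 + 6) ≤ C * Q ^ (6 * E2 + 50) :=
        mul_le_mul h5 h4 (by positivity) (by linarith)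
      have h7 : 0 ≤ (th ^ 2)⁻¹ := by positivity
      exact div_le_div_of_nonneg_right (mul_le_mul_of_nonneg_right h6 h7) hlam0.le

end Pool.Agent.Lib.MP_a8dae7_an.UN
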