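import Pool.Agent.Lib.MP_a8dae7_an.UN.SpecB
import Pool.Agent.Lib.MP_a8dae7_an.UN.MI

section
/-!
# MP_a8dae7_an, UN: averaging over two lattice directions (module AV)
-/
set_option autoImplicit false

open MeasureTheory Set
open scoped ENNReal

namespace Pool.Agent.Lib.MP_a8dae7_an.UN.AVM

open Pool.Agent.Lib.MP_a8dae7_an.CV (EE zv ex pq pi2 AA sl bm)

/-- the integral of a periodic function over a period does not change by a shift -/
theorem lint_periodic (g : ℝ → ℝ≥0∞) (hp : ∀ a, g (a + 1) = g a) (s : ℝ) :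
    ∫⁻ a in Ioc (0 : ℝ) 1, g (a + s) = ∫⁻ a in Ioc (0 : ℝ) 1, g a := by
  have h1 : ∫⁻ a in Ioc (0 : ℝ) 1, g (a + s) = ∫⁻ a in Ioc s (s + 1), g a := by
    have := (measurePreserving_add_right (volume : Measure ℝ) s).setLIntegral_comp_preimage_emb
      (MeasurableEquiv.addRight s).measurableEmbedding g (Ioc s (s + 1))
    rw [← this]
    congr 2
    ext x
    simp only [Set.mem_preimage, Set.mem_Ioc]
    constructor <;> intro h <;> constructor <;> linarith [h.1, h.2]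
  rw [h1]
  have hz : ∀ (n : ℤ) (a : ℝ), g (n + a) = g a := by
    intro n a
    have hper : Function.Periodic g 1 := hp
    have := hper.int_mul n a
    rw [add_comm]
    simpa using this
  have f1 := isAddFundamentalDomain_Ioc (T := (1 : ℝ)) one_pos s (volume : Measure ℝ)
  have f2 := isAddFundamentalDomain_Ioc (T := (1 : ℝ)) one_pos 0 (volume : Measure ℝ)
  rw [zero_add] at f2
  refine f1.setLIntegral_eq f2 g ?_
  rintro ⟨m, hm⟩ x
  obtain ⟨n, rfl⟩ := AddSubgroup.mem_zmultiples_iff.1 hm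
  show g (n • (1 : ℝ) + x) = g x
  rw [zsmul_one]
  exact hz n x

section shift

variable {E : Type*} [NormedAddCommGroup E] [NormedSpace ℝ E] [MeasurableSpace E] [BorelSpace E]
  [SecondCountableTopology E] {ι : Type*} [Countable ι]

/-- the average over a cell of the sum over a lattice does not change when the function is translated -/
theorem sum_shift (p : ι → E) (v1 v2 : E) (τ1 τ2 : ι ≃ ι) (h1 : ∀ i, p (τ1 i) = p i + v1)
    (h2 : ∀ i, p (τ2 i) = p i + v2) (f : E → ℝ≥0∞) (hf : Measurable f) (s s' : ℝ) :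
    ∑' i, ∫⁻ a in Ioc (0 : ℝ) 1, ∫⁻ b in Ioc (0 : ℝ) 1, f (p i + a • v1 + b • v2 + (s • v1 + s' • v2)) =
      ∑' i, ∫⁻ a in Ioc (0 : ℝ) 1, ∫⁻ b in Ioc (0 : ℝ) 1, f (p i + a • v1 + b • v2) := by
  set F : ℝ → ℝ → ℝ≥0∞ := fun a b => ∑' i, f (p i + a • v1 + b • v2) with hF
  have hp1 : ∀ a b, F (a + 1) b = F a b := by
    intro a b
    simp only [hF]
    rw [← τ1.tsum_eq fun i => f (p i + a • v1 + b • v2)]
    refine tsum_congr fun i => ?_
    rw [h1]
    congr 1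
    module
  have hp2 : ∀ a b, F a (b + 1) = F a b := by
    intro a b
    simp only [hF]
    rw [← τ2.tsum_eq fun i => f (p i + a • v1 + b • v2)]
    refine tsum_congr fun i => ?_
    rw [h2]
    congr 1
    module
  have key : ∀ s s' : ℝ, ∑' i, ∫⁻ a in Ioc (0 : ℝ) 1, ∫⁻ b in Ioc (0 : ℝ) 1,
      f (p i + (a + s) • v1 + (b + s') • v2) =
      ∫⁻ a in Ioc (0 : ℝ) 1, ∫⁻ b in Ioc (0 : ℝ) 1, F (a + s) (b + s') := by
    intro s s'
    have hm : ∀ i, Measurable fun q : ℝ × ℝ => f (p i + (q.1 + s) • v1 + (q.2 + s') • v2) := by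
      intro i
      apply hf.comp
      fun_prop
    rw [← lintegral_tsum]
    · refine lintegral_congr fun a => ?_
      rw [← lintegral_tsum]
      intro i
      exact ((hm i).comp (measurable_const.prodMk measurable_id)).aemeasurable
    · intro i
      exact (Measurable.lintegral_prod_right' (hm i)).aemeasurable
  have e1 := key s s'
  have e0 := key 0 0
  simp only [add_zero] at e0
  rw [e0, ← lint_periodic (fun a => ∫⁻ b in Ioc (0 : ℝ) 1, F a b) (fun a => by simp only [hp1]) s]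
  have e2 : ∀ a, ∫⁻ b in Ioc (0 : ℝ) 1, F (a + s) (b + s') = ∫⁻ b in Ioc (0 : ℝ) 1, F (a + s) b :=
    fun a => lint_periodic (fun b => F (a + s) b) (fun b => hp2 _ _) s'
  rw [lintegral_congr e2] at e1
  rw [← e1]
  refine tsum_congr fun i => lintegral_congr fun a => lintegral_congr fun b => ?_
  congr 1
  module

end shift

/-- swapping integrals -/
theorem swap3 (h : ℝ → ℝ → ℝ → ℝ≥0∞) (hm : Measurable fun q : ℝ × ℝ × ℝ => h q.1 q.2.1 q.2.2) (μ ν ρ : Measure ℝ)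
    [SFinite μ] [SFinite ν] [SFinite ρ] :
    ∫⁻ y, ∫⁻ a, ∫⁻ b, h y a b ∂ρ ∂ν ∂μ = ∫⁻ a, ∫⁻ b, ∫⁻ y, h y a b ∂μ ∂ρ ∂ν := by
  have hm2 : Measurable fun q : (ℝ × ℝ) × ℝ => h q.1.1 q.1.2 q.2 :=
    hm.comp ((measurable_fst.comp measurable_fst).prodMk
      ((measurable_snd.comp measurable_fst).prodMk measurable_snd))
  have hm1 : Measurable fun q : ℝ × ℝ => ∫⁻ b, h q.1 q.2 b ∂ρ :=
    Measurable.lintegral_prod_right' (f := fun q : (ℝ × ℝ) × ℝ => h q.1.1 q.1.2 q.2) hm2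
  rw [lintegral_lintegral_swap (f := fun y a => ∫⁻ b, h y a b ∂ρ) hm1.aemeasurable]
  refine lintegral_congr fun a => ?_
  have hm3 : Measurable fun q : ℝ × ℝ => h q.1 a q.2 :=
    hm.comp (measurable_fst.prodMk (measurable_const.prodMk measurable_snd))
  rw [lintegral_lintegral_swap (f := fun y b => h y a b) hm3.aemeasurable]

theorem meas3 (h : ℝ → ℝ → ℝ → ℝ≥0∞) (hm : Measurable fun q : ℝ × ℝ × ℝ => h q.1 q.2.1 q.2.2) (ν ρ : Measure ℝ)
    [SFinite ν] [SFinite ρ] : Measurable fun y => ∫⁻ a, ∫⁻ b, h y a b ∂ρ ∂ν := by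
  have hm2 : Measurable fun q : (ℝ × ℝ) × ℝ => h q.1.1 q.1.2 q.2 :=
    hm.comp ((measurable_fst.comp measurable_fst).prodMk
      ((measurable_snd.comp measurable_fst).prodMk measurable_snd))
  have hm1 : Measurable fun q : ℝ × ℝ => ∫⁻ b, h q.1 q.2 b ∂ρ :=
    Measurable.lintegral_prod_right' (f := fun q : (ℝ × ℝ) × ℝ => h q.1.1 q.1.2 q.2) hm2
  exact Measurable.lintegral_prod_right' (f := fun q : ℝ × ℝ => ∫⁻ b, h q.1 q.2 b ∂ρ) hm1

theorem zv_add {d : ℕ} (z z' : Fin d → ℤ) : zv (z + z') = zv z + zv z' := by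
  ext i
  simp [zv]

theorem du_add {D : ℕ} {A : ℝ} (Lt : Lat D A) (z z' : Fin D → ℤ) : Lt.du (z + z') = Lt.du z + Lt.du z' := by
  simp only [Lat.du, zv_add, map_add, smul_add]

/-- the integral over a unit cell of a constant -/
theorem cell_const (c : ℝ≥0∞) : ∫⁻ _ in Ioc (0 : ℝ) 1, ∫⁻ _ in Ioc (0 : ℝ) 1, c = c := by
  simp

/-- the upper bound -/
theorem upper {D : ℕ} (p : (Fin D → ℤ) → EE D) (v1 v2 v : EE D) (Bad Good : Set (EE D)) (l : ℝ)
    (G : Finset (Fin D → ℤ)) (hBm : MeasurableSet Bad)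
    (hlen : ∀ x, volume {y : ℝ | y ∈ Set.Icc (-1) 1 ∧ x + y • v ∈ Bad} ≤ ENNReal.ofReal l)
    (hgood : ∀ x (y : ℝ), y ∈ Set.Icc (-1 : ℝ) 1 → x + y • v ∈ Bad → x ∈ Good)
    (hG : ∀ z, (∃ al be : ℝ, al ∈ Set.Icc (0 : ℝ) 1 ∧ be ∈ Set.Icc (0 : ℝ) 1 ∧
      p z + al • v1 + be • v2 ∈ Good) → z ∈ G) :
    ∫⁻ y in Icc (-1 : ℝ) 1, ∑' z, ∫⁻ a in Ioc (0 : ℝ) 1, ∫⁻ b in Ioc (0 : ℝ) 1,
      Bad.indicator (1 : EE D → ℝ≥0∞) (p z + a • v1 + b • v2 + y • v) ≤ ENNReal.ofReal l * G.card := by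
  have hfm : Measurable (Bad.indicator (1 : EE D → ℝ≥0∞)) := measurable_one.indicator hBm
  have hmeas : ∀ z, Measurable fun q : ℝ × ℝ × ℝ =>
      Bad.indicator (1 : EE D → ℝ≥0∞) (p z + q.2.1 • v1 + q.2.2 • v2 + q.1 • v) := by
    intro z
    apply hfm.comp
    fun_prop
  rw [lintegral_tsum fun z => (meas3 (fun y a b => Bad.indicator (1 : EE D → ℝ≥0∞)
    (p z + a • v1 + b • v2 + y • v)) (hmeas z) _ _).aemeasurable]
  calc ∑' z, ∫⁻ y in Icc (-1 : ℝ) 1, ∫⁻ a in Ioc (0 : ℝ) 1, ∫⁻ b in Ioc (0 : ℝ) 1,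
        Bad.indicator (1 : EE D → ℝ≥0∞) (p z + a • v1 + b • v2 + y • v)
      = ∑' z, ∫⁻ a in Ioc (0 : ℝ) 1, ∫⁻ b in Ioc (0 : ℝ) 1, ∫⁻ y in Icc (-1 : ℝ) 1,
        Bad.indicator (1 : EE D → ℝ≥0∞) (p z + a • v1 + b • v2 + y • v) :=
        tsum_congr fun z => swap3 (fun y a b => Bad.indicator (1 : EE D → ℝ≥0∞)
          (p z + a • v1 + b • v2 + y • v)) (hmeas z) _ _ _
    _ ≤ ∑' z, ENNReal.ofReal l * (G : Set (Fin D → ℤ)).indicator (fun _ => (1 : ℝ≥0∞)) z := by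
        refine ENNReal.tsum_le_tsum fun z => ?_
        rw [← cell_const (ENNReal.ofReal l * (G : Set (Fin D → ℤ)).indicator (fun _ => (1 : ℝ≥0∞)) z)]
        refine setLIntegral_mono' measurableSet_Ioc fun a ha => ?_
        refine setLIntegral_mono' measurableSet_Ioc fun b hb => ?_
        set x := p z + a • v1 + b • v2 with hx
        by_cases hxG : x ∈ Good
        · have hzG : z ∈ G := hG z ⟨a, b, ⟨ha.1.le, ha.2⟩, ⟨hb.1.le, hb.2⟩, hxG⟩
          have hms : MeasurableSet {y : ℝ | x + y • v ∈ Bad} := by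
            have hc : Measurable fun y : ℝ => x + y • v := by fun_prop
            exact hc hBm
          have e0 : (fun y : ℝ => Bad.indicator (1 : EE D → ℝ≥0∞) (x + y • v)) =
              {y : ℝ | x + y • v ∈ Bad}.indicator 1 := by
            funext y
            by_cases h : x + y • v ∈ Bad
            · rw [Set.indicator_of_mem h, Set.indicator_of_mem (by exact h)]; rfl
            · rw [Set.indicator_of_notMem h, Set.indicator_of_notMem (by exact h)]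
          have e : ∫⁻ y in Icc (-1 : ℝ) 1, Bad.indicator (1 : EE D → ℝ≥0∞) (x + y • v) =
              volume {y : ℝ | y ∈ Set.Icc (-1) 1 ∧ x + y • v ∈ Bad} := by
            rw [e0, lintegral_indicator_one hms, Measure.restrict_apply hms]
            congr 1
            ext y
            simp only [Set.mem_inter_iff, Set.mem_setOf_eq]
            tauto
          rw [e, Set.indicator_of_mem (by exact hzG), mul_one]
          exact hlen x
        · have e : ∫⁻ y in Icc (-1 : ℝ) 1, Bad.indicator (1 : EE D → ℝ≥0∞) (x + y • v) = 0 := by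
            rw [← lintegral_zero (μ := volume.restrict (Icc (-1 : ℝ) 1))]
            refine setLIntegral_congr_fun measurableSet_Icc fun y hy => ?_
            exact Set.indicator_of_notMem (fun h => hxG (hgood x y hy h)) _
          rw [e]
          exact zero_le
    _ = ENNReal.ofReal l * G.card := by
        rw [ENNReal.tsum_mul_left]
        congr 1
        rw [tsum_eq_sum (s := G) (fun z hz => Set.indicator_of_notMem (by exact hz) _)]
        rw [Finset.sum_congr rfl fun z hz => Set.indicator_of_mem (by exact hz) _]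
        simp

/-- **AV** -/
theorem specAV : SpecAV := by
  intro D A Lt z1 z2 v Bad Good l G _ hv hBm hGm _ _ hl hlen hgood hG Z hZ
  obtain ⟨c1, c2, hv⟩ := hv
  have hfm : Measurable (Bad.indicator (1 : EE D → ℝ≥0∞)) := measurable_one.indicator hBm
  -- lower bound
  have hlow : (Z.card : ℝ≥0∞) ≤ ∑' z, ∫⁻ a in Ioc (0 : ℝ) 1, ∫⁻ b in Ioc (0 : ℝ) 1,
      Bad.indicator (1 : EE D → ℝ≥0∞) (Lt.du z + a • Lt.du z1 + b • Lt.du z2) := by
    calc (Z.card : ℝ≥0∞) = ∑ z ∈ Z, (1 : ℝ≥0∞) := by simp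
      _ ≤ ∑ z ∈ Z, ∫⁻ a in Ioc (0 : ℝ) 1, ∫⁻ b in Ioc (0 : ℝ) 1,
          Bad.indicator (1 : EE D → ℝ≥0∞) (Lt.du z + a • Lt.du z1 + b • Lt.du z2) := by
          refine Finset.sum_le_sum fun z hz => ?_
          rw [← cell_const 1]
          refine setLIntegral_mono' measurableSet_Ioc fun a ha => ?_
          refine setLIntegral_mono' measurableSet_Ioc fun b hb => ?_
          rw [Set.indicator_of_mem (hZ z hz a b ⟨ha.1.le, ha.2⟩ ⟨hb.1.le, hb.2⟩)]
          exact le_rfl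
      _ ≤ _ := ENNReal.sum_le_tsum _
  -- invariance
  have hinv : ∀ y : ℝ, ∑' z, ∫⁻ a in Ioc (0 : ℝ) 1, ∫⁻ b in Ioc (0 : ℝ) 1,
      Bad.indicator (1 : EE D → ℝ≥0∞) (Lt.du z + a • Lt.du z1 + b • Lt.du z2 + y • v) =
      ∑' z, ∫⁻ a in Ioc (0 : ℝ) 1, ∫⁻ b in Ioc (0 : ℝ) 1,
      Bad.indicator (1 : EE D → ℝ≥0∞) (Lt.du z + a • Lt.du z1 + b • Lt.du z2) := by
    intro y
    have := sum_shift (fun z : Fin D → ℤ => Lt.du z) (Lt.du z1) (Lt.du z2) (Equiv.addRight z1) (Equiv.addRight z2)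
      (fun z => du_add Lt z z1) (fun z => du_add Lt z z2) _ hfm (y * c1) (y * c2)
    rw [← this]
    refine tsum_congr fun z => lintegral_congr fun a => lintegral_congr fun b => ?_
    congr 1
    rw [hv]
    module
  have hup := upper (fun z => Lt.du z) (Lt.du z1) (Lt.du z2) v Bad Good l G hBm hlen hgood hG
  rw [lintegral_congr hinv, setLIntegral_const, Real.volume_Icc] at hup
  have hfin : ENNReal.ofReal (2 * Z.card) ≤ ENNReal.ofReal (l * G.card) := by
    rw [ENNReal.ofReal_mul (by norm_num), ENNReal.ofReal_mul hl, ENNReal.ofReal_natCast, ENNReal.ofReal_natCast]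
    refine le_trans ?_ hup
    rw [mul_comm]
    norm_num
    gcongr
  have := (ENNReal.ofReal_le_ofReal_iff (by positivity)).1 hfin
  linarith

end Pool.Agent.Lib.MP_a8dae7_an.UN.AVM
end

section
/-!
# MP_a8dae7_an, UN: U0, the base of the induction
-/
set_option autoImplicit false

open MeasureTheory
open scoped ContDiff

namespace Pool.Agent.Lib.MP_a8dae7_an.UN.U0M

open Pool.Agent.Lib.MP_a8dae7_an.CV (EE zv ex pq pi2 AA sl bm)

lemma norm_ex {d : ℕ} (n x : EE d) : ‖ex n x‖ = 1 := by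
  unfold ex
  rw [mul_comm]
  exact Complex.norm_exp_ofReal_mul_I _

lemma norm_one (x : EE 1) : ‖x‖ = |x 0| := by
  rw [EuclideanSpace.norm_eq]
  simp [Real.sqrt_sq_eq_abs]

lemma ext_one (x y : EE 1) (h : x 0 = y 0) : x = y := by
  ext i
  have hi : i = 0 := Subsingleton.elim _ _
  rw [hi]
  exact h

lemma zv_inj {d : ℕ} (j j' : Fin d → ℤ) (h : zv j = zv j') : j = j' := by
  funext i
  have := congrArg (fun v : EE d => v i) h
  simpa [zv] using this

lemma fr_inj {D : ℕ} {A : ℝ} (Lt : Lat D A) (j j' : Fin D → ℤ) (h : Lt.fr j = Lt.fr j') : j = j' := by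
  unfold Lat.fr at h
  have h1 : Lt.B (zv j) = Lt.B (zv j') := add_right_cancel h
  exact zv_inj j j' (Lt.B.injective h1)

lemma card_le_two {A : ℝ} (Lt : Lat 1 A) (lam : ℝ) (s : Finset (Fin 1 → ℤ))
    (hs : ∀ j ∈ s, ‖Lt.fr j‖ = lam) : s.card ≤ 2 := by
  classical
  have hsub : s ⊆ s.filter (fun j => Lt.fr j 0 = lam) ∪ s.filter (fun j => Lt.fr j 0 = -lam) := by
    intro j hj
    have h1 := hs j hj
    rw [norm_one] at h1
    rw [Finset.mem_union, Finset.mem_filter, Finset.mem_filter]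
    rcases abs_choice (Lt.fr j 0) with h | h
    · left
      exact ⟨hj, by rw [← h1, h]⟩
    · right
      exact ⟨hj, by rw [← h1, h]; ring⟩
  have hone : ∀ c : ℝ, (s.filter (fun j => Lt.fr j 0 = c)).card ≤ 1 := by
    intro c
    rw [Finset.card_le_one]
    intro a ha b hb
    rw [Finset.mem_filter] at ha hb
    exact fr_inj Lt a b (ext_one _ _ (by rw [ha.2, hb.2]))
  calc s.card ≤ (s.filter (fun j => Lt.fr j 0 = lam) ∪ s.filter (fun j => Lt.fr j 0 = -lam)).card :=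
        Finset.card_le_card hsub
    _ ≤ (s.filter (fun j => Lt.fr j 0 = lam)).card + (s.filter (fun j => Lt.fr j 0 = -lam)).card :=
        Finset.card_union_le _ _
    _ ≤ 1 + 1 := Nat.add_le_add (hone _) (hone _)

/-- the trivial bound by Cauchy-Schwarz -/
lemma es_sq_le {D : ℕ} {A : ℝ} (Lt : Lat D A) (s : Finset (Fin D → ℤ)) (a : (Fin D → ℤ) → ℂ) (x : EE D) :
    ‖es Lt s a x‖ ^ 2 ≤ s.card * ∑ j ∈ s, ‖a j‖ ^ 2 := by
  have h1 : ‖es Lt s a x‖ ≤ ∑ j ∈ s, ‖a j‖ := by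
    unfold es
    refine le_trans (norm_sum_le _ _) (Finset.sum_le_sum ?_)
    intro j _
    rw [norm_mul, norm_ex, mul_one]
  calc ‖es Lt s a x‖ ^ 2 ≤ (∑ j ∈ s, ‖a j‖) ^ 2 := pow_le_pow_left₀ (norm_nonneg _) h1 2
    _ ≤ s.card * ∑ j ∈ s, ‖a j‖ ^ 2 := sq_sum_le_card_mul_sum_sq

/-- **U0** -/
theorem specU0 : SpecU0 := by
  intro A c R M hA hcls
  refine ⟨2 * (volume (Metric.closedBall (0 : EE 0) (dl 0 R))).toReal + 1, by positivity, ?_⟩
  intro ch hdm Lt lam s a hlam hs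
  have hcard : (s.card : ℝ) ≤ 2 := by
    have := card_le_two Lt lam s hs
    exact_mod_cast this
  have hS : 0 ≤ ∑ j ∈ s, ‖a j‖ ^ 2 := Finset.sum_nonneg fun j _ => by positivity
  have hconst : ∀ q : EE 0, ‖es Lt s a (ch.X q)‖ ^ 2 = ‖es Lt s a (ch.X 0)‖ ^ 2 := by
    intro q
    rw [Subsingleton.elim q 0]
  have hval : ‖es Lt s a (ch.X 0)‖ ^ 2 ≤ 2 * ∑ j ∈ s, ‖a j‖ ^ 2 :=
    le_trans (es_sq_le Lt s a _) (mul_le_mul_of_nonneg_right hcard hS)
  have hint : ∫ q in Metric.closedBall (0 : EE 0) (dl 0 R), ‖es Lt s a (ch.X q)‖ ^ 2 =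
      (volume (Metric.closedBall (0 : EE 0) (dl 0 R))).toReal * ‖es Lt s a (ch.X 0)‖ ^ 2 := by
    rw [setIntegral_congr_fun (g := fun _ => ‖es Lt s a (ch.X 0)‖ ^ 2) Metric.isClosed_closedBall.measurableSet
      (fun q _ => hconst q)]
    rw [setIntegral_const]
    simp [Measure.real]
  rw [hint]
  have hv : 0 ≤ (volume (Metric.closedBall (0 : EE 0) (dl 0 R))).toReal := ENNReal.toReal_nonneg
  calc (volume (Metric.closedBall (0 : EE 0) (dl 0 R))).toReal * ‖es Lt s a (ch.X 0)‖ ^ 2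
      ≤ (volume (Metric.closedBall (0 : EE 0) (dl 0 R))).toReal * (2 * ∑ j ∈ s, ‖a j‖ ^ 2) :=
        mul_le_mul_of_nonneg_left hval hv
    _ ≤ (2 * (volume (Metric.closedBall (0 : EE 0) (dl 0 R))).toReal + 1) * ∑ j ∈ s, ‖a j‖ ^ 2 := by
        nlinarith

end Pool.Agent.Lib.MP_a8dae7_an.UN.U0M
end

section
/-!
# MP_a8dae7_an, UN: module B0. Every block is bounded.
-/
set_option autoImplicit false

open MeasureTheory
open scoped ContDiff

namespace Pool.Agent.Lib.MP_a8dae7_an.UN.B0M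

open Pool.Agent.Lib.MP_a8dae7_an.CV (EE zv ex pq pi2 AA sl bm)

variable {k m : ℕ} {c R A : ℝ} {M : ℕ → ℝ}

/-- the trivial bound -/
theorem triv (ch : UChart k c R M) (Lt : Lat (k + 1) A) (s : Finset (Fin (k + 1) → ℤ))
    (a : (Fin (k + 1) → ℤ) → ℂ) (N ρ : ℝ) (hN : (s.card : ℝ) ≤ N) {S : Set (EE k)}
    (hS : S ⊆ Metric.closedBall 0 ρ) :
    ∫ q in S, ‖es Lt s a (ch.X q)‖ ^ 2 ≤
      (volume.real (Metric.closedBall (0 : EE k) ρ) * N) * ∑ j ∈ s, ‖a j‖ ^ 2 := by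
  have hsum : 0 ≤ ∑ j ∈ s, ‖a j‖ ^ 2 := Finset.sum_nonneg fun _ _ => by positivity
  have hN0 : 0 ≤ N := (Nat.cast_nonneg _).trans hN
  have hfin : volume (Metric.closedBall (0 : EE k) ρ) < ⊤ := measure_closedBall_lt_top
  have hb : ∀ q, ‖es Lt s a (ch.X q)‖ ^ 2 ≤ N * ∑ j ∈ s, ‖a j‖ ^ 2 := fun q =>
    (U0M.es_sq_le Lt s a _).trans (mul_le_mul_of_nonneg_right hN hsum)
  refine (le_abs_self _).trans ?_
  rw [← Real.norm_eq_abs]
  refine (norm_setIntegral_le_of_norm_le_const (C := N * ∑ j ∈ s, ‖a j‖ ^ 2)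
    ((measure_mono hS).trans_lt hfin) fun q _ => ?_).trans ?_
  · rw [Real.norm_eq_abs, abs_of_nonneg (by positivity)]
    exact hb q
  · calc (N * ∑ j ∈ s, ‖a j‖ ^ 2) * volume.real S
        ≤ (N * ∑ j ∈ s, ‖a j‖ ^ 2) * volume.real (Metric.closedBall (0 : EE k) ρ) := by
          refine mul_le_mul_of_nonneg_left ?_ (by positivity)
          exact measureReal_mono hS hfin.ne
      _ = _ := by ring

open MIM in
/-- **B0** -/
theorem specB0 (hPP : SpecPP) (hCT : SpecCT) (hLS : SpecLS) : SpecB0 := by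
  intro m c R A M hc hA
  obtain ⟨C0, hC0, hPP⟩ := hPP m c R A M hA hc
  obtain ⟨C1, hC1, hCT⟩ := hCT (m + 2) A hA
  obtain ⟨C2, hC2, hLS, -, -⟩ := hLS (m + 2) A hA
  obtain ⟨V, hV⟩ : ∃ V, V = volume.real (Metric.closedBall (0 : EE (m + 1)) (2 * dl (m + 1) R)) :=
    ⟨_, rfl⟩
  have hV0 : 0 ≤ V := by rw [hV]; exact measureReal_nonneg
  refine ⟨C0 * (3 + 2 * C1) + V * (C2 * 401 ^ (m + 2)), by positivity, ?_⟩
  intro ch hdm Lt lam th n0 s a hlam hth1 hth2 hn0 hs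
  have hlam0 : 0 < lam := by linarith
  have hth0 : 0 < th := lt_of_lt_of_le (Real.rpow_pos_of_pos hlam0 _) hth1
  have hsum : 0 ≤ ∑ j ∈ s, ‖a j‖ ^ 2 := Finset.sum_nonneg fun _ _ => by positivity
  have hCa : 0 ≤ C0 * (3 + 2 * C1) := by positivity
  have hCb : 0 ≤ V * (C2 * 401 ^ (m + 2)) := by positivity
  have hsub0 : {q : EE (m + 1) | ‖q‖ ≤ 2 * dl (m + 1) R ∧ |sn ch n0 q| ≤ 5 * th * lam} ⊆
      Metric.closedBall 0 (2 * dl (m + 1) R) := by
    intro q hq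
    rw [mem_closedBall_zero_iff]
    exact hq.1
  rcases le_or_gt th (1 / 20) with hth20 | hth20
  swap
  · -- few points
    have h1 : (th ^ 2)⁻¹ ≤ 400 := by
      rw [inv_le_comm₀ (by positivity) (by norm_num)]
      have := pow_le_pow_left₀ (by norm_num) hth20.le 2
      norm_num at this ⊢
      exact this
    have h2 := hLS Lt s n0 ((th ^ 2)⁻¹) (by positivity) (fun j hj => (hs j hj).2)
    have h3 : (s.card : ℝ) ≤ C2 * 401 ^ (m + 2) := by
      refine h2.trans ?_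
      refine mul_le_mul_of_nonneg_left ?_ hC2.le
      exact pow_le_pow_left₀ (by positivity) (by linarith) _
    have h4 := triv ch Lt s a _ _ h3 hsub0
    rw [← hV] at h4
    refine h4.trans (mul_le_mul_of_nonneg_right ?_ hsum)
    linarith
  obtain ⟨r, hr⟩ : ∃ r, r = (th ^ 2)⁻¹ := ⟨_, rfl⟩
  have hr0 : 0 < r := by rw [hr]; positivity
  have hr1 : 1 ≤ r := by
    rw [hr]
    refine (one_le_inv₀ (by positivity)).2 ?_
    exact pow_le_one₀ hth0.le (by linarith)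
  have hrt : th ^ 2 * r = 1 := by rw [hr]; field_simp
  have hl3 : (lam ^ (1 / 3 : ℝ)) ^ 3 = lam := by
    rw [← Real.rpow_natCast, ← Real.rpow_mul hlam0.le]
    norm_num
  have hp3 : 0 < lam ^ (1 / 3 : ℝ) := Real.rpow_pos_of_pos hlam0 _
  have hthl : 1 ≤ th * lam ^ (1 / 3 : ℝ) := by
    have h1 := mul_le_mul_of_nonneg_right hth1 hp3.le
    rw [← Real.rpow_add hlam0] at h1
    norm_num at h1
    norm_num
    exact h1
  have hth3 : 1 ≤ th ^ 3 * lam := by
    have h1 : (th * lam ^ (1 / 3 : ℝ)) ^ 3 = th ^ 3 * lam := by rw [mul_pow, hl3]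
    rw [← h1]
    exact one_le_pow₀ hthl
  have hth2l : 1 ≤ th ^ 2 * lam := by
    refine hth3.trans ?_
    apply mul_le_mul_of_nonneg_right _ hlam0.le
    calc th ^ 3 = th ^ 2 * th := by ring
      _ ≤ th ^ 2 * 1 := mul_le_mul_of_nonneg_left (by linarith) (by positivity)
      _ = th ^ 2 := by ring
  have hX : th * r ^ 2 / lam ≤ 1 := by
    have h1 : th * r ^ 2 / lam = (th ^ 3 * lam)⁻¹ := by
      rw [hr]
      field_simp
    rw [h1]
    exact inv_le_one_of_one_le₀ hth3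
  have hr3 : r ^ 3 ≤ lam ^ 2 := by
    have h1 : 1 ≤ (th * lam ^ (1 / 3 : ℝ)) ^ 6 := one_le_pow₀ hthl
    have h2 : (th * lam ^ (1 / 3 : ℝ)) ^ 6 = th ^ 6 * lam ^ 2 := by
      rw [mul_pow]
      congr 1
      calc (lam ^ (1 / 3 : ℝ)) ^ 6 = ((lam ^ (1 / 3 : ℝ)) ^ 3) ^ 2 := by ring
        _ = lam ^ 2 := by rw [hl3]
    rw [h2] at h1
    rw [hr, inv_pow, inv_le_iff_one_le_mul₀ (by positivity)]
    calc (1 : ℝ) ≤ th ^ 6 * lam ^ 2 := h1
      _ = lam ^ 2 * (th ^ 2) ^ 3 := by ring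
  have hwT : 1 ≤ 1 * lam / r := by
    have h1 : 1 * lam / r = th ^ 2 * lam := by
      rw [hr]
      field_simp
    rw [h1]
    exact hth2l
  -- the direction
  obtain ⟨om, hom⟩ : ∃ om, om = lam⁻¹ • n0 := ⟨_, rfl⟩
  have hom1 : ‖om‖ = 1 := by
    rw [hom, norm_smul, norm_inv, Real.norm_of_nonneg hlam0.le, hn0, inv_mul_cancel₀ hlam0.ne']
  have hn0' : lam • om = n0 := by
    rw [hom, smul_smul, mul_inv_cancel₀ hlam0.ne', one_smul]
  have hsn : ∀ q, sn ch n0 q = lam * inner ℝ (ch.nu - ch.J q) om := by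
    intro q
    rw [sn, ← hn0', inner_smul_left, real_inner_comm]
    simp
  have hs' : ∀ j ∈ s, ‖Lt.fr j‖ = lam ∧ ‖Lt.fr j - lam • om‖ ≤ r := by
    intro j hj
    rw [hn0', hr]
    exact hs j hj
  have hreg : ∀ q, |sn ch n0 q| ≤ 5 * th * lam → |inner ℝ (ch.nu - ch.J q) om| ≤ 5 * th := by
    intro q hq
    rw [hsn, abs_mul, abs_of_pos hlam0] at hq
    have : lam * |inner ℝ (ch.nu - ch.J q) om| ≤ lam * (5 * th) := by linarith
    exact le_of_mul_le_mul_left this hlam0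
  rcases exists_slice ch hc.R_pos hc.R_le om hom1 th hth20 with hemp | ⟨e, L, sg0, hsl, hsg0, hsl2⟩
  · have h1 : {q : EE (m + 1) | ‖q‖ ≤ 2 * dl (m + 1) R ∧ |sn ch n0 q| ≤ 5 * th * lam} = ∅ := by
      ext q
      simp only [Set.mem_ofPred_eq, Set.mem_empty_iff_false, iff_false, not_and, not_le]
      intro hq
      rw [hsn, abs_mul, abs_of_pos hlam0]
      have := hemp q hq
      nlinarith
    rw [h1, Measure.restrict_empty, integral_zero_measure]
    positivity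
  have hsub : {q : EE (m + 1) | ‖q‖ ≤ 2 * dl (m + 1) R ∧
      |inner ℝ e q - sg0| ≤ 10 * th ∧ q ∈ Set.univ} ⊆ Metric.closedBall 0 (2 * dl (m + 1) R) := by
    intro q hq
    rw [mem_closedBall_zero_iff]
    exact hq.1
  have hdm' : ∀ q q', ‖q‖ ≤ 2 * dl (m + 1) R → ‖q'‖ ≤ 2 * dl (m + 1) R →
      ‖ch.X q - ch.X q'‖ ≤ 1 / 8 := by
    intro q q' hq hq'
    have h1 := dl_le (m + 1) hc.R_pos
    have h2 := hc.R_pos
    refine (hdm q q' (by linarith) (by linarith)).trans ?_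
    apply div_le_div_of_nonneg_left (by norm_num) (by norm_num)
    linarith
  have hCH : CH ch Lt om e sg0 (10 * th) Set.univ lam r 1 (1 * lam / r) (2 * C1) 0 := by
    intro sg sg' q hsg hsg' _ hq hqe t w' htA ht1 ht3 hw' hw1 Z hZ
    have hA0 : 0 < 1 / A := by positivity
    have ht0 : 0 ≤ t := by linarith
    have hw0 : 0 ≤ w' := le_trans (by positivity) hw'
    have h2 := hCT Lt om (2 * t) Z hom1 (by linarith) (fun z hz => ?_)
    · calc (Z.card : ℝ) ≤ C1 * (2 * t) := h2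
        _ = t * (2 * C1 + 0 * w') := by ring
    · obtain ⟨-, hb, q', -, hq', -, hpq⟩ := hZ z hz
      refine ⟨hb, ?_⟩
      refine (pq_le om _ _ hom1 hw0 hpq (hdm' q q' hq hq')).trans ?_
      apply pow_le_pow_left₀ (by positivity)
      linarith
  have h3 := hPP ch hdm Lt om e L hsl lam r th 1 sg0 (2 * C1) 0 Set.univ hlam hr1 hr3
    hth0 hrt.le one_pos le_rfl hwT (by positivity) le_rfl MeasurableSet.univ hCH s a hs'
  have h4 : ∫ q in {q : EE (m + 1) | ‖q‖ ≤ 2 * dl (m + 1) R ∧ |sn ch n0 q| ≤ 5 * th * lam},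
      ‖es Lt s a (ch.X q)‖ ^ 2 ≤
      ∫ q in {q : EE (m + 1) | ‖q‖ ≤ 2 * dl (m + 1) R ∧ |inner ℝ e q - sg0| ≤ 10 * th ∧
        q ∈ Set.univ}, ‖es Lt s a (ch.X q)‖ ^ 2 := by
    apply setIntegral_mono_set (int_on ch Lt s a _ hsub)
    · exact Filter.Eventually.of_forall fun q => by positivity
    · apply LE.le.eventuallyLE
      intro q hq
      exact ⟨hq.1, hsl2 q (hreg q hq.2), trivial⟩
  refine h4.trans (h3.trans ?_)
  apply mul_le_mul_of_nonneg_right _ hsum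
  have h5 : th * r ^ 2 / (1 * lam) + th / 1 + 1 + (Real.sqrt 1)⁻¹ * (2 * C1 + 0 * 1) ≤ 3 + 2 * C1 := by
    rw [Real.sqrt_one, one_mul]
    linarith
  have h6 := mul_le_mul_of_nonneg_left h5 hC0.le
  linarith

end Pool.Agent.Lib.MP_a8dae7_an.UN.B0M
end
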