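import Pool.Agent.Lib.MP_a8dae7_an.UN.SpecO
import Pool.Agent.Lib.MP_a8dae7_an.CV.CT

/-!
# MP_a8dae7_an, UN: the cutoffs (SpecCTU) (helper29)
-/

set_option autoImplicit false

open MeasureTheory
open scoped ContDiff Topology

namespace Pool.Agent.Lib.MP_a8dae7_an.UN.CTUM

open Pool.Agent.Lib.MP_a8dae7_an.CV (EE BD)

theorem st_zero {s : ℝ} (h : s ≤ 0) : Real.smoothTransition s = 0 :=
  Real.smoothTransition.zero_of_nonpos h

theorem st_one {s : ℝ} (h : 1 ≤ s) : Real.smoothTransition s = 1 :=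
  Real.smoothTransition.one_of_one_le h

theorem psi0_smooth : ContDiff ℝ ∞ psi0 :=
  (contDiff_const.sub (Real.smoothTransition.contDiff.comp (contDiff_id.sub contDiff_const))).sub
    (Real.smoothTransition.contDiff.comp (contDiff_neg.sub contDiff_const))

theorem phP_smooth : ContDiff ℝ ∞ phP :=
  (Real.smoothTransition.contDiff.comp ((contDiff_const.mul contDiff_id).sub contDiff_const)).sub
    (Real.smoothTransition.contDiff.comp (contDiff_id.sub contDiff_const))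

theorem psi0_mem (s : ℝ) : 0 ≤ psi0 s ∧ psi0 s ≤ 1 := by
  have h1 := Real.smoothTransition.nonneg (s - 1)
  have h2 := Real.smoothTransition.le_one (s - 1)
  have h3 := Real.smoothTransition.nonneg (-s - 1)
  have h4 := Real.smoothTransition.le_one (-s - 1)
  rw [psi0]
  rcases le_total s 0 with h | h
  · rw [st_zero (s := s - 1) (by linarith)]
    constructor <;> linarith
  · rw [st_zero (s := -s - 1) (by linarith)]
    constructor <;> linarith

theorem phP_mem (s : ℝ) : 0 ≤ phP s ∧ phP s ≤ 1 := by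
  rw [phP]
  have h1 := Real.smoothTransition.nonneg (s - 1)
  have h2 := Real.smoothTransition.le_one (2 * s - 1)
  refine ⟨?_, by linarith⟩
  rcases le_total s 0 with h | h
  · rw [st_zero (s := s - 1) (by linarith), st_zero (s := 2 * s - 1) (by linarith)]
    norm_num
  · have h3 := Real.smoothTransition.monotone (show s - 1 ≤ 2 * s - 1 by linarith)
    linarith

theorem psi0_zero {s : ℝ} (h : s ≤ -2 ∨ 2 ≤ s) : psi0 s = 0 := by
  rw [psi0]
  rcases h with h | h
  · rw [st_zero (s := s - 1) (by linarith), st_one (s := -s - 1) (by linarith)]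
    norm_num
  · rw [st_one (s := s - 1) (by linarith), st_zero (s := -s - 1) (by linarith)]
    norm_num

theorem phP_zero {s : ℝ} (h : s ≤ 1 / 2 ∨ 2 ≤ s) : phP s = 0 := by
  rw [phP]
  rcases h with h | h
  · rw [st_zero (s := s - 1) (by linarith), st_zero (s := 2 * s - 1) (by linarith)]
    norm_num
  · rw [st_one (s := s - 1) (by linarith), st_one (s := 2 * s - 1) (by linarith)]
    norm_num

theorem bd_psi0 : BD psi0 :=
  CV.CTM.bd_of psi0_smooth (a := -2) (b := 2) (fun _ hs => psi0_zero (Or.inl hs.le))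
    fun _ hs => psi0_zero (Or.inr hs.le)

theorem bd_phP : BD phP :=
  CV.CTM.bd_of phP_smooth (a := 1 / 2) (b := 2) (fun _ hs => phP_zero (Or.inl hs.le))
    fun _ hs => phP_zero (Or.inr hs.le)

/-! ### The partition of unity -/

theorem phP_scale (s : ℝ) (i : ℕ) : phP (s / 2 ^ (i + 1)) =
    Real.smoothTransition (s / 2 ^ i - 1) - Real.smoothTransition (s / 2 ^ (i + 1) - 1) := by
  rw [phP]
  congr 2
  rw [pow_succ]
  field_simp

theorem sum_phP (s : ℝ) (I : ℕ) : ∑ i ∈ Finset.range I, phP (s / 2 ^ (i + 1)) =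
    Real.smoothTransition (s - 1) - Real.smoothTransition (s / 2 ^ I - 1) := by
  induction I with
  | zero => simp
  | succ I ih =>
    rw [Finset.sum_range_succ, ih, phP_scale]
    ring

theorem partition (I : ℕ) (s : ℝ) (hs : |s| ≤ 2 ^ I) :
    psi0 s + ∑ i ∈ Finset.range I, (phP (s / 2 ^ (i + 1)) + phP (-(s / 2 ^ (i + 1)))) = 1 := by
  have h2 : (0 : ℝ) < 2 ^ I := by positivity
  have h3 := abs_le.1 hs
  have e1 : Real.smoothTransition (s / 2 ^ I - 1) = 0 := by
    apply st_zero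
    have : s / 2 ^ I ≤ 1 := by
      rw [div_le_one h2]
      exact h3.2
    linarith
  have e2 : Real.smoothTransition (-s / 2 ^ I - 1) = 0 := by
    apply st_zero
    have : -s / 2 ^ I ≤ 1 := by
      rw [div_le_one h2]
      linarith [h3.1]
    linarith
  have e3 : ∀ i : ℕ, -(s / 2 ^ (i + 1)) = -s / 2 ^ (i + 1) := fun i => (neg_div _ _).symm
  rw [Finset.sum_add_distrib, sum_phP, e1]
  simp only [e3]
  rw [sum_phP, e2, psi0]
  ring

/-! ### The corners -/

theorem Nb_norm {k : ℕ} {lam : ℝ} (hlam : 1 ≤ lam) (n : EE (k + 1)) (hn : ‖n‖ = lam) :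
    ‖Nb lam n‖ ≤ 2 * lam := by
  have hk : (0 : ℝ) < k + 1 := by positivity
  have hl : 0 < lam ^ (2 / 3 : ℝ) := Real.rpow_pos_of_pos (by linarith) _
  have hl1 : lam ^ (2 / 3 : ℝ) ≤ lam := by
    have := Real.rpow_le_rpow_of_exponent_le hlam (show (2 / 3 : ℝ) ≤ 1 by norm_num)
    rwa [Real.rpow_one] at this
  set h : ℝ := lam ^ (2 / 3 : ℝ) / (64 * (k + 1)) with hh
  have hpos : 0 < h := by positivity
  have hk1 : (k + 1) * h = lam ^ (2 / 3 : ℝ) / 64 := by
    rw [hh]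
    field_simp
  have hco : ∀ i, ‖(n - Nb lam n) i‖ ≤ h := by
    intro i
    have e : (n - Nb lam n) i = n i - h * (⌊n i / h⌋ : ℝ) := rfl
    rw [e, Real.norm_eq_abs, abs_le]
    have h1 := Int.floor_le (n i / h)
    have h2 := Int.lt_floor_add_one (n i / h)
    rw [le_div_iff₀ hpos] at h1
    rw [div_lt_iff₀ hpos] at h2
    constructor <;> nlinarith
  have hd : ‖n - Nb lam n‖ ≤ lam := by
    have h1 : ‖n - Nb lam n‖ ≤ (k + 1) * h := by
      rw [EuclideanSpace.norm_eq, Real.sqrt_le_iff]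
      refine ⟨by positivity, ?_⟩
      calc ∑ i, ‖(n - Nb lam n) i‖ ^ 2 ≤ ∑ _i : Fin (k + 1), h ^ 2 :=
            Finset.sum_le_sum fun i _ => pow_le_pow_left₀ (norm_nonneg _) (hco i) 2
        _ = (k + 1) * h ^ 2 := by
            rw [Finset.sum_const, Finset.card_univ, Fintype.card_fin, nsmul_eq_mul]
            push_cast
            ring
        _ ≤ ((k + 1) * h) ^ 2 := by
            have : (1 : ℝ) ≤ k + 1 := by linarith [(Nat.cast_nonneg k : (0 : ℝ) ≤ k)]
            rw [mul_pow]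
            have h3 : ((k : ℝ) + 1) ≤ (k + 1) ^ 2 := by nlinarith
            exact mul_le_mul_of_nonneg_right h3 (by positivity)
    rw [hk1] at h1
    linarith
  calc ‖Nb lam n‖ = ‖n - (n - Nb lam n)‖ := by rw [sub_sub_cancel]
    _ ≤ ‖n‖ + ‖n - Nb lam n‖ := norm_sub_le _ _
    _ ≤ 2 * lam := by rw [hn]; linarith

/-! ### The amplitudes -/

variable {k : ℕ} {c R : ℝ} {M : ℕ → ℝ}

/-- the linear part of `a * sn ch N` -/
noncomputable def lin (ch : UChart k c R M) (N : EE (k + 1)) (a : ℝ) : EE k →L[ℝ] ℝ :=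
  (-a) • ((innerSL ℝ N).comp ch.J.toContinuousLinearMap)

theorem sn_eq (ch : UChart k c R M) (N : EE (k + 1)) (a : ℝ) (q : EE k) :
    a * sn ch N q = lin ch N a q + a * inner ℝ N ch.nu := by
  have h1 : lin ch N a q = -a * inner ℝ N (ch.J q) := rfl
  rw [h1, sn, inner_sub_right]
  ring

theorem lin_norm (ch : UChart k c R M) (N : EE (k + 1)) (a : ℝ) : ‖lin ch N a‖ ≤ |a| * ‖N‖ := by
  refine ContinuousLinearMap.opNorm_le_bound _ (by positivity) fun q => ?_
  have h1 : lin ch N a q = -a * inner ℝ N (ch.J q) := rfl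
  rw [h1, norm_mul, norm_neg, Real.norm_eq_abs]
  have h2 : ‖(inner ℝ N (ch.J q) : ℝ)‖ ≤ ‖N‖ * ‖q‖ := by
    refine (norm_inner_le_norm N (ch.J q)).trans ?_
    rw [ch.J.norm_map]
  calc |a| * ‖(inner ℝ N (ch.J q) : ℝ)‖ ≤ |a| * (‖N‖ * ‖q‖) :=
        mul_le_mul_of_nonneg_left h2 (abs_nonneg _)
    _ = |a| * ‖N‖ * ‖q‖ := by ring

theorem am_eq (ch : UChart k c R M) (f : ℝ → ℝ) (sg lam th : ℝ) (n : EE (k + 1)) :
    (am ch f sg lam th n) = fun q => f (lin ch (Nb lam n) (sg / (lam * th)) q +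
      sg / (lam * th) * inner ℝ (Nb lam n) ch.nu) := by
  funext q
  rw [am, ← sn_eq]
  congr 1
  ring

theorem am_smooth (ch : UChart k c R M) {f : ℝ → ℝ} (hf : ContDiff ℝ ∞ f) (sg lam th : ℝ)
    (n : EE (k + 1)) : ContDiff ℝ ∞ (am ch f sg lam th n) := by
  rw [am_eq]
  exact hf.comp ((lin ch (Nb lam n) (sg / (lam * th))).contDiff.add contDiff_const)

theorem am_bound (ch : UChart k c R M) {f : ℝ → ℝ} (hf : ContDiff ℝ ∞ f) {Mf : ℕ → ℝ}
    (hM : ∀ j s, ‖iteratedFDeriv ℝ j f s‖ ≤ Mf j) {sg lam th : ℝ} (hlam : 1 ≤ lam) (hth : 0 < th)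
    (hsg : sg = 1 ∨ sg = -1) (n : EE (k + 1)) (hn : ‖n‖ = lam) (j : ℕ) (q : EE k) :
    ‖iteratedFDeriv ℝ j (am ch f sg lam th n) q‖ ≤ Mf j * 2 ^ j * (1 / th) ^ j := by
  rw [am_eq]
  refine (CV.CTM.comp_aff hf _ _ j q).trans ?_
  have hlam0 : 0 < lam := by linarith
  have h1 : ‖lin ch (Nb lam n) (sg / (lam * th))‖ ≤ 2 * (1 / th) := by
    refine (lin_norm ch _ _).trans ?_
    have h2 : |sg / (lam * th)| = 1 / (lam * th) := by
      rw [abs_div, abs_of_pos (mul_pos hlam0 hth)]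
      rcases hsg with rfl | rfl <;> norm_num
    rw [h2]
    calc 1 / (lam * th) * ‖Nb lam n‖ ≤ 1 / (lam * th) * (2 * lam) :=
          mul_le_mul_of_nonneg_left (Nb_norm hlam n hn) (by positivity)
      _ = 2 * (1 / th) := by field_simp
  have h0 : 0 ≤ Mf j := (norm_nonneg _).trans (hM j 0)
  calc ‖iteratedFDeriv ℝ j f _‖ * ‖lin ch (Nb lam n) (sg / (lam * th))‖ ^ j
      ≤ Mf j * (2 * (1 / th)) ^ j :=
        mul_le_mul (hM _ _) (pow_le_pow_left₀ (norm_nonneg _) h1 j) (by positivity) h0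
    _ = Mf j * 2 ^ j * (1 / th) ^ j := by rw [mul_pow]; ring

theorem prod_bound (hc : Cls c R M) : ∃ Ac : ℕ → ℝ, ∀ (ch : UChart k c R M) (f : ℝ → ℝ)
    (lam th sg : ℝ) (n n' : EE (k + 1)), (f = phP ∨ f = psi0) → 1 ≤ lam → 0 < th → th ≤ 4 →
    (sg = 1 ∨ sg = -1) → ‖n‖ = lam → ‖n'‖ = lam →
    ContDiff ℝ ∞ (fun q => cutq k hc.R_pos q * (am ch f sg lam th n q * am ch f sg lam th n' q)) ∧
    ∀ (j : ℕ) (q : EE k), ‖iteratedFDeriv ℝ j (fun q => cutq k hc.R_pos q *
      (am ch f sg lam th n q * am ch f sg lam th n' q)) q‖ ≤ Ac j * (1 / th) ^ j := by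
  choose M1 hM1 using bd_phP.2
  choose M2 hM2 using bd_psi0.2
  set Mf : ℕ → ℝ := fun j => max (M1 j) (M2 j) * 2 ^ j with hMf
  have hMf0 : ∀ j, 0 ≤ Mf j := fun j =>
    mul_nonneg (((norm_nonneg _).trans (hM1 j 0)).trans (le_max_left _ _)) (by positivity)
  have hchi : ContDiff ℝ ∞ (cutq k hc.R_pos : EE k → ℝ) := (cutq k hc.R_pos).contDiff
  have hcs : HasCompactSupport (cutq k hc.R_pos : EE k → ℝ) := (cutq k hc.R_pos).hasCompactSupport
  have hchi' : ∀ j : ℕ, ∃ C : ℝ, ∀ q, ‖iteratedFDeriv ℝ j (cutq k hc.R_pos : EE k → ℝ) q‖ ≤ C :=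
    fun j => (hcs.iteratedFDeriv j).exists_bound_of_continuous
      (hchi.continuous_iteratedFDeriv (by exact_mod_cast le_top))
  choose Mc hMc using hchi'
  have hMc0 : ∀ j, 0 ≤ Mc j := fun j => (norm_nonneg _).trans (hMc j 0)
  set N : ℕ → ℝ := fun j => ∑ i ∈ Finset.range (j + 1), (j.choose i : ℝ) * Mf i * Mf (j - i)
    with hN
  refine ⟨fun j => ∑ i ∈ Finset.range (j + 1), (j.choose i : ℝ) * (Mc i * 4 ^ i) * N (j - i), ?_⟩
  intro ch f lam th sg n n' hf hlam hth hth4 hsg hn hn'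
  have hfs : ContDiff ℝ ∞ f := by
    rcases hf with rfl | rfl
    · exact phP_smooth
    · exact psi0_smooth
  have hfb : ∀ j s, ‖iteratedFDeriv ℝ j f s‖ ≤ max (M1 j) (M2 j) := by
    intro j s
    rcases hf with rfl | rfl
    · exact (hM1 j s).trans (le_max_left _ _)
    · exact (hM2 j s).trans (le_max_right _ _)
  have hF := am_smooth ch hfs sg lam th n
  have hG := am_smooth ch hfs sg lam th n'
  refine ⟨hchi.mul (hF.mul hG), fun j q => ?_⟩
  have ht : (0 : ℝ) ≤ 1 / th := by positivity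
  have h4 : (1 : ℝ) ≤ 4 * (1 / th) := by
    rw [mul_one_div, le_div_iff₀ hth]
    linarith
  refine CV.CTM.mul_bound hchi (hF.mul hG) (M := fun j => Mc j * 4 ^ j) (N := N) ht
    (fun j => mul_nonneg (hMc0 j) (by positivity)) (fun i q => ?_) (fun i q => ?_) j q
  · calc ‖iteratedFDeriv ℝ i (cutq k hc.R_pos : EE k → ℝ) q‖ ≤ Mc i * 1 := by
          rw [mul_one]
          exact hMc i q
      _ ≤ Mc i * (4 * (1 / th)) ^ i := mul_le_mul_of_nonneg_left (one_le_pow₀ h4) (hMc0 i)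
      _ = Mc i * 4 ^ i * (1 / th) ^ i := by
          rw [mul_pow]
          ring
  · exact CV.CTM.mul_bound hF hG ht hMf0 (am_bound ch hfs hfb hlam hth hsg n hn)
      (am_bound ch hfs hfb hlam hth hsg n' hn') i q

theorem specCTU : SpecCTU := by
  refine ⟨fun s => ⟨(psi0_mem s).1, (psi0_mem s).2, (phP_mem s).1, (phP_mem s).2⟩, ?_, ?_,
    partition, fun k c R M hc => prod_bound hc⟩
  · intro s hs
    by_contra h
    rw [not_lt, le_abs] at h
    apply hs
    rcases h with h | h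
    · exact psi0_zero (Or.inr h)
    · exact psi0_zero (Or.inl (by linarith))
  · intro s hs
    constructor
    · by_contra h
      exact hs (phP_zero (Or.inl (not_lt.1 h)))
    · by_contra h
      exact hs (phP_zero (Or.inr (not_lt.1 h)))

end Pool.Agent.Lib.MP_a8dae7_an.UN.CTUM
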