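import Pool.Agent.Lib.MP_a8dae7_an.UN.Defs
import Pool.Agent.Lib.MP_a8dae7_an.CV.Spec

/-!
# MP_a8dae7_an, UN, UNIFORM+: rational cylinders over positively curved hypersurfaces (helper37). Definitions and Specs

THEOREM. `Sg ⊆ ℝ^d` compact, near every point contained in a rational cylinder over a positively curved hypersurface:
`x = p + J y + g(y) nu + v`, `v ⊥ J, nu`, `range J + ℝ nu` spanned by integer vectors. Then `∫_Sg |u|² ≤ C(Sg) ‖u‖²`.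

PROOF. `d = n0 + 1`, `n0 = k + j`. `I : ℝ^(k+1) → ℝ^d` isometry onto `range J + ℝ nu`, `W : ℝ^j → ℝ^d` isometry onto the complement `V`.
Near `p`: `x = p + I X(q) + W v`, `X` a uchart. `n·x = n·p + ⟨I^*n, X(q)⟩ + ⟨W^*n, v⟩`. RAT: `I^* n = B (zv (jn n))` for all
`n ∈ ℤ^d`, and `D W W^* n ∈ ℤ^d`, so the values `W^* n` are separated, so (GO) `∫ e^{-|v|²} |∑_n c_n e^{i⟨W^*n,v⟩}|² dv ≤ C ∑_mu |∑_{W^*n = mu} c_n|²`.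
For fixed `mu`, `|I^*n|² = lam² - |mu|²` and `n ↦ I^*n` is injective, so `UU k` for the lattice `B ℤ^(k+1)` bounds
`∫_{‖q‖ ≤ dl} |∑_{W^*n = mu} a_n e^{in·p} e^{i⟨I^*n,X(q)⟩}|² dq` by `C ∑_{W^*n = mu} |a_n|²`. Sum over `mu`; Hausdorff measure by CV.SpecHM.
-/

set_option autoImplicit false

open MeasureTheory
open scoped ContDiff

namespace Pool.Agent.Lib.MP_a8dae7_an.UN.CY

open Pool.Agent.Lib.MP_a8dae7_an.CV (EE zv ex)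

/-- near `p`, `Sg` is contained in a rational cylinder over a positively curved hypersurface of dimension `k` -/
def CylAt (D k : ℕ) (Sg : Set (EE D)) (p : EE D) : Prop :=
  ∃ (b : Fin (k + 1) → (Fin D → ℤ)) (J : EE k →ₗᵢ[ℝ] EE D) (nu : EE D) (g : EE k → ℝ) (rho : ℝ),
    ‖nu‖ = 1 ∧ (∀ v, inner ℝ nu (J v) = 0) ∧
    Submodule.span ℝ (Set.range fun i => zv (b i)) =
      LinearMap.range J.toLinearMap ⊔ Submodule.span ℝ {nu} ∧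
    ContDiff ℝ ∞ g ∧ g 0 = 0 ∧ fderiv ℝ g 0 = 0 ∧
    (∀ v : EE k, v ≠ 0 → 0 < fderiv ℝ (fderiv ℝ g) 0 v v) ∧ 0 < rho ∧
    ∀ x ∈ Sg, ‖x - p‖ < rho → ∃ (y : EE k) (v : EE D), (∀ i, inner ℝ (zv (b i)) v = 0) ∧
      x = p + J y + g y • nu + v

/-- a pair of complementary isometries -/
structure Dec {D k j : ℕ} (I : EE (k + 1) →ₗᵢ[ℝ] EE D) (W : EE j →ₗᵢ[ℝ] EE D) : Prop where
  orth : ∀ x v, inner ℝ (I x) (W v) = 0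
  dec : ∀ y : EE D, I (ContinuousLinearMap.adjoint I.toContinuousLinearMap y) +
    W (ContinuousLinearMap.adjoint W.toContinuousLinearMap y) = y

/-- the splitting of the integer frequencies -/
structure Rat {D k j : ℕ} (I : EE (k + 1) →ₗᵢ[ℝ] EE D) (W : EE j →ₗᵢ[ℝ] EE D) (B : EE (k + 1) ≃L[ℝ] EE (k + 1))
    (jn : (Fin D → ℤ) → (Fin (k + 1) → ℤ)) (N : ℤ) (zn : (Fin D → ℤ) → (Fin D → ℤ)) : Prop where
  N_ne : N ≠ 0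
  hj : ∀ n, B (zv (jn n)) = ContinuousLinearMap.adjoint I.toContinuousLinearMap (zv n)
  hz : ∀ n, (N : ℝ) • W (ContinuousLinearMap.adjoint W.toContinuousLinearMap (zv n)) = zv (zn n)

/-- **CYR** (150). Rationality. `G = (⟨b_i, b_l⟩)` integer Gram matrix, `N = det G ≠ 0` (the `b_i` are independent: they span a space of
dimension `k+1`); `N I I^* n = ∑ (adj(G) (⟨n, b⟩))_i b_i`; `B x = N⁻¹ ∑ x_i I^* b_i`; `jn n = adj(G) (⟨n, b⟩)`, `zn n = N n - ∑ jn_i b_i`. -/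
def SpecCYR : Prop := ∀ (D k j : ℕ) (I : EE (k + 1) →ₗᵢ[ℝ] EE D) (W : EE j →ₗᵢ[ℝ] EE D)
  (b : Fin (k + 1) → (Fin D → ℤ)), Dec I W →
  Submodule.span ℝ (Set.range fun i => zv (b i)) = LinearMap.range I.toLinearMap →
  ∃ (B : EE (k + 1) ≃L[ℝ] EE (k + 1)) (jn : (Fin D → ℤ) → (Fin (k + 1) → ℤ)) (N : ℤ)
    (zn : (Fin D → ℤ) → (Fin D → ℤ)), Rat I W B jn N zn

/-- **CYG** (250). Gaussian orthogonality. `∑_n c_n e^{i n·Wv} = ∑_mu C_mu e^{i⟨mu,v⟩}`, `mu` in the image of `W^*`;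
`∫ e^{-|v|²} e^{i⟨mu-mu',v⟩} dv = π^(j/2) e^{-|mu-mu'|²/4}`; Schur test: `mu' ↦ z = N W mu' ∈ ℤ^D` is injective,
`|mu-mu'| = |z-z'|/|N|`, and `∑_{z ∈ ℤ^D} e^{-|z-z'|²/(4N²)}` is a product of one dimensional sums. -/
def SpecCYG : Prop := ∀ (D k j : ℕ) (I : EE (k + 1) →ₗᵢ[ℝ] EE D) (W : EE j →ₗᵢ[ℝ] EE D)
  (B : EE (k + 1) ≃L[ℝ] EE (k + 1)) (jn : (Fin D → ℤ) → (Fin (k + 1) → ℤ)) (N : ℤ)
  (zn : (Fin D → ℤ) → (Fin D → ℤ)), Rat I W B jn N zn → ∃ C : ℝ, 0 < C ∧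
  ∀ (s : Finset (Fin D → ℤ)) (a : (Fin D → ℤ) → ℂ),
    ∫ v : EE j, Real.exp (-‖v‖ ^ 2) * ‖∑ n ∈ s, a n * ex (zv n) (W v)‖ ^ 2 ≤
    C * ∑ z ∈ s.image zn, ‖∑ n ∈ s with zn n = z, a n‖ ^ 2

/-- **CYC** (250), from CV/IFa (`exists_param` for the graph `{J0 y + g(y) nu0}` in `EE (k+1)`, `I (J0 y + t nu0) = J y + t nu`). The chart.
`j = n0 - k`; `W`: an orthonormal basis of the complement of `range J ⊔ span {nu}`. `R`, `rho` small as in UN/IF (there `A = 1`). -/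
def SpecCYC : Prop := ∀ (n0 k : ℕ) (Sg : Set (EE (n0 + 1))) (p : EE (n0 + 1)), CylAt (n0 + 1) k Sg p →
  ∃ (j : ℕ) (I : EE (k + 1) →ₗᵢ[ℝ] EE (n0 + 1)) (W : EE j →ₗᵢ[ℝ] EE (n0 + 1))
    (b : Fin (k + 1) → (Fin (n0 + 1) → ℤ)), k + j = n0 ∧ Dec I W ∧
  Submodule.span ℝ (Set.range fun i => zv (b i)) = LinearMap.range I.toLinearMap ∧
  ∀ A : ℝ, 1 ≤ A → ∃ (c R : ℝ) (M : ℕ → ℝ) (ch : UChart k c R M) (rho : ℝ), Cls c R M ∧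
    Dm ch (1 / (8 * (k + 1).factorial * A)) ∧ 0 < rho ∧
    ∀ x ∈ Sg, ‖x - p‖ < rho → ∃ (q : EE k) (v : EE j), ‖q‖ ≤ dl k R / 2 ∧ ‖v‖ ≤ dl k R / 2 ∧
      x = p + I (ch.X q) + W v

/-- the piece of the cylinder -/
def Pc {D k j : ℕ} {c R : ℝ} {M : ℕ → ℝ} (I : EE (k + 1) →ₗᵢ[ℝ] EE D) (W : EE j →ₗᵢ[ℝ] EE D) (p : EE D)
    (ch : UChart k c R M) : Set (EE D) :=
  {x | ∃ (q : EE k) (v : EE j), ‖q‖ ≤ dl k R / 2 ∧ ‖v‖ ≤ dl k R / 2 ∧ x = p + I (ch.X q) + W v}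

/-- **CYH** (200), from CV.SpecHM. Hausdorff measure of the piece. `n0 = k + j`; `EE (k+j)` and `WithLp 2 (EE k × EE j)` are isometric
(`stdOrthonormalBasis`), `WithLp.volume_preserving_symm_measurableEquiv_toLp_prod`; `CV.SpecHM` for the smooth map
`t ↦ p + I X(t.1) + W t.2` of `EE n0`, ball of radius `dl ≤ 1`. -/
def SpecCYH : Prop := ∀ (n0 k j : ℕ) (c R : ℝ) (M : ℕ → ℝ) (I : EE (k + 1) →ₗᵢ[ℝ] EE (n0 + 1))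
  (W : EE j →ₗᵢ[ℝ] EE (n0 + 1)) (p : EE (n0 + 1)) (ch : UChart k c R M), k + j = n0 → Cls c R M → ∃ C : ℝ, 0 < C ∧
  ∀ F : EE (n0 + 1) → ENNReal, Measurable F →
    ∫⁻ x in Pc I W p ch, F x ∂(Measure.hausdorffMeasure (n0 : ℝ)) ≤
    ENNReal.ofReal C * ∫⁻ q in Metric.closedBall (0 : EE k) (dl k R), ∫⁻ v in Metric.closedBall (0 : EE j) 1,
      F (p + I (ch.X q) + W v)

/-- **CYE** (250), from CYG, CYH, `UU k` (hypothesis `∀ k, UU k`). The estimate on one piece: `e^{-|v|²} ≥ e^{-1}` on `‖v‖ ≤ 1`; for fixed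
`q` CYG with `a_n e^{in·p} e^{i⟨I^*n, X q⟩}`; for fixed `z`, `UU k` with `Lt = ⟨B, 0⟩`, the finset `(s.filter (zn · = z)).image jn`
(`jn` is injective there: `n = I I^*n + W W^*n`), `‖I^*n‖² = lam² - ‖W^*n‖²` constant. -/
def SpecCYE : Prop := ∀ (n0 k j : ℕ) (c R A : ℝ) (M : ℕ → ℝ) (I : EE (k + 1) →ₗᵢ[ℝ] EE (n0 + 1))
  (W : EE j →ₗᵢ[ℝ] EE (n0 + 1)) (p : EE (n0 + 1)) (ch : UChart k c R M) (B : EE (k + 1) ≃L[ℝ] EE (k + 1))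
  (jn : (Fin (n0 + 1) → ℤ) → (Fin (k + 1) → ℤ)) (N : ℤ) (zn : (Fin (n0 + 1) → ℤ) → (Fin (n0 + 1) → ℤ)),
  k + j = n0 → Dec I W → Rat I W B jn N zn → 1 ≤ A → ‖(B : EE (k + 1) →L[ℝ] EE (k + 1))‖ ≤ A →
  ‖(B.symm : EE (k + 1) →L[ℝ] EE (k + 1))‖ ≤ A → Cls c R M → Dm ch (1 / (8 * (k + 1).factorial * A)) →
  ∃ C : ℝ, 0 < C ∧ ∀ (lam : ℝ) (s : Finset (Fin (n0 + 1) → ℤ)) (a : (Fin (n0 + 1) → ℤ) → ℂ), 0 ≤ lam →
    (∀ n ∈ s, ‖zv n‖ = lam) →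
    ∫⁻ x in Pc I W p ch, ENNReal.ofReal (‖CV.es s a x‖ ^ 2) ∂(Measure.hausdorffMeasure (n0 : ℝ)) ≤
      ENNReal.ofReal (C * ∑ n ∈ s, ‖a n‖ ^ 2)

/-- **CYF** (150), from CYR, CYC, CYE. The final theorem (`d = n0 + 1`). -/
def SpecCYF : Prop := ∀ (n0 : ℕ) (Sg : Set (EE (n0 + 1))), IsCompact Sg → (∀ p ∈ Sg, ∃ k, CylAt (n0 + 1) k Sg p) →
  ∃ C : ℝ, 0 < C ∧ ∀ (lam : ℝ) (s : Finset (Fin (n0 + 1) → ℤ)) (a : (Fin (n0 + 1) → ℤ) → ℂ), 0 ≤ lam →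
  (∀ n ∈ s, ‖zv n‖ = lam) →
  ∫⁻ x in Sg, ENNReal.ofReal (‖CV.es s a x‖ ^ 2) ∂(Measure.hausdorffMeasure (n0 : ℝ)) ≤
    ENNReal.ofReal (C * ∑ n ∈ s, ‖a n‖ ^ 2)

end Pool.Agent.Lib.MP_a8dae7_an.UN.CY
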