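import Pool.Agent.Lib.MP_a8dae7_an.UN.SpecB
import Pool.Agent.Lib.MP_a8dae7_an.CV.IFa
import Pool.Agent.Lib.MP_a8dae7_an.UN.CYSpec

section
/-!
# MP_a8dae7_an, UN, module IF: a positively curved set is covered by small charts
-/
set_option autoImplicit false

open MeasureTheory
open scoped ContDiff

namespace Pool.Agent.Lib.MP_a8dae7_an.UN.IFM

open Pool.Agent.Lib.MP_a8dae7_an.CV (EE PosAt)

/-- the derivatives of a smooth map are bounded on a ball -/
theorem exists_bounds {k : ℕ} {X : EE k → EE (k + 1)} (hX : ContDiff ℝ ∞ X) (r : ℝ) :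
    ∃ M : ℕ → ℝ, (∀ j, 0 ≤ M j) ∧ ∀ j q, ‖q‖ ≤ r → ‖iteratedFDeriv ℝ j X q‖ ≤ M j := by
  have h1 : ∀ j : ℕ, ∃ C : ℝ, 0 ≤ C ∧ ∀ q : EE k, ‖q‖ ≤ r → ‖iteratedFDeriv ℝ j X q‖ ≤ C := by
    intro j
    have hc : Continuous (iteratedFDeriv ℝ j X) :=
      hX.continuous_iteratedFDeriv (m := j) (by exact_mod_cast le_top)
    obtain ⟨C, hC⟩ := (isCompact_closedBall (0 : EE k) r).exists_bound_of_continuousOn hc.continuousOn
    refine ⟨max C 0, le_max_right _ _, fun q hq => (hC q ?_).trans (le_max_left _ _)⟩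
    rw [mem_closedBall_zero_iff]
    exact hq
  choose M hM0 hM using h1
  exact ⟨M, hM0, hM⟩

/-- charts of a positively curved set -/
theorem specIF : SpecIF := by
  intro k Sg p _ h
  obtain ⟨X, nu, J, c, r, hX, hnu, hperp, hc, hr, hX₁, hX₂, hcov⟩ := CV.IFM.exists_param h
  obtain ⟨M, hM0, hM⟩ := exists_bounds hX r
  obtain ⟨δ, hδ, hcont⟩ := Metric.continuous_iff.1 hX.continuous 0 (1 / (16 * (k + 1).factorial))
    (by positivity)
  obtain ⟨R, hR⟩ : ∃ R : ℝ, R = min (1 / 16) (min r (min (δ / 2) (c / (4 * (M 2 + 1))))) := ⟨_, rfl⟩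
  have hM2 : 0 ≤ M 2 := hM0 2
  have hR0 : 0 < R := by
    rw [hR]
    exact lt_min (by norm_num) (lt_min hr (lt_min (by positivity) (by positivity)))
  have hR1 : R ≤ 1 / 16 := by rw [hR]; exact min_le_left _ _
  have hR2 : R ≤ r := by rw [hR]; exact (min_le_right _ _).trans (min_le_left _ _)
  have hR3 : R ≤ δ / 2 := by
    rw [hR]; exact (min_le_right _ _).trans ((min_le_right _ _).trans (min_le_left _ _))
  have hR4 : R ≤ c / (4 * (M 2 + 1)) := by
    rw [hR]; exact (min_le_right _ _).trans ((min_le_right _ _).trans (min_le_right _ _))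
  have hcls : Cls c R M := by
    refine ⟨hc, hR0, hR1, ?_⟩
    have h1 : 4 * M 2 * R ≤ 4 * (M 2 + 1) * (c / (4 * (M 2 + 1))) :=
      mul_le_mul (by linarith) hR4 hR0.le (by positivity)
    have h2 : 4 * (M 2 + 1) * (c / (4 * (M 2 + 1))) = c := by field_simp
    linarith
  obtain ⟨ρ, hρ, hρ2⟩ := hcov (dl k R) (by unfold dl; positivity)
  refine ⟨c, R, M,
    { X := X
      nu := nu
      J := J
      smooth := hX
      nu_one := hnu
      nu_perp := hperp
      perp := fun q v hq => hX₁ q v (hq.trans hR2)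
      mono := fun q v hq => hX₂ q v (hq.trans hR2)
      bd := fun j _ q hq => hM j q (hq.trans hR2) }, ρ, hcls, ?_, hρ, hρ2⟩
  intro q q' hq hq'
  have h1 := hcont q (by rw [dist_zero_right]; linarith)
  have h2 := hcont q' (by rw [dist_zero_right]; linarith)
  have h3 := dist_triangle_right (X q) (X q') (X 0)
  show ‖X q - X q'‖ ≤ _
  rw [← dist_eq_norm]
  have h4 : (1 : ℝ) / (16 * (k + 1).factorial) + 1 / (16 * (k + 1).factorial) =
      1 / (8 * (k + 1).factorial) := by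
    field_simp
    norm_num
  linarith

end Pool.Agent.Lib.MP_a8dae7_an.UN.IFM
end

section
/-!
# MP_a8dae7_an, UN, UNIFORM+, module CYC: the chart of a rational cylinder
-/
set_option autoImplicit false

open MeasureTheory
open scoped ContDiff

namespace Pool.Agent.Lib.MP_a8dae7_an.UN.CY

open Pool.Agent.Lib.MP_a8dae7_an.CV (EE zv ex PosAt)

namespace CYCAux

variable {D k : ℕ}

/-- the last coordinates -/
noncomputable def tl (k : ℕ) (x : EE (k + 1)) : EE k := WithLp.toLp 2 fun i => x i.succ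

theorem tl_add (x y : EE (k + 1)) : tl k (x + y) = tl k x + tl k y := rfl

theorem tl_smul (r : ℝ) (x : EE (k + 1)) : tl k (r • x) = r • tl k x := rfl

theorem norm_sq_eq (x : EE (k + 1)) : ‖x‖ ^ 2 = x 0 ^ 2 + ‖tl k x‖ ^ 2 := by
  rw [EuclideanSpace.norm_sq_eq, EuclideanSpace.norm_sq_eq, Fin.sum_univ_succ]
  simp [tl]

/-- the embedding as the last coordinates -/
noncomputable def J0 (k : ℕ) : EE k →ₗᵢ[ℝ] EE (k + 1) where
  toFun y := WithLp.toLp 2 (Fin.cons 0 fun i => y i)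
  map_add' x y := by
    ext i
    refine Fin.cases ?_ (fun i => ?_) i
    · simp
    · simp
  map_smul' r y := by
    ext i
    refine Fin.cases ?_ (fun i => ?_) i
    · simp
    · simp
  norm_map' y := by
    have h1 : ∀ x : EE (k + 1), x 0 = 0 → tl k x = y → ‖x‖ = ‖y‖ := by
      intro x hx hy
      have h2 := norm_sq_eq x
      rw [hx, hy] at h2
      have h3 : ‖x‖ ^ 2 = ‖y‖ ^ 2 := by rw [h2]; ring
      exact (pow_left_inj₀ (norm_nonneg _) (norm_nonneg _) two_ne_zero).1 h3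
    refine h1 _ ?_ ?_
    · simp
    · ext i
      simp [tl]

theorem J0_zero (y : EE k) : J0 k y 0 = 0 := by
  simp [J0]

theorem tl_J0 (y : EE k) : tl k (J0 k y) = y := by
  ext i
  simp [tl, J0]

/-- the first unit vector -/
noncomputable def nu0 (k : ℕ) : EE (k + 1) := EuclideanSpace.single 0 1

theorem nu0_zero (k : ℕ) : nu0 k 0 = 1 := by
  simp [nu0]

theorem tl_nu0 (k : ℕ) : tl k (nu0 k) = 0 := by
  ext i
  simp [tl, nu0]

theorem nu0_J0 (y : EE k) : inner ℝ (nu0 k) (J0 k y) = 0 := by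
  rw [nu0, EuclideanSpace.inner_single_left, J0_zero, mul_zero]

/-- the isometry `J0 y + t nu0 ↦ J y + t nu` -/
noncomputable def ext (J : EE k →ₗᵢ[ℝ] EE D) (nu : EE D) (h1 : ‖nu‖ = 1)
    (h2 : ∀ v, inner ℝ nu (J v) = 0) : EE (k + 1) →ₗᵢ[ℝ] EE D where
  toFun x := J (tl k x) + x 0 • nu
  map_add' x y := by
    rw [tl_add, map_add, PiLp.add_apply, add_smul]
    abel
  map_smul' r x := by
    rw [tl_smul, map_smul, PiLp.smul_apply, smul_eq_mul, mul_smul, RingHom.id_apply, smul_add]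
  norm_map' x := by
    have h3 : ‖J (tl k x) + x 0 • nu‖ ^ 2 = ‖x‖ ^ 2 := by
      rw [norm_add_sq_real, inner_smul_right, real_inner_comm, h2, norm_smul, h1, J.norm_map,
        norm_sq_eq, Real.norm_eq_abs, mul_one, sq_abs]
      ring
    exact (pow_left_inj₀ (norm_nonneg _) (norm_nonneg _) two_ne_zero).1 h3

theorem ext_apply (J : EE k →ₗᵢ[ℝ] EE D) (nu : EE D) (h1 : ‖nu‖ = 1)
    (h2 : ∀ v, inner ℝ nu (J v) = 0) (x : EE (k + 1)) :
    ext J nu h1 h2 x = J (tl k x) + x 0 • nu := rfl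

theorem ext_graph (J : EE k →ₗᵢ[ℝ] EE D) (nu : EE D) (h1 : ‖nu‖ = 1)
    (h2 : ∀ v, inner ℝ nu (J v) = 0) (y : EE k) (t : ℝ) :
    ext J nu h1 h2 (J0 k y + t • nu0 k) = J y + t • nu := by
  rw [ext_apply, tl_add, tl_smul, tl_J0, tl_nu0, smul_zero, add_zero, PiLp.add_apply,
    PiLp.smul_apply, J0_zero, nu0_zero, zero_add, smul_eq_mul, mul_one]

theorem ext_range (J : EE k →ₗᵢ[ℝ] EE D) (nu : EE D) (h1 : ‖nu‖ = 1)
    (h2 : ∀ v, inner ℝ nu (J v) = 0) :
    LinearMap.range (ext J nu h1 h2).toLinearMap =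
      LinearMap.range J.toLinearMap ⊔ Submodule.span ℝ {nu} := by
  refine le_antisymm ?_ (sup_le ?_ ?_)
  · rintro _ ⟨x, rfl⟩
    refine Submodule.add_mem_sup ⟨tl k x, rfl⟩ ?_
    exact Submodule.smul_mem _ _ (Submodule.mem_span_singleton_self nu)
  · rintro _ ⟨y, rfl⟩
    refine ⟨J0 k y, ?_⟩
    have h3 := ext_graph J nu h1 h2 y 0
    rw [zero_smul, add_zero, zero_smul, add_zero] at h3
    exact h3
  · rw [Submodule.span_singleton_le_iff_mem]
    refine ⟨nu0 k, ?_⟩
    have h3 := ext_graph J nu h1 h2 0 1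
    rw [one_smul, map_zero, zero_add, one_smul, map_zero, zero_add] at h3
    exact h3

/-- the complementary isometry -/
theorem exists_compl {n0 : ℕ} (I : EE (k + 1) →ₗᵢ[ℝ] EE (n0 + 1)) :
    ∃ (j : ℕ) (W : EE j →ₗᵢ[ℝ] EE (n0 + 1)), k + j = n0 ∧ Dec I W ∧
      ∀ v : EE (n0 + 1), (∀ x, inner ℝ (I x) v = 0) → ∃ u, W u = v := by
  obtain ⟨V, hV⟩ : ∃ V : Submodule ℝ (EE (n0 + 1)), V = (LinearMap.range I.toLinearMap)ᗮ :=
    ⟨_, rfl⟩
  have hmem : ∀ v, v ∈ V ↔ ∀ x, inner ℝ (I x) v = 0 := by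
    intro v
    rw [hV, Submodule.mem_orthogonal]
    constructor
    · intro h x
      exact h _ ⟨x, rfl⟩
    · rintro h _ ⟨x, rfl⟩
      exact h x
  obtain ⟨W, hW⟩ : ∃ W : EE (Module.finrank ℝ V) →ₗᵢ[ℝ] EE (n0 + 1),
      W = V.subtypeₗᵢ.comp (stdOrthonormalBasis ℝ V).repr.symm.toLinearIsometry := ⟨_, rfl⟩
  have hWV : ∀ u, W u ∈ V := by
    intro u
    rw [hW]
    exact ((stdOrthonormalBasis ℝ V).repr.symm u).2
  have hWs : ∀ v ∈ V, ∃ u, W u = v := by
    intro v hv
    refine ⟨(stdOrthonormalBasis ℝ V).repr ⟨v, hv⟩, ?_⟩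
    rw [hW]
    show (((stdOrthonormalBasis ℝ V).repr.symm ((stdOrthonormalBasis ℝ V).repr ⟨v, hv⟩) : V) :
      EE (n0 + 1)) = v
    rw [LinearIsometryEquiv.symm_apply_apply]
  have horth : ∀ x v, inner ℝ (I x) (W v) = 0 := fun x v => (hmem _).1 (hWV v) x
  refine ⟨Module.finrank ℝ V, W, ?_, ⟨horth, ?_⟩, fun v hv => hWs v ((hmem v).2 hv)⟩
  · have h1 := Submodule.finrank_add_finrank_orthogonal (LinearMap.range I.toLinearMap)
    rw [← hV, LinearMap.finrank_range_of_inj I.injective, finrank_euclideanSpace_fin,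
      finrank_euclideanSpace_fin] at h1
    omega
  · intro y
    obtain ⟨z, hz⟩ : ∃ z, z = y - (I (ContinuousLinearMap.adjoint I.toContinuousLinearMap y) +
      W (ContinuousLinearMap.adjoint W.toContinuousLinearMap y)) := ⟨_, rfl⟩
    have h1 : ∀ x, inner ℝ (I x) z = 0 := by
      intro x
      have e1 : inner ℝ (I x) y = inner ℝ x (ContinuousLinearMap.adjoint I.toContinuousLinearMap y) :=
        (ContinuousLinearMap.adjoint_inner_right I.toContinuousLinearMap x y).symm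
      rw [hz, inner_sub_right, inner_add_right, I.inner_map_map, horth, e1]
      ring
    have h2 : ∀ v, inner ℝ (W v) z = 0 := by
      intro v
      have e1 : inner ℝ (W v) y = inner ℝ v (ContinuousLinearMap.adjoint W.toContinuousLinearMap y) :=
        (ContinuousLinearMap.adjoint_inner_right W.toContinuousLinearMap v y).symm
      have e2 : inner ℝ (W v) (I (ContinuousLinearMap.adjoint I.toContinuousLinearMap y)) = 0 := by
        rw [real_inner_comm]
        exact horth _ _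
      rw [hz, inner_sub_right, inner_add_right, W.inner_map_map, e2, e1]
      ring
    obtain ⟨u, hu⟩ := hWs z ((hmem z).2 h1)
    have h3 : z = 0 := by
      rw [← inner_self_eq_zero (𝕜 := ℝ)]
      conv_lhs => rw [← hu]
      rw [hu]
      have h4 := h2 u
      rw [hu] at h4
      exact h4
    rw [h3] at hz
    exact (sub_eq_zero.1 hz.symm).symm

end CYCAux

open CYCAux in
theorem specCYC : SpecCYC := by
  intro n0 k Sg p h
  obtain ⟨b, J, nu, g, rho, hnu, hperp, hspan, hg, hg0, hg1, hpos, hrho, hS⟩ := h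
  obtain ⟨I, hI⟩ : ∃ I : EE (k + 1) →ₗᵢ[ℝ] EE (n0 + 1), I = ext J nu hnu hperp := ⟨_, rfl⟩
  have hIg : ∀ (y : EE k) (t : ℝ), I (J0 k y + t • nu0 k) = J y + t • nu := by
    intro y t
    rw [hI]
    exact ext_graph J nu hnu hperp y t
  obtain ⟨j, W, hkj, hDec, hW⟩ := exists_compl I
  have hspan' : Submodule.span ℝ (Set.range fun i => zv (b i)) = LinearMap.range I.toLinearMap := by
    rw [hspan, hI, ext_range]
  refine ⟨j, I, W, b, hkj, hDec, hspan', ?_⟩
  intro A hA
  -- the graph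
  have hPos : PosAt {x : EE (k + 1) | ∃ y : EE k, x = J0 k y + g y • nu0 k} 0 := by
    refine ⟨J0 k, nu0 k, g, 1, ?_, nu0_J0, hg, hg0, hg1, hpos, one_pos, ?_⟩
    · simp [nu0]
    · rintro x ⟨y, hy⟩ _
      exact ⟨y, by rw [zero_add]; exact hy⟩
  obtain ⟨X, nu', J', c, r, hX, hnu', hperp', hc, hr, hX₁, hX₂, hcov⟩ := CV.IFM.exists_param hPos
  obtain ⟨M, hM0, hM⟩ := IFM.exists_bounds hX r
  have hA0 : 0 < A := by linarith
  obtain ⟨δ, hδ, hcont⟩ := Metric.continuous_iff.1 hX.continuous 0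
    (1 / (16 * (k + 1).factorial * A)) (by positivity)
  obtain ⟨R, hR⟩ : ∃ R : ℝ, R = min (1 / 16) (min r (min (δ / 2) (c / (4 * (M 2 + 1))))) := ⟨_, rfl⟩
  have hM2 : 0 ≤ M 2 := hM0 2
  have hR0 : 0 < R := by
    rw [hR]
    exact lt_min (by norm_num) (lt_min hr (lt_min (by positivity) (by positivity)))
  have hR1 : R ≤ 1 / 16 := by rw [hR]; exact min_le_left _ _
  have hR2 : R ≤ r := by rw [hR]; exact (min_le_right _ _).trans (min_le_left _ _)
  have hR3 : R ≤ δ / 2 := by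
    rw [hR]; exact (min_le_right _ _).trans ((min_le_right _ _).trans (min_le_left _ _))
  have hR4 : R ≤ c / (4 * (M 2 + 1)) := by
    rw [hR]; exact (min_le_right _ _).trans ((min_le_right _ _).trans (min_le_right _ _))
  have hcls : Cls c R M := by
    refine ⟨hc, hR0, hR1, ?_⟩
    have h1 : 4 * M 2 * R ≤ 4 * (M 2 + 1) * (c / (4 * (M 2 + 1))) :=
      mul_le_mul (by linarith) hR4 hR0.le (by positivity)
    have h2 : 4 * (M 2 + 1) * (c / (4 * (M 2 + 1))) = c := by field_simp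
    linarith
  have hdl : 0 < dl k R / 2 := by unfold dl; positivity
  obtain ⟨ρ, hρ, hρ2⟩ := hcov (dl k R / 2) hdl
  refine ⟨c, R, M,
    { X := X
      nu := nu'
      J := J'
      smooth := hX
      nu_one := hnu'
      nu_perp := hperp'
      perp := fun q v hq => hX₁ q v (hq.trans hR2)
      mono := fun q v hq => hX₂ q v (hq.trans hR2)
      bd := fun j _ q hq => hM j q (hq.trans hR2) }, min rho (min ρ (dl k R / 2)), hcls, ?_,
    lt_min hrho (lt_min hρ hdl), ?_⟩
  · intro q q' hq hq'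
    have h1 := hcont q (by rw [dist_zero_right]; linarith)
    have h2 := hcont q' (by rw [dist_zero_right]; linarith)
    have h3 := dist_triangle_right (X q) (X q') (X 0)
    show ‖X q - X q'‖ ≤ _
    rw [← dist_eq_norm]
    have h4 : (1 : ℝ) / (16 * (k + 1).factorial * A) + 1 / (16 * (k + 1).factorial * A) =
        1 / (8 * (k + 1).factorial * A) := by
      field_simp
      norm_num
    linarith
  · intro x hx hxp
    obtain ⟨y, v, hv, hxe⟩ := hS x hx (hxp.trans_le (min_le_left _ _))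
    have hvI : ∀ z, inner ℝ (I z) v = 0 := by
      intro z
      have h1 : I z ∈ Submodule.span ℝ (Set.range fun i => zv (b i)) := by
        rw [hspan']
        exact ⟨z, rfl⟩
      have h2 : ∀ w ∈ Submodule.span ℝ (Set.range fun i => zv (b i)), inner ℝ w v = 0 := by
        intro w hw
        induction hw using Submodule.span_induction with
        | mem w hw =>
          obtain ⟨i, rfl⟩ := hw
          exact hv i
        | zero => exact inner_zero_left _
        | add a c _ _ ha hc => rw [inner_add_left, ha, hc, add_zero]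
        | smul r a _ ha => rw [inner_smul_left, ha, mul_zero]
      exact h2 _ h1
    obtain ⟨u, hu⟩ := hW v hvI
    obtain ⟨x₀, hx₀⟩ : ∃ x₀ : EE (k + 1), x₀ = J0 k y + g y • nu0 k := ⟨_, rfl⟩
    have h1 : x - p = I x₀ + W u := by
      rw [hxe, hx₀, hIg, hu]
      abel
    have h2 : ‖x - p‖ ^ 2 = ‖x₀‖ ^ 2 + ‖u‖ ^ 2 := by
      rw [h1, norm_add_sq_real, hDec.orth, I.norm_map, W.norm_map]
      ring
    have h3 : ‖x₀‖ ≤ ‖x - p‖ := by
      refine le_of_sq_le_sq ?_ (norm_nonneg _)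
      rw [h2]
      have := sq_nonneg ‖u‖
      linarith
    have h4 : ‖u‖ ≤ ‖x - p‖ := by
      refine le_of_sq_le_sq ?_ (norm_nonneg _)
      rw [h2]
      have := sq_nonneg ‖x₀‖
      linarith
    obtain ⟨q, hq, hq2⟩ := hρ2 x₀ ⟨y, hx₀⟩ (by
      rw [sub_zero]
      exact h3.trans_lt (hxp.trans_le ((min_le_right _ _).trans (min_le_left _ _))))
    refine ⟨q, u, hq,
      h4.trans (hxp.trans_le ((min_le_right _ _).trans (min_le_right _ _))).le, ?_⟩
    show x = p + I (X q) + W u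
    rw [hq2, add_assoc, ← h1]
    abel

end Pool.Agent.Lib.MP_a8dae7_an.UN.CY
end
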