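import Pool.Agent.Lib.MP_a8dae7_an.UN.CYSpec
import Mathlib.Analysis.SpecialFunctions.Gaussian.FourierTransform
import Mathlib.NumberTheory.ModularForms.JacobiTheta.TwoVariable

section
/-!
# MP_a8dae7_an, UN, module CYE (UNIFORM+): the estimate on one piece of a cylinder
-/
set_option autoImplicit false

open MeasureTheory
open scoped ContDiff ENNReal

namespace Pool.Agent.Lib.MP_a8dae7_an.UN.CYEM

open Pool.Agent.Lib.MP_a8dae7_an.CV (EE zv ex)
open Pool.Agent.Lib.MP_a8dae7_an.UN.CY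

lemma norm_ex {d : ℕ} (n x : EE d) : ‖ex n x‖ = 1 := by
  unfold ex
  rw [mul_comm, Complex.norm_exp_ofReal_mul_I]

lemma ex_add {d : ℕ} (n x y : EE d) : ex n (x + y) = ex n x * ex n y := by
  unfold ex
  rw [← Complex.exp_add, inner_add_right]
  push_cast
  ring_nf

lemma continuous_ex {d : ℕ} (n : EE d) : Continuous (ex n) := by
  unfold ex
  fun_prop

lemma zv_inj {d : ℕ} {n n' : Fin d → ℤ} (h : zv n = zv n') : n = n' := by
  funext i
  have h1 := congrArg (fun x : EE d => x i) h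
  simpa [zv] using h1

/-- `‖y‖² = ‖I^*y‖² + ‖W^*y‖²` -/
lemma pyth {D k j : ℕ} {I : EE (k + 1) →ₗᵢ[ℝ] EE D} {W : EE j →ₗᵢ[ℝ] EE D} (hD : Dec I W) (y : EE D) :
    ‖y‖ ^ 2 = ‖ContinuousLinearMap.adjoint I.toContinuousLinearMap y‖ ^ 2 +
      ‖W (ContinuousLinearMap.adjoint W.toContinuousLinearMap y)‖ ^ 2 := by
  have h := hD.dec y
  set a := ContinuousLinearMap.adjoint I.toContinuousLinearMap y
  set b := ContinuousLinearMap.adjoint W.toContinuousLinearMap y
  rw [← h, norm_add_sq_real, hD.orth a b, I.norm_map]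
  ring

/-- the character on the piece -/
lemma ex_piece {D k j : ℕ} (I : EE (k + 1) →ₗᵢ[ℝ] EE D) (W : EE j →ₗᵢ[ℝ] EE D) (n p : EE D) (x : EE (k + 1))
    (v : EE j) : ex n (p + I x + W v) =
      ex n p * ex (ContinuousLinearMap.adjoint I.toContinuousLinearMap n) x * ex n (W v) := by
  rw [ex_add, ex_add]
  congr 2
  unfold ex
  rw [ContinuousLinearMap.adjoint_inner_left]
  rfl

/-- the Gaussian is integrable -/
lemma int_gauss (j : ℕ) : Integrable (fun v : EE j => Real.exp (-‖v‖ ^ 2)) := by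
  have h := (GaussianFourier.integrable_cexp_neg_mul_sq_norm_add (V := EE j) (b := 1) (by simp) 0 0).norm
  refine h.congr (Filter.Eventually.of_forall fun v => ?_)
  simp only [Complex.norm_exp]
  congr 1
  have h2 : (-1 * (‖v‖ : ℂ) ^ 2 + 0 * ((inner ℝ (0 : EE j) v : ℝ) : ℂ)) = ((-‖v‖ ^ 2 : ℝ) : ℂ) := by
    push_cast
    ring
  rw [h2, Complex.ofReal_re]

/-- the integral in `v` -/
lemma inner_v {D j : ℕ} (W : EE j →ₗᵢ[ℝ] EE D) (zn : (Fin D → ℤ) → (Fin D → ℤ)) (s : Finset (Fin D → ℤ))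
    (b : (Fin D → ℤ) → ℂ) (CG : ℝ)
    (h : ∫ v : EE j, Real.exp (-‖v‖ ^ 2) * ‖∑ n ∈ s, b n * ex (zv n) (W v)‖ ^ 2 ≤
      CG * ∑ z ∈ s.image zn, ‖∑ n ∈ s with zn n = z, b n‖ ^ 2) :
    ∫⁻ v in Metric.closedBall (0 : EE j) 1, ENNReal.ofReal (‖∑ n ∈ s, b n * ex (zv n) (W v)‖ ^ 2) ≤
      ENNReal.ofReal (Real.exp 1 * (CG * ∑ z ∈ s.image zn, ‖∑ n ∈ s with zn n = z, b n‖ ^ 2)) := by
  set S : EE j → ℂ := fun v => ∑ n ∈ s, b n * ex (zv n) (W v) with hS
  have hSc : Continuous S := by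
    refine continuous_finsetSum _ fun n _ => continuous_const.mul ((continuous_ex _).comp W.continuous)
  have hSb : ∀ v, ‖S v‖ ≤ ∑ n ∈ s, ‖b n‖ := by
    intro v
    refine (norm_sum_le _ _).trans (Finset.sum_le_sum fun n _ => ?_)
    rw [norm_mul, norm_ex, mul_one]
  have hint : Integrable (fun v : EE j => Real.exp 1 * (Real.exp (-‖v‖ ^ 2) * ‖S v‖ ^ 2)) := by
    refine Integrable.const_mul ?_ _
    refine ((int_gauss j).mul_const ((∑ n ∈ s, ‖b n‖) ^ 2)).mono' ?_ (Filter.Eventually.of_forall fun v => ?_)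
    · exact (by fun_prop : Continuous fun v : EE j => Real.exp (-‖v‖ ^ 2) * ‖S v‖ ^ 2).aestronglyMeasurable
    · rw [Real.norm_of_nonneg (by positivity)]
      exact mul_le_mul_of_nonneg_left (pow_le_pow_left₀ (norm_nonneg _) (hSb v) 2) (Real.exp_pos _).le
  calc ∫⁻ v in Metric.closedBall (0 : EE j) 1, ENNReal.ofReal (‖S v‖ ^ 2)
      ≤ ∫⁻ v in Metric.closedBall (0 : EE j) 1,
          ENNReal.ofReal (Real.exp 1 * (Real.exp (-‖v‖ ^ 2) * ‖S v‖ ^ 2)) := by
        refine setLIntegral_mono (by fun_prop) fun v hv => ENNReal.ofReal_le_ofReal ?_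
        have hv1 : ‖v‖ ≤ 1 := by simpa using hv
        have h1 : (1 : ℝ) ≤ Real.exp 1 * Real.exp (-‖v‖ ^ 2) := by
          rw [← Real.exp_add]
          refine Real.one_le_exp ?_
          nlinarith [norm_nonneg v]
        calc ‖S v‖ ^ 2 = 1 * ‖S v‖ ^ 2 := by ring
          _ ≤ (Real.exp 1 * Real.exp (-‖v‖ ^ 2)) * ‖S v‖ ^ 2 := mul_le_mul_of_nonneg_right h1 (by positivity)
          _ = _ := by ring
    _ ≤ ∫⁻ v : EE j, ENNReal.ofReal (Real.exp 1 * (Real.exp (-‖v‖ ^ 2) * ‖S v‖ ^ 2)) := setLIntegral_le_lintegral _ _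
    _ = ENNReal.ofReal (∫ v : EE j, Real.exp 1 * (Real.exp (-‖v‖ ^ 2) * ‖S v‖ ^ 2)) := by
        rw [ofReal_integral_eq_lintegral_ofReal hint (Filter.Eventually.of_forall fun v => by positivity)]
    _ ≤ _ := by
        refine ENNReal.ofReal_le_ofReal ?_
        rw [integral_const_mul]
        exact mul_le_mul_of_nonneg_left h (Real.exp_pos _).le

/-- `n` is determined by `zn n` and `jn n` -/
lemma split_inj {D k j : ℕ} {I : EE (k + 1) →ₗᵢ[ℝ] EE D} {W : EE j →ₗᵢ[ℝ] EE D} {B : EE (k + 1) ≃L[ℝ] EE (k + 1)}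
    {jn : (Fin D → ℤ) → (Fin (k + 1) → ℤ)} {N : ℤ} {zn : (Fin D → ℤ) → (Fin D → ℤ)} (hD : Dec I W)
    (hR : Rat I W B jn N zn) {n n' : Fin D → ℤ} (h1 : zn n = zn n') (h2 : jn n = jn n') : n = n' := by
  have hN : (N : ℝ) ≠ 0 := by exact_mod_cast hR.N_ne
  have h3 : W (ContinuousLinearMap.adjoint W.toContinuousLinearMap (zv n)) =
      W (ContinuousLinearMap.adjoint W.toContinuousLinearMap (zv n')) := by
    have h4 := hR.hz n
    have h5 := hR.hz n'
    rw [← h1, ← h4] at h5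
    exact (smul_right_injective _ hN h5).symm
  have h6 : ContinuousLinearMap.adjoint I.toContinuousLinearMap (zv n) =
      ContinuousLinearMap.adjoint I.toContinuousLinearMap (zv n') := by
    rw [← hR.hj n, ← hR.hj n', h2]
  refine zv_inj ?_
  rw [← hD.dec (zv n), ← hD.dec (zv n'), h3, h6]

/-- `‖I^*n‖` on the fibers of `zn` -/
lemma norm_fiber {D k j : ℕ} {I : EE (k + 1) →ₗᵢ[ℝ] EE D} {W : EE j →ₗᵢ[ℝ] EE D} {B : EE (k + 1) ≃L[ℝ] EE (k + 1)}
    {jn : (Fin D → ℤ) → (Fin (k + 1) → ℤ)} {N : ℤ} {zn : (Fin D → ℤ) → (Fin D → ℤ)} (hD : Dec I W)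
    (hR : Rat I W B jn N zn) {n z : Fin D → ℤ} (h1 : zn n = z) {lam : ℝ} (h2 : ‖zv n‖ = lam) :
    ‖ContinuousLinearMap.adjoint I.toContinuousLinearMap (zv n)‖ = Real.sqrt (lam ^ 2 - (‖zv z‖ / |(N : ℝ)|) ^ 2) := by
  have hN : (N : ℝ) ≠ 0 := by exact_mod_cast hR.N_ne
  have hN' : 0 < |(N : ℝ)| := abs_pos.2 hN
  have h3 := pyth hD (zv n)
  have h4 : ‖W (ContinuousLinearMap.adjoint W.toContinuousLinearMap (zv n))‖ = ‖zv z‖ / |(N : ℝ)| := by
    rw [eq_div_iff hN'.ne', ← h1, ← hR.hz n, norm_smul, Real.norm_eq_abs]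
    ring
  rw [h4, h2] at h3
  rw [h3, add_sub_cancel_right, Real.sqrt_sq (norm_nonneg _)]

/-- the estimate on a fiber of `zn` -/
lemma fiber {D k j : ℕ} {c R A : ℝ} {M : ℕ → ℝ} {I : EE (k + 1) →ₗᵢ[ℝ] EE D} {W : EE j →ₗᵢ[ℝ] EE D}
    {B : EE (k + 1) ≃L[ℝ] EE (k + 1)} {jn : (Fin D → ℤ) → (Fin (k + 1) → ℤ)} {N : ℤ}
    {zn : (Fin D → ℤ) → (Fin D → ℤ)} (hD : Dec I W) (hR : Rat I W B jn N zn)
    (hA2 : ‖(B : EE (k + 1) →L[ℝ] EE (k + 1))‖ ≤ A) (hA3 : ‖(B.symm : EE (k + 1) →L[ℝ] EE (k + 1))‖ ≤ A)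
    (ch : UChart k c R M) (C : ℝ)
    (hU : ∀ (Lt : Lat (k + 1) A) (lam : ℝ)
    (s : Finset (Fin (k + 1) → ℤ)) (a : (Fin (k + 1) → ℤ) → ℂ), 0 ≤ lam → (∀ j ∈ s, ‖Lt.fr j‖ = lam) →
    ∫ q in Metric.closedBall (0 : EE k) (dl k R), ‖es Lt s a (ch.X q)‖ ^ 2 ≤ C * ∑ j ∈ s, ‖a j‖ ^ 2)
    (lam : ℝ) (t : Finset (Fin D → ℤ)) (z : Fin D → ℤ) (b : (Fin D → ℤ) → ℂ) (ht : ∀ n ∈ t, ‖zv n‖ = lam)
    (hz : ∀ n ∈ t, zn n = z) :
    ∫ q in Metric.closedBall (0 : EE k) (dl k R),
      ‖∑ n ∈ t, b n * ex (ContinuousLinearMap.adjoint I.toContinuousLinearMap (zv n)) (ch.X q)‖ ^ 2 ≤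
      C * ∑ n ∈ t, ‖b n‖ ^ 2 := by
  classical
  set Lt : Lat (k + 1) A := ⟨B, 0, hA2, hA3⟩ with hLt
  have hfr : ∀ n, Lt.fr (jn n) = ContinuousLinearMap.adjoint I.toContinuousLinearMap (zv n) := by
    intro n
    rw [← hR.hj n]
    simp [Lat.fr, hLt]
  have hinj : Set.InjOn jn (t : Set (Fin D → ℤ)) := by
    intro n hn n' hn' h
    exact split_inj hD hR ((hz n hn).trans (hz n' hn').symm) h
  set a' : (Fin (k + 1) → ℤ) → ℂ := fun m => ∑ n' ∈ t with jn n' = m, b n' with ha'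
  have ha : ∀ n ∈ t, a' (jn n) = b n := by
    intro n hn
    have h1 : (t.filter fun n' => jn n' = jn n) = {n} := by
      ext n'
      simp only [Finset.mem_filter, Finset.mem_singleton]
      exact ⟨fun h => hinj h.1 hn h.2, fun h => by subst h; exact ⟨hn, rfl⟩⟩
    rw [ha']
    simp only
    rw [h1, Finset.sum_singleton]
  have h2 := hU Lt (Real.sqrt (lam ^ 2 - (‖zv z‖ / |(N : ℝ)|) ^ 2)) (t.image jn) a' (Real.sqrt_nonneg _) (by
    intro m hm
    obtain ⟨n, hn, rfl⟩ := Finset.mem_image.1 hm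
    rw [hfr]
    exact norm_fiber hD hR (hz n hn) (ht n hn))
  have h3 : ∀ x, es Lt (t.image jn) a' x =
      ∑ n ∈ t, b n * ex (ContinuousLinearMap.adjoint I.toContinuousLinearMap (zv n)) x := by
    intro x
    unfold es
    rw [Finset.sum_image hinj]
    refine Finset.sum_congr rfl fun n hn => ?_
    rw [ha n hn, hfr]
  have h4 : ∑ m ∈ t.image jn, ‖a' m‖ ^ 2 = ∑ n ∈ t, ‖b n‖ ^ 2 := by
    rw [Finset.sum_image hinj]
    exact Finset.sum_congr rfl fun n hn => by rw [ha n hn]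
  simp only [h3] at h2
  rw [h4] at h2
  exact h2

/-- **CYE** -/
theorem specCYE (hG : SpecCYG) (hH : SpecCYH) (hU : ∀ k, UU k) : SpecCYE := by
  classical
  intro n0 k j c R A M I W p ch B jn N zn hkj hD hR hA1 hA2 hA3 hcls hdm
  obtain ⟨CG, hCG, hG'⟩ := hG (n0 + 1) k j I W B jn N zn hR
  obtain ⟨CH, hCH, hH'⟩ := hH n0 k j c R M I W p ch hkj hcls
  obtain ⟨CU, hCU, hU'⟩ := hU k A c R M hA1 hcls
  refine ⟨CH * (Real.exp 1 * (CG * CU)), by positivity, fun lam s a hlam hs => ?_⟩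
  -- the coefficients
  set T : EE (n0 + 1) → EE (k + 1) := fun n => ContinuousLinearMap.adjoint I.toContinuousLinearMap n with hT
  set b : EE k → (Fin (n0 + 1) → ℤ) → ℂ := fun q n => (a n * ex (zv n) p) * ex (T (zv n)) (ch.X q) with hb
  have hes : ∀ q v, CV.es s a (p + I (ch.X q) + W v) = ∑ n ∈ s, b q n * ex (zv n) (W v) := by
    intro q v
    unfold CV.es
    refine Finset.sum_congr rfl fun n _ => ?_
    rw [ex_piece, hb]
    simp only [hT]
    ring
  have hXc : Continuous ch.X := ch.smooth.continuous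
  have hmeas : Measurable fun x : EE (n0 + 1) => ENNReal.ofReal (‖CV.es s a x‖ ^ 2) := by
    have h1 : Continuous (CV.es s a) := by
      unfold CV.es
      exact continuous_finsetSum _ fun n _ => continuous_const.mul (continuous_ex _)
    exact (ENNReal.continuous_ofReal.comp ((h1.norm).pow 2)).measurable
  refine (hH' _ hmeas).trans ?_
  -- the sum over the fibers
  set G : EE k → ℝ := fun q => ∑ z ∈ s.image zn, ‖∑ n ∈ s with zn n = z, b q n‖ ^ 2 with hGd
  have hGc1 : ∀ z, Continuous fun q => ‖∑ n ∈ s with zn n = z, b q n‖ ^ 2 := by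
    intro z
    refine Continuous.pow (Continuous.norm ?_) 2
    exact continuous_finsetSum _ fun n _ => continuous_const.mul ((continuous_ex _).comp hXc)
  have hGc : Continuous G := continuous_finsetSum _ fun z _ => hGc1 z
  have hG0 : ∀ q, 0 ≤ G q := fun q => Finset.sum_nonneg fun z _ => by positivity
  have h1 : ∀ q : EE k, ∫⁻ v in Metric.closedBall (0 : EE j) 1,
      ENNReal.ofReal (‖CV.es s a (p + I (ch.X q) + W v)‖ ^ 2) ≤
      ENNReal.ofReal (Real.exp 1 * (CG * G q)) := by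
    intro q
    simp only [hes]
    exact inner_v W zn s (b q) CG (hG' s (b q))
  have h2 : ∫⁻ q in Metric.closedBall (0 : EE k) (dl k R), ∫⁻ v in Metric.closedBall (0 : EE j) 1,
      ENNReal.ofReal (‖CV.es s a (p + I (ch.X q) + W v)‖ ^ 2) ≤
      ENNReal.ofReal (Real.exp 1 * (CG * (CU * ∑ n ∈ s, ‖a n‖ ^ 2))) := by
    have hcomp : IsCompact (Metric.closedBall (0 : EE k) (dl k R)) := isCompact_closedBall _ _
    have hint : IntegrableOn (fun q => Real.exp 1 * (CG * G q)) (Metric.closedBall (0 : EE k) (dl k R)) :=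
      (continuous_const.mul (continuous_const.mul hGc)).continuousOn.integrableOn_compact hcomp
    calc ∫⁻ q in Metric.closedBall (0 : EE k) (dl k R), ∫⁻ v in Metric.closedBall (0 : EE j) 1,
          ENNReal.ofReal (‖CV.es s a (p + I (ch.X q) + W v)‖ ^ 2)
        ≤ ∫⁻ q in Metric.closedBall (0 : EE k) (dl k R), ENNReal.ofReal (Real.exp 1 * (CG * G q)) :=
          lintegral_mono fun q => h1 q
      _ = ENNReal.ofReal (∫ q in Metric.closedBall (0 : EE k) (dl k R), Real.exp 1 * (CG * G q)) := by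
          rw [ofReal_integral_eq_lintegral_ofReal hint (Filter.Eventually.of_forall fun q =>
            mul_nonneg (Real.exp_pos _).le (mul_nonneg hCG.le (hG0 q)))]
      _ ≤ _ := by
          refine ENNReal.ofReal_le_ofReal ?_
          rw [integral_const_mul, integral_const_mul]
          refine mul_le_mul_of_nonneg_left (mul_le_mul_of_nonneg_left ?_ hCG.le) (Real.exp_pos _).le
          rw [hGd, integral_finsetSum _ fun z _ => (hGc1 z).continuousOn.integrableOn_compact hcomp]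
          have h5 : ∑ n ∈ s, ‖a n‖ ^ 2 = ∑ z ∈ s.image zn, ∑ n ∈ s with zn n = z, ‖a n‖ ^ 2 :=
            (Finset.sum_fiberwise_of_maps_to (fun n hn => Finset.mem_image_of_mem zn hn) _).symm
          rw [h5, Finset.mul_sum]
          refine Finset.sum_le_sum fun z _ => ?_
          have h6 := fiber hD hR hA2 hA3 ch CU (hU' ch hdm) lam (s.filter fun n => zn n = z) z
            (fun n => a n * ex (zv n) p) (fun n hn => hs n (Finset.mem_filter.1 hn).1)
            (fun n hn => (Finset.mem_filter.1 hn).2)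
          refine h6.trans (le_of_eq ?_)
          congr 1
          refine Finset.sum_congr rfl fun n _ => ?_
          rw [norm_mul, norm_ex, mul_one]
  calc ENNReal.ofReal CH * ∫⁻ q in Metric.closedBall (0 : EE k) (dl k R), ∫⁻ v in Metric.closedBall (0 : EE j) 1,
        ENNReal.ofReal (‖CV.es s a (p + I (ch.X q) + W v)‖ ^ 2)
      ≤ ENNReal.ofReal CH * ENNReal.ofReal (Real.exp 1 * (CG * (CU * ∑ n ∈ s, ‖a n‖ ^ 2))) := by gcongr
    _ = _ := by
        rw [← ENNReal.ofReal_mul hCH.le]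
        congr 1
        ring

end Pool.Agent.Lib.MP_a8dae7_an.UN.CYEM
end

section
/-!
# MP_a8dae7_an, UN, UNIFORM+: CYG (helper33). Gaussian orthogonality
-/
set_option autoImplicit false

open MeasureTheory
open scoped ContDiff

namespace Pool.Agent.Lib.MP_a8dae7_an.UN.CYGM

open Pool.Agent.Lib.MP_a8dae7_an.CV (EE zv ex)
open Pool.Agent.Lib.MP_a8dae7_an.UN.CY

/-- the Gaussian times a character -/
noncomputable def gc {j : ℕ} (w v : EE j) : ℂ :=
  ((Real.exp (-‖v‖ ^ 2) : ℝ) : ℂ) * Complex.exp (Complex.I * ((inner ℝ w v : ℝ) : ℂ))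

lemma gc_eq {j : ℕ} (w v : EE j) :
    gc w v = Complex.exp (-(1 : ℂ) * (‖v‖ : ℂ) ^ 2 + Complex.I * ((inner ℝ w v : ℝ) : ℂ)) := by
  unfold gc
  rw [Complex.exp_add, Complex.ofReal_exp]
  congr 2
  push_cast
  ring

lemma gc_integrable {j : ℕ} (w : EE j) : Integrable (fun v : EE j => gc w v) := by
  have h := GaussianFourier.integrable_cexp_neg_mul_sq_norm_add (V := EE j) (b := 1)
    (by simp) Complex.I w
  refine h.congr (Filter.Eventually.of_forall fun v => ?_)
  exact (gc_eq w v).symm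

/-- the constant of the Gaussian -/
noncomputable def gk (j : ℕ) : ℝ := ‖((Real.pi : ℂ) / 1) ^ (Module.finrank ℝ (EE j) / 2 : ℂ)‖

lemma gc_integral {j : ℕ} (w : EE j) :
    ‖∫ v : EE j, gc w v‖ = gk j * Real.exp (-‖w‖ ^ 2 / 4) := by
  have h := GaussianFourier.integral_cexp_neg_mul_sq_norm_add (V := EE j) (b := 1)
    (by simp) Complex.I w
  have h1 : (∫ v : EE j, gc w v) = ∫ v : EE j,
      Complex.exp (-(1 : ℂ) * (‖v‖ : ℂ) ^ 2 + Complex.I * ((inner ℝ w v : ℝ) : ℂ)) := by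
    apply integral_congr_ae
    exact Filter.Eventually.of_forall fun v => gc_eq w v
  rw [h1, h, norm_mul]
  unfold gk
  congr 1
  rw [Complex.norm_exp]
  congr 1
  rw [Complex.I_sq]
  have : (-1 * (‖w‖ : ℂ) ^ 2 / (4 * 1)) = (((-‖w‖ ^ 2 / 4 : ℝ)) : ℂ) := by
    push_cast
    ring
  rw [this, Complex.ofReal_re]

/-- the square of a trigonometric polynomial against the Gaussian -/
lemma gauss_sum {j : ℕ} {ι : Type*} (S : Finset ι) (A : ι → ℂ) (mu : ι → EE j) :
    ∫ v : EE j, Real.exp (-‖v‖ ^ 2) *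
      ‖∑ z ∈ S, A z * Complex.exp (Complex.I * ((inner ℝ (mu z) v : ℝ) : ℂ))‖ ^ 2 ≤
    ∑ z ∈ S, ∑ z' ∈ S, ‖A z‖ * ‖A z'‖ * (gk j * Real.exp (-‖mu z - mu z'‖ ^ 2 / 4)) := by
  have h1 : ∀ v : EE j, ((Real.exp (-‖v‖ ^ 2) *
      ‖∑ z ∈ S, A z * Complex.exp (Complex.I * ((inner ℝ (mu z) v : ℝ) : ℂ))‖ ^ 2 : ℝ) : ℂ) =
      ∑ z ∈ S, ∑ z' ∈ S, (A z * (starRingEnd ℂ) (A z')) * gc (mu z - mu z') v := by
    intro v
    rw [Complex.ofReal_mul, Complex.ofReal_pow, ← Complex.mul_conj', map_sum, Finset.sum_mul_sum,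
      Finset.mul_sum]
    apply Finset.sum_congr rfl
    intro z _
    rw [Finset.mul_sum]
    apply Finset.sum_congr rfl
    intro z' _
    unfold gc
    have h2 : Complex.exp (Complex.I * ((inner ℝ (mu z - mu z') v : ℝ) : ℂ)) =
        Complex.exp (Complex.I * ((inner ℝ (mu z) v : ℝ) : ℂ)) *
          (starRingEnd ℂ) (Complex.exp (Complex.I * ((inner ℝ (mu z') v : ℝ) : ℂ))) := by
      rw [← Complex.exp_conj, ← Complex.exp_add]
      congr 1
      rw [map_mul, Complex.conj_I, Complex.conj_ofReal, inner_sub_left]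
      push_cast
      ring
    rw [h2, map_mul]
    ring
  have h2 : ((∫ v : EE j, Real.exp (-‖v‖ ^ 2) *
      ‖∑ z ∈ S, A z * Complex.exp (Complex.I * ((inner ℝ (mu z) v : ℝ) : ℂ))‖ ^ 2 : ℝ) : ℂ) =
      ∑ z ∈ S, ∑ z' ∈ S, (A z * (starRingEnd ℂ) (A z')) * ∫ v : EE j, gc (mu z - mu z') v := by
    rw [← integral_complex_ofReal]
    rw [integral_congr_ae (Filter.Eventually.of_forall h1)]
    rw [integral_finsetSum]
    · apply Finset.sum_congr rfl
      intro z _
      rw [integral_finsetSum]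
      · apply Finset.sum_congr rfl
        intro z' _
        rw [integral_const_mul]
      · intro z' _
        exact (gc_integrable _).const_mul _
    · intro z _
      apply integrable_finsetSum
      intro z' _
      exact (gc_integrable _).const_mul _
  have h3 : ∫ v : EE j, Real.exp (-‖v‖ ^ 2) *
      ‖∑ z ∈ S, A z * Complex.exp (Complex.I * ((inner ℝ (mu z) v : ℝ) : ℂ))‖ ^ 2 ≤
      ‖((∫ v : EE j, Real.exp (-‖v‖ ^ 2) *
      ‖∑ z ∈ S, A z * Complex.exp (Complex.I * ((inner ℝ (mu z) v : ℝ) : ℂ))‖ ^ 2 : ℝ) : ℂ)‖ := by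
    rw [Complex.norm_real]
    exact le_abs_self _
  refine h3.trans ?_
  rw [h2]
  refine (norm_sum_le _ _).trans (Finset.sum_le_sum fun z _ => ?_)
  refine (norm_sum_le _ _).trans (Finset.sum_le_sum fun z' _ => ?_)
  rw [norm_mul, norm_mul, RCLike.norm_conj, gc_integral]

/-- Schur test for a symmetric kernel on a finite set -/
lemma schur {ι : Type*} (S : Finset ι) (A : ι → ℝ) (κ : ι → ι → ℝ) (C : ℝ)
    (h0 : ∀ z z', 0 ≤ κ z z') (hs : ∀ z z', κ z z' = κ z' z)
    (hC : ∀ z ∈ S, ∑ z' ∈ S, κ z z' ≤ C) :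
    ∑ z ∈ S, ∑ z' ∈ S, A z * A z' * κ z z' ≤ C * ∑ z ∈ S, A z ^ 2 := by
  have h1 : ∑ z ∈ S, ∑ z' ∈ S, A z * A z' * κ z z' ≤
      ∑ z ∈ S, ∑ z' ∈ S, (A z ^ 2 * κ z z' / 2 + A z' ^ 2 * κ z' z / 2) := by
    apply Finset.sum_le_sum
    intro z _
    apply Finset.sum_le_sum
    intro z' _
    rw [hs z' z]
    nlinarith [h0 z z', mul_nonneg (h0 z z') (sq_nonneg (A z - A z'))]
  have h2 : ∑ z ∈ S, ∑ z' ∈ S, (A z ^ 2 * κ z z' / 2 + A z' ^ 2 * κ z' z / 2) =
      ∑ z ∈ S, ∑ z' ∈ S, A z ^ 2 * κ z z' := by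
    have h3 : ∑ z ∈ S, ∑ z' ∈ S, A z' ^ 2 * κ z' z / 2 =
        ∑ z ∈ S, ∑ z' ∈ S, A z ^ 2 * κ z z' / 2 := Finset.sum_comm
    simp only [Finset.sum_add_distrib]
    rw [h3, ← Finset.sum_add_distrib]
    apply Finset.sum_congr rfl
    intro z _
    rw [← Finset.sum_add_distrib]
    apply Finset.sum_congr rfl
    intro z' _
    ring
  rw [h2] at h1
  refine h1.trans ?_
  rw [Finset.mul_sum]
  apply Finset.sum_le_sum
  intro z hz
  rw [← Finset.mul_sum, mul_comm]
  exact mul_le_mul_of_nonneg_right (hC z hz) (sq_nonneg _)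

lemma summable_gauss {c : ℝ} (hc : 0 < c) : Summable (fun m : ℤ => Real.exp (-(c * (m : ℝ) ^ 2))) := by
  have h := summable_pow_mul_jacobiTheta₂_term_bound 0 (T := c / Real.pi)
    (div_pos hc Real.pi_pos) 0
  refine h.congr fun m => ?_
  rw [pow_zero, one_mul]
  congr 1
  have := Real.pi_ne_zero
  field_simp
  ring

/-- the lattice sum -/
lemma lattice_sum {D : ℕ} {c : ℝ} (hc : 0 < c) (S : Finset (Fin D → ℤ)) (z : Fin D → ℤ) :
    ∑ z' ∈ S, Real.exp (-(c * ‖zv z - zv z'‖ ^ 2)) ≤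
      (∑' m : ℤ, Real.exp (-(c * (m : ℝ) ^ 2))) ^ D := by
  classical
  have h1 : ∀ z' : Fin D → ℤ, Real.exp (-(c * ‖zv z - zv z'‖ ^ 2)) =
      ∏ i, Real.exp (-(c * ((z i - z' i : ℤ) : ℝ) ^ 2)) := by
    intro z'
    rw [← Real.exp_sum]
    congr 1
    rw [EuclideanSpace.norm_sq_eq, Finset.mul_sum, ← Finset.sum_neg_distrib]
    apply Finset.sum_congr rfl
    intro i _
    simp only [zv, PiLp.sub_apply, Real.norm_eq_abs, sq_abs]
    push_cast
    ring
  simp only [h1]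
  have h2 : S ⊆ Fintype.piFinset (fun i : Fin D => S.image fun z' => z' i) := by
    intro z' hz'
    rw [Fintype.mem_piFinset]
    intro i
    exact Finset.mem_image_of_mem _ hz'
  refine (Finset.sum_le_sum_of_subset_of_nonneg h2 fun _ _ _ =>
    Finset.prod_nonneg fun _ _ => (Real.exp_pos _).le).trans ?_
  rw [← Finset.prod_univ_sum (fun i : Fin D => S.image fun z' => z' i)
    (fun i m => Real.exp (-(c * ((z i - m : ℤ) : ℝ) ^ 2)))]
  have h3 : ∀ i : Fin D, ∑ m ∈ S.image (fun z' => z' i), Real.exp (-(c * ((z i - m : ℤ) : ℝ) ^ 2)) ≤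
      ∑' m : ℤ, Real.exp (-(c * (m : ℝ) ^ 2)) := by
    intro i
    have h4 : (∑' m : ℤ, Real.exp (-(c * (m : ℝ) ^ 2))) =
        ∑' m : ℤ, Real.exp (-(c * ((z i - m : ℤ) : ℝ) ^ 2)) :=
      ((Equiv.subLeft (z i)).tsum_eq (fun m : ℤ => Real.exp (-(c * (m : ℝ) ^ 2)))).symm
    rw [h4]
    apply Summable.sum_le_tsum
    · intro m _
      exact (Real.exp_pos _).le
    · exact (Equiv.subLeft (z i)).summable_iff.2 (summable_gauss hc)
  calc ∏ i : Fin D, ∑ m ∈ S.image (fun z' => z' i), Real.exp (-(c * ((z i - m : ℤ) : ℝ) ^ 2)) ≤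
      ∏ i : Fin D, ∑' m : ℤ, Real.exp (-(c * (m : ℝ) ^ 2)) :=
        Finset.prod_le_prod (fun i _ => Finset.sum_nonneg fun _ _ => (Real.exp_pos _).le)
          (fun i _ => h3 i)
    _ = (∑' m : ℤ, Real.exp (-(c * (m : ℝ) ^ 2))) ^ D := by simp

/-- **CYG.** -/
theorem specCYG : SpecCYG := by
  classical
  intro D k j I W B jn N zn hR
  have hN : (N : ℝ) ≠ 0 := by exact_mod_cast hR.N_ne
  set c : ℝ := 1 / (4 * (N : ℝ) ^ 2) with hc
  have hc0 : 0 < c := by positivity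
  refine ⟨(gk j + 1) * ((∑' m : ℤ, Real.exp (-(c * (m : ℝ) ^ 2))) ^ D + 1), ?_, ?_⟩
  · have h1 : 0 ≤ gk j := norm_nonneg _
    have h2 : 0 ≤ ∑' m : ℤ, Real.exp (-(c * (m : ℝ) ^ 2)) := tsum_nonneg fun _ => (Real.exp_pos _).le
    positivity
  intro s a
  set Wa : EE D →L[ℝ] EE j := ContinuousLinearMap.adjoint W.toContinuousLinearMap with hWa
  have hWW : ∀ x : EE j, Wa (W x) = x := by
    intro x
    apply ext_inner_right ℝ
    intro y
    rw [hWa, ContinuousLinearMap.adjoint_inner_left]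
    exact W.inner_map_map x y
  have hWv : ∀ (y : EE D) (v : EE j), inner ℝ y (W v) = inner ℝ (Wa y) v := by
    intro y v
    rw [hWa, ContinuousLinearMap.adjoint_inner_left]
    rfl
  set mu : (Fin D → ℤ) → EE j := fun z => (N : ℝ)⁻¹ • Wa (zv z) with hmu
  set A : (Fin D → ℤ) → ℂ := fun z => ∑ n ∈ s with zn n = z, a n with hA
  set S := s.image zn with hS
  have hzn : ∀ n, Wa (zv n) = mu (zn n) := by
    intro n
    have h1 := hR.hz n
    have h2 : W (Wa (zv n)) = (N : ℝ)⁻¹ • zv (zn n) := by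
      rw [← h1, smul_smul, inv_mul_cancel₀ hN, one_smul]
    have h3 := congrArg Wa h2
    rw [hWW, map_smul] at h3
    exact h3
  have hWmu : ∀ z ∈ S, W (mu z) = (N : ℝ)⁻¹ • zv z := by
    intro z hz
    obtain ⟨n, -, rfl⟩ := Finset.mem_image.1 hz
    rw [← hzn]
    have h1 := hR.hz n
    rw [← h1, smul_smul, inv_mul_cancel₀ hN, one_smul]
  have hnorm : ∀ z ∈ S, ∀ z' ∈ S, -‖mu z - mu z'‖ ^ 2 / 4 = -(c * ‖zv z - zv z'‖ ^ 2) := by
    intro z hz z' hz'
    have h1 : ‖mu z - mu z'‖ = ‖(N : ℝ)⁻¹ • (zv z - zv z')‖ := by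
      rw [← W.norm_map, map_sub, hWmu z hz, hWmu z' hz', smul_sub]
    rw [h1, norm_smul, mul_pow, norm_inv, Real.norm_eq_abs, inv_pow, sq_abs, hc]
    field_simp
  have hsum : ∀ v : EE j, ∑ n ∈ s, a n * ex (zv n) (W v) =
      ∑ z ∈ S, A z * Complex.exp (Complex.I * ((inner ℝ (mu z) v : ℝ) : ℂ)) := by
    intro v
    rw [← Finset.sum_fiberwise_of_maps_to (s := s) (t := S) (g := zn)
      (fun n hn => Finset.mem_image_of_mem zn hn)]
    apply Finset.sum_congr rfl
    intro z _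
    rw [hA, Finset.sum_mul]
    apply Finset.sum_congr rfl
    intro n hn
    rw [Finset.mem_filter] at hn
    unfold ex
    rw [hWv, hzn, hn.2]
  simp only [hsum]
  refine (gauss_sum S A mu).trans ?_
  have hgk : 0 ≤ gk j := norm_nonneg _
  have h4 : ∑ z ∈ S, ∑ z' ∈ S, ‖A z‖ * ‖A z'‖ * (gk j * Real.exp (-‖mu z - mu z'‖ ^ 2 / 4)) =
      ∑ z ∈ S, ∑ z' ∈ S, ‖A z‖ * ‖A z'‖ * (gk j * Real.exp (-(c * ‖zv z - zv z'‖ ^ 2))) := by
    apply Finset.sum_congr rfl
    intro z hz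
    apply Finset.sum_congr rfl
    intro z' hz'
    rw [hnorm z hz z' hz']
  rw [h4]
  refine schur S (fun z => ‖A z‖) (fun z z' => gk j * Real.exp (-(c * ‖zv z - zv z'‖ ^ 2))) _
    (fun z z' => mul_nonneg hgk (Real.exp_pos _).le) (fun z z' => by rw [norm_sub_rev]) ?_
  intro z _
  rw [← Finset.mul_sum]
  have h5 := lattice_sum hc0 S z
  have h6 : 0 ≤ ∑ z' ∈ S, Real.exp (-(c * ‖zv z - zv z'‖ ^ 2)) :=
    Finset.sum_nonneg fun _ _ => (Real.exp_pos _).le
  apply mul_le_mul (by linarith) (by linarith) h6 (by linarith)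

end Pool.Agent.Lib.MP_a8dae7_an.UN.CYGM
end

section
/-!
# MP_a8dae7_an, UN, UNIFORM+: Hausdorff measure of a piece of a cylinder (CYH)
-/
set_option autoImplicit false

open MeasureTheory
open scoped ContDiff ENNReal

namespace Pool.Agent.Lib.MP_a8dae7_an.UN.CYHM

open Pool.Agent.Lib.MP_a8dae7_an.CV (EE)
open Pool.Agent.Lib.MP_a8dae7_an.UN.CY (Pc SpecCYH)

lemma finrank_sum (k j : ℕ) : Module.finrank ℝ (WithLp 2 (EE k × EE j)) = k + j := by
  rw [(WithLp.linearEquiv 2 ℝ (EE k × EE j)).finrank_eq, Module.finrank_prod,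
    finrank_euclideanSpace_fin, finrank_euclideanSpace_fin]

/-- The isometry between `EE (k + j)` and the Euclidean product. -/
noncomputable def iso (k j : ℕ) : EE (k + j) ≃ₗᵢ[ℝ] WithLp 2 (EE k × EE j) :=
  (((stdOrthonormalBasis ℝ (WithLp 2 (EE k × EE j))).reindex (finCongr (finrank_sum k j))).repr).symm

/-- The splitting `EE (k + j) → EE k × EE j`. -/
noncomputable def spl (k j : ℕ) : EE (k + j) ≃L[ℝ] EE k × EE j :=
  (iso k j).toContinuousLinearEquiv.trans (WithLp.prodContinuousLinearEquiv 2 ℝ (EE k) (EE j))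

lemma spl_apply (k j : ℕ) (t : EE (k + j)) : spl k j t = WithLp.ofLp (iso k j t) := rfl

lemma spl_norm (k j : ℕ) (t : EE (k + j)) :
    ‖t‖ ^ 2 = ‖(spl k j t).1‖ ^ 2 + ‖(spl k j t).2‖ ^ 2 := by
  rw [← (iso k j).norm_map t, WithLp.prod_norm_sq_eq_of_L2]
  rfl

lemma spl_mp (k j : ℕ) : MeasurePreserving (spl k j) volume (volume.prod volume) := by
  have h := (WithLp.volume_preserving_ofLp (EE k) (EE j)).comp (iso k j).measurePreserving
  exact h

theorem specCYH (hHM : CV.SpecHM) : SpecCYH := by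
  intro n0 k j c R M I W p ch hkj hcls
  subst hkj
  set Ps : EE (k + j) → EE (k + j + 1) :=
    fun t => p + I (ch.X (spl k j t).1) + W (spl k j t).2 with hPs
  have hsm : ContDiff ℝ ∞ Ps := by
    have h1 : ContDiff ℝ ∞ (fun t : EE (k + j) => (spl k j t).1) := (spl k j).contDiff.fst
    have h2 : ContDiff ℝ ∞ (fun t : EE (k + j) => (spl k j t).2) := (spl k j).contDiff.snd
    have h3 : ContDiff ℝ ∞ (fun t : EE (k + j) => I (ch.X (spl k j t).1)) :=
      I.contDiff.comp (ch.smooth.comp h1)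
    have h4 : ContDiff ℝ ∞ (fun t : EE (k + j) => W (spl k j t).2) := W.contDiff.comp h2
    exact (contDiff_const.add h3).add h4
  have hdl0 : 0 ≤ dl k R := by
    unfold dl
    have := hcls.R_pos
    positivity
  have hdl1 : dl k R ≤ 1 := by
    unfold dl
    have h1 := hcls.R_pos
    have h2 := hcls.R_le
    have h3 : (1 : ℝ) ≤ 32 ^ k := one_le_pow₀ (by norm_num)
    rw [div_le_one (by positivity)]
    linarith
  obtain ⟨C, hC, hHMC⟩ := hHM (k + j) Ps (dl k R) hsm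
  refine ⟨C, hC, fun F hF => ?_⟩
  -- the piece is contained in the image of a ball
  have hsub : Pc I W p ch ⊆ Ps '' Metric.closedBall 0 (dl k R) := by
    rintro x ⟨q, v, hq, hv, rfl⟩
    have he : spl k j ((spl k j).symm (q, v)) = (q, v) := (spl k j).apply_symm_apply _
    refine ⟨(spl k j).symm (q, v), ?_, ?_⟩
    · rw [mem_closedBall_zero_iff]
      have h1 := spl_norm k j ((spl k j).symm (q, v))
      rw [he] at h1
      have h2 : ‖q‖ ^ 2 ≤ (dl k R / 2) ^ 2 := by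
        have := norm_nonneg q
        gcongr
      have h3 : ‖v‖ ^ 2 ≤ (dl k R / 2) ^ 2 := by
        have := norm_nonneg v
        gcongr
      refine (abs_le_of_sq_le_sq' (a := ‖(spl k j).symm (q, v)‖) ?_ hdl0).2
      rw [h1]
      simp only
      nlinarith
    · simp only [hPs, he]
  have hmeas : Measurable (fun z : EE k × EE j => F (p + I (ch.X z.1) + W z.2)) := by
    refine hF.comp ?_
    have h1 : Continuous (fun z : EE k × EE j => p + I (ch.X z.1) + W z.2) :=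
      (continuous_const.add (I.continuous.comp (ch.smooth.continuous.comp continuous_fst))).add
        (W.continuous.comp continuous_snd)
    exact h1.measurable
  have hball : Metric.closedBall (0 : EE (k + j)) (dl k R) ⊆
      spl k j ⁻¹' (Metric.closedBall (0 : EE k) (dl k R) ×ˢ Metric.closedBall (0 : EE j) 1) := by
    intro t ht
    rw [mem_closedBall_zero_iff] at ht
    have h1 := spl_norm k j t
    have h0 := norm_nonneg t
    have ht2 : ‖t‖ ^ 2 ≤ dl k R ^ 2 := by gcongr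
    refine ⟨?_, ?_⟩
    · rw [mem_closedBall_zero_iff]
      refine (abs_le_of_sq_le_sq' (a := ‖(spl k j t).1‖) ?_ hdl0).2
      nlinarith [sq_nonneg ‖(spl k j t).2‖]
    · rw [mem_closedBall_zero_iff]
      refine ((abs_le_of_sq_le_sq' (a := ‖(spl k j t).2‖) ?_ hdl0).2).trans hdl1
      nlinarith [sq_nonneg ‖(spl k j t).1‖]
  calc ∫⁻ x in Pc I W p ch, F x ∂(Measure.hausdorffMeasure ((k + j : ℕ) : ℝ))
      ≤ ∫⁻ x in Ps '' Metric.closedBall 0 (dl k R), F x ∂(Measure.hausdorffMeasure ((k + j : ℕ) : ℝ)) :=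
        lintegral_mono_set hsub
    _ ≤ ENNReal.ofReal C * ∫⁻ t in Metric.closedBall 0 (dl k R), F (Ps t) := hHMC F hF
    _ ≤ ENNReal.ofReal C * ∫⁻ t in spl k j ⁻¹' (Metric.closedBall (0 : EE k) (dl k R) ×ˢ
          Metric.closedBall (0 : EE j) 1), F (Ps t) := by
        gcongr
    _ = ENNReal.ofReal C * ∫⁻ z in Metric.closedBall (0 : EE k) (dl k R) ×ˢ
          Metric.closedBall (0 : EE j) 1, F (p + I (ch.X z.1) + W z.2) ∂(volume.prod volume) := by
        rw [← (spl_mp k j).setLIntegral_comp_preimage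
          (Metric.isClosed_closedBall.measurableSet.prod Metric.isClosed_closedBall.measurableSet) hmeas]
    _ = ENNReal.ofReal C * ∫⁻ q in Metric.closedBall (0 : EE k) (dl k R),
          ∫⁻ v in Metric.closedBall (0 : EE j) 1, F (p + I (ch.X q) + W v) := by
        rw [← Measure.prod_restrict, lintegral_prod _ hmeas.aemeasurable]

end Pool.Agent.Lib.MP_a8dae7_an.UN.CYHM
end

section
/-!
# MP_a8dae7_an, UN, UNIFORM+, module CYR: rationality
-/
set_option autoImplicit false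

open MeasureTheory
open scoped ContDiff

namespace Pool.Agent.Lib.MP_a8dae7_an.UN.CY

open Pool.Agent.Lib.MP_a8dae7_an.CV (EE zv ex)

namespace CYRAux

variable {D k j : ℕ}

theorem zv_apply (n : Fin D → ℤ) (t : Fin D) : zv n t = (n t : ℝ) := rfl

theorem inner_zv (a b : Fin D → ℤ) : inner ℝ (zv a) (zv b) = ((∑ t, a t * b t : ℤ) : ℝ) := by
  rw [PiLp.inner_apply]
  push_cast
  refine Finset.sum_congr rfl fun t _ => ?_
  rw [zv_apply, zv_apply]
  simp [mul_comm]

theorem zv_sub (a b : Fin D → ℤ) : zv (a - b) = zv a - zv b := by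
  ext t
  simp [zv]

theorem zv_smul (N : ℤ) (a : Fin D → ℤ) : zv (N • a) = (N : ℝ) • zv a := by
  ext t
  simp [zv]

theorem zv_sum (x : Fin (k + 1) → ℤ) (b : Fin (k + 1) → (Fin D → ℤ)) :
    zv (∑ i, x i • b i) = ∑ i, (x i : ℝ) • zv (b i) := by
  ext t
  rw [WithLp.ofLp_sum, Finset.sum_apply, zv_apply, Finset.sum_apply]
  push_cast
  refine Finset.sum_congr rfl fun i _ => ?_
  simp [zv]

section
variable {I : EE (k + 1) →ₗᵢ[ℝ] EE D} {W : EE j →ₗᵢ[ℝ] EE D}

theorem adjI_I (I : EE (k + 1) →ₗᵢ[ℝ] EE D) (x : EE (k + 1)) :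
    ContinuousLinearMap.adjoint I.toContinuousLinearMap (I x) = x := by
  refine ext_inner_right ℝ fun y => ?_
  rw [ContinuousLinearMap.adjoint_inner_left]
  exact I.inner_map_map x y

theorem adjW_I (h : Dec I W) (x : EE (k + 1)) :
    ContinuousLinearMap.adjoint W.toContinuousLinearMap (I x) = 0 := by
  refine ext_inner_right ℝ fun y => ?_
  rw [ContinuousLinearMap.adjoint_inner_left, inner_zero_left]
  exact h.orth x y

/-- a vector orthogonal to the range of `I` is killed by `I^*` -/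
theorem adjI_zero (I : EE (k + 1) →ₗᵢ[ℝ] EE D) {b : Fin (k + 1) → (Fin D → ℤ)}
    (hs : Submodule.span ℝ (Set.range fun i => zv (b i)) = LinearMap.range I.toLinearMap)
    {u : EE D} (hu : ∀ l, inner ℝ (zv (b l)) u = 0) :
    ContinuousLinearMap.adjoint I.toContinuousLinearMap u = 0 := by
  refine ext_inner_right ℝ fun y => ?_
  rw [ContinuousLinearMap.adjoint_inner_left, inner_zero_left]
  have h1 : I y ∈ Submodule.span ℝ (Set.range fun i => zv (b i)) := by
    rw [hs]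
    exact ⟨y, rfl⟩
  have h2 : ∀ z ∈ Submodule.span ℝ (Set.range fun i => zv (b i)), inner ℝ u z = 0 := by
    intro z hz
    induction hz using Submodule.span_induction with
    | mem z hz =>
      obtain ⟨i, rfl⟩ := hz
      rw [real_inner_comm]
      exact hu i
    | zero => exact inner_zero_right _
    | add a c _ _ ha hc => rw [inner_add_right, ha, hc, add_zero]
    | smul r a _ ha => rw [inner_smul_right, ha, mul_zero]
  exact h2 _ h1

theorem mem_range (I : EE (k + 1) →ₗᵢ[ℝ] EE D) {b : Fin (k + 1) → (Fin D → ℤ)}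
    (hs : Submodule.span ℝ (Set.range fun i => zv (b i)) = LinearMap.range I.toLinearMap)
    (x : Fin (k + 1) → ℝ) : ∃ y, I y = ∑ i, x i • zv (b i) := by
  have h1 : ∑ i, x i • zv (b i) ∈ Submodule.span ℝ (Set.range fun i => zv (b i)) :=
    Submodule.sum_mem _ fun i _ => Submodule.smul_mem _ _ (Submodule.subset_span ⟨i, rfl⟩)
  rw [hs] at h1
  obtain ⟨y, hy⟩ := h1
  exact ⟨y, hy⟩

theorem linInd (I : EE (k + 1) →ₗᵢ[ℝ] EE D) {b : Fin (k + 1) → (Fin D → ℤ)}
    (hs : Submodule.span ℝ (Set.range fun i => zv (b i)) = LinearMap.range I.toLinearMap) :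
    LinearIndependent ℝ fun i => zv (b i) := by
  rw [linearIndependent_iff_card_eq_finrank_span, Fintype.card_fin, Set.finrank, hs,
    LinearMap.finrank_range_of_inj I.injective, finrank_euclideanSpace_fin]

end

/-- the Gram matrix -/
def gram (b : Fin (k + 1) → (Fin D → ℤ)) : Matrix (Fin (k + 1)) (Fin (k + 1)) ℤ :=
  fun i l => ∑ t, b i t * b l t

theorem gram_det {b : Fin (k + 1) → (Fin D → ℤ)} (hb : LinearIndependent ℝ fun i => zv (b i)) :
    (gram b).det ≠ 0 := by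
  intro h
  obtain ⟨v, hv, hv2⟩ := Matrix.exists_mulVec_eq_zero_iff.2 h
  have h1 : ∀ i, ∑ l, gram b i l * v l = 0 := fun i => by
    have := congrFun hv2 i
    rw [Pi.zero_apply] at this
    exact this
  have h2 : (∑ l, (v l : ℝ) • zv (b l)) = 0 := by
    rw [← inner_self_eq_zero (𝕜 := ℝ), sum_inner]
    refine Finset.sum_eq_zero fun i _ => ?_
    rw [inner_smul_left, inner_sum]
    have h3 : ∑ l, inner ℝ (zv (b i)) ((v l : ℝ) • zv (b l)) = ((∑ l, gram b i l * v l : ℤ) : ℝ) := by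
      push_cast
      refine Finset.sum_congr rfl fun l _ => ?_
      rw [inner_smul_right, inner_zv, gram, mul_comm]
    rw [h3, h1 i]
    simp
  have h3 := Fintype.linearIndependent_iff.1 hb _ h2
  exact hv (funext fun i => by exact_mod_cast h3 i)

end CYRAux

open CYRAux in
theorem specCYR : SpecCYR := by
  intro D k j I W b hDec hs
  have hli := linInd I hs
  obtain ⟨N, hN⟩ : ∃ N : ℤ, N = (gram b).det := ⟨_, rfl⟩
  have hN0 : N ≠ 0 := by
    rw [hN]
    exact gram_det hli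
  have hN0' : (N : ℝ) ≠ 0 := by exact_mod_cast hN0
  -- the equivalence
  obtain ⟨Bl, hBl⟩ : ∃ Bl : EE (k + 1) →ₗ[ℝ] EE (k + 1), ∀ x, Bl x = (N : ℝ)⁻¹ •
      ContinuousLinearMap.adjoint I.toContinuousLinearMap (∑ i, x i • zv (b i)) := by
    refine ⟨
      { toFun := fun x => (N : ℝ)⁻¹ •
          ContinuousLinearMap.adjoint I.toContinuousLinearMap (∑ i, x i • zv (b i))
        map_add' := ?_
        map_smul' := ?_ }, fun _ => rfl⟩
    · intro x y
      rw [← smul_add, ← map_add, ← Finset.sum_add_distrib]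
      congr 3
      funext i
      rw [PiLp.add_apply, add_smul]
    · intro r x
      have h1 : ∑ i, (r • x) i • zv (b i) = r • ∑ i, x i • zv (b i) := by
        rw [Finset.smul_sum]
        refine Finset.sum_congr rfl fun i _ => ?_
        rw [PiLp.smul_apply, smul_eq_mul, mul_smul]
      rw [RingHom.id_apply, h1, map_smul, smul_comm r]
  have hinj : Function.Injective Bl := by
    rw [← LinearMap.ker_eq_bot, LinearMap.ker_eq_bot']
    intro x hx
    rw [hBl] at hx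
    have h1 := (smul_eq_zero.1 hx).resolve_left (inv_ne_zero hN0')
    obtain ⟨y, hy⟩ := mem_range I hs (fun i => x i)
    rw [← hy, adjI_I] at h1
    rw [h1, map_zero] at hy
    have h2 := Fintype.linearIndependent_iff.1 hli _ hy.symm
    ext i
    exact h2 i
  -- the integer data
  let jn : (Fin D → ℤ) → (Fin (k + 1) → ℤ) := fun n =>
    (gram b).adjugate.mulVec fun l => ∑ t, b l t * n t
  let zn : (Fin D → ℤ) → (Fin D → ℤ) := fun n => N • n - ∑ i, jn n i • b i
  have hG : ∀ n l, ∑ i, gram b l i * jn n i = N * ∑ t, b l t * n t := by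
    intro n l
    have h1 : (gram b).mulVec (jn n) = N • fun l => ∑ t, b l t * n t := by
      show (gram b).mulVec ((gram b).adjugate.mulVec _) = _
      rw [Matrix.mulVec_mulVec, Matrix.mul_adjugate, Matrix.smul_mulVec, Matrix.one_mulVec, hN]
    have h2 := congrFun h1 l
    exact h2
  have hperp : ∀ n l, inner ℝ (zv (b l)) (zv (zn n)) = 0 := by
    intro n l
    have h1 : zv (zn n) = (N : ℝ) • zv n - ∑ i, (jn n i : ℝ) • zv (b i) := by
      show zv (N • n - ∑ i, jn n i • b i) = _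
      rw [zv_sub, zv_smul, zv_sum]
    rw [h1, inner_sub_right, inner_smul_right, inner_sum, inner_zv]
    have h2 : ∑ i, inner ℝ (zv (b l)) ((jn n i : ℝ) • zv (b i)) =
        ((∑ i, gram b l i * jn n i : ℤ) : ℝ) := by
      push_cast
      refine Finset.sum_congr rfl fun i _ => ?_
      rw [inner_smul_right, inner_zv, gram, mul_comm]
    rw [h2, hG]
    push_cast
    ring
  have hadj : ∀ n, ContinuousLinearMap.adjoint I.toContinuousLinearMap (zv (zn n)) = 0 := fun n =>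
    adjI_zero I hs (hperp n)
  have hzn : ∀ n, zv (zn n) = (N : ℝ) • zv n - ∑ i, (jn n i : ℝ) • zv (b i) := by
    intro n
    show zv (N • n - ∑ i, jn n i • b i) = _
    rw [zv_sub, zv_smul, zv_sum]
  refine ⟨(LinearEquiv.ofInjectiveEndo Bl hinj).toContinuousLinearEquiv, jn, N, zn, hN0, ?_, ?_⟩
  · intro n
    show Bl (zv (jn n)) = _
    rw [hBl]
    have h1 := hadj n
    rw [hzn, map_sub, map_smul, sub_eq_zero] at h1
    have h2 : ∑ i, zv (jn n) i • zv (b i) = ∑ i, (jn n i : ℝ) • zv (b i) := rfl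
    rw [h2, ← h1, smul_smul, inv_mul_cancel₀ hN0', one_smul]
  · intro n
    have h1 := hDec.dec (zv (zn n))
    rw [hadj, map_zero, zero_add] at h1
    rw [← h1, hzn, map_sub, map_smul, map_sub, map_smul]
    obtain ⟨y, hy⟩ := mem_range I hs (fun i => (jn n i : ℝ))
    rw [← hy, adjW_I hDec, map_zero, sub_zero]

end Pool.Agent.Lib.MP_a8dae7_an.UN.CY
end
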