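import Pool.Agent.Lib.MP_a8dae7_an.UN.CYSpec
import Pool.Agent.Lib.MP_a8dae7_an.CV.Z1
import Pool.Agent.Lib.MP_a8dae7_an.UN.CYR
import Pool.Agent.Lib.MP_a8dae7_an.CV.HM
import Pool.Agent.Lib.MP_a8dae7_an.CV.Main

section
/-!
# MP_a8dae7_an, UN, module CYF (UNIFORM+): from the pieces of cylinders to the hypersurface
-/
set_option autoImplicit false

open MeasureTheory
open scoped ContDiff ENNReal

namespace Pool.Agent.Lib.MP_a8dae7_an.UN.CYFM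

open Pool.Agent.Lib.MP_a8dae7_an.CV (EE zv ex)
open Pool.Agent.Lib.MP_a8dae7_an.UN.CY

/-- the bound for a set `P`, `d = n0 + 1` -/
def Bd (n0 : ℕ) (P : Set (EE (n0 + 1))) : Prop :=
  ∃ C : ℝ, 0 < C ∧ ∀ (lam : ℝ) (s : Finset (Fin (n0 + 1) → ℤ)) (a : (Fin (n0 + 1) → ℤ) → ℂ), 0 ≤ lam →
    (∀ n ∈ s, ‖zv n‖ = lam) →
    ∫⁻ x in P, ENNReal.ofReal (‖CV.es s a x‖ ^ 2) ∂(Measure.hausdorffMeasure (n0 : ℝ)) ≤
      ENNReal.ofReal (C * ∑ n ∈ s, ‖a n‖ ^ 2)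

/-- near every point `Sg` is contained in a set with the bound -/
theorem near (hR : SpecCYR) (hC : SpecCYC) (hE : SpecCYE) (n0 : ℕ) (Sg : Set (EE (n0 + 1))) (p : EE (n0 + 1))
    (h : ∃ k, CylAt (n0 + 1) k Sg p) :
    ∃ (P : Set (EE (n0 + 1))) (rho : ℝ), 0 < rho ∧ Bd n0 P ∧ ∀ x ∈ Sg, ‖x - p‖ < rho → x ∈ P := by
  obtain ⟨k, hk⟩ := h
  obtain ⟨j, I, W, b, hkj, hD, hb, hch⟩ := hC n0 k Sg p hk
  obtain ⟨B, jn, N, zn, hRat⟩ := hR (n0 + 1) k j I W b hD hb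
  set A : ℝ := max 1 (max ‖(B : EE (k + 1) →L[ℝ] EE (k + 1))‖ ‖(B.symm : EE (k + 1) →L[ℝ] EE (k + 1))‖) with hA
  have hA1 : 1 ≤ A := le_max_left _ _
  have hA2 : ‖(B : EE (k + 1) →L[ℝ] EE (k + 1))‖ ≤ A := (le_max_left _ _).trans (le_max_right _ _)
  have hA3 : ‖(B.symm : EE (k + 1) →L[ℝ] EE (k + 1))‖ ≤ A := (le_max_right _ _).trans (le_max_right _ _)
  obtain ⟨c, R, M, ch, rho, hcls, hdm, hrho, hcov⟩ := hch A hA1
  refine ⟨Pc I W p ch, rho, hrho, ?_, hcov⟩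
  exact hE n0 k j c R A M I W p ch B jn N zn hkj hD hRat hA1 hA2 hA3 hcls hdm

/-- **CYF** -/
theorem specCYF (hR : SpecCYR) (hC : SpecCYC) (hE : SpecCYE) : SpecCYF := by
  classical
  intro n0 Sg hc hp
  choose P rho hrho hB hcov using fun (p : EE (n0 + 1)) (h : p ∈ Sg) => near hR hC hE n0 Sg p (hp p h)
  obtain ⟨t, ht⟩ := hc.elim_nhds_subcover' (fun p h => Metric.ball p (rho p h))
    (fun p h => Metric.ball_mem_nhds p (hrho p h))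
  have hsub : Sg ⊆ ⋃ i : t, P i.1.1 i.1.2 := by
    intro x hx
    obtain ⟨p, hpt, hxp⟩ := Set.mem_iUnion₂.1 (ht hx)
    have h1 : ‖x - p.1‖ < rho p.1 p.2 := by
      have h2 : x ∈ Metric.ball p.1 (rho p.1 p.2) := hxp
      rwa [mem_ball_iff_norm] at h2
    exact Set.mem_iUnion.2 ⟨⟨p, hpt⟩, hcov p.1 p.2 x hx h1⟩
  choose C hC0 hCb using fun i : t => hB i.1.1 i.1.2
  refine ⟨∑ i, C i + 1, by
    have : 0 ≤ ∑ i, C i := Finset.sum_nonneg fun i _ => (hC0 i).le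
    linarith, fun lam s a hlam hs => ?_⟩
  set F : EE (n0 + 1) → ℝ≥0∞ := fun x => ENNReal.ofReal (‖CV.es s a x‖ ^ 2) with hF
  set mu : Measure (EE (n0 + 1)) := Measure.hausdorffMeasure (n0 : ℝ) with hmu
  have hsum0 : 0 ≤ ∑ n ∈ s, ‖a n‖ ^ 2 := Finset.sum_nonneg fun n _ => by positivity
  calc ∫⁻ x in Sg, F x ∂mu
      ≤ ∫⁻ x in ⋃ i : t, P i.1.1 i.1.2, F x ∂mu := lintegral_mono_set hsub
    _ ≤ ∑' i : t, ∫⁻ x in P i.1.1 i.1.2, F x ∂mu := lintegral_iUnion_le _ _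
    _ = ∑ i : t, ∫⁻ x in P i.1.1 i.1.2, F x ∂mu := tsum_fintype _
    _ ≤ ∑ i : t, ENNReal.ofReal (C i * ∑ n ∈ s, ‖a n‖ ^ 2) :=
        Finset.sum_le_sum fun i _ => hCb i lam s a hlam hs
    _ = ENNReal.ofReal (∑ i : t, C i * ∑ n ∈ s, ‖a n‖ ^ 2) := by
        rw [ENNReal.ofReal_sum_of_nonneg]
        exact fun i _ => mul_nonneg (hC0 i).le hsum0
    _ ≤ ENNReal.ofReal ((∑ i, C i + 1) * ∑ n ∈ s, ‖a n‖ ^ 2) := by
        refine ENNReal.ofReal_le_ofReal ?_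
        rw [← Finset.sum_mul]
        have h5 : ∑ i, C i ≤ ∑ i, C i + 1 := by linarith
        exact mul_le_mul_of_nonneg_right h5 hsum0

end Pool.Agent.Lib.MP_a8dae7_an.UN.CYFM
end

section
/-!
# MP_a8dae7_an, UN, module CYM (UNIFORM+): from `∀ k, UU k` to the statement with the torus integral
-/
set_option autoImplicit false

open MeasureTheory
open scoped ContDiff ENNReal

namespace Pool.Agent.Lib.MP_a8dae7_an.UN.CYMM

open Pool.Agent.Lib.MP_a8dae7_an.CV (EE zv ex)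
open Pool.Agent.Lib.MP_a8dae7_an.UN.CY

/-- **UNIFORM+** from the level statements `UU k` -/
theorem main (hU : ∀ k, UU k) (hR : SpecCYR) (hC : SpecCYC) (n0 : ℕ) (Sg : Set (EE (n0 + 1))) (hc : IsCompact Sg)
    (hp : ∀ p ∈ Sg, ∃ k, CylAt (n0 + 1) k Sg p) :
    ∃ C : ℝ, 0 < C ∧ ∀ (lam : ℝ) (s : Finset (Fin (n0 + 1) → ℤ)) (a : (Fin (n0 + 1) → ℤ) → ℂ),
      (∀ n ∈ s, ∑ i, (n i : ℝ) ^ 2 = lam ^ 2) →
      ∫⁻ x in Sg, ENNReal.ofReal (‖FP.wave s a (fun i => x i)‖ ^ 2)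
        ∂(Measure.hausdorffMeasure (n0 : ℝ))
        ≤ ENNReal.ofReal (C *
          ∫ x in Set.pi Set.univ (fun _ : Fin (n0 + 1) => Set.Icc (0 : ℝ) (2 * Real.pi)),
            ‖FP.wave s a x‖ ^ 2) := by
  have hH : SpecCYH := CYHM.specCYH CV.HMM.specHM
  have hG : SpecCYG := CYGM.specCYG
  have hE : SpecCYE := CYEM.specCYE hG hH hU
  obtain ⟨C, hC0, h⟩ := CYFM.specCYF hR hC hE n0 Sg hc hp
  refine ⟨C, hC0, fun lam s a hs => ?_⟩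
  have h1 := h |lam| s a (abs_nonneg _) fun n hn =>
    CV.MainM.norm_zv n (abs_nonneg _) (by rw [sq_abs]; exact hs n hn)
  have h2 := FP.specPAR (n0 + 1) s a
  simp only [CV.MainM.es_eq] at h1
  refine h1.trans (ENNReal.ofReal_le_ofReal ?_)
  rw [h2]
  have h3 : (1 : ℝ) ≤ (2 * Real.pi) ^ (n0 + 1) :=
    one_le_pow₀ (by have := Real.pi_gt_three; linarith)
  have h4 : 0 ≤ ∑ n ∈ s, ‖a n‖ ^ 2 := Finset.sum_nonneg fun n _ => by positivity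
  have h6 : ∑ n ∈ s, ‖a n‖ ^ 2 ≤ (2 * Real.pi) ^ (n0 + 1) * ∑ n ∈ s, ‖a n‖ ^ 2 :=
    le_mul_of_one_le_left h4 h3
  exact mul_le_mul_of_nonneg_left h6 hC0.le

/-- from the orthogonality to `J` and `nu` to the orthogonality to the integer vectors -/
theorem cylAt_of {D k : ℕ} (Sg : Set (EE D)) (p : EE D)
    (h : ∃ (b : Fin (k + 1) → (Fin D → ℤ)) (J : EE k →ₗᵢ[ℝ] EE D) (nu : EE D) (g : EE k → ℝ) (rho : ℝ),
      ‖nu‖ = 1 ∧ (∀ v, inner ℝ nu (J v) = 0) ∧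
      Submodule.span ℝ (Set.range fun i => zv (b i)) =
        LinearMap.range J.toLinearMap ⊔ Submodule.span ℝ {nu} ∧
      ContDiff ℝ ∞ g ∧ g 0 = 0 ∧ fderiv ℝ g 0 = 0 ∧
      (∀ v : EE k, v ≠ 0 → 0 < fderiv ℝ (fderiv ℝ g) 0 v v) ∧ 0 < rho ∧
      ∀ x ∈ Sg, ‖x - p‖ < rho → ∃ (y : EE k) (v : EE D), (∀ w, inner ℝ (J w) v = 0) ∧ inner ℝ nu v = 0 ∧
        x = p + J y + g y • nu + v) : CylAt D k Sg p := by
  obtain ⟨b, J, nu, g, rho, h1, h2, h3, h4, h5, h6, h7, h8, h9⟩ := h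
  refine ⟨b, J, nu, g, rho, h1, h2, h3, h4, h5, h6, h7, h8, fun x hx hxp => ?_⟩
  obtain ⟨y, v, hv1, hv2, hv3⟩ := h9 x hx hxp
  refine ⟨y, v, fun i => ?_, hv3⟩
  have h10 : zv (b i) ∈ LinearMap.range J.toLinearMap ⊔ Submodule.span ℝ {nu} := by
    rw [← h3]
    exact Submodule.subset_span ⟨i, rfl⟩
  obtain ⟨y1, hy1, z1, hz1, hsum⟩ := Submodule.mem_sup.1 h10
  obtain ⟨w, rfl⟩ := hy1
  obtain ⟨t, rfl⟩ := Submodule.mem_span_singleton.1 hz1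
  rw [← hsum, inner_add_left, inner_smul_left]
  have h11 : inner ℝ (J.toLinearMap w) v = 0 := hv1 w
  rw [h11, hv2]
  simp

end Pool.Agent.Lib.MP_a8dae7_an.UN.CYMM
end
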