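import Pool.Agent.Lib.MP_a8dae7_an.UN.Defs
import Pool.Agent.Lib.MP_a8dae7_an.UN.SpecB
import Pool.Agent.Lib.MP_a8dae7_an.CV.SPL

section
/-!
# UN, module FD, part a: linear algebra of the fold

`det_proj_ge`: if `D v = J (T v) + ⟨q, T v⟩ nu`, `|T v| ≥ c |v|` and `iota` is an isometry onto `zet^⊥`, then
`|det (iota^* D)| ≥ c^k |⟨nu - J q, zet⟩|`.
-/
set_option autoImplicit false

open MeasureTheory
open scoped ContDiff

namespace Pool.Agent.Lib.MP_a8dae7_an.UN.FDM

open Pool.Agent.Lib.MP_a8dae7_an.CV (EE)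

/-- coordinates with respect to an isometry and a unit vector orthogonal to its range -/
theorem coord {k : ℕ} (J : EE k →ₗᵢ[ℝ] EE (k + 1)) {nu : EE (k + 1)} (h1 : ‖nu‖ = 1)
    (hp : ∀ v, inner ℝ nu (J v) = 0) (x : EE (k + 1)) : ∃ (u : EE k) (a : ℝ), x = J u + a • nu := by
  let T : (EE k × ℝ) →ₗ[ℝ] EE (k + 1) :=
    J.toLinearMap.coprod (LinearMap.toSpanSingleton ℝ _ nu)
  have hT : ∀ p, T p = J p.1 + p.2 • nu := fun p => by
    simp [T]
  have hinj : Function.Injective T := by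
    rw [injective_iff_map_eq_zero]
    intro p hp0
    rw [hT] at hp0
    have h2 : inner ℝ nu (J p.1 + p.2 • nu) = 0 := by rw [hp0, inner_zero_right]
    rw [inner_add_right, hp, inner_smul_right, real_inner_self_eq_norm_sq, h1] at h2
    have h3 : p.2 = 0 := by linarith
    rw [h3, zero_smul, add_zero] at hp0
    have h4 : p.1 = 0 := by
      have := J.norm_map p.1
      rw [hp0, norm_zero] at this
      exact norm_eq_zero.1 this.symm
    exact Prod.ext h4 h3
  have hfr : Module.finrank ℝ (EE k × ℝ) = Module.finrank ℝ (EE (k + 1)) := by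
    simp [EE]
  have hsur := (LinearMap.injective_iff_surjective_of_finrank_eq_finrank hfr).1 hinj
  obtain ⟨p, hp⟩ := hsur x
  exact ⟨p.1, p.2, by rw [← hp, hT]⟩

/-- lower bound of a determinant -/
theorem det_ge {n : ℕ} (A : EE n →ₗ[ℝ] EE n) {c : ℝ} (hc : 0 < c) (h : ∀ v, c * ‖v‖ ≤ ‖A v‖) :
    c ^ n ≤ |LinearMap.det A| := by
  have hinj : Function.Injective A := by
    rw [injective_iff_map_eq_zero]
    intro v hv
    have h1 := h v
    rw [hv, norm_zero] at h1
    have h2 : ‖v‖ ≤ 0 := by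
      by_contra h3
      push Not at h3
      have := mul_pos hc h3
      linarith
    exact norm_le_zero_iff.1 h2
  have hsur := LinearMap.injective_iff_surjective.1 hinj
  have h1 := Measure.addHaar_image_linearMap (volume : Measure (EE n)) A (Metric.closedBall 0 1)
  have h2 : Metric.closedBall (0 : EE n) c ⊆ A '' Metric.closedBall 0 1 := by
    intro y hy
    obtain ⟨x, rfl⟩ := hsur y
    refine ⟨x, ?_, rfl⟩
    rw [mem_closedBall_zero_iff] at hy ⊢
    have h3 := (h x).trans hy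
    by_contra h4
    push Not at h4
    have := mul_lt_mul_of_pos_left h4 hc
    linarith
  have h3 := measure_mono (μ := (volume : Measure (EE n))) h2
  rw [h1, Measure.addHaar_closedBall _ _ hc.le, Measure.addHaar_closedBall _ _ zero_le_one,
    one_pow, ENNReal.ofReal_one, one_mul, finrank_euclideanSpace_fin] at h3
  have h4 : (volume : Measure (EE n)) (Metric.ball 0 1) ≠ 0 :=
    (Metric.measure_ball_pos _ _ one_pos).ne'
  have h5 : (volume : Measure (EE n)) (Metric.ball 0 1) ≠ ⊤ := measure_ball_lt_top.ne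
  have h6 := (ENNReal.mul_le_mul_iff_left h4 h5).1 h3
  exact (ENNReal.ofReal_le_ofReal_iff (abs_nonneg _)).1 h6

/-- upper bound of a determinant -/
theorem det_le {n : ℕ} (A : EE n →ₗ[ℝ] EE n) {C : ℝ} (hC : 0 < C) (h : ∀ v, ‖A v‖ ≤ C * ‖v‖) :
    |LinearMap.det A| ≤ C ^ n := by
  have h1 := Measure.addHaar_image_linearMap (volume : Measure (EE n)) A (Metric.closedBall 0 1)
  have h2 : A '' Metric.closedBall 0 1 ⊆ Metric.closedBall (0 : EE n) C := by
    rintro _ ⟨x, hx, rfl⟩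
    rw [mem_closedBall_zero_iff] at hx ⊢
    refine (h x).trans ?_
    calc C * ‖x‖ ≤ C * 1 := mul_le_mul_of_nonneg_left hx hC.le
      _ = C := mul_one C
  have h3 := measure_mono (μ := (volume : Measure (EE n))) h2
  rw [h1, Measure.addHaar_closedBall _ _ hC.le, Measure.addHaar_closedBall _ _ zero_le_one,
    one_pow, ENNReal.ofReal_one, one_mul, finrank_euclideanSpace_fin] at h3
  have h4 : (volume : Measure (EE n)) (Metric.ball 0 1) ≠ 0 :=
    (Metric.measure_ball_pos _ _ one_pos).ne'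
  have h5 : (volume : Measure (EE n)) (Metric.ball 0 1) ≠ ⊤ := measure_ball_lt_top.ne
  have h6 := (ENNReal.mul_le_mul_iff_left h4 h5).1 h3
  exact (ENNReal.ofReal_le_ofReal_iff (by positivity)).1 h6

section adj

variable {k : ℕ} (iota : EE k →ₗᵢ[ℝ] EE (k + 1))

/-- the adjoint of the isometry -/
noncomputable def ad (iota : EE k →ₗᵢ[ℝ] EE (k + 1)) : EE (k + 1) →L[ℝ] EE k :=
  ContinuousLinearMap.adjoint iota.toContinuousLinearMap

theorem ad_inner (x : EE (k + 1)) (y : EE k) : inner ℝ (ad iota x) y = inner ℝ x (iota y) :=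
  ContinuousLinearMap.adjoint_inner_left iota.toContinuousLinearMap y x

theorem ad_iota (u : EE k) : ad iota (iota u) = u := by
  refine ext_inner_right ℝ fun y => ?_
  rw [ad_inner, iota.inner_map_map]

theorem ad_perp {zet : EE (k + 1)} (h : ∀ x, inner ℝ zet (iota x) = 0) : ad iota zet = 0 := by
  refine ext_inner_right ℝ fun y => ?_
  rw [ad_inner, h, inner_zero_left]

theorem ad_norm {zet : EE (k + 1)} (h1 : ‖zet‖ = 1) (h : ∀ x, inner ℝ zet (iota x) = 0)
    {x : EE (k + 1)} (hx : inner ℝ zet x = 0) : ‖ad iota x‖ = ‖x‖ := by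
  obtain ⟨u, a, hu⟩ := coord iota h1 h x
  have h2 : a = 0 := by
    have h3 := hx
    rw [hu, inner_add_right, h, inner_smul_right, real_inner_self_eq_norm_sq, h1] at h3
    linarith
  rw [hu, h2, zero_smul, add_zero, ad_iota, iota.norm_map]

theorem ad_eq_zero {zet : EE (k + 1)} (h1 : ‖zet‖ = 1) (h : ∀ x, inner ℝ zet (iota x) = 0)
    {x : EE (k + 1)} (hx : ad iota x = 0) : ∃ t : ℝ, x = t • zet := by
  obtain ⟨u, a, hu⟩ := coord iota h1 h x
  refine ⟨a, ?_⟩
  have h2 : u = 0 := by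
    have h3 := hx
    rw [hu, map_add, map_smul, ad_iota, ad_perp iota h, smul_zero, add_zero] at h3
    exact h3
  rw [hu, h2, map_zero, zero_add]

end adj

/-- the special isometry `w ↦ J w + ⟨e,w⟩ (eN - J e)` -/
noncomputable def II {k : ℕ} (J : EE k →ₗᵢ[ℝ] EE (k + 1)) (e : EE k) (eN : EE (k + 1)) :
    EE k →ₗ[ℝ] EE (k + 1) :=
  J.toLinearMap + (innerSL ℝ e).toLinearMap.smulRight (eN - J e)

theorem II_apply {k : ℕ} (J : EE k →ₗᵢ[ℝ] EE (k + 1)) (e : EE k) (eN : EE (k + 1)) (w : EE k) :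
    II J e eN w = J w + (inner ℝ e w : ℝ) • (eN - J e) := rfl

/-- **the determinant** -/
theorem det_proj_ge {k : ℕ} (J : EE k →ₗᵢ[ℝ] EE (k + 1)) {nu : EE (k + 1)} (hnu : ‖nu‖ = 1)
    (hperp : ∀ v, inner ℝ nu (J v) = 0) (iota : EE k →ₗᵢ[ℝ] EE (k + 1)) {zet : EE (k + 1)}
    (hz : ‖zet‖ = 1) (hiz : ∀ x, inner ℝ zet (iota x) = 0) {q : EE k}
    (hne : ∃ w, inner ℝ zet (J w) ≠ 0) (T : EE k →ₗ[ℝ] EE k) {c : ℝ} (hc : 0 < c)
    (hT : ∀ v, c * ‖v‖ ≤ ‖T v‖) (D : EE k →L[ℝ] EE (k + 1))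
    (hD : ∀ v, D v = J (T v) + (inner ℝ q (T v) : ℝ) • nu) :
    c ^ k * |inner ℝ (nu - J q) zet| ≤ |((ad iota).comp D).det| := by
  obtain ⟨p, a, hpa⟩ := coord J hnu hperp zet
  have hnn : inner ℝ nu nu = (1 : ℝ) := by rw [real_inner_self_eq_norm_sq, hnu, one_pow]
  have hperp' : ∀ v, inner ℝ (J v) nu = 0 := fun v => by rw [real_inner_comm]; exact hperp v
  have hp0 : p ≠ 0 := by
    rintro rfl
    obtain ⟨w, hw⟩ := hne
    apply hw
    rw [hpa, map_zero, zero_add, inner_smul_left, hperp, mul_zero]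
  have hpn : 0 < ‖p‖ := norm_pos_iff.2 hp0
  have hsum : ‖p‖ ^ 2 + a ^ 2 = 1 := by
    have h1 : ‖zet‖ ^ 2 = 1 := by rw [hz, one_pow]
    rw [← real_inner_self_eq_norm_sq, hpa, inner_add_left, inner_add_right, inner_add_right,
      inner_smul_left, inner_smul_right, inner_smul_left, inner_smul_right, hperp, hperp', hnn,
      J.inner_map_map, real_inner_self_eq_norm_sq] at h1
    simp only [conj_trivial] at h1
    linarith
  obtain ⟨e, he⟩ : ∃ e, e = ‖p‖⁻¹ • p := ⟨_, rfl⟩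
  have hpe : p = ‖p‖ • e := by
    rw [he, smul_smul, mul_inv_cancel₀ hpn.ne', one_smul]
  have he1 : ‖e‖ = 1 := by
    rw [he, norm_smul, norm_inv, norm_norm, inv_mul_cancel₀ hpn.ne']
  have hee : inner ℝ e e = (1 : ℝ) := by rw [real_inner_self_eq_norm_sq, he1, one_pow]
  obtain ⟨P, hP⟩ : ∃ P, P = ‖p‖ := ⟨_, rfl⟩
  rw [← hP] at hsum hpe hpn
  have hzet : zet = P • J e + a • nu := by rw [hpa, hpe, map_smul]
  obtain ⟨eN, heN⟩ : ∃ eN, eN = P • nu - a • J e := ⟨_, rfl⟩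
  -- the functional
  let f : Module.Dual ℝ (EE k) :=
    P • (innerSL ℝ q).toLinearMap - (a + 1) • (innerSL ℝ e).toLinearMap
  have hf : ∀ w, f w = P * inner ℝ q w - (a + 1) * inner ℝ e w := fun w => rfl
  let G : EE k →ₗ[ℝ] EE k := LinearMap.transvection f e
  have hG : ∀ w, G w = w + f w • e := fun w => rfl
  have hdetG : LinearMap.det G = -inner ℝ (nu - J q) zet := by
    have h1 : LinearMap.det G = 1 + f e := LinearMap.transvection.det f e
    rw [h1, hf, hzet, hee, inner_sub_left, inner_add_right, inner_add_right, inner_smul_right,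
      inner_smul_right, inner_smul_right, inner_smul_right, hperp, hperp', hnn, J.inner_map_map]
    ring
  have hkey : ∀ w, J w + (inner ℝ q w : ℝ) • nu = II J e eN (G w) +
      (a * inner ℝ q w + P * inner ℝ e w : ℝ) • zet := by
    intro w
    rw [II_apply, hG, map_add, map_smul, inner_add_right, inner_smul_right, hee, hf, heN, hzet]
    have e1 : a ^ 2 = 1 - P ^ 2 := by linarith
    have e2 : (P * inner ℝ q w - (a + 1) * inner ℝ e w : ℝ) • J e +
        (inner ℝ e w + (P * inner ℝ q w - (a + 1) * inner ℝ e w) * 1 : ℝ) •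
          (P • nu - a • J e - J e) + (a * inner ℝ q w + P * inner ℝ e w : ℝ) •
          (P • J e + a • nu) = ((P ^ 2 + a ^ 2) * inner ℝ q w : ℝ) • nu +
          (((P ^ 2 + a ^ 2) - 1) * inner ℝ e w : ℝ) • J e := by
      module
    rw [hsum] at e2
    rw [sub_self, zero_mul, zero_smul, add_zero, one_mul] at e2
    rw [← e2]
    abel
  have hII : ∀ w, inner ℝ zet (II J e eN w) = 0 := by
    intro w
    rw [II_apply, hzet, heN, inner_add_right, inner_smul_right, inner_sub_right, inner_sub_right]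
    simp only [inner_add_left, inner_smul_left, inner_smul_right, hperp, hperp', hnn,
      J.inner_map_map, hee, conj_trivial]
    ring
  have hIIn : ∀ w, ‖II J e eN w‖ = ‖w‖ := by
    intro w
    have h1 : ‖II J e eN w‖ ^ 2 = ‖w‖ ^ 2 := by
      have h2 : II J e eN w = J w + (-(a + 1) * inner ℝ e w : ℝ) • J e +
          (P * inner ℝ e w : ℝ) • nu := by
        rw [II_apply, heN]
        module
      rw [h2, ← real_inner_self_eq_norm_sq]
      simp only [inner_add_left, inner_add_right, inner_smul_left, inner_smul_right, hperp,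
        hperp', hnn, J.inner_map_map, hee, conj_trivial]
      rw [real_inner_self_eq_norm_sq, real_inner_comm e w]
      have h3 : P ^ 2 = 1 - a ^ 2 := by linarith
      linear_combination (inner ℝ e w) ^ 2 * h3
    exact (sq_eq_sq₀ (norm_nonneg _) (norm_nonneg _)).1 h1
  let W : EE k →ₗ[ℝ] EE k := (ad iota).toLinearMap ∘ₗ II J e eN
  have hW : 1 ≤ |LinearMap.det W| := by
    have h1 := det_ge W one_pos (fun v => by
      have h2 : W v = ad iota (II J e eN v) := rfl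
      rw [h2, ad_norm iota hz hiz (hII v), hIIn, one_mul])
    rwa [one_pow] at h1
  have hcomp : ((ad iota).comp D : EE k →L[ℝ] EE k).toLinearMap = W ∘ₗ (G ∘ₗ T) := by
    refine LinearMap.ext fun v => ?_
    show ad iota (D v) = ad iota (II J e eN (G (T v)))
    rw [hD, hkey, map_add, map_smul, ad_perp iota hiz, smul_zero, add_zero]
  have hdet : ((ad iota).comp D).det = LinearMap.det W * (LinearMap.det G * LinearMap.det T) := by
    show LinearMap.det ((ad iota).comp D : EE k →L[ℝ] EE k).toLinearMap = _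
    rw [hcomp, LinearMap.det_comp, LinearMap.det_comp]
  rw [hdet, abs_mul, abs_mul, hdetG, abs_neg]
  have h1 := det_ge T hc hT
  have h2 : 0 ≤ |inner ℝ (nu - J q) zet| := abs_nonneg _
  calc c ^ k * |inner ℝ (nu - J q) zet| ≤ |LinearMap.det T| * |inner ℝ (nu - J q) zet| :=
        mul_le_mul_of_nonneg_right h1 h2
    _ = 1 * (|inner ℝ (nu - J q) zet| * |LinearMap.det T|) := by ring
    _ ≤ _ := mul_le_mul_of_nonneg_right hW (by positivity)

end Pool.Agent.Lib.MP_a8dae7_an.UN.FDM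
end

section
/-!
# UN, module FD, part b: domination of measures (abstract) and small measure facts
-/
set_option autoImplicit false

open MeasureTheory
open scoped ContDiff ENNReal

namespace Pool.Agent.Lib.MP_a8dae7_an.UN.FDM

open Pool.Agent.Lib.MP_a8dae7_an.CV (EE)

/-- Two uses of the area formula. -/
theorem dom {n : ℕ} {Xi Phi : EE n → EE n} {Xi' Phi' : EE n → (EE n →L[ℝ] EE n)} {S Om : Set (EE n)}
    {H : EE n → ℝ} {K1 K2 : ℝ} (F : EE n → ℝ≥0∞) (hS : MeasurableSet S) (hOm : MeasurableSet Om)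
    (hXi : ∀ q ∈ S, HasFDerivAt Xi (Xi' q) q) (hPhi : ∀ p ∈ Om, HasFDerivAt Phi (Phi' p) p)
    (hi1 : Set.InjOn Xi S) (hi2 : Set.InjOn Phi Om) (hK1 : 0 ≤ K1) (hH : ∀ p ∈ Om, 0 < H p)
    (h1 : ∀ q ∈ S, ∃ p ∈ Om, Phi p = Xi q ∧ Real.sqrt (H p) ≤ K1 * |(Xi' q).det|)
    (h2 : ∀ p ∈ Om, |(Phi' p).det| ≤ K2) :
    ∫⁻ q in S, F (Xi q) ≤ ENNReal.ofReal K1 * (ENNReal.ofReal K2 *
      ∫⁻ p in Om, ENNReal.ofReal (Real.sqrt (H p))⁻¹ * F (Phi p)) := by
  classical
  obtain ⟨kap, hkap⟩ : ∃ kap : EE n → ℝ≥0∞, ∀ p ∈ Om, kap (Phi p) =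
      ENNReal.ofReal (Real.sqrt (H p))⁻¹ := by
    refine ⟨fun y => ENNReal.ofReal (Real.sqrt (H (Function.invFunOn Phi Om y)))⁻¹, fun p hp => ?_⟩
    show ENNReal.ofReal (Real.sqrt (H (Function.invFunOn Phi Om (Phi p))))⁻¹ = _
    rw [hi2.leftInvOn_invFunOn hp]
  have hsub : Xi '' S ⊆ Phi '' Om := by
    rintro _ ⟨q, hq, rfl⟩
    obtain ⟨p, hp, hpq, _⟩ := h1 q hq
    exact ⟨p, hp, hpq⟩
  have s1 : ∫⁻ q in S, F (Xi q) ≤ ENNReal.ofReal K1 *
      ∫⁻ q in S, ENNReal.ofReal |(Xi' q).det| * (kap (Xi q) * F (Xi q)) := by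
    rw [← lintegral_const_mul' _ _ ENNReal.ofReal_ne_top]
    refine setLIntegral_mono' hS fun q hq => ?_
    obtain ⟨p, hp, hpq, hle⟩ := h1 q hq
    rw [← hpq, hkap p hp, ← mul_assoc, ← mul_assoc, ← ENNReal.ofReal_mul hK1]
    have h3 : 0 < Real.sqrt (H p) := Real.sqrt_pos.2 (hH p hp)
    rw [← ENNReal.ofReal_mul (by positivity)]
    have h4 : 1 ≤ K1 * |(Xi' q).det| * (Real.sqrt (H p))⁻¹ := by
      rw [← div_eq_mul_inv, one_le_div h3]
      exact hle
    calc F (Phi p) = 1 * F (Phi p) := (one_mul _).symm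
      _ ≤ _ := mul_le_mul_left (ENNReal.one_le_ofReal.2 h4) _
  have s2 : ∫⁻ q in S, ENNReal.ofReal |(Xi' q).det| * (kap (Xi q) * F (Xi q)) =
      ∫⁻ y in Xi '' S, kap y * F y :=
    (lintegral_image_eq_lintegral_abs_det_fderiv_mul volume hS
      (fun q hq => (hXi q hq).hasFDerivWithinAt) hi1 (fun y => kap y * F y)).symm
  have s3 : ∫⁻ y in Xi '' S, kap y * F y ≤ ∫⁻ y in Phi '' Om, kap y * F y :=
    lintegral_mono_set hsub
  have s4 : ∫⁻ y in Phi '' Om, kap y * F y =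
      ∫⁻ p in Om, ENNReal.ofReal |(Phi' p).det| * (kap (Phi p) * F (Phi p)) :=
    lintegral_image_eq_lintegral_abs_det_fderiv_mul volume hOm
      (fun p hp => (hPhi p hp).hasFDerivWithinAt) hi2 (fun y => kap y * F y)
  have s5 : ∫⁻ p in Om, ENNReal.ofReal |(Phi' p).det| * (kap (Phi p) * F (Phi p)) ≤
      ENNReal.ofReal K2 * ∫⁻ p in Om, ENNReal.ofReal (Real.sqrt (H p))⁻¹ * F (Phi p) := by
    rw [← lintegral_const_mul' _ _ ENNReal.ofReal_ne_top]
    refine setLIntegral_mono' hOm fun p hp => ?_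
    rw [hkap p hp]
    exact mul_le_mul_left (ENNReal.ofReal_le_ofReal (h2 p hp)) _
  calc ∫⁻ q in S, F (Xi q) ≤ _ := s1
    _ ≤ _ := mul_le_mul_right ((s2.trans_le s3).trans (s4.trans_le s5)) _

/-- a hyperplane is a null set -/
theorem null {n : ℕ} (f : EE n →ₗ[ℝ] ℝ) (hf : ∃ w, f w ≠ 0) (a : ℝ) :
    volume {q : EE n | f q = a} = 0 := by
  rcases Set.eq_empty_or_nonempty {q : EE n | f q = a} with h | ⟨q0, h0⟩
  · rw [h, measure_empty]
  · have h1 : {q : EE n | f q = a} = (fun x => x + (-q0)) ⁻¹' (LinearMap.ker f : Set (EE n)) := by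
      ext q
      have h2 : f q0 = a := h0
      simp only [Set.mem_ofPred_eq, Set.mem_preimage, SetLike.mem_coe, LinearMap.mem_ker, map_add,
        map_neg, h2]
      constructor
      · intro h; linarith
      · intro h; linarith
    rw [h1, measure_preimage_add_right]
    refine Measure.addHaar_submodule _ _ fun h2 => ?_
    obtain ⟨w, hw⟩ := hf
    apply hw
    have h3 : w ∈ LinearMap.ker f := by rw [h2]; trivial
    exact h3

end Pool.Agent.Lib.MP_a8dae7_an.UN.FDM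
end

section
/-!
# UN, module FD: domination of measures at a fold

`specFD : SpecFD` from `SpecCX` and `SpecFF`.
-/
set_option autoImplicit false

open MeasureTheory
open scoped ContDiff ENNReal

namespace Pool.Agent.Lib.MP_a8dae7_an.UN.FDM

open Pool.Agent.Lib.MP_a8dae7_an.CV (EE)

variable {m : ℕ} {c R : ℝ} {M : ℕ → ℝ}

theorem two_dl_le {k : ℕ} {R : ℝ} (hR : 0 < R) : 2 * dl (k + 1) R ≤ R := by
  unfold dl
  have h1 : (1 : ℝ) ≤ 32 ^ (k + 1) := one_le_pow₀ (by norm_num)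
  rw [← mul_div_assoc, div_le_iff₀ (by positivity)]
  nlinarith

theorem dl_le {k : ℕ} {R : ℝ} (hR : 0 < R) : dl k R ≤ R := by
  unfold dl
  have h1 : (1 : ℝ) ≤ 32 ^ k := one_le_pow₀ (by norm_num)
  rw [div_le_iff₀ (by positivity)]
  nlinarith

/-- the derivative of `X` in coordinates -/
theorem fderiv_coord (ch : UChart (m + 1) c R M) {q : EE (m + 1)} (hq : ‖q‖ ≤ R) (v : EE (m + 1)) :
    fderiv ℝ ch.X q v = ch.J (ad ch.J (fderiv ℝ ch.X q v)) +
      (inner ℝ q (ad ch.J (fderiv ℝ ch.X q v)) : ℝ) • ch.nu := by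
  obtain ⟨u, a, hu⟩ := coord ch.J ch.nu_one ch.nu_perp (fderiv ℝ ch.X q v)
  have h1 : ad ch.J (fderiv ℝ ch.X q v) = u := by
    rw [hu, map_add, map_smul, ad_iota, ad_perp ch.J ch.nu_perp, smul_zero, add_zero]
  have h2 := ch.perp q v hq
  rw [hu, inner_sub_left, inner_add_right, inner_add_right, ch.nu_perp, inner_smul_right,
    inner_smul_right, real_inner_comm ch.nu (ch.J q), ch.nu_perp, real_inner_self_eq_norm_sq,
    ch.nu_one, ch.J.inner_map_map] at h2
  have h3 : a = inner ℝ q u := by linarith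
  rw [h1, hu, h3]

theorem T_ge (ch : UChart (m + 1) c R M) {q : EE (m + 1)} (hq : ‖q‖ ≤ R) (v : EE (m + 1)) :
    c * ‖v‖ ≤ ‖ad ch.J (fderiv ℝ ch.X q v)‖ := by
  have h1 := ch.mono q v hq
  have h2 : inner ℝ (ad ch.J (fderiv ℝ ch.X q v)) v = inner ℝ (ch.J v) (fderiv ℝ ch.X q v) := by
    rw [ad_inner, real_inner_comm]
  have h3 := real_inner_le_norm (ad ch.J (fderiv ℝ ch.X q v)) v
  rw [h2] at h3
  rcases (norm_nonneg v).eq_or_lt with h4 | h4
  · rw [← h4, mul_zero]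
    exact norm_nonneg _
  · have h5 : c * ‖v‖ * ‖v‖ ≤ ‖ad ch.J (fderiv ℝ ch.X q v)‖ * ‖v‖ := by
      calc c * ‖v‖ * ‖v‖ = c * ‖v‖ ^ 2 := by ring
        _ ≤ _ := h1.trans h3
    exact le_of_mul_le_mul_right h5 h4

/-- the projection is injective on each side of the fold -/
theorem inj_side (hCX : SpecCX) (hc : Cls c R M) (ch : UChart (m + 1) c R M) {zet : EE (m + 2)}
    {iota : EE (m + 1) →ₗᵢ[ℝ] EE (m + 2)} (hz : ‖zet‖ = 1) (hiz : ∀ x, inner ℝ zet (iota x) = 0)
    {q q' : EE (m + 1)} (hq : ‖q‖ ≤ R) (hq' : ‖q'‖ ≤ R)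
    (hs : 0 < inner ℝ (ch.nu - ch.J q) zet * inner ℝ (ch.nu - ch.J q') zet)
    (h : ad iota (ch.X q) = ad iota (ch.X q')) : q = q' := by
  by_contra hne
  have h0 : ad iota (ch.X q' - ch.X q) = 0 := by rw [map_sub, h, sub_self]
  obtain ⟨t, ht⟩ := ad_eq_zero iota hz hiz h0
  obtain ⟨_, _, h1, _⟩ := hCX (m + 1) c R M hc ch q q' hq hq'
  obtain ⟨_, _, h2, _⟩ := hCX (m + 1) c R M hc ch q' q hq' hq
  have h3 : ch.X q - ch.X q' = (-t) • zet := by rw [neg_smul, ← ht]; abel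
  rw [ht, inner_smul_right] at h1
  rw [h3, inner_smul_right] at h2
  have h4 : 0 < ‖q' - q‖ ^ 2 := by
    have : 0 < ‖q' - q‖ := norm_pos_iff.2 (sub_ne_zero.2 (Ne.symm hne))
    positivity
  have h5 : 0 < ‖q - q'‖ ^ 2 := by rw [norm_sub_rev]; exact h4
  have hc0 := hc.c_pos
  have h6 : 0 < t * inner ℝ (ch.nu - ch.J q) zet := by
    have : 0 < c / 2 * ‖q' - q‖ ^ 2 := by positivity
    linarith
  have h7 : 0 < -t * inner ℝ (ch.nu - ch.J q') zet := by
    have : 0 < c / 2 * ‖q - q'‖ ^ 2 := by positivity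
    linarith
  have h8 := mul_pos h6 h7
  have h9 : t * inner ℝ (ch.nu - ch.J q) zet * (-t * inner ℝ (ch.nu - ch.J q') zet) =
      -(t ^ 2 * (inner ℝ (ch.nu - ch.J q) zet * inner ℝ (ch.nu - ch.J q') zet)) := by ring
  rw [h9] at h8
  have h10 := mul_nonneg (sq_nonneg t) hs.le
  linarith

theorem sn_linear (ch : UChart (m + 1) c R M) (zet : EE (m + 2)) (q : EE (m + 1)) :
    inner ℝ (ch.nu - ch.J q) zet = inner ℝ ch.nu zet - inner ℝ (ad ch.J zet) q := by
  rw [inner_sub_left, ad_inner, real_inner_comm zet (ch.J q)]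

/-- the fold coordinates -/
noncomputable def Ph {k : ℕ} {c' R' : ℝ} {M' : ℕ → ℝ} (ch' : UChart k c' R' M') (e : EE (k + 1))
    (L : EE k →ₗᵢ[ℝ] EE (k + 1)) (p : EE (k + 1)) : EE (k + 1) :=
  ch'.X (ad L p) + (inner ℝ e p : ℝ) • ch'.nu

noncomputable def Ph' {k : ℕ} {c' R' : ℝ} {M' : ℕ → ℝ} (ch' : UChart k c' R' M') (e : EE (k + 1))
    (L : EE k →ₗᵢ[ℝ] EE (k + 1)) (p : EE (k + 1)) : EE (k + 1) →L[ℝ] EE (k + 1) :=
  (fderiv ℝ ch'.X (ad L p)).comp (ad L) + (innerSL ℝ e).smulRight ch'.nu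

theorem Ph_hasFDerivAt {k : ℕ} {c' R' : ℝ} {M' : ℕ → ℝ} (ch' : UChart k c' R' M') (e : EE (k + 1))
    (L : EE k →ₗᵢ[ℝ] EE (k + 1)) (p : EE (k + 1)) : HasFDerivAt (Ph ch' e L) (Ph' ch' e L p) p := by
  have h1 : HasFDerivAt ch'.X (fderiv ℝ ch'.X (ad L p)) (ad L p) :=
    (ch'.smooth.differentiable (by norm_num) _).hasFDerivAt
  have h2 : HasFDerivAt (fun p => ch'.X (ad L p)) ((fderiv ℝ ch'.X (ad L p)).comp (ad L)) p :=
    h1.comp p (ad L).hasFDerivAt
  have h3 : HasFDerivAt (fun p => (inner ℝ e p : ℝ) • ch'.nu) ((innerSL ℝ e).smulRight ch'.nu) p :=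
    ((innerSL ℝ e).hasFDerivAt).smul_const ch'.nu
  exact h2.add h3

theorem ad_norm_le {k : ℕ} (L : EE k →ₗᵢ[ℝ] EE (k + 1)) (p : EE (k + 1)) : ‖ad L p‖ ≤ ‖p‖ := by
  have h1 : ‖ad L p‖ ^ 2 ≤ ‖ad L p‖ * ‖p‖ := by
    have h2 : inner ℝ (ad L p) (ad L p) = inner ℝ p (L (ad L p)) := ad_inner L p (ad L p)
    rw [real_inner_self_eq_norm_sq] at h2
    rw [h2]
    refine (real_inner_le_norm _ _).trans ?_
    rw [L.norm_map, mul_comm]
  rcases (norm_nonneg (ad L p)).eq_or_lt with h | h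
  · rw [← h]; exact norm_nonneg _
  · have h3 : ‖ad L p‖ * ‖ad L p‖ ≤ ‖ad L p‖ * ‖p‖ := by
      calc _ = ‖ad L p‖ ^ 2 := by ring
        _ ≤ _ := h1
    exact le_of_mul_le_mul_left h3 h

theorem Ph'_det_le {k : ℕ} {c' R' : ℝ} {M' : ℕ → ℝ} (ch' : UChart k c' R' M') {e : EE (k + 1)}
    (he : ‖e‖ = 1) (L : EE k →ₗᵢ[ℝ] EE (k + 1)) {p : EE (k + 1)} (hp : ‖ad L p‖ ≤ R') {B : ℝ}
    (hB : M' 1 ≤ B) (hB0 : 0 ≤ B) : |(Ph' ch' e L p).det| ≤ (B + 1) ^ (k + 1) := by
  refine det_le (Ph' ch' e L p).toLinearMap (by positivity) fun v => ?_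
  have h1 : ‖fderiv ℝ ch'.X (ad L p)‖ ≤ B := by
    have h2 := ch'.bd 1 le_rfl (ad L p) hp
    rw [norm_iteratedFDeriv_one] at h2
    exact h2.trans hB
  have h3 : (Ph' ch' e L p).toLinearMap v = fderiv ℝ ch'.X (ad L p) (ad L v) +
      (inner ℝ e v : ℝ) • ch'.nu := rfl
  rw [h3]
  refine (norm_add_le _ _).trans ?_
  have h4 : ‖fderiv ℝ ch'.X (ad L p) (ad L v)‖ ≤ B * ‖v‖ :=
    ((fderiv ℝ ch'.X (ad L p)).le_opNorm _).trans
      (mul_le_mul h1 (ad_norm_le L v) (norm_nonneg _) hB0)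
  have h5 : ‖(inner ℝ e v : ℝ) • ch'.nu‖ ≤ 1 * ‖v‖ := by
    rw [norm_smul, ch'.nu_one, mul_one, Real.norm_eq_abs]
    refine (abs_real_inner_le_norm _ _).trans ?_
    rw [he]
  calc _ ≤ B * ‖v‖ + 1 * ‖v‖ := add_le_add h4 h5
    _ = _ := by ring

theorem cls' (hc : Cls c R M) : Cls c (R / 8) (fun j => 2 ^ j * M j) where
  c_pos := hc.c_pos
  R_pos := by have := hc.R_pos; positivity
  R_le := by have := hc.R_le; have := hc.R_pos; linarith
  M2 := by
    have h1 := hc.M2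
    have h2 := hc.c_pos
    have h3 : 4 * (2 ^ 2 * M 2) * (R / 8) = 2 * (M 2 * R) := by ring
    rw [h3]
    rcases le_total 0 (M 2 * R) with h4 | h4
    · nlinarith
    · linarith

/-- the fold coordinates are injective -/
theorem Ph_inj (hCX : SpecCX) {k : ℕ} {c' R' : ℝ} {M' : ℕ → ℝ} (hc' : Cls c' R' M')
    (ch' : UChart k c' R' M') {e : EE (k + 1)} (L : EE k →ₗᵢ[ℝ] EE (k + 1))
    (hdec : ∀ p : EE (k + 1), p = (inner ℝ e p : ℝ) • e + L (ad L p))
    {p p' : EE (k + 1)} (hp : ‖ad L p‖ ≤ R') (hp' : ‖ad L p'‖ ≤ R')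
    (h : Ph ch' e L p = Ph ch' e L p') : p = p' := by
  have h0 : ch'.X (ad L p') - ch'.X (ad L p) =
      (inner ℝ e p - inner ℝ e p' : ℝ) • ch'.nu := by
    unfold Ph at h
    rw [sub_smul, sub_eq_sub_iff_add_eq_add, ← h]
    abel
  obtain ⟨_, _, _, _, h1, _⟩ := hCX k c' R' M' hc' ch' (ad L p) (ad L p') hp hp'
  rw [h0, inner_smul_right, real_inner_comm ch'.nu, ch'.nu_perp, mul_zero] at h1
  have h2 : ‖ad L p' - ad L p‖ = 0 := by
    by_contra h3
    have h4 : 0 < ‖ad L p' - ad L p‖ := lt_of_le_of_ne (norm_nonneg _) (Ne.symm h3)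
    have := hc'.c_pos
    have : 0 < c' * ‖ad L p' - ad L p‖ ^ 2 := by positivity
    linarith
  have h3 : ad L p' = ad L p := sub_eq_zero.1 (norm_eq_zero.1 h2)
  rw [h3, sub_self] at h0
  have h4 : inner ℝ e p - inner ℝ e p' = (0 : ℝ) := by
    have h5 := congrArg norm h0
    rw [norm_zero, norm_smul, ch'.nu_one, mul_one] at h5
    exact norm_eq_zero.1 h5.symm
  rw [hdec p, hdec p', h3, sub_eq_zero.1 h4]

theorem specFD (hCX : SpecCX) (hFF : SpecFF) : SpecFD := by
  intro m c R M hc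
  obtain ⟨CF, cF, hCF, hcF, hff⟩ := hFF m c R M hc
  have hc0 := hc.c_pos
  have hR0 := hc.R_pos
  obtain ⟨K1, hK1⟩ : ∃ K1 : ℝ, K1 = Real.sqrt CF / c ^ (m + 1) := ⟨_, rfl⟩
  obtain ⟨K2, hK2⟩ : ∃ K2 : ℝ, K2 = (2 * |M 1| + 1) ^ (m + 1) := ⟨_, rfl⟩
  have hK1p : 0 ≤ K1 := by rw [hK1]; positivity
  have hK2p : 0 ≤ K2 := by rw [hK2]; positivity
  refine ⟨CF + 2 * (K1 * K2), min cF (1 / 2), by positivity, lt_min hcF (by norm_num), ?_⟩
  intro ch zet iota th hz hiz hth hth8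
  rcases hff ch zet iota th hz hiz hth (hth8.trans (min_le_left _ _)) with h | ⟨ch', hDm, hq⟩
  · exact Or.inl h
  refine Or.inr ⟨ch', hDm, fun F hF => ?_⟩
  have hth1 : th ≤ 1 / 2 := hth8.trans (min_le_right _ _)
  have h2dl : 2 * dl (m + 1) R ≤ R := two_dl_le hR0
  set D' : Set (EE (m + 1)) := {q : EE (m + 1) | ‖q‖ ≤ 2 * dl (m + 1) R ∧
    |inner ℝ (ch.nu - ch.J q) zet| ≤ th} with hD'
  have hcs : Continuous fun q : EE (m + 1) => (inner ℝ (ch.nu - ch.J q) zet : ℝ) :=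
    (continuous_const.sub ch.J.continuous).inner continuous_const
  have hD'm : MeasurableSet D' :=
    (measurableSet_le continuous_norm.measurable measurable_const).inter
      (measurableSet_le hcs.abs.measurable measurable_const)
  by_cases hne : ∃ w, inner ℝ zet (ch.J w) ≠ 0
  swap
  · push Not at hne
    have hempty : D' = ∅ := by
      rw [Set.eq_empty_iff_forall_notMem]
      rintro q ⟨_, hq2⟩
      obtain ⟨u, a, hu⟩ := coord ch.J ch.nu_one ch.nu_perp zet
      have h1 : u = 0 := by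
        have h2 := hne u
        rw [hu, inner_add_left, inner_smul_left, ch.nu_perp, ch.J.inner_map_map,
          real_inner_self_eq_norm_sq, mul_zero, add_zero] at h2
        exact norm_eq_zero.1 (pow_eq_zero_iff (two_ne_zero) |>.1 h2)
      rw [h1, map_zero, zero_add] at hu
      have h3 : |a| = 1 := by
        have h4 := hz
        rw [hu, norm_smul, ch.nu_one, mul_one, Real.norm_eq_abs] at h4
        exact h4
      have h5 : inner ℝ (ch.nu - ch.J q) zet = a := by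
        rw [hu, inner_smul_right, inner_sub_left, real_inner_self_eq_norm_sq, ch.nu_one,
          real_inner_comm ch.nu, ch.nu_perp]
        ring
      rw [h5, h3] at hq2
      linarith
    rw [hempty, setLIntegral_empty]
    exact bot_le
  -- the slices of the parameter space of the fold coordinates
  obtain ⟨e, he⟩ : ∃ e : EE (m + 1), ‖e‖ = 1 := ⟨EuclideanSpace.single 0 1, by simp⟩
  obtain ⟨L, heL, hL, hLe, hLp⟩ := CV.specSPL m e he
  have hadL : ∀ (h : ℝ) (b : EE m), ad L (h • e + L b) = b := fun h b => by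
    rw [map_add, map_smul, ad_perp L heL, smul_zero, zero_add, ad_iota]
  have heh : ∀ (h : ℝ) (b : EE m), inner ℝ e (h • e + L b) = h := fun h b => by
    rw [inner_add_right, inner_smul_right, heL, real_inner_self_eq_norm_sq, he]
    ring
  have hdec : ∀ p : EE (m + 1), p = (inner ℝ e p : ℝ) • e + L (ad L p) := by
    intro p
    obtain ⟨b, hb⟩ := hL p
    have h1 : ad L p = b := by rw [hb]; exact hadL _ _
    rw [h1]
    exact hb
  set Om : Set (EE (m + 1)) := {p | 0 < inner ℝ e p ∧ inner ℝ e p ≤ CF * th ^ 2 ∧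
    ‖ad L p‖ ≤ dl m (R / 8)} with hOm
  have hce : Continuous fun p : EE (m + 1) => (inner ℝ e p : ℝ) :=
    continuous_const.inner continuous_id
  have hOmm : MeasurableSet Om :=
    (measurableSet_lt measurable_const hce.measurable).inter
      ((measurableSet_le hce.measurable measurable_const).inter
        (measurableSet_le (ad L).continuous.norm.measurable measurable_const))
  have hc' := cls' hc
  have hdl' : dl m (R / 8) ≤ R / 8 := dl_le (by positivity)
  -- one side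
  have side : ∀ S : Set (EE (m + 1)), MeasurableSet S → S ⊆ D' →
      (∀ q ∈ S, ∀ q' ∈ S, 0 < inner ℝ (ch.nu - ch.J q) zet * inner ℝ (ch.nu - ch.J q') zet) →
      ∫⁻ q in S, F (ad iota (ch.X q)) ≤ ENNReal.ofReal K1 * (ENNReal.ofReal K2 *
        ∫⁻ p in Om, ENNReal.ofReal (Real.sqrt (inner ℝ e p))⁻¹ * F (Ph ch' e L p)) := by
    intro S hS hSD hpos
    refine dom (Xi := fun q => ad iota (ch.X q)) (Xi' := fun q => (ad iota).comp (fderiv ℝ ch.X q))
      (Phi := Ph ch' e L) (Phi' := Ph' ch' e L) (H := fun p => inner ℝ e p) F hS hOmm ?_ ?_ ?_ ?_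
      hK1p ?_ ?_ ?_
    · intro q _
      exact (ad iota).hasFDerivAt.comp q (ch.smooth.differentiable (by norm_num) q).hasFDerivAt
    · intro p _
      exact Ph_hasFDerivAt ch' e L p
    · intro q hq1 q' hq1' h
      exact inj_side hCX hc ch hz hiz ((hSD hq1).1.trans h2dl) ((hSD hq1').1.trans h2dl)
        (hpos q hq1 q' hq1') h
    · intro p hp p' hp' h
      exact Ph_inj hCX hc' ch' L hdec (hp.2.2.trans hdl') (hp'.2.2.trans hdl') h
    · intro p hp
      exact hp.1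
    · intro q hq1
      obtain ⟨hq2, hq3⟩ := hSD hq1
      obtain ⟨b, h, hb, h0, hCs, hsC, heq⟩ := hq q hq2 hq3
      have hs0 := hpos q hq1 q hq1
      obtain ⟨s, hs⟩ : ∃ s : ℝ, s = inner ℝ (ch.nu - ch.J q) zet := ⟨_, rfl⟩
      rw [← hs] at hCs hsC hs0 hq3
      have hs2 : 0 < s ^ 2 := by rw [sq]; exact hs0
      have hh : 0 < h := by
        by_contra h3
        have h4 : h = 0 := le_antisymm (not_lt.1 h3) h0
        rw [h4, mul_zero] at hsC
        linarith
      refine ⟨h • e + L b, ⟨?_, ?_, ?_⟩, ?_, ?_⟩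
      · rw [heh]; exact hh
      · rw [heh]
        refine hCs.trans (mul_le_mul_of_nonneg_left ?_ hCF.le)
        rw [← sq_abs]
        exact pow_le_pow_left₀ (abs_nonneg _) hq3 2
      · rw [hadL]; exact hb
      · show Ph ch' e L (h • e + L b) = ad iota (ch.X q)
        unfold Ph
        rw [hadL, heh]
        exact heq.symm
      · show Real.sqrt (inner ℝ e (h • e + L b)) ≤ K1 * |((ad iota).comp (fderiv ℝ ch.X q)).det|
        rw [heh]
        have h5 := det_proj_ge ch.J ch.nu_one ch.nu_perp iota hz hiz (q := q) hne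
          ((ad ch.J).comp (fderiv ℝ ch.X q)).toLinearMap hc0
          (fun v => T_ge ch (hq2.trans h2dl) v) (fderiv ℝ ch.X q)
          (fun v => fderiv_coord ch (hq2.trans h2dl) v)
        rw [← hs] at h5
        have h6 : Real.sqrt h ≤ Real.sqrt CF * |s| := by
          rw [← Real.sqrt_sq_eq_abs, ← Real.sqrt_mul hCF.le]
          exact Real.sqrt_le_sqrt hCs
        calc Real.sqrt h ≤ Real.sqrt CF * |s| := h6
          _ = K1 * (c ^ (m + 1) * |s|) := by rw [hK1]; field_simp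
          _ ≤ _ := mul_le_mul_of_nonneg_left h5 hK1p
    · intro p hp
      rw [hK2]
      refine Ph'_det_le ch' he L (hp.2.2.trans hdl') (B := 2 * |M 1|) ?_ (by positivity)
      show 2 ^ 1 * M 1 ≤ 2 * |M 1|
      rw [pow_one]
      exact mul_le_mul_of_nonneg_left (le_abs_self _) (by norm_num)
  -- the integral in the fold coordinates
  have hcoord : ∫⁻ p in Om, ENNReal.ofReal (Real.sqrt (inner ℝ e p))⁻¹ * F (Ph ch' e L p) ≤
      ∫⁻ h in Set.Ioc (0 : ℝ) ((CF + 2 * (K1 * K2)) * th ^ 2), ENNReal.ofReal (Real.sqrt h)⁻¹ *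
      ∫⁻ b in Metric.closedBall (0 : EE m) (dl m (R / 8)), F (ch'.X b + h • ch'.nu) := by
    have h1 := hLp.setLIntegral_comp_preimage_emb hLe
      (fun p => ENNReal.ofReal (Real.sqrt (inner ℝ e p))⁻¹ * F (Ph ch' e L p)) Om
    rw [← h1]
    have h2 : (fun p : ℝ × EE m => p.1 • e + L p.2) ⁻¹' Om =
        Set.Ioc (0 : ℝ) (CF * th ^ 2) ×ˢ Metric.closedBall (0 : EE m) (dl m (R / 8)) := by
      ext ⟨h, b⟩
      show (0 < inner ℝ e (h • e + L b) ∧ inner ℝ e (h • e + L b) ≤ CF * th ^ 2 ∧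
        ‖ad L (h • e + L b)‖ ≤ dl m (R / 8)) ↔ _
      rw [heh, hadL, Set.mem_prod, Set.mem_Ioc, mem_closedBall_zero_iff]
      tauto
    rw [h2]
    have h3 : ∀ p : ℝ × EE m, ENNReal.ofReal (Real.sqrt (inner ℝ e (p.1 • e + L p.2)))⁻¹ *
        F (Ph ch' e L (p.1 • e + L p.2)) = ENNReal.ofReal (Real.sqrt p.1)⁻¹ *
        F (ch'.X p.2 + p.1 • ch'.nu) := by
      intro p
      unfold Ph
      rw [heh, hadL]
    simp only [h3]
    have hmeas : Measurable fun p : ℝ × EE m => ENNReal.ofReal (Real.sqrt p.1)⁻¹ *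
        F (ch'.X p.2 + p.1 • ch'.nu) := by
      refine Measurable.mul ?_ ?_
      · exact (Real.continuous_sqrt.measurable.comp measurable_fst).inv.ennreal_ofReal
      · refine hF.comp ?_
        have : Continuous fun p : ℝ × EE m => ch'.X p.2 + p.1 • ch'.nu :=
          (ch'.smooth.continuous.comp continuous_snd).add (continuous_fst.smul continuous_const)
        exact this.measurable
    rw [setLIntegral_prod _ hmeas.aemeasurable]
    calc _ = ∫⁻ h in Set.Ioc (0 : ℝ) (CF * th ^ 2), ENNReal.ofReal (Real.sqrt h)⁻¹ *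
          ∫⁻ b in Metric.closedBall (0 : EE m) (dl m (R / 8)), F (ch'.X b + h • ch'.nu) := by
          refine lintegral_congr fun h => ?_
          exact lintegral_const_mul' (ENNReal.ofReal (Real.sqrt h)⁻¹)
            (fun b => F (ch'.X b + h • ch'.nu)) ENNReal.ofReal_ne_top
      _ ≤ _ := by
          refine lintegral_mono_set (Set.Ioc_subset_Ioc_right ?_)
          refine mul_le_mul_of_nonneg_right ?_ (sq_nonneg th)
          have : 0 ≤ K1 * K2 := mul_nonneg hK1p hK2p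
          linarith
  -- the two sides and the null set
  set I : ℝ≥0∞ := ∫⁻ h in Set.Ioc (0 : ℝ) ((CF + 2 * (K1 * K2)) * th ^ 2),
    ENNReal.ofReal (Real.sqrt h)⁻¹ *
      ∫⁻ b in Metric.closedBall (0 : EE m) (dl m (R / 8)), F (ch'.X b + h • ch'.nu) with hI
  set S1 : Set (EE (m + 1)) := {q | q ∈ D' ∧ 0 < inner ℝ (ch.nu - ch.J q) zet} with hS1
  set S2 : Set (EE (m + 1)) := {q | q ∈ D' ∧ inner ℝ (ch.nu - ch.J q) zet < 0} with hS2
  set N : Set (EE (m + 1)) := {q | (innerSL ℝ (ad ch.J zet)).toLinearMap q =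
    inner ℝ ch.nu zet} with hN
  have hNull : volume N = 0 := by
    refine null _ ?_ _
    obtain ⟨w, hw⟩ := hne
    refine ⟨w, ?_⟩
    show inner ℝ (ad ch.J zet) w ≠ 0
    rw [ad_inner]
    exact hw
  have hcov : D' ⊆ (S1 ∪ S2) ∪ N := by
    intro q hq1
    rcases lt_trichotomy (inner ℝ (ch.nu - ch.J q) zet) 0 with h | h | h
    · exact Or.inl (Or.inr ⟨hq1, h⟩)
    · refine Or.inr ?_
      show inner ℝ (ad ch.J zet) q = inner ℝ ch.nu zet
      rw [sn_linear] at h
      linarith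
    · exact Or.inl (Or.inl ⟨hq1, h⟩)
  have hS1m : MeasurableSet S1 := hD'm.inter (measurableSet_lt measurable_const hcs.measurable)
  have hS2m : MeasurableSet S2 := hD'm.inter (measurableSet_lt hcs.measurable measurable_const)
  have b1 := side S1 hS1m (fun q h => h.1) (fun q h q' h' => mul_pos h.2 h'.2)
  have b2 := side S2 hS2m (fun q h => h.1) (fun q h q' h' => mul_pos_of_neg_of_neg h.2 h'.2)
  have hend : ENNReal.ofReal K1 * (ENNReal.ofReal K2 * I) = ENNReal.ofReal (K1 * K2) * I := by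
    rw [← mul_assoc, ← ENNReal.ofReal_mul hK1p]
  have b1' : ∫⁻ q in S1, F (ad iota (ch.X q)) ≤ ENNReal.ofReal (K1 * K2) * I := by
    rw [← hend]
    exact b1.trans (mul_le_mul_right (mul_le_mul_right hcoord _) _)
  have b2' : ∫⁻ q in S2, F (ad iota (ch.X q)) ≤ ENNReal.ofReal (K1 * K2) * I := by
    rw [← hend]
    exact b2.trans (mul_le_mul_right (mul_le_mul_right hcoord _) _)
  calc ∫⁻ q in D', F (ad iota (ch.X q)) ≤ ∫⁻ q in (S1 ∪ S2) ∪ N, F (ad iota (ch.X q)) :=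
        lintegral_mono_set hcov
    _ ≤ (∫⁻ q in S1 ∪ S2, F (ad iota (ch.X q))) + (∫⁻ q in N, F (ad iota (ch.X q))) :=
        lintegral_union_le _ _ _
    _ = ∫⁻ q in S1 ∪ S2, F (ad iota (ch.X q)) := by
        rw [setLIntegral_measure_zero _ _ hNull, add_zero]
    _ ≤ (∫⁻ q in S1, F (ad iota (ch.X q))) + (∫⁻ q in S2, F (ad iota (ch.X q))) :=
        lintegral_union_le _ _ _
    _ ≤ ENNReal.ofReal (K1 * K2) * I + ENNReal.ofReal (K1 * K2) * I := add_le_add b1' b2'
    _ = ENNReal.ofReal (2 * (K1 * K2)) * I := by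
        rw [← add_mul, ← ENNReal.ofReal_add (mul_nonneg hK1p hK2p) (mul_nonneg hK1p hK2p),
          ← two_mul]
    _ ≤ ENNReal.ofReal (CF + 2 * (K1 * K2)) * I := by
        refine mul_le_mul_left (ENNReal.ofReal_le_ofReal ?_) _
        linarith

end Pool.Agent.Lib.MP_a8dae7_an.UN.FDM
end
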