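import Pool.Agent.Lib.MP_a8dae7_an.UN.SpecB

/-!
# MP_a8dae7_an, UN: Specs of the sub-steps of `SpecO` (helper99, helper67, helper93): section 2 of
/team-store/MP_a8dae7_an_UNIFORM_h93.md (almost orthogonality of the cubes without loss), shortened

Every `SpecXXX` is a `def : Prop`; the module `XXX.lean` proves `theorem specXXX (...) : SpecXXX`, in its own
namespace `Pool.Agent.Lib.MP_a8dae7_an.UN.XXXM`, from the Specs named in the docstring (as hypotheses).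

Overview.  `r = th^(-2)`.  The frequencies are cut into pieces = (small cube of side `sd k th`) ∩ (big cube of side
`lam^(2/3)/(64(k+1))`).  The amplitude `am` of a piece depends only on its big cube (corner `Nb lam n`), so it is a
common factor of the piece.  Two pieces with centres (= frequencies) `n0, n0'` at distance `rho ≥ K r` interact at most
`(K r/rho)^N` times the block norm: `N` integrations by parts for the WHOLE block (IBP): the multipliers `f_l(n) g_l(n')` do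
not change the block norm.  `eta = n0 - n0'`, `J^* eta = tq ch 0 eta`.
-/

set_option autoImplicit false

open MeasureTheory
open scoped ContDiff

namespace Pool.Agent.Lib.MP_a8dae7_an.UN

open Pool.Agent.Lib.MP_a8dae7_an.CV (EE zv ex pq pi2 AA sl bm)

/-- **GA** (150). Gradients.  `J J^* + nu nu^* = 1` (dimension), `⟨nu, DX v⟩ = ⟨q, J^* DX v⟩` (perp).
(1) `D(⟨eta,X⟩)(q) v = ⟨J τ_q(eta), DX(q) v⟩`.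
(2) decomposition; it gives (3) `⟨J τ_q(eta), N⟩ = ⟨eta,N⟩ - ⟨nu,eta⟩ s_N(q)`, used with `⟨n-n', n+n'⟩ = 0` and with
`⟨n-n0, n0⟩ = -|n-n0|²/2` on the sphere; (4) norms (`|nu - Jq|² = 1 + |q|² ≤ 257/256`); (5) if `J^* eta` is small then
`|⟨nu,eta⟩|, |s_eta(q)|` are large. -/
def SpecGA : Prop := ∀ (k : ℕ) (c R : ℝ) (M : ℕ → ℝ), Cls c R M → ∀ (ch : UChart k c R M) (q : EE k), ‖q‖ ≤ R →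
  (∀ (eta : EE (k + 1)) (v : EE k), inner ℝ eta (fderiv ℝ ch.X q v) = inner ℝ (ch.J (tq ch q eta)) (fderiv ℝ ch.X q v)) ∧
  (∀ eta : EE (k + 1), eta = (inner ℝ ch.nu eta : ℝ) • (ch.nu - ch.J q) + ch.J (tq ch q eta)) ∧
  (∀ eta N : EE (k + 1), inner ℝ (ch.J (tq ch q eta)) N = inner ℝ eta N - inner ℝ ch.nu eta * sn ch N q) ∧
  (∀ eta : EE (k + 1), ‖tq ch q eta‖ ≤ 17 / 16 * ‖eta‖ ∧ |sn ch eta q| ≤ 65 / 64 * ‖eta‖ ∧ |inner ℝ ch.nu eta| ≤ ‖eta‖ ∧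
    ‖tq ch 0 eta‖ ≤ ‖eta‖) ∧
  (∀ eta : EE (k + 1), ‖tq ch 0 eta‖ ≤ ‖eta‖ / 8 → 9 / 10 * ‖eta‖ ≤ |inner ℝ ch.nu eta| ∧ 9 / 10 * ‖eta‖ ≤ |sn ch eta q|)

/-- **CTU** (250). Cutoffs.  `sn ch n q` is affine in `q` with linear part of norm `≤ ‖n‖`; `cutq` does not depend on the
chart; `1/th ≥ 1/4`.  (`Nb lam n` has norm `≤ 2 lam`.) -/
def SpecCTU : Prop :=
  (∀ s, 0 ≤ psi0 s ∧ psi0 s ≤ 1 ∧ 0 ≤ phP s ∧ phP s ≤ 1) ∧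
  (∀ s, psi0 s ≠ 0 → |s| < 2) ∧ (∀ s, phP s ≠ 0 → 1 / 2 < s ∧ s < 2) ∧
  (∀ (I : ℕ) (s : ℝ), |s| ≤ 2 ^ I →
    psi0 s + ∑ i ∈ Finset.range I, (phP (s / 2 ^ (i + 1)) + phP (-(s / 2 ^ (i + 1)))) = 1) ∧
  (∀ (k : ℕ) (c R : ℝ) (M : ℕ → ℝ) (hc : Cls c R M), ∃ Ac : ℕ → ℝ, ∀ (ch : UChart k c R M) (f : ℝ → ℝ)
    (lam th sg : ℝ) (n n' : EE (k + 1)), (f = phP ∨ f = psi0) → 1 ≤ lam → 0 < th → th ≤ 4 →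
    (sg = 1 ∨ sg = -1) → ‖n‖ = lam → ‖n'‖ = lam →
    ContDiff ℝ ∞ (fun q => cutq k hc.R_pos q * (am ch f sg lam th n q * am ch f sg lam th n' q)) ∧
    ∀ (j : ℕ) (q : EE k), ‖iteratedFDeriv ℝ j (fun q => cutq k hc.R_pos q *
      (am ch f sg lam th n q * am ch f sg lam th n' q)) q‖ ≤ Ac j * (1 / th) ^ j)

/-- **CG** (150), from CTU. Cubes and corners: sizes; the support of the amplitudes (`n` = the centre of the piece or any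
frequency of it).  On `‖q‖ ≤ R`, `am ≠ 0` gives `s_{Nb n}/(lam th)` in the support of `f`, and `|s_n - s_{Nb n}| ≤ (65/64) lam^(2/3)/64`. -/
def SpecCG : Prop := (∀ (k : ℕ) (lam th : ℝ) (x x' : EE (k + 1)), 1 ≤ lam → lam ^ (-(1 / 3 : ℝ)) ≤ th →
    ‖x - Nb lam x‖ ≤ lam ^ (2 / 3 : ℝ) / 64 ∧ (‖x‖ = lam → ‖Nb lam x‖ ≤ 2 * lam) ∧ lam ^ (2 / 3 : ℝ) ≤ lam * th ∧
    0 < sd k th ∧ sd k th ≤ lam ^ (2 / 3 : ℝ) / (64 * (k + 1)) ∧ 1 ≤ lam * th ^ 3 ∧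
    (cbl (sd k th) x = cbl (sd k th) x' → ‖x - x'‖ ≤ (th ^ 2)⁻¹ / 64)) ∧
  (∀ (k : ℕ) (c R : ℝ) (M : ℕ → ℝ), Cls c R M → ∀ (ch : UChart k c R M) (lam th sg : ℝ) (n : EE (k + 1)) (q : EE k),
    1 ≤ lam → lam ^ (-(1 / 3 : ℝ)) ≤ th → (sg = 1 ∨ sg = -1) → ‖q‖ ≤ R →
    (am ch phP sg lam th n q ≠ 0 → lam * th / 3 ≤ sg * sn ch n q ∧ sg * sn ch n q ≤ 3 * (lam * th)) ∧
    (am ch psi0 sg lam th n q ≠ 0 → |sn ch n q| ≤ 3 * (lam * th)))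

/-! ## Block integration by parts -/

/-- **REC** (150). Derivatives of a reciprocal at a point (Leibniz for `D * D⁻¹ = 1`, induction on `j`). -/
def SpecREC : Prop := ∀ (k N : ℕ) (C0 : ℝ), ∃ C : ℝ, 0 < C ∧ ∀ (D : EE k → ℝ) (q : EE k) (D0 sig : ℝ),
  ContDiff ℝ ∞ D → 0 < D0 → 0 < sig → D0 ≤ |D q| →
  (∀ j ≤ N, ‖iteratedFDeriv ℝ j D q‖ ≤ C0 * D0 * sig⁻¹ ^ j) →
  ∀ j ≤ N, ‖iteratedFDeriv ℝ j (fun p => (D p)⁻¹) q‖ ≤ C * D0⁻¹ * sig⁻¹ ^ j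

/-- **VF** (200). `Y(q) = (J^*DX(q))^{-1}` on `‖q‖ ≤ 3dl` (invertible by `mono`, `‖Y‖ ≤ 1/c`), cut off outside `‖q‖ < R`.
`⟨eta, DX(q) (Y(q) v)⟩ = ⟨τ_q(eta), v⟩`.  Derivatives: `D(Y) = -Y (D(J^*DX)) Y` and induction. -/
def SpecVF : Prop := ∀ (k : ℕ) (c R : ℝ) (M : ℕ → ℝ), Cls c R M → ∃ C : ℕ → ℝ, ∀ (ch : UChart k c R M),
  ∃ Y : EE k → (EE k →L[ℝ] EE k), ContDiff ℝ ∞ Y ∧
    (∀ j q, ‖q‖ ≤ 2 * dl k R → ‖iteratedFDeriv ℝ j Y q‖ ≤ C j) ∧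
    ∀ q, ‖q‖ ≤ 2 * dl k R → ∀ (eta : EE (k + 1)) (v : EE k),
      inner ℝ eta (fderiv ℝ ch.X q (Y q v)) = inner ℝ (tq ch q eta) v

/-- **IBP** (350, helper67). Block integration by parts.  Let `beta_n` be the best constant for the smooth `a` supported in `Z`
with `|D^j a| ≤ sig^{-j}` (`j ≤ n`).  `∫ a (1 + ∑ h_l f_l g_l) e^{i ph} = i ∫ div(a w) e^{i ph}`; multiplying the entries by
`f_l(i) g_l(j)` does not increase the norm, so `beta_n ≤ L 2^n c1 beta_n + C (gam/sig) beta_(n-1)`. -/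
def SpecIBP : Prop := ∀ (k N L : ℕ), ∃ C c1 : ℝ, 0 < C ∧ 0 < c1 ∧
  ∀ (ι : Type) (s s' : Finset ι) (ph : ι → ι → EE k → ℝ) (Z U : Set (EE k)) (w : EE k → EE k)
    (h : Fin L → EE k → ℝ) (f g : Fin L → ι → ℝ) (sig gam B : ℝ),
  IsClosed Z → Bornology.IsBounded Z → IsOpen U → Z ⊆ U → 0 < sig → 0 ≤ gam → 0 ≤ B →
  (∀ i ∈ s, ∀ j ∈ s', ContDiff ℝ ∞ (ph i j)) → ContDiffOn ℝ ∞ w U → (∀ l, ContDiffOn ℝ ∞ (h l) U) →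
  (∀ l, ∀ i ∈ s, |f l i| ≤ 1) → (∀ l, ∀ j ∈ s', |g l j| ≤ 1) →
  (∀ q ∈ Z, ∀ i ∈ s, ∀ j ∈ s', fderiv ℝ (ph i j) q (w q) = 1 + ∑ l, h l q * (f l i * g l j)) →
  (∀ q ∈ Z, ∀ j ≤ N, ‖iteratedFDeriv ℝ j w q‖ ≤ gam * sig⁻¹ ^ j) →
  (∀ q ∈ Z, ∀ l, ∀ j ≤ N, ‖iteratedFDeriv ℝ j (h l) q‖ ≤ c1 * sig⁻¹ ^ j) →
  (∀ (a0 : EE k → ℝ) (x y : ι → ℂ), ContDiff ℝ ∞ a0 → (∀ q, |a0 q| ≤ 1) → (∀ q, a0 q ≠ 0 → q ∈ Z) →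
    ‖∫ q, (a0 q : ℂ) * ∑ i ∈ s, ∑ j ∈ s', x i * (starRingEnd ℂ) (y j) * Complex.exp (Complex.I * (ph i j q : ℂ))‖ ≤
      B * (Real.sqrt (∑ i ∈ s, ‖x i‖ ^ 2) * Real.sqrt (∑ j ∈ s', ‖y j‖ ^ 2))) →
  ∀ (a : EE k → ℝ) (x y : ι → ℂ), ContDiff ℝ ∞ a → (∀ q, a q ≠ 0 → q ∈ Z) →
    (∀ q, ∀ j ≤ N, ‖iteratedFDeriv ℝ j a q‖ ≤ sig⁻¹ ^ j) →
    ‖∫ q, (a q : ℂ) * ∑ i ∈ s, ∑ j ∈ s', x i * (starRingEnd ℂ) (y j) * Complex.exp (Complex.I * (ph i j q : ℂ))‖ ≤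
      (C * gam / sig) ^ N * B * (Real.sqrt (∑ i ∈ s, ‖x i‖ ^ 2) * Real.sqrt (∑ j ∈ s', ‖y j‖ ^ 2))

/-- a pair of pieces with centres `n0`, `n0'` (on the sphere) and block norms `≤ BB` on the slabs -/
structure Pair {k : ℕ} {c R : ℝ} {M : ℕ → ℝ} (ch : UChart k c R M) {A : ℝ} (Lt : Lat (k + 1) A) (lam th BB : ℝ)
    (n0 n0' : EE (k + 1)) (s s' : Finset (Fin (k + 1) → ℤ)) : Prop where
  one_lam : 1 ≤ lam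
  th_low : lam ^ (-(1 / 3 : ℝ)) ≤ th
  th_le : th ≤ 4
  hn0 : ‖n0‖ = lam
  hn0' : ‖n0'‖ = lam
  hs : ∀ j ∈ s, ‖Lt.fr j‖ = lam ∧ ‖Lt.fr j - n0‖ ≤ (th ^ 2)⁻¹ / 64
  hs' : ∀ j ∈ s', ‖Lt.fr j‖ = lam ∧ ‖Lt.fr j - n0'‖ ≤ (th ^ 2)⁻¹ / 64
  hBB : 0 ≤ BB
  hb : ∀ b : (Fin (k + 1) → ℤ) → ℂ, ∫ q in {q : EE k | ‖q‖ ≤ 2 * dl k R ∧ |sn ch n0 q| ≤ 5 * th * lam},
    ‖es Lt s b (ch.X q)‖ ^ 2 ≤ BB * ∑ j ∈ s, ‖b j‖ ^ 2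
  hb' : ∀ b : (Fin (k + 1) → ℤ) → ℂ, ∫ q in {q : EE k | ‖q‖ ≤ 2 * dl k R ∧ |sn ch n0' q| ≤ 5 * th * lam},
    ‖es Lt s' b (ch.X q)‖ ^ 2 ≤ BB * ∑ j ∈ s', ‖b j‖ ^ 2

/-- **CS** (100). The norm of the pair for a bounded amplitude supported in both slabs (Cauchy-Schwarz). -/
def SpecCS : Prop := ∀ (k : ℕ) (c R A : ℝ) (M : ℕ → ℝ) (ch : UChart k c R M) (Lt : Lat (k + 1) A) (lam th BB : ℝ)
  (n0 n0' : EE (k + 1)) (s s' : Finset (Fin (k + 1) → ℤ)) (a : EE k → ℝ) (x y : (Fin (k + 1) → ℤ) → ℂ),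
  Pair ch Lt lam th BB n0 n0' s s' → Continuous a → (∀ q, |a q| ≤ 1) →
  (∀ q, a q ≠ 0 → ‖q‖ ≤ 2 * dl k R ∧ |sn ch n0 q| ≤ 5 * th * lam ∧ |sn ch n0' q| ≤ 5 * th * lam) →
  ‖∫ q, (a q : ℂ) * (es Lt s x (ch.X q) * (starRingEnd ℂ) (es Lt s' y (ch.X q)))‖ ≤
    BB * (Real.sqrt (∑ j ∈ s, ‖x j‖ ^ 2) * Real.sqrt (∑ j ∈ s', ‖y j‖ ^ 2))

/-- **CA** (300), from IBP, VF, REC, GA, CS. Case A: `|J^*eta| ≥ rho/8`, `rho = ‖eta‖ ≥ K r`.  `w = Y(q) J^*eta/D`,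
`D = ⟨τ_q(eta), J^*eta⟩ = |J^*eta|² + ⟨nu,eta⟩⟨q,J^*eta⟩ ≥ (1/8 - 3/128)/8 rho²` on `‖q‖ ≤ 3/2 dl ≤ 3/128`, affine in `q`, `|DD| ≤ rho²`.
`⟨τ_q(n-n'), J^*eta⟩/D = 1 + ⟨τ_q(zeta),J^*eta⟩/D - ⟨τ_q(zeta'),J^*eta⟩/D`, `zeta = n-n0`, `zeta' = n'-n0'`,
`⟨τ_q(zeta),J^*eta⟩ = (r rho) mu1 + r⟨q,J^*eta⟩ mu2`, `mu1 = ⟨J^*zeta,J^*eta⟩/(r rho)`, `mu2 = ⟨nu,zeta⟩/r`: `L = 4`, `|D^j h| ≤ C (r/rho) (4/th)^j ≤ c1 ..` for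
`K` large.  `gam = C/rho`, `sig = th/4`-ish: gain `(C/(rho th))^N ≤ (C' r/rho)^N`. -/
def SpecCA : Prop := ∀ (k : ℕ) (c R : ℝ) (M : ℕ → ℝ), Cls c R M → ∀ (N : ℕ) (Ac : ℕ → ℝ), ∃ K C : ℝ, 1 ≤ K ∧ 0 < C ∧
  ∀ (A : ℝ) (ch : UChart k c R M) (Lt : Lat (k + 1) A) (lam th BB : ℝ) (n0 n0' : EE (k + 1))
    (s s' : Finset (Fin (k + 1) → ℤ)) (a : EE k → ℝ) (x y : (Fin (k + 1) → ℤ) → ℂ),
  Pair ch Lt lam th BB n0 n0' s s' → K * (th ^ 2)⁻¹ ≤ ‖n0 - n0'‖ → ‖n0 - n0'‖ / 8 ≤ ‖tq ch 0 (n0 - n0')‖ →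
  ContDiff ℝ ∞ a → (∀ q, a q ≠ 0 → ‖q‖ ≤ 3 / 2 * dl k R ∧ |sn ch n0 q| ≤ 3 * (lam * th) ∧ |sn ch n0' q| ≤ 3 * (lam * th)) →
  (∀ j q, ‖iteratedFDeriv ℝ j a q‖ ≤ Ac j * (1 / th) ^ j) →
  ‖∫ q, (a q : ℂ) * (es Lt s x (ch.X q) * (starRingEnd ℂ) (es Lt s' y (ch.X q)))‖ ≤
    C * ((th ^ 2)⁻¹ / ‖n0 - n0'‖) ^ N * BB * (Real.sqrt (∑ j ∈ s, ‖x j‖ ^ 2) * Real.sqrt (∑ j ∈ s', ‖y j‖ ^ 2))

/-- **CB** (400), from IBP, VF, REC, GA, CS. Case B: `|J^*eta| ≤ rho/8`, so `|⟨nu,eta⟩|, |s_eta| ≥ 9/10 rho` (GA (5)); both `s` of the same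
sign and between `lam th/3` and `3 lam th`, so `rho ≤ 4 lam th` if the support is not empty.
`V = J^*(n0+n0')/lam`, `w = Y V/D`, `D = ⟨τ_q(eta),V⟩ = -⟨nu,eta⟩(s_n0+s_n0')/lam` (GA (3), `⟨n0-n0',n0+n0'⟩ = 0`), `|D| ≥ rho th/2`, `|DD| ≤ 2 rho`,
affine.  With `zeta = n - n0`, GA (3) and the sphere:
`⟨τ_q(zeta),V⟩ = -(r²/lam) mu1 - ((2 r s_n0(q) + r⟨Jq,eta⟩)/lam) mu2 - (r rho/lam) mu3`, `mu1 = |zeta|²/r²`, `mu2 = ⟨nu,zeta⟩/r`,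
`mu3 = (⟨zeta,eta⟩ - ⟨nu,zeta⟩⟨nu,eta⟩)/(r rho)`; for `zeta' = n' - n0'` the same with `-eta`, `s_n0'`.  `L = 6`, `h_l = coefficient/D`, coefficients
`≤ C/th` at scale `th` (`r rho/lam ≤ 4 r th = 4/th`, `r²/lam ≤ 1/th`), so `|D^j h_l| ≤ C (r/rho) th^{-j} ≤ c1 ..` for `K` large;
`gam = C/(rho th)`, `sig = th`. -/
def SpecCB : Prop := ∀ (k : ℕ) (c R : ℝ) (M : ℕ → ℝ), Cls c R M → ∀ (N : ℕ) (Ac : ℕ → ℝ), ∃ K C : ℝ, 1 ≤ K ∧ 0 < C ∧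
  ∀ (A : ℝ) (ch : UChart k c R M) (Lt : Lat (k + 1) A) (lam th BB : ℝ) (n0 n0' : EE (k + 1))
    (s s' : Finset (Fin (k + 1) → ℤ)) (a : EE k → ℝ) (x y : (Fin (k + 1) → ℤ) → ℂ) (sg : ℝ),
  Pair ch Lt lam th BB n0 n0' s s' → (sg = 1 ∨ sg = -1) → K * (th ^ 2)⁻¹ ≤ ‖n0 - n0'‖ →
  ‖tq ch 0 (n0 - n0')‖ ≤ ‖n0 - n0'‖ / 8 → ContDiff ℝ ∞ a →
  (∀ q, a q ≠ 0 → ‖q‖ ≤ 3 / 2 * dl k R ∧ lam * th / 3 ≤ sg * sn ch n0 q ∧ sg * sn ch n0 q ≤ 3 * (lam * th) ∧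
    lam * th / 3 ≤ sg * sn ch n0' q ∧ sg * sn ch n0' q ≤ 3 * (lam * th)) →
  (∀ j q, ‖iteratedFDeriv ℝ j a q‖ ≤ Ac j * (1 / th) ^ j) →
  ‖∫ q, (a q : ℂ) * (es Lt s x (ch.X q) * (starRingEnd ℂ) (es Lt s' y (ch.X q)))‖ ≤
    C * ((th ^ 2)⁻¹ / ‖n0 - n0'‖) ^ N * BB * (Real.sqrt (∑ j ∈ s, ‖x j‖ ^ 2) * Real.sqrt (∑ j ∈ s', ‖y j‖ ^ 2))

/-- **PA** (150), from CA, CB, CTU, CG, GA. A pair of pieces at distance `rho ≥ K r`.  `|J^*eta| ≥ rho/8`: CA.  Otherwise CB for `phP`;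
for `psi0` (`lam th = r`) the support is empty: `9/10 rho ≤ |s_eta| ≤ 6 lam th = 6 r < 9/10 K r`.  (`N ≥ 1`, `K ≥ C`, `K ≥ 1`.) -/
def SpecPA : Prop := ∀ (k : ℕ) (c R : ℝ) (M : ℕ → ℝ) (hc : Cls c R M) (N : ℕ), 1 ≤ N → ∃ K : ℝ, 1 ≤ K ∧
  ∀ (A : ℝ) (ch : UChart k c R M) (Lt : Lat (k + 1) A) (lam th BB : ℝ) (n0 n0' : EE (k + 1))
    (s s' : Finset (Fin (k + 1) → ℤ)) (x y : (Fin (k + 1) → ℤ) → ℂ) (f : ℝ → ℝ) (sg : ℝ),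
  Pair ch Lt lam th BB n0 n0' s s' → (sg = 1 ∨ sg = -1) →
  (f = phP ∨ (f = psi0 ∧ th = lam ^ (-(1 / 3 : ℝ)))) → K * (th ^ 2)⁻¹ ≤ ‖n0 - n0'‖ →
  ‖∫ q, ((cutq k hc.R_pos q * (am ch f sg lam th n0 q * am ch f sg lam th n0' q) : ℝ) : ℂ) *
      (es Lt s x (ch.X q) * (starRingEnd ℂ) (es Lt s' y (ch.X q)))‖ ≤
    (K * (th ^ 2)⁻¹ / ‖n0 - n0'‖) ^ N * BB * (Real.sqrt (∑ j ∈ s, ‖x j‖ ^ 2) * Real.sqrt (∑ j ∈ s', ‖y j‖ ^ 2))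

/-! ## The sum over the pieces -/

/-- **PC** (150), from TC, CG. Number of pieces near a point (TC for the small labels; the big labels are those of cubes of side
`r'/(64(k+1))`, `r' = lam^(2/3) ≥ r`). The label of a piece is the pair of labels of the small cube and of the big cube (`Nb`). -/
def SpecPC : Prop := ∀ k : ℕ, ∃ C : ℝ, 1 ≤ C ∧ ∀ (ι : Type) (lam th K : ℝ) (P : Finset ι) (y : ι → EE (k + 1))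
  (x : EE (k + 1)), 1 ≤ lam → lam ^ (-(1 / 3 : ℝ)) ≤ th → 1 ≤ K →
  (∀ i ∈ P, ∀ j ∈ P, cbl (sd k th) (y i) = cbl (sd k th) (y j) → Nb lam (y i) = Nb lam (y j) → i = j) →
  (∀ i ∈ P, ‖y i - x‖ ≤ K * (th ^ 2)⁻¹) → (P.card : ℝ) ≤ C * K ^ (2 * k + 2)

/-- **PSM** (150), from PC. The Schur sum of the far pieces (dyadic distances `2^j K r`). -/
def SpecPSM : Prop := ∀ (k : ℕ) (K : ℝ), 1 ≤ K → ∃ C : ℝ, 0 < C ∧ ∀ (ι : Type) (lam th : ℝ) (P : Finset ι)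
  (y : ι → EE (k + 1)) (x : EE (k + 1)), 1 ≤ lam → lam ^ (-(1 / 3 : ℝ)) ≤ th →
  (∀ i ∈ P, ∀ j ∈ P, cbl (sd k th) (y i) = cbl (sd k th) (y j) → Nb lam (y i) = Nb lam (y j) → i = j) →
  (∀ i ∈ P, K * (th ^ 2)⁻¹ ≤ ‖x - y i‖) →
  ∑ i ∈ P, (K * (th ^ 2)⁻¹ / ‖x - y i‖) ^ (2 * k + 3) ≤ C

/-- **OC** (150), from PC, CG, CTU. Few cubes (major cubes in MJ): Cauchy-Schwarz over the pieces (a small cube has at most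
`C` pieces); `th` and `f` arbitrary. -/
def SpecOC : Prop := ∀ (k : ℕ) (c R A : ℝ) (M : ℕ → ℝ), Cls c R M → 1 ≤ A → ∃ C : ℝ, 0 < C ∧
  ∀ (ch : UChart k c R M) (Lt : Lat (k + 1) A) (lam th sg BB H : ℝ) (s : Finset (Fin (k + 1) → ℤ))
    (a : (Fin (k + 1) → ℤ) → ℂ) (f : ℝ → ℝ), 1 ≤ lam → lam ^ (-(1 / 3 : ℝ)) ≤ th → th ≤ 4 →
  (sg = 1 ∨ sg = -1) → (f = phP ∨ f = psi0) → 0 ≤ BB →
  (∀ j ∈ s, ‖Lt.fr j‖ = lam) → BH ch Lt lam th BB s →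
  ((s.image fun j => cbl (sd k th) (Lt.fr j)).card : ℝ) ≤ H →
  ∫ q in Metric.closedBall (0 : EE k) (dl k R),
      ‖∑ j ∈ s, (am ch f sg lam th (Lt.fr j) q : ℂ) * (a j * ex (Lt.fr j) (ch.X q))‖ ^ 2 ≤
    C * H * BB * ∑ j ∈ s, ‖a j‖ ^ 2

end Pool.Agent.Lib.MP_a8dae7_an.UN
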