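import Pool.Agent.Lib.MP_a8dae7_an.UN.IBP0
import Pool.Agent.Lib.MP_a8dae7_an.UN.SpecO

/-!
# MP_a8dae7_an, UN: `specIBP` (helper67)

Adapter of the block integration by parts of `IBP0` (complex amplitudes, global vector fields) to `SpecIBP` (real
amplitudes, vector fields smooth near `Z`).
-/

set_option autoImplicit false

open MeasureTheory
open scoped ContDiff Topology Manifold

namespace Pool.Agent.Lib.MP_a8dae7_an.UN.IBPM

open Pool.Agent.Lib.MP_a8dae7_an.CV (EE)
open Pool.Agent.Lib.MP_a8dae7_an.UN.IBP0M (Am BF PB Dat block_ibp ofReal_bd)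

/-- a cutoff -/
theorem cutoff {k : ℕ} {Z U : Set (EE k)} (hZ : IsClosed Z) (hU : IsOpen U) (hZU : Z ⊆ U) :
    ∃ χ : EE k → ℝ, ContDiff ℝ ∞ χ ∧ (∀ q ∈ Z, ∀ᶠ p in 𝓝 q, χ p = 1) ∧ ∀ q ∉ U, ∀ᶠ p in 𝓝 q, χ p = 0 := by
  obtain ⟨f, h0, h1, -⟩ := exists_contMDiffMap_zero_one_nhds_of_isClosed (n := (⊤ : ℕ∞)) 𝓘(ℝ, EE k)
    hU.isClosed_compl hZ (Set.disjoint_left.2 fun q hq hq' => hq (hZU hq'))
  refine ⟨f, f.contMDiff.contDiff, ?_, ?_⟩
  · exact eventually_nhdsSet_iff_forall.1 h1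
  · exact fun q hq => eventually_nhdsSet_iff_forall.1 h0 q hq

theorem ext_smooth {k : ℕ} {F : Type*} [NormedAddCommGroup F] [NormedSpace ℝ F] {U : Set (EE k)} (hU : IsOpen U)
    {χ : EE k → ℝ} (hχ : ContDiff ℝ ∞ χ) (h0 : ∀ q ∉ U, ∀ᶠ p in 𝓝 q, χ p = 0) {w : EE k → F}
    (hw : ContDiffOn ℝ ∞ w U) : ContDiff ℝ ∞ (fun q => χ q • w q) := by
  rw [contDiff_iff_contDiffAt]
  intro q
  by_cases hq : q ∈ U
  · exact hχ.contDiffAt.smul (hw.contDiffAt (hU.mem_nhds hq))
  · refine (contDiffAt_const (c := (0 : F))).congr_of_eventuallyEq ?_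
    filter_upwards [h0 q hq] with p hp
    rw [hp, zero_smul]

theorem ext_eq {k : ℕ} {F : Type*} [NormedAddCommGroup F] [NormedSpace ℝ F] {χ : EE k → ℝ} {q : EE k}
    (h1 : ∀ᶠ p in 𝓝 q, χ p = 1) (w : EE k → F) (j : ℕ) :
    iteratedFDeriv ℝ j (fun q => χ q • w q) q = iteratedFDeriv ℝ j w q := by
  have h : (fun q => χ q • w q) =ᶠ[𝓝 q] w := by
    filter_upwards [h1] with p hp
    rw [hp, one_smul]
  exact (h.iteratedFDeriv ℝ j).eq_of_nhds

theorem bf_eq {k : ℕ} {ι ι' : Type*} (s : Finset ι) (s' : Finset ι') (φ : ι → ι' → EE k → ℝ) {Z : Set (EE k)}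
    (hZ : IsCompact Z) (hφ : ∀ i ∈ s, ∀ j ∈ s', Continuous (φ i j)) {F : EE k → ℂ} (hF : Continuous F)
    (hF0 : ∀ q, q ∉ Z → F q = 0) (x : ι → ℂ) (y : ι' → ℂ) :
    BF s s' φ F x y = ∫ q, F q * ∑ i ∈ s, ∑ j ∈ s', x i * (starRingEnd ℂ) (y j) *
      Complex.exp (Complex.I * (φ i j q : ℂ)) := by
  have e : ∀ q, F q * ∑ i ∈ s, ∑ j ∈ s', x i * (starRingEnd ℂ) (y j) * Complex.exp (Complex.I * (φ i j q : ℂ)) =
      ∑ i ∈ s, ∑ j ∈ s', x i * (starRingEnd ℂ) (y j) * (F q * Complex.exp (Complex.I * (φ i j q : ℂ))) := by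
    intro q
    rw [Finset.mul_sum]
    refine Finset.sum_congr rfl fun i _ => ?_
    rw [Finset.mul_sum]
    exact Finset.sum_congr rfl fun j _ => by ring
  have hi : ∀ i ∈ s, ∀ j ∈ s', Integrable (fun q => x i * (starRingEnd ℂ) (y j) *
      (F q * Complex.exp (Complex.I * (φ i j q : ℂ)))) := by
    intro i hi j hj
    have hc : Continuous (fun q => F q * Complex.exp (Complex.I * (φ i j q : ℂ))) :=
      hF.mul (continuous_const.mul (Complex.continuous_ofReal.comp (hφ i hi j hj))).cexp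
    exact (hc.integrable_of_hasCompactSupport (HasCompactSupport.intro hZ hF0).mul_right).const_mul _
  rw [integral_congr_ae (Filter.Eventually.of_forall e),
    integral_finsetSum _ fun i hi' => integrable_finsetSum _ (hi i hi')]
  unfold BF
  refine Finset.sum_congr rfl fun i hi' => ?_
  rw [integral_finsetSum _ (hi i hi')]
  refine Finset.sum_congr rfl fun j hj => ?_
  rw [integral_const_mul]

/-- the bound for complex bounded amplitudes from the bound for real ones -/
theorem pb_zero {k : ℕ} {ι : Type} {s s' : Finset ι} {φ : ι → ι → EE k → ℝ} {Z : Set (EE k)} (hZ : IsCompact Z)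
    (hφ : ∀ i ∈ s, ∀ j ∈ s', Continuous (φ i j)) {B : ℝ} (hB : 0 ≤ B) (sig : ℝ)
    (h0 : ∀ (a0 : EE k → ℝ) (x y : ι → ℂ), ContDiff ℝ ∞ a0 → (∀ q, |a0 q| ≤ 1) → (∀ q, a0 q ≠ 0 → q ∈ Z) →
      ‖∫ q, (a0 q : ℂ) * ∑ i ∈ s, ∑ j ∈ s', x i * (starRingEnd ℂ) (y j) *
        Complex.exp (Complex.I * (φ i j q : ℂ))‖ ≤
        B * (Real.sqrt (∑ i ∈ s, ‖x i‖ ^ 2) * Real.sqrt (∑ j ∈ s', ‖y j‖ ^ 2))) :
    PB s s' φ 0 sig Z (2 * B) := by
  intro a A ha x y
  set S : EE k → ℂ := fun q => ∑ i ∈ s, ∑ j ∈ s', x i * (starRingEnd ℂ) (y j) *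
    Complex.exp (Complex.I * (φ i j q : ℂ)) with hS
  set T : ℝ := Real.sqrt (∑ i ∈ s, ‖x i‖ ^ 2) * Real.sqrt (∑ j ∈ s', ‖y j‖ ^ 2) with hT
  have hT0 : 0 ≤ T := by positivity
  have hab : ∀ q, ‖a q‖ ≤ A := by
    intro q
    have := ha.bd 0 le_rfl q
    rwa [norm_iteratedFDeriv_zero, pow_zero, mul_one] at this
  have hA : 0 ≤ A := (norm_nonneg _).trans (hab 0)
  rw [bf_eq s s' φ hZ hφ ha.smooth.continuous ha.supp x y]
  have hSc : Continuous S := by
    refine continuous_finsetSum _ fun i hi => continuous_finsetSum _ fun j hj => ?_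
    exact continuous_const.mul (continuous_const.mul (Complex.continuous_ofReal.comp (hφ i hi j hj))).cexp
  rcases hA.eq_or_lt with hA' | hA'
  · have hz : ∀ q, a q = 0 := fun q => norm_le_zero_iff.1 (hA' ▸ hab q)
    have hz' : ∀ q, a q * S q = 0 := fun q => by rw [hz q, zero_mul]
    calc ‖∫ q, a q * S q‖ = 0 := by simp [hz']
      _ ≤ _ := by positivity
  · have hre : ContDiff ℝ ∞ (fun q => (a q).re / A) := (Complex.reCLM.contDiff.comp ha.smooth).div_const A
    have him : ContDiff ℝ ∞ (fun q => (a q).im / A) := (Complex.imCLM.contDiff.comp ha.smooth).div_const A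
    have hi : ∀ f : EE k → ℝ, Continuous f → (∀ q, q ∉ Z → f q = 0) → Integrable (fun q => (f q : ℂ) * S q) := by
      intro f hf hf0
      refine (((Complex.continuous_ofReal.comp hf).mul hSc)).integrable_of_hasCompactSupport ?_
      exact (HasCompactSupport.intro hZ fun q hq => by simp [hf0 q hq]).mul_right
    have hr0 : ∀ q, q ∉ Z → (a q).re / A = 0 := fun q hq => by rw [ha.supp q hq]; simp
    have hm0 : ∀ q, q ∉ Z → (a q).im / A = 0 := fun q hq => by rw [ha.supp q hq]; simp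
    have e : ∫ q, a q * S q = (A : ℂ) * ((∫ q, (((a q).re / A : ℝ) : ℂ) * S q) +
        Complex.I * ∫ q, (((a q).im / A : ℝ) : ℂ) * S q) := by
      rw [← integral_const_mul, ← integral_add (hi _ hre.continuous hr0)
        ((hi _ him.continuous hm0).const_mul _), ← integral_const_mul]
      refine integral_congr_ae (Filter.Eventually.of_forall fun q => ?_)
      have hAc : (A : ℂ) ≠ 0 := by exact_mod_cast hA'.ne'
      simp only
      push_cast
      conv_lhs => rw [← Complex.re_add_im (a q)]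
      field_simp
    rw [e]
    have b1 := h0 (fun q => (a q).re / A) x y hre (fun q => by
      rw [abs_div, abs_of_pos hA', div_le_one hA']
      exact (Complex.abs_re_le_norm _).trans (hab q)) (fun q hq => by
        by_contra hq'
        exact hq (hr0 q hq'))
    have b2 := h0 (fun q => (a q).im / A) x y him (fun q => by
      rw [abs_div, abs_of_pos hA', div_le_one hA']
      exact (Complex.abs_im_le_norm _).trans (hab q)) (fun q hq => by
        by_contra hq'
        exact hq (hm0 q hq'))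
    rw [norm_mul, Complex.norm_real, Real.norm_of_nonneg hA]
    calc A * ‖(∫ q, (((a q).re / A : ℝ) : ℂ) * S q) + Complex.I * ∫ q, (((a q).im / A : ℝ) : ℂ) * S q‖
        ≤ A * (B * T + B * T) := by
          gcongr
          refine (norm_add_le _ _).trans (add_le_add b1 ?_)
          rw [norm_mul, Complex.norm_I, one_mul]
          exact b2
      _ = A * (2 * B) * T := by ring

theorem specIBP : SpecIBP := by
  intro k N L
  obtain ⟨C, c0, hC, hc0, hmain⟩ := block_ibp k L 0 N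
  refine ⟨2 * C, c0, by linarith, hc0, ?_⟩
  intro ι s s' ph Z U w h f g sig gam B hZ hZb hU hZU hsig hgam hB hph hw hh hf hg hid hwb hhb h0 a x y ha ha0 hab
  have hZc : IsCompact Z := Metric.isCompact_of_isClosed_isBounded hZ hZb
  have hsj : ∀ j : ℕ, sig⁻¹ ^ j * sig ^ j = 1 := fun j => by
    rw [← mul_pow, inv_mul_cancel₀ hsig.ne', one_pow]
  rcases Nat.eq_zero_or_pos N with hN | hN
  · subst hN
    rw [pow_zero, one_mul]
    refine h0 a x y ha (fun q => ?_) ha0
    have := hab q 0 le_rfl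
    rwa [norm_iteratedFDeriv_zero, pow_zero, Real.norm_eq_abs] at this
  classical
  obtain ⟨χ, hχ, hχ1, hχ0⟩ := cutoff hZ hU hZU
  set φ : ι → ι → EE k → ℝ := fun i j => if i ∈ s ∧ j ∈ s' then ph i j else 0 with hφ
  have hφe : ∀ i ∈ s, ∀ j ∈ s', φ i j = ph i j := fun i hi j hj => by rw [hφ]; exact if_pos ⟨hi, hj⟩
  have hφs : ∀ i j, ContDiff ℝ ∞ (φ i j) := by
    intro i j
    by_cases hij : i ∈ s ∧ j ∈ s'
    · rw [hφe i hij.1 j hij.2]
      exact hph i hij.1 j hij.2
    · have : φ i j = 0 := by rw [hφ]; exact if_neg hij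
      rw [this]
      exact contDiff_const
  have hsum : ∀ (x y : ι → ℂ) (q : EE k), ∑ i ∈ s, ∑ j ∈ s', x i * (starRingEnd ℂ) (y j) *
      Complex.exp (Complex.I * (φ i j q : ℂ)) = ∑ i ∈ s, ∑ j ∈ s', x i * (starRingEnd ℂ) (y j) *
      Complex.exp (Complex.I * (ph i j q : ℂ)) := fun x y q =>
    Finset.sum_congr rfl fun i hi => Finset.sum_congr rfl fun j hj => by rw [hφe i hi j hj]
  have h0' : PB s s' φ 0 sig Z (2 * B) := by
    refine pb_zero hZc (fun i _ j _ => (hφs i j).continuous) hB sig ?_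
    intro a0 x y h1 h2 h3
    simp only [hsum]
    exact h0 a0 x y h1 h2 h3
  have D : Dat L 0 N s s' φ Z sig gam c0 0 (fun q => χ q • w q) (fun l q => χ q • h l q) f g
      (fun _ _ => 0) (fun _ _ => 0) (fun _ _ => 0) :=
    { phs := hφs
      ws := ext_smooth hU hχ hχ0 hw
      h1s := fun l => ext_smooth hU hχ hχ0 (hh l)
      h2s := fun l => contDiff_const
      wb := fun j hj q hq => by
        rw [ext_eq (hχ1 q hq) w j]
        calc ‖iteratedFDeriv ℝ j w q‖ * sig ^ j ≤ (gam * sig⁻¹ ^ j) * sig ^ j := by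
              gcongr
              exact hwb q hq j hj
          _ = gam := by rw [mul_assoc, hsj j, mul_one]
      h1b := fun l j hj q hq => by
        rw [ext_eq (hχ1 q hq) (h l) j]
        calc ‖iteratedFDeriv ℝ j (h l) q‖ * sig ^ j ≤ (c0 * sig⁻¹ ^ j) * sig ^ j := by
              gcongr
              exact hhb q hq l j hj
          _ = c0 := by rw [mul_assoc, hsj j, mul_one]
      h2b := fun l => l.elim0
      f1b := hf
      f2b := fun l => l.elim0
      g1b := hg
      g2b := fun l => l.elim0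
      id := fun q hq i hi j hj => by
        have h1 : χ q = 1 := (hχ1 q hq).self_of_nhds
        rw [h1, one_smul, hφe i hi j hj, hid q hq i hi j hj]
        simp }
  have key := hmain s s' φ Z sig gam 0 _ _ _ _ _ _ _ (2 * B) D hZc hsig hgam le_rfl (by positivity) h0'
    (fun q => (a q : ℂ)) 1 ⟨Complex.ofRealCLM.contDiff.comp ha, fun q hq => by
      have : a q = 0 := by
        by_contra hq'
        exact hq (ha0 q hq')
      simp [this], fun j hj q => by
        calc ‖iteratedFDeriv ℝ j (fun q => (a q : ℂ)) q‖ * sig ^ j ≤ (sig⁻¹ ^ j) * sig ^ j := by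
              gcongr
              exact (ofReal_bd ha j q).trans (hab q j hj)
          _ = 1 := hsj j⟩ x y
  rw [bf_eq s s' φ hZc (fun i _ j _ => (hφs i j).continuous) (F := fun q => (a q : ℂ))
    (Complex.continuous_ofReal.comp ha.continuous) (fun q hq => by
      have : a q = 0 := by
        by_contra hq'
        exact hq (ha0 q hq')
      simp [this]) x y] at key
  simp only [hsum] at key
  refine key.trans ?_
  have hT0 : 0 ≤ Real.sqrt (∑ i ∈ s, ‖x i‖ ^ 2) * Real.sqrt (∑ j ∈ s', ‖y j‖ ^ 2) := by positivity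
  have h2 : (2 : ℝ) ≤ 2 ^ N := by
    calc (2 : ℝ) = 2 ^ 1 := by norm_num
      _ ≤ 2 ^ N := pow_le_pow_right₀ (by norm_num) hN
  have h3 : 0 ≤ (C * (gam / sig)) ^ N := by
    have : 0 ≤ gam / sig := by positivity
    positivity
  have h4 : 1 * ((C * (gam / sig + 0)) ^ N * (2 * B)) ≤ (2 * C * gam / sig) ^ N * B := by
    have e : (2 * C * gam / sig) ^ N = 2 ^ N * (C * (gam / sig)) ^ N := by
      rw [← mul_pow]
      congr 1
      ring
    rw [e, add_zero, one_mul]
    nlinarith [mul_nonneg h3 hB]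
  gcongr

end Pool.Agent.Lib.MP_a8dae7_an.UN.IBPM
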