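import Pool.Agent.Lib.MP_a8dae7_an.UN.SpecB
import Pool.Agent.Lib.MP_a8dae7_an.CV.Spec
import Pool.Agent.Lib.MP_a8dae7_an.CV.Z1
import Pool.Agent.Lib.MP_a8dae7_an.CV.Main

section
/-!
# MP_a8dae7_an, UN, module FN: from the charts to the hypersurface
-/
set_option autoImplicit false

open MeasureTheory
open scoped ContDiff ENNReal

namespace Pool.Agent.Lib.MP_a8dae7_an.UN.FNM

open Pool.Agent.Lib.MP_a8dae7_an.CV (EE zv ex PosAt PosCurved)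

/-- a chart with its class -/
structure AChart (k : ℕ) where
  c : ℝ
  R : ℝ
  M : ℕ → ℝ
  ch : UChart k c R M
  cls : Cls c R M
  dm : Dm ch (1 / (8 * (k + 1).factorial))

/-- the set is covered by finitely many charts -/
theorem cover (hIF : SpecIF) {k : ℕ} {Sg : Set (EE (k + 1))} (hS : PosCurved Sg) :
    ∃ (ι : Type) (_ : Fintype ι) (ch : ι → AChart k),
      Sg ⊆ ⋃ i, (ch i).ch.X '' Metric.closedBall 0 (dl k (ch i).R) := by
  classical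
  obtain ⟨hc, hp⟩ := hS
  have h0 : ∀ (p : EE (k + 1)) (_ : p ∈ Sg), ∃ (ach : AChart k) (rho : ℝ), 0 < rho ∧
      ∀ x ∈ Sg, ‖x - p‖ < rho → ∃ q : EE k, ‖q‖ ≤ dl k ach.R ∧ ach.ch.X q = x := by
    intro p h
    obtain ⟨c, R, M, ch, rho, h1, h2, h3, h4⟩ := hIF k Sg p h (hp p h)
    exact ⟨⟨c, R, M, ch, h1, h2⟩, rho, h3, h4⟩
  choose ch rho hrho hch using h0
  obtain ⟨t, ht⟩ := hc.elim_nhds_subcover' (fun p h => Metric.ball p (rho p h))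
    (fun p h => Metric.ball_mem_nhds p (hrho p h))
  refine ⟨t, inferInstance, fun i => ch i.1.1 i.1.2, fun x hx => ?_⟩
  obtain ⟨p, hpt, hxp⟩ := Set.mem_iUnion₂.1 (ht hx)
  have h1 : ‖x - p.1‖ < rho p.1 p.2 := by
    have h2 : x ∈ Metric.ball p.1 (rho p.1 p.2) := hxp
    rwa [mem_ball_iff_norm] at h2
  obtain ⟨q, hq, hxq⟩ := hch p.1 p.2 x hx h1
  refine Set.mem_iUnion.2 ⟨⟨p, hpt⟩, q, ?_, hxq⟩
  rw [mem_closedBall_zero_iff]
  exact hq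

/-- the standard lattice -/
noncomputable def stdLat (D : ℕ) : Lat D 1 where
  B := ContinuousLinearEquiv.refl ℝ (EE D)
  a0 := 0
  hB := by
    rw [ContinuousLinearEquiv.coe_refl]
    exact ContinuousLinearMap.norm_id_le
  hB' := by
    rw [ContinuousLinearEquiv.refl_symm, ContinuousLinearEquiv.coe_refl]
    exact ContinuousLinearMap.norm_id_le

theorem stdLat_fr {D : ℕ} (j : Fin D → ℤ) : (stdLat D).fr j = zv j := by
  unfold Lat.fr stdLat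
  simp

theorem stdLat_es {D : ℕ} (s : Finset (Fin D → ℤ)) (a : (Fin D → ℤ) → ℂ) (x : EE D) :
    es (stdLat D) s a x = CV.es s a x := by
  unfold es CV.es
  simp only [stdLat_fr]

/-- one chart -/
theorem chart (m : ℕ) (hU : UU (m + 1)) (hHM : CV.SpecHM) (ch : AChart (m + 1)) :
    ∃ C : ℝ, 0 < C ∧ ∀ (lam : ℝ) (s : Finset (Fin (m + 2) → ℤ)) (a : (Fin (m + 2) → ℤ) → ℂ), 0 ≤ lam →
    (∀ n ∈ s, ‖zv n‖ = lam) →
    ∫⁻ x in ch.ch.X '' Metric.closedBall 0 (dl (m + 1) ch.R), ENNReal.ofReal (‖CV.es s a x‖ ^ 2)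
      ∂(Measure.hausdorffMeasure ((m + 1 : ℕ) : ℝ)) ≤
      ENNReal.ofReal (C * ∑ n ∈ s, ‖a n‖ ^ 2) := by
  obtain ⟨C1, hC1, h1⟩ := hU 1 ch.c ch.R ch.M le_rfl ch.cls
  obtain ⟨C2, hC2, h2⟩ := hHM (m + 1) ch.ch.X (dl (m + 1) ch.R) ch.ch.smooth
  refine ⟨C2 * C1, mul_pos hC2 hC1, fun lam s a hlam hs => ?_⟩
  have hcont : Continuous fun x : EE (m + 1 + 1) => ‖CV.es s a x‖ ^ 2 :=
    (CV.FINM.continuous_es s a).norm.pow 2
  have hmeas : Measurable fun x : EE (m + 1 + 1) => ENNReal.ofReal (‖CV.es s a x‖ ^ 2) :=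
    hcont.measurable.ennreal_ofReal
  have hcq : Continuous fun q : EE (m + 1) => ‖CV.es s a (ch.ch.X q)‖ ^ 2 :=
    hcont.comp ch.ch.smooth.continuous
  have h3 : ∫⁻ q in Metric.closedBall 0 (dl (m + 1) ch.R), ENNReal.ofReal (‖CV.es s a (ch.ch.X q)‖ ^ 2) =
      ENNReal.ofReal (∫ q in Metric.closedBall (0 : EE (m + 1)) (dl (m + 1) ch.R),
        ‖CV.es s a (ch.ch.X q)‖ ^ 2) := by
    rw [ofReal_integral_eq_lintegral_ofReal]
    · exact hcq.continuousOn.integrableOn_compact (isCompact_closedBall _ _)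
    · exact Filter.Eventually.of_forall fun q => by positivity
  have hdm : Dm ch.ch (1 / (8 * (m + 1 + 1).factorial * 1)) := by
    rw [mul_one]
    exact ch.dm
  have h4 := h1 ch.ch hdm (stdLat (m + 1 + 1)) lam s a hlam (fun j hj => by rw [stdLat_fr]; exact hs j hj)
  simp only [stdLat_es] at h4
  calc _ ≤ ENNReal.ofReal C2 * ∫⁻ q in Metric.closedBall 0 (dl (m + 1) ch.R),
        ENNReal.ofReal (‖CV.es s a (ch.ch.X q)‖ ^ 2) := h2 _ hmeas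
    _ = ENNReal.ofReal (C2 * ∫ q in Metric.closedBall (0 : EE (m + 1)) (dl (m + 1) ch.R),
        ‖CV.es s a (ch.ch.X q)‖ ^ 2) := by rw [h3, ← ENNReal.ofReal_mul hC2.le]
    _ ≤ ENNReal.ofReal (C2 * C1 * ∑ n ∈ s, ‖a n‖ ^ 2) := by
        refine ENNReal.ofReal_le_ofReal ?_
        rw [mul_assoc]
        exact mul_le_mul_of_nonneg_left h4 hC2.le

/-- the theorem for a positively curved compact set, `d = m + 2` -/
theorem one (m : ℕ) (hU : UU (m + 1)) (hIF : SpecIF) (hHM : CV.SpecHM) (Sg : Set (EE (m + 2)))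
    (hS : PosCurved Sg) :
    ∃ C : ℝ, 0 < C ∧ ∀ (lam : ℝ) (s : Finset (Fin (m + 2) → ℤ)) (a : (Fin (m + 2) → ℤ) → ℂ), 0 ≤ lam →
    (∀ n ∈ s, ‖zv n‖ = lam) →
    ∫⁻ x in Sg, ENNReal.ofReal (‖CV.es s a x‖ ^ 2) ∂(Measure.hausdorffMeasure ((m + 1 : ℕ) : ℝ)) ≤
      ENNReal.ofReal (C * ∑ n ∈ s, ‖a n‖ ^ 2) := by
  obtain ⟨ι, hι, ch, hcov⟩ := cover hIF (k := m + 1) hS
  choose C hC0 hCb using fun i => chart m hU hHM (ch i)
  refine ⟨∑ i, C i + 1, by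
    have : 0 ≤ ∑ i, C i := Finset.sum_nonneg fun i _ => (hC0 i).le
    linarith, fun lam s a hlam hs => ?_⟩
  set F : EE (m + 2) → ℝ≥0∞ := fun x => ENNReal.ofReal (‖CV.es s a x‖ ^ 2) with hF
  set mu : Measure (EE (m + 2)) := Measure.hausdorffMeasure ((m + 1 : ℕ) : ℝ) with hmu
  have hsum0 : 0 ≤ ∑ n ∈ s, ‖a n‖ ^ 2 := Finset.sum_nonneg fun n _ => by positivity
  calc ∫⁻ x in Sg, F x ∂mu
      ≤ ∫⁻ x in ⋃ i, (ch i).ch.X '' Metric.closedBall 0 (dl (m + 1) (ch i).R), F x ∂mu :=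
        lintegral_mono_set hcov
    _ ≤ ∑' i, ∫⁻ x in (ch i).ch.X '' Metric.closedBall 0 (dl (m + 1) (ch i).R), F x ∂mu :=
        lintegral_iUnion_le _ _
    _ = ∑ i, ∫⁻ x in (ch i).ch.X '' Metric.closedBall 0 (dl (m + 1) (ch i).R), F x ∂mu :=
        tsum_fintype _
    _ ≤ ∑ i, ENNReal.ofReal (C i * ∑ n ∈ s, ‖a n‖ ^ 2) :=
        Finset.sum_le_sum fun i _ => hCb i lam s a hlam hs
    _ = ENNReal.ofReal (∑ i, C i * ∑ n ∈ s, ‖a n‖ ^ 2) := by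
        rw [ENNReal.ofReal_sum_of_nonneg]
        exact fun i _ => mul_nonneg (hC0 i).le hsum0
    _ ≤ ENNReal.ofReal ((∑ i, C i + 1) * ∑ n ∈ s, ‖a n‖ ^ 2) := by
        refine ENNReal.ofReal_le_ofReal ?_
        rw [← Finset.sum_mul]
        have h5 : ∑ i, C i ≤ ∑ i, C i + 1 := by linarith
        exact mul_le_mul_of_nonneg_right h5 hsum0

/-- **FN** -/
theorem specFN (hU : ∀ m : ℕ, UU (m + 1)) (hIF : SpecIF) (hHM : CV.SpecHM) : SpecFN :=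
  fun m Sg hS => one m (hU m) hIF hHM Sg hS

end Pool.Agent.Lib.MP_a8dae7_an.UN.FNM
end

section
/-!
# UN, Main: the final statement from `SpecFN`
-/
set_option autoImplicit false

open MeasureTheory
open scoped ContDiff

namespace Pool.Agent.Lib.MP_a8dae7_an.UN.MainM

open Pool.Agent.Lib.MP_a8dae7_an.CV (EE zv ex PosAt PosCurved)
open Pool.Agent.Lib.MP_a8dae7_an.CV.MainM (es_eq norm_zv)

theorem main (hF : SpecFN) (k : ℕ) (hk : 1 ≤ k) (Sg : Set (EE (k + 1))) (hc : IsCompact Sg)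
    (hp : ∀ p ∈ Sg, PosAt Sg p) :
    ∃ C : ℝ, 0 < C ∧ ∀ (lam : ℝ) (s : Finset (Fin (k + 1) → ℤ)) (a : (Fin (k + 1) → ℤ) → ℂ),
      (∀ n ∈ s, ∑ i, (n i : ℝ) ^ 2 = lam ^ 2) →
      ∫⁻ x in Sg, ENNReal.ofReal (‖FP.wave s a (fun i => x i)‖ ^ 2)
        ∂(Measure.hausdorffMeasure (k : ℝ))
        ≤ ENNReal.ofReal (C *
          ∫ x in Set.pi Set.univ (fun _ : Fin (k + 1) => Set.Icc (0 : ℝ) (2 * Real.pi)),
            ‖FP.wave s a x‖ ^ 2) := by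
  obtain ⟨m, rfl⟩ := Nat.exists_eq_add_of_le' hk
  obtain ⟨C, hC, h⟩ := hF m Sg ⟨hc, hp⟩
  refine ⟨C, hC, fun lam s a hs => ?_⟩
  have h1 := h |lam| s a (abs_nonneg lam) fun n hn =>
    norm_zv n (abs_nonneg lam) (by rw [sq_abs]; exact hs n hn)
  have h2 := FP.specPAR (m + 1 + 1) s a
  simp only [es_eq] at h1
  refine h1.trans (ENNReal.ofReal_le_ofReal ?_)
  rw [h2]
  have h3 : (1 : ℝ) ≤ (2 * Real.pi) ^ (m + 1 + 1) :=
    one_le_pow₀ (by have := Real.pi_gt_three; linarith)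
  have h4 : 0 ≤ ∑ n ∈ s, ‖a n‖ ^ 2 := Finset.sum_nonneg fun n _ => by positivity
  have h6 : ∑ n ∈ s, ‖a n‖ ^ 2 ≤ (2 * Real.pi) ^ (m + 1 + 1) * ∑ n ∈ s, ‖a n‖ ^ 2 :=
    le_mul_of_one_le_left h4 h3
  exact mul_le_mul_of_nonneg_left h6 hC.le

end Pool.Agent.Lib.MP_a8dae7_an.UN.MainM
end
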