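import Pool.Agent.Lib.MP_a8dae7_an.UN.SpecO

section
/-!
# MP_a8dae7_an, UN: the common core of the cases A and B of a pair of pieces (helper67)

`w = D⁻¹ Y v`, `D(q) = ⟨τ_q(η), v⟩`: integration by parts for the whole block.
-/
set_option autoImplicit false

open MeasureTheory
open scoped ContDiff Topology

namespace Pool.Agent.Lib.MP_a8dae7_an.UN.COREM

open Pool.Agent.Lib.MP_a8dae7_an.CV (EE zv ex pq pi2 AA sl bm)

/-- Leibniz at a point of an open set -/
theorem smul_bd {k : ℕ} {F : Type*} [NormedAddCommGroup F] [NormedSpace ℝ F] {U : Set (EE k)} (hU : IsOpen U)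
    {f : EE k → ℝ} {g : EE k → F} (hf : ContDiffOn ℝ ∞ f U) (hg : ContDiffOn ℝ ∞ g U) {q : EE k} (hq : q ∈ U)
    {N : ℕ} {A B sig : ℝ} (hsig : 0 < sig)
    (h1 : ∀ j ≤ N, ‖iteratedFDeriv ℝ j f q‖ ≤ A * sig⁻¹ ^ j)
    (h2 : ∀ j ≤ N, ‖iteratedFDeriv ℝ j g q‖ ≤ B * sig⁻¹ ^ j) (j : ℕ) (hj : j ≤ N) :
    ‖iteratedFDeriv ℝ j (fun p => f p • g p) q‖ ≤ 2 ^ N * A * B * sig⁻¹ ^ j := by
  have hA : 0 ≤ A := by
    have := (norm_nonneg _).trans (h1 0 (Nat.zero_le _))
    simpa using this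
  have hB : 0 ≤ B := by
    have := (norm_nonneg _).trans (h2 0 (Nat.zero_le _))
    simpa using this
  have e3 := norm_iteratedFDerivWithin_smul_le (𝕜 := ℝ) hf hg hU.uniqueDiffOn hq (n := j)
    (by exact_mod_cast le_top)
  rw [iteratedFDerivWithin_of_isOpen j hU hq] at e3
  refine e3.trans ?_
  have e4 : ∀ i ∈ Finset.range (j + 1), (j.choose i : ℝ) * ‖iteratedFDerivWithin ℝ i f U q‖ *
      ‖iteratedFDerivWithin ℝ (j - i) g U q‖ ≤ (j.choose i : ℝ) * (A * B * sig⁻¹ ^ j) := by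
    intro i hi
    have hij : i ≤ j := Nat.lt_succ_iff.1 (Finset.mem_range.1 hi)
    rw [iteratedFDerivWithin_of_isOpen i hU hq, iteratedFDerivWithin_of_isOpen (j - i) hU hq, mul_assoc]
    refine mul_le_mul_of_nonneg_left ?_ (by positivity)
    calc ‖iteratedFDeriv ℝ i f q‖ * ‖iteratedFDeriv ℝ (j - i) g q‖
        ≤ (A * sig⁻¹ ^ i) * (B * sig⁻¹ ^ (j - i)) :=
          mul_le_mul (h1 i (hij.trans hj)) (h2 (j - i) (by omega)) (norm_nonneg _) (by positivity)
      _ = A * B * (sig⁻¹ ^ i * sig⁻¹ ^ (j - i)) := by ring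
      _ = A * B * sig⁻¹ ^ j := by
          rw [← pow_add]
          congr 2
          omega
  refine (Finset.sum_le_sum e4).trans ?_
  rw [← Finset.sum_mul]
  have e5 : (∑ i ∈ Finset.range (j + 1), (j.choose i : ℝ)) = 2 ^ j := by
    exact_mod_cast Nat.sum_range_choose j
  rw [e5]
  have e6 : (2 : ℝ) ^ j ≤ 2 ^ N := pow_le_pow_right₀ (by norm_num) hj
  calc (2 : ℝ) ^ j * (A * B * sig⁻¹ ^ j) ≤ 2 ^ N * (A * B * sig⁻¹ ^ j) := by gcongr
    _ = _ := by ring

/-- the derivatives of an affine function -/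
theorem aff_bd {k : ℕ} (b : ℝ) (u : EE k) {T sig : ℝ} (hT : 0 ≤ T) (hsig : 0 < sig) (q : EE k)
    (h0 : |b + inner ℝ q u| ≤ T) (h1 : ‖u‖ ≤ T * sig⁻¹) (j : ℕ) :
    ‖iteratedFDeriv ℝ j (fun p : EE k => b + inner ℝ p u) q‖ ≤ T * sig⁻¹ ^ j := by
  have hfd : fderiv ℝ (fun p : EE k => b + inner ℝ p u) = fun _ => innerSL ℝ u := by
    funext p
    have h : HasFDerivAt (fun p : EE k => b + inner ℝ p u) (innerSL ℝ u) p := by
      have h2 := ((innerSL ℝ u).hasFDerivAt (x := p)).const_add b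
      refine h2.congr_of_eventuallyEq (Filter.Eventually.of_forall fun p => ?_)
      simp [real_inner_comm]
    exact h.fderiv
  rcases j with _ | j
  · rw [norm_iteratedFDeriv_zero, pow_zero, mul_one, Real.norm_eq_abs]
    exact h0
  · rw [← norm_iteratedFDeriv_fderiv, hfd]
    rcases j with _ | j
    · rw [norm_iteratedFDeriv_zero, innerSL_apply_norm, zero_add, pow_one]
      exact h1
    · rw [iteratedFDeriv_const_of_ne (Nat.succ_ne_zero j), Pi.zero_apply, norm_zero]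
      positivity

theorem aff_smooth {k : ℕ} (b : ℝ) (u : EE k) : ContDiff ℝ ∞ (fun p : EE k => b + inner ℝ p u) :=
  contDiff_const.add (contDiff_id.inner ℝ contDiff_const)

theorem tq_add {k : ℕ} {c R : ℝ} {M : ℕ → ℝ} (ch : UChart k c R M) (q : EE k) (x y : EE (k + 1)) :
    tq ch q (x + y) = tq ch q x + tq ch q y := by
  unfold tq
  rw [map_add, inner_add_right, add_smul]
  abel

theorem tq_sub {k : ℕ} {c R : ℝ} {M : ℕ → ℝ} (ch : UChart k c R M) (q : EE k) (x y : EE (k + 1)) :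
    tq ch q (x - y) = tq ch q x - tq ch q y := by
  unfold tq
  rw [map_sub, inner_sub_right, sub_smul]
  abel

/-- `D` is affine -/
theorem inner_tq {k : ℕ} {c R : ℝ} {M : ℕ → ℝ} (ch : UChart k c R M) (q v : EE k) (x : EE (k + 1)) :
    inner ℝ (tq ch q x) v = inner ℝ (tq ch 0 x) v + inner ℝ q ((inner ℝ ch.nu x : ℝ) • v) := by
  unfold tq
  rw [smul_zero, add_zero, inner_add_left, real_inner_smul_left, real_inner_smul_right]

theorem es_mul {D : ℕ} {A : ℝ} (Lt : Lat D A) (s s' : Finset (Fin D → ℤ)) (x y : (Fin D → ℤ) → ℂ) (p : EE D) :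
    es Lt s x p * (starRingEnd ℂ) (es Lt s' y p) = ∑ i ∈ s, ∑ j ∈ s', x i * (starRingEnd ℂ) (y j) *
      Complex.exp (Complex.I * ((inner ℝ (Lt.fr i - Lt.fr j) p : ℝ) : ℂ)) := by
  unfold es ex
  rw [map_sum, Finset.sum_mul]
  refine Finset.sum_congr rfl fun i _ => ?_
  rw [Finset.mul_sum]
  refine Finset.sum_congr rfl fun j _ => ?_
  rw [map_mul, ← Complex.exp_conj, map_mul, Complex.conj_I, Complex.conj_ofReal, inner_sub_left]
  have : Complex.exp (Complex.I * ((inner ℝ (Lt.fr i) p - inner ℝ (Lt.fr j) p : ℝ) : ℂ)) =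
      Complex.exp (Complex.I * ((inner ℝ (Lt.fr i) p : ℝ) : ℂ)) *
      Complex.exp (-Complex.I * ((inner ℝ (Lt.fr j) p : ℝ) : ℂ)) := by
    rw [← Complex.exp_add]
    congr 1
    push_cast
    ring
  rw [this]
  ring

/-- **The core.** -/
theorem core (hREC : SpecREC) (hVF : SpecVF) (hIBP : SpecIBP) (hCS : SpecCS) (k : ℕ) (c R : ℝ)
    (M : ℕ → ℝ) (hc : Cls c R M) (N L : ℕ) (C0 : ℝ) : ∃ C c1 : ℝ, 0 < C ∧ 0 < c1 ∧
    ∀ (A : ℝ) (ch : UChart k c R M) (Lt : Lat (k + 1) A) (lam th BB : ℝ) (n0 n0' : EE (k + 1))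
      (s s' : Finset (Fin (k + 1) → ℤ)) (a : EE k → ℝ) (x y : (Fin (k + 1) → ℤ) → ℂ) (Z : Set (EE k)) (v : EE k)
      (sig D0 : ℝ) (al be : Fin L → EE k → ℝ) (f g : Fin L → (Fin (k + 1) → ℤ) → ℝ),
    Pair ch Lt lam th BB n0 n0' s s' → IsClosed Z →
    (∀ q ∈ Z, ‖q‖ ≤ 3 / 2 * dl k R ∧ |sn ch n0 q| ≤ 3 * (lam * th) ∧ |sn ch n0' q| ≤ 3 * (lam * th)) →
    0 < sig → sig ≤ 1 → 0 < D0 →
    (∀ q ∈ Z, D0 ≤ |inner ℝ (tq ch q (n0 - n0')) v|) → (∀ q ∈ Z, |inner ℝ (tq ch q (n0 - n0')) v| ≤ C0 * D0) →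
    |inner ℝ ch.nu (n0 - n0')| * ‖v‖ ≤ C0 * D0 * sig⁻¹ →
    (∀ l, ContDiff ℝ ∞ (al l)) → (∀ l, ContDiff ℝ ∞ (be l)) →
    (∀ l, ∀ i ∈ s, |f l i| ≤ 1) → (∀ l, ∀ j ∈ s', |g l j| ≤ 1) →
    (∀ l, ∀ q ∈ Z, ∀ j ≤ N, ‖iteratedFDeriv ℝ j (al l) q‖ ≤ c1 * D0 * sig⁻¹ ^ j) →
    (∀ l, ∀ q ∈ Z, ∀ j ≤ N, ‖iteratedFDeriv ℝ j (be l) q‖ ≤ c1 * D0 * sig⁻¹ ^ j) →
    (∀ q ∈ Z, ∀ i ∈ s, inner ℝ (tq ch q (Lt.fr i - n0)) v = ∑ l, al l q * f l i) →
    (∀ q ∈ Z, ∀ j ∈ s', inner ℝ (tq ch q (Lt.fr j - n0')) v = ∑ l, be l q * g l j) →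
    ContDiff ℝ ∞ a → (∀ q, a q ≠ 0 → q ∈ Z) → (∀ q, ∀ j ≤ N, ‖iteratedFDeriv ℝ j a q‖ ≤ sig⁻¹ ^ j) →
    ‖∫ q, (a q : ℂ) * (es Lt s x (ch.X q) * (starRingEnd ℂ) (es Lt s' y (ch.X q)))‖ ≤
      (C * ‖v‖ / (D0 * sig)) ^ N * BB * (Real.sqrt (∑ j ∈ s, ‖x j‖ ^ 2) * Real.sqrt (∑ j ∈ s', ‖y j‖ ^ 2)) := by
  obtain ⟨CI, c1, hCI, hc1, hI⟩ := hIBP k N (L + L)
  obtain ⟨CR, hCR, hR⟩ := hREC k N C0
  obtain ⟨CY, hY⟩ := hVF k c R M hc
  set CYm : ℝ := ∑ j ∈ Finset.range (N + 1), |CY j| with hCYm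
  have hCY0 : 0 ≤ CYm := Finset.sum_nonneg fun j _ => abs_nonneg _
  have hCYj : ∀ j ≤ N, CY j ≤ CYm := fun j hj => (le_abs_self _).trans
    (Finset.single_le_sum (f := fun j => |CY j|) (fun i _ => abs_nonneg _)
      (Finset.mem_range.2 (Nat.lt_succ_of_le hj)))
  refine ⟨CI * (2 ^ N * CR * (CYm + 1)), c1 / (2 ^ N * CR), by positivity, by positivity, ?_⟩
  intro A ch Lt lam th BB n0 n0' s s' a x y Z v sig D0 al be f g P hZ hZb hsig hsig1 hD0 hDl hDu hDn has hbs hf hg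
    hal hbe hia hib ha ha0 hab
  obtain ⟨Y, hYs, hYb, hYi⟩ := hY ch
  have hlam : 0 < lam := lt_of_lt_of_le one_pos P.one_lam
  have hth : 0 < th := lt_of_lt_of_le (Real.rpow_pos_of_pos hlam _) P.th_low
  have hR0 := hc.R_pos
  have hdl : 0 < dl k R := by unfold dl; positivity
  have hdlR : 2 * dl k R ≤ R := by
    have : (1 : ℝ) ≤ 32 ^ k := one_le_pow₀ (by norm_num)
    unfold dl
    rw [mul_div_assoc', div_le_iff₀ (by positivity)]
    nlinarith
  set eta : EE (k + 1) := n0 - n0' with heta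
  set D : EE k → ℝ := fun q => inner ℝ (tq ch 0 eta) v + inner ℝ q ((inner ℝ ch.nu eta : ℝ) • v) with hD
  have hDe : ∀ q, D q = inner ℝ (tq ch q eta) v := fun q => (inner_tq ch q v eta).symm
  have hDs : ContDiff ℝ ∞ D := aff_smooth _ _
  set U : Set (EE k) := {q | ‖q‖ < 2 * dl k R} ∩ {q | D q ≠ 0} with hU
  have hUo : IsOpen U := (isOpen_lt continuous_norm continuous_const).inter
    (isOpen_ne_fun hDs.continuous continuous_const)
  have hDq : ∀ q ∈ Z, D0 ≤ |D q| := fun q hq => by rw [hDe]; exact hDl q hq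
  have hZU : Z ⊆ U := by
    intro q hq
    refine ⟨?_, ?_⟩
    · have := (hZb q hq).1
      show ‖q‖ < 2 * dl k R
      linarith
    · intro h0
      have := hDq q hq
      rw [h0, abs_zero] at this
      linarith
  have hZbd : Bornology.IsBounded Z := by
    refine (Metric.isBounded_closedBall (x := (0 : EE k)) (r := 3 / 2 * dl k R)).subset ?_
    intro q hq
    rw [mem_closedBall_zero_iff]
    exact (hZb q hq).1
  have hinv : ContDiffOn ℝ ∞ (fun q => (D q)⁻¹) U := hDs.contDiffOn.inv fun q hq => hq.2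
  have hsi : 1 ≤ sig⁻¹ := one_le_inv_iff₀.2 ⟨hsig, hsig1⟩
  have hrec : ∀ q ∈ Z, ∀ j ≤ N, ‖iteratedFDeriv ℝ j (fun p => (D p)⁻¹) q‖ ≤ CR * D0⁻¹ * sig⁻¹ ^ j := by
    intro q hq
    refine hR D q D0 sig hDs hD0 hsig (hDq q hq) fun j hj => ?_
    have hCD : 0 ≤ C0 * D0 := (abs_nonneg _).trans (hDu q hq)
    refine aff_bd _ _ hCD hsig q ?_ ?_ j
    · have := hDu q hq
      rwa [← hDe] at this
    · rw [norm_smul, Real.norm_eq_abs]
      exact hDn
  -- the vector field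
  have hYv : ContDiff ℝ ∞ (fun q => Y q v) := hYs.clm_apply contDiff_const
  have hYvb : ∀ q ∈ Z, ∀ j ≤ N, ‖iteratedFDeriv ℝ j (fun p => Y p v) q‖ ≤ (CYm * ‖v‖) * sig⁻¹ ^ j := by
    intro q hq j hj
    have h1 := norm_iteratedFDeriv_clm_apply_const (f := Y) (c := v) (x := q) (n := j)
      (N := ∞) hYs.contDiffAt (by exact_mod_cast le_top)
    have h2 := hYb j q (by have := (hZb q hq).1; linarith)
    calc ‖iteratedFDeriv ℝ j (fun p => Y p v) q‖ ≤ ‖v‖ * ‖iteratedFDeriv ℝ j Y q‖ := h1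
      _ ≤ ‖v‖ * CYm := by
          gcongr
          exact h2.trans (hCYj j hj)
      _ = (CYm * ‖v‖) * 1 := by ring
      _ ≤ (CYm * ‖v‖) * sig⁻¹ ^ j := by
          gcongr
          exact one_le_pow₀ hsi
  have hw : ContDiffOn ℝ ∞ (fun q => (D q)⁻¹ • Y q v) U := hinv.smul hYv.contDiffOn
  have hwb : ∀ q ∈ Z, ∀ j ≤ N, ‖iteratedFDeriv ℝ j (fun q => (D q)⁻¹ • Y q v) q‖ ≤
      (2 ^ N * CR * (CYm + 1) * ‖v‖ / D0) * sig⁻¹ ^ j := by
    intro q hq j hj
    refine (smul_bd hUo hinv hYv.contDiffOn (hZU hq) hsig (hrec q hq) (hYvb q hq) j hj).trans ?_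
    refine mul_le_mul_of_nonneg_right ?_ (by positivity)
    rw [div_eq_mul_inv]
    calc 2 ^ N * (CR * D0⁻¹) * (CYm * ‖v‖) = 2 ^ N * CR * CYm * ‖v‖ * D0⁻¹ := by ring
      _ ≤ 2 ^ N * CR * (CYm + 1) * ‖v‖ * D0⁻¹ := by
          gcongr
          linarith
  -- the coefficients
  have hcoef : ∀ γ : EE k → ℝ, ContDiff ℝ ∞ γ →
      (∀ q ∈ Z, ∀ j ≤ N, ‖iteratedFDeriv ℝ j γ q‖ ≤ c1 / (2 ^ N * CR) * D0 * sig⁻¹ ^ j) →
      ContDiffOn ℝ ∞ (fun q => (D q)⁻¹ • γ q) U ∧
      ∀ q ∈ Z, ∀ j ≤ N, ‖iteratedFDeriv ℝ j (fun q => (D q)⁻¹ • γ q) q‖ ≤ c1 * sig⁻¹ ^ j := by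
    intro γ hγ hγb
    refine ⟨hinv.smul hγ.contDiffOn, fun q hq j hj => ?_⟩
    refine (smul_bd hUo hinv hγ.contDiffOn (hZU hq) hsig (hrec q hq) (hγb q hq) j hj).trans (le_of_eq ?_)
    field_simp
  have hal' := fun l => hcoef (al l) (has l) (fun q hq j hj => hal l q hq j hj)
  have hbe' := fun l => hcoef (fun q => -be l q) (hbs l).neg (fun q hq j hj => by
    have e : iteratedFDeriv ℝ j (fun q => -be l q) q = -iteratedFDeriv ℝ j (be l) q :=
      iteratedFDeriv_neg_apply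
    rw [e, norm_neg]
    exact hbe l q hq j hj)
  have key := hI (Fin (k + 1) → ℤ) s s' (fun i j q => inner ℝ (Lt.fr i - Lt.fr j) (ch.X q)) Z U
    (fun q => (D q)⁻¹ • Y q v) (Fin.append (fun l q => (D q)⁻¹ • al l q) (fun l q => (D q)⁻¹ • (-be l q)))
    (Fin.append f (fun _ _ => 1)) (Fin.append (fun _ _ => 1) g) sig (2 ^ N * CR * (CYm + 1) * ‖v‖ / D0) BB
    hZ hZbd hUo hZU hsig (by positivity) P.hBB (fun i _ j _ => contDiff_const.inner ℝ ch.smooth) hw
    (fun l => by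
      refine Fin.addCases (fun l => ?_) (fun l => ?_) l
      · rw [Fin.append_left]
        exact (hal' l).1
      · rw [Fin.append_right]
        exact (hbe' l).1)
    (fun l i hi => by
      refine Fin.addCases (fun l => ?_) (fun l => ?_) l
      · rw [Fin.append_left]
        exact hf l i hi
      · rw [Fin.append_right]
        simp)
    (fun l i hi => by
      refine Fin.addCases (fun l => ?_) (fun l => ?_) l
      · rw [Fin.append_left]
        simp
      · rw [Fin.append_right]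
        exact hg l i hi)
    (fun q hq i hi j hj => by
      have hqU := hZU hq
      have hD0' : D q ≠ 0 := hqU.2
      have hq2 : ‖q‖ ≤ 2 * dl k R := by have := (hZb q hq).1; linarith
      have hXd : DifferentiableAt ℝ ch.X q := (ch.smooth.differentiable (by simp)).differentiableAt
      have hfd : fderiv ℝ (fun q => (inner ℝ (Lt.fr i - Lt.fr j) (ch.X q) : ℝ)) q ((D q)⁻¹ • Y q v) =
          inner ℝ (Lt.fr i - Lt.fr j) (fderiv ℝ ch.X q ((D q)⁻¹ • Y q v)) := by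
        rw [fderiv_inner_apply ℝ (differentiableAt_const _) hXd]
        simp
      rw [hfd, map_smul, real_inner_smul_right, hYi q hq2]
      have e1 : Lt.fr i - Lt.fr j = eta + (Lt.fr i - n0) - (Lt.fr j - n0') := by
        rw [heta]
        abel
      rw [e1, tq_sub, tq_add, inner_sub_left, inner_add_left, hia q hq i hi, hib q hq j hj, ← hDe q]
      rw [Fin.sum_univ_add]
      simp only [Fin.append_left, Fin.append_right, smul_eq_mul, mul_one, one_mul]
      rw [mul_sub, mul_add, inv_mul_cancel₀ hD0', Finset.mul_sum, Finset.mul_sum, sub_eq_add_neg,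
        ← Finset.sum_neg_distrib, add_assoc]
      congr 1
      congr 1
      · exact Finset.sum_congr rfl fun l _ => by ring
      · exact Finset.sum_congr rfl fun l _ => by ring)
    hwb
    (fun q hq l j hj => by
      refine Fin.addCases (fun l => ?_) (fun l => ?_) l
      · rw [Fin.append_left]
        exact (hal' l).2 q hq j hj
      · rw [Fin.append_right]
        exact (hbe' l).2 q hq j hj)
    (fun a0 x y h1 h2 h3 => by
      have := hCS k c R A M ch Lt lam th BB n0 n0' s s' a0 x y P h1.continuous h2 (fun q hq => by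
        obtain ⟨b1, b2, b3⟩ := hZb q (h3 q hq)
        have : 0 ≤ lam * th := by positivity
        exact ⟨by linarith, by nlinarith, by nlinarith⟩)
      simp only [es_mul] at this
      exact this)
    a x y ha ha0 hab
  simp only [es_mul]
  refine key.trans (le_of_eq ?_)
  congr 3
  field_simp

end Pool.Agent.Lib.MP_a8dae7_an.UN.COREM
end

section
/-!
# MP_a8dae7_an, UN: `specCA` (helper67): a pair of pieces, case A (`|J^* eta| ≥ rho/8`)

`v = J^* eta`, `D(q) = |v|² + ⟨nu,eta⟩⟨q,v⟩ ≥ 3/256 rho²`, two coefficients `r rho` and `r⟨q,v⟩`.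
-/
set_option autoImplicit false

open MeasureTheory
open scoped ContDiff Topology

namespace Pool.Agent.Lib.MP_a8dae7_an.UN.CAM

open Pool.Agent.Lib.MP_a8dae7_an.CV (EE zv ex pq pi2 AA sl bm)
open Pool.Agent.Lib.MP_a8dae7_an.UN.COREM

theorem continuous_sn {k : ℕ} {c R : ℝ} {M : ℕ → ℝ} (ch : UChart k c R M) (n : EE (k + 1)) :
    Continuous (sn ch n) :=
  continuous_const.inner (continuous_const.sub ch.J.continuous)

/-- normalisation of the amplitude -/
theorem norm_amp {k : ℕ} {N : ℕ} {Ac : ℕ → ℝ} {th : ℝ} (hth : 0 < th) {a : EE k → ℝ} (ha : ContDiff ℝ ∞ a)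
    (hab : ∀ j q, ‖iteratedFDeriv ℝ j a q‖ ≤ Ac j * (1 / th) ^ j) (q : EE k) (j : ℕ) (hj : j ≤ N) :
    ‖iteratedFDeriv ℝ j (fun q => (1 + ∑ j ∈ Finset.range (N + 1), |Ac j|)⁻¹ * a q) q‖ ≤ (th / 4)⁻¹ ^ j := by
  set A0 : ℝ := 1 + ∑ j ∈ Finset.range (N + 1), |Ac j| with hA0
  have hs : 0 ≤ ∑ j ∈ Finset.range (N + 1), |Ac j| := Finset.sum_nonneg fun j _ => abs_nonneg _
  have hA : 0 < A0 := by linarith
  have hAj : Ac j ≤ A0 := by
    have := Finset.single_le_sum (f := fun j => |Ac j|) (fun i _ => abs_nonneg _)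
      (Finset.mem_range.2 (Nat.lt_succ_of_le hj))
    have h2 := le_abs_self (Ac j)
    linarith
  have e : iteratedFDeriv ℝ j (fun q => A0⁻¹ * a q) q = A0⁻¹ • iteratedFDeriv ℝ j a q :=
    iteratedFDeriv_const_smul_apply' (a := A0⁻¹) (ha.of_le (by exact_mod_cast le_top)).contDiffAt
  rw [e, norm_smul, norm_inv, Real.norm_of_nonneg hA.le]
  calc A0⁻¹ * ‖iteratedFDeriv ℝ j a q‖ ≤ A0⁻¹ * (A0 * (1 / th) ^ j) := by
        gcongr
        refine (hab j q).trans ?_
        gcongr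
    _ = (1 / th) ^ j := by
        field_simp
    _ ≤ (th / 4)⁻¹ ^ j := by
        refine pow_le_pow_left₀ (by positivity) ?_ j
        rw [inv_div]
        gcongr
        norm_num

theorem pull {k : ℕ} {A0 : ℝ} (hA : 0 < A0) (a : EE k → ℝ) (F : EE k → ℂ) :
    ∫ q, (a q : ℂ) * F q = (A0 : ℂ) * ∫ q, ((A0⁻¹ * a q : ℝ) : ℂ) * F q := by
  rw [← integral_const_mul]
  refine integral_congr_ae (Filter.Eventually.of_forall fun q => ?_)
  have hAc : (A0 : ℂ) ≠ 0 := by exact_mod_cast hA.ne'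
  simp only
  push_cast
  field_simp

theorem specCA (hGA : SpecGA) (hREC : SpecREC) (hVF : SpecVF) (hIBP : SpecIBP) (hCS : SpecCS) : SpecCA := by
  intro k c R M hc N Ac
  obtain ⟨C, c1, hC, hc1, hcore⟩ := core hREC hVF hIBP hCS k c R M hc N 2 171
  set A0 : ℝ := 1 + ∑ j ∈ Finset.range (N + 1), |Ac j| with hA0
  have hs : 0 ≤ ∑ j ∈ Finset.range (N + 1), |Ac j| := Finset.sum_nonneg fun j _ => abs_nonneg _
  have hA : 0 < A0 := by linarith
  refine ⟨max 1 (256 / (3 * c1)), A0 * (C * (4096 / 3)) ^ N, le_max_left _ _, by positivity, ?_⟩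
  intro A ch Lt lam th BB n0 n0' s s' a x y P hK hJ ha ha0 hab
  have hlam : 0 < lam := lt_of_lt_of_le one_pos P.one_lam
  have hth : 0 < th := lt_of_lt_of_le (Real.rpow_pos_of_pos hlam _) P.th_low
  have hth4 := P.th_le
  have hR0 := hc.R_pos
  have hdl : 0 < dl k R := by unfold dl; positivity
  have hdlR : dl k R ≤ 1 / 64 := by
    have h1 : (1 : ℝ) ≤ 32 ^ k := one_le_pow₀ (by norm_num)
    have h2 := hc.R_le
    unfold dl
    rw [div_le_iff₀ (by positivity)]
    nlinarith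
  set r : ℝ := (th ^ 2)⁻¹ with hr
  have hr0 : 0 < r := by positivity
  have hrth : r * th ^ 2 = 1 := inv_mul_cancel₀ (by positivity)
  set eta : EE (k + 1) := n0 - n0' with heta
  set rho : ℝ := ‖eta‖ with hrho
  have hK1 : 1 * r ≤ rho := le_trans (by gcongr; exact le_max_left _ _) hK
  have hK2 : 256 / (3 * c1) * r ≤ rho := le_trans (by gcongr; exact le_max_right _ _) hK
  have hrho0 : 0 < rho := by linarith
  set v : EE k := tq ch 0 eta with hv
  have hg0 := (hGA k c R M hc ch 0 (by rw [norm_zero]; exact hR0.le)).2.2.2.1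
  have hvr : ‖v‖ ≤ rho := (hg0 eta).2.2.2
  have hnr : |inner ℝ ch.nu eta| ≤ rho := (hg0 eta).2.2.1
  have hv0 : 0 < ‖v‖ := lt_of_lt_of_le (by positivity) hJ
  have hn1 : ∀ (zt : EE (k + 1)), ‖zt‖ ≤ r / 64 → |inner ℝ (tq ch 0 zt) v / (r * rho)| ≤ 1 := by
    intro zt hz
    rw [abs_div, abs_of_pos (by positivity : 0 < r * rho), div_le_one (by positivity)]
    calc |inner ℝ (tq ch 0 zt) v| ≤ ‖tq ch 0 zt‖ * ‖v‖ := abs_real_inner_le_norm _ _
      _ ≤ r * rho := by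
          have h1 : ‖tq ch 0 zt‖ ≤ r := ((hg0 zt).2.2.2.trans hz).trans (by linarith)
          gcongr
  have hn2 : ∀ (zt : EE (k + 1)), ‖zt‖ ≤ r / 64 → |inner ℝ ch.nu zt / r| ≤ 1 := by
    intro zt hz
    rw [abs_div, abs_of_pos hr0, div_le_one hr0]
    exact ((hg0 zt).2.2.1.trans hz).trans (by linarith)
  set Z : Set (EE k) := {q | ‖q‖ ≤ 3 / 2 * dl k R ∧ |sn ch n0 q| ≤ 3 * (lam * th) ∧
    |sn ch n0' q| ≤ 3 * (lam * th)} with hZ
  have hZc : IsClosed Z := by
    have e : Z = {q | ‖q‖ ≤ 3 / 2 * dl k R} ∩ ({q | |sn ch n0 q| ≤ 3 * (lam * th)} ∩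
      {q | |sn ch n0' q| ≤ 3 * (lam * th)}) := rfl
    rw [e]
    refine (isClosed_le continuous_norm continuous_const).inter ((isClosed_le ?_ continuous_const).inter
      (isClosed_le ?_ continuous_const))
    · exact (continuous_sn ch n0).abs
    · exact (continuous_sn ch n0').abs
  have hq1 : ∀ q ∈ Z, ‖q‖ ≤ 3 / 128 := fun q hq => by
    have := hq.1
    linarith
  have hqv : ∀ q ∈ Z, |inner ℝ ch.nu eta * inner ℝ q v| ≤ rho * (3 / 128 * ‖v‖) := by
    intro q hq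
    rw [abs_mul]
    have h1 : |inner ℝ q v| ≤ ‖q‖ * ‖v‖ := abs_real_inner_le_norm _ _
    have h2 : ‖q‖ * ‖v‖ ≤ 3 / 128 * ‖v‖ := by gcongr; exact hq1 q hq
    exact mul_le_mul hnr (h1.trans h2) (abs_nonneg _) hrho0.le
  have hDf : ∀ q, inner ℝ (tq ch q eta) v = ‖v‖ ^ 2 + inner ℝ ch.nu eta * inner ℝ q v := by
    intro q
    rw [inner_tq, ← hv, real_inner_self_eq_norm_sq, real_inner_smul_right]
  set D0 : ℝ := 3 / 256 * rho ^ 2 with hD0
  have hD0p : 0 < D0 := by positivity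
  have hT : r * rho ≤ c1 * D0 := by
    have h1 : 256 / (3 * c1) * r * (3 * c1 / 256) ≤ rho * (3 * c1 / 256) := by gcongr
    have h2 : 256 / (3 * c1) * r * (3 * c1 / 256) = r := by field_simp
    rw [h2] at h1
    calc r * rho ≤ rho * (3 * c1 / 256) * rho := by gcongr
      _ = c1 * D0 := by rw [hD0]; ring
  set sig : ℝ := th / 4 with hsig
  have hsig0 : 0 < sig := by positivity
  have hsig1 : sig ≤ 1 := by rw [hsig]; linarith
  have hsi : 1 ≤ sig⁻¹ := one_le_inv_iff₀.2 ⟨hsig0, hsig1⟩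
  -- the coefficients
  set al : Fin 2 → EE k → ℝ := ![fun q => r * rho + inner ℝ q (0 : EE k), fun q => 0 + inner ℝ q (r • v)] with hal
  have hals : ∀ l, ContDiff ℝ ∞ (al l) := by
    intro l
    fin_cases l
    · exact aff_smooth _ _
    · exact aff_smooth _ _
  have halb : ∀ l, ∀ q ∈ Z, ∀ j ≤ N, ‖iteratedFDeriv ℝ j (al l) q‖ ≤ c1 * D0 * sig⁻¹ ^ j := by
    intro l q hq j _
    have hT' : (r * rho) * sig⁻¹ ^ j ≤ c1 * D0 * sig⁻¹ ^ j := by gcongr
    refine le_trans ?_ hT'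
    fin_cases l
    · refine aff_bd _ _ (by positivity) hsig0 q ?_ ?_ j
      · rw [inner_zero_right, add_zero, abs_of_pos (by positivity)]
      · rw [norm_zero]
        positivity
    · refine aff_bd _ _ (by positivity) hsig0 q ?_ ?_ j
      · rw [zero_add, real_inner_smul_right, abs_mul, abs_of_pos hr0]
        have h1 : |inner ℝ q v| ≤ ‖q‖ * ‖v‖ := abs_real_inner_le_norm _ _
        have h2 : ‖q‖ * ‖v‖ ≤ 1 * rho := by
          gcongr
          exact (hq1 q hq).trans (by norm_num)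
        have h3 : |inner ℝ q v| ≤ rho := by linarith
        gcongr
      · rw [norm_smul, Real.norm_of_nonneg hr0.le]
        calc r * ‖v‖ ≤ r * rho * 1 := by rw [mul_one]; gcongr
          _ ≤ r * rho * sig⁻¹ := by gcongr
  have hid : ∀ (n : EE (k + 1)) (i : Fin (k + 1) → ℤ) (q : EE k), inner ℝ (tq ch q (Lt.fr i - n)) v =
      ∑ l, al l q * (![fun i => inner ℝ (tq ch 0 (Lt.fr i - n)) v / (r * rho),
        fun i => inner ℝ ch.nu (Lt.fr i - n) / r] : Fin 2 → (Fin (k + 1) → ℤ) → ℝ) l i := by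
    intro n i q
    rw [Fin.sum_univ_two, inner_tq, real_inner_smul_right]
    simp only [hal, Matrix.cons_val_zero, Matrix.cons_val_one, inner_zero_right, add_zero, zero_add,
      real_inner_smul_right]
    field_simp
  have hfb : ∀ (n : EE (k + 1)) (S : Finset (Fin (k + 1) → ℤ)), (∀ i ∈ S, ‖Lt.fr i - n‖ ≤ r / 64) →
      ∀ l, ∀ i ∈ S, |(![fun i => inner ℝ (tq ch 0 (Lt.fr i - n)) v / (r * rho),
        fun i => inner ℝ ch.nu (Lt.fr i - n) / r] : Fin 2 → (Fin (k + 1) → ℤ) → ℝ) l i| ≤ 1 := by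
    intro n S hS l i hi
    fin_cases l
    · exact hn1 _ (hS i hi)
    · exact hn2 _ (hS i hi)
  have key := hcore A ch Lt lam th BB n0 n0' s s' (fun q => A0⁻¹ * a q) x y Z v sig D0 al al _ _ P hZc
    (fun q hq => hq) hsig0 hsig1 hD0p
    (fun q hq => by
      rw [hDf]
      have h1 := (abs_le.1 (hqv q hq)).1
      have h2 : D0 ≤ ‖v‖ ^ 2 - rho * (3 / 128 * ‖v‖) := by
        rw [hD0]
        have h3 : 0 ≤ ‖v‖ - rho / 8 := by linarith
        nlinarith [mul_nonneg h3 hrho0.le, mul_nonneg h3 hv0.le]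
      exact (h2.trans (by linarith)).trans (le_abs_self _))
    (fun q hq => by
      rw [hDf]
      have h1 := hqv q hq
      have h2 : |‖v‖ ^ 2 + inner ℝ ch.nu eta * inner ℝ q v| ≤ ‖v‖ ^ 2 + rho * (3 / 128 * ‖v‖) := by
        refine (abs_add_le _ _).trans ?_
        rw [abs_of_nonneg (by positivity : (0 : ℝ) ≤ ‖v‖ ^ 2)]
        linarith
      refine h2.trans ?_
      rw [hD0]
      nlinarith [mul_le_mul hvr hvr hv0.le hrho0.le, mul_le_mul_of_nonneg_left hvr hrho0.le])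
    (by
      calc |inner ℝ ch.nu eta| * ‖v‖ ≤ rho * rho := by gcongr
        _ ≤ 171 * D0 * 1 := by rw [hD0]; nlinarith
        _ ≤ 171 * D0 * sig⁻¹ := by gcongr)
    hals hals (hfb n0 s fun i hi => (P.hs i hi).2) (hfb n0' s' fun i hi => (P.hs' i hi).2) halb halb
    (fun q _ i _ => hid n0 i q) (fun q _ i _ => hid n0' i q) (contDiff_const.mul ha)
    (fun q hq => ha0 q (by
      intro h
      exact hq (by simp [h])))
    (fun q j hj => norm_amp hth ha hab q j hj)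
  rw [pull hA a, norm_mul, Complex.norm_real, Real.norm_of_nonneg hA.le]
  set S : ℝ := Real.sqrt (∑ j ∈ s, ‖x j‖ ^ 2) * Real.sqrt (∑ j ∈ s', ‖y j‖ ^ 2) with hS
  have hS0 : 0 ≤ S := by positivity
  have hBB := P.hBB
  have hb : C * ‖v‖ / (D0 * sig) ≤ C * (4096 / 3) * (r / rho) := by
    rw [hD0, hsig]
    calc C * ‖v‖ / (3 / 256 * rho ^ 2 * (th / 4)) ≤ C * rho / (3 / 256 * rho ^ 2 * (th / 4)) := by gcongr
      _ = C * (1024 / 3) * (1 / (rho * th)) := by
          field_simp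
          norm_num
      _ = C * (1024 / 3) * ((r * th ^ 2) / (rho * th)) := by rw [hrth]
      _ = C * (1024 / 3) * (th * (r / rho)) := by
          field_simp
      _ ≤ C * (1024 / 3) * (4 * (r / rho)) := by gcongr
      _ = C * (4096 / 3) * (r / rho) := by ring
  calc A0 * ‖∫ q, ((A0⁻¹ * a q : ℝ) : ℂ) * (es Lt s x (ch.X q) * (starRingEnd ℂ) (es Lt s' y (ch.X q)))‖
      ≤ A0 * ((C * ‖v‖ / (D0 * sig)) ^ N * BB * S) := by gcongr
    _ ≤ A0 * ((C * (4096 / 3) * (r / rho)) ^ N * BB * S) := by gcongr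
    _ = A0 * (C * (4096 / 3)) ^ N * (r / rho) ^ N * BB * S := by
        rw [mul_pow (C * (4096 / 3)) (r / rho) N]
        ring

end Pool.Agent.Lib.MP_a8dae7_an.UN.CAM
end

section
/-!
# MP_a8dae7_an, UN: module CB. A pair of pieces, case B: `|J^* eta| ≤ rho / 8`.
-/
set_option autoImplicit false

open MeasureTheory
open scoped ContDiff

namespace Pool.Agent.Lib.MP_a8dae7_an.UN.CBM

open Pool.Agent.Lib.MP_a8dae7_an.CV (EE zv ex pq pi2 AA sl bm)

section calcs
variable {k : ℕ}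

/-- Derivatives of an affine function. -/
theorem aff_deriv (al : ℝ) (be q : EE k) {a s : ℝ} (ha : 0 ≤ a) (hs : 0 ≤ s)
    (h0 : |al + inner ℝ be q| ≤ a) (h1 : ‖be‖ ≤ a * s) (j : ℕ) :
    ‖iteratedFDeriv ℝ j (fun p : EE k => al + inner ℝ be p) q‖ ≤ a * s ^ j := by
  rcases j with _ | j
  · simpa using h0
  · have hf : fderiv ℝ (fun p : EE k => al + inner ℝ be p) = fun _ => innerSL ℝ be := by
      ext1 p
      rw [fderiv_const_add]
      exact (innerSL ℝ be).fderiv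
    rw [← norm_iteratedFDeriv_fderiv, hf]
    rcases j with _ | j
    · rw [norm_iteratedFDeriv_zero, innerSL_apply_norm, zero_add, pow_one]
      exact h1
    · rw [iteratedFDeriv_const_of_ne (by omega)]
      simp only [Pi.zero_apply, norm_zero]
      positivity

theorem aff_smooth (al : ℝ) (be : EE k) : ContDiff ℝ ∞ (fun p : EE k => al + inner ℝ be p) :=
  contDiff_const.add (innerSL ℝ be).contDiff

/-- Leibniz at a point of an open set. -/
theorem smul_bound {F : Type*} [NormedAddCommGroup F] [NormedSpace ℝ F] {U : Set (EE k)}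
    (hU : IsOpen U) {f : EE k → ℝ} {g : EE k → F} (hf : ContDiffOn ℝ ∞ f U)
    (hg : ContDiffOn ℝ ∞ g U) {q : EE k} (hq : q ∈ U) {N : ℕ} {a b s : ℝ} (ha : 0 ≤ a)
    (hb : 0 ≤ b) (hs : 0 ≤ s) (h1 : ∀ j ≤ N, ‖iteratedFDeriv ℝ j f q‖ ≤ a * s ^ j)
    (h2 : ∀ j ≤ N, ‖iteratedFDeriv ℝ j g q‖ ≤ b * s ^ j) :
    ∀ j ≤ N, ‖iteratedFDeriv ℝ j (fun p => f p • g p) q‖ ≤ 2 ^ N * (a * b) * s ^ j := by
  intro j hj
  rw [← iteratedFDerivWithin_of_isOpen j hU hq]
  refine (norm_iteratedFDerivWithin_smul_le (N := ∞) hf hg hU.uniqueDiffOn hq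
    (by exact_mod_cast le_top)).trans ?_
  calc ∑ i ∈ Finset.range (j + 1), (j.choose i : ℝ) * ‖iteratedFDerivWithin ℝ i f U q‖ *
        ‖iteratedFDerivWithin ℝ (j - i) g U q‖
      ≤ ∑ i ∈ Finset.range (j + 1), (j.choose i : ℝ) * (a * b * s ^ j) := by
        refine Finset.sum_le_sum fun i hi => ?_
        have hi' : i ≤ j := by simpa [Nat.lt_succ_iff] using hi
        rw [iteratedFDerivWithin_of_isOpen i hU hq, iteratedFDerivWithin_of_isOpen (j - i) hU hq,
          mul_assoc]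
        refine mul_le_mul_of_nonneg_left ?_ (by positivity)
        calc ‖iteratedFDeriv ℝ i f q‖ * ‖iteratedFDeriv ℝ (j - i) g q‖
            ≤ (a * s ^ i) * (b * s ^ (j - i)) :=
              mul_le_mul (h1 i (by omega)) (h2 (j - i) (by omega)) (norm_nonneg _) (by positivity)
          _ = a * b * s ^ j := by
              rw [← Nat.add_sub_of_le hi', pow_add]
              simp only [Nat.add_sub_cancel_left]
              ring
    _ = 2 ^ j * (a * b * s ^ j) := by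
        rw [← Finset.sum_mul]
        congr 1
        exact_mod_cast Nat.sum_range_choose j
    _ ≤ 2 ^ N * (a * b * s ^ j) := by
        gcongr
        norm_num
    _ = 2 ^ N * (a * b) * s ^ j := by ring

end calcs

section geom
variable {k : ℕ} {c R : ℝ} {M : ℕ → ℝ}

theorem dl_pos (k : ℕ) {R : ℝ} (hR : 0 < R) : 0 < dl k R := by unfold dl; positivity

theorem four_dl_le (k : ℕ) {R : ℝ} (hR : 0 < R) : 4 * dl k R ≤ R := by
  unfold dl
  have h1 : (1 : ℝ) ≤ 32 ^ k := one_le_pow₀ (by norm_num)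
  rw [show 4 * (R / (4 * 32 ^ k)) = R / 32 ^ k by ring]
  exact div_le_self hR.le h1

theorem tq_zero (ch : UChart k c R M) (x : EE (k + 1)) :
    tq ch 0 x = ContinuousLinearMap.adjoint (ch.J.toContinuousLinearMap) x := by
  rw [tq, smul_zero, add_zero]

theorem inner_tq_zero (ch : UChart k c R M) (u : EE k) (x : EE (k + 1)) :
    inner ℝ u (tq ch 0 x) = inner ℝ (ch.J u) x := by
  rw [tq_zero, ContinuousLinearMap.adjoint_inner_right]
  rfl

theorem tq_add (ch : UChart k c R M) (q : EE k) (x y : EE (k + 1)) :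
    tq ch q (x + y) = tq ch q x + tq ch q y := by
  rw [tq, tq, tq, map_add, inner_add_right, add_smul]
  abel

theorem tq_sub (ch : UChart k c R M) (q : EE k) (x y : EE (k + 1)) :
    tq ch q (x - y) = tq ch q x - tq ch q y := by
  rw [tq, tq, tq, map_sub, inner_sub_right, sub_smul]
  abel

theorem sn_add (ch : UChart k c R M) (q : EE k) (x y : EE (k + 1)) :
    sn ch (x + y) q = sn ch x q + sn ch y q := by
  rw [sn, sn, sn, inner_add_left]

theorem sn_sub (ch : UChart k c R M) (q : EE k) (x y : EE (k + 1)) :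
    sn ch (x - y) q = sn ch x q - sn ch y q := by
  rw [sn, sn, sn, inner_sub_left]

theorem sn_aff (ch : UChart k c R M) (x : EE (k + 1)) (q : EE k) :
    sn ch x q = inner ℝ ch.nu x + inner ℝ (-(tq ch 0 x)) q := by
  rw [sn, inner_sub_right, inner_neg_left, real_inner_comm q (tq ch 0 x), inner_tq_zero,
    real_inner_comm x ch.nu, real_inner_comm x (ch.J q)]
  ring

theorem D_aff (ch : UChart k c R M) (eta : EE (k + 1)) (V q : EE k) :
    inner ℝ (tq ch q eta) V = inner ℝ (tq ch 0 eta) V + inner ℝ ((inner ℝ ch.nu eta : ℝ) • V) q := by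
  rw [tq_zero, tq, inner_add_left, inner_smul_left, inner_smul_left, real_inner_comm q V]

theorem continuous_sn (ch : UChart k c R M) (x : EE (k + 1)) : Continuous (sn ch x) := by
  unfold sn
  fun_prop

/-- The product of the exponential sums of two pieces. -/
theorem es_mul {A : ℝ} (Lt : Lat (k + 1) A) (s s' : Finset (Fin (k + 1) → ℤ))
    (x y : (Fin (k + 1) → ℤ) → ℂ) (u : EE (k + 1)) :
    es Lt s x u * (starRingEnd ℂ) (es Lt s' y u) =
      ∑ i ∈ s, ∑ j ∈ s', x i * (starRingEnd ℂ) (y j) *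
        Complex.exp (Complex.I * ((inner ℝ (Lt.fr i - Lt.fr j) u : ℝ) : ℂ)) := by
  unfold es
  rw [map_sum, Finset.sum_mul_sum]
  refine Finset.sum_congr rfl fun i _ => Finset.sum_congr rfl fun j _ => ?_
  have h1 : (starRingEnd ℂ) (ex (Lt.fr j) u) =
      Complex.exp (-(Complex.I * ((inner ℝ (Lt.fr j) u : ℝ) : ℂ))) := by
    unfold ex
    rw [← Complex.exp_conj, map_mul, Complex.conj_I, Complex.conj_ofReal]
    congr 1
    ring
  rw [map_mul, h1, ex, inner_sub_left, Complex.ofReal_sub, mul_sub, sub_eq_add_neg, Complex.exp_add]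
  ring_nf

theorem fderiv_phase (ch : UChart k c R M) (eta : EE (k + 1)) (q v : EE k) :
    fderiv ℝ (fun p => inner ℝ eta (ch.X p)) q v = inner ℝ eta (fderiv ℝ ch.X q v) := by
  have h1 : HasFDerivAt ch.X (fderiv ℝ ch.X q) q :=
    (ch.smooth.differentiable (by simp) q).hasFDerivAt
  have h2 := (innerSL ℝ eta).hasFDerivAt.comp q h1
  have h3 : (fun p => inner ℝ eta (ch.X p)) = (innerSL ℝ eta) ∘ ch.X := rfl
  rw [h3, h2.fderiv]
  rfl

end geom


/-- `⟨τ_q(zeta), J^*(n0+n0')/lam⟩`. -/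
theorem P_eq {k : ℕ} {c R : ℝ} {M : ℕ → ℝ} (ch : UChart k c R M) (q : EE k)
    (g3 : ∀ eta N : EE (k + 1), inner ℝ (ch.J (tq ch q eta)) N =
      inner ℝ eta N - inner ℝ ch.nu eta * sn ch N q)
    (lam : ℝ) (n0 n0' z : EE (k + 1)) :
    inner ℝ (tq ch q z) (lam⁻¹ • tq ch 0 (n0 + n0')) =
      lam⁻¹ * (inner ℝ z (n0 + n0') - inner ℝ ch.nu z * (sn ch n0 q + sn ch n0' q)) := by
  rw [inner_smul_right, inner_tq_zero, g3, sn_add]

/-- the coefficients -/
noncomputable def ee {k : ℕ} {c R : ℝ} {M : ℕ → ℝ} (ch : UChart k c R M) (lam r rho : ℝ)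
    (n0 n0' : EE (k + 1)) : Fin 6 → EE k → ℝ :=
  ![fun _ => -(r ^ 2 / lam),
    fun q => -((2 * r * sn ch n0 q + r * inner ℝ (ch.J q) (n0 - n0')) / lam),
    fun _ => -(r * rho / lam),
    fun _ => r ^ 2 / lam,
    fun q => (2 * r * sn ch n0' q - r * inner ℝ (ch.J q) (n0 - n0')) / lam,
    fun _ => -(r * rho / lam)]

/-- the multipliers of the first piece -/
noncomputable def mf {k : ℕ} {c R : ℝ} {M : ℕ → ℝ} (ch : UChart k c R M) (r rho : ℝ)
    (n0 eta : EE (k + 1)) : Fin 6 → EE (k + 1) → ℝ :=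
  ![fun n => ‖n - n0‖ ^ 2 / r ^ 2,
    fun n => inner ℝ ch.nu (n - n0) / r,
    fun n => (inner ℝ (n - n0) eta - inner ℝ ch.nu (n - n0) * inner ℝ ch.nu eta) / (r * rho),
    fun _ => 1, fun _ => 1, fun _ => 1]

/-- the multipliers of the second piece -/
noncomputable def mg {k : ℕ} {c R : ℝ} {M : ℕ → ℝ} (ch : UChart k c R M) (r rho : ℝ)
    (n0' eta : EE (k + 1)) : Fin 6 → EE (k + 1) → ℝ :=
  ![fun _ => 1, fun _ => 1, fun _ => 1,
    fun n => ‖n - n0'‖ ^ 2 / r ^ 2,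
    fun n => inner ℝ ch.nu (n - n0') / r,
    fun n => (inner ℝ (n - n0') eta - inner ℝ ch.nu (n - n0') * inner ℝ ch.nu eta) / (r * rho)]

theorem mu_bound {k : ℕ} {c R : ℝ} {M : ℕ → ℝ} (ch : UChart k c R M) {r rho : ℝ} (hr : 0 < r)
    (hrho : 0 < rho) (z eta : EE (k + 1)) (hz : ‖z‖ ≤ r / 64) (heta : ‖eta‖ = rho) :
    |‖z‖ ^ 2 / r ^ 2| ≤ 1 ∧ |inner ℝ ch.nu z / r| ≤ 1 ∧
      |(inner ℝ z eta - inner ℝ ch.nu z * inner ℝ ch.nu eta) / (r * rho)| ≤ 1 := by
  have h0 : 0 ≤ ‖z‖ := norm_nonneg z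
  have h1 : |inner ℝ ch.nu z| ≤ ‖z‖ := by
    have := abs_real_inner_le_norm ch.nu z
    rwa [ch.nu_one, one_mul] at this
  have h2 : |inner ℝ ch.nu eta| ≤ rho := by
    have := abs_real_inner_le_norm ch.nu eta
    rwa [ch.nu_one, one_mul, heta] at this
  have h3 : |inner ℝ z eta| ≤ ‖z‖ * rho := by
    have := abs_real_inner_le_norm z eta
    rwa [heta] at this
  refine ⟨?_, ?_, ?_⟩
  · rw [abs_of_nonneg (by positivity), div_le_one (by positivity)]
    nlinarith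
  · rw [abs_div, abs_of_pos hr, div_le_one hr]
    linarith
  · rw [abs_div, abs_of_pos (by positivity : 0 < r * rho), div_le_one (by positivity)]
    calc |inner ℝ z eta - inner ℝ ch.nu z * inner ℝ ch.nu eta|
        ≤ |inner ℝ z eta| + |inner ℝ ch.nu z * inner ℝ ch.nu eta| := abs_sub _ _
      _ ≤ ‖z‖ * rho + ‖z‖ * rho := by
          rw [abs_mul]
          gcongr
      _ ≤ r * rho := by nlinarith

/-- The phase derivative. -/
theorem phase_identity {k : ℕ} {c R : ℝ} {M : ℕ → ℝ} (ch : UChart k c R M) (q : EE k)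
    (g3 : ∀ eta N : EE (k + 1), inner ℝ (ch.J (tq ch q eta)) N =
      inner ℝ eta N - inner ℝ ch.nu eta * sn ch N q)
    {lam r rho : ℝ} (hlam : 0 < lam) (hr : 0 < r) (hrho : 0 < rho) (n0 n0' n n' : EE (k + 1))
    (h0 : ‖n0‖ = lam) (h0' : ‖n0'‖ = lam) (h : ‖n‖ = lam) (h' : ‖n'‖ = lam)
    (D : ℝ) (hD : D = inner ℝ (tq ch q (n0 - n0')) (lam⁻¹ • tq ch 0 (n0 + n0'))) (hD0 : D ≠ 0) :
    D⁻¹ * inner ℝ (tq ch q (n - n')) (lam⁻¹ • tq ch 0 (n0 + n0')) =
      1 + ∑ l, (ee ch lam r rho n0 n0' l q * D⁻¹) *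
        (mf ch r rho n0 (n0 - n0') l n * mg ch r rho n0' (n0 - n0') l n') := by
  have hsplit : tq ch q (n - n') = tq ch q (n0 - n0') + tq ch q (n - n0) - tq ch q (n' - n0') := by
    rw [← tq_add, ← tq_sub]
    congr 1
    abel
  rw [hsplit, inner_sub_left, inner_add_left, ← hD, P_eq ch q g3, P_eq ch q g3]
  -- the sphere
  have e1 : inner ℝ (n - n0) (n0 + n0') = -‖n - n0‖ ^ 2 - inner ℝ (n - n0) (n0 - n0') := by
    have : ‖n‖ ^ 2 = ‖n - n0‖ ^ 2 + 2 * inner ℝ (n - n0) n0 + ‖n0‖ ^ 2 := by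
      have := norm_add_sq_real (n - n0) n0
      rwa [sub_add_cancel] at this
    rw [h, h0] at this
    rw [inner_add_right, inner_sub_right]
    linarith
  have e2 : inner ℝ (n' - n0') (n0 + n0') = -‖n' - n0'‖ ^ 2 + inner ℝ (n' - n0') (n0 - n0') := by
    have : ‖n'‖ ^ 2 = ‖n' - n0'‖ ^ 2 + 2 * inner ℝ (n' - n0') n0' + ‖n0'‖ ^ 2 := by
      have := norm_add_sq_real (n' - n0') n0'
      rwa [sub_add_cancel] at this
    rw [h', h0'] at this
    rw [inner_add_right, inner_sub_right]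
    linarith
  have e3 : sn ch n0' q = sn ch n0 q - (inner ℝ ch.nu (n0 - n0') - inner ℝ (ch.J q) (n0 - n0')) := by
    have : sn ch (n0 - n0') q = inner ℝ ch.nu (n0 - n0') - inner ℝ (ch.J q) (n0 - n0') := by
      rw [sn, inner_sub_right, real_inner_comm, real_inner_comm (n0 - n0') (ch.J q)]
    rw [sn_sub] at this
    linarith
  rw [e1, e2]
  rw [Fin.sum_univ_six]
  simp only [ee, mf, mg, Matrix.cons_val_zero, Matrix.cons_val_one, Matrix.cons_val]
  rw [e3]
  field_simp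
  ring

/-- The coefficients are bounded by `7/th`, at scale `th`. -/
theorem ee_bound {k : ℕ} {c R : ℝ} {M : ℕ → ℝ} (ch : UChart k c R M) (q : EE k) (hq : ‖q‖ ≤ 1 / 16)
    {lam th rho : ℝ} (hlam : 1 ≤ lam) (hth : 0 < th) (hlt : 1 ≤ lam * th ^ 3)
    (n0 n0' : EE (k + 1)) (h0 : ‖n0‖ = lam) (h0' : ‖n0'‖ = lam) (heta : ‖n0 - n0'‖ = rho)
    (hrho : 0 < rho) (hrho3 : rho ≤ 3 * (lam * th)) (hs : |sn ch n0 q| ≤ 3 * (lam * th))
    (hs' : |sn ch n0' q| ≤ 3 * (lam * th)) (l : Fin 6) :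
    ContDiff ℝ ∞ (ee ch lam (th ^ 2)⁻¹ rho n0 n0' l) ∧
    ∀ j : ℕ, ‖iteratedFDeriv ℝ j (ee ch lam (th ^ 2)⁻¹ rho n0 n0' l) q‖ ≤
      7 * th⁻¹ * th⁻¹ ^ j := by
  have hlam0 : 0 < lam := by linarith
  set r := (th ^ 2)⁻¹ with hr
  have hr0 : 0 < r := by positivity
  have hti : 0 < th⁻¹ := by positivity
  have hr2 : r = th⁻¹ * th⁻¹ := by rw [hr]; field_simp
  -- `r²/lam ≤ 1/th`
  have b1 : r ^ 2 / lam ≤ th⁻¹ := by
    rw [div_le_iff₀ hlam0]
    calc r ^ 2 = th⁻¹ * (th⁻¹ ^ 3 * 1) := by rw [hr2]; ring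
      _ ≤ th⁻¹ * (th⁻¹ ^ 3 * (lam * th ^ 3)) := by gcongr
      _ = th⁻¹ * lam := by field_simp
  have b2 : r * rho / lam ≤ 3 * th⁻¹ := by
    rw [div_le_iff₀ hlam0]
    calc r * rho ≤ r * (3 * (lam * th)) := by gcongr
      _ = 3 * th⁻¹ * lam := by rw [hr2]; field_simp
  -- constants
  have hconst : ∀ x : ℝ, |x| ≤ 7 * th⁻¹ → ContDiff ℝ ∞ (fun _ : EE k => x) ∧
      ∀ j : ℕ, ‖iteratedFDeriv ℝ j (fun _ : EE k => x) q‖ ≤ 7 * th⁻¹ * th⁻¹ ^ j := by
    intro x hx
    refine ⟨contDiff_const, fun j => ?_⟩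
    have := aff_deriv (k := k) x 0 q (a := 7 * th⁻¹) (s := th⁻¹) (by positivity) hti.le
      (by simpa using hx) (by rw [norm_zero]; positivity) j
    simpa using this
  -- affine functions
  have haff : ∀ (F : EE k → ℝ) (al : ℝ) (be : EE k), (F = fun p => al + inner ℝ be p) →
      |F q| ≤ 7 * th⁻¹ → ‖be‖ ≤ 7 * th⁻¹ * th⁻¹ → ContDiff ℝ ∞ F ∧
      ∀ j : ℕ, ‖iteratedFDeriv ℝ j F q‖ ≤ 7 * th⁻¹ * th⁻¹ ^ j := by
    intro F al be hF h1 h2
    subst hF
    exact ⟨aff_smooth al be, fun j => aff_deriv al be q (by positivity) hti.le h1 h2 j⟩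
  have heta2 : rho ≤ 2 * lam := by
    rw [← heta]
    calc ‖n0 - n0'‖ ≤ ‖n0‖ + ‖n0'‖ := norm_sub_le _ _
      _ = 2 * lam := by rw [h0, h0']; ring
  have hJn : ∀ x : EE (k + 1), ‖tq ch 0 x‖ ≤ ‖x‖ := by
    intro x
    have h1 : ‖tq ch 0 x‖ ^ 2 ≤ ‖tq ch 0 x‖ * ‖x‖ := by
      calc ‖tq ch 0 x‖ ^ 2 = inner ℝ (tq ch 0 x) (tq ch 0 x) := (real_inner_self_eq_norm_sq _).symm
        _ = inner ℝ (ch.J (tq ch 0 x)) x := inner_tq_zero ch _ x
        _ ≤ ‖ch.J (tq ch 0 x)‖ * ‖x‖ := real_inner_le_norm _ _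
        _ = ‖tq ch 0 x‖ * ‖x‖ := by rw [ch.J.norm_map]
    by_contra hcon
    push Not at hcon
    nlinarith [norm_nonneg x, norm_nonneg (tq ch 0 x)]
  have hJq : |inner ℝ (ch.J q) (n0 - n0')| ≤ 1 / 16 * rho := by
    calc |inner ℝ (ch.J q) (n0 - n0')| ≤ ‖ch.J q‖ * ‖n0 - n0'‖ := abs_real_inner_le_norm _ _
      _ ≤ 1 / 16 * rho := by rw [ch.J.norm_map, heta]; gcongr
  have hlr : r * (lam * th) / lam = th⁻¹ := by rw [hr2]; field_simp
  -- the two affine coefficients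
  have hval : ∀ (x y : ℝ), |x| ≤ 3 * (lam * th) → |y| ≤ 1 / 16 * rho →
      |(2 * r * x + r * y) / lam| ≤ 7 * th⁻¹ := by
    intro x y hx hy
    rw [abs_div, abs_of_pos hlam0, div_le_iff₀ hlam0]
    calc |2 * r * x + r * y| ≤ |2 * r * x| + |r * y| := abs_add_le _ _
      _ = 2 * r * |x| + r * |y| := by
          rw [abs_mul (2 * r) x, abs_mul r y, abs_of_pos hr0, abs_of_pos (by positivity : 0 < 2 * r)]
      _ ≤ 2 * r * (3 * (lam * th)) + r * (1 / 16 * (3 * (lam * th))) := by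
          gcongr
          exact hy.trans (by gcongr)
      _ ≤ 7 * (r * (lam * th)) := by
          have : 0 < r * (lam * th) := by positivity
          nlinarith
      _ = 7 * th⁻¹ * lam := by rw [hr2]; field_simp
  have hgrad : ∀ (x y : EE k), ‖x‖ ≤ lam → ‖y‖ ≤ rho →
      ‖lam⁻¹ • ((2 * r) • x + r • y)‖ ≤ 7 * th⁻¹ * th⁻¹ := by
    intro x y hx hy
    rw [norm_smul, Real.norm_eq_abs, abs_of_pos (by positivity : 0 < lam⁻¹)]
    calc lam⁻¹ * ‖(2 * r) • x + r • y‖ ≤ lam⁻¹ * (‖(2 * r) • x‖ + ‖r • y‖) := by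
          gcongr
          exact norm_add_le _ _
      _ = lam⁻¹ * (2 * r * ‖x‖ + r * ‖y‖) := by
          rw [norm_smul, norm_smul, Real.norm_eq_abs, Real.norm_eq_abs, abs_of_pos hr0,
            abs_of_pos (by positivity : 0 < 2 * r)]
      _ ≤ lam⁻¹ * (2 * r * lam + r * (2 * lam)) := by
          gcongr
          exact hy.trans heta2
      _ = 4 * r := by field_simp; ring
      _ ≤ 7 * r := by linarith
      _ = 7 * th⁻¹ * th⁻¹ := by rw [hr2]; ring
  fin_cases l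
  · refine hconst _ ?_
    change |-(r ^ 2 / lam)| ≤ _
    rw [abs_neg, abs_of_nonneg (by positivity)]
    linarith
  · refine haff _ (-(2 * r * inner ℝ ch.nu n0 / lam))
      (-(lam⁻¹ • ((2 * r) • (-(tq ch 0 n0)) + r • tq ch 0 (n0 - n0')))) ?_ ?_ ?_
    · funext p
      have e1 : inner ℝ (ch.J p) (n0 - n0') = inner ℝ (tq ch 0 (n0 - n0')) p := by
        rw [← inner_tq_zero, real_inner_comm]
      change -((2 * r * sn ch n0 p + r * inner ℝ (ch.J p) (n0 - n0')) / lam) = _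
      rw [e1, sn_aff, inner_neg_left, inner_neg_left, inner_smul_left, inner_add_left,
        inner_smul_left, inner_smul_left, inner_neg_left]
      simp only [conj_trivial]
      field_simp
      ring
    · change |-((2 * r * sn ch n0 q + r * inner ℝ (ch.J q) (n0 - n0')) / lam)| ≤ _
      rw [abs_neg]
      exact hval _ _ hs hJq
    · rw [norm_neg]
      refine hgrad _ _ ?_ ?_
      · rw [norm_neg, ← h0]; exact hJn n0
      · rw [← heta]; exact hJn _
  · refine hconst _ ?_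
    change |-(r * rho / lam)| ≤ _
    rw [abs_neg, abs_of_nonneg (by positivity)]
    linarith
  · refine hconst _ ?_
    change |r ^ 2 / lam| ≤ _
    rw [abs_of_nonneg (by positivity)]
    linarith
  · refine haff _ (2 * r * inner ℝ ch.nu n0' / lam)
      (lam⁻¹ • ((2 * r) • (-(tq ch 0 n0')) + r • (-tq ch 0 (n0 - n0')))) ?_ ?_ ?_
    · funext p
      have e1 : inner ℝ (ch.J p) (n0 - n0') = inner ℝ (tq ch 0 (n0 - n0')) p := by
        rw [← inner_tq_zero, real_inner_comm]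
      change (2 * r * sn ch n0' p - r * inner ℝ (ch.J p) (n0 - n0')) / lam = _
      rw [e1, sn_aff, inner_smul_left, inner_add_left,
        inner_smul_left, inner_smul_left, inner_neg_left, inner_neg_left]
      simp only [conj_trivial]
      field_simp
      ring
    · change |(2 * r * sn ch n0' q - r * inner ℝ (ch.J q) (n0 - n0')) / lam| ≤ _
      have := hval (sn ch n0' q) (-inner ℝ (ch.J q) (n0 - n0')) hs' (by rw [abs_neg]; exact hJq)
      rwa [mul_neg, ← sub_eq_add_neg] at this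
    · refine hgrad _ _ ?_ ?_
      · rw [norm_neg, ← h0']; exact hJn n0'
      · rw [norm_neg, ← heta]; exact hJn _
  · refine hconst _ ?_
    change |-(r * rho / lam)| ≤ _
    rw [abs_neg, abs_of_nonneg (by positivity)]
    linarith

theorem specCB (hIBP : SpecIBP) (hVF : SpecVF) (hREC : SpecREC) (hGA : SpecGA) (hCS : SpecCS) :
    SpecCB := by
  intro k c R M hc N Ac
  obtain ⟨CI, c1, hCI, hc1, hI⟩ := hIBP k N 6
  obtain ⟨CV, hV⟩ := hVF k c R M hc
  obtain ⟨CR, hCR, hR⟩ := hREC k N 12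
  -- constants
  set CVm : ℝ := 1 + ∑ j ∈ Finset.range (N + 1), |CV j| * 4 ^ j with hCVm
  have hCVm0 : 0 < CVm := by
    have : 0 ≤ ∑ j ∈ Finset.range (N + 1), |CV j| * 4 ^ j :=
      Finset.sum_nonneg fun j _ => by positivity
    rw [hCVm]
    linarith
  set Am : ℝ := 1 + ∑ j ∈ Finset.range (N + 1), |Ac j| with hAm
  have hAm0 : 0 < Am := by
    have : 0 ≤ ∑ j ∈ Finset.range (N + 1), |Ac j| := Finset.sum_nonneg fun j _ => abs_nonneg _
    rw [hAm]
    linarith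
  set Cg : ℝ := 2 ^ N * ((2 * CR) * (2 * CVm)) with hCg
  have hCg0 : 0 < Cg := by positivity
  refine ⟨1 + 2 ^ N * (7 * (2 * CR)) / c1, Am * (CI * Cg) ^ N, ?_, by positivity, ?_⟩
  · have : 0 ≤ 2 ^ N * (7 * (2 * CR)) / c1 := by positivity
    linarith
  intro A ch Lt lam th BB n0 n0' s s' a x y sg hP hsg hK hB ha hsupp had
  have hlam : 1 ≤ lam := hP.one_lam
  have hlam0 : 0 < lam := by linarith
  have hth : 0 < th := lt_of_lt_of_le (by positivity) hP.th_low
  have hth4 := hP.th_le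
  have hdl := dl_pos k hc.R_pos
  have h4dl := four_dl_le k hc.R_pos
  have hBB := hP.hBB
  set r : ℝ := (th ^ 2)⁻¹ with hr
  have hr0 : 0 < r := by positivity
  have hti : 0 < th⁻¹ := by positivity
  have hr2 : r = th⁻¹ * th⁻¹ := by rw [hr]; field_simp
  set rho : ℝ := ‖n0 - n0'‖ with hrho
  have hK1 : r ≤ rho := by
    refine le_trans ?_ hK
    have : 0 ≤ 2 ^ N * (7 * (2 * CR)) / c1 := by positivity
    nlinarith
  have hrho0 : 0 < rho := by linarith
  have hlt : 1 ≤ lam * th ^ 3 := by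
    have h1 : (lam ^ (-(1 / 3 : ℝ))) ^ 3 ≤ th ^ 3 := by
      gcongr
      exact hP.th_low
    have h2 : (lam ^ (-(1 / 3 : ℝ))) ^ 3 = lam⁻¹ := by
      rw [← Real.rpow_natCast, ← Real.rpow_mul hlam0.le]
      norm_num
      exact Real.rpow_neg_one lam
    rw [h2] at h1
    calc (1 : ℝ) = lam * lam⁻¹ := by field_simp
      _ ≤ lam * th ^ 3 := by gcongr
  -- the trivial case
  by_cases ha0 : ∀ q, a q = 0
  · have : ∫ q, (a q : ℂ) * (es Lt s x (ch.X q) * (starRingEnd ℂ) (es Lt s' y (ch.X q))) = 0 := by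
      simp [ha0]
    rw [this, norm_zero]
    positivity
  push Not at ha0
  obtain ⟨qs, hqs⟩ := ha0
  -- GA
  have hball : ∀ q : EE k, ‖q‖ ≤ 3 / 2 * dl k R → ‖q‖ ≤ R := fun q hq => by linarith
  have hrho3 : rho ≤ 3 * (lam * th) := by
    obtain ⟨h1, h2, h3, h4, h5⟩ := hsupp qs hqs
    obtain ⟨-, -, -, -, g5⟩ := hGA k c R M hc ch qs (hball qs h1)
    have h6 := (g5 (n0 - n0') hB).2
    rw [sn_sub] at h6
    have h7 : |sn ch n0 qs - sn ch n0' qs| ≤ 3 * (lam * th) - lam * th / 3 := by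
      rcases hsg with h | h
      · rw [h] at h2 h3 h4 h5
        rw [abs_le]
        constructor <;> linarith
      · rw [h] at h2 h3 h4 h5
        rw [abs_le]
        constructor <;> linarith
    have h8 : 0 < lam * th := by positivity
    have h9 : 9 / 10 * rho ≤ 3 * (lam * th) - lam * th / 3 := h6.trans h7
    linarith
  have hnu : 9 / 10 * rho ≤ |inner ℝ ch.nu (n0 - n0')| := by
    obtain ⟨-, -, -, -, g5⟩ := hGA k c R M hc ch 0 (by rw [norm_zero]; exact hc.R_pos.le)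
    exact (g5 (n0 - n0') hB).1
  have hnu2 : |inner ℝ ch.nu (n0 - n0')| ≤ rho := by
    have := abs_real_inner_le_norm ch.nu (n0 - n0')
    rwa [ch.nu_one, one_mul] at this
  -- the vector V
  set V : EE k := lam⁻¹ • tq ch 0 (n0 + n0') with hVdef
  have hVn : ‖V‖ ≤ 2 := by
    obtain ⟨-, -, -, g4, -⟩ := hGA k c R M hc ch 0 (by rw [norm_zero]; exact hc.R_pos.le)
    have h1 := (g4 (n0 + n0')).2.2.2
    have h2 : ‖n0 + n0'‖ ≤ 2 * lam := by
      calc ‖n0 + n0'‖ ≤ ‖n0‖ + ‖n0'‖ := norm_add_le _ _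
        _ = 2 * lam := by rw [hP.hn0, hP.hn0']; ring
    rw [hVdef, norm_smul, Real.norm_eq_abs, abs_of_pos (by positivity : 0 < lam⁻¹)]
    calc lam⁻¹ * ‖tq ch 0 (n0 + n0')‖ ≤ lam⁻¹ * (2 * lam) := by
          gcongr
          exact h1.trans h2
      _ = 2 := by field_simp
  -- the denominator
  set D : EE k → ℝ := fun q => inner ℝ (tq ch q (n0 - n0')) V with hD
  have hDaff : D = fun q => inner ℝ (tq ch 0 (n0 - n0')) V +
      inner ℝ ((inner ℝ ch.nu (n0 - n0') : ℝ) • V) q := by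
    funext q
    exact D_aff ch _ _ _
  have hDsm : ContDiff ℝ ∞ D := by
    rw [hDaff]
    exact aff_smooth _ _
  have hDeq : ∀ q : EE k, ‖q‖ ≤ R →
      D q = -(inner ℝ ch.nu (n0 - n0') * (sn ch n0 q + sn ch n0' q)) / lam := by
    intro q hq
    obtain ⟨-, -, g3, -, -⟩ := hGA k c R M hc ch q hq
    have h1 := P_eq ch q g3 lam n0 n0' (n0 - n0')
    have h2 : inner ℝ (n0 - n0') (n0 + n0') = 0 := by
      rw [inner_add_right, inner_sub_left, inner_sub_left, real_inner_self_eq_norm_sq,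
        real_inner_self_eq_norm_sq, real_inner_comm n0 n0', hP.hn0, hP.hn0']
      ring
    rw [h2] at h1
    simp only [hD, hVdef]
    rw [h1]
    field_simp
    ring
  -- the sets
  set Z : Set (EE k) := {q | ‖q‖ ≤ 3 / 2 * dl k R ∧ lam * th / 3 ≤ sg * sn ch n0 q ∧
    sg * sn ch n0 q ≤ 3 * (lam * th) ∧ lam * th / 3 ≤ sg * sn ch n0' q ∧
    sg * sn ch n0' q ≤ 3 * (lam * th)} with hZ
  have hZc : IsClosed Z := by
    have c1 := continuous_sn ch n0
    have c2 := continuous_sn ch n0'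
    refine (isClosed_le continuous_norm continuous_const).inter
      ((isClosed_le continuous_const (continuous_const.mul c1)).inter
      ((isClosed_le (continuous_const.mul c1) continuous_const).inter
      ((isClosed_le continuous_const (continuous_const.mul c2)).inter
      (isClosed_le (continuous_const.mul c2) continuous_const))))
  have hZb : Bornology.IsBounded Z := by
    refine (Metric.isBounded_closedBall (x := (0 : EE k)) (r := 3 / 2 * dl k R)).subset ?_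
    intro q hq
    simpa using hq.1
  set U : Set (EE k) := {q | ‖q‖ < R ∧ 0 < sg * (sn ch n0 q + sn ch n0' q)} with hU
  have hUo : IsOpen U := by
    have c1 := continuous_sn ch n0
    have c2 := continuous_sn ch n0'
    exact (isOpen_lt continuous_norm continuous_const).inter
      (isOpen_lt continuous_const (continuous_const.mul (c1.add c2)))
  have hZU : Z ⊆ U := by
    intro q hq
    obtain ⟨h1, h2, h3, h4, h5⟩ := hq
    refine ⟨by linarith, ?_⟩
    have : 0 < lam * th := by positivity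
    rw [mul_add]
    linarith
  have hDU : ∀ q ∈ U, D q ≠ 0 := by
    intro q hq
    rw [hDeq q hq.1.le]
    have h1 : inner ℝ ch.nu (n0 - n0') ≠ 0 := by
      intro h0
      rw [h0, abs_zero] at hnu
      linarith
    have h2 : sn ch n0 q + sn ch n0' q ≠ 0 := by
      intro h0
      have := hq.2
      rw [h0, mul_zero] at this
      exact lt_irrefl _ this
    exact div_ne_zero (neg_ne_zero.2 (mul_ne_zero h1 h2)) hlam0.ne'
  have hsgabs : |sg| = 1 := by
    rcases hsg with h | h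
    · rw [h, abs_one]
    · rw [h, abs_neg, abs_one]
  have hZs : ∀ q ∈ Z, |sn ch n0 q| ≤ 3 * (lam * th) ∧ |sn ch n0' q| ≤ 3 * (lam * th) ∧
      2 / 3 * (lam * th) ≤ |sn ch n0 q + sn ch n0' q| ∧
      |sn ch n0 q + sn ch n0' q| ≤ 6 * (lam * th) := by
    intro q hq
    obtain ⟨h1, h2, h3, h4, h5⟩ := hq
    have hlt0 : 0 < lam * th := by positivity
    have e1 : |sn ch n0 q| = |sg * sn ch n0 q| := by rw [abs_mul, hsgabs, one_mul]
    have e2 : |sn ch n0' q| = |sg * sn ch n0' q| := by rw [abs_mul, hsgabs, one_mul]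
    have e3 : |sn ch n0 q + sn ch n0' q| = |sg * sn ch n0 q + sg * sn ch n0' q| := by
      rw [← mul_add, abs_mul, hsgabs, one_mul]
    rw [e1, e2, e3, abs_of_pos (by linarith : 0 < sg * sn ch n0 q),
      abs_of_pos (by linarith : 0 < sg * sn ch n0' q),
      abs_of_pos (by linarith : 0 < sg * sn ch n0 q + sg * sn ch n0' q)]
    refine ⟨h3, h5, by linarith, by linarith⟩
  set D0 : ℝ := rho * th / 2 with hD0
  have hD00 : 0 < D0 := by positivity
  have hDlow : ∀ q ∈ Z, D0 ≤ |D q| := by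
    intro q hq
    rw [hDeq q (hZU hq).1.le, abs_div, abs_neg, abs_mul, abs_of_pos hlam0, le_div_iff₀ hlam0]
    calc D0 * lam ≤ (9 / 10 * rho) * (2 / 3 * (lam * th)) := by
          rw [hD0]
          have : 0 < rho * th * lam := by positivity
          nlinarith
      _ ≤ |inner ℝ ch.nu (n0 - n0')| * |sn ch n0 q + sn ch n0' q| := by
          gcongr
          exact (hZs q hq).2.2.1
  have hDder : ∀ q ∈ Z, ∀ j ≤ N, ‖iteratedFDeriv ℝ j D q‖ ≤ 12 * D0 * th⁻¹ ^ j := by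
    intro q hq j _
    have h1 : |D q| ≤ 12 * D0 := by
      rw [hDeq q (hZU hq).1.le, abs_div, abs_neg, abs_mul, abs_of_pos hlam0, div_le_iff₀ hlam0]
      calc |inner ℝ ch.nu (n0 - n0')| * |sn ch n0 q + sn ch n0' q|
          ≤ rho * (6 * (lam * th)) := by
            gcongr
            exact (hZs q hq).2.2.2
        _ = 12 * D0 * lam := by rw [hD0]; ring
    rw [hDaff] at h1 ⊢
    refine aff_deriv _ _ q (by positivity) hti.le h1 ?_ j
    rw [norm_smul, Real.norm_eq_abs]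
    calc |inner ℝ ch.nu (n0 - n0')| * ‖V‖ ≤ rho * 2 := by gcongr
      _ ≤ 12 * D0 * th⁻¹ := by
          rw [hD0]
          have : 12 * (rho * th / 2) * th⁻¹ = 6 * rho := by field_simp; ring
          rw [this]
          linarith
  have hDinv : ∀ q ∈ Z, ∀ j ≤ N, ‖iteratedFDeriv ℝ j (fun p => (D p)⁻¹) q‖ ≤
      CR * D0⁻¹ * th⁻¹ ^ j := fun q hq =>
    hR D q D0 th hDsm hD00 hth (hDlow q hq) (hDder q hq)
  have hDinvU : ContDiffOn ℝ ∞ (fun p => (D p)⁻¹) U := by
    intro q hq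
    exact (hDsm.contDiffAt.inv (hDU q hq)).contDiffWithinAt
  have hD0inv : CR * D0⁻¹ = 2 * CR * (rho * th)⁻¹ := by
    rw [hD0]
    field_simp
  -- the vector field
  obtain ⟨Y, hYs, hYb, hYe⟩ := hV ch
  have hYV : ContDiff ℝ ∞ (fun q => Y q V) := hYs.clm_apply contDiff_const
  have hYVb : ∀ q ∈ Z, ∀ j ≤ N, ‖iteratedFDeriv ℝ j (fun p => Y p V) q‖ ≤ 2 * CVm * th⁻¹ ^ j := by
    intro q hq j hj
    have h1 : ‖q‖ ≤ 2 * dl k R := by linarith [hq.1]
    have hti4 : 1 / 4 ≤ th⁻¹ := by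
      rw [one_div]
      exact inv_anti₀ hth hth4
    calc ‖iteratedFDeriv ℝ j (fun p => Y p V) q‖ ≤ ‖V‖ * ‖iteratedFDeriv ℝ j Y q‖ :=
          norm_iteratedFDeriv_clm_apply_const (N := ∞) hYs.contDiffAt (by exact_mod_cast le_top)
      _ ≤ 2 * |CV j| := by
          gcongr
          exact (hYb j q h1).trans (le_abs_self _)
      _ = 2 * (|CV j| * 4 ^ j * (1 / 4) ^ j) := by
          rw [mul_assoc |CV j|, ← mul_pow]
          norm_num
      _ ≤ 2 * (CVm * th⁻¹ ^ j) := by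
          gcongr
          have h2 : |CV j| * 4 ^ j ≤ ∑ j ∈ Finset.range (N + 1), |CV j| * 4 ^ j :=
            Finset.single_le_sum (f := fun j => |CV j| * 4 ^ j) (fun j _ => by positivity)
              (Finset.mem_range.2 (by omega))
          rw [hCVm]
          linarith
      _ = 2 * CVm * th⁻¹ ^ j := by ring
  set w : EE k → EE k := fun q => (D q)⁻¹ • Y q V with hw
  have hwb : ∀ q ∈ Z, ∀ j ≤ N, ‖iteratedFDeriv ℝ j w q‖ ≤ Cg * (rho * th)⁻¹ * th⁻¹ ^ j := by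
    intro q hq j hj
    have h1 := smul_bound hUo hDinvU hYV.contDiffOn (hZU hq) (N := N) (a := CR * D0⁻¹)
      (b := 2 * CVm) (s := th⁻¹) (by positivity) (by positivity) hti.le (hDinv q hq) (hYVb q hq) j hj
    refine h1.trans (le_of_eq ?_)
    rw [hD0inv, hCg]
    ring
  -- the coefficients
  set h : Fin 6 → EE k → ℝ := fun l q => ee ch lam r rho n0 n0' l q * (D q)⁻¹ with hh
  have hee : ∀ q ∈ Z, ∀ l, ContDiff ℝ ∞ (ee ch lam r rho n0 n0' l) ∧
      ∀ j : ℕ, ‖iteratedFDeriv ℝ j (ee ch lam r rho n0 n0' l) q‖ ≤ 7 * th⁻¹ * th⁻¹ ^ j := by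
    intro q hq l
    have hq16 : ‖q‖ ≤ 1 / 16 := ((hZU hq).1.le).trans hc.R_le
    exact ee_bound ch q hq16 hlam hth hlt n0 n0' hP.hn0 hP.hn0' hrho.symm hrho0 hrho3
      (hZs q hq).1 (hZs q hq).2.1 l
  have hqsZ : qs ∈ Z := hsupp qs hqs
  have hhU : ∀ l, ContDiffOn ℝ ∞ (h l) U := fun l =>
    (hee qs hqsZ l).1.contDiffOn.mul hDinvU
  have hhb : ∀ q ∈ Z, ∀ l, ∀ j ≤ N, ‖iteratedFDeriv ℝ j (h l) q‖ ≤ c1 * th⁻¹ ^ j := by
    intro q hq l j hj
    have h1 := smul_bound hUo (hee q hq l).1.contDiffOn hDinvU (hZU hq) (N := N) (a := 7 * th⁻¹)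
      (b := CR * D0⁻¹) (s := th⁻¹) (by positivity) (by positivity) hti.le
      (fun j _ => (hee q hq l).2 j) (hDinv q hq) j hj
    have h2 : (fun p => ee ch lam r rho n0 n0' l p • (D p)⁻¹) = h l := by
      funext p
      rw [smul_eq_mul]
    rw [h2] at h1
    refine h1.trans ?_
    gcongr
    -- `2^N * (7/th * (CR/D0)) ≤ c1`
    rw [hD0inv]
    have h3 : 2 ^ N * (7 * th⁻¹ * (2 * CR * (rho * th)⁻¹)) =
        2 ^ N * (7 * (2 * CR)) * r / rho := by
      rw [hr2]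
      field_simp
    rw [h3, div_le_iff₀ hrho0]
    calc 2 ^ N * (7 * (2 * CR)) * r = c1 * (2 ^ N * (7 * (2 * CR)) / c1 * r) := by field_simp
      _ ≤ c1 * ((1 + 2 ^ N * (7 * (2 * CR)) / c1) * r) := by
          gcongr
          linarith
      _ ≤ c1 * rho := by gcongr
  -- the multipliers
  set f : Fin 6 → (Fin (k + 1) → ℤ) → ℝ := fun l i => mf ch r rho n0 (n0 - n0') l (Lt.fr i) with hf
  set g : Fin 6 → (Fin (k + 1) → ℤ) → ℝ := fun l i => mg ch r rho n0' (n0 - n0') l (Lt.fr i)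
    with hg
  have hfb : ∀ l, ∀ i ∈ s, |f l i| ≤ 1 := by
    intro l i hi
    obtain ⟨m1, m2, m3⟩ := mu_bound ch hr0 hrho0 (Lt.fr i - n0) (n0 - n0') (hP.hs i hi).2 hrho.symm
    fin_cases l
    · exact m1
    · exact m2
    · exact m3
    · exact (abs_one).le
    · exact (abs_one).le
    · exact (abs_one).le
  have hgb : ∀ l, ∀ i ∈ s', |g l i| ≤ 1 := by
    intro l i hi
    obtain ⟨m1, m2, m3⟩ := mu_bound ch hr0 hrho0 (Lt.fr i - n0') (n0 - n0') (hP.hs' i hi).2
      hrho.symm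
    fin_cases l
    · exact (abs_one).le
    · exact (abs_one).le
    · exact (abs_one).le
    · exact m1
    · exact m2
    · exact m3
  -- the phases
  set ph : (Fin (k + 1) → ℤ) → (Fin (k + 1) → ℤ) → EE k → ℝ := fun i j q =>
    inner ℝ (Lt.fr i - Lt.fr j) (ch.X q) with hph
  have hphs : ∀ i ∈ s, ∀ j ∈ s', ContDiff ℝ ∞ (ph i j) := fun i _ j _ =>
    (innerSL ℝ (Lt.fr i - Lt.fr j)).contDiff.comp ch.smooth
  have hphw : ∀ q ∈ Z, ∀ i ∈ s, ∀ j ∈ s', fderiv ℝ (ph i j) q (w q) =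
      1 + ∑ l, h l q * (f l i * g l j) := by
    intro q hq i hi j hj
    have hqR : ‖q‖ ≤ R := (hZU hq).1.le
    obtain ⟨-, -, g3, -, -⟩ := hGA k c R M hc ch q hqR
    have h1 : fderiv ℝ (ph i j) q (w q) =
        (D q)⁻¹ * inner ℝ (tq ch q (Lt.fr i - Lt.fr j)) V := by
      simp only [hph]
      rw [fderiv_phase]
      simp only [hw]
      rw [map_smul, inner_smul_right, hYe q (by linarith [hq.1])]
    rw [h1]
    exact phase_identity ch q g3 hlam0 hr0 hrho0 n0 n0' _ _ hP.hn0 hP.hn0' (hP.hs i hi).1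
      (hP.hs' j hj).1 (D q) rfl (hDU q (hZU hq))
  -- the trivial bound
  have htriv : ∀ (a0 : EE k → ℝ) (x y : (Fin (k + 1) → ℤ) → ℂ), ContDiff ℝ ∞ a0 →
      (∀ q, |a0 q| ≤ 1) → (∀ q, a0 q ≠ 0 → q ∈ Z) →
      ‖∫ q, (a0 q : ℂ) * ∑ i ∈ s, ∑ j ∈ s', x i * (starRingEnd ℂ) (y j) *
        Complex.exp (Complex.I * (ph i j q : ℂ))‖ ≤
      BB * (Real.sqrt (∑ i ∈ s, ‖x i‖ ^ 2) * Real.sqrt (∑ j ∈ s', ‖y j‖ ^ 2)) := by
    intro a0 x y h1 h2 h3
    have h4 := hCS k c R A M ch Lt lam th BB n0 n0' s s' a0 x y hP h1.continuous h2 (by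
      intro q hq
      have hz := h3 q hq
      have hz2 := hZs q hz
      have : 0 < lam * th := by positivity
      refine ⟨by linarith [hz.1], ?_, ?_⟩
      · linarith [hz2.1]
      · linarith [hz2.2.1])
    simp only [es_mul] at h4
    exact h4
  -- the amplitude, normalised
  have haA : ∀ q, ∀ j ≤ N, ‖iteratedFDeriv ℝ j (fun p => Am⁻¹ * a p) q‖ ≤ th⁻¹ ^ j := by
    intro q j hj
    have h1 : iteratedFDeriv ℝ j (fun p => Am⁻¹ * a p) q = Am⁻¹ • iteratedFDeriv ℝ j a q := by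
      have := iteratedFDeriv_const_smul_apply (𝕜 := ℝ) (i := j) (a := Am⁻¹) (f := a) (x := q)
        ((ha.of_le (by exact_mod_cast le_top)).contDiffAt)
      exact this
    rw [h1, norm_smul, Real.norm_eq_abs, abs_of_pos (by positivity : 0 < Am⁻¹)]
    have h2 : Ac j ≤ Am := by
      have h2 : |Ac j| ≤ ∑ j ∈ Finset.range (N + 1), |Ac j| :=
        Finset.single_le_sum (f := fun j => |Ac j|) (fun j _ => abs_nonneg _)
          (Finset.mem_range.2 (by omega))
      rw [hAm]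
      linarith [le_abs_self (Ac j)]
    have h3 := had j q
    rw [one_div] at h3
    calc Am⁻¹ * ‖iteratedFDeriv ℝ j a q‖ ≤ Am⁻¹ * (Am * th⁻¹ ^ j) := by
          gcongr
          exact h3.trans (by gcongr)
      _ = th⁻¹ ^ j := by field_simp
  have hfin := hI (Fin (k + 1) → ℤ) s s' ph Z U w h f g th (Cg * (rho * th)⁻¹) BB hZc hZb hUo hZU
    hth (by positivity) hBB hphs (hDinvU.smul hYV.contDiffOn) hhU hfb hgb hphw hwb hhb htriv
    (fun p => Am⁻¹ * a p) x y (contDiff_const.mul ha) (by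
      intro q hq
      refine hsupp q ?_
      intro h0
      exact hq (by simp [h0])) haA
  have hscale : ∫ q, ((Am⁻¹ * a q : ℝ) : ℂ) * ∑ i ∈ s, ∑ j ∈ s', x i * (starRingEnd ℂ) (y j) *
        Complex.exp (Complex.I * (ph i j q : ℂ)) =
      ((Am⁻¹ : ℝ) : ℂ) * ∫ q, (a q : ℂ) * (es Lt s x (ch.X q) *
        (starRingEnd ℂ) (es Lt s' y (ch.X q))) := by
    rw [← integral_const_mul]
    congr 1
    funext q
    rw [es_mul]
    push_cast
    ring
  rw [hscale, norm_mul, Complex.norm_real, Real.norm_eq_abs,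
    abs_of_pos (by positivity : 0 < Am⁻¹)] at hfin
  have hfin2 : ‖∫ q, (a q : ℂ) * (es Lt s x (ch.X q) * (starRingEnd ℂ) (es Lt s' y (ch.X q)))‖ ≤
      Am * ((CI * (Cg * (rho * th)⁻¹) / th) ^ N * BB *
        (Real.sqrt (∑ i ∈ s, ‖x i‖ ^ 2) * Real.sqrt (∑ j ∈ s', ‖y j‖ ^ 2))) := by
    rw [inv_mul_le_iff₀ hAm0] at hfin
    exact hfin
  refine hfin2.trans (le_of_eq ?_)
  have h5 : CI * (Cg * (rho * th)⁻¹) / th = CI * Cg * (r / rho) := by
    rw [hr2]
    field_simp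
  rw [h5, mul_pow]
  ring

end Pool.Agent.Lib.MP_a8dae7_an.UN.CBM
end

section
/-!
# MP_a8dae7_an, UN, module CG: cubes, corners and the support of the amplitudes
-/
set_option autoImplicit false

open MeasureTheory
open scoped ContDiff

namespace Pool.Agent.Lib.MP_a8dae7_an.UN.CGM

open Pool.Agent.Lib.MP_a8dae7_an.CV (EE zv ex)

/-- a vector with small coordinates is small -/
theorem norm_le_of_coord {k : ℕ} (v : EE (k + 1)) {l : ℝ} (hl : 0 ≤ l) (h : ∀ i, |v i| ≤ l) :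
    ‖v‖ ≤ (k + 1) * l := by
  have h1 : ‖v‖ ^ 2 ≤ ((k + 1) * l) ^ 2 := by
    rw [EuclideanSpace.norm_sq_eq]
    calc ∑ i, ‖v i‖ ^ 2 ≤ ∑ _i : Fin (k + 1), l ^ 2 :=
          Finset.sum_le_sum fun i _ => by
            rw [Real.norm_eq_abs]
            exact pow_le_pow_left₀ (abs_nonneg _) (h i) 2
      _ = (k + 1) * l ^ 2 := by simp
      _ ≤ ((k + 1) * l) ^ 2 := by
          have h2 : (0 : ℝ) ≤ k := Nat.cast_nonneg k
          have h3 : 0 ≤ l ^ 2 := sq_nonneg l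
          nlinarith [mul_nonneg h2 h3, mul_nonneg (mul_nonneg h2 h2) h3]
  exact (sq_le_sq₀ (norm_nonneg _) (by positivity)).1 h1

/-- distance to the corner of the cube -/
theorem abs_sub_floor {l t : ℝ} (hl : 0 < l) : |t - l * (⌊t / l⌋ : ℝ)| ≤ l := by
  have h1 := Int.floor_le (t / l)
  have h2 := Int.lt_floor_add_one (t / l)
  have h3 : l * (t / l) = t := by field_simp
  have h4 := mul_le_mul_of_nonneg_left h1 hl.le
  have h5 := mul_lt_mul_of_pos_left h2 hl
  rw [h3] at h4 h5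
  rw [abs_le]
  constructor <;> linarith

/-- two points with the same label -/
theorem abs_sub_le_of_floor_eq {l s t : ℝ} (hl : 0 < l) (h : ⌊s / l⌋ = ⌊t / l⌋) : |s - t| ≤ l := by
  have h1 := Int.floor_le (t / l)
  have h2 := Int.lt_floor_add_one (t / l)
  have h1' := Int.floor_le (s / l)
  have h2' := Int.lt_floor_add_one (s / l)
  rw [h] at h1' h2'
  have h3 : l * (t / l) = t := by field_simp
  have h3' : l * (s / l) = s := by field_simp
  have h4 := mul_le_mul_of_nonneg_left h1 hl.le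
  have h5 := mul_lt_mul_of_pos_left h2 hl
  have h4' := mul_le_mul_of_nonneg_left h1' hl.le
  have h5' := mul_lt_mul_of_pos_left h2' hl
  rw [h3] at h4 h5
  rw [h3'] at h4' h5'
  rw [abs_le]
  constructor <;> linarith

theorem rpow_facts {lam : ℝ} (h : 1 ≤ lam) : 0 < lam ^ (-(1 / 3 : ℝ)) ∧
    lam ^ (2 / 3 : ℝ) = lam * lam ^ (-(1 / 3 : ℝ)) ∧ lam ^ (2 / 3 : ℝ) ≤ lam ∧ 0 < lam ^ (2 / 3 : ℝ) ∧
    (lam ^ (-(1 / 3 : ℝ))) ^ 2 = (lam ^ (2 / 3 : ℝ))⁻¹ ∧ (lam ^ (-(1 / 3 : ℝ))) ^ 3 = lam⁻¹ := by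
  have h0 : 0 < lam := by linarith
  refine ⟨Real.rpow_pos_of_pos h0 _, ?_, ?_, Real.rpow_pos_of_pos h0 _, ?_, ?_⟩
  · have h1 : lam * lam ^ (-(1 / 3 : ℝ)) = lam ^ (1 : ℝ) * lam ^ (-(1 / 3 : ℝ)) := by rw [Real.rpow_one]
    rw [h1, ← Real.rpow_add h0]
    norm_num
  · calc lam ^ (2 / 3 : ℝ) ≤ lam ^ (1 : ℝ) := Real.rpow_le_rpow_of_exponent_le h (by norm_num)
      _ = lam := Real.rpow_one _
  · rw [← Real.rpow_natCast, ← Real.rpow_mul h0.le, ← Real.rpow_neg h0.le]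
    norm_num
  · rw [← Real.rpow_natCast, ← Real.rpow_mul h0.le]
    norm_num
    exact Real.rpow_neg_one lam

theorem norm_nu_sub {k : ℕ} {c R : ℝ} {M : ℕ → ℝ} (hc : Cls c R M) (ch : UChart k c R M) {q : EE k}
    (hq : ‖q‖ ≤ R) : ‖ch.nu - ch.J q‖ ≤ 17 / 16 := by
  have h1 := norm_sub_le ch.nu (ch.J q)
  rw [ch.nu_one, ch.J.norm_map] at h1
  have h2 := hc.R_le
  linarith

theorem sn_sub {k : ℕ} {c R : ℝ} {M : ℕ → ℝ} (hc : Cls c R M) (ch : UChart k c R M) {q : EE k}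
    (hq : ‖q‖ ≤ R) (n n' : EE (k + 1)) : |sn ch n q - sn ch n' q| ≤ 17 / 16 * ‖n - n'‖ := by
  unfold sn
  rw [← inner_sub_left]
  refine (abs_real_inner_le_norm _ _).trans ?_
  rw [mul_comm]
  exact mul_le_mul_of_nonneg_right (norm_nu_sub hc ch hq) (norm_nonneg _)

theorem Nb_dist {k : ℕ} {lam : ℝ} (h : 1 ≤ lam) (x : EE (k + 1)) :
    ‖x - Nb lam x‖ ≤ lam ^ (2 / 3 : ℝ) / 64 := by
  obtain ⟨_, _, _, h4, _, _⟩ := rpow_facts h
  have hk : (0 : ℝ) < k + 1 := by positivity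
  have hl : 0 < lam ^ (2 / 3 : ℝ) / (64 * (k + 1)) := by positivity
  have h5 := norm_le_of_coord (x - Nb lam x) hl.le (fun i => by
    have h6 := abs_sub_floor (l := lam ^ (2 / 3 : ℝ) / (64 * (k + 1))) (t := x i) hl
    rw [PiLp.sub_apply]
    exact h6)
  refine h5.trans (le_of_eq ?_)
  field_simp

/-- **CG** -/
theorem specCG (hCTU : SpecCTU) : SpecCG := by
  obtain ⟨_, hpsi, hphP, _, _⟩ := hCTU
  constructor
  · intro k lam th x x' h1 hth
    obtain ⟨e1, e2, e3, e4, e5, e6⟩ := rpow_facts h1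
    have hlam0 : 0 < lam := by linarith
    have hth0 : 0 < th := e1.trans_le hth
    have hk : (0 : ℝ) < k + 1 := by positivity
    have hsd : 0 < sd k th := by
      unfold sd
      positivity
    have hth2 : (th ^ 2)⁻¹ ≤ lam ^ (2 / 3 : ℝ) := by
      have h2 : (lam ^ (-(1 / 3 : ℝ))) ^ 2 ≤ th ^ 2 := pow_le_pow_left₀ e1.le hth 2
      rw [e5] at h2
      have h3 := inv_anti₀ (by positivity) h2
      rwa [inv_inv] at h3
    refine ⟨Nb_dist h1 x, ?_, ?_, hsd, ?_, ?_, ?_⟩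
    · intro hx
      have h2 := Nb_dist h1 x
      have h3 : ‖Nb lam x‖ ≤ ‖x‖ + ‖x - Nb lam x‖ := by
        have h4 : Nb lam x = x - (x - Nb lam x) := by abel
        calc ‖Nb lam x‖ = ‖x - (x - Nb lam x)‖ := by rw [← h4]
          _ ≤ _ := norm_sub_le _ _
      linarith
    · rw [e2]
      exact mul_le_mul_of_nonneg_left hth hlam0.le
    · unfold sd
      exact div_le_div_of_nonneg_right hth2 (by positivity)
    · have h2 : (lam ^ (-(1 / 3 : ℝ))) ^ 3 ≤ th ^ 3 := pow_le_pow_left₀ e1.le hth 3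
      rw [e6] at h2
      calc (1 : ℝ) = lam * lam⁻¹ := by field_simp
        _ ≤ lam * th ^ 3 := mul_le_mul_of_nonneg_left h2 hlam0.le
    · intro hcb
      have h5 := norm_le_of_coord (x - x') hsd.le (fun i => by
        rw [PiLp.sub_apply]
        exact abs_sub_le_of_floor_eq hsd (congrFun hcb i))
      refine h5.trans (le_of_eq ?_)
      unfold sd
      field_simp
  · intro k c R M hc ch lam th sg n q h1 hth hsg hq
    obtain ⟨e1, e2, e3, e4, e5, e6⟩ := rpow_facts h1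
    have hlam0 : 0 < lam := by linarith
    have hth0 : 0 < th := e1.trans_le hth
    have hlt : 0 < lam * th := by positivity
    have h2 : lam ^ (2 / 3 : ℝ) ≤ lam * th := by
      rw [e2]
      exact mul_le_mul_of_nonneg_left hth hlam0.le
    have h3 : |sn ch n q - sn ch (Nb lam n) q| ≤ lam * th / 6 := by
      refine (sn_sub hc ch hq _ _).trans ?_
      have h4 := Nb_dist h1 n
      linarith
    have h4 : |sg * sn ch n q - sg * sn ch (Nb lam n) q| ≤ lam * th / 6 := by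
      rw [← mul_sub, abs_mul]
      have h5 : |sg| = 1 := by
        rcases hsg with h | h <;> rw [h] <;> norm_num
      rw [h5, one_mul]
      exact h3
    have h5 := abs_le.1 h4
    constructor
    · intro ha
      obtain ⟨h6, h7⟩ := hphP _ ha
      rw [lt_div_iff₀ hlt] at h6
      rw [div_lt_iff₀ hlt] at h7
      constructor <;> linarith [h5.1, h5.2]
    · intro ha
      have h6 := hpsi _ ha
      rw [abs_div, abs_of_pos hlt, div_lt_iff₀ hlt] at h6
      have h7 : |sg * sn ch n q| ≤ 3 * (lam * th) := by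
        have h8 : |sg * sn ch n q| ≤ |sg * sn ch (Nb lam n) q| + |sg * sn ch n q - sg * sn ch (Nb lam n) q| := by
          have h9 := abs_add_le (sg * sn ch (Nb lam n) q) (sg * sn ch n q - sg * sn ch (Nb lam n) q)
          have h10 : sg * sn ch (Nb lam n) q + (sg * sn ch n q - sg * sn ch (Nb lam n) q) =
              sg * sn ch n q := by ring
          rwa [h10] at h9
        linarith
      rw [abs_mul] at h7
      have h8 : |sg| = 1 := by
        rcases hsg with h | h <;> rw [h] <;> norm_num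
      rwa [h8, one_mul] at h7

end Pool.Agent.Lib.MP_a8dae7_an.UN.CGM
end

section
/-!
# MP_a8dae7_an, UN, module CS: Cauchy-Schwarz for a pair of blocks
-/
set_option autoImplicit false

open MeasureTheory
open scoped ContDiff

namespace Pool.Agent.Lib.MP_a8dae7_an.UN.CSM

open Pool.Agent.Lib.MP_a8dae7_an.CV (EE zv ex)

theorem continuous_ex {d : ℕ} (n : EE d) : Continuous (ex n) := by
  unfold ex
  have h1 : Continuous fun x : EE d => (inner ℝ n x : ℝ) := continuous_const.inner continuous_id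
  exact Complex.continuous_exp.comp (continuous_const.mul (Complex.continuous_ofReal.comp h1))

theorem continuous_es {D : ℕ} {A : ℝ} (Lt : Lat D A) (s : Finset (Fin D → ℤ)) (a : (Fin D → ℤ) → ℂ) :
    Continuous (es Lt s a) := by
  unfold es
  exact continuous_finsetSum _ fun n _ => continuous_const.mul (continuous_ex _)

theorem continuous_sn {k : ℕ} {c R : ℝ} {M : ℕ → ℝ} (ch : UChart k c R M) (n : EE (k + 1)) :
    Continuous (sn ch n) := by
  unfold sn
  exact continuous_const.inner (continuous_const.sub ch.J.continuous)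

/-- Cauchy-Schwarz for real functions on a compact set -/
theorem cs_real {k : ℕ} {D : Set (EE k)} (hD : IsCompact D) {f g : EE k → ℝ} (hf : Continuous f)
    (hg : Continuous g) (hf0 : ∀ q, 0 ≤ f q) (hg0 : ∀ q, 0 ≤ g q) :
    ∫ q in D, f q * g q ≤ Real.sqrt (∫ q in D, f q ^ 2) * Real.sqrt (∫ q in D, g q ^ 2) := by
  have hpq : (2 : ℝ).HolderConjugate 2 := by
    rw [Real.holderConjugate_iff]
    norm_num
  have : IsFiniteMeasure (volume.restrict D) := ⟨by
    rw [Measure.restrict_apply_univ]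
    exact hD.measure_lt_top⟩
  have h2 : ENNReal.ofReal 2 = 2 := by norm_num
  have hb : ∀ h : EE k → ℝ, Continuous h → MemLp h (ENNReal.ofReal 2) (volume.restrict D) := by
    intro h hh
    obtain ⟨Q, hQ⟩ := hD.exists_bound_of_continuousOn hh.continuousOn
    refine MemLp.of_bound hh.aestronglyMeasurable Q ?_
    exact (ae_restrict_iff' hD.measurableSet).2 (Filter.Eventually.of_forall fun q hq => hQ q hq)
  have h3 := integral_mul_le_Lp_mul_Lq_of_nonneg hpq (μ := volume.restrict D)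
    (Filter.Eventually.of_forall hf0) (Filter.Eventually.of_forall hg0) (hb f hf) (hb g hg)
  have h4 : ∀ h : EE k → ℝ, (∀ q, 0 ≤ h q) → (∫ q in D, h q ^ (2 : ℝ)) ^ ((1 : ℝ) / 2) =
      Real.sqrt (∫ q in D, h q ^ 2) := by
    intro h _
    rw [Real.sqrt_eq_rpow]
    congr 2
    funext q
    exact Real.rpow_two _
  rw [h4 f hf0, h4 g hg0] at h3
  exact h3

/-- **CS** -/
theorem specCS : SpecCS := by
  intro k c R A M ch Lt lam th BB n0 n0' s s' a x y hP ha ha1 hsupp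
  set S0 : Set (EE k) := {q : EE k | ‖q‖ ≤ 2 * dl k R ∧ |sn ch n0 q| ≤ 5 * th * lam} with hS0
  set S1 : Set (EE k) := {q : EE k | ‖q‖ ≤ 2 * dl k R ∧ |sn ch n0' q| ≤ 5 * th * lam} with hS1
  set D : Set (EE k) := S0 ∩ S1 with hD
  have hball : IsCompact (Metric.closedBall (0 : EE k) (2 * dl k R)) := isCompact_closedBall _ _
  have hclosed : ∀ n : EE (k + 1), IsClosed {q : EE k | ‖q‖ ≤ 2 * dl k R ∧ |sn ch n q| ≤ 5 * th * lam} := by
    intro n
    have h1 : IsClosed {q : EE k | ‖q‖ ≤ 2 * dl k R} := isClosed_le continuous_norm continuous_const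
    have h2 : IsClosed {q : EE k | |sn ch n q| ≤ 5 * th * lam} :=
      isClosed_le (continuous_sn ch n).abs continuous_const
    exact h1.inter h2
  have hc0 : IsCompact S0 := hball.of_isClosed_subset (hclosed n0) fun q hq => by
    rw [mem_closedBall_zero_iff]
    exact hq.1
  have hc1 : IsCompact S1 := hball.of_isClosed_subset (hclosed n0') fun q hq => by
    rw [mem_closedBall_zero_iff]
    exact hq.1
  have hcD : IsCompact D := hc0.inter_right (hclosed n0')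
  set F : EE k → ℂ := fun q => es Lt s x (ch.X q) with hF
  set G : EE k → ℂ := fun q => es Lt s' y (ch.X q) with hG
  have hFc : Continuous F := (continuous_es Lt s x).comp ch.smooth.continuous
  have hGc : Continuous G := (continuous_es Lt s' y).comp ch.smooth.continuous
  -- reduce to the set `D`
  have h1 : ∫ q, (a q : ℂ) * (F q * (starRingEnd ℂ) (G q)) =
      ∫ q in D, (a q : ℂ) * (F q * (starRingEnd ℂ) (G q)) := by
    symm
    refine setIntegral_eq_integral_of_forall_compl_eq_zero fun q hq => ?_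
    have h2 : a q = 0 := by
      by_contra h
      obtain ⟨h3, h4, h5⟩ := hsupp q h
      exact hq ⟨⟨h3, h4⟩, ⟨h3, h5⟩⟩
    rw [h2, Complex.ofReal_zero, zero_mul]
  have h2 : ‖∫ q in D, (a q : ℂ) * (F q * (starRingEnd ℂ) (G q))‖ ≤ ∫ q in D, ‖F q‖ * ‖G q‖ := by
    refine (norm_integral_le_integral_norm _).trans ?_
    refine integral_mono_of_nonneg (Filter.Eventually.of_forall fun q => norm_nonneg _) ?_
      (Filter.Eventually.of_forall fun q => ?_)
    · exact (hFc.norm.mul hGc.norm).continuousOn.integrableOn_compact hcD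
    · show ‖(a q : ℂ) * (F q * (starRingEnd ℂ) (G q))‖ ≤ ‖F q‖ * ‖G q‖
      rw [norm_mul, norm_mul, RCLike.norm_conj, Complex.norm_real, Real.norm_eq_abs]
      exact (mul_le_mul_of_nonneg_right (ha1 q) (by positivity)).trans (by rw [one_mul])
  have h3 := cs_real hcD hFc.norm hGc.norm (fun q => norm_nonneg _) (fun q => norm_nonneg _)
  have h4 : ∫ q in D, ‖F q‖ ^ 2 ≤ BB * ∑ j ∈ s, ‖x j‖ ^ 2 := by
    refine le_trans ?_ (hP.hb x)
    refine setIntegral_mono_set ?_ ?_ ?_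
    · exact (hFc.norm.pow 2).continuousOn.integrableOn_compact hc0
    · exact Filter.Eventually.of_forall fun q => by positivity
    · exact (Set.inter_subset_left (s := S0) (t := S1)).eventuallyLE
  have h5 : ∫ q in D, ‖G q‖ ^ 2 ≤ BB * ∑ j ∈ s', ‖y j‖ ^ 2 := by
    refine le_trans ?_ (hP.hb' y)
    refine setIntegral_mono_set ?_ ?_ ?_
    · exact (hGc.norm.pow 2).continuousOn.integrableOn_compact hc1
    · exact Filter.Eventually.of_forall fun q => by positivity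
    · exact (Set.inter_subset_right (s := S0) (t := S1)).eventuallyLE
  have hsx : 0 ≤ ∑ j ∈ s, ‖x j‖ ^ 2 := Finset.sum_nonneg fun j _ => by positivity
  have hsy : 0 ≤ ∑ j ∈ s', ‖y j‖ ^ 2 := Finset.sum_nonneg fun j _ => by positivity
  calc ‖∫ q, (a q : ℂ) * (F q * (starRingEnd ℂ) (G q))‖
      = ‖∫ q in D, (a q : ℂ) * (F q * (starRingEnd ℂ) (G q))‖ := by rw [h1]
    _ ≤ ∫ q in D, ‖F q‖ * ‖G q‖ := h2
    _ ≤ Real.sqrt (∫ q in D, ‖F q‖ ^ 2) * Real.sqrt (∫ q in D, ‖G q‖ ^ 2) := h3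
    _ ≤ Real.sqrt (BB * ∑ j ∈ s, ‖x j‖ ^ 2) * Real.sqrt (BB * ∑ j ∈ s', ‖y j‖ ^ 2) :=
        mul_le_mul (Real.sqrt_le_sqrt h4) (Real.sqrt_le_sqrt h5) (Real.sqrt_nonneg _) (Real.sqrt_nonneg _)
    _ = BB * (Real.sqrt (∑ j ∈ s, ‖x j‖ ^ 2) * Real.sqrt (∑ j ∈ s', ‖y j‖ ^ 2)) := by
        rw [Real.sqrt_mul hP.hBB, Real.sqrt_mul hP.hBB]
        have h6 : Real.sqrt BB * Real.sqrt BB = BB := Real.mul_self_sqrt hP.hBB
        calc _ = Real.sqrt BB * Real.sqrt BB *
              (Real.sqrt (∑ j ∈ s, ‖x j‖ ^ 2) * Real.sqrt (∑ j ∈ s', ‖y j‖ ^ 2)) := by ring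
          _ = _ := by rw [h6]

end Pool.Agent.Lib.MP_a8dae7_an.UN.CSM
end

section
/-!
# MP_a8dae7_an, UN: module GA. Gradients of the phase.
-/
set_option autoImplicit false

open MeasureTheory
open scoped ContDiff

namespace Pool.Agent.Lib.MP_a8dae7_an.UN.GAM

open Pool.Agent.Lib.MP_a8dae7_an.CV (EE)

variable {k : ℕ} {c R : ℝ} {M : ℕ → ℝ}

/-- Coordinates with respect to `J` and `nu`. -/
theorem decomp (ch : UChart k c R M) (x : EE (k + 1)) :
    x = ch.J (ContinuousLinearMap.adjoint (ch.J.toContinuousLinearMap) x) +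
      (inner ℝ ch.nu x : ℝ) • ch.nu := by
  let T : (EE k × ℝ) →ₗ[ℝ] EE (k + 1) :=
    ch.J.toLinearMap.coprod (LinearMap.toSpanSingleton ℝ _ ch.nu)
  have hT : ∀ p, T p = ch.J p.1 + p.2 • ch.nu := fun p => by
    simp [T]
  have hinj : Function.Injective T := by
    rw [injective_iff_map_eq_zero]
    intro p hp
    rw [hT] at hp
    have h1 : inner ℝ ch.nu (ch.J p.1 + p.2 • ch.nu) = 0 := by rw [hp, inner_zero_right]
    rw [inner_add_right, ch.nu_perp, inner_smul_right, real_inner_self_eq_norm_sq, ch.nu_one] at h1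
    have h2 : p.2 = 0 := by linarith
    rw [h2, zero_smul, add_zero] at hp
    have h3 : p.1 = 0 := by
      have := ch.J.norm_map p.1
      rw [hp, norm_zero] at this
      exact norm_eq_zero.1 this.symm
    exact Prod.ext h3 h2
  have hfr : Module.finrank ℝ (EE k × ℝ) = Module.finrank ℝ (EE (k + 1)) := by
    simp [EE]
  have hsur := (LinearMap.injective_iff_surjective_of_finrank_eq_finrank hfr).1 hinj
  obtain ⟨p, hp⟩ := hsur x
  rw [hT] at hp
  have hnu : inner ℝ ch.nu x = p.2 := by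
    rw [← hp, inner_add_right, ch.nu_perp, inner_smul_right, real_inner_self_eq_norm_sq, ch.nu_one]
    ring
  have hJ : ContinuousLinearMap.adjoint (ch.J.toContinuousLinearMap) x = p.1 := by
    refine ext_inner_left ℝ fun v => ?_
    rw [ContinuousLinearMap.adjoint_inner_right]
    change inner ℝ (ch.J v) x = inner ℝ v p.1
    rw [← hp, inner_add_right, ch.J.inner_map_map, inner_smul_right,
      real_inner_comm ch.nu (ch.J v), ch.nu_perp]
    ring
  rw [hnu, hJ, hp]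

/-- Tangential part and normal part. -/
theorem norm_decomp (ch : UChart k c R M) (x : EE (k + 1)) :
    ‖x‖ ^ 2 = ‖ContinuousLinearMap.adjoint (ch.J.toContinuousLinearMap) x‖ ^ 2 +
      (inner ℝ ch.nu x) ^ 2 := by
  conv_lhs => rw [decomp ch x]
  rw [← real_inner_self_eq_norm_sq, inner_add_left, inner_add_right, inner_add_right,
    ch.J.inner_map_map, inner_smul_left, inner_smul_left, inner_smul_right, inner_smul_right,
    ch.nu_perp, real_inner_comm (ch.nu) (ch.J _), ch.nu_perp, real_inner_self_eq_norm_sq,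
    real_inner_self_eq_norm_sq, ch.nu_one]
  simp only [conj_trivial]
  ring

theorem specGA : SpecGA := by
  intro k c R M hc ch q hq
  have hq1 : ‖q‖ ≤ 1 / 16 := hq.trans hc.R_le
  have hq0 : 0 ≤ ‖q‖ := norm_nonneg q
  have hdec : ∀ eta : EE (k + 1),
      eta = (inner ℝ ch.nu eta : ℝ) • (ch.nu - ch.J q) + ch.J (tq ch q eta) := by
    intro eta
    conv_lhs => rw [decomp ch eta]
    rw [tq, map_add, map_smul, smul_sub]
    abel
  have hs0 : ∀ eta : EE (k + 1), sn ch eta q = inner ℝ ch.nu eta -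
      inner ℝ (ContinuousLinearMap.adjoint (ch.J.toContinuousLinearMap) eta) q := by
    intro eta
    rw [sn, inner_sub_right, real_inner_comm, ContinuousLinearMap.adjoint_inner_left]
    rfl
  have hJle : ∀ eta : EE (k + 1),
      ‖ContinuousLinearMap.adjoint (ch.J.toContinuousLinearMap) eta‖ ≤ ‖eta‖ := by
    intro eta
    have h := norm_decomp ch eta
    have : ‖ContinuousLinearMap.adjoint (ch.J.toContinuousLinearMap) eta‖ ^ 2 ≤ ‖eta‖ ^ 2 := by
      rw [h]; nlinarith [sq_nonneg (inner ℝ ch.nu eta)]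
    exact (sq_le_sq₀ (norm_nonneg _) (norm_nonneg _)).1 this
  have hnle : ∀ eta : EE (k + 1), |inner ℝ ch.nu eta| ≤ ‖eta‖ := by
    intro eta
    have := abs_real_inner_le_norm ch.nu eta
    rwa [ch.nu_one, one_mul] at this
  have htq0 : ∀ eta : EE (k + 1), tq ch 0 eta =
      ContinuousLinearMap.adjoint (ch.J.toContinuousLinearMap) eta := by
    intro eta
    rw [tq, smul_zero, add_zero]
  refine ⟨?_, hdec, ?_, ?_, ?_⟩
  · intro eta v
    have h := ch.perp q v hq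
    rw [inner_sub_left] at h
    conv_lhs => rw [decomp ch eta]
    rw [tq, map_add, map_smul, inner_add_left, inner_add_left, inner_smul_left, inner_smul_left]
    simp only [conj_trivial]
    rw [show inner ℝ ch.nu (fderiv ℝ ch.X q v) = inner ℝ (ch.J q) (fderiv ℝ ch.X q v) by linarith]
  · intro eta N
    have h : inner ℝ eta N = inner ℝ ((inner ℝ ch.nu eta : ℝ) • (ch.nu - ch.J q) +
        ch.J (tq ch q eta)) N := by rw [← hdec eta]
    rw [inner_add_left, inner_smul_left] at h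
    simp only [conj_trivial] at h
    rw [sn, real_inner_comm (ch.nu - ch.J q) N]
    linarith
  · intro eta
    have h1 := hJle eta
    have h2 := hnle eta
    have h0 : 0 ≤ ‖eta‖ := norm_nonneg eta
    have hsq := norm_decomp ch eta
    set u := ‖ContinuousLinearMap.adjoint (ch.J.toContinuousLinearMap) eta‖ with hu
    refine ⟨?_, ?_, h2, ?_⟩
    · calc ‖tq ch q eta‖ ≤ u + ‖(inner ℝ ch.nu eta : ℝ) • q‖ := by
            rw [tq]; exact norm_add_le _ _
        _ = u + |inner ℝ ch.nu eta| * ‖q‖ := by rw [norm_smul, Real.norm_eq_abs]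
        _ ≤ ‖eta‖ + ‖eta‖ * (1 / 16) := by gcongr
        _ = 17 / 16 * ‖eta‖ := by ring
    · rw [sn]
      have h3 := abs_real_inner_le_norm eta (ch.nu - ch.J q)
      have h4 : ‖ch.nu - ch.J q‖ ≤ 65 / 64 := by
        have h5 : ‖ch.nu - ch.J q‖ ^ 2 = 1 + ‖q‖ ^ 2 := by
          rw [← real_inner_self_eq_norm_sq, inner_sub_left, inner_sub_right, inner_sub_right,
            ch.nu_perp, real_inner_comm ch.nu (ch.J q), ch.nu_perp, real_inner_self_eq_norm_sq,
            real_inner_self_eq_norm_sq, ch.nu_one, ch.J.norm_map]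
          ring
        have h6 : ‖ch.nu - ch.J q‖ ^ 2 ≤ (65 / 64) ^ 2 := by
          rw [h5]; nlinarith
        exact (sq_le_sq₀ (norm_nonneg _) (by norm_num)).1 h6
      calc _ ≤ ‖eta‖ * ‖ch.nu - ch.J q‖ := h3
        _ ≤ ‖eta‖ * (65 / 64) := by gcongr
        _ = 65 / 64 * ‖eta‖ := by ring
    · rw [htq0]
      exact h1
  · intro eta h
    rw [htq0] at h
    have h2 := hnle eta
    have h0 : 0 ≤ ‖eta‖ := norm_nonneg eta
    have hsq := norm_decomp ch eta
    rw [hs0 eta]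
    set u := ContinuousLinearMap.adjoint (ch.J.toContinuousLinearMap) eta with hu
    have hu0 : 0 ≤ ‖u‖ := norm_nonneg u
    have h3 : (99 / 100 * ‖eta‖) ^ 2 ≤ (inner ℝ ch.nu eta) ^ 2 := by nlinarith
    have h4 : 99 / 100 * ‖eta‖ ≤ |inner ℝ ch.nu eta| := by
      rw [← sq_abs (inner ℝ ch.nu eta)] at h3
      exact (sq_le_sq₀ (by positivity) (abs_nonneg _)).1 h3
    have h5 : |inner ℝ u q| ≤ ‖eta‖ / 8 * (1 / 16) := by
      calc |inner ℝ u q| ≤ ‖u‖ * ‖q‖ := abs_real_inner_le_norm _ _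
        _ ≤ ‖eta‖ / 8 * (1 / 16) := by gcongr
    refine ⟨by linarith, ?_⟩
    have h6 := abs_sub_abs_le_abs_sub (inner ℝ ch.nu eta) (inner ℝ u q)
    linarith

end Pool.Agent.Lib.MP_a8dae7_an.UN.GAM
end

section
/-!
# MP_a8dae7_an, UN: module O (helper99). Almost orthogonality of the pieces without loss.
-/
set_option autoImplicit false

open MeasureTheory
open scoped ContDiff

namespace Pool.Agent.Lib.MP_a8dae7_an.UN.OM

open Pool.Agent.Lib.MP_a8dae7_an.CV (EE zv ex)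
open Pool.Agent.Lib.MP_a8dae7_an.UN

/-! ## Elementary lemmas -/

lemma schur_sum {ι : Type} (P : Finset ι) (W : ι → ι → ℝ) (A : ι → ℝ) (C : ℝ)
    (hW : ∀ p ∈ P, ∀ p' ∈ P, 0 ≤ W p p') (hsym : ∀ p ∈ P, ∀ p' ∈ P, W p p' = W p' p)
    (hrow : ∀ p ∈ P, ∑ p' ∈ P, W p p' ≤ C) :
    ∑ p ∈ P, ∑ p' ∈ P, W p p' * (A p * A p') ≤ C * ∑ p ∈ P, A p ^ 2 := by
  have h1 : ∀ p ∈ P, ∀ p' ∈ P, W p p' * (A p * A p') ≤ W p p' * A p ^ 2 / 2 + W p' p * A p' ^ 2 / 2 := by
    intro p hp p' hp'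
    rw [← hsym p hp p' hp']
    have h := hW p hp p' hp'
    nlinarith [mul_nonneg h (sq_nonneg (A p - A p'))]
  have h2 : ∑ p ∈ P, ∑ p' ∈ P, W p p' * A p ^ 2 / 2 ≤ C / 2 * ∑ p ∈ P, A p ^ 2 := by
    rw [Finset.mul_sum]
    refine Finset.sum_le_sum fun p hp => ?_
    have : ∑ p' ∈ P, W p p' * A p ^ 2 / 2 = (∑ p' ∈ P, W p p') * (A p ^ 2 / 2) := by
      rw [Finset.sum_mul]
      exact Finset.sum_congr rfl fun p' _ => by ring
    rw [this]
    have := mul_le_mul_of_nonneg_right (hrow p hp) (by positivity : (0 : ℝ) ≤ A p ^ 2 / 2)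
    linarith
  have h3 : ∑ p ∈ P, ∑ p' ∈ P, W p' p * A p' ^ 2 / 2 = ∑ p ∈ P, ∑ p' ∈ P, W p p' * A p ^ 2 / 2 :=
    Finset.sum_comm
  calc ∑ p ∈ P, ∑ p' ∈ P, W p p' * (A p * A p')
      ≤ ∑ p ∈ P, ∑ p' ∈ P, (W p p' * A p ^ 2 / 2 + W p' p * A p' ^ 2 / 2) :=
        Finset.sum_le_sum fun p hp => Finset.sum_le_sum fun p' hp' => h1 p hp p' hp'
    _ = ∑ p ∈ P, ∑ p' ∈ P, W p p' * A p ^ 2 / 2 + ∑ p ∈ P, ∑ p' ∈ P, W p' p * A p' ^ 2 / 2 := by
        rw [← Finset.sum_add_distrib]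
        exact Finset.sum_congr rfl fun p _ => Finset.sum_add_distrib
    _ ≤ C * ∑ p ∈ P, A p ^ 2 := by rw [h3]; linarith

lemma norm_sq_sum {ι : Type} (P : Finset ι) (z : ι → ℂ) :
    ((‖∑ p ∈ P, z p‖ ^ 2 : ℝ) : ℂ) = ∑ p ∈ P, ∑ p' ∈ P, z p * (starRingEnd ℂ) (z p') := by
  have h : ((‖∑ p ∈ P, z p‖ ^ 2 : ℝ) : ℂ) = (∑ p ∈ P, z p) * (starRingEnd ℂ) (∑ p ∈ P, z p) := by
    rw [Complex.mul_conj, Complex.normSq_eq_norm_sq]
  rw [h, map_sum, Finset.sum_mul_sum]

lemma cont_ex {d : ℕ} (n : EE d) : Continuous fun x : EE d => ex n x := by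
  unfold ex
  fun_prop

lemma cont_es {k : ℕ} {c R : ℝ} {M : ℕ → ℝ} (ch : UChart k c R M) {A : ℝ} (Lt : Lat (k + 1) A)
    (s : Finset (Fin (k + 1) → ℤ)) (a : (Fin (k + 1) → ℤ) → ℂ) :
    Continuous fun q : EE k => es Lt s a (ch.X q) := by
  unfold es
  refine continuous_finsetSum _ fun j _ => continuous_const.mul ((cont_ex _).comp ch.smooth.continuous)

lemma cont_sn {k : ℕ} {c R : ℝ} {M : ℕ → ℝ} (ch : UChart k c R M) (n : EE (k + 1)) :
    Continuous fun q : EE k => sn ch n q := by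
  unfold sn
  have := ch.J.continuous
  fun_prop

lemma cont_psi0 : Continuous psi0 := by
  unfold psi0
  have := Real.smoothTransition.continuous
  fun_prop

lemma cont_phP : Continuous phP := by
  unfold phP
  have := Real.smoothTransition.continuous
  fun_prop

lemma cont_am {k : ℕ} {c R : ℝ} {M : ℕ → ℝ} (ch : UChart k c R M) {f : ℝ → ℝ} (hf : Continuous f)
    (sg lam th : ℝ) (n : EE (k + 1)) : Continuous (am ch f sg lam th n) := by
  unfold am
  have := cont_sn ch (Nb lam n)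
  fun_prop

/-! ## Pieces -/

/-- the label of the piece of a frequency -/
noncomputable def lab {k : ℕ} {A : ℝ} (Lt : Lat (k + 1) A) (lam th : ℝ) (j : Fin (k + 1) → ℤ) :
    (Fin (k + 1) → ℤ) × EE (k + 1) := (cbl (sd k th) (Lt.fr j), Nb lam (Lt.fr j))

open Classical in
/-- representatives of the pieces -/
lemma exists_rep {κ β : Type} [Inhabited κ] (s : Finset κ) (lb : κ → β) :
    ∃ rp : κ → κ, (∀ j ∈ s, rp j ∈ s ∧ lb (rp j) = lb j) ∧ (∀ j j', lb j = lb j' → rp j = rp j') := by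
  refine ⟨fun j => if h : ∃ i ∈ s, lb i = lb j then h.choose else default, ?_, ?_⟩
  · intro j hj
    have h : ∃ i ∈ s, lb i = lb j := ⟨j, hj, rfl⟩
    simp only [dif_pos h]
    exact h.choose_spec
  · intro j j' h
    simp only [h]

open Classical in
/-- the frequencies of the piece with representative `p` -/
noncomputable def pc {k : ℕ} (rp : (Fin (k + 1) → ℤ) → (Fin (k + 1) → ℤ)) (s : Finset (Fin (k + 1) → ℤ))
    (p : Fin (k + 1) → ℤ) : Finset (Fin (k + 1) → ℤ) := s.filter fun j => rp j = p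

lemma sum_pieces {k : ℕ} (rp : (Fin (k + 1) → ℤ) → (Fin (k + 1) → ℤ)) (s : Finset (Fin (k + 1) → ℤ))
    {E : Type} [AddCommMonoid E] (g : (Fin (k + 1) → ℤ) → E) :
    ∑ j ∈ s, g j = ∑ p ∈ s.image rp, ∑ j ∈ pc rp s p, g j := by
  classical
  unfold pc
  rw [Finset.sum_fiberwise_of_maps_to (fun j hj => Finset.mem_image_of_mem rp hj)]

/-- the block norm of a piece -/
lemma piece_norm {k : ℕ} {c R : ℝ} {M : ℕ → ℝ} (ch : UChart k c R M) {A : ℝ} (Lt : Lat (k + 1) A)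
    (lam th BB : ℝ) (s t : Finset (Fin (k + 1) → ℤ)) (p : Fin (k + 1) → ℤ) (hp : p ∈ s)
    (hBH : BH ch Lt lam th BB s)
    (ht : ∀ j ∈ t, j ∈ s ∧ cbl (sd k th) (Lt.fr j) = cbl (sd k th) (Lt.fr p))
    (b : (Fin (k + 1) → ℤ) → ℂ) :
    ∫ q in {q : EE k | ‖q‖ ≤ 2 * dl k R ∧ |sn ch (Lt.fr p) q| ≤ 5 * th * lam},
      ‖es Lt t b (ch.X q)‖ ^ 2 ≤ BB * ∑ j ∈ t, ‖b j‖ ^ 2 := by
  classical
  have h := hBH p hp (fun j => if j ∈ t then b j else 0)
  have hsub : t ⊆ bk Lt (sd k th) s (cbl (sd k th) (Lt.fr p)) := by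
    intro j hj
    unfold bk
    rw [Finset.mem_filter]
    exact ht j hj
  have e1 : ∀ x, es Lt (bk Lt (sd k th) s (cbl (sd k th) (Lt.fr p))) (fun j => if j ∈ t then b j else 0) x =
      es Lt t b x := by
    intro x
    unfold es
    rw [← Finset.sum_subset hsub]
    · exact Finset.sum_congr rfl fun j hj => by simp [hj]
    · intro j _ hj
      simp [hj]
  have e2 : ∑ j ∈ bk Lt (sd k th) s (cbl (sd k th) (Lt.fr p)), ‖(if j ∈ t then b j else 0 : ℂ)‖ ^ 2 =
      ∑ j ∈ t, ‖b j‖ ^ 2 := by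
    rw [← Finset.sum_subset hsub]
    · exact Finset.sum_congr rfl fun j hj => by simp [hj]
    · intro j _ hj
      simp [hj]
  simp only [e1] at h
  rw [e2] at h
  exact h

/-! ## The theorem -/

theorem specO (hPA : SpecPA) (hCS : SpecCS) (hPC : SpecPC) (hPSM : SpecPSM) (hCTU : SpecCTU) (hCG : SpecCG) :
    SpecO := by
  classical
  intro k c R A M hc hA
  obtain ⟨K, hK, hPA'⟩ := hPA k c R M hc (2 * k + 3) (by omega)
  obtain ⟨C1, hC1, hPC'⟩ := hPC k
  obtain ⟨C2, hC2, hPSM'⟩ := hPSM k K hK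
  obtain ⟨hrange, -, -, -, hder⟩ := hCTU
  obtain ⟨Ac, hAc⟩ := hder k c R M hc
  obtain ⟨hcg1, hcg2⟩ := hCG
  refine ⟨C1 * K ^ (2 * k + 2) + C2, by positivity, ?_⟩
  intro ch Lt lam th sg BB s a f hlam hth1 hth2 hsg hf hBB hs hBH
  have hlam0 : 0 < lam := by linarith
  have hth0 : 0 < th := lt_of_lt_of_le (Real.rpow_pos_of_pos hlam0 _) hth1
  have hf' : f = phP ∨ f = psi0 := by tauto
  have hfc : Continuous f := by
    rcases hf' with h | h
    · rw [h]; exact cont_phP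
    · rw [h]; exact cont_psi0
  have hfr : ∀ x, 0 ≤ f x ∧ f x ≤ 1 := by
    intro x
    rcases hf' with h | h
    · rw [h]; exact ⟨(hrange x).2.2.1, (hrange x).2.2.2⟩
    · rw [h]; exact ⟨(hrange x).1, (hrange x).2.1⟩
  have hdl : 0 < dl k R := by
    have := hc.R_pos
    unfold dl; positivity
  have hdlR : 2 * dl k R ≤ R := by
    have := hc.R_pos
    unfold dl
    rw [mul_div_assoc', div_le_iff₀ (by positivity)]
    have h32 : (1 : ℝ) ≤ 32 ^ k := one_le_pow₀ (by norm_num)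
    nlinarith
  -- the pieces
  obtain ⟨rp, hrp1, hrp2⟩ := exists_rep s (lab Lt lam th)
  set P := s.image rp with hP
  have hPs : ∀ p ∈ P, p ∈ s := by
    intro p hp
    obtain ⟨j, hj, rfl⟩ := Finset.mem_image.1 hp
    exact (hrp1 j hj).1
  have hlabP : ∀ p ∈ P, ∀ j ∈ pc rp s p, j ∈ s ∧ lab Lt lam th j = lab Lt lam th p := by
    intro p hp j hj
    unfold pc at hj
    rw [Finset.mem_filter] at hj
    refine ⟨hj.1, ?_⟩
    rw [← hj.2]
    exact (hrp1 j hj.1).2.symm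
  have hinj : ∀ p ∈ P, ∀ p' ∈ P, lab Lt lam th p = lab Lt lam th p' → p = p' := by
    intro p hp p' hp' h
    obtain ⟨j, hj, rfl⟩ := Finset.mem_image.1 hp
    obtain ⟨j', hj', rfl⟩ := Finset.mem_image.1 hp'
    apply hrp2
    rw [(hrp1 j hj).2, (hrp1 j' hj').2] at h
    exact h
  have hpair : ∀ p ∈ P, ∀ p' ∈ P, Pair ch Lt lam th BB (Lt.fr p) (Lt.fr p') (pc rp s p) (pc rp s p') := by
    intro p hp p' hp'
    have hc1 : ∀ p ∈ P, ∀ j ∈ pc rp s p, cbl (sd k th) (Lt.fr j) = cbl (sd k th) (Lt.fr p) := by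
      intro p hp j hj
      have := (hlabP p hp j hj).2
      unfold lab at this
      exact (Prod.mk.inj this).1
    refine ⟨hlam, hth1, hth2, hs p (hPs p hp), hs p' (hPs p' hp'), ?_, ?_, hBB, ?_, ?_⟩
    · intro j hj
      exact ⟨hs j (hlabP p hp j hj).1, (hcg1 k lam th (Lt.fr j) (Lt.fr p) hlam hth1).2.2.2.2.2.2 (hc1 p hp j hj)⟩
    · intro j hj
      exact ⟨hs j (hlabP p' hp' j hj).1, (hcg1 k lam th (Lt.fr j) (Lt.fr p') hlam hth1).2.2.2.2.2.2 (hc1 p' hp' j hj)⟩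
    · intro b
      exact piece_norm ch Lt lam th BB s _ p (hPs p hp) hBH (fun j hj => ⟨(hlabP p hp j hj).1, hc1 p hp j hj⟩) b
    · intro b
      exact piece_norm ch Lt lam th BB s _ p' (hPs p' hp') hBH (fun j hj => ⟨(hlabP p' hp' j hj).1, hc1 p' hp' j hj⟩) b
  -- the amplitude of a pair
  set amp : (Fin (k + 1) → ℤ) → (Fin (k + 1) → ℤ) → EE k → ℝ := fun p p' q =>
    cutq k hc.R_pos q * (am ch f sg lam th (Lt.fr p) q * am ch f sg lam th (Lt.fr p') q) with hamp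
  have hamc : ∀ n : EE (k + 1), Continuous (am ch f sg lam th n) := fun n => cont_am ch hfc sg lam th n
  have hcut : Continuous (cutq k hc.R_pos : EE k → ℝ) := (cutq k hc.R_pos).continuous
  have hampc : ∀ p p', Continuous (amp p p') := by
    intro p p'
    exact hcut.mul ((hamc _).mul (hamc _))
  have ham01 : ∀ (n : EE (k + 1)) (q : EE k), 0 ≤ am ch f sg lam th n q ∧ am ch f sg lam th n q ≤ 1 := by
    intro n q
    unfold am
    exact hfr _
  have hamp1 : ∀ p p' q, |amp p p' q| ≤ 1 := by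
    intro p p' q
    have h1 := ham01 (Lt.fr p) q
    have h2 := ham01 (Lt.fr p') q
    have h3 : 0 ≤ (cutq k hc.R_pos) q := (cutq k hc.R_pos).nonneg
    have h4 : (cutq k hc.R_pos) q ≤ 1 := (cutq k hc.R_pos).le_one
    rw [hamp]
    simp only
    rw [abs_of_nonneg (mul_nonneg h3 (mul_nonneg h1.1 h2.1))]
    exact mul_le_one₀ h4 (mul_nonneg h1.1 h2.1) (mul_le_one₀ h1.2 h2.1 h2.2)
  have hcut0 : ∀ q, cutq k hc.R_pos q ≠ 0 → ‖q‖ ≤ 2 * dl k R := by
    intro q hq
    by_contra hcon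
    push Not at hcon
    apply hq
    apply (cutq k hc.R_pos).zero_of_le_dist
    rw [dist_zero_right]
    show 3 / 2 * dl k R ≤ ‖q‖
    linarith
  have hslab : ∀ (n : EE (k + 1)) (q : EE k), ‖q‖ ≤ 2 * dl k R → am ch f sg lam th n q ≠ 0 →
      |sn ch n q| ≤ 5 * th * lam := by
    intro n q hq hne
    have hcgq := hcg2 k c R M hc ch lam th sg n q hlam hth1 hsg (by linarith)
    have hlt : 0 < lam * th := mul_pos hlam0 hth0
    rcases hf' with h | h
    · rw [h] at hne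
      have := hcgq.1 hne
      rcases hsg with h1 | h1
      · rw [h1, one_mul] at this
        rw [abs_le]
        constructor <;> nlinarith
      · rw [h1] at this
        rw [abs_le]
        constructor <;> nlinarith
    · rw [h] at hne
      have := hcgq.2 hne
      nlinarith
  have hamps : ∀ p p' q, amp p p' q ≠ 0 → ‖q‖ ≤ 2 * dl k R ∧ |sn ch (Lt.fr p) q| ≤ 5 * th * lam ∧
      |sn ch (Lt.fr p') q| ≤ 5 * th * lam := by
    intro p p' q hq
    rw [hamp] at hq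
    simp only at hq
    have h1 := left_ne_zero_of_mul hq
    have h2 := right_ne_zero_of_mul hq
    have hq' := hcut0 q h1
    exact ⟨hq', hslab _ q hq' (left_ne_zero_of_mul h2), hslab _ q hq' (right_ne_zero_of_mul h2)⟩
  -- weights
  set Wt : (Fin (k + 1) → ℤ) → (Fin (k + 1) → ℤ) → ℝ := fun p p' =>
    if K * (th ^ 2)⁻¹ ≤ ‖Lt.fr p - Lt.fr p'‖ then (K * (th ^ 2)⁻¹ / ‖Lt.fr p - Lt.fr p'‖) ^ (2 * k + 3) else 1 with hWt
  set Aa : (Fin (k + 1) → ℤ) → ℝ := fun p => Real.sqrt (∑ j ∈ pc rp s p, ‖a j‖ ^ 2) with hAa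
  have hG : ∀ p ∈ P, ∀ p' ∈ P, ‖∫ q, ((amp p p' q : ℝ) : ℂ) * (es Lt (pc rp s p) a (ch.X q) *
      (starRingEnd ℂ) (es Lt (pc rp s p') a (ch.X q)))‖ ≤ BB * (Wt p p' * (Aa p * Aa p')) := by
    intro p hp p' hp'
    by_cases hfar : K * (th ^ 2)⁻¹ ≤ ‖Lt.fr p - Lt.fr p'‖
    · have h := hPA' A ch Lt lam th BB (Lt.fr p) (Lt.fr p') (pc rp s p) (pc rp s p') a a f sg
        (hpair p hp p' hp') hsg hf hfar
      simp only [hWt, if_pos hfar]
      calc _ ≤ _ := h
        _ = _ := by ring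
    · have h := hCS k c R A M ch Lt lam th BB (Lt.fr p) (Lt.fr p') (pc rp s p) (pc rp s p') (amp p p') a a
        (hpair p hp p' hp') (hampc p p') (hamp1 p p') (hamps p p')
      simp only [hWt, if_neg hfar, one_mul]
      exact h
  have hrow : ∀ p ∈ P, ∑ p' ∈ P, Wt p p' ≤ C1 * K ^ (2 * k + 2) + C2 := by
    intro p hp
    rw [← Finset.sum_filter_add_sum_filter_not P (fun p' => K * (th ^ 2)⁻¹ ≤ ‖Lt.fr p - Lt.fr p'‖)]
    have hlabsub : ∀ (Q : Finset (Fin (k + 1) → ℤ)), Q ⊆ P → ∀ i ∈ Q, ∀ j ∈ Q,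
        cbl (sd k th) (Lt.fr i) = cbl (sd k th) (Lt.fr j) → Nb lam (Lt.fr i) = Nb lam (Lt.fr j) → i = j := by
      intro Q hQ i hi j hj h1 h2
      apply hinj i (hQ hi) j (hQ hj)
      unfold lab
      rw [h1, h2]
    have hfar : ∑ p' ∈ P with K * (th ^ 2)⁻¹ ≤ ‖Lt.fr p - Lt.fr p'‖, Wt p p' ≤ C2 := by
      have h := hPSM' (Fin (k + 1) → ℤ) lam th (P.filter fun p' => K * (th ^ 2)⁻¹ ≤ ‖Lt.fr p - Lt.fr p'‖)
        (fun i => Lt.fr i) (Lt.fr p) hlam hth1 (hlabsub _ (Finset.filter_subset _ _))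
        (fun i hi => (Finset.mem_filter.1 hi).2)
      refine le_trans (le_of_eq ?_) h
      refine Finset.sum_congr rfl fun p' hp' => ?_
      have := (Finset.mem_filter.1 hp').2
      simp only [hWt, if_pos this]
    have hnear : ∑ p' ∈ P with ¬ (K * (th ^ 2)⁻¹ ≤ ‖Lt.fr p - Lt.fr p'‖), Wt p p' ≤ C1 * K ^ (2 * k + 2) := by
      have h := hPC' (Fin (k + 1) → ℤ) lam th K (P.filter fun p' => ¬ (K * (th ^ 2)⁻¹ ≤ ‖Lt.fr p - Lt.fr p'‖))
        (fun i => Lt.fr i) (Lt.fr p) hlam hth1 hK (hlabsub _ (Finset.filter_subset _ _))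
        (fun i hi => by
          have := (Finset.mem_filter.1 hi).2
          push Not at this
          rw [norm_sub_rev]
          exact this.le)
      refine le_trans (le_of_eq ?_) h
      rw [Finset.card_eq_sum_ones]
      push_cast
      refine Finset.sum_congr rfl fun p' hp' => ?_
      have := (Finset.mem_filter.1 hp').2
      simp only [hWt, if_neg this]
    linarith
  have hW0 : ∀ p ∈ P, ∀ p' ∈ P, 0 ≤ Wt p p' := by
    intro p _ p' _
    simp only [hWt]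
    split_ifs
    · positivity
    · norm_num
  have hWs : ∀ p ∈ P, ∀ p' ∈ P, Wt p p' = Wt p' p := by
    intro p _ p' _
    simp only [hWt, norm_sub_rev (Lt.fr p) (Lt.fr p')]
  have hschur := schur_sum P Wt Aa (C1 * K ^ (2 * k + 2) + C2) hW0 hWs hrow
  have hAsum : ∑ p ∈ P, Aa p ^ 2 = ∑ j ∈ s, ‖a j‖ ^ 2 := by
    rw [sum_pieces rp s]
    refine Finset.sum_congr rfl fun p _ => ?_
    simp only [hAa]
    exact Real.sq_sqrt (Finset.sum_nonneg fun j _ => by positivity)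
  -- the function
  set F : EE k → ℂ := fun q => ∑ j ∈ s, (am ch f sg lam th (Lt.fr j) q : ℂ) * (a j * ex (Lt.fr j) (ch.X q)) with hF
  have hFp : ∀ q, F q = ∑ p ∈ P, (am ch f sg lam th (Lt.fr p) q : ℂ) * es Lt (pc rp s p) a (ch.X q) := by
    intro q
    simp only [hF]
    rw [sum_pieces rp s]
    refine Finset.sum_congr rfl fun p hp => ?_
    unfold es
    rw [Finset.mul_sum]
    refine Finset.sum_congr rfl fun j hj => ?_
    have hN : Nb lam (Lt.fr j) = Nb lam (Lt.fr p) := by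
      have := (hlabP p hp j hj).2
      unfold lab at this
      exact (Prod.mk.inj this).2
    unfold am
    rw [hN]
  have hFc : Continuous F := by
    have : F = fun q => ∑ p ∈ P, (am ch f sg lam th (Lt.fr p) q : ℂ) * es Lt (pc rp s p) a (ch.X q) := funext hFp
    rw [this]
    refine continuous_finsetSum _ fun p _ => ?_
    exact (Complex.continuous_ofReal.comp (hamc _)).mul (cont_es ch Lt _ _)
  have hcs : HasCompactSupport (cutq k hc.R_pos : EE k → ℝ) := (cutq k hc.R_pos).hasCompactSupport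
  have hint1 : Integrable fun q => cutq k hc.R_pos q * ‖F q‖ ^ 2 := by
    apply Continuous.integrable_of_hasCompactSupport
    · exact hcut.mul (hFc.norm.pow 2)
    · exact hcs.mul_right
  have hstep1 : ∫ q in Metric.closedBall (0 : EE k) (dl k R), ‖F q‖ ^ 2 ≤ ∫ q, cutq k hc.R_pos q * ‖F q‖ ^ 2 := by
    rw [← integral_indicator Metric.isClosed_closedBall.measurableSet]
    apply integral_mono
    · rw [integrable_indicator_iff Metric.isClosed_closedBall.measurableSet]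
      exact (hFc.norm.pow 2).continuousOn.integrableOn_compact (isCompact_closedBall _ _)
    · exact hint1
    · intro q
      simp only [Set.indicator]
      split_ifs with hq
      · have : cutq k hc.R_pos q = 1 := by
          apply (cutq k hc.R_pos).one_of_mem_closedBall
          exact hq
        rw [this, one_mul]
      · exact mul_nonneg (cutq k hc.R_pos).nonneg (by positivity)
  have hstep2 : ((∫ q, cutq k hc.R_pos q * ‖F q‖ ^ 2 : ℝ) : ℂ) = ∑ p ∈ P, ∑ p' ∈ P,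
      ∫ q, ((amp p p' q : ℝ) : ℂ) * (es Lt (pc rp s p) a (ch.X q) *
        (starRingEnd ℂ) (es Lt (pc rp s p') a (ch.X q))) := by
    rw [← integral_complex_ofReal]
    have hpt : ∀ q, (((cutq k hc.R_pos) q * ‖F q‖ ^ 2 : ℝ) : ℂ) = ∑ p ∈ P, ∑ p' ∈ P,
        ((amp p p' q : ℝ) : ℂ) * (es Lt (pc rp s p) a (ch.X q) *
        (starRingEnd ℂ) (es Lt (pc rp s p') a (ch.X q))) := by
      intro q
      rw [Complex.ofReal_mul, hFp q, norm_sq_sum, Finset.mul_sum]
      refine Finset.sum_congr rfl fun p _ => ?_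
      rw [Finset.mul_sum]
      refine Finset.sum_congr rfl fun p' _ => ?_
      simp only [hamp, map_mul, Complex.conj_ofReal]
      push_cast
      ring
    simp only [hpt]
    have hint : ∀ p p', Integrable fun q => ((amp p p' q : ℝ) : ℂ) * (es Lt (pc rp s p) a (ch.X q) *
        (starRingEnd ℂ) (es Lt (pc rp s p') a (ch.X q))) := by
      intro p p'
      apply Continuous.integrable_of_hasCompactSupport
      · exact (Complex.continuous_ofReal.comp (hampc p p')).mul ((cont_es ch Lt _ _).mul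
          (Complex.continuous_conj.comp (cont_es ch Lt _ _)))
      · apply HasCompactSupport.mul_right
        have : HasCompactSupport (amp p p') := hcs.mul_right
        exact this.comp_left Complex.ofReal_zero
    rw [integral_finsetSum _ fun p _ => integrable_finsetSum _ fun p' _ => hint p p']
    refine Finset.sum_congr rfl fun p _ => ?_
    rw [integral_finsetSum _ fun p' _ => hint p p']
  have hnn : 0 ≤ ∫ q, cutq k hc.R_pos q * ‖F q‖ ^ 2 :=
    integral_nonneg fun q => mul_nonneg (cutq k hc.R_pos).nonneg (by positivity)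
  have hstep3 : ∫ q, cutq k hc.R_pos q * ‖F q‖ ^ 2 ≤
      ∑ p ∈ P, ∑ p' ∈ P, BB * (Wt p p' * (Aa p * Aa p')) := by
    have h1 : (∫ q, cutq k hc.R_pos q * ‖F q‖ ^ 2) = ‖((∫ q, cutq k hc.R_pos q * ‖F q‖ ^ 2 : ℝ) : ℂ)‖ := by
      rw [Complex.norm_real, Real.norm_eq_abs, abs_of_nonneg hnn]
    rw [h1, hstep2]
    refine (norm_sum_le _ _).trans (Finset.sum_le_sum fun p hp => ?_)
    exact (norm_sum_le _ _).trans (Finset.sum_le_sum fun p' hp' => hG p hp p' hp')
  calc ∫ q in Metric.closedBall (0 : EE k) (dl k R), ‖F q‖ ^ 2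
      ≤ ∑ p ∈ P, ∑ p' ∈ P, BB * (Wt p p' * (Aa p * Aa p')) := hstep1.trans hstep3
    _ = BB * ∑ p ∈ P, ∑ p' ∈ P, Wt p p' * (Aa p * Aa p') := by
        rw [Finset.mul_sum]
        exact Finset.sum_congr rfl fun p _ => by rw [Finset.mul_sum]
    _ ≤ BB * ((C1 * K ^ (2 * k + 2) + C2) * ∑ p ∈ P, Aa p ^ 2) := mul_le_mul_of_nonneg_left hschur hBB
    _ = (C1 * K ^ (2 * k + 2) + C2) * BB * ∑ j ∈ s, ‖a j‖ ^ 2 := by rw [hAsum]; ring

end Pool.Agent.Lib.MP_a8dae7_an.UN.OM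
end
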