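import Pool.Agent.Lib.MP_a8dae7_an.UN.SpecB

section
/-!
# MP_a8dae7_an, UN: module MB (block estimate with a rational direction), from FD, PL, `UU m`.
-/
set_option autoImplicit false

open MeasureTheory
open scoped ContDiff

namespace Pool.Agent.Lib.MP_a8dae7_an.UN.MBM

open Pool.Agent.Lib.MP_a8dae7_an.CV (EE zv ex pq pi2 AA sl bm)
open Pool.Agent.Lib.MP_a8dae7_an.UN

lemma ex_iota {n : ℕ} (v : EE (n + 1)) (hv : v ≠ 0) :
    ∃ iota : EE n →ₗᵢ[ℝ] EE (n + 1), ∀ x, inner ℝ v (iota x) = 0 := by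
  have hf : Module.finrank ℝ (Submodule.span ℝ {v})ᗮ = n := by
    have : Fact (Module.finrank ℝ (EE (n + 1)) = n + 1) := ⟨by simp⟩
    exact Submodule.finrank_orthogonal_span_singleton hv
  let b := (stdOrthonormalBasis ℝ (Submodule.span ℝ {v})ᗮ).reindex (finCongr hf)
  refine ⟨(Submodule.span ℝ {v})ᗮ.subtypeₗᵢ.comp b.repr.symm.toLinearIsometry, fun x => ?_⟩
  exact Submodule.mem_orthogonal_singleton_iff_inner_right.1 (b.repr.symm x).2

/-- the integer `⟨j, z⟩` -/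
def dt {D : ℕ} (j z : Fin D → ℤ) : ℤ := ∑ i, j i * z i

lemma inner_fr_du {D : ℕ} {A : ℝ} (Lt : Lat D A) (j z : Fin D → ℤ) :
    inner ℝ (Lt.fr j) (Lt.du z) = 2 * Real.pi * (dt j z : ℝ) + inner ℝ Lt.a0 (Lt.du z) := by
  unfold Lat.fr
  rw [inner_add_left]
  congr 1
  unfold Lat.du
  rw [inner_smul_right, ContinuousLinearMap.adjoint_inner_right]
  have h1 : (Lt.B.symm : EE D →L[ℝ] EE D) (Lt.B (zv j)) = zv j := by simp
  rw [h1]
  congr 1
  unfold zv dt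
  rw [PiLp.inner_apply]
  push_cast
  refine Finset.sum_congr rfl fun i _ => ?_
  simp [mul_comm]

lemma zv_ne {D : ℕ} {z : Fin D → ℤ} (hz : z ≠ 0) : zv z ≠ 0 := by
  intro h
  apply hz
  funext i
  have := congrArg (fun x : EE D => x i) h
  simp only [zv] at this
  simpa using this

lemma du_ne {D : ℕ} {A : ℝ} (Lt : Lat D A) {z : Fin D → ℤ} (hz : z ≠ 0) : Lt.du z ≠ 0 := by
  intro h
  unfold Lat.du at h
  have h2 : ContinuousLinearMap.adjoint (Lt.B.symm : EE D →L[ℝ] EE D) (zv z) = 0 := by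
    rcases smul_eq_zero.1 h with h | h
    · exact absurd h (by positivity)
    · exact h
  have h3 : inner ℝ (zv z) ((Lt.B.symm : EE D →L[ℝ] EE D) (Lt.B (zv z))) = 0 := by
    rw [← ContinuousLinearMap.adjoint_inner_left, h2, inner_zero_left]
  have h1 : (Lt.B.symm : EE D →L[ℝ] EE D) (Lt.B (zv z)) = zv z := by simp
  rw [h1] at h3
  exact zv_ne hz (inner_self_eq_zero.1 h3)

/-- number of integers in an interval -/
lemma card_int (T : Finset ℤ) (x l : ℝ) (hl : 0 ≤ l) (h : ∀ N ∈ T, x ≤ (N : ℝ) ∧ (N : ℝ) ≤ x + l) :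
    (T.card : ℝ) ≤ 1 + l := by
  have h1 : T ⊆ Finset.Icc ⌈x⌉ ⌊x + l⌋ := by
    intro N hN
    rw [Finset.mem_Icc]
    exact ⟨Int.ceil_le.2 (h N hN).1, Int.le_floor.2 (h N hN).2⟩
  have h2 := Finset.card_le_card h1
  rw [Int.card_Icc] at h2
  by_cases h3 : T.card = 0
  · rw [h3]; simp; linarith
  · have h4 : 0 < (⌊x + l⌋ + 1 - ⌈x⌉).toNat := by omega
    have h5 : ((⌊x + l⌋ + 1 - ⌈x⌉).toNat : ℤ) = ⌊x + l⌋ + 1 - ⌈x⌉ := by
      apply Int.toNat_of_nonneg; omega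
    have h6 : ((⌊x + l⌋ + 1 - ⌈x⌉).toNat : ℝ) = (⌊x + l⌋ : ℝ) + 1 - (⌈x⌉ : ℝ) := by
      exact_mod_cast h5
    have h7 : (T.card : ℝ) ≤ ((⌊x + l⌋ + 1 - ⌈x⌉).toNat : ℝ) := by exact_mod_cast h2
    rw [h6] at h7
    have := Int.floor_le (x + l)
    have := Int.le_ceil x
    linarith

/-- Cauchy-Schwarz over the fibres of a label -/
lemma cs_fib {ι : Type} {κ : Type} [DecidableEq κ] (s : Finset ι) (g : ι → κ) (f : ι → ℂ) :
    ‖∑ j ∈ s, f j‖ ^ 2 ≤ ((s.image g).card : ℝ) * ∑ N ∈ s.image g, ‖∑ j ∈ s with g j = N, f j‖ ^ 2 := by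
  have h1 : ∑ j ∈ s, f j = ∑ N ∈ s.image g, ∑ j ∈ s with g j = N, f j :=
    (Finset.sum_fiberwise_of_maps_to (fun j hj => Finset.mem_image_of_mem g hj) f).symm
  rw [h1]
  calc ‖∑ N ∈ s.image g, ∑ j ∈ s with g j = N, f j‖ ^ 2
      ≤ (∑ N ∈ s.image g, ‖∑ j ∈ s with g j = N, f j‖) ^ 2 := by
        gcongr; exact norm_sum_le _ _
    _ ≤ _ := by
        have := sq_sum_le_card_mul_sum_sq (s := s.image g) (f := fun N => ‖∑ j ∈ s with g j = N, f j‖)
        exact this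

lemma cont_es {D : ℕ} {A : ℝ} (Lt : Lat D A) (s : Finset (Fin D → ℤ)) (a : (Fin D → ℤ) → ℂ) :
    Continuous (es Lt s a) := by
  unfold es ex
  fun_prop

/-- number of planes -/
lemma card_planes {D : ℕ} {A : ℝ} (Lt : Lat D A) (z0 : Fin D → ℤ) (hz : z0 ≠ 0) (lam rho sg : ℝ)
    (s : Finset (Fin D → ℤ)) (hlam : 1 ≤ lam) (hsg : sg = 1 ∨ sg = -1)
    (hs : ∀ j ∈ s, ‖Lt.fr j‖ = lam ∧ ‖Lt.fr j - (sg * lam / ‖Lt.du z0‖) • Lt.du z0‖ ≤ rho) :
    ((s.image fun j => dt j z0).card : ℝ) ≤ 1 + ‖Lt.du z0‖ * rho ^ 2 / lam := by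
  have hl0 : 0 < lam := by linarith
  have hD : 0 < ‖Lt.du z0‖ := norm_pos_iff.2 (du_ne Lt hz)
  set du := Lt.du z0 with hdu
  set D0 := ‖du‖ with hD0
  have hsg2 : sg ^ 2 = 1 := by rcases hsg with h | h <;> rw [h] <;> norm_num
  -- value of the pairing
  have key : ∀ j ∈ s, ∃ y : ℝ, 0 ≤ y ∧ y ≤ D0 * rho ^ 2 / (2 * lam) ∧
      2 * Real.pi * (dt j z0 : ℝ) + inner ℝ Lt.a0 du = sg * lam * D0 - sg * y := by
    intro j hj
    obtain ⟨h1, h2⟩ := hs j hj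
    set x := Lt.fr j - (sg * lam / D0) • du with hx
    have hfr : Lt.fr j = (sg * lam / D0) • du + x := by rw [hx]; abel
    have h3 : ‖Lt.fr j‖ ^ 2 = lam ^ 2 + 2 * (sg * lam / D0) * inner ℝ du x + ‖x‖ ^ 2 := by
      rw [hfr, norm_add_sq_real, norm_smul, inner_smul_left, mul_pow, Real.norm_eq_abs, sq_abs]
      have : (sg * lam / D0) ^ 2 * ‖du‖ ^ 2 = lam ^ 2 := by
        rw [div_pow, mul_pow, hsg2, ← hD0]; field_simp
      rw [this]
      simp; ring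
    rw [h1] at h3
    have h4 : inner ℝ du x = -(sg * (D0 * ‖x‖ ^ 2 / (2 * lam))) := by
      have h5 : 2 * (sg * lam / D0) * inner ℝ du x = - ‖x‖ ^ 2 := by linarith
      have h6 : (sg * lam / D0) ≠ 0 := by
        have : sg ≠ 0 := by rcases hsg with h | h <;> rw [h] <;> norm_num
        positivity
      have h7 : sg * (2 * (sg * lam / D0) * inner ℝ du x) = sg * (- ‖x‖ ^ 2) := by rw [h5]
      have h8 : sg * (2 * (sg * lam / D0) * inner ℝ du x) = 2 * (lam / D0) * inner ℝ du x := by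
        have : sg * (2 * (sg * lam / D0) * inner ℝ du x) = sg ^ 2 * (2 * (lam / D0) * inner ℝ du x) := by ring
        rw [this, hsg2, one_mul]
      rw [h8] at h7
      have h9 : inner ℝ du x = (sg * (- ‖x‖ ^ 2)) / (2 * (lam / D0)) := by
        rw [← h7]; field_simp
      rw [h9]; field_simp
    refine ⟨D0 * ‖x‖ ^ 2 / (2 * lam), by positivity, by gcongr, ?_⟩
    rw [← inner_fr_du, hfr, inner_add_left, inner_smul_left, real_inner_self_eq_norm_sq, ← hdu,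
      real_inner_comm, h4, ← hD0]
    simp
    field_simp
    ring
  have hpi := Real.pi_gt_three
  rcases hsg with h | h
  · have := card_int (s.image fun j => dt j z0)
      ((lam * D0 - D0 * rho ^ 2 / (2 * lam) - inner ℝ Lt.a0 du) / (2 * Real.pi))
      (D0 * rho ^ 2 / (2 * lam) / (2 * Real.pi)) (by positivity) ?_
    · refine this.trans ?_
      gcongr 1 + ?_
      rw [div_div, div_le_div_iff₀ (by positivity) hl0]
      have : 0 ≤ D0 * rho ^ 2 * lam := by positivity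
      nlinarith
    · intro N hN
      rw [Finset.mem_image] at hN
      obtain ⟨j, hj, rfl⟩ := hN
      obtain ⟨y, hy0, hy1, hy2⟩ := key j hj
      rw [h] at hy2
      constructor
      · rw [div_le_iff₀ (by positivity)]
        linarith
      · rw [← add_div, le_div_iff₀ (by positivity)]
        linarith
  · have := card_int (s.image fun j => dt j z0)
      ((-(lam * D0) - inner ℝ Lt.a0 du) / (2 * Real.pi))
      (D0 * rho ^ 2 / (2 * lam) / (2 * Real.pi)) (by positivity) ?_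
    · refine this.trans ?_
      gcongr 1 + ?_
      rw [div_div, div_le_div_iff₀ (by positivity) hl0]
      have : 0 ≤ D0 * rho ^ 2 * lam := by positivity
      nlinarith
    · intro N hN
      rw [Finset.mem_image] at hN
      obtain ⟨j, hj, rfl⟩ := hN
      obtain ⟨y, hy0, hy1, hy2⟩ := key j hj
      rw [h] at hy2
      constructor
      · rw [div_le_iff₀ (by positivity)]
        linarith
      · rw [← add_div, le_div_iff₀ (by positivity)]
        linarith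

/-- `∫_0^X h^(-1/2) dh = 2 √X` -/
lemma lint_sqrt (X : ℝ) (hX : 0 ≤ X) :
    ∫⁻ h in Set.Ioc (0 : ℝ) X, ENNReal.ofReal (Real.sqrt h)⁻¹ = ENNReal.ofReal (2 * Real.sqrt X) := by
  have h1 : ∀ h : ℝ, (Real.sqrt h)⁻¹ = h ^ (-(1 / 2) : ℝ) ∨ h < 0 := by
    intro h
    rcases lt_or_ge h 0 with h0 | h0
    · exact Or.inr h0
    · left; rw [Real.sqrt_eq_rpow, ← Real.rpow_neg h0]
  have hint : IntervalIntegrable (fun h : ℝ => h ^ (-(1 / 2) : ℝ)) volume 0 X :=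
    intervalIntegral.intervalIntegrable_rpow' (by norm_num)
  have hint2 := (intervalIntegrable_iff_integrableOn_Ioc_of_le hX).1 hint
  have h2 : ∫⁻ h in Set.Ioc (0 : ℝ) X, ENNReal.ofReal (Real.sqrt h)⁻¹ =
      ∫⁻ h in Set.Ioc (0 : ℝ) X, ENNReal.ofReal (h ^ (-(1 / 2) : ℝ)) := by
    refine setLIntegral_congr_fun measurableSet_Ioc fun h hh => ?_
    rcases h1 h with h | h
    · simp only [h]
    · exact absurd hh.1 (by linarith)
  rw [h2, ← ofReal_integral_eq_lintegral_ofReal hint2, ← intervalIntegral.integral_of_le hX,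
    integral_rpow (Or.inl (by norm_num))]
  · congr 1
    rw [Real.zero_rpow (by norm_num), Real.sqrt_eq_rpow]
    norm_num
    ring
  · filter_upwards [ae_restrict_mem measurableSet_Ioc] with h hh
    exact Real.rpow_nonneg hh.1.le _

/-- a sum over `s` as an exponential sum over the image -/
lemma es_image {D D' : ℕ} {A : ℝ} (Lt' : Lat D' A) (s : Finset (Fin D → ℤ)) (g : (Fin D → ℤ) → (Fin D' → ℤ))
    (hg : Set.InjOn g s) (b : (Fin D → ℤ) → ℂ) : ∃ b' : (Fin D' → ℤ) → ℂ,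
    (∀ y, ∑ j ∈ s, b j * ex (Lt'.fr (g j)) y = es Lt' (s.image g) b' y) ∧
    ∑ w ∈ s.image g, ‖b' w‖ ^ 2 = ∑ j ∈ s, ‖b j‖ ^ 2 := by
  classical
  have hinv : ∀ j ∈ s, Function.invFunOn g (s : Set (Fin D → ℤ)) (g j) = j := by
    intro j hj
    exact hg.leftInvOn_invFunOn hj
  refine ⟨fun w => b (Function.invFunOn g (s : Set (Fin D → ℤ)) w), fun y => ?_, ?_⟩
  · unfold es
    rw [Finset.sum_image hg]
    refine Finset.sum_congr rfl fun j hj => ?_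
    simp only [hinv j hj]
  · rw [Finset.sum_image hg]
    refine Finset.sum_congr rfl fun j hj => ?_
    simp only [hinv j hj]

lemma norm_ex {D : ℕ} (n x : EE D) : ‖ex n x‖ = 1 := by
  unfold ex
  rw [mul_comm, Complex.norm_exp_ofReal_mul_I]

lemma ex_add {D : ℕ} (n x y : EE D) : ex n (x + y) = ex n x * ex n y := by
  unfold ex
  rw [← Complex.exp_add, inner_add_right]
  push_cast; ring_nf

lemma ex_add_left {D : ℕ} (n n' x : EE D) : ex (n + n') x = ex n x * ex n' x := by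
  unfold ex
  rw [← Complex.exp_add, inner_add_left]
  push_cast; ring_nf

/-- one plane -/
lemma plane {m : ℕ} {c R A A' : ℝ} {M : ℕ → ℝ} (ch : UChart (m + 1) c R M) (Lt : Lat (m + 2) A)
    (zet : EE (m + 2)) (iota : EE (m + 1) →ₗᵢ[ℝ] EE (m + 2)) (th C1 C2 : ℝ) (hC1 : 0 < C1)
    (ch' : UChart m c (R / 8) (fun j => 2 ^ j * M j))
    (hdom : ∀ F : EE (m + 1) → ENNReal, Measurable F →
      ∫⁻ q in {q : EE (m + 1) | ‖q‖ ≤ 2 * dl (m + 1) R ∧ |inner ℝ (ch.nu - ch.J q) zet| ≤ th},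
        F (ContinuousLinearMap.adjoint iota.toContinuousLinearMap (ch.X q)) ≤
      ENNReal.ofReal C1 * ∫⁻ h in Set.Ioc (0 : ℝ) (C1 * th ^ 2), ENNReal.ofReal (Real.sqrt h)⁻¹ *
        ∫⁻ b in Metric.closedBall (0 : EE m) (dl m (R / 8)), F (ch'.X b + h • ch'.nu))
    (Lt' : Lat (m + 1) A')
    (hU : ∀ (lam' : ℝ) (s' : Finset (Fin (m + 1) → ℤ)) (a' : (Fin (m + 1) → ℤ) → ℂ), 0 ≤ lam' →
      (∀ j ∈ s', ‖Lt'.fr j‖ = lam') →
      ∫ q in Metric.closedBall (0 : EE m) (dl m (R / 8)), ‖es Lt' s' a' (ch'.X q)‖ ^ 2 ≤ C2 * ∑ j ∈ s', ‖a' j‖ ^ 2)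
    (g : (Fin (m + 2) → ℤ) → (Fin (m + 1) → ℤ)) (s : Finset (Fin (m + 2) → ℤ)) (hg : Set.InjOn g s) (w : EE (m + 2))
    (hfr : ∀ j ∈ s, iota (Lt'.fr (g j)) = Lt.fr j - w) (lam' : ℝ) (h0 : 0 ≤ lam')
    (hlam' : ∀ j ∈ s, ‖Lt'.fr (g j)‖ = lam') (a : (Fin (m + 2) → ℤ) → ℂ) :
    ∫⁻ q in {q : EE (m + 1) | ‖q‖ ≤ 2 * dl (m + 1) R ∧ |inner ℝ (ch.nu - ch.J q) zet| ≤ th},
      ENNReal.ofReal (‖es Lt s a (ch.X q)‖ ^ 2) ≤
    ENNReal.ofReal (C1 * (2 * Real.sqrt (C1 * th ^ 2)) * (C2 * ∑ j ∈ s, ‖a j‖ ^ 2)) := by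
  classical
  set G : EE (m + 1) → ℂ := fun y => ∑ j ∈ s, a j * ex (Lt'.fr (g j)) y with hG
  have hGc : Continuous G := by
    rw [hG]; unfold ex; fun_prop
  have hFm : Measurable fun y => ENNReal.ofReal (‖G y‖ ^ 2) :=
    ((hGc.norm.pow 2).measurable).ennreal_ofReal
  have h1 : ∀ q, ‖es Lt s a (ch.X q)‖ =
      ‖G (ContinuousLinearMap.adjoint iota.toContinuousLinearMap (ch.X q))‖ := by
    intro q
    have : es Lt s a (ch.X q) = ex w (ch.X q) *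
        G (ContinuousLinearMap.adjoint iota.toContinuousLinearMap (ch.X q)) := by
      unfold es
      rw [hG]
      simp only
      rw [Finset.mul_sum]
      refine Finset.sum_congr rfl fun j hj => ?_
      have h2 : Lt.fr j = iota (Lt'.fr (g j)) + w := by rw [hfr j hj]; abel
      rw [h2, ex_add_left]
      have h3 : ex (iota (Lt'.fr (g j))) (ch.X q) =
          ex (Lt'.fr (g j)) (ContinuousLinearMap.adjoint iota.toContinuousLinearMap (ch.X q)) := by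
        unfold ex
        rw [ContinuousLinearMap.adjoint_inner_right]
        rfl
      rw [h3]; ring
    rw [this, norm_mul, norm_ex, one_mul]
  simp only [h1]
  refine (hdom (fun y => ENNReal.ofReal (‖G y‖ ^ 2)) hFm).trans ?_
  have h4 : ∀ h : ℝ, ∫⁻ b in Metric.closedBall (0 : EE m) (dl m (R / 8)),
      ENNReal.ofReal (‖G (ch'.X b + h • ch'.nu)‖ ^ 2) ≤ ENNReal.ofReal (C2 * ∑ j ∈ s, ‖a j‖ ^ 2) := by
    intro h
    obtain ⟨b', hb1, hb2⟩ := es_image Lt' s g hg (fun j => a j * ex (Lt'.fr (g j)) (h • ch'.nu))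
    have h5 : ∀ b, G (ch'.X b + h • ch'.nu) = es Lt' (s.image g) b' (ch'.X b) := by
      intro b
      rw [← hb1, hG]
      simp only
      refine Finset.sum_congr rfl fun j _ => ?_
      rw [ex_add]; ring
    simp only [h5]
    have hc : Continuous fun b => ‖es Lt' (s.image g) b' (ch'.X b)‖ ^ 2 := by
      have := (cont_es Lt' (s.image g) b').comp ch'.smooth.continuous
      exact (this.norm).pow 2
    rw [← ofReal_integral_eq_lintegral_ofReal]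
    · apply ENNReal.ofReal_le_ofReal
      refine (hU lam' (s.image g) b' h0 ?_).trans ?_
      · intro j hj
        rw [Finset.mem_image] at hj
        obtain ⟨i, hi, rfl⟩ := hj
        exact hlam' i hi
      · rw [hb2]
        have : ∀ j, ‖a j * ex (Lt'.fr (g j)) (h • ch'.nu)‖ = ‖a j‖ := by
          intro j; rw [norm_mul, norm_ex, mul_one]
        simp only [this]; exact le_rfl
    · exact (hc.continuousOn.integrableOn_compact (isCompact_closedBall _ _))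
    · exact Filter.Eventually.of_forall fun b => by positivity
  calc ENNReal.ofReal C1 * ∫⁻ h in Set.Ioc (0 : ℝ) (C1 * th ^ 2), ENNReal.ofReal (Real.sqrt h)⁻¹ *
        ∫⁻ b in Metric.closedBall (0 : EE m) (dl m (R / 8)), ENNReal.ofReal (‖G (ch'.X b + h • ch'.nu)‖ ^ 2)
      ≤ ENNReal.ofReal C1 * ∫⁻ h in Set.Ioc (0 : ℝ) (C1 * th ^ 2), ENNReal.ofReal (Real.sqrt h)⁻¹ *
        ENNReal.ofReal (C2 * ∑ j ∈ s, ‖a j‖ ^ 2) := by
        gcongr with h
        exact h4 h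
    _ = ENNReal.ofReal C1 * (ENNReal.ofReal (2 * Real.sqrt (C1 * th ^ 2)) *
        ENNReal.ofReal (C2 * ∑ j ∈ s, ‖a j‖ ^ 2)) := by
        rw [lintegral_mul_const _ (by fun_prop), lint_sqrt _ (by positivity)]
    _ = _ := by
        rw [← mul_assoc, ← ENNReal.ofReal_mul hC1.le, ← ENNReal.ofReal_mul (by positivity)]

/-- **MB** -/
theorem specMB (m : ℕ) (hFD : SpecFD) (hPL : SpecPL) (hU : UU m) : SpecMB m := by
  classical
  intro c R A M hc hA
  obtain ⟨C1, c8, hC1, hc8, hfd⟩ := hFD m c R M hc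
  have hc' : Cls c (R / 8) (fun j => 2 ^ j * M j) := by
    refine ⟨hc.c_pos, by have := hc.R_pos; positivity, ?_, ?_⟩
    · have := hc.R_le; have := hc.R_pos; linarith
    · have := hc.M2
      have h2 := hc.c_pos
      nlinarith
  have hA' : 1 ≤ ((m + 1 : ℕ) + 1 : ℝ) * A := by
    have : (1 : ℝ) ≤ ((m + 1 : ℕ) + 1 : ℝ) := by
      have : (0 : ℝ) ≤ ((m + 1 : ℕ) : ℝ) := by positivity
      linarith
    nlinarith
  obtain ⟨C2, hC2, hu⟩ := hU (((m + 1 : ℕ) + 1 : ℝ) * A) c (R / 8) (fun j => 2 ^ j * M j) hA' hc'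
  refine ⟨C1 * (2 * Real.sqrt C1) * C2, c8, by positivity, hc8, ?_⟩
  intro ch hdm Lt z0 lam rho th sg s a hz hlam hrho hth hth8 hsg hs
  have hdu : 0 < ‖Lt.du z0‖ := norm_pos_iff.2 (du_ne Lt hz)
  set du := Lt.du z0 with hdudef
  set zet : EE (m + 2) := ‖du‖⁻¹ • du with hzet
  have hzet1 : ‖zet‖ = 1 := by
    rw [hzet, norm_smul, norm_inv, norm_norm]; field_simp
  obtain ⟨iota, hiota⟩ := ex_iota du (du_ne Lt hz)
  have hiz : ∀ x, inner ℝ zet (iota x) = 0 := by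
    intro x; rw [hzet, inner_smul_left, hiota x]; simp
  have hreg : {q : EE (m + 1) | ‖q‖ ≤ 2 * dl (m + 1) R ∧ |inner ℝ (ch.nu - ch.J q) du| ≤ th * ‖du‖} =
      {q : EE (m + 1) | ‖q‖ ≤ 2 * dl (m + 1) R ∧ |inner ℝ (ch.nu - ch.J q) zet| ≤ th} := by
    ext q
    simp only [Set.mem_ofPred_eq]
    have : inner ℝ (ch.nu - ch.J q) zet = ‖du‖⁻¹ * inner ℝ (ch.nu - ch.J q) du := by
      rw [hzet, inner_smul_right]
    rw [this, abs_mul, abs_inv, abs_norm, inv_mul_le_iff₀ hdu, mul_comm ‖du‖ th]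
  rw [hreg]
  set Rg := {q : EE (m + 1) | ‖q‖ ≤ 2 * dl (m + 1) R ∧ |inner ℝ (ch.nu - ch.J q) zet| ≤ th} with hRg
  have hRm : MeasurableSet Rg := by
    have hJ : Continuous fun q : EE (m + 1) => ch.J q := ch.J.continuous
    have h2 : Continuous fun q : EE (m + 1) => |inner ℝ (ch.nu - ch.J q) zet| := by fun_prop
    exact (measurableSet_le continuous_norm.measurable measurable_const).inter
      (measurableSet_le h2.measurable measurable_const)
  have hSa : 0 ≤ ∑ j ∈ s, ‖a j‖ ^ 2 := by positivity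
  have hX : 0 ≤ C1 * (2 * Real.sqrt C1) * C2 * th * (1 + ‖du‖ * rho ^ 2 / lam) * ∑ j ∈ s, ‖a j‖ ^ 2 := by
    have : 0 ≤ ‖du‖ * rho ^ 2 / lam := by positivity
    positivity
  rcases hfd ch zet iota th hzet1 hiz hth hth8 with hempty | ⟨ch', hdm', hdom⟩
  · have : Rg = ∅ := by
      rw [Set.eq_empty_iff_forall_notMem]
      rintro q ⟨h1, h2⟩
      exact absurd h2 (not_le.2 (hempty q h1))
    rw [this, setIntegral_empty]
    exact hX
  -- labels
  have hlam0 : 0 < lam := by linarith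
  have hcard := card_planes Lt z0 hz lam rho sg s hlam hsg (by rw [← hdudef]; exact hs)
  rw [← hdudef] at hcard
  have hpl : ∀ N : ℤ, ∫⁻ q in Rg, ENNReal.ofReal (‖∑ j ∈ s with dt j z0 = N, a j * ex (Lt.fr j) (ch.X q)‖ ^ 2) ≤
      ENNReal.ofReal (C1 * (2 * Real.sqrt (C1 * th ^ 2)) * (C2 * ∑ j ∈ s with dt j z0 = N, ‖a j‖ ^ 2)) := by
    intro N
    set sN := s.filter (fun j => dt j z0 = N) with hsN
    set p : ℝ := 2 * Real.pi * (N : ℝ) + inner ℝ Lt.a0 du with hp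
    have hpp : ∀ j ∈ sN, inner ℝ (Lt.fr j) (Lt.du z0) = p := by
      intro j hj
      rw [hsN, Finset.mem_filter] at hj
      rw [inner_fr_du, hj.2]
    obtain ⟨Lt', g, hg, hfr⟩ := hPL (m + 1) A (by omega) hA Lt z0 hz iota hiota sN p hpp
    have hdmm : Dm ch' (1 / (8 * (m + 1).factorial * (((m + 1 : ℕ) + 1 : ℝ) * A))) := by
      apply hdm'
      have : (1 : ℝ) / (8 * (m + 1).factorial * (((m + 1 : ℕ) + 1 : ℝ) * A)) =
          1 / (8 * (m + 2).factorial * A) := by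
        rw [Nat.factorial_succ (m + 1)]
        push_cast
        ring_nf
      rw [this]
      exact hdm
    have hU' := hu ch' hdmm Lt'
    set w : EE (m + 2) := (p / ‖du‖ ^ 2) • du with hw
    have hnorm : ∀ j ∈ sN, ‖Lt'.fr (g j)‖ = Real.sqrt (lam ^ 2 - p ^ 2 / ‖du‖ ^ 2) := by
      intro j hj
      have h1 := hfr j hj
      have h2 : ‖iota (Lt'.fr (g j))‖ ^ 2 = lam ^ 2 - p ^ 2 / ‖du‖ ^ 2 := by
        rw [h1, hw, norm_sub_sq_real, norm_smul, inner_smul_right, hdudef, hpp j hj, ← hdudef]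
        rw [hsN, Finset.mem_filter] at hj
        rw [(hs j hj.1).1, Real.norm_eq_abs, mul_pow, sq_abs]
        field_simp
        ring
      rw [← h2, Real.sqrt_sq (norm_nonneg _), LinearIsometry.norm_map]
    have := plane ch Lt zet iota th C1 C2 hC1 ch' hdom Lt' hU' g sN hg w
      (by intro j hj; rw [hfr j hj, hw, hdudef]) _ (Real.sqrt_nonneg _) hnorm a
    exact this
  -- sum over the planes
  set T := s.image (fun j => dt j z0) with hT
  have hsq : Real.sqrt (C1 * th ^ 2) = Real.sqrt C1 * th := by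
    rw [Real.sqrt_mul hC1.le, Real.sqrt_sq hth.le]
  have hcont : Continuous fun q => ‖es Lt s a (ch.X q)‖ ^ 2 := by
    have := (cont_es Lt s a).comp ch.smooth.continuous
    exact (this.norm).pow 2
  have hl : ∫⁻ q in Rg, ENNReal.ofReal (‖es Lt s a (ch.X q)‖ ^ 2) ≤
      ENNReal.ofReal (C1 * (2 * Real.sqrt C1) * C2 * th * (1 + ‖du‖ * rho ^ 2 / lam) * ∑ j ∈ s, ‖a j‖ ^ 2) := by
    calc ∫⁻ q in Rg, ENNReal.ofReal (‖es Lt s a (ch.X q)‖ ^ 2)
        ≤ ∫⁻ q in Rg, ENNReal.ofReal (T.card : ℝ) *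
          ∑ N ∈ T, ENNReal.ofReal (‖∑ j ∈ s with dt j z0 = N, a j * ex (Lt.fr j) (ch.X q)‖ ^ 2) := by
          refine lintegral_mono fun q => ?_
          have := cs_fib s (fun j => dt j z0) (fun j => a j * ex (Lt.fr j) (ch.X q))
          have h9 := ENNReal.ofReal_le_ofReal this
          rw [ENNReal.ofReal_mul (Nat.cast_nonneg _), ENNReal.ofReal_sum_of_nonneg (fun _ _ => sq_nonneg _)] at h9
          exact h9
      _ = ENNReal.ofReal (T.card : ℝ) * ∑ N ∈ T, ∫⁻ q in Rg,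
          ENNReal.ofReal (‖∑ j ∈ s with dt j z0 = N, a j * ex (Lt.fr j) (ch.X q)‖ ^ 2) := by
          have hm : ∀ N : ℤ, Measurable fun q =>
              ENNReal.ofReal (‖∑ j ∈ s with dt j z0 = N, a j * ex (Lt.fr j) (ch.X q)‖ ^ 2) := by
            intro N
            have h1 := ch.smooth.continuous
            have h2 : Continuous fun q => ‖∑ j ∈ s with dt j z0 = N, a j * ex (Lt.fr j) (ch.X q)‖ ^ 2 := by
              unfold ex
              fun_prop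
            exact h2.measurable.ennreal_ofReal
          rw [lintegral_const_mul _ (Finset.measurable_sum _ fun N _ => hm N), lintegral_finsetSum _ fun N _ => hm N]
      _ ≤ ENNReal.ofReal (T.card : ℝ) * ∑ N ∈ T,
          ENNReal.ofReal (C1 * (2 * Real.sqrt (C1 * th ^ 2)) * (C2 * ∑ j ∈ s with dt j z0 = N, ‖a j‖ ^ 2)) := by
          gcongr with N
          exact hpl N
      _ = ENNReal.ofReal ((T.card : ℝ) * (C1 * (2 * Real.sqrt (C1 * th ^ 2)) * (C2 * ∑ j ∈ s, ‖a j‖ ^ 2))) := by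
          have hnn : ∀ N ∈ T, 0 ≤ C1 * (2 * Real.sqrt (C1 * th ^ 2)) * (C2 * ∑ j ∈ s with dt j z0 = N, ‖a j‖ ^ 2) := by
            intro N _
            exact mul_nonneg (mul_nonneg hC1.le (mul_nonneg two_pos.le (Real.sqrt_nonneg _)))
              (mul_nonneg hC2.le (Finset.sum_nonneg fun _ _ => sq_nonneg _))
          rw [← ENNReal.ofReal_sum_of_nonneg hnn, ← ENNReal.ofReal_mul (Nat.cast_nonneg _)]
          congr 1
          rw [← Finset.mul_sum, ← Finset.mul_sum, hT,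
            Finset.sum_fiberwise_of_maps_to (fun j hj => Finset.mem_image_of_mem _ hj)]
      _ ≤ _ := by
          apply ENNReal.ofReal_le_ofReal
          rw [hsq]
          calc (T.card : ℝ) * (C1 * (2 * (Real.sqrt C1 * th)) * (C2 * ∑ j ∈ s, ‖a j‖ ^ 2))
              ≤ (1 + ‖du‖ * rho ^ 2 / lam) * (C1 * (2 * (Real.sqrt C1 * th)) * (C2 * ∑ j ∈ s, ‖a j‖ ^ 2)) := by
                gcongr
            _ = _ := by ring
  rw [integral_eq_lintegral_of_nonneg_ae (Filter.Eventually.of_forall fun q => by positivity)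
    hcont.aestronglyMeasurable]
  exact ENNReal.toReal_le_of_le_ofReal hX hl

end Pool.Agent.Lib.MP_a8dae7_an.UN.MBM
end

section
/-!
# MP_a8dae7_an, UN: module MJ (one piece: minor cubes by O with MI, major cubes by Cauchy-Schwarz and MB).
-/
set_option autoImplicit false

open MeasureTheory
open scoped ContDiff

namespace Pool.Agent.Lib.MP_a8dae7_an.UN.MJM

open Pool.Agent.Lib.MP_a8dae7_an.CV (EE zv ex pq pi2 AA sl bm)
open Pool.Agent.Lib.MP_a8dae7_an.UN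

lemma cube_dist {D : ℕ} (l : ℝ) (hl : 0 < l) (x y : EE D) (h : cbl l x = cbl l y) : ‖x - y‖ ≤ D * l := by
  have h1 : ∀ i, (x i - y i) ^ 2 ≤ l ^ 2 := by
    intro i
    have h2 : ⌊x i / l⌋ = ⌊y i / l⌋ := congrFun h i
    have h3 := Int.abs_sub_lt_one_of_floor_eq_floor h2
    rw [← sub_div, abs_div, abs_of_pos hl, div_lt_one hl] at h3
    rw [← sq_abs]
    gcongr
  have h4 : ‖x - y‖ ^ 2 ≤ (D * l) ^ 2 := by
    rw [EuclideanSpace.norm_sq_eq]
    calc ∑ i, ‖(x - y) i‖ ^ 2 ≤ ∑ _i : Fin D, l ^ 2 := by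
          refine Finset.sum_le_sum fun i _ => ?_
          rw [Real.norm_eq_abs, sq_abs]
          exact h1 i
      _ = D * l ^ 2 := by simp
      _ ≤ (D * l) ^ 2 := by
          rw [mul_pow]
          have : (D : ℝ) ≤ (D : ℝ) ^ 2 := by
            have := Nat.le_self_pow (two_ne_zero) D
            exact_mod_cast this
          gcongr
  exact (sq_le_sq₀ (norm_nonneg _) (by positivity)).1 h4

/-- the direction of a frequency close to a rational direction -/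
lemma dir {D : ℕ} {A : ℝ} (hA : 1 ≤ A) (du n1 : EE D) (hdu : 6 / A ≤ ‖du‖) (lam H r : ℝ) (hlam : 0 < lam) (hH : 0 ≤ H)
    (hr : 0 ≤ r) (hn : ‖n1‖ = lam) (hpq : pq (lam⁻¹ • n1) du ≤ (H * r / lam) ^ 2) :
    ∃ sg' : ℝ, (sg' = 1 ∨ sg' = -1) ∧ ‖n1 - (sg' * lam / ‖du‖) • du‖ ≤ A * H * r := by
  have hA0 : 0 < A := by linarith
  have hD : 0 < ‖du‖ := lt_of_lt_of_le (by positivity) hdu
  set D0 := ‖du‖ with hD0
  set x : ℝ := inner ℝ (lam⁻¹ • n1) du / D0 with hx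
  have hom : ‖lam⁻¹ • n1‖ = 1 := by
    rw [norm_smul, hn, Real.norm_eq_abs, abs_of_pos (by positivity)]; field_simp
  have hx1 : |x| ≤ 1 := by
    rw [hx, abs_div, abs_of_pos hD, div_le_one hD]
    have := abs_real_inner_le_norm (lam⁻¹ • n1) du
    rw [hom, one_mul] at this
    exact this
  have hin : inner ℝ (lam⁻¹ • n1) du = x * D0 := by rw [hx]; field_simp
  have hpq2 : D0 ^ 2 * (1 - x ^ 2) ≤ (H * r / lam) ^ 2 := by
    have : pq (lam⁻¹ • n1) du = D0 ^ 2 * (1 - x ^ 2) := by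
      unfold pq; rw [hin, ← hD0]; ring
    rw [← this]; exact hpq
  have hfin : ∀ sg' : ℝ, (sg' = 1 ∨ sg' = -1) → sg' * x = |x| →
      ‖n1 - (sg' * lam / D0) • du‖ ≤ A * H * r := by
    intro sg' hsg hsx
    have hsg2 : sg' ^ 2 = 1 := by rcases hsg with h | h <;> rw [h] <;> norm_num
    have hinn : inner ℝ n1 du = lam * (x * D0) := by
      rw [← hin, inner_smul_left]; simp; field_simp
    have h1 : ‖n1 - (sg' * lam / D0) • du‖ ^ 2 = 2 * lam ^ 2 * (1 - |x|) := by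
      rw [norm_sub_sq_real, norm_smul, inner_smul_right, hn, hinn, Real.norm_eq_abs, mul_pow, sq_abs, ← hD0, ← hsx]
      have : (sg' * lam / D0) ^ 2 * D0 ^ 2 = lam ^ 2 := by
        rw [div_pow, mul_pow, hsg2]; field_simp
      rw [this]; field_simp; ring
    have h2 : 1 - |x| ≤ 1 - x ^ 2 := by
      have := abs_nonneg x
      rw [← sq_abs]; nlinarith
    have h3 : 2 * lam ^ 2 * (1 - |x|) ≤ (A * H * r) ^ 2 := by
      have h4 : (6 / A) ^ 2 * (1 - x ^ 2) ≤ (H * r / lam) ^ 2 := by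
        refine le_trans ?_ hpq2
        have : 0 ≤ 1 - x ^ 2 := by
          have := sq_abs x; have := abs_nonneg x; nlinarith
        gcongr
      have h5 : 36 * (lam ^ 2 * (1 - x ^ 2)) ≤ (A * H * r) ^ 2 := by
        have h6 : (6 / A) ^ 2 * (1 - x ^ 2) * (A ^ 2 * lam ^ 2) ≤ (H * r / lam) ^ 2 * (A ^ 2 * lam ^ 2) := by gcongr
        have h7 : (6 / A) ^ 2 * (1 - x ^ 2) * (A ^ 2 * lam ^ 2) = 36 * (lam ^ 2 * (1 - x ^ 2)) := by
          field_simp; ring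
        have h8 : (H * r / lam) ^ 2 * (A ^ 2 * lam ^ 2) = (A * H * r) ^ 2 := by
          field_simp
        linarith
      have h9 : 0 ≤ lam ^ 2 * (1 - |x|) := by
        have : 0 ≤ 1 - |x| := by linarith
        positivity
      have h10 : lam ^ 2 * (1 - |x|) ≤ lam ^ 2 * (1 - x ^ 2) := by gcongr
      nlinarith
    rw [← h1] at h3
    exact (sq_le_sq₀ (norm_nonneg _) (by positivity)).1 h3
  rcases le_total 0 x with h | h
  · exact ⟨1, Or.inl rfl, hfin 1 (Or.inl rfl) (by rw [one_mul, abs_of_nonneg h])⟩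
  · exact ⟨-1, Or.inr rfl, hfin (-1) (Or.inr rfl) (by rw [abs_of_nonpos h]; ring)⟩

/-- measurability of the block regions -/
lemma meas_reg {k : ℕ} {c R : ℝ} {M : ℕ → ℝ} (ch : UChart k c R M) (n : EE (k + 1)) (y : ℝ) :
    MeasurableSet {q : EE k | ‖q‖ ≤ 2 * dl k R ∧ |sn ch n q| ≤ y} := by
  have hJ : Continuous fun q : EE k => ch.J q := ch.J.continuous
  have h2 : Continuous fun q : EE k => |sn ch n q| := by unfold sn; fun_prop
  exact (measurableSet_le continuous_norm.measurable measurable_const).inter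
    (measurableSet_le h2.measurable measurable_const)

lemma cont_sq {k : ℕ} {c R A : ℝ} {M : ℕ → ℝ} (ch : UChart k c R M) (Lt : Lat (k + 1) A)
    (s : Finset (Fin (k + 1) → ℤ)) (b : (Fin (k + 1) → ℤ) → ℂ) :
    Continuous fun q => ‖es Lt s b (ch.X q)‖ ^ 2 := by
  have := (MBM.cont_es Lt s b).comp ch.smooth.continuous
  exact (this.norm).pow 2

/-- the block estimate of MB on the region of a frequency of the cube -/
lemma blk {m : ℕ} {c R A : ℝ} {M : ℕ → ℝ} (hc : Cls c R M) (ch : UChart (m + 1) c R M) (Lt : Lat (m + 2) A) (du : EE (m + 2))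
    (hD : 0 < ‖du‖) (lam rho th th' sg' X : ℝ) (hlam : 1 ≤ lam) (hrho : 0 ≤ rho) (hsg : sg' = 1 ∨ sg' = -1)
    (B : Finset (Fin (m + 2) → ℤ))
    (hB : ∀ j ∈ B, ‖Lt.fr j‖ = lam ∧ ‖Lt.fr j - (sg' * lam / ‖du‖) • du‖ ≤ rho)
    (hth' : 5 * th + 2 * rho / lam ≤ th') (b : (Fin (m + 2) → ℤ) → ℂ)
    (hmb : ∫ q in {q : EE (m + 1) | ‖q‖ ≤ 2 * dl (m + 1) R ∧ |inner ℝ (ch.nu - ch.J q) du| ≤ th' * ‖du‖},
      ‖es Lt B b (ch.X q)‖ ^ 2 ≤ X) (j0 : Fin (m + 2) → ℤ) (hj0 : j0 ∈ B) :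
    ∫ q in {q : EE (m + 1) | ‖q‖ ≤ 2 * dl (m + 1) R ∧ |sn ch (Lt.fr j0) q| ≤ 5 * th * lam},
      ‖es Lt B b (ch.X q)‖ ^ 2 ≤ X := by
  have hlam0 : 0 < lam := by linarith
  refine le_trans ?_ hmb
  have hJ : Continuous fun q : EE (m + 1) => ch.J q := ch.J.continuous
  have hsub : {q : EE (m + 1) | ‖q‖ ≤ 2 * dl (m + 1) R ∧ |sn ch (Lt.fr j0) q| ≤ 5 * th * lam} ⊆
      {q : EE (m + 1) | ‖q‖ ≤ 2 * dl (m + 1) R ∧ |inner ℝ (ch.nu - ch.J q) du| ≤ th' * ‖du‖} := by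
    rintro q ⟨h1, h2⟩
    refine ⟨h1, ?_⟩
    obtain ⟨h3, h4⟩ := hB j0 hj0
    set x := Lt.fr j0 - (sg' * lam / ‖du‖) • du with hx
    have h5 : sn ch (Lt.fr j0) q = (sg' * lam / ‖du‖) * inner ℝ (ch.nu - ch.J q) du + inner ℝ x (ch.nu - ch.J q) := by
      unfold sn
      have : Lt.fr j0 = (sg' * lam / ‖du‖) • du + x := by rw [hx]; abel
      rw [this, inner_add_left, inner_smul_left, real_inner_comm]
      simp
    have hq : ‖q‖ ≤ 1 := by
      have : 2 * dl (m + 1) R ≤ 1 := by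
        unfold dl
        have h6 := hc.R_le
        have h7 := hc.R_pos
        have h8 : (1 : ℝ) ≤ 4 * 32 ^ (m + 1) := by
          have : (1 : ℝ) ≤ 32 ^ (m + 1) := one_le_pow₀ (by norm_num)
          linarith
        have : R / (4 * 32 ^ (m + 1)) ≤ R := div_le_self h7.le h8
        linarith
      linarith
    have hnu : ‖ch.nu - ch.J q‖ ≤ 2 := by
      refine (norm_sub_le _ _).trans ?_
      rw [ch.nu_one, LinearIsometry.norm_map]; linarith
    have h6 : |inner ℝ x (ch.nu - ch.J q)| ≤ rho * 2 := by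
      refine (abs_real_inner_le_norm _ _).trans ?_
      gcongr
    have h7 : |(sg' * lam / ‖du‖) * inner ℝ (ch.nu - ch.J q) du| ≤ 5 * th * lam + rho * 2 := by
      have : (sg' * lam / ‖du‖) * inner ℝ (ch.nu - ch.J q) du = sn ch (Lt.fr j0) q - inner ℝ x (ch.nu - ch.J q) := by
        rw [h5]; ring
      rw [this]
      exact (abs_sub _ _).trans (add_le_add h2 h6)
    have hs1 : |sg'| = 1 := by rcases hsg with h | h <;> rw [h] <;> simp
    rw [abs_mul, abs_div, abs_mul, hs1, one_mul, abs_of_pos hlam0, abs_of_pos hD] at h7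
    have h8 : |inner ℝ (ch.nu - ch.J q) du| ≤ (5 * th + 2 * rho / lam) * ‖du‖ := by
      have h9 : |inner ℝ (ch.nu - ch.J q) du| = (lam / ‖du‖ * |inner ℝ (ch.nu - ch.J q) du|) * (‖du‖ / lam) := by
        field_simp
      rw [h9]
      calc (lam / ‖du‖ * |inner ℝ (ch.nu - ch.J q) du|) * (‖du‖ / lam) ≤ (5 * th * lam + rho * 2) * (‖du‖ / lam) := by
            gcongr
        _ = _ := by field_simp
    refine h8.trans ?_
    gcongr
  apply setIntegral_mono_set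
  · have hcb : IntegrableOn (fun q => ‖es Lt B b (ch.X q)‖ ^ 2) (Metric.closedBall 0 (2 * dl (m + 1) R)) :=
      (cont_sq ch Lt B b).continuousOn.integrableOn_compact (isCompact_closedBall _ _)
    refine hcb.mono_set ?_
    rintro q ⟨h1, -⟩
    simpa using h1
  · exact Filter.Eventually.of_forall fun q => by positivity
  · exact Filter.Eventually.of_forall hsub

/-- number of major cubes -/
lemma count {m : ℕ} {A : ℝ} (Lt : Lat (m + 2) A) (C4 C5 H K r lam : ℝ) (hC5 : 0 < C5) (hH : 0 ≤ H)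
    (hK : 1 ≤ K) (hr : 0 < r)
    (hdu : ∀ (s : Finset (Fin (m + 2) → ℤ)) (x : EE (m + 2)) (rho : ℝ), 0 ≤ rho → (∀ z ∈ s, ‖Lt.du z - x‖ ≤ rho) →
      (s.card : ℝ) ≤ C4 * (1 + rho) ^ (m + 2))
    (htc : ∀ (r K : ℝ) (x : EE (m + 1 + 1)) (S : Finset (Fin (m + 1 + 1) → ℤ)) (rep : (Fin (m + 1 + 1) → ℤ) → EE (m + 1 + 1)),
      0 < r → 1 ≤ K → (∀ lb ∈ S, cbl (r / (64 * ((m + 1 : ℕ) + 1))) (rep lb) = lb ∧ ‖x - rep lb‖ ≤ K * r) →
      (S.card : ℝ) ≤ C5 * K ^ (m + 1 + 1))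
    (L : Finset (Fin (m + 2) → ℤ)) (zf : (Fin (m + 2) → ℤ) → (Fin (m + 2) → ℤ)) (sf : (Fin (m + 2) → ℤ) → ℝ)
    (rep : (Fin (m + 2) → ℤ) → EE (m + 2))
    (h : ∀ lb ∈ L, cbl (r / (64 * ((m + 1 : ℕ) + 1))) (rep lb) = lb ∧ (sf lb = 1 ∨ sf lb = -1) ∧
      ‖Lt.du (zf lb)‖ ≤ H ∧ ‖rep lb - (sf lb * lam / ‖Lt.du (zf lb)‖) • Lt.du (zf lb)‖ ≤ K * r) :
    (L.card : ℝ) ≤ 2 * (C4 * (1 + H) ^ (m + 2)) * (C5 * K ^ (m + 2)) := by
  classical
  have hn : ∀ a ∈ L.image (fun lb => (zf lb, sf lb)),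
      (L.filter fun lb => (zf lb, sf lb) = a).card ≤ ⌊C5 * K ^ (m + 2)⌋₊ := by
    rintro ⟨z, σ⟩ -
    apply Nat.le_floor
    refine htc r K ((σ * lam / ‖Lt.du z‖) • Lt.du z) _ rep hr hK ?_
    intro lb hlb
    rw [Finset.mem_filter] at hlb
    obtain ⟨h1, h2⟩ := hlb
    have h3 : zf lb = z := congrArg Prod.fst h2
    have h4 : sf lb = σ := congrArg Prod.snd h2
    obtain ⟨h5, -, -, h6⟩ := h lb h1
    refine ⟨h5, ?_⟩
    rw [norm_sub_rev, ← h3, ← h4]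
    exact h6
  have h1 := Finset.card_le_mul_card_image L _ hn
  have h2 : (L.image (fun lb => (zf lb, sf lb))).card ≤ (L.image zf ×ˢ ({1, -1} : Finset ℝ)).card := by
    apply Finset.card_le_card
    intro a ha
    rw [Finset.mem_image] at ha
    obtain ⟨lb, hlb, rfl⟩ := ha
    rw [Finset.mem_product]
    refine ⟨Finset.mem_image_of_mem _ hlb, ?_⟩
    obtain ⟨-, h5, -, -⟩ := h lb hlb
    rcases h5 with h5 | h5 <;> simp [h5]
  rw [Finset.card_product] at h2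
  have h3 : ({1, -1} : Finset ℝ).card ≤ 2 := Finset.card_le_two
  have h4 : ((L.image zf).card : ℝ) ≤ C4 * (1 + H) ^ (m + 2) := by
    refine hdu _ 0 H hH ?_
    intro z hz
    rw [Finset.mem_image] at hz
    obtain ⟨lb, hlb, rfl⟩ := hz
    rw [sub_zero]
    exact (h lb hlb).2.2.1
  have h5 : (L.card : ℝ) ≤ (⌊C5 * K ^ (m + 2)⌋₊ : ℝ) * ((L.image (fun lb => (zf lb, sf lb))).card : ℝ) := by
    exact_mod_cast h1
  have h6 : ((L.image (fun lb => (zf lb, sf lb))).card : ℝ) ≤ ((L.image zf).card : ℝ) * 2 := by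
    have : (L.image (fun lb => (zf lb, sf lb))).card ≤ (L.image zf).card * 2 := h2.trans (by gcongr)
    exact_mod_cast this
  have h7 : (⌊C5 * K ^ (m + 2)⌋₊ : ℝ) ≤ C5 * K ^ (m + 2) := Nat.floor_le (by positivity)
  calc (L.card : ℝ) ≤ (⌊C5 * K ^ (m + 2)⌋₊ : ℝ) * ((L.image (fun lb => (zf lb, sf lb))).card : ℝ) := h5
    _ ≤ (C5 * K ^ (m + 2)) * ((C4 * (1 + H) ^ (m + 2)) * 2) := by
        gcongr
        exact h6.trans (by gcongr)
    _ = _ := by ring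

lemma cont_phP : Continuous phP := by
  unfold phP
  have := Real.smoothTransition.continuous
  fun_prop

lemma cont_am {k : ℕ} {c R : ℝ} {M : ℕ → ℝ} (ch : UChart k c R M) (sg lam th : ℝ) (n : EE (k + 1)) :
    Continuous fun q => am ch phP sg lam th n q := by
  unfold am
  have hJ : Continuous fun q : EE k => ch.J q := ch.J.continuous
  have h2 : Continuous fun q : EE k => sg * sn ch (Nb lam n) q / (lam * th) := by unfold sn; fun_prop
  exact cont_phP.comp h2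

/-- the piece -/
noncomputable def pc {k : ℕ} {c R A : ℝ} {M : ℕ → ℝ} (ch : UChart k c R M) (Lt : Lat (k + 1) A) (sg lam th : ℝ)
    (a : (Fin (k + 1) → ℤ) → ℂ) (s : Finset (Fin (k + 1) → ℤ)) (q : EE k) : ℂ :=
  ∑ j ∈ s, (am ch phP sg lam th (Lt.fr j) q : ℂ) * (a j * ex (Lt.fr j) (ch.X q))

lemma cont_pc {k : ℕ} {c R A : ℝ} {M : ℕ → ℝ} (ch : UChart k c R M) (Lt : Lat (k + 1) A) (sg lam th : ℝ)
    (a : (Fin (k + 1) → ℤ) → ℂ) (s : Finset (Fin (k + 1) → ℤ)) : Continuous (pc ch Lt sg lam th a s) := by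
  unfold pc
  refine continuous_finsetSum _ fun j _ => ?_
  refine (Complex.continuous_ofReal.comp (cont_am ch sg lam th (Lt.fr j))).mul ?_
  have h1 := ch.smooth.continuous
  unfold ex
  fun_prop

lemma int_sum {k : ℕ} {κ : Type} (r : ℝ) (L : Finset κ) (F : κ → EE k → ℂ) (hF : ∀ l, Continuous (F l)) :
    ∫ q in Metric.closedBall (0 : EE k) r, ‖∑ l ∈ L, F l q‖ ^ 2 ≤
      L.card * ∑ l ∈ L, ∫ q in Metric.closedBall (0 : EE k) r, ‖F l q‖ ^ 2 := by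
  have hi : ∀ l, IntegrableOn (fun q => ‖F l q‖ ^ 2) (Metric.closedBall (0 : EE k) r) := fun l =>
    (((hF l).norm.pow 2).continuousOn).integrableOn_compact (isCompact_closedBall _ _)
  rw [← integral_finsetSum _ fun l _ => hi l, ← integral_const_mul]
  apply integral_mono
  · exact (((continuous_finsetSum _ fun l _ => hF l).norm.pow 2).continuousOn).integrableOn_compact
      (isCompact_closedBall _ _)
  · exact (integrable_finsetSum _ fun l _ => hi l).const_mul _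
  · intro q
    simp only
    calc ‖∑ l ∈ L, F l q‖ ^ 2 ≤ (∑ l ∈ L, ‖F l q‖) ^ 2 := by
          gcongr; exact norm_sum_le _ _
      _ ≤ _ := sq_sum_le_card_mul_sum_sq

lemma int_two {k : ℕ} (r : ℝ) (F G : EE k → ℂ) (hF : Continuous F) (hG : Continuous G) :
    ∫ q in Metric.closedBall (0 : EE k) r, ‖F q + G q‖ ^ 2 ≤
      2 * (∫ q in Metric.closedBall (0 : EE k) r, ‖F q‖ ^ 2) + 2 * ∫ q in Metric.closedBall (0 : EE k) r, ‖G q‖ ^ 2 := by
  have hi : ∀ H : EE k → ℂ, Continuous H → IntegrableOn (fun q => ‖H q‖ ^ 2) (Metric.closedBall (0 : EE k) r) :=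
    fun H hH => ((hH.norm.pow 2).continuousOn).integrableOn_compact (isCompact_closedBall _ _)
  rw [← integral_const_mul, ← integral_const_mul, ← integral_add ((hi F hF).const_mul _) ((hi G hG).const_mul _)]
  apply integral_mono (hi _ (hF.add hG)) (((hi F hF).const_mul _).add ((hi G hG).const_mul _))
  intro q
  show ‖F q + G q‖ ^ 2 ≤ 2 * ‖F q‖ ^ 2 + 2 * ‖G q‖ ^ 2
  have h1 : ‖F q + G q‖ ≤ ‖F q‖ + ‖G q‖ := norm_add_le _ _
  have h2 : ‖F q + G q‖ ^ 2 ≤ (‖F q‖ + ‖G q‖) ^ 2 := by gcongr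
  nlinarith [sq_nonneg (‖F q‖ - ‖G q‖)]

/-- sizes -/
lemma num {lam th : ℝ} (hlam : 1 ≤ lam) (h : lam ^ (-(1 / 3 : ℝ)) ≤ th) (hth1 : th ≤ 1) :
    0 < th ∧ 1 ≤ min th⁻¹ (th * lam ^ (1 / 3 : ℝ)) ∧ th ≤ (min th⁻¹ (th * lam ^ (1 / 3 : ℝ)))⁻¹ ∧
    th * ((th ^ 2)⁻¹) ^ 2 / lam ≤ (min th⁻¹ (th * lam ^ (1 / 3 : ℝ)))⁻¹ ∧ (th ^ 2)⁻¹ / lam ≤ th := by
  have hlam0 : 0 < lam := by linarith
  have hth0 : 0 < th := lt_of_lt_of_le (Real.rpow_pos_of_pos hlam0 _) h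
  set u := lam ^ (1 / 3 : ℝ) with hu
  have hu0 : 0 < u := Real.rpow_pos_of_pos hlam0 _
  have hu3 : u ^ 3 = lam := by
    rw [hu, ← Real.rpow_natCast, ← Real.rpow_mul hlam0.le]; norm_num
  have huinv : lam ^ (-(1 / 3 : ℝ)) = u⁻¹ := by rw [Real.rpow_neg hlam0.le]
  rw [huinv] at h
  have hthu : 1 ≤ th * u := by
    have := mul_le_mul_of_nonneg_right h hu0.le
    rwa [inv_mul_cancel₀ hu0.ne'] at this
  have hG : 1 ≤ min th⁻¹ (th * u) := le_min ((one_le_inv₀ hth0).2 hth1) hthu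
  have hG0 : 0 < min th⁻¹ (th * u) := by linarith
  have h3 : th * u ≤ th ^ 3 * lam := by
    rw [← hu3, ← mul_pow]
    exact le_self_pow₀ hthu (by norm_num)
  have h4 : 1 ≤ th ^ 3 * lam := hthu.trans h3
  refine ⟨hth0, hG, ?_, ?_, ?_⟩
  · rw [le_inv_comm₀ hth0 hG0]; exact min_le_left _ _
  · have h5 : th * ((th ^ 2)⁻¹) ^ 2 / lam = (th ^ 3 * lam)⁻¹ := by field_simp
    rw [h5]
    exact (inv_le_inv₀ (by positivity) hG0).2 ((min_le_right _ _).trans h3)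
  · have h5 : (th ^ 2)⁻¹ / lam = th * (th ^ 3 * lam)⁻¹ := by field_simp
    rw [h5]
    exact mul_le_of_le_one_right hth0.le (inv_le_one_of_one_le₀ h4)

lemma num4 {A C1 x : ℝ} (hA : 0 < A) (hC1 : 0 < C1) (hx : 1 ≤ x) :
    1 ≤ (A * C1 + 1) * x ∧ A * (C1 * x) ≤ (A * C1 + 1) * x ∧ 1 + C1 * x ≤ (1 + C1) * x := by
  have h0 : 0 < A * C1 := by positivity
  have hx0 : 0 < x := by linarith
  refine ⟨?_, ?_, ?_⟩
  · exact one_le_mul_of_one_le_of_one_le (by linarith) hx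
  · have : (A * C1 + 1) * x = A * (C1 * x) + x := by ring
    rw [this]; linarith
  · have : (1 + C1) * x = x + C1 * x := by ring
    rw [this]; linarith

lemma num2 {C1 C2 A x th r lam D0 rho G : ℝ} (hC1 : 0 < C1) (hC2 : 0 < C2) (hA : 0 < A) (hx : 1 ≤ x) (hth : 0 < th)
    (hlam : 0 < lam) (hr : 0 < r) (hD : D0 ≤ C1 * x) (hrho : rho = (C1 * A + 1) * x * r)
    (hthG : th ≤ G⁻¹) (hthrG : th * r ^ 2 / lam ≤ G⁻¹) :
    C2 * ((2 * C1 * A + 7) * (x * th)) * (1 + D0 * rho ^ 2 / lam) ≤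
      C2 * (2 * C1 * A + 7) * (1 + C1 * (C1 * A + 1) ^ 2) * x ^ 4 * (2 * G⁻¹) := by
  have hx0 : 0 < x := by linarith
  set y := r ^ 2 / lam with hy
  have hy0 : 0 < y := by positivity
  have h1 : D0 * rho ^ 2 / lam ≤ (C1 * (C1 * A + 1) ^ 2) * x ^ 3 * y := by
    calc D0 * rho ^ 2 / lam ≤ (C1 * x) * rho ^ 2 / lam := by
          apply div_le_div_of_nonneg_right _ hlam.le
          exact mul_le_mul_of_nonneg_right hD (sq_nonneg _)
      _ = _ := by rw [hrho, hy]; ring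
  have h3 : (1 : ℝ) ≤ x ^ 3 := one_le_pow₀ hx
  set P := C1 * (C1 * A + 1) ^ 2 with hP
  have hP0 : 0 < P := by positivity
  set W := 2 * C1 * A + 7 with hW
  have hW0 : 0 < W := by positivity
  have h4 : 1 + D0 * rho ^ 2 / lam ≤ (1 + P) * x ^ 3 * (1 + y) := by
    have h5 : 0 ≤ P * x ^ 3 := by positivity
    have h6 : 0 ≤ x ^ 3 * y := by positivity
    nlinarith
  have h7 : th * y ≤ G⁻¹ := by rw [hy, ← mul_div_assoc]; exact hthrG
  calc C2 * (W * (x * th)) * (1 + D0 * rho ^ 2 / lam) ≤ C2 * (W * (x * th)) * ((1 + P) * x ^ 3 * (1 + y)) := by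
        apply mul_le_mul_of_nonneg_left h4
        positivity
    _ = C2 * W * (1 + P) * x ^ 4 * (th + th * y) := by ring
    _ ≤ C2 * W * (1 + P) * x ^ 4 * (2 * G⁻¹) := by
        apply mul_le_mul_of_nonneg_left _ (by positivity)
        linarith

lemma num3 {C1 A x th r lam rho : ℝ} (hC1 : 0 < C1) (hA : 0 < A) (hx : 1 ≤ x) (hth : 0 < th)
    (hrho : rho = (C1 * A + 1) * x * r) (hr : r / lam ≤ th) :
    5 * th + 2 * rho / lam ≤ (2 * C1 * A + 7) * (x * th) := by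
  have hx0 : 0 < x := by linarith
  have h1 : 2 * rho / lam = 2 * (C1 * A + 1) * x * (r / lam) := by rw [hrho]; ring
  rw [h1]
  have h2 : 2 * (C1 * A + 1) * x * (r / lam) ≤ 2 * (C1 * A + 1) * x * th :=
    mul_le_mul_of_nonneg_left hr (by positivity)
  nlinarith

/-- one major cube -/
lemma onecube {m : ℕ} {c R A : ℝ} {M : ℕ → ℝ} (hc : Cls c R M) (ch : UChart (m + 1) c R M) (Lt : Lat (m + 2) A)
    (C1 C2 C3 c8 x th lam sg sg' G : ℝ) (z0 j1 : Fin (m + 2) → ℤ) (B : Finset (Fin (m + 2) → ℤ)) (a : (Fin (m + 2) → ℤ) → ℂ)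
    (hC1 : 0 < C1) (hC2 : 0 < C2) (hC3 : 0 < C3) (hA : 0 < A) (hlam : 1 ≤ lam) (hx : 1 ≤ x) (hth : 0 < th)
    (hsg' : sg' = 1 ∨ sg' = -1) (hz0 : z0 ≠ 0)
    (hz1 : ‖Lt.du z0‖ ≤ C1 * x) (hx8 : (2 * C1 * A + 7) * (x * th) ≤ c8)
    (hdir : ‖Lt.fr j1 - (sg' * lam / ‖Lt.du z0‖) • Lt.du z0‖ ≤ A * (C1 * x) * (th ^ 2)⁻¹)
    (hB : ∀ j ∈ B, ‖Lt.fr j‖ = lam ∧ ‖Lt.fr j - Lt.fr j1‖ ≤ (th ^ 2)⁻¹)
    (hBl : ∀ j ∈ B, ∀ j' ∈ B, cbl (sd (m + 1) th) (Lt.fr j) = cbl (sd (m + 1) th) (Lt.fr j'))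
    (hthG : th ≤ G⁻¹) (hthrG : th * ((th ^ 2)⁻¹) ^ 2 / lam ≤ G⁻¹) (hr : (th ^ 2)⁻¹ / lam ≤ th)
    (hmb : ∀ (rho th sg : ℝ) (s : Finset (Fin (m + 2) → ℤ)) (a : (Fin (m + 2) → ℤ) → ℂ), 0 ≤ rho →
      0 < th → th ≤ c8 → (sg = 1 ∨ sg = -1) →
      (∀ j ∈ s, ‖Lt.fr j‖ = lam ∧ ‖Lt.fr j - (sg * lam / ‖Lt.du z0‖) • Lt.du z0‖ ≤ rho) →
      ∫ q in {q : EE (m + 1) | ‖q‖ ≤ 2 * dl (m + 1) R ∧
        |inner ℝ (ch.nu - ch.J q) (Lt.du z0)| ≤ th * ‖Lt.du z0‖}, ‖es Lt s a (ch.X q)‖ ^ 2 ≤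
      C2 * th * (1 + ‖Lt.du z0‖ * rho ^ 2 / lam) * ∑ j ∈ s, ‖a j‖ ^ 2)
    (ho : ∀ BB : ℝ, 0 ≤ BB → (∀ j ∈ B, ‖Lt.fr j‖ = lam) → BH ch Lt lam th BB B →
      ∫ q in Metric.closedBall (0 : EE (m + 1)) (dl (m + 1) R), ‖pc ch Lt sg lam th a B q‖ ^ 2 ≤
      C3 * BB * ∑ j ∈ B, ‖a j‖ ^ 2) :
    ∫ q in Metric.closedBall (0 : EE (m + 1)) (dl (m + 1) R), ‖pc ch Lt sg lam th a B q‖ ^ 2 ≤
      C3 * (C2 * (2 * C1 * A + 7) * (1 + C1 * (C1 * A + 1) ^ 2) * x ^ 4 * (2 * G⁻¹)) * ∑ j ∈ B, ‖a j‖ ^ 2 := by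
  classical
  have hlam0 : 0 < lam := by linarith
  have hx0 : 0 < x := by linarith
  have hr0 : 0 < (th ^ 2)⁻¹ := by positivity
  have hdupos : 0 < ‖Lt.du z0‖ := norm_pos_iff.2 (MBM.du_ne Lt hz0)
  obtain ⟨rho, hrho⟩ : ∃ rho, rho = (C1 * A + 1) * x * (th ^ 2)⁻¹ := ⟨_, rfl⟩
  obtain ⟨th', hth'⟩ : ∃ th', th' = (2 * C1 * A + 7) * (x * th) := ⟨_, rfl⟩
  have hrho0 : 0 ≤ rho := by rw [hrho]; positivity
  have hth'0 : 0 < th' := by rw [hth']; positivity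
  have hth'8 : th' ≤ c8 := by rw [hth']; exact hx8
  have hBfr : ∀ j ∈ B, ‖Lt.fr j‖ = lam ∧ ‖Lt.fr j - (sg' * lam / ‖Lt.du z0‖) • Lt.du z0‖ ≤ rho := by
    intro j hj
    refine ⟨(hB j hj).1, ?_⟩
    have h1 := (hB j hj).2
    have h3 : Lt.fr j - (sg' * lam / ‖Lt.du z0‖) • Lt.du z0 =
        (Lt.fr j - Lt.fr j1) + (Lt.fr j1 - (sg' * lam / ‖Lt.du z0‖) • Lt.du z0) := by abel
    rw [h3]
    refine (norm_add_le _ _).trans ?_
    rw [hrho]
    nlinarith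
  have hth'2 : 5 * th + 2 * rho / lam ≤ th' := by rw [hth']; exact num3 hC1 hA hx hth hrho hr
  obtain ⟨BB, hBB⟩ : ∃ BB, BB = C2 * th' * (1 + ‖Lt.du z0‖ * rho ^ 2 / lam) := ⟨_, rfl⟩
  have hBB0 : 0 ≤ BB := by rw [hBB]; positivity
  have hBBle : BB ≤ C2 * (2 * C1 * A + 7) * (1 + C1 * (C1 * A + 1) ^ 2) * x ^ 4 * (2 * G⁻¹) := by
    rw [hBB, hth']
    exact num2 hC1 hC2 hA hx hth hlam0 hr0 hz1 hrho hthG hthrG
  have hbh : BH ch Lt lam th BB B := by
    intro j0 hj0 b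
    have h1 : bk Lt (sd (m + 1) th) B (cbl (sd (m + 1) th) (Lt.fr j0)) = B := by
      ext j
      rw [bk, Finset.mem_filter]
      exact ⟨fun h => h.1, fun h => ⟨h, hBl j h j0 hj0⟩⟩
    rw [h1]
    refine blk hc ch Lt (Lt.du z0) hdupos lam rho th th' sg' (BB * ∑ j ∈ B, ‖b j‖ ^ 2) hlam hrho0 hsg' B hBfr
      hth'2 b ?_ j0 hj0
    rw [hBB]
    exact hmb rho th' sg' B b hrho0 hth'0 hth'8 hsg' hBfr
  refine (ho BB hBB0 (fun j hj => (hB j hj).1) hbh).trans ?_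
  refine mul_le_mul_of_nonneg_right ?_ (Finset.sum_nonneg fun _ _ => sq_nonneg _)
  exact mul_le_mul_of_nonneg_left hBBle hC3.le

/-- **MJ** -/
theorem specMJ (m : ℕ) (hMI : SpecMI) (hMB : SpecMB m) (hO : SpecO) (hLS : SpecLS) (hTC : SpecTC) (hB0 : SpecB0) :
    SpecMJ m := by
  classical
  intro c R A M hc hA
  obtain ⟨C1, c4, E, hC1, hc4, hmi⟩ := hMI m c R A M hc hA
  obtain ⟨C2, c8, hC2, hc8, hmb⟩ := hMB c R A M hc hA
  obtain ⟨C3, hC3, ho⟩ := hO (m + 1) c R A M hc hA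
  obtain ⟨C4, hC4, -, hdu, hsep⟩ := hLS (m + 2) A hA
  obtain ⟨C5, hC5, htc⟩ := hTC (m + 1)
  obtain ⟨C6, hC6, hb0⟩ := hB0 m c R A M hc hA
  have hA0 : 0 < A := by linarith
  set C7 : ℝ := 2 * C1 * A + 7 with hC7
  have hC70 : 0 < C7 := by positivity
  set E1 : ℕ := E * (2 * (m + 2) + 4) + 1 with hE1
  set c9 : ℝ := min (min 1 c4) ((c8 / C7) ^ 2) with hc9
  have hc90 : 0 < c9 := by
    rw [hc9]; exact lt_min (lt_min one_pos hc4) (by positivity)
  set C9 : ℝ := C2 * C7 * (1 + C1 * (C1 * A + 1) ^ 2) with hC9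
  have hC90 : 0 < C9 := by positivity
  set C8 : ℝ := 2 * (C4 * (1 + C1) ^ (m + 2)) * (C5 * (A * C1 + 1) ^ (m + 2)) with hC8
  have hC80 : 0 < C8 := by positivity
  set c0 : ℝ := 1 / (E1 : ℝ) with hc0
  have hE10 : (0 : ℝ) < (E1 : ℝ) := by rw [hE1]; positivity
  have hc00 : 0 < c0 := by positivity
  refine ⟨C3 * C6 * (c9 ^ c0)⁻¹ + (2 * (C3 * C1) + 2 * (C8 * (C3 * (C9 * 2)))), c0, by positivity, hc00, ?_⟩
  intro ch hdm Lt lam th sg s a hlam hth hth4 hsg hs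
  have hlam0 : 0 < lam := by linarith
  have hth0 : 0 < th := lt_of_lt_of_le (Real.rpow_pos_of_pos hlam0 _) hth
  have hu0 : 0 < lam ^ (1 / 3 : ℝ) := Real.rpow_pos_of_pos hlam0 _
  have hSa : 0 ≤ ∑ j ∈ s, ‖a j‖ ^ 2 := Finset.sum_nonneg fun _ _ => sq_nonneg _
  have hdm' : Dm ch (1 / (8 * A)) := by
    intro q q' hq hq'
    refine (hdm q q' hq hq').trans ?_
    have : (1 : ℝ) ≤ ((m + 2).factorial : ℝ) := by exact_mod_cast Nat.succ_le_of_lt (Nat.factorial_pos _)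
    apply one_div_le_one_div_of_le (by positivity)
    nlinarith
  set l := sd (m + 1) th with hl
  have hlval : l = (th ^ 2)⁻¹ / (64 * ((m + 1 : ℕ) + 1)) := rfl
  have hl0 : 0 < l := by rw [hlval]; positivity
  have hr0 : 0 < (th ^ 2)⁻¹ := by positivity
  -- two frequencies of one cube
  have hcube : ∀ j j' : Fin (m + 2) → ℤ, cbl l (Lt.fr j) = cbl l (Lt.fr j') → ‖Lt.fr j - Lt.fr j'‖ ≤ (th ^ 2)⁻¹ := by
    intro j j' h
    refine (cube_dist l hl0 _ _ h).trans ?_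
    rw [hlval]
    have : ((m + 2 : ℕ) : ℝ) * ((th ^ 2)⁻¹ / (64 * (((m + 1 : ℕ) : ℝ) + 1))) = (th ^ 2)⁻¹ / 64 := by
      push_cast
      have : ((m : ℝ) + 1 + 1) ≠ 0 := by positivity
      field_simp
      ring
    rw [this]
    linarith
  change ∫ q in Metric.closedBall (0 : EE (m + 1)) (dl (m + 1) R), ‖pc ch Lt sg lam th a s q‖ ^ 2 ≤ _
  rcases lt_or_ge c9 th with hbig | hsm
  · -- `th` not small
    have hbh : BH ch Lt lam th C6 s := by
      intro j0 hj0 b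
      refine hb0 ch hdm' Lt lam th (Lt.fr j0) _ b hlam hth hth4 (hs j0 hj0) ?_
      intro j hj
      rw [bk, Finset.mem_filter] at hj
      exact ⟨hs j hj.1, hcube j j0 hj.2⟩
    have h1 := ho ch Lt lam th sg C6 s a phP hlam hth hth4 hsg (Or.inl rfl) hC6.le hs hbh
    refine h1.trans ?_
    refine mul_le_mul_of_nonneg_right ?_ hSa
    have h2 : 1 ≤ (c9 ^ c0)⁻¹ * th ^ c0 := by
      rw [inv_mul_eq_div, one_le_div (Real.rpow_pos_of_pos hc90 _)]
      exact Real.rpow_le_rpow hc90.le hbig.le hc00.le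
    have h3 : 0 < (th * lam ^ (1 / 3 : ℝ)) ^ (-c0) := Real.rpow_pos_of_pos (by positivity) _
    have h4 : 0 < th ^ c0 := Real.rpow_pos_of_pos hth0 _
    have h5 : 0 < (c9 ^ c0)⁻¹ := inv_pos.2 (Real.rpow_pos_of_pos hc90 _)
    calc C3 * C6 = C3 * C6 * 1 := by ring
      _ ≤ C3 * C6 * ((c9 ^ c0)⁻¹ * th ^ c0) := by gcongr
      _ = (C3 * C6 * (c9 ^ c0)⁻¹) * th ^ c0 := by ring
      _ ≤ (C3 * C6 * (c9 ^ c0)⁻¹ + (2 * (C3 * C1) + 2 * (C8 * (C3 * (C9 * 2))))) *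
          (th ^ c0 + (th * lam ^ (1 / 3 : ℝ)) ^ (-c0)) := by
          gcongr
          · have : 0 < 2 * (C3 * C1) + 2 * (C8 * (C3 * (C9 * 2))) := by positivity
            linarith
          · linarith
  · have hth1 : th ≤ 1 := hsm.trans ((min_le_left _ _).trans (min_le_left _ _))
    have hthc4 : th ≤ c4 := hsm.trans ((min_le_left _ _).trans (min_le_right _ _))
    have hthc8 : th ≤ (c8 / C7) ^ 2 := hsm.trans (min_le_right _ _)
    obtain ⟨-, hG1, hthG, hthrG, hrlam⟩ := num hlam hth hth1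
    set G : ℝ := min th⁻¹ (th * lam ^ (1 / 3 : ℝ)) with hG
    have hG0 : 0 < G := by linarith
    set Q : ℝ := G ^ c0 with hQ
    have hQ1 : 1 ≤ Q := Real.one_le_rpow hG1 hc00.le
    have hQ0 : 0 < Q := by linarith
    have hQE1 : Q ^ E1 = G := by
      rw [hQ, ← Real.rpow_natCast, ← Real.rpow_mul hG0.le, hc0]
      rw [one_div, inv_mul_cancel₀ hE10.ne', Real.rpow_one]
    set x : ℝ := Q ^ E with hx
    have hx1 : 1 ≤ x := one_le_pow₀ hQ1
    have hx0 : 0 < x := by linarith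
    have hxG : x ≤ G := by
      rw [← hQE1, hx]
      apply pow_le_pow_right₀ hQ1
      rw [hE1]; nlinarith
    have hx2G : x ^ 2 ≤ G := by
      rw [← hQE1, hx, ← pow_mul]
      apply pow_le_pow_right₀ hQ1
      rw [hE1]; nlinarith
    have hxth : x * th ≤ c8 / C7 := by
      have h1 : (x * th) ^ 2 ≤ (c8 / C7) ^ 2 := by
        calc (x * th) ^ 2 = x ^ 2 * th * th := by ring
          _ ≤ G * th * th := by gcongr
          _ ≤ 1 * th := by
              gcongr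
              calc G * th ≤ G * G⁻¹ := by gcongr
                _ = 1 := mul_inv_cancel₀ hG0.ne'
          _ ≤ (c8 / C7) ^ 2 := by rw [one_mul]; exact hthc8
      exact (sq_le_sq₀ (by positivity) (by positivity)).1 h1
    have hx8 : (2 * C1 * A + 7) * (x * th) ≤ c8 := by
      calc (2 * C1 * A + 7) * (x * th) ≤ C7 * (c8 / C7) := by
            rw [← hC7]; exact mul_le_mul_of_nonneg_left hxth hC70.le
        _ = c8 := by field_simp
    -- the minor labels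
    let Mn : (Fin (m + 2) → ℤ) → Prop := fun lb => ∀ j0 ∈ bk Lt l s lb, ∀ b : (Fin (m + 2) → ℤ) → ℂ,
      ∫ q in {q : EE (m + 1) | ‖q‖ ≤ 2 * dl (m + 1) R ∧ |sn ch (Lt.fr j0) q| ≤ 5 * th * lam},
        ‖es Lt (bk Lt l s lb) b (ch.X q)‖ ^ 2 ≤ C1 * Q⁻¹ * ∑ j ∈ bk Lt l s lb, ‖b j‖ ^ 2
    set s1 := s.filter (fun j => Mn (cbl l (Lt.fr j))) with hs1
    set s2 := s.filter (fun j => ¬ Mn (cbl l (Lt.fr j))) with hs2
    have hsplit : ∀ q, pc ch Lt sg lam th a s q = pc ch Lt sg lam th a s1 q + pc ch Lt sg lam th a s2 q := by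
      intro q
      unfold pc
      rw [hs1, hs2, Finset.sum_filter_add_sum_filter_not]
    -- minor part
    have hmin : ∫ q in Metric.closedBall (0 : EE (m + 1)) (dl (m + 1) R), ‖pc ch Lt sg lam th a s1 q‖ ^ 2 ≤
        C3 * (C1 * Q⁻¹) * ∑ j ∈ s, ‖a j‖ ^ 2 := by
      have hbh : BH ch Lt lam th (C1 * Q⁻¹) s1 := by
        intro j0 hj0 b
        have h0 := hj0
        rw [hs1, Finset.mem_filter] at h0
        have h1 : bk Lt (sd (m + 1) th) s1 (cbl (sd (m + 1) th) (Lt.fr j0)) = bk Lt l s (cbl l (Lt.fr j0)) := by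
          ext j
          simp only [bk, hs1, ← hl, Finset.mem_filter]
          constructor
          · rintro ⟨⟨h2, -⟩, h3⟩; exact ⟨h2, h3⟩
          · rintro ⟨h2, h3⟩; exact ⟨⟨h2, by rw [h3]; exact h0.2⟩, h3⟩
        rw [h1]
        exact h0.2 j0 (by rw [bk, Finset.mem_filter]; exact ⟨h0.1, rfl⟩) b
      have h1 := ho ch Lt lam th sg (C1 * Q⁻¹) s1 a phP hlam hth hth4 hsg (Or.inl rfl) (by positivity)
        (fun j hj => hs j (Finset.mem_of_mem_filter j hj)) hbh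
      refine h1.trans ?_
      gcongr
      exact Finset.filter_subset _ _
    -- major part
    set LM := (s.image fun j => cbl l (Lt.fr j)).filter (fun lb => ¬ Mn lb) with hLM
    have hmaj : ∀ lb ∈ LM, ∃ (j1 z0 : Fin (m + 2) → ℤ) (sg' : ℝ), cbl l (Lt.fr j1) = lb ∧ (sg' = 1 ∨ sg' = -1) ∧
        z0 ≠ 0 ∧ ‖Lt.du z0‖ ≤ C1 * x ∧
        ‖Lt.fr j1 - (sg' * lam / ‖Lt.du z0‖) • Lt.du z0‖ ≤ A * (C1 * x) * (th ^ 2)⁻¹ := by
      intro lb hlb
      rw [hLM, Finset.mem_filter] at hlb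
      obtain ⟨-, h1⟩ := hlb
      simp only [Mn, not_forall] at h1
      obtain ⟨j1, hj1, b, hb⟩ := h1
      have hj1' := hj1
      rw [bk, Finset.mem_filter] at hj1'
      rcases hmi ch hdm' Lt lam th Q (Lt.fr j1) (bk Lt l s lb) hlam hth hthc4 hQ1
        (hxG.trans (min_le_left _ _)) (hxG.trans (min_le_right _ _)) (hs j1 hj1'.1) (by
          intro j hj
          rw [bk, Finset.mem_filter] at hj
          exact ⟨hs j hj.1, hcube j j1 (by rw [hj.2, hj1'.2])⟩) with h2 | ⟨z0, hz0, hz1, hz2⟩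
      · exact absurd (h2 b) hb
      · obtain ⟨sg', hsg', h3⟩ := dir hA (Lt.du z0) (Lt.fr j1) (hsep Lt z0 hz0) lam (C1 * x) (th ^ 2)⁻¹ hlam0
          (by positivity) hr0.le (hs j1 hj1'.1) (by rw [hx]; exact hz2)
        exact ⟨j1, z0, sg', hj1'.2, hsg', hz0, hz1, h3⟩
    choose! j1 z0 sf hj1 hsf hz0 hz1 hdir using hmaj
    set K : ℝ := (A * C1 + 1) * x with hK
    obtain ⟨hK1, hK2, hK3⟩ := num4 hA0 hC1 hx1
    rw [← hK] at hK1 hK2
    have hcard : (LM.card : ℝ) ≤ C8 * x ^ (2 * (m + 2)) := by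
      have h1 := count Lt C4 C5 (C1 * x) K (th ^ 2)⁻¹ lam hC5 (by positivity) hK1 hr0 (hdu Lt) htc LM z0 sf
        (fun lb => Lt.fr (j1 lb)) (by
          intro lb hlb
          refine ⟨hj1 lb hlb, hsf lb hlb, hz1 lb hlb, (hdir lb hlb).trans ?_⟩
          exact mul_le_mul_of_nonneg_right hK2 hr0.le)
      refine h1.trans ?_
      have hCx : 0 ≤ C1 * x := mul_nonneg hC1.le hx0.le
      have hCx1 : 0 ≤ 1 + C1 * x := by linarith
      have hK0 : 0 ≤ K := by linarith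
      calc 2 * (C4 * (1 + C1 * x) ^ (m + 2)) * (C5 * K ^ (m + 2))
          ≤ 2 * (C4 * ((1 + C1) * x) ^ (m + 2)) * (C5 * K ^ (m + 2)) := by gcongr
        _ = C8 * x ^ (2 * (m + 2)) := by
            rw [hK, hC8, mul_pow, mul_pow, two_mul (m + 2), pow_add x]; ring
    -- the bound of one major cube
    have hone : ∀ lb ∈ LM, ∫ q in Metric.closedBall (0 : EE (m + 1)) (dl (m + 1) R),
        ‖pc ch Lt sg lam th a (bk Lt l s lb) q‖ ^ 2 ≤ C3 * (C9 * x ^ 4 * (2 * G⁻¹)) * ∑ j ∈ bk Lt l s lb, ‖a j‖ ^ 2 := by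
      intro lb hlb
      have hBm : ∀ j ∈ bk Lt l s lb, j ∈ s ∧ cbl l (Lt.fr j) = lb := by
        intro j hj
        rw [bk, Finset.mem_filter] at hj
        exact hj
      refine onecube hc ch Lt C1 C2 C3 c8 x th lam sg (sf lb) G (z0 lb) (j1 lb) (bk Lt l s lb) a hC1 hC2 hC3 hA0 hlam
        hx1 hth0 (hsf lb hlb) (hz0 lb hlb) (hz1 lb hlb) hx8 (hdir lb hlb) ?_ ?_ hthG hthrG hrlam ?_ ?_
      · intro j hj
        obtain ⟨h1, h2⟩ := hBm j hj
        exact ⟨hs j h1, hcube j (j1 lb) (by rw [h2, hj1 lb hlb])⟩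
      · intro j hj j' hj'
        have h1 := (hBm j hj).2
        have h2 := (hBm j' hj').2
        rw [hl] at h1 h2
        rw [h1, h2]
      · intro rho th' sg' s' a' h1 h2 h3 h4 h5
        exact hmb ch hdm Lt (z0 lb) lam rho th' sg' s' a' (hz0 lb hlb) hlam h1 h2 h3 h4 h5
      · intro BB h1 h2 h3
        exact ho ch Lt lam th sg BB _ a phP hlam hth hth4 hsg (Or.inl rfl) h1 h2 h3
    have hmajsum : ∀ q, pc ch Lt sg lam th a s2 q = ∑ lb ∈ LM, pc ch Lt sg lam th a (bk Lt l s lb) q := by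
      intro q
      unfold pc
      have h1 : ∀ j ∈ s2, cbl l (Lt.fr j) ∈ LM := by
        intro j hj
        rw [hs2, Finset.mem_filter] at hj
        rw [hLM, Finset.mem_filter]
        exact ⟨Finset.mem_image_of_mem _ hj.1, hj.2⟩
      rw [← Finset.sum_fiberwise_of_maps_to h1]
      refine Finset.sum_congr rfl fun lb hlb => ?_
      refine Finset.sum_congr ?_ fun _ _ => rfl
      ext j
      rw [hLM, Finset.mem_filter] at hlb
      rw [Finset.mem_filter, hs2, Finset.mem_filter, bk, Finset.mem_filter]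
      constructor
      · rintro ⟨⟨h2, -⟩, h3⟩; exact ⟨h2, h3⟩
      · rintro ⟨h2, h3⟩; exact ⟨⟨h2, by rw [h3]; exact hlb.2⟩, h3⟩
    have hsumlb : ∑ lb ∈ LM, ∑ j ∈ bk Lt l s lb, ‖a j‖ ^ 2 ≤ ∑ j ∈ s, ‖a j‖ ^ 2 := by
      calc ∑ lb ∈ LM, ∑ j ∈ bk Lt l s lb, ‖a j‖ ^ 2
          ≤ ∑ lb ∈ s.image (fun j => cbl l (Lt.fr j)), ∑ j ∈ bk Lt l s lb, ‖a j‖ ^ 2 := by
            apply Finset.sum_le_sum_of_subset_of_nonneg (Finset.filter_subset _ _)
            intro _ _ _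
            exact Finset.sum_nonneg fun _ _ => sq_nonneg _
        _ = ∑ j ∈ s, ‖a j‖ ^ 2 :=
            Finset.sum_fiberwise_of_maps_to (fun j hj => Finset.mem_image_of_mem _ hj) _
    have hmajt : ∫ q in Metric.closedBall (0 : EE (m + 1)) (dl (m + 1) R), ‖pc ch Lt sg lam th a s2 q‖ ^ 2 ≤
        C8 * (C3 * (C9 * 2)) * Q⁻¹ * ∑ j ∈ s, ‖a j‖ ^ 2 := by
      simp only [hmajsum]
      refine (int_sum (dl (m + 1) R) LM (fun lb => pc ch Lt sg lam th a (bk Lt l s lb))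
        (fun lb => cont_pc ch Lt sg lam th a _)).trans ?_
      have hpow : x ^ (2 * (m + 2)) * x ^ 4 * G⁻¹ = Q⁻¹ := by
        rw [← hQE1, hE1, ← pow_add, hx, ← pow_mul, pow_succ]
        have : Q ^ (E * (2 * (m + 2) + 4)) ≠ 0 := by positivity
        field_simp
      calc (LM.card : ℝ) * ∑ lb ∈ LM, ∫ q in Metric.closedBall (0 : EE (m + 1)) (dl (m + 1) R),
            ‖pc ch Lt sg lam th a (bk Lt l s lb) q‖ ^ 2
          ≤ (C8 * x ^ (2 * (m + 2))) * ∑ lb ∈ LM, (C3 * (C9 * x ^ 4 * (2 * G⁻¹)) * ∑ j ∈ bk Lt l s lb, ‖a j‖ ^ 2) := by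
            have h0 : 0 ≤ C8 * x ^ (2 * (m + 2)) := mul_nonneg hC80.le (pow_nonneg hx0.le _)
            refine mul_le_mul hcard (Finset.sum_le_sum fun lb hlb => hone lb hlb) ?_ h0
            exact Finset.sum_nonneg fun lb _ => integral_nonneg fun q => sq_nonneg _
        _ = (C8 * (C3 * (C9 * 2))) * (x ^ (2 * (m + 2)) * x ^ 4 * G⁻¹) * ∑ lb ∈ LM, ∑ j ∈ bk Lt l s lb, ‖a j‖ ^ 2 := by
            rw [← Finset.mul_sum]; ring
        _ ≤ (C8 * (C3 * (C9 * 2))) * (x ^ (2 * (m + 2)) * x ^ 4 * G⁻¹) * ∑ j ∈ s, ‖a j‖ ^ 2 := by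
            gcongr
        _ = _ := by rw [hpow]
    have hQfin : Q⁻¹ ≤ th ^ c0 + (th * lam ^ (1 / 3 : ℝ)) ^ (-c0) := by
      have h3 : 0 < (th * lam ^ (1 / 3 : ℝ)) ^ (-c0) := Real.rpow_pos_of_pos (by positivity) _
      have h4 : 0 < th ^ c0 := Real.rpow_pos_of_pos hth0 _
      rw [hQ, ← Real.rpow_neg hG0.le, hG]
      rcases min_choice th⁻¹ (th * lam ^ (1 / 3 : ℝ)) with h | h
      · rw [h, Real.inv_rpow hth0.le, Real.rpow_neg hth0.le, inv_inv]; linarith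
      · rw [h]; linarith
    simp only [hsplit]
    refine (int_two _ _ _ (cont_pc ch Lt sg lam th a s1) (cont_pc ch Lt sg lam th a s2)).trans ?_
    calc 2 * (∫ q in Metric.closedBall (0 : EE (m + 1)) (dl (m + 1) R), ‖pc ch Lt sg lam th a s1 q‖ ^ 2) +
          2 * (∫ q in Metric.closedBall (0 : EE (m + 1)) (dl (m + 1) R), ‖pc ch Lt sg lam th a s2 q‖ ^ 2)
        ≤ 2 * (C3 * (C1 * Q⁻¹) * ∑ j ∈ s, ‖a j‖ ^ 2) + 2 * (C8 * (C3 * (C9 * 2)) * Q⁻¹ * ∑ j ∈ s, ‖a j‖ ^ 2) := by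
          gcongr
      _ = (2 * (C3 * C1) + 2 * (C8 * (C3 * (C9 * 2)))) * Q⁻¹ * ∑ j ∈ s, ‖a j‖ ^ 2 := by ring
      _ ≤ (C3 * C6 * (c9 ^ c0)⁻¹ + (2 * (C3 * C1) + 2 * (C8 * (C3 * (C9 * 2))))) *
          (th ^ c0 + (th * lam ^ (1 / 3 : ℝ)) ^ (-c0)) * ∑ j ∈ s, ‖a j‖ ^ 2 := by
          have h5 : 0 < C3 * C6 * (c9 ^ c0)⁻¹ :=
            mul_pos (mul_pos hC3 hC6) (inv_pos.2 (Real.rpow_pos_of_pos hc90 c0))
          have h6 : 0 < 2 * (C3 * C1) + 2 * (C8 * (C3 * (C9 * 2))) := by positivity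
          refine mul_le_mul_of_nonneg_right ?_ hSa
          refine mul_le_mul ?_ hQfin (inv_nonneg.2 hQ0.le) ?_
          · exact le_add_of_nonneg_left h5.le
          · exact add_nonneg h5.le h6.le

end Pool.Agent.Lib.MP_a8dae7_an.UN.MJM
end

section
/-!
# MP_a8dae7_an, UN, module PL: frequencies in one plane (`theorem specPL : SpecPL`)

The lattice points `j` with `⟨j, z0⟩` constant are determined by their coordinates `i ≠ i0`, `|z0 i0|` maximal.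
-/
set_option autoImplicit false

open MeasureTheory
open scoped ContDiff

namespace Pool.Agent.Lib.MP_a8dae7_an.UN.PLM

open Pool.Agent.Lib.MP_a8dae7_an.CV (EE zv ex pq pi2 AA sl bm)

/-- drop the coordinate `i0` -/
noncomputable def dr {k : ℕ} (i0 : Fin (k + 1)) : EE (k + 1) →ₗ[ℝ] EE k where
  toFun x := WithLp.toLp 2 fun i => x (i0.succAbove i)
  map_add' x y := by ext i; simp
  map_smul' a x := by ext i; simp

theorem dr_apply {k : ℕ} (i0 : Fin (k + 1)) (x : EE (k + 1)) (i : Fin k) : dr i0 x i = x (i0.succAbove i) := rfl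

/-- the extension orthogonal to `z` -/
noncomputable def Ext {k : ℕ} (z : Fin (k + 1) → ℝ) (i0 : Fin (k + 1)) : EE k →ₗ[ℝ] EE (k + 1) where
  toFun y := WithLp.toLp 2 (i0.insertNth (-(∑ i, z (i0.succAbove i) * y i) / z i0) (fun i => y i))
  map_add' x y := by
    ext i
    revert i
    rw [Fin.forall_iff_succAbove i0]
    constructor
    · simp only [PiLp.add_apply, Fin.insertNth_apply_same, mul_add, Finset.sum_add_distrib]
      ring
    · intro i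
      simp
  map_smul' a x := by
    ext i
    revert i
    rw [Fin.forall_iff_succAbove i0]
    constructor
    · simp only [PiLp.smul_apply, Fin.insertNth_apply_same, smul_eq_mul, RingHom.id_apply]
      have : ∀ i, z (i0.succAbove i) * (a * x i) = a * (z (i0.succAbove i) * x i) := fun i => by ring
      simp only [this, ← Finset.mul_sum]
      ring
    · intro i
      simp

theorem Ext_same {k : ℕ} (z : Fin (k + 1) → ℝ) (i0 : Fin (k + 1)) (y : EE k) :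
    Ext z i0 y i0 = -(∑ i, z (i0.succAbove i) * y i) / z i0 := by
  simp [Ext]

theorem Ext_succ {k : ℕ} (z : Fin (k + 1) → ℝ) (i0 : Fin (k + 1)) (y : EE k) (i : Fin k) :
    Ext z i0 y (i0.succAbove i) = y i := by
  simp [Ext]

theorem dr_Ext {k : ℕ} (z : Fin (k + 1) → ℝ) (i0 : Fin (k + 1)) (y : EE k) : dr i0 (Ext z i0 y) = y := by
  ext i
  rw [dr_apply, Ext_succ]

theorem Ext_dr {k : ℕ} (z : Fin (k + 1) → ℝ) (i0 : Fin (k + 1)) (h0 : z i0 ≠ 0) (x : EE (k + 1))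
    (hx : ∑ i, x i * z i = 0) : Ext z i0 (dr i0 x) = x := by
  ext i
  revert i
  rw [Fin.forall_iff_succAbove i0]
  constructor
  · rw [Ext_same]
    rw [Fin.sum_univ_succAbove _ i0] at hx
    have h1 : ∑ i, z (i0.succAbove i) * dr i0 x i = ∑ i, x (i0.succAbove i) * z (i0.succAbove i) :=
      Finset.sum_congr rfl fun i _ => by rw [dr_apply]; ring
    rw [h1, div_eq_iff h0]
    linarith
  · intro i
    rw [Ext_succ, dr_apply]

theorem norm_dr_le {k : ℕ} (i0 : Fin (k + 1)) (x : EE (k + 1)) : ‖dr i0 x‖ ≤ ‖x‖ := by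
  have h1 : ‖dr i0 x‖ ^ 2 ≤ ‖x‖ ^ 2 := by
    rw [EuclideanSpace.norm_sq_eq, EuclideanSpace.norm_sq_eq, Fin.sum_univ_succAbove _ i0]
    have h2 : ∑ i, ‖dr i0 x i‖ ^ 2 = ∑ i, ‖x (i0.succAbove i)‖ ^ 2 :=
      Finset.sum_congr rfl fun i _ => by rw [dr_apply]
    rw [h2]
    have := sq_nonneg ‖x i0‖
    linarith
  exact (pow_le_pow_iff_left₀ (norm_nonneg _) (norm_nonneg _) two_ne_zero).1 h1

theorem norm_Ext_le {k : ℕ} (z : Fin (k + 1) → ℝ) (i0 : Fin (k + 1)) (h0 : z i0 ≠ 0)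
    (hz : ∀ i, |z i| ≤ |z i0|) (y : EE k) : ‖Ext z i0 y‖ ≤ (k + 1) * ‖y‖ := by
  have h00 : 0 < |z i0| := abs_pos.2 h0
  have h1 : |Ext z i0 y i0| ≤ ∑ i, |y i| := by
    rw [Ext_same, abs_div, abs_neg, div_le_iff₀ h00, Finset.sum_mul]
    refine (Finset.abs_sum_le_sum_abs _ _).trans (Finset.sum_le_sum fun i _ => ?_)
    rw [abs_mul, mul_comm]
    exact mul_le_mul_of_nonneg_left (hz _) (abs_nonneg _)
  have h2 : (∑ i, |y i|) ^ 2 ≤ k * ∑ i, |y i| ^ 2 := by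
    have := sq_sum_le_card_mul_sum_sq (s := (Finset.univ : Finset (Fin k))) (f := fun i => |y i|)
    simpa using this
  have h3 : ‖Ext z i0 y‖ ^ 2 ≤ (k + 1) * ‖y‖ ^ 2 := by
    rw [EuclideanSpace.norm_sq_eq, EuclideanSpace.norm_sq_eq, Fin.sum_univ_succAbove _ i0]
    simp only [Ext_succ, Real.norm_eq_abs]
    have h4 : |Ext z i0 y i0| ^ 2 ≤ (∑ i, |y i|) ^ 2 := by gcongr
    nlinarith
  have h5 : ‖Ext z i0 y‖ ^ 2 ≤ ((k + 1) * ‖y‖) ^ 2 := by
    have hk : (0 : ℝ) ≤ k := Nat.cast_nonneg k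
    nlinarith [sq_nonneg ‖y‖, mul_nonneg hk (sq_nonneg ‖y‖), mul_nonneg (mul_nonneg hk hk) (sq_nonneg ‖y‖)]
  exact (pow_le_pow_iff_left₀ (norm_nonneg _) (by positivity) two_ne_zero).1 h5

theorem inner_zv {D : ℕ} (x : EE D) (z : Fin D → ℤ) : inner ℝ x (zv z) = ∑ i, x i * (z i : ℝ) := by
  rw [PiLp.inner_apply]
  refine Finset.sum_congr rfl fun i _ => ?_
  simp [zv, mul_comm]

theorem inner_du {D : ℕ} {A : ℝ} (Lt : Lat D A) (z : Fin D → ℤ) (w : EE D) :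
    inner ℝ w (Lt.du z) = 2 * Real.pi * inner ℝ (Lt.B.symm w) (zv z) := by
  unfold Lat.du
  rw [real_inner_smul_right, ContinuousLinearMap.adjoint_inner_right]
  rfl

theorem inner_B_du {D : ℕ} {A : ℝ} (Lt : Lat D A) (z : Fin D → ℤ) (x : EE D) :
    inner ℝ (Lt.B x) (Lt.du z) = 2 * Real.pi * inner ℝ x (zv z) := by
  rw [inner_du, Lt.B.symm_apply_apply]

theorem zv_inj {D : ℕ} {z z' : Fin D → ℤ} (h : zv z = zv z') : z = z' := by
  funext i
  have h1 : zv z i = zv z' i := by rw [h]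
  simp only [zv] at h1
  exact_mod_cast h1

theorem zv_sub {D : ℕ} (z z' : Fin D → ℤ) : zv (z - z') = zv z - zv z' := by
  ext i
  simp [zv]

theorem zv_ne {D : ℕ} {z : Fin D → ℤ} (h : z ≠ 0) : zv z ≠ 0 := fun h0 => h (zv_inj (by
  rw [h0]
  ext i
  simp [zv]))

theorem du_ne {D : ℕ} {A : ℝ} (Lt : Lat D A) {z : Fin D → ℤ} (h : z ≠ 0) : Lt.du z ≠ 0 := by
  intro h0
  have h1 := inner_B_du Lt z (zv z)
  rw [h0, inner_zero_right, real_inner_self_eq_norm_sq] at h1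
  have h2 : 0 < ‖zv z‖ := norm_pos_iff.2 (zv_ne h)
  have h3 := Real.pi_pos
  have : 0 < 2 * Real.pi * ‖zv z‖ ^ 2 := by positivity
  linarith

/-- the isometry `iota` onto the orthogonal complement of `u ≠ 0` -/
theorem iota_adj {k : ℕ} (iota : EE k →ₗᵢ[ℝ] EE (k + 1)) (u : EE (k + 1)) (hu : u ≠ 0)
    (h : ∀ x, inner ℝ u (iota x) = 0) (w : EE (k + 1)) (hw : inner ℝ u w = 0) :
    iota (ContinuousLinearMap.adjoint iota.toContinuousLinearMap w) = w := by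
  have h1 : LinearMap.range iota.toLinearMap ≤ (Submodule.span ℝ {u})ᗮ := by
    rintro _ ⟨x, rfl⟩
    rw [Submodule.mem_orthogonal_singleton_iff_inner_right]
    exact h x
  have h2 : Module.finrank ℝ (LinearMap.range iota.toLinearMap) = k := by
    rw [LinearMap.finrank_range_of_inj iota.injective]
    simp
  have h3 : Module.finrank ℝ ((Submodule.span ℝ {u})ᗮ : Submodule ℝ (EE (k + 1))) = k := by
    have h4 := Submodule.finrank_add_finrank_orthogonal (Submodule.span ℝ {u})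
    rw [finrank_span_singleton hu] at h4
    simp only [finrank_euclideanSpace, Fintype.card_fin] at h4
    omega
  have h4 := Submodule.eq_of_le_of_finrank_eq h1 (h2.trans h3.symm)
  have h5 : w ∈ LinearMap.range iota.toLinearMap := by
    rw [h4, Submodule.mem_orthogonal_singleton_iff_inner_right]
    exact hw
  obtain ⟨y, hy⟩ := h5
  have hy' : w = iota y := hy.symm
  have h6 : ContinuousLinearMap.adjoint iota.toContinuousLinearMap (iota y) = y := by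
    refine ext_inner_left ℝ fun v => ?_
    rw [ContinuousLinearMap.adjoint_inner_right]
    exact iota.inner_map_map v y
  rw [hy', h6]

theorem norm_adj_le {k : ℕ} (iota : EE k →ₗᵢ[ℝ] EE (k + 1)) (w : EE (k + 1)) :
    ‖ContinuousLinearMap.adjoint iota.toContinuousLinearMap w‖ ≤ ‖w‖ := by
  have h1 : ‖ContinuousLinearMap.adjoint iota.toContinuousLinearMap‖ ≤ 1 := by
    rw [LinearIsometryEquiv.norm_map]
    exact iota.norm_toContinuousLinearMap_le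
  calc ‖ContinuousLinearMap.adjoint iota.toContinuousLinearMap w‖
      ≤ ‖ContinuousLinearMap.adjoint iota.toContinuousLinearMap‖ * ‖w‖ := ContinuousLinearMap.le_opNorm _ _
    _ ≤ 1 * ‖w‖ := by gcongr
    _ = ‖w‖ := one_mul _

theorem specPL : SpecPL := by
  intro k A hk hA Lt z0 hz0 iota hiota s p hs
  set z : Fin (k + 1) → ℝ := fun i => (z0 i : ℝ) with hz
  obtain ⟨i0, hi0⟩ := Finite.exists_max (fun i => |z i|)
  have h0 : z i0 ≠ 0 := by
    intro h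
    apply hz0
    funext i
    have h1 := hi0 i
    rw [h, abs_zero] at h1
    have h2 : z i = 0 := abs_eq_zero.1 (le_antisymm h1 (abs_nonneg _))
    simp only [hz] at h2
    exact_mod_cast h2
  set u := Lt.du z0 with hu
  have hu0 : u ≠ 0 := du_ne Lt hz0
  set adj := ContinuousLinearMap.adjoint iota.toContinuousLinearMap with hadj
  -- the two linear maps
  set f : EE k →ₗ[ℝ] EE k := (adj : EE (k + 1) →ₗ[ℝ] EE k) ∘ₗ (Lt.B : EE (k + 1) →ₗ[ℝ] EE (k + 1)) ∘ₗ Ext z i0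
    with hf
  set gi : EE k →ₗ[ℝ] EE k := dr i0 ∘ₗ (Lt.B.symm : EE (k + 1) →ₗ[ℝ] EE (k + 1)) ∘ₗ iota.toLinearMap with hgi
  have hfa : ∀ y, f y = adj (Lt.B (Ext z i0 y)) := fun y => rfl
  have hga : ∀ w, gi w = dr i0 (Lt.B.symm (iota w)) := fun w => rfl
  have hEB : ∀ w : EE (k + 1), inner ℝ u w = 0 → Ext z i0 (dr i0 (Lt.B.symm w)) = Lt.B.symm w := by
    intro w hw
    apply Ext_dr z i0 h0
    rw [← inner_zv]
    rw [real_inner_comm, hu, inner_du] at hw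
    have h3 := Real.two_pi_pos.ne'
    exact (mul_eq_zero.1 hw).resolve_left h3
  have hfg : f ∘ₗ gi = LinearMap.id := by
    ext w : 1
    rw [LinearMap.comp_apply, hga, hfa, hEB _ (hiota w), Lt.B.apply_symm_apply, LinearMap.id_apply]
    refine ext_inner_left ℝ fun v => ?_
    rw [hadj, ContinuousLinearMap.adjoint_inner_right]
    exact iota.inner_map_map v w
  have hgf : gi ∘ₗ f = LinearMap.id := by
    have : f * gi = 1 := hfg
    exact (mul_eq_one_comm.1 this : gi * f = 1)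
  set Bl : EE k ≃ₗ[ℝ] EE k := LinearEquiv.ofLinearMap f gi hfg hgf with hBl
  set B' : EE k ≃L[ℝ] EE k := Bl.toContinuousLinearEquiv with hB'
  have hB'a : ∀ y, B' y = adj (Lt.B (Ext z i0 y)) := fun y => rfl
  have hB's : ∀ w, B'.symm w = dr i0 (Lt.B.symm (iota w)) := fun w => rfl
  have hA0 : 0 ≤ A := by linarith
  have hnB : ‖(B' : EE k →L[ℝ] EE k)‖ ≤ (k + 1) * A := by
    refine ContinuousLinearMap.opNorm_le_bound _ (by positivity) fun y => ?_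
    have h1 : ‖Lt.B (Ext z i0 y)‖ ≤ A * ((k + 1) * ‖y‖) := by
      calc ‖Lt.B (Ext z i0 y)‖ ≤ ‖(Lt.B : EE (k + 1) →L[ℝ] EE (k + 1))‖ * ‖Ext z i0 y‖ :=
            (Lt.B : EE (k + 1) →L[ℝ] EE (k + 1)).le_opNorm _
        _ ≤ A * ((k + 1) * ‖y‖) := by
            gcongr
            · exact Lt.hB
            · exact norm_Ext_le z i0 h0 hi0 y
    calc ‖(B' : EE k →L[ℝ] EE k) y‖ = ‖adj (Lt.B (Ext z i0 y))‖ := rfl
      _ ≤ ‖Lt.B (Ext z i0 y)‖ := norm_adj_le iota _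
      _ ≤ A * ((k + 1) * ‖y‖) := h1
      _ = (k + 1) * A * ‖y‖ := by ring
  have hnB' : ‖(B'.symm : EE k →L[ℝ] EE k)‖ ≤ (k + 1) * A := by
    refine ContinuousLinearMap.opNorm_le_bound _ (by positivity) fun w => ?_
    calc ‖(B'.symm : EE k →L[ℝ] EE k) w‖ = ‖dr i0 (Lt.B.symm (iota w))‖ := rfl
      _ ≤ ‖Lt.B.symm (iota w)‖ := norm_dr_le _ _
      _ ≤ ‖(Lt.B.symm : EE (k + 1) →L[ℝ] EE (k + 1))‖ * ‖iota w‖ :=
          (Lt.B.symm : EE (k + 1) →L[ℝ] EE (k + 1)).le_opNorm _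
      _ ≤ A * ‖w‖ := by
          rw [iota.norm_map]
          gcongr
          exact Lt.hB'
      _ ≤ (k + 1) * A * ‖w‖ := by
          have hk0 : (0 : ℝ) ≤ k := Nat.cast_nonneg k
          nlinarith [mul_nonneg (mul_nonneg hk0 hA0) (norm_nonneg w)]
  set g : (Fin (k + 1) → ℤ) → (Fin k → ℤ) := fun j i => j (i0.succAbove i) with hg
  have hzg : ∀ j, zv (g j) = dr i0 (zv j) := by
    intro j
    ext i
    rw [dr_apply]
    simp [zv, hg]
  rcases s.eq_empty_or_nonempty with hse | ⟨j1, hj1⟩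
  · refine ⟨⟨B', 0, hnB, hnB'⟩, g, ?_, ?_⟩
    · rw [hse]
      simp
    · rw [hse]
      simp
  · have hc : ∀ j ∈ s, inner ℝ u (Lt.fr j - (p / ‖u‖ ^ 2) • u) = 0 := by
      intro j hj
      rw [inner_sub_right, real_inner_smul_right, real_inner_comm, hs j hj, real_inner_self_eq_norm_sq]
      have : ‖u‖ ≠ 0 := norm_ne_zero_iff.2 hu0
      field_simp
      ring
    have key : ∀ j ∈ s, iota (B' (zv (g j)) + (adj (Lt.fr j1 - (p / ‖u‖ ^ 2) • u) - B' (zv (g j1)))) =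
        Lt.fr j - (p / ‖u‖ ^ 2) • u := by
      intro j hj
      have hd : inner ℝ u (Lt.B (zv j - zv j1)) = 0 := by
        have h1 : Lt.B (zv j - zv j1) = (Lt.fr j - (p / ‖u‖ ^ 2) • u) - (Lt.fr j1 - (p / ‖u‖ ^ 2) • u) := by
          unfold Lat.fr
          rw [map_sub]
          abel
        rw [h1, inner_sub_right, hc j hj, hc j1 hj1, sub_zero]
      have h2 : B' (zv (g j)) - B' (zv (g j1)) = adj (Lt.B (zv j - zv j1)) := by
        rw [← map_sub, hB'a, hzg, hzg, ← map_sub]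
        have h3 := hEB _ hd
        rw [Lt.B.symm_apply_apply] at h3
        rw [h3]
      have h4 : B' (zv (g j)) + (adj (Lt.fr j1 - (p / ‖u‖ ^ 2) • u) - B' (zv (g j1))) =
          adj (Lt.B (zv j - zv j1)) + adj (Lt.fr j1 - (p / ‖u‖ ^ 2) • u) := by
        rw [← h2]
        abel
      rw [h4, map_add, iota_adj iota u hu0 hiota _ hd, iota_adj iota u hu0 hiota _ (hc j1 hj1)]
      unfold Lat.fr
      rw [map_sub]
      abel
    refine ⟨⟨B', adj (Lt.fr j1 - (p / ‖u‖ ^ 2) • u) - B' (zv (g j1)), hnB, hnB'⟩, g, ?_, ?_⟩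
    · intro j hj j' hj' hjj
      have h1 := key j hj
      have h2 := key j' hj'
      simp only [hjj] at h1
      rw [h1] at h2
      have h3 : Lt.fr j = Lt.fr j' := by
        have := congrArg (fun x => x + (p / ‖u‖ ^ 2) • u) h2
        simpa using this
      unfold Lat.fr at h3
      exact zv_inj (Lt.B.injective (add_right_cancel h3))
    · intro j hj
      exact key j hj

end Pool.Agent.Lib.MP_a8dae7_an.UN.PLM
end

section
/-!
# MP_a8dae7_an, UN: the induction step (SpecST): sum over the pieces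
-/
set_option autoImplicit false

open MeasureTheory
open scoped ContDiff

namespace Pool.Agent.Lib.MP_a8dae7_an.UN.STM

open Pool.Agent.Lib.MP_a8dae7_an.CV (EE zv ex pq pi2 AA sl bm PosAt PosCurved)
open Pool.Agent.Lib.MP_a8dae7_an.UN

lemma phP_cont : Continuous phP := by
  unfold phP
  exact (Real.smoothTransition.continuous.comp (by fun_prop)).sub
    (Real.smoothTransition.continuous.comp (by fun_prop))

lemma psi0_cont : Continuous psi0 := by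
  unfold psi0
  exact (continuous_const.sub (Real.smoothTransition.continuous.comp (by fun_prop))).sub
    (Real.smoothTransition.continuous.comp (by fun_prop))

lemma tele (s : ℝ) (I : ℕ) (h : s ≤ 2 ^ I) :
    ∑ i ∈ Finset.range I, phP (s / 2 ^ (i + 1)) = Real.smoothTransition (s - 1) := by
  have h1 : ∀ i ∈ Finset.range I, phP (s / 2 ^ (i + 1)) =
      (fun i : ℕ => Real.smoothTransition (s / 2 ^ i - 1)) i -
        (fun i : ℕ => Real.smoothTransition (s / 2 ^ i - 1)) (i + 1) := by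
    intro i _
    unfold phP
    have : 2 * (s / 2 ^ (i + 1)) = s / 2 ^ i := by rw [pow_succ]; field_simp
    rw [this]
  rw [Finset.sum_congr rfl h1, Finset.sum_range_sub']
  have h2 : Real.smoothTransition (s / 2 ^ I - 1) = 0 := by
    apply Real.smoothTransition.zero_of_nonpos
    have : s / 2 ^ I ≤ 1 := by rw [div_le_one (by positivity)]; exact h
    linarith
  simp only [h2, pow_zero, div_one, sub_zero]

lemma partition (s : ℝ) (I : ℕ) (h : |s| ≤ 2 ^ I) :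
    psi0 s + ∑ i ∈ Finset.range I, (phP (s / 2 ^ (i + 1)) + phP (-s / 2 ^ (i + 1))) = 1 := by
  rw [Finset.sum_add_distrib, tele s I (le_of_abs_le h), tele (-s) I ((neg_le_abs s).trans h)]
  unfold psi0
  ring

lemma norm_le_of_coord {D : ℕ} (x : EE D) (dl : ℝ) (hdl : 0 ≤ dl) (h : ∀ i, |x i| ≤ dl) : ‖x‖ ≤ D * dl := by
  have h0 : ‖x‖ ^ 2 ≤ (D * dl) ^ 2 := by
    rw [EuclideanSpace.norm_sq_eq]
    have h1 : ∑ i, ‖x i‖ ^ 2 ≤ ∑ _i : Fin D, dl ^ 2 := by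
      refine Finset.sum_le_sum fun i _ => ?_
      rw [Real.norm_eq_abs]
      exact pow_le_pow_left₀ (abs_nonneg _) (h i) 2
    rw [Finset.sum_const, Finset.card_univ, Fintype.card_fin, nsmul_eq_mul] at h1
    have h2 : (D : ℝ) ≤ (D : ℝ) ^ 2 := by
      rcases Nat.eq_zero_or_pos D with h | h
      · subst h; simp
      · have : (1 : ℝ) ≤ D := by exact_mod_cast h
        nlinarith
    calc ∑ i, ‖x i‖ ^ 2 ≤ (D : ℝ) * dl ^ 2 := h1
      _ ≤ (D : ℝ) ^ 2 * dl ^ 2 := by gcongr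
      _ = (D * dl) ^ 2 := by ring
  exact (abs_le_of_sq_le_sq' h0 (by positivity)).2

lemma cbl_norm {D : ℕ} (l : ℝ) (hl : 0 < l) (x y : EE D) (h : cbl l x = cbl l y) : ‖x - y‖ ≤ D * l := by
  refine norm_le_of_coord _ l hl.le fun i => ?_
  have h0 : ⌊x i / l⌋ = ⌊y i / l⌋ := congrFun h i
  have h1 := Int.abs_sub_lt_one_of_floor_eq_floor h0
  have h2 : x i / l - y i / l = (x i - y i) / l := by ring
  rw [h2, abs_div, abs_of_pos hl, div_lt_one hl] at h1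
  exact h1.le

lemma Nb_norm {k : ℕ} (lam : ℝ) (hlam : 1 ≤ lam) (n : EE (k + 1)) : ‖n - Nb lam n‖ ≤ lam / 64 := by
  set l : ℝ := lam ^ (2 / 3 : ℝ) / (64 * (k + 1)) with hl
  have hl0 : 0 < l := by
    have : 0 < lam ^ (2 / 3 : ℝ) := Real.rpow_pos_of_pos (by linarith) _
    positivity
  have h1 : ‖n - Nb lam n‖ ≤ ((k + 1 : ℕ) : ℝ) * l := by
    refine norm_le_of_coord _ l hl0.le fun i => ?_
    have h2 : (n - Nb lam n) i = n i - l * ⌊n i / l⌋ := rfl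
    rw [h2]
    have h3 := Int.floor_le (n i / l)
    have h4 := Int.lt_floor_add_one (n i / l)
    rw [le_div_iff₀ hl0] at h3
    rw [div_lt_iff₀ hl0] at h4
    rw [abs_le]
    constructor <;> nlinarith
  have h5 : lam ^ (2 / 3 : ℝ) ≤ lam := by
    calc lam ^ (2 / 3 : ℝ) ≤ lam ^ (1 : ℝ) := Real.rpow_le_rpow_of_exponent_le hlam (by norm_num)
      _ = lam := Real.rpow_one lam
  have h6 : ((k + 1 : ℕ) : ℝ) * l = lam ^ (2 / 3 : ℝ) / 64 := by
    rw [hl]; push_cast; field_simp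
  rw [h6] at h1
  linarith

lemma dl_le {k : ℕ} {R : ℝ} (hR : 0 < R) : dl k R ≤ R := by
  unfold dl
  apply div_le_self hR.le
  have : (1 : ℝ) ≤ 32 ^ k := one_le_pow₀ (by norm_num)
  linarith

lemma sn_bound {k : ℕ} {c R : ℝ} {M : ℕ → ℝ} (hc : Cls c R M) (ch : UChart k c R M) (lam : ℝ) (hlam : 1 ≤ lam)
    (n : EE (k + 1)) (hn : ‖n‖ = lam) (q : EE k) (hq : ‖q‖ ≤ R) : |sn ch (Nb lam n) q| ≤ 2 * lam := by
  unfold sn
  have h1 : ‖Nb lam n‖ ≤ lam + lam / 64 := by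
    have h2 : Nb lam n = n - (n - Nb lam n) := by abel
    rw [h2]
    refine (norm_sub_le _ _).trans ?_
    rw [hn]
    have := Nb_norm lam hlam n
    linarith
  have h3 : ‖ch.nu - ch.J q‖ ≤ 1 + 1 / 16 := by
    refine (norm_sub_le _ _).trans ?_
    rw [ch.nu_one, ch.J.norm_map]
    have := hc.R_le
    linarith
  refine (abs_real_inner_le_norm _ _).trans ?_
  calc ‖Nb lam n‖ * ‖ch.nu - ch.J q‖ ≤ (lam + lam / 64) * (1 + 1 / 16) := by
        gcongr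
    _ ≤ 2 * lam := by linarith

/-- a piece of the sum -/
noncomputable def pc {k : ℕ} {c R : ℝ} {M : ℕ → ℝ} (ch : UChart k c R M) {A : ℝ} (Lt : Lat (k + 1) A) (f : ℝ → ℝ)
    (sg lam th : ℝ) (s : Finset (Fin (k + 1) → ℤ)) (a : (Fin (k + 1) → ℤ) → ℂ) (q : EE k) : ℂ :=
  ∑ j ∈ s, (am ch f sg lam th (Lt.fr j) q : ℂ) * (a j * ex (Lt.fr j) (ch.X q))

lemma ex_cont {d : ℕ} (n : EE d) : Continuous fun x : EE d => ex n x := by
  unfold ex
  fun_prop

lemma pc_cont {k : ℕ} {c R : ℝ} {M : ℕ → ℝ} (ch : UChart k c R M) {A : ℝ} (Lt : Lat (k + 1) A) (f : ℝ → ℝ)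
    (hf : Continuous f) (sg lam th : ℝ) (s : Finset (Fin (k + 1) → ℤ)) (a : (Fin (k + 1) → ℤ) → ℂ) :
    Continuous (pc ch Lt f sg lam th s a) := by
  unfold pc
  refine continuous_finsetSum _ fun j _ => ?_
  have hX : Continuous ch.X := ch.smooth.continuous
  have hJ : Continuous ch.J := ch.J.continuous
  have h1 : Continuous fun q : EE k => am ch f sg lam th (Lt.fr j) q := by
    unfold am sn
    refine hf.comp ?_
    fun_prop
  exact (Complex.continuous_ofReal.comp h1).mul (continuous_const.mul ((ex_cont _).comp hX))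

lemma pieces {k : ℕ} {c R : ℝ} {M : ℕ → ℝ} (hc : Cls c R M) (ch : UChart k c R M) {A : ℝ} (Lt : Lat (k + 1) A)
    (lam : ℝ) (hlam : 1 ≤ lam) (s : Finset (Fin (k + 1) → ℤ)) (a : (Fin (k + 1) → ℤ) → ℂ)
    (hs : ∀ j ∈ s, ‖Lt.fr j‖ = lam) (I : ℕ) (hI : 2 * lam ^ (1 / 3 : ℝ) ≤ 2 ^ I) (q : EE k) (hq : ‖q‖ ≤ R) :
    es Lt s a (ch.X q) = pc ch Lt psi0 1 lam (lam ^ (-(1 / 3 : ℝ))) s a q +
      ∑ i ∈ Finset.range I, (pc ch Lt phP 1 lam (2 ^ (i + 1) * lam ^ (-(1 / 3 : ℝ))) s a q +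
        pc ch Lt phP (-1) lam (2 ^ (i + 1) * lam ^ (-(1 / 3 : ℝ))) s a q) := by
  unfold es pc
  simp only [← Finset.sum_add_distrib]
  rw [Finset.sum_comm, ← Finset.sum_add_distrib]
  refine Finset.sum_congr rfl fun j hj => ?_
  have hl0 : 0 < lam := by linarith
  have hm0 : 0 < lam ^ (-(1 / 3 : ℝ)) := Real.rpow_pos_of_pos hl0 _
  have hmm : lam ^ (-(1 / 3 : ℝ)) * lam ^ (1 / 3 : ℝ) = 1 := by
    rw [← Real.rpow_add hl0]; simp
  set u : ℝ := sn ch (Nb lam (Lt.fr j)) q / (lam * lam ^ (-(1 / 3 : ℝ))) with hu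
  have hub : |u| ≤ 2 ^ I := by
    rw [hu, abs_div, abs_of_pos (by positivity : 0 < lam * lam ^ (-(1 / 3 : ℝ)))]
    rw [div_le_iff₀ (by positivity)]
    refine (sn_bound hc ch lam hlam (Lt.fr j) (hs j hj) q hq).trans ?_
    calc 2 * lam = (2 * lam ^ (1 / 3 : ℝ)) * (lam * lam ^ (-(1 / 3 : ℝ))) := by
          have : (2 * lam ^ (1 / 3 : ℝ)) * (lam * lam ^ (-(1 / 3 : ℝ))) =
            2 * lam * (lam ^ (-(1 / 3 : ℝ)) * lam ^ (1 / 3 : ℝ)) := by ring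
          rw [this, hmm, mul_one]
      _ ≤ 2 ^ I * (lam * lam ^ (-(1 / 3 : ℝ))) := by gcongr
  have hpart := partition u I hub
  have h1 : am ch psi0 1 lam (lam ^ (-(1 / 3 : ℝ))) (Lt.fr j) q = psi0 u := by
    unfold am; rw [one_mul]
  have h2 : ∀ i : ℕ, am ch phP 1 lam (2 ^ (i + 1) * lam ^ (-(1 / 3 : ℝ))) (Lt.fr j) q = phP (u / 2 ^ (i + 1)) := by
    intro i
    unfold am
    congr 1
    rw [hu]
    field_simp
  have h3 : ∀ i : ℕ, am ch phP (-1) lam (2 ^ (i + 1) * lam ^ (-(1 / 3 : ℝ))) (Lt.fr j) q =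
      phP (-u / 2 ^ (i + 1)) := by
    intro i
    unfold am
    congr 1
    rw [hu]
    field_simp
  simp only [h1, h2, h3, ← add_mul]
  rw [← Finset.sum_mul, ← add_mul]
  have h4 : (psi0 u : ℂ) + ∑ i ∈ Finset.range I, ((phP (u / 2 ^ (i + 1)) : ℂ) + (phP (-u / 2 ^ (i + 1)) : ℂ)) = 1 := by
    exact_mod_cast congrArg (fun x : ℝ => (x : ℂ)) hpart
  rw [h4, one_mul]

/-- Cauchy-Schwarz with weights -/
lemma weighted (I : ℕ) (w : ℕ → ℝ) (hw : ∀ i, 0 < w i) (x : ℕ → ℂ) :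
    ‖∑ i ∈ Finset.range I, x i‖ ^ 2 ≤ (∑ i ∈ Finset.range I, w i) * ∑ i ∈ Finset.range I, ‖x i‖ ^ 2 / w i := by
  have h1 : ‖∑ i ∈ Finset.range I, x i‖ ≤ ∑ i ∈ Finset.range I, ‖x i‖ := norm_sum_le _ _
  have h2 : (∑ i ∈ Finset.range I, ‖x i‖) ^ 2 ≤
      (∑ i ∈ Finset.range I, w i) * ∑ i ∈ Finset.range I, ‖x i‖ ^ 2 / w i := by
    refine Finset.sum_sq_le_sum_mul_sum_of_sq_le_mul _ (fun i _ => (hw i).le) (fun i _ => ?_) (fun i _ => ?_)
    · have := hw i; positivity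
    · have := (hw i).ne'
      refine le_of_eq ?_
      field_simp
  have h3 : ‖∑ i ∈ Finset.range I, x i‖ ^ 2 ≤ (∑ i ∈ Finset.range I, ‖x i‖) ^ 2 :=
    pow_le_pow_left₀ (norm_nonneg _) h1 2
  exact h3.trans h2

/-- the sum over the pieces -/
lemma sum_pieces {k : ℕ} (rad : ℝ) (I : ℕ) (w : ℕ → ℝ) (hw : ∀ i, 0 < w i) (W : ℝ)
    (hW : ∑ i ∈ Finset.range I, w i ≤ W) (G F0 : EE k → ℂ) (P N : ℕ → EE k → ℂ)
    (hF0 : Continuous F0) (hP : ∀ i, Continuous (P i)) (hN : ∀ i, Continuous (N i)) (hG : Continuous G)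
    (hsum : ∀ q, ‖q‖ ≤ rad → G q = F0 q + ∑ i ∈ Finset.range I, (P i q + N i q)) (C0 C1 S : ℝ) (hS : 0 ≤ S)
    (hC1 : 0 ≤ C1) (h0 : ∫ q in Metric.closedBall (0 : EE k) rad, ‖F0 q‖ ^ 2 ≤ C0 * S)
    (hPi : ∀ i ∈ Finset.range I, ∫ q in Metric.closedBall (0 : EE k) rad, ‖P i q‖ ^ 2 ≤ C1 * w i ^ 2 * S)
    (hNi : ∀ i ∈ Finset.range I, ∫ q in Metric.closedBall (0 : EE k) rad, ‖N i q‖ ^ 2 ≤ C1 * w i ^ 2 * S) :
    ∫ q in Metric.closedBall (0 : EE k) rad, ‖G q‖ ^ 2 ≤ (2 * C0 + 8 * W ^ 2 * C1) * S := by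
  have hW0 : 0 ≤ W := le_trans (Finset.sum_nonneg fun i _ => (hw i).le) hW
  have hpt : ∀ q, ‖q‖ ≤ rad → ‖G q‖ ^ 2 ≤ 2 * ‖F0 q‖ ^ 2 +
      ∑ i ∈ Finset.range I, (4 * W / w i) * (‖P i q‖ ^ 2 + ‖N i q‖ ^ 2) := by
    intro q hq
    rw [hsum q hq]
    have h1 : ‖F0 q + ∑ i ∈ Finset.range I, (P i q + N i q)‖ ^ 2 ≤
        2 * ‖F0 q‖ ^ 2 + 2 * ‖∑ i ∈ Finset.range I, (P i q + N i q)‖ ^ 2 := by
      have h2 := norm_add_le (F0 q) (∑ i ∈ Finset.range I, (P i q + N i q))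
      have h3 := norm_nonneg (F0 q + ∑ i ∈ Finset.range I, (P i q + N i q))
      nlinarith [sq_nonneg (‖F0 q‖ - ‖∑ i ∈ Finset.range I, (P i q + N i q)‖)]
    have h4 := weighted I w hw (fun i => P i q + N i q)
    have h5 : ∑ i ∈ Finset.range I, ‖P i q + N i q‖ ^ 2 / w i ≤
        ∑ i ∈ Finset.range I, (2 / w i) * (‖P i q‖ ^ 2 + ‖N i q‖ ^ 2) := by
      refine Finset.sum_le_sum fun i _ => ?_
      have h6 := norm_add_le (P i q) (N i q)
      have h7 := norm_nonneg (P i q + N i q)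
      have h8 : ‖P i q + N i q‖ ^ 2 ≤ 2 * (‖P i q‖ ^ 2 + ‖N i q‖ ^ 2) := by
        nlinarith [sq_nonneg (‖P i q‖ - ‖N i q‖)]
      have h9 := hw i
      calc ‖P i q + N i q‖ ^ 2 / w i ≤ 2 * (‖P i q‖ ^ 2 + ‖N i q‖ ^ 2) / w i := by gcongr
        _ = (2 / w i) * (‖P i q‖ ^ 2 + ‖N i q‖ ^ 2) := by ring
    have h10 : 0 ≤ ∑ i ∈ Finset.range I, (2 / w i) * (‖P i q‖ ^ 2 + ‖N i q‖ ^ 2) :=
      Finset.sum_nonneg fun i _ => by have := hw i; positivity
    have h11 : ‖∑ i ∈ Finset.range I, (P i q + N i q)‖ ^ 2 ≤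
        W * ∑ i ∈ Finset.range I, (2 / w i) * (‖P i q‖ ^ 2 + ‖N i q‖ ^ 2) := by
      refine h4.trans ?_
      have h12 : 0 ≤ ∑ i ∈ Finset.range I, ‖P i q + N i q‖ ^ 2 / w i :=
        Finset.sum_nonneg fun i _ => by have := hw i; positivity
      calc _ ≤ W * ∑ i ∈ Finset.range I, ‖P i q + N i q‖ ^ 2 / w i := by gcongr
        _ ≤ _ := by gcongr
    have h13 : 2 * (W * ∑ i ∈ Finset.range I, (2 / w i) * (‖P i q‖ ^ 2 + ‖N i q‖ ^ 2)) =
        ∑ i ∈ Finset.range I, (4 * W / w i) * (‖P i q‖ ^ 2 + ‖N i q‖ ^ 2) := by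
      rw [← mul_assoc, Finset.mul_sum]
      refine Finset.sum_congr rfl fun i _ => ?_
      ring
    linarith
  have hint : ∀ F : EE k → ℂ, Continuous F →
      IntegrableOn (fun q => ‖F q‖ ^ 2) (Metric.closedBall (0 : EE k) rad) := by
    intro F hF
    exact (hF.norm.pow 2).continuousOn.integrableOn_compact (isCompact_closedBall 0 rad)
  have hPN : ∀ i, IntegrableOn (fun q => (4 * W / w i) * (‖P i q‖ ^ 2 + ‖N i q‖ ^ 2))
      (Metric.closedBall (0 : EE k) rad) := fun i =>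
    ((hint _ (hP i)).add (hint _ (hN i))).const_mul _
  have hSm : IntegrableOn (fun q => ∑ i ∈ Finset.range I, (4 * W / w i) * (‖P i q‖ ^ 2 + ‖N i q‖ ^ 2))
      (Metric.closedBall (0 : EE k) rad) := integrable_finsetSum _ fun i _ => hPN i
  have h2F : IntegrableOn (fun q => 2 * ‖F0 q‖ ^ 2) (Metric.closedBall (0 : EE k) rad) :=
    (hint F0 hF0).const_mul 2
  have hintR : IntegrableOn (fun q => 2 * ‖F0 q‖ ^ 2 +
      ∑ i ∈ Finset.range I, (4 * W / w i) * (‖P i q‖ ^ 2 + ‖N i q‖ ^ 2)) (Metric.closedBall (0 : EE k) rad) :=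
    h2F.add hSm
  have hmono : ∫ q in Metric.closedBall (0 : EE k) rad, ‖G q‖ ^ 2 ≤
      ∫ q in Metric.closedBall (0 : EE k) rad, (2 * ‖F0 q‖ ^ 2 +
        ∑ i ∈ Finset.range I, (4 * W / w i) * (‖P i q‖ ^ 2 + ‖N i q‖ ^ 2)) := by
    refine setIntegral_mono_on (hint G hG) hintR measurableSet_closedBall fun q hq => ?_
    exact hpt q (by simpa using hq)
  refine hmono.trans ?_
  rw [integral_add h2F hSm, integral_const_mul, integral_finsetSum _ fun i _ => hPN i]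
  have hterm : ∀ i ∈ Finset.range I, ∫ q in Metric.closedBall (0 : EE k) rad,
      (4 * W / w i) * (‖P i q‖ ^ 2 + ‖N i q‖ ^ 2) ≤ 8 * W * C1 * S * w i := by
    intro i hi
    rw [integral_const_mul, integral_add (hint _ (hP i)) (hint _ (hN i))]
    have h1 := hPi i hi
    have h2 := hNi i hi
    have h3 := hw i
    have h4 : 0 ≤ 4 * W / w i := by positivity
    calc (4 * W / w i) * ((∫ q in Metric.closedBall (0 : EE k) rad, ‖P i q‖ ^ 2) +
          (∫ q in Metric.closedBall (0 : EE k) rad, ‖N i q‖ ^ 2))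
        ≤ (4 * W / w i) * (C1 * w i ^ 2 * S + C1 * w i ^ 2 * S) := by gcongr
      _ = 8 * W * C1 * S * w i := by field_simp; ring
  have hsum2 : ∑ i ∈ Finset.range I, ∫ q in Metric.closedBall (0 : EE k) rad,
      (4 * W / w i) * (‖P i q‖ ^ 2 + ‖N i q‖ ^ 2) ≤ 8 * W * C1 * S * W := by
    refine (Finset.sum_le_sum hterm).trans ?_
    rw [← Finset.mul_sum]
    have : 0 ≤ 8 * W * C1 * S := by positivity
    gcongr
  nlinarith

lemma geom {ρ : ℝ} (h1 : ρ < 1) (h0 : 0 ≤ ρ) (I : ℕ) : ∑ i ∈ Finset.range I, ρ ^ i ≤ (1 - ρ)⁻¹ := by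
  have h := geom_sum_mul_neg ρ I
  have h2 : 0 < 1 - ρ := by linarith
  rw [← one_div, le_div_iff₀ h2, h]
  have := pow_nonneg h0 I
  linarith

lemma rpow_pow_comm (x : ℝ) (hx : 0 ≤ x) (y : ℝ) (n : ℕ) : (x ^ n) ^ y = (x ^ y) ^ n := by
  rw [← Real.rpow_natCast, ← Real.rpow_natCast, ← Real.rpow_mul hx, ← Real.rpow_mul hx, mul_comm]

/-- the sum of the weights -/
lemma weights (c0 lam : ℝ) (hc0 : 0 < c0) (hlam : 1 ≤ lam) (I : ℕ) (hI : 2 ^ I ≤ 4 * lam ^ (1 / 3 : ℝ)) :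
    ∑ i ∈ Finset.range I, ((2 ^ (i + 1) * lam ^ (-(1 / 3 : ℝ))) ^ (c0 / 2) + ((2 : ℝ) ^ (i + 1)) ^ (-(c0 / 2))) ≤
      (4 ^ (c0 / 2) + 1) * (1 - (2 : ℝ) ^ (-(c0 / 2)))⁻¹ := by
  set ρ : ℝ := (2 : ℝ) ^ (-(c0 / 2)) with hρ
  have hρ0 : 0 < ρ := Real.rpow_pos_of_pos (by norm_num) _
  have hρ1 : ρ < 1 := Real.rpow_lt_one_of_one_lt_of_neg (by norm_num) (by linarith)
  have hl0 : 0 < lam := by linarith
  have hm0 : 0 < lam ^ (-(1 / 3 : ℝ)) := Real.rpow_pos_of_pos hl0 _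
  have hmm : lam ^ (-(1 / 3 : ℝ)) * lam ^ (1 / 3 : ℝ) = 1 := by
    rw [← Real.rpow_add hl0]; simp
  have hterm : ∀ i ∈ Finset.range I,
      (2 ^ (i + 1) * lam ^ (-(1 / 3 : ℝ))) ^ (c0 / 2) + ((2 : ℝ) ^ (i + 1)) ^ (-(c0 / 2)) ≤
        4 ^ (c0 / 2) * ρ ^ (I - 1 - i) + ρ ^ i := by
    intro i hi
    have hiI : i < I := Finset.mem_range.mp hi
    have h1 : ((2 : ℝ) ^ (i + 1)) ^ (-(c0 / 2)) ≤ ρ ^ i := by
      rw [rpow_pow_comm 2 (by norm_num), ← hρ, pow_succ]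
      have : 0 ≤ ρ ^ i := by positivity
      nlinarith
    have h2 : 2 ^ (i + 1) * lam ^ (-(1 / 3 : ℝ)) ≤ 4 * (1 / 2) ^ (I - 1 - i) := by
      have e1 : I = (i + 1) + (I - 1 - i) := by omega
      have e2 : (2 : ℝ) ^ I = 2 ^ (i + 1) * 2 ^ (I - 1 - i) := by
        conv_lhs => rw [e1, pow_add]
      have h3 : 2 ^ I * lam ^ (-(1 / 3 : ℝ)) ≤ 4 := by
        calc 2 ^ I * lam ^ (-(1 / 3 : ℝ)) ≤ (4 * lam ^ (1 / 3 : ℝ)) * lam ^ (-(1 / 3 : ℝ)) := by gcongr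
          _ = 4 * (lam ^ (-(1 / 3 : ℝ)) * lam ^ (1 / 3 : ℝ)) := by ring
          _ = 4 := by rw [hmm, mul_one]
      have h4 : (0 : ℝ) < (1 / 2) ^ (I - 1 - i) := by positivity
      have h5 : (2 : ℝ) ^ (I - 1 - i) * (1 / 2) ^ (I - 1 - i) = 1 := by
        rw [← mul_pow]; norm_num
      calc 2 ^ (i + 1) * lam ^ (-(1 / 3 : ℝ))
          = (2 ^ I * lam ^ (-(1 / 3 : ℝ))) * (1 / 2) ^ (I - 1 - i) := by
            rw [e2]
            have : 2 ^ (i + 1) * 2 ^ (I - 1 - i) * lam ^ (-(1 / 3 : ℝ)) * (1 / 2) ^ (I - 1 - i) =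
              2 ^ (i + 1) * lam ^ (-(1 / 3 : ℝ)) * (2 ^ (I - 1 - i) * (1 / 2) ^ (I - 1 - i)) := by ring
            rw [this, h5, mul_one]
        _ ≤ 4 * (1 / 2) ^ (I - 1 - i) := by gcongr
    have h6 : (2 ^ (i + 1) * lam ^ (-(1 / 3 : ℝ))) ^ (c0 / 2) ≤ 4 ^ (c0 / 2) * ρ ^ (I - 1 - i) := by
      calc (2 ^ (i + 1) * lam ^ (-(1 / 3 : ℝ))) ^ (c0 / 2) ≤ (4 * (1 / 2) ^ (I - 1 - i)) ^ (c0 / 2) :=
            Real.rpow_le_rpow (by positivity) h2 (by positivity)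
        _ = 4 ^ (c0 / 2) * ((1 / 2) ^ (I - 1 - i)) ^ (c0 / 2) := Real.mul_rpow (by norm_num) (by positivity)
        _ = 4 ^ (c0 / 2) * ρ ^ (I - 1 - i) := by
            rw [rpow_pow_comm (1 / 2) (by norm_num)]
            congr 2
            rw [hρ, Real.rpow_neg (by norm_num), one_div, Real.inv_rpow (by norm_num)]
    linarith
  refine (Finset.sum_le_sum hterm).trans ?_
  rw [Finset.sum_add_distrib, ← Finset.mul_sum, Finset.sum_range_reflect (fun i => ρ ^ i) I]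
  have h7 := geom hρ1 hρ0.le I
  have h8 : (0 : ℝ) < 4 ^ (c0 / 2) := Real.rpow_pos_of_pos (by norm_num) _
  have h9 : 4 ^ (c0 / 2) * ∑ i ∈ Finset.range I, ρ ^ i ≤ 4 ^ (c0 / 2) * (1 - ρ)⁻¹ := by gcongr
  linarith

lemma half_sq (x : ℝ) (hx : 0 < x) (y : ℝ) : (x ^ (y / 2)) ^ 2 = x ^ y := by
  rw [← Real.rpow_natCast, ← Real.rpow_mul hx.le]
  congr 1
  push_cast
  ring

lemma norm_ex {d : ℕ} (n x : EE d) : ‖ex n x‖ = 1 := by
  unfold ex
  rw [mul_comm, Complex.norm_exp_ofReal_mul_I]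

lemma es_le {D : ℕ} {A : ℝ} (Lt : Lat D A) (s : Finset (Fin D → ℤ)) (a : (Fin D → ℤ) → ℂ) (x : EE D) :
    ‖es Lt s a x‖ ^ 2 ≤ (s.card : ℝ) * ∑ j ∈ s, ‖a j‖ ^ 2 := by
  unfold es
  have h1 : ‖∑ j ∈ s, a j * ex (Lt.fr j) x‖ ≤ ∑ j ∈ s, ‖a j‖ := by
    refine (norm_sum_le _ _).trans (le_of_eq ?_)
    refine Finset.sum_congr rfl fun j _ => ?_
    rw [norm_mul, norm_ex, mul_one]
  calc ‖∑ j ∈ s, a j * ex (Lt.fr j) x‖ ^ 2 ≤ (∑ j ∈ s, ‖a j‖) ^ 2 := pow_le_pow_left₀ (norm_nonneg _) h1 2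
    _ ≤ (s.card : ℝ) * ∑ j ∈ s, ‖a j‖ ^ 2 := sq_sum_le_card_mul_sum_sq

theorem specST (m : ℕ) (hMJ : SpecMJ m) (hO : SpecO) (hB0 : SpecB0) (hLS : SpecLS) : SpecST m := by
  intro A c R M hA hc
  obtain ⟨CJ, c0, hCJ, hc0, hJ⟩ := hMJ c R A M hc hA
  obtain ⟨CO, hCO, hO⟩ := hO (m + 1) c R A M hc hA
  obtain ⟨CB, hCB, hB⟩ := hB0 m c R A M hc hA
  obtain ⟨CL, hCL, hL, _, _⟩ := hLS (m + 2) A hA
  set W : ℝ := (4 ^ (c0 / 2) + 1) * (1 - (2 : ℝ) ^ (-(c0 / 2)))⁻¹ with hW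
  set V : ℝ := volume.real (Metric.closedBall (0 : EE (m + 1)) (dl (m + 1) R)) with hV
  have hV0 : 0 ≤ V := measureReal_nonneg
  refine ⟨(2 * (CO * CB) + 8 * W ^ 2 * CJ) + CL * 2 ^ (m + 2) * V, by positivity, ?_⟩
  intro ch hD Lt lam s a _ hs
  set S : ℝ := ∑ j ∈ s, ‖a j‖ ^ 2 with hS
  have hS0 : 0 ≤ S := Finset.sum_nonneg fun j _ => by positivity
  have hR := hc.R_pos
  rcases le_or_gt 1 lam with hlam | hlam
  · have hl0 : 0 < lam := by linarith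
    have hm0 : 0 < lam ^ (-(1 / 3 : ℝ)) := Real.rpow_pos_of_pos hl0 _
    have hm1 : lam ^ (-(1 / 3 : ℝ)) ≤ 1 := Real.rpow_le_one_of_one_le_of_nonpos hlam (by norm_num)
    have hmm : lam ^ (-(1 / 3 : ℝ)) * lam ^ (1 / 3 : ℝ) = 1 := by
      rw [← Real.rpow_add hl0]; simp
    have hp1 : 1 ≤ lam ^ (1 / 3 : ℝ) := Real.one_le_rpow hlam (by norm_num)
    obtain ⟨I, hI1, hI2⟩ := exists_nat_pow_near (x := 4 * lam ^ (1 / 3 : ℝ)) (y := (2 : ℝ)) (by linarith)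
      (by norm_num)
    have hI3 : 2 * lam ^ (1 / 3 : ℝ) ≤ 2 ^ I := by
      rw [pow_succ] at hI2; linarith
    have hD' : Dm ch (1 / (8 * A)) := by
      intro q q' hq hq'
      refine (hD q q' hq hq').trans ?_
      have h1 : (1 : ℝ) ≤ (m + 1 + 1).factorial := by
        exact_mod_cast Nat.succ_le_of_lt (Nat.factorial_pos _)
      have h2 : 8 * A ≤ 8 * ((m + 1 + 1).factorial : ℝ) * A := by nlinarith
      exact one_div_le_one_div_of_le (by positivity) h2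
    have hBH : BH ch Lt lam (lam ^ (-(1 / 3 : ℝ))) CB s := by
      intro j0 hj0 b
      refine hB ch hD' Lt lam (lam ^ (-(1 / 3 : ℝ))) (Lt.fr j0) _ b hlam le_rfl (by linarith) (hs j0 hj0) ?_
      intro j hj
      have hj' := Finset.mem_filter.mp hj
      refine ⟨hs j hj'.1, ?_⟩
      have hsd : 0 < sd (m + 1) (lam ^ (-(1 / 3 : ℝ))) := by unfold sd; positivity
      refine (cbl_norm _ hsd _ _ hj'.2).trans ?_
      unfold sd
      have h3 : 0 ≤ ((lam ^ (-(1 / 3 : ℝ))) ^ 2)⁻¹ := by positivity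
      have h4 : ((m + 1 + 1 : ℕ) : ℝ) * (((lam ^ (-(1 / 3 : ℝ))) ^ 2)⁻¹ / (64 * ((m + 1 : ℕ) + 1))) =
          ((lam ^ (-(1 / 3 : ℝ))) ^ 2)⁻¹ / 64 := by
        push_cast
        field_simp
      rw [h4]
      linarith
    have h0 := hO ch Lt lam (lam ^ (-(1 / 3 : ℝ))) 1 CB s a psi0 hlam le_rfl (by linarith) (Or.inl rfl)
      (Or.inr ⟨rfl, rfl⟩) hCB.le hs hBH
    let w : ℕ → ℝ := fun i => (2 ^ (i + 1) * lam ^ (-(1 / 3 : ℝ))) ^ (c0 / 2) + ((2 : ℝ) ^ (i + 1)) ^ (-(c0 / 2))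
    have hw : ∀ i, 0 < w i := fun i => by
      have h1 : 0 < (2 ^ (i + 1) * lam ^ (-(1 / 3 : ℝ))) ^ (c0 / 2) := Real.rpow_pos_of_pos (by positivity) _
      have h2 : 0 < ((2 : ℝ) ^ (i + 1)) ^ (-(c0 / 2)) := Real.rpow_pos_of_pos (by positivity) _
      exact add_pos h1 h2
    have hpiece : ∀ sg : ℝ, (sg = 1 ∨ sg = -1) → ∀ i ∈ Finset.range I,
        ∫ q in Metric.closedBall (0 : EE (m + 1)) (dl (m + 1) R),
          ‖pc ch Lt phP sg lam (2 ^ (i + 1) * lam ^ (-(1 / 3 : ℝ))) s a q‖ ^ 2 ≤ CJ * w i ^ 2 * S := by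
      intro sg hsg i hi
      have hiI : i + 1 ≤ I := Finset.mem_range.mp hi
      have h1 : lam ^ (-(1 / 3 : ℝ)) ≤ 2 ^ (i + 1) * lam ^ (-(1 / 3 : ℝ)) := by
        have : (1 : ℝ) ≤ 2 ^ (i + 1) := one_le_pow₀ (by norm_num)
        nlinarith
      have h2 : 2 ^ (i + 1) * lam ^ (-(1 / 3 : ℝ)) ≤ 4 := by
        have h3 : (2 : ℝ) ^ (i + 1) ≤ 2 ^ I := pow_le_pow_right₀ (by norm_num) hiI
        calc 2 ^ (i + 1) * lam ^ (-(1 / 3 : ℝ)) ≤ (4 * lam ^ (1 / 3 : ℝ)) * lam ^ (-(1 / 3 : ℝ)) := by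
              gcongr; exact h3.trans hI1
          _ = 4 * (lam ^ (-(1 / 3 : ℝ)) * lam ^ (1 / 3 : ℝ)) := by ring
          _ = 4 := by rw [hmm, mul_one]
      have h4 := hJ ch hD Lt lam (2 ^ (i + 1) * lam ^ (-(1 / 3 : ℝ))) sg s a hlam h1 h2 hsg hs
      refine h4.trans ?_
      have h5 : 2 ^ (i + 1) * lam ^ (-(1 / 3 : ℝ)) * lam ^ (1 / 3 : ℝ) = 2 ^ (i + 1) := by
        rw [mul_assoc, hmm, mul_one]
      rw [h5]
      have hth : 0 < 2 ^ (i + 1) * lam ^ (-(1 / 3 : ℝ)) := by positivity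
      have h6 : (2 ^ (i + 1) * lam ^ (-(1 / 3 : ℝ))) ^ c0 + ((2 : ℝ) ^ (i + 1)) ^ (-c0) ≤ w i ^ 2 := by
        have e1 := half_sq (2 ^ (i + 1) * lam ^ (-(1 / 3 : ℝ))) hth c0
        have e2 := half_sq ((2 : ℝ) ^ (i + 1)) (by positivity) (-c0)
        have e3 : -c0 / 2 = -(c0 / 2) := by ring
        rw [e3] at e2
        have h7 : 0 < (2 ^ (i + 1) * lam ^ (-(1 / 3 : ℝ))) ^ (c0 / 2) := Real.rpow_pos_of_pos hth _
        have h8 : 0 < ((2 : ℝ) ^ (i + 1)) ^ (-(c0 / 2)) := Real.rpow_pos_of_pos (by positivity) _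
        rw [← e1, ← e2]
        simp only [w]
        nlinarith
      gcongr
    have hfin := sum_pieces (k := m + 1) (dl (m + 1) R) I w hw W (weights c0 lam hc0 hlam I hI1)
      (fun q => es Lt s a (ch.X q)) (pc ch Lt psi0 1 lam (lam ^ (-(1 / 3 : ℝ))) s a)
      (fun i => pc ch Lt phP 1 lam (2 ^ (i + 1) * lam ^ (-(1 / 3 : ℝ))) s a)
      (fun i => pc ch Lt phP (-1) lam (2 ^ (i + 1) * lam ^ (-(1 / 3 : ℝ))) s a)
      (pc_cont ch Lt psi0 psi0_cont _ _ _ s a) (fun i => pc_cont ch Lt phP phP_cont _ _ _ s a)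
      (fun i => pc_cont ch Lt phP phP_cont _ _ _ s a) (by
        have hX : Continuous ch.X := ch.smooth.continuous
        unfold es
        exact continuous_finsetSum _ fun j _ => continuous_const.mul ((ex_cont _).comp hX))
      (fun q hq => pieces hc ch Lt lam hlam s a hs I hI3 q (hq.trans (dl_le hR)))
      (CO * CB) CJ S hS0 hCJ.le h0 (hpiece 1 (Or.inl rfl)) (hpiece (-1) (Or.inr rfl))
    refine hfin.trans ?_
    have h9 : 0 ≤ CL * 2 ^ (m + 2) * V * S := by positivity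
    rw [add_mul _ (CL * 2 ^ (m + 2) * V) S]
    linarith
  · have hcard : (s.card : ℝ) ≤ CL * 2 ^ (m + 2) := by
      have := hL Lt s 0 1 (by norm_num) (fun j hj => by rw [sub_zero, hs j hj]; exact hlam.le)
      norm_num at this
      exact this
    have h1 : ‖∫ q in Metric.closedBall (0 : EE (m + 1)) (dl (m + 1) R), ‖es Lt s a (ch.X q)‖ ^ 2‖ ≤
        (CL * 2 ^ (m + 2) * S) * V := by
      refine norm_setIntegral_le_of_norm_le_const (measure_closedBall_lt_top) fun q _ => ?_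
      rw [Real.norm_of_nonneg (by positivity)]
      refine (es_le Lt s a (ch.X q)).trans ?_
      gcongr
    have h2 := le_trans (le_abs_self _) h1
    refine h2.trans ?_
    have h3 : 0 ≤ 2 * (CO * CB) + 8 * W ^ 2 * CJ := by positivity
    nlinarith

end Pool.Agent.Lib.MP_a8dae7_an.UN.STM
end
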