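import Pool.Agent.Lib.MP_a8dae7_an.UN.SpecB

section
/-!
# MP_a8dae7_an, UN: CT. Trivial counts in a tube.
-/
set_option autoImplicit false

open MeasureTheory

namespace Pool.Agent.Lib.MP_a8dae7_an.UN.CTM

open Pool.Agent.Lib.MP_a8dae7_an.CV (EE zv ex pq pi2 AA sl bm)

/-- **CT** -/
theorem specCT (hLS : SpecLS) : SpecCT := by
  intro D A hA
  obtain ⟨C, hC, -, h2, -⟩ := hLS D A hA
  refine ⟨C * 7 ^ D * (2 + 2 * A), by positivity, ?_⟩
  intro Lt om t Z hom ht hZ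
  have ht0 : 0 < t := lt_of_lt_of_le (by positivity) ht
  have hb : ∀ i ∈ Z.image (fun z => ⌊inner ℝ om (Lt.du z)⌋),
      (Z.filter fun z => ⌊inner ℝ om (Lt.du z)⌋ = i).card ≤ ⌊C * 7 ^ D⌋₊ := by
    intro i _
    refine Nat.le_floor ?_
    have h3 := h2 Lt (Z.filter fun z => ⌊inner ℝ om (Lt.du z)⌋ = i) ((i : ℝ) • om) 6 (by norm_num) (by
      intro z hz
      rw [Finset.mem_filter] at hz
      have h4 := Int.floor_le (inner ℝ om (Lt.du z))
      have h5 := Int.lt_floor_add_one (inner ℝ om (Lt.du z))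
      rw [hz.2] at h4 h5
      have h6 := (hZ z hz.1).2
      unfold pq at h6
      have h7 : ‖Lt.du z - (i : ℝ) • om‖ ^ 2 = ‖Lt.du z‖ ^ 2 - 2 * (i * inner ℝ om (Lt.du z)) + i ^ 2 := by
        rw [norm_sub_sq_real, inner_smul_right, norm_smul, hom, real_inner_comm, Real.norm_eq_abs, mul_one, sq_abs]
      refine abs_le_of_sq_le_sq' ?_ (by norm_num) |>.2
      rw [h7]
      nlinarith)
    calc _ ≤ C * (1 + 6) ^ D := h3
      _ = C * 7 ^ D := by norm_num
  have h3 := Finset.card_le_mul_card_image (f := fun z => ⌊inner ℝ om (Lt.du z)⌋) Z _ hb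
  have h4 : ((Z.image (fun z => ⌊inner ℝ om (Lt.du z)⌋)).card : ℝ) ≤ 2 * t + 2 := by
    have h5 : Z.image (fun z => ⌊inner ℝ om (Lt.du z)⌋) ⊆ Finset.Icc ⌊-t⌋ ⌊t⌋ := by
      intro i hi
      obtain ⟨z, hz, rfl⟩ := Finset.mem_image.1 hi
      have h6 := abs_le.1 (hZ z hz).1
      rw [Finset.mem_Icc]
      exact ⟨Int.floor_le_floor h6.1, Int.floor_le_floor h6.2⟩
    have h6 := Finset.card_le_card h5
    rw [Int.card_Icc] at h6
    have h7 : ⌊-t⌋ ≤ ⌊t⌋ := Int.floor_le_floor (by linarith)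
    have h8 : (((⌊t⌋ + 1 - ⌊-t⌋).toNat : ℕ) : ℝ) = ((⌊t⌋ + 1 - ⌊-t⌋ : ℤ) : ℝ) := by
      have : (((⌊t⌋ + 1 - ⌊-t⌋).toNat : ℤ) : ℝ) = ((⌊t⌋ + 1 - ⌊-t⌋ : ℤ) : ℝ) := by
        rw [Int.toNat_of_nonneg (by omega)]
      rw [← this]; norm_cast
    have h9 : ((Z.image (fun z => ⌊inner ℝ om (Lt.du z)⌋)).card : ℝ) ≤ ((⌊t⌋ + 1 - ⌊-t⌋).toNat : ℕ) := by
      exact_mod_cast h6
    refine h9.trans ?_
    rw [h8]
    push_cast
    have h10 := Int.floor_le t
    have h11 := Int.lt_floor_add_one (-t)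
    linarith
  have h5 : (Z.card : ℝ) ≤ (⌊C * 7 ^ D⌋₊ : ℝ) * ((Z.image (fun z => ⌊inner ℝ om (Lt.du z)⌋)).card : ℝ) := by
    exact_mod_cast h3
  have h6 : (⌊C * 7 ^ D⌋₊ : ℝ) ≤ C * 7 ^ D := Nat.floor_le (by positivity)
  have h7 : 1 ≤ A * t := by
    rw [div_le_iff₀ (by linarith)] at ht
    linarith
  calc (Z.card : ℝ) ≤ (C * 7 ^ D) * (2 * t + 2) := h5.trans (by gcongr)
    _ ≤ (C * 7 ^ D) * ((2 + 2 * A) * t) := by
        gcongr
        nlinarith
    _ = _ := by ring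

end Pool.Agent.Lib.MP_a8dae7_an.UN.CTM
end

section
/-!
# MP_a8dae7_an, UN, module CX: convexity of a chart (`theorem specCX : SpecCX`)
-/
set_option autoImplicit false

open MeasureTheory
open scoped ContDiff

namespace Pool.Agent.Lib.MP_a8dae7_an.UN.CXM

open Pool.Agent.Lib.MP_a8dae7_an.CV (EE zv ex pq pi2 AA sl bm)

/-- the projection `P x = x - ⟨om,x⟩ om` -/
noncomputable def pr {d : ℕ} (om x : EE d) : EE d := x - (inner ℝ om x : ℝ) • om

theorem inner_pr {d : ℕ} (om x y : EE d) (h : ‖om‖ = 1) : inner ℝ (pr om x) (pr om y) = pi2 om x y := by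
  unfold pr pi2
  have h1 : inner ℝ om om = (1 : ℝ) := by rw [real_inner_self_eq_norm_sq, h]; norm_num
  rw [inner_sub_left, inner_sub_right, inner_sub_right, real_inner_smul_left, real_inner_smul_left,
    real_inner_smul_right, real_inner_smul_right, h1, real_inner_comm om x]
  ring

theorem norm_pr_sq {d : ℕ} (om x : EE d) (h : ‖om‖ = 1) : ‖pr om x‖ ^ 2 = pq om x := by
  rw [← real_inner_self_eq_norm_sq, inner_pr om x x h]
  unfold pi2 pq
  rw [real_inner_self_eq_norm_sq]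
  ring

theorem pr_sub {d : ℕ} (om x y : EE d) : pr om (x - y) = pr om x - pr om y := by
  unfold pr
  rw [inner_sub_right, sub_smul]
  abel

theorem norm_pr_le {d : ℕ} (om x : EE d) (h : ‖om‖ = 1) : ‖pr om x‖ ≤ ‖x‖ := by
  have h1 := norm_pr_sq om x h
  unfold pq at h1
  exact abs_le_of_sq_le_sq' (by nlinarith [sq_nonneg (inner ℝ om x : ℝ)]) (norm_nonneg _) |>.2

/-- a vector `y` with `⟨u, y⟩ ≥ a |u|²` for some `u` orthogonal to `om` has `|P y| ≥ a |u|` -/
theorem le_norm_pr {d : ℕ} (om u y : EE d) (a : ℝ) (hu : inner ℝ om u = (0 : ℝ))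
    (h1 : a * ‖u‖ ^ 2 ≤ inner ℝ u y) : a * ‖u‖ ≤ ‖pr om y‖ := by
  have h2 : inner ℝ u (pr om y) = (inner ℝ u y : ℝ) := by
    unfold pr
    rw [inner_sub_right, real_inner_smul_right, real_inner_comm om u] at *
    rw [hu]
    ring
  have h3 : (inner ℝ u (pr om y) : ℝ) ≤ ‖u‖ * ‖pr om y‖ := real_inner_le_norm _ _
  rcases eq_or_lt_of_le (norm_nonneg u) with h0 | h0
  · rw [← h0, mul_zero]
    exact norm_nonneg _
  · have h4 : ‖u‖ * (a * ‖u‖) ≤ ‖u‖ * ‖pr om y‖ := by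
      calc ‖u‖ * (a * ‖u‖) = a * ‖u‖ ^ 2 := by ring
        _ ≤ inner ℝ u y := h1
        _ = inner ℝ u (pr om y) := h2.symm
        _ ≤ _ := h3
    exact le_of_mul_le_mul_left h4 h0

theorem norm_fderiv_le {k : ℕ} {c R : ℝ} {M : ℕ → ℝ} (ch : UChart k c R M) (q : EE k) (hq : ‖q‖ ≤ R) :
    ‖fderiv ℝ ch.X q‖ ≤ M 1 := by
  have h := ch.bd 1 le_rfl q hq
  rwa [norm_iteratedFDeriv_one] at h

theorem norm_fderiv2_le {k : ℕ} {c R : ℝ} {M : ℕ → ℝ} (ch : UChart k c R M) (q : EE k) (hq : ‖q‖ ≤ R) :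
    ‖fderiv ℝ (fderiv ℝ ch.X) q‖ ≤ M 2 := by
  have h := ch.bd 2 (by norm_num) q hq
  have h2 : ‖iteratedFDeriv ℝ 1 (fderiv ℝ ch.X) q‖ = ‖iteratedFDeriv ℝ 2 ch.X q‖ :=
    norm_iteratedFDeriv_fderiv
  rw [← h2, norm_iteratedFDeriv_one] at h
  exact h

/-- a differentiable function on `[0,1]` with derivative between `s * a` and `s * b` -/
theorem mvt_between (f f' : ℝ → ℝ) (a b : ℝ) (hf : ∀ s, HasDerivAt f (f' s) s)
    (h1 : ∀ s, 0 < s → s < 1 → s * a ≤ f' s) (h2 : ∀ s, 0 < s → s < 1 → f' s ≤ s * b) :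
    a / 2 ≤ f 1 - f 0 ∧ f 1 - f 0 ≤ b / 2 := by
  constructor
  · have hg : ∀ s, HasDerivAt (fun s => f s - a / 2 * s ^ 2) (f' s - s * a) s := by
      intro s
      exact ((hf s).fun_sub ((hasDerivAt_pow 2 s).const_mul (a / 2))).congr_deriv (by norm_num; ring)
    obtain ⟨s, hs, he⟩ := exists_hasDerivAt_eq_slope (fun s => f s - a / 2 * s ^ 2) (fun s => f' s - s * a)
      (zero_lt_one) (fun s _ => (hg s).continuousAt.continuousWithinAt) (fun s _ => hg s)
    have h3 := h1 s hs.1 hs.2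
    have h4 : (0 : ℝ) ≤ f' s - s * a := by linarith
    rw [he] at h4
    norm_num at h4
    linarith
  · have hg : ∀ s, HasDerivAt (fun s => b / 2 * s ^ 2 - f s) (s * b - f' s) s := by
      intro s
      exact (((hasDerivAt_pow 2 s).const_mul (b / 2)).fun_sub (hf s)).congr_deriv (by norm_num; ring)
    obtain ⟨s, hs, he⟩ := exists_hasDerivAt_eq_slope (fun s => b / 2 * s ^ 2 - f s) (fun s => s * b - f' s)
      (zero_lt_one) (fun s _ => (hg s).continuousAt.continuousWithinAt) (fun s _ => hg s)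
    have h3 := h2 s hs.1 hs.2
    have h4 : (0 : ℝ) ≤ s * b - f' s := by linarith
    rw [he] at h4
    norm_num at h4
    linarith

/-- the derivative of `⟨u, X(q + s h)⟩` -/
theorem hasDerivAt_line {k : ℕ} {c R : ℝ} {M : ℕ → ℝ} (ch : UChart k c R M) (u : EE (k + 1)) (q h : EE k)
    (s : ℝ) : HasDerivAt (fun s : ℝ => (inner ℝ u (ch.X (q + s • h) - ch.X q) : ℝ))
      (inner ℝ u (fderiv ℝ ch.X (q + s • h) h)) s := by
  have h1 : HasDerivAt (fun s : ℝ => q + s • h) h s := by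
    have := ((hasDerivAt_id s).smul_const h).const_add q
    simpa using this
  have hX : HasFDerivAt ch.X (fderiv ℝ ch.X (q + s • h)) (q + s • h) :=
    (ch.smooth.differentiable (by simp) _).hasFDerivAt
  have h2 : HasDerivAt (fun s : ℝ => ch.X (q + s • h) - ch.X q) (fderiv ℝ ch.X (q + s • h) h) s :=
    (hX.comp_hasDerivAt s h1).sub_const _
  have h3 : HasDerivAt (fun s : ℝ => innerSL ℝ u (ch.X (q + s • h) - ch.X q))
      (innerSL ℝ u (fderiv ℝ ch.X (q + s • h) h)) s := (innerSL ℝ u).hasFDerivAt.comp_hasDerivAt s h2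
  exact h3

theorem norm_line_le {k : ℕ} {R : ℝ} (q q' : EE k) (hq : ‖q‖ ≤ R) (hq' : ‖q'‖ ≤ R) (s : ℝ) (h0 : 0 ≤ s)
    (h1 : s ≤ 1) : ‖q + s • (q' - q)‖ ≤ R := by
  have hc : Convex ℝ (Metric.closedBall (0 : EE k) R) := convex_closedBall _ _
  have h := hc.add_smul_sub_mem (x := q) (y := q') (by simpa using hq) (by simpa using hq') ⟨h0, h1⟩
  simpa using h

theorem specCX : SpecCX := by
  intro k c R M hc ch q q' hq hq'
  have hball : Convex ℝ (Metric.closedBall (0 : EE k) R) := convex_closedBall _ _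
  have hqb : q ∈ Metric.closedBall (0 : EE k) R := by simpa using hq
  have hqb' : q' ∈ Metric.closedBall (0 : EE k) R := by simpa using hq'
  have hM1 : 0 ≤ M 1 := (norm_nonneg _).trans (norm_fderiv_le ch q hq)
  have hM2 : 0 ≤ M 2 := (norm_nonneg (fderiv ℝ (fderiv ℝ ch.X) q)).trans (norm_fderiv2_le ch q hq)
  have hdiff : Differentiable ℝ ch.X := ch.smooth.differentiable (by simp)
  have hdiff2 : Differentiable ℝ (fderiv ℝ ch.X) :=
    (ch.smooth.fderiv_right (m := ∞) (by simp)).differentiable (by simp)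
  -- (1)
  have H1 : ‖fderiv ℝ ch.X q - fderiv ℝ ch.X q'‖ ≤ c / 2 := by
    have h := hball.norm_image_sub_le_of_norm_fderiv_le (𝕜 := ℝ) (f := fderiv ℝ ch.X) (C := M 2)
      (fun x _ => hdiff2 x) (fun x hx => norm_fderiv2_le ch x (by simpa using hx)) hqb' hqb
    have h2 : ‖q - q'‖ ≤ 2 * R := (norm_sub_le _ _).trans (by linarith)
    calc ‖fderiv ℝ ch.X q - fderiv ℝ ch.X q'‖ ≤ M 2 * ‖q - q'‖ := h
      _ ≤ M 2 * (2 * R) := by gcongr
      _ ≤ c / 2 := by linarith [hc.M2]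
  -- (2)
  have H2 : ‖ch.X q - ch.X q'‖ ≤ M 1 * ‖q - q'‖ :=
    hball.norm_image_sub_le_of_norm_fderiv_le (𝕜 := ℝ) (f := ch.X) (C := M 1)
      (fun x _ => hdiff x) (fun x hx => norm_fderiv_le ch x (by simpa using hx)) hqb' hqb
  -- (3), (4)
  have hmono : ∀ s : ℝ, 0 ≤ s → s ≤ 1 → c * ‖q' - q‖ ^ 2 ≤
      inner ℝ (ch.J (q' - q)) (fderiv ℝ ch.X (q + s • (q' - q)) (q' - q)) := fun s h0 h1 =>
    ch.mono _ _ (norm_line_le q q' hq hq' s h0 h1)
  have hupper : ∀ s : ℝ, 0 ≤ s → s ≤ 1 →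
      inner ℝ (ch.J (q' - q)) (fderiv ℝ ch.X (q + s • (q' - q)) (q' - q)) ≤ M 1 * ‖q' - q‖ ^ 2 := by
    intro s h0 h1
    calc (inner ℝ (ch.J (q' - q)) (fderiv ℝ ch.X (q + s • (q' - q)) (q' - q)) : ℝ)
        ≤ ‖ch.J (q' - q)‖ * ‖fderiv ℝ ch.X (q + s • (q' - q)) (q' - q)‖ := real_inner_le_norm _ _
      _ ≤ ‖q' - q‖ * (‖fderiv ℝ ch.X (q + s • (q' - q))‖ * ‖q' - q‖) := by
          rw [ch.J.norm_map]
          gcongr
          exact ContinuousLinearMap.le_opNorm _ _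
      _ ≤ ‖q' - q‖ * (M 1 * ‖q' - q‖) := by
          gcongr
          exact norm_fderiv_le ch _ (norm_line_le q q' hq hq' s h0 h1)
      _ = M 1 * ‖q' - q‖ ^ 2 := by ring
  have hperp : ∀ s : ℝ, 0 ≤ s → s ≤ 1 → (inner ℝ (ch.nu - ch.J q) (fderiv ℝ ch.X (q + s • (q' - q)) (q' - q)) : ℝ) =
      s * inner ℝ (ch.J (q' - q)) (fderiv ℝ ch.X (q + s • (q' - q)) (q' - q)) := by
    intro s h0 h1
    have h := ch.perp (q + s • (q' - q)) (q' - q) (norm_line_le q q' hq hq' s h0 h1)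
    have h2 : ch.nu - ch.J q = (ch.nu - ch.J (q + s • (q' - q))) + s • ch.J (q' - q) := by
      rw [map_add, map_smul]
      abel
    rw [h2, inner_add_left, h, real_inner_smul_left, zero_add]
  have hb := mvt_between (fun s : ℝ => (inner ℝ (ch.nu - ch.J q) (ch.X (q + s • (q' - q)) - ch.X q) : ℝ))
    (fun s => inner ℝ (ch.nu - ch.J q) (fderiv ℝ ch.X (q + s • (q' - q)) (q' - q)))
    (c * ‖q' - q‖ ^ 2) (M 1 * ‖q' - q‖ ^ 2) (fun s => hasDerivAt_line ch _ q (q' - q) s)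
    (fun s h0 h1 => by
      rw [hperp s h0.le h1.le]
      exact mul_le_mul_of_nonneg_left (hmono s h0.le h1.le) h0.le)
    (fun s h0 h1 => by
      rw [hperp s h0.le h1.le]
      exact mul_le_mul_of_nonneg_left (hupper s h0.le h1.le) h0.le)
  simp only [one_smul, zero_smul, add_zero, sub_self, inner_zero_right, sub_zero, add_sub_cancel] at hb
  -- (5)
  have H5 : c * ‖q' - q‖ ^ 2 ≤ inner ℝ (ch.J (q' - q)) (ch.X q' - ch.X q) := by
    obtain ⟨s, hs, he⟩ := exists_hasDerivAt_eq_slope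
      (fun s : ℝ => (inner ℝ (ch.J (q' - q)) (ch.X (q + s • (q' - q)) - ch.X q) : ℝ))
      (fun s => inner ℝ (ch.J (q' - q)) (fderiv ℝ ch.X (q + s • (q' - q)) (q' - q))) zero_lt_one
      (fun s _ => (hasDerivAt_line ch _ q (q' - q) s).continuousAt.continuousWithinAt)
      (fun s _ => hasDerivAt_line ch _ q (q' - q) s)
    have h := hmono s hs.1.le hs.2.le
    rw [he] at h
    simpa using h
  refine ⟨H1, H2, ?_, ?_, H5, ?_, ?_⟩
  · have := hb.1
    linarith
  · have := hb.2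
    linarith
  · -- (6)
    intro om v hom hv
    rw [← inner_pr om _ _ hom]
    have hJ : ‖ch.J v‖ = ‖v‖ := ch.J.norm_map v
    set a := pr om (fderiv ℝ ch.X q v) with ha
    have ha1 : c * ‖v‖ ≤ ‖a‖ := by
      have := le_norm_pr om (ch.J v) (fderiv ℝ ch.X q v) c hv (by rw [hJ]; exact ch.mono q v hq)
      rwa [hJ] at this
    have hd : ‖pr om (fderiv ℝ ch.X q' v) - a‖ ≤ c / 2 * ‖v‖ := by
      rw [ha, ← pr_sub]
      refine (norm_pr_le om _ hom).trans ?_
      have h := (fderiv ℝ ch.X q - fderiv ℝ ch.X q').le_opNorm v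
      rw [sub_apply] at h
      rw [norm_sub_rev]
      exact h.trans (by gcongr)
    have h1 : (inner ℝ a (pr om (fderiv ℝ ch.X q' v)) : ℝ) =
        ‖a‖ ^ 2 + inner ℝ a (pr om (fderiv ℝ ch.X q' v) - a) := by
      rw [inner_sub_right, real_inner_self_eq_norm_sq]
      ring
    have h2 : -(‖a‖ * (c / 2 * ‖v‖)) ≤ inner ℝ a (pr om (fderiv ℝ ch.X q' v) - a) := by
      have := (abs_le.1 (abs_real_inner_le_norm a (pr om (fderiv ℝ ch.X q' v) - a))).1
      have h3 : ‖a‖ * ‖pr om (fderiv ℝ ch.X q' v) - a‖ ≤ ‖a‖ * (c / 2 * ‖v‖) := by gcongr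
      linarith
    rw [h1]
    have hc0 := hc.c_pos
    have hv0 := norm_nonneg v
    have hcv : 0 ≤ c * ‖v‖ := by positivity
    nlinarith [mul_nonneg hcv (sub_nonneg.2 ha1), mul_nonneg (norm_nonneg a) (sub_nonneg.2 ha1)]
  · -- (7)
    intro om hom hv
    have hJ : ‖ch.J (q' - q)‖ = ‖q' - q‖ := ch.J.norm_map _
    have h := le_norm_pr om (ch.J (q' - q)) (ch.X q' - ch.X q) c hv (by rw [hJ]; exact H5)
    rw [hJ] at h
    rw [← norm_pr_sq om _ hom]
    have hc0 := hc.c_pos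
    have h0 : 0 ≤ c * ‖q' - q‖ := by positivity
    calc c ^ 2 * ‖q' - q‖ ^ 2 = (c * ‖q' - q‖) ^ 2 := by ring
      _ ≤ ‖pr om (ch.X q' - ch.X q)‖ ^ 2 := by gcongr

end Pool.Agent.Lib.MP_a8dae7_an.UN.CXM
end

section
/-!
# MP_a8dae7_an, UN: the dichotomy (SpecDI)

Two pigeonholes: first in boxes of the tube, then, when all differences of the points of one box are multiples of one
vector, for the coefficients of these multiples.
-/
set_option autoImplicit false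

namespace Pool.Agent.Lib.MP_a8dae7_an.UN.DIM

open Pool.Agent.Lib.MP_a8dae7_an.CV (EE zv ex pq pi2 AA sl bm PosAt PosCurved)
open Pool.Agent.Lib.MP_a8dae7_an.UN

lemma zv_sub {d : ℕ} (a b : Fin d → ℤ) : zv (a - b) = zv a - zv b := by
  ext i
  simp [zv]

lemma zv_eq_zero {d : ℕ} {a : Fin d → ℤ} (h : zv a = 0) : a = 0 := by
  funext i
  have := congrFun (congrArg WithLp.ofLp h) i
  simpa [zv] using this

lemma du_sub {D : ℕ} {A : ℝ} (Lt : Lat D A) (a b : Fin D → ℤ) : Lt.du (a - b) = Lt.du a - Lt.du b := by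
  simp only [Lat.du, zv_sub, map_sub, smul_sub]

lemma adj_inj {D : ℕ} {A : ℝ} (Lt : Lat D A) {x : EE D}
    (h : ContinuousLinearMap.adjoint (Lt.B.symm : EE D →L[ℝ] EE D) x = 0) : x = 0 := by
  have h1 : ∀ y : EE D, inner ℝ x y = 0 := by
    intro y
    have h2 := ContinuousLinearMap.adjoint_inner_left (Lt.B.symm : EE D →L[ℝ] EE D) (Lt.B y) x
    rw [h, inner_zero_left] at h2
    simpa using h2.symm
  have := h1 x
  simpa using this

lemma du_ne {D : ℕ} {A : ℝ} (Lt : Lat D A) {z : Fin D → ℤ} (hz : z ≠ 0) : Lt.du z ≠ 0 := by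
  intro h
  have h1 : (2 * Real.pi) ≠ 0 := by positivity
  have h2 := (smul_eq_zero.mp h).resolve_left h1
  exact hz (zv_eq_zero (adj_inj Lt h2))

lemma pq_smul {D : ℕ} (om x : EE D) (c : ℝ) : pq om (c • x) = c ^ 2 * pq om x := by
  unfold pq
  rw [norm_smul, inner_smul_right, Real.norm_eq_abs, mul_pow, sq_abs]
  ring

lemma pq_eq {D : ℕ} (om x : EE D) (hom : ‖om‖ = 1) : pq om x = ‖x - (inner ℝ om x : ℝ) • om‖ ^ 2 := by
  unfold pq
  rw [norm_sub_sq_real, norm_smul, hom, inner_smul_right, real_inner_comm om x, Real.norm_eq_abs, mul_one, sq_abs]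
  ring

lemma pq_nonneg {D : ℕ} (om x : EE D) (hom : ‖om‖ = 1) : 0 ≤ pq om x := by
  rw [pq_eq om x hom]; positivity

lemma pq_le {D : ℕ} (om x : EE D) : pq om x ≤ ‖x‖ ^ 2 := by
  unfold pq; nlinarith [sq_nonneg (inner ℝ om x : ℝ)]

lemma du_norm_single {D : ℕ} {A : ℝ} (Lt : Lat D A) (i : Fin D) :
    ‖Lt.du (Pi.single i 1)‖ ≤ 2 * Real.pi * A := by
  unfold Lat.du
  rw [norm_smul, Real.norm_of_nonneg (by positivity)]
  refine mul_le_mul_of_nonneg_left ?_ (by positivity)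
  refine (ContinuousLinearMap.le_opNorm _ _).trans ?_
  rw [LinearIsometryEquiv.norm_map]
  have h1 : ‖zv (Pi.single i 1 : Fin D → ℤ)‖ = 1 := by
    have : zv (Pi.single i 1 : Fin D → ℤ) = EuclideanSpace.single i (1 : ℝ) := by
      ext j
      by_cases hj : j = i
      · subst hj; simp [zv]
      · simp [zv, hj]
    rw [this]; simp
  rw [h1, mul_one]
  exact Lt.hB'

/-- Second pigeonhole: points on a line. -/
lemma line {D : ℕ} {A : ℝ} (Lt : Lat D A) (om : EE D) (F : Finset (Fin D → ℤ)) (hF : 3 ≤ F.card) (P Q : ℝ)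
    (hP : ∀ a ∈ F, ∀ b ∈ F, ‖Lt.du (a - b)‖ ≤ P) (hQ : ∀ a ∈ F, ∀ b ∈ F, pq om (Lt.du (a - b)) ≤ Q)
    (hdep : ∀ a ∈ F, ∀ b ∈ F, ∀ a' ∈ F, ∀ b' ∈ F, ¬ LinearIndependent ℝ ![Lt.du (a - b), Lt.du (a' - b')]) :
    ∃ z0 : Fin D → ℤ, z0 ≠ 0 ∧ ‖Lt.du z0‖ ≤ 2 / F.card * P ∧ pq om (Lt.du z0) ≤ (2 / F.card) ^ 2 * Q := by
  classical
  have hKpos : (0 : ℝ) < F.card := by
    have : (0 : ℕ) < F.card := by omega
    exact_mod_cast this
  have hK2 : 1 < F.card := by omega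
  obtain ⟨a0, ha0, a1, ha1, hne⟩ := Finset.one_lt_card.mp hK2
  set U := Lt.du (a1 - a0) with hU
  have hU0 : U ≠ 0 := du_ne Lt (sub_ne_zero.mpr (Ne.symm hne))
  have hc : ∀ a : Fin D → ℤ, ∃ c : ℝ, a ∈ F → c • U = Lt.du (a - a0) := by
    intro a
    by_cases ha : a ∈ F
    · have h1 := hdep a1 ha1 a0 ha0 a ha a0 ha0
      rw [LinearIndependent.pair_iff' hU0] at h1
      push Not at h1
      obtain ⟨c, hc⟩ := h1
      exact ⟨c, fun _ => hc⟩
    · exact ⟨0, fun h => absurd h ha⟩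
  choose c hc using hc
  have hcd : ∀ a ∈ F, ∀ b ∈ F, Lt.du (a - b) = (c a - c b) • U := by
    intro a ha b hb
    have e : a - b = (a - a0) - (b - a0) := by abel
    rw [e, du_sub, ← hc a ha, ← hc b hb, sub_smul]
  have hFne : F.Nonempty := ⟨a0, ha0⟩
  obtain ⟨m, hm, hmin⟩ := Finset.exists_min_image F c hFne
  obtain ⟨M, hM, hmax⟩ := Finset.exists_max_image F c hFne
  have hinj : ∀ a ∈ F, ∀ b ∈ F, a ≠ b → c a ≠ c b := by
    intro a ha b hb hab hcab
    have h := hcd a ha b hb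
    rw [hcab, sub_self, zero_smul] at h
    exact du_ne Lt (sub_ne_zero.mpr hab) h
  have hDl : 0 < c M - c m := by
    have h1 := hinj a1 ha1 a0 ha0 (Ne.symm hne)
    have h2 := hmin a1 ha1
    have h3 := hmin a0 ha0
    have h4 := hmax a1 ha1
    have h5 := hmax a0 ha0
    rcases lt_or_gt_of_ne h1 with h | h <;> linarith
  obtain ⟨K, hK⟩ : ∃ K : ℝ, K = (F.card : ℝ) := ⟨_, rfl⟩
  rw [← hK] at hKpos ⊢
  let g : (Fin D → ℤ) → ℕ := fun a => ⌊K / 2 * ((c a - c m) / (c M - c m))⌋₊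
  have hg : ∀ a ∈ F, g a ∈ Finset.range (F.card / 2 + 1) := by
    intro a ha
    rw [Finset.mem_range]
    have h1 : (c a - c m) / (c M - c m) ≤ 1 := by
      rw [div_le_one hDl]; have := hmax a ha; linarith
    have h2 : K / 2 * ((c a - c m) / (c M - c m)) ≤ K / 2 := by
      have : 0 ≤ K / 2 := by positivity
      nlinarith
    have h3 : g a ≤ ⌊K / 2⌋₊ := Nat.floor_le_floor h2
    have h4 : ⌊K / 2⌋₊ = F.card / 2 := by
      have := Nat.floor_div_natCast (K := ℝ) K 2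
      simpa [hK] using this
    omega
  have hcard : (Finset.range (F.card / 2 + 1)).card < F.card := by
    rw [Finset.card_range]; omega
  obtain ⟨a, ha, b, hb, hab, hgab⟩ := Finset.exists_ne_map_eq_of_card_lt_of_maps_to hcard hg
  have hsmall : |c a - c b| ≤ 2 / K * (c M - c m) := by
    have hx0 : 0 ≤ K / 2 * ((c a - c m) / (c M - c m)) := by
      have := hmin a ha
      have : 0 ≤ (c a - c m) / (c M - c m) := div_nonneg (by linarith) hDl.le
      positivity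
    have hy0 : 0 ≤ K / 2 * ((c b - c m) / (c M - c m)) := by
      have := hmin b hb
      have : 0 ≤ (c b - c m) / (c M - c m) := div_nonneg (by linarith) hDl.le
      positivity
    have h1 := Nat.floor_le hx0
    have h2 := Nat.lt_floor_add_one (K / 2 * ((c a - c m) / (c M - c m)))
    have h3 := Nat.floor_le hy0
    have h4 := Nat.lt_floor_add_one (K / 2 * ((c b - c m) / (c M - c m)))
    have h5 : (⌊K / 2 * ((c a - c m) / (c M - c m))⌋₊ : ℝ) = (⌊K / 2 * ((c b - c m) / (c M - c m))⌋₊ : ℝ) := by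
      exact_mod_cast hgab
    have h6 : |K / 2 * ((c a - c m) / (c M - c m)) - K / 2 * ((c b - c m) / (c M - c m))| ≤ 1 := by
      rw [abs_le]; constructor <;> linarith
    have h7 : K / 2 * ((c a - c m) / (c M - c m)) - K / 2 * ((c b - c m) / (c M - c m)) =
        (K / 2 / (c M - c m)) * (c a - c b) := by
      field_simp; ring
    have hp : 0 < K / 2 / (c M - c m) := by positivity
    rw [h7, abs_mul, abs_of_pos hp] at h6
    have h8 : |c a - c b| ≤ 1 / (K / 2 / (c M - c m)) := by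
      rw [le_div_iff₀ hp]; linarith
    refine h8.trans (le_of_eq ?_)
    field_simp
  have hMm := hcd M hM m hm
  refine ⟨a - b, sub_ne_zero.mpr hab, ?_, ?_⟩
  · rw [hcd a ha b hb, norm_smul, Real.norm_eq_abs]
    have h1 : ‖Lt.du (M - m)‖ ≤ P := hP M hM m hm
    rw [hMm, norm_smul, Real.norm_of_nonneg hDl.le] at h1
    calc |c a - c b| * ‖U‖ ≤ (2 / K * (c M - c m)) * ‖U‖ := by gcongr
      _ = 2 / K * ((c M - c m) * ‖U‖) := by ring
      _ ≤ 2 / K * P := by gcongr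
  · rw [hcd a ha b hb, pq_smul]
    have h1 := hQ M hM m hm
    rw [hMm, pq_smul] at h1
    by_cases hneg : 0 ≤ pq om U
    · have h2 : (c a - c b) ^ 2 ≤ (2 / K * (c M - c m)) ^ 2 := by
        rw [← sq_abs (c a - c b)]
        gcongr
      calc (c a - c b) ^ 2 * pq om U ≤ (2 / K * (c M - c m)) ^ 2 * pq om U := by gcongr
        _ = (2 / K) ^ 2 * ((c M - c m) ^ 2 * pq om U) := by ring
        _ ≤ (2 / K) ^ 2 * Q := by gcongr
    · have h2 : 0 ≤ Q := by
        have := hQ a0 ha0 a0 ha0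
        rw [hcd a0 ha0 a0 ha0, sub_self, zero_smul] at this
        simpa [pq] using this
      have h3 : (c a - c b) ^ 2 * pq om U ≤ 0 := mul_nonpos_of_nonneg_of_nonpos (sq_nonneg _) (not_le.mp hneg).le
      have h4 : 0 ≤ (2 / K) ^ 2 * Q := by positivity
      linarith

/-- norm of a vector with small coordinates -/
lemma norm_le_of_coord {D : ℕ} (x : EE D) (dl : ℝ) (h : ∀ i, |x i| ≤ dl) : ‖x‖ ^ 2 ≤ (D * dl) ^ 2 := by
  rw [EuclideanSpace.norm_sq_eq]
  have h1 : ∑ i, ‖x i‖ ^ 2 ≤ ∑ _i : Fin D, dl ^ 2 := by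
    refine Finset.sum_le_sum fun i _ => ?_
    rw [Real.norm_eq_abs]
    exact pow_le_pow_left₀ (abs_nonneg _) (h i) 2
  rw [Finset.sum_const, Finset.card_univ, Fintype.card_fin, nsmul_eq_mul] at h1
  have h2 : (D : ℝ) ≤ (D : ℝ) ^ 2 := by
    rcases Nat.eq_zero_or_pos D with h | h
    · subst h; simp
    · have : (1 : ℝ) ≤ D := by exact_mod_cast h
      nlinarith
  calc ∑ i, ‖x i‖ ^ 2 ≤ (D : ℝ) * dl ^ 2 := h1
    _ ≤ (D : ℝ) ^ 2 * dl ^ 2 := by gcongr
    _ = (D * dl) ^ 2 := by ring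

lemma floor_mem {x B : ℝ} (h : |x| ≤ B) : ⌊x⌋ ∈ Finset.Icc (-⌈B⌉) ⌈B⌉ := by
  rw [Finset.mem_Icc]
  have h1 := abs_le.mp h
  constructor
  · rw [Int.le_floor]
    push_cast
    have := Int.le_ceil B
    linarith
  · have h2 : ⌊x⌋ ≤ ⌊B⌋ := Int.floor_le_floor h1.2
    exact h2.trans (Int.floor_le_ceil B)

lemma card_Icc_le {B : ℝ} (h : 1 ≤ B) : ((Finset.Icc (-⌈B⌉) ⌈B⌉).card : ℝ) ≤ 5 * B := by
  rw [Int.card_Icc]
  have h1 : 0 ≤ ⌈B⌉ := Int.ceil_nonneg (by linarith)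
  have h2 : ((⌈B⌉ + 1 - -⌈B⌉).toNat : ℝ) = ((⌈B⌉ + 1 - -⌈B⌉ : ℤ) : ℝ) := by
    have : ((⌈B⌉ + 1 - -⌈B⌉).toNat : ℤ) = ⌈B⌉ + 1 - -⌈B⌉ := Int.toNat_of_nonneg (by omega)
    exact_mod_cast this
  rw [h2]
  push_cast
  have := Int.ceil_lt_add_one B
  linarith

lemma abs_sub_lt_of_floor {x y l : ℝ} (hl : 0 < l) (h : ⌊x / l⌋ = ⌊y / l⌋) : |x - y| ≤ l := by
  have h1 := Int.abs_sub_lt_one_of_floor_eq_floor h
  have h2 : x / l - y / l = (x - y) / l := by ring
  rw [h2, abs_div, abs_of_pos hl, div_lt_one hl] at h1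
  exact h1.le

theorem specDI : SpecDI := by
  classical
  intro D A hD hA
  have hD1 : (1 : ℝ) ≤ D := by
    have : (1 : ℕ) ≤ D := by omega
    exact_mod_cast this
  set C1 : ℝ := 160 * (160 * D) ^ D with hC1
  have hC1pos : 1 ≤ C1 := by
    have h1 : (1 : ℝ) ≤ (160 * (D : ℝ)) ^ D := one_le_pow₀ (by nlinarith)
    rw [hC1]; nlinarith
  have hA0 : 0 < A := by linarith
  refine ⟨4 * Real.pi * A * C1, 14 + 5 * D, by positivity, ?_⟩
  intro Lt om T w hom hw hw1 hT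
  set X : ℝ := w⁻¹ with hX
  have hX1 : 1 ≤ X := (one_le_inv₀ hw).mpr hw1
  have hwX : w * X = 1 := mul_inv_cancel₀ hw.ne'
  by_cases hc1 : (∀ Z : Finset (Fin D → ℤ), (∀ z ∈ Z, |inner ℝ om (Lt.du z)| ≤ 4 * T / w ∧ pq om (Lt.du z) ≤ 4 ^ 2) →
    (Z.card : ℝ) ≤ w ^ 8 * T)
  · exact Or.inl hc1
  refine Or.inr ?_
  push Not at hc1
  obtain ⟨Z, hZ, hZc⟩ := hc1
  by_cases hind : (∃ z1 z2 : Fin D → ℤ, LinearIndependent ℝ ![Lt.du z1, Lt.du z2] ∧
    |inner ℝ om (Lt.du z1)| ≤ w ^ 5 * T / 8 ∧ |inner ℝ om (Lt.du z2)| ≤ w ^ 5 * T / 8 ∧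
    pq om (Lt.du z1) ≤ (w ^ 5 / 8) ^ 2 ∧ pq om (Lt.du z2) ≤ (w ^ 5 / 8) ^ 2)
  · exact Or.inl hind
  refine Or.inr ?_
  push Not at hind
  -- the boxes
  set l1 : ℝ := w ^ 5 * T / 8 with hl1
  have hl1pos : 0 < l1 := by positivity
  set l2 : ℝ := w ^ 5 / (8 * D) with hl2
  have hl2pos : 0 < l2 := by positivity
  let Pv : (Fin D → ℤ) → EE D := fun z => Lt.du z - (inner ℝ om (Lt.du z) : ℝ) • om
  let f : (Fin D → ℤ) → ℤ × (Fin D → ℤ) := fun z => (⌊inner ℝ om (Lt.du z) / l1⌋, fun i => ⌊Pv z i / l2⌋)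
  set B1 : ℝ := 32 * X ^ 6 with hB1
  set B2 : ℝ := 32 * D * X ^ 5 with hB2
  let t : Finset (ℤ × (Fin D → ℤ)) := Finset.Icc (-⌈B1⌉) ⌈B1⌉ ×ˢ Fintype.piFinset fun _ => Finset.Icc (-⌈B2⌉) ⌈B2⌉
  have hft : ∀ z ∈ Z, f z ∈ t := by
    intro z hz
    obtain ⟨h1, h2⟩ := hZ z hz
    rw [Finset.mem_product, Fintype.mem_piFinset]
    refine ⟨floor_mem ?_, fun i => floor_mem ?_⟩
    · rw [abs_div, abs_of_pos hl1pos, div_le_iff₀ hl1pos]
      refine h1.trans (le_of_eq ?_)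
      rw [hB1, hl1, hX]
      field_simp
      ring
    · rw [abs_div, abs_of_pos hl2pos, div_le_iff₀ hl2pos]
      have h3 : |Pv z i| ≤ ‖Pv z‖ := by
        have := PiLp.norm_apply_le (Pv z) i
        simpa [Real.norm_eq_abs] using this
      have h4 : ‖Pv z‖ ≤ 4 := by
        rw [pq_eq om _ hom] at h2
        exact abs_le_of_sq_le_sq' h2 (by norm_num) |>.2
      refine h3.trans (h4.trans (le_of_eq ?_))
      rw [hB2, hl2, hX]
      field_simp
      ring
  have htc : (t.card : ℝ) ≤ C1 * X ^ (6 + 5 * D) := by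
    have h1 : (t.card : ℝ) = ((Finset.Icc (-⌈B1⌉) ⌈B1⌉).card : ℝ) * ((Finset.Icc (-⌈B2⌉) ⌈B2⌉).card : ℝ) ^ D := by
      rw [Finset.card_product, Fintype.card_piFinset]
      simp
    have hX6 : 1 ≤ X ^ 6 := one_le_pow₀ hX1
    have hX5 : 1 ≤ X ^ 5 := one_le_pow₀ hX1
    have h2 := card_Icc_le (B := B1) (by rw [hB1]; linarith)
    have h3 := card_Icc_le (B := B2) (by rw [hB2]; nlinarith)
    rw [h1]
    calc _ ≤ (5 * B1) * (5 * B2) ^ D := by gcongr
      _ = C1 * X ^ (6 + 5 * D) := by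
        rw [hB1, hB2, hC1, pow_add, pow_mul]
        have : 5 * (32 * (D : ℝ) * X ^ 5) = (160 * D) * X ^ 5 := by ring
        rw [this, mul_pow]
        ring
  have htpos : 0 < (t.card : ℝ) := by
    have hZne : Z.Nonempty := by
      rw [← Finset.card_pos]
      have h1 : 0 < w ^ 8 * T := by positivity
      have h2 : (0 : ℝ) < Z.card := by linarith
      exact_mod_cast h2
    obtain ⟨z, hz⟩ := hZne
    have : 0 < t.card := Finset.card_pos.mpr ⟨f z, hft z hz⟩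
    exact_mod_cast this
  obtain ⟨y, hy, hyc⟩ := Finset.exists_lt_card_fiber_of_nsmul_lt_card_of_maps_to (b := w ^ 8 * T / t.card) hft
    (by rw [nsmul_eq_mul, mul_div_cancel₀ _ htpos.ne']; exact hZc)
  set F : Finset (Fin D → ℤ) := Z.filter fun z => f z = y with hF
  set K : ℝ := (F.card : ℝ) with hK
  set N : ℕ := 14 + 5 * D with hN
  have hXN : 0 < X ^ N := by positivity
  have hKT : T < C1 * X ^ N * K := by
    have h1 : w ^ 8 * T < K * t.card := by
      rwa [div_lt_iff₀ htpos] at hyc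
    have hK0 : 0 < K := by
      by_contra hcon
      have h2 : K * t.card ≤ 0 := mul_nonpos_of_nonpos_of_nonneg (not_lt.mp hcon) htpos.le
      have h3 : 0 < w ^ 8 * T := by positivity
      linarith
    have h2 : w ^ 8 * T < K * (C1 * X ^ (6 + 5 * D)) := h1.trans_le (by gcongr)
    have h3 : X ^ 8 * (w ^ 8 * T) < X ^ 8 * (K * (C1 * X ^ (6 + 5 * D))) := by
      have : 0 < X ^ 8 := by positivity
      exact mul_lt_mul_of_pos_left h2 this
    have h4 : X ^ 8 * (w ^ 8 * T) = T := by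
      have : X ^ 8 * w ^ 8 = 1 := by rw [← mul_pow, mul_comm, hwX, one_pow]
      rw [← mul_assoc, this, one_mul]
    have h5 : X ^ 8 * (K * (C1 * X ^ (6 + 5 * D))) = C1 * X ^ N * K := by
      rw [hN, show 14 + 5 * D = 8 + (6 + 5 * D) by ring, pow_add X 8 (6 + 5 * D)]
      ring
    rw [h4, h5] at h3
    exact h3
  by_cases hF3 : 3 ≤ F.card
  · -- differences in the box
    have hdiff : ∀ a ∈ F, ∀ b ∈ F, |inner ℝ om (Lt.du (a - b))| ≤ w ^ 5 * T / 8 ∧
        pq om (Lt.du (a - b)) ≤ (w ^ 5 / 8) ^ 2 := by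
      intro a ha b hb
      have ha' := (Finset.mem_filter.mp ha).2
      have hb' := (Finset.mem_filter.mp hb).2
      have hab : f a = f b := ha'.trans hb'.symm
      have h1 : ⌊inner ℝ om (Lt.du a) / l1⌋ = ⌊inner ℝ om (Lt.du b) / l1⌋ := congrArg Prod.fst hab
      have h2 : ∀ i, ⌊Pv a i / l2⌋ = ⌊Pv b i / l2⌋ := fun i => congrFun (congrArg Prod.snd hab) i
      refine ⟨?_, ?_⟩
      · rw [du_sub, inner_sub_right]
        exact abs_sub_lt_of_floor hl1pos h1
      · rw [pq_eq om _ hom]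
        have h3 : Lt.du (a - b) - (inner ℝ om (Lt.du (a - b)) : ℝ) • om = Pv a - Pv b := by
          simp only [Pv, du_sub, inner_sub_right, sub_smul]
          abel
        rw [h3]
        refine (norm_le_of_coord (Pv a - Pv b) l2 fun i => ?_).trans (le_of_eq ?_)
        · have := abs_sub_lt_of_floor hl2pos (h2 i)
          simpa using this
        · rw [hl2]
          have : (D : ℝ) ≠ 0 := by positivity
          field_simp
    have hnorm : ∀ a ∈ F, ∀ b ∈ F, ‖Lt.du (a - b)‖ ≤ T / 4 := by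
      intro a ha b hb
      obtain ⟨h1, h2⟩ := hdiff a ha b hb
      have h3 : ‖Lt.du (a - b)‖ ^ 2 = (inner ℝ om (Lt.du (a - b)) : ℝ) ^ 2 + pq om (Lt.du (a - b)) := by
        unfold pq; ring
      have hw5 : w ^ 5 ≤ 1 := pow_le_one₀ hw.le hw1
      have h4 : (inner ℝ om (Lt.du (a - b)) : ℝ) ^ 2 ≤ (T / 8) ^ 2 := by
        rw [← sq_abs]
        have : |(inner ℝ om (Lt.du (a - b)) : ℝ)| ≤ T / 8 := h1.trans (by nlinarith)
        gcongr
      have h5 : (w ^ 5 / 8) ^ 2 ≤ (T / 8) ^ 2 := by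
        have : w ^ 5 / 8 ≤ T / 8 := by linarith
        gcongr
      have h6 : ‖Lt.du (a - b)‖ ^ 2 ≤ (T / 4) ^ 2 := by
        rw [h3]; nlinarith
      exact (abs_le_of_sq_le_sq' h6 (by positivity)).2
    have hdep : ∀ a ∈ F, ∀ b ∈ F, ∀ a' ∈ F, ∀ b' ∈ F,
        ¬ LinearIndependent ℝ ![Lt.du (a - b), Lt.du (a' - b')] := by
      intro a ha b hb a' ha' b' hb' hli
      have h1 := hdiff a ha b hb
      have h2 := hdiff a' ha' b' hb'
      exact absurd h2.2 (not_le.mpr (hind (a - b) (a' - b') hli h1.1 h2.1 h1.2))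
    obtain ⟨z0, hz0, hz1, hz2⟩ := line Lt om F hF3 (T / 4) ((w ^ 5 / 8) ^ 2) hnorm (fun a ha b hb => (hdiff a ha b hb).2) hdep
    have hKp : 0 < K := by
      have : (3 : ℝ) ≤ K := by rw [hK]; exact_mod_cast hF3
      linarith
    have hTp : 0 < T := by linarith
    have hKi : 1 / K ≤ C1 * X ^ N / T := by
      rw [div_le_div_iff₀ hKp hTp]
      linarith
    have hpi : 3 < Real.pi := Real.pi_gt_three
    have hC : C1 ≤ 4 * Real.pi * A * C1 := by
      have : 1 ≤ 4 * Real.pi * A := by nlinarith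
      nlinarith
    refine ⟨z0, hz0, ?_, ?_⟩
    · refine hz1.trans ?_
      have h1 : 2 / K * (T / 4) = (1 / K) * (T / 2) := by ring
      rw [← hK, h1]
      calc (1 / K) * (T / 2) ≤ (C1 * X ^ N / T) * (T / 2) := by gcongr
        _ = C1 * X ^ N / 2 := by field_simp
        _ ≤ C1 * X ^ N := by
          have : 0 < C1 * X ^ N := by positivity
          linarith
        _ ≤ 4 * Real.pi * A * C1 * X ^ N := by gcongr
    · refine hz2.trans ?_
      have hw5 : w ^ 5 ≤ 1 := pow_le_one₀ hw.le hw1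
      have h1 : (2 / K) ^ 2 * (w ^ 5 / 8) ^ 2 = ((1 / K) * (w ^ 5 / 4)) ^ 2 := by ring
      rw [← hK, h1]
      have h2 : (1 / K) * (w ^ 5 / 4) ≤ 4 * Real.pi * A * C1 * X ^ N / T := by
        calc (1 / K) * (w ^ 5 / 4) ≤ (C1 * X ^ N / T) * 1 := by
              have : w ^ 5 / 4 ≤ 1 := by linarith
              have h0 : 0 ≤ C1 * X ^ N / T := by positivity
              gcongr
          _ = C1 * X ^ N / T := by ring
          _ ≤ 4 * Real.pi * A * C1 * X ^ N / T := by gcongr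
      gcongr
  · -- few points: T is bounded
    have hK2 : K ≤ 2 := by
      have : F.card ≤ 2 := by omega
      rw [hK]; exact_mod_cast this
    have hT2 : T ≤ 2 * C1 * X ^ N := by
      have : C1 * X ^ N * K ≤ C1 * X ^ N * 2 := by gcongr
      linarith
    have hi : 0 < D := by omega
    have h1 := du_norm_single Lt ⟨0, hi⟩
    refine ⟨Pi.single ⟨0, hi⟩ 1, ?_, ?_, ?_⟩
    · intro h
      have := congrFun h ⟨0, hi⟩
      simp at this
    · refine h1.trans ?_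
      have h2 : 1 ≤ C1 * X ^ N := by
        have : 1 ≤ X ^ N := one_le_pow₀ hX1
        nlinarith
      have h3 : 0 < Real.pi * A := by positivity
      nlinarith
    · refine (pq_le _ _).trans ?_
      have hTp : 0 < T := by linarith
      have h2 : 2 * Real.pi * A ≤ 4 * Real.pi * A * C1 * X ^ N / T := by
        rw [le_div_iff₀ hTp]
        have h3 : 0 < Real.pi * A := by positivity
        nlinarith
      have h4 : ‖Lt.du (Pi.single ⟨0, hi⟩ 1)‖ ≤ 4 * Real.pi * A * C1 * X ^ N / T := h1.trans h2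
      gcongr

end Pool.Agent.Lib.MP_a8dae7_an.UN.DIM
end

section
/-!
# MP_a8dae7_an, UN: module FF, the fold point
-/
set_option autoImplicit false

open MeasureTheory
open scoped ContDiff

namespace Pool.Agent.Lib.MP_a8dae7_an.UN.FFM

open Pool.Agent.Lib.MP_a8dae7_an.CV (EE sl)

/-- a vector orthogonal to `nu` and to the range of `J` is zero -/
theorem decomp_zero {k : ℕ} (nu : EE (k + 1)) (J : EE k →ₗᵢ[ℝ] EE (k + 1)) (h1 : ‖nu‖ = 1)
    (h2 : ∀ v, inner ℝ nu (J v) = 0) (z : EE (k + 1)) (h3 : inner ℝ nu z = 0)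
    (h4 : ∀ v, inner ℝ (J v) z = 0) : z = 0 := by
  set K : Submodule ℝ (EE (k + 1)) := LinearMap.range J.toLinearMap with hK
  have hf : Module.finrank ℝ K = k := by
    rw [hK, LinearMap.finrank_range_of_inj J.injective, finrank_euclideanSpace_fin]
  have hf2 : Module.finrank ℝ Kᗮ = 1 := by
    have := K.finrank_add_finrank_orthogonal
    rw [hf, finrank_euclideanSpace_fin] at this
    omega
  have hnu : nu ∈ Kᗮ := by
    rw [Submodule.mem_orthogonal']
    rintro _ ⟨v, rfl⟩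
    exact h2 v
  have hz : z ∈ Kᗮ := by
    rw [Submodule.mem_orthogonal]
    rintro _ ⟨v, rfl⟩
    exact h4 v
  have hne : (⟨nu, hnu⟩ : Kᗮ) ≠ 0 := fun h => by
    have h5 : nu = 0 := congrArg Subtype.val h
    rw [h5, norm_zero] at h1
    exact zero_ne_one h1
  obtain ⟨r, hr⟩ := (finrank_eq_one_iff_of_nonzero' _ hne).1 hf2 ⟨z, hz⟩
  have hr' : r • nu = z := congrArg Subtype.val hr
  rw [← hr', inner_smul_right, real_inner_self_eq_norm_sq, h1] at h3
  have : r = 0 := by simpa using h3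
  rw [← hr', this, zero_smul]

theorem decomp {k : ℕ} (nu : EE (k + 1)) (J : EE k →ₗᵢ[ℝ] EE (k + 1)) (h1 : ‖nu‖ = 1)
    (h2 : ∀ v, inner ℝ nu (J v) = 0) (y : EE (k + 1)) :
    y = (inner ℝ nu y : ℝ) • nu + J (ContinuousLinearMap.adjoint J.toContinuousLinearMap y) := by
  have h := decomp_zero nu J h1 h2
    (y - ((inner ℝ nu y : ℝ) • nu + J (ContinuousLinearMap.adjoint J.toContinuousLinearMap y))) ?_ ?_
  · exact sub_eq_zero.1 h
  · rw [inner_sub_right, inner_add_right, inner_smul_right, real_inner_self_eq_norm_sq, h1, h2]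
    ring
  · intro v
    have h3 : inner ℝ (J v) nu = 0 := by rw [real_inner_comm]; exact h2 v
    rw [inner_sub_right, inner_add_right, inner_smul_right, h3, J.inner_map_map,
      ContinuousLinearMap.adjoint_inner_right]
    show inner ℝ (J v) y - _ = 0
    simp

theorem decomp_sq {k : ℕ} (nu : EE (k + 1)) (J : EE k →ₗᵢ[ℝ] EE (k + 1)) (h1 : ‖nu‖ = 1)
    (h2 : ∀ v, inner ℝ nu (J v) = 0) (y : EE (k + 1)) :
    ‖y‖ ^ 2 = (inner ℝ nu y : ℝ) ^ 2 +
      ‖ContinuousLinearMap.adjoint J.toContinuousLinearMap y‖ ^ 2 := by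
  have h := decomp nu J h1 h2 y
  have h3 : inner ℝ y (J (ContinuousLinearMap.adjoint J.toContinuousLinearMap y)) =
      ‖ContinuousLinearMap.adjoint J.toContinuousLinearMap y‖ ^ 2 := by
    rw [← real_inner_self_eq_norm_sq, ContinuousLinearMap.adjoint_inner_left]
    rfl
  calc ‖y‖ ^ 2 = inner ℝ y y := (real_inner_self_eq_norm_sq y).symm
    _ = inner ℝ y ((inner ℝ nu y : ℝ) • nu +
        J (ContinuousLinearMap.adjoint J.toContinuousLinearMap y)) := by rw [← h]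
    _ = _ := by
        rw [inner_add_right, inner_smul_right, h3, real_inner_comm]
        ring

theorem exists_perp {m : ℕ} (e : EE (m + 1)) (he : ‖e‖ = 1) :
    ∃ L : EE m →ₗᵢ[ℝ] EE (m + 1), ∀ b, inner ℝ e (L b) = 0 := by
  haveI : Fact (Module.finrank ℝ (EE (m + 1)) = m + 1) := ⟨finrank_euclideanSpace_fin⟩
  have hne : e ≠ 0 := fun h => by rw [h, norm_zero] at he; exact zero_ne_one he
  let ob := OrthonormalBasis.fromOrthogonalSpanSingleton (𝕜 := ℝ) m hne
  refine ⟨(Submodule.span ℝ {e})ᗮ.subtypeₗᵢ.comp ob.repr.symm.toLinearIsometry, fun b => ?_⟩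
  have h := (ob.repr.symm b).2
  rw [Submodule.mem_orthogonal] at h
  exact h e (Submodule.mem_span_singleton_self e)

/-- the zero of the strongly monotone map -/
theorem exists_zero (hCX : SpecCX) {m : ℕ} {c R : ℝ} {M : ℕ → ℝ} (hc : Cls c R M)
    (ch : UChart (m + 1) c R M) (e : EE (m + 1)) (L : EE m →ₗᵢ[ℝ] EE (m + 1)) (he : ‖e‖ = 1)
    (s sg B rho : ℝ) (b1 : EE m) (hB : M 1 ≤ B) (hB0 : 0 < B)
    (hrho : rho = 3 * (B / c) * |s - sg|) (hq : ‖s • e + L b1‖ ≤ R)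
    (hR : ∀ b, ‖b - b1‖ ≤ rho → ‖sl e L sg b‖ ≤ R) :
    ∃ b : EE m, ‖b - b1‖ ≤ rho ∧
      ∀ v, inner ℝ (ch.J (L v)) (ch.X (s • e + L b1) - ch.X (sl e L sg b)) = 0 := by
  have hcp := hc.c_pos
  rcases eq_or_ne s sg with hs | hs
  · refine ⟨b1, ?_, fun v => ?_⟩
    · rw [sub_self, norm_zero, hrho]; positivity
    · rw [hs]; unfold sl; rw [sub_self, inner_zero_right]
  have hs' : 0 < |s - sg| := abs_pos.2 (sub_ne_zero.2 hs)
  have hrp : 0 < rho := by rw [hrho]; positivity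
  set T : EE (m + 2) →L[ℝ] EE m :=
    ContinuousLinearMap.adjoint (ch.J.comp L).toContinuousLinearMap with hT
  have hTi : ∀ v y, inner ℝ v (T y) = inner ℝ (ch.J (L v)) y := fun v y => by
    rw [hT, ContinuousLinearMap.adjoint_inner_right]
    rfl
  set G : EE m → EE m := fun b => T (ch.X (sl e L sg b) - ch.X (s • e + L b1)) with hG
  have hslc : ContDiff ℝ ∞ (fun b => sl e L sg b) := by
    unfold sl
    exact contDiff_const.add L.contDiff
  have hGs : ContDiff ℝ ∞ G := by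
    rw [hG]
    exact T.contDiff.comp ((ch.smooth.comp hslc).sub contDiff_const)
  -- the minimum of the norm
  obtain ⟨b, hb, hmin⟩ := (isCompact_closedBall b1 rho).exists_isMinOn
    ⟨b1, Metric.mem_closedBall_self hrp.le⟩ (f := fun b => ‖G b‖ ^ 2)
    (hGs.continuous.norm.pow 2).continuousOn
  rw [Metric.mem_closedBall, dist_eq_norm] at hb
  have hb1R : ‖sl e L sg b1‖ ≤ R := hR b1 (by rw [sub_self, norm_zero]; exact hrp.le)
  have hG1 : ‖G b1‖ ≤ B * |s - sg| := by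
    have h1 := (hCX (m + 1) c R M hc ch (sl e L sg b1) (s • e + L b1) hb1R hq).2.1
    have h2 : sl e L sg b1 - (s • e + L b1) = (sg - s) • e := by
      unfold sl
      rw [sub_smul]
      abel
    have h3 : ‖T (ch.X (sl e L sg b1) - ch.X (s • e + L b1))‖ ≤
        ‖ch.X (sl e L sg b1) - ch.X (s • e + L b1)‖ := by
      set y := ch.X (sl e L sg b1) - ch.X (s • e + L b1)
      have h4 : ‖T y‖ * ‖T y‖ ≤ ‖T y‖ * ‖y‖ := by
        calc ‖T y‖ * ‖T y‖ = inner ℝ (T y) (T y) := (real_inner_self_eq_norm_mul_norm _).symm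
          _ = inner ℝ (ch.J (L (T y))) y := hTi _ _
          _ ≤ ‖ch.J (L (T y))‖ * ‖y‖ := real_inner_le_norm _ _
          _ = ‖T y‖ * ‖y‖ := by rw [ch.J.norm_map, L.norm_map]
      rcases (norm_nonneg (T y)).eq_or_lt with h5 | h5
      · rw [← h5]; exact norm_nonneg _
      · exact le_of_mul_le_mul_left h4 h5
    rw [h2, norm_smul, he, mul_one, Real.norm_eq_abs, abs_sub_comm] at h1
    calc ‖G b1‖ ≤ _ := h3
      _ ≤ M 1 * |s - sg| := h1
      _ ≤ B * |s - sg| := by gcongr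
  have hbR := hR b hb
  have hGb : ‖G b‖ ≤ ‖G b1‖ := by
    have h1 : ‖G b‖ ^ 2 ≤ ‖G b1‖ ^ 2 := hmin (Metric.mem_closedBall_self hrp.le)
    exact (sq_le_sq₀ (norm_nonneg _) (norm_nonneg _)).1 h1
  have hlt : ‖b - b1‖ < rho := by
    refine lt_of_le_of_ne hb fun h => ?_
    have h1 := (hCX (m + 1) c R M hc ch (sl e L sg b1) (sl e L sg b) hb1R hbR).2.2.2.2.1
    have h2 : sl e L sg b - sl e L sg b1 = L (b - b1) := by
      unfold sl
      rw [map_sub]
      abel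
    rw [h2, L.norm_map, h] at h1
    have h3 : inner ℝ (ch.J (L (b - b1))) (ch.X (sl e L sg b) - ch.X (sl e L sg b1)) =
        inner ℝ (b - b1) (G b - G b1) := by
      have h4 : G b - G b1 = T (ch.X (sl e L sg b) - ch.X (sl e L sg b1)) := by
        rw [hG]
        simp only
        rw [← map_sub]
        congr 1
        abel
      rw [h4, hTi]
    rw [h3] at h1
    have h5 : inner ℝ (b - b1) (G b - G b1) ≤ rho * (2 * (B * |s - sg|)) := by
      calc inner ℝ (b - b1) (G b - G b1) ≤ ‖b - b1‖ * ‖G b - G b1‖ := real_inner_le_norm _ _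
        _ ≤ rho * (‖G b‖ + ‖G b1‖) := by rw [h]; gcongr; exact norm_sub_le _ _
        _ ≤ rho * (2 * (B * |s - sg|)) := by gcongr; linarith
    have h6 : c * rho = 3 * B * |s - sg| := by rw [hrho]; field_simp
    have h7 : c * rho ^ 2 ≤ rho * (2 * (B * |s - sg|)) := h1.trans h5
    have h8 : rho * (3 * B * |s - sg|) ≤ rho * (2 * (B * |s - sg|)) := by
      rw [← h6]; linarith [h7, (by ring : c * rho ^ 2 = rho * (c * rho))]
    have h9 := le_of_mul_le_mul_left h8 hrp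
    have h10 : 0 < B * |s - sg| := by positivity
    linarith
  have hloc : IsLocalMin (fun b => ‖G b‖ ^ 2) b := by
    have h1 : Metric.closedBall b1 rho ∈ nhds b :=
      Filter.mem_of_superset (Metric.isOpen_ball.mem_nhds
        (show b ∈ Metric.ball b1 rho by rw [Metric.mem_ball, dist_eq_norm]; exact hlt))
        Metric.ball_subset_closedBall
    exact hmin.isLocalMin h1
  -- the derivative of the norm
  have hdX : HasFDerivAt ch.X (fderiv ℝ ch.X (sl e L sg b)) (sl e L sg b) :=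
    (ch.smooth.differentiable (by simp) _).hasFDerivAt
  have hdsl : HasFDerivAt (fun b => sl e L sg b) L.toContinuousLinearMap b := by
    unfold sl
    exact L.toContinuousLinearMap.hasFDerivAt.const_add _
  have hdG : HasFDerivAt G (T.comp ((fderiv ℝ ch.X (sl e L sg b)).comp
      L.toContinuousLinearMap)) b := by
    have h1 := hdX.comp b hdsl
    exact T.hasFDerivAt.comp b (h1.sub_const (ch.X (s • e + L b1)))
  have hd := hdG.norm_sq
  have h0 := hloc.hasFDerivAt_eq_zero hd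
  have h1 := congrArg (fun A : EE m →L[ℝ] ℝ => A (G b)) h0
  have h2 : inner ℝ (G b) (T (fderiv ℝ ch.X (sl e L sg b) (L (G b)))) = 0 := by
    simpa using h1
  rw [hTi] at h2
  have h3 := ch.mono (sl e L sg b) (L (G b)) hbR
  rw [h2, L.norm_map] at h3
  have h4 : G b = 0 := by
    have h5 : ‖G b‖ ^ 2 ≤ 0 := by
      by_contra h6
      push Not at h6
      have := mul_pos hcp h6
      linarith
    have h6 : ‖G b‖ = 0 := by
      have := sq_nonneg ‖G b‖
      exact pow_eq_zero_iff (two_ne_zero) |>.1 (le_antisymm h5 this)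
    exact norm_eq_zero.1 h6
  refine ⟨b, hb, fun v => ?_⟩
  have h5 : inner ℝ v (G b) = 0 := by rw [h4, inner_zero_right]
  rw [hG] at h5
  simp only at h5
  rw [hTi] at h5
  have h6 : ch.X (s • e + L b1) - ch.X (sl e L sg b) =
      -(ch.X (sl e L sg b) - ch.X (s • e + L b1)) := by abel
  rw [h6, inner_neg_right, h5, neg_zero]

theorem specFF (hCX : SpecCX) (hUC : SpecUC) : SpecFF := by
  intro m c R M hc
  have hcp := hc.c_pos
  have hRp := hc.R_pos
  have hR16 := hc.R_le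
  set B : ℝ := |M 1| + 1 with hB
  have hB0 : 0 < B := by positivity
  have hMB : M 1 ≤ B := (le_abs_self _).trans (by rw [hB]; linarith)
  set d : ℝ := dl (m + 1) R with hd
  have h32 : (1 : ℝ) ≤ 32 ^ m := one_le_pow₀ (by norm_num)
  have hdp : 0 < d := by rw [hd]; unfold dl; positivity
  have hdR : d ≤ R / 128 := by
    rw [hd]
    unfold dl
    apply div_le_div_of_nonneg_left hRp.le (by norm_num)
    rw [pow_succ]
    linarith
  have hd4 : dl m (R / 8) = 4 * d := by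
    rw [hd]
    unfold dl
    rw [pow_succ]
    field_simp
    ring
  set c8 : ℝ := min (1 / 4) (min (R / 8) (c * d / (3 * B))) with hc8
  have hc8p : 0 < c8 := by
    rw [hc8]
    refine lt_min (by norm_num) (lt_min (by positivity) (by positivity))
  have hc81 : c8 ≤ 1 / 4 := min_le_left _ _
  have hc82 : c8 ≤ R / 8 := (min_le_right _ _).trans (min_le_left _ _)
  have hc83 : c8 ≤ c * d / (3 * B) := (min_le_right _ _).trans (min_le_right _ _)
  refine ⟨2 * B * (1 + 3 * (B / c)) ^ 2 + 4 / c, c8, by positivity, hc8p, ?_⟩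
  intro ch zet iota th hz hzi hth hth8
  by_cases hex : ∀ q : EE (m + 1), ‖q‖ ≤ 2 * dl (m + 1) R → th < |inner ℝ (ch.nu - ch.J q) zet|
  · exact Or.inl hex
  right
  push Not at hex
  obtain ⟨q0, hq0, hq0t⟩ := hex
  -- the vector `e`
  set Js := ContinuousLinearMap.adjoint ch.J.toContinuousLinearMap with hJs
  have hJi : ∀ x y, inner ℝ x (Js y) = inner ℝ (ch.J x) y := fun x y => by
    rw [hJs, ContinuousLinearMap.adjoint_inner_right]
    rfl
  set a : ℝ := inner ℝ ch.nu zet with ha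
  set bt : ℝ := ‖Js zet‖ with hbt
  have hsq : 1 = a ^ 2 + bt ^ 2 := by
    have := decomp_sq ch.nu ch.J ch.nu_one ch.nu_perp zet
    rw [hz] at this
    simpa using this
  have hbt0 : 0 ≤ bt := norm_nonneg _
  have hinn : ∀ q, inner ℝ (ch.nu - ch.J q) zet = a - inner ℝ q (Js zet) := fun q => by
    rw [inner_sub_left, hJi]
  have hbt1 : bt ≤ 1 := by nlinarith [sq_nonneg a]
  have hq0' : ‖q0‖ ≤ 1 / 16 := by
    have : 2 * dl (m + 1) R ≤ 1 / 16 := by rw [← hd]; linarith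
    linarith
  have hbt2 : 1 / 2 ≤ bt := by
    by_contra hlt
    push Not at hlt
    rw [hinn] at hq0t
    have h1 : |inner ℝ q0 (Js zet)| ≤ 1 / 16 * (1 / 2) := by
      calc |inner ℝ q0 (Js zet)| ≤ ‖q0‖ * ‖Js zet‖ := abs_real_inner_le_norm _ _
        _ ≤ 1 / 16 * (1 / 2) := by
            have : ‖Js zet‖ ≤ 1 / 2 := hlt.le
            gcongr
    have h2 : |a| ≤ 1 / 2 := by
      have h3 : |a| ≤ |a - inner ℝ q0 (Js zet)| + |inner ℝ q0 (Js zet)| := by
        have := abs_add_le (a - inner ℝ q0 (Js zet)) (inner ℝ q0 (Js zet))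
        rwa [sub_add_cancel] at this
      linarith
    have h3 : a ^ 2 ≤ 1 / 4 := by
      rw [← sq_abs]
      nlinarith [abs_nonneg a]
    nlinarith
  have hbtp : 0 < bt := by linarith
  set e : EE (m + 1) := bt⁻¹ • Js zet with he
  have he1 : ‖e‖ = 1 := by
    rw [he, norm_smul, norm_inv, Real.norm_eq_abs, abs_of_pos hbtp]
    exact inv_mul_cancel₀ hbtp.ne'
  have hJe : Js zet = bt • e := by
    rw [he, smul_smul, mul_inv_cancel₀ hbtp.ne', one_smul]
  obtain ⟨L, hL⟩ := exists_perp e he1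
  set sg : ℝ := a / bt with hsg
  have hinn2 : ∀ q, inner ℝ (ch.nu - ch.J q) zet = bt * (sg - inner ℝ e q) := fun q => by
    rw [hinn, hJe, inner_smul_right, real_inner_comm, hsg]
    field_simp
  have hSl : Slice ch zet e L := by
    refine ⟨hz, he1, hL, fun b => ?_⟩
    rw [real_inner_comm, ← hJi, hJe, inner_smul_right, real_inner_comm, hL, mul_zero]
  have hzero : inner ℝ (ch.nu - sg • ch.J e) zet = 0 := by
    have h1 := hinn2 (sg • e)
    rw [inner_smul_right, real_inner_self_eq_norm_sq, he1, map_smul] at h1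
    rw [h1]
    ring
  have hdist : ∀ q, |inner ℝ (ch.nu - ch.J q) zet| ≤ th → |inner ℝ e q - sg| ≤ 2 * th := fun q hq => by
    rw [hinn2, abs_mul, abs_of_pos hbtp, abs_sub_comm] at hq
    have h1 : 1 / 2 * |inner ℝ e q - sg| ≤ bt * |inner ℝ e q - sg| := by gcongr
    linarith
  have hsgR : |sg| ≤ R / 2 := by
    have h1 := hdist q0 hq0t
    have h2 : |inner ℝ e q0| ≤ 2 * d := by
      calc |inner ℝ e q0| ≤ ‖e‖ * ‖q0‖ := abs_real_inner_le_norm _ _
        _ ≤ 2 * d := by rw [he1, one_mul]; exact hq0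
    have h3 : |sg| ≤ |inner ℝ e q0 - sg| + |inner ℝ e q0| := by
      have := abs_sub_abs_le_abs_sub sg (inner ℝ e q0)
      rw [abs_sub_comm] at this
      linarith
    linarith
  obtain ⟨ch', hX', hnu', hJ', hDm'⟩ := (hUC m c R M hc).2 ch zet e L iota sg hSl hzero hsgR hzi
  refine ⟨ch', hDm', fun q hq hqt => ?_⟩
  -- the fold point
  set s : ℝ := inner ℝ e q with hs
  set b1 : EE m := ContinuousLinearMap.adjoint L.toContinuousLinearMap q with hb1
  have hqd : q = s • e + L b1 := decomp e L he1 hL q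
  have hb1n : ‖b1‖ ≤ ‖q‖ := by
    have h1 := decomp_sq e L he1 hL q
    have h2 : ‖b1‖ ^ 2 ≤ ‖q‖ ^ 2 := by rw [h1]; nlinarith [sq_nonneg (inner ℝ e q : ℝ)]
    exact (sq_le_sq₀ (norm_nonneg _) (norm_nonneg _)).1 h2
  have hss := hdist q hqt
  set rho : ℝ := 3 * (B / c) * |s - sg| with hrho
  have hrho0 : 0 ≤ rho := by positivity
  have hrhod : rho ≤ 2 * d := by
    have h1 : |s - sg| ≤ 2 * (c * d / (3 * B)) := hss.trans (by linarith)
    calc rho ≤ 3 * (B / c) * (2 * (c * d / (3 * B))) := by rw [hrho]; gcongr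
      _ = 2 * d := by field_simp
  have hqn : ‖q‖ ≤ 2 * d := hq
  have hRb : ∀ b, ‖b - b1‖ ≤ rho → ‖sl e L sg b‖ ≤ R := fun b hb => by
    have h1 : ‖b‖ ≤ ‖b - b1‖ + ‖b1‖ := by
      have := norm_add_le (b - b1) b1
      rwa [sub_add_cancel] at this
    unfold sl
    calc ‖sg • e + L b‖ ≤ ‖sg • e‖ + ‖L b‖ := norm_add_le _ _
      _ = |sg| + ‖b‖ := by rw [norm_smul, he1, mul_one, Real.norm_eq_abs, L.norm_map]
      _ ≤ R := by linarith
  obtain ⟨b, hb, hbz⟩ := exists_zero hCX hc ch e L he1 s sg B rho b1 hMB hB0 hrho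
    (by rw [← hqd]; linarith) hRb
  rw [← hqd] at hbz
  set l : ℝ := Real.sqrt (1 + sg ^ 2) with hl
  have hsg1 : sg ^ 2 ≤ 1 := by
    rw [← sq_abs]
    have h1 : |sg| ≤ 1 := by linarith
    nlinarith [abs_nonneg sg]
  have hl1 : 1 ≤ l := by
    rw [hl]
    exact Real.one_le_sqrt.2 (by nlinarith [sq_nonneg sg])
  have hl2 : l ≤ 2 := by
    rw [hl]
    calc Real.sqrt (1 + sg ^ 2) ≤ Real.sqrt (2 ^ 2) := Real.sqrt_le_sqrt (by linarith)
      _ = 2 := Real.sqrt_sq (by norm_num)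
  have hlp : 0 < l := by linarith
  have hbn : ‖b‖ ≤ 4 * d := by
    have h1 : ‖b‖ ≤ ‖b - b1‖ + ‖b1‖ := by
      have := norm_add_le (b - b1) b1
      rwa [sub_add_cancel] at this
    linarith
  have hbR : ‖sl e L sg b‖ ≤ R := hRb b hb
  set y : EE (m + 2) := ch.X q - ch.X (sl e L sg b) with hy
  set h : ℝ := l⁻¹ * inner ℝ (ch.nu - sg • ch.J e) y with hh
  have hJsl : ch.nu - ch.J (sl e L sg b) = (ch.nu - sg • ch.J e) - ch.J (L b) := by
    unfold sl
    rw [map_add, map_smul]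
    abel
  have hinny : inner ℝ (ch.nu - ch.J (sl e L sg b)) y = inner ℝ (ch.nu - sg • ch.J e) y := by
    rw [hJsl, inner_sub_left, hbz b, sub_zero]
  have hcx := hCX (m + 1) c R M hc ch (sl e L sg b) q hbR (by linarith)
  have hlow : c / 2 * ‖q - sl e L sg b‖ ^ 2 ≤ inner ℝ (ch.nu - sg • ch.J e) y := by
    rw [← hinny]; exact hcx.2.2.1
  have hup : inner ℝ (ch.nu - sg • ch.J e) y ≤ M 1 / 2 * ‖q - sl e L sg b‖ ^ 2 := by
    rw [← hinny]; exact hcx.2.2.2.1
  have hqq : q - sl e L sg b = (s - sg) • e + L (b1 - b) := by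
    rw [hqd]
    unfold sl
    rw [sub_smul, map_sub]
    abel
  have hqq1 : |s - sg| ≤ ‖q - sl e L sg b‖ := by
    have h1 : inner ℝ e (q - sl e L sg b) = s - sg := by
      rw [hqq, inner_add_right, inner_smul_right, real_inner_self_eq_norm_sq, he1, hL]
      ring
    calc |s - sg| = |inner ℝ e (q - sl e L sg b)| := by rw [h1]
      _ ≤ ‖e‖ * ‖q - sl e L sg b‖ := abs_real_inner_le_norm _ _
      _ = ‖q - sl e L sg b‖ := by rw [he1, one_mul]
  have hqq2 : ‖q - sl e L sg b‖ ≤ (1 + 3 * (B / c)) * |s - sg| := by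
    rw [hqq]
    calc ‖(s - sg) • e + L (b1 - b)‖ ≤ ‖(s - sg) • e‖ + ‖L (b1 - b)‖ := norm_add_le _ _
      _ = |s - sg| + ‖b - b1‖ := by
          rw [norm_smul, he1, mul_one, Real.norm_eq_abs, L.norm_map, norm_sub_rev]
      _ ≤ |s - sg| + 3 * (B / c) * |s - sg| := by rw [← hrho]; linarith
      _ = _ := by ring
  set t : ℝ := inner ℝ (ch.nu - ch.J q) zet with ht
  have htb : |t| = bt * |s - sg| := by
    rw [ht, hinn2, abs_mul, abs_of_pos hbtp, abs_sub_comm]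
  have ht1 : |s - sg| ^ 2 ≤ 4 * t ^ 2 := by
    rw [← sq_abs t, htb]
    have h1 : 1 / 2 * |s - sg| ≤ bt * |s - sg| := by gcongr
    have h2 : (1 / 2 * |s - sg|) ^ 2 ≤ (bt * |s - sg|) ^ 2 := by gcongr
    have h3 : (1 / 2 * |s - sg|) ^ 2 = 1 / 4 * |s - sg| ^ 2 := by ring
    linarith
  have ht2 : t ^ 2 ≤ |s - sg| ^ 2 := by
    rw [← sq_abs t, htb]
    have : bt * |s - sg| ≤ |s - sg| := by nlinarith [abs_nonneg (s - sg)]
    have h0 : 0 ≤ bt * |s - sg| := by positivity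
    gcongr
  refine ⟨l⁻¹ • b, h, ?_, ?_, ?_, ?_, ?_⟩
  · rw [hd4, norm_smul, norm_inv, Real.norm_eq_abs, abs_of_pos hlp]
    calc l⁻¹ * ‖b‖ ≤ 1 * (4 * d) := by
          have : l⁻¹ ≤ 1 := inv_le_one_of_one_le₀ hl1
          gcongr
      _ = 4 * d := one_mul _
  · have h1 : 0 ≤ inner ℝ (ch.nu - sg • ch.J e) y := le_trans (by positivity) hlow
    rw [hh]
    positivity
  · -- upper bound
    have h1 : 0 ≤ inner ℝ (ch.nu - sg • ch.J e) y := le_trans (by positivity) hlow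
    have h2 : h ≤ inner ℝ (ch.nu - sg • ch.J e) y := by
      rw [hh]
      have : l⁻¹ ≤ 1 := inv_le_one_of_one_le₀ hl1
      nlinarith
    have h3 : ‖q - sl e L sg b‖ ^ 2 ≤ (1 + 3 * (B / c)) ^ 2 * (4 * t ^ 2) := by
      calc ‖q - sl e L sg b‖ ^ 2 ≤ ((1 + 3 * (B / c)) * |s - sg|) ^ 2 := by gcongr
        _ = (1 + 3 * (B / c)) ^ 2 * |s - sg| ^ 2 := by ring
        _ ≤ _ := by gcongr
    calc h ≤ M 1 / 2 * ‖q - sl e L sg b‖ ^ 2 := h2.trans hup
      _ ≤ B / 2 * ((1 + 3 * (B / c)) ^ 2 * (4 * t ^ 2)) := by gcongr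
      _ = 2 * B * (1 + 3 * (B / c)) ^ 2 * t ^ 2 := by ring
      _ ≤ (2 * B * (1 + 3 * (B / c)) ^ 2 + 4 / c) * t ^ 2 := by
          have : 0 ≤ 4 / c := by positivity
          gcongr
          linarith
  · -- lower bound
    have h1 : c / 2 * t ^ 2 ≤ inner ℝ (ch.nu - sg • ch.J e) y := by
      calc c / 2 * t ^ 2 ≤ c / 2 * |s - sg| ^ 2 := by gcongr
        _ ≤ c / 2 * ‖q - sl e L sg b‖ ^ 2 := by gcongr
        _ ≤ _ := hlow
    have h2 : c / 4 * t ^ 2 ≤ h := by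
      rw [hh]
      have h3 : (1 / 2 : ℝ) ≤ l⁻¹ := by
        rw [one_div]
        exact inv_anti₀ hlp hl2
      calc c / 4 * t ^ 2 = 1 / 2 * (c / 2 * t ^ 2) := by ring
        _ ≤ l⁻¹ * inner ℝ (ch.nu - sg • ch.J e) y := by gcongr
    have h3 : 0 ≤ h := le_trans (by positivity) h2
    calc t ^ 2 = 4 / c * (c / 4 * t ^ 2) := by field_simp
      _ ≤ 4 / c * h := by gcongr
      _ ≤ (2 * B * (1 + 3 * (B / c)) ^ 2 + 4 / c) * h := by
          have : 0 ≤ 2 * B * (1 + 3 * (B / c)) ^ 2 := by positivity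
          gcongr
          linarith
  · -- the identity
    have hXb : ch'.X (l⁻¹ • b) = ContinuousLinearMap.adjoint iota.toContinuousLinearMap
        (ch.X (sl e L sg b)) := by
      rw [hX', smul_smul, mul_inv_cancel₀ hlp.ne', one_smul]
    set Is := ContinuousLinearMap.adjoint iota.toContinuousLinearMap with hIs
    have hIi : ∀ x z, inner ℝ x (Is z) = inner ℝ (iota x) z := fun x z => by
      rw [hIs, ContinuousLinearMap.adjoint_inner_right]
      rfl
    have hw : Is y - h • ch'.nu = 0 := by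
      refine decomp_zero ch'.nu ch'.J ch'.nu_one ch'.nu_perp _ ?_ fun v => ?_
      · rw [inner_sub_right, inner_smul_right, real_inner_self_eq_norm_sq, ch'.nu_one, hIi, hnu',
          inner_smul_left, hh]
        simp
      · have h1 : inner ℝ (ch'.J v) ch'.nu = 0 := by
          rw [real_inner_comm]; exact ch'.nu_perp v
        rw [inner_sub_right, inner_smul_right, h1, hIi, hJ', hbz v]
        ring
    have hw' : Is y = h • ch'.nu := sub_eq_zero.1 hw
    rw [hXb, ← hw', hy, map_sub]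
    abel

end Pool.Agent.Lib.MP_a8dae7_an.UN.FFM
end

section
/-!
# MP_a8dae7_an, UN: Lemma C (module LC)
-/
set_option autoImplicit false

open MeasureTheory Set
open scoped ENNReal

namespace Pool.Agent.Lib.MP_a8dae7_an.UN.LCM

open Pool.Agent.Lib.MP_a8dae7_an.CV (EE zv ex pq pi2 AA sl bm)

/-! ### The seminorm `|P x|` -/

theorem pq_eq {d : ℕ} {om : EE d} (h : ‖om‖ = 1) (x : EE d) :
    pq om x = ‖x - (inner ℝ om x : ℝ) • om‖ ^ 2 := by
  rw [pq, norm_sub_sq_real, norm_smul, h, inner_smul_right, real_inner_comm, Real.norm_eq_abs, mul_one, sq_abs]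
  ring

theorem pq_le_iff {d : ℕ} {om : EE d} (h : ‖om‖ = 1) {x : EE d} {a : ℝ} (ha : 0 ≤ a) :
    pq om x ≤ a ^ 2 ↔ ‖x - (inner ℝ om x : ℝ) • om‖ ≤ a := by
  rw [pq_eq h]
  constructor
  · intro h1
    exact abs_le_of_sq_le_sq' h1 ha |>.2
  · intro h1
    gcongr

theorem pq_add {d : ℕ} {om : EE d} (h : ‖om‖ = 1) {x y : EE d} {a b : ℝ} (ha : 0 ≤ a) (hb : 0 ≤ b)
    (hx : pq om x ≤ a ^ 2) (hy : pq om y ≤ b ^ 2) : pq om (x + y) ≤ (a + b) ^ 2 := by
  rw [pq_le_iff h ha] at hx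
  rw [pq_le_iff h hb] at hy
  rw [pq_le_iff h (by positivity)]
  have : x + y - (inner ℝ om (x + y) : ℝ) • om =
      (x - (inner ℝ om x : ℝ) • om) + (y - (inner ℝ om y : ℝ) • om) := by
    rw [inner_add_right]
    module
  rw [this]
  exact (norm_add_le _ _).trans (add_le_add hx hy)

theorem pq_smul {d : ℕ} (om x : EE d) (c : ℝ) : pq om (c • x) = c ^ 2 * pq om x := by
  rw [pq, pq, norm_smul, inner_smul_right, Real.norm_eq_abs, mul_pow, sq_abs]
  ring

theorem pq_smul_le {d : ℕ} {om x : EE d} {a c : ℝ} (hc : |c| ≤ 1)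
    (hx : pq om x ≤ a ^ 2) : pq om (c • x) ≤ a ^ 2 := by
  rw [pq_smul]
  have h1 : c ^ 2 ≤ 1 := by
    rw [← sq_abs]
    nlinarith [abs_nonneg c]
  nlinarith [sq_nonneg c, sq_nonneg a]

theorem pq_neg {d : ℕ} (om x : EE d) : pq om (-x) = pq om x := by
  rw [pq, pq, norm_neg, inner_neg_right, neg_sq]

theorem pq_le_norm {d : ℕ} (om x : EE d) : pq om x ≤ ‖x‖ ^ 2 := by
  rw [pq]
  nlinarith [sq_nonneg (inner ℝ om x : ℝ)]

theorem continuous_pq {d : ℕ} (om : EE d) : Continuous (pq om) := by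
  unfold pq
  fun_prop

/-! ### The bad set -/

/-- the bad set -/
def Bad {m : ℕ} {c R : ℝ} {M : ℕ → ℝ} (ch : UChart (m + 1) c R M) (om : EE (m + 2)) (e : EE (m + 1))
    (F : Set (EE (m + 1))) (sg' : ℝ) (q : EE (m + 1)) (t w' : ℝ) : Set (EE (m + 2)) :=
  {x | t / 2 ≤ |inner ℝ om x| ∧ |inner ℝ om x| ≤ 3 * t ∧ ∃ q' : EE (m + 1), (q' ∈ F ∧ ‖q'‖ ≤ 2 * dl (m + 1) R ∧
    inner ℝ e q' = sg') ∧ pq om (ch.X q - ch.X q' + x) ≤ (2 * w') ^ 2}

/-- the good set -/
def Good {d : ℕ} (om : EE d) (t : ℝ) : Set (EE d) :=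
  {x | |inner ℝ om x| ≤ 3 * t ∧ pq om x ≤ 4 ^ 2}

theorem isClosed_good {d : ℕ} (om : EE d) (t : ℝ) : IsClosed (Good om t) := by
  refine IsClosed.inter ?_ ?_
  · exact isClosed_le (f := fun x => |inner ℝ om x|) (g := fun _ => 3 * t) (by fun_prop) (by fun_prop)
  · exact isClosed_le (continuous_pq om) continuous_const

theorem isClosed_bad {m : ℕ} {c R : ℝ} {M : ℕ → ℝ} (ch : UChart (m + 1) c R M) (om : EE (m + 2)) (e : EE (m + 1))
    (F : Set (EE (m + 1))) (hF : IsClosed F) (sg' : ℝ) (q : EE (m + 1)) (t w' : ℝ) :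
    IsClosed (Bad ch om e F sg' q t w') := by
  have hK : IsCompact {q' : EE (m + 1) | q' ∈ F ∧ ‖q'‖ ≤ 2 * dl (m + 1) R ∧ inner ℝ e q' = sg'} := by
    refine Metric.isCompact_of_isClosed_isBounded ?_ ?_
    · refine hF.inter (IsClosed.inter ?_ ?_)
      · exact isClosed_le (f := fun q' : EE (m + 1) => ‖q'‖) (g := fun _ => 2 * dl (m + 1) R) (by fun_prop)
          (by fun_prop)
      · exact isClosed_eq (f := fun q' : EE (m + 1) => (inner ℝ e q' : ℝ)) (g := fun _ => sg') (by fun_prop)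
          (by fun_prop)
    · refine (Metric.isBounded_closedBall (x := (0 : EE (m + 1))) (r := 2 * dl (m + 1) R)).subset ?_
      intro q' hq'
      rw [Metric.mem_closedBall, dist_zero_right]
      exact hq'.2.1
  set K := {q' : EE (m + 1) | q' ∈ F ∧ ‖q'‖ ≤ 2 * dl (m + 1) R ∧ inner ℝ e q' = sg'} with hKd
  have : CompactSpace K := isCompact_iff_compactSpace.1 hK
  have h1 : IsClosed {x : EE (m + 2) | ∃ q' : EE (m + 1), q' ∈ K ∧ pq om (ch.X q - ch.X q' + x) ≤ (2 * w') ^ 2} := by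
    have h2 : IsClosed {p : K × EE (m + 2) | pq om (ch.X q - ch.X p.1 + p.2) ≤ (2 * w') ^ 2} := by
      refine isClosed_le ?_ continuous_const
      refine (continuous_pq om).comp ?_
      have := ch.smooth.continuous
      fun_prop
    have h3 := isClosedMap_snd_of_compactSpace (X := K) (Y := EE (m + 2)) _ h2
    convert h3 using 1
    ext x
    constructor
    · rintro ⟨q', hq', hx⟩
      exact ⟨(⟨q', hq'⟩, x), hx, rfl⟩
    · rintro ⟨⟨q', x'⟩, hx, rfl⟩
      exact ⟨q'.1, q'.2, hx⟩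
  refine IsClosed.inter ?_ (IsClosed.inter ?_ h1)
  · exact isClosed_le (f := fun _ => t / 2) (g := fun x => |inner ℝ om x|) (by fun_prop) (by fun_prop)
  · exact isClosed_le (f := fun x => |inner ℝ om x|) (g := fun _ => 3 * t) (by fun_prop) (by fun_prop)

theorem dl_le {k : ℕ} {R : ℝ} (hR : 0 < R) : 2 * dl k R ≤ R := by
  unfold dl
  have h1 : (1 : ℝ) ≤ 32 ^ k := one_le_pow₀ (by norm_num)
  rw [mul_div_assoc', div_le_iff₀ (by positivity)]
  nlinarith

/-- `x ∈ Good` if the line meets `Bad` -/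
theorem good_of_bad {m : ℕ} {c R A : ℝ} {M : ℕ → ℝ} (hA : 1 ≤ A) (hR : 0 < R) (ch : UChart (m + 1) c R M)
    (hdm : Dm ch (1 / (8 * A))) {om : EE (m + 2)} (hom : ‖om‖ = 1) (e : EE (m + 1))
    (F : Set (EE (m + 1))) (sg' : ℝ) (q : EE (m + 1)) (hq : ‖q‖ ≤ 2 * dl (m + 1) R) {t w' : ℝ} (hw' : 0 < w')
    (hw1 : w' ≤ 1) {v : EE (m + 2)} (hv : ‖v‖ = 1) (hov : inner ℝ om v = 0) (x : EE (m + 2)) (y : ℝ)
    (hy : y ∈ Set.Icc (-1 : ℝ) 1) (hx : x + y • v ∈ Bad ch om e F sg' q t w') : x ∈ Good om t := by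
  obtain ⟨-, h2, q', ⟨-, hq', -⟩, h3⟩ := hx
  rw [inner_add_right, inner_smul_right, hov, mul_zero, add_zero] at h2
  refine ⟨h2, ?_⟩
  have hdl := dl_le (k := m + 1) hR
  have hd : ‖ch.X q - ch.X q'‖ ≤ 1 / 8 := by
    refine (hdm q q' (by linarith) (by linarith)).trans ?_
    rw [div_le_div_iff₀ (by positivity) (by norm_num)]
    linarith
  have hy' : |y| ≤ 1 := abs_le.2 hy
  have e1 : x = (ch.X q - ch.X q' + (x + y • v)) + (-(ch.X q - ch.X q') + (-y) • v) := by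
    module
  have h4 : pq om (-(ch.X q - ch.X q')) ≤ (1 / 8) ^ 2 := by
    rw [pq_neg]
    refine (pq_le_norm _ _).trans ?_
    gcongr
  have h5 : pq om ((-y) • v) ≤ 1 ^ 2 := by
    refine pq_smul_le (by rwa [abs_neg]) ?_
    refine (pq_le_norm _ _).trans ?_
    rw [hv]
  have h6 := pq_add hom (by norm_num) (by norm_num) h4 h5
  have h7 := pq_add hom (by positivity) (by norm_num) h3 h6
  rw [← e1] at h7
  refine h7.trans ?_
  gcongr
  linarith

theorem isBounded_good {d : ℕ} (om : EE d) (t : ℝ) : Bornology.IsBounded (Good om t) := by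
  refine (Metric.isBounded_closedBall (x := (0 : EE d)) (r := 4 + 3 * |t|)).subset ?_
  intro x hx
  rw [Metric.mem_closedBall, dist_zero_right]
  obtain ⟨h1, h2⟩ := hx
  rw [pq] at h2
  have h3 : |inner ℝ om x| ≤ 3 * |t| := h1.trans (by nlinarith [le_abs_self t])
  refine abs_le_of_sq_le_sq' (a := ‖x‖) ?_ (by positivity) |>.2
  have h4 : inner ℝ om x ^ 2 ≤ (3 * |t|) ^ 2 := by
    rw [← sq_abs]
    gcongr
  nlinarith [abs_nonneg t]

/-- finiteness of the set of lattice points in a tube -/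
theorem exists_G {D : ℕ} {A CT : ℝ} (Lt : Lat D A) (om : EE D) (t : ℝ)
    (h : ∀ Z : Finset (Fin D → ℤ), (∀ z ∈ Z, |inner ℝ om (Lt.du z)| ≤ t ∧ pq om (Lt.du z) ≤ 5 ^ 2) →
      (Z.card : ℝ) ≤ CT * t) :
    ∃ G : Finset (Fin D → ℤ), (∀ z, |inner ℝ om (Lt.du z)| ≤ t → pq om (Lt.du z) ≤ 5 ^ 2 → z ∈ G) ∧
      (G.card : ℝ) ≤ CT * t := by
  have hfin : {z : Fin D → ℤ | |inner ℝ om (Lt.du z)| ≤ t ∧ pq om (Lt.du z) ≤ 5 ^ 2}.Finite := by
    by_contra hinf
    obtain ⟨n, hn⟩ := exists_nat_gt (CT * t)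
    obtain ⟨Z, hZ, hc⟩ := Set.Infinite.exists_subset_card_eq hinf n
    have := h Z fun z hz => hZ hz
    rw [hc] at this
    linarith
  refine ⟨hfin.toFinset, fun z h1 h2 => hfin.mem_toFinset.2 ⟨h1, h2⟩, h _ fun z hz => hfin.mem_toFinset.1 hz⟩

/-- the count from the length of the bad set on lines -/
theorem core (hAV : SpecAV) {m : ℕ} {c R A CT : ℝ} {M : ℕ → ℝ} (hA : 1 ≤ A) (hR : 0 < R)
    (ch : UChart (m + 1) c R M) (hdm : Dm ch (1 / (8 * A))) (Lt : Lat (m + 2) A) {om : EE (m + 2)} (hom : ‖om‖ = 1)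
    (hCT : ∀ (t : ℝ) (Z : Finset (Fin (m + 2) → ℤ)), 1 / A ≤ t →
      (∀ z ∈ Z, |inner ℝ om (Lt.du z)| ≤ t ∧ pq om (Lt.du z) ≤ 5 ^ 2) → (Z.card : ℝ) ≤ CT * t)
    (e : EE (m + 1)) (z1 z2 : Fin (m + 2) → ℤ) (v : EE (m + 2))
    (hli : LinearIndependent ℝ ![Lt.du z1, Lt.du z2]) (hvc : ∃ c1 c2 : ℝ, v = c1 • Lt.du z1 + c2 • Lt.du z2)
    (hv : ‖v‖ = 1) (hov : inner ℝ om v = 0) {t w' : ℝ} (ht : 1 / A ≤ t) (hw' : 0 < w') (hw1 : w' ≤ 1)
    (h1 : |inner ℝ om (Lt.du z1)| ≤ t / 8) (h2 : |inner ℝ om (Lt.du z2)| ≤ t / 8)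
    (h3 : pq om (Lt.du z1) ≤ (w' / 8) ^ 2) (h4 : pq om (Lt.du z2) ≤ (w' / 8) ^ 2)
    (F : Set (EE (m + 1))) (hF : IsClosed F) (sg' : ℝ) (q : EE (m + 1)) (hq : ‖q‖ ≤ 2 * dl (m + 1) R)
    (l : ℝ) (hl : 0 ≤ l)
    (hlen : ∀ x, volume {y : ℝ | y ∈ Set.Icc (-1) 1 ∧ x + y • v ∈ Bad ch om e F sg' q t w'} ≤ ENNReal.ofReal l)
    (Z : Finset (Fin (m + 2) → ℤ)) (hZ : ∀ z ∈ Z, t ≤ |inner ℝ om (Lt.du z)| ∧ |inner ℝ om (Lt.du z)| ≤ 2 * t ∧
      ∃ q' ∈ F, ‖q'‖ ≤ 2 * dl (m + 1) R ∧ inner ℝ e q' = sg' ∧ pq om (ch.X q - ch.X q' + Lt.du z) ≤ w' ^ 2) :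
    (Z.card : ℝ) ≤ l * (2 * CT * t) := by
  have ht0 : 0 < t := lt_of_lt_of_le (by positivity) ht
  obtain ⟨G, hG, hGc⟩ := exists_G (CT := CT) Lt om (4 * t) fun Z hZ => hCT (4 * t) Z (by linarith) hZ
  have key : ∀ (z : Fin (m + 2) → ℤ) (al be : ℝ), al ∈ Set.Icc (0 : ℝ) 1 → be ∈ Set.Icc (0 : ℝ) 1 →
      |inner ℝ om (Lt.du z + al • Lt.du z1 + be • Lt.du z2) - inner ℝ om (Lt.du z)| ≤ t / 4 ∧
      pq om (al • Lt.du z1 + be • Lt.du z2) ≤ (w' / 4) ^ 2 := by
    intro z al be hal hbe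
    have hal' : |al| ≤ 1 := abs_le.2 ⟨by linarith [hal.1], hal.2⟩
    have hbe' : |be| ≤ 1 := abs_le.2 ⟨by linarith [hbe.1], hbe.2⟩
    constructor
    · rw [inner_add_right, inner_add_right, inner_smul_right, inner_smul_right]
      have e1 : inner ℝ om (Lt.du z) + al * inner ℝ om (Lt.du z1) + be * inner ℝ om (Lt.du z2) -
          inner ℝ om (Lt.du z) = al * inner ℝ om (Lt.du z1) + be * inner ℝ om (Lt.du z2) := by ring
      rw [e1]
      refine (abs_add_le _ _).trans ?_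
      rw [abs_mul, abs_mul]
      have g1 : |al| * |inner ℝ om (Lt.du z1)| ≤ 1 * (t / 8) := by gcongr
      have g2 : |be| * |inner ℝ om (Lt.du z2)| ≤ 1 * (t / 8) := by gcongr
      linarith
    · have g1 := pq_smul_le (c := al) hal' h3
      have g2 := pq_smul_le (c := be) hbe' h4
      have := pq_add hom (by positivity) (by positivity) g1 g2
      refine this.trans (le_of_eq ?_)
      ring
  have hbad : ∀ z ∈ Z, ∀ al be : ℝ, al ∈ Set.Icc (0 : ℝ) 1 → be ∈ Set.Icc (0 : ℝ) 1 →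
      Lt.du z + al • Lt.du z1 + be • Lt.du z2 ∈ Bad ch om e F sg' q t w' := by
    intro z hz al be hal hbe
    obtain ⟨k1, k2⟩ := key z al be hal hbe
    obtain ⟨g1, g2, q', hq'F, hq', hq'e, g3⟩ := hZ z hz
    refine ⟨?_, ?_, q', ⟨hq'F, hq', hq'e⟩, ?_⟩
    · have := abs_sub_abs_le_abs_sub (inner ℝ om (Lt.du z))
        (inner ℝ om (Lt.du z + al • Lt.du z1 + be • Lt.du z2))
      rw [abs_sub_comm] at this
      linarith
    · have := abs_sub_abs_le_abs_sub (inner ℝ om (Lt.du z + al • Lt.du z1 + be • Lt.du z2))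
        (inner ℝ om (Lt.du z))
      linarith
    · have e1 : ch.X q - ch.X q' + (Lt.du z + al • Lt.du z1 + be • Lt.du z2) =
          (ch.X q - ch.X q' + Lt.du z) + (al • Lt.du z1 + be • Lt.du z2) := by module
      rw [e1]
      refine (pq_add hom hw'.le (by positivity) g3 k2).trans ?_
      gcongr
      linarith
  have hres := hAV (m + 2) A Lt z1 z2 v (Bad ch om e F sg' q t w') (Good om t) l G hli hvc
    (isClosed_bad ch om e F hF sg' q t w').measurableSet (isClosed_good om t).measurableSet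
    ((isBounded_good om t).subset fun x hx =>
      good_of_bad hA hR ch hdm hom e F sg' q hq hw' hw1 hv hov x 0 (by norm_num) (by simpa using hx))
    (isBounded_good om t) hl hlen
    (fun x y hy hx => good_of_bad hA hR ch hdm hom e F sg' q hq hw' hw1 hv hov x y hy hx)
    (by
      rintro z ⟨al, be, hal, hbe, hx1, hx2⟩
      obtain ⟨k1, k2⟩ := key z al be hal hbe
      refine hG z ?_ ?_
      · have := abs_sub_abs_le_abs_sub (inner ℝ om (Lt.du z))
          (inner ℝ om (Lt.du z + al • Lt.du z1 + be • Lt.du z2))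
        rw [abs_sub_comm] at this
        linarith
      · have e1 : Lt.du z = (Lt.du z + al • Lt.du z1 + be • Lt.du z2) + -(al • Lt.du z1 + be • Lt.du z2) := by
          module
        rw [e1]
        have k3 : pq om (-(al • Lt.du z1 + be • Lt.du z2)) ≤ (w' / 4) ^ 2 := by rwa [pq_neg]
        refine (pq_add hom (by norm_num) (by positivity) hx2 k3).trans ?_
        gcongr
        linarith)
    Z hbad
  refine hres.trans ?_
  have : l / 2 * (G.card : ℝ) ≤ l / 2 * (CT * (4 * t)) := by gcongr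
  refine this.trans (le_of_eq ?_)
  ring

/-- the volume of a set of small diameter -/
theorem vol_le (S : Set ℝ) (l : ℝ) (h : ∀ y1 ∈ S, ∀ y2 ∈ S, |y1 - y2| ≤ l) : volume S ≤ ENNReal.ofReal l := by
  refine (Real.volume_le_diam S).trans ?_
  refine Metric.ediam_le fun y1 h1 y2 h2 => ?_
  rw [edist_dist, Real.dist_eq]
  exact ENNReal.ofReal_le_ofReal (h y1 h1 y2 h2)

/-- the angle of the slice -/
theorem slice_angle {m : ℕ} {c R : ℝ} {M : ℕ → ℝ} (ch : UChart (m + 1) c R M) {om : EE (m + 2)} (hom : ‖om‖ = 1)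
    {e : EE (m + 1)} (he : ‖e‖ = 1) {sg0 sg' th : ℝ} (h0 : |inner ℝ (ch.nu - ch.J (sg0 • e)) om| ≤ 10 * th)
    (hs : |sg' - sg0| ≤ 10 * th) : |inner ℝ (ch.nu - ch.J (sg' • e)) om| ≤ 20 * th := by
  have e1 : ch.nu - ch.J (sg' • e) = (ch.nu - ch.J (sg0 • e)) - (sg' - sg0) • ch.J e := by
    simp only [map_smul]
    module
  rw [e1, inner_sub_left, inner_smul_left]
  refine (abs_sub _ _).trans ?_
  have h1 : |inner ℝ (ch.J e) om| ≤ 1 := by
    refine (abs_real_inner_le_norm _ _).trans ?_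
    rw [ch.J.norm_map, he, hom]
    norm_num
  have h2 : |(starRingEnd ℝ) (sg' - sg0) * inner ℝ (ch.J e) om| ≤ (10 * th) * 1 := by
    rw [abs_mul]
    simp only [conj_trivial]
    gcongr
    exact (abs_nonneg _).trans hs
  linarith

/-- **LC** -/
theorem specLC (hLI : SpecLI) (hAV : SpecAV) (hCT : SpecCT) : SpecLC := by
  intro m c R A M hcls hA
  obtain ⟨C1, hC1, hLI⟩ := hLI m c R M hcls
  obtain ⟨C2, hC2, hCT⟩ := hCT (m + 2) A hA
  refine ⟨C1 * (1 + 4 * C2), by nlinarith, ?_⟩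
  intro ch hdm Lt om e L hsl z1 z2 v lam r w T sg0 th bt hli hvc hv hov hlam hr hw hw1 hT hT1 hth hbt hCb hs0
    h1 h2 h3 h4
  have hR := hcls.R_pos
  have hom := hsl.om_one
  have hC1b : C1 * th ≤ bt := by
    refine le_trans ?_ hCb
    have : 0 ≤ 4 * C2 * (C1 * th) := by positivity
    nlinarith
  have hdl := dl_le (k := m + 1) hR
  -- common data
  have com : ∀ t w' : ℝ, 1 / A ≤ t → w ^ 3 * T ≤ t → r * t / lam ≤ w' → 0 < t ∧ 0 < w' ∧
      |inner ℝ om (Lt.du z1)| ≤ t / 8 ∧ |inner ℝ om (Lt.du z2)| ≤ t / 8 ∧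
      pq om (Lt.du z1) ≤ (w' / 8) ^ 2 ∧ pq om (Lt.du z2) ≤ (w' / 8) ^ 2 := by
    intro t w' ht htw hrw
    have ht0 : 0 < t := lt_of_lt_of_le (by positivity) ht
    have hw4 : w ^ 4 ≤ w' := by
      refine le_trans ?_ hrw
      rw [le_div_iff₀ (by linarith)]
      have : w ^ 3 * T * r = w ^ 4 * lam := by
        rw [hT]
        field_simp
      nlinarith
    have hw'0 : 0 < w' := lt_of_lt_of_le (by positivity) hw4
    refine ⟨ht0, hw'0, h1.trans (by linarith), h2.trans (by linarith), h3.trans ?_, h4.trans ?_⟩ <;>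
    · gcongr
  -- the length for a piece
  have line : ∀ (F : Set (EE (m + 1))) (sg' : ℝ) (q : EE (m + 1)) (t w' l : ℝ), |sg' - sg0| ≤ 10 * th → 0 < w' →
      (∀ q1 ∈ F, ∀ q2 ∈ F, (bt ≤ inner ℝ (ch.nu - ch.J q1) v ∧ bt ≤ inner ℝ (ch.nu - ch.J q2) v) ∨
        (inner ℝ (ch.nu - ch.J q1) v ≤ -bt ∧ inner ℝ (ch.nu - ch.J q2) v ≤ -bt)) → l = C1 * w' / bt →
      ∀ x, volume {y : ℝ | y ∈ Set.Icc (-1) 1 ∧ x + y • v ∈ Bad ch om e F sg' q t w'} ≤ ENNReal.ofReal l := by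
    intro F sg' q t w' l hsg' hw' hFF hl x
    refine vol_le _ _ ?_
    rintro y1 ⟨-, -, -, q1, ⟨hF1, hq1, he1⟩, g1⟩ y2 ⟨-, -, -, q2, ⟨hF2, hq2, he2⟩, g2⟩
    have hh := hLI ch om e L hsl v (ch.X q + x) sg' th w' bt y1 y2 q1 q2 hv hov hth.le hbt hC1b hw'
      (by linarith) (by linarith) he1 he2 (slice_angle ch hom hsl.e_one hs0 hsg')
      (by
        have : ch.X q + x - ch.X q1 + y1 • v = ch.X q - ch.X q1 + (x + y1 • v) := by module
        rw [this]
        refine g1.trans ?_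
        gcongr
        norm_num)
      (by
        have : ch.X q + x - ch.X q2 + y2 • v = ch.X q - ch.X q2 + (x + y2 • v) := by module
        rw [this]
        refine g2.trans ?_
        gcongr
        norm_num)
    rw [hl]
    exact hh.1 (hFF q1 hF1 q2 hF2)
  have line2 : ∀ (F : Set (EE (m + 1))) (sg' : ℝ) (q : EE (m + 1)) (t w' l : ℝ), |sg' - sg0| ≤ 10 * th → 0 < w' →
      (∀ q1 ∈ F, |inner ℝ (ch.nu - ch.J q1) v| ≤ bt) → l = C1 * (bt + w') →
      ∀ x, volume {y : ℝ | y ∈ Set.Icc (-1) 1 ∧ x + y • v ∈ Bad ch om e F sg' q t w'} ≤ ENNReal.ofReal l := by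
    intro F sg' q t w' l hsg' hw' hFF hl x
    refine vol_le _ _ ?_
    rintro y1 ⟨-, -, -, q1, ⟨hF1, hq1, he1⟩, g1⟩ y2 ⟨-, -, -, q2, ⟨hF2, hq2, he2⟩, g2⟩
    have hh := hLI ch om e L hsl v (ch.X q + x) sg' th w' bt y1 y2 q1 q2 hv hov hth.le hbt hC1b hw'
      (by linarith) (by linarith) he1 he2 (slice_angle ch hom hsl.e_one hs0 hsg')
      (by
        have : ch.X q + x - ch.X q1 + y1 • v = ch.X q - ch.X q1 + (x + y1 • v) := by module
        rw [this]
        refine g1.trans ?_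
        gcongr
        norm_num)
      (by
        have : ch.X q + x - ch.X q2 + y2 • v = ch.X q - ch.X q2 + (x + y2 • v) := by module
        rw [this]
        refine g2.trans ?_
        gcongr
        norm_num)
    rw [hl]
    exact hh.2 ⟨hFF q1 hF1, hFF q2 hF2⟩
  constructor
  · intro sg sg' q hsg hsg' hqE hq hqe t w' ht htw htT hrw hw'1 Z hZ
    obtain ⟨ht0, hw'0, k1, k2, k3, k4⟩ := com t w' ht htw hrw
    have hJc : Continuous fun q : EE (m + 1) => (inner ℝ (ch.nu - ch.J q) v : ℝ) := by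
      have := ch.J.continuous
      fun_prop
    have hFc : IsClosed ({q : EE (m + 1) | bt ≤ inner ℝ (ch.nu - ch.J q) v} ∪
        {q | inner ℝ (ch.nu - ch.J q) v ≤ -bt}) :=
      (isClosed_le continuous_const hJc).union (isClosed_le hJc continuous_const)
    have hl0 : 0 ≤ C1 * w' / bt := by positivity
    have hc := core hAV hA hR ch hdm Lt hom (CT := C2) (fun t Z ht hZ => hCT Lt om t Z hom ht hZ) e z1 z2 v hli hvc hv
      hov ht hw'0 hw'1 k1 k2 k3 k4 _ hFc sg' q hq (C1 * w' / bt + C1 * w' / bt) (by positivity)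
      (fun x => by
        rw [ENNReal.ofReal_add hl0 hl0]
        refine le_trans ?_ ((measure_union_le _ _).trans (add_le_add
          (line {q : EE (m + 1) | bt ≤ inner ℝ (ch.nu - ch.J q) v} sg' q t w' _ hsg' hw'0
            (fun q1 h1 q2 h2 => Or.inl ⟨h1, h2⟩) rfl x)
          (line {q : EE (m + 1) | inner ℝ (ch.nu - ch.J q) v ≤ -bt} sg' q t w' _ hsg' hw'0
            (fun q1 h1 q2 h2 => Or.inr ⟨h1, h2⟩) rfl x)))
        refine measure_mono ?_
        rintro y ⟨hy, g1, g2, q', ⟨hF | hF, hq', he'⟩, g3⟩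
        · exact Or.inl ⟨hy, g1, g2, q', ⟨hF, hq', he'⟩, g3⟩
        · exact Or.inr ⟨hy, g1, g2, q', ⟨hF, hq', he'⟩, g3⟩) Z
      (fun z hz => by
        obtain ⟨g1, g2, q', hq'E, hq', hq'e, g3⟩ := hZ z hz
        refine ⟨g1, g2, q', ?_, hq', hq'e, g3⟩
        have hq'E2 : bt ≤ |inner ℝ (ch.nu - ch.J q') v| := hq'E
        rcases le_abs.1 hq'E2 with h | h
        · exact Or.inl h
        · exact Or.inr (by
            have : inner ℝ (ch.nu - ch.J q') v ≤ -bt := by linarith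
            exact this))
    refine hc.trans ?_
    have e1 : (C1 * w' / bt + C1 * w' / bt) * (2 * C2 * t) = t * (C1 * (4 * C2) / bt * w') := by
      ring
    rw [e1, zero_add]
    gcongr
    linarith
  · intro sg sg' q hsg hsg' hqE hq hqe t w' ht htw htT hrw hw'1 Z hZ
    obtain ⟨ht0, hw'0, k1, k2, k3, k4⟩ := com t w' ht htw hrw
    have hc := core hAV hA hR ch hdm Lt hom (CT := C2) (fun t Z ht hZ => hCT Lt om t Z hom ht hZ) e z1 z2 v hli hvc hv
      hov ht hw'0 hw'1 k1 k2 k3 k4 {q | |inner ℝ (ch.nu - ch.J q) v| ≤ bt}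
      (isClosed_le (by have := ch.J.continuous; fun_prop) continuous_const) sg' q hq (C1 * (bt + w'))
      (by positivity) (line2 _ sg' q t w' _ hsg' hw'0 (fun q1 h => h) rfl) Z
      (fun z hz => by
        obtain ⟨g1, g2, q', hq'E, hq', hq'e, g3⟩ := hZ z hz
        have hq'E2 : |inner ℝ (ch.nu - ch.J q') v| < bt := hq'E
        exact ⟨g1, g2, q', hq'E2.le, hq', hq'e, g3⟩)
    refine hc.trans ?_
    have : 0 ≤ t * (C1 * (bt + w')) := by positivity
    have : 0 ≤ C2 * (t * (C1 * (bt + w'))) := by positivity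
    nlinarith

end Pool.Agent.Lib.MP_a8dae7_an.UN.LCM
end

section
/-!
# UN, module LI: the length of the bad set on a line (Lemma C)
-/
set_option autoImplicit false

namespace Pool.Agent.Lib.MP_a8dae7_an.UN

namespace LIM

open Pool.Agent.Lib.MP_a8dae7_an.CV (EE zv ex pq pi2 AA sl bm)

/-- `e^⊥` is the range of `L` -/
theorem exists_L {m : ℕ} {e : EE (m + 1)} {L : EE m →ₗᵢ[ℝ] EE (m + 1)} (he : ‖e‖ = 1)
    (heL : ∀ b, inner ℝ e (L b) = 0) {u : EE (m + 1)} (hu : inner ℝ e u = 0) : ∃ b, L b = u := by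
  have he0 : e ≠ 0 := by
    rintro rfl
    simp at he
  have : Fact (Module.finrank ℝ (EE (m + 1)) = m + 1) := ⟨by simp⟩
  have h1 : LinearMap.range L.toLinearMap ≤ (Submodule.span ℝ {e})ᗮ := by
    rintro _ ⟨b, rfl⟩
    rw [Submodule.mem_orthogonal_singleton_iff_inner_right]
    exact heL b
  have h2 : Module.finrank ℝ (LinearMap.range L.toLinearMap) = m := by
    rw [LinearMap.finrank_range_of_inj L.injective]
    simp
  have h3 : Module.finrank ℝ (Submodule.span ℝ {e})ᗮ = m := by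
    exact Submodule.finrank_orthogonal_span_singleton he0
  have h4 := Submodule.eq_of_le_of_finrank_eq h1 (h2.trans h3.symm)
  have h5 : u ∈ (Submodule.span ℝ {e})ᗮ := by
    rw [Submodule.mem_orthogonal_singleton_iff_inner_right]
    exact hu
  rw [← h4] at h5
  obtain ⟨b, hb⟩ := h5
  exact ⟨b, hb⟩

/-- the projection off a unit vector -/
noncomputable def pr {d : ℕ} (om x : EE d) : EE d := x - (inner ℝ om x : ℝ) • om

theorem norm_pr {d : ℕ} {om : EE d} (h : ‖om‖ = 1) (x : EE d) : ‖pr om x‖ ^ 2 = pq om x := by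
  unfold pr pq
  rw [norm_sub_sq_real, inner_smul_right, norm_smul, h, real_inner_comm, mul_one, Real.norm_eq_abs,
    sq_abs]
  ring

theorem pr_sub {d : ℕ} (om x y : EE d) : pr om (x - y) = pr om x - pr om y := by
  unfold pr
  rw [inner_sub_right, sub_smul]
  abel

theorem pr_smul_of {d : ℕ} {om v : EE d} (h : inner ℝ om v = 0) (y : ℝ) : pr om (y • v) = y • v := by
  unfold pr
  rw [inner_smul_right, h, mul_zero, zero_smul, sub_zero]

/-- the common data -/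
theorem base {d : ℕ} {om v x X1 X2 : EE d} {y1 y2 w' : ℝ} (hom : ‖om‖ = 1) (hov : inner ℝ om v = 0)
    (hw : 0 < w') (h1 : pq om (x - X1 + y1 • v) ≤ (3 * w') ^ 2)
    (h2 : pq om (x - X2 + y2 • v) ≤ (3 * w') ^ 2) :
    ‖pr om (X2 - X1) - (y2 - y1) • v‖ ≤ 6 * w' := by
  have e1 : pr om (X2 - X1) - (y2 - y1) • v = pr om (x - X1 + y1 • v) - pr om (x - X2 + y2 • v) := by
    rw [← pr_sub om (x - X1 + y1 • v)]
    have : x - X1 + y1 • v - (x - X2 + y2 • v) = (X2 - X1) - (y2 - y1) • v := by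
      rw [sub_smul]; abel
    rw [this, pr_sub om (X2 - X1), pr_smul_of hov]
  have n1 : ‖pr om (x - X1 + y1 • v)‖ ≤ 3 * w' := by
    rw [← norm_pr hom] at h1
    exact (pow_le_pow_iff_left₀ (norm_nonneg _) (by positivity) two_ne_zero).1 h1
  have n2 : ‖pr om (x - X2 + y2 • v)‖ ≤ 3 * w' := by
    rw [← norm_pr hom] at h2
    exact (pow_le_pow_iff_left₀ (norm_nonneg _) (by positivity) two_ne_zero).1 h2
  rw [e1]
  refine (norm_sub_le _ _).trans ?_
  linarith

theorem inner_split {d : ℕ} (om a D : EE d) :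
    inner ℝ a D = inner ℝ a (pr om D) + inner ℝ om D * inner ℝ a om := by
  unfold pr
  rw [inner_sub_right, inner_smul_right]
  ring

/-- the main case: both slopes at least `bt`, `y1 ≤ y2` -/
theorem large {d : ℕ} {om v D n2 : EE d} {y1 y2 w' th bt K1 : ℝ} (hw : 0 < w')
    (hbt : 0 < bt) (hK : 0 ≤ K1) (hb : ‖pr om D - (y2 - y1) • v‖ ≤ 6 * w')
    (hn2 : ‖n2‖ ≤ 2) (hv : ‖v‖ = 1) (hom2 : |inner ℝ n2 om| ≤ 20 * th) (hD : inner ℝ n2 D ≤ 0)
    (ht : |inner ℝ om D| ≤ K1 * (|y2 - y1| + 6 * w')) (hc : 40 * K1 * th ≤ bt)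
    (hs : bt ≤ inner ℝ n2 v) (hy : y1 ≤ y2) : y2 - y1 ≤ 36 * w' / bt := by
  have h1 := inner_split om n2 D
  have h2 : inner ℝ n2 (pr om D) = (y2 - y1) * inner ℝ n2 v
      + inner ℝ n2 (pr om D - (y2 - y1) • v) := by
    rw [inner_sub_right, inner_smul_right]; ring
  have h3 : |inner ℝ n2 (pr om D - (y2 - y1) • v)| ≤ 2 * (6 * w') :=
    (abs_real_inner_le_norm _ _).trans (mul_le_mul hn2 hb (norm_nonneg _) (by norm_num))
  have h4 : |inner ℝ om D * inner ℝ n2 om| ≤ (K1 * (|y2 - y1| + 6 * w')) * (20 * th) := by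
    rw [abs_mul]
    exact mul_le_mul ht hom2 (abs_nonneg _) (by positivity)
  have hbt2 : bt ≤ 2 := by
    have := (le_abs_self _).trans (abs_real_inner_le_norm n2 v)
    rw [hv, mul_one] at this
    linarith
  rw [abs_of_nonneg (by linarith : 0 ≤ y2 - y1)] at h4
  have h5 := (abs_le.1 h3).1
  have h6 := (abs_le.1 h4).1
  have h7 : (y2 - y1) * bt ≤ (y2 - y1) * inner ℝ n2 v :=
    mul_le_mul_of_nonneg_left hs (by linarith)
  rw [le_div_iff₀ hbt]
  have h8 : (y2 - y1) * (20 * K1 * th) ≤ (y2 - y1) * (bt / 2) :=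
    mul_le_mul_of_nonneg_left (by linarith) (by linarith)
  have h9 : w' * (120 * K1 * th) ≤ w' * 6 := mul_le_mul_of_nonneg_left (by linarith) hw.le
  nlinarith

/-- a difference with a nonnegative quadratic bound -/
theorem quad {s bt w' c K2 Y : ℝ} (hbt : 0 < bt) (hw : 0 < w') (hc : 0 < c)
    (hK2 : 0 ≤ K2) (h1 : c * s ^ 2 ≤ 2 * bt * Y + 6 * w' * s) (h2 : Y ≤ K2 * s + 6 * w') :
    s ≤ (1 + (2 * (K2 + 6) + 6) / c) * (bt + w') := by
  have hd : 0 ≤ (2 * (K2 + 6) + 6) / c := by positivity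
  rcases le_total s w' with h | h
  · have : 1 * (bt + w') ≤ (1 + (2 * (K2 + 6) + 6) / c) * (bt + w') :=
      mul_le_mul_of_nonneg_right (by linarith) (by positivity)
    linarith
  · have hs0 : 0 < s := hw.trans_le h
    have h3 : c * s ^ 2 ≤ (2 * bt * (K2 + 6) + 6 * w') * s := by
      have : 2 * bt * Y ≤ 2 * bt * (K2 * s + 6 * w') :=
        mul_le_mul_of_nonneg_left h2 (by positivity)
      have h4 : 2 * bt * (6 * w') ≤ 2 * bt * (6 * s) := by gcongr
      nlinarith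
    have h4 : c * s ≤ 2 * bt * (K2 + 6) + 6 * w' := by
      have : c * s * s ≤ (2 * bt * (K2 + 6) + 6 * w') * s := by nlinarith
      exact le_of_mul_le_mul_right this hs0
    have h5 : s ≤ (2 * bt * (K2 + 6) + 6 * w') / c := by
      rw [le_div_iff₀ hc]; linarith
    have h6 : (2 * bt * (K2 + 6) + 6 * w') / c ≤ (2 * (K2 + 6) + 6) / c * (bt + w') := by
      rw [div_mul_eq_mul_div]
      apply div_le_div_of_nonneg_right _ hc.le
      nlinarith [mul_nonneg hK2 hw.le]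
    have h7 : (2 * (K2 + 6) + 6) / c * (bt + w') ≤ (1 + (2 * (K2 + 6) + 6) / c) * (bt + w') :=
      mul_le_mul_of_nonneg_right (by linarith) (by positivity)
    linarith

end LIM

open LIM in
open Pool.Agent.Lib.MP_a8dae7_an.CV (EE zv ex pq pi2 AA sl bm) in
theorem specLI (hCX : SpecCX) : SpecLI := by
  intro m c R M hcls
  have hc := hcls.c_pos
  set K2 := |M 1| with hK2
  have hK20 : 0 ≤ K2 := abs_nonneg _
  set K3 := 1 + (2 * (K2 + 6) + 6) / c with hK3
  have hK30 : 0 ≤ K3 := by positivity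
  refine ⟨36 + 40 * (K2 / c) + (K2 * K3 + 6), ?_, ?_⟩
  · have h1 : 0 ≤ K2 / c := by positivity
    have h2 : 0 ≤ K2 * K3 := by positivity
    linarith
  set C := 36 + 40 * (K2 / c) + (K2 * K3 + 6) with hC
  have hC36 : 36 ≤ C := by
    have h1 : 0 ≤ K2 / c := by positivity
    have h2 : 0 ≤ K2 * K3 := by positivity
    rw [hC]; linarith
  have hC40 : 40 * (K2 / c) ≤ C := by
    have h2 : 0 ≤ K2 * K3 := by positivity
    rw [hC]; linarith
  have hCs : K2 * K3 + 6 ≤ C := by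
    have h1 : 0 ≤ K2 / c := by positivity
    rw [hC]; linarith
  intro ch om e L hsl v x sg th w' bt y1 y2 q1 q2 hv hov hth hbt hCth hw' hq1 hq2 he1 he2 hnu h1 h2
  have hom := hsl.om_one
  -- the differences are orthogonal to `e`
  have hperp : ∀ q q' : EE (m + 1), inner ℝ e q = sg → inner ℝ e q' = sg →
      inner ℝ om (ch.J (q' - q)) = 0 := by
    intro q q' h h'
    obtain ⟨b, hb⟩ := exists_L hsl.e_one hsl.eL (u := q' - q) (by rw [inner_sub_right, h, h', sub_self])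
    rw [← hb]
    exact hsl.omL b
  have hsge : inner ℝ e (sg • e) = sg := by
    rw [inner_smul_right, real_inner_self_eq_norm_sq, hsl.e_one]; ring
  have hnuq : ∀ q : EE (m + 1), inner ℝ e q = sg → |inner ℝ (ch.nu - ch.J q) om| ≤ 20 * th := by
    intro q h
    have h3 := hperp _ _ hsge h
    rw [map_sub, inner_sub_right, sub_eq_zero] at h3
    have h4 : inner ℝ (ch.nu - ch.J q) om = inner ℝ (ch.nu - ch.J (sg • e)) om := by
      rw [inner_sub_left, inner_sub_left, real_inner_comm om (ch.J q), h3,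
        real_inner_comm (ch.J (sg • e))]
    rw [h4]
    exact hnu
  have hn : ∀ q : EE (m + 1), ‖q‖ ≤ R → ‖ch.nu - ch.J q‖ ≤ 2 := by
    intro q hq
    refine (norm_sub_le _ _).trans ?_
    rw [ch.nu_one, LinearIsometry.norm_map]
    have := hcls.R_le
    linarith
  -- the facts for an ordered pair
  have key : ∀ (q q' : EE (m + 1)) (y y' : ℝ), ‖q‖ ≤ R → ‖q'‖ ≤ R → inner ℝ e q = sg →
      inner ℝ e q' = sg → pq om (x - ch.X q + y • v) ≤ (3 * w') ^ 2 →
      pq om (x - ch.X q' + y' • v) ≤ (3 * w') ^ 2 →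
      ‖pr om (ch.X q' - ch.X q) - (y' - y) • v‖ ≤ 6 * w' ∧
      inner ℝ (ch.nu - ch.J q') (ch.X q' - ch.X q) ≤ 0 ∧
      |inner ℝ om (ch.X q' - ch.X q)| ≤ K2 / c * (|y' - y| + 6 * w') ∧
      |y' - y| ≤ K2 * ‖q' - q‖ + 6 * w' ∧
      c * ‖q' - q‖ ^ 2 ≤ inner ℝ (ch.J (q' - q)) (ch.X q' - ch.X q) := by
    intro q q' y y' hq hq' he he' h h'
    obtain ⟨-, a2, -, -, a5, -, a7⟩ := hCX (m + 1) c R M hcls ch q q' hq hq'
    obtain ⟨-, -, b3, -, -, -, -⟩ := hCX (m + 1) c R M hcls ch q' q hq' hq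
    have hb := base hom hov hw' h h'
    have hpr : ‖pr om (ch.X q' - ch.X q)‖ ≤ |y' - y| + 6 * w' := by
      have : pr om (ch.X q' - ch.X q) = (pr om (ch.X q' - ch.X q) - (y' - y) • v) + (y' - y) • v := by
        abel
      rw [this]
      refine (norm_add_le _ _).trans ?_
      rw [norm_smul, hv, mul_one, Real.norm_eq_abs]
      linarith
    have hX : ‖ch.X q' - ch.X q‖ ≤ K2 * ‖q' - q‖ := by
      rw [norm_sub_rev (ch.X q'), norm_sub_rev q']
      exact a2.trans (mul_le_mul_of_nonneg_right (le_abs_self _) (norm_nonneg _))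
    have hcq : c * ‖q' - q‖ ≤ ‖pr om (ch.X q' - ch.X q)‖ := by
      have a8 := a7 om hom (hperp q q' he he')
      rw [← norm_pr hom, ← mul_pow] at a8
      exact (pow_le_pow_iff_left₀ (by positivity) (norm_nonneg _) two_ne_zero).1 a8
    refine ⟨hb, ?_, ?_, ?_, a5⟩
    · have : inner ℝ (ch.nu - ch.J q') (ch.X q' - ch.X q)
          = -inner ℝ (ch.nu - ch.J q') (ch.X q - ch.X q') := by
        rw [← inner_neg_right, neg_sub]
      rw [this]
      have : 0 ≤ c / 2 * ‖q - q'‖ ^ 2 := by positivity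
      linarith
    · have h3 := (abs_real_inner_le_norm om (ch.X q' - ch.X q))
      rw [hom, one_mul] at h3
      refine h3.trans (hX.trans ?_)
      have h4 : ‖q' - q‖ ≤ (|y' - y| + 6 * w') / c := by
        rw [le_div_iff₀ hc]; linarith
      calc K2 * ‖q' - q‖ ≤ K2 * ((|y' - y| + 6 * w') / c) := by gcongr
        _ = _ := by ring
    · have h3 : ‖pr om (ch.X q' - ch.X q)‖ ≤ ‖ch.X q' - ch.X q‖ := by
        have h4 := norm_pr hom (ch.X q' - ch.X q)
        have h5 : pq om (ch.X q' - ch.X q) ≤ ‖ch.X q' - ch.X q‖ ^ 2 := by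
          unfold pq
          nlinarith [sq_nonneg (inner ℝ om (ch.X q' - ch.X q))]
        rw [← h4] at h5
        exact (pow_le_pow_iff_left₀ (norm_nonneg _) (norm_nonneg _) two_ne_zero).1 h5
      have h4 : ‖(y' - y) • v‖ ≤ ‖pr om (ch.X q' - ch.X q)‖ + 6 * w' := by
        have : (y' - y) • v = pr om (ch.X q' - ch.X q)
            - (pr om (ch.X q' - ch.X q) - (y' - y) • v) := by abel
        rw [this]
        exact (norm_sub_le _ _).trans (by linarith)
      rw [norm_smul, hv, mul_one, Real.norm_eq_abs] at h4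
      linarith
  have hcth : 40 * (K2 / c) * th ≤ bt :=
    (mul_le_mul_of_nonneg_right hC40 hth).trans hCth
  have hbig : ∀ z : ℝ, z ≤ 36 * w' / bt → z ≤ C * w' / bt := fun z hz =>
    hz.trans (by gcongr)
  have hKc : 0 ≤ K2 / c := by positivity
  refine ⟨fun h => ?_, fun h => ?_⟩
  · rw [abs_sub_comm]
    rcases le_total y1 y2 with hy | hy
    · rw [abs_of_nonneg (by linarith)]
      apply hbig
      rcases h with ⟨g1, g2⟩ | ⟨g1, g2⟩
      · obtain ⟨k1, k2, k3, -, -⟩ := key q1 q2 y1 y2 hq1 hq2 he1 he2 h1 h2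
        exact large hw' hbt hKc k1 (hn q2 hq2) hv (hnuq q2 he2) k2 k3 hcth g2 hy
      · -- swap the points and change the sign of `v`
        obtain ⟨k1, k2, k3, -, -⟩ := key q2 q1 y2 y1 hq2 hq1 he2 he1 h2 h1
        have k1' : ‖pr om (ch.X q1 - ch.X q2) - (y2 - y1) • (-v)‖ ≤ 6 * w' := by
          have : (y2 - y1) • (-v) = (y1 - y2) • v := by rw [smul_neg, ← neg_smul]; congr 1; ring
          rw [this]; exact k1
        refine large (v := -v) (y1 := y1) (y2 := y2) hw' hbt hKc k1' (hn q1 hq1) (by rw [norm_neg, hv])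
          (hnuq q1 he1) k2 ?_ hcth ?_ hy
        · rw [abs_sub_comm y2 y1]; exact k3
        · rw [inner_neg_right]; linarith
    · rw [abs_of_nonpos (by linarith), neg_sub]
      apply hbig
      rcases h with ⟨g1, g2⟩ | ⟨g1, g2⟩
      · obtain ⟨k1, k2, k3, -, -⟩ := key q2 q1 y2 y1 hq2 hq1 he2 he1 h2 h1
        exact large hw' hbt hKc k1 (hn q1 hq1) hv (hnuq q1 he1) k2 k3 hcth g1 hy
      · obtain ⟨k1, k2, k3, -, -⟩ := key q1 q2 y1 y2 hq1 hq2 he1 he2 h1 h2
        have k1' : ‖pr om (ch.X q2 - ch.X q1) - (y1 - y2) • (-v)‖ ≤ 6 * w' := by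
          have : (y1 - y2) • (-v) = (y2 - y1) • v := by rw [smul_neg, ← neg_smul]; congr 1; ring
          rw [this]; exact k1
        refine large (v := -v) (y1 := y2) (y2 := y1) hw' hbt hKc k1' (hn q2 hq2) (by rw [norm_neg, hv])
          (hnuq q2 he2) k2 ?_ hcth ?_ hy
        · rw [abs_sub_comm y1 y2]; exact k3
        · rw [inner_neg_right]; linarith
  · obtain ⟨k1, -, -, k4, k5⟩ := key q1 q2 y1 y2 hq1 hq2 he1 he2 h1 h2
    rw [abs_sub_comm]
    have h3 : inner ℝ (ch.J (q2 - q1)) (ch.X q2 - ch.X q1)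
        ≤ 2 * bt * |y2 - y1| + 6 * w' * ‖q2 - q1‖ := by
      have e1 := inner_split om (ch.J (q2 - q1)) (ch.X q2 - ch.X q1)
      rw [real_inner_comm om (ch.J (q2 - q1)), hperp q1 q2 he1 he2, mul_zero, add_zero] at e1
      have e2 : inner ℝ (ch.J (q2 - q1)) (pr om (ch.X q2 - ch.X q1))
          = (y2 - y1) * inner ℝ (ch.J (q2 - q1)) v
            + inner ℝ (ch.J (q2 - q1)) (pr om (ch.X q2 - ch.X q1) - (y2 - y1) • v) := by
        rw [inner_sub_right, inner_smul_right]; ring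
      have e3 : inner ℝ (ch.J (q2 - q1)) v
          = inner ℝ (ch.nu - ch.J q1) v - inner ℝ (ch.nu - ch.J q2) v := by
        rw [map_sub, inner_sub_left, inner_sub_left, inner_sub_left]; ring
      have e4 : |inner ℝ (ch.J (q2 - q1)) v| ≤ 2 * bt := by
        rw [e3]
        refine (abs_sub _ _).trans ?_
        linarith [h.1, h.2]
      have e5 : (y2 - y1) * inner ℝ (ch.J (q2 - q1)) v ≤ |y2 - y1| * (2 * bt) := by
        refine (le_abs_self _).trans ?_
        rw [abs_mul]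
        exact mul_le_mul_of_nonneg_left e4 (abs_nonneg _)
      have e6 : inner ℝ (ch.J (q2 - q1)) (pr om (ch.X q2 - ch.X q1) - (y2 - y1) • v)
          ≤ ‖q2 - q1‖ * (6 * w') := by
        refine (real_inner_le_norm _ _).trans ?_
        rw [LinearIsometry.norm_map]
        exact mul_le_mul_of_nonneg_left k1 (norm_nonneg _)
      rw [e1, e2]
      linarith
    have h4 := quad hbt hw' hc hK20 (k5.trans h3) k4
    rw [← hK3] at h4
    calc |y2 - y1| ≤ K2 * ‖q2 - q1‖ + 6 * w' := k4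
      _ ≤ K2 * (K3 * (bt + w')) + 6 * (bt + w') := by
          gcongr
          linarith
      _ = (K2 * K3 + 6) * (bt + w') := by ring
      _ ≤ C * (bt + w') := by gcongr

end Pool.Agent.Lib.MP_a8dae7_an.UN
end

section
/-!
# MP_a8dae7_an, UN: LS. Counting lattice points in balls.
-/
set_option autoImplicit false

open MeasureTheory

namespace Pool.Agent.Lib.MP_a8dae7_an.UN.LSM

open Pool.Agent.Lib.MP_a8dae7_an.CV (EE zv ex pq pi2 AA sl bm)

/-- the number of integers in an interval -/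
lemma card_Icc_le {y rho : ℝ} (h : 0 ≤ rho) : ((Finset.Icc ⌈y - rho⌉ ⌊y + rho⌋).card : ℝ) ≤ 2 * rho + 1 := by
  rw [Int.card_Icc]
  have h1 := Int.floor_le (y + rho)
  have h2 := Int.le_ceil (y - rho)
  rcases le_total 0 (⌊y + rho⌋ + 1 - ⌈y - rho⌉) with h3 | h3
  · have h4 : (((⌊y + rho⌋ + 1 - ⌈y - rho⌉).toNat : ℤ) : ℝ) = ((⌊y + rho⌋ + 1 - ⌈y - rho⌉ : ℤ) : ℝ) := by
      rw [Int.toNat_of_nonneg h3]
    have h5 : (((⌊y + rho⌋ + 1 - ⌈y - rho⌉).toNat : ℕ) : ℝ) = ((⌊y + rho⌋ + 1 - ⌈y - rho⌉ : ℤ) : ℝ) := by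
      rw [← h4]; norm_cast
    rw [h5]
    push_cast
    linarith
  · rw [Int.toNat_of_nonpos h3]
    push_cast
    linarith

/-- the number of integer vectors in a box -/
lemma box {D : ℕ} (s : Finset (Fin D → ℤ)) (y : Fin D → ℝ) {rho : ℝ} (h : 0 ≤ rho)
    (hs : ∀ z ∈ s, ∀ i, |(z i : ℝ) - y i| ≤ rho) : (s.card : ℝ) ≤ (2 * rho + 1) ^ D := by
  have h1 : s ⊆ Fintype.piFinset fun i => Finset.Icc ⌈y i - rho⌉ ⌊y i + rho⌋ := by
    intro z hz
    rw [Fintype.mem_piFinset]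
    intro i
    have h2 := abs_le.1 (hs z hz i)
    rw [Finset.mem_Icc]
    exact ⟨Int.ceil_le.2 (by linarith [h2.1]), Int.le_floor.2 (by linarith [h2.2])⟩
  have h2 := Finset.card_le_card h1
  rw [Fintype.card_piFinset] at h2
  calc (s.card : ℝ) ≤ ((∏ i : Fin D, (Finset.Icc ⌈y i - rho⌉ ⌊y i + rho⌋).card : ℕ) : ℝ) := by
        exact_mod_cast h2
    _ = ∏ i : Fin D, ((Finset.Icc ⌈y i - rho⌉ ⌊y i + rho⌋).card : ℝ) := by push_cast; rfl
    _ ≤ ∏ _i : Fin D, (2 * rho + 1) := Finset.prod_le_prod (fun i _ => by positivity) fun i _ => card_Icc_le h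
    _ = _ := by simp

/-- the number of integer vectors in a ball -/
lemma ball {D : ℕ} (s : Finset (Fin D → ℤ)) (y : EE D) {rho : ℝ} (h : 0 ≤ rho)
    (hs : ∀ z ∈ s, ‖zv z - y‖ ≤ rho) : (s.card : ℝ) ≤ (2 * rho + 1) ^ D := by
  refine box s (fun i => y i) h fun z hz i => ?_
  have h1 := PiLp.norm_apply_le (zv z - y) i
  have h2 : (zv z - y) i = (z i : ℝ) - y i := by simp [zv]
  rw [h2, Real.norm_eq_abs] at h1
  exact h1.trans (hs z hz)

/-- a nonzero integer vector has norm at least 1 -/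
lemma one_le {D : ℕ} {z : Fin D → ℤ} (hz : z ≠ 0) : 1 ≤ ‖zv z‖ := by
  obtain ⟨i, hi⟩ := Function.ne_iff.1 hz
  have h1 := PiLp.norm_apply_le (zv z) i
  have h2 : (zv z) i = (z i : ℝ) := by simp [zv]
  rw [h2, Real.norm_eq_abs] at h1
  refine le_trans ?_ h1
  have h3 : 1 ≤ |z i| := Int.one_le_abs hi
  exact_mod_cast h3

lemma fr_sub {D : ℕ} {A : ℝ} (Lt : Lat D A) (j : Fin D → ℤ) (x : EE D) :
    zv j - Lt.B.symm (x - Lt.a0) = Lt.B.symm (Lt.fr j - x) := by
  unfold Lat.fr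
  simp only [map_sub, map_add, ContinuousLinearEquiv.symm_apply_apply]
  abel

/-- the transpose of `B` inverts `du` -/
lemma adj_du {D : ℕ} {A : ℝ} (Lt : Lat D A) (z : Fin D → ℤ) :
    ContinuousLinearMap.adjoint (Lt.B : EE D →L[ℝ] EE D) (Lt.du z) = (2 * Real.pi) • zv z := by
  unfold Lat.du
  rw [map_smul]
  congr 1
  refine ext_inner_right ℝ fun w => ?_
  rw [ContinuousLinearMap.adjoint_inner_left, ContinuousLinearMap.adjoint_inner_left]
  simp

lemma adj_norm {D : ℕ} {A : ℝ} (Lt : Lat D A) (v : EE D) :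
    ‖ContinuousLinearMap.adjoint (Lt.B : EE D →L[ℝ] EE D) v‖ ≤ A * ‖v‖ := by
  refine (ContinuousLinearMap.le_opNorm _ _).trans ?_
  rw [LinearIsometryEquiv.norm_map]
  exact mul_le_mul_of_nonneg_right Lt.hB (norm_nonneg _)

lemma zv_sub_adj {D : ℕ} {A : ℝ} (Lt : Lat D A) (z : Fin D → ℤ) (x : EE D) :
    zv z - (2 * Real.pi)⁻¹ • ContinuousLinearMap.adjoint (Lt.B : EE D →L[ℝ] EE D) x =
      (2 * Real.pi)⁻¹ • ContinuousLinearMap.adjoint (Lt.B : EE D →L[ℝ] EE D) (Lt.du z - x) := by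
  rw [map_sub, adj_du, smul_sub, smul_smul, inv_mul_cancel₀ (by positivity), one_smul]

lemma inv_two_pi_le : (2 * Real.pi)⁻¹ ≤ (6 : ℝ)⁻¹ :=
  inv_anti₀ (by norm_num) (by have := Real.pi_gt_three; linarith)

lemma pow_bd {A rho : ℝ} (hA : 1 ≤ A) (hr : 0 ≤ rho) (D : ℕ) :
    (2 * (A * rho) + 1) ^ D ≤ (2 * A) ^ D * (1 + rho) ^ D := by
  rw [← mul_pow]
  refine pow_le_pow_left₀ (by positivity) ?_ D
  nlinarith

/-- **LS** -/
theorem specLS : SpecLS := by
  intro D A hA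
  refine ⟨(2 * A) ^ D, by positivity, ?_, ?_, ?_⟩
  · intro Lt s x rho hrho h
    refine (ball s (Lt.B.symm (x - Lt.a0)) (rho := A * rho) (by positivity) fun j hj => ?_).trans
      (pow_bd hA hrho D)
    rw [fr_sub]
    calc ‖Lt.B.symm (Lt.fr j - x)‖ ≤ ‖(Lt.B.symm : EE D →L[ℝ] EE D)‖ * ‖Lt.fr j - x‖ :=
          ContinuousLinearMap.le_opNorm (Lt.B.symm : EE D →L[ℝ] EE D) _
      _ ≤ A * rho := mul_le_mul Lt.hB' (h j hj) (norm_nonneg _) (by linarith)
  · intro Lt s x rho hrho h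
    refine (ball s ((2 * Real.pi)⁻¹ • ContinuousLinearMap.adjoint (Lt.B : EE D →L[ℝ] EE D) x)
      (rho := A * rho) (by positivity) fun j hj => ?_).trans (pow_bd hA hrho D)
    rw [zv_sub_adj, norm_smul, Real.norm_of_nonneg (by positivity)]
    calc (2 * Real.pi)⁻¹ * ‖ContinuousLinearMap.adjoint (Lt.B : EE D →L[ℝ] EE D) (Lt.du j - x)‖
        ≤ 1 * (A * rho) := by
          refine mul_le_mul (inv_two_pi_le.trans (by norm_num)) ?_ (norm_nonneg _) zero_le_one
          exact (adj_norm Lt _).trans (mul_le_mul_of_nonneg_left (h j hj) (by linarith))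
      _ = A * rho := one_mul _
  · intro Lt z hz
    have h1 := zv_sub_adj Lt z 0
    rw [map_zero, smul_zero, sub_zero, sub_zero] at h1
    have h2 := one_le hz
    rw [h1, norm_smul, Real.norm_of_nonneg (by positivity)] at h2
    have h3 := adj_norm Lt (Lt.du z)
    have h4 := inv_two_pi_le
    rw [div_le_iff₀ (by linarith)]
    have h5 : (2 * Real.pi)⁻¹ * ‖ContinuousLinearMap.adjoint (Lt.B : EE D →L[ℝ] EE D) (Lt.du z)‖ ≤
        6⁻¹ * (A * ‖Lt.du z‖) := mul_le_mul h4 h3 (norm_nonneg _) (by norm_num)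
    linarith

end Pool.Agent.Lib.MP_a8dae7_an.UN.LSM
end

section
/-!
# MP_a8dae7_an, UN: TC. Number of cubes in a ball.
-/
set_option autoImplicit false

open MeasureTheory

namespace Pool.Agent.Lib.MP_a8dae7_an.UN.TCM

open Pool.Agent.Lib.MP_a8dae7_an.CV (EE zv ex pq pi2 AA sl bm)
open Pool.Agent.Lib.MP_a8dae7_an.UN.LSM

/-- **TC** -/
theorem specTC : SpecTC := by
  intro k
  refine ⟨(3 + 128 * (k + 1)) ^ (k + 1), by positivity, ?_⟩
  intro r K x S rep hr hK h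
  set l : ℝ := r / (64 * (k + 1)) with hl
  have hl0 : 0 < l := by positivity
  have h1 : ∀ z ∈ S, ∀ i, |(z i : ℝ) - x i / l| ≤ 1 + 64 * (k + 1) * K := by
    intro z hz i
    obtain ⟨h2, h3⟩ := h z hz
    have h4 := PiLp.norm_apply_le (x - rep z) i
    rw [PiLp.sub_apply, Real.norm_eq_abs] at h4
    have h5 : z i = ⌊rep z i / l⌋ := by
      conv_lhs => rw [← h2]
      rfl
    have h6 := Int.floor_le (rep z i / l)
    have h7 := Int.lt_floor_add_one (rep z i / l)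
    rw [← h5] at h6 h7
    have h8 : |x i - rep z i| ≤ K * r := h4.trans h3
    have h9 : |x i / l - rep z i / l| ≤ 64 * (k + 1) * K := by
      rw [← sub_div, abs_div, abs_of_pos hl0, div_le_iff₀ hl0]
      refine h8.trans (le_of_eq ?_)
      rw [hl]
      field_simp
    rw [abs_le] at h9 ⊢
    constructor <;> linarith [h9.1, h9.2]
  refine (box S (fun i => x i / l) (by positivity) h1).trans ?_
  rw [← mul_pow]
  refine pow_le_pow_left₀ (by positivity) ?_ _
  nlinarith [Nat.cast_nonneg (α := ℝ) k]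

end Pool.Agent.Lib.MP_a8dae7_an.UN.TCM
end
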