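import Pool.Agent.Lib.MP_a8dae7_an.UN.SpecB

/-!
# MP_a8dae7_an, UN, module UC: the projected fold is a chart
-/

set_option autoImplicit false

open MeasureTheory
open scoped ContDiff

namespace Pool.Agent.Lib.MP_a8dae7_an.UN.UCM

open Pool.Agent.Lib.MP_a8dae7_an.CV (EE zv ex pq pi2 AA sl bm)

/-- the adjoint of an isometry onto a hyperplane -/
noncomputable def ad {m : ℕ} (iota : EE (m + 1) →ₗᵢ[ℝ] EE (m + 2)) : EE (m + 2) →L[ℝ] EE (m + 1) :=
  ContinuousLinearMap.adjoint iota.toContinuousLinearMap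

theorem inner_ad {m : ℕ} (iota : EE (m + 1) →ₗᵢ[ℝ] EE (m + 2)) (x : EE (m + 1)) (y : EE (m + 2)) :
    inner ℝ x (ad iota y) = inner ℝ (iota x) y := by
  unfold ad
  rw [ContinuousLinearMap.adjoint_inner_right]
  rfl

theorem inner_ad' {m : ℕ} (iota : EE (m + 1) →ₗᵢ[ℝ] EE (m + 2)) (x : EE (m + 1)) (y : EE (m + 2)) :
    inner ℝ (ad iota y) x = inner ℝ y (iota x) := by
  unfold ad
  rw [ContinuousLinearMap.adjoint_inner_left]
  rfl

theorem ad_iota {m : ℕ} (iota : EE (m + 1) →ₗᵢ[ℝ] EE (m + 2)) (x : EE (m + 1)) :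
    ad iota (iota x) = x := by
  refine ext_inner_left ℝ fun v => ?_
  rw [inner_ad, LinearIsometry.inner_map_map]

theorem norm_ad_le {m : ℕ} (iota : EE (m + 1) →ₗᵢ[ℝ] EE (m + 2)) : ‖ad iota‖ ≤ 1 := by
  unfold ad
  rw [LinearIsometryEquiv.norm_map]
  exact LinearIsometry.norm_toContinuousLinearMap_le _

theorem norm_ad_apply_le {m : ℕ} (iota : EE (m + 1) →ₗᵢ[ℝ] EE (m + 2)) (y : EE (m + 2)) :
    ‖ad iota y‖ ≤ ‖y‖ := by
  have h := (ad iota).le_opNorm y
  have h1 := norm_ad_le iota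
  have : ‖ad iota‖ * ‖y‖ ≤ 1 * ‖y‖ := mul_le_mul_of_nonneg_right h1 (norm_nonneg _)
  linarith

/-- the range of `iota` is the hyperplane -/
theorem mem_range {m : ℕ} (iota : EE (m + 1) →ₗᵢ[ℝ] EE (m + 2)) (zet : EE (m + 2)) (hz : zet ≠ 0)
    (hi : ∀ x, inner ℝ zet (iota x) = 0) (y : EE (m + 2)) (hy : inner ℝ zet y = 0) :
    ∃ x, iota x = y := by
  have hle : LinearMap.range iota.toLinearMap ≤ (Submodule.span ℝ {zet})ᗮ := by
    rintro z ⟨x, rfl⟩
    rw [Submodule.mem_orthogonal_singleton_iff_inner_right]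
    exact hi x
  have hfr : Module.finrank ℝ (LinearMap.range iota.toLinearMap) = m + 1 := by
    rw [LinearMap.finrank_range_of_inj iota.injective]
    simp
  have hfo : Module.finrank ℝ ((Submodule.span ℝ {zet})ᗮ : Submodule ℝ (EE (m + 2))) = m + 1 := by
    have : Fact (Module.finrank ℝ (EE (m + 2)) = (m + 1) + 1) := ⟨by simp⟩
    exact Submodule.finrank_orthogonal_span_singleton hz
  have heq : LinearMap.range iota.toLinearMap = (Submodule.span ℝ {zet})ᗮ :=
    Submodule.eq_of_le_of_finrank_eq hle (by rw [hfr, hfo])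
  have hmem : y ∈ LinearMap.range iota.toLinearMap := by
    rw [heq, Submodule.mem_orthogonal_singleton_iff_inner_right]
    exact hy
  obtain ⟨x, hx⟩ := hmem
  exact ⟨x, hx⟩

theorem iota_ad {m : ℕ} (iota : EE (m + 1) →ₗᵢ[ℝ] EE (m + 2)) (zet : EE (m + 2)) (hz : zet ≠ 0)
    (hi : ∀ x, inner ℝ zet (iota x) = 0) (y : EE (m + 2)) (hy : inner ℝ zet y = 0) :
    iota (ad iota y) = y := by
  obtain ⟨x, rfl⟩ := mem_range iota zet hz hi y hy
  rw [ad_iota]

/-- `iota (iota^* y) = y - ⟨zet,y⟩ zet` -/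
theorem iota_ad_all {m : ℕ} (iota : EE (m + 1) →ₗᵢ[ℝ] EE (m + 2)) (zet : EE (m + 2)) (hz : ‖zet‖ = 1)
    (hi : ∀ x, inner ℝ zet (iota x) = 0) (y : EE (m + 2)) :
    iota (ad iota y) = y - (inner ℝ zet y : ℝ) • zet := by
  have hz0 : zet ≠ 0 := by
    intro h
    rw [h, norm_zero] at hz
    exact zero_ne_one hz
  have hadz : ad iota zet = 0 := by
    refine ext_inner_left ℝ fun v => ?_
    rw [inner_ad, inner_zero_right, real_inner_comm]
    exact hi v
  have h1 := iota_ad iota zet hz0 hi (y - (inner ℝ zet y : ℝ) • zet) (by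
    rw [inner_sub_right, inner_smul_right, real_inner_self_eq_norm_sq, hz]
    ring)
  rw [map_sub, map_smul, hadz, smul_zero, sub_zero] at h1
  exact h1

theorem norm_sl {m : ℕ} (e : EE (m + 1)) (L : EE m →ₗᵢ[ℝ] EE (m + 1)) (he : ‖e‖ = 1)
    (heL : ∀ b, inner ℝ e (L b) = 0) (sg : ℝ) (b : EE m) : ‖sl e L sg b‖ ^ 2 = sg ^ 2 + ‖b‖ ^ 2 := by
  unfold sl
  rw [← real_inner_self_eq_norm_sq, inner_add_left, inner_add_right, inner_add_right,
    inner_smul_left, inner_smul_left, inner_smul_right, inner_smul_right, heL,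
    real_inner_comm e (L b), heL, real_inner_self_eq_norm_sq, real_inner_self_eq_norm_sq, he,
    L.norm_map]
  simp
  ring

theorem clsUC {c R : ℝ} {M : ℕ → ℝ} (h : Cls c R M) : Cls c (R / 8) (fun j => 2 ^ j * M j) := by
  refine ⟨h.c_pos, by have := h.R_pos; positivity, by have := h.R_pos; have := h.R_le; linarith, ?_⟩
  have h1 := h.M2
  have h2 := h.c_pos
  have h3 : 4 * (2 ^ 2 * M 2) * (R / 8) = 2 * (M 2 * R) := by ring
  show 4 * (2 ^ 2 * M 2) * (R / 8) ≤ c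
  rw [h3]
  by_cases hM : 0 ≤ M 2 * R
  · nlinarith
  · nlinarith

section chart

variable {m : ℕ} {c R : ℝ} {M : ℕ → ℝ}

/-- the affine map `b ↦ sg e + l L b` -/
noncomputable def pt (e : EE (m + 1)) (L : EE m →ₗᵢ[ℝ] EE (m + 1)) (sg l : ℝ) (b : EE m) : EE (m + 1) :=
  sl e L sg (l • b)

/-- its linear part -/
noncomputable def lp (L : EE m →ₗᵢ[ℝ] EE (m + 1)) (l : ℝ) : EE m →L[ℝ] EE (m + 1) :=
  l • L.toContinuousLinearMap

theorem pt_eq (e : EE (m + 1)) (L : EE m →ₗᵢ[ℝ] EE (m + 1)) (sg l : ℝ) (b : EE m) :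
    pt e L sg l b = sg • e + lp L l b := by
  unfold pt lp sl
  simp

theorem norm_lp_le (L : EE m →ₗᵢ[ℝ] EE (m + 1)) (l : ℝ) (hl : 0 ≤ l) : ‖lp L l‖ ≤ l := by
  unfold lp
  rw [norm_smul, Real.norm_of_nonneg hl]
  have := LinearIsometry.norm_toContinuousLinearMap_le L
  nlinarith

theorem hasFDerivAt_comp (X : EE (m + 1) → EE (m + 2)) (hX : ContDiff ℝ ∞ X) (e : EE (m + 1))
    (L : EE m →ₗᵢ[ℝ] EE (m + 1)) (iota : EE (m + 1) →ₗᵢ[ℝ] EE (m + 2)) (sg l : ℝ) (b : EE m) :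
    HasFDerivAt (fun b => ad iota (X (pt e L sg l b)))
      ((ad iota).comp ((fderiv ℝ X (pt e L sg l b)).comp (lp L l))) b := by
  have h1 : HasFDerivAt (pt e L sg l) (lp L l) b := by
    have h : HasFDerivAt (fun b => sg • e + lp L l b) (lp L l) b :=
      (lp L l).hasFDerivAt.const_add _
    have he : (fun b => sg • e + lp L l b) = pt e L sg l := by
      funext b
      exact (pt_eq e L sg l b).symm
    rw [he] at h
    exact h
  have h2 : HasFDerivAt X (fderiv ℝ X (pt e L sg l b)) (pt e L sg l b) :=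
    (hX.differentiable (by simp) _).hasFDerivAt
  exact (ad iota).hasFDerivAt.comp b (h2.comp b h1)

theorem contDiff_comp (X : EE (m + 1) → EE (m + 2)) (hX : ContDiff ℝ ∞ X) (e : EE (m + 1))
    (L : EE m →ₗᵢ[ℝ] EE (m + 1)) (iota : EE (m + 1) →ₗᵢ[ℝ] EE (m + 2)) (sg l : ℝ) :
    ContDiff ℝ ∞ (fun b => ad iota (X (pt e L sg l b))) := by
  have h1 : ContDiff ℝ ∞ (pt e L sg l) := by
    have h : ContDiff ℝ ∞ (fun b => sg • e + lp L l b) := contDiff_const.add (lp L l).contDiff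
    have he : (fun b => sg • e + lp L l b) = pt e L sg l := by
      funext b
      exact (pt_eq e L sg l b).symm
    rw [he] at h
    exact h
  exact (ad iota).contDiff.comp (hX.comp h1)

theorem bd_comp (X : EE (m + 1) → EE (m + 2)) (hX : ContDiff ℝ ∞ X) (e : EE (m + 1))
    (L : EE m →ₗᵢ[ℝ] EE (m + 1)) (iota : EE (m + 1) →ₗᵢ[ℝ] EE (m + 2)) (sg l : ℝ) (hl : 0 ≤ l)
    (hl2 : l ≤ 2) (b : EE m) (j : ℕ) :
    ‖iteratedFDeriv ℝ j (fun b => ad iota (X (pt e L sg l b))) b‖ ≤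
      2 ^ j * ‖iteratedFDeriv ℝ j X (pt e L sg l b)‖ := by
  have hj : ((j : ℕ) : ℕ∞ω) ≤ ((⊤ : ℕ∞) : ℕ∞ω) := by exact_mod_cast le_top
  have hadd : ContDiff ℝ ∞ (fun x => X (sg • e + x)) := hX.comp (contDiff_const.add contDiff_id)
  have hfun : (fun b => ad iota (X (pt e L sg l b))) = (ad iota) ∘ ((fun x => X (sg • e + x)) ∘ (lp L l)) := by
    funext b
    simp only [Function.comp_apply, pt_eq]
  rw [hfun]
  have h1 := ContinuousLinearMap.norm_iteratedFDeriv_comp_left (ad iota)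
    (f := (fun x => X (sg • e + x)) ∘ (lp L l)) (x := b) (N := ∞) (n := j)
    ((hadd.comp (lp L l).contDiff).contDiffAt) hj
  have h2 := ContinuousLinearMap.iteratedFDeriv_comp_right (lp L l) hadd b (i := j) hj
  have h3 : ‖iteratedFDeriv ℝ j ((fun x => X (sg • e + x)) ∘ (lp L l)) b‖ ≤
      2 ^ j * ‖iteratedFDeriv ℝ j X (pt e L sg l b)‖ := by
    rw [h2, iteratedFDeriv_comp_add_left, ← pt_eq]
    refine (ContinuousMultilinearMap.norm_compContinuousLinearMap_le _ _).trans ?_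
    rw [mul_comm]
    refine mul_le_mul_of_nonneg_right ?_ (norm_nonneg _)
    rw [Finset.prod_const, Finset.card_univ, Fintype.card_fin]
    exact pow_le_pow_left₀ (norm_nonneg _) ((norm_lp_le L l hl).trans hl2) j
  calc _ ≤ ‖ad iota‖ * ‖iteratedFDeriv ℝ j ((fun x => X (sg • e + x)) ∘ (lp L l)) b‖ := h1
    _ ≤ 1 * ‖iteratedFDeriv ℝ j ((fun x => X (sg • e + x)) ∘ (lp L l)) b‖ :=
        mul_le_mul_of_nonneg_right (norm_ad_le iota) (norm_nonneg _)
    _ ≤ _ := by rw [one_mul]; exact h3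

theorem norm_pt_le (e : EE (m + 1)) (L : EE m →ₗᵢ[ℝ] EE (m + 1)) (he : ‖e‖ = 1)
    (heL : ∀ b, inner ℝ e (L b) = 0) (sg : ℝ) (b : EE m) (hR : 0 < R) (hR1 : R ≤ 1 / 16)
    (hsg : |sg| ≤ R / 2) (hb : ‖b‖ ≤ R / 8) : ‖pt e L sg (Real.sqrt (1 + sg ^ 2)) b‖ ≤ R := by
  have h1 := norm_sl e L he heL sg (Real.sqrt (1 + sg ^ 2) • b)
  rw [norm_smul, Real.norm_of_nonneg (Real.sqrt_nonneg _), mul_pow,
    Real.sq_sqrt (by positivity)] at h1
  have hs : sg ^ 2 ≤ (R / 2) ^ 2 := by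
    rw [← sq_abs]
    exact pow_le_pow_left₀ (abs_nonneg _) hsg 2
  have hb2 : ‖b‖ ^ 2 ≤ (R / 8) ^ 2 := pow_le_pow_left₀ (norm_nonneg _) hb 2
  have h4 : ‖pt e L sg (Real.sqrt (1 + sg ^ 2)) b‖ ^ 2 ≤ R ^ 2 := by
    unfold pt
    rw [h1]
    have h5 : (1 + sg ^ 2) * ‖b‖ ^ 2 ≤ 2 * (R / 8) ^ 2 := by
      have : 1 + sg ^ 2 ≤ 2 := by nlinarith
      calc _ ≤ 2 * ‖b‖ ^ 2 := mul_le_mul_of_nonneg_right this (by positivity)
        _ ≤ _ := by nlinarith
    nlinarith
  exact le_of_sq_le_sq h4 hR.le |>.trans (le_refl _)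

/-- the linear part of the normal -/
noncomputable def Jn (ch : UChart (m + 1) c R M) (zet : EE (m + 2)) (e : EE (m + 1))
    (L : EE m →ₗᵢ[ℝ] EE (m + 1)) (iota : EE (m + 1) →ₗᵢ[ℝ] EE (m + 2)) (hz : zet ≠ 0)
    (hi : ∀ x, inner ℝ zet (iota x) = 0) (hS : Slice ch zet e L) : EE m →ₗᵢ[ℝ] EE (m + 1) where
  toLinearMap := (ad iota).toLinearMap ∘ₗ (ch.J.toLinearMap ∘ₗ L.toLinearMap)
  norm_map' := by
    intro b
    have h : iota (ad iota (ch.J (L b))) = ch.J (L b) := iota_ad iota zet hz hi _ (hS.omL b)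
    show ‖ad iota (ch.J (L b))‖ = ‖b‖
    rw [← iota.norm_map, h, ch.J.norm_map, L.norm_map]

theorem iota_Jn (ch : UChart (m + 1) c R M) (zet : EE (m + 2)) (e : EE (m + 1))
    (L : EE m →ₗᵢ[ℝ] EE (m + 1)) (iota : EE (m + 1) →ₗᵢ[ℝ] EE (m + 2)) (hz : zet ≠ 0)
    (hi : ∀ x, inner ℝ zet (iota x) = 0) (hS : Slice ch zet e L) (b : EE m) :
    iota (Jn ch zet e L iota hz hi hS b) = ch.J (L b) :=
  iota_ad iota zet hz hi _ (hS.omL b)

theorem norm_fold (ch : UChart (m + 1) c R M) (e : EE (m + 1)) (he : ‖e‖ = 1) (sg : ℝ) :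
    ‖ch.nu - sg • ch.J e‖ = Real.sqrt (1 + sg ^ 2) := by
  have h : ‖ch.nu - sg • ch.J e‖ ^ 2 = 1 + sg ^ 2 := by
    rw [← real_inner_self_eq_norm_sq, inner_sub_left, inner_sub_right, inner_sub_right,
      inner_smul_left, inner_smul_left, inner_smul_right, inner_smul_right, ch.nu_perp,
      real_inner_comm ch.nu (ch.J e), ch.nu_perp, real_inner_self_eq_norm_sq,
      real_inner_self_eq_norm_sq, ch.nu_one, ch.J.norm_map, he]
    simp
    ring
  rw [← h, Real.sqrt_sq (norm_nonneg _)]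

end chart

theorem specUC : SpecUC := by
  intro m c R M hC
  refine ⟨clsUC hC, ?_⟩
  intro ch zet e L iota sg hS hfold hsg hi
  have hz1 : ‖zet‖ = 1 := hS.om_one
  have hz : zet ≠ 0 := by
    intro h
    rw [h, norm_zero] at hz1
    exact zero_ne_one hz1
  set l : ℝ := Real.sqrt (1 + sg ^ 2) with hldef
  have hl1 : 1 ≤ l := by
    rw [hldef, Real.one_le_sqrt]
    nlinarith [sq_nonneg sg]
  have hl0 : 0 < l := by linarith
  have hRp := hC.R_pos
  have hRl := hC.R_le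
  have hl2 : l ≤ 2 := by
    rw [hldef, Real.sqrt_le_left (by norm_num)]
    have hs : sg ^ 2 ≤ (R / 2) ^ 2 := by
      rw [← sq_abs]
      exact pow_le_pow_left₀ (abs_nonneg _) hsg 2
    nlinarith
  set w : EE (m + 2) := (l)⁻¹ • (ch.nu - sg • ch.J e) with hw
  have hwz : inner ℝ zet w = 0 := by
    rw [hw, inner_smul_right, real_inner_comm, hfold, mul_zero]
  have hiw : iota (ad iota w) = w := iota_ad iota zet hz hi w hwz
  have hnorm : ‖w‖ = 1 := by
    rw [hw, norm_smul, norm_fold ch e hS.e_one, norm_inv, Real.norm_of_nonneg hl0.le]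
    exact inv_mul_cancel₀ hl0.ne'
  have hpt : ∀ b : EE m, ‖b‖ ≤ R / 8 → ‖pt e L sg l b‖ ≤ R := fun b hb =>
    norm_pt_le e L hS.e_one hS.eL sg b hRp hRl hsg hb
  have hpt' : ∀ b : EE m, l⁻¹ • (ch.nu - ch.J (pt e L sg l b)) = w - ch.J (L b) := by
    intro b
    rw [hw, pt_eq]
    simp only [lp, smul_apply, LinearIsometry.coe_toContinuousLinearMap, map_add,
      map_smul, smul_sub, smul_add, smul_smul]
    rw [inv_mul_cancel₀ hl0.ne', one_smul]
    abel
  let ch' : UChart m c (R / 8) (fun j => 2 ^ j * M j) :=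
    { X := fun b => ad iota (ch.X (pt e L sg l b))
      nu := ad iota w
      J := Jn ch zet e L iota hz hi hS
      smooth := contDiff_comp ch.X ch.smooth e L iota sg l
      nu_one := by rw [← iota.norm_map, hiw, hnorm]
      nu_perp := by
        intro v
        rw [← iota.inner_map_map, hiw, iota_Jn, hw, inner_smul_left, inner_sub_left, ch.nu_perp,
          inner_smul_left, ch.J.inner_map_map, hS.eL]
        simp
      perp := by
        intro q v hq
        rw [(hasFDerivAt_comp ch.X ch.smooth e L iota sg l q).fderiv]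
        show inner ℝ (ad iota w - Jn ch zet e L iota hz hi hS q)
          (ad iota (fderiv ℝ ch.X (pt e L sg l q) (lp L l v))) = 0
        rw [inner_ad, map_sub, hiw, iota_Jn, ← hpt', inner_smul_left, ch.perp _ _ (hpt q hq), mul_zero]
      mono := by
        intro q v hq
        rw [(hasFDerivAt_comp ch.X ch.smooth e L iota sg l q).fderiv]
        show c * ‖v‖ ^ 2 ≤ inner ℝ (Jn ch zet e L iota hz hi hS v)
          (ad iota (fderiv ℝ ch.X (pt e L sg l q) (lp L l v)))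
        rw [inner_ad, iota_Jn]
        have h1 := ch.mono (pt e L sg l q) (L v) (hpt q hq)
        rw [L.norm_map] at h1
        have h2 : lp L l v = l • L v := by simp [lp]
        rw [h2, map_smul, inner_smul_right]
        have h3 : 0 ≤ c * ‖v‖ ^ 2 := by
          have := hC.c_pos
          positivity
        nlinarith
      bd := by
        intro j hj q hq
        refine (bd_comp ch.X ch.smooth e L iota sg l hl0.le hl2 q j).trans ?_
        exact mul_le_mul_of_nonneg_left (ch.bd j hj _ (hpt q hq)) (by positivity) }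
  refine ⟨ch', fun b => rfl, ?_, ?_, ?_⟩
  · exact hiw
  · intro b
    exact iota_Jn ch zet e L iota hz hi hS b
  · intro dm hdm q q' hq hq'
    show ‖ad iota (ch.X (pt e L sg l q)) - ad iota (ch.X (pt e L sg l q'))‖ ≤ dm
    rw [← map_sub]
    exact (norm_ad_apply_le iota _).trans (hdm _ _ (hpt q hq) (hpt q' hq'))

end Pool.Agent.Lib.MP_a8dae7_an.UN.UCM
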