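import Pool.Agent.Lib.MP_a8dae7_an.UN.SpecO

section
/-!
# MP_a8dae7_an, UN: module OC (helper91): few cubes, Cauchy-Schwarz over the pieces
-/
set_option autoImplicit false

open MeasureTheory
open scoped ContDiff

namespace Pool.Agent.Lib.MP_a8dae7_an.UN.OCM

open Pool.Agent.Lib.MP_a8dae7_an.CV (EE zv ex pq pi2 AA sl bm)
open Pool.Agent.Lib.MP_a8dae7_an.UN

variable {k : ℕ} {c R A : ℝ} {M : ℕ → ℝ}

lemma cont_psi0 : Continuous psi0 := by
  unfold psi0
  have h := Real.smoothTransition.continuous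
  fun_prop

lemma cont_phP : Continuous phP := by
  unfold phP
  have h := Real.smoothTransition.continuous
  fun_prop

lemma cont_sn (ch : UChart k c R M) (n : EE (k + 1)) : Continuous (fun q => sn ch n q) := by
  unfold sn
  have := ch.J.continuous
  fun_prop

lemma cont_am (ch : UChart k c R M) {f : ℝ → ℝ} (hf : Continuous f) (sg lam th : ℝ) (n : EE (k + 1)) :
    Continuous (fun q => am ch f sg lam th n q) := by
  unfold am
  have := cont_sn ch (Nb lam n)
  fun_prop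

lemma cont_es (ch : UChart k c R M) (Lt : Lat (k + 1) A) (s : Finset (Fin (k + 1) → ℤ))
    (a : (Fin (k + 1) → ℤ) → ℂ) : Continuous (fun q => es Lt s a (ch.X q)) := by
  unfold es
  have hX : Continuous ch.X := ch.smooth.continuous
  refine continuous_finsetSum _ fun j _ => ?_
  unfold ex
  fun_prop

lemma sq_norm_sum_le {ι : Type*} (P : Finset ι) (v : ι → ℂ) :
    ‖∑ p ∈ P, v p‖ ^ 2 ≤ (P.card : ℝ) * ∑ p ∈ P, ‖v p‖ ^ 2 := by
  have h1 : ‖∑ p ∈ P, v p‖ ≤ ∑ p ∈ P, ‖v p‖ := norm_sum_le _ _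
  have h2 : ‖∑ p ∈ P, v p‖ ^ 2 ≤ (∑ p ∈ P, ‖v p‖) ^ 2 := by
    exact pow_le_pow_left₀ (norm_nonneg _) h1 2
  exact h2.trans sq_sum_le_card_mul_sum_sq

theorem specOC (hPC : SpecPC) (hCG : SpecCG) (hCTU : SpecCTU) : SpecOC := by
  classical
  intro k c R A M hc hA
  obtain ⟨C, hC1, hPC⟩ := hPC k
  refine ⟨C, by linarith, ?_⟩
  intro ch Lt lam th sg BB H s a f h1lam hth hth4 hsg hf hBB hs hBH hH
  have hR := hc.R_pos
  have hdl : 0 < dl k R := by unfold dl; positivity
  have hdlR : dl k R ≤ R := by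
    unfold dl
    rw [div_le_iff₀ (by positivity)]
    have : (1 : ℝ) ≤ 4 * 32 ^ k := by
      have : (1 : ℝ) ≤ 32 ^ k := one_le_pow₀ (by norm_num)
      linarith
    nlinarith
  obtain ⟨hCG1, hCG2⟩ := hCG
  obtain ⟨hT1, -, -, -, -⟩ := hCTU
  have hfc : Continuous f := by
    rcases hf with rfl | rfl
    · exact cont_phP
    · exact cont_psi0
  have hf01 : ∀ x, |f x| ≤ 1 := by
    intro x
    obtain ⟨a1, a2, a3, a4⟩ := hT1 x
    rcases hf with rfl | rfl
    · rw [abs_of_nonneg a3]; exact a4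
    · rw [abs_of_nonneg a1]; exact a2
  -- labels
  let lab : (Fin (k + 1) → ℤ) → (Fin (k + 1) → ℤ) × EE (k + 1) :=
    fun j => (cbl (sd k th) (Lt.fr j), Nb lam (Lt.fr j))
  let LL := s.image lab
  have hrep : ∀ p : (Fin (k + 1) → ℤ) × EE (k + 1), ∃ j, p ∈ LL → (j ∈ s ∧ lab j = p) := by
    intro p
    by_cases hp : p ∈ LL
    · obtain ⟨j, hj, hjp⟩ := Finset.mem_image.1 hp
      exact ⟨j, fun _ => ⟨hj, hjp⟩⟩
    · exact ⟨0, fun h => absurd h hp⟩
  choose rp hrp using hrep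
  -- number of pieces
  have hcard : (LL.card : ℝ) ≤ C * H := by
    have hmaps : ∀ p ∈ LL, p.1 ∈ s.image fun j => cbl (sd k th) (Lt.fr j) := by
      intro p hp
      obtain ⟨h1, h2⟩ := hrp p hp
      rw [← h2]
      exact Finset.mem_image.2 ⟨rp p, h1, rfl⟩
    have hfib := Finset.card_eq_sum_card_fiberwise hmaps
    have hone : ∀ b ∈ s.image fun j => cbl (sd k th) (Lt.fr j),
        (((LL.filter fun p => p.1 = b).card : ℕ) : ℝ) ≤ C := by
      intro b _
      rcases (LL.filter fun p => p.1 = b).eq_empty_or_nonempty with he | ⟨p0, hp0⟩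
      · rw [he]; simp; linarith
      · obtain ⟨hp0L, hp0b⟩ := Finset.mem_filter.1 hp0
        have := hPC _ lam th 1 (LL.filter fun p => p.1 = b) (fun p => Lt.fr (rp p)) (Lt.fr (rp p0)) h1lam hth
          le_rfl ?_ ?_
        · simpa using this
        · intro p hp p' hp' h1 h2
          obtain ⟨hpL, _⟩ := Finset.mem_filter.1 hp
          obtain ⟨hpL', _⟩ := Finset.mem_filter.1 hp'
          rw [← (hrp p hpL).2, ← (hrp p' hpL').2]
          exact Prod.ext h1 h2
        · intro p hp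
          obtain ⟨hpL, hpb⟩ := Finset.mem_filter.1 hp
          have e1 : cbl (sd k th) (Lt.fr (rp p)) = b := by
            have := congrArg Prod.fst (hrp p hpL).2
            rw [← hpb, ← this]
          have e2 : cbl (sd k th) (Lt.fr (rp p0)) = b := by
            have := congrArg Prod.fst (hrp p0 hp0L).2
            rw [← hp0b, ← this]
          have := (hCG1 k lam th (Lt.fr (rp p)) (Lt.fr (rp p0)) h1lam hth).2.2.2.2.2.2 (e1.trans e2.symm)
          have hpos : 0 ≤ (th ^ 2)⁻¹ := by positivity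
          linarith
    have : (LL.card : ℝ) ≤ C * ((s.image fun j => cbl (sd k th) (Lt.fr j)).card : ℝ) := by
      have h0 : (LL.card : ℝ) = ∑ b ∈ s.image fun j => cbl (sd k th) (Lt.fr j),
          (((LL.filter fun p => p.1 = b).card : ℕ) : ℝ) := by
        rw [hfib]; push_cast; rfl
      rw [h0]
      calc _ ≤ ∑ _b ∈ s.image fun j => cbl (sd k th) (Lt.fr j), C := Finset.sum_le_sum hone
        _ = C * ((s.image fun j => cbl (sd k th) (Lt.fr j)).card : ℝ) := by
            rw [Finset.sum_const, nsmul_eq_mul, mul_comm]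
    refine this.trans ?_
    exact mul_le_mul_of_nonneg_left hH (by linarith)
  -- the pieces
  let sp : (Fin (k + 1) → ℤ) × EE (k + 1) → Finset (Fin (k + 1) → ℤ) := fun p => s.filter fun j => lab j = p
  have hsum : ∀ q : EE k, ∑ j ∈ s, (am ch f sg lam th (Lt.fr j) q : ℂ) * (a j * ex (Lt.fr j) (ch.X q)) =
      ∑ p ∈ LL, (am ch f sg lam th (Lt.fr (rp p)) q : ℂ) * es Lt (sp p) a (ch.X q) := by
    intro q
    rw [← Finset.sum_fiberwise_of_maps_to (t := LL) (g := lab) (fun j hj => Finset.mem_image_of_mem lab hj)]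
    refine Finset.sum_congr rfl fun p hp => ?_
    unfold es
    rw [Finset.mul_sum]
    refine Finset.sum_congr rfl fun j hj => ?_
    obtain ⟨_, hjp⟩ := Finset.mem_filter.1 hj
    have e1 : Nb lam (Lt.fr j) = Nb lam (Lt.fr (rp p)) := by
      have h1 := congrArg Prod.snd hjp
      have h2 := congrArg Prod.snd (hrp p hp).2
      exact h1.trans h2.symm
    have e2 : am ch f sg lam th (Lt.fr j) q = am ch f sg lam th (Lt.fr (rp p)) q := by
      unfold am; rw [e1]
    rw [e2]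
  -- the integral of a piece
  have hpiece : ∀ p ∈ LL, ∫ q in Metric.closedBall (0 : EE k) (dl k R),
      ‖(am ch f sg lam th (Lt.fr (rp p)) q : ℂ) * es Lt (sp p) a (ch.X q)‖ ^ 2 ≤ BB * ∑ j ∈ sp p, ‖a j‖ ^ 2 := by
    intro p hp
    obtain ⟨hr1, hr2⟩ := hrp p hp
    let Sp : Set (EE k) := {q : EE k | ‖q‖ ≤ 2 * dl k R ∧ |sn ch (Lt.fr (rp p)) q| ≤ 5 * th * lam}
    have hSp_closed : IsClosed Sp := by
      apply IsClosed.inter
      · exact isClosed_le continuous_norm continuous_const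
      · exact isClosed_le (cont_sn ch _).abs continuous_const
    have hSp_comp : IsCompact Sp := by
      refine (isCompact_closedBall (0 : EE k) (2 * dl k R)).of_isClosed_subset hSp_closed ?_
      intro q hq
      simpa using hq.1
    have hG : Continuous (fun q => ‖es Lt (sp p) a (ch.X q)‖ ^ 2) := (cont_es ch Lt _ a).norm.pow 2
    have hF : Continuous (fun q => ‖(am ch f sg lam th (Lt.fr (rp p)) q : ℂ) * es Lt (sp p) a (ch.X q)‖ ^ 2) := by
      have h1 := cont_am ch hfc sg lam th (Lt.fr (rp p))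
      have h2 := cont_es ch Lt (sp p) a
      exact (((Complex.continuous_ofReal.comp h1).mul h2).norm).pow 2
    have hGi : IntegrableOn (fun q => ‖es Lt (sp p) a (ch.X q)‖ ^ 2) Sp := hG.continuousOn.integrableOn_compact hSp_comp
    have hGb : IntegrableOn (fun q => ‖es Lt (sp p) a (ch.X q)‖ ^ 2) (Metric.closedBall (0 : EE k) (dl k R)) :=
      hG.continuousOn.integrableOn_compact (isCompact_closedBall _ _)
    have hFi : IntegrableOn (fun q => ‖(am ch f sg lam th (Lt.fr (rp p)) q : ℂ) * es Lt (sp p) a (ch.X q)‖ ^ 2)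
        (Metric.closedBall (0 : EE k) (dl k R)) := hF.continuousOn.integrableOn_compact (isCompact_closedBall _ _)
    have step1 : ∫ q in Metric.closedBall (0 : EE k) (dl k R),
        ‖(am ch f sg lam th (Lt.fr (rp p)) q : ℂ) * es Lt (sp p) a (ch.X q)‖ ^ 2 ≤
        ∫ q in Metric.closedBall (0 : EE k) (dl k R), Sp.indicator (fun q => ‖es Lt (sp p) a (ch.X q)‖ ^ 2) q := by
      refine setIntegral_mono_on hFi (hGb.indicator hSp_closed.measurableSet) measurableSet_closedBall ?_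
      intro q hq
      have hq1 : ‖q‖ ≤ dl k R := by simpa using hq
      by_cases ham : am ch f sg lam th (Lt.fr (rp p)) q = 0
      · rw [ham]
        simp only [Complex.ofReal_zero, zero_mul, norm_zero]
        have : (0 : ℝ) ≤ Sp.indicator (fun q => ‖es Lt (sp p) a (ch.X q)‖ ^ 2) q :=
          Set.indicator_nonneg (fun _ _ => by positivity) q
        simpa using this
      · have hsn : |sn ch (Lt.fr (rp p)) q| ≤ 3 * (lam * th) := by
          obtain ⟨g1, g2⟩ := hCG2 k c R M hc ch lam th sg (Lt.fr (rp p)) q h1lam hth hsg (hq1.trans hdlR)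
          rcases hf with rfl | rfl
          · obtain ⟨u1, u2⟩ := g1 ham
            have hpos : 0 ≤ lam * th := by
              have h1 : 0 ≤ th := le_trans (Real.rpow_nonneg (by linarith) _) hth
              nlinarith
            rcases hsg with rfl | rfl
            · rw [abs_le]; constructor <;> nlinarith
            · rw [abs_le]; constructor <;> nlinarith
          · exact g2 ham
        have hmem : q ∈ Sp := by
          refine ⟨by linarith, ?_⟩
          have hpos : 0 ≤ lam * th := by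
            have h1 : 0 ≤ th := le_trans (Real.rpow_nonneg (by linarith) _) hth
            nlinarith
          nlinarith
        rw [Set.indicator_of_mem hmem]
        have h1 : ‖(am ch f sg lam th (Lt.fr (rp p)) q : ℂ) * es Lt (sp p) a (ch.X q)‖ ≤ ‖es Lt (sp p) a (ch.X q)‖ := by
          rw [norm_mul, Complex.norm_real, Real.norm_eq_abs]
          have : |am ch f sg lam th (Lt.fr (rp p)) q| ≤ 1 := by unfold am; exact hf01 _
          calc _ ≤ 1 * ‖es Lt (sp p) a (ch.X q)‖ := mul_le_mul_of_nonneg_right this (norm_nonneg _)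
            _ = _ := one_mul _
        exact pow_le_pow_left₀ (norm_nonneg _) h1 2
    have step2 : ∫ q in Metric.closedBall (0 : EE k) (dl k R), Sp.indicator (fun q => ‖es Lt (sp p) a (ch.X q)‖ ^ 2) q ≤
        ∫ q in Sp, ‖es Lt (sp p) a (ch.X q)‖ ^ 2 := by
      rw [setIntegral_indicator hSp_closed.measurableSet]
      refine setIntegral_mono_set hGi ?_ ?_
      · exact Filter.Eventually.of_forall fun q => by positivity
      · exact (Set.inter_subset_right).eventuallyLE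
    let b : (Fin (k + 1) → ℤ) → ℂ := fun j => if j ∈ sp p then a j else 0
    have hsub : sp p ⊆ bk Lt (sd k th) s (cbl (sd k th) (Lt.fr (rp p))) := by
      intro j hj
      obtain ⟨h1, h2⟩ := Finset.mem_filter.1 hj
      refine Finset.mem_filter.2 ⟨h1, ?_⟩
      have := congrArg Prod.fst (h2.trans hr2.symm)
      exact this
    have hes : ∀ x, es Lt (bk Lt (sd k th) s (cbl (sd k th) (Lt.fr (rp p)))) b x = es Lt (sp p) a x := by
      intro x
      unfold es
      rw [← Finset.sum_subset hsub]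
      · refine Finset.sum_congr rfl fun j hj => ?_
        simp only [b, if_pos hj]
      · intro j _ hj
        simp only [b, if_neg hj, zero_mul]
    have hbs : ∑ j ∈ bk Lt (sd k th) s (cbl (sd k th) (Lt.fr (rp p))), ‖b j‖ ^ 2 = ∑ j ∈ sp p, ‖a j‖ ^ 2 := by
      rw [← Finset.sum_subset hsub]
      · refine Finset.sum_congr rfl fun j hj => ?_
        simp only [b, if_pos hj]
      · intro j _ hj
        simp only [b, if_neg hj, norm_zero]
        norm_num
    have step3 := hBH (rp p) hr1 b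
    simp only [hes] at step3
    rw [hbs] at step3
    exact step1.trans (step2.trans step3)
  -- assembly
  have hFi : ∀ p ∈ LL, IntegrableOn (fun q => ‖(am ch f sg lam th (Lt.fr (rp p)) q : ℂ) * es Lt (sp p) a (ch.X q)‖ ^ 2)
      (Metric.closedBall (0 : EE k) (dl k R)) := by
    intro p _
    have h1 := cont_am ch hfc sg lam th (Lt.fr (rp p))
    have h2 := cont_es ch Lt (sp p) a
    exact ((((Complex.continuous_ofReal.comp h1).mul h2).norm).pow 2).continuousOn.integrableOn_compact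
      (isCompact_closedBall _ _)
  have hLHSi : IntegrableOn (fun q => ‖∑ p ∈ LL, (am ch f sg lam th (Lt.fr (rp p)) q : ℂ) * es Lt (sp p) a (ch.X q)‖ ^ 2)
      (Metric.closedBall (0 : EE k) (dl k R)) := by
    refine (Continuous.continuousOn ?_).integrableOn_compact (isCompact_closedBall _ _)
    refine ((continuous_finsetSum _ fun p _ => ?_).norm).pow 2
    exact (Complex.continuous_ofReal.comp (cont_am ch hfc sg lam th (Lt.fr (rp p)))).mul (cont_es ch Lt (sp p) a)
  calc ∫ q in Metric.closedBall (0 : EE k) (dl k R),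
      ‖∑ j ∈ s, (am ch f sg lam th (Lt.fr j) q : ℂ) * (a j * ex (Lt.fr j) (ch.X q))‖ ^ 2
      = ∫ q in Metric.closedBall (0 : EE k) (dl k R),
        ‖∑ p ∈ LL, (am ch f sg lam th (Lt.fr (rp p)) q : ℂ) * es Lt (sp p) a (ch.X q)‖ ^ 2 := by
        simp only [hsum]
    _ ≤ ∫ q in Metric.closedBall (0 : EE k) (dl k R),
        (LL.card : ℝ) * ∑ p ∈ LL, ‖(am ch f sg lam th (Lt.fr (rp p)) q : ℂ) * es Lt (sp p) a (ch.X q)‖ ^ 2 := by
        refine setIntegral_mono hLHSi ?_ ?_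
        · exact (integrable_finsetSum _ hFi).const_mul _
        · intro q
          exact sq_norm_sum_le LL _
    _ = (LL.card : ℝ) * ∑ p ∈ LL, ∫ q in Metric.closedBall (0 : EE k) (dl k R),
        ‖(am ch f sg lam th (Lt.fr (rp p)) q : ℂ) * es Lt (sp p) a (ch.X q)‖ ^ 2 := by
        rw [integral_const_mul, integral_finsetSum _ hFi]
    _ ≤ (LL.card : ℝ) * ∑ p ∈ LL, BB * ∑ j ∈ sp p, ‖a j‖ ^ 2 := by
        exact mul_le_mul_of_nonneg_left (Finset.sum_le_sum hpiece) (Nat.cast_nonneg _)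
    _ = (LL.card : ℝ) * (BB * ∑ j ∈ s, ‖a j‖ ^ 2) := by
        rw [← Finset.mul_sum, Finset.sum_fiberwise_of_maps_to (t := LL) (g := lab)
          (fun j hj => Finset.mem_image_of_mem lab hj)]
    _ ≤ (C * H) * (BB * ∑ j ∈ s, ‖a j‖ ^ 2) := by
        refine mul_le_mul_of_nonneg_right hcard ?_
        exact mul_nonneg hBB (Finset.sum_nonneg fun j _ => by positivity)
    _ = C * H * BB * ∑ j ∈ s, ‖a j‖ ^ 2 := by ring

end Pool.Agent.Lib.MP_a8dae7_an.UN.OCM
end

section
/-!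
# MP_a8dae7_an, UN: module PA. A pair of pieces at a large distance.
-/
set_option autoImplicit false

open MeasureTheory
open scoped ContDiff

namespace Pool.Agent.Lib.MP_a8dae7_an.UN.PAM

open Pool.Agent.Lib.MP_a8dae7_an.CV (EE zv ex pq pi2 AA sl bm)

variable {k : ℕ} {c R A : ℝ} {M : ℕ → ℝ}

theorem dl_pos (k : ℕ) {R : ℝ} (hR : 0 < R) : 0 < dl k R := by
  unfold dl
  positivity

theorem four_dl_le (k : ℕ) {R : ℝ} (hR : 0 < R) : 4 * dl k R ≤ R := by
  unfold dl
  rw [mul_div_assoc', div_le_iff₀ (by positivity)]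
  have h1 : (1 : ℝ) ≤ 32 ^ k := one_le_pow₀ (by norm_num)
  nlinarith

theorem cutq_supp (k : ℕ) {R : ℝ} (hR : 0 < R) (q : EE k) (h : cutq k hR q ≠ 0) :
    ‖q‖ ≤ 3 / 2 * dl k R := by
  by_contra hcon
  push Not at hcon
  apply h
  apply (cutq k hR).zero_of_le_dist
  rw [dist_zero_right]
  exact hcon.le

theorem abs_of_sg {sg x L : ℝ} (hsg : sg = 1 ∨ sg = -1) (h1 : 0 ≤ sg * x) (h2 : sg * x ≤ L) :
    |x| ≤ L := by
  rcases hsg with h | h
  · rw [h, one_mul] at h1 h2
    rwa [abs_of_nonneg h1]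
  · rw [h, neg_one_mul] at h1 h2
    rw [← abs_neg, abs_of_nonneg h1]
    exact h2

theorem sn_sub (ch : UChart k c R M) (n n' : EE (k + 1)) (q : EE k) :
    sn ch (n - n') q = sn ch n q - sn ch n' q := by
  unfold sn
  rw [inner_sub_left]

/-- constants: `C x ^ N ≤ (K x) ^ N` -/
theorem const_le {C K x : ℝ} {N : ℕ} (hN : 1 ≤ N) (hCK : C ≤ K) (hK : 1 ≤ K) (hx : 0 ≤ x) :
    C * x ^ N ≤ (K * x) ^ N := by
  rw [mul_pow]
  refine mul_le_mul_of_nonneg_right (hCK.trans ?_) (pow_nonneg hx N)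
  exact le_self_pow₀ hK (by omega)

/-- **PA** -/
theorem specPA (hCA : SpecCA) (hCB : SpecCB) (hCTU : SpecCTU) (hCG : SpecCG) (hGA : SpecGA) :
    SpecPA := by
  intro k c R M hc N hN
  obtain ⟨Ac, hAc⟩ := hCTU.2.2.2.2 k c R M hc
  obtain ⟨K1, C1, hK1, hC1, hCA⟩ := hCA k c R M hc N Ac
  obtain ⟨K2, C2, hK2, hC2, hCB⟩ := hCB k c R M hc N Ac
  obtain ⟨K, hK⟩ : ∃ K, K = K1 + K2 + C1 + C2 + 7 := ⟨_, rfl⟩
  refine ⟨K, by linarith, ?_⟩
  intro A ch Lt lam th BB n0 n0' s s' x y f sg hP hsg hf hdist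
  have hlam := hP.one_lam
  have hth1 := hP.th_low
  have hlam0 : 0 < lam := by linarith
  have hth0 : 0 < th := lt_of_lt_of_le (Real.rpow_pos_of_pos hlam0 _) hth1
  have hr0 : 0 < (th ^ 2)⁻¹ := by positivity
  have hR := hc.R_pos
  have h4 := four_dl_le k hR
  have hdl := dl_pos k hR
  have hf' : f = phP ∨ f = psi0 := by
    rcases hf with h | h
    · exact Or.inl h
    · exact Or.inr h.1
  obtain ⟨hsm, hder⟩ := hAc ch f lam th sg n0 n0' hf' hlam hth0 hP.th_le hsg hP.hn0 hP.hn0'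
  -- the support of the amplitude
  have hsupp : ∀ q, cutq k hc.R_pos q * (am ch f sg lam th n0 q * am ch f sg lam th n0' q) ≠ 0 →
      ‖q‖ ≤ 3 / 2 * dl k R ∧ am ch f sg lam th n0 q ≠ 0 ∧ am ch f sg lam th n0' q ≠ 0 := by
    intro q hq
    exact ⟨cutq_supp k hR q (left_ne_zero_of_mul hq), left_ne_zero_of_mul (right_ne_zero_of_mul hq),
      right_ne_zero_of_mul (right_ne_zero_of_mul hq)⟩
  have hcg := fun (n : EE (k + 1)) (q : EE k) (hq : ‖q‖ ≤ 3 / 2 * dl k R) =>
    hCG.2 k c R M hc ch lam th sg n q hlam hth1 hsg (by linarith)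
  have habs : ∀ (n : EE (k + 1)) (q : EE k), ‖q‖ ≤ 3 / 2 * dl k R → am ch f sg lam th n q ≠ 0 →
      |sn ch n q| ≤ 3 * (lam * th) := by
    intro n q hq ham
    rcases hf' with h | h
    · rw [h] at ham
      obtain ⟨h1, h2⟩ := (hcg n q hq).1 ham
      have h3 : 0 < lam * th / 3 := by positivity
      exact abs_of_sg hsg (by linarith) h2
    · rw [h] at ham
      exact (hcg n q hq).2 ham
  have hrhs : 0 ≤ (K * (th ^ 2)⁻¹ / ‖n0 - n0'‖) ^ N * BB *
      (Real.sqrt (∑ j ∈ s, ‖x j‖ ^ 2) * Real.sqrt (∑ j ∈ s', ‖y j‖ ^ 2)) := by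
    have := hP.hBB
    have hK0 : 0 ≤ K := by linarith
    positivity
  have hfin : ∀ C : ℝ, C ≤ K → C * ((th ^ 2)⁻¹ / ‖n0 - n0'‖) ^ N * BB *
      (Real.sqrt (∑ j ∈ s, ‖x j‖ ^ 2) * Real.sqrt (∑ j ∈ s', ‖y j‖ ^ 2)) ≤
      (K * (th ^ 2)⁻¹ / ‖n0 - n0'‖) ^ N * BB *
      (Real.sqrt (∑ j ∈ s, ‖x j‖ ^ 2) * Real.sqrt (∑ j ∈ s', ‖y j‖ ^ 2)) := by
    intro C hC
    have h1 := const_le (x := (th ^ 2)⁻¹ / ‖n0 - n0'‖) hN hC (by linarith) (by positivity)
    have h2 : K * (th ^ 2)⁻¹ / ‖n0 - n0'‖ = K * ((th ^ 2)⁻¹ / ‖n0 - n0'‖) := by ring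
    rw [h2]
    refine mul_le_mul_of_nonneg_right (mul_le_mul_of_nonneg_right h1 hP.hBB) (by positivity)
  have hd1 : K1 * (th ^ 2)⁻¹ ≤ ‖n0 - n0'‖ :=
    (mul_le_mul_of_nonneg_right (by linarith) hr0.le).trans hdist
  have hd2 : K2 * (th ^ 2)⁻¹ ≤ ‖n0 - n0'‖ :=
    (mul_le_mul_of_nonneg_right (by linarith) hr0.le).trans hdist
  rcases le_total (‖n0 - n0'‖ / 8) ‖tq ch 0 (n0 - n0')‖ with hA | hB
  · -- case A
    have h1 := hCA A ch Lt lam th BB n0 n0' s s'
      (fun q => cutq k hc.R_pos q * (am ch f sg lam th n0 q * am ch f sg lam th n0' q)) x y hP hd1 hA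
      hsm (fun q hq => by
        obtain ⟨h1, h2, h3⟩ := hsupp q hq
        exact ⟨h1, habs n0 q h1 h2, habs n0' q h1 h3⟩) hder
    exact h1.trans (hfin C1 (by linarith))
  · rcases hf with hph | ⟨hps, hthe⟩
    · -- case B
      have h1 := hCB A ch Lt lam th BB n0 n0' s s'
        (fun q => cutq k hc.R_pos q * (am ch f sg lam th n0 q * am ch f sg lam th n0' q)) x y sg hP
        hsg hd2 hB hsm (fun q hq => by
          obtain ⟨h1, h2, h3⟩ := hsupp q hq
          rw [hph] at h2 h3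
          obtain ⟨h5, h6⟩ := (hcg n0 q h1).1 h2
          obtain ⟨h7, h8⟩ := (hcg n0' q h1).1 h3
          exact ⟨h1, h5, h6, h7, h8⟩) hder
      exact h1.trans (hfin C2 (by linarith))
    · -- the support is empty
      have hzero : ∀ q, cutq k hc.R_pos q * (am ch f sg lam th n0 q * am ch f sg lam th n0' q) = 0 := by
        intro q
        by_contra hne
        obtain ⟨h1, h2, h3⟩ := hsupp q hne
        have h5 := habs n0 q h1 h2
        have h6 := habs n0' q h1 h3
        have h7 := ((hGA k c R M hc ch q (by linarith)).2.2.2.2 (n0 - n0') hB).2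
        rw [sn_sub] at h7
        have h8 : |sn ch n0 q - sn ch n0' q| ≤ |sn ch n0 q| + |sn ch n0' q| := abs_sub _ _
        have h9 : lam * th = (th ^ 2)⁻¹ := by
          have h10 : th ^ 3 * lam = 1 := by
            rw [hthe, ← Real.rpow_natCast, ← Real.rpow_mul hlam0.le]
            norm_num
            rw [Real.rpow_neg_one]
            exact inv_mul_cancel₀ hlam0.ne'
          field_simp
          linarith
        have h11 : 7 * (th ^ 2)⁻¹ ≤ ‖n0 - n0'‖ :=
          (mul_le_mul_of_nonneg_right (by linarith) hr0.le).trans hdist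
        rw [h9] at h5 h6
        linarith
      have h0 : ∫ q, ((cutq k hc.R_pos q * (am ch f sg lam th n0 q * am ch f sg lam th n0' q) : ℝ) : ℂ) *
          (es Lt s x (ch.X q) * (starRingEnd ℂ) (es Lt s' y (ch.X q))) = 0 := by
        rw [← integral_zero (EE k) ℂ]
        congr 1
        funext q
        rw [hzero q]
        simp
      rw [h0, norm_zero]
      exact hrhs

end Pool.Agent.Lib.MP_a8dae7_an.UN.PAM
end

section
/-!
# MP_a8dae7_an, UN: PC. Number of pieces near a point.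
-/
set_option autoImplicit false

open MeasureTheory

namespace Pool.Agent.Lib.MP_a8dae7_an.UN.PCM

open Pool.Agent.Lib.MP_a8dae7_an.CV (EE zv ex pq pi2 AA sl bm)

/-- the number of labels of cubes of side `r/(64(k+1))` of points in a ball of radius `K r` -/
lemma img {k : ℕ} {C : ℝ} (hC : ∀ (r K : ℝ) (x : EE (k + 1)) (S : Finset (Fin (k + 1) → ℤ))
      (rep : (Fin (k + 1) → ℤ) → EE (k + 1)), 0 < r → 1 ≤ K →
      (∀ lb ∈ S, cbl (r / (64 * (k + 1))) (rep lb) = lb ∧ ‖x - rep lb‖ ≤ K * r) → (S.card : ℝ) ≤ C * K ^ (k + 1))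
    {ι : Type} (P : Finset ι) (y : ι → EE (k + 1)) (x : EE (k + 1)) {r K : ℝ} (hr : 0 < r) (hK : 1 ≤ K)
    (h : ∀ i ∈ P, ‖y i - x‖ ≤ K * r) :
    ((P.image fun i => cbl (r / (64 * (k + 1))) (y i)).card : ℝ) ≤ C * K ^ (k + 1) := by
  classical
  set rep : (Fin (k + 1) → ℤ) → EE (k + 1) := fun lb =>
    if h : ∃ i ∈ P, cbl (r / (64 * (k + 1))) (y i) = lb then y h.choose else 0 with hrep
  refine hC r K x _ rep hr hK fun lb hlb => ?_
  have h1 : ∃ i ∈ P, cbl (r / (64 * (k + 1))) (y i) = lb := by simpa using hlb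
  have h2 : rep lb = y h1.choose := by rw [hrep]; exact dif_pos h1
  rw [h2]
  refine ⟨h1.choose_spec.2, ?_⟩
  rw [norm_sub_rev]
  exact h _ h1.choose_spec.1

lemma th_pos {lam th : ℝ} (h1 : 1 ≤ lam) (h2 : lam ^ (-(1 / 3 : ℝ)) ≤ th) : 0 < th :=
  lt_of_lt_of_le (Real.rpow_pos_of_pos (by linarith) _) h2

lemma r_le {lam th : ℝ} (h1 : 1 ≤ lam) (h2 : lam ^ (-(1 / 3 : ℝ)) ≤ th) : (th ^ 2)⁻¹ ≤ lam ^ (2 / 3 : ℝ) := by
  have h0 : 0 < lam := by linarith
  have h3 : (lam ^ (-(1 / 3 : ℝ))) ^ 2 ≤ th ^ 2 :=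
    pow_le_pow_left₀ (Real.rpow_pos_of_pos h0 _).le h2 2
  have h4 : (lam ^ (-(1 / 3 : ℝ))) ^ 2 = (lam ^ (2 / 3 : ℝ))⁻¹ := by
    rw [← Real.rpow_natCast, ← Real.rpow_mul h0.le, ← Real.rpow_neg h0.le]
    norm_num
  rw [h4] at h3
  have h5 : 0 < lam ^ (2 / 3 : ℝ) := Real.rpow_pos_of_pos h0 _
  rw [inv_le_comm₀ (pow_pos (th_pos h1 h2) 2) h5]
  exact h3

/-- **PC** -/
theorem specPC (hTC : SpecTC) : SpecPC := by
  classical
  intro k
  obtain ⟨C, hC0, hC⟩ := hTC k
  refine ⟨C * C + 1, by nlinarith, ?_⟩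
  intro ι lam th K P y x hlam hth hK hinj hP
  have hth0 := th_pos hlam hth
  have hr : 0 < (th ^ 2)⁻¹ := by positivity
  have hrr := r_le hlam hth
  have hr' : 0 < lam ^ (2 / 3 : ℝ) := lt_of_lt_of_le hr hrr
  have h1 := img hC P y x hr hK hP
  have h2 := img hC P y x (r := lam ^ (2 / 3 : ℝ)) hr' hK fun i hi => (hP i hi).trans
    (mul_le_mul_of_nonneg_left hrr (by linarith))
  set S1 := P.image fun i => cbl ((th ^ 2)⁻¹ / (64 * (k + 1))) (y i) with hS1
  set S2 := P.image fun i => cbl (lam ^ (2 / 3 : ℝ) / (64 * (k + 1))) (y i) with hS2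
  have h3 : P.card ≤ (S1 ×ˢ S2).card := by
    refine Finset.card_le_card_of_injOn (fun i => (cbl ((th ^ 2)⁻¹ / (64 * (k + 1))) (y i),
      cbl (lam ^ (2 / 3 : ℝ) / (64 * (k + 1))) (y i))) ?_ ?_
    · intro i hi
      simp only [Finset.coe_product, Set.mem_prod, Finset.mem_coe]
      exact ⟨Finset.mem_image_of_mem _ hi, Finset.mem_image_of_mem _ hi⟩
    · intro i hi j hj hij
      simp only [Prod.mk.injEq] at hij
      refine hinj i hi j hj hij.1 ?_
      have h4 := hij.2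
      unfold Nb
      congr 1
      funext a
      have h5 := congrFun h4 a
      simp only [cbl] at h5
      rw [h5]
  rw [Finset.card_product] at h3
  have hK0 : 0 ≤ K := by linarith
  calc (P.card : ℝ) ≤ (S1.card : ℝ) * (S2.card : ℝ) := by exact_mod_cast h3
    _ ≤ (C * K ^ (k + 1)) * (C * K ^ (k + 1)) := by gcongr
    _ = (C * C) * K ^ (2 * k + 2) := by ring
    _ ≤ _ := by
      refine mul_le_mul_of_nonneg_right (by linarith) (by positivity)

end Pool.Agent.Lib.MP_a8dae7_an.UN.PCM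
end

section
/-!
# MP_a8dae7_an, UN: PSM. The Schur sum of the far pieces.
-/
set_option autoImplicit false

open MeasureTheory

namespace Pool.Agent.Lib.MP_a8dae7_an.UN.PSMM

open Pool.Agent.Lib.MP_a8dae7_an.CV (EE zv ex pq pi2 AA sl bm)

/-- dyadic level -/
lemma lev {v : ℝ} (hv : 1 ≤ v) : (2 : ℝ) ^ (Nat.log 2 ⌊v⌋₊) ≤ v ∧ v ≤ 2 ^ (Nat.log 2 ⌊v⌋₊ + 1) := by
  have h1 : 1 ≤ ⌊v⌋₊ := Nat.le_floor (by exact_mod_cast hv)
  have h2 := Nat.pow_log_le_self 2 (x := ⌊v⌋₊) (by omega)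
  have h3 := Nat.lt_pow_succ_log_self (b := 2) (by norm_num) ⌊v⌋₊
  have h4 := Nat.floor_le (a := v) (by linarith)
  have h5 := Nat.lt_floor_add_one v
  constructor
  · have : ((2 ^ (Nat.log 2 ⌊v⌋₊) : ℕ) : ℝ) ≤ (⌊v⌋₊ : ℝ) := by exact_mod_cast h2
    push_cast at this
    linarith
  · have : ((⌊v⌋₊ + 1 : ℕ) : ℝ) ≤ ((2 ^ (Nat.log 2 ⌊v⌋₊ + 1) : ℕ) : ℝ) := by exact_mod_cast h3
    push_cast at this
    linarith

/-- **PSM** -/
theorem specPSM (hPC : SpecPC) : SpecPSM := by
  classical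
  intro k K hK
  obtain ⟨C, hC1, hC⟩ := hPC k
  have hC0 : 0 < C := by linarith
  have hK0 : 0 < K := by linarith
  refine ⟨2 * (C * K ^ (2 * k + 2) * 2 ^ (2 * k + 2)), by positivity, ?_⟩
  intro ι lam th P y x hlam hth hinj hfar
  have hth0 : 0 < th := lt_of_lt_of_le (Real.rpow_pos_of_pos (by linarith) _) hth
  set r := (th ^ 2)⁻¹ with hr
  have hr0 : 0 < r := by positivity
  have hKr : 0 < K * r := by positivity
  set lg : ι → ℕ := fun i => Nat.log 2 ⌊‖x - y i‖ / (K * r)⌋₊ with hlg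
  have hv : ∀ i ∈ P, 1 ≤ ‖x - y i‖ / (K * r) := fun i hi => by
    rw [le_div_iff₀ hKr, one_mul]
    exact hfar i hi
  obtain ⟨M, hM⟩ : ∃ M, ∀ i ∈ P, lg i < M := by
    refine ⟨P.sup lg + 1, fun i hi => Nat.lt_succ_of_le (Finset.le_sup hi)⟩
  have h1 : ∑ i ∈ P, (K * r / ‖x - y i‖) ^ (2 * k + 3) =
      ∑ m ∈ Finset.range M, ∑ i ∈ P with lg i = m, (K * r / ‖x - y i‖) ^ (2 * k + 3) :=
    (Finset.sum_fiberwise_of_maps_to (fun i hi => Finset.mem_range.2 (hM i hi)) _).symm
  rw [h1]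
  have h2 : ∀ m, ∑ i ∈ P with lg i = m, (K * r / ‖x - y i‖) ^ (2 * k + 3) ≤
      C * K ^ (2 * k + 2) * 2 ^ (2 * k + 2) * (1 / 2) ^ m := by
    intro m
    have h3 : ((P.filter fun i => lg i = m).card : ℝ) ≤ C * (2 ^ (m + 1) * K) ^ (2 * k + 2) := by
      refine hC ι lam th (2 ^ (m + 1) * K) _ y x hlam hth ?_ ?_ ?_
      · have : (1 : ℝ) ≤ 2 ^ (m + 1) := one_le_pow₀ (by norm_num)
        nlinarith
      · intro i hi j hj
        exact hinj i (Finset.mem_filter.1 hi).1 j (Finset.mem_filter.1 hj).1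
      · intro i hi
        rw [Finset.mem_filter] at hi
        have h4 := (lev (hv i hi.1)).2
        have h5 : Nat.log 2 ⌊‖x - y i‖ / (K * r)⌋₊ = m := hi.2
        rw [h5, div_le_iff₀ hKr] at h4
        rw [norm_sub_rev]
        linarith
    have h4 : ∀ i ∈ P.filter fun i => lg i = m, (K * r / ‖x - y i‖) ^ (2 * k + 3) ≤ ((1 / 2) ^ m) ^ (2 * k + 3) := by
      intro i hi
      rw [Finset.mem_filter] at hi
      have h4 := (lev (hv i hi.1)).1
      have h5 : Nat.log 2 ⌊‖x - y i‖ / (K * r)⌋₊ = m := hi.2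
      rw [h5, le_div_iff₀ hKr] at h4
      have h6 : 0 < ‖x - y i‖ := lt_of_lt_of_le hKr (hfar i hi.1)
      refine pow_le_pow_left₀ (by positivity) ?_ _
      rw [div_le_iff₀ h6, one_div, inv_pow, inv_mul_eq_div, le_div_iff₀ (by positivity)]
      linarith
    calc _ ≤ ∑ i ∈ P with lg i = m, ((1 / 2 : ℝ) ^ m) ^ (2 * k + 3) := Finset.sum_le_sum h4
      _ = ((P.filter fun i => lg i = m).card : ℝ) * ((1 / 2 : ℝ) ^ m) ^ (2 * k + 3) := by
          rw [Finset.sum_const, nsmul_eq_mul]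
      _ ≤ (C * (2 ^ (m + 1) * K) ^ (2 * k + 2)) * ((1 / 2 : ℝ) ^ m) ^ (2 * k + 3) := by gcongr
      _ = C * K ^ (2 * k + 2) * 2 ^ (2 * k + 2) * (((2 : ℝ) ^ m * (1 / 2) ^ m) ^ (2 * k + 2) * (1 / 2) ^ m) := by
          ring
      _ = _ := by
          rw [← mul_pow, show (2 : ℝ) * (1 / 2) = 1 by norm_num, one_pow, one_pow, one_mul]
  calc _ ≤ ∑ m ∈ Finset.range M, C * K ^ (2 * k + 2) * 2 ^ (2 * k + 2) * (1 / 2) ^ m :=
        Finset.sum_le_sum fun m _ => h2 m
    _ = C * K ^ (2 * k + 2) * 2 ^ (2 * k + 2) * ∑ m ∈ Finset.range M, (1 / 2 : ℝ) ^ m := by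
        rw [Finset.mul_sum]
    _ ≤ C * K ^ (2 * k + 2) * 2 ^ (2 * k + 2) * 2 := by
        refine mul_le_mul_of_nonneg_left ?_ (by positivity)
        have h5 := summable_geometric_of_lt_one (r := (1 / 2 : ℝ)) (by norm_num) (by norm_num)
        refine (h5.sum_le_tsum _ fun m _ => by positivity).trans ?_
        rw [tsum_geometric_of_lt_one (by norm_num) (by norm_num)]
        norm_num
    _ = _ := by ring

end Pool.Agent.Lib.MP_a8dae7_an.UN.PSMM
end

section
/-!
# MP_a8dae7_an, UN: `specREC` (helper67): derivatives of a reciprocal at a point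

`1/D(p) = 1/D(q) + (1 - D(p)/D(q)) (1/D(p))` and the first factor vanishes at `p = q`: Leibniz and induction.
-/
set_option autoImplicit false

open MeasureTheory
open scoped ContDiff Topology

namespace Pool.Agent.Lib.MP_a8dae7_an.UN.RECM

open Pool.Agent.Lib.MP_a8dae7_an.CV (EE)

/-- derivatives of `1 - D/D(q)` -/
theorem lin_bd {k : ℕ} {D : EE k → ℝ} (hD : ContDiff ℝ ∞ D) (q : EE k) {i : ℕ} (hi : i ≠ 0) :
    ‖iteratedFDeriv ℝ i (fun p => 1 - (D q)⁻¹ * D p) q‖ = |D q|⁻¹ * ‖iteratedFDeriv ℝ i D q‖ := by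
  have h1 : ContDiffAt ℝ i (fun _ : EE k => (1 : ℝ)) q := contDiffAt_const
  have hDi : ContDiffAt ℝ i D q := (hD.of_le (by exact_mod_cast le_top)).contDiffAt
  have h2 : ContDiffAt ℝ i (fun p => (D q)⁻¹ * D p) q := contDiffAt_const.mul hDi
  rw [fun_iteratedFDeriv_sub_apply h1 h2, iteratedFDeriv_const_of_ne hi]
  have h3 : iteratedFDeriv ℝ i (fun p => (D q)⁻¹ * D p) q = (D q)⁻¹ • iteratedFDeriv ℝ i D q :=
    iteratedFDeriv_const_smul_apply' (a := (D q)⁻¹) hDi
  rw [h3, Pi.zero_apply, zero_sub, norm_neg, norm_smul, norm_inv, Real.norm_eq_abs]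

theorem specREC : SpecREC := by
  intro k N C0
  set K : ℝ := 2 ^ N * |C0| + 1 with hK
  have hK1 : 1 ≤ K := by
    have : 0 ≤ 2 ^ N * |C0| := by positivity
    linarith
  refine ⟨K ^ N, by positivity, ?_⟩
  intro D q D0 sig hD hD0 hsig hDq hb
  have hDq0 : D q ≠ 0 := by
    intro h
    rw [h, abs_zero] at hDq
    linarith
  have hinv : |D q|⁻¹ ≤ D0⁻¹ := by
    gcongr
  set U : Set (EE k) := {p | D p ≠ 0} with hU
  have hUo : IsOpen U := isOpen_ne_fun hD.continuous continuous_const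
  have hqU : q ∈ U := hDq0
  have hE : ContDiffOn ℝ ∞ (fun p => (D p)⁻¹) U := hD.contDiffOn.inv fun p hp => hp
  have main : ∀ j ≤ N, ‖iteratedFDeriv ℝ j (fun p => (D p)⁻¹) q‖ ≤ K ^ j * D0⁻¹ * sig⁻¹ ^ j := by
    intro j
    induction j using Nat.strong_induction_on with
    | _ j ih =>
    intro hj
    rcases Nat.eq_zero_or_pos j with h | h
    · subst h
      rw [norm_iteratedFDeriv_zero, norm_inv, Real.norm_eq_abs]
      simpa using hinv
    have hH : ContDiffOn ℝ ∞ (fun p => 1 - (D q)⁻¹ * D p) U :=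
      (contDiff_const.sub (contDiff_const.mul hD)).contDiffOn
    have e1 : (fun p => (D p)⁻¹) =ᶠ[𝓝 q] fun p => (D q)⁻¹ + (1 - (D q)⁻¹ * D p) * (D p)⁻¹ := by
      filter_upwards [hUo.mem_nhds hqU] with p hp
      have hp' : D p ≠ 0 := hp
      field_simp
      ring
    have hp1 : ContDiffAt ℝ j (fun p => (1 - (D q)⁻¹ * D p) * (D p)⁻¹) q :=
      (((hH.mul hE).contDiffAt (hUo.mem_nhds hqU)).of_le (by exact_mod_cast le_top))
    have e2 : iteratedFDeriv ℝ j (fun p => (D p)⁻¹) q =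
        iteratedFDeriv ℝ j (fun p => (1 - (D q)⁻¹ * D p) * (D p)⁻¹) q := by
      rw [(e1.iteratedFDeriv ℝ j).eq_of_nhds, fun_iteratedFDeriv_add_apply contDiffAt_const hp1,
        iteratedFDeriv_const_of_ne h.ne', Pi.zero_apply, zero_add]
    have e3 := norm_iteratedFDerivWithin_mul_le (𝕜 := ℝ) hH hE hUo.uniqueDiffOn hqU (n := j)
      (by exact_mod_cast le_top)
    rw [iteratedFDerivWithin_of_isOpen j hUo hqU] at e3
    rw [e2]
    refine e3.trans ?_
    have e4 : ∀ i ∈ Finset.range (j + 1), (j.choose i : ℝ) *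
        ‖iteratedFDerivWithin ℝ i (fun p => 1 - (D q)⁻¹ * D p) U q‖ *
        ‖iteratedFDerivWithin ℝ (j - i) (fun p => (D p)⁻¹) U q‖ ≤
        (j.choose i : ℝ) * (|C0| * K ^ (j - 1) * D0⁻¹ * sig⁻¹ ^ j) := by
      intro i hi
      have hij : i ≤ j := Nat.lt_succ_iff.1 (Finset.mem_range.1 hi)
      rw [iteratedFDerivWithin_of_isOpen i hUo hqU, iteratedFDerivWithin_of_isOpen (j - i) hUo hqU, mul_assoc]
      refine mul_le_mul_of_nonneg_left ?_ (by positivity)
      rcases Nat.eq_zero_or_pos i with h0 | h0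
      · subst h0
        have : ‖iteratedFDeriv ℝ 0 (fun p => 1 - (D q)⁻¹ * D p) q‖ = 0 := by
          rw [norm_iteratedFDeriv_zero, inv_mul_cancel₀ hDq0, sub_self, norm_zero]
        rw [this, zero_mul]
        positivity
      · have a1 : ‖iteratedFDeriv ℝ i (fun p => 1 - (D q)⁻¹ * D p) q‖ ≤ |C0| * sig⁻¹ ^ i := by
          rw [lin_bd hD q h0.ne']
          calc |D q|⁻¹ * ‖iteratedFDeriv ℝ i D q‖ ≤ D0⁻¹ * (|C0| * D0 * sig⁻¹ ^ i) := by
                gcongr
                refine (hb i (hij.trans hj)).trans ?_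
                gcongr
                exact le_abs_self C0
            _ = |C0| * sig⁻¹ ^ i := by
                field_simp
        have a2 := ih (j - i) (by omega) (by omega)
        have a3 : K ^ (j - i) ≤ K ^ (j - 1) := pow_le_pow_right₀ hK1 (by omega)
        calc ‖iteratedFDeriv ℝ i (fun p => 1 - (D q)⁻¹ * D p) q‖ * ‖iteratedFDeriv ℝ (j - i) (fun p => (D p)⁻¹) q‖
            ≤ (|C0| * sig⁻¹ ^ i) * (K ^ (j - 1) * D0⁻¹ * sig⁻¹ ^ (j - i)) := by
              gcongr
              refine a2.trans ?_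
              gcongr
          _ = |C0| * K ^ (j - 1) * D0⁻¹ * (sig⁻¹ ^ i * sig⁻¹ ^ (j - i)) := by ring
          _ = |C0| * K ^ (j - 1) * D0⁻¹ * sig⁻¹ ^ j := by
              rw [← pow_add]
              congr 2
              omega
    refine (Finset.sum_le_sum e4).trans ?_
    rw [← Finset.sum_mul]
    have e5 : (∑ i ∈ Finset.range (j + 1), (j.choose i : ℝ)) = 2 ^ j := by
      exact_mod_cast Nat.sum_range_choose j
    rw [e5]
    have e6 : (2 : ℝ) ^ j ≤ 2 ^ N := pow_le_pow_right₀ (by norm_num) hj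
    calc (2 : ℝ) ^ j * (|C0| * K ^ (j - 1) * D0⁻¹ * sig⁻¹ ^ j)
        ≤ 2 ^ N * (|C0| * K ^ (j - 1) * D0⁻¹ * sig⁻¹ ^ j) := by gcongr
      _ = (2 ^ N * |C0|) * K ^ (j - 1) * D0⁻¹ * sig⁻¹ ^ j := by ring
      _ ≤ K * K ^ (j - 1) * D0⁻¹ * sig⁻¹ ^ j := by
          gcongr
          linarith
      _ = K ^ j * D0⁻¹ * sig⁻¹ ^ j := by
          rw [← pow_succ']
          congr 3
          omega
  intro j hj
  refine (main j hj).trans ?_
  have : K ^ j ≤ K ^ N := pow_le_pow_right₀ hK1 hj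
  gcongr

end Pool.Agent.Lib.MP_a8dae7_an.UN.RECM
end

section
/-!
# The inverse of `J^* DX`, uniformly in a class of charts

`V(q) = (J^* DX(q))⁻¹`, cut off outside `‖q‖ ≤ 3 dl`; all derivatives are bounded in the class on
`‖q‖ ≤ 2 dl`. The inverse is a smooth function on the compact set of the operators `T` with
`‖T‖ ≤ M 1`, `c ‖v‖² ≤ ⟨v, T v⟩`.
-/
set_option autoImplicit false

open MeasureTheory Filter Topology
open scoped ContDiff

namespace Pool.Agent.Lib.MP_a8dae7_an.UN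

open Pool.Agent.Lib.MP_a8dae7_an.CV (EE zv ex pq pi2 AA sl bm)

namespace VFM

/-- The coercive operators. -/
def KK (k : ℕ) (c M1 : ℝ) : Set (EE k →L[ℝ] EE k) :=
  {T | ‖T‖ ≤ M1 ∧ ∀ v, c * ‖v‖ ^ 2 ≤ inner ℝ v (T v)}

theorem isCompact_KK (k : ℕ) (c M1 : ℝ) : IsCompact (KK k c M1) := by
  refine Metric.isCompact_of_isClosed_isBounded ?_ ?_
  · have : KK k c M1 = {T | ‖T‖ ≤ M1} ∩ ⋂ v, {T | c * ‖v‖ ^ 2 ≤ inner ℝ v (T v)} := by
      ext T
      simp [KK]
    rw [this]
    refine (isClosed_le continuous_norm continuous_const).inter (isClosed_iInter fun v => ?_)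
    refine isClosed_le continuous_const ?_
    exact continuous_const.inner ((ContinuousLinearMap.apply ℝ (EE k) v).continuous)
  · refine (Metric.isBounded_closedBall (x := (0 : EE k →L[ℝ] EE k)) (r := M1)).subset ?_
    intro T hT
    simpa using hT.1

theorem isUnit_of_mem {k : ℕ} {c M1 : ℝ} (hc : 0 < c) {T : EE k →L[ℝ] EE k}
    (hT : T ∈ KK k c M1) : IsUnit T := by
  rw [ContinuousLinearMap.isUnit_iff_bijective]
  have hinj : Function.Injective T := by
    rw [injective_iff_map_eq_zero]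
    intro v hv
    have := hT.2 v
    rw [hv, inner_zero_right] at this
    have h2 : ‖v‖ ^ 2 = 0 := by
      have h3 : 0 ≤ ‖v‖ ^ 2 := by positivity
      nlinarith
    simpa using h2
  refine ⟨hinj, ?_⟩
  exact (LinearMap.injective_iff_surjective (f := (T : EE k →ₗ[ℝ] EE k))).1 hinj

theorem isOpen_units (k : ℕ) : IsOpen {T : EE k →L[ℝ] EE k | IsUnit T} := Units.isOpen

theorem contDiffOn_inv (k : ℕ) :
    ContDiffOn ℝ ∞ (Ring.inverse : (EE k →L[ℝ] EE k) → (EE k →L[ℝ] EE k))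
      {T : EE k →L[ℝ] EE k | IsUnit T} := by
  intro T hT
  obtain ⟨u, rfl⟩ := hT
  exact (contDiffAt_ringInverse ℝ u).contDiffWithinAt

/-- The derivatives of the inverse are bounded on the compact set. -/
theorem inv_bound (k : ℕ) (c M1 : ℝ) (hc : 0 < c) (n : ℕ) : ∃ C : ℝ, 1 ≤ C ∧ ∀ i ≤ n,
    ∀ T ∈ KK k c M1, ‖iteratedFDerivWithin ℝ i
      (Ring.inverse : (EE k →L[ℝ] EE k) → (EE k →L[ℝ] EE k))
      {T : EE k →L[ℝ] EE k | IsUnit T} T‖ ≤ C := by
  have h1 : ∀ i : ℕ, ∃ C : ℝ, ∀ T ∈ KK k c M1, ‖iteratedFDerivWithin ℝ i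
      (Ring.inverse : (EE k →L[ℝ] EE k) → (EE k →L[ℝ] EE k))
      {T : EE k →L[ℝ] EE k | IsUnit T} T‖ ≤ C := by
    intro i
    have hcont : ContinuousOn (fun T => ‖iteratedFDerivWithin ℝ i
        (Ring.inverse : (EE k →L[ℝ] EE k) → (EE k →L[ℝ] EE k))
        {T : EE k →L[ℝ] EE k | IsUnit T} T‖) (KK k c M1) := by
      refine ContinuousOn.norm ?_
      refine ((contDiffOn_inv k).continuousOn_iteratedFDerivWithin (m := i) ?_
        (isOpen_units k).uniqueDiffOn).mono fun T hT => isUnit_of_mem hc hT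
      exact_mod_cast le_top
    obtain ⟨C, hC⟩ := (isCompact_KK k c M1).bddAbove_image hcont
    exact ⟨C, fun T hT => hC ⟨T, hT, rfl⟩⟩
  choose C hC using h1
  refine ⟨1 + ∑ i ∈ Finset.range (n + 1), |C i|, ?_, ?_⟩
  · have : 0 ≤ ∑ i ∈ Finset.range (n + 1), |C i| := Finset.sum_nonneg fun i _ => abs_nonneg _
    linarith
  · intro i hi T hT
    have h2 : |C i| ≤ ∑ i ∈ Finset.range (n + 1), |C i| :=
      Finset.single_le_sum (f := fun i => |C i|) (fun i _ => abs_nonneg _)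
        (Finset.mem_range.2 (by omega))
    have := hC i T hT
    have := le_abs_self (C i)
    linarith

section
variable {k : ℕ} {c R : ℝ} {M : ℕ → ℝ}

/-- `J^* DX(q)`. -/
noncomputable def MX (ch : UChart k c R M) (q : EE k) : EE k →L[ℝ] EE k :=
  (ContinuousLinearMap.adjoint (ch.J.toContinuousLinearMap)).comp (fderiv ℝ ch.X q)

theorem MX_smooth (ch : UChart k c R M) : ContDiff ℝ ∞ (MX ch) := by
  unfold MX
  exact contDiff_const.clm_comp (ch.smooth.fderiv_right (m := ∞) (by simp))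

theorem MX_apply (ch : UChart k c R M) (q v w : EE k) :
    inner ℝ v (MX ch q w) = inner ℝ (ch.J v) (fderiv ℝ ch.X q w) := by
  unfold MX
  rw [ContinuousLinearMap.comp_apply, ContinuousLinearMap.adjoint_inner_right]
  rfl

theorem norm_adj (ch : UChart k c R M) :
    ‖ContinuousLinearMap.adjoint (ch.J.toContinuousLinearMap)‖ ≤ 1 := by
  rw [LinearIsometryEquiv.norm_map]
  exact ch.J.norm_toContinuousLinearMap_le

theorem MX_bound (ch : UChart k c R M) (i : ℕ) (q : EE k) (hq : ‖q‖ ≤ R) :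
    ‖iteratedFDeriv ℝ i (MX ch) q‖ ≤ M (i + 1) := by
  set T : (EE k →L[ℝ] EE (k + 1)) →L[ℝ] (EE k →L[ℝ] EE k) :=
    ContinuousLinearMap.compL ℝ (EE k) (EE (k + 1)) (EE k)
      (ContinuousLinearMap.adjoint (ch.J.toContinuousLinearMap)) with hT
  have h1 : MX ch = T ∘ (fderiv ℝ ch.X) := by
    ext q v
    simp [MX, hT, ContinuousLinearMap.compL_apply]
  have hTn : ‖T‖ ≤ 1 := by
    refine ContinuousLinearMap.opNorm_le_bound _ zero_le_one fun f => ?_
    rw [hT, ContinuousLinearMap.compL_apply]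
    calc _ ≤ ‖ContinuousLinearMap.adjoint (ch.J.toContinuousLinearMap)‖ * ‖f‖ :=
          ContinuousLinearMap.opNorm_comp_le _ _
      _ ≤ 1 * ‖f‖ := by
          gcongr
          exact norm_adj ch
  have hfd : ContDiff ℝ ∞ (fderiv ℝ ch.X) := ch.smooth.fderiv_right (m := ∞) (by simp)
  rw [h1]
  calc ‖iteratedFDeriv ℝ i (T ∘ (fderiv ℝ ch.X)) q‖
      ≤ ‖T‖ * ‖iteratedFDeriv ℝ i (fderiv ℝ ch.X) q‖ :=
        T.norm_iteratedFDeriv_comp_left (N := ∞) hfd.contDiffAt (by exact_mod_cast le_top)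
    _ ≤ 1 * ‖iteratedFDeriv ℝ i (fderiv ℝ ch.X) q‖ := by gcongr
    _ = ‖iteratedFDeriv ℝ (i + 1) ch.X q‖ := by rw [one_mul, norm_iteratedFDeriv_fderiv]
    _ ≤ M (i + 1) := ch.bd (i + 1) (by omega) q hq

theorem MX_mem (ch : UChart k c R M) (q : EE k) (hq : ‖q‖ ≤ R) : MX ch q ∈ KK k c (M 1) := by
  refine ⟨?_, fun v => ?_⟩
  · have := MX_bound ch 0 q hq
    simpa using this
  · rw [MX_apply]
    exact ch.mono q v hq

end

/-- The cutoff: `1` on `‖q‖ ≤ 5/2 dl`, `0` for `‖q‖ ≥ 3 dl`. -/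
noncomputable def cu (k : ℕ) {R : ℝ} (hR : 0 < R) : ContDiffBump (0 : EE k) where
  rIn := 5 / 2 * dl k R
  rOut := 3 * dl k R
  rIn_pos := by unfold dl; positivity
  rIn_lt_rOut := by
    have : 0 < dl k R := by unfold dl; positivity
    linarith

theorem dl_pos (k : ℕ) {R : ℝ} (hR : 0 < R) : 0 < dl k R := by unfold dl; positivity

theorem four_dl_le (k : ℕ) {R : ℝ} (hR : 0 < R) : 4 * dl k R ≤ R := by
  unfold dl
  have h1 : (1 : ℝ) ≤ 32 ^ k := one_le_pow₀ (by norm_num)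
  rw [show 4 * (R / (4 * 32 ^ k)) = R / 32 ^ k by ring]
  exact div_le_self hR.le h1

/-- The vector field operator. -/
theorem vf (k : ℕ) (c R : ℝ) (M : ℕ → ℝ) (hc : Cls c R M) : ∃ C : ℕ → ℝ, (∀ n, 1 ≤ C n) ∧
    ∀ ch : UChart k c R M, ∃ V : EE k → (EE k →L[ℝ] EE k), ContDiff ℝ ∞ V ∧
      (∀ n q, ‖q‖ ≤ 2 * dl k R → ‖iteratedFDeriv ℝ n V q‖ ≤ C n) ∧
      (∀ q, V q ≠ 0 → ‖q‖ ≤ 3 * dl k R) ∧
      ∀ q, ‖q‖ ≤ 2 * dl k R → ∀ w, ContinuousLinearMap.adjoint (ch.J.toContinuousLinearMap)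
        (fderiv ℝ ch.X q (V q w)) = w := by
  have hdl := dl_pos k hc.R_pos
  have h4 := four_dl_le k hc.R_pos
  choose B hB1 hB using inv_bound k c (M 1) hc.c_pos
  set D : ℕ → ℝ := fun n => 1 + ∑ i ∈ Finset.range (n + 1), |M (i + 1)| with hD
  have hD1 : ∀ n, 1 ≤ D n := by
    intro n
    have : 0 ≤ ∑ i ∈ Finset.range (n + 1), |M (i + 1)| := Finset.sum_nonneg fun i _ => abs_nonneg _
    simp only [hD]
    linarith
  refine ⟨fun n => n.factorial * B n * D n ^ n, fun n => ?_, fun ch => ?_⟩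
  · have h1 : (1 : ℝ) ≤ n.factorial := by exact_mod_cast Nat.one_le_iff_ne_zero.2 n.factorial_ne_zero
    have h2 : 1 ≤ D n ^ n := one_le_pow₀ (hD1 n)
    have h3 := hB1 n
    calc (1 : ℝ) = 1 * 1 * 1 := by norm_num
      _ ≤ n.factorial * B n * D n ^ n := by gcongr
  set U : Set (EE k →L[ℝ] EE k) := {T | IsUnit T} with hU
  set s : Set (EE k) := Metric.ball 0 R with hs
  have hmaps : Set.MapsTo (MX ch) s U := by
    intro q hq
    have : ‖q‖ < R := by simpa [hs] using hq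
    exact isUnit_of_mem hc.c_pos (MX_mem ch q this.le)
  have hcomp : ContDiffOn ℝ ∞ (Ring.inverse ∘ MX ch) s :=
    (contDiffOn_inv k).comp (MX_smooth ch).contDiffOn hmaps
  have hopen : IsOpen s := Metric.isOpen_ball
  set V : EE k → (EE k →L[ℝ] EE k) := fun q => (cu k hc.R_pos q) • Ring.inverse (MX ch q) with hV
  have hVin : ∀ q, ‖q‖ ≤ 2 * dl k R → V =ᶠ[𝓝 q] (Ring.inverse ∘ MX ch) := by
    intro q hq
    have hb : ∀ᶠ y in 𝓝 q, y ∈ Metric.ball (0 : EE k) (5 / 2 * dl k R) := by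
      refine Metric.isOpen_ball.mem_nhds ?_
      rw [Metric.mem_ball, dist_zero_right]
      linarith
    filter_upwards [hb] with y hy
    have : cu k hc.R_pos y = 1 := by
      refine (cu k hc.R_pos).one_of_mem_closedBall ?_
      exact Metric.ball_subset_closedBall hy
    simp [hV, this]
  have hVout : ∀ q, 3 * dl k R < ‖q‖ → V =ᶠ[𝓝 q] fun _ => 0 := by
    intro q hq
    have hb : ∀ᶠ y in 𝓝 q, 3 * dl k R < ‖y‖ :=
      (continuous_norm.tendsto q).eventually (lt_mem_nhds hq)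
    filter_upwards [hb] with y hy
    have : cu k hc.R_pos y = 0 := by
      refine (cu k hc.R_pos).zero_of_le_dist ?_
      rw [dist_zero_right]
      exact hy.le
    change (cu k hc.R_pos) y • Ring.inverse (MX ch y) = 0
    rw [this]
    exact zero_smul ℝ (Ring.inverse (MX ch y))
  refine ⟨V, ?_, ?_, ?_, ?_⟩
  · rw [contDiff_iff_contDiffAt]
    intro q
    by_cases hq : ‖q‖ < R
    · refine ContDiffAt.smul (cu k hc.R_pos).contDiffAt ?_
      exact hcomp.contDiffAt (hopen.mem_nhds (by simpa [hs] using hq))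
    · have : 3 * dl k R < ‖q‖ := by
        push Not at hq
        linarith
      exact (contDiffAt_const (c := (0 : EE k →L[ℝ] EE k))).congr_of_eventuallyEq (hVout q this)
  · intro n q hq
    have hqs : q ∈ s := by
      rw [hs, Metric.mem_ball, dist_zero_right]
      linarith
    have hqR : ‖q‖ ≤ R := by linarith
    rw [(Filter.EventuallyEq.iteratedFDeriv ℝ (hVin q hq) n).self_of_nhds, ← iteratedFDerivWithin_of_isOpen n hopen hqs]
    refine norm_iteratedFDerivWithin_comp_le (N := ∞) (contDiffOn_inv k)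
      (MX_smooth ch).contDiffOn (by exact_mod_cast le_top) (isOpen_units k).uniqueDiffOn
      hopen.uniqueDiffOn hmaps hqs (fun i hi => hB n i hi _ (MX_mem ch q hqR)) ?_
    intro i hi1 hin
    rw [iteratedFDerivWithin_of_isOpen i hopen hqs]
    calc ‖iteratedFDeriv ℝ i (MX ch) q‖ ≤ M (i + 1) := MX_bound ch i q hqR
      _ ≤ |M (i + 1)| := le_abs_self _
      _ ≤ ∑ i ∈ Finset.range (n + 1), |M (i + 1)| :=
          Finset.single_le_sum (f := fun i => |M (i + 1)|) (fun i _ => abs_nonneg _)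
            (Finset.mem_range.2 (by omega))
      _ ≤ D n := by simp only [hD]; linarith
      _ ≤ D n ^ i := by
          calc D n = D n ^ 1 := (pow_one _).symm
            _ ≤ D n ^ i := pow_le_pow_right₀ (hD1 n) hi1
  · intro q hq
    by_contra hcon
    push Not at hcon
    exact hq ((hVout q hcon).self_of_nhds)
  · intro q hq w
    have hqR : ‖q‖ ≤ R := by linarith
    have h1 : V q = Ring.inverse (MX ch q) := (hVin q hq).self_of_nhds
    have hu := isUnit_of_mem hc.c_pos (MX_mem ch q hqR)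
    have h2 : MX ch q * Ring.inverse (MX ch q) = 1 := Ring.mul_inverse_cancel _ hu
    have h3 := congrArg (fun T : EE k →L[ℝ] EE k => T w) h2
    simp only [mul_apply_eq_comp, one_apply_eq_self] at h3
    rw [h1]
    exact h3

/-- Coordinates with respect to `J` and `nu`. -/
theorem decomp {k : ℕ} {c R : ℝ} {M : ℕ → ℝ} (ch : UChart k c R M) (x : EE (k + 1)) :
    x = ch.J (ContinuousLinearMap.adjoint (ch.J.toContinuousLinearMap) x) +
      (inner ℝ ch.nu x : ℝ) • ch.nu := by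
  let T : (EE k × ℝ) →ₗ[ℝ] EE (k + 1) :=
    ch.J.toLinearMap.coprod (LinearMap.toSpanSingleton ℝ _ ch.nu)
  have hT : ∀ p, T p = ch.J p.1 + p.2 • ch.nu := fun p => by
    simp [T]
  have hinj : Function.Injective T := by
    rw [injective_iff_map_eq_zero]
    intro p hp
    rw [hT] at hp
    have h1 : inner ℝ ch.nu (ch.J p.1 + p.2 • ch.nu) = 0 := by rw [hp, inner_zero_right]
    rw [inner_add_right, ch.nu_perp, inner_smul_right, real_inner_self_eq_norm_sq, ch.nu_one] at h1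
    have h2 : p.2 = 0 := by linarith
    rw [h2, zero_smul, add_zero] at hp
    have h3 : p.1 = 0 := by
      have := ch.J.norm_map p.1
      rw [hp, norm_zero] at this
      exact norm_eq_zero.1 this.symm
    exact Prod.ext h3 h2
  have hfr : Module.finrank ℝ (EE k × ℝ) = Module.finrank ℝ (EE (k + 1)) := by
    simp [EE]
  have hsur := (LinearMap.injective_iff_surjective_of_finrank_eq_finrank hfr).1 hinj
  obtain ⟨p, hp⟩ := hsur x
  rw [hT] at hp
  have hnu : inner ℝ ch.nu x = p.2 := by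
    rw [← hp, inner_add_right, ch.nu_perp, inner_smul_right, real_inner_self_eq_norm_sq, ch.nu_one]
    ring
  have hJ : ContinuousLinearMap.adjoint (ch.J.toContinuousLinearMap) x = p.1 := by
    refine ext_inner_left ℝ fun v => ?_
    rw [ContinuousLinearMap.adjoint_inner_right]
    change inner ℝ (ch.J v) x = inner ℝ v p.1
    rw [← hp, inner_add_right, ch.J.inner_map_map, inner_smul_right,
      real_inner_comm ch.nu (ch.J v), ch.nu_perp]
    ring
  rw [hnu, hJ, hp]

theorem phase {k : ℕ} {c R : ℝ} {M : ℕ → ℝ} (ch : UChart k c R M) {q : EE k} (hq : ‖q‖ ≤ R)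
    (eta : EE (k + 1)) (v : EE k) : inner ℝ eta (fderiv ℝ ch.X q v) =
      inner ℝ (ch.J (tq ch q eta)) (fderiv ℝ ch.X q v) := by
  have h := ch.perp q v hq
  rw [inner_sub_left] at h
  conv_lhs => rw [decomp ch eta]
  rw [tq, map_add, map_smul, inner_add_left, inner_add_left, inner_smul_left, inner_smul_left]
  simp only [conj_trivial]
  rw [show inner ℝ ch.nu (fderiv ℝ ch.X q v) = inner ℝ (ch.J q) (fderiv ℝ ch.X q v) by linarith]

theorem specVF : SpecVF := by
  intro k c R M hc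
  obtain ⟨C, _, hC⟩ := vf k c R M hc
  refine ⟨C, fun ch => ?_⟩
  obtain ⟨V, h1, h2, _, h4⟩ := hC ch
  refine ⟨V, h1, fun j q hq => h2 j q hq, fun q hq eta v => ?_⟩
  have h4R := four_dl_le k hc.R_pos
  have hdl := dl_pos k hc.R_pos
  have hqR : ‖q‖ ≤ R := by linarith
  rw [phase ch hqR]
  have h5 := h4 q hq v
  conv_rhs => rw [← h5]
  rw [ContinuousLinearMap.adjoint_inner_right]
  rfl

end VFM

end Pool.Agent.Lib.MP_a8dae7_an.UN
end
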