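import Pool.Agent.Lib.MP_a8dae7_an.UN.SpecA

/-!
# MP_a8dae7_an, UN: Specs, part Z (helper37): section 3, the translates with `|t_z| ≥ max(1/A, 2lam/r²)`

Every `SpecXXX` is a `def : Prop`; the module `XXX.lean` proves `theorem specXXX (...) : SpecXXX`, in its own
namespace `Pool.Agent.Lib.MP_a8dae7_an.UN.XXXM`, from the Specs named in the docstring (as hypotheses; `CX`, `LS` are in
UN/SpecB, `ASpec.SpecKN`, `ASpec.SpecSUM` in UN/SpecA, `CV.NG`, `CV.TT` in CV/Spec).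
Notation: `t_z = ⟨om, zt⟩`, `w_z = r |t_z| / lam`, `bet = lam / |t_z|`, `x = xd ... b b'`, `t = ⟨om, x⟩`, `y = P x`,
`T ≥ 1`, `r T ≤ lam` (in SUM: `T = w lam / r`, `0 < w ≤ 1`). `4 * 32 ^ (m + 1) * dl (m + 1) R = R`, so `‖sl e L sg b‖ ≤ R` when
`|sg| ≤ 2 dl`, `‖b‖ ≤ 3 dl`.
-/

set_option autoImplicit false

open MeasureTheory
open scoped ContDiff

namespace Pool.Agent.Lib.MP_a8dae7_an.UN

open Pool.Agent.Lib.MP_a8dae7_an.CV (EE zv ex pq pi2 AA sl bm OB)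

/-- the parameters of part Z; `tz = ⟨om, zt⟩` -/
structure Par (A lam r T tz : ℝ) : Prop where
  lam1 : 1 ≤ lam
  r1 : 1 ≤ r
  r3 : r ^ 3 ≤ lam ^ 2
  T1 : 1 ≤ T
  rT : r * T ≤ lam
  tA : 1 / A ≤ |tz|
  tr : 2 * lam ≤ |tz| * r ^ 2

/-- `w_z` -/
noncomputable def wz (lam r tz : ℝ) : ℝ := r * |tz| / lam

/-- the radius of the cells -/
noncomputable def wc (c9 lam r tz : ℝ) : ℝ := c9 * min 1 (wz lam r tz)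

/-- the `TT*` kernel of the cell with centre `b2` and radius `rho` (the cutoff is `1` on radius `rho`, `0` off radius `2 rho`) -/
noncomputable def JJ {m : ℕ} {c R : ℝ} {M : ℕ → ℝ} (ch : UChart (m + 1) c R M) (om : EE (m + 2)) (lam r T : ℝ)
    (e : EE (m + 1)) (L : EE m →ₗᵢ[ℝ] EE (m + 1)) (zt : EE (m + 2)) (sg sg' : ℝ) (b2 : EE m) (rho : ℝ)
    (b b'' : EE m) : ℂ :=
  ∫ x' : EE m, ((bm m ((4 * rho)⁻¹ • x') : ℝ) : ℂ) * (ks ch om lam r T e L zt sg sg' b (b2 + x') *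
    (starRingEnd ℂ) (ks ch om lam r T e L zt sg sg' b'' (b2 + x')))

/-- **EX** (120), from ASpec.SpecKN. Size of the kernel on slices. `|t - t_z| ≤ diam ≤ 1/(8A) ≤ |t_z|/8`;
`t²/(4T²) ≥ (9/64)(t_z/T)²`; `4 + (t r²/lam)² ≤ 3 (t_z r²/lam)²`. (As `JNM.ks_le`, `JFM.exp_re_le` of CV.) -/
def SpecEX : Prop := ∀ (m : ℕ) (c R A : ℝ) (M : ℕ → ℝ), 1 ≤ A → Cls c R M → ∃ C : ℝ, 1 ≤ C ∧
  ∀ (ch : UChart (m + 1) c R M), Dm ch (1 / (8 * A)) → ∀ (om : EE (m + 2)) (e : EE (m + 1))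
    (L : EE m →ₗᵢ[ℝ] EE (m + 1)), Slice ch om e L →
  ∀ (lam r T sg sg' : ℝ) (zt : EE (m + 2)) (b b' : EE m), Par A lam r T (inner ℝ om zt) →
  |sg| ≤ 2 * dl (m + 1) R → |sg'| ≤ 2 * dl (m + 1) R → ‖b‖ ≤ 3 * dl (m + 1) R → ‖b'‖ ≤ 3 * dl (m + 1) R →
  |inner ℝ om (xd ch e L zt sg sg' b b') - inner ℝ om zt| ≤ |inner ℝ om zt| / 8 ∧
  Real.exp (FF om lam r T (xd ch e L zt sg sg' b b')).re ≤
    C * (lam / |inner ℝ om zt|) ^ (((m + 1 : ℕ) : ℝ) / 2) * Real.exp (-(9 / 64 * (inner ℝ om zt / T) ^ 2) -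
      pq om (xd ch e L zt sg sg' b b') / (3 * wz lam r (inner ℝ om zt) ^ 2)) ∧
  ‖ks ch om lam r T e L zt sg sg' b b'‖ ≤
    C / T * (lam / |inner ℝ om zt|) ^ (((m + 1 : ℕ) : ℝ) / 2) * Real.exp (-(9 / 64 * (inner ℝ om zt / T) ^ 2) -
      pq om (xd ch e L zt sg sg' b b') / (3 * wz lam r (inner ℝ om zt) ^ 2))

/-- **DBU** (800, port of CV/DB, DB2; may be split: clause (1) / clauses (2), (3)). Derivative bounds in `b'`, uniform in the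
class. New against CV: the term `t²/(4T²)` (its derivatives are `≤ C |t_z|/T² ≤ C La`, and `w_z ≤ 2 La`), and `1/A` for `1`
(`1/|t|^j ≤ (2A)^(j-1)/|t|`). -/
def SpecDBU : Prop := ∀ (m : ℕ) (c R A : ℝ) (M : ℕ → ℝ), 1 ≤ A → Cls c R M → ∀ N : ℕ, ∃ C : ℝ, 1 ≤ C ∧
  ∀ (ch : UChart (m + 1) c R M), Dm ch (1 / (8 * A)) → ∀ (om : EE (m + 2)) (e : EE (m + 1))
    (L : EE m →ₗᵢ[ℝ] EE (m + 1)), Slice ch om e L →
  ∀ (lam r T La sg sg' : ℝ) (zt : EE (m + 2)) (b1 b2 b' : EE m), Par A lam r T (inner ℝ om zt) → 1 ≤ La →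
  |inner ℝ om zt| ≤ 2 * La * T → |sg| ≤ 2 * dl (m + 1) R → |sg'| ≤ 2 * dl (m + 1) R →
  ‖b1‖ ≤ 3 * dl (m + 1) R → ‖b2‖ ≤ 3 * dl (m + 1) R → ‖b'‖ ≤ 3 * dl (m + 1) R →
  pq om (xd ch e L zt sg sg' b1 b') ≤ (3 * La * wz lam r (inner ℝ om zt)) ^ 2 →
  pq om (xd ch e L zt sg sg' b2 b') ≤ (3 * La * wz lam r (inner ℝ om zt)) ^ 2 →
  (∀ j : ℕ, 1 ≤ j → j ≤ N → ‖iteratedFDeriv ℝ j (fun b => (FF om lam r T (xd ch e L zt sg sg' b1 b)).im -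
    (FF om lam r T (xd ch e L zt sg sg' b2 b)).im) b'‖ ≤ C * La ^ 4 * (lam / |inner ℝ om zt|) * ‖b1 - b2‖) ∧
  (∀ j : ℕ, 2 ≤ j → j ≤ N → ‖iteratedFDeriv ℝ j (fun b => (FF om lam r T (xd ch e L zt sg sg' b1 b)).re) b'‖ ≤
    C * La ^ 6 * (wz lam r (inner ℝ om zt))⁻¹ ^ 2) ∧
  ‖fderiv ℝ (fun b => (FF om lam r T (xd ch e L zt sg sg' b1 b)).re) b'‖ ≤
    C * La ^ 4 * (wz lam r (inner ℝ om zt))⁻¹

/-- **GBU** (450, port of CV/GB), from CX (last two clauses give `pi2 om (X q1 - X q2) (DX(q3) (q1 - q2)) ≥ (c²/2)|q1-q2|²`, by the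
mean value theorem as in CV/MO). Lower bound of the gradient of the imaginary part in the direction `b1 - b2` (`T` does not occur
in it). -/
def SpecGBU : Prop := ∀ (m : ℕ) (c R A : ℝ) (M : ℕ → ℝ), 1 ≤ A → Cls c R M → ∃ C : ℝ, 1 ≤ C ∧
  ∀ (ch : UChart (m + 1) c R M), Dm ch (1 / (8 * A)) → ∀ (om : EE (m + 2)) (e : EE (m + 1))
    (L : EE m →ₗᵢ[ℝ] EE (m + 1)), Slice ch om e L →
  ∀ (lam r T La sg sg' : ℝ) (zt : EE (m + 2)) (b1 b2 b' : EE m), Par A lam r T (inner ℝ om zt) →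
  C ≤ lam → 1 ≤ La → C * La * r ≤ lam → |sg| ≤ 2 * dl (m + 1) R → |sg'| ≤ 2 * dl (m + 1) R →
  ‖b1‖ ≤ 3 * dl (m + 1) R → ‖b2‖ ≤ 3 * dl (m + 1) R → ‖b'‖ ≤ 3 * dl (m + 1) R →
  pq om (xd ch e L zt sg sg' b1 b') ≤ (3 * La * wz lam r (inner ℝ om zt)) ^ 2 →
  pq om (xd ch e L zt sg sg' b2 b') ≤ (3 * La * wz lam r (inner ℝ om zt)) ^ 2 →
  lam / |inner ℝ om zt| * ‖b1 - b2‖ ^ 2 ≤
    C * |fderiv ℝ (fun b => (FF om lam r T (xd ch e L zt sg sg' b1 b)).im -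
      (FF om lam r T (xd ch e L zt sg sg' b2 b)).im) b' (b1 - b2)|

/-- **JFU** (700; a: balls, b: conclusion), from CV.NG, EX, DBU, GBU, CX. The `TT*` kernel on a pair of cells.
`Y² = pq (xd b1 b2)`; on the cells `| |y| - Y | ≤ w_z/4` (`c9 M_1 ≤ 1/28`, `c9 ≤ dl/8`), so `La = 2 (1 + Y/w_z)(1 + |t_z|/T)` is
admissible in DBU, GBU for all points. Rescale NG: `q = b2 + 2 wc x` (support of the cutoff in `‖x‖ ≤ 1`); balls of radius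
`rho = c La^(-4) min(wc, (bet ‖b-b''‖)^(-1/2))`; balls not meeting the support: `E = 0`; `Mx`: EX twice; `H ≥ c rho bet ‖b-b''‖ ≥
c La^(-4) (wc bet ‖b-b''‖)^(1/2)` if `wc bet ‖b-b''‖ ≥ 1` (`wc ≤ 1`). If `wc bet ‖b-b''‖ ≤ 1`, or `lam ≤ C`, or `C La r ≥ lam` (then
`r ≤ C² La²` since `r^(3/2) ≤ lam`, and `wc bet ‖b-b''‖ ≤ 2r`): trivial bound by EX. Powers of `La` are absorbed by the Gaussians
(`EX` twice: `exp(-(9/32)(t_z/T)² - Y²/(2 w_z²) + 1/8)`). -/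
def SpecJFU : Prop := ∀ (m : ℕ) (c R A : ℝ) (M : ℕ → ℝ), 1 ≤ A → Cls c R M → ∃ c9 : ℝ, 0 < c9 ∧ c9 ≤ 1 ∧
  c9 ≤ dl (m + 1) R / 8 ∧ ∀ N : ℕ, ∃ C : ℝ, 0 < C ∧
  ∀ (ch : UChart (m + 1) c R M), Dm ch (1 / (8 * A)) → ∀ (om : EE (m + 2)) (e : EE (m + 1))
    (L : EE m →ₗᵢ[ℝ] EE (m + 1)), Slice ch om e L →
  ∀ (lam r T sg sg' : ℝ) (zt : EE (m + 2)) (b1 b2 b b'' : EE m), Par A lam r T (inner ℝ om zt) →
  |sg| ≤ 2 * dl (m + 1) R → |sg'| ≤ 2 * dl (m + 1) R → ‖b1‖ ≤ 2 * dl (m + 1) R → ‖b2‖ ≤ 2 * dl (m + 1) R →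
  ‖b - b1‖ ≤ wc c9 lam r (inner ℝ om zt) → ‖b'' - b1‖ ≤ wc c9 lam r (inner ℝ om zt) →
  ‖JJ ch om lam r T e L zt sg sg' b2 (wc c9 lam r (inner ℝ om zt)) b b''‖ ≤
    C * T⁻¹ ^ 2 * (lam / |inner ℝ om zt|) ^ (m + 1) * wc c9 lam r (inner ℝ om zt) ^ m *
      Real.exp (-((inner ℝ om zt / T) ^ 2 / 16) -
        pq om (xd ch e L zt sg sg' b1 b2) / (6 * wz lam r (inner ℝ om zt) ^ 2)) *
      ((1 + wc c9 lam r (inner ℝ om zt) * (lam / |inner ℝ om zt|) * ‖b - b''‖) ^ N)⁻¹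

/-- **ZU** (150), from JFU (`N = m + 2`), CV.TT. One pair of cells. `OB` for the kernel translated to the cells: TT with radius `wc`,
cutoff `bm m ((4 wc)⁻¹ x')`; `∫ (1 + a ‖x‖)^(-(m+2)) dx ≤ C a^(-m)`; `bet^(m+1) wc^m (wc bet)^(-m) = bet`. -/
def SpecZU : Prop := ∀ (m : ℕ) (c R A : ℝ) (M : ℕ → ℝ), 1 ≤ A → Cls c R M → ∃ c9 C : ℝ, 0 < c9 ∧ c9 ≤ 1 ∧
  c9 ≤ dl (m + 1) R / 8 ∧ 0 < C ∧
  ∀ (ch : UChart (m + 1) c R M), Dm ch (1 / (8 * A)) → ∀ (om : EE (m + 2)) (e : EE (m + 1))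
    (L : EE m →ₗᵢ[ℝ] EE (m + 1)), Slice ch om e L →
  ∀ (lam r T sg sg' : ℝ) (zt : EE (m + 2)) (b1 b2 : EE m), Par A lam r T (inner ℝ om zt) →
  |sg| ≤ 2 * dl (m + 1) R → |sg'| ≤ 2 * dl (m + 1) R → ‖b1‖ ≤ 2 * dl (m + 1) R → ‖b2‖ ≤ 2 * dl (m + 1) R →
  OB m (wc c9 lam r (inner ℝ om zt)) (fun x x' => ks ch om lam r T e L zt sg sg' (b1 + x) (b2 + x'))
    (C * T⁻¹ * Real.sqrt (lam / |inner ℝ om zt|) * Real.exp (-((inner ℝ om zt / T) ^ 2 / 32) -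
      pq om (xd ch e L zt sg sg' b1 b2) / (12 * wz lam r (inner ℝ om zt) ^ 2)))

/-- **CEL** (400), from ZU, CX. Schur test over the cells for one dyadic `t` (`t ≤ |t_z| ≤ 2t`, so `w_t ≤ w_z ≤ 2 w_t`). Cubes of side
`wc(t)/(m+1)`, centres `b_i` in the fibres (only cubes meeting them), `f = ∑ f_i`, `g = ∑ g_i'`;
`∑_z |∬ K_z f_i g_i'| ≤ A_ii' ‖f_i‖ ‖g_i'‖`, rows: `∑_i' exp(-Y_ii'²/(48 w_t²)) ≤ C exp(-Y_ii0²/(96 w_t²))`, `i0 = i0(z)` the minimum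
(`|P(X(b') - X(b''))| ≥ c|b'-b''|` by CX, cells are `min(1,w_t)`-separated up to constants); the selection is `bz z = b_{i0(z)}`. -/
def SpecCEL : Prop := ∀ (m : ℕ) (c R A : ℝ) (M : ℕ → ℝ), 1 ≤ A → Cls c R M → ∃ C : ℝ, 0 < C ∧
  ∀ (ch : UChart (m + 1) c R M), Dm ch (1 / (8 * A)) → ∀ (Lt : Lat (m + 2) A) (om : EE (m + 2)) (e : EE (m + 1))
    (L : EE m →ₗᵢ[ℝ] EE (m + 1)), Slice ch om e L →
  ∀ (lam r T t S sg sg' : ℝ) (E : Set (EE (m + 1))), 1 ≤ lam → 1 ≤ r → r ^ 3 ≤ lam ^ 2 → 1 ≤ T → r * T ≤ lam →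
  1 / A ≤ t → 0 ≤ S → MeasurableSet E → |sg| ≤ 2 * dl (m + 1) R → |sg'| ≤ 2 * dl (m + 1) R →
  ∀ Z : Finset (Fin (m + 2) → ℤ), (∀ z ∈ Z, t ≤ |inner ℝ om (Lt.du z)| ∧ |inner ℝ om (Lt.du z)| ≤ 2 * t ∧
    2 * lam ≤ |inner ℝ om (Lt.du z)| * r ^ 2) →
  (∀ b ∈ fib m (2 * dl (m + 1) R) e L E sg, ∀ bz : (Fin (m + 2) → ℤ) → EE m,
    (∀ z ∈ Z, bz z ∈ fib m (2 * dl (m + 1) R) e L E sg') →
    ∑ z ∈ Z, Real.exp (-(pq om (xd ch e L (Lt.du z) sg sg' b (bz z)) / (96 * (r * t / lam) ^ 2))) ≤ S) →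
  (∀ b' ∈ fib m (2 * dl (m + 1) R) e L E sg', ∀ bz : (Fin (m + 2) → ℤ) → EE m,
    (∀ z ∈ Z, bz z ∈ fib m (2 * dl (m + 1) R) e L E sg) →
    ∑ z ∈ Z, Real.exp (-(pq om (xd ch e L (Lt.du z) sg sg' (bz z) b') / (96 * (r * t / lam) ^ 2))) ≤ S) →
  OBF m (fib m (2 * dl (m + 1) R) e L E sg) (fib m (2 * dl (m + 1) R) e L E sg') Z
    (fun z => ks ch om lam r T e L (Lt.du z) sg sg')
    (C * T⁻¹ * Real.sqrt (lam / t) * Real.exp (-((t / T) ^ 2 / 32)) * S)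

open Classical in
/-- the bound of a row, `T = w lam / r` -/
noncomputable def St (m : ℕ) (lam r w phi1 phi2 t : ℝ) : ℝ :=
  if t < w ^ 3 * (w * lam / r) then t
  else if t ≤ w * lam / r / w then
    t * (phi1 + phi2 * (r * t / lam) + Real.exp (-(768 * (r * t / lam) ^ 2)⁻¹))
  else t * (1 + r * t / lam) ^ (m + 1)

/-- **ROW** (350), from LS. Rows and columns. `‖X q - X q'‖ ≤ 1/(8A)`. Case `t < w³T`: `w_t = r t/lam ≤ w⁴ ≤ 1`, so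
`∑ ≤ ∑ exp(-pq/96) ≤ C(1+t)` (points of the dual lattice in a tube around `ℝ om`, weight decaying in `|P du z|`). Case
`w³T ≤ t ≤ T/w` (`w_t ≤ 1`): layers `2^(l-1) w_t < √pq ≤ 2^l w_t ≤ 1` by CH with `w' = 2^l w_t`, rest `√pq > 1/2`:
`exp(-1/(768 w_t²)) ∑ exp(-pq/192)`. Case `t > T/w`: `C (1+t) (1+w_t)^(m+1)`. Columns: CH for `(sg', sg)` and `-z`. -/
def SpecROW : Prop := ∀ (m : ℕ) (c R A : ℝ) (M : ℕ → ℝ), 1 ≤ A → Cls c R M → ∃ C : ℝ, 0 < C ∧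
  ∀ (ch : UChart (m + 1) c R M), Dm ch (1 / (8 * A)) → ∀ (Lt : Lat (m + 2) A) (om : EE (m + 2)) (e : EE (m + 1))
    (L : EE m →ₗᵢ[ℝ] EE (m + 1)), Slice ch om e L →
  ∀ (lam r w sg0 tau phi1 phi2 sg sg' t : ℝ) (E : Set (EE (m + 1))), 1 ≤ lam → 1 ≤ r → 0 < w → w ≤ 1 →
  1 ≤ w * lam / r → 0 ≤ phi1 → 0 ≤ phi2 → CH ch Lt om e sg0 tau E lam r w (w * lam / r) phi1 phi2 →
  |sg - sg0| ≤ tau → |sg' - sg0| ≤ tau → 1 / A ≤ t →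
  ∀ Z : Finset (Fin (m + 2) → ℤ), (∀ z ∈ Z, t ≤ |inner ℝ om (Lt.du z)| ∧ |inner ℝ om (Lt.du z)| ≤ 2 * t) →
  (∀ b ∈ fib m (2 * dl (m + 1) R) e L E sg, ∀ bz : (Fin (m + 2) → ℤ) → EE m,
    (∀ z ∈ Z, bz z ∈ fib m (2 * dl (m + 1) R) e L E sg') →
    ∑ z ∈ Z, Real.exp (-(pq om (xd ch e L (Lt.du z) sg sg' b (bz z)) / (96 * (r * t / lam) ^ 2))) ≤
      C * St m lam r w phi1 phi2 t) ∧
  (∀ b' ∈ fib m (2 * dl (m + 1) R) e L E sg', ∀ bz : (Fin (m + 2) → ℤ) → EE m,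
    (∀ z ∈ Z, bz z ∈ fib m (2 * dl (m + 1) R) e L E sg) →
    ∑ z ∈ Z, Real.exp (-(pq om (xd ch e L (Lt.du z) sg sg' (bz z) b') / (96 * (r * t / lam) ^ 2))) ≤
      C * St m lam r w phi1 phi2 t)

/-- **TSU** (250). The sum over the dyadic `t_j = 2^j/A` (numbers only; `s = t/T`, `r t/lam = w s`, `lam/T = r/w`).
`t < w³T`: `T⁻¹ √lam ∑ √t_j ≤ C T⁻¹ √lam √(w³T) = C √r w`. Middle: `√(r/w) ∑ √s e^{-s²/32} (phi1 + phi2 w s + e^{-1/(768 w² s²)})`,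
`e^{-s²/64 - 1/(768 w² s²)} ≤ C w^(3/2)`. Large: `√(r/w) ∑_{s > 1/w} √s (2s)^(m+1) e^{-s²/32} ≤ C √(r/w) w^(3/2)`. Dyadic sums
`∑_j (2^j s0)^a e^{-(2^j s0)²/64} ≤ C_a` for every `s0 > 0`, `a > 0`. -/
def SpecTSU : Prop := ∀ (m : ℕ) (A : ℝ), 1 ≤ A → ∃ C : ℝ, 0 < C ∧ ∀ lam r w phi1 phi2 : ℝ, 1 ≤ lam → 1 ≤ r →
  0 < w → w ≤ 1 → 1 ≤ w * lam / r → 0 ≤ phi1 → 0 ≤ phi2 → ∀ J : ℕ,
  ∑ j ∈ Finset.range J, (w * lam / r)⁻¹ * Real.sqrt (lam / (2 ^ j / A)) *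
      Real.exp (-((2 ^ j / A / (w * lam / r)) ^ 2 / 32)) * St m lam r w phi1 phi2 (2 ^ j / A) ≤
    C * Real.sqrt r * (w + (Real.sqrt w)⁻¹ * (phi1 + phi2 * w))

/-! **SUM** (150), from CEL, ROW, TSU: `theorem specSUM (...) : ASpec.SpecSUM` (UN/SpecA). Decompose `Z` by
`2^j/A ≤ |t_z| < 2^(j+1)/A` (`|t_z| ≥ 1/A`; `Z` is finite); `T = w lam / r`, `r T = w lam ≤ lam`. -/

end Pool.Agent.Lib.MP_a8dae7_an.UN
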