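import Pool.Agent.Lib.MP_a8dae7_an.UN.SpecB
import Pool.Agent.Lib.MP_a8dae7_an.UN.SpecZ
import Pool.Agent.Lib.MP_a8dae7_an.UN.TC
import Pool.Agent.Lib.MP_a8dae7_an.CV.SC

/-!
# MP_a8dae7_an, UN: module CEL, Schur test over the cells (`theorem specCEL : SpecCEL`)
-/

set_option autoImplicit false

open MeasureTheory
open scoped ContDiff

namespace Pool.Agent.Lib.MP_a8dae7_an.UN.CELM

open Pool.Agent.Lib.MP_a8dae7_an.CV (EE zv ex pq pi2 AA sl bm OB)
open Pool.Agent.Lib.MP_a8dae7_an.UN.CXM (pr)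

/-! ### Continuity of the kernel -/

theorem AA_re_pos (lam r t : ℝ) (hr : r ≠ 0) : 0 < (AA lam r t).re := by
  have : (AA lam r t).re = 1 / r ^ 2 := by
    unfold AA
    rw [Complex.add_re, Complex.ofReal_re, Complex.mul_re, Complex.I_re, Complex.I_im,
      Complex.ofReal_re, Complex.ofReal_im]
    ring
  rw [this]
  positivity

theorem continuous_AA (lam r : ℝ) : Continuous (AA lam r) := by
  unfold AA
  fun_prop

theorem continuous_FF {k : ℕ} (om : EE (k + 1)) (lam r T : ℝ) (hr : r ≠ 0) : Continuous (FF om lam r T) := by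
  have h0 : Continuous fun x : EE (k + 1) => AA lam r (inner ℝ om x) :=
    (continuous_AA lam r).comp (by fun_prop)
  have h1 : Continuous fun x : EE (k + 1) => Complex.log (AA lam r (inner ℝ om x)) :=
    h0.clog fun x => Or.inl (AA_re_pos lam r _ hr)
  have h2 : Continuous fun x : EE (k + 1) => ((pq om x : ℝ) : ℂ) / (4 * AA lam r (inner ℝ om x)) := by
    refine Continuous.div ?_ (continuous_const.mul h0) fun x => ?_
    · unfold pq
      fun_prop
    · refine mul_ne_zero (by norm_num) fun h => ?_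
      have := AA_re_pos lam r (inner ℝ om x) hr
      rw [h] at this
      simp at this
  unfold FF
  refine (Continuous.sub ?_ (continuous_const.mul h1)).sub h2
  fun_prop

theorem continuous_Kf {k : ℕ} (om : EE (k + 1)) (lam r T : ℝ) (hr : r ≠ 0) : Continuous (Kf om lam r T) := by
  have := continuous_FF om lam r T hr
  unfold Kf
  fun_prop

theorem continuous_ks {m : ℕ} {c R : ℝ} {M : ℕ → ℝ} (ch : UChart (m + 1) c R M) (om : EE (m + 2)) (lam r T : ℝ)
    (e : EE (m + 1)) (L : EE m →ₗᵢ[ℝ] EE (m + 1)) (zt : EE (m + 2)) (sg sg' : ℝ) (hr : r ≠ 0) :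
    Continuous (fun p : EE m × EE m => ks ch om lam r T e L zt sg sg' p.1 p.2) := by
  unfold ks
  refine (continuous_Kf om lam r T hr).comp ?_
  have hs : ∀ s : ℝ, Continuous (sl e L s) := by
    intro s
    unfold sl
    fun_prop
  unfold xd
  exact ((ch.smooth.continuous.comp ((hs sg).comp continuous_fst)).sub
    (ch.smooth.continuous.comp ((hs sg').comp continuous_snd))).add continuous_const

/-! ### The bilinear form and the decomposition into cells -/

/-- a bounded measurable function with bounded support -/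
structure BS {m : ℕ} (Ro : ℝ) (f : EE m → ℂ) : Prop where
  meas : Measurable f
  bdd : ∃ Q : ℝ, ∀ b, ‖f b‖ ≤ Q
  supp : ∀ b, Ro < ‖b‖ → f b = 0

theorem integrable_prod {m : ℕ} {Ro : ℝ} {K : EE m → EE m → ℂ} (hK : Continuous (fun p : EE m × EE m => K p.1 p.2))
    {f g : EE m → ℂ} (hf : BS Ro f) (hg : BS Ro g) :
    Integrable (fun p : EE m × EE m => K p.1 p.2 * (f p.1 * g p.2)) (volume.prod volume) := by
  obtain ⟨Mf, hMf⟩ := hf.bdd
  obtain ⟨Mg, hMg⟩ := hg.bdd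
  obtain ⟨M, hM0, hM⟩ := CV.SCM.bdd (R := Ro) (R' := Ro) hK
  have hmeas : Measurable (fun p : EE m × EE m => K p.1 p.2 * (f p.1 * g p.2)) :=
    hK.measurable.mul ((hf.meas.comp measurable_fst).mul (hg.meas.comp measurable_snd))
  have hsub : Function.support (fun p : EE m × EE m => K p.1 p.2 * (f p.1 * g p.2)) ⊆
      Metric.closedBall (0 : EE m) Ro ×ˢ Metric.closedBall (0 : EE m) Ro := by
    intro p hp
    by_contra h
    apply hp
    simp only [Set.mem_prod, Metric.mem_closedBall, dist_zero_right, not_and_or, not_le] at h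
    rcases h with h | h
    · simp [hf.supp _ h]
    · simp [hg.supp _ h]
  refine (integrableOn_iff_integrable_of_support_subset hsub).mp ?_
  refine Measure.integrableOn_of_bounded (M := M * (Mf * Mg)) ?_ hmeas.aestronglyMeasurable ?_
  · exact ((isCompact_closedBall _ _).prod (isCompact_closedBall _ _)).measure_lt_top.ne
  · refine (ae_restrict_iff' (measurableSet_closedBall.prod measurableSet_closedBall)).2
      (Filter.Eventually.of_forall fun p hp => ?_)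
    have h1 : ‖p.1‖ ≤ Ro := by simpa [Metric.mem_closedBall, dist_zero_right] using hp.1
    have h2 : ‖p.2‖ ≤ Ro := by simpa [Metric.mem_closedBall, dist_zero_right] using hp.2
    rw [norm_mul, norm_mul]
    have hMf0 : 0 ≤ Mf := (norm_nonneg _).trans (hMf 0)
    exact mul_le_mul (hM _ _ h1 h2) (mul_le_mul (hMf _) (hMg _) (norm_nonneg _) hMf0) (by positivity) hM0

/-- the bilinear form -/
noncomputable def BI {m : ℕ} (K : EE m → EE m → ℂ) (f g : EE m → ℂ) : ℂ := ∫ b, ∫ b', K b b' * (f b * g b')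

theorem BI_eq {m : ℕ} {Ro : ℝ} {K : EE m → EE m → ℂ} (hK : Continuous (fun p : EE m × EE m => K p.1 p.2))
    {f g : EE m → ℂ} (hf : BS Ro f) (hg : BS Ro g) :
    BI K f g = ∫ p : EE m × EE m, K p.1 p.2 * (f p.1 * g p.2) ∂(volume.prod volume) :=
  (integral_prod _ (integrable_prod hK hf hg)).symm

open Classical in
/-- restriction to a cell -/
noncomputable def cel {m : ℕ} (s : ℝ) (i : Fin m → ℤ) (f : EE m → ℂ) (b : EE m) : ℂ :=
  if cbl s b = i then f b else 0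

theorem measurable_cbl {m : ℕ} (s : ℝ) : Measurable (cbl s : EE m → (Fin m → ℤ)) := by
  refine measurable_pi_iff.mpr fun i => ?_
  unfold cbl
  exact Int.measurable_floor.comp ((by fun_prop : Measurable fun b : EE m => b i).div_const _)

theorem BS.cel {m : ℕ} {Ro : ℝ} {f : EE m → ℂ} (hf : BS Ro f) (s : ℝ) (i : Fin m → ℤ) : BS Ro (cel s i f) where
  meas := by
    unfold CELM.cel
    exact Measurable.ite (measurable_cbl s (measurableSet_singleton i)) hf.meas measurable_const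
  bdd := by
    obtain ⟨Q, hQ⟩ := hf.bdd
    refine ⟨Q, fun b => ?_⟩
    unfold CELM.cel
    split_ifs
    · exact hQ b
    · rw [norm_zero]; exact (norm_nonneg _).trans (hQ b)
  supp := by
    intro b hb
    unfold CELM.cel
    split_ifs
    · exact hf.supp b hb
    · rfl

theorem sum_cel {m : ℕ} {Ro s : ℝ} {f : EE m → ℂ} (hf : BS Ro f) {I : Finset (Fin m → ℤ)}
    (hI : ∀ b : EE m, ‖b‖ ≤ Ro → cbl s b ∈ I) (b : EE m) : ∑ i ∈ I, cel s i f b = f b := by
  classical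
  by_cases hb : ‖b‖ ≤ Ro
  · rw [Finset.sum_eq_single (cbl s b)]
    · unfold cel; simp
    · intro i _ hi
      unfold cel
      rw [if_neg (Ne.symm hi)]
    · intro h; exact absurd (hI b hb) h
  · rw [hf.supp b (not_le.mp hb)]
    refine Finset.sum_eq_zero fun i _ => ?_
    exact (hf.cel s i).supp b (not_le.mp hb)

theorem BI_split {m : ℕ} {Ro s : ℝ} {K : EE m → EE m → ℂ} (hK : Continuous (fun p : EE m × EE m => K p.1 p.2))
    {f g : EE m → ℂ} (hf : BS Ro f) (hg : BS Ro g) {I : Finset (Fin m → ℤ)}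
    (hI : ∀ b : EE m, ‖b‖ ≤ Ro → cbl s b ∈ I) :
    BI K f g = ∑ i ∈ I, ∑ j ∈ I, BI K (cel s i f) (cel s j g) := by
  have h1 : ∀ p : EE m × EE m, K p.1 p.2 * (f p.1 * g p.2) =
      ∑ i ∈ I, ∑ j ∈ I, K p.1 p.2 * (cel s i f p.1 * cel s j g p.2) := by
    intro p
    rw [← sum_cel hf hI p.1, ← sum_cel hg hI p.2, Finset.sum_mul_sum, Finset.mul_sum]
    refine Finset.sum_congr rfl fun i _ => ?_
    rw [Finset.mul_sum]
  rw [BI_eq hK hf hg]
  simp only [h1]
  rw [integral_finsetSum]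
  · refine Finset.sum_congr rfl fun i _ => ?_
    rw [integral_finsetSum]
    · refine Finset.sum_congr rfl fun j _ => ?_
      rw [BI_eq hK (hf.cel s i) (hg.cel s j)]
    · intro j _
      exact integrable_prod hK (hf.cel s i) (hg.cel s j)
  · intro i _
    exact integrable_finsetSum _ fun j _ => integrable_prod hK (hf.cel s i) (hg.cel s j)

theorem integrable_sq {m : ℕ} {Ro : ℝ} {f : EE m → ℂ} (hf : BS Ro f) : Integrable fun b => ‖f b‖ ^ 2 := by
  obtain ⟨Q, hQ⟩ := hf.bdd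
  have hsub : Function.support (fun b : EE m => ‖f b‖ ^ 2) ⊆ Metric.closedBall (0 : EE m) Ro := by
    intro b hb
    by_contra h
    apply hb
    simp only [Metric.mem_closedBall, dist_zero_right, not_le] at h
    simp [hf.supp b h]
  refine (integrableOn_iff_integrable_of_support_subset hsub).mp ?_
  refine Measure.integrableOn_of_bounded (M := Q ^ 2) ?_ (hf.meas.norm.pow_const 2).aestronglyMeasurable ?_
  · exact (isCompact_closedBall _ _).measure_lt_top.ne
  · refine Filter.Eventually.of_forall fun b => ?_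
    rw [Real.norm_of_nonneg (by positivity)]
    exact pow_le_pow_left₀ (norm_nonneg _) (hQ b) 2

theorem sum_sq_cel_le {m : ℕ} {Ro s : ℝ} {f : EE m → ℂ} (hf : BS Ro f) (I : Finset (Fin m → ℤ)) :
    ∑ i ∈ I, ∫ b, ‖cel s i f b‖ ^ 2 ≤ ∫ b, ‖f b‖ ^ 2 := by
  classical
  rw [← integral_finsetSum _ fun i _ => integrable_sq (hf.cel s i)]
  refine integral_mono (integrable_finsetSum _ fun i _ => integrable_sq (hf.cel s i)) (integrable_sq hf) fun b => ?_
  simp only
  have h1 : ∀ i ∈ I, ‖cel s i f b‖ ^ 2 = if cbl s b = i then ‖f b‖ ^ 2 else 0 := by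
    intro i _
    unfold cel
    split_ifs <;> simp
  rw [Finset.sum_congr rfl h1, Finset.sum_ite_eq]
  split_ifs
  · exact le_rfl
  · positivity

/-! ### One pair of cells -/

theorem ob_translate {m : ℕ} {K : EE m → EE m → ℂ} {rho B : ℝ} {b1 b2 : EE m}
    (h : OB m rho (fun x x' => K (b1 + x) (b2 + x')) B) {Ro : ℝ} {f g : EE m → ℂ} (hf : BS Ro f) (hg : BS Ro g)
    (hfs : ∀ b, rho < ‖b - b1‖ → f b = 0) (hgs : ∀ b, rho < ‖b - b2‖ → g b = 0) :
    ‖BI K f g‖ ≤ B * (Real.sqrt (∫ b, ‖f b‖ ^ 2) * Real.sqrt (∫ b, ‖g b‖ ^ 2)) := by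
  obtain ⟨Mf, hMf⟩ := hf.bdd
  obtain ⟨Mg, hMg⟩ := hg.bdd
  have h1 := h (fun x => f (b1 + x)) (fun x => g (b2 + x)) (hf.meas.comp (measurable_const_add _))
    (hg.meas.comp (measurable_const_add _)) ⟨Mf, fun b => hMf _⟩ ⟨Mg, fun b => hMg _⟩
    (fun b hb => hfs _ (by simpa using hb)) (fun b hb => hgs _ (by simpa using hb))
  have e1 : ∫ b : EE m, ‖f (b1 + b)‖ ^ 2 = ∫ b, ‖f b‖ ^ 2 :=
    integral_add_left_eq_self (fun b => ‖f b‖ ^ 2) b1
  have e2 : ∫ b : EE m, ‖g (b2 + b)‖ ^ 2 = ∫ b, ‖g b‖ ^ 2 :=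
    integral_add_left_eq_self (fun b => ‖g b‖ ^ 2) b2
  have e3 : ∫ b : EE m, ∫ b' : EE m, K (b1 + b) (b2 + b') * (f (b1 + b) * g (b2 + b')) = BI K f g := by
    unfold BI
    rw [← integral_add_left_eq_self (fun b => ∫ b', K b b' * (f b * g b')) b1]
    refine integral_congr_ae (Filter.Eventually.of_forall fun b => ?_)
    simp only
    rw [← integral_add_left_eq_self (fun b' => K (b1 + b) b' * (f (b1 + b) * g b')) b2]
  rw [e1, e2, e3] at h1
  exact h1

/-! ### Discrete Schur test -/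

theorem schur_disc {ι : Type*} (I1 I2 : Finset ι) (a : ι → ι → ℝ) (ha : ∀ i j, 0 ≤ a i j) (x y : ι → ℝ)
    (S : ℝ) (hrow : ∀ i ∈ I1, ∑ j ∈ I2, a i j ≤ S) (hcol : ∀ j ∈ I2, ∑ i ∈ I1, a i j ≤ S) :
    ∑ i ∈ I1, ∑ j ∈ I2, a i j * (x i * y j) ≤
      S * (Real.sqrt (∑ i ∈ I1, x i ^ 2) * Real.sqrt (∑ j ∈ I2, y j ^ 2)) := by
  rcases I1.eq_empty_or_nonempty with hI1 | hI1
  · subst hI1
    simp
  obtain ⟨i1, hi1⟩ := hI1
  have hS : 0 ≤ S := (Finset.sum_nonneg fun j _ => ha i1 j).trans (hrow i1 hi1)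
  have e1 : ∑ i ∈ I1, ∑ j ∈ I2, a i j * (x i * y j) =
      ∑ p ∈ I1 ×ˢ I2, (Real.sqrt (a p.1 p.2) * x p.1) * (Real.sqrt (a p.1 p.2) * y p.2) := by
    rw [Finset.sum_product]
    refine Finset.sum_congr rfl fun i _ => Finset.sum_congr rfl fun j _ => ?_
    simp only
    have := Real.mul_self_sqrt (ha i j)
    calc a i j * (x i * y j) = (Real.sqrt (a i j) * Real.sqrt (a i j)) * (x i * y j) := by rw [this]
      _ = _ := by ring
  have e2 := Real.sum_mul_le_sqrt_mul_sqrt (I1 ×ˢ I2) (fun p => Real.sqrt (a p.1 p.2) * x p.1)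
    (fun p => Real.sqrt (a p.1 p.2) * y p.2)
  have e3 : ∑ p ∈ I1 ×ˢ I2, (Real.sqrt (a p.1 p.2) * x p.1) ^ 2 ≤ S * ∑ i ∈ I1, x i ^ 2 := by
    rw [Finset.sum_product, Finset.mul_sum]
    refine Finset.sum_le_sum fun i hi => ?_
    simp only [mul_pow, Real.sq_sqrt (ha _ _)]
    rw [← Finset.sum_mul]
    exact mul_le_mul_of_nonneg_right (hrow i hi) (sq_nonneg _)
  have e4 : ∑ p ∈ I1 ×ˢ I2, (Real.sqrt (a p.1 p.2) * y p.2) ^ 2 ≤ S * ∑ j ∈ I2, y j ^ 2 := by
    rw [Finset.sum_product_right, Finset.mul_sum]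
    refine Finset.sum_le_sum fun j hj => ?_
    simp only [mul_pow, Real.sq_sqrt (ha _ _)]
    rw [← Finset.sum_mul]
    exact mul_le_mul_of_nonneg_right (hcol j hj) (sq_nonneg _)
  rw [e1]
  refine e2.trans ((mul_le_mul (Real.sqrt_le_sqrt e3) (Real.sqrt_le_sqrt e4) (Real.sqrt_nonneg _)
    (Real.sqrt_nonneg _)).trans (le_of_eq ?_))
  rw [Real.sqrt_mul hS, Real.sqrt_mul hS]
  have := Real.mul_self_sqrt hS
  calc Real.sqrt S * Real.sqrt (∑ i ∈ I1, x i ^ 2) * (Real.sqrt S * Real.sqrt (∑ j ∈ I2, y j ^ 2)) =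
      (Real.sqrt S * Real.sqrt S) * (Real.sqrt (∑ i ∈ I1, x i ^ 2) * Real.sqrt (∑ j ∈ I2, y j ^ 2)) := by ring
    _ = _ := by rw [this]

/-! ### Labels -/

theorem exists_labels {m : ℕ} {s : ℝ} (hs : 0 < s) (Ro : ℝ) :
    ∃ I : Finset (Fin m → ℤ), ∀ b : EE m, ‖b‖ ≤ Ro → cbl s b ∈ I := by
  refine ⟨Fintype.piFinset fun _ => Finset.Icc ⌊-Ro / s⌋ ⌊Ro / s⌋, fun b hb => ?_⟩
  rw [Fintype.mem_piFinset]
  intro i
  have h1 : |b i| ≤ Ro := by
    have := EuclideanSpace.norm_eq b ▸ hb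
    exact (PiLp.norm_apply_le b i).trans hb
  have h2 := abs_le.mp h1
  rw [Finset.mem_Icc]
  unfold cbl
  constructor
  · refine Int.floor_le_floor ?_
    gcongr
    exact h2.1
  · refine Int.floor_le_floor ?_
    gcongr
    exact h2.2

theorem norm_sub_le_of_cbl_eq {m : ℕ} {s : ℝ} (hs : 0 < s) {b b' : EE m} (h : cbl s b = cbl s b') :
    ‖b - b'‖ ≤ (m + 1) * s := by
  have h1 : ∀ i, (b i - b' i) ^ 2 ≤ s ^ 2 := by
    intro i
    have h2 : ⌊b i / s⌋ = ⌊b' i / s⌋ := congrFun h i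
    have h3 := Int.abs_sub_lt_one_of_floor_eq_floor h2
    rw [← sub_div, abs_div, abs_of_pos hs, div_lt_one hs] at h3
    rw [← sq_abs (b i - b' i)]
    exact pow_le_pow_left₀ (abs_nonneg _) h3.le 2
  have h4 : ‖b - b'‖ ^ 2 ≤ ((m + 1) * s) ^ 2 := by
    rw [EuclideanSpace.norm_sq_eq]
    calc ∑ i, ‖(b - b') i‖ ^ 2 ≤ ∑ _i : Fin m, s ^ 2 := by
          refine Finset.sum_le_sum fun i _ => ?_
          rw [Real.norm_eq_abs, sq_abs]
          exact h1 i
      _ = m * s ^ 2 := by simp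
      _ ≤ ((m + 1) * s) ^ 2 := by
          have : (0:ℝ) ≤ m := by positivity
          nlinarith [sq_nonneg s, mul_nonneg this (sq_nonneg s), mul_nonneg this (mul_nonneg this (sq_nonneg s))]
  exact (pow_le_pow_iff_left₀ (norm_nonneg _) (by positivity) two_ne_zero).mp h4

/-! ### The sum over the cells of one slice -/

/-- the weight in one coordinate -/
noncomputable def ph (a : ℝ) (n : ℤ) : ℝ := Real.exp (-(a * (max (|(n : ℝ)| - 1) 0) ^ 2))

theorem ph_le {a : ℝ} (ha : 0 < a) (n : ℤ) : ph a n ≤ Real.exp (3 * a) * Real.exp (-(2 * a * |(n : ℝ)|)) := by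
  unfold ph
  rw [← Real.exp_add]
  refine Real.exp_le_exp.mpr ?_
  rcases le_total (|(n : ℝ)| - 1) 0 with h | h
  · rw [max_eq_right h]
    nlinarith [mul_nonneg ha.le (sub_nonneg.mpr (sub_nonpos.mp h))]
  · rw [max_eq_left h]
    nlinarith [mul_nonneg ha.le (sq_nonneg (|(n : ℝ)| - 2))]

theorem summable_ph {a : ℝ} (ha : 0 < a) : Summable (ph a) := by
  have h1 : Summable fun n : ℕ => Real.exp (3 * a) * Real.exp (-(2 * a * |((n : ℤ) : ℝ)|)) := by
    refine Summable.mul_left _ ?_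
    have h2 : Summable fun n : ℕ => Real.exp ((n : ℝ) * (-(2 * a))) :=
      Real.summable_exp_nat_mul_iff.mpr (by linarith)
    refine h2.congr fun n => ?_
    congr 1
    push_cast
    rw [abs_of_nonneg (by positivity)]
    ring
  refine Summable.of_nat_of_neg ?_ ?_
  · exact Summable.of_nonneg_of_le (fun n => (Real.exp_pos _).le) (fun n => ph_le ha n) h1
  · refine Summable.of_nonneg_of_le (fun n => (Real.exp_pos _).le) (fun n => (ph_le ha (-(n : ℤ))).trans
      (le_of_eq ?_)) h1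
    push_cast
    rw [abs_neg]

theorem sum_prod_ph_le {m : ℕ} {a : ℝ} (ha : 0 < a) (I : Finset (Fin m → ℤ)) (i0 : Fin m → ℤ) :
    ∑ i ∈ I, ∏ k, ph a (i k - i0 k) ≤ (∑' n, ph a n) ^ m := by
  classical
  have h0 : ∀ n, 0 ≤ ph a n := fun n => (Real.exp_pos _).le
  have h1 : I ⊆ Fintype.piFinset fun k => I.image fun i => i k := by
    intro i hi
    rw [Fintype.mem_piFinset]
    intro k
    exact Finset.mem_image_of_mem _ hi
  calc ∑ i ∈ I, ∏ k, ph a (i k - i0 k) ≤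
      ∑ i ∈ Fintype.piFinset (fun k => I.image fun i => i k), ∏ k, ph a (i k - i0 k) :=
        Finset.sum_le_sum_of_subset_of_nonneg h1 fun i _ _ => Finset.prod_nonneg fun k _ => h0 _
    _ = ∏ k, ∑ n ∈ I.image (fun i => i k), ph a (n - i0 k) :=
        (Finset.prod_univ_sum (fun k => I.image fun i => i k) fun k n => ph a (n - i0 k)).symm
    _ ≤ ∏ _k : Fin m, ∑' n, ph a n := by
        refine Finset.prod_le_prod (fun k _ => Finset.sum_nonneg fun n _ => h0 _) fun k _ => ?_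
        have h2 : Summable fun n : ℤ => ph a (n - i0 k) :=
          (Equiv.subRight (i0 k)).summable_iff.mpr (summable_ph ha)
        have h3 : ∑' n : ℤ, ph a (n - i0 k) = ∑' n, ph a n := (Equiv.subRight (i0 k)).tsum_eq (ph a)
        rw [← h3]
        exact h2.sum_le_tsum _ fun n _ => h0 _
    _ = _ := by simp

theorem le_norm_sub_of_cbl {m : ℕ} {s : ℝ} (hs : 0 < s) (b b' : EE m) :
    s ^ 2 * ∑ k, (max (|((cbl s b k - cbl s b' k : ℤ) : ℝ)| - 1) 0) ^ 2 ≤ ‖b - b'‖ ^ 2 := by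
  rw [EuclideanSpace.norm_sq_eq, Finset.mul_sum]
  refine Finset.sum_le_sum fun k _ => ?_
  rw [← mul_pow, Real.norm_eq_abs]
  refine pow_le_pow_left₀ (mul_nonneg hs.le (le_max_right _ _)) ?_ 2
  have h1 := Int.floor_le (b k / s)
  have h2 := Int.lt_floor_add_one (b k / s)
  have h3 := Int.floor_le (b' k / s)
  have h4 := Int.lt_floor_add_one (b' k / s)
  have h5 : |((cbl s b k - cbl s b' k : ℤ) : ℝ)| - 1 ≤ |b k / s - b' k / s| := by
    unfold cbl
    push_cast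
    rcases abs_cases ((⌊b k / s⌋ : ℝ) - (⌊b' k / s⌋ : ℝ)) with h | h <;>
    rcases abs_cases (b k / s - b' k / s) with h' | h' <;> linarith [h.1, h'.1]
  have h6 : |b k / s - b' k / s| = |(b - b') k| / s := by
    rw [← sub_div, abs_div, abs_of_pos hs]
    rfl
  rw [h6] at h5
  rcases le_total (|((cbl s b k - cbl s b' k : ℤ) : ℝ)| - 1) 0 with h | h
  · rw [max_eq_right h, mul_zero]
    positivity
  · rw [max_eq_left h]
    rw [le_div_iff₀ hs] at h5
    linarith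

theorem rowsum (m : ℕ) (c9 c : ℝ) (hc9 : 0 < c9) (hc : 0 < c) : ∃ C1 : ℝ, 0 < C1 ∧ ∀ w : ℝ, 0 < w →
    ∀ (I : Finset (Fin m → ℤ)) (p : (Fin m → ℤ) → EE m) (Y : (Fin m → ℤ) → ℝ),
    (∀ i ∈ I, cbl (c9 * min 1 w / (m + 1)) (p i) = i) → (∀ i ∈ I, ‖p i‖ ≤ 1 / 2) → (∀ i ∈ I, 0 ≤ Y i) →
    (∀ i ∈ I, ∀ j ∈ I, c * ‖p i - p j‖ ≤ Y i + Y j) → I.Nonempty →
    ∃ i0 ∈ I, ∑ i ∈ I, Real.exp (-(Y i ^ 2 / (48 * w ^ 2))) ≤ C1 * Real.exp (-(Y i0 ^ 2 / (96 * w ^ 2))) := by
  set ka : ℝ := c9 / (m + 1) with hka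
  have hka0 : 0 < ka := by positivity
  set a : ℝ := c ^ 2 * ka ^ 2 / 384 with ha
  have ha0 : 0 < a := by positivity
  refine ⟨Real.exp (c ^ 2 / 384) * (∑' n, ph a n) ^ m + 1, ?_, ?_⟩
  · have : 0 ≤ ∑' n, ph a n := tsum_nonneg fun n => (Real.exp_pos _).le
    positivity
  intro w hw I p Y hlab hp hY hd hI
  obtain ⟨i0, hi0, hmin⟩ := I.exists_min_image Y hI
  refine ⟨i0, hi0, ?_⟩
  have hw2 : 0 < w ^ 2 := by positivity
  -- one term
  have key : ∀ i ∈ I, Real.exp (-(Y i ^ 2 / (48 * w ^ 2))) ≤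
      Real.exp (-(Y i0 ^ 2 / (96 * w ^ 2))) * (Real.exp (c ^ 2 / 384) * ∏ k, ph a (i k - i0 k)) := by
    intro i hi
    have h1 : c * ‖p i - p i0‖ ≤ 2 * Y i := by linarith [hd i hi i0 hi0, hmin i hi]
    have h2 : c ^ 2 * ‖p i - p i0‖ ^ 2 ≤ 4 * Y i ^ 2 := by
      have := pow_le_pow_left₀ (by positivity) h1 2
      nlinarith
    have h3 : Y i0 ^ 2 ≤ Y i ^ 2 := pow_le_pow_left₀ (hY i0 hi0) (hmin i hi) 2
    -- the distance
    set s : ℝ := c9 * min 1 w / (m + 1) with hs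
    have hmin1 : 0 < min 1 w := lt_min one_pos hw
    have hs0 : 0 < s := by positivity
    have hsk : s = ka * min 1 w := by rw [hs, hka]; ring
    set D : ℝ := ∑ k, (max (|((i k - i0 k : ℤ) : ℝ)| - 1) 0) ^ 2 with hD
    have h4 : s ^ 2 * D ≤ ‖p i - p i0‖ ^ 2 := by
      have := le_norm_sub_of_cbl hs0 (p i) (p i0)
      rw [hlab i hi, hlab i0 hi0] at this
      exact this
    have h5 : ∏ k, ph a (i k - i0 k) = Real.exp (-(a * D)) := by
      unfold ph
      rw [← Real.exp_sum, hD, Finset.mul_sum, ← Finset.sum_neg_distrib]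
    rw [h5, ← Real.exp_add, ← Real.exp_add]
    refine Real.exp_le_exp.mpr ?_
    have h6 : a * D ≤ Y i ^ 2 / (96 * w ^ 2) + c ^ 2 / 384 := by
      rcases le_total w 1 with hw1 | hw1
      · rw [min_eq_right hw1] at hsk
        have h7 : c ^ 2 * (ka ^ 2 * w ^ 2 * D) ≤ 4 * Y i ^ 2 := by
          refine le_trans ?_ h2
          refine mul_le_mul_of_nonneg_left ?_ (by positivity)
          rw [← mul_pow, ← hsk]
          exact h4
        have h8 : a * D ≤ Y i ^ 2 / (96 * w ^ 2) := by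
          rw [le_div_iff₀ (by positivity), ha]
          nlinarith
        have : 0 ≤ c ^ 2 / 384 := by positivity
        linarith
      · rw [min_eq_left hw1] at hsk
        have h7 : ‖p i - p i0‖ ≤ 1 := by
          have := norm_sub_le (p i) (p i0)
          linarith [hp i hi, hp i0 hi0]
        have h8 : ka ^ 2 * D ≤ 1 := by
          have h9 : ‖p i - p i0‖ ^ 2 ≤ 1 := pow_le_one₀ (norm_nonneg _) h7
          rw [hsk, mul_one] at h4
          linarith
        have h9 : a * D ≤ c ^ 2 / 384 := by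
          rw [ha]
          nlinarith [sq_nonneg c]
        have : 0 ≤ Y i ^ 2 / (96 * w ^ 2) := by positivity
        linarith
    have h7 : Y i0 ^ 2 / (96 * w ^ 2) ≤ Y i ^ 2 / (96 * w ^ 2) := by gcongr
    have h8 : Y i ^ 2 / (48 * w ^ 2) = Y i ^ 2 / (96 * w ^ 2) + Y i ^ 2 / (96 * w ^ 2) := by
      field_simp
      ring
    linarith
  calc ∑ i ∈ I, Real.exp (-(Y i ^ 2 / (48 * w ^ 2))) ≤
      ∑ i ∈ I, Real.exp (-(Y i0 ^ 2 / (96 * w ^ 2))) * (Real.exp (c ^ 2 / 384) * ∏ k, ph a (i k - i0 k)) :=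
        Finset.sum_le_sum key
    _ = (Real.exp (c ^ 2 / 384) * ∑ i ∈ I, ∏ k, ph a (i k - i0 k)) * Real.exp (-(Y i0 ^ 2 / (96 * w ^ 2))) := by
        rw [← Finset.mul_sum, ← Finset.mul_sum]
        ring
    _ ≤ _ := by
        refine mul_le_mul_of_nonneg_right ?_ (Real.exp_pos _).le
        have := mul_le_mul_of_nonneg_left (sum_prod_ph_le ha0 I i0) (Real.exp_pos (c ^ 2 / 384)).le
        linarith

/-! ### Geometry -/

theorem dl_pos {k : ℕ} {R : ℝ} (hR : 0 < R) : 0 < dl k R := by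
  unfold dl
  positivity

theorem dl_le {k : ℕ} {R : ℝ} (hR : 0 < R) : 128 * dl (k + 1) R ≤ R := by
  unfold dl
  have h1 : (1 : ℝ) ≤ 32 ^ k := one_le_pow₀ (by norm_num)
  have h2 : R / (4 * 32 ^ (k + 1)) = R / 128 / 32 ^ k := by
    rw [pow_succ]
    field_simp
    ring
  rw [h2]
  have h3 : R / 128 / 32 ^ k ≤ R / 128 := div_le_self (by positivity) h1
  linarith

theorem sl_sub {m : ℕ} (e : EE (m + 1)) (L : EE m →ₗᵢ[ℝ] EE (m + 1)) (sg : ℝ) (b b' : EE m) :
    sl e L sg b - sl e L sg b' = L (b - b') := by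
  unfold sl
  rw [map_sub]
  abel

theorem pr_dist {m : ℕ} {c R : ℝ} {M : ℕ → ℝ} (hCX : SpecCX) (hc : Cls c R M) {ch : UChart (m + 1) c R M}
    {om : EE (m + 2)} {e : EE (m + 1)} {L : EE m →ₗᵢ[ℝ] EE (m + 1)} (hS : Slice ch om e L) {sg : ℝ} {b b' : EE m}
    (hb : ‖sl e L sg b‖ ≤ R) (hb' : ‖sl e L sg b'‖ ≤ R) :
    c * ‖b - b'‖ ≤ ‖pr om (ch.X (sl e L sg b) - ch.X (sl e L sg b'))‖ := by
  have h1 := (hCX (m + 1) c R M hc ch (sl e L sg b') (sl e L sg b) hb' hb).2.2.2.2.2.2 om hS.om_one (by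
    rw [sl_sub]
    exact hS.omL _)
  rw [sl_sub, L.norm_map, ← CXM.norm_pr_sq om _ hS.om_one, ← mul_pow] at h1
  exact (pow_le_pow_iff_left₀ (mul_nonneg hc.c_pos.le (norm_nonneg _)) (norm_nonneg _) two_ne_zero).mp h1

open Classical in
/-- a point of `F` in the cell `i` -/
noncomputable def rep {m : ℕ} (F : Set (EE m)) (s : ℝ) (i : Fin m → ℤ) : EE m :=
  if h : ∃ b ∈ F, cbl s b = i then h.choose else 0

theorem rep_spec {m : ℕ} {F : Set (EE m)} {s : ℝ} {i : Fin m → ℤ} (h : ∃ b ∈ F, cbl s b = i) :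
    rep F s i ∈ F ∧ cbl s (rep F s i) = i := by
  unfold rep
  rw [dif_pos h]
  exact h.choose_spec

/-- **CEL** -/
theorem specCEL (hZU : SpecZU) (hCX : SpecCX) : SpecCEL := by
  classical
  intro m c R A M hA hc
  obtain ⟨c9, C0, hc9, hc91, hc9d, hC0, hZ⟩ := hZU m c R A M hA hc
  obtain ⟨C1, hC1, hrs⟩ := rowsum m c9 c hc9 hc.c_pos
  refine ⟨C0 * C1, by positivity, ?_⟩
  intro ch hdm Lt om e L hS lam r T t S sg sg' E hlam hr hr3 hT hrT htA hS0 hE hsg hsg' Z hZm hrowS hcolS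
    f g hfm hgm hfb hgb hfs hgs
  have hR := hc.R_pos
  have hdR := dl_pos (k := m + 1) hR
  have hdR2 := dl_le (k := m) hR
  have hR1 := hc.R_le
  set dR : ℝ := dl (m + 1) R with hdRdef
  set F : Set (EE m) := fib m (2 * dR) e L E sg with hF
  set F' : Set (EE m) := fib m (2 * dR) e L E sg' with hF'
  have hlam0 : 0 < lam := by linarith
  have hr0 : 0 < r := by linarith
  have hA0 : 0 < A := by linarith
  have ht0 : 0 < t := lt_of_lt_of_le (by positivity) htA
  have hT0 : 0 < T := by linarith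
  set w : ℝ := r * t / lam with hw
  have hw0 : 0 < w := by positivity
  have hm1 : 0 < min 1 w := lt_min one_pos hw0
  set s : ℝ := c9 * min 1 w / (m + 1) with hs
  have hs0 : 0 < s := by positivity
  have hfBS : BS (2 * dR) f := ⟨hfm, hfb, fun b hb => hfs b fun h => absurd h.1 (not_le.mpr hb)⟩
  have hgBS : BS (2 * dR) g := ⟨hgm, hgb, fun b hb => hgs b fun h => absurd h.1 (not_le.mpr hb)⟩
  obtain ⟨I, hI⟩ := exists_labels (m := m) hs0 (2 * dR)
  set I1 : Finset (Fin m → ℤ) := I.filter fun i => ∃ b ∈ F, cbl s b = i with hI1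
  set I2 : Finset (Fin m → ℤ) := I.filter fun i => ∃ b ∈ F', cbl s b = i with hI2
  set p1 : (Fin m → ℤ) → EE m := rep F s with hp1
  set p2 : (Fin m → ℤ) → EE m := rep F' s with hp2
  have hp1m : ∀ i ∈ I1, p1 i ∈ F ∧ cbl s (p1 i) = i := fun i hi => rep_spec (Finset.mem_filter.mp hi).2
  have hp2m : ∀ i ∈ I2, p2 i ∈ F' ∧ cbl s (p2 i) = i := fun i hi => rep_spec (Finset.mem_filter.mp hi).2
  set Y : (Fin (m + 2) → ℤ) → (Fin m → ℤ) → (Fin m → ℤ) → ℝ := fun z i j =>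
    ‖pr om (xd ch e L (Lt.du z) sg sg' (p1 i) (p2 j))‖ with hY
  set x : (Fin m → ℤ) → ℝ := fun i => Real.sqrt (∫ b, ‖cel s i f b‖ ^ 2) with hx
  set y : (Fin m → ℤ) → ℝ := fun i => Real.sqrt (∫ b, ‖cel s i g b‖ ^ 2) with hy
  set D : ℝ := C0 * T⁻¹ * Real.sqrt (lam / t) * Real.exp (-((t / T) ^ 2 / 32)) with hD
  have hD0 : 0 ≤ D := by positivity
  have hms : (m + 1) * s = c9 * min 1 w := by
    rw [hs]
    field_simp
  -- one z
  have one : ∀ z ∈ Z, ‖BI (ks ch om lam r T e L (Lt.du z) sg sg') f g‖ ≤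
      ∑ i ∈ I1, ∑ j ∈ I2, D * Real.exp (-(Y z i j ^ 2 / (48 * w ^ 2))) * (x i * y j) := by
    intro z hz
    obtain ⟨hz1, hz2, hz3⟩ := hZm z hz
    have hK := continuous_ks ch om lam r T e L (Lt.du z) sg sg' hr0.ne'
    have hPar : Par A lam r T (inner ℝ om (Lt.du z)) := ⟨hlam, hr, hr3, hT, hrT, htA.trans hz1, hz3⟩
    rw [BI_split hK hfBS hgBS hI]
    refine (norm_sum_le _ _).trans ?_
    have e1 : ∑ i ∈ I1, ‖∑ j ∈ I, BI (ks ch om lam r T e L (Lt.du z) sg sg') (cel s i f) (cel s j g)‖ =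
        ∑ i ∈ I, ‖∑ j ∈ I, BI (ks ch om lam r T e L (Lt.du z) sg sg') (cel s i f) (cel s j g)‖ := by
      rw [hI1]
      refine Finset.sum_filter_of_ne fun i _ hne => ?_
      by_contra h
      apply hne
      have : ∀ b, cel s i f b = 0 := by
        intro b
        unfold cel
        split_ifs with hb
        · exact hfs b fun hbF => h ⟨b, hbF, hb⟩
        · rfl
      have : ∀ j, BI (ks ch om lam r T e L (Lt.du z) sg sg') (cel s i f) (cel s j g) = 0 := by
        intro j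
        unfold BI
        simp [this]
      simp [this]
    rw [← e1]
    refine Finset.sum_le_sum fun i hi => ?_
    refine (norm_sum_le _ _).trans ?_
    have e2 : ∑ j ∈ I2, ‖BI (ks ch om lam r T e L (Lt.du z) sg sg') (cel s i f) (cel s j g)‖ =
        ∑ j ∈ I, ‖BI (ks ch om lam r T e L (Lt.du z) sg sg') (cel s i f) (cel s j g)‖ := by
      rw [hI2]
      refine Finset.sum_filter_of_ne fun j _ hne => ?_
      by_contra h
      apply hne
      have : ∀ b, cel s j g b = 0 := by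
        intro b
        unfold cel
        split_ifs with hb
        · exact hgs b fun hbF => h ⟨b, hbF, hb⟩
        · rfl
      unfold BI
      simp [this]
    rw [← e2]
    refine Finset.sum_le_sum fun j hj => ?_
    obtain ⟨hiF, hil⟩ := hp1m i hi
    obtain ⟨hjF, hjl⟩ := hp2m j hj
    have hwz : w ≤ wz lam r (inner ℝ om (Lt.du z)) := by
      unfold wz
      rw [hw]
      gcongr
    have hwz2 : wz lam r (inner ℝ om (Lt.du z)) ≤ 2 * w := by
      unfold wz
      rw [hw, show 2 * (r * t / lam) = r * (2 * t) / lam by ring]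
      gcongr
    have hwc : c9 * min 1 w ≤ wc c9 lam r (inner ℝ om (Lt.du z)) := by
      unfold wc
      gcongr
    have h1 := ob_translate (hZ ch hdm om e L hS lam r T sg sg' (Lt.du z) (p1 i) (p2 j) hPar hsg hsg' hiF.1
      hjF.1) (hfBS.cel s i) (hgBS.cel s j) (fun b hb => by
        unfold cel
        split_ifs with h
        · exfalso
          have := norm_sub_le_of_cbl_eq hs0 (h.trans hil.symm)
          rw [hms] at this
          linarith
        · rfl) (fun b hb => by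
        unfold cel
        split_ifs with h
        · exfalso
          have := norm_sub_le_of_cbl_eq hs0 (h.trans hjl.symm)
          rw [hms] at this
          linarith
        · rfl)
    refine h1.trans ?_
    refine mul_le_mul_of_nonneg_right ?_ (mul_nonneg (Real.sqrt_nonneg _) (Real.sqrt_nonneg _))
    have hz0 : 0 < |(inner ℝ om (Lt.du z) : ℝ)| := by linarith
    have h2 : Real.sqrt (lam / |(inner ℝ om (Lt.du z) : ℝ)|) ≤ Real.sqrt (lam / t) :=
      Real.sqrt_le_sqrt (by gcongr)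
    have hpq : pq om (xd ch e L (Lt.du z) sg sg' (p1 i) (p2 j)) = Y z i j ^ 2 :=
      (CXM.norm_pr_sq om _ hS.om_one).symm
    have h3 : Real.exp (-((inner ℝ om (Lt.du z) / T) ^ 2 / 32) -
        pq om (xd ch e L (Lt.du z) sg sg' (p1 i) (p2 j)) / (12 * wz lam r (inner ℝ om (Lt.du z)) ^ 2)) ≤
        Real.exp (-((t / T) ^ 2 / 32)) * Real.exp (-(Y z i j ^ 2 / (48 * w ^ 2))) := by
      rw [← Real.exp_add]
      refine Real.exp_le_exp.mpr ?_
      have h4 : (t / T) ^ 2 ≤ (inner ℝ om (Lt.du z) / T) ^ 2 := by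
        rw [div_pow, div_pow, ← sq_abs (inner ℝ om (Lt.du z) : ℝ)]
        gcongr
      have h5 : Y z i j ^ 2 / (48 * w ^ 2) ≤
          pq om (xd ch e L (Lt.du z) sg sg' (p1 i) (p2 j)) / (12 * wz lam r (inner ℝ om (Lt.du z)) ^ 2) := by
        rw [hpq]
        have h6 : 12 * wz lam r (inner ℝ om (Lt.du z)) ^ 2 ≤ 48 * w ^ 2 := by
          have h7 : wz lam r (inner ℝ om (Lt.du z)) ^ 2 ≤ (2 * w) ^ 2 :=
            pow_le_pow_left₀ (by linarith) hwz2 2
          nlinarith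
        have h8 : 0 < wz lam r (inner ℝ om (Lt.du z)) := by linarith
        gcongr
      linarith
    calc C0 * T⁻¹ * Real.sqrt (lam / |(inner ℝ om (Lt.du z) : ℝ)|) *
          Real.exp (-((inner ℝ om (Lt.du z) / T) ^ 2 / 32) -
          pq om (xd ch e L (Lt.du z) sg sg' (p1 i) (p2 j)) / (12 * wz lam r (inner ℝ om (Lt.du z)) ^ 2)) ≤
        C0 * T⁻¹ * Real.sqrt (lam / t) *
          (Real.exp (-((t / T) ^ 2 / 32)) * Real.exp (-(Y z i j ^ 2 / (48 * w ^ 2)))) := by gcongr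
      _ = D * Real.exp (-(Y z i j ^ 2 / (48 * w ^ 2))) := by rw [hD]; ring
  -- norms in the slices
  have hF1 : ∀ b ∈ F, ‖b‖ ≤ 1 / 2 ∧ ‖sl e L sg b‖ ≤ R := fun b hb =>
    ⟨by linarith [hb.1], by linarith [hb.2.1]⟩
  have hF2 : ∀ b ∈ F', ‖b‖ ≤ 1 / 2 ∧ ‖sl e L sg' b‖ ≤ R := fun b hb =>
    ⟨by linarith [hb.1], by linarith [hb.2.1]⟩
  have hrow : ∀ i ∈ I1, ∑ j ∈ I2, ∑ z ∈ Z, Real.exp (-(Y z i j ^ 2 / (48 * w ^ 2))) ≤ C1 * S := by
    intro i hi
    rw [Finset.sum_comm]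
    rcases I2.eq_empty_or_nonempty with hE2 | hE2
    · rw [hE2]
      simp only [Finset.sum_empty, Finset.sum_const_zero]
      positivity
    have h1 : ∀ z : Fin (m + 2) → ℤ, ∃ j0 ∈ I2, ∑ j ∈ I2, Real.exp (-(Y z i j ^ 2 / (48 * w ^ 2))) ≤
        C1 * Real.exp (-(Y z i j0 ^ 2 / (96 * w ^ 2))) := by
      intro z
      refine hrs w hw0 I2 p2 (fun j => Y z i j) (fun j hj => (hp2m j hj).2) (fun j hj => (hF2 _ (hp2m j hj).1).1)
        (fun j _ => norm_nonneg _) (fun j hj j' hj' => ?_) hE2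
      have h2 := pr_dist hCX hc hS (hF2 _ (hp2m j hj).1).2 (hF2 _ (hp2m j' hj').1).2
      refine h2.trans ?_
      have h3 : ch.X (sl e L sg' (p2 j)) - ch.X (sl e L sg' (p2 j')) =
          xd ch e L (Lt.du z) sg sg' (p1 i) (p2 j') - xd ch e L (Lt.du z) sg sg' (p1 i) (p2 j) := by
        unfold xd
        abel
      rw [h3, CXM.pr_sub]
      refine (norm_sub_le _ _).trans (le_of_eq ?_)
      simp only [hY]
      ring
    choose j0 hj0 hj0' using h1
    calc ∑ z ∈ Z, ∑ j ∈ I2, Real.exp (-(Y z i j ^ 2 / (48 * w ^ 2))) ≤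
        ∑ z ∈ Z, C1 * Real.exp (-(Y z i (j0 z) ^ 2 / (96 * w ^ 2))) := Finset.sum_le_sum fun z _ => hj0' z
      _ = C1 * ∑ z ∈ Z, Real.exp (-(pq om (xd ch e L (Lt.du z) sg sg' (p1 i) (p2 (j0 z))) / (96 * w ^ 2))) := by
          rw [Finset.mul_sum]
          refine Finset.sum_congr rfl fun z _ => ?_
          rw [← CXM.norm_pr_sq om _ hS.om_one]
      _ ≤ C1 * S := by
          refine mul_le_mul_of_nonneg_left ?_ hC1.le
          exact hrowS (p1 i) (hp1m i hi).1 (fun z => p2 (j0 z)) fun z _ => (hp2m _ (hj0 z)).1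
  have hcol : ∀ j ∈ I2, ∑ i ∈ I1, ∑ z ∈ Z, Real.exp (-(Y z i j ^ 2 / (48 * w ^ 2))) ≤ C1 * S := by
    intro j hj
    rw [Finset.sum_comm]
    rcases I1.eq_empty_or_nonempty with hE1 | hE1
    · rw [hE1]
      simp only [Finset.sum_empty, Finset.sum_const_zero]
      positivity
    have h1 : ∀ z : Fin (m + 2) → ℤ, ∃ i0 ∈ I1, ∑ i ∈ I1, Real.exp (-(Y z i j ^ 2 / (48 * w ^ 2))) ≤
        C1 * Real.exp (-(Y z i0 j ^ 2 / (96 * w ^ 2))) := by
      intro z
      refine hrs w hw0 I1 p1 (fun i => Y z i j) (fun i hi => (hp1m i hi).2) (fun i hi => (hF1 _ (hp1m i hi).1).1)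
        (fun i _ => norm_nonneg _) (fun i hi i' hi' => ?_) hE1
      have h2 := pr_dist hCX hc hS (hF1 _ (hp1m i hi).1).2 (hF1 _ (hp1m i' hi').1).2
      refine h2.trans ?_
      have h3 : ch.X (sl e L sg (p1 i)) - ch.X (sl e L sg (p1 i')) =
          xd ch e L (Lt.du z) sg sg' (p1 i) (p2 j) - xd ch e L (Lt.du z) sg sg' (p1 i') (p2 j) := by
        unfold xd
        abel
      rw [h3, CXM.pr_sub]
      exact norm_sub_le _ _
    choose i0 hi0 hi0' using h1
    calc ∑ z ∈ Z, ∑ i ∈ I1, Real.exp (-(Y z i j ^ 2 / (48 * w ^ 2))) ≤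
        ∑ z ∈ Z, C1 * Real.exp (-(Y z (i0 z) j ^ 2 / (96 * w ^ 2))) := Finset.sum_le_sum fun z _ => hi0' z
      _ = C1 * ∑ z ∈ Z, Real.exp (-(pq om (xd ch e L (Lt.du z) sg sg' (p1 (i0 z)) (p2 j)) / (96 * w ^ 2))) := by
          rw [Finset.mul_sum]
          refine Finset.sum_congr rfl fun z _ => ?_
          rw [← CXM.norm_pr_sq om _ hS.om_one]
      _ ≤ C1 * S := by
          refine mul_le_mul_of_nonneg_left ?_ hC1.le
          exact hcolS (p2 j) (hp2m j hj).1 (fun z => p1 (i0 z)) fun z _ => (hp1m _ (hi0 z)).1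
  have hsch := schur_disc I1 I2 (fun i j => ∑ z ∈ Z, Real.exp (-(Y z i j ^ 2 / (48 * w ^ 2))))
    (fun i j => Finset.sum_nonneg fun z _ => (Real.exp_pos _).le) x y (C1 * S) hrow hcol
  have hx2 : ∑ i ∈ I1, x i ^ 2 ≤ ∫ b, ‖f b‖ ^ 2 := by
    refine le_trans (le_of_eq (Finset.sum_congr rfl fun i _ => ?_)) (sum_sq_cel_le (s := s) hfBS I1)
    exact Real.sq_sqrt (integral_nonneg fun b => by positivity)
  have hy2 : ∑ i ∈ I2, y i ^ 2 ≤ ∫ b, ‖g b‖ ^ 2 := by
    refine le_trans (le_of_eq (Finset.sum_congr rfl fun i _ => ?_)) (sum_sq_cel_le (s := s) hgBS I2)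
    exact Real.sq_sqrt (integral_nonneg fun b => by positivity)
  calc ∑ z ∈ Z, ‖∫ b, ∫ b', ks ch om lam r T e L (Lt.du z) sg sg' b b' * (f b * g b')‖ ≤
      ∑ z ∈ Z, ∑ i ∈ I1, ∑ j ∈ I2, D * Real.exp (-(Y z i j ^ 2 / (48 * w ^ 2))) * (x i * y j) :=
        Finset.sum_le_sum one
    _ = D * ∑ i ∈ I1, ∑ j ∈ I2, (∑ z ∈ Z, Real.exp (-(Y z i j ^ 2 / (48 * w ^ 2)))) * (x i * y j) := by
        rw [Finset.sum_comm, Finset.mul_sum]
        refine Finset.sum_congr rfl fun i _ => ?_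
        rw [Finset.sum_comm, Finset.mul_sum]
        refine Finset.sum_congr rfl fun j _ => ?_
        rw [Finset.sum_mul, Finset.mul_sum]
        refine Finset.sum_congr rfl fun z _ => ?_
        ring
    _ ≤ D * (C1 * S * (Real.sqrt (∑ i ∈ I1, x i ^ 2) * Real.sqrt (∑ j ∈ I2, y j ^ 2))) :=
        mul_le_mul_of_nonneg_left hsch hD0
    _ ≤ D * (C1 * S * (Real.sqrt (∫ b, ‖f b‖ ^ 2) * Real.sqrt (∫ b, ‖g b‖ ^ 2))) := by
        gcongr
    _ = _ := by
        rw [hD]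
        ring

end Pool.Agent.Lib.MP_a8dae7_an.UN.CELM
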