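import Pool.Agent.Lib.MP_a8dae7_an.UN.SpecZ
import Pool.Agent.Lib.MP_a8dae7_an.CV.Spec
import Pool.Agent.Lib.MP_a8dae7_an.CV.Z1

section
/-!
# MP_a8dae7_an, UN, module ZU: one pair of cells
-/
set_option autoImplicit false

open MeasureTheory
open scoped ContDiff

namespace Pool.Agent.Lib.MP_a8dae7_an.UN.ZUM

open Pool.Agent.Lib.MP_a8dae7_an.CV (EE zv ex pq pi2 AA sl bm OB)

/-! ### Continuity of the kernel -/

theorem AA_re_pos (lam r t : ℝ) (hr : r ≠ 0) : 0 < (AA lam r t).re := by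
  have : (AA lam r t).re = 1 / r ^ 2 := by
    unfold AA
    rw [Complex.add_re, Complex.ofReal_re, Complex.mul_re, Complex.I_re, Complex.I_im,
      Complex.ofReal_re, Complex.ofReal_im]
    ring
  rw [this]
  positivity

theorem continuous_AA (lam r : ℝ) : Continuous (AA lam r) := by
  unfold AA
  fun_prop

theorem continuous_FF {k : ℕ} (om : EE (k + 1)) (lam r T : ℝ) (hr : r ≠ 0) :
    Continuous (FF om lam r T) := by
  have h0 : Continuous fun x : EE (k + 1) => AA lam r (inner ℝ om x) :=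
    (continuous_AA lam r).comp (by fun_prop)
  have h1 : Continuous fun x : EE (k + 1) => Complex.log (AA lam r (inner ℝ om x)) :=
    h0.clog fun x => Or.inl (AA_re_pos lam r _ hr)
  have h2 : Continuous fun x : EE (k + 1) => ((pq om x : ℝ) : ℂ) / (4 * AA lam r (inner ℝ om x)) := by
    refine Continuous.div ?_ (continuous_const.mul h0) fun x => ?_
    · unfold pq
      fun_prop
    · refine mul_ne_zero (by norm_num) fun h => ?_
      have := AA_re_pos lam r (inner ℝ om x) hr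
      rw [h] at this
      simp at this
  unfold FF
  refine (Continuous.sub ?_ (continuous_const.mul h1)).sub h2
  fun_prop

theorem continuous_Kf {k : ℕ} (om : EE (k + 1)) (lam r T : ℝ) (hr : r ≠ 0) :
    Continuous (Kf om lam r T) := by
  have := continuous_FF om lam r T hr
  unfold Kf
  fun_prop

theorem continuous_ks {m : ℕ} {c R : ℝ} {M : ℕ → ℝ} (ch : UChart (m + 1) c R M) (om : EE (m + 2))
    (lam r T : ℝ) (e : EE (m + 1)) (L : EE m →ₗᵢ[ℝ] EE (m + 1)) (zt : EE (m + 2)) (sg sg' : ℝ)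
    (hr : r ≠ 0) : Continuous (fun p : EE m × EE m => ks ch om lam r T e L zt sg sg' p.1 p.2) := by
  unfold ks
  refine (continuous_Kf om lam r T hr).comp ?_
  have hs : ∀ s : ℝ, Continuous (sl e L s) := by
    intro s
    unfold sl
    fun_prop
  unfold xd
  exact ((ch.smooth.continuous.comp ((hs sg).comp continuous_fst)).sub
    (ch.smooth.continuous.comp ((hs sg').comp continuous_snd))).add continuous_const

theorem continuous_ks' {m : ℕ} {c R : ℝ} {M : ℕ → ℝ} (ch : UChart (m + 1) c R M) (om : EE (m + 2))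
    (lam r T : ℝ) (e : EE (m + 1)) (L : EE m →ₗᵢ[ℝ] EE (m + 1)) (zt : EE (m + 2)) (sg sg' : ℝ)
    (hr : r ≠ 0) (b1 b2 : EE m) :
    Continuous (fun p : EE m × EE m => ks ch om lam r T e L zt sg sg' (b1 + p.1) (b2 + p.2)) := by
  have h1 := continuous_ks ch om lam r T e L zt sg sg' hr
  have h2 : Continuous (fun p : EE m × EE m => (b1 + p.1, b2 + p.2)) := by fun_prop
  have h3 := h1.comp h2
  simp only [Function.comp_def] at h3
  exact h3

/-! ### The integral of the decay factor -/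

theorem decay (m : ℕ) : ∃ V : ℝ, 0 ≤ V ∧ ∀ (a : ℝ) (x : EE m), 0 < a →
    Integrable (fun y : EE m => ((1 + a * ‖x - y‖) ^ (m + 2))⁻¹) ∧
    ∫ y : EE m, ((1 + a * ‖x - y‖) ^ (m + 2))⁻¹ = (a ^ m)⁻¹ * V := by
  have h0 : Integrable (fun y : EE m => ((1 + ‖y‖) ^ (m + 2))⁻¹) := by
    have h1 : Integrable (fun y : EE m => (1 + ‖y‖) ^ (-((m + 2 : ℕ) : ℝ))) :=
      integrable_one_add_norm (by rw [finrank_euclideanSpace_fin]; push_cast; linarith)
    refine h1.congr (Filter.Eventually.of_forall fun y => ?_)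
    show (1 + ‖y‖) ^ (-((m + 2 : ℕ) : ℝ)) = ((1 + ‖y‖) ^ (m + 2))⁻¹
    rw [Real.rpow_neg (by positivity), Real.rpow_natCast]
  refine ⟨∫ y : EE m, ((1 + ‖y‖) ^ (m + 2))⁻¹, integral_nonneg fun y => by positivity, fun a x ha => ?_⟩
  have h2 : (fun y : EE m => ((1 + a * ‖x - y‖) ^ (m + 2))⁻¹) =
      fun y : EE m => (fun z : EE m => ((1 + ‖a • z‖) ^ (m + 2))⁻¹) (x - y) := by
    funext y
    show _ = ((1 + ‖a • (x - y)‖) ^ (m + 2))⁻¹
    rw [norm_smul, Real.norm_of_nonneg ha.le]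
  rw [h2]
  constructor
  · exact (h0.comp_smul ha.ne').comp_sub_left x
  · rw [integral_sub_left_eq_self (fun z : EE m => ((1 + ‖a • z‖) ^ (m + 2))⁻¹) volume x]
    have h3 := Measure.integral_comp_smul volume (fun z : EE m => ((1 + ‖z‖) ^ (m + 2))⁻¹) a
    rw [finrank_euclideanSpace_fin, smul_eq_mul, abs_of_pos (by positivity)] at h3
    exact h3

/-- **ZU** -/
theorem specZU (hJF : SpecJFU) (hTT : CV.SpecTT) : SpecZU := by
  intro m c R A M hA hcls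
  obtain ⟨c9, h9, h91, h9d, hF⟩ := hJF m c R A M hA hcls
  obtain ⟨C1, hC1, hF1⟩ := hF (m + 2)
  obtain ⟨V, hV, hdec⟩ := decay m
  refine ⟨c9, C1 * V + 1, h9, h91, h9d, by positivity, ?_⟩
  intro ch hdm om e L hS lam r T sg sg' zt b1 b2 hP hsg hsg' hb1 hb2
  obtain ⟨tz, htz⟩ : ∃ tz : ℝ, tz = inner ℝ om zt := ⟨_, rfl⟩
  rw [← htz] at hP ⊢
  have hlam0 : 0 < lam := by linarith [hP.lam1]
  have hr0 : 0 < r := by linarith [hP.r1]
  have hT0 : 0 < T := by linarith [hP.T1]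
  have htz0 : 0 < |tz| := lt_of_lt_of_le (by positivity) hP.tA
  have hwz : 0 < wz lam r tz := by unfold wz; positivity
  obtain ⟨w, hw⟩ : ∃ w : ℝ, w = wc c9 lam r tz := ⟨_, rfl⟩
  have hw0 : 0 < w := by
    rw [hw]
    unfold wc
    exact mul_pos h9 (lt_min one_pos hwz)
  rw [← hw]
  obtain ⟨bet, hbet⟩ : ∃ bet : ℝ, bet = lam / |tz| := ⟨_, rfl⟩
  have hbet0 : 0 < bet := by rw [hbet]; positivity
  rw [← hbet]
  obtain ⟨G, hG⟩ : ∃ G : ℝ, G = (tz / T) ^ 2 / 32 + pq om (xd ch e L zt sg sg' b1 b2) / (12 * wz lam r tz ^ 2) :=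
    ⟨_, rfl⟩
  have hG1 : -((tz / T) ^ 2 / 32) - pq om (xd ch e L zt sg sg' b1 b2) / (12 * wz lam r tz ^ 2) = -G := by
    rw [hG]
    ring
  have hG2 : -((tz / T) ^ 2 / 16) - pq om (xd ch e L zt sg sg' b1 b2) / (6 * wz lam r tz ^ 2) = -G + -G := by
    rw [hG]
    field_simp
    ring
  rw [hG1]
  have hchi : Continuous fun x' : EE m => ((bm m ((4 * w)⁻¹ • x') : ℝ)) :=
    (bm m).continuous.comp (continuous_const_smul _)
  have hk := continuous_ks' ch om lam r T e L zt sg sg' hr0.ne' b1 b2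
  refine hTT m w (2 * w) _ (fun x x' => ks ch om lam r T e L zt sg sg' (b1 + x) (b2 + x'))
    (fun x' => (bm m ((4 * w)⁻¹ • x') : ℝ)) hk hchi ?_ ?_ ?_ (by positivity) ?_
  · intro x' hx'
    refine (bm m).zero_of_le_dist ?_
    rw [dist_zero_right, norm_smul, norm_inv, Real.norm_of_nonneg (by positivity)]
    show (1 : ℝ) / 2 ≤ _
    rw [inv_mul_eq_div, le_div_iff₀ (by positivity)]
    linarith
  · intro x'
    exact (bm m).nonneg
  · intro x' hx'
    refine (bm m).one_of_mem_closedBall ?_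
    rw [mem_closedBall_zero_iff, norm_smul, norm_inv, Real.norm_of_nonneg (by positivity)]
    show _ ≤ (1 : ℝ) / 4
    rw [inv_mul_eq_div, div_le_iff₀ (by positivity)]
    linarith
  · intro x hx
    change ∫ x'' in Metric.closedBall (0 : EE m) w,
      ‖JJ ch om lam r T e L zt sg sg' b2 w (b1 + x) (b1 + x'')‖ ≤ _
    set Q : ℝ := C1 * T⁻¹ ^ 2 * bet ^ (m + 1) * w ^ m * Real.exp (-G + -G) with hQ
    have hQ0 : 0 ≤ Q := by positivity
    obtain ⟨hi, hint⟩ := hdec (w * bet) x (by positivity)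
    have hpt : ∀ x'' ∈ Metric.closedBall (0 : EE m) w,
        ‖JJ ch om lam r T e L zt sg sg' b2 w (b1 + x) (b1 + x'')‖ ≤
          Q * ((1 + w * bet * ‖x - x''‖) ^ (m + 2))⁻¹ := by
      intro x'' hx''
      rw [mem_closedBall_zero_iff] at hx''
      have h1 := hF1 ch hdm om e L hS lam r T sg sg' zt b1 b2 (b1 + x) (b1 + x'') (by rw [← htz]; exact hP)
        hsg hsg' hb1 hb2 (by rw [← htz, ← hw, add_sub_cancel_left]; exact hx)
        (by rw [← htz, ← hw, add_sub_cancel_left]; exact hx'')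
      rw [← htz, ← hw, ← hbet, hG2] at h1
      have h2 : b1 + x - (b1 + x'') = x - x'' := by abel
      rw [h2] at h1
      exact h1
    have hball : MeasurableSet (Metric.closedBall (0 : EE m) w) := Metric.isClosed_closedBall.measurableSet
    calc ∫ x'' in Metric.closedBall (0 : EE m) w,
          ‖JJ ch om lam r T e L zt sg sg' b2 w (b1 + x) (b1 + x'')‖
        ≤ ∫ x'' in Metric.closedBall (0 : EE m) w, Q * ((1 + w * bet * ‖x - x''‖) ^ (m + 2))⁻¹ := by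
          refine integral_mono_of_nonneg (Filter.Eventually.of_forall fun _ => norm_nonneg _)
            (hi.const_mul Q).integrableOn ?_
          exact (ae_restrict_iff' hball).mpr (Filter.Eventually.of_forall fun x'' hx'' => hpt x'' hx'')
      _ ≤ ∫ x'', Q * ((1 + w * bet * ‖x - x''‖) ^ (m + 2))⁻¹ := by
          refine setIntegral_le_integral (hi.const_mul Q) (Filter.Eventually.of_forall fun x'' => ?_)
          show 0 ≤ Q * ((1 + w * bet * ‖x - x''‖) ^ (m + 2))⁻¹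
          positivity
      _ = Q * (((w * bet) ^ m)⁻¹ * V) := by rw [integral_const_mul, hint]
      _ = C1 * V * (T⁻¹ ^ 2 * bet * Real.exp (-G + -G)) := by
          have h1 : bet ^ (m + 1) * w ^ m * ((w * bet) ^ m)⁻¹ = bet := by
            rw [mul_pow, pow_succ]
            field_simp
          calc Q * (((w * bet) ^ m)⁻¹ * V) = C1 * V * (T⁻¹ ^ 2 * Real.exp (-G + -G)) *
                (bet ^ (m + 1) * w ^ m * ((w * bet) ^ m)⁻¹) := by rw [hQ]; ring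
            _ = _ := by rw [h1]; ring
      _ ≤ (C1 * V + 1) ^ 2 * (T⁻¹ ^ 2 * bet * Real.exp (-G + -G)) := by
          have h1 : 0 ≤ C1 * V := by positivity
          refine mul_le_mul_of_nonneg_right ?_ (by positivity)
          nlinarith
      _ = ((C1 * V + 1) * T⁻¹ * Real.sqrt bet * Real.exp (-G)) ^ 2 := by
          rw [mul_pow, mul_pow, mul_pow, Real.sq_sqrt hbet0.le, Real.exp_add]
          ring

end Pool.Agent.Lib.MP_a8dae7_an.UN.ZUM
end

section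
/-!
# MP_a8dae7_an, UN, module Z_DBU: derivative bounds of the phase, uniform in the class (`theorem specDBU : SpecDBU`)

Port of CV/DB (`gg`, `ll`, `Bd`, `Be` from there), with a bound `M ≤ M1` in place of `M ≤ 4/3`, the phase `FcT` with the term
`t²/(4 T²)`, charts of a class, `|t_z| ≥ 1/A`.
-/
set_option autoImplicit false

open MeasureTheory
open scoped ContDiff

namespace Pool.Agent.Lib.MP_a8dae7_an.UN.Z_DBUM

open Pool.Agent.Lib.MP_a8dae7_an.CV (EE zv ex pq pi2 AA sl bm OB)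
open Pool.Agent.Lib.MP_a8dae7_an.CV.DBM

/-- the bound of `gg` -/
noncomputable def KA (N : ℕ) (M1 : ℝ) : ℝ := N.factorial * M1 ^ N

lemma KA_pos (N : ℕ) {M1 : ℝ} (h1 : 1 ≤ M1) : 0 < KA N M1 := by
  unfold KA
  positivity

lemma Bd_gg' {z : ℂ} (hz : z.im ≠ 0) (N : ℕ) {t M M1 : ℝ} (h01 : 1 ≤ M1) (hM : ‖gg z t‖ ≤ M) (hM1 : M ≤ M1) :
    Bd N (gg z) t (KA N M1 * M) := by
  intro j hj
  rw [norm_iteratedFDeriv_eq_norm_iteratedDeriv, iter_gg hz]
  have h0 : 0 ≤ M := (norm_nonneg _).trans hM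
  simp only [norm_mul, norm_pow, norm_neg, norm_one, one_pow, one_mul, RCLike.norm_natCast]
  have h1 : (j.factorial : ℝ) ≤ N.factorial := by exact_mod_cast Nat.factorial_le hj
  have h2 : ‖gg z t‖ ^ (j + 1) ≤ M1 ^ N * M := by
    calc ‖gg z t‖ ^ (j + 1) ≤ M ^ (j + 1) := pow_le_pow_left₀ (norm_nonneg _) hM _
      _ = M ^ j * M := pow_succ _ _
      _ ≤ M1 ^ j * M := mul_le_mul_of_nonneg_right (pow_le_pow_left₀ h0 hM1 _) h0
      _ ≤ M1 ^ N * M := mul_le_mul_of_nonneg_right (pow_le_pow_right₀ h01 hj) h0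
  calc (j.factorial : ℝ) * ‖gg z t‖ ^ (j + 1) ≤ N.factorial * (M1 ^ N * M) :=
        mul_le_mul h1 h2 (by positivity) (by positivity)
    _ = _ := by unfold KA; ring

lemma Be_ll' {lam r : ℝ} (hl : 0 < lam) (hr : 0 < r) (N : ℕ) {t M M1 : ℝ} (h01 : 1 ≤ M1)
    (hM : ‖gg (zz lam r) t‖ ≤ M) (hM1 : M ≤ M1) : Be N (ll lam r) t (KA N M1 * M) := by
  intro j h1 hj
  obtain ⟨i, rfl⟩ : ∃ i, j = i + 1 := ⟨j - 1, by omega⟩
  rw [norm_iteratedFDeriv_eq_norm_iteratedDeriv, iteratedDeriv_succ', deriv_ll hl hr,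
    ← norm_iteratedFDeriv_eq_norm_iteratedDeriv]
  exact Bd_gg' (zz_im hl hr) N h01 hM hM1 i (by omega)

lemma Be_ld' {lam r c : ℝ} (hl : 0 < lam) (hr : 0 < r) (N : ℕ) {t M M1 : ℝ} (h01 : 1 ≤ M1)
    (hM : ‖gg (zz lam r) t‖ ≤ M) (hM' : ‖gg (zz lam r) (t + c)‖ ≤ M) (hM1 : M ≤ M1) :
    Be N (ld lam r c) t (|c| * (2 ^ N * (KA N M1 * M) * (KA N M1 * M))) := by
  have hz := zz_im hl hr
  have hd : deriv (ld lam r c) = fun s => -(c : ℂ) * (gg (zz lam r + c) s * gg (zz lam r) s) := by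
    funext s
    have h1 : HasDerivAt (fun y => ll lam r (y + c)) (gg (zz lam r) (s + c)) s :=
      (hasDerivAt_ll hl hr (s + c)).comp_add_const s c
    have h2 := h1.sub (hasDerivAt_ll hl hr s)
    rw [gg_sub hz] at h2
    exact h2.deriv
  intro j h1 hj
  obtain ⟨i, rfl⟩ : ∃ i, j = i + 1 := ⟨j - 1, by omega⟩
  rw [norm_iteratedFDeriv_eq_norm_iteratedDeriv, iteratedDeriv_succ', hd,
    ← norm_iteratedFDeriv_eq_norm_iteratedDeriv]
  have hb1 := Bd_gg' hz N h01 hM hM1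
  rw [gg_shift] at hM'
  have hb2 := Bd_gg' (im_shift hz c) N h01 hM' hM1
  have hb := Bd.mul (contDiff_gg (im_shift hz c)) (contDiff_gg hz) hb2 hb1
  have hc : ContDiff ℝ ∞ (fun s => gg (zz lam r + c) s * gg (zz lam r) s) :=
    (contDiff_gg (im_shift hz c)).mul (contDiff_gg hz)
  rcases Nat.eq_zero_or_pos i with rfl | hp
  · have := hb.zero
    simp only [norm_iteratedFDeriv_zero, norm_mul, norm_neg, Complex.norm_real, Real.norm_eq_abs]
      at this ⊢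
    exact mul_le_mul_of_nonneg_left this (abs_nonneg c)
  · have := Be.cmul hc hb.be (-(c : ℂ)) i hp (by omega)
    simpa using this

/-- the phase as a function of two real variables -/
noncomputable def FcT (k : ℕ) (lam r T0 t s : ℝ) : ℂ :=
  -((t ^ 2 / (4 * T0 ^ 2) : ℝ) : ℂ) - (k : ℂ) / 2 * ll lam r t - ((s : ℝ) : ℂ) / (4 * AA lam r t)

lemma FF_eq' {k : ℕ} (om : EE (k + 1)) (lam r T0 : ℝ) (x : EE (k + 1)) :
    FF om lam r T0 x = FcT k lam r T0 (inner ℝ om x) (pq om x) := rfl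

lemma FcT_eq (k : ℕ) (lam r T0 t s : ℝ) : FcT k lam r T0 t s =
    Fc k lam r t s + ((t ^ 2 * r ^ 2 / (4 * lam ^ 2) - t ^ 2 / (4 * T0 ^ 2) : ℝ) : ℂ) := by
  unfold FcT Fc
  push_cast
  ring

lemma FcT_im (k : ℕ) (lam r T0 t s : ℝ) : (FcT k lam r T0 t s).im = (Fc k lam r t s).im := by
  rw [FcT_eq, Complex.add_im, Complex.ofReal_im, add_zero]

lemma FcT_re {lam r : ℝ} (hl : 0 < lam) (hr : 0 < r) (k : ℕ) (T0 t s : ℝ) :
    (FcT k lam r T0 t s).re = (-((1 / (4 * T0 ^ 2) : ℝ) : ℂ) * ((t : ℂ) * (t : ℂ)) +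
      (-((k : ℂ) / 2) * ll lam r t) +
      (-((lam ^ 2 / r ^ 2 : ℝ) : ℂ) * (s • (gg (zz lam r) t * gg (-zz lam r) t)))).re := by
  rw [FcT_eq, Complex.add_re, Fc_re hl hr, ← Complex.add_re]
  congr 1
  push_cast
  ring

section abs
variable {E : Type*} [NormedAddCommGroup E] [NormedSpace ℝ E]

/-- the bound of `gg ∘ T` -/
noncomputable def GA0 (N : ℕ) (M1 M D : ℝ) : ℝ := N.factorial * (KA N M1 * M) * D ^ N

lemma Bd_ggT' {N : ℕ} {z : ℂ} (hz : z.im ≠ 0) {T : E → ℝ} {x : E} {M M1 D : ℝ} (h01 : 1 ≤ M1)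
    (hT : ContDiff ℝ ∞ T) (hD : 1 ≤ D) (h : Be N T x D) (hM : ‖gg z (T x)‖ ≤ M) (hM1 : M ≤ M1) :
    Bd N (fun y => gg z (T y)) x (GA0 N M1 M D) :=
  Bd.comp (contDiff_gg hz) hT hD (Bd_gg' hz N h01 hM hM1) h

/-- the difference of the imaginary parts -/
lemma abs_im' {N k : ℕ} {lam r T0 c D M M1 A1 A2 : ℝ} {T1 T2 S1 S2 : E → ℝ} {x : E} (h01 : 1 ≤ M1) (hl : 0 < lam)
    (hr : 0 < r)
    (hT1 : ContDiff ℝ ∞ T1) (hT2 : ContDiff ℝ ∞ T2) (hS1 : ContDiff ℝ ∞ S1) (hS2 : ContDiff ℝ ∞ S2)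
    (hTT : ∀ y, T1 y = T2 y + c) (hD : 1 ≤ D) (h2 : Be N T2 x D)
    (hA1 : Bd N (fun y => S1 y - S2 y) x A1) (hA2 : Bd N S2 x A2)
    (hM1 : ‖gg (zz lam r) (T1 x)‖ ≤ M) (hM2 : ‖gg (zz lam r) (T2 x)‖ ≤ M) (hM : M ≤ M1) :
    Be N (fun y => (FcT k lam r T0 (T1 y) (S1 y)).im - (FcT k lam r T0 (T2 y) (S2 y)).im) x
      (k / 2 * (N.factorial * (|c| * (2 ^ N * (KA N M1 * M) * (KA N M1 * M))) * D ^ N) +
        lam / 2 * (2 ^ N * A1 * GA0 N M1 M D) +
        lam / 2 * |c| * (2 ^ N * A2 * (2 ^ N * GA0 N M1 M D * GA0 N M1 M D))) := by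
  have hz := zz_im hl hr
  have hM0 : 0 ≤ M := (norm_nonneg _).trans hM1
  have h1 : Be N T1 x D := by
    have : T1 = fun y => T2 y + c := funext hTT
    rw [this]
    exact h2.add_const c
  have hg1 := Bd_ggT' hz h01 hT1 hD h1 hM1 hM
  have hg2 := Bd_ggT' hz h01 hT2 hD h2 hM2 hM
  have cg1 : ContDiff ℝ ∞ (fun y => gg (zz lam r) (T1 y)) := (contDiff_gg hz).comp hT1
  have cg2 : ContDiff ℝ ∞ (fun y => gg (zz lam r) (T2 y)) := (contDiff_gg hz).comp hT2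
  -- the three functions
  have c1 : ContDiff ℝ ∞ (fun y => ld lam r c (T2 y)) := (contDiff_ld hr).comp hT2
  have b1 : Be N (fun y => ld lam r c (T2 y)) x
      (N.factorial * (|c| * (2 ^ N * (KA N M1 * M) * (KA N M1 * M))) * D ^ N) := by
    have hk := KA_pos N h01
    refine Be.comp (contDiff_ld hr) hT2 hD (by positivity) (Be_ld' hl hr N h01 hM2 ?_ hM) h2
    rw [← hTT]
    exact hM1
  have c2 : ContDiff ℝ ∞ (fun y => (S1 y - S2 y) • gg (zz lam r) (T1 y)) := (hS1.sub hS2).smul cg1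
  have b2 := Bd.smul (hS1.sub hS2) cg1 hA1 hg1
  have c3 : ContDiff ℝ ∞ (fun y => S2 y • (gg (zz lam r) (T1 y) * gg (zz lam r) (T2 y))) :=
    hS2.smul (cg1.mul cg2)
  have b3 := Bd.smul hS2 (cg1.mul cg2) hA2 (Bd.mul cg1 cg2 hg1 hg2)
  have d1 := Be.cmul c1 b1 (-((k : ℂ) / 2))
  have d2 := Be.cmul c2 b2.be (Complex.I * ((lam / 2 : ℝ) : ℂ))
  have d3 := Be.cmul c3 b3.be (-(Complex.I * ((lam / 2 : ℝ) : ℂ)) * (c : ℂ))
  have e1 : ContDiff ℝ ∞ (fun y => -((k : ℂ) / 2) * ld lam r c (T2 y)) := contDiff_const.mul c1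
  have e2 : ContDiff ℝ ∞ (fun y => Complex.I * ((lam / 2 : ℝ) : ℂ) *
    ((S1 y - S2 y) • gg (zz lam r) (T1 y))) := contDiff_const.mul c2
  have e3 : ContDiff ℝ ∞ (fun y => -(Complex.I * ((lam / 2 : ℝ) : ℂ)) * (c : ℂ) *
    (S2 y • (gg (zz lam r) (T1 y) * gg (zz lam r) (T2 y)))) := contDiff_const.mul c3
  have f := Be.im ((e1.add e2).add e3) (Be.add (e1.add e2) e3 (Be.add e1 e2 d1 d2) d3)
  have key : (fun y => (FcT k lam r T0 (T1 y) (S1 y)).im - (FcT k lam r T0 (T2 y) (S2 y)).im) = fun y =>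
      (-((k : ℂ) / 2) * ld lam r c (T2 y) + Complex.I * ((lam / 2 : ℝ) : ℂ) *
        ((S1 y - S2 y) • gg (zz lam r) (T1 y)) + -(Complex.I * ((lam / 2 : ℝ) : ℂ)) * (c : ℂ) *
        (S2 y • (gg (zz lam r) (T1 y) * gg (zz lam r) (T2 y)))).im := by
    funext y
    have hs := gg_sub hz (T2 y) c
    rw [← hTT] at hs
    rw [← gg_shift, ← hTT] at hs
    rw [FcT_im, FcT_im]
    unfold Fc
    rw [quot_eq hl hr, quot_eq hl hr]
    have hr1 : (((T1 y ^ 2 * r ^ 2 / (4 * lam ^ 2) : ℝ) : ℂ)).im = 0 := Complex.ofReal_im _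
    have hr2 : (((T2 y ^ 2 * r ^ 2 / (4 * lam ^ 2) : ℝ) : ℂ)).im = 0 := Complex.ofReal_im _
    have hll : ll lam r (T1 y) = ld lam r c (T2 y) + ll lam r (T2 y) := by
      unfold ld
      rw [← hTT]
      ring
    have hgg : gg (zz lam r) (T1 y) = gg (zz lam r) (T2 y) +
      -(c : ℂ) * (gg (zz lam r) (T1 y) * gg (zz lam r) (T2 y)) := by
      rw [← hs]
      ring
    rw [← Complex.sub_im]
    have : -((T1 y ^ 2 * r ^ 2 / (4 * lam ^ 2) : ℝ) : ℂ) - (k : ℂ) / 2 * ll lam r (T1 y) -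
        -(Complex.I * ((lam / 2 : ℝ) : ℂ)) * (S1 y • gg (zz lam r) (T1 y)) -
        (-((T2 y ^ 2 * r ^ 2 / (4 * lam ^ 2) : ℝ) : ℂ) - (k : ℂ) / 2 * ll lam r (T2 y) -
        -(Complex.I * ((lam / 2 : ℝ) : ℂ)) * (S2 y • gg (zz lam r) (T2 y))) =
        (-((k : ℂ) / 2) * ld lam r c (T2 y) + Complex.I * ((lam / 2 : ℝ) : ℂ) *
        ((S1 y - S2 y) • gg (zz lam r) (T1 y)) + -(Complex.I * ((lam / 2 : ℝ) : ℂ)) * (c : ℂ) *
        (S2 y • (gg (zz lam r) (T1 y) * gg (zz lam r) (T2 y)))) +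
        (((T2 y ^ 2 * r ^ 2 / (4 * lam ^ 2) - T1 y ^ 2 * r ^ 2 / (4 * lam ^ 2)) : ℝ) : ℂ) := by
      rw [hll]
      simp only [Complex.real_smul]
      push_cast
      linear_combination (Complex.I * ((lam : ℂ) / 2)) * (S2 y : ℂ) * hgg
    rw [this, Complex.add_im, Complex.ofReal_im, add_zero]
  rw [key]
  refine f.mono ?_
  simp only [norm_neg, norm_mul, norm_div, Complex.norm_I, one_mul, Complex.norm_real, Real.norm_eq_abs,
    Complex.norm_natCast, Complex.norm_ofNat, abs_of_pos hl, abs_two, le_refl]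

/-- the real part -/
lemma abs_re' {N k : ℕ} {lam r T0 D M M1 A B : ℝ} {T S : E → ℝ} {x : E} (h01 : 1 ≤ M1) (hl : 0 < lam) (hr : 0 < r)
    (hT : ContDiff ℝ ∞ T) (hS : ContDiff ℝ ∞ S) (hD : 1 ≤ D) (h : Be N T x D) (hB : Bd N T x B)
    (hA : Bd N S x A) (hM1 : ‖gg (zz lam r) (T x)‖ ≤ M) (hM : M ≤ M1) :
    Be N (fun y => (FcT k lam r T0 (T y) (S y)).re) x
      (1 / (4 * T0 ^ 2) * (2 ^ N * B * B) + k / 2 * (N.factorial * (KA N M1 * M) * D ^ N) +
        lam ^ 2 / r ^ 2 * (2 ^ N * A * (2 ^ N * GA0 N M1 M D * GA0 N M1 M D))) := by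
  have hz := zz_im hl hr
  have hz' := neg_zz_im hl hr
  have hM0 : 0 ≤ M := (norm_nonneg _).trans hM1
  have hg1 := Bd_ggT' hz h01 hT hD h hM1 hM
  have hg2 := Bd_ggT' hz' h01 hT hD h (by rw [norm_gg_neg]; exact hM1) hM
  have cg1 : ContDiff ℝ ∞ (fun y => gg (zz lam r) (T y)) := (contDiff_gg hz).comp hT
  have cg2 : ContDiff ℝ ∞ (fun y => gg (-zz lam r) (T y)) := (contDiff_gg hz').comp hT
  have cT : ContDiff ℝ ∞ (fun y => ((T y : ℝ) : ℂ)) := Complex.ofRealCLM.contDiff.comp hT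
  have bT : Bd N (fun y => ((T y : ℝ) : ℂ)) x B := by
    refine Bd.mk ?_ ?_
    · simpa using hB.zero
    · have := Be.clm hT hB.be Complex.ofRealCLM (c := 1) (by simp)
      simpa using this
  have c1 : ContDiff ℝ ∞ (fun y => ((T y : ℝ) : ℂ) * ((T y : ℝ) : ℂ)) := cT.mul cT
  have b1 := Bd.mul cT cT bT bT
  have c2 : ContDiff ℝ ∞ (fun y => ll lam r (T y)) := (contDiff_ll hr).comp hT
  have b2 : Be N (fun y => ll lam r (T y)) x (N.factorial * (KA N M1 * M) * D ^ N) := by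
    have hk := KA_pos N h01
    exact Be.comp (contDiff_ll hr) hT hD (by positivity) (Be_ll' hl hr N h01 hM1 hM) h
  have c3 : ContDiff ℝ ∞ (fun y => S y • (gg (zz lam r) (T y) * gg (-zz lam r) (T y))) :=
    hS.smul (cg1.mul cg2)
  have b3 := Bd.smul hS (cg1.mul cg2) hA (Bd.mul cg1 cg2 hg1 hg2)
  have d1 := Be.cmul c1 b1.be (-((1 / (4 * T0 ^ 2) : ℝ) : ℂ))
  have d2 := Be.cmul c2 b2 (-((k : ℂ) / 2))
  have d3 := Be.cmul c3 b3.be (-((lam ^ 2 / r ^ 2 : ℝ) : ℂ))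
  have e1 : ContDiff ℝ ∞ (fun y => -((1 / (4 * T0 ^ 2) : ℝ) : ℂ) *
    (((T y : ℝ) : ℂ) * ((T y : ℝ) : ℂ))) := contDiff_const.mul c1
  have e2 : ContDiff ℝ ∞ (fun y => -((k : ℂ) / 2) * ll lam r (T y)) := contDiff_const.mul c2
  have e3 : ContDiff ℝ ∞ (fun y => -((lam ^ 2 / r ^ 2 : ℝ) : ℂ) *
    (S y • (gg (zz lam r) (T y) * gg (-zz lam r) (T y)))) := contDiff_const.mul c3
  have f := Be.re ((e1.add e2).add e3) (Be.add (e1.add e2) e3 (Be.add e1 e2 d1 d2) d3)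
  have key : (fun y => (FcT k lam r T0 (T y) (S y)).re) = fun y =>
      (-((1 / (4 * T0 ^ 2) : ℝ) : ℂ) * (((T y : ℝ) : ℂ) * ((T y : ℝ) : ℂ)) +
      -((k : ℂ) / 2) * ll lam r (T y) + -((lam ^ 2 / r ^ 2 : ℝ) : ℂ) *
      (S y • (gg (zz lam r) (T y) * gg (-zz lam r) (T y)))).re := by
    funext y
    exact FcT_re hl hr k T0 (T y) (S y)
  rw [key]
  refine f.mono ?_
  have a1 : |1 / (4 * T0 ^ 2)| = 1 / (4 * T0 ^ 2) := abs_of_nonneg (by positivity)
  have a2 : |lam ^ 2 / r ^ 2| = lam ^ 2 / r ^ 2 := abs_of_nonneg (by positivity)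
  rw [norm_neg, norm_neg, norm_neg, Complex.norm_real, Complex.norm_real, Real.norm_eq_abs,
    Real.norm_eq_abs, a1, a2, norm_div, Complex.norm_natCast, Complex.norm_ofNat]

/-- the first derivative of the real part -/
lemma abs_re1' {k : ℕ} {lam r T0 D D2 M : ℝ} {T S : E → ℝ} {x : E} (hl : 0 < lam) (hr : 0 < r)
    (hT : ContDiff ℝ ∞ T) (hS : ContDiff ℝ ∞ S) (h : ‖fderiv ℝ T x‖ ≤ D) (h2 : ‖fderiv ℝ S x‖ ≤ D2)
    (hM1 : ‖gg (zz lam r) (T x)‖ ≤ M) :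
    ‖fderiv ℝ (fun y => (FcT k lam r T0 (T y) (S y)).re) x‖ ≤
      1 / (4 * T0 ^ 2) * (2 * |T x| * D) + k / 2 * (M * D) +
        lam ^ 2 / r ^ 2 * (|S x| * (2 * M ^ 3 * D) + D2 * M ^ 2) := by
  have hz := zz_im hl hr
  have hz' := neg_zz_im hl hr
  have hM0 : 0 ≤ M := (norm_nonneg _).trans hM1
  have hM2 : ‖gg (-zz lam r) (T x)‖ ≤ M := by rw [norm_gg_neg]; exact hM1
  have hD0 : 0 ≤ D := (norm_nonneg _).trans h
  have hD20 : 0 ≤ D2 := (norm_nonneg _).trans h2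
  have dT : DifferentiableAt ℝ T x := hT.differentiable (by simp) x
  have dS : DifferentiableAt ℝ S x := hS.differentiable (by simp) x
  have dg1 : DifferentiableAt ℝ (fun y => gg (zz lam r) (T y)) x :=
    ((contDiff_gg hz).comp hT).differentiable (by simp) x
  have dg2 : DifferentiableAt ℝ (fun y => gg (-zz lam r) (T y)) x :=
    ((contDiff_gg hz').comp hT).differentiable (by simp) x
  have dl : DifferentiableAt ℝ (fun y => ll lam r (T y)) x :=
    ((contDiff_ll hr).comp hT).differentiable (by simp) x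
  have dTc : DifferentiableAt ℝ (fun y => ((T y : ℝ) : ℂ)) x :=
    (Complex.ofRealCLM.contDiff.comp hT).differentiable (by simp) x
  have n1 : ‖fderiv ℝ (fun y => gg (zz lam r) (T y)) x‖ ≤ M ^ 2 * D := by
    refine (norm_fderiv_comp (hasDerivAt_gg hz (T x)) dT).trans ?_
    rw [norm_neg, norm_pow]
    exact mul_le_mul (pow_le_pow_left₀ (norm_nonneg _) hM1 2) h (norm_nonneg _) (by positivity)
  have n2 : ‖fderiv ℝ (fun y => gg (-zz lam r) (T y)) x‖ ≤ M ^ 2 * D := by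
    refine (norm_fderiv_comp (hasDerivAt_gg hz' (T x)) dT).trans ?_
    rw [norm_neg, norm_pow]
    exact mul_le_mul (pow_le_pow_left₀ (norm_nonneg _) hM2 2) h (norm_nonneg _) (by positivity)
  have n3 : ‖fderiv ℝ (fun y => ll lam r (T y)) x‖ ≤ M * D :=
    (norm_fderiv_comp (hasDerivAt_ll hl hr (T x)) dT).trans
      (mul_le_mul hM1 h (norm_nonneg _) hM0)
  have n4 : ‖fderiv ℝ (fun y => ((T y : ℝ) : ℂ)) x‖ ≤ D := by
    have := norm_fderiv_comp (g := fun s : ℝ => (s : ℂ)) (Complex.ofRealCLM.hasDerivAt (x := T x)) dT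
    refine this.trans ?_
    simpa using h
  -- products
  have p1 : ‖fderiv ℝ (fun y => ((T y : ℝ) : ℂ) * ((T y : ℝ) : ℂ)) x‖ ≤ 2 * |T x| * D := by
    have := (dTc.hasFDerivAt.mul dTc.hasFDerivAt).fderiv
    have e : (fun y => ((T y : ℝ) : ℂ) * ((T y : ℝ) : ℂ)) =
      (fun y => ((T y : ℝ) : ℂ)) * (fun y => ((T y : ℝ) : ℂ)) := rfl
    rw [e, this]
    refine (norm_add_le _ _).trans ?_
    rw [norm_smul, Complex.norm_real, Real.norm_eq_abs]
    nlinarith [mul_le_mul_of_nonneg_left n4 (abs_nonneg (T x))]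
  have p2 : ‖fderiv ℝ (fun y => gg (zz lam r) (T y) * gg (-zz lam r) (T y)) x‖ ≤ 2 * M ^ 3 * D := by
    have := (dg1.hasFDerivAt.mul dg2.hasFDerivAt).fderiv
    have e : (fun y => gg (zz lam r) (T y) * gg (-zz lam r) (T y)) =
      (fun y => gg (zz lam r) (T y)) * (fun y => gg (-zz lam r) (T y)) := rfl
    rw [e, this]
    refine (norm_add_le _ _).trans ?_
    rw [norm_smul, norm_smul]
    have q1 := mul_le_mul hM1 n2 (norm_nonneg _) hM0
    have q2 := mul_le_mul hM2 n1 (norm_nonneg _) hM0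
    calc _ ≤ M * (M ^ 2 * D) + M * (M ^ 2 * D) := add_le_add q1 q2
      _ = _ := by ring
  have p3 : ‖fderiv ℝ (fun y => S y • (gg (zz lam r) (T y) * gg (-zz lam r) (T y))) x‖ ≤
      |S x| * (2 * M ^ 3 * D) + D2 * M ^ 2 := by
    have := (dS.hasFDerivAt.smul (dg1.mul dg2).hasFDerivAt).fderiv
    have e : (fun y => S y • (gg (zz lam r) (T y) * gg (-zz lam r) (T y))) =
      S • ((fun y => gg (zz lam r) (T y)) * (fun y => gg (-zz lam r) (T y))) := rfl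
    rw [e, this]
    refine (norm_add_le _ _).trans ?_
    have q0 : ‖((fun y => gg (zz lam r) (T y)) * (fun y => gg (-zz lam r) (T y))) x‖ ≤ M ^ 2 := by
      rw [Pi.mul_apply, norm_mul, pow_two]
      exact mul_le_mul hM1 hM2 (norm_nonneg _) hM0
    have q1 : ‖S x • fderiv ℝ ((fun y => gg (zz lam r) (T y)) * (fun y => gg (-zz lam r) (T y))) x‖ ≤
        |S x| * (2 * M ^ 3 * D) := by
      rw [norm_smul, Real.norm_eq_abs]
      exact mul_le_mul_of_nonneg_left p2 (abs_nonneg _)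
    have q2 : ‖(fderiv ℝ S x).smulRight
        (((fun y => gg (zz lam r) (T y)) * (fun y => gg (-zz lam r) (T y))) x)‖ ≤ D2 * M ^ 2 := by
      rw [ContinuousLinearMap.norm_smulRight_apply]
      exact mul_le_mul h2 q0 (norm_nonneg _) hD20
    exact add_le_add q1 q2
  have key : (fun y => (FcT k lam r T0 (T y) (S y)).re) = fun y =>
      Complex.reCLM (-((1 / (4 * T0 ^ 2) : ℝ) : ℂ) * (((T y : ℝ) : ℂ) * ((T y : ℝ) : ℂ)) +
      -((k : ℂ) / 2) * ll lam r (T y) + -((lam ^ 2 / r ^ 2 : ℝ) : ℂ) *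
      (S y • (gg (zz lam r) (T y) * gg (-zz lam r) (T y)))) := by
    funext y
    exact FcT_re hl hr k T0 (T y) (S y)
  have h1 := (((dTc.mul dTc).hasFDerivAt.const_mul (-((1 / (4 * T0 ^ 2) : ℝ) : ℂ))).add
    (dl.hasFDerivAt.const_mul (-((k : ℂ) / 2)))).add
    ((dS.smul (dg1.mul dg2)).hasFDerivAt.const_mul (-((lam ^ 2 / r ^ 2 : ℝ) : ℂ)))
  have h2 := Complex.reCLM.hasFDerivAt.comp x h1
  have h3 := h2.fderiv
  rw [key]
  refine (le_of_eq (congrArg norm h3)).trans ?_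
  refine (ContinuousLinearMap.opNorm_comp_le _ _).trans ?_
  rw [Complex.reCLM_norm, one_mul]
  refine (norm_add_le _ _).trans ?_
  refine (add_le_add (norm_add_le _ _) le_rfl).trans ?_
  have a1 : |1 / (4 * T0 ^ 2)| = 1 / (4 * T0 ^ 2) := abs_of_nonneg (by positivity)
  have a2 : |lam ^ 2 / r ^ 2| = lam ^ 2 / r ^ 2 := abs_of_nonneg (by positivity)
  rw [norm_smul, norm_smul, norm_smul, norm_neg, norm_neg, norm_neg, Complex.norm_real,
    Complex.norm_real, Real.norm_eq_abs, Real.norm_eq_abs, a1, a2, norm_div, Complex.norm_natCast,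
    Complex.norm_ofNat]
  refine add_le_add (add_le_add ?_ ?_) ?_
  · exact mul_le_mul_of_nonneg_left p1 (by positivity)
  · exact mul_le_mul_of_nonneg_left n3 (by positivity)
  · exact mul_le_mul_of_nonneg_left p3 (by positivity)

end abs


/-! ## Charts -/

/-- the constant of the class -/
noncomputable def DD (M : ℕ → ℝ) (N : ℕ) : ℝ := 1 + ∑ j ∈ Finset.range (N + 1), |M j|

lemma one_le_DD (M : ℕ → ℝ) (N : ℕ) : 1 ≤ DD M N := by
  unfold DD
  have : 0 ≤ ∑ j ∈ Finset.range (N + 1), |M j| := Finset.sum_nonneg fun _ _ => abs_nonneg _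
  linarith

lemma le_DD {k : ℕ} {c R : ℝ} {M : ℕ → ℝ} (ch : UChart k c R M) {N j : ℕ} (h1 : 1 ≤ j) (hj : j ≤ N) {q : EE k}
    (hq : ‖q‖ ≤ R) : ‖iteratedFDeriv ℝ j ch.X q‖ ≤ DD M N := by
  have h2 : |M j| ≤ ∑ j ∈ Finset.range (N + 1), |M j| :=
    Finset.single_le_sum (f := fun j => |M j|) (fun _ _ => abs_nonneg _) (Finset.mem_range.2 (by omega))
  unfold DD
  have h3 := ch.bd j h1 q hq
  have h4 := le_abs_self (M j)
  linarith

lemma dl_pos (k : ℕ) {R : ℝ} (hR : 0 < R) : 0 < dl k R := by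
  unfold dl
  positivity

lemma four_dl (k : ℕ) {R : ℝ} (hR : 0 < R) : 4 * dl k R ≤ R := by
  unfold dl
  have h1 : (1 : ℝ) ≤ 32 ^ k := one_le_pow₀ (by norm_num)
  have h2 : 4 * (R / (4 * 32 ^ k)) = R / 32 ^ k := by field_simp
  rw [h2, div_le_iff₀ (by positivity)]
  nlinarith

section slice
variable {m : ℕ} {c R A : ℝ} {M : ℕ → ℝ} {ch : UChart (m + 1) c R M} {om : EE (m + 2)} {e : EE (m + 1)}
  {L : EE m →ₗᵢ[ℝ] EE (m + 1)}

lemma sl_norm' (hR : 0 < R) (h : Slice ch om e L) {sg : ℝ} {b : EE m} (hsg : |sg| ≤ 2 * dl (m + 1) R)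
    (hb : ‖b‖ ≤ 3 * dl (m + 1) R) : ‖sl e L sg b‖ ≤ R := by
  have hdl := dl_pos (m + 1) hR
  have h0 : inner ℝ (sg • e) (L b) = 0 := by rw [real_inner_smul_left, h.eL, mul_zero]
  have h1 := norm_add_sq_eq_norm_sq_add_norm_sq_of_inner_eq_zero (sg • e) (L b) h0
  have h2 : ‖sl e L sg b‖ ^ 2 ≤ (4 * dl (m + 1) R) ^ 2 := by
    unfold sl
    rw [pow_two, h1, norm_smul, h.e_one, L.norm_map, mul_one, Real.norm_eq_abs]
    have a1 : |sg| * |sg| ≤ (2 * dl (m + 1) R) * (2 * dl (m + 1) R) :=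
      mul_le_mul hsg hsg (abs_nonneg _) (by positivity)
    have a2 : ‖b‖ * ‖b‖ ≤ (3 * dl (m + 1) R) * (3 * dl (m + 1) R) :=
      mul_le_mul hb hb (norm_nonneg _) (by positivity)
    nlinarith
  exact (le_of_sq_le_sq h2 (by positivity)).trans (four_dl (m + 1) hR)

lemma contDiff_Xs' (ch : UChart (m + 1) c R M) (e : EE (m + 1)) (L : EE m →ₗᵢ[ℝ] EE (m + 1)) (sg : ℝ) :
    ContDiff ℝ ∞ (fun y : EE m => ch.X (sl e L sg y)) := by
  have : ContDiff ℝ ∞ (fun y : EE m => sl e L sg y) :=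
    contDiff_const.add L.toContinuousLinearMap.contDiff
  exact ch.smooth.comp this

lemma Be_Xs (hR : 0 < R) (h : Slice ch om e L) {N : ℕ} {sg : ℝ} {b : EE m} (hsg : |sg| ≤ 2 * dl (m + 1) R)
    (hb : ‖b‖ ≤ 3 * dl (m + 1) R) : Be N (fun y : EE m => ch.X (sl e L sg y)) b (DD M N) := by
  intro j hj1 hj
  have h1 : (fun y : EE m => ch.X (sl e L sg y)) =
    (fun q => ch.X (sg • e + q)) ∘ L.toContinuousLinearMap := rfl
  have hc : ContDiff ℝ ∞ (fun q => ch.X (sg • e + q)) := ch.smooth.comp (contDiff_const.add contDiff_id)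
  rw [h1, ContinuousLinearMap.iteratedFDeriv_comp_right _ hc b (le_inf j), iteratedFDeriv_comp_add_left]
  refine (ContinuousMultilinearMap.norm_compContinuousLinearMap_le _ _).trans ?_
  have h2 : ∏ _i : Fin j, ‖L.toContinuousLinearMap‖ ≤ 1 := by
    refine Finset.prod_le_one (fun _ _ => norm_nonneg _) fun _ _ => L.norm_toContinuousLinearMap_le
  have h3 := le_DD ch hj1 hj (sl_norm' hR h hsg hb)
  calc _ ≤ DD M N * 1 := mul_le_mul h3 h2 (Finset.prod_nonneg fun _ _ => norm_nonneg _)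
        ((norm_nonneg _).trans h3)
    _ = DD M N := mul_one _

/-- the two functions `t`, `s` of a block and their bounds; `D = DD M N` -/
lemma block' (hR : 0 < R) (hA : 1 ≤ A) (hDm : Dm ch (1 / (8 * A))) (h : Slice ch om e L) {N : ℕ} (hN : 1 ≤ N)
    {sg sg' : ℝ} {zt : EE (m + 2)} {b b' : EE m} (hsg : |sg| ≤ 2 * dl (m + 1) R)
    (hsg' : |sg'| ≤ 2 * dl (m + 1) R) (hb : ‖b‖ ≤ 3 * dl (m + 1) R) (hb' : ‖b'‖ ≤ 3 * dl (m + 1) R)
    (hz : 1 / A ≤ |(inner ℝ om zt : ℝ)|) {W : ℝ} (hW : 0 ≤ W)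
    (hq : pq om (xd ch e L zt sg sg' b b') ≤ W ^ 2) :
    ContDiff ℝ ∞ (fun y => xd ch e L zt sg sg' b y) ∧
    ContDiff ℝ ∞ (fun y => (inner ℝ om (xd ch e L zt sg sg' b y) : ℝ)) ∧
    ContDiff ℝ ∞ (fun y => pq om (xd ch e L zt sg sg' b y)) ∧
    Be N (fun y => xd ch e L zt sg sg' b y) b' (DD M N) ∧
    Be N (fun y => (inner ℝ om (xd ch e L zt sg sg' b y) : ℝ)) b' (DD M N) ∧
    Bd N (fun y => (inner ℝ om (xd ch e L zt sg sg' b y) : ℝ)) b'
      (9 / 4 * (DD M N * A) * |(inner ℝ om zt : ℝ)|) ∧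
    Bd N (fun y => pq om (xd ch e L zt sg sg' b y)) b' (2 ^ N * (W + DD M N) * (W + DD M N)) ∧
    ‖fderiv ℝ (fun y => pq om (xd ch e L zt sg sg' b y)) b'‖ ≤ 2 * W * DD M N ∧
    3 / 4 * |(inner ℝ om zt : ℝ)| ≤ |(inner ℝ om (xd ch e L zt sg sg' b b') : ℝ)| ∧
    |(inner ℝ om (xd ch e L zt sg sg' b b') : ℝ)| ≤ 5 / 4 * |(inner ℝ om zt : ℝ)| := by
  have hdl := dl_pos (m + 1) hR
  have hD1 := one_le_DD M N
  set D := DD M N with hDdef
  have hA0 : 0 < A := by linarith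
  have hAz : 1 ≤ A * |(inner ℝ om zt : ℝ)| := by
    rw [div_le_iff₀ hA0] at hz
    linarith
  have cX := contDiff_Xs' ch e L sg'
  have bX : Be N (fun y : EE m => ch.X (sl e L sg' y)) b' D := Be_Xs hR h hsg' hb'
  have cx : ContDiff ℝ ∞ (fun y => xd ch e L zt sg sg' b y) := by
    unfold xd
    exact (contDiff_const.sub cX).add contDiff_const
  have bx : Be N (fun y => xd ch e L zt sg sg' b y) b' D := by
    have h1 := (Be.clm cX bX (-ContinuousLinearMap.id ℝ (EE (m + 2))) (c := 1)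
      (by rw [norm_neg]; exact ContinuousLinearMap.norm_id_le)).add_const (ch.X (sl e L sg b) + zt)
    rw [one_mul] at h1
    have e1 : (fun y => xd ch e L zt sg sg' b y) = fun y =>
      (-ContinuousLinearMap.id ℝ (EE (m + 2))) (ch.X (sl e L sg' y)) + (ch.X (sl e L sg b) + zt) := by
      funext y
      simp only [xd, neg_apply, ContinuousLinearMap.id_apply]
      abel
    rw [e1]
    exact h1
  have ct : ContDiff ℝ ∞ (fun y => (inner ℝ om (xd ch e L zt sg sg' b y) : ℝ)) :=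
    (innerSL ℝ om).contDiff.comp cx
  have bt : Be N (fun y => (inner ℝ om (xd ch e L zt sg sg' b y) : ℝ)) b' D := by
    have := Be.clm cx bx (innerSL ℝ om) (c := 1) (by rw [innerSL_apply_norm, h.om_one])
    simpa using this
  have cp : ContDiff ℝ ∞ (fun y => PP om (xd ch e L zt sg sg' b y)) := (PP om).contDiff.comp cx
  have bp : Be N (fun y => PP om (xd ch e L zt sg sg' b y)) b' D := by
    have := Be.clm cx bx (PP om) (opNorm_PP h.om_one)
    simpa using this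
  have np : ‖PP om (xd ch e L zt sg sg' b b')‖ ≤ W := by
    have h1 := norm_PP_sq h.om_one (xd ch e L zt sg sg' b b')
    exact le_of_sq_le_sq (by rw [h1]; exact hq) hW
  have Bp : Bd N (fun y => PP om (xd ch e L zt sg sg' b y)) b' (W + D) :=
    Bd.mk (by linarith) (bp.mono (by linarith))
  have es : (fun y => pq om (xd ch e L zt sg sg' b y)) = fun y =>
      innerSL ℝ (PP om (xd ch e L zt sg sg' b y)) (PP om (xd ch e L zt sg sg' b y)) := by
    funext y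
    rw [innerSL_apply_apply, real_inner_self_eq_norm_sq, norm_PP_sq h.om_one]
  have es' : (fun y => pq om (xd ch e L zt sg sg' b y)) = fun y =>
      ‖PP om (xd ch e L zt sg sg' b y)‖ ^ 2 := by
    funext y
    rw [norm_PP_sq h.om_one]
  have cs : ContDiff ℝ ∞ (fun y => pq om (xd ch e L zt sg sg' b y)) := by
    rw [es']
    exact cp.norm_sq ℝ
  have bs : Bd N (fun y => pq om (xd ch e L zt sg sg' b y)) b' (2 ^ N * (W + D) * (W + D)) := by
    rw [es]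
    exact Bd.bil cp cp (innerSL ℝ) (norm_innerSL_le ℝ) Bp Bp
  have n1 : ‖fderiv ℝ (fun y => PP om (xd ch e L zt sg sg' b y)) b'‖ ≤ D := by
    have := bp 1 le_rfl hN
    rwa [norm_iteratedFDeriv_one] at this
  have fs : ‖fderiv ℝ (fun y => pq om (xd ch e L zt sg sg' b y)) b'‖ ≤ 2 * W * D := by
    rw [es']
    have hd := ((cp.differentiable (by simp) b').hasFDerivAt.norm_sq).fderiv
    rw [hd, two_nsmul]
    have h1 : ‖(innerSL ℝ (PP om (xd ch e L zt sg sg' b b'))).comp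
        (fderiv ℝ (fun y => PP om (xd ch e L zt sg sg' b y)) b')‖ ≤ W * D := by
      refine (ContinuousLinearMap.opNorm_comp_le _ _).trans ?_
      rw [innerSL_apply_norm]
      exact mul_le_mul np n1 (norm_nonneg _) hW
    refine (norm_add_le _ _).trans ?_
    linarith
  have hx : |(inner ℝ om (ch.X (sl e L sg b) - ch.X (sl e L sg' b')) : ℝ)| ≤ 1 / 4 * |(inner ℝ om zt : ℝ)| := by
    refine (abs_real_inner_le_norm _ _).trans ?_
    rw [h.om_one, one_mul]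
    refine (hDm _ _ (sl_norm' hR h hsg hb) (sl_norm' hR h hsg' hb')).trans ?_
    have : 1 / (8 * A) = 1 / A / 8 := by field_simp
    rw [this]
    have := abs_nonneg (inner ℝ om zt : ℝ)
    linarith
  have ht : (inner ℝ om (xd ch e L zt sg sg' b b') : ℝ) =
      inner ℝ om (ch.X (sl e L sg b) - ch.X (sl e L sg' b')) + inner ℝ om zt := by
    rw [xd, inner_add_right]
  have l1 : 3 / 4 * |(inner ℝ om zt : ℝ)| ≤ |(inner ℝ om (xd ch e L zt sg sg' b b') : ℝ)| := by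
    rw [ht]
    have := abs_sub_abs_le_abs_add (inner ℝ om zt : ℝ) (inner ℝ om (ch.X (sl e L sg b) - ch.X (sl e L sg' b')))
    rw [add_comm (inner ℝ om zt : ℝ) _] at this
    linarith
  have l2 : |(inner ℝ om (xd ch e L zt sg sg' b b') : ℝ)| ≤ 5 / 4 * |(inner ℝ om zt : ℝ)| := by
    rw [ht]
    have := abs_add_le (inner ℝ om (ch.X (sl e L sg b) - ch.X (sl e L sg' b')) : ℝ) (inner ℝ om zt)
    linarith
  have l3 : D ≤ D * A * |(inner ℝ om zt : ℝ)| := by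
    calc D = D * 1 := (mul_one D).symm
      _ ≤ D * (A * |(inner ℝ om zt : ℝ)|) := mul_le_mul_of_nonneg_left hAz (by linarith)
      _ = _ := by ring
  have l4 : |(inner ℝ om zt : ℝ)| ≤ D * A * |(inner ℝ om zt : ℝ)| := by
    have h1 : 1 ≤ D * A := by nlinarith
    have := abs_nonneg (inner ℝ om zt : ℝ)
    nlinarith
  refine ⟨cx, ct, cs, bx, bt, Bd.mk ?_ (bt.mono ?_), bs, fs, l1, l2⟩
  · rw [Real.norm_eq_abs]
    linarith
  · linarith

/-- the difference of two blocks -/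
lemma diff' (hR : 0 < R) (hA : 1 ≤ A) (hDm : Dm ch (1 / (8 * A))) (h : Slice ch om e L) {N : ℕ} (hN : 1 ≤ N)
    {sg sg' : ℝ} {zt : EE (m + 2)} {b1 b2 b' : EE m} (hsg : |sg| ≤ 2 * dl (m + 1) R)
    (hsg' : |sg'| ≤ 2 * dl (m + 1) R) (hb1 : ‖b1‖ ≤ 3 * dl (m + 1) R) (hb2 : ‖b2‖ ≤ 3 * dl (m + 1) R)
    (hb' : ‖b'‖ ≤ 3 * dl (m + 1) R)
    (hz : 1 / A ≤ |(inner ℝ om zt : ℝ)|) {W : ℝ} (hW : 0 ≤ W)
    (hq : pq om (xd ch e L zt sg sg' b2 b') ≤ W ^ 2) :
    ∃ c' : ℝ, |c'| ≤ DD M N * ‖b1 - b2‖ ∧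
      (∀ y, (inner ℝ om (xd ch e L zt sg sg' b1 y) : ℝ) = inner ℝ om (xd ch e L zt sg sg' b2 y) + c') ∧
      Bd N (fun y => pq om (xd ch e L zt sg sg' b1 y) - pq om (xd ch e L zt sg sg' b2 y)) b'
        ((2 * W + 2 * DD M N + 1) * (DD M N * ‖b1 - b2‖)) := by
  have hdl := dl_pos (m + 1) hR
  have hD1 := one_le_DD M N
  obtain ⟨cx, -, -, bx, -, -, -, -, -, -⟩ := block' hR hA hDm h hN hsg hsg' hb2 hb' hz hW hq
  set D := DD M N with hDdef
  have cp : ContDiff ℝ ∞ (fun y => PP om (xd ch e L zt sg sg' b2 y)) := (PP om).contDiff.comp cx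
  have bp : Be N (fun y => PP om (xd ch e L zt sg sg' b2 y)) b' D := by
    have := Be.clm cx bx (PP om) (opNorm_PP h.om_one)
    simpa using this
  have np : ‖PP om (xd ch e L zt sg sg' b2 b')‖ ≤ W := by
    have h1 := norm_PP_sq h.om_one (xd ch e L zt sg sg' b2 b')
    exact le_of_sq_le_sq (by rw [h1]; exact hq) hW
  set Dl : EE (m + 2) := ch.X (sl e L sg b1) - ch.X (sl e L sg b2) with hDl
  have m1 : sl e L sg b1 ∈ Metric.closedBall (0 : EE (m + 1)) R := by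
    rw [mem_closedBall_zero_iff]
    exact sl_norm' hR h hsg hb1
  have m2 : sl e L sg b2 ∈ Metric.closedBall (0 : EE (m + 1)) R := by
    rw [mem_closedBall_zero_iff]
    exact sl_norm' hR h hsg hb2
  have nD : ‖Dl‖ ≤ D * ‖b1 - b2‖ := by
    have h1 := (convex_closedBall (0 : EE (m + 1)) R).norm_image_sub_le_of_norm_fderiv_le
      (f := ch.X) (𝕜 := ℝ) (C := D) (fun x _ => ch.smooth.differentiable (by simp) x) (fun x hx => by
        have := le_DD ch (N := N) le_rfl hN (by simpa using hx : ‖x‖ ≤ R)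
        rwa [norm_iteratedFDeriv_one] at this) m2 m1
    refine h1.trans (le_of_eq ?_)
    congr 1
    unfold sl
    rw [add_sub_add_left_eq_sub, ← map_sub, L.norm_map]
  have nD4 : ‖Dl‖ ≤ 1 / 4 := by
    refine (hDm _ _ (by simpa using m1) (by simpa using m2)).trans ?_
    have hA0 : 0 < A := by linarith
    rw [div_le_div_iff₀ (by positivity) (by norm_num)]
    linarith
  have ex : ∀ y, xd ch e L zt sg sg' b1 y = xd ch e L zt sg sg' b2 y + Dl := by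
    intro y
    rw [hDl]
    unfold xd
    abel
  refine ⟨inner ℝ om Dl, ?_, fun y => by rw [ex y, inner_add_right], ?_⟩
  · refine (abs_real_inner_le_norm _ _).trans ?_
    rw [h.om_one, one_mul]
    exact nD
  · have e1 : (fun y => pq om (xd ch e L zt sg sg' b1 y) - pq om (xd ch e L zt sg sg' b2 y)) = fun y =>
        ((2 : ℝ) • innerSL ℝ Dl) (PP om (xd ch e L zt sg sg' b2 y)) + pq om Dl := by
      funext y
      rw [ex y, pq_add, smul_apply, innerSL_apply_apply, smul_eq_mul,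
        real_inner_comm]
      ring
    rw [e1]
    have hn : ‖(2 : ℝ) • innerSL ℝ Dl‖ ≤ 2 * ‖Dl‖ := by
      rw [norm_smul, innerSL_apply_norm]
      norm_num
    have hp0 := pq_nonneg h.om_one Dl
    have hp1 := pq_le (om := om) Dl
    have hD0 := norm_nonneg Dl
    refine Bd.mono (B := (2 * W + 2 * D + 1) * ‖Dl‖) (Bd.mk ?_ ((Be.clm cp bp _ hn).add_const _ |>.mono ?_))
      (mul_le_mul_of_nonneg_left nD (by positivity))
    · refine (norm_add_le _ _).trans ?_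
      have h1 := ((2 : ℝ) • innerSL ℝ Dl).le_opNorm (PP om (xd ch e L zt sg sg' b2 b'))
      have h2 : ‖(2 : ℝ) • innerSL ℝ Dl‖ * ‖PP om (xd ch e L zt sg sg' b2 b')‖ ≤ 2 * ‖Dl‖ * W :=
        mul_le_mul hn np (norm_nonneg _) (by positivity)
      rw [Real.norm_eq_abs (pq om Dl), abs_of_nonneg hp0]
      nlinarith
    · nlinarith

end slice

/-! ## Arithmetic -/

section arith

/-- part 1 -/
lemma part1' {k F P K M D DN nb c lam La ta W g0 A : ℝ} (hA : 1 ≤ A) (hk : 0 ≤ k) (hF : 0 ≤ F) (hP : 0 ≤ P) (hK : 0 ≤ K)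
    (hD : 1 ≤ D) (hDN : 0 ≤ DN) (hnb : 0 ≤ nb) (hc : |c| ≤ D * nb) (hlam : 1 ≤ lam) (hLa : 1 ≤ La)
    (hta : 1 / A ≤ ta) (hW0 : 0 ≤ W) (hW : W ≤ 6 * La ^ 2) (hM : M = 4 / 3 / ta) (hg : g0 = F * K * DN) :
    k / 2 * (F * (|c| * (P * (K * M) * (K * M))) * DN) +
      lam / 2 * (P * ((2 * W + 2 * D + 1) * (D * nb)) * (F * (K * M) * DN)) +
      lam / 2 * |c| * (P * (P * (W + D) * (W + D)) * (P * (F * (K * M) * DN) * (F * (K * M) * DN))) ≤
    (k / 2 * (F * (D * (P * K * K)) * DN) * (16 / 9 * A) + 1 / 2 * (P * (15 * D ^ 2) * g0) * (4 / 3) +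
      1 / 2 * D * (P * (P * (49 * D ^ 2)) * (P * g0 * g0)) * (16 / 9 * A)) * La ^ 4 * (lam / ta) * nb := by
  have hA0 : 0 < A := by linarith
  have hta0 : 0 < ta := lt_of_lt_of_le (by positivity) hta
  have hAta : 1 ≤ A * ta := by
    rw [div_le_iff₀ hA0] at hta
    linarith
  have hlam0 : 0 < lam := by linarith
  have hD0 : 0 < D := by linarith
  have La2 : 1 ≤ La ^ 2 := one_le_pow₀ hLa
  have La4 : La ^ 2 ≤ La ^ 4 := pow_le_pow_right₀ hLa (by norm_num)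
  have La4' : 1 ≤ La ^ 4 := one_le_pow₀ hLa
  have hg0 : 0 ≤ g0 := by rw [hg]; positivity
  have hM0 : 0 ≤ M := by rw [hM]; positivity
  have hq : 0 ≤ lam / ta := by positivity
  have hlM : lam * M = 4 / 3 * (lam / ta) := by rw [hM]; ring
  have hM43 : M ≤ 4 / 3 * A := by
    rw [hM, div_le_iff₀ hta0]
    linarith
  have hlMM : lam * (M * M) ≤ 16 / 9 * A * (lam / ta) := by
    calc lam * (M * M) = (lam * M) * M := by ring
      _ ≤ (lam * M) * (4 / 3 * A) := mul_le_mul_of_nonneg_left hM43 (by positivity)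
      _ = _ := by rw [hlM]; ring
  have hMM : M * M ≤ 16 / 9 * A * (lam / ta) := by
    refine le_trans ?_ hlMM
    have : 0 ≤ M * M := by positivity
    nlinarith
  have hc0 := abs_nonneg c
  have hDn : 0 ≤ D * nb := by positivity
  have A1 : 2 * W + 2 * D + 1 ≤ 15 * D * La ^ 2 := by nlinarith
  have A2 : W + D ≤ 7 * D * La ^ 2 := by nlinarith
  have A22 : (W + D) * (W + D) ≤ 49 * D ^ 2 * La ^ 4 := by
    calc (W + D) * (W + D) ≤ (7 * D * La ^ 2) * (7 * D * La ^ 2) :=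
          mul_le_mul A2 A2 (by positivity) (by positivity)
      _ = _ := by ring
  have t1 : k / 2 * (F * (|c| * (P * (K * M) * (K * M))) * DN) ≤
      k / 2 * (F * (D * (P * K * K)) * DN) * (16 / 9 * A) * La ^ 4 * (lam / ta) * nb := by
    calc k / 2 * (F * (|c| * (P * (K * M) * (K * M))) * DN)
        = (k / 2 * F * DN * (P * K * K)) * (|c| * (M * M)) := by ring
      _ ≤ (k / 2 * F * DN * (P * K * K)) * ((D * nb) * (16 / 9 * A * (lam / ta))) :=
          mm (by positivity) hc hMM (by positivity) hDn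
      _ = (k / 2 * (F * (D * (P * K * K)) * DN) * (16 / 9 * A) * (lam / ta) * nb) * 1 := by ring
      _ ≤ (k / 2 * (F * (D * (P * K * K)) * DN) * (16 / 9 * A) * (lam / ta) * nb) * La ^ 4 :=
          mul_le_mul_of_nonneg_left La4' (by positivity)
      _ = _ := by ring
  have t2 : lam / 2 * (P * ((2 * W + 2 * D + 1) * (D * nb)) * (F * (K * M) * DN)) ≤
      1 / 2 * (P * (15 * D ^ 2) * g0) * (4 / 3) * La ^ 4 * (lam / ta) * nb := by
    calc lam / 2 * (P * ((2 * W + 2 * D + 1) * (D * nb)) * (F * (K * M) * DN))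
        = (1 / 2 * P * (F * K * DN) * (D * nb) * (lam * M)) * (2 * W + 2 * D + 1) := by ring
      _ ≤ (1 / 2 * P * (F * K * DN) * (D * nb) * (lam * M)) * (15 * D * La ^ 2) :=
          mul_le_mul_of_nonneg_left A1 (by positivity)
      _ = (1 / 2 * (P * (15 * D ^ 2) * g0) * (4 / 3) * (lam / ta) * nb) * La ^ 2 := by
          rw [hlM, hg]; ring
      _ ≤ (1 / 2 * (P * (15 * D ^ 2) * g0) * (4 / 3) * (lam / ta) * nb) * La ^ 4 :=
          mul_le_mul_of_nonneg_left La4 (by positivity)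
      _ = _ := by ring
  have t3 : lam / 2 * |c| * (P * (P * (W + D) * (W + D)) * (P * (F * (K * M) * DN) * (F * (K * M) * DN))) ≤
      1 / 2 * D * (P * (P * (49 * D ^ 2)) * (P * g0 * g0)) * (16 / 9 * A) * La ^ 4 * (lam / ta) * nb := by
    calc lam / 2 * |c| * (P * (P * (W + D) * (W + D)) * (P * (F * (K * M) * DN) * (F * (K * M) * DN)))
        = (1 / 2 * P * P * P * g0 * g0 * (lam * (M * M))) * (|c| * ((W + D) * (W + D))) := by
          rw [hg]; ring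
      _ ≤ (1 / 2 * P * P * P * g0 * g0 * (lam * (M * M))) * ((D * nb) * (49 * D ^ 2 * La ^ 4)) :=
          mm (by positivity) hc A22 (by positivity) hDn
      _ = (1 / 2 * P * P * P * g0 * g0 * (D * nb) * (49 * D ^ 2 * La ^ 4)) * (lam * (M * M)) := by ring
      _ ≤ (1 / 2 * P * P * P * g0 * g0 * (D * nb) * (49 * D ^ 2 * La ^ 4)) * (16 / 9 * A * (lam / ta)) :=
          mul_le_mul_of_nonneg_left hlMM (by positivity)
      _ = _ := by ring
  calc _ ≤ _ := add_le_add (add_le_add t1 t2) t3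
    _ = _ := by ring


/-- part 2 -/
lemma part2' {k F P K M D D' DN lam r La ta W g0 v T0 : ℝ} (hk : 0 ≤ k) (hF : 0 ≤ F) (hP : 0 ≤ P) (hK : 0 ≤ K)
    (hD : 1 ≤ D) (hDN : 0 ≤ DN) (hlam : 1 ≤ lam) (hr : 1 ≤ r) (hLa : 1 ≤ La) (hT0 : 1 ≤ T0)
    (hta : 0 < ta) (hW0 : 0 ≤ W) (hW : W ≤ 6 * La ^ 2) (hM : M = 4 / 3 / ta) (hg : g0 = F * K * DN)
    (hv : v = lam / (r * ta)) (hrl : r ≤ lam) (htT : ta ≤ 2 * La * T0) (h1v : 1 ≤ 2 * La * v) :
    1 / (4 * T0 ^ 2) * (P * (9 / 4 * D' * ta) * (9 / 4 * D' * ta)) + k / 2 * (F * (K * M) * DN) +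
      lam ^ 2 / r ^ 2 * (P * (P * (W + D) * (W + D)) * (P * (F * (K * M) * DN) * (F * (K * M) * DN))) ≤
    (1 / 4 * (P * (81 / 16) * D' ^ 2) * 16 + k / 2 * (F * K * DN) * (4 / 3) * 2 +
      P * (P * (49 * D ^ 2)) * (P * g0 * g0) * (16 / 9)) * La ^ 6 * v ^ 2 := by
  have hlam0 : 0 < lam := by linarith
  have hr0 : 0 < r := by linarith
  have hD0 : 0 < D := by linarith
  have hL0 : 0 < La := by linarith
  have hT00 : 0 < T0 := by linarith
  have La2 : 1 ≤ La ^ 2 := one_le_pow₀ hLa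
  have La16 : La ≤ La ^ 6 := le_self_pow₀ hLa (by norm_num)
  have La46 : La ^ 4 ≤ La ^ 6 := pow_le_pow_right₀ hLa (by norm_num)
  have hg0 : 0 ≤ g0 := by rw [hg]; positivity
  have hv0 : 0 < v := by rw [hv]; positivity
  have h3 : 1 / ta ≤ 2 * La * v ^ 2 := by
    have e1 : 1 / ta = v * (r / lam) := by rw [hv]; field_simp
    have e2 : r / lam ≤ 1 := (div_le_one hlam0).2 hrl
    calc 1 / ta = v * (r / lam) := e1
      _ ≤ v * 1 := mul_le_mul_of_nonneg_left e2 hv0.le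
      _ ≤ v * (2 * La * v) := mul_le_mul_of_nonneg_left h1v hv0.le
      _ = _ := by ring
  have h4 : (ta / T0) ^ 2 ≤ 16 * La ^ 4 * v ^ 2 := by
    have e1 : ta / T0 ≤ 2 * La := by
      rw [div_le_iff₀ hT00]
      exact htT
    have e2 : ta / T0 ≤ 4 * La ^ 2 * v := by
      calc ta / T0 ≤ 2 * La * 1 := by rw [mul_one]; exact e1
        _ ≤ 2 * La * (2 * La * v) := mul_le_mul_of_nonneg_left h1v (by positivity)
        _ = _ := by ring
    calc (ta / T0) ^ 2 ≤ (4 * La ^ 2 * v) ^ 2 := pow_le_pow_left₀ (by positivity) e2 2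
      _ = _ := by ring
  have A2 : W + D ≤ 7 * D * La ^ 2 := by nlinarith
  have A22 : (W + D) * (W + D) ≤ 49 * D ^ 2 * La ^ 4 := by
    calc (W + D) * (W + D) ≤ (7 * D * La ^ 2) * (7 * D * La ^ 2) :=
          mul_le_mul A2 A2 (by positivity) (by positivity)
      _ = _ := by ring
  have t1 : 1 / (4 * T0 ^ 2) * (P * (9 / 4 * D' * ta) * (9 / 4 * D' * ta)) ≤
      1 / 4 * (P * (81 / 16) * D' ^ 2) * 16 * La ^ 6 * v ^ 2 := by
    calc 1 / (4 * T0 ^ 2) * (P * (9 / 4 * D' * ta) * (9 / 4 * D' * ta))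
        = 1 / 4 * (P * (81 / 16) * D' ^ 2) * (ta / T0) ^ 2 := by field_simp; ring
      _ ≤ 1 / 4 * (P * (81 / 16) * D' ^ 2) * (16 * La ^ 4 * v ^ 2) :=
          mul_le_mul_of_nonneg_left h4 (by positivity)
      _ = (1 / 4 * (P * (81 / 16) * D' ^ 2) * 16 * v ^ 2) * La ^ 4 := by ring
      _ ≤ (1 / 4 * (P * (81 / 16) * D' ^ 2) * 16 * v ^ 2) * La ^ 6 :=
          mul_le_mul_of_nonneg_left La46 (by positivity)
      _ = _ := by ring
  have t2 : k / 2 * (F * (K * M) * DN) ≤ k / 2 * (F * K * DN) * (4 / 3) * 2 * La ^ 6 * v ^ 2 := by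
    calc k / 2 * (F * (K * M) * DN) = (k / 2 * (F * K * DN) * (4 / 3)) * (1 / ta) := by rw [hM]; ring
      _ ≤ (k / 2 * (F * K * DN) * (4 / 3)) * (2 * La * v ^ 2) :=
          mul_le_mul_of_nonneg_left h3 (by positivity)
      _ = (k / 2 * (F * K * DN) * (4 / 3) * 2 * v ^ 2) * La := by ring
      _ ≤ (k / 2 * (F * K * DN) * (4 / 3) * 2 * v ^ 2) * La ^ 6 :=
          mul_le_mul_of_nonneg_left La16 (by positivity)
      _ = _ := by ring
  have hlm : lam ^ 2 / r ^ 2 * (M * M) = 16 / 9 * v ^ 2 := by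
    rw [hM, hv]
    field_simp
    ring
  have t3 : lam ^ 2 / r ^ 2 * (P * (P * (W + D) * (W + D)) * (P * (F * (K * M) * DN) * (F * (K * M) * DN))) ≤
      P * (P * (49 * D ^ 2)) * (P * g0 * g0) * (16 / 9) * La ^ 6 * v ^ 2 := by
    calc lam ^ 2 / r ^ 2 * (P * (P * (W + D) * (W + D)) * (P * (F * (K * M) * DN) * (F * (K * M) * DN)))
        = (P * P * P * g0 * g0 * (lam ^ 2 / r ^ 2 * (M * M))) * ((W + D) * (W + D)) := by
          rw [hg]; ring
      _ ≤ (P * P * P * g0 * g0 * (lam ^ 2 / r ^ 2 * (M * M))) * (49 * D ^ 2 * La ^ 4) := by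
          refine mul_le_mul_of_nonneg_left A22 ?_
          rw [hlm]
          positivity
      _ = (P * (P * (49 * D ^ 2)) * (P * g0 * g0) * (16 / 9) * v ^ 2) * La ^ 4 := by rw [hlm]; ring
      _ ≤ (P * (P * (49 * D ^ 2)) * (P * g0 * g0) * (16 / 9) * v ^ 2) * La ^ 6 :=
          mul_le_mul_of_nonneg_left La46 (by positivity)
      _ = _ := by ring
  calc _ ≤ _ := add_le_add (add_le_add t1 t2) t3
    _ = _ := by ring

/-- part 3 -/
lemma part3' {k M D lam r La ta W v T S T0 : ℝ} (hk : 0 ≤ k)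
    (hD : 1 ≤ D) (hlam : 1 ≤ lam) (hr : 1 ≤ r) (hLa : 1 ≤ La) (hT0 : 1 ≤ T0)
    (hta : 0 < ta) (hW : W = 3 * La * (r * ta / lam)) (hM : M = 4 / 3 / ta)
    (hv : v = lam / (r * ta)) (hrl : r ≤ lam) (htT : ta ≤ 2 * La * T0) (h1v : 1 ≤ 2 * La * v)
    (hT : |T| ≤ 5 / 4 * ta) (hS : |S| ≤ W ^ 2) :
    1 / (4 * T0 ^ 2) * (2 * |T| * D) + k / 2 * (M * D) +
      lam ^ 2 / r ^ 2 * (|S| * (2 * M ^ 3 * D) + 2 * W * D * M ^ 2) ≤
    (5 / 8 * D * 4 + k / 2 * (4 / 3) * D + (9 * (2 * (64 / 27)) * D + 6 * D * (16 / 9))) *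
      La ^ 4 * v := by
  have hlam0 : 0 < lam := by linarith
  have hr0 : 0 < r := by linarith
  have hD0 : 0 < D := by linarith
  have hL0 : 0 < La := by linarith
  have hT00 : 0 < T0 := by linarith
  have hM0 : 0 ≤ M := by rw [hM]; positivity
  have La24 : La ^ 2 ≤ La ^ 4 := pow_le_pow_right₀ hLa (by norm_num)
  have La04 : 1 ≤ La ^ 4 := one_le_pow₀ hLa
  have La14 : La ≤ La ^ 4 := le_self_pow₀ hLa (by norm_num)
  have hv0 : 0 < v := by rw [hv]; positivity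
  have hwv : (r * ta / lam) * v = 1 := by rw [hv]; exact ar_wv hlam0 hr0 hta
  have h1 : 1 / ta ≤ v := by
    have e1 : 1 / ta = v * (r / lam) := by rw [hv]; field_simp
    have e2 : r / lam ≤ 1 := (div_le_one hlam0).2 hrl
    calc 1 / ta = v * (r / lam) := e1
      _ ≤ v * 1 := mul_le_mul_of_nonneg_left e2 hv0.le
      _ = v := mul_one v
  have t1 : 1 / (4 * T0 ^ 2) * (2 * |T| * D) ≤ 5 / 8 * D * 4 * La ^ 4 * v := by
    have e1 : ta / T0 ^ 2 ≤ 4 * La ^ 2 * v := by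
      calc ta / T0 ^ 2 ≤ 2 * La * T0 / T0 ^ 2 := by gcongr
        _ = 2 * La * (1 / T0) := by field_simp
        _ ≤ 2 * La * 1 := by
            refine mul_le_mul_of_nonneg_left ?_ (by positivity)
            rw [div_le_one hT00]
            exact hT0
        _ ≤ 2 * La * (2 * La * v) := mul_le_mul_of_nonneg_left h1v (by positivity)
        _ = _ := by ring
    calc 1 / (4 * T0 ^ 2) * (2 * |T| * D) = (1 / (2 * T0 ^ 2) * D) * |T| := by field_simp; ring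
      _ ≤ (1 / (2 * T0 ^ 2) * D) * (5 / 4 * ta) := mul_le_mul_of_nonneg_left hT (by positivity)
      _ = (5 / 8 * D) * (ta / T0 ^ 2) := by field_simp; ring
      _ ≤ (5 / 8 * D) * (4 * La ^ 2 * v) := mul_le_mul_of_nonneg_left e1 (by positivity)
      _ = (5 / 8 * D * 4 * v) * La ^ 2 := by ring
      _ ≤ (5 / 8 * D * 4 * v) * La ^ 4 := mul_le_mul_of_nonneg_left La24 (by positivity)
      _ = _ := by ring
  have t2 : k / 2 * (M * D) ≤ k / 2 * (4 / 3) * D * La ^ 4 * v := by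
    calc k / 2 * (M * D) = (k / 2 * (4 / 3) * D) * (1 / ta) := by rw [hM]; ring
      _ ≤ (k / 2 * (4 / 3) * D) * v := mul_le_mul_of_nonneg_left h1 (by positivity)
      _ = (k / 2 * (4 / 3) * D * v) * 1 := by ring
      _ ≤ (k / 2 * (4 / 3) * D * v) * La ^ 4 := mul_le_mul_of_nonneg_left La04 (by positivity)
      _ = _ := by ring
  have hlm : lam ^ 2 / r ^ 2 * M ^ 2 = 16 / 9 * v ^ 2 := by
    rw [hM, hv]
    field_simp
    ring
  have hWv : W * v = 3 * La := by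
    rw [hW]
    calc 3 * La * (r * ta / lam) * v = 3 * La * ((r * ta / lam) * v) := by ring
      _ = _ := by rw [hwv, mul_one]
  have t3 : lam ^ 2 / r ^ 2 * (|S| * (2 * M ^ 3 * D) + 2 * W * D * M ^ 2) ≤
      (9 * (2 * (64 / 27)) * D + 6 * D * (16 / 9)) * La ^ 4 * v := by
    have s1 : lam ^ 2 / r ^ 2 * (|S| * (2 * M ^ 3 * D)) ≤ 9 * (2 * (64 / 27)) * D * La ^ 4 * v := by
      calc lam ^ 2 / r ^ 2 * (|S| * (2 * M ^ 3 * D))
          = (lam ^ 2 / r ^ 2 * M ^ 2 * (2 * M * D)) * |S| := by ring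
        _ ≤ (lam ^ 2 / r ^ 2 * M ^ 2 * (2 * M * D)) * W ^ 2 :=
            mul_le_mul_of_nonneg_left hS (by positivity)
        _ = 16 / 9 * (2 * (4 / 3) * D) * (W * v) ^ 2 * (1 / ta) := by rw [hlm, hM]; ring
        _ = (9 * (2 * (64 / 27)) * D * La ^ 2) * (1 / ta) := by rw [hWv]; ring
        _ ≤ (9 * (2 * (64 / 27)) * D * La ^ 2) * v :=
            mul_le_mul_of_nonneg_left h1 (by positivity)
        _ = (9 * (2 * (64 / 27)) * D * v) * La ^ 2 := by ring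
        _ ≤ (9 * (2 * (64 / 27)) * D * v) * La ^ 4 := mul_le_mul_of_nonneg_left La24 (by positivity)
        _ = _ := by ring
    have s2 : lam ^ 2 / r ^ 2 * (2 * W * D * M ^ 2) ≤ 6 * D * (16 / 9) * La ^ 4 * v := by
      calc lam ^ 2 / r ^ 2 * (2 * W * D * M ^ 2) = 2 * D * (lam ^ 2 / r ^ 2 * M ^ 2) * W := by ring
        _ = 2 * D * (16 / 9) * v * (W * v) := by rw [hlm]; ring
        _ = (6 * D * (16 / 9) * v) * La := by rw [hWv]; ring
        _ ≤ (6 * D * (16 / 9) * v) * La ^ 4 := mul_le_mul_of_nonneg_left La14 (by positivity)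
        _ = _ := by ring
    calc _ = lam ^ 2 / r ^ 2 * (|S| * (2 * M ^ 3 * D)) + lam ^ 2 / r ^ 2 * (2 * W * D * M ^ 2) := by ring
      _ ≤ _ := add_le_add s1 s2
      _ = _ := by ring
  calc _ ≤ _ := add_le_add (add_le_add t1 t2) t3
    _ = _ := by ring

end arith

theorem specDBU : SpecDBU := by
  intro m c R A Mc hA hcls N0
  have hR := hcls.R_pos
  have hA0 : 0 < A := by linarith
  -- we may assume `N ≥ 1`
  obtain ⟨N, hN1, hN0⟩ : ∃ N : ℕ, 1 ≤ N ∧ N0 ≤ N := ⟨N0 + 1, by omega, by omega⟩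
  obtain ⟨D, hDdef⟩ : ∃ D : ℝ, D = DD Mc N := ⟨_, rfl⟩
  have hD1 : 1 ≤ D := by rw [hDdef]; exact one_le_DD Mc N
  have hD0 : 0 < D := by linarith
  obtain ⟨M1, hM1def⟩ : ∃ M1 : ℝ, M1 = 4 / 3 * A := ⟨_, rfl⟩
  have h01 : 1 ≤ M1 := by rw [hM1def]; linarith
  obtain ⟨K, hKdef⟩ : ∃ K : ℝ, K = KA N M1 := ⟨_, rfl⟩
  have hK : 0 < K := by rw [hKdef]; exact KA_pos N h01
  have hk0 : (0 : ℝ) ≤ ((m + 1 : ℕ) : ℝ) := Nat.cast_nonneg _
  have hF0 : (0 : ℝ) ≤ (N.factorial : ℝ) := Nat.cast_nonneg _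
  have hP0 : (0 : ℝ) ≤ 2 ^ N := by positivity
  have hDN : (0 : ℝ) ≤ D ^ N := by positivity
  obtain ⟨g0, hg0⟩ : ∃ g0 : ℝ, g0 = N.factorial * K * D ^ N := ⟨_, rfl⟩
  have hg0p : 0 ≤ g0 := by rw [hg0]; positivity
  obtain ⟨C1, hC1⟩ : ∃ C : ℝ, C = (((m + 1 : ℕ) : ℝ) / 2 * (N.factorial * (D * (2 ^ N * K * K)) * D ^ N) *
    (16 / 9 * A) + 1 / 2 * (2 ^ N * (15 * D ^ 2) * g0) * (4 / 3) +
      1 / 2 * D * (2 ^ N * (2 ^ N * (49 * D ^ 2)) * (2 ^ N * g0 * g0)) * (16 / 9 * A)) := ⟨_, rfl⟩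
  obtain ⟨C2, hC2⟩ : ∃ C : ℝ, C = (1 / 4 * (2 ^ N * (81 / 16) * (D * A) ^ 2) * 16 +
    ((m + 1 : ℕ) : ℝ) / 2 * (N.factorial * K * D ^ N) * (4 / 3) * 2 +
      2 ^ N * (2 ^ N * (49 * D ^ 2)) * (2 ^ N * g0 * g0) * (16 / 9)) := ⟨_, rfl⟩
  obtain ⟨C3, hC3⟩ : ∃ C : ℝ, C = (5 / 8 * D * 4 + ((m + 1 : ℕ) : ℝ) / 2 * (4 / 3) * D +
    (9 * (2 * (64 / 27)) * D + 6 * D * (16 / 9))) := ⟨_, rfl⟩
  have p1 : 0 ≤ C1 := by rw [hC1]; positivity
  have p2 : 0 ≤ C2 := by rw [hC2]; positivity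
  have p3 : 0 ≤ C3 := by rw [hC3]; positivity
  refine ⟨1 + C1 + C2 + C3, by linarith, ?_⟩
  intro ch hDm om e L hS lam r T La sg sg' zt b1 b2 b' hP hLa htT hsg hsg' hb1 hb2 hb' hq1 hq2
  obtain ⟨hlam, hr, -, hT1, hrT, htz, -⟩ := hP
  have hl0 : 0 < lam := by linarith
  have hr0 : 0 < r := by linarith
  have hL0 : 0 < La := by linarith
  have hT0 : 0 < T := by linarith
  have hrl : r ≤ lam := (le_mul_of_one_le_right hr0.le hT1).trans hrT
  unfold wz at hq1 hq2 ⊢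
  obtain ⟨ta, hta⟩ : ∃ ta : ℝ, ta = |(inner ℝ om zt : ℝ)| := ⟨_, rfl⟩
  rw [← hta] at htz htT hq1 hq2 ⊢
  have ht0 : 0 < ta := lt_of_lt_of_le (by positivity) htz
  have htl : r * ta ≤ 2 * La * lam := by
    calc r * ta ≤ r * (2 * La * T) := mul_le_mul_of_nonneg_left htT hr0.le
      _ = 2 * La * (r * T) := by ring
      _ ≤ 2 * La * lam := mul_le_mul_of_nonneg_left hrT (by positivity)
  obtain ⟨W, hW⟩ : ∃ W : ℝ, W = 3 * La * (r * ta / lam) := ⟨_, rfl⟩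
  rw [← hW] at hq1 hq2
  have hW0 : 0 ≤ W := by rw [hW]; positivity
  have hw2 := ar_w hl0 htl
  have hW6 : W ≤ 6 * La ^ 2 := by
    rw [hW]
    calc 3 * La * (r * ta / lam) ≤ 3 * La * (2 * La) := mul_le_mul_of_nonneg_left hw2 (by positivity)
      _ = _ := by ring
  obtain ⟨cx1, ct1, cs1, bx1, bt1, Bt1, Bs1, fs1, l1, u1⟩ :=
    block' (N := N) hR hA hDm hS hN1 hsg hsg' hb1 hb' (by rw [← hta]; exact htz) hW0 hq1
  obtain ⟨cx2, ct2, cs2, bx2, bt2, Bt2, Bs2, fs2, l2, u2⟩ :=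
    block' (N := N) hR hA hDm hS hN1 hsg hsg' hb2 hb' (by rw [← hta]; exact htz) hW0 hq2
  obtain ⟨c', hc, hTT, Bds⟩ :=
    diff' (N := N) hR hA hDm hS hN1 hsg hsg' hb1 hb2 hb' (by rw [← hta]; exact htz) hW0 hq2
  rw [← hta] at Bt1 l1 u1 l2
  rw [← hDdef] at bt1 Bt1 Bs1 fs1 bt2 Bs2 hc Bds
  obtain ⟨M, hM⟩ : ∃ M : ℝ, M = 4 / 3 / ta := ⟨_, rfl⟩
  have hM0 : 0 < M := by rw [hM]; positivity
  have hM1 : M ≤ M1 := by
    rw [hM, hM1def, div_le_iff₀ ht0]
    have h1 : 1 ≤ ta * A := by rwa [div_le_iff₀ hA0] at htz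
    linarith
  have hMi : M⁻¹ = 3 / 4 * ta := by
    rw [hM]
    field_simp
  have g1 : ‖gg (zz lam r) (inner ℝ om (xd ch e L zt sg sg' b1 b'))‖ ≤ M :=
    norm_gg_le hM0 (by rw [hMi]; exact l1)
  have g2 : ‖gg (zz lam r) (inner ℝ om (xd ch e L zt sg sg' b2 b'))‖ ≤ M :=
    norm_gg_le hM0 (by rw [hMi]; exact l2)
  obtain ⟨v, hv⟩ : ∃ v : ℝ, v = lam / (r * ta) := ⟨_, rfl⟩
  have hv0 : 0 < v := by rw [hv]; positivity
  have hwv : (r * ta / lam)⁻¹ = v := by rw [hv, inv_div]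
  have h1v : 1 ≤ 2 * La * v := by
    rw [hv, ← mul_div_assoc, le_div_iff₀ (by positivity), one_mul]
    exact htl
  rw [hwv]
  refine ⟨fun j h1 hj => ?_, fun j h1 hj => ?_, ?_⟩
  · have h := abs_im' (k := m + 1) (T0 := T) h01 hl0 hr0 ct1 ct2 cs1 cs2 hTT hD1 bt2 Bds Bs2 g1 g2 hM1 j h1
      (hj.trans hN0)
    refine h.trans ?_
    unfold GA0
    rw [← hKdef]
    have hh := part1' hA (k := ((m + 1 : ℕ) : ℝ)) hk0 hF0 hP0 hK.le hD1 hDN (norm_nonneg (b1 - b2)) hc hlam hLa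
      htz hW0 hW6 hM hg0
    rw [← hC1] at hh
    exact hh.trans (fin3 (by linarith) (by positivity) (by positivity) (norm_nonneg _))
  · have h := abs_re' (k := m + 1) (T0 := T) h01 hl0 hr0 ct1 cs1 hD1 bt1 Bt1 Bs1 g1 hM1 j (by omega) (hj.trans hN0)
    refine h.trans ?_
    unfold GA0
    rw [← hKdef]
    have hh := part2' (k := ((m + 1 : ℕ) : ℝ)) (D' := D * A) hk0 hF0 hP0 hK.le hD1 hDN hlam hr hLa hT1
      ht0 hW0 hW6 hM hg0 hv hrl htT h1v
    rw [← hC2] at hh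
    exact hh.trans (fin2 (by linarith) (by positivity) (by positivity))
  · have ft : ‖fderiv ℝ (fun y => (inner ℝ om (xd ch e L zt sg sg' b1 y) : ℝ)) b'‖ ≤ D := by
      have := bt1 1 le_rfl hN1
      rwa [norm_iteratedFDeriv_one] at this
    have h := abs_re1' (k := m + 1) (T0 := T) hl0 hr0 ct1 cs1 ft fs1 g1
    refine h.trans ?_
    have hS2 : |pq om (xd ch e L zt sg sg' b1 b')| ≤ W ^ 2 := by
      rw [abs_of_nonneg (pq_nonneg hS.om_one _)]
      exact hq1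
    have hh := part3' (k := ((m + 1 : ℕ) : ℝ)) hk0 hD1 hlam hr hLa hT1 ht0 hW hM hv hrl htT h1v u1 hS2
    rw [← hC3] at hh
    exact hh.trans (fin2 (by linarith) (by positivity) (by positivity))

end Pool.Agent.Lib.MP_a8dae7_an.UN.Z_DBUM
end
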