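import Pool.Agent.Lib.MP_a8dae7_an.UN.SpecZ
import Pool.Agent.Lib.MP_a8dae7_an.UN.SpecB
import Pool.Agent.Lib.MP_a8dae7_an.CV.GB

/-!
# MP_a8dae7_an, UN: module GBU, lower bound of the gradient of the imaginary part

`Im FF` does not contain `T`, so it is the `Im FF` of CV; `CV.GBM.key` is applied to the rescaled data
`lam' = A lam`, `t' = A t`, `g' = A g` (which leave `dF` unchanged).
-/

set_option autoImplicit false

open MeasureTheory
open scoped ContDiff

namespace Pool.Agent.Lib.MP_a8dae7_an.UN.GBUM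

open Pool.Agent.Lib.MP_a8dae7_an.CV (EE zv ex pq pi2 AA sl bm)
open Pool.Agent.Lib.MP_a8dae7_an.CV.GBM (ss dF key pi2_eq pq_eq pq_nonneg pi2_le pi2_comm pi2_sub_left pq_sub
  pi2_neg hasDerivAt_FF differentiable_FF)

/-- the imaginary part does not depend on `T` -/
theorem im_FF {k : ℕ} (om : EE (k + 1)) (lam r T : ℝ) (x : EE (k + 1)) :
    (FF om lam r T x).im = (CV.FF om lam r x).im := by
  unfold FF CV.FF
  rw [Complex.sub_im, Complex.sub_im, Complex.sub_im, Complex.sub_im, Complex.neg_im, Complex.neg_im,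
    Complex.ofReal_im, Complex.ofReal_im]

/-- scaling -/
theorem dF_scale (k : ℕ) (lam r re g p P t A : ℝ) (hA : A ≠ 0) :
    dF k (A * lam) r re (A * g) p P (A * t) = dF k lam r re g p P t := by
  have hAC : (A : ℂ) ≠ 0 := by exact_mod_cast hA
  have hs : ss (A * lam) r (A * t) = A * ss lam r t := by
    unfold ss
    push_cast
    ring
  unfold dF
  rw [hs]
  push_cast
  rcases eq_or_ne (ss lam r t) 0 with h | h
  · rw [h]; simp
  · field_simp

theorem dl_pos {k : ℕ} {R : ℝ} (hR : 0 < R) : 0 < dl k R := by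
  unfold dl
  positivity

theorem dl_le {m : ℕ} {R : ℝ} (hR : 0 < R) : 5 * dl (m + 1) R ≤ R := by
  unfold dl
  rw [← mul_div_assoc, div_le_iff₀ (by positivity), pow_succ]
  have h1 : (1 : ℝ) ≤ 32 ^ m := one_le_pow₀ (by norm_num)
  nlinarith

theorem norm_sl_le {m : ℕ} {e : EE (m + 1)} (L : EE m →ₗᵢ[ℝ] EE (m + 1)) (he : ‖e‖ = 1) {R sg : ℝ}
    {b : EE m} (hR : 0 < R) (hs : |sg| ≤ 2 * dl (m + 1) R) (hb : ‖b‖ ≤ 3 * dl (m + 1) R) :
    ‖sl e L sg b‖ ≤ R := by
  have h1 : ‖sl e L sg b‖ ≤ |sg| + ‖b‖ := by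
    unfold sl
    calc ‖sg • e + L b‖ ≤ ‖sg • e‖ + ‖L b‖ := norm_add_le _ _
      _ = |sg| + ‖b‖ := by rw [norm_smul, he, L.norm_map, Real.norm_eq_abs, mul_one]
  have := dl_le (m := m) hR
  linarith

theorem sl_sub {m : ℕ} {e : EE (m + 1)} {L : EE m →ₗᵢ[ℝ] EE (m + 1)} (sg : ℝ) (b1 b2 : EE m) :
    sl e L sg b1 - sl e L sg b2 = L (b1 - b2) := by
  rw [sl, sl, map_sub]
  abel

variable {m : ℕ} {c R : ℝ} {M : ℕ → ℝ} {ch : UChart (m + 1) c R M} {om : EE (m + 2)} {e : EE (m + 1)}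
  {L : EE m →ₗᵢ[ℝ] EE (m + 1)}

theorem mono_X (hCX : SpecCX) (hC : Cls c R M) (hS : Slice ch om e L) {sg : ℝ} {b1 b2 : EE m}
    {q3 : EE (m + 1)} (hsg : |sg| ≤ 2 * dl (m + 1) R) (h1 : ‖b1‖ ≤ 3 * dl (m + 1) R)
    (h2 : ‖b2‖ ≤ 3 * dl (m + 1) R) (h3 : ‖q3‖ ≤ R) :
    c ^ 2 / 2 * ‖b1 - b2‖ ^ 2 ≤ pi2 om (ch.X (sl e L sg b1) - ch.X (sl e L sg b2))
      (fderiv ℝ ch.X q3 (L (b1 - b2))) := by
  set v : EE m := b1 - b2 with hv
  set w : EE (m + 2) := fderiv ℝ ch.X q3 (L v) with hw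
  have hdX : Differentiable ℝ ch.X := ch.smooth.differentiable (by simp)
  set γ : ℝ → EE (m + 1) := fun s => sl e L sg (b2 + s • v) with hγ
  have hγd : ∀ s, HasDerivAt γ (L v) s := by
    intro s
    have h0 : γ = fun s : ℝ => (sg • e + L b2) + s • L v := by
      funext s
      simp only [hγ, sl, map_add, map_smul]
      abel
    rw [h0]
    have h5 : HasDerivAt (fun s : ℝ => s • L v) ((1 : ℝ) • L v) s := (hasDerivAt_id s).smul_const _
    rw [one_smul] at h5
    exact h5.const_add _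
  set φ : ℝ → ℝ := fun s => pi2 om (ch.X (γ s)) w with hφ
  have hφd : ∀ s, HasDerivAt φ (pi2 om (fderiv ℝ ch.X (γ s) (L v)) w) s := by
    intro s
    have h5 : HasDerivAt (fun s => ch.X (γ s)) (fderiv ℝ ch.X (γ s) (L v)) s :=
      (hdX (γ s)).hasFDerivAt.comp_hasDerivAt s (hγd s)
    have h6 : HasDerivAt (fun s => (inner ℝ (ch.X (γ s)) w : ℝ))
        (inner ℝ (fderiv ℝ ch.X (γ s) (L v)) w) s := by
      have := h5.inner ℝ (hasDerivAt_const s w)
      simpa using this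
    have h7 : HasDerivAt (fun s => (inner ℝ om (ch.X (γ s)) : ℝ))
        (inner ℝ om (fderiv ℝ ch.X (γ s) (L v))) s := by
      have := (hasDerivAt_const s om).inner ℝ h5
      simpa using this
    exact h6.sub (h7.mul_const _)
  obtain ⟨s, hs, hs1⟩ := exists_hasDerivAt_eq_slope φ _ zero_lt_one
    (fun s _ => (hφd s).continuousAt.continuousWithinAt) (fun s _ => hφd s)
  have h8 : φ 1 - φ 0 = pi2 om (ch.X (sl e L sg b1) - ch.X (sl e L sg b2)) w := by
    have e1 : γ 1 = sl e L sg b1 := by simp [hγ, hv]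
    have e0 : γ 0 = sl e L sg b2 := by simp [hγ]
    simp only [hφ, e1, e0, pi2, inner_sub_left, inner_sub_right]
    ring
  have h9 : ‖b2 + s • v‖ ≤ 3 * dl (m + 1) R := by
    have e2 : b2 + s • v = (1 - s) • b2 + s • b1 := by
      rw [hv, smul_sub, sub_smul, one_smul]
      abel
    rw [e2]
    calc ‖(1 - s) • b2 + s • b1‖ ≤ ‖(1 - s) • b2‖ + ‖s • b1‖ := norm_add_le _ _
      _ = (1 - s) * ‖b2‖ + s * ‖b1‖ := by
          rw [norm_smul, norm_smul, Real.norm_of_nonneg (by linarith [hs.2]),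
            Real.norm_of_nonneg hs.1.le]
      _ ≤ (1 - s) * (3 * dl (m + 1) R) + s * (3 * dl (m + 1) R) := by
          have := hs.1.le
          have h' : 0 ≤ 1 - s := by linarith [hs.2]
          gcongr
      _ = 3 * dl (m + 1) R := by ring
  have h10 : c ^ 2 / 2 * ‖v‖ ^ 2 ≤ pi2 om (fderiv ℝ ch.X (γ s) (L v)) w := by
    have h := (hCX (m + 1) c R M hC ch (γ s) q3 (norm_sl_le L hS.e_one hC.R_pos hsg h9) h3).2.2.2.2.2.1
      om (L v) hS.om_one (hS.omL v)
    rwa [L.norm_map] at h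
  rw [hs1, sub_zero, div_one, h8] at h10
  exact h10

end GBUM

open GBUM
open Pool.Agent.Lib.MP_a8dae7_an.CV (EE zv ex pq pi2 AA sl bm)
open Pool.Agent.Lib.MP_a8dae7_an.CV.GBM (ss dF key pi2_eq pq_eq pq_nonneg pi2_le pi2_comm pi2_sub_left pq_sub
  pi2_neg hasDerivAt_FF differentiable_FF)

/-- **GBU** -/
theorem specGBU (hCX : SpecCX) : SpecGBU := by
  intro m c R A M hA hC
  have hc := hC.c_pos
  have hA0 : 0 < A := by linarith
  set Mx : ℝ := A * max 1 (M 1) with hMxd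
  have hMx1 : 1 ≤ max 1 (M 1) := le_max_left _ _
  have hMxM : max 1 (M 1) ≤ Mx := by
    rw [hMxd]; nlinarith
  have hMx : 1 ≤ Mx := hMx1.trans hMxM
  have hMM : M 1 ≤ Mx := (le_max_right _ _).trans hMxM
  set c0 : ℝ := c ^ 2 / 2 with hc0d
  have hc0 : 0 < c0 := by positivity
  set C : ℝ := 1 + 8 / c0 + 8 * (((m + 1 : ℕ) : ℝ) + 39) * Mx ^ 2 / c0 with hCd
  have hC1 : 1 ≤ C := by
    have h1 : 0 ≤ 8 / c0 := by positivity
    have h2 : 0 ≤ 8 * (((m + 1 : ℕ) : ℝ) + 39) * Mx ^ 2 / c0 := by positivity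
    linarith
  have hC2 : 8 / c0 ≤ C := by
    have h2 : 0 ≤ 8 * (((m + 1 : ℕ) : ℝ) + 39) * Mx ^ 2 / c0 := by positivity
    linarith
  have hC3 : 8 * (((m + 1 : ℕ) : ℝ) + 39) * Mx ^ 2 / c0 ≤ C := by
    have h1 : 0 ≤ 8 / c0 := by positivity
    linarith
  refine ⟨C, hC1, ?_⟩
  intro ch hDm om e L hS lam r T La sg sg' zt b1 b2 b' hP hClam hLa hCr hsg hsg' hb13 hb23 hb' hq1 hq2
  have hR := hC.R_pos
  have hr := hP.r1
  have hl : 0 < lam := by linarith [hP.lam1]
  have hr0 : 0 < r := by linarith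
  have hom := hS.om_one
  set Tz : ℝ := |inner ℝ om zt| with hTdef
  have hTz0 : 0 < Tz := lt_of_lt_of_le (by positivity) hP.tA
  have hATz : 1 ≤ A * Tz := by
    have := hP.tA
    rw [div_le_iff₀ hA0] at this
    rw [mul_comm]
    exact this
  set v : EE m := b1 - b2 with hv
  set q' : EE (m + 1) := sl e L sg' b' with hq'
  have nq' : ‖q'‖ ≤ R := norm_sl_le L hS.e_one hR hsg' hb'
  have nq1 : ‖sl e L sg b1‖ ≤ R := norm_sl_le L hS.e_one hR hsg hb13
  have nq2 : ‖sl e L sg b2‖ ≤ R := norm_sl_le L hS.e_one hR hsg hb23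
  set G : EE (m + 2) := fderiv ℝ ch.X q' (L v) with hG
  have hGn1 : ‖G‖ ≤ max 1 (M 1) * ‖v‖ := by
    have h1 : ‖fderiv ℝ ch.X q'‖ ≤ M 1 := by
      have := ch.bd 1 le_rfl q' nq'
      rwa [norm_iteratedFDeriv_one] at this
    calc ‖G‖ ≤ ‖fderiv ℝ ch.X q'‖ * ‖L v‖ := ContinuousLinearMap.le_opNorm _ _
      _ ≤ max 1 (M 1) * ‖v‖ := by
          rw [L.norm_map]
          exact mul_le_mul_of_nonneg_right (h1.trans (le_max_right _ _)) (norm_nonneg _)
  have hGn : ‖G‖ ≤ Mx * ‖v‖ := hGn1.trans (mul_le_mul_of_nonneg_right hMxM (norm_nonneg _))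
  have hX : Differentiable ℝ ch.X := ch.smooth.differentiable (by simp)
  -- the curve
  have hcurve : ∀ b : EE m, HasDerivAt (fun s : ℝ => xd ch e L zt sg sg' b (b' + s • v)) (-G) 0 := by
    intro b
    have h1 : HasDerivAt (fun s : ℝ => sl e L sg' (b' + s • v)) (L v) 0 := by
      unfold sl
      have h0 : HasDerivAt (fun s : ℝ => b' + s • v) v 0 := by
        have := ((hasDerivAt_id (0:ℝ)).smul_const v).const_add b'
        simpa using this
      have h2 : HasDerivAt (fun s : ℝ => L.toContinuousLinearMap (b' + s • v))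
          (L.toContinuousLinearMap v) 0 :=
        (L.toContinuousLinearMap.hasFDerivAt (x := b' + (0:ℝ) • v)).comp_hasDerivAt (0:ℝ) h0
      exact h2.const_add _
    have h3 : HasDerivAt (fun s : ℝ => ch.X (sl e L sg' (b' + s • v))) G 0 := by
      have h4 : HasFDerivAt ch.X (fderiv ℝ ch.X q') (sl e L sg' (b' + (0:ℝ) • v)) := by
        have : sl e L sg' (b' + (0:ℝ) • v) = q' := by rw [zero_smul, add_zero]
        rw [this]
        exact (hX q').hasFDerivAt
      exact h4.comp_hasDerivAt (0:ℝ) h1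
    unfold xd
    exact ((h3.const_sub _).add_const _)
  have hx0 : ∀ b : EE m, xd ch e L zt sg sg' b (b' + (0:ℝ) • v) = xd ch e L zt sg sg' b b' := by
    intro b
    rw [zero_smul, add_zero]
  have hFF : ∀ b : EE m, HasDerivAt (fun s : ℝ => CV.FF om lam r (xd ch e L zt sg sg' b (b' + s • v)))
      (dF (m + 1) lam r (2 * inner ℝ om (xd ch e L zt sg sg' b b') * inner ℝ om (-G) * r ^ 2 /
        (4 * lam ^ 2)) (inner ℝ om (-G)) (pi2 om (xd ch e L zt sg sg' b b') (-G))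
        (pq om (xd ch e L zt sg sg' b b')) (inner ℝ om (xd ch e L zt sg sg' b b'))) 0 := by
    intro b
    have h := hasDerivAt_FF om lam r hl hr0 (hcurve b)
    rw [hx0 b] at h
    exact h
  have him : ∀ b : EE m, HasDerivAt
      (fun s : ℝ => (CV.FF om lam r (xd ch e L zt sg sg' b (b' + s • v))).im)
      (dF (m + 1) lam r (2 * inner ℝ om (xd ch e L zt sg sg' b b') * inner ℝ om (-G) * r ^ 2 /
        (4 * lam ^ 2)) (inner ℝ om (-G)) (pi2 om (xd ch e L zt sg sg' b b') (-G))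
        (pq om (xd ch e L zt sg sg' b b')) (inner ℝ om (xd ch e L zt sg sg' b b'))).im 0 := by
    intro b
    exact (Complex.imCLM.hasFDerivAt).comp_hasDerivAt (0:ℝ) (hFF b)
  have hdiff : ∀ b : EE m, DifferentiableAt ℝ
      (fun b'' => (CV.FF om lam r (xd ch e L zt sg sg' b b'')).im) b' := by
    intro b
    have h1 : Differentiable ℝ (fun b'' : EE m => xd ch e L zt sg sg' b b'') := by
      unfold xd sl
      have h2 : Differentiable ℝ (fun b'' : EE m => sg' • e + L b'') :=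
        L.toContinuousLinearMap.differentiable.const_add _
      exact ((hX.comp h2).const_sub _).add_const _
    exact (Complex.imCLM.differentiable.differentiableAt).comp b'
      (((differentiable_FF om lam r hl hr0).comp h1) b')
  simp only [im_FF]
  have hfd : fderiv ℝ (fun b => (CV.FF om lam r (xd ch e L zt sg sg' b1 b)).im -
      (CV.FF om lam r (xd ch e L zt sg sg' b2 b)).im) b' v =
      (dF (m + 1) lam r (2 * inner ℝ om (xd ch e L zt sg sg' b1 b') * inner ℝ om (-G) * r ^ 2 /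
        (4 * lam ^ 2)) (inner ℝ om (-G)) (pi2 om (xd ch e L zt sg sg' b1 b') (-G))
        (pq om (xd ch e L zt sg sg' b1 b')) (inner ℝ om (xd ch e L zt sg sg' b1 b'))).im -
      (dF (m + 1) lam r (2 * inner ℝ om (xd ch e L zt sg sg' b2 b') * inner ℝ om (-G) * r ^ 2 /
        (4 * lam ^ 2)) (inner ℝ om (-G)) (pi2 om (xd ch e L zt sg sg' b2 b') (-G))
        (pq om (xd ch e L zt sg sg' b2 b')) (inner ℝ om (xd ch e L zt sg sg' b2 b'))).im := by
    have h0 : DifferentiableAt ℝ (fun b => (CV.FF om lam r (xd ch e L zt sg sg' b1 b)).im -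
      (CV.FF om lam r (xd ch e L zt sg sg' b2 b)).im) b' := (hdiff b1).sub (hdiff b2)
    rw [← h0.lineDeriv_eq_fderiv]
    have h2 : HasLineDerivAt ℝ (fun b => (CV.FF om lam r (xd ch e L zt sg sg' b1 b)).im -
      (CV.FF om lam r (xd ch e L zt sg sg' b2 b)).im) _ b' v := (him b1).sub (him b2)
    exact h2.lineDeriv
  rw [hfd]
  -- distances
  have hxs : xd ch e L zt sg sg' b1 b' - xd ch e L zt sg sg' b2 b' =
      ch.X (sl e L sg b1) - ch.X (sl e L sg b2) := by
    unfold xd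
    abel
  have hxn1 : ‖xd ch e L zt sg sg' b1 b' - xd ch e L zt sg sg' b2 b'‖ ≤ max 1 (M 1) * ‖v‖ := by
    rw [hxs]
    refine ((hCX (m + 1) c R M hC ch _ _ nq1 nq2).2.1).trans ?_
    rw [sl_sub, L.norm_map]
    exact mul_le_mul_of_nonneg_right (le_max_right _ _) (norm_nonneg _)
  have hxn : ‖xd ch e L zt sg sg' b1 b' - xd ch e L zt sg sg' b2 b'‖ ≤ Mx * ‖v‖ :=
    hxn1.trans (mul_le_mul_of_nonneg_right hMxM (norm_nonneg _))
  have hinn : ∀ y : EE (m + 2), |inner ℝ om y| ≤ ‖y‖ := by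
    intro y
    have := abs_real_inner_le_norm om y
    rwa [hom, one_mul] at this
  have hclose : ∀ b : EE m, ‖sl e L sg b‖ ≤ R →
      |inner ℝ om (xd ch e L zt sg sg' b b') - inner ℝ om zt| ≤ Tz / 8 := by
    intro b hb
    rw [← inner_sub_right]
    refine (hinn _).trans ?_
    have : xd ch e L zt sg sg' b b' - zt = ch.X (sl e L sg b) - ch.X q' := by
      unfold xd
      abel
    rw [this]
    refine (hDm _ _ hb nq').trans ?_
    have h1 := hP.tA
    have h2 : 1 / (8 * A) = 1 / A / 8 := by field_simp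
    rw [h2]
    linarith
  have hw0 : 0 ≤ 3 * La * (r * Tz / lam) := by positivity
  have hrange : ∀ b : EE m, ‖sl e L sg b‖ ≤ R →
      3 / 4 * Tz ≤ |inner ℝ om (xd ch e L zt sg sg' b b')| ∧
      |inner ℝ om (xd ch e L zt sg sg' b b')| ≤ 5 / 4 * Tz := by
    intro b hb
    have h1 := hclose b hb
    have h2 := abs_sub_abs_le_abs_sub (inner ℝ om (xd ch e L zt sg sg' b b')) (inner ℝ om zt)
    have h3 := abs_sub_abs_le_abs_sub (inner ℝ om zt) (inner ℝ om (xd ch e L zt sg sg' b b'))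
    rw [abs_sub_comm] at h3
    constructor <;> linarith
  have hwz : wz lam r (inner ℝ om zt) = r * (A * Tz) / (A * lam) := by
    rw [wz, ← hTdef]
    field_simp
  have hwz' : r * (A * Tz) / (A * lam) = r * Tz / lam := by
    field_simp
  rw [← dF_scale (m + 1) lam r _ _ _ _ _ A hA0.ne', ← dF_scale (m + 1) lam r _ _ _ _ (inner ℝ om
    (xd ch e L zt sg sg' b2 b')) A hA0.ne']
  have hlT : lam / Tz = (A * lam) / (A * Tz) := by
    field_simp
  rw [hlT]
  refine key (m + 1) c0 Mx (A * lam) r La ‖v‖ (A * Tz) C _ _ _ _ _ _ _ _ _ hc0 hMx hC1 hC2 hC3 hr hLa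
    ?_ hATz ?_ (norm_nonneg _) ?_ ?_ ?_ ?_
    (pq_nonneg om _ hom) ?_ ?_ ?_ ?_ ?_
  · refine hCr.trans ?_
    nlinarith
  · have := hP.tr
    nlinarith
  · rw [abs_mul, abs_of_pos hA0]
    have := (hrange b1 nq1).1
    nlinarith
  · rw [abs_mul, abs_of_pos hA0]
    have := (hrange b1 nq1).2
    nlinarith
  · rw [abs_mul, abs_of_pos hA0]
    have := (hrange b2 nq2).1
    nlinarith
  · rw [← mul_sub, abs_mul, abs_of_pos hA0, ← inner_sub_right, hMxd, mul_assoc]
    exact mul_le_mul_of_nonneg_left ((hinn _).trans hxn1) hA0.le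
  · rw [← hwz]; exact hq2
  · rw [hwz', pq_sub]
    rw [wz, ← hTdef] at hq1 hq2
    have h1 := pi2_le om (xd ch e L zt sg sg' b1 b')
      (xd ch e L zt sg sg' b1 b' - xd ch e L zt sg sg' b2 b') hom hw0 hq1
    have h2 := pi2_le om (xd ch e L zt sg sg' b2 b')
      (xd ch e L zt sg sg' b1 b' - xd ch e L zt sg sg' b2 b') hom hw0 hq2
    have h3 : 3 * La * (r * Tz / lam) *
        ‖xd ch e L zt sg sg' b1 b' - xd ch e L zt sg sg' b2 b'‖ ≤
        3 * La * (r * Tz / lam) * (Mx * ‖v‖) := mul_le_mul_of_nonneg_left hxn hw0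
    refine (abs_add_le _ _).trans ?_
    calc _ ≤ 3 * La * (r * Tz / lam) * (Mx * ‖v‖) + 3 * La * (r * Tz / lam) * (Mx * ‖v‖) :=
          add_le_add (h1.trans h3) (h2.trans h3)
      _ = _ := by ring
  · rw [abs_mul, abs_of_pos hA0, hMxd, mul_assoc]
    refine mul_le_mul_of_nonneg_left ((hinn _).trans ?_) hA0.le
    rw [norm_neg]
    exact hGn1
  · rw [hwz']
    rw [wz, ← hTdef] at hq2
    refine (pi2_le om _ _ hom hw0 hq2).trans ?_
    rw [norm_neg]
    exact mul_le_mul_of_nonneg_left hGn hw0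
  · have h1 := mono_X hCX hC hS (q3 := q') hsg hb13 hb23 nq'
    rw [← hxs, pi2_sub_left] at h1
    rw [pi2_neg, pi2_neg]
    refine h1.trans ((le_abs_self _).trans (le_of_eq ?_))
    rw [← abs_neg]
    congr 1
    ring

end Pool.Agent.Lib.MP_a8dae7_an.UN
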