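import Pool.Agent.Lib.MP_a8dae7_an.UN.JFDefs
import Pool.Agent.Lib.MP_a8dae7_an.UN.SpecB
import Pool.Agent.Lib.MP_a8dae7_an.CV.JFa

/-!
# UN: module JF, first half: the alternative of NG on every ball of a cell (port of CV/JFa)
-/

set_option autoImplicit false

open MeasureTheory
open scoped ContDiff

namespace Pool.Agent.Lib.MP_a8dae7_an.UN.Z_JFaM

open Pool.Agent.Lib.MP_a8dae7_an.CV (EE zv ex pq pi2 AA sl bm)
open Pool.Agent.Lib.MP_a8dae7_an.CV.MOM (pr pq_eq pr_sub norm_pr_le)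
open Pool.Agent.Lib.MP_a8dae7_an.CV.JFM (norm_iteratedFDeriv_le_re_im fderiv_re fderiv_im)

/-! ### Smoothness -/

theorem contDiff_FF {k : ℕ} (om : EE (k + 1)) (lam r T : ℝ) (hr : 0 < r) : ContDiff ℝ ∞ (FF om lam r T) := by
  have hA : ∀ x : EE (k + 1), AA lam r (inner ℝ om x) ∈ Complex.slitPlane := by
    intro x
    left
    rw [CV.KNM.AA_re]
    positivity
  have h0 : ContDiff ℝ ∞ fun x : EE (k + 1) => (inner ℝ om x : ℝ) := contDiff_const.inner ℝ contDiff_id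
  have h1 : ContDiff ℝ ∞ fun x : EE (k + 1) => AA lam r (inner ℝ om x) := by
    unfold AA
    exact contDiff_const.add (contDiff_const.mul (Complex.ofRealCLM.contDiff.comp (h0.div_const _)))
  have h2 : ContDiff ℝ ∞ fun x : EE (k + 1) => Complex.log (AA lam r (inner ℝ om x)) := by
    rw [contDiff_iff_contDiffAt]
    intro x
    exact ((Complex.contDiffAt_log (hA x)).restrict_scalars ℝ).comp x h1.contDiffAt
  have h3 : ContDiff ℝ ∞ fun x : EE (k + 1) => pq om x := by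
    unfold pq
    exact (contDiff_norm_sq ℝ).sub (h0.pow 2)
  have h4 : ContDiff ℝ ∞ fun x : EE (k + 1) => ((pq om x : ℝ) : ℂ) / (4 * AA lam r (inner ℝ om x)) := by
    simp only [div_eq_mul_inv]
    refine (Complex.ofRealCLM.contDiff.comp h3).mul (ContDiff.inv (contDiff_const.mul h1) fun x => ?_)
    exact mul_ne_zero (by norm_num) (Complex.slitPlane_ne_zero (hA x))
  unfold FF
  refine (ContDiff.sub ?_ (contDiff_const.mul h2)).sub h4
  exact (Complex.ofRealCLM.contDiff.comp ((h0.pow 2).div_const _)).neg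

theorem contDiff_xd {m : ℕ} {c R : ℝ} {M : ℕ → ℝ} (ch : UChart (m + 1) c R M) (e : EE (m + 1))
    (L : EE m →ₗᵢ[ℝ] EE (m + 1)) (zt : EE (m + 2)) (sg sg' : ℝ) (b : EE m) :
    ContDiff ℝ ∞ (xd ch e L zt sg sg' b) := by
  have h1 : ContDiff ℝ ∞ (sl e L sg') := by
    unfold sl
    exact contDiff_const.add L.toContinuousLinearMap.contDiff
  unfold xd
  exact (contDiff_const.sub (ch.smooth.comp h1)).add contDiff_const

theorem smoothTh : SmoothTh := by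
  intro m c R M ch om lam r T e L zt sg sg' b b'' hr
  unfold Th
  refine ((contDiff_FF om lam r T hr).comp (contDiff_xd ch e L zt sg sg' b)).add ?_
  exact Complex.conjCLE.contDiff.comp ((contDiff_FF om lam r T hr).comp (contDiff_xd ch e L zt sg sg' b''))

section
variable {m : ℕ} {c R : ℝ} {M : ℕ → ℝ} (ch : UChart (m + 1) c R M) (om : EE (m + 2)) (lam r T : ℝ)
    (e : EE (m + 1)) (L : EE m →ₗᵢ[ℝ] EE (m + 1)) (zt : EE (m + 2)) (sg sg' : ℝ)

theorem Th_re (b b'' q : EE m) : (Th ch om lam r T e L zt sg sg' b b'' q).re =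
      (FF om lam r T (xd ch e L zt sg sg' b q)).re + (FF om lam r T (xd ch e L zt sg sg' b'' q)).re := by
  unfold Th
  rw [Complex.add_re, Complex.conj_re]

theorem Th_im (b b'' q : EE m) : (Th ch om lam r T e L zt sg sg' b b'' q).im =
      (FF om lam r T (xd ch e L zt sg sg' b q)).im - (FF om lam r T (xd ch e L zt sg sg' b'' q)).im := by
  unfold Th
  rw [Complex.add_im, Complex.conj_im, sub_eq_add_neg]

end

/-! ### Composition with the affine map -/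

theorem norm_iteratedFDeriv_scale {m : ℕ} {f : EE m → ℂ} (hf : ContDiff ℝ ∞ f) (b : EE m) {s : ℝ} (hs : 0 ≤ s)
    (j : ℕ) (q : EE m) :
    ‖iteratedFDeriv ℝ j (fun x => f (b + s • x)) q‖ ≤ s ^ j * ‖iteratedFDeriv ℝ j f (b + s • q)‖ := by
  have h1 : (fun x => f (b + s • x)) = (fun z => f (b + z)) ∘ (s • ContinuousLinearMap.id ℝ (EE m)) := by
    funext x
    simp
  have hf' : ContDiff ℝ ∞ fun z => f (b + z) := hf.comp (contDiff_const.add contDiff_id)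
  have hj : (j : WithTop ℕ∞) ≤ ∞ := by exact_mod_cast le_top
  rw [h1, ContinuousLinearMap.iteratedFDeriv_comp_right _ hf' q hj, iteratedFDeriv_comp_add_left]
  refine (ContinuousMultilinearMap.norm_compContinuousLinearMap_le _ _).trans ?_
  have h2 : ‖s • ContinuousLinearMap.id ℝ (EE m)‖ ≤ s := by
    refine ContinuousLinearMap.opNorm_le_bound _ hs fun x => ?_
    rw [smul_apply, ContinuousLinearMap.id_apply, norm_smul, Real.norm_eq_abs, abs_of_nonneg hs]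
  have h3 : ∏ _i : Fin j, ‖s • ContinuousLinearMap.id ℝ (EE m)‖ ≤ s ^ j := by
    rw [Finset.prod_const, Finset.card_univ, Fintype.card_fin]
    exact pow_le_pow_left₀ (norm_nonneg _) h2 j
  have h4 : (s • ContinuousLinearMap.id ℝ (EE m)) q = s • q := by simp
  rw [h4, mul_comm]
  exact mul_le_mul_of_nonneg_right h3 (norm_nonneg _)

theorem fderiv_scale {m : ℕ} {f : EE m → ℂ} (hf : ContDiff ℝ ∞ f) (b : EE m) (s : ℝ) (q v : EE m) :
    fderiv ℝ (fun x => f (b + s • x)) q v = s • fderiv ℝ f (b + s • q) v := by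
  have h1 : HasFDerivAt (fun x : EE m => b + s • x) (s • ContinuousLinearMap.id ℝ (EE m)) q :=
    ((hasFDerivAt_id q).const_smul s).const_add b
  have h2 := ((hf.differentiable (by simp)) (b + s • q)).hasFDerivAt.comp q h1
  have h3 : fderiv ℝ (fun x => f (b + s • x)) q = (fderiv ℝ f (b + s • q)).comp
      (s • ContinuousLinearMap.id ℝ (EE m)) := h2.fderiv
  rw [h3]
  simp

/-! ### The cutoff -/

theorem contDiff_ac (m : ℕ) : ContDiff ℝ ∞ (ac m) := by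
  unfold ac
  exact Complex.ofRealCLM.contDiff.comp ((bm m).contDiff.comp (contDiff_const_smul (1 / 2 : ℝ)))

theorem ac_zero {m : ℕ} {q : EE m} (h : 1 ≤ ‖q‖) : ac m q = 0 := by
  unfold ac
  have h1 : (bm m) ((1 / 2 : ℝ) • q) = 0 := by
    refine (bm m).zero_of_le_dist ?_
    rw [dist_zero_right, norm_smul, Real.norm_eq_abs, abs_of_pos (by norm_num)]
    show (1 / 2 : ℝ) ≤ _
    linarith
  rw [h1]
  simp

theorem ac_bound (m N : ℕ) : ∃ A : ℝ, 0 ≤ A ∧ ∀ (q : EE m), ∀ j ≤ N, ‖iteratedFDeriv ℝ j (ac m) q‖ ≤ A := by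
  have hs : HasCompactSupport (ac m) := by
    refine HasCompactSupport.of_support_subset_isCompact (isCompact_closedBall (0 : EE m) 1) fun x hx => ?_
    rw [mem_closedBall_zero_iff]
    by_contra h
    exact hx (ac_zero (not_le.1 h).le)
  have h1 : ∀ j : ℕ, ∃ A : ℝ, ∀ q, ‖iteratedFDeriv ℝ j (ac m) q‖ ≤ A := by
    intro j
    exact (hs.iteratedFDeriv (𝕜 := ℝ) j).exists_bound_of_continuous
      ((contDiff_ac m).continuous_iteratedFDeriv (by exact_mod_cast le_top))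
  choose A hA using h1
  refine ⟨∑ j ∈ Finset.range (N + 1), |A j|, Finset.sum_nonneg fun j _ => abs_nonneg _, fun q j hj => ?_⟩
  refine ((hA j q).trans (le_abs_self _)).trans ?_
  exact Finset.single_le_sum (f := fun j => |A j|) (fun j _ => abs_nonneg _)
    (Finset.mem_range.mpr (by omega))

/-! ### Geometry -/

theorem dl_pos {k : ℕ} {R : ℝ} (h : 0 < R) : 0 < dl k R := by
  unfold dl
  positivity

theorem dl_le {m : ℕ} {R : ℝ} (h : 0 < R) : 128 * dl (m + 1) R ≤ R := by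
  unfold dl
  have h1 : (1 : ℝ) ≤ 32 ^ m := one_le_pow₀ (by norm_num)
  rw [pow_succ, mul_div_assoc', div_le_iff₀ (by positivity)]
  nlinarith

section geom

variable {m : ℕ} {c R : ℝ} {M : ℕ → ℝ} {ch : UChart (m + 1) c R M} {om : EE (m + 2)} {e : EE (m + 1)}
  {L : EE m →ₗᵢ[ℝ] EE (m + 1)}

theorem norm_sl_le (hR : 0 < R) (hS : Slice ch om e L) {sg : ℝ} {b : EE m} (h1 : |sg| ≤ 2 * dl (m + 1) R)
    (h2 : ‖b‖ ≤ 3 * dl (m + 1) R) : ‖sl e L sg b‖ ≤ R := by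
  have h3 := dl_le (m := m) hR
  have h4 := dl_pos (k := m + 1) hR
  unfold sl
  refine (norm_add_le _ _).trans ?_
  rw [norm_smul, hS.e_one, L.norm_map, Real.norm_eq_abs, mul_one]
  linarith

theorem norm_xd_sub_le (hCX : SpecCX) (hc : Cls c R M) (hS : Slice ch om e L) (zt : EE (m + 2)) {sg sg' w : ℝ}
    {b b1 b' b2 : EE m} (hw : 0 ≤ w) (hsg : |sg| ≤ 2 * dl (m + 1) R) (hsg' : |sg'| ≤ 2 * dl (m + 1) R)
    (hb : ‖b‖ ≤ 3 * dl (m + 1) R) (hb1 : ‖b1‖ ≤ 3 * dl (m + 1) R) (hb' : ‖b'‖ ≤ 3 * dl (m + 1) R)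
    (hb2 : ‖b2‖ ≤ 3 * dl (m + 1) R) (h1 : ‖b - b1‖ ≤ w) (h2 : ‖b' - b2‖ ≤ 3 * w) :
    ‖pr om (xd ch e L zt sg sg' b b') - pr om (xd ch e L zt sg sg' b1 b2)‖ ≤ 4 * (M 1 * w) := by
  have hM : 0 ≤ M 1 := (norm_nonneg _).trans (ch.bd 1 le_rfl 0 (by rw [norm_zero]; exact hc.R_pos.le))
  have e1 : xd ch e L zt sg sg' b b' - xd ch e L zt sg sg' b1 b2 =
      (ch.X (sl e L sg b) - ch.X (sl e L sg b1)) - (ch.X (sl e L sg' b') - ch.X (sl e L sg' b2)) := by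
    unfold xd
    abel
  have h3 := (hCX (m + 1) c R M hc ch (sl e L sg b) (sl e L sg b1) (norm_sl_le hc.R_pos hS hsg hb)
    (norm_sl_le hc.R_pos hS hsg hb1)).2.1
  have h4 := (hCX (m + 1) c R M hc ch (sl e L sg' b') (sl e L sg' b2) (norm_sl_le hc.R_pos hS hsg' hb')
    (norm_sl_le hc.R_pos hS hsg' hb2)).2.1
  rw [CV.MOM.sl_sub, L.norm_map] at h3 h4
  rw [← pr_sub, e1]
  refine (norm_pr_le hS.om_one _).trans ((norm_sub_le _ _).trans ?_)
  have h5 := mul_le_mul_of_nonneg_left h1 hM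
  have h6 := mul_le_mul_of_nonneg_left h2 hM
  linarith

/-- facts on `wc` -/
theorem wc_facts {c9 A lam r T tz : ℝ} (hA : 1 ≤ A) (hc0 : 0 < c9) (hc1 : c9 ≤ 1) (hP : Par A lam r T tz) :
    0 < wz lam r tz ∧ 0 < wc c9 lam r tz ∧ wc c9 lam r tz ≤ c9 ∧ wc c9 lam r tz ≤ c9 * wz lam r tz ∧
      0 < |tz| := by
  have h1 : 0 < |tz| := lt_of_lt_of_le (by positivity) hP.tA
  have h2 : 0 < lam := by linarith [hP.lam1]
  have h3 : 0 < r := by linarith [hP.r1]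
  have h4 : 0 < wz lam r tz := by
    unfold wz
    positivity
  refine ⟨h4, ?_, ?_, ?_, h1⟩
  · unfold wc
    exact mul_pos hc0 (lt_min one_pos h4)
  · unfold wc
    exact mul_le_of_le_one_right hc0.le (min_le_left _ _)
  · unfold wc
    exact mul_le_mul_of_nonneg_left (min_le_right _ _) hc0.le

/-- the variation of the projections on a pair of cells -/
theorem cell_var (hCX : SpecCX) (hc : Cls c R M) (hS : Slice ch om e L) {A c9 lam r T sg sg' : ℝ}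
    {zt : EE (m + 2)} {b1 b2 b b' : EE m} (hA : 1 ≤ A) (hc0 : 0 < c9) (hc1 : c9 ≤ 1) (hc9 : c9 ≤ dl (m + 1) R / 8)
    (hcM : c9 * M 1 ≤ 1 / 28) (hP : Par A lam r T (inner ℝ om zt)) (hsg : |sg| ≤ 2 * dl (m + 1) R)
    (hsg' : |sg'| ≤ 2 * dl (m + 1) R) (hb1 : ‖b1‖ ≤ 2 * dl (m + 1) R) (hb2 : ‖b2‖ ≤ 2 * dl (m + 1) R)
    (hb : ‖b - b1‖ ≤ wc c9 lam r (inner ℝ om zt)) (hb' : ‖b' - b2‖ ≤ 3 * wc c9 lam r (inner ℝ om zt)) :
    ‖b‖ ≤ 3 * dl (m + 1) R ∧ ‖b'‖ ≤ 3 * dl (m + 1) R ∧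
    ‖pr om (xd ch e L zt sg sg' b b') - pr om (xd ch e L zt sg sg' b1 b2)‖ ≤ wz lam r (inner ℝ om zt) / 7 := by
  obtain ⟨hW, hw, hw1, hw2, _⟩ := wc_facts hA hc0 hc1 hP
  have hD := dl_pos (k := m + 1) hc.R_pos
  have hM : 0 ≤ M 1 := (norm_nonneg _).trans (ch.bd 1 le_rfl 0 (by rw [norm_zero]; exact hc.R_pos.le))
  have h1 : ‖b‖ ≤ 3 * dl (m + 1) R := by
    have h2 : ‖b‖ ≤ ‖b1‖ + ‖b - b1‖ := by
      have := norm_add_le b1 (b - b1)
      rwa [add_sub_cancel] at this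
    linarith
  have h2 : ‖b'‖ ≤ 3 * dl (m + 1) R := by
    have h2 : ‖b'‖ ≤ ‖b2‖ + ‖b' - b2‖ := by
      have := norm_add_le b2 (b' - b2)
      rwa [add_sub_cancel] at this
    linarith
  refine ⟨h1, h2, ?_⟩
  refine (norm_xd_sub_le hCX hc hS zt hw.le hsg hsg' h1 (by linarith) h2 (by linarith) hb hb').trans ?_
  have h3 : M 1 * wc c9 lam r (inner ℝ om zt) ≤ M 1 * (c9 * wz lam r (inner ℝ om zt)) :=
    mul_le_mul_of_nonneg_left hw2 hM
  have h4 : c9 * M 1 * wz lam r (inner ℝ om zt) ≤ 1 / 28 * wz lam r (inner ℝ om zt) :=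
    mul_le_mul_of_nonneg_right hcM hW.le
  linarith

end geom

theorem pq_nonneg {d : ℕ} {om : EE d} (h : ‖om‖ = 1) (x : EE d) : 0 ≤ pq om x := by
  rw [pq_eq h]
  positivity

/-- size of the exponential on the cells -/
theorem cellExp (hEX : SpecEX) (hCX : SpecCX) : CellExp := by
  intro m c R A M hA hc
  obtain ⟨CE, hCE1, hE⟩ := hEX m c R A M hA hc
  refine ⟨CE ^ 2 * Real.exp (1 / 8), ?_, ?_⟩
  · have h1 : (1 : ℝ) ≤ Real.exp (1 / 8) := Real.one_le_exp (by norm_num)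
    have h2 : 1 ≤ CE ^ 2 := one_le_pow₀ hCE1
    exact one_le_mul_of_one_le_of_one_le h2 h1
  intro ch hDm om e L hS c9 lam r T sg sg' zt b1 b2 b b'' b' hc0 hc1 hc9 hcM hP hsg hsg' hb1 hb2 hb hb'' hb'
  obtain ⟨hW, hw, hw1, hw2, ht⟩ := wc_facts hA hc0 hc1 hP
  have hlam0 : 0 < lam := by linarith [hP.lam1]
  set W := wz lam r (inner ℝ om zt) with hWdef
  set tz : ℝ := inner ℝ om zt with htz
  set Y : ℝ := ‖pr om (xd ch e L zt sg sg' b1 b2)‖ with hY
  have hYq : pq om (xd ch e L zt sg sg' b1 b2) = Y ^ 2 := pq_eq hS.om_one _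
  have hone : ∀ b0 : EE m, ‖b0 - b1‖ ≤ wc c9 lam r tz →
      Real.exp (FF om lam r T (xd ch e L zt sg sg' b0 b')).re ≤
        CE * (lam / |tz|) ^ (((m + 1 : ℕ) : ℝ) / 2) *
          (Real.exp (1 / 16) * Real.exp (-(9 / 64 * (tz / T) ^ 2) - Y ^ 2 / (4 * W ^ 2))) := by
    intro b0 hb0
    obtain ⟨g1, g2, g3⟩ := cell_var hCX hc hS (zt := zt) hA hc0 hc1 hc9 hcM hP hsg hsg' hb1 hb2 hb0 hb'
    have h1 := (hE ch hDm om e L hS lam r T sg sg' zt b0 b' hP hsg hsg' g1 g2).2.1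
    refine h1.trans ?_
    rw [← Real.exp_add]
    refine mul_le_mul_of_nonneg_left (Real.exp_le_exp.2 ?_) (by positivity)
    set p : ℝ := ‖pr om (xd ch e L zt sg sg' b0 b')‖ with hp
    rw [pq_eq hS.om_one, ← hp, ← hWdef]
    have h2 : Y ≤ p + W / 4 := by
      have h3 := norm_sub_norm_le (pr om (xd ch e L zt sg sg' b1 b2)) (pr om (xd ch e L zt sg sg' b0 b'))
      rw [norm_sub_rev] at h3
      linarith
    have hp0 : 0 ≤ p := norm_nonneg _
    have hY0 : 0 ≤ Y := norm_nonneg _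
    have h3 : Y ^ 2 ≤ 4 / 3 * p ^ 2 + W ^ 2 / 4 := by
      have h4 : Y ^ 2 ≤ (p + W / 4) ^ 2 := pow_le_pow_left₀ hY0 h2 2
      nlinarith [sq_nonneg (p / 3 - W / 4)]
    have h5 : Y ^ 2 / (4 * W ^ 2) ≤ p ^ 2 / (3 * W ^ 2) + 1 / 16 := by
      rw [div_add' _ _ _ (by positivity), div_le_div_iff₀ (by positivity) (by positivity)]
      nlinarith [sq_nonneg W, mul_le_mul_of_nonneg_right h3 (by positivity : 0 ≤ 3 * W ^ 2)]
    linarith
  have hexp : ‖Complex.exp (Th ch om lam r T e L zt sg sg' b b'' b')‖ =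
      Real.exp (FF om lam r T (xd ch e L zt sg sg' b b')).re *
        Real.exp (FF om lam r T (xd ch e L zt sg sg' b'' b')).re := by
    rw [Complex.norm_exp, Th_re, Real.exp_add]
  rw [hexp, hYq]
  refine (mul_le_mul (hone b hb) (hone b'' hb'') (Real.exp_pos _).le (by positivity)).trans (le_of_eq ?_)
  have hPP : (lam / |tz|) ^ (((m + 1 : ℕ) : ℝ) / 2) * (lam / |tz|) ^ (((m + 1 : ℕ) : ℝ) / 2) =
      (lam / |tz|) ^ (m + 1) := by
    rw [← Real.rpow_add (by positivity), add_halves, Real.rpow_natCast]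
  have hee : Real.exp (1 / 16) * Real.exp (1 / 16) = Real.exp (1 / 8) := by
    rw [← Real.exp_add]
    norm_num
  have hEE : Real.exp (-(9 / 64 * (tz / T) ^ 2) - Y ^ 2 / (4 * W ^ 2)) *
      Real.exp (-(9 / 64 * (tz / T) ^ 2) - Y ^ 2 / (4 * W ^ 2)) =
      Real.exp (-(9 / 32 * (tz / T) ^ 2) - Y ^ 2 / (2 * W ^ 2)) := by
    rw [← Real.exp_add]
    congr 1
    field_simp
    ring
  rw [← hPP, ← hee, ← hEE]
  ring

/-- facts on `La` -/
theorem Lac_facts {m : ℕ} {c R : ℝ} {M : ℕ → ℝ} (ch : UChart (m + 1) c R M) (om : EE (m + 2)) (lam r T : ℝ)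
    (e : EE (m + 1)) (L : EE m →ₗᵢ[ℝ] EE (m + 1)) (zt : EE (m + 2)) (sg sg' : ℝ) (b1 b2 : EE m) (hom : ‖om‖ = 1)
    (hT : 0 < T) (hW : 0 < wz lam r (inner ℝ om zt)) :
    1 ≤ Lac ch om lam r T e L zt sg sg' b1 b2 ∧
    2 * (wz lam r (inner ℝ om zt) + ‖pr om (xd ch e L zt sg sg' b1 b2)‖) ≤
      Lac ch om lam r T e L zt sg sg' b1 b2 * wz lam r (inner ℝ om zt) ∧
    |inner ℝ om zt| ≤ 2 * Lac ch om lam r T e L zt sg sg' b1 b2 * T := by
  have hY : Real.sqrt (pq om (xd ch e L zt sg sg' b1 b2)) = ‖pr om (xd ch e L zt sg sg' b1 b2)‖ := by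
    rw [pq_eq hom, Real.sqrt_sq (norm_nonneg _)]
  unfold Lac
  rw [hY]
  set Y : ℝ := ‖pr om (xd ch e L zt sg sg' b1 b2)‖
  set W : ℝ := wz lam r (inner ℝ om zt)
  have hY0 : 0 ≤ Y := norm_nonneg _
  set t : ℝ := |inner ℝ om zt|
  have ht0 : 0 ≤ t := abs_nonneg _
  have h1 : 0 ≤ Y / W := by positivity
  have h2 : 0 ≤ t / T := by positivity
  have h3 : 0 ≤ Y / W * (t / T) := by positivity
  refine ⟨?_, ?_, ?_⟩
  · nlinarith
  · have h4 : 2 * (1 + Y / W) * (1 + t / T) * W = 2 * (W + Y) * (1 + t / T) := by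
      field_simp
    rw [h4]
    have h5 : 0 ≤ 2 * (W + Y) := by positivity
    nlinarith [mul_nonneg h5 h2]
  · have h4 : t = t / T * T := by field_simp
    have h5 : 0 ≤ Y / W * T := by positivity
    have h6 : 0 ≤ Y / W * (t / T) * T := by positivity
    nlinarith

/-- **the alternative of NG on every ball** -/
theorem ballAltU (hEX : SpecEX) (hDB : SpecDBU) (hGB : SpecGBU) (hCX : SpecCX) : BallAltU := by
  intro m c R A M hA hc N
  obtain ⟨CD, hCD1, hD⟩ := hDB m c R A M hA hc (N + 2)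
  obtain ⟨CG, hCG1, hG⟩ := hGB m c R A M hA hc
  obtain ⟨CE, hCE1, hE⟩ := cellExp hEX hCX m c R A M hA hc
  obtain ⟨A0, hA0, hac⟩ := ac_bound m N
  refine ⟨A0, 3 * CD, max CG CE, hA0, by positivity, le_max_of_le_left hCG1, ?_⟩
  intro ch hDm om e L hS c9 lam r T sg sg' w La rho zt b1 b2 b b'' hc0 hc1 hc9 hcM hP hsg hsg' hb1 hb2 hwdef hb hb''
    hδ hLadef hClam hCLa hrho q0
  obtain ⟨hW, hw, hw1, hw2, ht⟩ := wc_facts hA hc0 hc1 hP
  have hT0 : 0 < T := by linarith [hP.T1]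
  obtain ⟨hLa1, hLa2, hLa3⟩ := Lac_facts ch om lam r T e L zt sg sg' b1 b2 hS.om_one hT0 hW
  rw [← hLadef] at hLa1 hLa2 hLa3
  rw [← hwdef] at hw hw1 hw2
  have hb9 : ‖b - b1‖ ≤ wc c9 lam r (inner ℝ om zt) := by rw [← hwdef]; exact hb
  have hb9'' : ‖b'' - b1‖ ≤ wc c9 lam r (inner ℝ om zt) := by rw [← hwdef]; exact hb''
  set C : ℝ := max CG CE with hC
  have hCGC : CG ≤ C := le_max_left _ _
  have hCEC : CE ≤ C := le_max_right _ _
  have hC1 : 1 ≤ C := hCG1.trans hCGC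
  have hlam : 1 ≤ lam := hP.lam1
  have hlam0 : 0 < lam := by linarith
  have hr : 1 ≤ r := hP.r1
  have hr0 : 0 < r := by linarith
  set W : ℝ := wz lam r (inner ℝ om zt) with hWdef
  set bet : ℝ := lam / |inner ℝ om zt| with hbet
  have hbet0 : 0 < bet := by positivity
  have hLa0 : 0 < La := by linarith
  have hLa4 : 1 ≤ La ^ 4 := one_le_pow₀ hLa1
  set s : ℝ := Real.sqrt (bet * ‖b - b''‖) with hs
  have hs0 : 0 < s := by positivity
  have hs2 : s ^ 2 = bet * ‖b - b''‖ := Real.sq_sqrt (by positivity)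
  have hrho0 : 0 < rho := by
    rw [hrho]
    have : 0 < min 1 (w * s)⁻¹ := lt_min one_pos (by positivity)
    positivity
  have hrho4 : rho * (4 * La ^ 4) ≤ 1 := by
    rw [hrho]
    calc (4 * La ^ 4)⁻¹ * min 1 (w * s)⁻¹ * (4 * La ^ 4) = min 1 (w * s)⁻¹ := by field_simp
      _ ≤ 1 := min_le_left _ _
  have hrho1 : rho ≤ 1 / 4 := by nlinarith
  have hrho5 : rho * (4 * La ^ 4) * (w * s) ≤ 1 := by
    rw [hrho]
    calc (4 * La ^ 4)⁻¹ * min 1 (w * s)⁻¹ * (4 * La ^ 4) * (w * s) = min 1 (w * s)⁻¹ * (w * s) := by field_simp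
      _ ≤ (w * s)⁻¹ * (w * s) := by
          gcongr
          exact min_le_right _ _
      _ = 1 := inv_mul_cancel₀ (by positivity)
  -- the physical radius
  set rp : ℝ := 2 * w * rho with hrp
  have hrp0 : 0 < rp := by positivity
  have hw1' : w ≤ 1 := hw1.trans hc1
  have hrp1 : rp ≤ 1 := by
    rw [hrp]
    nlinarith
  have hrpW : rp * La ^ 4 * W⁻¹ ≤ 1 := by
    have h1 : rp * La ^ 4 ≤ W := by
      have h2 : rp * La ^ 4 = w / 2 * (rho * (4 * La ^ 4)) := by rw [hrp]; ring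
      rw [h2]
      have h3 : w / 2 * (rho * (4 * La ^ 4)) ≤ w / 2 * 1 := by gcongr
      have h4 : c9 * W ≤ W := by nlinarith
      linarith
    calc rp * La ^ 4 * W⁻¹ ≤ W * W⁻¹ := by gcongr
      _ = 1 := mul_inv_cancel₀ hW.ne'
  have hrpδ : rp ^ 2 * (La ^ 4 * bet * ‖b - b''‖) ≤ 1 := by
    have h1 : rp * La ^ 4 * s ≤ 1 := by
      have h2 : rp * La ^ 4 * s = (rho * (4 * La ^ 4) * (w * s)) / 2 := by rw [hrp]; ring
      rw [h2]
      linarith
    calc rp ^ 2 * (La ^ 4 * bet * ‖b - b''‖) = rp ^ 2 * La ^ 4 * s ^ 2 * 1 := by rw [hs2]; ring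
      _ ≤ rp ^ 2 * La ^ 4 * s ^ 2 * La ^ 4 := by gcongr
      _ = (rp * La ^ 4 * s) ^ 2 := by ring
      _ ≤ 1 := pow_le_one₀ (by positivity) h1
  -- balls away from the support
  by_cases hfar : ∀ q ∈ Metric.ball q0 rho, ac m q = 0
  · exact Or.inl hfar
  right
  push Not at hfar
  obtain ⟨q1, hq1, hq1n⟩ := hfar
  have hq1' : ‖q1‖ < 1 := by
    by_contra h
    exact hq1n (ac_zero (not_lt.1 h))
  have hin : ∀ q ∈ Metric.ball q0 rho, ‖b2 + (2 * w) • q - b2‖ ≤ 3 * w := by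
    intro q hq
    rw [mem_ball_iff_norm] at hq hq1
    have h1 : ‖q‖ ≤ ‖q - q0‖ + ‖q1 - q0‖ + ‖q1‖ := by
      have e1 : q = (q - q0) - (q1 - q0) + q1 := by abel
      calc ‖q‖ = ‖(q - q0) - (q1 - q0) + q1‖ := by rw [← e1]
        _ ≤ _ := (norm_add_le _ _).trans (by gcongr; exact norm_sub_le _ _)
    rw [add_sub_cancel_left, norm_smul, Real.norm_eq_abs, abs_of_pos (by positivity)]
    have h2 : ‖q‖ ≤ 3 / 2 := by linarith
    have h3 : 2 * w * ‖q‖ ≤ 2 * w * (3 / 2) := by gcongr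
    linarith
  have hin9 : ∀ q ∈ Metric.ball q0 rho, ‖b2 + (2 * w) • q - b2‖ ≤ 3 * wc c9 lam r (inner ℝ om zt) := by
    intro q hq
    rw [← hwdef]
    exact hin q hq
  have hpq : ∀ q ∈ Metric.ball q0 rho, ∀ b0 : EE m, ‖b0 - b1‖ ≤ wc c9 lam r (inner ℝ om zt) →
      ‖b0‖ ≤ 3 * dl (m + 1) R ∧ ‖b2 + (2 * w) • q‖ ≤ 3 * dl (m + 1) R ∧
      pq om (xd ch e L zt sg sg' b0 (b2 + (2 * w) • q)) ≤ (3 * La * wz lam r (inner ℝ om zt)) ^ 2 := by
    intro q hq b0 hb0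
    obtain ⟨g1, g2, g3⟩ := cell_var hCX hc hS (zt := zt) hA hc0 hc1 hc9 hcM hP hsg hsg' hb1 hb2 hb0 (hin9 q hq)
    refine ⟨g1, g2, ?_⟩
    rw [pq_eq hS.om_one]
    refine pow_le_pow_left₀ (norm_nonneg _) ?_ 2
    have h3 := norm_sub_norm_le (pr om (xd ch e L zt sg sg' b0 (b2 + (2 * w) • q)))
      (pr om (xd ch e L zt sg sg' b1 b2))
    have h4 : 0 ≤ ‖pr om (xd ch e L zt sg sg' b1 b2)‖ := norm_nonneg _
    have h5 : 0 < La * W := by positivity
    linarith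
  have hDBq : ∀ q ∈ Metric.ball q0 rho, _ := fun q hq =>
    hD ch hDm om e L hS lam r T La sg sg' zt b b'' (b2 + (2 * w) • q) hP hLa1 hLa3 hsg hsg' (hpq q hq b hb9).1
      (hpq q hq b'' hb9'').1 (hpq q hq b hb9).2.1 (hpq q hq b hb9).2.2 (hpq q hq b'' hb9'').2.2
  have hDBq' : ∀ q ∈ Metric.ball q0 rho, _ := fun q hq =>
    hD ch hDm om e L hS lam r T La sg sg' zt b'' b (b2 + (2 * w) • q) hP hLa1 hLa3 hsg hsg' (hpq q hq b'' hb9'').1
      (hpq q hq b hb9).1 (hpq q hq b hb9).2.1 (hpq q hq b'' hb9'').2.2 (hpq q hq b hb9).2.2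
  have hsmFF : ∀ b0 : EE m, ContDiff ℝ ∞ fun q => (FF om lam r T (xd ch e L zt sg sg' b0 q)).re := fun b0 =>
    Complex.reCLM.contDiff.comp ((contDiff_FF om lam r T hr0).comp (contDiff_xd ch e L zt sg sg' b0))
  have hTh : ContDiff ℝ ∞ (Th ch om lam r T e L zt sg sg' b b'') :=
    smoothTh m c R M ch om lam r T e L zt sg sg' b b'' hr0
  have hq0m : q0 ∈ Metric.ball q0 rho := Metric.mem_ball_self hrho0
  have e1 : (fun y => (Th ch om lam r T e L zt sg sg' b b'' y).re) =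
      (fun y => (FF om lam r T (xd ch e L zt sg sg' b y)).re) +
        (fun y => (FF om lam r T (xd ch e L zt sg sg' b'' y)).re) := by
    funext y
    exact Th_re ch om lam r T e L zt sg sg' b b'' y
  have e2 : (fun y => (Th ch om lam r T e L zt sg sg' b b'' y).im) =
      fun y => (FF om lam r T (xd ch e L zt sg sg' b y)).im - (FF om lam r T (xd ch e L zt sg sg' b'' y)).im := by
    funext y
    exact Th_im ch om lam r T e L zt sg sg' b b'' y
  have hsc : ∀ j q, ‖iteratedFDeriv ℝ j (Ths ch om lam r T e L zt sg sg' b2 w b b'') q‖ ≤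
      (2 * w) ^ j * ‖iteratedFDeriv ℝ j (Th ch om lam r T e L zt sg sg' b b'') (b2 + (2 * w) • q)‖ := fun j q =>
    norm_iteratedFDeriv_scale hTh b2 (by positivity) j q
  have hfs : ∀ v, fderiv ℝ (Ths ch om lam r T e L zt sg sg' b2 w b b'') q0 v =
      (2 * w) • fderiv ℝ (Th ch om lam r T e L zt sg sg' b b'') (b2 + (2 * w) • q0) v := fun v =>
    fderiv_scale hTh b2 (2 * w) q0 v
  refine ⟨?_, ?_, ?_, ?_, ?_⟩
  · intro q _ j hj
    calc _ ≤ A0 * 1 := by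
          gcongr
          · exact hac q j hj
          · exact pow_le_one₀ hrho0.le (by linarith)
      _ = A0 := mul_one _
  · intro q hq j hj2 hjN
    have h1 := (hDBq q hq).1 j (by omega) hjN
    have h2 := (hDBq q hq).2.1 j hj2 hjN
    have h3 := (hDBq' q hq).2.1 j hj2 hjN
    have h4 := norm_iteratedFDeriv_le_re_im hTh j (b2 + (2 * w) • q)
    have hj' : (j : WithTop ℕ∞) ≤ ∞ := by exact_mod_cast le_top
    rw [e1, e2, iteratedFDeriv_add ((hsmFF b).of_le hj') ((hsmFF b'').of_le hj')] at h4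
    have h5 := norm_add_le
      (iteratedFDeriv ℝ j (fun y => (FF om lam r T (xd ch e L zt sg sg' b y)).re) (b2 + (2 * w) • q))
      (iteratedFDeriv ℝ j (fun y => (FF om lam r T (xd ch e L zt sg sg' b'' y)).re) (b2 + (2 * w) • q))
    rw [Pi.add_apply] at h4
    have hrj : rp ^ j ≤ rp ^ 2 := pow_le_pow_of_le_one hrp0.le hrp1 hj2
    have hk1 : rp ^ 2 * (La ^ 6 * W⁻¹ ^ 2) ≤ 1 := by
      have h6 : La ^ 6 ≤ La ^ 8 := pow_le_pow_right₀ hLa1 (by norm_num)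
      calc rp ^ 2 * (La ^ 6 * W⁻¹ ^ 2) ≤ rp ^ 2 * (La ^ 8 * W⁻¹ ^ 2) := by gcongr
        _ = (rp * La ^ 4 * W⁻¹) ^ 2 := by ring
        _ ≤ 1 := pow_le_one₀ (by positivity) hrpW
    have h7 : ‖iteratedFDeriv ℝ j (Th ch om lam r T e L zt sg sg' b b'') (b2 + (2 * w) • q)‖ ≤
        CD * La ^ 6 * W⁻¹ ^ 2 + CD * La ^ 6 * W⁻¹ ^ 2 + CD * La ^ 4 * bet * ‖b - b''‖ := by
      linarith
    calc ‖iteratedFDeriv ℝ j (Ths ch om lam r T e L zt sg sg' b2 w b b'') q‖ * rho ^ j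
        ≤ ((2 * w) ^ j * ‖iteratedFDeriv ℝ j (Th ch om lam r T e L zt sg sg' b b'') (b2 + (2 * w) • q)‖) *
          rho ^ j := by
          gcongr
          exact hsc j q
      _ = ‖iteratedFDeriv ℝ j (Th ch om lam r T e L zt sg sg' b b'') (b2 + (2 * w) • q)‖ * rp ^ j := by
          rw [hrp, mul_pow (2 * w) rho j]
          ring
      _ ≤ (CD * La ^ 6 * W⁻¹ ^ 2 + CD * La ^ 6 * W⁻¹ ^ 2 + CD * La ^ 4 * bet * ‖b - b''‖) * rp ^ 2 := by
          gcongr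
      _ = 2 * CD * (rp ^ 2 * (La ^ 6 * W⁻¹ ^ 2)) + CD * (rp ^ 2 * (La ^ 4 * bet * ‖b - b''‖)) := by ring
      _ ≤ 2 * CD * 1 + CD * 1 := by gcongr
      _ = 3 * CD := by ring
  · intro v
    have h1 := (hDBq q0 hq0m).2.2
    have h2 := (hDBq' q0 hq0m).2.2
    rw [hfs, Complex.smul_re, smul_eq_mul, fderiv_re hTh, e1, fderiv_add ((hsmFF b).differentiable (by simp) _)
      ((hsmFF b'').differentiable (by simp) _), abs_mul, abs_of_pos (by positivity : 0 < 2 * w)]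
    set b0 : EE m := b2 + (2 * w) • q0
    have h3 : |(fderiv ℝ (fun y => (FF om lam r T (xd ch e L zt sg sg' b y)).re) b0 +
        fderiv ℝ (fun y => (FF om lam r T (xd ch e L zt sg sg' b'' y)).re) b0) v| ≤
        (CD * La ^ 4 * W⁻¹ + CD * La ^ 4 * W⁻¹) * ‖v‖ := by
      rw [← Real.norm_eq_abs]
      refine (ContinuousLinearMap.le_opNorm _ v).trans ?_
      gcongr
      exact (norm_add_le _ _).trans (add_le_add h1 h2)
    calc _ ≤ rho * (2 * w * ((CD * La ^ 4 * W⁻¹ + CD * La ^ 4 * W⁻¹) * ‖v‖)) := by gcongr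
      _ = 2 * CD * (rp * La ^ 4 * W⁻¹) * ‖v‖ := by rw [hrp]; ring
      _ ≤ 3 * CD * 1 * ‖v‖ := by gcongr; norm_num
      _ = 3 * CD * ‖v‖ := by ring
  · have h1 := hG ch hDm om e L hS lam r T La sg sg' zt b b'' (b2 + (2 * w) • q0) hP (hCGC.trans hClam) hLa1
      (le_trans (by gcongr) hCLa) hsg hsg' (hpq q0 hq0m b hb9).1 (hpq q0 hq0m b'' hb9'').1
      (hpq q0 hq0m b hb9).2.1 (hpq q0 hq0m b hb9).2.2 (hpq q0 hq0m b'' hb9'').2.2
    refine ⟨‖b - b''‖⁻¹ • (b - b''), ?_, ?_⟩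
    · rw [norm_smul, norm_inv, norm_norm, inv_mul_cancel₀ hδ.ne']
    · rw [hfs, Complex.smul_im, smul_eq_mul, fderiv_im hTh, e2, map_smul, smul_eq_mul, abs_mul (2 * w), abs_mul ‖b - b''‖⁻¹,
        abs_of_pos (inv_pos.mpr hδ), abs_of_pos (by positivity : 0 < 2 * w), mul_div_assoc]
      refine mul_le_mul_of_nonneg_left ?_ hrho0.le
      set G : ℝ := |fderiv ℝ (fun y => (FF om lam r T (xd ch e L zt sg sg' b y)).im -
        (FF om lam r T (xd ch e L zt sg sg' b'' y)).im) (b2 + (2 * w) • q0) (b - b'')| with hGdef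
      have hG0 : 0 ≤ G := abs_nonneg _
      have h2 : bet * ‖b - b''‖ ^ 2 ≤ C * G := h1.trans (by gcongr)
      rw [div_le_iff₀ (by linarith)]
      have h3 : w * bet * ‖b - b''‖ = w * (‖b - b''‖⁻¹ * (bet * ‖b - b''‖ ^ 2)) := by
        field_simp
      rw [h3]
      calc w * (‖b - b''‖⁻¹ * (bet * ‖b - b''‖ ^ 2)) ≤ w * (‖b - b''‖⁻¹ * (C * G)) := by gcongr
        _ ≤ w * (‖b - b''‖⁻¹ * (C * G)) * 2 := by
            have : 0 ≤ w * (‖b - b''‖⁻¹ * (C * G)) := by positivity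
            linarith
        _ = 2 * w * (‖b - b''‖⁻¹ * G) * C := by ring
  · have h1 := hE ch hDm om e L hS c9 lam r T sg sg' zt b1 b2 b b'' (b2 + (2 * w) • q0) hc0 hc1 hc9 hcM hP hsg
      hsg' hb1 hb2 hb9 hb9'' (hin9 q0 hq0m)
    refine h1.trans ?_
    gcongr

end Pool.Agent.Lib.MP_a8dae7_an.UN.Z_JFaM
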