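import Pool.Agent.Lib.MP_a8dae7_an.UN.JFDefs
import Pool.Agent.Lib.MP_a8dae7_an.CV.Spec

/-!
# MP_a8dae7_an, UN: Z_JFb, the `TT*` kernel on a pair of cells (second half of SpecJFU)

Factorisation and rescaling of `JJ`, application of NG, the trivial cases, absorption of the powers of `La`.
-/

set_option autoImplicit false

open MeasureTheory
open scoped ContDiff

namespace Pool.Agent.Lib.MP_a8dae7_an.UN.JFbM

open Pool.Agent.Lib.MP_a8dae7_an.CV (EE zv ex pq pi2 AA sl bm)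

/-! ### numbers -/

theorem absorb (K : ℕ) : ∃ D : ℝ, 1 ≤ D ∧ ∀ x y : ℝ, 0 ≤ y →
    (2 * (1 + y) * (1 + |x|)) ^ K * Real.exp (-(9 / 32 * x ^ 2) - y ^ 2 / 2) ≤
      D * Real.exp (-(x ^ 2 / 16) - y ^ 2 / 6) := by
  obtain ⟨F, hF⟩ : ∃ F : ℝ, F = (K.factorial : ℝ) := ⟨_, rfl⟩
  have hF1 : 1 ≤ F := by
    rw [hF]
    exact_mod_cast Nat.one_le_iff_ne_zero.2 (Nat.factorial_ne_zero K)
  have hF0 : 0 < F := by linarith
  have hD : ∃ D : ℝ, D = 2 ^ K * (6 ^ K * F * Real.exp (1 / 3)) * ((64 / 7) ^ K * F * Real.exp (7 / 32)) :=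
    ⟨_, rfl⟩
  obtain ⟨D, hD⟩ := hD
  have hD1 : 1 ≤ D := by
    rw [hD]
    have e1 : (1 : ℝ) ≤ 2 ^ K := one_le_pow₀ (by norm_num)
    have e2 : (1 : ℝ) ≤ 6 ^ K := one_le_pow₀ (by norm_num)
    have e3 : (1 : ℝ) ≤ (64 / 7) ^ K := one_le_pow₀ (by norm_num)
    have e4 : (1 : ℝ) ≤ Real.exp (1 / 3) := Real.one_le_exp (by norm_num)
    have e5 : (1 : ℝ) ≤ Real.exp (7 / 32) := Real.one_le_exp (by norm_num)
    exact one_le_mul_of_one_le_of_one_le (one_le_mul_of_one_le_of_one_le e1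
      (one_le_mul_of_one_le_of_one_le (one_le_mul_of_one_le_of_one_le e2 hF1) e4))
      (one_le_mul_of_one_le_of_one_le (one_le_mul_of_one_le_of_one_le e3 hF1) e5)
  refine ⟨D, hD1, fun x y hy => ?_⟩
  -- the general bound
  have key : ∀ (b u : ℝ), 0 < b → 0 ≤ u → (1 + u) ^ K ≤
      (2 / b) ^ K * F * Real.exp (b + b * u ^ 2) := by
    intro b u hb hu
    have h1 : (1 + u) ≤ 2 / b * (b + b * u ^ 2) := by
      have : 2 / b * (b + b * u ^ 2) = 2 + 2 * u ^ 2 := by field_simp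
      rw [this]
      nlinarith [sq_nonneg (u - 1), sq_nonneg u]
    have h2 : (b + b * u ^ 2) ^ K ≤ F * Real.exp (b + b * u ^ 2) := by
      have h3 := Real.pow_div_factorial_le_exp (b + b * u ^ 2) (by positivity) K
      rw [← hF, div_le_iff₀ hF0] at h3
      linarith
    calc (1 + u) ^ K ≤ (2 / b * (b + b * u ^ 2)) ^ K := pow_le_pow_left₀ (by positivity) h1 K
      _ = (2 / b) ^ K * (b + b * u ^ 2) ^ K := mul_pow _ _ _
      _ ≤ (2 / b) ^ K * (F * Real.exp (b + b * u ^ 2)) :=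
          mul_le_mul_of_nonneg_left h2 (by positivity)
      _ = (2 / b) ^ K * F * Real.exp (b + b * u ^ 2) := by ring
  have hy1 := key (1 / 3) y (by norm_num) hy
  have hx1 := key (7 / 32) |x| (by norm_num) (abs_nonneg x)
  rw [sq_abs] at hx1
  have e6 : (2 : ℝ) / (1 / 3) = 6 := by norm_num
  have e7 : (2 : ℝ) / (7 / 32) = 64 / 7 := by norm_num
  rw [e6, Real.exp_add] at hy1
  rw [e7, Real.exp_add] at hx1
  have hprod : (1 + y) ^ K * (1 + |x|) ^ K ≤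
      (6 ^ K * F * (Real.exp (1 / 3) * Real.exp (1 / 3 * y ^ 2))) *
      ((64 / 7) ^ K * F * (Real.exp (7 / 32) * Real.exp (7 / 32 * x ^ 2))) :=
    mul_le_mul hy1 hx1 (by positivity) (by positivity)
  have hexp : Real.exp (1 / 3 * y ^ 2) * Real.exp (7 / 32 * x ^ 2) *
      Real.exp (-(9 / 32 * x ^ 2) - y ^ 2 / 2) = Real.exp (-(x ^ 2 / 16) - y ^ 2 / 6) := by
    rw [← Real.exp_add, ← Real.exp_add]
    congr 1
    ring
  calc (2 * (1 + y) * (1 + |x|)) ^ K * Real.exp (-(9 / 32 * x ^ 2) - y ^ 2 / 2)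
      = 2 ^ K * ((1 + y) ^ K * (1 + |x|) ^ K) * Real.exp (-(9 / 32 * x ^ 2) - y ^ 2 / 2) := by
        rw [mul_pow, mul_pow]
        ring
    _ ≤ 2 ^ K * ((6 ^ K * F * (Real.exp (1 / 3) * Real.exp (1 / 3 * y ^ 2))) *
      ((64 / 7) ^ K * F * (Real.exp (7 / 32) * Real.exp (7 / 32 * x ^ 2)))) *
        Real.exp (-(9 / 32 * x ^ 2) - y ^ 2 / 2) := by
        refine mul_le_mul_of_nonneg_right (mul_le_mul_of_nonneg_left hprod (by positivity))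
          (Real.exp_pos _).le
    _ = 2 ^ K * (6 ^ K * F * Real.exp (1 / 3)) * ((64 / 7) ^ K * F * Real.exp (7 / 32)) *
        (Real.exp (1 / 3 * y ^ 2) * Real.exp (7 / 32 * x ^ 2) *
        Real.exp (-(9 / 32 * x ^ 2) - y ^ 2 / 2)) := by ring
    _ = D * Real.exp (-(x ^ 2 / 16) - y ^ 2 / 6) := by rw [hexp, hD]

theorem tr1 {mu C L : ℝ} (hmu : mu ≤ 1) (hC : 1 ≤ C) (hL : 1 ≤ L) :
    1 + mu ≤ (2 + 2 * C + 2 * C ^ 2) * L := by
  have h1 : 0 ≤ 2 + 2 * C + 2 * C ^ 2 := by positivity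
  have h2 : 1 + mu ≤ (2 + 2 * C + 2 * C ^ 2) * 1 := by nlinarith [sq_nonneg C]
  exact h2.trans (mul_le_mul_of_nonneg_left hL h1)

theorem tr2 {mu r lam C L : ℝ} (hmu : mu ≤ 2 * r) (hr : r ≤ lam) (hl : lam < C) (hC : 1 ≤ C)
    (hL : 1 ≤ L) : 1 + mu ≤ (2 + 2 * C + 2 * C ^ 2) * L := by
  have h1 : 0 ≤ 2 + 2 * C + 2 * C ^ 2 := by positivity
  have h2 : 1 + mu ≤ (2 + 2 * C + 2 * C ^ 2) * 1 := by nlinarith [sq_nonneg C]
  exact h2.trans (mul_le_mul_of_nonneg_left hL h1)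

theorem tr3 {mu r C L : ℝ} (hmu : mu ≤ 2 * r) (hr : r ≤ C ^ 2 * L) (hC : 1 ≤ C) (hL : 1 ≤ L) :
    1 + mu ≤ (2 + 2 * C + 2 * C ^ 2) * L := by
  have h1 : 0 ≤ (1 + 2 * C) * L := by positivity
  have h2 : (2 + 2 * C + 2 * C ^ 2) * L = (1 + 2 * C) * L + L + 2 * (C ^ 2 * L) := by ring
  rw [h2]
  linarith

theorem r_le {r lam : ℝ} (hlam : 1 ≤ lam) (hr : 1 ≤ r) (hr3 : r ^ 3 ≤ lam ^ 2) : r ≤ lam := by
  by_contra hcon
  push Not at hcon
  have h5 : lam ^ 2 < r ^ 2 := pow_lt_pow_left₀ hcon (by linarith) two_ne_zero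
  nlinarith [sq_nonneg r]

theorem r_le' {r lam C La : ℝ} (hlam : 0 < lam) (hr : 0 < r) (hr3 : r ^ 3 ≤ lam ^ 2)
    (h : lam < C * La * r) : r ≤ C ^ 2 * La ^ 2 := by
  have h6 : r ^ 3 ≤ (C * La * r) ^ 2 := hr3.trans (pow_le_pow_left₀ hlam.le h.le 2)
  have h7 : r * r ^ 2 ≤ (C ^ 2 * La ^ 2) * r ^ 2 := by
    calc r * r ^ 2 = r ^ 3 := by ring
      _ ≤ (C * La * r) ^ 2 := h6
      _ = (C ^ 2 * La ^ 2) * r ^ 2 := by ring
  exact le_of_mul_le_mul_right h7 (by positivity)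

theorem pq_nonneg {d : ℕ} (om x : EE d) (h : ‖om‖ = 1) : 0 ≤ pq om x := by
  have h1 : |inner ℝ om x| ≤ ‖x‖ := by
    have := abs_real_inner_le_norm om x
    rwa [h, one_mul] at this
  have h2 : inner ℝ om x ^ 2 ≤ ‖x‖ ^ 2 := by
    rw [← sq_abs (inner ℝ om x : ℝ)]
    exact pow_le_pow_left₀ (abs_nonneg _) h1 2
  unfold pq
  linarith

/-! ### factorisation and rescaling -/

section
variable {m : ℕ} {c R : ℝ} {M : ℕ → ℝ} (ch : UChart (m + 1) c R M) (om : EE (m + 2)) (lam r T : ℝ)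
  (e : EE (m + 1)) (L : EE m →ₗᵢ[ℝ] EE (m + 1)) (zt : EE (m + 2)) (sg sg' : ℝ)

/-- the phase `e^{i lam (t - t'')}` does not depend on `b'` -/
theorem prod_eq (b b'' b' : EE m) :
    ks ch om lam r T e L zt sg sg' b b' * (starRingEnd ℂ) (ks ch om lam r T e L zt sg sg' b'' b') =
      (((Real.sqrt Real.pi / T * Real.pi ^ (((m + 1 : ℕ) : ℝ) / 2) : ℝ) : ℂ) ^ 2 *
        Complex.exp (((lam * inner ℝ om (ch.X (sl e L sg b) - ch.X (sl e L sg b'')) : ℝ) : ℂ) * Complex.I)) *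
      Complex.exp (Th ch om lam r T e L zt sg sg' b b'' b') := by
  unfold ks Kf Th
  rw [map_mul, map_mul, Complex.conj_ofReal, ← Complex.exp_conj, ← Complex.exp_conj, map_mul,
    Complex.conj_I, Complex.conj_ofReal, Complex.exp_add]
  have h : Complex.exp (((lam * inner ℝ om (ch.X (sl e L sg b) - ch.X (sl e L sg b'')) : ℝ) : ℂ) * Complex.I) =
      Complex.exp (Complex.I * ((lam * inner ℝ om (xd ch e L zt sg sg' b b') : ℝ) : ℂ)) *
      Complex.exp (-Complex.I * ((lam * inner ℝ om (xd ch e L zt sg sg' b'' b') : ℝ) : ℂ)) := by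
    rw [← Complex.exp_add]
    congr 1
    unfold xd
    simp only [inner_add_right, inner_sub_right]
    push_cast
    ring
  rw [h]
  ring

theorem norm_JJ (hT : 0 < T) (b2 b b'' : EE m) {w : ℝ} (hw : 0 < w) :
    ‖JJ ch om lam r T e L zt sg sg' b2 w b b''‖ =
    (Real.sqrt Real.pi * Real.pi ^ (((m + 1 : ℕ) : ℝ) / 2)) ^ 2 * T⁻¹ ^ 2 * (2 * w) ^ m *
      ‖∫ x, ac m x * Complex.exp (Ths ch om lam r T e L zt sg sg' b2 w b b'' x)‖ := by
  unfold JJ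
  obtain ⟨G, hG⟩ : ∃ G : EE m → ℂ, G = fun x' : EE m => ((bm m ((4 * w)⁻¹ • x') : ℝ) : ℂ) *
    Complex.exp (Th ch om lam r T e L zt sg sg' b b'' (b2 + x')) := ⟨_, rfl⟩
  have h : (fun x' : EE m => ((bm m ((4 * w)⁻¹ • x') : ℝ) : ℂ) *
      (ks ch om lam r T e L zt sg sg' b (b2 + x') *
      (starRingEnd ℂ) (ks ch om lam r T e L zt sg sg' b'' (b2 + x')))) = fun x' =>
      (((Real.sqrt Real.pi / T * Real.pi ^ (((m + 1 : ℕ) : ℝ) / 2) : ℝ) : ℂ) ^ 2 *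
        Complex.exp (((lam * inner ℝ om (ch.X (sl e L sg b) - ch.X (sl e L sg b'')) : ℝ) : ℂ) * Complex.I)) *
      G x' := by
    funext x'
    rw [prod_eq ch om lam r T e L zt sg sg' b b'' (b2 + x'), hG]
    ring
  have hs : ∫ x, G ((2 * w) • x) = (((2 * w) ^ m)⁻¹ : ℝ) • ∫ x, G x := by
    have h1 := Measure.integral_comp_smul (volume : Measure (EE m)) G (2 * w)
    rw [finrank_euclideanSpace_fin, abs_of_pos (by positivity)] at h1
    exact h1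
  have hG2 : (fun x => G ((2 * w) • x)) = fun x =>
      ac m x * Complex.exp (Ths ch om lam r T e L zt sg sg' b2 w b b'' x) := by
    funext x
    rw [hG]
    unfold ac Ths
    simp only
    rw [smul_smul]
    have h2 : (4 * w)⁻¹ * (2 * w) = (1 / 2 : ℝ) := by field_simp; norm_num
    rw [h2]
  rw [h, integral_const_mul, norm_mul, norm_mul, norm_pow, Complex.norm_real,
    Complex.norm_exp_ofReal_mul_I, mul_one, Real.norm_eq_abs, sq_abs]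
  have h3 : ∫ x, G x = ((2 * w) ^ m : ℝ) •
      ∫ x, ac m x * Complex.exp (Ths ch om lam r T e L zt sg sg' b2 w b b'' x) := by
    rw [← hG2, hs, smul_smul, mul_inv_cancel₀ (by positivity), one_smul]
  rw [h3, norm_smul, Real.norm_of_nonneg (by positivity)]
  rw [div_eq_mul_inv]
  ring

theorem contDiff_Ths (hS : SmoothTh) (hr : 0 < r) (b2 b b'' : EE m) (w : ℝ) :
    ContDiff ℝ ∞ (Ths ch om lam r T e L zt sg sg' b2 w b b'') := by
  unfold Ths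
  exact (hS m c R M ch om lam r T e L zt sg sg' b b'' hr).comp
    (contDiff_const.add (contDiff_const_smul (2 * w)))

end

theorem contDiff_ac (m : ℕ) : ContDiff ℝ ∞ (ac m) := by
  unfold ac
  exact Complex.ofRealCLM.contDiff.comp ((bm m).contDiff.comp (contDiff_const_smul (1 / 2 : ℝ)))

theorem ac_zero (m : ℕ) (x : EE m) (hx : 1 ≤ ‖x‖) : ac m x = 0 := by
  unfold ac
  have h : (bm m) ((1 / 2 : ℝ) • x) = 0 := by
    refine (bm m).zero_of_le_dist ?_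
    have h2 : (bm m).rOut = 1 / 2 := rfl
    rw [h2, dist_zero_right, norm_smul]
    norm_num
    linarith
  rw [h]
  simp

theorem norm_ac_le (m : ℕ) (x : EE m) : ‖ac m x‖ ≤ 1 := by
  unfold ac
  rw [Complex.norm_real, Real.norm_of_nonneg (bm m).nonneg]
  exact (bm m).le_one

/-- a bounded function times the cutoff -/
theorem triv_int (m : ℕ) (g : EE m → ℂ) {Q : ℝ} (hQ : 0 ≤ Q) (hg : ∀ x, ‖x‖ ≤ 1 → ‖g x‖ ≤ Q) :
    ‖∫ x, ac m x * g x‖ ≤ Q * volume.real (Metric.closedBall (0 : EE m) 1) := by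
  have h1 : ∫ x, ac m x * g x = ∫ x in Metric.closedBall (0 : EE m) 1, ac m x * g x := by
    refine (setIntegral_eq_integral_of_forall_compl_eq_zero fun x hx => ?_).symm
    have h2 : 1 < ‖x‖ := by simpa [Metric.mem_closedBall, dist_zero_right] using hx
    rw [ac_zero m x h2.le, zero_mul]
  rw [h1]
  refine norm_setIntegral_le_of_norm_le_const measure_closedBall_lt_top fun x hx => ?_
  rw [norm_mul]
  have h3 : ‖x‖ ≤ 1 := by simpa [Metric.mem_closedBall, dist_zero_right] using hx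
  calc ‖ac m x‖ * ‖g x‖ ≤ 1 * Q := mul_le_mul (norm_ac_le m x) (hg x h3) (norm_nonneg _) zero_le_one
    _ = Q := one_mul Q

/-- **JFU** from the two halves of the interface -/
theorem specJFU (hNG : CV.SpecNG) (hCE : CellExp) (hBA : BallAltU) (hS : SmoothTh) : SpecJFU := by
  intro m c R A M hA hcls
  have hR := hcls.R_pos
  have hdl : 0 < dl (m + 1) R := by unfold dl; positivity
  obtain ⟨c9, hc9⟩ : ∃ c9 : ℝ, c9 = min 1 (min (dl (m + 1) R / 8) (1 / (28 * (|M 1| + 1)))) := ⟨_, rfl⟩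
  have hM1 : 0 < |M 1| + 1 := by positivity
  have hc90 : 0 < c9 := by
    rw [hc9]
    exact lt_min one_pos (lt_min (by positivity) (by positivity))
  have hc91 : c9 ≤ 1 := by rw [hc9]; exact min_le_left _ _
  have hc92 : c9 ≤ dl (m + 1) R / 8 := by
    rw [hc9]
    exact (min_le_right _ _).trans (min_le_left _ _)
  have hc93 : c9 * M 1 ≤ 1 / 28 := by
    have h1 : c9 ≤ 1 / (28 * (|M 1| + 1)) := by
      rw [hc9]
      exact (min_le_right _ _).trans (min_le_right _ _)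
    calc c9 * M 1 ≤ c9 * (|M 1| + 1) :=
          mul_le_mul_of_nonneg_left (by linarith [le_abs_self (M 1)]) hc90.le
      _ ≤ 1 / (28 * (|M 1| + 1)) * (|M 1| + 1) := mul_le_mul_of_nonneg_right h1 hM1.le
      _ = 1 / 28 := by field_simp
  refine ⟨c9, hc90, hc91, hc92, fun N => ?_⟩
  obtain ⟨C1, hC1, hCE⟩ := hCE m c R A M hA hcls
  obtain ⟨A0, B, C2, hA0, hB, hC2, hBA⟩ := hBA m c R A M hA hcls (2 * N)
  obtain ⟨C3, hC3, hNG⟩ := hNG m (2 * N) B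
  obtain ⟨D8, hD81, hD8⟩ := absorb (8 * N)
  obtain ⟨D2, hD21, hD2⟩ := absorb (2 * N)
  obtain ⟨V, hV⟩ : ∃ V, V = volume.real (Metric.closedBall (0 : EE m) 1) := ⟨_, rfl⟩
  have hV0 : 0 ≤ V := by rw [hV]; positivity
  obtain ⟨P, hP⟩ : ∃ P, P = (Real.sqrt Real.pi * Real.pi ^ (((m + 1 : ℕ) : ℝ) / 2)) ^ 2 := ⟨_, rfl⟩
  have hP0 : 0 < P := by rw [hP]; positivity
  obtain ⟨Dt, hDt⟩ : ∃ Dt, Dt = 2 + 2 * C2 + 2 * C2 ^ 2 := ⟨_, rfl⟩
  have hDt0 : 0 < Dt := by rw [hDt]; positivity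
  obtain ⟨Q1, hQ1⟩ : ∃ Q1, Q1 = P * 2 ^ m * (C1 * V) * (Dt ^ N * D2) := ⟨_, rfl⟩
  obtain ⟨Q2, hQ2⟩ : ∃ Q2, Q2 = P * 2 ^ m * (C3 * (A0 * C2)) * ((4 * C2) ^ (2 * N) * 2 ^ N * D8) :=
    ⟨_, rfl⟩
  have hQ10 : 0 ≤ Q1 := by rw [hQ1]; positivity
  have hQ20 : 0 ≤ Q2 := by rw [hQ2]; positivity
  refine ⟨Q1 + Q2 + 1, by positivity, ?_⟩
  intro ch hDm om e L hSl lam r T sg sg' zt b1 b2 b b'' hPar hsg hsg' hb1 hb2 hb hb''
  have hlam1 := hPar.lam1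
  have hr1 := hPar.r1
  have hr3 := hPar.r3
  have hT1 := hPar.T1
  have htA := hPar.tA
  have hlam : 0 < lam := by linarith
  have hr0 : 0 < r := by linarith
  have hT0 : 0 < T := by linarith
  obtain ⟨tz, htz⟩ : ∃ tz : ℝ, tz = inner ℝ om zt := ⟨_, rfl⟩
  rw [← htz] at htA hPar hb hb'' ⊢
  have htz0 : 0 < |tz| := lt_of_lt_of_le (by positivity) htA
  obtain ⟨W, hW⟩ : ∃ W : ℝ, W = wz lam r tz := ⟨_, rfl⟩
  have hWdef : W = r * |tz| / lam := by rw [hW]; rfl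
  have hW0 : 0 < W := by rw [hWdef]; positivity
  obtain ⟨w, hw⟩ : ∃ w : ℝ, w = wc c9 lam r tz := ⟨_, rfl⟩
  have hwdef : w = c9 * min 1 W := by rw [hw, hW]; rfl
  have hw0 : 0 < w := by rw [hwdef]; exact mul_pos hc90 (lt_min one_pos hW0)
  have hw1 : w ≤ 1 := by
    rw [hwdef]
    calc c9 * min 1 W ≤ 1 * 1 := mul_le_mul hc91 (min_le_left _ _) (lt_min one_pos hW0).le zero_le_one
      _ = 1 := one_mul 1
  have hwW : w ≤ W := by
    rw [hwdef]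
    calc c9 * min 1 W ≤ 1 * W := mul_le_mul hc91 (min_le_right _ _) (lt_min one_pos hW0).le zero_le_one
      _ = W := one_mul W
  rw [← hw] at hb hb'' ⊢
  rw [← hW]
  obtain ⟨pY, hpY⟩ : ∃ pY : ℝ, pY = pq om (xd ch e L zt sg sg' b1 b2) := ⟨_, rfl⟩
  have hpY0 : 0 ≤ pY := by rw [hpY]; exact pq_nonneg _ _ hSl.om_one
  rw [← hpY]
  obtain ⟨y, hy⟩ : ∃ y : ℝ, y = Real.sqrt pY / W := ⟨_, rfl⟩
  have hy0 : 0 ≤ y := by rw [hy]; positivity
  have hy2 : y ^ 2 = pY / W ^ 2 := by rw [hy, div_pow, Real.sq_sqrt hpY0]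
  obtain ⟨La, hLa⟩ : ∃ La : ℝ, La = 2 * (1 + y) * (1 + |tz / T|) := ⟨_, rfl⟩
  have hLa1 : 1 ≤ La := by
    rw [hLa]
    have h1 : 1 ≤ 1 + |tz / T| := by linarith [abs_nonneg (tz / T)]
    have h2 : 1 ≤ 2 * (1 + y) := by linarith
    exact one_le_mul_of_one_le_of_one_le h2 h1
  have hLa0 : 0 < La := by linarith
  obtain ⟨E0, hE0⟩ : ∃ E0, E0 = Real.exp (-(9 / 32 * (tz / T) ^ 2) - y ^ 2 / 2) := ⟨_, rfl⟩
  have hE00 : 0 < E0 := by rw [hE0]; exact Real.exp_pos _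
  obtain ⟨E1, hE1⟩ : ∃ E1, E1 = Real.exp (-((tz / T) ^ 2 / 16) - y ^ 2 / 6) := ⟨_, rfl⟩
  have hE10 : 0 < E1 := by rw [hE1]; exact Real.exp_pos _
  have hA8 : La ^ (8 * N) * E0 ≤ D8 * E1 := by
    rw [hLa, hE0, hE1]
    exact hD8 (tz / T) y hy0
  have hA2 : La ^ (2 * N) * E0 ≤ D2 * E1 := by
    rw [hLa, hE0, hE1]
    exact hD2 (tz / T) y hy0
  obtain ⟨bet, hbet⟩ : ∃ bet : ℝ, bet = lam / |tz| := ⟨_, rfl⟩
  have hbet0 : 0 < bet := by rw [hbet]; positivity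
  rw [← hbet]
  obtain ⟨dlt, hdlt⟩ : ∃ dlt : ℝ, dlt = ‖b - b''‖ := ⟨_, rfl⟩
  have hdlt0 : 0 ≤ dlt := by rw [hdlt]; exact norm_nonneg _
  have hdlt2 : dlt ≤ 2 * w := by
    rw [hdlt]
    calc ‖b - b''‖ = ‖(b - b1) - (b'' - b1)‖ := by congr 1; abel
      _ ≤ ‖b - b1‖ + ‖b'' - b1‖ := norm_sub_le _ _
      _ ≤ 2 * w := by linarith
  rw [← hdlt]
  obtain ⟨mu, hmu⟩ : ∃ mu : ℝ, mu = w * bet * dlt := ⟨_, rfl⟩
  have hmu0 : 0 ≤ mu := by rw [hmu]; positivity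
  rw [← hmu]
  have hmur : mu ≤ 2 * r := by
    have h1 : w * bet ≤ r := by
      calc w * bet ≤ W * bet := mul_le_mul_of_nonneg_right hwW hbet0.le
        _ = r := by rw [hWdef, hbet]; field_simp
    calc mu = (w * bet) * dlt := hmu
      _ ≤ r * 2 := mul_le_mul h1 (by linarith) hdlt0 hr0.le
      _ = 2 * r := by ring
  -- the size of the exponential
  have hexp : ∀ x : EE m, ‖x‖ ≤ 1 → ‖Complex.exp (Ths ch om lam r T e L zt sg sg' b2 w b b'' x)‖ ≤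
      C1 * bet ^ (m + 1) * E0 := by
    intro x hx
    have h1 := hCE ch hDm om e L hSl c9 lam r T sg sg' zt b1 b2 b b'' (b2 + (2 * w) • x) hc90 hc91 hc92
      hc93 (by rw [← htz]; exact hPar) hsg hsg' hb1 hb2 (by rw [← htz, ← hw]; exact hb)
      (by rw [← htz, ← hw]; exact hb'') (by
        rw [← htz, ← hw, add_sub_cancel_left, norm_smul, Real.norm_of_nonneg (by positivity)]
        have h9 : 2 * w * ‖x‖ ≤ 2 * w * 1 := mul_le_mul_of_nonneg_left hx (by positivity)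
        linarith)
    rw [← htz, ← hpY, ← hW, ← hbet] at h1
    have h2 : Real.exp (-(9 / 32 * (tz / T) ^ 2) - pY / (2 * W ^ 2)) = E0 := by
      rw [hE0, hy2]
      congr 2
      field_simp
    rw [h2] at h1
    exact h1
  have hE1eq : Real.exp (-((tz / T) ^ 2 / 16) - pY / (6 * W ^ 2)) = E1 := by
    rw [hE1, hy2]
    congr 2
    field_simp
  rw [hE1eq, norm_JJ ch om lam r T e L zt sg sg' hT0 b2 b b'' hw0, ← hP]
  have h1mu : 0 < 1 + mu := by linarith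
  obtain ⟨S, hS'⟩ : ∃ S, S = T⁻¹ ^ 2 * bet ^ (m + 1) * w ^ m * E1 * ((1 + mu) ^ N)⁻¹ := ⟨_, rfl⟩
  have hS0 : 0 ≤ S := by rw [hS']; positivity
  have hgoal : (Q1 + Q2 + 1) * T⁻¹ ^ 2 * bet ^ (m + 1) * w ^ m * E1 * ((1 + mu) ^ N)⁻¹ =
      (Q1 + Q2 + 1) * S := by rw [hS']; ring
  rw [hgoal]
  -- the trivial cases
  have htriv : 1 + mu ≤ Dt * La ^ 2 →
      P * T⁻¹ ^ 2 * (2 * w) ^ m *
        ‖∫ x, ac m x * Complex.exp (Ths ch om lam r T e L zt sg sg' b2 w b b'' x)‖ ≤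
      (Q1 + Q2 + 1) * S := by
    intro hle
    have h1 := triv_int m (fun x => Complex.exp (Ths ch om lam r T e L zt sg sg' b2 w b b'' x))
      (Q := C1 * bet ^ (m + 1) * E0) (by positivity) hexp
    rw [← hV] at h1
    have h2 : (1 : ℝ) ≤ Dt ^ N * La ^ (2 * N) * ((1 + mu) ^ N)⁻¹ := by
      rw [← div_eq_mul_inv, one_le_div (by positivity), pow_mul, ← mul_pow]
      exact pow_le_pow_left₀ h1mu.le hle N
    calc P * T⁻¹ ^ 2 * (2 * w) ^ m *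
        ‖∫ x, ac m x * Complex.exp (Ths ch om lam r T e L zt sg sg' b2 w b b'' x)‖
        ≤ P * T⁻¹ ^ 2 * (2 * w) ^ m * (C1 * bet ^ (m + 1) * E0 * V) :=
          mul_le_mul_of_nonneg_left h1 (by positivity)
      _ = P * 2 ^ m * (C1 * V) * (T⁻¹ ^ 2 * bet ^ (m + 1) * w ^ m) * E0 * 1 := by
          rw [mul_pow]; ring
      _ ≤ P * 2 ^ m * (C1 * V) * (T⁻¹ ^ 2 * bet ^ (m + 1) * w ^ m) * E0 *
          (Dt ^ N * La ^ (2 * N) * ((1 + mu) ^ N)⁻¹) :=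
          mul_le_mul_of_nonneg_left h2 (by positivity)
      _ = P * 2 ^ m * (C1 * V) * (T⁻¹ ^ 2 * bet ^ (m + 1) * w ^ m) * ((1 + mu) ^ N)⁻¹ * Dt ^ N *
          (La ^ (2 * N) * E0) := by ring
      _ ≤ P * 2 ^ m * (C1 * V) * (T⁻¹ ^ 2 * bet ^ (m + 1) * w ^ m) * ((1 + mu) ^ N)⁻¹ * Dt ^ N *
          (D2 * E1) := mul_le_mul_of_nonneg_left hA2 (by positivity)
      _ = Q1 * S := by rw [hQ1, hS']; ring
      _ ≤ (Q1 + Q2 + 1) * S := mul_le_mul_of_nonneg_right (by linarith) hS0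
  have hLa2 : 1 ≤ La ^ 2 := one_le_pow₀ hLa1
  rcases lt_or_ge mu 1 with hcase | hmu1
  · refine htriv ?_
    rw [hDt]
    exact tr1 hcase.le hC2 hLa2
  rcases lt_or_ge lam C2 with hcase | hCl
  · refine htriv ?_
    rw [hDt]
    exact tr2 hmur (r_le hlam1 hr1 hr3) hcase hC2 hLa2
  rcases lt_or_ge lam (C2 * La * r) with hcase | hCLr
  · refine htriv ?_
    rw [hDt]
    exact tr3 hmur (r_le' hlam hr0 hr3 hcase) hC2 hLa2
  -- the main case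
  have hdlt1 : 0 < dlt := by
    rcases hdlt0.eq_or_lt with h | h
    · rw [hmu, ← h, mul_zero] at hmu1
      linarith
    · exact h
  obtain ⟨rho, hrho⟩ : ∃ rho : ℝ, rho = (4 * La ^ 4)⁻¹ * min 1 (w * Real.sqrt (bet * dlt))⁻¹ := ⟨_, rfl⟩
  have hsq0 : 0 < Real.sqrt (bet * dlt) := Real.sqrt_pos.2 (by positivity)
  have hmin0 : 0 < min 1 (w * Real.sqrt (bet * dlt))⁻¹ := lt_min one_pos (by positivity)
  have hrho0 : 0 < rho := by rw [hrho]; positivity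
  have hLa4 : 1 ≤ La ^ 4 := one_le_pow₀ hLa1
  have hrho1 : rho ≤ 1 := by
    rw [hrho]
    have h1 : (4 * La ^ 4)⁻¹ ≤ 1 := inv_le_one_of_one_le₀ (by linarith)
    calc (4 * La ^ 4)⁻¹ * min 1 (w * Real.sqrt (bet * dlt))⁻¹ ≤ 1 * 1 :=
          mul_le_mul h1 (min_le_left _ _) hmin0.le zero_le_one
      _ = 1 := one_mul 1
  have halt := hBA ch hDm om e L hSl c9 lam r T sg sg' w La rho zt b1 b2 b b'' hc90 hc91 hc92 hc93
    (by rw [← htz]; exact hPar) hsg hsg' hb1 hb2 (by rw [← htz]; exact hw) hb hb''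
    (by rw [← hdlt]; exact hdlt1)
    (by rw [hLa, hy, hpY, hW, htz, abs_div, abs_of_pos hT0]; rfl) hCl hCLr
    (by rw [← htz, ← hbet, ← hdlt]; exact hrho)
  rw [← htz, ← hpY, ← hW, ← hbet, ← hdlt] at halt
  have h2 : Real.exp (-(9 / 32 * (tz / T) ^ 2) - pY / (2 * W ^ 2)) = E0 := by
    rw [hE0, hy2]
    congr 2
    field_simp
  rw [h2] at halt
  have hsmu : 0 < Real.sqrt mu := Real.sqrt_pos.2 (by linarith)
  have hminmu : (Real.sqrt mu)⁻¹ ≤ min 1 (w * Real.sqrt (bet * dlt))⁻¹ := by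
    refine le_min ?_ ?_
    · exact inv_le_one_of_one_le₀ (Real.one_le_sqrt.2 hmu1)
    · refine inv_anti₀ (by positivity) ?_
      have h3 : (w * Real.sqrt (bet * dlt)) ^ 2 ≤ Real.sqrt mu ^ 2 := by
        rw [mul_pow, Real.sq_sqrt (by positivity), Real.sq_sqrt hmu0, hmu]
        have h4 : w ^ 2 * (bet * dlt) = w * (w * bet * dlt) := by ring
        rw [h4]
        exact mul_le_of_le_one_left (by positivity) hw1
      exact le_of_sq_le_sq h3 hsmu.le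
  obtain ⟨H, hH⟩ : ∃ H : ℝ, H = rho * mu / C2 := ⟨_, rfl⟩
  have hmupos : 0 < mu := by linarith
  have hC20 : 0 < C2 := by linarith
  have hH0 : 0 < H := by rw [hH]; positivity
  have hHlow : (4 * C2 * La ^ 4)⁻¹ * Real.sqrt mu ≤ H := by
    have h3 : (4 * La ^ 4)⁻¹ * (Real.sqrt mu)⁻¹ ≤ rho := by
      rw [hrho]
      exact mul_le_mul_of_nonneg_left hminmu (by positivity)
    have h4 : (4 * C2 * La ^ 4)⁻¹ * Real.sqrt mu =
        (4 * La ^ 4)⁻¹ * (Real.sqrt mu)⁻¹ * mu / C2 := by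
      have h5 : mu = Real.sqrt mu * Real.sqrt mu := (Real.mul_self_sqrt hmu0).symm
      nth_rewrite 3 [h5]
      field_simp
    rw [h4, hH]
    exact div_le_div_of_nonneg_right (mul_le_mul_of_nonneg_right h3 hmu0) hC20.le
  have hNGu := hNG rho A0 H 0 (C2 * bet ^ (m + 1) * E0) (ac m)
    (Ths ch om lam r T e L zt sg sg' b2 w b b'') hrho0 hrho1 hA0 hH0 le_rfl (by positivity)
    (contDiff_ac m) (contDiff_Ths ch om lam r T e L zt sg sg' hS hr0 b2 b b'' w)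
    (fun q hq => ac_zero m q hq.le)
    (by
      intro q0 _
      rcases halt q0 with h | ⟨k1, k2, k3, ⟨v, hv, k4⟩, k5⟩
      · left
        intro q hq
        rw [h q hq, zero_mul, norm_zero]
      · right
        refine ⟨k1, k2, k3, ⟨v, hv, le_trans (le_of_eq ?_) k4⟩, k5⟩
        rw [hH, hmu])
  rw [add_zero] at hNGu
  have hHinv : H⁻¹ ^ (2 * N) ≤ (4 * C2) ^ (2 * N) * La ^ (8 * N) * 2 ^ N * ((1 + mu) ^ N)⁻¹ := by
    have h3 : H⁻¹ ≤ 4 * C2 * La ^ 4 * (Real.sqrt mu)⁻¹ := by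
      calc H⁻¹ ≤ ((4 * C2 * La ^ 4)⁻¹ * Real.sqrt mu)⁻¹ := inv_anti₀ (by positivity) hHlow
        _ = 4 * C2 * La ^ 4 * (Real.sqrt mu)⁻¹ := by rw [mul_inv, inv_inv]
    have h4 : ((Real.sqrt mu)⁻¹) ^ (2 * N) = (mu ^ N)⁻¹ := by
      rw [inv_pow, pow_mul, Real.sq_sqrt hmu0]
    have h5 : (mu ^ N)⁻¹ ≤ 2 ^ N * ((1 + mu) ^ N)⁻¹ := by
      have h6 : (1 + mu) ^ N ≤ 2 ^ N * mu ^ N := by
        rw [← mul_pow]
        exact pow_le_pow_left₀ h1mu.le (by linarith) N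
      rw [← div_eq_mul_inv, le_div_iff₀ (by positivity), inv_mul_le_iff₀ (by positivity)]
      linarith
    calc H⁻¹ ^ (2 * N) ≤ (4 * C2 * La ^ 4 * (Real.sqrt mu)⁻¹) ^ (2 * N) :=
          pow_le_pow_left₀ (by positivity) h3 _
      _ = (4 * C2) ^ (2 * N) * La ^ (8 * N) * (mu ^ N)⁻¹ := by
          rw [mul_pow, mul_pow, h4, ← pow_mul]
          congr 3
          ring
      _ ≤ (4 * C2) ^ (2 * N) * La ^ (8 * N) * (2 ^ N * ((1 + mu) ^ N)⁻¹) :=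
          mul_le_mul_of_nonneg_left h5 (by positivity)
      _ = (4 * C2) ^ (2 * N) * La ^ (8 * N) * 2 ^ N * ((1 + mu) ^ N)⁻¹ := by ring
  calc P * T⁻¹ ^ 2 * (2 * w) ^ m *
      ‖∫ x, ac m x * Complex.exp (Ths ch om lam r T e L zt sg sg' b2 w b b'' x)‖
      ≤ P * T⁻¹ ^ 2 * (2 * w) ^ m * (C3 * (A0 * (C2 * bet ^ (m + 1) * E0) * H⁻¹ ^ (2 * N))) :=
        mul_le_mul_of_nonneg_left hNGu (by positivity)
    _ ≤ P * T⁻¹ ^ 2 * (2 * w) ^ m * (C3 * (A0 * (C2 * bet ^ (m + 1) * E0) *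
        ((4 * C2) ^ (2 * N) * La ^ (8 * N) * 2 ^ N * ((1 + mu) ^ N)⁻¹))) := by
        refine mul_le_mul_of_nonneg_left (mul_le_mul_of_nonneg_left
          (mul_le_mul_of_nonneg_left hHinv ?_) hC3.le) (by positivity)
        positivity
    _ = P * 2 ^ m * (C3 * (A0 * C2)) * ((4 * C2) ^ (2 * N) * 2 ^ N) *
        (T⁻¹ ^ 2 * bet ^ (m + 1) * w ^ m * ((1 + mu) ^ N)⁻¹) * (La ^ (8 * N) * E0) := by
        rw [mul_pow]; ring
    _ ≤ P * 2 ^ m * (C3 * (A0 * C2)) * ((4 * C2) ^ (2 * N) * 2 ^ N) *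
        (T⁻¹ ^ 2 * bet ^ (m + 1) * w ^ m * ((1 + mu) ^ N)⁻¹) * (D8 * E1) := by
        refine mul_le_mul_of_nonneg_left hA8 (by positivity)
    _ = Q2 * S := by rw [hQ2, hS']; ring
    _ ≤ (Q1 + Q2 + 1) * S := mul_le_mul_of_nonneg_right (by linarith) hS0

end Pool.Agent.Lib.MP_a8dae7_an.UN.JFbM
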