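import Pool.Agent.Lib.MP_a8dae7_an.UN.SpecZ

section
/-!
# MP_a8dae7_an, UN: TSU, the sum over the dyadic times (numbers only; helper97)

With `s = t/T`, `y = √s` the summand is `√(r/w) y e^{-y⁴/32} (St/t)`; the dyadic sums are telescoping.
-/
set_option autoImplicit false

open Finset

namespace Pool.Agent.Lib.MP_a8dae7_an.UN.TSUM

/-- the bound of `y^n e^{-y⁴/32}` -/
noncomputable def Bd (n : ℕ) : ℝ := 1 + 32 ^ n * n.factorial

theorem Bd_pos (n : ℕ) : 0 < Bd n := by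
  unfold Bd
  positivity

theorem pow_exp_le (n : ℕ) {y : ℝ} (hy : 0 ≤ y) : y ^ n * Real.exp (-(y ^ 4 / 32)) ≤ Bd n := by
  have h0 : 0 ≤ y ^ 4 / 32 := by positivity
  have h1 : Real.exp (-(y ^ 4 / 32)) ≤ 1 := Real.exp_le_one_iff.2 (by linarith)
  have h2 : 0 ≤ Real.exp (-(y ^ 4 / 32)) := (Real.exp_pos _).le
  rcases le_total y 1 with h | h
  · have h3 : y ^ n ≤ 1 := pow_le_one₀ hy h
    have h4 : (0 : ℝ) ≤ 32 ^ n * n.factorial := by positivity
    have h5 : y ^ n * Real.exp (-(y ^ 4 / 32)) ≤ 1 * 1 := mul_le_mul h3 h1 h2 zero_le_one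
    unfold Bd
    linarith
  · have h3 : y ^ n ≤ (y ^ 4) ^ n := by
      rw [← pow_mul]
      exact pow_le_pow_right₀ h (by omega)
    have h4 := Real.pow_div_factorial_le_exp (y ^ 4 / 32) h0 n
    have h5 : (0 : ℝ) < n.factorial := by exact_mod_cast n.factorial_pos
    rw [div_le_iff₀ h5, div_pow, div_le_iff₀ (by positivity)] at h4
    have h6 : (y ^ 4) ^ n * Real.exp (-(y ^ 4 / 32)) ≤ 32 ^ n * n.factorial := by
      calc (y ^ 4) ^ n * Real.exp (-(y ^ 4 / 32))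
          ≤ (Real.exp (y ^ 4 / 32) * n.factorial * 32 ^ n) * Real.exp (-(y ^ 4 / 32)) :=
            mul_le_mul_of_nonneg_right h4 h2
        _ = 32 ^ n * n.factorial * (Real.exp (y ^ 4 / 32) * Real.exp (-(y ^ 4 / 32))) := by ring
        _ = 32 ^ n * n.factorial := by rw [← Real.exp_add, add_neg_cancel, Real.exp_zero, mul_one]
    have h7 : y ^ n * Real.exp (-(y ^ 4 / 32)) ≤ (y ^ 4) ^ n * Real.exp (-(y ^ 4 / 32)) :=
      mul_le_mul_of_nonneg_right h3 h2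
    unfold Bd
    linarith

/-- the constant of the dyadic sums -/
noncomputable def Cd (k : ℕ) : ℝ := 3 * (Bd k + 4 * Bd (k + 1) + 4 * Bd (k + 2))

theorem Cd_pos (k : ℕ) : 0 < Cd k := by
  unfold Cd
  have := Bd_pos k
  have := Bd_pos (k + 1)
  have := Bd_pos (k + 2)
  positivity

theorem sqrt_two_bd : (7 / 5 : ℝ) ≤ Real.sqrt 2 ∧ Real.sqrt 2 ≤ 3 / 2 := by
  constructor
  · exact Real.le_sqrt_of_sq_le (by norm_num)
  · rw [Real.sqrt_le_left (by norm_num)]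
    norm_num

/-- one term of the telescoping sum -/
theorem term_le (k : ℕ) {y : ℝ} (hy : 0 < y) :
    y ^ (k + 1) * Real.exp (-(y ^ 4 / 32)) ≤
      Cd k * (Real.sqrt 2 * y / (1 + Real.sqrt 2 * y) - y / (1 + y)) := by
  obtain ⟨hq1, hq2⟩ := sqrt_two_bd
  set q := Real.sqrt 2
  have h1 : 0 < 1 + q * y := by positivity
  have h2 : 0 < 1 + y := by positivity
  have e1 : q * y / (1 + q * y) - y / (1 + y) = (q - 1) * y / ((1 + q * y) * (1 + y)) := by
    field_simp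
    ring
  have hE : 0 < Real.exp (-(y ^ 4 / 32)) := Real.exp_pos _
  set E := Real.exp (-(y ^ 4 / 32)) with hEdef
  have b0 := pow_exp_le k hy.le
  have b1 := pow_exp_le (k + 1) hy.le
  have b2 := pow_exp_le (k + 2) hy.le
  rw [← hEdef] at b0 b1 b2
  have h3 : (1 + q * y) * (1 + y) ≤ 1 + 4 * y + 4 * y ^ 2 := by nlinarith
  have h4 : y ^ k * E * ((1 + q * y) * (1 + y)) ≤ Bd k + 4 * Bd (k + 1) + 4 * Bd (k + 2) := by
    calc y ^ k * E * ((1 + q * y) * (1 + y)) ≤ y ^ k * E * (1 + 4 * y + 4 * y ^ 2) :=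
          mul_le_mul_of_nonneg_left h3 (by positivity)
      _ = y ^ k * E + 4 * (y ^ (k + 1) * E) + 4 * (y ^ (k + 2) * E) := by ring
      _ ≤ _ := by linarith
  rw [e1, ← mul_div_assoc, le_div_iff₀ (by positivity)]
  have h5 : 1 ≤ 3 * (q - 1) := by linarith
  have h6 : 0 ≤ Bd k + 4 * Bd (k + 1) + 4 * Bd (k + 2) := by
    have := Bd_pos k
    have := Bd_pos (k + 1)
    have := Bd_pos (k + 2)
    positivity
  calc y ^ (k + 1) * E * ((1 + q * y) * (1 + y)) = (y ^ k * E * ((1 + q * y) * (1 + y))) * y := by ring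
    _ ≤ (Bd k + 4 * Bd (k + 1) + 4 * Bd (k + 2)) * y := mul_le_mul_of_nonneg_right h4 hy.le
    _ ≤ (Bd k + 4 * Bd (k + 1) + 4 * Bd (k + 2)) * y * (3 * (q - 1)) :=
        le_mul_of_one_le_right (by positivity) h5
    _ = Cd k * ((q - 1) * y) := by
        unfold Cd
        ring

/-- the dyadic sum of `y^(k+1) e^{-y⁴/32}` -/
theorem dy_sum (k : ℕ) (y : ℕ → ℝ) (hy : ∀ j, 0 < y j) (hq : ∀ j, y (j + 1) = Real.sqrt 2 * y j) (J : ℕ) :
    ∑ j ∈ range J, y j ^ (k + 1) * Real.exp (-(y j ^ 4 / 32)) ≤ Cd k := by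
  have h1 : ∀ j ∈ range J, y j ^ (k + 1) * Real.exp (-(y j ^ 4 / 32)) ≤
      Cd k * (y (j + 1) / (1 + y (j + 1)) - y j / (1 + y j)) := by
    intro j _
    rw [hq j]
    exact term_le k (hy j)
  refine (sum_le_sum h1).trans ?_
  rw [← mul_sum, sum_range_sub (fun j => y j / (1 + y j))]
  have h2 : y J / (1 + y J) ≤ 1 := by
    rw [div_le_one (by have := hy J; positivity)]
    linarith
  have h3 : 0 ≤ y 0 / (1 + y 0) := by
    have := hy 0
    positivity
  calc Cd k * (y J / (1 + y J) - y 0 / (1 + y 0)) ≤ Cd k * 1 :=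
        mul_le_mul_of_nonneg_left (by linarith) (Cd_pos k).le
    _ = Cd k := mul_one _

/-- the dyadic sum over the small times -/
theorem low_sum (y : ℕ → ℝ) (hy : ∀ j, 0 < y j) (hq : ∀ j, y (j + 1) = Real.sqrt 2 * y j) {W : ℝ}
    (hW : 0 ≤ W) (J : ℕ) : ∑ j ∈ range J, (if y j < W then y j else 0) ≤ 4 * W := by
  obtain ⟨hq1, hq2⟩ := sqrt_two_bd
  set q := Real.sqrt 2
  have h1 : ∀ j ∈ range J, (if y j < W then y j else 0) ≤
      5 / 2 * (min (y (j + 1)) (q * W) - min (y j) (q * W)) := by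
    intro j _
    have h0 := hy j
    rw [hq j]
    split_ifs with h
    · have h2 : q * y j ≤ q * W := mul_le_mul_of_nonneg_left h.le (by linarith)
      have h3 : y j ≤ q * W := by nlinarith
      rw [min_eq_left h2, min_eq_left h3]
      nlinarith
    · have h3 : y j ≤ q * y j := by nlinarith
      have h4 := min_le_min_right (q * W) h3
      linarith
  refine (sum_le_sum h1).trans ?_
  rw [← mul_sum, sum_range_sub (fun j => min (y j) (q * W))]
  have h2 : min (y J) (q * W) ≤ 3 / 2 * W := (min_le_right _ _).trans (mul_le_mul_of_nonneg_right hq2 hW)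
  have h3 : 0 ≤ min (y 0) (q * W) := le_min (hy 0).le (by positivity)
  linarith

/-- one summand -/
theorem summand_le (m : ℕ) {lam r w phi1 phi2 t y : ℝ} (hl : 1 ≤ lam) (hr : 1 ≤ r) (hw : 0 < w) (hw1 : w ≤ 1)
    (h1 : 0 ≤ phi1) (h2 : 0 ≤ phi2) (ht : 0 < t) (hy : y = Real.sqrt (t / (w * lam / r))) :
    (w * lam / r)⁻¹ * Real.sqrt (lam / t) * Real.exp (-((t / (w * lam / r)) ^ 2 / 32)) *
        St m lam r w phi1 phi2 t ≤
      Real.sqrt (r / w) * ((if y < Real.sqrt (w ^ 3) then y else 0) +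
        phi1 * (y ^ (0 + 1) * Real.exp (-(y ^ 4 / 32))) +
        phi2 * w * (y ^ (2 + 1) * Real.exp (-(y ^ 4 / 32))) +
        768 * w ^ 2 * (y ^ (4 + 1) * Real.exp (-(y ^ 4 / 32))) +
        2 ^ (m + 1) * w ^ 2 * (y ^ (2 * m + 6 + 1) * Real.exp (-(y ^ 4 / 32)))) := by
  have hT : 0 < w * lam / r := by positivity
  set T := w * lam / r with hTdef
  have hs : 0 < t / T := by positivity
  set s := t / T with hsdef
  have hy0 : 0 < y := by
    rw [hy]
    exact Real.sqrt_pos.2 hs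
  have hy2 : y ^ 2 = s := by
    rw [hy]
    exact Real.sq_sqrt hs.le
  have hy4 : y ^ 4 = s ^ 2 := by
    rw [← hy2]
    ring
  have ets : t = s * T := by
    rw [hsdef]
    field_simp
  have ews : r * t / lam = w * s := by
    rw [ets, hTdef]
    field_simp
  -- the prefactor
  have epre : T⁻¹ * Real.sqrt (lam / t) * t = Real.sqrt (r / w) * y := by
    have e1 : 0 ≤ T⁻¹ * Real.sqrt (lam / t) * t := by positivity
    have e2 : 0 ≤ Real.sqrt (r / w) * y := by positivity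
    rw [← Real.sqrt_sq e1, ← Real.sqrt_sq e2]
    congr 1
    rw [mul_pow, mul_pow, mul_pow, Real.sq_sqrt (by positivity), Real.sq_sqrt (by positivity), hy2, hsdef,
      hTdef]
    field_simp
  have hE : 0 < Real.exp (-(s ^ 2 / 32)) := Real.exp_pos _
  have hE1 : Real.exp (-(s ^ 2 / 32)) ≤ 1 := Real.exp_le_one_iff.2 (by have := sq_nonneg s; linarith)
  rw [hy4]
  set E := Real.exp (-(s ^ 2 / 32)) with hEdef
  have hP : 0 ≤ Real.sqrt (r / w) := Real.sqrt_nonneg _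
  -- enough: `E * (St / t)` times `y`
  have key : ∀ F : ℝ, St m lam r w phi1 phi2 t = t * F →
      y * (E * F) ≤ (if y < Real.sqrt (w ^ 3) then y else 0) + phi1 * (y ^ (0 + 1) * E) +
        phi2 * w * (y ^ (2 + 1) * E) + 768 * w ^ 2 * (y ^ (4 + 1) * E) +
        2 ^ (m + 1) * w ^ 2 * (y ^ (2 * m + 6 + 1) * E) →
      T⁻¹ * Real.sqrt (lam / t) * E * St m lam r w phi1 phi2 t ≤
      Real.sqrt (r / w) * ((if y < Real.sqrt (w ^ 3) then y else 0) + phi1 * (y ^ (0 + 1) * E) +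
        phi2 * w * (y ^ (2 + 1) * E) + 768 * w ^ 2 * (y ^ (4 + 1) * E) +
        2 ^ (m + 1) * w ^ 2 * (y ^ (2 * m + 6 + 1) * E)) := by
    intro F hF hle
    calc T⁻¹ * Real.sqrt (lam / t) * E * St m lam r w phi1 phi2 t
        = (T⁻¹ * Real.sqrt (lam / t) * t) * (E * F) := by
          rw [hF]
          ring
      _ = Real.sqrt (r / w) * (y * (E * F)) := by
          rw [epre]
          ring
      _ ≤ _ := mul_le_mul_of_nonneg_left hle hP
  have n1 : 0 ≤ phi1 * (y ^ (0 + 1) * E) := by positivity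
  have n2 : 0 ≤ phi2 * w * (y ^ (2 + 1) * E) := by positivity
  have n3 : 0 ≤ 768 * w ^ 2 * (y ^ (4 + 1) * E) := by positivity
  have n4 : 0 ≤ 2 ^ (m + 1) * w ^ 2 * (y ^ (2 * m + 6 + 1) * E) := by positivity
  have n0 : 0 ≤ (if y < Real.sqrt (w ^ 3) then y else 0) := by
    split_ifs
    · exact hy0.le
    · exact le_rfl
  rcases lt_or_ge t (w ^ 3 * T) with hc | hc
  · -- small times
    refine key 1 (by rw [St, if_pos hc, mul_one]) ?_
    have h3 : y < Real.sqrt (w ^ 3) := by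
      apply Real.lt_sqrt_of_sq_lt
      rw [hy2, hsdef, div_lt_iff₀ hT]
      exact hc
    rw [if_pos h3] at n0 ⊢
    have h4 : y * (E * 1) ≤ y := by
      rw [mul_one]
      exact mul_le_of_le_one_right hy0.le hE1
    linarith
  · rcases le_or_gt t (T / w) with hd | hd
    · -- the middle range
      refine key (phi1 + phi2 * (w * s) + Real.exp (-(768 * (w * s) ^ 2)⁻¹)) (by
        rw [St, if_neg (not_lt.2 hc), if_pos hd, ews]) ?_
      have h5 : 0 < 768 * (w * s) ^ 2 := by positivity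
      have h6 : Real.exp (-(768 * (w * s) ^ 2)⁻¹) ≤ 768 * (w * s) ^ 2 := by
        have h7 : (768 * (w * s) ^ 2)⁻¹ ≤ Real.exp ((768 * (w * s) ^ 2)⁻¹) :=
          (by linarith [Real.add_one_le_exp ((768 * (w * s) ^ 2)⁻¹)])
        rw [Real.exp_neg]
        exact inv_le_of_inv_le₀ h5 h7
      have h8 : y * (E * Real.exp (-(768 * (w * s) ^ 2)⁻¹)) ≤ y * (E * (768 * (w * s) ^ 2)) := by
        gcongr
      have e3 : y * (E * (768 * (w * s) ^ 2)) = 768 * w ^ 2 * (y ^ (4 + 1) * E) := by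
        rw [← hy2]
        ring
      have e4 : y * (E * (phi2 * (w * s))) = phi2 * w * (y ^ (2 + 1) * E) := by
        rw [← hy2]
        ring
      have e5 : y * (E * phi1) = phi1 * (y ^ (0 + 1) * E) := by ring
      have e6 : y * (E * (phi1 + phi2 * (w * s) + Real.exp (-(768 * (w * s) ^ 2)⁻¹))) =
          y * (E * phi1) + y * (E * (phi2 * (w * s))) +
            y * (E * Real.exp (-(768 * (w * s) ^ 2)⁻¹)) := by ring
      rw [e6, e4, e5]
      rw [e3] at h8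
      linarith
    · -- large times
      refine key ((1 + w * s) ^ (m + 1)) (by
        rw [St, if_neg (not_lt.2 hc), if_neg (not_le.2 hd), ews]) ?_
      have h5 : 1 < w * s := by
        rw [hsdef, ← mul_div_assoc, lt_div_iff₀ hT, one_mul]
        rw [div_lt_iff₀ hw] at hd
        linarith
      have h6 : 1 + w * s ≤ 2 * s := by
        have h7 : w * s ≤ s := mul_le_of_le_one_left hs.le hw1
        linarith
      have h7 : (1 + w * s) ^ (m + 1) ≤ (2 * s) ^ (m + 1) * (w * s) ^ 2 := by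
        have h8 : (1 + w * s) ^ (m + 1) ≤ (2 * s) ^ (m + 1) := pow_le_pow_left₀ (by positivity) h6 _
        have h9 : 1 ≤ (w * s) ^ 2 := one_le_pow₀ h5.le
        calc (1 + w * s) ^ (m + 1) ≤ (2 * s) ^ (m + 1) := h8
          _ ≤ (2 * s) ^ (m + 1) * (w * s) ^ 2 := le_mul_of_one_le_right (by positivity) h9
      have h8 : y * (E * (1 + w * s) ^ (m + 1)) ≤ y * (E * ((2 * s) ^ (m + 1) * (w * s) ^ 2)) := by
        gcongr
      have e3 : y * (E * ((2 * s) ^ (m + 1) * (w * s) ^ 2)) =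
          2 ^ (m + 1) * w ^ 2 * (y ^ (2 * m + 6 + 1) * E) := by
        rw [← hy2]
        ring
      rw [e3] at h8
      linarith

theorem specTSU : SpecTSU := by
  intro m A hA
  refine ⟨4 + Cd 0 + Cd 2 + 768 * Cd 4 + 2 ^ (m + 1) * Cd (2 * m + 6), ?_, ?_⟩
  · have := Cd_pos 0
    have := Cd_pos 2
    have := Cd_pos 4
    have := Cd_pos (2 * m + 6)
    positivity
  intro lam r w phi1 phi2 hl hr hw hw1 hT1 h1 h2 J
  have hT : 0 < w * lam / r := by positivity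
  have hA0 : 0 < A := by linarith
  set y : ℕ → ℝ := fun j => Real.sqrt (2 ^ j / A / (w * lam / r)) with hydef
  have hy : ∀ j, 0 < y j := fun j => Real.sqrt_pos.2 (by positivity)
  have hq : ∀ j, y (j + 1) = Real.sqrt 2 * y j := by
    intro j
    simp only [hydef]
    rw [← Real.sqrt_mul (by norm_num)]
    congr 1
    ring
  have hsum : ∑ j ∈ range J, (w * lam / r)⁻¹ * Real.sqrt (lam / (2 ^ j / A)) *
      Real.exp (-((2 ^ j / A / (w * lam / r)) ^ 2 / 32)) * St m lam r w phi1 phi2 (2 ^ j / A) ≤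
      Real.sqrt (r / w) * (∑ j ∈ range J, (if y j < Real.sqrt (w ^ 3) then y j else 0) +
        phi1 * ∑ j ∈ range J, (y j ^ (0 + 1) * Real.exp (-(y j ^ 4 / 32))) +
        phi2 * w * ∑ j ∈ range J, (y j ^ (2 + 1) * Real.exp (-(y j ^ 4 / 32))) +
        768 * w ^ 2 * ∑ j ∈ range J, (y j ^ (4 + 1) * Real.exp (-(y j ^ 4 / 32))) +
        2 ^ (m + 1) * w ^ 2 * ∑ j ∈ range J, (y j ^ (2 * m + 6 + 1) * Real.exp (-(y j ^ 4 / 32)))) := by
    simp only [mul_sum, ← sum_add_distrib]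
    refine sum_le_sum fun j _ => ?_
    have h3 := summand_le m hl hr hw hw1 h1 h2 (t := 2 ^ j / A) (y := y j) (by positivity) rfl
    simpa only [mul_add] using h3
  refine hsum.trans ?_
  have hlow := low_sum y hy hq (Real.sqrt_nonneg (w ^ 3)) J
  have d0 := dy_sum 0 y hy hq J
  have d2 := dy_sum 2 y hy hq J
  have d4 := dy_sum 4 y hy hq J
  have d6 := dy_sum (2 * m + 6) y hy hq J
  have hsw : 0 < Real.sqrt w := Real.sqrt_pos.2 hw
  have hsw1 : Real.sqrt w ≤ 1 := by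
    rw [Real.sqrt_le_left (by norm_num)]
    linarith
  have hsww : Real.sqrt w * Real.sqrt w = w := Real.mul_self_sqrt hw.le
  have eP : Real.sqrt (r / w) = Real.sqrt r * (Real.sqrt w)⁻¹ := by
    rw [Real.sqrt_div (by linarith), div_eq_mul_inv]
  have eW : Real.sqrt (w ^ 3) = w * Real.sqrt w := by
    rw [show w ^ 3 = w ^ 2 * w by ring, Real.sqrt_mul (by positivity), Real.sqrt_sq hw.le]
  have c0 := Cd_pos 0
  have c2 := Cd_pos 2
  have c4 := Cd_pos 4
  have c6 := Cd_pos (2 * m + 6)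
  have hr0 : 0 ≤ Real.sqrt r := Real.sqrt_nonneg _
  have hw2 : w ^ 2 ≤ w * Real.sqrt w := by
    have h3 : w ≤ Real.sqrt w := by
      calc w = Real.sqrt w * Real.sqrt w := hsww.symm
        _ ≤ Real.sqrt w * 1 := mul_le_mul_of_nonneg_left hsw1 hsw.le
        _ = Real.sqrt w := mul_one _
    nlinarith
  calc Real.sqrt (r / w) * (∑ j ∈ range J, (if y j < Real.sqrt (w ^ 3) then y j else 0) +
        phi1 * ∑ j ∈ range J, (y j ^ (0 + 1) * Real.exp (-(y j ^ 4 / 32))) +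
        phi2 * w * ∑ j ∈ range J, (y j ^ (2 + 1) * Real.exp (-(y j ^ 4 / 32))) +
        768 * w ^ 2 * ∑ j ∈ range J, (y j ^ (4 + 1) * Real.exp (-(y j ^ 4 / 32))) +
        2 ^ (m + 1) * w ^ 2 * ∑ j ∈ range J, (y j ^ (2 * m + 6 + 1) * Real.exp (-(y j ^ 4 / 32))))
      ≤ Real.sqrt (r / w) * (4 * Real.sqrt (w ^ 3) + phi1 * Cd 0 + phi2 * w * Cd 2 +
          768 * w ^ 2 * Cd 4 + 2 ^ (m + 1) * w ^ 2 * Cd (2 * m + 6)) := by
        gcongr
    _ ≤ Real.sqrt (r / w) * (4 * (w * Real.sqrt w) + phi1 * Cd 0 + phi2 * w * Cd 2 +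
          768 * (w * Real.sqrt w) * Cd 4 + 2 ^ (m + 1) * (w * Real.sqrt w) * Cd (2 * m + 6)) := by
        rw [eW]
        gcongr
    _ = Real.sqrt r * (w * (4 + 768 * Cd 4 + 2 ^ (m + 1) * Cd (2 * m + 6)) +
          (Real.sqrt w)⁻¹ * (phi1 * Cd 0 + phi2 * w * Cd 2)) := by
        rw [eP]
        field_simp
        ring
    _ ≤ Real.sqrt r * (w * (4 + Cd 0 + Cd 2 + 768 * Cd 4 + 2 ^ (m + 1) * Cd (2 * m + 6)) +
          (Real.sqrt w)⁻¹ * ((4 + Cd 0 + Cd 2 + 768 * Cd 4 + 2 ^ (m + 1) * Cd (2 * m + 6)) *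
            (phi1 + phi2 * w))) := by
        have g1 : Cd 0 ≤ 4 + Cd 0 + Cd 2 + 768 * Cd 4 + 2 ^ (m + 1) * Cd (2 * m + 6) := by
          have : 0 ≤ 2 ^ (m + 1) * Cd (2 * m + 6) := by positivity
          linarith
        have g2 : Cd 2 ≤ 4 + Cd 0 + Cd 2 + 768 * Cd 4 + 2 ^ (m + 1) * Cd (2 * m + 6) := by
          have : 0 ≤ 2 ^ (m + 1) * Cd (2 * m + 6) := by positivity
          linarith
        have g3 : phi1 * Cd 0 ≤ phi1 * (4 + Cd 0 + Cd 2 + 768 * Cd 4 + 2 ^ (m + 1) * Cd (2 * m + 6)) :=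
          mul_le_mul_of_nonneg_left g1 h1
        have g4 : phi2 * w * Cd 2 ≤
            phi2 * w * (4 + Cd 0 + Cd 2 + 768 * Cd 4 + 2 ^ (m + 1) * Cd (2 * m + 6)) :=
          mul_le_mul_of_nonneg_left g2 (by positivity)
        gcongr
        · linarith
        · linarith
    _ = _ := by ring

end Pool.Agent.Lib.MP_a8dae7_an.UN.TSUM
end

section
/-!
# MP_a8dae7_an, UN: module Z_EX, size of the kernel on slices
-/
set_option autoImplicit false

open MeasureTheory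
open scoped ContDiff

namespace Pool.Agent.Lib.MP_a8dae7_an.UN.EXM

open Pool.Agent.Lib.MP_a8dae7_an.CV (EE zv ex pq pi2 AA sl bm)

theorem pq_nonneg {d : ℕ} (om x : EE d) (h : ‖om‖ = 1) : 0 ≤ pq om x := by
  unfold pq
  have h1 := abs_real_inner_le_norm om x
  rw [h, one_mul] at h1
  have h2 := sq_le_sq' (by linarith [neg_abs_le (inner ℝ om x : ℝ)]) (le_trans (le_abs_self _) h1)
  linarith

theorem dl_pos (k : ℕ) {R : ℝ} (hR : 0 < R) : 0 < dl k R := by
  unfold dl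
  positivity

theorem four_dl_le (k : ℕ) {R : ℝ} (hR : 0 < R) : 4 * dl k R ≤ R := by
  unfold dl
  have h : (1 : ℝ) ≤ 32 ^ k := one_le_pow₀ (by norm_num)
  rw [show 4 * (R / (4 * 32 ^ k)) = R / 32 ^ k by field_simp]
  exact div_le_self hR.le h

section slice

variable {m : ℕ} {c R : ℝ} {M : ℕ → ℝ} {ch : UChart (m + 1) c R M} {om : EE (m + 2)} {e : EE (m + 1)}
  {L : EE m →ₗᵢ[ℝ] EE (m + 1)}

theorem norm_sl_sq (hS : Slice ch om e L) (sg : ℝ) (b : EE m) :
    ‖sl e L sg b‖ ^ 2 = sg ^ 2 + ‖b‖ ^ 2 := by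
  unfold CV.sl
  rw [norm_add_sq_real, inner_smul_left, hS.eL, norm_smul, hS.e_one, L.norm_map]
  simp

theorem norm_sl_le (hS : Slice ch om e L) (hR : 0 < R) {sg : ℝ} {b : EE m}
    (h1 : |sg| ≤ 2 * dl (m + 1) R) (h2 : ‖b‖ ≤ 3 * dl (m + 1) R) :
    ‖sl e L sg b‖ ≤ 4 * dl (m + 1) R := by
  have hd := dl_pos (m + 1) hR
  have e1 := norm_sl_sq hS sg b
  have e2 : sg ^ 2 ≤ (2 * dl (m + 1) R) ^ 2 := by
    rw [← sq_abs]; gcongr
  have e3 : ‖b‖ ^ 2 ≤ (3 * dl (m + 1) R) ^ 2 := by gcongr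
  have e4 : ‖sl e L sg b‖ ^ 2 ≤ (4 * dl (m + 1) R) ^ 2 := by rw [e1]; nlinarith
  exact (pow_le_pow_iff_left₀ (norm_nonneg _) (by positivity) two_ne_zero).mp e4

theorem norm_sl_le_R (hS : Slice ch om e L) (hR : 0 < R) {sg : ℝ} {b : EE m}
    (h1 : |sg| ≤ 2 * dl (m + 1) R) (h2 : ‖b‖ ≤ 3 * dl (m + 1) R) : ‖sl e L sg b‖ ≤ R :=
  (norm_sl_le hS hR h1 h2).trans (four_dl_le (m + 1) hR)

/-- the value of `t` -/
theorem abs_t_sub {dm : ℝ} (hS : Slice ch om e L) (hR : 0 < R) (hD : Dm ch dm) {zt : EE (m + 2)}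
    {sg sg' : ℝ} {b b' : EE m} (h1 : |sg| ≤ 2 * dl (m + 1) R) (h2 : |sg'| ≤ 2 * dl (m + 1) R)
    (h3 : ‖b‖ ≤ 3 * dl (m + 1) R) (h4 : ‖b'‖ ≤ 3 * dl (m + 1) R) :
    |inner ℝ om (xd ch e L zt sg sg' b b') - inner ℝ om zt| ≤ dm := by
  have e1 : (inner ℝ om (xd ch e L zt sg sg' b b') : ℝ) - inner ℝ om zt =
      inner ℝ om (ch.X (sl e L sg b) - ch.X (sl e L sg' b')) := by
    unfold xd
    rw [inner_add_right]; ring
  rw [e1]
  calc |(inner ℝ om (ch.X (sl e L sg b) - ch.X (sl e L sg' b')) : ℝ)| ≤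
      ‖om‖ * ‖ch.X (sl e L sg b) - ch.X (sl e L sg' b')‖ := abs_real_inner_le_norm _ _
    _ ≤ dm := by
      rw [hS.om_one, one_mul]
      exact hD _ _ (norm_sl_le_R hS hR h1 h3) (norm_sl_le_R hS hR h2 h4)

/-- the norm of the kernel and the real part of its logarithm -/
theorem norm_ks (lam r T : ℝ) (zt : EE (m + 2)) (sg sg' : ℝ) (b b' : EE m) (hT : 0 < T) :
    ‖ks ch om lam r T e L zt sg sg' b b'‖ = Real.sqrt Real.pi / T * Real.pi ^ (((m + 1 : ℕ) : ℝ) / 2) *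
      Real.exp (FF om lam r T (xd ch e L zt sg sg' b b')).re := by
  have hpi := Real.pi_pos
  unfold ks Kf
  rw [norm_mul, norm_mul, mul_comm Complex.I, Complex.norm_exp_ofReal_mul_I, Complex.norm_exp,
    Complex.norm_real, Real.norm_eq_abs, abs_of_nonneg (by positivity), mul_one]

end slice

/-- the lower bound of `MM`: `t = ⟨om, x⟩` close to `tz` -/
theorem MM_ge {d : ℕ} {om x : EE d} (hom : ‖om‖ = 1) {lam r T tz : ℝ} (hlam : 0 < lam) (hr : 0 < r)
    (hT : 0 < T) (htz : 0 < |tz|) (h : |inner ℝ om x - tz| ≤ |tz| / 8) (h2 : 2 * lam ≤ |tz| * r ^ 2) :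
    9 / 64 * (tz / T) ^ 2 + pq om x / (3 * wz lam r tz ^ 2) ≤ MM om lam r T x := by
  set t : ℝ := inner ℝ om x with ht
  have hq : 0 ≤ pq om x := pq_nonneg om x hom
  have hc1 := abs_sub_abs_le_abs_sub t tz
  have hc2 := abs_sub_abs_le_abs_sub tz t
  rw [abs_sub_comm tz t] at hc2
  have ht1 : 7 / 8 * |tz| ≤ |t| := by linarith
  have ht2 : |t| ≤ 9 / 8 * |tz| := by linarith
  have hs1 : 49 / 64 * tz ^ 2 ≤ t ^ 2 := by
    rw [← sq_abs tz, ← sq_abs t]
    nlinarith [abs_nonneg t, abs_nonneg tz]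
  have hs2 : t ^ 2 ≤ 81 / 64 * tz ^ 2 := by
    rw [← sq_abs tz, ← sq_abs t]
    nlinarith [abs_nonneg t, abs_nonneg tz]
  have h1 : 9 / 64 * (tz / T) ^ 2 ≤ t ^ 2 / (4 * T ^ 2) := by
    rw [le_div_iff₀ (by positivity)]
    have e1 : 9 / 64 * (tz / T) ^ 2 * (4 * T ^ 2) = 36 / 64 * tz ^ 2 := by
      field_simp
      ring
    rw [e1]
    nlinarith [sq_nonneg tz]
  have htz2 : 0 < tz ^ 2 := by rw [← sq_abs]; positivity
  have e2 : 4 * lam ^ 2 ≤ tz ^ 2 * r ^ 4 := by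
    rw [← sq_abs tz]
    nlinarith
  have e3 : 1 / (3 * wz lam r tz ^ 2) ≤ r ^ 2 / (4 + (t * r ^ 2 / lam) ^ 2) := by
    rw [div_le_div_iff₀ (by unfold wz; positivity) (by positivity)]
    have e4 : r ^ 2 * (3 * wz lam r tz ^ 2) = 3 * (tz ^ 2 * r ^ 4) / lam ^ 2 := by
      unfold wz
      rw [div_pow, mul_pow, sq_abs]
      field_simp
    have e5 : 1 * (4 + (t * r ^ 2 / lam) ^ 2) = (4 * lam ^ 2 + t ^ 2 * r ^ 4) / lam ^ 2 := by
      field_simp
    rw [e4, e5]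
    gcongr
    nlinarith [mul_le_mul_of_nonneg_right hs2 (by positivity : (0:ℝ) ≤ r ^ 4),
      (by positivity : (0:ℝ) ≤ tz ^ 2 * r ^ 4)]
  have e6 : pq om x / (3 * wz lam r tz ^ 2) ≤ pq om x * r ^ 2 / (4 + (t * r ^ 2 / lam) ^ 2) := by
    calc pq om x / (3 * wz lam r tz ^ 2) = 1 / (3 * wz lam r tz ^ 2) * pq om x := by ring
      _ ≤ r ^ 2 / (4 + (t * r ^ 2 / lam) ^ 2) * pq om x := mul_le_mul_of_nonneg_right e3 hq
      _ = _ := by ring
  unfold MM
  rw [← ht]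
  linarith

/-- **EX** -/
theorem specEX (hKN : ASpec.SpecKN) : SpecEX := by
  intro m c R A M hA hcls
  obtain ⟨C0, hC0, hK⟩ := hKN (m + 1)
  have hR := hcls.R_pos
  have hpi := Real.pi_pos
  have hpi1 : 1 ≤ Real.pi := by linarith [Real.pi_gt_three]
  set q0 : ℝ := (8 / 7 : ℝ) ^ (((m + 1 : ℕ) : ℝ) / 2) with hq0
  have hq0p : 0 < q0 := by positivity
  refine ⟨max 1 (C0 * q0), le_max_left _ _, ?_⟩
  intro ch hDm om e L hS lam r T sg sg' zt b b' hP hsg hsg' hb hb'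
  obtain ⟨hlam1, hr1, hr3, hT1, hrT, htA, htr⟩ := hP
  set tz : ℝ := inner ℝ om zt with htz
  set x := xd ch e L zt sg sg' b b' with hx
  have hA0 : 0 < A := by linarith
  have hlam0 : 0 < lam := by linarith
  have hr0 : 0 < r := by linarith
  have hT0 : 0 < T := by linarith
  have htz0 : 0 < |tz| := lt_of_lt_of_le (by positivity) htA
  have h1 : |inner ℝ om x - tz| ≤ |tz| / 8 := by
    refine (abs_t_sub (zt := zt) hS hR hDm hsg hsg' hb hb').trans ?_
    calc 1 / (8 * A) = 1 / A / 8 := by field_simp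
      _ ≤ |tz| / 8 := by gcongr
  have hc2 := abs_sub_abs_le_abs_sub tz (inner ℝ om x : ℝ)
  rw [abs_sub_comm tz] at hc2
  have ht1 : 7 / 8 * |tz| ≤ |(inner ℝ om x : ℝ)| := by linarith
  have ht0 : 0 < |(inner ℝ om x : ℝ)| := by nlinarith
  have htne : (inner ℝ om x : ℝ) ≠ 0 := abs_pos.mp ht0
  have h2 : (lam / |(inner ℝ om x : ℝ)|) ^ (((m + 1 : ℕ) : ℝ) / 2) ≤
      q0 * (lam / |tz|) ^ (((m + 1 : ℕ) : ℝ) / 2) := by
    rw [hq0, ← Real.mul_rpow (by norm_num) (by positivity)]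
    refine Real.rpow_le_rpow (by positivity) ?_ (by positivity)
    rw [div_le_iff₀ ht0]
    calc lam = 8 / 7 * (lam / |tz|) * (7 / 8 * |tz|) := by field_simp
      _ ≤ 8 / 7 * (lam / |tz|) * |(inner ℝ om x : ℝ)| := by gcongr
  have h3 := MM_ge (d := m + 2) (x := x) hS.om_one hlam0 hr0 hT0 htz0 h1 htr
  have h4 : Real.exp (-MM om lam r T x) ≤ Real.exp (-(9 / 64 * (tz / T) ^ 2) -
      pq om x / (3 * wz lam r tz ^ 2)) := Real.exp_le_exp.mpr (by linarith)
  have h5 : ‖ks ch om lam r T e L zt sg sg' b b'‖ ≤ C0 * q0 / T *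
      (lam / |tz|) ^ (((m + 1 : ℕ) : ℝ) / 2) * Real.exp (-(9 / 64 * (tz / T) ^ 2) -
      pq om x / (3 * wz lam r tz ^ 2)) := by
    calc ‖ks ch om lam r T e L zt sg sg' b b'‖ ≤
        C0 / T * (lam / |(inner ℝ om x : ℝ)|) ^ (((m + 1 : ℕ) : ℝ) / 2) * Real.exp (-MM om lam r T x) :=
          (hK om lam r T x hS.om_one hlam0 hr0 hT0).2 htne
      _ ≤ C0 / T * (q0 * (lam / |tz|) ^ (((m + 1 : ℕ) : ℝ) / 2)) * Real.exp (-(9 / 64 * (tz / T) ^ 2) -
          pq om x / (3 * wz lam r tz ^ 2)) := by gcongr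
      _ = _ := by ring
  refine ⟨h1, ?_, ?_⟩
  · have h6 : 1 / T * Real.exp (FF om lam r T x).re ≤ ‖ks ch om lam r T e L zt sg sg' b b'‖ := by
      rw [norm_ks lam r T zt sg sg' b b' hT0, ← hx]
      have h7 : 1 ≤ Real.sqrt Real.pi := by
        rw [show (1:ℝ) = Real.sqrt 1 by simp]
        exact Real.sqrt_le_sqrt hpi1
      have h8 : 1 ≤ Real.pi ^ (((m + 1 : ℕ) : ℝ) / 2) := Real.one_le_rpow hpi1 (by positivity)
      have h9 : 1 / T * Real.exp (FF om lam r T x).re * 1 ≤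
          1 / T * Real.exp (FF om lam r T x).re * (Real.sqrt Real.pi * Real.pi ^ (((m + 1 : ℕ) : ℝ) / 2)) := by
        gcongr
        exact one_le_mul_of_one_le_of_one_le h7 h8
      calc _ = 1 / T * Real.exp (FF om lam r T x).re * 1 := by ring
        _ ≤ _ := h9
        _ = _ := by ring
    have h10 : 1 / T * Real.exp (FF om lam r T x).re ≤ 1 / T * (C0 * q0 *
        (lam / |tz|) ^ (((m + 1 : ℕ) : ℝ) / 2) * Real.exp (-(9 / 64 * (tz / T) ^ 2) -
        pq om x / (3 * wz lam r tz ^ 2))) := by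
      refine (h6.trans h5).trans (le_of_eq ?_)
      ring
    refine (le_of_mul_le_mul_left h10 (by positivity)).trans ?_
    gcongr
    exact le_max_right _ _
  · refine h5.trans ?_
    gcongr
    exact le_max_right _ _

end Pool.Agent.Lib.MP_a8dae7_an.UN.EXM
end

section
/-!
# MP_a8dae7_an, UN: ROW. Rows and columns of the Schur test over the cells.
-/
set_option autoImplicit false

open MeasureTheory

namespace Pool.Agent.Lib.MP_a8dae7_an.UN.ROWM

open Pool.Agent.Lib.MP_a8dae7_an.CV (EE zv ex pq pi2 AA sl bm)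

/-! ### the quadratic form -/

lemma pq_nonneg {d : ℕ} {om : EE d} (h : ‖om‖ = 1) (x : EE d) : 0 ≤ pq om x := by
  unfold pq
  have h1 := abs_real_inner_le_norm om x
  rw [h, one_mul] at h1
  have h2 : inner ℝ om x ^ 2 ≤ ‖x‖ ^ 2 := sq_le_sq' (by linarith [neg_abs_le (inner ℝ om x)])
    ((le_abs_self _).trans h1)
  linarith

lemma pq_le {d : ℕ} (om x : EE d) : pq om x ≤ ‖x‖ ^ 2 := by
  unfold pq
  nlinarith [sq_nonneg (inner ℝ om x)]

lemma pq_neg {d : ℕ} (om x : EE d) : pq om (-x) = pq om x := by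
  unfold pq
  rw [norm_neg, inner_neg_right]
  ring

lemma pq_low {d : ℕ} {om : EE d} (h : ‖om‖ = 1) (v u : EE d) :
    pq om u / 2 - ‖v‖ ^ 2 ≤ pq om (v + u) := by
  have h1 : pq om u = 2 * pq om (v + u) + 2 * pq om v - pq om (v + u + v) := by
    unfold pq
    simp only [inner_add_right, ← real_inner_self_eq_norm_sq, inner_add_left]
    rw [real_inner_comm u v]
    ring
  have h2 := pq_nonneg h (v + u + v)
  have h3 := pq_le om v
  linarith

/-! ### layers -/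

lemma exp_neg_le {x : ℝ} (hx : 0 < x) : Real.exp (-x) ≤ 1 / x := by
  rw [Real.exp_neg, ← one_div]
  exact one_div_le_one_div_of_le hx (by linarith [Real.add_one_le_exp x])

lemma geo2 (N : ℕ) : ∑ j ∈ Finset.range N, (1 / 2 : ℝ) ^ j ≤ 2 := by
  have h := Summable.sum_le_tsum (Finset.range N) (fun j _ => by positivity)
    (summable_geometric_of_lt_one (r := (1 / 2 : ℝ)) (by norm_num) (by norm_num))
  rw [tsum_geometric_of_lt_one (by norm_num) (by norm_num)] at h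
  exact h.trans (by norm_num)

lemma layers {ι : Type*} (Z : Finset ι) (p : ι → ℝ) {s t phi1 phi2 : ℝ} (hs : 0 < s) (hs1 : s ≤ 1)
    (ht : 0 ≤ t) (h1 : 0 ≤ phi1) (h2 : 0 ≤ phi2) (hp : ∀ z ∈ Z, 0 ≤ p z)
    (hsmall : ∀ z ∈ Z, p z ≤ 1 / 4)
    (hc : ∀ w' : ℝ, s ≤ w' → w' ≤ 1 → ∀ Z' : Finset ι, Z' ⊆ Z → (∀ z ∈ Z', p z ≤ w' ^ 2) →
      (Z'.card : ℝ) ≤ t * (phi1 + phi2 * w')) :
    ∑ z ∈ Z, Real.exp (-(p z / (96 * s ^ 2))) ≤ 768 * (t * (phi1 + phi2 * s)) := by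
  classical
  have hex : ∀ z : ι, ∃ l : ℕ, p z ≤ (2 ^ l * s) ^ 2 := by
    intro z
    obtain ⟨l, hl⟩ := pow_unbounded_of_one_lt (p z / s ^ 2) (y := (4 : ℝ)) (by norm_num)
    refine ⟨l, ?_⟩
    rw [div_lt_iff₀ (by positivity)] at hl
    have e : ((2 : ℝ) ^ l * s) ^ 2 = 4 ^ l * s ^ 2 := by
      rw [mul_pow, ← pow_mul, mul_comm l 2, pow_mul]; norm_num
    rw [e]
    exact hl.le
  set l : ι → ℕ := fun z => Nat.find (hex z) with hl
  have hl1 : ∀ z, p z ≤ (2 ^ l z * s) ^ 2 := fun z => Nat.find_spec (hex z)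
  have hl2 : ∀ z, ∀ k, k < l z → (2 ^ k * s) ^ 2 < p z := fun z k hk =>
    not_le.1 (Nat.find_min (hex z) hk)
  have e4 : ∀ k : ℕ, ((2 : ℝ) ^ k * s) ^ 2 = 4 ^ k * s ^ 2 := by
    intro k
    rw [mul_pow, ← pow_mul, mul_comm k 2, pow_mul]; norm_num
  -- the size of one term
  have hterm : ∀ z, z ∈ Z → Real.exp (-(p z / (96 * s ^ 2))) ≤ 384 * (1 / 4) ^ l z := by
    intro z hz
    rcases Nat.eq_zero_or_pos (l z) with h0 | h0
    · rw [h0, pow_zero, mul_one]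
      have : Real.exp (-(p z / (96 * s ^ 2))) ≤ 1 := by
        rw [Real.exp_le_one_iff]
        have := hp z hz
        have : 0 ≤ p z / (96 * s ^ 2) := by positivity
        linarith
      linarith
    · obtain ⟨k, hk⟩ := Nat.exists_eq_succ_of_ne_zero h0.ne'
      have h3 := hl2 z k (by omega)
      rw [e4] at h3
      have h4 : (4 : ℝ) ^ k / 96 ≤ p z / (96 * s ^ 2) := by
        rw [div_le_div_iff₀ (by norm_num) (by positivity)]
        nlinarith
      calc Real.exp (-(p z / (96 * s ^ 2))) ≤ Real.exp (-((4 : ℝ) ^ k / 96)) :=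
            Real.exp_le_exp.2 (by linarith)
        _ ≤ 1 / ((4 : ℝ) ^ k / 96) := exp_neg_le (by positivity)
        _ = 384 * (1 / 4) ^ l z := by
            rw [hk, Nat.succ_eq_add_one, pow_succ, one_div_pow]
            field_simp
            norm_num
  have hone : ∀ z, z ∈ Z → (2 : ℝ) ^ l z * s ≤ 1 := by
    intro z hz
    rcases Nat.eq_zero_or_pos (l z) with h0 | h0
    · rw [h0, pow_zero, one_mul]; exact hs1
    · obtain ⟨k, hk⟩ := Nat.exists_eq_succ_of_ne_zero h0.ne'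
      have h3 := (hl2 z k (by omega)).trans_le (hsmall z hz)
      have h4 : (2 : ℝ) ^ k * s < 1 / 2 := by
        by_contra hcon
        push Not at hcon
        nlinarith [hcon]
      rw [hk, Nat.succ_eq_add_one, pow_succ]
      linarith
  set N : ℕ := Z.sup l + 1 with hN
  have hmap : ∀ z ∈ Z, l z ∈ Finset.range N := fun z hz =>
    Finset.mem_range.2 (Nat.lt_succ_of_le (Finset.le_sup hz))
  rw [← Finset.sum_fiberwise_of_maps_to hmap]
  have hin : ∀ j ∈ Finset.range N, ∑ z ∈ Z with l z = j, Real.exp (-(p z / (96 * s ^ 2))) ≤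
      384 * (t * (phi1 + phi2 * s)) * (1 / 2) ^ j := by
    intro j _
    have hpos : 0 ≤ 384 * (t * (phi1 + phi2 * s)) * (1 / 2 : ℝ) ^ j := by positivity
    rcases (Z.filter fun z => l z = j).eq_empty_or_nonempty with he | ⟨z0, hz0⟩
    · rw [he, Finset.sum_empty]; exact hpos
    · rw [Finset.mem_filter] at hz0
      have hj : (2 : ℝ) ^ j * s ≤ 1 := hz0.2 ▸ hone z0 hz0.1
      have h2j : (1 : ℝ) ≤ 2 ^ j := one_le_pow₀ (by norm_num)
      have hcard := hc (2 ^ j * s) (by nlinarith) hj (Z.filter fun z => l z = j)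
        (Finset.filter_subset _ _) (fun z hz => by
          rw [Finset.mem_filter] at hz
          have := hl1 z
          rwa [hz.2] at this)
      calc ∑ z ∈ Z with l z = j, Real.exp (-(p z / (96 * s ^ 2)))
          ≤ ∑ z ∈ Z with l z = j, 384 * (1 / 4 : ℝ) ^ j := by
            refine Finset.sum_le_sum fun z hz => ?_
            rw [Finset.mem_filter] at hz
            have := hterm z hz.1
            rwa [hz.2] at this
        _ = ((Z.filter fun z => l z = j).card : ℝ) * (384 * (1 / 4) ^ j) := by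
            rw [Finset.sum_const, nsmul_eq_mul]
        _ ≤ (t * (phi1 + phi2 * (2 ^ j * s))) * (384 * (1 / 4) ^ j) :=
            mul_le_mul_of_nonneg_right hcard (by positivity)
        _ ≤ (t * (2 ^ j * (phi1 + phi2 * s))) * (384 * (1 / 4) ^ j) := by
            have : phi1 + phi2 * (2 ^ j * s) ≤ 2 ^ j * (phi1 + phi2 * s) := by nlinarith
            have := mul_le_mul_of_nonneg_left this ht
            exact mul_le_mul_of_nonneg_right this (by positivity)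
        _ = 384 * (t * (phi1 + phi2 * s)) * (1 / 2) ^ j := by
            have : (2 : ℝ) ^ j * (1 / 4) ^ j = (1 / 2) ^ j := by
              rw [← mul_pow]; norm_num
            calc _ = 384 * (t * (phi1 + phi2 * s)) * (2 ^ j * (1 / 4) ^ j) := by ring
              _ = _ := by rw [this]
  calc _ ≤ ∑ j ∈ Finset.range N, 384 * (t * (phi1 + phi2 * s)) * (1 / 2 : ℝ) ^ j :=
        Finset.sum_le_sum hin
    _ = 384 * (t * (phi1 + phi2 * s)) * ∑ j ∈ Finset.range N, (1 / 2 : ℝ) ^ j := by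
        rw [Finset.mul_sum]
    _ ≤ 384 * (t * (phi1 + phi2 * s)) * 2 :=
        mul_le_mul_of_nonneg_left (geo2 N) (by positivity)
    _ = _ := by ring

/-! ### Gaussian sums -/

section Main

variable {m : ℕ} {A C0 : ℝ} {Lt : Lat (m + 2) A} {om : EE (m + 2)}

lemma gauss (hA : 1 ≤ A) (hC0 : 0 < C0) (hom : ‖om‖ = 1)
    (hLZ : ∀ (Z : Finset (Fin (m + 2) → ℤ)) (t0 ell al : ℝ) (y0 : EE (m + 2)), 0 ≤ ell → 0 < al →
      (∀ z ∈ Z, |inner ℝ om (Lt.du z) - t0| ≤ ell) →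
      ∑ z ∈ Z, Real.exp (-(al ^ 2 * pq om (Lt.du z - y0))) ≤ C0 * (1 + ell) * (1 + al⁻¹) ^ (m + 1))
    (Z : Finset (Fin (m + 2) → ℤ)) {t : ℝ} (ht : 1 / A ≤ t)
    (hZ : ∀ z ∈ Z, |inner ℝ om (Lt.du z)| ≤ 2 * t) (v : (Fin (m + 2) → ℤ) → EE (m + 2))
    (hv : ∀ z ∈ Z, ‖v z‖ ≤ 1 / 8) {sg : ℝ} (hsg : 1 ≤ sg) :
    ∑ z ∈ Z, Real.exp (-(pq om (v z + Lt.du z) / (192 * sg ^ 2))) ≤
      3 * C0 * (A + 2) * 20 ^ (m + 1) * (t * (1 + sg) ^ (m + 1)) := by
  have hA0 : 0 < A := by linarith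
  have ht0 : 0 < t := lt_of_lt_of_le (by positivity) ht
  have hAt : 1 ≤ A * t := by
    rw [div_le_iff₀ hA0] at ht
    linarith
  have hsg0 : 0 < sg := by linarith
  have hal : (0 : ℝ) < 1 / (20 * sg) := by positivity
  have h1 := hLZ Z 0 (2 * t) (1 / (20 * sg)) 0 (by positivity) hal (fun z hz => by
    rw [sub_zero]; exact hZ z hz)
  have h2 : ∀ z ∈ Z, Real.exp (-(pq om (v z + Lt.du z) / (192 * sg ^ 2))) ≤
      3 * Real.exp (-((1 / (20 * sg)) ^ 2 * pq om (Lt.du z - 0))) := by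
    intro z hz
    rw [sub_zero]
    have e1 := pq_low hom (v z) (Lt.du z)
    have e2 := pq_nonneg hom (Lt.du z)
    have e3 : ‖v z‖ ^ 2 ≤ 1 / 64 := by
      have := hv z hz
      nlinarith [norm_nonneg (v z)]
    have e4 : -(pq om (v z + Lt.du z) / (192 * sg ^ 2)) ≤
        1 + -((1 / (20 * sg)) ^ 2 * pq om (Lt.du z)) := by
      have e5 : (1 / (20 * sg)) ^ 2 * pq om (Lt.du z) ≤ (pq om (Lt.du z) / 2) / (192 * sg ^ 2) := by
        rw [div_pow, one_pow, mul_pow, one_div, inv_mul_eq_div,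
          div_div, div_le_div_iff₀ (by positivity) (by positivity)]
        nlinarith [mul_nonneg e2 (sq_nonneg sg)]
      have e6 : (pq om (Lt.du z) / 2 - ‖v z‖ ^ 2) / (192 * sg ^ 2) ≤
          pq om (v z + Lt.du z) / (192 * sg ^ 2) := by gcongr
      have e7 : ‖v z‖ ^ 2 / (192 * sg ^ 2) ≤ 1 := by
        rw [div_le_one (by positivity)]
        nlinarith
      rw [sub_div] at e6
      linarith
    calc Real.exp (-(pq om (v z + Lt.du z) / (192 * sg ^ 2)))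
        ≤ Real.exp (1 + -((1 / (20 * sg)) ^ 2 * pq om (Lt.du z))) := Real.exp_le_exp.2 e4
      _ = Real.exp 1 * Real.exp (-((1 / (20 * sg)) ^ 2 * pq om (Lt.du z))) := Real.exp_add _ _
      _ ≤ 3 * Real.exp (-((1 / (20 * sg)) ^ 2 * pq om (Lt.du z))) := by
          have := Real.exp_one_lt_d9
          gcongr
          linarith
  have h3 : 1 + 2 * t ≤ (A + 2) * t := by nlinarith
  have h4 : (1 + (1 / (20 * sg))⁻¹) ^ (m + 1) ≤ 20 ^ (m + 1) * (1 + sg) ^ (m + 1) := by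
    rw [← mul_pow, one_div, inv_inv]
    exact pow_le_pow_left₀ (by positivity) (by nlinarith) _
  calc _ ≤ ∑ z ∈ Z, 3 * Real.exp (-((1 / (20 * sg)) ^ 2 * pq om (Lt.du z - 0))) :=
        Finset.sum_le_sum h2
    _ = 3 * ∑ z ∈ Z, Real.exp (-((1 / (20 * sg)) ^ 2 * pq om (Lt.du z - 0))) := by
        rw [Finset.mul_sum]
    _ ≤ 3 * (C0 * (1 + 2 * t) * (1 + (1 / (20 * sg))⁻¹) ^ (m + 1)) := by gcongr
    _ ≤ 3 * (C0 * ((A + 2) * t) * (20 ^ (m + 1) * (1 + sg) ^ (m + 1))) := by gcongr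
    _ = _ := by ring

/-- the bound of a row or a column -/
lemma main (hA : 1 ≤ A) (hC0 : 0 < C0) (hom : ‖om‖ = 1)
    (hLZ : ∀ (Z : Finset (Fin (m + 2) → ℤ)) (t0 ell al : ℝ) (y0 : EE (m + 2)), 0 ≤ ell → 0 < al →
      (∀ z ∈ Z, |inner ℝ om (Lt.du z) - t0| ≤ ell) →
      ∑ z ∈ Z, Real.exp (-(al ^ 2 * pq om (Lt.du z - y0))) ≤ C0 * (1 + ell) * (1 + al⁻¹) ^ (m + 1))
    (Z : Finset (Fin (m + 2) → ℤ)) {t lam r w phi1 phi2 : ℝ} (ht : 1 / A ≤ t) (hlam : 1 ≤ lam)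
    (hr : 1 ≤ r) (hw : 0 < w) (hw1 : w ≤ 1) (h1 : 0 ≤ phi1) (h2 : 0 ≤ phi2)
    (hZ : ∀ z ∈ Z, |inner ℝ om (Lt.du z)| ≤ 2 * t) (v : (Fin (m + 2) → ℤ) → EE (m + 2))
    (hv : ∀ z ∈ Z, ‖v z‖ ≤ 1 / 8)
    (hc : w ^ 3 * (w * lam / r) ≤ t → t ≤ w * lam / r / w → ∀ w' : ℝ, r * t / lam ≤ w' → w' ≤ 1 →
      ∀ Z' : Finset (Fin (m + 2) → ℤ), Z' ⊆ Z → (∀ z ∈ Z', pq om (v z + Lt.du z) ≤ w' ^ 2) →
      (Z'.card : ℝ) ≤ t * (phi1 + phi2 * w')) :
    ∑ z ∈ Z, Real.exp (-(pq om (v z + Lt.du z) / (96 * (r * t / lam) ^ 2))) ≤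
      (768 + 3 * C0 * (A + 2) * 20 ^ (m + 1) * 2 ^ (m + 1)) * St m lam r w phi1 phi2 t := by
  have hA0 : 0 < A := by linarith
  have ht0 : 0 < t := lt_of_lt_of_le (by positivity) ht
  have hlam0 : 0 < lam := by linarith
  have hr0 : 0 < r := by linarith
  set s : ℝ := r * t / lam with hs
  have hs0 : 0 < s := by positivity
  set K : ℝ := 3 * C0 * (A + 2) * 20 ^ (m + 1) with hK
  have hK0 : 0 < K := by positivity
  have hp0 : ∀ z, 0 ≤ pq om (v z + Lt.du z) := fun z => pq_nonneg hom _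
  have hdiv : w * lam / r / w = lam / r := by field_simp
  -- the Gaussian sum with width one
  have hG1 : ∀ Z' : Finset (Fin (m + 2) → ℤ), Z' ⊆ Z →
      ∑ z ∈ Z', Real.exp (-(pq om (v z + Lt.du z) / 192)) ≤ K * 2 ^ (m + 1) * t := by
    intro Z' hZ'
    have h3 := gauss hA hC0 hom hLZ Z' ht (fun z hz => hZ z (hZ' hz)) v (fun z hz => hv z (hZ' hz))
      (sg := 1) le_rfl
    have e1 : ∀ z, pq om (v z + Lt.du z) / (192 * (1 : ℝ) ^ 2) = pq om (v z + Lt.du z) / 192 := by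
      intro z; norm_num
    simp only [e1] at h3
    refine h3.trans (le_of_eq ?_)
    rw [hK]
    norm_num
    ring
  unfold St
  split_ifs with hif1 hif2
  · -- small `t`
    have hs1 : s ≤ 1 := by
      have h3 : s < w ^ 4 := by
        rw [hs, div_lt_iff₀ hlam0]
        have : w ^ 3 * (w * lam / r) * r = w ^ 4 * lam := by field_simp
        nlinarith
      have h4 : w ^ 4 ≤ 1 := pow_le_one₀ hw.le hw1
      linarith
    have hs2 : s ^ 2 ≤ 1 := pow_le_one₀ hs0.le hs1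
    calc ∑ z ∈ Z, Real.exp (-(pq om (v z + Lt.du z) / (96 * s ^ 2)))
        ≤ ∑ z ∈ Z, Real.exp (-(pq om (v z + Lt.du z) / 192)) := by
          refine Finset.sum_le_sum fun z _ => Real.exp_le_exp.2 (neg_le_neg ?_)
          exact div_le_div_of_nonneg_left (hp0 z) (by positivity) (by linarith)
      _ ≤ K * 2 ^ (m + 1) * t := hG1 Z (Finset.Subset.refl _)
      _ ≤ (768 + K * 2 ^ (m + 1)) * t := by nlinarith
  · -- middle `t`
    push Not at hif1
    have hs1 : s ≤ 1 := by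
      rw [hdiv, le_div_iff₀ hr0] at hif2
      rw [hs, div_le_one hlam0]
      linarith
    have hs2 : s ^ 2 ≤ 1 := pow_le_one₀ hs0.le hs1
    classical
    have hsplit := Finset.sum_filter_add_sum_filter_not Z (fun z => pq om (v z + Lt.du z) ≤ 1 / 4)
      (fun z => Real.exp (-(pq om (v z + Lt.du z) / (96 * s ^ 2))))
    have hA1 : ∑ z ∈ Z with pq om (v z + Lt.du z) ≤ 1 / 4,
        Real.exp (-(pq om (v z + Lt.du z) / (96 * s ^ 2))) ≤ 768 * (t * (phi1 + phi2 * s)) := by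
      refine layers _ _ hs0 hs1 ht0.le h1 h2 (fun z _ => hp0 z)
        (fun z hz => (Finset.mem_filter.1 hz).2) ?_
      intro w' hw' hw'1 Z' hZ' hz
      exact hc hif1 hif2 w' hw' hw'1 Z' (hZ'.trans (Finset.filter_subset _ _)) hz
    have hA2 : ∑ z ∈ Z with ¬ pq om (v z + Lt.du z) ≤ 1 / 4,
        Real.exp (-(pq om (v z + Lt.du z) / (96 * s ^ 2))) ≤
        Real.exp (-(768 * s ^ 2)⁻¹) * (K * 2 ^ (m + 1) * t) := by
      calc _ ≤ ∑ z ∈ Z with ¬ pq om (v z + Lt.du z) ≤ 1 / 4,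
            Real.exp (-(768 * s ^ 2)⁻¹) * Real.exp (-(pq om (v z + Lt.du z) / 192)) := by
            refine Finset.sum_le_sum fun z hz => ?_
            have hz2 := (Finset.mem_filter.1 hz).2
            push Not at hz2
            rw [← Real.exp_add]
            refine Real.exp_le_exp.2 ?_
            have e1 : pq om (v z + Lt.du z) / 192 ≤ pq om (v z + Lt.du z) / (192 * s ^ 2) :=
              div_le_div_of_nonneg_left (hp0 z) (by positivity) (by linarith)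
            have e2 : (768 * s ^ 2)⁻¹ ≤ pq om (v z + Lt.du z) / (192 * s ^ 2) := by
              rw [inv_eq_one_div, div_le_div_iff₀ (by positivity) (by positivity)]
              nlinarith [sq_nonneg s, mul_pos hs0 hs0]
            have e3 : pq om (v z + Lt.du z) / (96 * s ^ 2) = pq om (v z + Lt.du z) / (192 * s ^ 2) +
                pq om (v z + Lt.du z) / (192 * s ^ 2) := by
              field_simp
              ring
            rw [e3]
            linarith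
        _ = Real.exp (-(768 * s ^ 2)⁻¹) *
            ∑ z ∈ Z with ¬ pq om (v z + Lt.du z) ≤ 1 / 4, Real.exp (-(pq om (v z + Lt.du z) / 192)) := by
            rw [Finset.mul_sum]
        _ ≤ _ := mul_le_mul_of_nonneg_left (hG1 _ (Finset.filter_subset _ _)) (Real.exp_pos _).le
    rw [← hsplit]
    have hE := (Real.exp_pos (-(768 * s ^ 2)⁻¹)).le
    have h5 : 0 ≤ t * (phi1 + phi2 * s) := by positivity
    have h6 : 0 ≤ K * 2 ^ (m + 1) := by positivity
    have h7 : 0 ≤ t * Real.exp (-(768 * s ^ 2)⁻¹) := by positivity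
    have h8 := mul_nonneg h6 h5
    calc _ ≤ 768 * (t * (phi1 + phi2 * s)) + Real.exp (-(768 * s ^ 2)⁻¹) * (K * 2 ^ (m + 1) * t) :=
          add_le_add hA1 hA2
      _ ≤ (768 + K * 2 ^ (m + 1)) * (t * (phi1 + phi2 * s)) +
          (768 + K * 2 ^ (m + 1)) * (t * Real.exp (-(768 * s ^ 2)⁻¹)) := by nlinarith
      _ = _ := by ring
  · -- large `t`
    push Not at hif2
    have hs1 : 1 ≤ s := by
      rw [hdiv, div_lt_iff₀ hr0] at hif2
      rw [hs, le_div_iff₀ hlam0]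
      linarith
    have h3 := gauss hA hC0 hom hLZ Z ht hZ v hv hs1
    calc ∑ z ∈ Z, Real.exp (-(pq om (v z + Lt.du z) / (96 * s ^ 2)))
        ≤ ∑ z ∈ Z, Real.exp (-(pq om (v z + Lt.du z) / (192 * s ^ 2))) := by
          refine Finset.sum_le_sum fun z _ => Real.exp_le_exp.2 (neg_le_neg ?_)
          exact div_le_div_of_nonneg_left (hp0 z) (by positivity) (by nlinarith [sq_nonneg s])
      _ ≤ K * (t * (1 + s) ^ (m + 1)) := h3
      _ ≤ (768 + K * 2 ^ (m + 1)) * (t * (1 + s) ^ (m + 1)) := by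
          refine mul_le_mul_of_nonneg_right ?_ (by positivity)
          have : (1 : ℝ) ≤ 2 ^ (m + 1) := one_le_pow₀ (by norm_num)
          nlinarith

end Main

lemma inner_sl {m : ℕ} {e : EE (m + 1)} {L : EE m →ₗᵢ[ℝ] EE (m + 1)} (he : ‖e‖ = 1)
    (heL : ∀ b, inner ℝ e (L b) = 0) (sg : ℝ) (b : EE m) : inner ℝ e (sl e L sg b) = sg := by
  unfold CV.sl
  rw [inner_add_right, heL, inner_smul_right, real_inner_self_eq_norm_sq, he]
  ring

lemma du_neg {D : ℕ} {A : ℝ} (Lt : Lat D A) (z : Fin D → ℤ) : Lt.du (-z) = -Lt.du z := by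
  unfold Lat.du
  have h : zv (-z) = -zv z := by
    unfold CV.zv
    ext i
    simp
  rw [h, map_neg, smul_neg]

lemma dl_le {R : ℝ} (hR : 0 < R) (k : ℕ) : 2 * dl k R ≤ R := by
  unfold dl
  have h : (1 : ℝ) ≤ 32 ^ k := one_le_pow₀ (by norm_num)
  have h2 : R / (4 * 32 ^ k) ≤ R / 4 :=
    div_le_div_of_nonneg_left hR.le (by norm_num) (by linarith)
  linarith

/-- **ROW** -/
theorem specROW (hLZ : ASpec.SpecLZ) : SpecROW := by
  intro m c R A M hA hcls
  obtain ⟨C0, hC0, hLZ'⟩ := hLZ (m + 1) A hA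
  refine ⟨768 + 3 * C0 * (A + 2) * 20 ^ (m + 1) * 2 ^ (m + 1), by positivity, ?_⟩
  intro ch hD Lt om e L hSl lam r w sg0 tau phi1 phi2 sg sg' t E hlam hr hw hw1 hT h1 h2 hCH hsg hsg'
    ht Z hZ
  have hom := hSl.om_one
  have hlz := fun Z t0 ell al y0 => (hLZ' Lt).2.1 om Z t0 ell al y0 hom
  have hdl := dl_le hcls.R_pos (m + 1)
  have hZ2 : ∀ z ∈ Z, |inner ℝ om (Lt.du z)| ≤ 2 * t := fun z hz => (hZ z hz).2
  have hA8 : 1 / (8 * A) ≤ 1 / 8 := one_div_le_one_div_of_le (by norm_num) (by linarith)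
  have hsl := fun s b => inner_sl (L := L) hSl.e_one hSl.eL s b
  refine ⟨?_, ?_⟩
  · intro b hb bz hbz
    have hv : ∀ z ∈ Z, ‖ch.X (sl e L sg b) - ch.X (sl e L sg' (bz z))‖ ≤ 1 / 8 := fun z hz =>
      (hD _ _ (hb.2.1.trans hdl) ((hbz z hz).2.1.trans hdl)).trans hA8
    refine main hA hC0 hom hlz Z ht hlam hr hw hw1 h1 h2 hZ2
      (fun z => ch.X (sl e L sg b) - ch.X (sl e L sg' (bz z))) hv ?_
    intro c1 c2 w' hw' hw'1 Z' hZ' hz
    refine hCH sg sg' (sl e L sg b) hsg hsg' hb.2.2 hb.2.1 (hsl _ _) t w' ht c1 c2 hw' hw'1 Z' ?_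
    intro z hzz
    exact ⟨(hZ z (hZ' hzz)).1, (hZ z (hZ' hzz)).2, sl e L sg' (bz z), (hbz z (hZ' hzz)).2.2,
      (hbz z (hZ' hzz)).2.1, hsl _ _, hz z hzz⟩
  · intro b' hb' bz hbz
    have hv : ∀ z ∈ Z, ‖ch.X (sl e L sg (bz z)) - ch.X (sl e L sg' b')‖ ≤ 1 / 8 := fun z hz =>
      (hD _ _ ((hbz z hz).2.1.trans hdl) (hb'.2.1.trans hdl)).trans hA8
    refine main hA hC0 hom hlz Z ht hlam hr hw hw1 h1 h2 hZ2
      (fun z => ch.X (sl e L sg (bz z)) - ch.X (sl e L sg' b')) hv ?_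
    intro c1 c2 w' hw' hw'1 Z' hZ' hz
    classical
    have hcard : (Z'.image fun z => -z).card = Z'.card :=
      Finset.card_image_of_injective _ neg_injective
    rw [← hcard]
    refine hCH sg' sg (sl e L sg' b') hsg' hsg hb'.2.2 hb'.2.1 (hsl _ _) t w' ht c1 c2 hw' hw'1
      (Z'.image fun z => -z) ?_
    intro z' hz'
    obtain ⟨z, hzz, rfl⟩ := Finset.mem_image.1 hz'
    have hzZ := hZ' hzz
    have e1 : |inner ℝ om (Lt.du (-z))| = |inner ℝ om (Lt.du z)| := by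
      rw [du_neg, inner_neg_right, abs_neg]
    refine ⟨by rw [e1]; exact (hZ z hzZ).1, by rw [e1]; exact (hZ z hzZ).2, sl e L sg (bz z),
      (hbz z hzZ).2.2, (hbz z hzZ).2.1, hsl _ _, ?_⟩
    have e2 : ch.X (sl e L sg' b') - ch.X (sl e L sg (bz z)) + Lt.du (-z) =
        -(ch.X (sl e L sg (bz z)) - ch.X (sl e L sg' b') + Lt.du z) := by
      rw [du_neg]; abel
    rw [e2, pq_neg]
    exact hz z hzz

end Pool.Agent.Lib.MP_a8dae7_an.UN.ROWM
end

section
/-!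
# MP_a8dae7_an, UN: module Z_SUM, the large translates
-/
set_option autoImplicit false

open MeasureTheory
open scoped ContDiff

namespace Pool.Agent.Lib.MP_a8dae7_an.UN.SUMM

open Pool.Agent.Lib.MP_a8dae7_an.CV (EE zv ex pq pi2 AA sl bm)

theorem exists_dyadic {A t : ℝ} (hA : 0 < A) (ht : 1 / A ≤ t) :
    ∃ j : ℕ, 2 ^ j / A ≤ t ∧ t < 2 ^ (j + 1) / A := by
  have h1 : 1 ≤ t * A := by
    rw [div_le_iff₀ hA] at ht
    exact ht
  obtain ⟨j, h2, h3⟩ := exists_nat_pow_near h1 (one_lt_two : (1 : ℝ) < 2)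
  exact ⟨j, by rwa [div_le_iff₀ hA], by rwa [lt_div_iff₀ hA]⟩

/-- a family indexed by a fibred finite set -/
theorem OBF_fiber {m : ℕ} {F F' : Set (EE m)} {ι : Type} {Z : Finset ι} {K : ι → EE m → EE m → ℂ}
    {B : ℕ → ℝ} {J : ℕ} (jf : ι → ℕ) (hJ : ∀ z ∈ Z, jf z ∈ Finset.range J)
    (h : ∀ j ∈ Finset.range J, OBF m F F' (Z.filter fun z => jf z = j) K (B j)) :
    OBF m F F' Z K (∑ j ∈ Finset.range J, B j) := by
  intro f g hf hg hf' hg' hfF hgF
  rw [← Finset.sum_fiberwise_of_maps_to hJ, Finset.sum_mul]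
  exact Finset.sum_le_sum fun j hj => h j hj f g hf hg hf' hg' hfF hgF

theorem OBF_mono {m : ℕ} {F F' : Set (EE m)} {ι : Type} {Z : Finset ι} {K : ι → EE m → EE m → ℂ}
    {B B' : ℝ} (h : OBF m F F' Z K B) (hB : B ≤ B') : OBF m F F' Z K B' := by
  intro f g hf hg hf' hg' hfF hgF
  refine (h f g hf hg hf' hg' hfF hgF).trans ?_
  gcongr

theorem St_nonneg (m : ℕ) {lam r w phi1 phi2 t : ℝ} (hlam : 0 < lam) (hr : 0 < r) (h1 : 0 ≤ phi1)
    (h2 : 0 ≤ phi2) (ht : 0 ≤ t) : 0 ≤ St m lam r w phi1 phi2 t := by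
  unfold St
  split_ifs
  · exact ht
  · positivity
  · positivity

/-- **SUM** -/
theorem specSUM (hCEL : SpecCEL) (hROW : SpecROW) (hTSU : SpecTSU) : ASpec.SpecSUM := by
  intro m c R A M hA hcls
  obtain ⟨C1, hC1, hCEL⟩ := hCEL m c R A M hA hcls
  obtain ⟨C2, hC2, hROW⟩ := hROW m c R A M hA hcls
  obtain ⟨C3, hC3, hTSU⟩ := hTSU m A hA
  refine ⟨C1 * C2 * C3, by positivity, ?_⟩
  intro ch hDm Lt om e L hS lam r w sg0 tau phi1 phi2 sg sg' E hlam hr hr3 hw hw1 hT hphi1 hphi2 hE hCH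
    hsg0 hsg0' hsg hsg' Z hZ
  have hA0 : 0 < A := by linarith
  have hlam0 : 0 < lam := by linarith
  have hr0 : 0 < r := by linarith
  have hrT : r * (w * lam / r) ≤ lam := by
    rw [mul_div_cancel₀ _ hr0.ne']
    exact mul_le_of_le_one_left hlam0.le hw1
  have hj : ∀ z : Fin (m + 2) → ℤ, ∃ j : ℕ, z ∈ Z → 2 ^ j / A ≤ |(inner ℝ om (Lt.du z) : ℝ)| ∧
      |(inner ℝ om (Lt.du z) : ℝ)| < 2 ^ (j + 1) / A := by
    intro z
    by_cases hz : z ∈ Z
    · obtain ⟨j, h1⟩ := exists_dyadic hA0 (hZ z hz).1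
      exact ⟨j, fun _ => h1⟩
    · exact ⟨0, fun h => absurd h hz⟩
  choose jf hjf using hj
  have hmaps : ∀ z ∈ Z, jf z ∈ Finset.range (Z.sup jf + 1) := fun z hz =>
    Finset.mem_range.mpr (Nat.lt_succ_of_le (Finset.le_sup (f := jf) hz))
  have hone : ∀ j ∈ Finset.range (Z.sup jf + 1), OBF m (fib m (2 * dl (m + 1) R) e L E sg)
      (fib m (2 * dl (m + 1) R) e L E sg') (Z.filter fun z => jf z = j)
      (fun z => ks ch om lam r (w * lam / r) e L (Lt.du z) sg sg')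
      (C1 * (w * lam / r)⁻¹ * Real.sqrt (lam / (2 ^ j / A)) *
        Real.exp (-((2 ^ j / A / (w * lam / r)) ^ 2 / 32)) *
        (C2 * St m lam r w phi1 phi2 (2 ^ j / A))) := by
    intro j _
    have ht : 1 / A ≤ 2 ^ j / A := by
      have h2 : (1 : ℝ) ≤ 2 ^ j := one_le_pow₀ (by norm_num)
      gcongr
    have ht0 : (0 : ℝ) ≤ 2 ^ j / A := by positivity
    have hZj : ∀ z ∈ Z.filter (fun z => jf z = j), 2 ^ j / A ≤ |(inner ℝ om (Lt.du z) : ℝ)| ∧
        |(inner ℝ om (Lt.du z) : ℝ)| ≤ 2 * (2 ^ j / A) := by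
      intro z hz
      rw [Finset.mem_filter] at hz
      have h1 := hjf z hz.1
      rw [hz.2] at h1
      refine ⟨h1.1, h1.2.le.trans (le_of_eq ?_)⟩
      ring
    have hrow := hROW ch hDm Lt om e L hS lam r w sg0 tau phi1 phi2 sg sg' (2 ^ j / A) E hlam hr hw hw1 hT
      hphi1 hphi2 hCH hsg0 hsg0' ht (Z.filter fun z => jf z = j) hZj
    exact hCEL ch hDm Lt om e L hS lam r (w * lam / r) (2 ^ j / A)
      (C2 * St m lam r w phi1 phi2 (2 ^ j / A)) sg sg' E hlam hr hr3 hT hrT ht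
      (mul_nonneg hC2.le (St_nonneg m hlam0 hr0 hphi1 hphi2 ht0)) hE hsg hsg'
      (Z.filter fun z => jf z = j)
      (fun z hz => ⟨(hZj z hz).1, (hZj z hz).2, (hZ z (Finset.mem_filter.mp hz).1).2⟩) hrow.1 hrow.2
  refine OBF_mono (OBF_fiber jf hmaps hone) ?_
  have h3 := hTSU lam r w phi1 phi2 hlam hr hw hw1 hT hphi1 hphi2 (Z.sup jf + 1)
  calc ∑ j ∈ Finset.range (Z.sup jf + 1), C1 * (w * lam / r)⁻¹ * Real.sqrt (lam / (2 ^ j / A)) *
        Real.exp (-((2 ^ j / A / (w * lam / r)) ^ 2 / 32)) * (C2 * St m lam r w phi1 phi2 (2 ^ j / A))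
      = C1 * C2 * ∑ j ∈ Finset.range (Z.sup jf + 1), (w * lam / r)⁻¹ * Real.sqrt (lam / (2 ^ j / A)) *
        Real.exp (-((2 ^ j / A / (w * lam / r)) ^ 2 / 32)) * St m lam r w phi1 phi2 (2 ^ j / A) := by
        rw [Finset.mul_sum]
        exact Finset.sum_congr rfl fun j _ => by ring
    _ ≤ C1 * C2 * (C3 * Real.sqrt r * (w + (Real.sqrt w)⁻¹ * (phi1 + phi2 * w))) := by gcongr
    _ = _ := by ring

end Pool.Agent.Lib.MP_a8dae7_an.UN.SUMM
end
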