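import Pool.Agent.Lib.MP_a8dae7_an.UN.SpecA
import Pool.Agent.Lib.MP_a8dae7_an.CV.FT
import Pool.Agent.Lib.MP_a8dae7_an.UN.A_BL
import Pool.Agent.Lib.MP_a8dae7_an.UN.A_DU
import Pool.Agent.Lib.MP_a8dae7_an.UN.A_KN
import Pool.Agent.Lib.MP_a8dae7_an.UN.A_SPL
import Pool.Agent.Lib.MP_a8dae7_an.UN.A_PP
import Pool.Agent.Lib.MP_a8dae7_an.UN.A_PS
import Pool.Agent.Lib.MP_a8dae7_an.UN.A_SC
import Pool.Agent.Lib.MP_a8dae7_an.UN.A_SL
import Pool.Agent.Lib.MP_a8dae7_an.UN.A_WL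
import Pool.Agent.Lib.MP_a8dae7_an.UN.A_Z1
import Pool.Agent.Lib.MP_a8dae7_an.UN.B0
import Pool.Agent.Lib.MP_a8dae7_an.UN.O
import Pool.Agent.Lib.MP_a8dae7_an.UN.TC
import Pool.Agent.Lib.MP_a8dae7_an.UN.CTU
import Pool.Agent.Lib.MP_a8dae7_an.UN.FD
import Pool.Agent.Lib.MP_a8dae7_an.UN.Main
import Pool.Agent.Lib.MP_a8dae7_an.UN.IBP
import Pool.Agent.Lib.MP_a8dae7_an.UN.CYC
import Pool.Agent.Lib.MP_a8dae7_an.UN.ST
import Pool.Agent.Lib.MP_a8dae7_an.UN.MI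
import Pool.Agent.Lib.MP_a8dae7_an.UN.VF
import Pool.Agent.Lib.MP_a8dae7_an.UN.Z_SUM
import Pool.Agent.Lib.MP_a8dae7_an.UN.UC
import Pool.Agent.Lib.MP_a8dae7_an.UN.Z_CEL
import Pool.Agent.Lib.MP_a8dae7_an.UN.Z_GBU
import Pool.Agent.Lib.MP_a8dae7_an.UN.A_Z0
import Pool.Agent.Lib.MP_a8dae7_an.UN.Z_DBU
import Pool.Agent.Lib.MP_a8dae7_an.UN.Z_JFa
import Pool.Agent.Lib.MP_a8dae7_an.UN.Z_JFb
import Pool.Agent.Lib.MP_a8dae7_an.UN.A_ZA
import Pool.Agent.Lib.MP_a8dae7_an.CV.HM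
import Pool.Agent.Lib.MP_a8dae7_an.CV.NG
import Pool.Agent.Lib.MP_a8dae7_an.CV.ZS
import Pool.Agent.Lib.MP_a8dae7_an.CV.TT
import Pool.Agent.Lib.MP_a8dae7_an.CV.Main
import Pool.Agent.Lib.MP_a8dae7_an.UN.CYM
import Pool.Agent.Lib.MP_a8dae7_an.UN.CYR

section
/-!
# MP_a8dae7_an, UN: the Fourier transform of the majorant of thickness `1/T`
-/
set_option autoImplicit false

open MeasureTheory Module
open scoped RealInnerProductSpace

namespace Pool.Agent.Lib.MP_a8dae7_an.UN.A_FT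

open Pool.Agent.Lib.MP_a8dae7_an.CV (EE zv ex pq pi2 AA)
open Pool.Agent.Lib.MP_a8dae7_an.CV.FTM (W FT pp W_integrable FT_eq cpow_AA)

theorem specFT : ASpec.SpecFT := by
  intro k om lam r T h hl hr hT
  have h1 : WW om lam r T = W om r lam T := by
    funext ξ
    rfl
  rw [h1]
  refine ⟨W_integrable h hr hT, fun x => ?_⟩
  have h2 := FT_eq h (k := k) (by simp) (lam := lam) hr hT x
  unfold ex
  rw [h2]
  unfold FT Kf FF
  rw [cpow_AA hr]
  rw [show pp om x = pq om x from rfl]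
  rw [sub_eq_add_neg, sub_eq_add_neg, Complex.exp_add, Complex.exp_add, neg_div]
  push_cast
  ring

end Pool.Agent.Lib.MP_a8dae7_an.UN.A_FT
end

section
/-!
# UN, ALL: the theorem for positively curved hypersurfaces, without loss, from the modules
-/
set_option autoImplicit false

open MeasureTheory
open scoped ContDiff

namespace Pool.Agent.Lib.MP_a8dae7_an.UN

open Pool.Agent.Lib.MP_a8dae7_an.CV (EE zv ex PosAt PosCurved)

/-- the cells -/
theorem all_ZU : SpecZU := by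
  have hEX := EXM.specEX A_KN.specKN
  have hJF := JFbM.specJFU (CV.NGM.specNG CV.NSM.specNS) (Z_JFaM.cellExp hEX CXM.specCX)
    (Z_JFaM.ballAltU hEX Z_DBUM.specDBU (specGBU CXM.specCX) CXM.specCX) Z_JFaM.smoothTh
  exact ZUM.specZU hJF CV.TTM.specTT

/-- part A -/
theorem all_PP : SpecPP := by
  have hFT := A_FT.specFT
  have hKN := A_KN.specKN
  have hLZ := A_LZ.specLZ
  have hPS := A_PS.specPS hFT hKN
  have hDU := A_DU.specDU hPS hLZ
  have hWL := A_WL.specWL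
  have hSPL := A_SPL.specSPL
  have hSL := A_SL.specSL hSPL
  have hSC := A_SC.specSC
  have hBL := A_BL.specBL CXM.specCX
  have hZ0 := A_Z0.specZ0 hKN hSC hBL CXM.specCX
  have hZA := A_ZA.specZA hKN hSC hLZ
  have hZ1 := A_Z1.specZ1 hKN hSC hBL hLZ
  have hSUM := SUMM.specSUM (CELM.specCEL all_ZU CXM.specCX) (ROWM.specROW hLZ) TSUM.specTSU
  exact A_PP.specPP hSPL hDU hWL hSL hZ0 hZA hZ1 hSUM

/-- section 2 -/
theorem all_O : SpecO := by
  have hCTU := CTUM.specCTU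
  have hCG := CGM.specCG hCTU
  have hGA := GAM.specGA
  have hREC := RECM.specREC
  have hVF := VFM.specVF
  have hIBP := IBPM.specIBP
  have hCS := CSM.specCS
  have hCA := CAM.specCA hGA hREC hVF hIBP hCS
  have hCB := CBM.specCB hIBP hVF hREC hGA hCS
  have hPA := PAM.specPA hCA hCB hCTU hCG hGA
  have hPC := PCM.specPC TCM.specTC
  exact OM.specO hPA CSM.specCS hPC (PSMM.specPSM hPC) hCTU hCG

/-- the induction -/
theorem all_UU : ∀ k : ℕ, UU k := by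
  have hPP := all_PP
  have hO := all_O
  have hCT := CTM.specCT LSM.specLS
  have hLC := LCM.specLC (specLI CXM.specCX) AVM.specAV hCT
  have hMI := specMI hPP hLC DIM.specDI
  have hB0 := B0M.specB0 hPP hCT LSM.specLS
  have hFD := FDM.specFD CXM.specCX (FFM.specFF CXM.specCX UCM.specUC)
  intro k
  induction k with
  | zero => exact U0M.specU0
  | succ m ih =>
    exact STM.specST m (MJM.specMJ m hMI (MBM.specMB m hFD PLM.specPL ih) hO LSM.specLS TCM.specTC hB0) hO hB0 LSM.specLS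

/-- the trace inequality for positively curved hypersurfaces -/
theorem main (k : ℕ) (hk : 1 ≤ k) (Sg : Set (EE (k + 1))) (hc : IsCompact Sg)
    (hp : ∀ p ∈ Sg, PosAt Sg p) :
    ∃ C : ℝ, 0 < C ∧ ∀ (lam : ℝ) (s : Finset (Fin (k + 1) → ℤ)) (a : (Fin (k + 1) → ℤ) → ℂ),
      (∀ n ∈ s, ∑ i, (n i : ℝ) ^ 2 = lam ^ 2) →
      ∫⁻ x in Sg, ENNReal.ofReal (‖FP.wave s a (fun i => x i)‖ ^ 2)
        ∂(Measure.hausdorffMeasure (k : ℝ))
        ≤ ENNReal.ofReal (C *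
          ∫ x in Set.pi Set.univ (fun _ : Fin (k + 1) => Set.Icc (0 : ℝ) (2 * Real.pi)),
            ‖FP.wave s a x‖ ^ 2) :=
  MainM.main (FNM.specFN (fun m => all_UU (m + 1)) IFM.specIF CV.HMM.specHM) k hk Sg hc hp

end Pool.Agent.Lib.MP_a8dae7_an.UN
end

section
/-!
# MP_a8dae7_an, UN, CYALL (UNIFORM+): the theorem for rational cylinders over positively curved hypersurfaces
-/
set_option autoImplicit false

open MeasureTheory
open scoped ContDiff ENNReal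

namespace Pool.Agent.Lib.MP_a8dae7_an.UN.CYALLM

open Pool.Agent.Lib.MP_a8dae7_an.CV (EE zv ex)
open Pool.Agent.Lib.MP_a8dae7_an.UN.CY

/-- **UNIFORM+** -/
theorem main (n0 : ℕ) (Sg : Set (EE (n0 + 1))) (hc : IsCompact Sg)
    (hp : ∀ p ∈ Sg, ∃ k, CylAt (n0 + 1) k Sg p) :
    ∃ C : ℝ, 0 < C ∧ ∀ (lam : ℝ) (s : Finset (Fin (n0 + 1) → ℤ)) (a : (Fin (n0 + 1) → ℤ) → ℂ),
      (∀ n ∈ s, ∑ i, (n i : ℝ) ^ 2 = lam ^ 2) →
      ∫⁻ x in Sg, ENNReal.ofReal (‖FP.wave s a (fun i => x i)‖ ^ 2)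
        ∂(Measure.hausdorffMeasure (n0 : ℝ))
        ≤ ENNReal.ofReal (C *
          ∫ x in Set.pi Set.univ (fun _ : Fin (n0 + 1) => Set.Icc (0 : ℝ) (2 * Real.pi)),
            ‖FP.wave s a x‖ ^ 2) :=
  CYMM.main all_UU specCYR specCYC n0 Sg hc hp

end Pool.Agent.Lib.MP_a8dae7_an.UN.CYALLM
end
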