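import Pool.Agent.Lib.MP_a8dae7_an.CV.Defs

/-!
# MP_a8dae7_an, UN: the trace inequality without loss for positively curved hypersurfaces. Definitions.

Paper: /team-store/MP_a8dae7_an_UNIFORM_h93.md (notation of CV/Defs).
Every constant is uniform in a class of charts (`UChart k c R M`) and of lattices (`Lat D A`).
-/

set_option autoImplicit false

open MeasureTheory
open scoped ContDiff

namespace Pool.Agent.Lib.MP_a8dae7_an.UN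

open Pool.Agent.Lib.MP_a8dae7_an.CV (EE zv ex pq pi2 AA sl bm)

/-- the constants of a class of charts -/
structure Cls (c R : ℝ) (M : ℕ → ℝ) : Prop where
  c_pos : 0 < c
  R_pos : 0 < R
  R_le : R ≤ 1 / 16
  M2 : 4 * M 2 * R ≤ c

/-- A chart by normals of a positively curved hypersurface of `ℝ^(k+1)`, valid on `‖q‖ ≤ R`:
`nu - J q` is normal at `X q`. -/
structure UChart (k : ℕ) (c R : ℝ) (M : ℕ → ℝ) where
  X : EE k → EE (k + 1)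
  nu : EE (k + 1)
  J : EE k →ₗᵢ[ℝ] EE (k + 1)
  smooth : ContDiff ℝ ∞ X
  nu_one : ‖nu‖ = 1
  nu_perp : ∀ v, inner ℝ nu (J v) = 0
  perp : ∀ q v, ‖q‖ ≤ R → inner ℝ (nu - J q) (fderiv ℝ X q v) = 0
  mono : ∀ q v, ‖q‖ ≤ R → c * ‖v‖ ^ 2 ≤ inner ℝ (J v) (fderiv ℝ X q v)
  bd : ∀ j : ℕ, 1 ≤ j → ∀ q, ‖q‖ ≤ R → ‖iteratedFDeriv ℝ j X q‖ ≤ M j

/-- `diam X(‖q‖ ≤ R) ≤ dm` -/
def Dm {k : ℕ} {c R : ℝ} {M : ℕ → ℝ} (ch : UChart k c R M) (dm : ℝ) : Prop :=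
  ∀ q q', ‖q‖ ≤ R → ‖q'‖ ≤ R → ‖ch.X q - ch.X q'‖ ≤ dm

/-- the radius of the part of the chart on which the trace is taken; the blocks live on `‖q‖ ≤ 2 dl`, cutoffs on
`‖q‖ ≤ 3 dl`, and `4 dl ≤ R` -/
noncomputable def dl (k : ℕ) (R : ℝ) : ℝ := R / (4 * 32 ^ k)

/-- `s_n(q) = ⟨n, nu(q)⟩`, affine in `q` -/
noncomputable def sn {k : ℕ} {c R : ℝ} {M : ℕ → ℝ} (ch : UChart k c R M) (n : EE (k + 1)) (q : EE k) : ℝ :=
  inner ℝ n (ch.nu - ch.J q)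

/-- `tau_q(eta) = J^* eta + ⟨nu, eta⟩ q`; `D(⟨eta,X⟩)(q) v = ⟨J tau_q(eta), DX(q) v⟩` -/
noncomputable def tq {k : ℕ} {c R : ℝ} {M : ℕ → ℝ} (ch : UChart k c R M) (q : EE k) (eta : EE (k + 1)) : EE k :=
  ContinuousLinearMap.adjoint (ch.J.toContinuousLinearMap) eta + (inner ℝ ch.nu eta : ℝ) • q

/-- an affine lattice of quality `A` -/
structure Lat (D : ℕ) (A : ℝ) where
  B : EE D ≃L[ℝ] EE D
  a0 : EE D
  hB : ‖(B : EE D →L[ℝ] EE D)‖ ≤ A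
  hB' : ‖(B.symm : EE D →L[ℝ] EE D)‖ ≤ A

/-- the frequency with index `j` -/
noncomputable def Lat.fr {D : ℕ} {A : ℝ} (Lt : Lat D A) (j : Fin D → ℤ) : EE D := Lt.B (zv j) + Lt.a0

/-- the vectors of the dual lattice: `2π B^{-T} z` -/
noncomputable def Lat.du {D : ℕ} {A : ℝ} (Lt : Lat D A) (z : Fin D → ℤ) : EE D :=
  (2 * Real.pi) • ContinuousLinearMap.adjoint (Lt.B.symm : EE D →L[ℝ] EE D) (zv z)

/-- the exponential sum `∑ a_j e^{i fr(j)·x}` -/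
noncomputable def es {D : ℕ} {A : ℝ} (Lt : Lat D A) (s : Finset (Fin D → ℤ)) (a : (Fin D → ℤ) → ℂ) (x : EE D) : ℂ :=
  ∑ j ∈ s, a j * ex (Lt.fr j) x

/-- The induction statement at level `k` (trace on `‖q‖ ≤ dl`, no loss) -/
def UU (k : ℕ) : Prop := ∀ (A c R : ℝ) (M : ℕ → ℝ), 1 ≤ A → Cls c R M → ∃ C : ℝ, 0 < C ∧
  ∀ (ch : UChart k c R M), Dm ch (1 / (8 * (k + 1).factorial * A)) → ∀ (Lt : Lat (k + 1) A) (lam : ℝ)
    (s : Finset (Fin (k + 1) → ℤ)) (a : (Fin (k + 1) → ℤ) → ℂ), 0 ≤ lam → (∀ j ∈ s, ‖Lt.fr j‖ = lam) →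
    ∫ q in Metric.closedBall (0 : EE k) (dl k R), ‖es Lt s a (ch.X q)‖ ^ 2 ≤ C * ∑ j ∈ s, ‖a j‖ ^ 2

/-! ## The Gaussian majorant of thickness `1/T` and its Fourier transform -/

/-- the majorant -/
noncomputable def WW {d : ℕ} (om : EE d) (lam r T : ℝ) (xi : EE d) : ℝ :=
  Real.exp (-(pq om xi / r ^ 2) - T ^ 2 * (inner ℝ om xi - lam + pq om xi / (2 * lam)) ^ 2)

/-- the logarithm of the kernel without the factor `e^{i lam t}` -/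
noncomputable def FF {k : ℕ} (om : EE (k + 1)) (lam r T : ℝ) (x : EE (k + 1)) : ℂ :=
  -((inner ℝ om x ^ 2 / (4 * T ^ 2) : ℝ) : ℂ) -
    (k : ℂ) / 2 * Complex.log (AA lam r (inner ℝ om x)) -
    ((pq om x : ℝ) : ℂ) / (4 * AA lam r (inner ℝ om x))

/-- the Fourier transform of the majorant -/
noncomputable def Kf {k : ℕ} (om : EE (k + 1)) (lam r T : ℝ) (x : EE (k + 1)) : ℂ :=
  ((Real.sqrt Real.pi / T * Real.pi ^ ((k : ℝ) / 2) : ℝ) : ℂ) *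
    Complex.exp (Complex.I * ((lam * inner ℝ om x : ℝ) : ℂ)) * Complex.exp (FF om lam r T x)

/-- minus the real exponent -/
noncomputable def MM {d : ℕ} (om : EE d) (lam r T : ℝ) (x : EE d) : ℝ :=
  inner ℝ om x ^ 2 / (4 * T ^ 2) +
    pq om x * r ^ 2 / (4 + (inner ℝ om x * r ^ 2 / lam) ^ 2)

/-- slices adapted to `om` -/
structure Slice {m : ℕ} {c R : ℝ} {M : ℕ → ℝ} (ch : UChart (m + 1) c R M) (om : EE (m + 2)) (e : EE (m + 1))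
    (L : EE m →ₗᵢ[ℝ] EE (m + 1)) : Prop where
  om_one : ‖om‖ = 1
  e_one : ‖e‖ = 1
  eL : ∀ b, inner ℝ e (L b) = 0
  omL : ∀ b, inner ℝ om (ch.J (L b)) = 0

/-- the difference `x(b,b') = X(sg e + L b) - X(sg' e + L b') + zt` -/
noncomputable def xd {m : ℕ} {c R : ℝ} {M : ℕ → ℝ} (ch : UChart (m + 1) c R M) (e : EE (m + 1))
    (L : EE m →ₗᵢ[ℝ] EE (m + 1)) (zt : EE (m + 2)) (sg sg' : ℝ) (b b' : EE m) : EE (m + 2) :=
  ch.X (sl e L sg b) - ch.X (sl e L sg' b') + zt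

/-- the sliced kernel -/
noncomputable def ks {m : ℕ} {c R : ℝ} {M : ℕ → ℝ} (ch : UChart (m + 1) c R M) (om : EE (m + 2)) (lam r T : ℝ)
    (e : EE (m + 1)) (L : EE m →ₗᵢ[ℝ] EE (m + 1)) (zt : EE (m + 2)) (sg sg' : ℝ) (b b' : EE m) : ℂ :=
  Kf om lam r T (xd ch e L zt sg sg' b b')

/-- The counting hypothesis (CH) of the block estimate: between the slices `sg`, `sg'` (within `tau` of `sg0`) of the set
`E`, at every time `t ∈ [w³T, T/w]` and every width `w' ∈ [rt/lam, 1]` at most `t (phi1 + phi2 w')` lattice vectors. -/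
def CH {m : ℕ} {c R : ℝ} {M : ℕ → ℝ} (ch : UChart (m + 1) c R M) {A : ℝ} (Lt : Lat (m + 2) A) (om : EE (m + 2))
    (e : EE (m + 1)) (sg0 tau : ℝ) (E : Set (EE (m + 1))) (lam r w T phi1 phi2 : ℝ) : Prop :=
  ∀ (sg sg' : ℝ) (q : EE (m + 1)), |sg - sg0| ≤ tau → |sg' - sg0| ≤ tau → q ∈ E → ‖q‖ ≤ 2 * dl (m + 1) R →
    inner ℝ e q = sg → ∀ t w' : ℝ, 1 / A ≤ t → w ^ 3 * T ≤ t → t ≤ T / w → r * t / lam ≤ w' → w' ≤ 1 →
    ∀ Z : Finset (Fin (m + 2) → ℤ), (∀ z ∈ Z, t ≤ |inner ℝ om (Lt.du z)| ∧ |inner ℝ om (Lt.du z)| ≤ 2 * t ∧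
      ∃ q' ∈ E, ‖q'‖ ≤ 2 * dl (m + 1) R ∧ inner ℝ e q' = sg' ∧ pq om (ch.X q - ch.X q' + Lt.du z) ≤ w' ^ 2) →
    (Z.card : ℝ) ≤ t * (phi1 + phi2 * w')

end Pool.Agent.Lib.MP_a8dae7_an.UN
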