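import Pool.Agent.Lib.MP_a8dae7_an.UN.Defs

/-!
# MP_a8dae7_an, UN: definitions shared by SpecA and SpecZ
-/

set_option autoImplicit false

open MeasureTheory
open scoped ContDiff

namespace Pool.Agent.Lib.MP_a8dae7_an.UN

open Pool.Agent.Lib.MP_a8dae7_an.CV (EE zv ex pq pi2 AA sl bm)

/-- the family of kernels `K z`, `z ∈ Z`, is bounded by `B` in total, from functions on `F'` to functions on `F` -/
def OBF (m : ℕ) (F F' : Set (EE m)) {ι : Type} (Z : Finset ι) (K : ι → EE m → EE m → ℂ) (B : ℝ) : Prop :=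
  ∀ f g : EE m → ℂ, Measurable f → Measurable g → (∃ Q : ℝ, ∀ b, ‖f b‖ ≤ Q) → (∃ Q : ℝ, ∀ b, ‖g b‖ ≤ Q) →
    (∀ b, b ∉ F → f b = 0) → (∀ b, b ∉ F' → g b = 0) →
    ∑ z ∈ Z, ‖∫ b, ∫ b', K z b b' * (f b * g b')‖ ≤
      B * (Real.sqrt (∫ b, ‖f b‖ ^ 2) * Real.sqrt (∫ b, ‖g b‖ ^ 2))

/-- the part of the slice `sg` in `E` -/
def fib (m : ℕ) (R : ℝ) (e : EE (m + 1)) (L : EE m →ₗᵢ[ℝ] EE (m + 1)) (E : Set (EE (m + 1))) (sg : ℝ) :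
    Set (EE m) := {b | ‖b‖ ≤ R ∧ ‖sl e L sg b‖ ≤ R ∧ sl e L sg b ∈ E}

end Pool.Agent.Lib.MP_a8dae7_an.UN
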