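import Mathlib

/-!
# Block integration by parts (MP_a8dae7_an, UN, helper67)

For families of phases `φ n n'` the bilinear form `∑ x_n conj(y_n') ∫ a e^{iφ}` with a smooth amplitude `a`
supported in a compact set `Z` is estimated by repeated integration by parts along a vector field `w` with
`Dφ(n,n')·w = 1 + ∑ h_l f_l(n) g_l(n') + ∑ h'_l f'_l(n) g'_l(n')`.  Multipliers `f_l(n) g_l(n')` of modulus at
most `1` do not increase the norm of a bilinear form, so no expansion is needed.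
-/

set_option autoImplicit false

open MeasureTheory
open scoped ContDiff Topology

namespace Pool.Agent.Lib.MP_a8dae7_an.UN.IBP0M

/-- Euclidean space -/
abbrev E (k : ℕ) : Type := EuclideanSpace ℝ (Fin k)

/-- the class of amplitudes of scale `sig` supported in `Z` -/
structure Am {k : ℕ} (N : ℕ) (sig : ℝ) (Z : Set (E k)) (A : ℝ) (a : E k → ℂ) : Prop where
  smooth : ContDiff ℝ ∞ a
  supp : ∀ q, q ∉ Z → a q = 0
  bd : ∀ j ≤ N, ∀ q, ‖iteratedFDeriv ℝ j a q‖ * sig ^ j ≤ A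

theorem eq_zero_near {k : ℕ} {F : Type*} [NormedAddCommGroup F] [NormedSpace ℝ F] {Z : Set (E k)}
    (hZ : IsClosed Z) {a : E k → F} (ha : ∀ q, q ∉ Z → a q = 0)
    {q : E k} (hq : q ∉ Z) : a =ᶠ[𝓝 q] fun _ => 0 := by
  filter_upwards [hZ.isOpen_compl.mem_nhds hq] with p hp
  exact ha p hp

theorem iter_zero {k : ℕ} {F : Type*} [NormedAddCommGroup F] [NormedSpace ℝ F] {Z : Set (E k)}
    (hZ : IsClosed Z) {a : E k → F} (ha : ∀ q, q ∉ Z → a q = 0)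
    {q : E k} (hq : q ∉ Z) (j : ℕ) : iteratedFDeriv ℝ j a q = 0 := by
  rw [((eq_zero_near hZ ha hq).iteratedFDeriv ℝ j).eq_of_nhds]
  simp

/-- Leibniz at one point -/
theorem leib {k : ℕ} (N : ℕ) {sig A B : ℝ} (hsig : 0 < sig) {a b : E k → ℂ} (ha : ContDiff ℝ ∞ a)
    (hb : ContDiff ℝ ∞ b) (q : E k)
    (h1 : ∀ j ≤ N, ‖iteratedFDeriv ℝ j a q‖ * sig ^ j ≤ A)
    (h2 : ∀ j ≤ N, ‖iteratedFDeriv ℝ j b q‖ * sig ^ j ≤ B) (j : ℕ) (hj : j ≤ N) :
    ‖iteratedFDeriv ℝ j (fun q => a q * b q) q‖ * sig ^ j ≤ 2 ^ N * A * B := by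
  have hA : 0 ≤ A := le_trans (by positivity) (h1 0 (Nat.zero_le _))
  have hB : 0 ≤ B := le_trans (by positivity) (h2 0 (Nat.zero_le _))
  have h := norm_iteratedFDeriv_mul_le (𝕜 := ℝ) ha hb q (n := j) (by exact_mod_cast le_top)
  calc ‖iteratedFDeriv ℝ j (fun q => a q * b q) q‖ * sig ^ j
      ≤ (∑ i ∈ Finset.range (j + 1), (j.choose i : ℝ) * ‖iteratedFDeriv ℝ i a q‖ *
        ‖iteratedFDeriv ℝ (j - i) b q‖) * sig ^ j := by gcongr
    _ = ∑ i ∈ Finset.range (j + 1), (j.choose i : ℝ) * ((‖iteratedFDeriv ℝ i a q‖ * sig ^ i) *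
        (‖iteratedFDeriv ℝ (j - i) b q‖ * sig ^ (j - i))) := by
        rw [Finset.sum_mul]
        refine Finset.sum_congr rfl fun i hi => ?_
        have h3 : sig ^ j = sig ^ i * sig ^ (j - i) := by
          rw [← pow_add]
          congr 1
          have := Finset.mem_range.1 hi
          omega
        rw [h3]
        ring
    _ ≤ ∑ i ∈ Finset.range (j + 1), (j.choose i : ℝ) * (A * B) := by
        refine Finset.sum_le_sum fun i hi => ?_
        have hi' := Finset.mem_range.1 hi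
        have h3 := h1 i (by omega)
        have h4 := h2 (j - i) (by omega)
        gcongr
    _ = 2 ^ j * (A * B) := by
        rw [← Finset.sum_mul]
        congr 1
        exact_mod_cast Nat.sum_range_choose j
    _ ≤ 2 ^ N * (A * B) := by
        gcongr
        norm_num
    _ = 2 ^ N * A * B := by ring

theorem am_mul {k N : ℕ} {sig A κ : ℝ} {Z : Set (E k)} (hZ : IsClosed Z) (hsig : 0 < sig) (hκ : 0 ≤ κ)
    {a h : E k → ℂ} (ha : Am N sig Z A a) (hh : ContDiff ℝ ∞ h)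
    (hb : ∀ j ≤ N, ∀ q ∈ Z, ‖iteratedFDeriv ℝ j h q‖ * sig ^ j ≤ κ) :
    Am N sig Z (2 ^ N * κ * A) (fun q => h q * a q) := by
  have hs : ∀ q, q ∉ Z → h q * a q = 0 := fun q hq => by rw [ha.supp q hq, mul_zero]
  refine ⟨hh.mul ha.smooth, hs, ?_⟩
  intro j hj q
  by_cases hq : q ∈ Z
  · exact leib N hsig hh ha.smooth q (fun i hi => hb i hi q hq) (fun i hi => ha.bd i hi q) j hj
  · rw [iter_zero hZ hs hq]
    have hA : 0 ≤ A := le_trans (by positivity) (ha.bd 0 (Nat.zero_le _) q)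
    simp only [norm_zero, zero_mul]
    positivity

theorem Am.mono {k N N' : ℕ} {sig A A' : ℝ} {Z : Set (E k)} {a : E k → ℂ} (ha : Am N sig Z A a)
    (hN : N' ≤ N) (hA : A ≤ A') : Am N' sig Z A' a :=
  ⟨ha.smooth, ha.supp, fun j hj q => (ha.bd j (hj.trans hN) q).trans hA⟩

/-- the divergence of `a w`, times `i` -/
noncomputable def dv {k : ℕ} (a : E k → ℂ) (w : E k → E k) (q : E k) : ℂ :=
  Complex.I * ∑ i : Fin k, fderiv ℝ (fun p => a p * ((w p i : ℝ) : ℂ)) q (EuclideanSpace.single i 1)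

theorem wi_smooth {k : ℕ} {w : E k → E k} (hw : ContDiff ℝ ∞ w) (i : Fin k) :
    ContDiff ℝ ∞ (fun p => ((w p i : ℝ) : ℂ)) := by
  have h1 : ContDiff ℝ ∞ (fun p => w p i) :=
    (EuclideanSpace.proj (𝕜 := ℝ) i : E k →L[ℝ] ℝ).contDiff.comp hw
  exact Complex.ofRealCLM.contDiff.comp h1

theorem wi_bd {k : ℕ} {w : E k → E k} (hw : ContDiff ℝ ∞ w) (i : Fin k) (j : ℕ) (q : E k) :
    ‖iteratedFDeriv ℝ j (fun p => ((w p i : ℝ) : ℂ)) q‖ ≤ ‖iteratedFDeriv ℝ j w q‖ := by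
  set L : E k →L[ℝ] ℂ := Complex.ofRealCLM.comp (EuclideanSpace.proj (𝕜 := ℝ) i : E k →L[ℝ] ℝ) with hL
  have h1 : ‖L‖ ≤ 1 := by
    refine ContinuousLinearMap.opNorm_le_bound _ zero_le_one fun x => ?_
    rw [one_mul, hL]
    show ‖((x i : ℝ) : ℂ)‖ ≤ ‖x‖
    rw [Complex.norm_real]
    exact PiLp.norm_apply_le x i
  have h2 : (fun p => ((w p i : ℝ) : ℂ)) = L ∘ w := rfl
  rw [h2]
  calc ‖iteratedFDeriv ℝ j (L ∘ w) q‖ ≤ ‖L‖ * ‖iteratedFDeriv ℝ j w q‖ :=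
        L.norm_iteratedFDeriv_comp_left hw.contDiffAt (by exact_mod_cast le_top)
    _ ≤ 1 * ‖iteratedFDeriv ℝ j w q‖ := by gcongr
    _ = _ := one_mul _

theorem term_smooth {k : ℕ} {F : E k → ℂ} (hF : ContDiff ℝ ∞ F) (v : E k) :
    ContDiff ℝ ∞ (fun q => fderiv ℝ F q v) :=
  (hF.fderiv_right (by exact_mod_cast le_top)).clm_apply contDiff_const

theorem term_bd {k : ℕ} {F : E k → ℂ} (hF : ContDiff ℝ ∞ F) (v : E k) (hv : ‖v‖ ≤ 1) (j : ℕ) (q : E k) :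
    ‖iteratedFDeriv ℝ j (fun q => fderiv ℝ F q v) q‖ ≤ ‖iteratedFDeriv ℝ (j + 1) F q‖ := by
  set L : (E k →L[ℝ] ℂ) →L[ℝ] ℂ := ContinuousLinearMap.apply ℝ ℂ v with hL
  have h1 : ‖L‖ ≤ 1 := by
    refine ContinuousLinearMap.opNorm_le_bound _ zero_le_one fun T => ?_
    rw [one_mul]
    calc ‖T v‖ ≤ ‖T‖ * ‖v‖ := T.le_opNorm v
      _ ≤ ‖T‖ * 1 := by gcongr
      _ = ‖T‖ := mul_one _
  have h2 : (fun q => fderiv ℝ F q v) = L ∘ (fderiv ℝ F) := rfl
  have h3 : ContDiff ℝ ∞ (fderiv ℝ F) := hF.fderiv_right (by exact_mod_cast le_top)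
  rw [h2]
  calc ‖iteratedFDeriv ℝ j (L ∘ fderiv ℝ F) q‖ ≤ ‖L‖ * ‖iteratedFDeriv ℝ j (fderiv ℝ F) q‖ :=
        L.norm_iteratedFDeriv_comp_left h3.contDiffAt (by exact_mod_cast le_top)
    _ ≤ 1 * ‖iteratedFDeriv ℝ j (fderiv ℝ F) q‖ := by gcongr
    _ = ‖iteratedFDeriv ℝ (j + 1) F q‖ := by rw [one_mul, norm_iteratedFDeriv_fderiv]

theorem am_dv {k N : ℕ} {sig A γ : ℝ} {Z : Set (E k)} (hZ : IsClosed Z) (hsig : 0 < sig) (hγ : 0 ≤ γ)
    {a : E k → ℂ} {w : E k → E k} (ha : Am (N + 1) sig Z A a) (hw : ContDiff ℝ ∞ w)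
    (hb : ∀ j ≤ N + 1, ∀ q ∈ Z, ‖iteratedFDeriv ℝ j w q‖ * sig ^ j ≤ γ) :
    Am N sig Z (k * 2 ^ (N + 1) * (γ / sig) * A) (dv a w) := by
  have hF : ∀ i : Fin k, ContDiff ℝ ∞ (fun p => a p * ((w p i : ℝ) : ℂ)) :=
    fun i => ha.smooth.mul (wi_smooth hw i)
  have hF0 : ∀ i : Fin k, ∀ q, q ∉ Z → a q * ((w q i : ℝ) : ℂ) = 0 :=
    fun i q hq => by rw [ha.supp q hq, zero_mul]
  have hs : ∀ q, q ∉ Z → dv a w q = 0 := by
    intro q hq
    unfold dv
    have h1 : ∀ i : Fin k, fderiv ℝ (fun p => a p * ((w p i : ℝ) : ℂ)) q (EuclideanSpace.single i 1) = 0 := by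
      intro i
      rw [(eq_zero_near hZ (hF0 i) hq).fderiv_eq]
      simp
    rw [Finset.sum_eq_zero fun i _ => h1 i, mul_zero]
  have hsm : ContDiff ℝ ∞ (dv a w) := by
    unfold dv
    exact contDiff_const.mul (ContDiff.sum fun i _ => term_smooth (hF i) _)
  refine ⟨hsm, hs, ?_⟩
  intro j hj q
  by_cases hq : q ∈ Z
  · have hA : 0 ≤ A := le_trans (by positivity) (ha.bd 0 (Nat.zero_le _) q)
    have h1 : ∀ i : Fin k, ‖iteratedFDeriv ℝ j (fun q => fderiv ℝ (fun p => a p * ((w p i : ℝ) : ℂ)) q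
        (EuclideanSpace.single i 1)) q‖ * sig ^ j ≤ 2 ^ (N + 1) * A * γ / sig := by
      intro i
      have h2 := term_bd (hF i) (EuclideanSpace.single i (1 : ℝ)) (by simp) j q
      have h3 := leib (N + 1) hsig ha.smooth (wi_smooth hw i) q (fun l hl => ha.bd l hl q)
        (B := γ) (fun l hl => le_trans (mul_le_mul_of_nonneg_right (wi_bd hw i l q) (by positivity)) (hb l hl q hq))
        (j + 1) (by omega)
      rw [le_div_iff₀ hsig, mul_assoc, ← pow_succ]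
      exact (mul_le_mul_of_nonneg_right h2 (by positivity)).trans h3
    have h4 : iteratedFDeriv ℝ j (dv a w) q = Complex.I • ∑ i : Fin k, iteratedFDeriv ℝ j
        (fun q => fderiv ℝ (fun p => a p * ((w p i : ℝ) : ℂ)) q (EuclideanSpace.single i 1)) q := by
      have h5 : dv a w = Complex.I • (fun q => ∑ i : Fin k, fderiv ℝ (fun p => a p * ((w p i : ℝ) : ℂ)) q
          (EuclideanSpace.single i 1)) := by
        funext p
        simp [dv]
      rw [h5, iteratedFDeriv_const_smul_apply]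
      · congr 1
        refine iteratedFDeriv_fun_sum_apply fun i _ => ?_
        exact ((term_smooth (hF i) _).of_le (by exact_mod_cast le_top)).contDiffAt
      · exact (ContDiff.sum fun i _ => term_smooth (hF i) _).contDiffAt.of_le (by exact_mod_cast le_top)
    rw [h4, norm_smul, Complex.norm_I, one_mul]
    calc ‖∑ i : Fin k, iteratedFDeriv ℝ j (fun q => fderiv ℝ (fun p => a p * ((w p i : ℝ) : ℂ)) q
          (EuclideanSpace.single i 1)) q‖ * sig ^ j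
        ≤ (∑ i : Fin k, ‖iteratedFDeriv ℝ j (fun q => fderiv ℝ (fun p => a p * ((w p i : ℝ) : ℂ)) q
          (EuclideanSpace.single i 1)) q‖) * sig ^ j := by gcongr; exact norm_sum_le _ _
      _ ≤ ∑ _i : Fin k, 2 ^ (N + 1) * A * γ / sig := by
          rw [Finset.sum_mul]
          exact Finset.sum_le_sum fun i _ => h1 i
      _ = k * 2 ^ (N + 1) * (γ / sig) * A := by
          rw [Finset.sum_const, Finset.card_univ, Fintype.card_fin, nsmul_eq_mul]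
          ring
  · rw [iter_zero hZ hs hq]
    have hA : 0 ≤ A := le_trans (by positivity) (ha.bd 0 (Nat.zero_le _) q)
    simp only [norm_zero, zero_mul]
    positivity

/-- the bilinear form -/
noncomputable def BF {k : ℕ} {ι ι' : Type*} (s : Finset ι) (s' : Finset ι') (φ : ι → ι' → E k → ℝ)
    (a : E k → ℂ) (x : ι → ℂ) (y : ι' → ℂ) : ℂ :=
  ∑ n ∈ s, ∑ n' ∈ s', x n * (starRingEnd ℂ) (y n') * ∫ q, a q * Complex.exp (Complex.I * ((φ n n' q : ℝ) : ℂ))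

/-- the bilinear forms of the class `Am N sig Z 1` are bounded by `B` -/
def PB {k : ℕ} {ι ι' : Type*} (s : Finset ι) (s' : Finset ι') (φ : ι → ι' → E k → ℝ) (N : ℕ) (sig : ℝ)
    (Z : Set (E k)) (B : ℝ) : Prop :=
  ∀ (a : E k → ℂ) (A : ℝ), Am N sig Z A a → ∀ (x : ι → ℂ) (y : ι' → ℂ),
    ‖BF s s' φ a x y‖ ≤ A * B * (Real.sqrt (∑ n ∈ s, ‖x n‖ ^ 2) * Real.sqrt (∑ n ∈ s', ‖y n‖ ^ 2))

/-- integration by parts for one pair -/
theorem ibp_one {k : ℕ} {Z : Set (E k)} (hZ : IsCompact Z) {a : E k → ℂ} {w : E k → E k} {ph : E k → ℝ}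
    (ha : ContDiff ℝ ∞ a) (ha0 : ∀ q, q ∉ Z → a q = 0) (hw : ContDiff ℝ ∞ w) (hph : ContDiff ℝ ∞ ph) :
    ∫ q, a q * ((fderiv ℝ ph q (w q) : ℝ) : ℂ) * Complex.exp (Complex.I * ((ph q : ℝ) : ℂ)) =
      ∫ q, dv a w q * Complex.exp (Complex.I * ((ph q : ℝ) : ℂ)) := by
  set g : E k → ℂ := fun q => Complex.exp (Complex.I * ((ph q : ℝ) : ℂ)) with hg
  have hgs : ContDiff ℝ ∞ g :=
    (contDiff_const.mul (Complex.ofRealCLM.contDiff.comp hph)).cexp
  have hgd : ∀ q v, fderiv ℝ g q v = Complex.I * ((fderiv ℝ ph q v : ℝ) : ℂ) * g q := by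
    intro q v
    have h1 : HasFDerivAt ph (fderiv ℝ ph q) q := (hph.differentiable (by simp)).differentiableAt.hasFDerivAt
    have h2 : HasFDerivAt (fun q => ((ph q : ℝ) : ℂ)) (Complex.ofRealCLM.comp (fderiv ℝ ph q)) q :=
      Complex.ofRealCLM.hasFDerivAt.comp q h1
    have h3 := (h2.const_mul Complex.I).cexp
    rw [h3.fderiv]
    simp only [smul_apply, ContinuousLinearMap.comp_apply, smul_eq_mul,
      Complex.ofRealCLM_apply, hg]
    ring
  have hcs : ∀ F : E k → ℂ, (∀ q, q ∉ Z → F q = 0) → HasCompactSupport F :=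
    fun F hF => HasCompactSupport.intro hZ hF
  have hF : ∀ i : Fin k, ContDiff ℝ ∞ (fun p => a p * ((w p i : ℝ) : ℂ)) :=
    fun i => ha.mul (wi_smooth hw i)
  have hFc : ∀ i : Fin k, HasCompactSupport (fun p => a p * ((w p i : ℝ) : ℂ)) :=
    fun i => hcs _ fun q hq => by rw [ha0 q hq, zero_mul]
  have hFd : ∀ i : Fin k, Continuous (fun q => fderiv ℝ (fun p => a p * ((w p i : ℝ) : ℂ)) q
      (EuclideanSpace.single i 1)) := fun i => (term_smooth (hF i) _).continuous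
  have hgdc : ∀ i : Fin k, Continuous (fun q => fderiv ℝ g q (EuclideanSpace.single i 1)) :=
    fun i => (term_smooth hgs _).continuous
  have hFdc : ∀ i : Fin k, HasCompactSupport (fun q => fderiv ℝ (fun p => a p * ((w p i : ℝ) : ℂ)) q
      (EuclideanSpace.single i 1)) := by
    intro i
    refine hcs _ fun q hq => ?_
    rw [(eq_zero_near hZ.isClosed (a := fun p => a p * ((w p i : ℝ) : ℂ))
      (fun q hq => by rw [ha0 q hq, zero_mul]) hq).fderiv_eq]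
    simp
  have hi1 : ∀ i : Fin k, Integrable (fun q => fderiv ℝ (fun p => a p * ((w p i : ℝ) : ℂ)) q
      (EuclideanSpace.single i 1) * g q) := fun i =>
    ((hFd i).mul hgs.continuous).integrable_of_hasCompactSupport (hFdc i).mul_right
  have hi2 : ∀ i : Fin k, Integrable (fun q => (a q * ((w q i : ℝ) : ℂ)) *
      fderiv ℝ g q (EuclideanSpace.single i 1)) := fun i =>
    ((hF i).continuous.mul (hgdc i)).integrable_of_hasCompactSupport (hFc i).mul_right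
  have hi3 : ∀ i : Fin k, Integrable (fun q => (a q * ((w q i : ℝ) : ℂ)) * g q) := fun i =>
    ((hF i).continuous.mul hgs.continuous).integrable_of_hasCompactSupport (hFc i).mul_right
  have key : ∀ i : Fin k, ∫ q, (a q * ((w q i : ℝ) : ℂ)) * fderiv ℝ g q (EuclideanSpace.single i 1) =
      - ∫ q, fderiv ℝ (fun p => a p * ((w p i : ℝ) : ℂ)) q (EuclideanSpace.single i 1) * g q := fun i =>
    integral_mul_fderiv_eq_neg_fderiv_mul_of_integrable (hi1 i) (hi2 i) (hi3 i)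
      (fun x _ => ((hF i).differentiable (by simp)).differentiableAt)
      (fun x _ => (hgs.differentiable (by simp)).differentiableAt)
  have e1 : ∀ q, a q * ((fderiv ℝ ph q (w q) : ℝ) : ℂ) * g q =
      ∑ i : Fin k, (-Complex.I) * ((a q * ((w q i : ℝ) : ℂ)) * fderiv ℝ g q (EuclideanSpace.single i 1)) := by
    intro q
    have h1 : fderiv ℝ ph q (w q) = ∑ i : Fin k, w q i * fderiv ℝ ph q (EuclideanSpace.single i 1) := by
      conv_lhs => rw [← (EuclideanSpace.basisFun (Fin k) ℝ).sum_repr (w q)]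
      rw [map_sum]
      refine Finset.sum_congr rfl fun i _ => ?_
      rw [map_smul, smul_eq_mul]
      simp
    rw [h1]
    push_cast
    rw [Finset.mul_sum, Finset.sum_mul]
    refine Finset.sum_congr rfl fun i _ => ?_
    rw [hgd]
    linear_combination (a q * ((w q i : ℝ) : ℂ) * ((fderiv ℝ ph q (EuclideanSpace.single i 1) : ℝ) : ℂ) * g q) *
      Complex.I_mul_I
  have e2 : ∀ q, dv a w q * g q = ∑ i : Fin k, Complex.I *
      (fderiv ℝ (fun p => a p * ((w p i : ℝ) : ℂ)) q (EuclideanSpace.single i 1) * g q) := by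
    intro q
    rw [dv, Finset.mul_sum, Finset.sum_mul]
    exact Finset.sum_congr rfl fun i _ => by ring
  rw [integral_congr_ae (Filter.Eventually.of_forall e1), integral_congr_ae (Filter.Eventually.of_forall e2),
    integral_finsetSum _ fun i _ => (hi2 i).const_mul _, integral_finsetSum _ fun i _ => (hi1 i).const_mul _]
  refine Finset.sum_congr rfl fun i _ => ?_
  rw [integral_const_mul, integral_const_mul, key i]
  ring

theorem PB.mono {k : ℕ} {ι ι' : Type*} {s : Finset ι} {s' : Finset ι'} {φ : ι → ι' → E k → ℝ} {N N' : ℕ}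
    {sig : ℝ} {Z : Set (E k)} {B B' : ℝ} (hN : N ≤ N') (hB : B ≤ B') (h : PB s s' φ N sig Z B) :
    PB s s' φ N' sig Z B' := by
  intro a A ha x y
  have hA : 0 ≤ A := le_trans (by positivity) (ha.bd 0 (Nat.zero_le _) 0)
  refine (h a A (ha.mono hN le_rfl) x y).trans ?_
  gcongr

theorem sqrt_mult {ι : Type*} (s : Finset ι) (f : ι → ℝ) (hf : ∀ n ∈ s, |f n| ≤ 1) (x : ι → ℂ) :
    Real.sqrt (∑ n ∈ s, ‖((f n : ℝ) : ℂ) * x n‖ ^ 2) ≤ Real.sqrt (∑ n ∈ s, ‖x n‖ ^ 2) := by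
  apply Real.sqrt_le_sqrt
  refine Finset.sum_le_sum fun n hn => ?_
  rw [norm_mul, Complex.norm_real, Real.norm_eq_abs]
  have h1 := hf n hn
  have h2 : |f n| * ‖x n‖ ≤ 1 * ‖x n‖ := by gcongr
  rw [one_mul] at h2
  gcongr

/-- the data of a family of phases with a vector field -/
structure Dat {k : ℕ} {ι ι' : Type*} (L1 L2 N : ℕ) (s : Finset ι) (s' : Finset ι') (φ : ι → ι' → E k → ℝ)
    (Z : Set (E k)) (sig γ c0 κ : ℝ) (w : E k → E k) (h1 : Fin L1 → E k → ℝ) (f1 : Fin L1 → ι → ℝ)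
    (g1 : Fin L1 → ι' → ℝ) (h2 : Fin L2 → E k → ℝ) (f2 : Fin L2 → ι → ℝ) (g2 : Fin L2 → ι' → ℝ) : Prop where
  phs : ∀ n n', ContDiff ℝ ∞ (φ n n')
  ws : ContDiff ℝ ∞ w
  h1s : ∀ l, ContDiff ℝ ∞ (h1 l)
  h2s : ∀ l, ContDiff ℝ ∞ (h2 l)
  wb : ∀ j ≤ N, ∀ q ∈ Z, ‖iteratedFDeriv ℝ j w q‖ * sig ^ j ≤ γ
  h1b : ∀ l, ∀ j ≤ N, ∀ q ∈ Z, ‖iteratedFDeriv ℝ j (h1 l) q‖ * sig ^ j ≤ c0
  h2b : ∀ l, ∀ j ≤ N, ∀ q ∈ Z, ‖iteratedFDeriv ℝ j (h2 l) q‖ * sig ^ j ≤ κ
  f1b : ∀ l, ∀ n ∈ s, |f1 l n| ≤ 1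
  f2b : ∀ l, ∀ n ∈ s, |f2 l n| ≤ 1
  g1b : ∀ l, ∀ n ∈ s', |g1 l n| ≤ 1
  g2b : ∀ l, ∀ n ∈ s', |g2 l n| ≤ 1
  id : ∀ q ∈ Z, ∀ n ∈ s, ∀ n' ∈ s', fderiv ℝ (φ n n') q (w q) =
    1 + (∑ l, h1 l q * (f1 l n * g1 l n')) + ∑ l, h2 l q * (f2 l n * g2 l n')

theorem ofReal_bd {k : ℕ} {h : E k → ℝ} (hh : ContDiff ℝ ∞ h) (j : ℕ) (q : E k) :
    ‖iteratedFDeriv ℝ j (fun p => ((h p : ℝ) : ℂ)) q‖ ≤ ‖iteratedFDeriv ℝ j h q‖ := by
  have h1 : ‖Complex.ofRealCLM‖ ≤ 1 := by simp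
  have h2 : (fun p => ((h p : ℝ) : ℂ)) = Complex.ofRealCLM ∘ h := rfl
  rw [h2]
  calc ‖iteratedFDeriv ℝ j (Complex.ofRealCLM ∘ h) q‖ ≤ ‖Complex.ofRealCLM‖ * ‖iteratedFDeriv ℝ j h q‖ :=
        Complex.ofRealCLM.norm_iteratedFDeriv_comp_left hh.contDiffAt (by exact_mod_cast le_top)
    _ ≤ 1 * ‖iteratedFDeriv ℝ j h q‖ := by gcongr
    _ = _ := one_mul _

theorem am_mulr {k N : ℕ} {sig A κ : ℝ} {Z : Set (E k)} (hZ : IsClosed Z) (hsig : 0 < sig) (hκ : 0 ≤ κ)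
    {a : E k → ℂ} {h : E k → ℝ} (ha : Am N sig Z A a) (hh : ContDiff ℝ ∞ h)
    (hb : ∀ j ≤ N, ∀ q ∈ Z, ‖iteratedFDeriv ℝ j h q‖ * sig ^ j ≤ κ) :
    Am N sig Z (2 ^ N * κ * A) (fun q => ((h q : ℝ) : ℂ) * a q) :=
  am_mul hZ hsig hκ ha (Complex.ofRealCLM.contDiff.comp hh) fun j hj q hq =>
    (mul_le_mul_of_nonneg_right (ofReal_bd hh j q) (by positivity)).trans (hb j hj q hq)

theorem int3add {k : ℕ} {F G H : E k → ℂ} (hF : Integrable F) (hG : Integrable G) (hH : Integrable H) :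
    ∫ q, (F q + G q + H q) = (∫ q, F q) + (∫ q, G q) + ∫ q, H q := by
  rw [integral_add (f := fun q => F q + G q) (hF.add hG) hH, integral_add hF hG]

/-- the identity behind the lemma -/
theorem bf_id {k L1 L2 N : ℕ} {ι ι' : Type*} {s : Finset ι} {s' : Finset ι'} {φ : ι → ι' → E k → ℝ}
    {Z : Set (E k)} {sig γ c0 κ : ℝ} {w : E k → E k} {h1 : Fin L1 → E k → ℝ} {f1 : Fin L1 → ι → ℝ}
    {g1 : Fin L1 → ι' → ℝ} {h2 : Fin L2 → E k → ℝ} {f2 : Fin L2 → ι → ℝ} {g2 : Fin L2 → ι' → ℝ}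
    (D : Dat L1 L2 N s s' φ Z sig γ c0 κ w h1 f1 g1 h2 f2 g2) (hZ : IsCompact Z) {a : E k → ℂ}
    (ha : ContDiff ℝ ∞ a) (ha0 : ∀ q, q ∉ Z → a q = 0) (x : ι → ℂ) (y : ι' → ℂ) :
    BF s s' φ a x y = BF s s' φ (dv a w) x y -
      (∑ l, BF s s' φ (fun q => ((h1 l q : ℝ) : ℂ) * a q) (fun n => ((f1 l n : ℝ) : ℂ) * x n)
        (fun n => ((g1 l n : ℝ) : ℂ) * y n)) -
      ∑ l, BF s s' φ (fun q => ((h2 l q : ℝ) : ℂ) * a q) (fun n => ((f2 l n : ℝ) : ℂ) * x n)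
        (fun n => ((g2 l n : ℝ) : ℂ) * y n) := by
  have key : ∀ n ∈ s, ∀ n' ∈ s', ∫ q, a q * Complex.exp (Complex.I * ((φ n n' q : ℝ) : ℂ)) =
      (∫ q, dv a w q * Complex.exp (Complex.I * ((φ n n' q : ℝ) : ℂ))) -
      (∑ l, ((f1 l n : ℝ) : ℂ) * ((g1 l n' : ℝ) : ℂ) * ∫ q, ((h1 l q : ℝ) : ℂ) * a q *
        Complex.exp (Complex.I * ((φ n n' q : ℝ) : ℂ))) -
      ∑ l, ((f2 l n : ℝ) : ℂ) * ((g2 l n' : ℝ) : ℂ) * ∫ q, ((h2 l q : ℝ) : ℂ) * a q *
        Complex.exp (Complex.I * ((φ n n' q : ℝ) : ℂ)) := by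
    intro n hn n' hn'
    have hg : Continuous (fun q => Complex.exp (Complex.I * ((φ n n' q : ℝ) : ℂ))) :=
      (continuous_const.mul (Complex.continuous_ofReal.comp (D.phs n n').continuous)).cexp
    have hi : ∀ F : E k → ℂ, Continuous F → (∀ q, q ∉ Z → F q = 0) →
        Integrable (fun q => F q * Complex.exp (Complex.I * ((φ n n' q : ℝ) : ℂ))) := fun F hF hF0 =>
      (hF.mul hg).integrable_of_hasCompactSupport (HasCompactSupport.intro hZ hF0).mul_right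
    rw [← ibp_one hZ ha ha0 D.ws (D.phs n n')]
    have e1 : ∀ q, a q * ((fderiv ℝ (φ n n') q (w q) : ℝ) : ℂ) * Complex.exp (Complex.I * ((φ n n' q : ℝ) : ℂ)) =
        a q * Complex.exp (Complex.I * ((φ n n' q : ℝ) : ℂ)) +
        (∑ l, ((f1 l n : ℝ) : ℂ) * ((g1 l n' : ℝ) : ℂ) * (((h1 l q : ℝ) : ℂ) * a q *
          Complex.exp (Complex.I * ((φ n n' q : ℝ) : ℂ)))) +
        ∑ l, ((f2 l n : ℝ) : ℂ) * ((g2 l n' : ℝ) : ℂ) * (((h2 l q : ℝ) : ℂ) * a q *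
          Complex.exp (Complex.I * ((φ n n' q : ℝ) : ℂ))) := by
      intro q
      by_cases hq : q ∈ Z
      · rw [D.id q hq n hn n' hn']
        push_cast
        rw [mul_add, mul_add, add_mul, add_mul, mul_one, Finset.mul_sum, Finset.mul_sum, Finset.sum_mul,
          Finset.sum_mul]
        congr 1
        · congr 1
          exact Finset.sum_congr rfl fun l _ => by ring
        · exact Finset.sum_congr rfl fun l _ => by ring
      · rw [ha0 q hq]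
        simp
    rw [integral_congr_ae (Filter.Eventually.of_forall e1)]
    have hi1 : ∀ l, Integrable (fun q => ((f1 l n : ℝ) : ℂ) * ((g1 l n' : ℝ) : ℂ) * (((h1 l q : ℝ) : ℂ) * a q *
          Complex.exp (Complex.I * ((φ n n' q : ℝ) : ℂ)))) := fun l =>
      (hi (fun q => ((h1 l q : ℝ) : ℂ) * a q)
        ((Complex.continuous_ofReal.comp (D.h1s l).continuous).mul ha.continuous)
        (fun q hq => by rw [ha0 q hq, mul_zero])).const_mul _
    have hi2 : ∀ l, Integrable (fun q => ((f2 l n : ℝ) : ℂ) * ((g2 l n' : ℝ) : ℂ) * (((h2 l q : ℝ) : ℂ) * a q *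
          Complex.exp (Complex.I * ((φ n n' q : ℝ) : ℂ)))) := fun l =>
      (hi (fun q => ((h2 l q : ℝ) : ℂ) * a q)
        ((Complex.continuous_ofReal.comp (D.h2s l).continuous).mul ha.continuous)
        (fun q hq => by rw [ha0 q hq, mul_zero])).const_mul _
    have hi0 := hi a ha.continuous ha0
    have hs1 := integrable_finsetSum Finset.univ fun l _ => hi1 l
    have hs2 := integrable_finsetSum Finset.univ fun l _ => hi2 l
    rw [int3add hi0 hs1 hs2, integral_finsetSum _ fun l _ => hi1 l, integral_finsetSum _ fun l _ => hi2 l]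
    simp only [integral_const_mul]
    ring
  unfold BF
  rw [Finset.sum_comm' (s := Finset.univ) (t := fun _ : Fin L1 => s) (t' := s) (s' := fun _ => Finset.univ)
    (by simp)]
  rw [Finset.sum_comm' (s := Finset.univ) (t := fun _ : Fin L2 => s) (t' := s) (s' := fun _ => Finset.univ)
    (by simp)]
  rw [← Finset.sum_sub_distrib, ← Finset.sum_sub_distrib]
  refine Finset.sum_congr rfl fun n hn => ?_
  rw [Finset.sum_comm, Finset.sum_comm (s := (Finset.univ : Finset (Fin L2)))]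
  rw [← Finset.sum_sub_distrib, ← Finset.sum_sub_distrib]
  refine Finset.sum_congr rfl fun n' hn' => ?_
  rw [key n hn n' hn', mul_sub, mul_sub, Finset.mul_sum, Finset.mul_sum]
  congr 1
  · congr 1
    refine Finset.sum_congr rfl fun l _ => ?_
    rw [map_mul, Complex.conj_ofReal]
    ring
  · refine Finset.sum_congr rfl fun l _ => ?_
    rw [map_mul, Complex.conj_ofReal]
    ring

theorem bf_mult {k : ℕ} {ι ι' : Type*} {s : Finset ι} {s' : Finset ι'} {φ : ι → ι' → E k → ℝ} {N : ℕ}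
    {sig : ℝ} {Z : Set (E k)} {B : ℝ} (hB : 0 ≤ B) (h : PB s s' φ N sig Z B) {a : E k → ℂ} {A : ℝ}
    (ha : Am N sig Z A a) (f : ι → ℝ) (g : ι' → ℝ) (hf : ∀ n ∈ s, |f n| ≤ 1) (hg : ∀ n ∈ s', |g n| ≤ 1)
    (x : ι → ℂ) (y : ι' → ℂ) :
    ‖BF s s' φ a (fun n => ((f n : ℝ) : ℂ) * x n) (fun n => ((g n : ℝ) : ℂ) * y n)‖ ≤
      A * B * (Real.sqrt (∑ n ∈ s, ‖x n‖ ^ 2) * Real.sqrt (∑ n ∈ s', ‖y n‖ ^ 2)) := by
  have hA : 0 ≤ A := le_trans (by positivity) (ha.bd 0 (Nat.zero_le _) 0)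
  refine (h a A ha _ _).trans ?_
  have h1 := sqrt_mult s f hf x
  have h2 := sqrt_mult s' g hg y
  gcongr

/-- one step -/
theorem step {k L1 L2 N : ℕ} {ι ι' : Type*} {s : Finset ι} {s' : Finset ι'} {φ : ι → ι' → E k → ℝ}
    {Z : Set (E k)} {sig γ c0 κ : ℝ} {w : E k → E k} {h1 : Fin L1 → E k → ℝ} {f1 : Fin L1 → ι → ℝ}
    {g1 : Fin L1 → ι' → ℝ} {h2 : Fin L2 → E k → ℝ} {f2 : Fin L2 → ι → ℝ} {g2 : Fin L2 → ι' → ℝ}
    (D : Dat L1 L2 (N + 1) s s' φ Z sig γ c0 κ w h1 f1 g1 h2 f2 g2) (hZ : IsCompact Z) (hsig : 0 < sig)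
    (hγ : 0 ≤ γ) (hκ : 0 ≤ κ) (hc0 : 0 ≤ c0) (hc1 : (L1 : ℝ) * (2 ^ (N + 1) * c0) ≤ 1 / 2) {B BN : ℝ}
    (hB : 0 ≤ B) (hBN : 0 ≤ BN) (h0 : PB s s' φ 0 sig Z B) (hN : PB s s' φ N sig Z BN) :
    PB s s' φ (N + 1) sig Z (2 * ((k * 2 ^ (N + 1) * (γ / sig) + L2 * (2 ^ (N + 1) * κ)) * BN)) := by
  set K : ℝ := (k * 2 ^ (N + 1) * (γ / sig) + L2 * (2 ^ (N + 1) * κ)) * BN with hK
  have hK0 : 0 ≤ K := by positivity
  have improve : ∀ t : ℝ, 0 ≤ t → PB s s' φ (N + 1) sig Z t → PB s s' φ (N + 1) sig Z (K + t / 2) := by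
    intro t ht hP a A ha x y
    have hA : 0 ≤ A := le_trans (by positivity) (ha.bd 0 (Nat.zero_le _) 0)
    set S : ℝ := Real.sqrt (∑ n ∈ s, ‖x n‖ ^ 2) * Real.sqrt (∑ n ∈ s', ‖y n‖ ^ 2) with hS
    have hS0 : 0 ≤ S := by positivity
    rw [bf_id D hZ ha.smooth ha.supp x y]
    have e1 : ‖BF s s' φ (dv a w) x y‖ ≤ (k * 2 ^ (N + 1) * (γ / sig) * A) * BN * S :=
      hN _ _ (am_dv hZ.isClosed hsig hγ ha D.ws D.wb) x y
    have e2 : ∀ l : Fin L1, ‖BF s s' φ (fun q => ((h1 l q : ℝ) : ℂ) * a q)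
        (fun n => ((f1 l n : ℝ) : ℂ) * x n) (fun n => ((g1 l n : ℝ) : ℂ) * y n)‖ ≤
        (2 ^ (N + 1) * c0 * A) * t * S := fun l =>
      bf_mult ht hP (am_mulr hZ.isClosed hsig hc0 ha (D.h1s l) (D.h1b l)) _ _ (D.f1b l) (D.g1b l) x y
    have e3 : ∀ l : Fin L2, ‖BF s s' φ (fun q => ((h2 l q : ℝ) : ℂ) * a q)
        (fun n => ((f2 l n : ℝ) : ℂ) * x n) (fun n => ((g2 l n : ℝ) : ℂ) * y n)‖ ≤
        (2 ^ (N + 1) * κ * A) * BN * S := fun l =>
      bf_mult hBN hN ((am_mulr hZ.isClosed hsig hκ ha (D.h2s l) (D.h2b l)).mono (Nat.le_succ N) le_rfl) _ _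
        (D.f2b l) (D.g2b l) x y
    calc ‖BF s s' φ (dv a w) x y -
          (∑ l, BF s s' φ (fun q => ((h1 l q : ℝ) : ℂ) * a q) (fun n => ((f1 l n : ℝ) : ℂ) * x n)
            (fun n => ((g1 l n : ℝ) : ℂ) * y n)) -
          ∑ l, BF s s' φ (fun q => ((h2 l q : ℝ) : ℂ) * a q) (fun n => ((f2 l n : ℝ) : ℂ) * x n)
            (fun n => ((g2 l n : ℝ) : ℂ) * y n)‖
        ≤ ‖BF s s' φ (dv a w) x y‖ +
          (∑ l, ‖BF s s' φ (fun q => ((h1 l q : ℝ) : ℂ) * a q) (fun n => ((f1 l n : ℝ) : ℂ) * x n)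
            (fun n => ((g1 l n : ℝ) : ℂ) * y n)‖) +
          ∑ l, ‖BF s s' φ (fun q => ((h2 l q : ℝ) : ℂ) * a q) (fun n => ((f2 l n : ℝ) : ℂ) * x n)
            (fun n => ((g2 l n : ℝ) : ℂ) * y n)‖ := by
          refine (norm_sub_le _ _).trans ?_
          refine add_le_add ((norm_sub_le _ _).trans (add_le_add le_rfl (norm_sum_le _ _))) (norm_sum_le _ _)
      _ ≤ (k * 2 ^ (N + 1) * (γ / sig) * A) * BN * S + (∑ _l : Fin L1, (2 ^ (N + 1) * c0 * A) * t * S) +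
          ∑ _l : Fin L2, (2 ^ (N + 1) * κ * A) * BN * S :=
          add_le_add (add_le_add e1 (Finset.sum_le_sum fun l _ => e2 l)) (Finset.sum_le_sum fun l _ => e3 l)
      _ = A * K * S + ((L1 : ℝ) * (2 ^ (N + 1) * c0)) * (A * t * S) := by
          simp only [Finset.sum_const, Finset.card_univ, Fintype.card_fin, nsmul_eq_mul]
          rw [hK]
          ring
      _ ≤ A * K * S + 1 / 2 * (A * t * S) := by
          have : 0 ≤ A * t * S := by positivity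
          gcongr
      _ = A * (K + t / 2) * S := by ring
  have iter : ∀ p : ℕ, PB s s' φ (N + 1) sig Z (2 * K + B * (1 / 2) ^ p) := by
    intro p
    induction p with
    | zero =>
      refine h0.mono (Nat.zero_le _) ?_
      rw [pow_zero, mul_one]
      linarith
    | succ p ih =>
      refine (improve _ (by positivity) ih).mono le_rfl (le_of_eq ?_)
      rw [pow_succ]
      ring
  intro a A ha x y
  have hA : 0 ≤ A := le_trans (by positivity) (ha.bd 0 (Nat.zero_le _) 0)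
  have ht : Filter.Tendsto (fun p : ℕ => A * (2 * K + B * (1 / 2) ^ p) *
      (Real.sqrt (∑ n ∈ s, ‖x n‖ ^ 2) * Real.sqrt (∑ n ∈ s', ‖y n‖ ^ 2))) Filter.atTop
      (𝓝 (A * (2 * K + B * 0) * (Real.sqrt (∑ n ∈ s, ‖x n‖ ^ 2) * Real.sqrt (∑ n ∈ s', ‖y n‖ ^ 2)))) := by
    refine Filter.Tendsto.mul_const _ (Filter.Tendsto.const_mul _ (Filter.Tendsto.const_add _
      (Filter.Tendsto.const_mul _ ?_)))
    exact tendsto_pow_atTop_nhds_zero_of_lt_one (by norm_num) (by norm_num)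
  rw [mul_zero, add_zero] at ht
  exact ge_of_tendsto' ht fun p => iter p a A ha x y

/-- **Block integration by parts.** -/
theorem block_ibp (k L1 L2 N : ℕ) : ∃ C c0 : ℝ, 1 ≤ C ∧ 0 < c0 ∧
    ∀ {ι ι' : Type} (s : Finset ι) (s' : Finset ι') (φ : ι → ι' → E k → ℝ) (Z : Set (E k)) (sig γ κ : ℝ)
      (w : E k → E k) (h1 : Fin L1 → E k → ℝ) (f1 : Fin L1 → ι → ℝ) (g1 : Fin L1 → ι' → ℝ)
      (h2 : Fin L2 → E k → ℝ) (f2 : Fin L2 → ι → ℝ) (g2 : Fin L2 → ι' → ℝ) (B : ℝ),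
      Dat L1 L2 N s s' φ Z sig γ c0 κ w h1 f1 g1 h2 f2 g2 → IsCompact Z → 0 < sig → 0 ≤ γ → 0 ≤ κ → 0 ≤ B →
      PB s s' φ 0 sig Z B → PB s s' φ N sig Z ((C * (γ / sig + κ)) ^ N * B) := by
  induction N with
  | zero =>
    refine ⟨1, 1, le_rfl, one_pos, ?_⟩
    intro ι ι' s s' φ Z sig γ κ w h1 f1 g1 h2 f2 g2 B D hZ hsig hγ hκ hB h0
    rw [pow_zero, one_mul]
    exact h0
  | succ N ih =>
    obtain ⟨C, c0, hC, hc0, ih⟩ := ih
    refine ⟨C + 2 * (2 ^ (N + 1) * (k + L2)), min c0 (1 / (2 * (L1 * 2 ^ (N + 1) + 1))), ?_, ?_, ?_⟩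
    · have : (0 : ℝ) ≤ 2 * (2 ^ (N + 1) * (k + L2)) := by positivity
      linarith
    · exact lt_min hc0 (by positivity)
    · intro ι ι' s s' φ Z sig γ κ w h1 f1 g1 h2 f2 g2 B D hZ hsig hγ hκ hB h0
      set c1 : ℝ := min c0 (1 / (2 * (L1 * 2 ^ (N + 1) + 1))) with hc1
      have hc1' : c1 ≤ c0 := min_le_left _ _
      have hc10 : 0 < c1 := lt_min hc0 (by positivity)
      have hc2 : (L1 : ℝ) * (2 ^ (N + 1) * c1) ≤ 1 / 2 := by
        have h3 : c1 ≤ 1 / (2 * (L1 * 2 ^ (N + 1) + 1)) := min_le_right _ _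
        have h4 : (0 : ℝ) < 2 * (L1 * 2 ^ (N + 1) + 1) := by positivity
        rw [le_div_iff₀ h4] at h3
        nlinarith
      have D' : Dat L1 L2 N s s' φ Z sig γ c0 κ w h1 f1 g1 h2 f2 g2 :=
        { phs := D.phs, ws := D.ws, h1s := D.h1s, h2s := D.h2s
          wb := fun j hj => D.wb j (hj.trans (Nat.le_succ N))
          h1b := fun l j hj q hq => (D.h1b l j (hj.trans (Nat.le_succ N)) q hq).trans hc1'
          h2b := fun l j hj => D.h2b l j (hj.trans (Nat.le_succ N))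
          f1b := D.f1b, f2b := D.f2b, g1b := D.g1b, g2b := D.g2b, id := D.id }
      have hN := ih s s' φ Z sig γ κ w h1 f1 g1 h2 f2 g2 B D' hZ hsig hγ hκ hB h0
      have hgk : 0 ≤ γ / sig + κ := by positivity
      have hBN : 0 ≤ (C * (γ / sig + κ)) ^ N * B := by positivity
      refine (step D hZ hsig hγ hκ hc10.le hc2 hB hBN h0 hN).mono le_rfl ?_
      have hg : 0 ≤ γ / sig := by positivity
      have e1 : 2 * (k * 2 ^ (N + 1) * (γ / sig) + L2 * (2 ^ (N + 1) * κ)) ≤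
          (C + 2 * (2 ^ (N + 1) * (k + L2))) * (γ / sig + κ) := by
        have h5 : (0 : ℝ) ≤ 2 ^ (N + 1) := by positivity
        have h6 : (0 : ℝ) ≤ (k : ℝ) := by positivity
        have h7 : (0 : ℝ) ≤ (L2 : ℝ) := by positivity
        have h8 : 0 ≤ C * (γ / sig + κ) := by positivity
        have h9 : 0 ≤ 2 ^ (N + 1) * (k : ℝ) * κ := by positivity
        have h10 : 0 ≤ 2 ^ (N + 1) * (L2 : ℝ) * (γ / sig) := by positivity
        nlinarith
      have e2 : (C * (γ / sig + κ)) ^ N ≤ ((C + 2 * (2 ^ (N + 1) * (k + L2))) * (γ / sig + κ)) ^ N := by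
        have : (0 : ℝ) ≤ 2 * (2 ^ (N + 1) * (k + L2)) := by positivity
        gcongr
        linarith
      calc 2 * ((k * 2 ^ (N + 1) * (γ / sig) + L2 * (2 ^ (N + 1) * κ)) * ((C * (γ / sig + κ)) ^ N * B))
          = (2 * (k * 2 ^ (N + 1) * (γ / sig) + L2 * (2 ^ (N + 1) * κ))) * ((C * (γ / sig + κ)) ^ N * B) := by
            ring
        _ ≤ ((C + 2 * (2 ^ (N + 1) * (k + L2))) * (γ / sig + κ)) *
            (((C + 2 * (2 ^ (N + 1) * (k + L2))) * (γ / sig + κ)) ^ N * B) := by gcongr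
        _ = ((C + 2 * (2 ^ (N + 1) * (k + L2))) * (γ / sig + κ)) ^ (N + 1) * B := by
            rw [pow_succ]
            ring

end Pool.Agent.Lib.MP_a8dae7_an.UN.IBP0M
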