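import Pool.Agent.Lib.MP_a8dae7_an.UN.SpecZ

/-!
# UN: module JF, the interface of its two halves (JFa: helper92, JFb: helper18)

`Th` is the exponent of the `TT*` kernel (without the factor `e^{i lam (t - t'')}`, which does not depend on `b'`);
`Ths` is `Th` on the cell of centre `b2`, rescaled to the unit ball: `b' = b2 + 2 wc x`; `ac` is the rescaled cutoff.
-/

set_option autoImplicit false

open MeasureTheory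
open scoped ContDiff

namespace Pool.Agent.Lib.MP_a8dae7_an.UN

open Pool.Agent.Lib.MP_a8dae7_an.CV (EE zv ex pq pi2 AA sl bm)

/-- the exponent of the `TT*` kernel -/
noncomputable def Th {m : ℕ} {c R : ℝ} {M : ℕ → ℝ} (ch : UChart (m + 1) c R M) (om : EE (m + 2)) (lam r T : ℝ)
    (e : EE (m + 1)) (L : EE m →ₗᵢ[ℝ] EE (m + 1)) (zt : EE (m + 2)) (sg sg' : ℝ) (b b'' q : EE m) : ℂ :=
  FF om lam r T (xd ch e L zt sg sg' b q) + (starRingEnd ℂ) (FF om lam r T (xd ch e L zt sg sg' b'' q))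

/-- the rescaled exponent: `b' = b2 + 2 wc x` -/
noncomputable def Ths {m : ℕ} {c R : ℝ} {M : ℕ → ℝ} (ch : UChart (m + 1) c R M) (om : EE (m + 2)) (lam r T : ℝ)
    (e : EE (m + 1)) (L : EE m →ₗᵢ[ℝ] EE (m + 1)) (zt : EE (m + 2)) (sg sg' : ℝ) (b2 : EE m) (w : ℝ) (b b'' x : EE m) :
    ℂ := Th ch om lam r T e L zt sg sg' b b'' (b2 + (2 * w) • x)

/-- the rescaled cutoff: `1` on `‖x‖ ≤ 1/2`, `0` for `‖x‖ ≥ 1` -/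
noncomputable def ac (m : ℕ) (x : EE m) : ℂ := ((bm m ((1 / 2 : ℝ) • x) : ℝ) : ℂ)

/-- `La` of a pair of cells -/
noncomputable def Lac {m : ℕ} {c R : ℝ} {M : ℕ → ℝ} (ch : UChart (m + 1) c R M) (om : EE (m + 2)) (lam r T : ℝ)
    (e : EE (m + 1)) (L : EE m →ₗᵢ[ℝ] EE (m + 1)) (zt : EE (m + 2)) (sg sg' : ℝ) (b1 b2 : EE m) : ℝ :=
  2 * (1 + Real.sqrt (pq om (xd ch e L zt sg sg' b1 b2)) / wz lam r (inner ℝ om zt)) * (1 + |inner ℝ om zt| / T)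

/-- size of the exponential on the cells, from EX (both halves use it): `b`, `b''` in the cell of `b1`, `b'` within `3 wc` of `b2` -/
def CellExp : Prop := ∀ (m : ℕ) (c R A : ℝ) (M : ℕ → ℝ), 1 ≤ A → Cls c R M → ∃ C : ℝ, 1 ≤ C ∧
  ∀ (ch : UChart (m + 1) c R M), Dm ch (1 / (8 * A)) → ∀ (om : EE (m + 2)) (e : EE (m + 1))
    (L : EE m →ₗᵢ[ℝ] EE (m + 1)), Slice ch om e L →
  ∀ (c9 lam r T sg sg' : ℝ) (zt : EE (m + 2)) (b1 b2 b b'' b' : EE m), 0 < c9 → c9 ≤ 1 → c9 ≤ dl (m + 1) R / 8 →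
  c9 * M 1 ≤ 1 / 28 → Par A lam r T (inner ℝ om zt) →
  |sg| ≤ 2 * dl (m + 1) R → |sg'| ≤ 2 * dl (m + 1) R → ‖b1‖ ≤ 2 * dl (m + 1) R → ‖b2‖ ≤ 2 * dl (m + 1) R →
  ‖b - b1‖ ≤ wc c9 lam r (inner ℝ om zt) → ‖b'' - b1‖ ≤ wc c9 lam r (inner ℝ om zt) →
  ‖b' - b2‖ ≤ 3 * wc c9 lam r (inner ℝ om zt) →
  ‖Complex.exp (Th ch om lam r T e L zt sg sg' b b'' b')‖ ≤ C * (lam / |inner ℝ om zt|) ^ (m + 1) *
    Real.exp (-(9 / 32 * (inner ℝ om zt / T) ^ 2) -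
      pq om (xd ch e L zt sg sg' b1 b2) / (2 * wz lam r (inner ℝ om zt) ^ 2))

/-- the alternative of NG on every ball, for the rescaled cell -/
def BallAltU : Prop := ∀ (m : ℕ) (c R A : ℝ) (M : ℕ → ℝ), 1 ≤ A → Cls c R M → ∀ N : ℕ, ∃ A0 B C : ℝ, 0 ≤ A0 ∧
  0 ≤ B ∧ 1 ≤ C ∧ ∀ (ch : UChart (m + 1) c R M), Dm ch (1 / (8 * A)) → ∀ (om : EE (m + 2)) (e : EE (m + 1))
    (L : EE m →ₗᵢ[ℝ] EE (m + 1)), Slice ch om e L →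
  ∀ (c9 lam r T sg sg' w La rho : ℝ) (zt : EE (m + 2)) (b1 b2 b b'' : EE m), 0 < c9 → c9 ≤ 1 →
  c9 ≤ dl (m + 1) R / 8 → c9 * M 1 ≤ 1 / 28 → Par A lam r T (inner ℝ om zt) →
  |sg| ≤ 2 * dl (m + 1) R → |sg'| ≤ 2 * dl (m + 1) R → ‖b1‖ ≤ 2 * dl (m + 1) R → ‖b2‖ ≤ 2 * dl (m + 1) R →
  w = wc c9 lam r (inner ℝ om zt) → ‖b - b1‖ ≤ w → ‖b'' - b1‖ ≤ w → 0 < ‖b - b''‖ →
  La = Lac ch om lam r T e L zt sg sg' b1 b2 → C ≤ lam → C * La * r ≤ lam →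
  rho = (4 * La ^ 4)⁻¹ * min 1 (w * Real.sqrt (lam / |inner ℝ om zt| * ‖b - b''‖))⁻¹ →
  ∀ q0 : EE m, (∀ q ∈ Metric.ball q0 rho, ac m q = 0) ∨
    ((∀ q ∈ Metric.ball q0 rho, ∀ j ≤ N, ‖iteratedFDeriv ℝ j (ac m) q‖ * rho ^ j ≤ A0) ∧
    (∀ q ∈ Metric.ball q0 rho, ∀ j : ℕ, 2 ≤ j → j ≤ N + 2 →
      ‖iteratedFDeriv ℝ j (Ths ch om lam r T e L zt sg sg' b2 w b b'') q‖ * rho ^ j ≤ B) ∧
    (∀ v, rho * |(fderiv ℝ (Ths ch om lam r T e L zt sg sg' b2 w b b'') q0 v).re| ≤ B * ‖v‖) ∧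
    (∃ v : EE m, ‖v‖ ≤ 1 ∧ rho * (w * (lam / |inner ℝ om zt|) * ‖b - b''‖) / C ≤
      rho * |(fderiv ℝ (Ths ch om lam r T e L zt sg sg' b2 w b b'') q0 v).im|) ∧
    ‖Complex.exp (Ths ch om lam r T e L zt sg sg' b2 w b b'' q0)‖ ≤ C * (lam / |inner ℝ om zt|) ^ (m + 1) *
      Real.exp (-(9 / 32 * (inner ℝ om zt / T) ^ 2) -
        pq om (xd ch e L zt sg sg' b1 b2) / (2 * wz lam r (inner ℝ om zt) ^ 2)))

/-- smoothness, for NG -/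
def SmoothTh : Prop := ∀ (m : ℕ) (c R : ℝ) (M : ℕ → ℝ) (ch : UChart (m + 1) c R M) (om : EE (m + 2))
  (lam r T : ℝ) (e : EE (m + 1)) (L : EE m →ₗᵢ[ℝ] EE (m + 1)) (zt : EE (m + 2)) (sg sg' : ℝ) (b b'' : EE m), 0 < r →
  ContDiff ℝ ∞ (Th ch om lam r T e L zt sg sg' b b'')

end Pool.Agent.Lib.MP_a8dae7_an.UN
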