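import Pool.Agent.Lib.MP_a8dae7_an.UN.SpecZ
import Pool.Agent.Lib.MP_a8dae7_an.CV.Z1

/-!
# MP_a8dae7_an, UN, module Z_DB1: base for `SpecDBU` and its clause (1)

Base: `exD`, `sl_norm`, `Be_Xs`, `block`, `diff` for `UChart` (constants `A`, `D`).
Scaling: `x ↦ A x`, `lam ↦ lam/A`, `r ↦ r/A` leaves the imaginary part invariant (`im_scale`) and reduces `|t| ≥ 7/(8A)` to
`|t| ≥ 7/8`, so that `abs_im`, `abs_re`, `abs_re1` of CV/DB apply.
-/

set_option autoImplicit false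

open MeasureTheory
open scoped ContDiff

namespace Pool.Agent.Lib.MP_a8dae7_an.UN.Z_DB1M

open Pool.Agent.Lib.MP_a8dae7_an.CV (EE zv ex pq pi2 AA sl bm)
open Pool.Agent.Lib.MP_a8dae7_an.CV.DBM

lemma exD (M : ℕ → ℝ) (N : ℕ) : ∃ D : ℝ, 1 ≤ D ∧ ∀ j : ℕ, j ≤ N → M j ≤ D := by
  refine ⟨1 + ∑ j ∈ Finset.range (N + 1), |M j|, ?_, fun j hj => ?_⟩
  · have : 0 ≤ ∑ j ∈ Finset.range (N + 1), |M j| := Finset.sum_nonneg fun _ _ => abs_nonneg _
    linarith
  · have h1 : |M j| ≤ ∑ j ∈ Finset.range (N + 1), |M j| :=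
      Finset.single_le_sum (f := fun j => |M j|) (fun _ _ => abs_nonneg _)
        (Finset.mem_range.2 (by omega))
    have h2 := le_abs_self (M j)
    linarith

lemma dl_pos' (k : ℕ) {R : ℝ} (hR : 0 < R) : 0 < dl k R := by
  unfold dl
  positivity

lemma four_dl_le (k : ℕ) {R : ℝ} (hR : 0 < R) : 4 * dl k R ≤ R := by
  unfold dl
  have h1 : (1 : ℝ) ≤ 32 ^ k := one_le_pow₀ (by norm_num)
  have h2 : (0 : ℝ) < 4 * 32 ^ k := by positivity
  rw [mul_div_assoc', div_le_iff₀ h2]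
  nlinarith

section slice
variable {m : ℕ} {c R : ℝ} {M : ℕ → ℝ} {ch : UChart (m + 1) c R M} {om : EE (m + 2)} {e : EE (m + 1)}
  {L : EE m →ₗᵢ[ℝ] EE (m + 1)}

lemma sl_norm (h : Slice ch om e L) (hR : 0 < R) {sg : ℝ} {b : EE m} (hsg : |sg| ≤ 2 * dl (m + 1) R)
    (hb : ‖b‖ ≤ 3 * dl (m + 1) R) : ‖sl e L sg b‖ ≤ R := by
  have hdl := dl_pos' (m + 1) hR
  have h4 := four_dl_le (m + 1) hR
  have h0 : inner ℝ (sg • e) (L b) = 0 := by rw [real_inner_smul_left, h.eL, mul_zero]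
  have h1 := norm_add_sq_eq_norm_sq_add_norm_sq_of_inner_eq_zero (sg • e) (L b) h0
  have h2 : ‖sl e L sg b‖ ^ 2 ≤ (4 * dl (m + 1) R) ^ 2 := by
    unfold sl
    rw [pow_two, h1, norm_smul, h.e_one, L.norm_map, mul_one, Real.norm_eq_abs]
    have a1 : |sg| * |sg| ≤ (2 * dl (m + 1) R) * (2 * dl (m + 1) R) :=
      mul_le_mul hsg hsg (abs_nonneg _) (by positivity)
    have a2 : ‖b‖ * ‖b‖ ≤ (3 * dl (m + 1) R) * (3 * dl (m + 1) R) :=
      mul_le_mul hb hb (norm_nonneg _) (by positivity)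
    nlinarith
  exact (le_of_sq_le_sq h2 (by positivity)).trans h4

lemma contDiff_Xs (ch : UChart (m + 1) c R M) (e : EE (m + 1)) (L : EE m →ₗᵢ[ℝ] EE (m + 1)) (sg : ℝ) :
    ContDiff ℝ ∞ (fun y : EE m => ch.X (sl e L sg y)) := by
  have : ContDiff ℝ ∞ (fun y : EE m => sl e L sg y) :=
    contDiff_const.add L.toContinuousLinearMap.contDiff
  exact ch.smooth.comp this

lemma Be_Xs (h : Slice ch om e L) (hR : 0 < R) {N : ℕ} {D : ℝ} (hD : ∀ j : ℕ, j ≤ N → M j ≤ D)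
    {sg : ℝ} {b : EE m} (hsg : |sg| ≤ 2 * dl (m + 1) R)
    (hb : ‖b‖ ≤ 3 * dl (m + 1) R) : Be N (fun y : EE m => ch.X (sl e L sg y)) b D := by
  intro j h1j hj
  have h1 : (fun y : EE m => ch.X (sl e L sg y)) =
    (fun q => ch.X (sg • e + q)) ∘ L.toContinuousLinearMap := rfl
  have hc : ContDiff ℝ ∞ (fun q => ch.X (sg • e + q)) := ch.smooth.comp (contDiff_const.add contDiff_id)
  rw [h1, ContinuousLinearMap.iteratedFDeriv_comp_right _ hc b (le_inf j), iteratedFDeriv_comp_add_left]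
  refine (ContinuousMultilinearMap.norm_compContinuousLinearMap_le _ _).trans ?_
  have h2 : ∏ _i : Fin j, ‖L.toContinuousLinearMap‖ ≤ 1 := by
    refine Finset.prod_le_one (fun _ _ => norm_nonneg _) fun _ _ => L.norm_toContinuousLinearMap_le
  have h3 := (ch.bd j h1j (sl e L sg b) (sl_norm h hR hsg hb)).trans (hD j hj)
  calc _ ≤ D * 1 := mul_le_mul h3 h2 (Finset.prod_nonneg fun _ _ => norm_nonneg _)
        ((norm_nonneg _).trans h3)
    _ = D := mul_one D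

/-- the two functions `t`, `s` of a block and their bounds -/
lemma block (h : Slice ch om e L) (hR : 0 < R) {A : ℝ} (hA : 1 ≤ A) (hdm : Dm ch (1 / (8 * A))) {N : ℕ} {D : ℝ}
    (hD1 : 1 ≤ D) (hN : 1 ≤ N) (hD : ∀ j : ℕ, j ≤ N → M j ≤ D)
    {sg sg' : ℝ} {zt : EE (m + 2)} {b b' : EE m} (hsg : |sg| ≤ 2 * dl (m + 1) R)
    (hsg' : |sg'| ≤ 2 * dl (m + 1) R) (hb : ‖b‖ ≤ 3 * dl (m + 1) R) (hb' : ‖b'‖ ≤ 3 * dl (m + 1) R)
    (hz : 1 / A ≤ |(inner ℝ om zt : ℝ)|) {W : ℝ} (hW : 0 ≤ W)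
    (hq : pq om (xd ch e L zt sg sg' b b') ≤ W ^ 2) :
    ContDiff ℝ ∞ (fun y => xd ch e L zt sg sg' b y) ∧
    ContDiff ℝ ∞ (fun y => (inner ℝ om (xd ch e L zt sg sg' b y) : ℝ)) ∧
    ContDiff ℝ ∞ (fun y => pq om (xd ch e L zt sg sg' b y)) ∧
    Be N (fun y => xd ch e L zt sg sg' b y) b' D ∧
    Be N (fun y => (inner ℝ om (xd ch e L zt sg sg' b y) : ℝ)) b' D ∧
    Bd N (fun y => (inner ℝ om (xd ch e L zt sg sg' b y) : ℝ)) b' (9 / 8 * D * (A * |(inner ℝ om zt : ℝ)|)) ∧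
    Bd N (fun y => pq om (xd ch e L zt sg sg' b y)) b' (2 ^ N * (W + D) * (W + D)) ∧
    ‖fderiv ℝ (fun y => pq om (xd ch e L zt sg sg' b y)) b'‖ ≤ 2 * W * D ∧
    7 / 8 * |(inner ℝ om zt : ℝ)| ≤ |(inner ℝ om (xd ch e L zt sg sg' b b') : ℝ)| ∧
    |(inner ℝ om (xd ch e L zt sg sg' b b') : ℝ)| ≤ 9 / 8 * |(inner ℝ om zt : ℝ)| := by
  have hA0 : 0 < A := by linarith
  have hdl := dl_pos' (m + 1) hR
  have cX := contDiff_Xs ch e L sg'
  have bX := Be_Xs h hR hD hsg' hb'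
  have cx : ContDiff ℝ ∞ (fun y => xd ch e L zt sg sg' b y) := by
    unfold xd
    exact (contDiff_const.sub cX).add contDiff_const
  have bx : Be N (fun y => xd ch e L zt sg sg' b y) b' D := by
    have h1 := (Be.clm cX bX (-ContinuousLinearMap.id ℝ (EE (m + 2))) (c := 1)
      (by rw [norm_neg]; exact ContinuousLinearMap.norm_id_le)).add_const (ch.X (sl e L sg b) + zt)
    rw [one_mul] at h1
    have e1 : (fun y => xd ch e L zt sg sg' b y) = fun y =>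
      (-ContinuousLinearMap.id ℝ (EE (m + 2))) (ch.X (sl e L sg' y)) + (ch.X (sl e L sg b) + zt) := by
      funext y
      simp only [xd, neg_apply, ContinuousLinearMap.id_apply]
      abel
    rw [e1]
    exact h1
  have ct : ContDiff ℝ ∞ (fun y => (inner ℝ om (xd ch e L zt sg sg' b y) : ℝ)) :=
    (innerSL ℝ om).contDiff.comp cx
  have bt : Be N (fun y => (inner ℝ om (xd ch e L zt sg sg' b y) : ℝ)) b' D := by
    have := Be.clm cx bx (innerSL ℝ om) (c := 1) (by rw [innerSL_apply_norm, h.om_one])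
    simpa using this
  have cp : ContDiff ℝ ∞ (fun y => PP om (xd ch e L zt sg sg' b y)) := (PP om).contDiff.comp cx
  have bp : Be N (fun y => PP om (xd ch e L zt sg sg' b y)) b' D := by
    have := Be.clm cx bx (PP om) (opNorm_PP h.om_one)
    simpa using this
  have np : ‖PP om (xd ch e L zt sg sg' b b')‖ ≤ W := by
    have h1 := norm_PP_sq h.om_one (xd ch e L zt sg sg' b b')
    exact le_of_sq_le_sq (by rw [h1]; exact hq) hW
  have Bp : Bd N (fun y => PP om (xd ch e L zt sg sg' b y)) b' (W + D) :=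
    Bd.mk (by linarith) (bp.mono (by linarith))
  have es : (fun y => pq om (xd ch e L zt sg sg' b y)) = fun y =>
      innerSL ℝ (PP om (xd ch e L zt sg sg' b y)) (PP om (xd ch e L zt sg sg' b y)) := by
    funext y
    rw [innerSL_apply_apply, real_inner_self_eq_norm_sq, norm_PP_sq h.om_one]
  have es' : (fun y => pq om (xd ch e L zt sg sg' b y)) = fun y =>
      ‖PP om (xd ch e L zt sg sg' b y)‖ ^ 2 := by
    funext y
    rw [norm_PP_sq h.om_one]
  have cs : ContDiff ℝ ∞ (fun y => pq om (xd ch e L zt sg sg' b y)) := by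
    rw [es']
    exact cp.norm_sq ℝ
  have bs : Bd N (fun y => pq om (xd ch e L zt sg sg' b y)) b' (2 ^ N * (W + D) * (W + D)) := by
    rw [es]
    exact Bd.bil cp cp (innerSL ℝ) (norm_innerSL_le ℝ) Bp Bp
  have n1 : ‖fderiv ℝ (fun y => PP om (xd ch e L zt sg sg' b y)) b'‖ ≤ D := by
    have := bp 1 le_rfl hN
    rwa [norm_iteratedFDeriv_one] at this
  have fs : ‖fderiv ℝ (fun y => pq om (xd ch e L zt sg sg' b y)) b'‖ ≤ 2 * W * D := by
    rw [es']
    have hd := ((cp.differentiable (by simp) b').hasFDerivAt.norm_sq).fderiv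
    rw [hd, two_nsmul]
    have h1 : ‖(innerSL ℝ (PP om (xd ch e L zt sg sg' b b'))).comp
        (fderiv ℝ (fun y => PP om (xd ch e L zt sg sg' b y)) b')‖ ≤ W * D := by
      refine (ContinuousLinearMap.opNorm_comp_le _ _).trans ?_
      rw [innerSL_apply_norm]
      exact mul_le_mul np n1 (norm_nonneg _) hW
    refine (norm_add_le _ _).trans ?_
    linarith
  have hx : |(inner ℝ om (ch.X (sl e L sg b) - ch.X (sl e L sg' b')) : ℝ)| ≤ 1 / 8 * |(inner ℝ om zt : ℝ)| := by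
    have h3 : (1 : ℝ) / (8 * A) = 1 / 8 * (1 / A) := by field_simp
    calc _ ≤ ‖om‖ * ‖ch.X (sl e L sg b) - ch.X (sl e L sg' b')‖ := abs_real_inner_le_norm _ _
      _ = ‖ch.X (sl e L sg b) - ch.X (sl e L sg' b')‖ := by rw [h.om_one, one_mul]
      _ ≤ 1 / (8 * A) := hdm _ _ (sl_norm h hR hsg hb) (sl_norm h hR hsg' hb')
      _ = 1 / 8 * (1 / A) := h3
      _ ≤ _ := mul_le_mul_of_nonneg_left hz (by norm_num)
  have ht : (inner ℝ om (xd ch e L zt sg sg' b b') : ℝ) =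
      inner ℝ om (ch.X (sl e L sg b) - ch.X (sl e L sg' b')) + inner ℝ om zt := by
    rw [xd, inner_add_right]
  have l1 : 7 / 8 * |(inner ℝ om zt : ℝ)| ≤ |(inner ℝ om (xd ch e L zt sg sg' b b') : ℝ)| := by
    rw [ht]
    have := abs_sub_abs_le_abs_add (inner ℝ om zt : ℝ) (inner ℝ om (ch.X (sl e L sg b) - ch.X (sl e L sg' b')))
    rw [add_comm (inner ℝ om zt : ℝ) _] at this
    linarith
  have l2 : |(inner ℝ om (xd ch e L zt sg sg' b b') : ℝ)| ≤ 9 / 8 * |(inner ℝ om zt : ℝ)| := by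
    rw [ht]
    have := abs_add_le (inner ℝ om (ch.X (sl e L sg b) - ch.X (sl e L sg' b')) : ℝ) (inner ℝ om zt)
    linarith
  have hAz : 1 ≤ A * |(inner ℝ om zt : ℝ)| := by
    calc (1 : ℝ) = A * (1 / A) := by field_simp
      _ ≤ _ := mul_le_mul_of_nonneg_left hz hA0.le
  refine ⟨cx, ct, cs, bx, bt, Bd.mk ?_ (bt.mono ?_), bs, fs, l1, l2⟩
  · rw [Real.norm_eq_abs]
    refine l2.trans ?_
    have h5 : |(inner ℝ om zt : ℝ)| ≤ A * |(inner ℝ om zt : ℝ)| := by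
      have := abs_nonneg (inner ℝ om zt : ℝ)
      nlinarith
    have h6 : A * |(inner ℝ om zt : ℝ)| ≤ D * (A * |(inner ℝ om zt : ℝ)|) := by nlinarith
    linarith
  · nlinarith

/-- the difference of two blocks -/
lemma diff (h : Slice ch om e L) (hR : 0 < R) {A : ℝ} (hA : 1 ≤ A) (hdm : Dm ch (1 / (8 * A))) {N : ℕ} {D : ℝ}
    (hD1 : 1 ≤ D) (hN : 1 ≤ N) (hD : ∀ j : ℕ, j ≤ N → M j ≤ D)
    {sg sg' : ℝ} {zt : EE (m + 2)} {b1 b2 b' : EE m} (hsg : |sg| ≤ 2 * dl (m + 1) R)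
    (hsg' : |sg'| ≤ 2 * dl (m + 1) R) (hb1 : ‖b1‖ ≤ 3 * dl (m + 1) R) (hb2 : ‖b2‖ ≤ 3 * dl (m + 1) R)
    (hb' : ‖b'‖ ≤ 3 * dl (m + 1) R)
    (hz : 1 / A ≤ |(inner ℝ om zt : ℝ)|) {W : ℝ} (hW : 0 ≤ W)
    (hq : pq om (xd ch e L zt sg sg' b2 b') ≤ W ^ 2) :
    ∃ c' : ℝ, |c'| ≤ D * ‖b1 - b2‖ ∧
      (∀ y, (inner ℝ om (xd ch e L zt sg sg' b1 y) : ℝ) = inner ℝ om (xd ch e L zt sg sg' b2 y) + c') ∧
      Bd N (fun y => pq om (xd ch e L zt sg sg' b1 y) - pq om (xd ch e L zt sg sg' b2 y)) b'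
        ((2 * W + 2 * D + 1) * (D * ‖b1 - b2‖)) := by
  have hdl := dl_pos' (m + 1) hR
  have hA0 : 0 < A := by linarith
  obtain ⟨cx, -, -, bx, -, -, -, -, -, -⟩ := block h hR hA hdm hD1 hN hD hsg hsg' hb2 hb' hz hW hq
  have cp : ContDiff ℝ ∞ (fun y => PP om (xd ch e L zt sg sg' b2 y)) := (PP om).contDiff.comp cx
  have bp : Be N (fun y => PP om (xd ch e L zt sg sg' b2 y)) b' D := by
    have := Be.clm cx bx (PP om) (opNorm_PP h.om_one)
    simpa using this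
  have np : ‖PP om (xd ch e L zt sg sg' b2 b')‖ ≤ W := by
    have h1 := norm_PP_sq h.om_one (xd ch e L zt sg sg' b2 b')
    exact le_of_sq_le_sq (by rw [h1]; exact hq) hW
  set Dl : EE (m + 2) := ch.X (sl e L sg b1) - ch.X (sl e L sg b2) with hDl
  have m1 : sl e L sg b1 ∈ Metric.closedBall (0 : EE (m + 1)) R := by
    rw [mem_closedBall_zero_iff]
    exact sl_norm h hR hsg hb1
  have m2 : sl e L sg b2 ∈ Metric.closedBall (0 : EE (m + 1)) R := by
    rw [mem_closedBall_zero_iff]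
    exact sl_norm h hR hsg hb2
  have nD : ‖Dl‖ ≤ D * ‖b1 - b2‖ := by
    have h1 := (convex_closedBall (0 : EE (m + 1)) R).norm_image_sub_le_of_norm_fderiv_le
      (f := ch.X) (𝕜 := ℝ) (C := D) (fun x _ => ch.smooth.differentiable (by simp) x) (fun x hx => by
        have := (ch.bd 1 le_rfl x (by simpa using hx)).trans (hD 1 hN)
        rwa [norm_iteratedFDeriv_one] at this) m2 m1
    refine h1.trans (le_of_eq ?_)
    congr 1
    unfold sl
    rw [add_sub_add_left_eq_sub, ← map_sub, L.norm_map]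
  have nD4 : ‖Dl‖ ≤ 1 / 8 := by
    refine (hdm _ _ (by simpa using m1) (by simpa using m2)).trans ?_
    rw [div_le_div_iff₀ (by positivity) (by norm_num)]
    linarith
  have ex : ∀ y, xd ch e L zt sg sg' b1 y = xd ch e L zt sg sg' b2 y + Dl := by
    intro y
    rw [hDl]
    unfold xd
    abel
  refine ⟨inner ℝ om Dl, ?_, fun y => by rw [ex y, inner_add_right], ?_⟩
  · refine (abs_real_inner_le_norm _ _).trans ?_
    rw [h.om_one, one_mul]
    exact nD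
  · have e1 : (fun y => pq om (xd ch e L zt sg sg' b1 y) - pq om (xd ch e L zt sg sg' b2 y)) = fun y =>
        ((2 : ℝ) • innerSL ℝ Dl) (PP om (xd ch e L zt sg sg' b2 y)) + pq om Dl := by
      funext y
      rw [ex y, pq_add, smul_apply, innerSL_apply_apply, smul_eq_mul,
        real_inner_comm]
      ring
    rw [e1]
    have hn : ‖(2 : ℝ) • innerSL ℝ Dl‖ ≤ 2 * ‖Dl‖ := by
      rw [norm_smul, innerSL_apply_norm]
      norm_num
    have hp0 := pq_nonneg h.om_one Dl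
    have hp1 := pq_le (om := om) Dl
    have hD0 := norm_nonneg Dl
    refine Bd.mono (B := (2 * W + 2 * D + 1) * ‖Dl‖) (Bd.mk ?_ ((Be.clm cp bp _ hn).add_const _ |>.mono ?_))
      (mul_le_mul_of_nonneg_left nD (by positivity))
    · refine (norm_add_le _ _).trans ?_
      have h1 := ((2 : ℝ) • innerSL ℝ Dl).le_opNorm (PP om (xd ch e L zt sg sg' b2 b'))
      have h2 : ‖(2 : ℝ) • innerSL ℝ Dl‖ * ‖PP om (xd ch e L zt sg sg' b2 b')‖ ≤ 2 * ‖Dl‖ * W :=
        mul_le_mul hn np (norm_nonneg _) (by positivity)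
      rw [Real.norm_eq_abs (pq om Dl), abs_of_nonneg hp0]
      nlinarith
    · nlinarith

end slice

/-! ### scaling -/

section scale

variable {E : Type*} [NormedAddCommGroup E] [NormedSpace ℝ E]

lemma Be.rmul {N : ℕ} {f : E → ℝ} {x : E} {B a : ℝ} (hf : ContDiff ℝ ∞ f) (ha : 0 ≤ a) (h : Be N f x B) :
    Be N (fun y => a * f y) x (a * B) := by
  have := Be.clm hf h (ContinuousLinearMap.mul ℝ ℝ a) (c := a)
    ((ContinuousLinearMap.opNorm_mul_apply_le ℝ ℝ a).trans (by rw [Real.norm_eq_abs, abs_of_nonneg ha]))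
  simpa using this

lemma Bd.rmul {N : ℕ} {f : E → ℝ} {x : E} {B a : ℝ} (hf : ContDiff ℝ ∞ f) (ha : 0 ≤ a) (h : Bd N f x B) :
    Bd N (fun y => a * f y) x (a * B) := by
  refine Bd.mk ?_ (Be.rmul hf ha h.be)
  rw [norm_mul, Real.norm_eq_abs, abs_of_nonneg ha]
  exact mul_le_mul_of_nonneg_left h.zero ha

lemma AA_scale {lam r A : ℝ} (hl : 0 < lam) (hr : 0 < r) (hA : 0 < A) (t : ℝ) :
    AA (lam / A) (r / A) (A * t) = ((A ^ 2 : ℝ) : ℂ) * AA lam r t := by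
  unfold AA
  have hl' : (lam : ℂ) ≠ 0 := by exact_mod_cast hl.ne'
  have hr' : (r : ℂ) ≠ 0 := by exact_mod_cast hr.ne'
  have hA' : (A : ℂ) ≠ 0 := by exact_mod_cast hA.ne'
  push_cast
  field_simp

lemma ll_scale {lam r A : ℝ} (hl : 0 < lam) (hr : 0 < r) (hA : 0 < A) (t : ℝ) :
    ll (lam / A) (r / A) (A * t) = ((Real.log (A ^ 2) : ℝ) : ℂ) + ll lam r t := by
  unfold ll
  rw [AA_scale hl hr hA, Complex.log_ofReal_mul (by positivity) (AA_ne hr t)]

/-- the `UN` phase in terms of the scaled `CV` phase -/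
lemma FF_scale {k : ℕ} {lam r T A : ℝ} (hl : 0 < lam) (hr : 0 < r) (hA : 0 < A) (om : EE (k + 1)) (x : EE (k + 1)) :
    FF om lam r T x = Fc k (lam / A) (r / A) (A * inner ℝ om x) (A ^ 2 * pq om x) +
      (((A ^ 2 * r ^ 2 / (4 * lam ^ 2) - 1 / (4 * T ^ 2)) * inner ℝ om x ^ 2 : ℝ) : ℂ) +
      (((k : ℝ) / 2 * Real.log (A ^ 2) : ℝ) : ℂ) := by
  unfold FF Fc
  rw [ll_scale hl hr hA, AA_scale hl hr hA]
  have h1 : (((A ^ 2 * pq om x : ℝ)) : ℂ) / (4 * (((A ^ 2 : ℝ) : ℂ) * AA lam r (inner ℝ om x))) =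
      ((pq om x : ℝ) : ℂ) / (4 * AA lam r (inner ℝ om x)) := by
    have hA' : (A : ℂ) ≠ 0 := by exact_mod_cast hA.ne'
    have h2 := AA_ne hr (inner ℝ om x : ℝ) (lam := lam)
    push_cast
    field_simp
  have h3 : (A * inner ℝ om x) ^ 2 * (r / A) ^ 2 / (4 * (lam / A) ^ 2) =
      A ^ 2 * r ^ 2 / (4 * lam ^ 2) * (inner ℝ om x : ℝ) ^ 2 := by
    field_simp
  have h4 : (inner ℝ om x : ℝ) ^ 2 / (4 * T ^ 2) = 1 / (4 * T ^ 2) * (inner ℝ om x : ℝ) ^ 2 := by ring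
  rw [h1, h3, h4]
  unfold ll
  push_cast
  ring

lemma FF_im {k : ℕ} {lam r T A : ℝ} (hl : 0 < lam) (hr : 0 < r) (hA : 0 < A) (om : EE (k + 1)) (x : EE (k + 1)) :
    (FF om lam r T x).im = (Fc k (lam / A) (r / A) (A * inner ℝ om x) (A ^ 2 * pq om x)).im := by
  rw [FF_scale hl hr hA, Complex.add_im, Complex.add_im, Complex.ofReal_im, Complex.ofReal_im]
  ring

lemma FF_re {k : ℕ} {lam r T A : ℝ} (hl : 0 < lam) (hr : 0 < r) (hA : 0 < A) (om : EE (k + 1)) (x : EE (k + 1)) :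
    (FF om lam r T x).re = (Fc k (lam / A) (r / A) (A * inner ℝ om x) (A ^ 2 * pq om x)).re +
      (A ^ 2 * r ^ 2 / (4 * lam ^ 2) - 1 / (4 * T ^ 2)) * inner ℝ om x ^ 2 +
      (k : ℝ) / 2 * Real.log (A ^ 2) := by
  rw [FF_scale hl hr hA, Complex.add_re, Complex.add_re, Complex.ofReal_re, Complex.ofReal_re]

end scale

/-! ### arithmetic -/

lemma part1 {k F P K M D Dp nb c lam La ta W A : ℝ} (hk : 0 ≤ k) (hF : 0 ≤ F) (hP : 0 ≤ P) (hK : 0 ≤ K)
    (hD : 1 ≤ D) (hDp : 0 ≤ Dp) (hnb : 0 ≤ nb) (hc : |c| ≤ D * nb) (hlam : 1 ≤ lam) (hLa : 1 ≤ La)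
    (hA : 1 ≤ A) (hta : 1 ≤ A * ta) (hta0 : 0 < ta) (hW0 : 0 ≤ W) (hW : W ≤ 6 * La ^ 2)
    (hM : M = 8 / 7 / (A * ta)) :
    k / 2 * (F * (A * |c| * (P * (K * M) * (K * M))) * Dp) +
      lam / A / 2 * (P * (A ^ 2 * ((2 * W + 2 * D + 1) * (D * nb))) * (F * (K * M) * Dp)) +
      lam / A / 2 * (A * |c|) * (P * (A ^ 2 * (P * (W + D) * (W + D))) *
        (P * (F * (K * M) * Dp) * (F * (K * M) * Dp))) ≤
    (k / 2 * F * Dp * (P * K * K) * D * 2 + P * F * K * Dp * (15 * D ^ 2) +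
      P * P * P * (F * K * Dp) ^ 2 * (49 * D ^ 3) * A) * La ^ 4 * (lam / ta) * nb := by
  have hlam0 : 0 < lam := by linarith
  have hA0 : 0 < A := by linarith
  have hD0 : 0 < D := by linarith
  have La2 : 1 ≤ La ^ 2 := one_le_pow₀ hLa
  have La4 : La ^ 2 ≤ La ^ 4 := pow_le_pow_right₀ hLa (by norm_num)
  have La4' : 1 ≤ La ^ 4 := one_le_pow₀ hLa
  have hM0 : 0 ≤ M := by rw [hM]; positivity
  have hq : 0 ≤ lam / ta := by positivity
  have hc0 := abs_nonneg c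
  have hDn : 0 ≤ D * nb := by positivity
  have hAM : A * M = 8 / 7 * (1 / ta) := by
    rw [hM]
    field_simp
  have h1ta : 1 / ta ≤ lam / ta := div_le_div_of_nonneg_right hlam hta0.le
  have h1A : 1 / ta ≤ A := by
    rw [div_le_iff₀ hta0]
    exact hta
  have hM1 : M ≤ 8 / 7 := by
    rw [hM]
    rw [div_le_iff₀ (by positivity)]
    linarith
  have hAMM : A * (M * M) ≤ 2 * (lam / ta) := by
    calc A * (M * M) = (A * M) * M := by ring
      _ ≤ (A * M) * (8 / 7) := mul_le_mul_of_nonneg_left hM1 (by positivity)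
      _ = 64 / 49 * (1 / ta) := by rw [hAM]; ring
      _ ≤ 64 / 49 * (lam / ta) := mul_le_mul_of_nonneg_left h1ta (by norm_num)
      _ ≤ _ := mul_le_mul_of_nonneg_right (by norm_num) hq
  have hlAM : lam * (A * M) = 8 / 7 * (lam / ta) := by rw [hAM]; ring
  have hlAMM : lam * (A * M * (A * M)) ≤ 2 * A * (lam / ta) := by
    calc lam * (A * M * (A * M)) = (64 / 49 * (lam / ta)) * (1 / ta) := by rw [hAM]; ring
      _ ≤ (64 / 49 * (lam / ta)) * A := mul_le_mul_of_nonneg_left h1A (by positivity)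
      _ = 64 / 49 * (A * (lam / ta)) := by ring
      _ ≤ 2 * (A * (lam / ta)) := mul_le_mul_of_nonneg_right (by norm_num) (by positivity)
      _ = _ := by ring
  have A1 : 2 * W + 2 * D + 1 ≤ 15 * D * La ^ 2 := by nlinarith
  have A2 : W + D ≤ 7 * D * La ^ 2 := by nlinarith
  have A22 : (W + D) * (W + D) ≤ 49 * D ^ 2 * La ^ 4 := by
    calc (W + D) * (W + D) ≤ (7 * D * La ^ 2) * (7 * D * La ^ 2) :=
          mul_le_mul A2 A2 (by positivity) (by positivity)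
      _ = _ := by ring
  have t1 : k / 2 * (F * (A * |c| * (P * (K * M) * (K * M))) * Dp) ≤
      k / 2 * F * Dp * (P * K * K) * D * 2 * La ^ 4 * (lam / ta) * nb := by
    calc k / 2 * (F * (A * |c| * (P * (K * M) * (K * M))) * Dp)
        = (k / 2 * F * Dp * (P * K * K)) * (|c| * (A * (M * M))) := by ring
      _ ≤ (k / 2 * F * Dp * (P * K * K)) * ((D * nb) * (2 * (lam / ta))) :=
          mm (by positivity) hc hAMM (by positivity) hDn
      _ = (k / 2 * F * Dp * (P * K * K) * D * 2 * (lam / ta) * nb) * 1 := by ring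
      _ ≤ (k / 2 * F * Dp * (P * K * K) * D * 2 * (lam / ta) * nb) * La ^ 4 :=
          mul_le_mul_of_nonneg_left La4' (by positivity)
      _ = _ := by ring
  have t2 : lam / A / 2 * (P * (A ^ 2 * ((2 * W + 2 * D + 1) * (D * nb))) * (F * (K * M) * Dp)) ≤
      P * F * K * Dp * (15 * D ^ 2) * La ^ 4 * (lam / ta) * nb := by
    calc lam / A / 2 * (P * (A ^ 2 * ((2 * W + 2 * D + 1) * (D * nb))) * (F * (K * M) * Dp))
        = (1 / 2 * P * (F * K * Dp) * (D * nb) * (lam * (A * M))) * (2 * W + 2 * D + 1) := by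
          field_simp
      _ ≤ (1 / 2 * P * (F * K * Dp) * (D * nb) * (lam * (A * M))) * (15 * D * La ^ 2) :=
          mul_le_mul_of_nonneg_left A1 (by positivity)
      _ = (4 / 7) * ((P * F * K * Dp * (15 * D ^ 2) * (lam / ta) * nb) * La ^ 2) := by
          rw [hlAM]; ring
      _ ≤ 1 * ((P * F * K * Dp * (15 * D ^ 2) * (lam / ta) * nb) * La ^ 4) :=
          mul_le_mul (by norm_num) (mul_le_mul_of_nonneg_left La4 (by positivity)) (by positivity)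
            (by norm_num)
      _ = _ := by ring
  have t3 : lam / A / 2 * (A * |c|) * (P * (A ^ 2 * (P * (W + D) * (W + D))) *
        (P * (F * (K * M) * Dp) * (F * (K * M) * Dp))) ≤
      P * P * P * (F * K * Dp) ^ 2 * (49 * D ^ 3) * A * La ^ 4 * (lam / ta) * nb := by
    calc lam / A / 2 * (A * |c|) * (P * (A ^ 2 * (P * (W + D) * (W + D))) *
        (P * (F * (K * M) * Dp) * (F * (K * M) * Dp)))
        = (1 / 2 * P * P * P * (F * K * Dp) ^ 2 * (lam * (A * M * (A * M)))) *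
            (|c| * ((W + D) * (W + D))) := by
          field_simp
      _ ≤ (1 / 2 * P * P * P * (F * K * Dp) ^ 2 * (lam * (A * M * (A * M)))) *
            ((D * nb) * (49 * D ^ 2 * La ^ 4)) :=
          mm (by positivity) hc A22 (by positivity) hDn
      _ = (1 / 2 * P * P * P * (F * K * Dp) ^ 2 * (D * nb) * (49 * D ^ 2 * La ^ 4)) *
            (lam * (A * M * (A * M))) := by ring
      _ ≤ (1 / 2 * P * P * P * (F * K * Dp) ^ 2 * (D * nb) * (49 * D ^ 2 * La ^ 4)) *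
            (2 * A * (lam / ta)) := mul_le_mul_of_nonneg_left hlAMM (by positivity)
      _ = _ := by ring
  calc _ ≤ _ := add_le_add (add_le_add t1 t2) t3
    _ = _ := by ring

/-- `w_z ≤ 2 La` -/
lemma wz_le {A lam r T tz La : ℝ} (hP : Par A lam r T tz) (hLa : 1 ≤ La) (h : |tz| ≤ 2 * La * T) :
    wz lam r tz ≤ 2 * La := by
  have hl : 0 < lam := by linarith [hP.lam1]
  have hr : 0 < r := by linarith [hP.r1]
  have hT : 0 < T := by linarith [hP.T1]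
  unfold wz
  rw [div_le_iff₀ hl]
  calc r * |tz| ≤ r * (2 * La * T) := mul_le_mul_of_nonneg_left h hr.le
    _ = 2 * La * (r * T) := by ring
    _ ≤ _ := mul_le_mul_of_nonneg_left hP.rT (by positivity)

/-- clause (1) of `SpecDBU` -/
theorem clause1 (m : ℕ) (c R A : ℝ) (M : ℕ → ℝ) (hA : 1 ≤ A) (hcls : Cls c R M) (N : ℕ) : ∃ C : ℝ, 1 ≤ C ∧
    ∀ (ch : UChart (m + 1) c R M), Dm ch (1 / (8 * A)) → ∀ (om : EE (m + 2)) (e : EE (m + 1))
      (L : EE m →ₗᵢ[ℝ] EE (m + 1)), Slice ch om e L →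
    ∀ (lam r T La sg sg' : ℝ) (zt : EE (m + 2)) (b1 b2 b' : EE m), Par A lam r T (inner ℝ om zt) → 1 ≤ La →
    |inner ℝ om zt| ≤ 2 * La * T → |sg| ≤ 2 * dl (m + 1) R → |sg'| ≤ 2 * dl (m + 1) R →
    ‖b1‖ ≤ 3 * dl (m + 1) R → ‖b2‖ ≤ 3 * dl (m + 1) R → ‖b'‖ ≤ 3 * dl (m + 1) R →
    pq om (xd ch e L zt sg sg' b1 b') ≤ (3 * La * wz lam r (inner ℝ om zt)) ^ 2 →
    pq om (xd ch e L zt sg sg' b2 b') ≤ (3 * La * wz lam r (inner ℝ om zt)) ^ 2 →
    ∀ j : ℕ, 1 ≤ j → j ≤ N → ‖iteratedFDeriv ℝ j (fun b => (FF om lam r T (xd ch e L zt sg sg' b1 b)).im -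
      (FF om lam r T (xd ch e L zt sg sg' b2 b)).im) b'‖ ≤ C * La ^ 4 * (lam / |inner ℝ om zt|) * ‖b1 - b2‖ := by
  obtain ⟨D, hD1, hD⟩ := exD M (N + 1)
  have hR := hcls.R_pos
  have hA0 : 0 < A := by linarith
  have hD0 : 0 < D := by linarith
  have hK := KK_pos (N + 1)
  set C1 : ℝ := (((m + 1 : ℕ) : ℝ) / 2 * ((N + 1).factorial : ℝ) * (A * D) ^ (N + 1) *
    (2 ^ (N + 1) * KK (N + 1) * KK (N + 1)) * D * 2 +
    2 ^ (N + 1) * ((N + 1).factorial : ℝ) * KK (N + 1) * (A * D) ^ (N + 1) * (15 * D ^ 2) +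
      2 ^ (N + 1) * 2 ^ (N + 1) * 2 ^ (N + 1) * (((N + 1).factorial : ℝ) * KK (N + 1) * (A * D) ^ (N + 1)) ^ 2 *
        (49 * D ^ 3) * A) with hC1
  have p1 : 0 ≤ C1 := by rw [hC1]; positivity
  refine ⟨1 + C1, by linarith, ?_⟩
  intro ch hdm om e L hS lam r T La sg sg' zt b1 b2 b' hP hLa htT hsg hsg' hb1 hb2 hb' hq1 hq2 j hj1 hjN
  have hlam := hP.lam1
  have hl0 : 0 < lam := by linarith
  have hr0 : 0 < r := by linarith [hP.r1]
  have hzA := hP.tA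
  have hwz := wz_le hP hLa htT
  obtain ⟨ta, hta⟩ : ∃ ta : ℝ, ta = |(inner ℝ om zt : ℝ)| := ⟨_, rfl⟩
  have hta0 : 0 < ta := by
    have : 0 < 1 / A := by positivity
    rw [hta]
    linarith
  have hAta : 1 ≤ A * ta := by
    calc (1 : ℝ) = A * (1 / A) := by field_simp
      _ ≤ _ := by rw [hta]; exact mul_le_mul_of_nonneg_left hzA hA0.le
  obtain ⟨W, hW⟩ : ∃ W : ℝ, W = 3 * La * wz lam r (inner ℝ om zt) := ⟨_, rfl⟩
  rw [← hW] at hq1 hq2
  have hw0 : 0 ≤ wz lam r (inner ℝ om zt) := by unfold wz; positivity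
  have hW0 : 0 ≤ W := by rw [hW]; positivity
  have hW6 : W ≤ 6 * La ^ 2 := by
    rw [hW]
    calc 3 * La * wz lam r (inner ℝ om zt) ≤ 3 * La * (2 * La) := mul_le_mul_of_nonneg_left hwz (by positivity)
      _ = _ := by ring
  obtain ⟨cx1, ct1, cs1, bx1, bt1, Bt1, Bs1, fs1, l1, u1⟩ :=
    block hS hR hA hdm hD1 (Nat.le_add_left 1 N) hD hsg hsg' hb1 hb' hzA hW0 hq1
  obtain ⟨cx2, ct2, cs2, bx2, bt2, Bt2, Bs2, fs2, l2, u2⟩ :=
    block hS hR hA hdm hD1 (Nat.le_add_left 1 N) hD hsg hsg' hb2 hb' hzA hW0 hq2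
  obtain ⟨c0, hc0, hTT, Bds⟩ := diff hS hR hA hdm hD1 (Nat.le_add_left 1 N) hD hsg hsg' hb1 hb2 hb' hzA hW0 hq2
  rw [← hta] at l1 l2
  obtain ⟨Mg, hMg⟩ : ∃ Mg : ℝ, Mg = 8 / 7 / (A * ta) := ⟨_, rfl⟩
  have hMg0 : 0 < Mg := by rw [hMg]; positivity
  have hMg1 : Mg ≤ 4 / 3 := by
    rw [hMg, div_le_iff₀ (by positivity)]
    linarith
  have hMi : Mg⁻¹ = A * (7 / 8 * ta) := by
    rw [hMg]
    field_simp
  have g1 : ‖gg (zz (lam / A) (r / A)) (A * inner ℝ om (xd ch e L zt sg sg' b1 b'))‖ ≤ Mg := by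
    refine norm_gg_le hMg0 ?_
    rw [hMi, abs_mul, abs_of_pos hA0]
    exact mul_le_mul_of_nonneg_left l1 hA0.le
  have g2 : ‖gg (zz (lam / A) (r / A)) (A * inner ℝ om (xd ch e L zt sg sg' b2 b'))‖ ≤ Mg := by
    refine norm_gg_le hMg0 ?_
    rw [hMi, abs_mul, abs_of_pos hA0]
    exact mul_le_mul_of_nonneg_left l2 hA0.le
  have hAD : 1 ≤ A * D := by nlinarith
  have hfun : (fun b => (FF om lam r T (xd ch e L zt sg sg' b1 b)).im -
      (FF om lam r T (xd ch e L zt sg sg' b2 b)).im) = fun b =>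
      (Fc (m + 1) (lam / A) (r / A) (A * inner ℝ om (xd ch e L zt sg sg' b1 b))
        (A ^ 2 * pq om (xd ch e L zt sg sg' b1 b))).im -
      (Fc (m + 1) (lam / A) (r / A) (A * inner ℝ om (xd ch e L zt sg sg' b2 b))
        (A ^ 2 * pq om (xd ch e L zt sg sg' b2 b))).im := by
    funext b
    rw [FF_im hl0 hr0 hA0, FF_im hl0 hr0 hA0]
  rw [hfun]
  have hsub : (fun y => A ^ 2 * pq om (xd ch e L zt sg sg' b1 y) - A ^ 2 * pq om (xd ch e L zt sg sg' b2 y)) =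
      fun y => A ^ 2 * (pq om (xd ch e L zt sg sg' b1 y) - pq om (xd ch e L zt sg sg' b2 y)) := by
    funext y
    ring
  have hBds : Bd (N + 1) (fun y => A ^ 2 * pq om (xd ch e L zt sg sg' b1 y) -
      A ^ 2 * pq om (xd ch e L zt sg sg' b2 y)) b' (A ^ 2 * ((2 * W + 2 * D + 1) * (D * ‖b1 - b2‖))) := by
    rw [hsub]
    exact Bd.rmul (cs1.sub cs2) (by positivity) Bds
  have hh := abs_im (N := N + 1) (k := m + 1) (lam := lam / A) (r := r / A) (c := A * c0) (D := A * D) (M := Mg)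
    (by positivity) (by positivity) (contDiff_const.mul ct1) (contDiff_const.mul ct2)
    (contDiff_const.mul cs1) (contDiff_const.mul cs2) (fun y => by rw [hTT y]; ring) hAD
    (Be.rmul ct2 hA0.le bt2) hBds (Bd.rmul cs2 (by positivity) Bs2) g1 g2 hMg1 j hj1 (by omega)
  refine hh.trans ?_
  unfold GB0
  rw [abs_mul, abs_of_pos hA0, ← hta]
  refine (part1 (k := ((m + 1 : ℕ) : ℝ)) (F := ((N + 1).factorial : ℝ)) (P := 2 ^ (N + 1)) (K := KK (N + 1))
    (D := D) (Dp := (A * D) ^ (N + 1)) (nb := ‖b1 - b2‖) (c := c0) (lam := lam) (La := La) (ta := ta)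
    (W := W) (A := A) (M := Mg) (by positivity) (by positivity) (by positivity) hK.le hD1 (by positivity)
    (norm_nonneg _) hc0 hlam hLa hA hAta hta0 hW0 hW6 hMg).trans ?_
  rw [← hC1]
  exact fin3 (by linarith) (by positivity) (by positivity) (norm_nonneg _)

end Pool.Agent.Lib.MP_a8dae7_an.UN.Z_DB1M
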